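import Mathlib

/-!
Shared definitions and interface statements for the work on the pair correlation of the
zeros of the Riemann zeta function (problem MP_f58427_nt).
-/

set_option autoImplicit false

namespace Pool.Agent.PairCorr

open MeasureTheory Filter Topology

/-- The set of nontrivial zeros of the Riemann zeta function. -/
def NTZ : Set ℂ := {ρ | riemannZeta ρ = 0 ∧ 0 < ρ.re ∧ ρ.re < 1}

/-- The multiplicity of `ρ` as a zero of the Riemann zeta function. -/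
noncomputable def mult (ρ : ℂ) : ℕ := analyticOrderNatAt riemannZeta ρ

/-- The pairs of nontrivial zeros counted by `NStar T a`. -/
def pairSet (T a : ℝ) : Set (ℂ × ℂ) :=
  {p | p.1 ∈ NTZ ∧ p.2 ∈ NTZ ∧ 0 < p.1.im ∧ p.1.im ≤ T ∧
    0 < p.1.im - p.2.im ∧ p.1.im - p.2.im ≤ 2 * Real.pi * a / Real.log T}

/-- `N*(T,a)`: the number of ordered pairs `(γ,γ')` of ordinates of nontrivial zeros, listed with
multiplicity, with `0 < γ ≤ T` and `0 < γ - γ' ≤ 2πa / log T`. -/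
noncomputable def NStar (T a : ℝ) : ℝ :=
  ∑ᶠ p ∈ pairSet T a, ((mult p.1 : ℝ) * (mult p.2 : ℝ))

/-- `N(T)`: the number of nontrivial zeros with ordinate in `(0,T]`, with multiplicity. -/
noncomputable def NCount (T : ℝ) : ℝ :=
  ∑ᶠ ρ ∈ {ρ : ℂ | ρ ∈ NTZ ∧ 0 < ρ.im ∧ ρ.im ≤ T}, (mult ρ : ℝ)

/-- `∫_0^a (1 - (sin πu / πu)^2) du`. -/
noncomputable def gue (a : ℝ) : ℝ :=
  ∫ u in (0 : ℝ)..a, (1 - (Real.sin (Real.pi * u) / (Real.pi * u)) ^ 2)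

/-! ### Interface statements -/

/-- The Dirichlet polynomial `∑_{1 ≤ d ≤ N} lam d * d^{-s}`. -/
noncomputable def moll (lam : ℕ → ℝ) (N : ℕ) (s : ℂ) : ℂ :=
  ∑ d ∈ Finset.Icc 1 N, (lam d : ℂ) * (d : ℂ) ^ (-s)

/-- (A), to be proved by helper10: mollified second moment near the critical line. -/
def StatementA : Prop :=
  ∃ θ : ℝ, 0 < θ ∧ θ < 1 ∧ ∃ c : ℝ, 0 < c ∧ ∃ C : ℝ, 0 < C ∧ ∃ T₀ : ℝ, Real.exp 1 ≤ T₀ ∧
    ∀ T : ℝ, T₀ ≤ T → ∃ lam : ℕ → ℝ, lam 1 = 1 ∧ (∀ d, |lam d| ≤ 1) ∧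
      (∀ σ ∈ Set.Icc (1 / 2 : ℝ) (3 / 4),
        ∫ t in (-T)..T, ‖riemannZeta (σ + t * Complex.I) *
          moll lam ⌊T ^ θ⌋₊ (σ + t * Complex.I) - 1‖ ^ 2
          ≤ C * T * Real.exp (-c * (σ - 1 / 2) * Real.log T)) ∧
      (∀ σ ∈ Set.Icc (1 / 4 : ℝ) (1 / 2),
        ∫ t in (-T)..T, ‖riemannZeta (σ + t * Complex.I) *
          moll lam ⌊T ^ θ⌋₊ (σ + t * Complex.I) - 1‖ ^ 2
          ≤ C * T * Real.exp (C * (1 / 2 - σ) * Real.log T))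

/-- The weighted count of nontrivial zeros within `1 / log T` of height `t`. -/
noncomputable def Eloc (c T t : ℝ) : ℝ :=
  ∑ᶠ ρ ∈ {ρ : ℂ | ρ ∈ NTZ ∧ |ρ.im - t| ≤ 1 / Real.log T},
    (mult ρ : ℝ) * Real.exp (c * |ρ.re - 1 / 2| * Real.log T)

/-- (B), to be proved by helper12: all moments of the weighted local zero count. -/
def StatementB : Prop :=
  ∀ p : ℕ, ∃ c : ℝ, 0 < c ∧ ∃ C : ℝ, 0 < C ∧ ∃ T₀ : ℝ, ∀ T : ℝ, T₀ ≤ T →
    IntervalIntegrable (fun t => Eloc c T t ^ p) volume (-(3 * T)) (3 * T) ∧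
    ∫ t in (-(3 * T))..(3 * T), Eloc c T t ^ p ≤ C * T

/-- (B'), to be proved by helper12: the deterministic local bound for the number of zeros. -/
def StatementB' : Prop :=
  ∃ C : ℝ, 0 < C ∧ ∀ t : ℝ,
    ({ρ : ℂ | ρ ∈ NTZ ∧ |ρ.im - t| ≤ 1}).Finite ∧
    ∑ᶠ ρ ∈ {ρ : ℂ | ρ ∈ NTZ ∧ |ρ.im - t| ≤ 1}, (mult ρ : ℝ) ≤ C * Real.log (|t| + 2)

/-- (E), to be proved by helper12: the leading term of the Riemann-von Mangoldt formula. -/
def StatementE : Prop :=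
  Tendsto (fun T : ℝ => NCount T / (T * Real.log T)) atTop (𝓝 (1 / (2 * Real.pi)))

end Pool.Agent.PairCorr
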