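import Mathlib
import Pool.Agent.PairCorr.Defs

/-!
Basic facts on the Riemann zeta function: the fractional part integral, crude bounds, symmetries of
the zeros and of their multiplicities.
-/

set_option autoImplicit false

namespace Pool.Agent.PairCorr

open MeasureTheory Filter Topology Complex Set ComplexConjugate

/-- The fractional part integral `∫_1^∞ {x} x^{-s-1} dx`. -/
noncomputable def fractInt (s : ℂ) : ℂ :=
  ∫ x in Ioi (1 : ℝ), ((Int.fract x : ℝ) : ℂ) * (x : ℂ) ^ (-s - 1)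

lemma integrableOn_fract_mul_cpow {s : ℂ} (hs : 0 < s.re) :
    IntegrableOn (fun x : ℝ => ((Int.fract x : ℝ) : ℂ) * (x : ℂ) ^ (-s - 1)) (Ioi 1) := by
  have h1 : IntegrableOn (fun x : ℝ => (x : ℂ) ^ (-s - 1)) (Ioi 1) :=
    integrableOn_Ioi_cpow_of_lt (by simp; linarith) one_pos
  refine Integrable.bdd_mul (c := 1) h1 ?_ ?_
  · exact (measurable_ofReal.comp measurable_fract).aestronglyMeasurable
  · refine Eventually.of_forall fun x => ?_
    rw [Complex.norm_real, Real.norm_eq_abs, abs_of_nonneg (Int.fract_nonneg x)]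
    exact (Int.fract_lt_one x).le

lemma zeta_eq_of_one_lt_re {s : ℂ} (hs : 1 < s.re) :
    riemannZeta s = s / (s - 1) - s * fractInt s := by
  have h0 : 0 < s.re := by linarith
  have hs1 : s - 1 ≠ 0 := by
    intro h
    have : s = 1 := by linear_combination h
    rw [this] at hs
    simp at hs
  have h1 := LSeries_eq_mul_integral (f := (1 : ℕ → ℂ)) (r := 1) zero_le_one (s := s) hs
    (LSeriesSummable_one_iff.mpr hs) (by
      refine Asymptotics.isBigO_of_le _ fun n => ?_
      simp)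
  rw [LSeries_one_eq_riemannZeta hs] at h1
  rw [h1, fractInt]
  have h2 : ∫ t in Ioi (1 : ℝ), (∑ k ∈ Finset.Icc 1 ⌊t⌋₊, (1 : ℕ → ℂ) k) * (t : ℂ) ^ (-(s + 1))
      = ∫ t in Ioi (1 : ℝ), ((t : ℂ) ^ (-s) -
        ((Int.fract t : ℝ) : ℂ) * (t : ℂ) ^ (-s - 1)) := by
    refine setIntegral_congr_fun measurableSet_Ioi fun t ht => ?_
    have ht0 : (0 : ℝ) < t := lt_trans one_pos ht
    have htc : (t : ℂ) ≠ 0 := by exact_mod_cast ht0.ne'
    have h3 : (∑ k ∈ Finset.Icc 1 ⌊t⌋₊, (1 : ℕ → ℂ) k) = ((t - Int.fract t : ℝ) : ℂ) := by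
      simp only [Pi.one_apply, Finset.sum_const, Nat.card_Icc, add_tsub_cancel_right,
        nsmul_eq_mul, mul_one]
      have : (⌊t⌋₊ : ℝ) = t - Int.fract t := by
        rw [Int.self_sub_fract]
        exact_mod_cast natCast_floor_eq_intCast_floor ht0.le
      rw [← this]
      simp
    rw [h3]
    have h4 : (t : ℂ) ^ (-s) = (t : ℂ) * (t : ℂ) ^ (-s - 1) := by
      rw [sub_eq_add_neg, Complex.cpow_add _ _ htc, Complex.cpow_neg_one]
      field_simp
    rw [h4, show -(s + 1) = -s - 1 by ring]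
    push_cast
    ring
  rw [h2, integral_sub (integrableOn_Ioi_cpow_of_lt (by simpa using hs) one_pos)
    (integrableOn_fract_mul_cpow h0), integral_Ioi_cpow_of_lt (by simpa using hs) one_pos]
  have : -s + 1 ≠ 0 := by
    intro h; apply hs1; linear_combination -h
  simp
  field_simp
  ring

lemma differentiableAt_fractInt {s : ℂ} (hs : 0 < s.re) : DifferentiableAt ℂ fractInt s := by
  set f : ℝ → ℂ := fun x => indicator (Ioi 1) (fun x => ((Int.fract x : ℝ) : ℂ)) x with hf
  have h1 : fractInt = fun s => mellin f (-s) := by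
    funext s
    rw [fractInt, mellin]
    simp only [smul_eq_mul]
    have : ∀ t : ℝ, (t : ℂ) ^ (-s - 1) * f t = indicator (Ioi 1)
        (fun x : ℝ => ((Int.fract x : ℝ) : ℂ) * (x : ℂ) ^ (-s - 1)) t := by
      intro t
      by_cases ht : t ∈ Ioi (1 : ℝ)
      · simp only [hf, indicator_of_mem ht]; ring
      · simp only [hf, indicator_of_notMem ht]; ring
    simp_rw [this]
    rw [setIntegral_indicator measurableSet_Ioi]
    congr 2
    ext x; simp
  have hfb : ∀ x, ‖f x‖ ≤ 1 := by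
    intro x
    by_cases hx : x ∈ Ioi (1 : ℝ)
    · simp only [hf, indicator_of_mem hx]
      rw [Complex.norm_real, Real.norm_eq_abs, abs_of_nonneg (Int.fract_nonneg x)]
      exact (Int.fract_lt_one x).le
    · simp only [hf, indicator_of_notMem hx, norm_zero]; exact zero_le_one
  have hfm : Measurable f :=
    (measurable_ofReal.comp measurable_fract).indicator measurableSet_Ioi
  rw [h1]
  have h2 : DifferentiableAt ℂ (mellin f) (-s) := by
    refine mellin_differentiableAt_of_isBigO_rpow (a := 0) (b := (-s).re - 1) ?_ ?_ ?_ ?_ ?_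
    · refine (locallyIntegrable_const (1 : ℝ)).locallyIntegrableOn _ |>.mono hfm.aestronglyMeasurable ?_
      exact Eventually.of_forall fun x => by simpa using hfb x
    · refine Asymptotics.IsBigO.of_bound 1 (Eventually.of_forall fun x => ?_)
      simpa using hfb x
    · simpa using hs
    · refine Asymptotics.IsBigO.of_bound 1 ?_
      filter_upwards [Ioo_mem_nhdsGT (zero_lt_one' ℝ)] with x hx
      have : x ∉ Ioi (1 : ℝ) := by simp only [mem_Ioi, not_lt]; exact hx.2.le
      simp only [hf, indicator_of_notMem this, norm_zero]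
      positivity
    · linarith
  exact h2.comp s differentiableAt_id.neg

/-- `ζ(s) = s/(s-1) - s ∫_1^∞ {x} x^{-s-1} dx` for `Re s > 0`, `s ≠ 1`. -/
theorem zeta_eq_of_re_pos {s : ℂ} (hs : 0 < s.re) (hs1 : s ≠ 1) :
    riemannZeta s = s / (s - 1) - s * fractInt s := by
  have hopen : IsOpen {z : ℂ | 0 < z.re} := isOpen_lt continuous_const continuous_re
  have hconv : IsPreconnected {z : ℂ | 0 < z.re} := (convex_halfSpace_re_gt 0).isPreconnected
  have hL : AnalyticOnNhd ℂ riemannZeta₁ {z : ℂ | 0 < z.re} := fun z _ =>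
    differentiable_riemannZeta₁.analyticAt z
  have hR : AnalyticOnNhd ℂ (fun z => z - (z - 1) * (z * fractInt z)) {z : ℂ | 0 < z.re} := by
    apply DifferentiableOn.analyticOnNhd _ hopen
    intro z hz
    have := differentiableAt_fractInt hz
    apply DifferentiableAt.differentiableWithinAt
    fun_prop
  have h2 : (2 : ℂ) ∈ {z : ℂ | 0 < z.re} := by simp
  have hev : riemannZeta₁ =ᶠ[𝓝 (2 : ℂ)] (fun z => z - (z - 1) * (z * fractInt z)) := by
    have hmem : {z : ℂ | 1 < z.re} ∈ 𝓝 (2 : ℂ) :=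
      (isOpen_lt continuous_const continuous_re).mem_nhds (by simp)
    filter_upwards [hmem] with z hz
    have hz1 : z - 1 ≠ 0 := by
      intro h
      have : z = 1 := by linear_combination h
      rw [this] at hz
      simp at hz
    have h3 := zeta_eq_of_one_lt_re hz
    have h4 := riemannZeta_eq_inv_sub_mul (s := z) (by intro h; apply hz1; rw [h]; ring)
    rw [h4] at h3
    field_simp at h3
    linear_combination h3
  have key := hL.eqOn_of_preconnected_of_eventuallyEq hR hconv h2 hev hs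
  simp only at key
  have hs1' : s - 1 ≠ 0 := sub_ne_zero.mpr hs1
  rw [riemannZeta_eq_inv_sub_mul hs1, key]
  field_simp

lemma norm_fractInt_le {s : ℂ} (hs : 0 < s.re) : ‖fractInt s‖ ≤ 1 / s.re := by
  rw [fractInt]
  have h1 : ∀ x ∈ Ioi (1 : ℝ), ‖((Int.fract x : ℝ) : ℂ) * (x : ℂ) ^ (-s - 1)‖ ≤
      x ^ (-s.re - 1) := by
    intro x hx
    have hx0 : (0 : ℝ) < x := lt_trans one_pos hx
    rw [norm_mul, Complex.norm_real, Real.norm_eq_abs, abs_of_nonneg (Int.fract_nonneg x),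
      Complex.norm_cpow_eq_rpow_re_of_pos hx0]
    have : (-s - 1).re = -s.re - 1 := by simp
    rw [this]
    have h2 : 0 ≤ x ^ (-s.re - 1) := by positivity
    have h3 := (Int.fract_lt_one x).le
    nlinarith
  have h2 : IntegrableOn (fun x : ℝ => x ^ (-s.re - 1)) (Ioi 1) :=
    integrableOn_Ioi_rpow_of_lt (by linarith) one_pos
  calc ‖∫ x in Ioi (1 : ℝ), ((Int.fract x : ℝ) : ℂ) * (x : ℂ) ^ (-s - 1)‖
      ≤ ∫ x in Ioi (1 : ℝ), x ^ (-s.re - 1) := by
        refine norm_integral_le_of_norm_le h2 ?_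
        exact (ae_restrict_mem measurableSet_Ioi).mono h1
    _ = 1 / s.re := by
        rw [integral_Ioi_rpow_of_lt (by linarith) one_pos]
        simp

/-- Crude growth bound for `ζ` to the right of `Re s = 1/4`. -/
theorem norm_zeta_le {s : ℂ} (hs : 1 / 4 ≤ s.re) (ht : 1 ≤ |s.im|) :
    ‖riemannZeta s‖ ≤ 6 * ‖s‖ := by
  have hs0 : 0 < s.re := by linarith
  have hs1 : s ≠ 1 := by
    intro h; rw [h] at ht; simp at ht; linarith
  have h1 : 1 ≤ ‖s - 1‖ := by
    have := Complex.abs_im_le_norm (s - 1)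
    simp at this
    linarith
  rw [zeta_eq_of_re_pos hs0 hs1]
  calc ‖s / (s - 1) - s * fractInt s‖ ≤ ‖s / (s - 1)‖ + ‖s * fractInt s‖ := norm_sub_le _ _
    _ ≤ ‖s‖ + ‖s‖ * 4 := by
        rw [norm_div, norm_mul]
        gcongr
        · exact div_le_self (norm_nonneg _) h1
        · refine (norm_fractInt_le hs0).trans ?_
          rw [div_le_iff₀ hs0]; linarith
    _ ≤ 6 * ‖s‖ := by nlinarith [norm_nonneg s]


lemma norm_zeta_sub_one_le {s : ℂ} (hs : 2 ≤ s.re) : ‖riemannZeta s - 1‖ ≤ Real.pi ^ 2 / 6 - 1 := by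
  have hs1 : 1 < s.re := by linarith
  have h0 : Summable (fun n : ℕ => 1 / ((n : ℝ) + 1) ^ 2) := by
    have := (summable_nat_add_iff 1).mpr (Real.summable_one_div_nat_pow.mpr (one_lt_two))
    simpa using this
  have h0' : ∑' n : ℕ, 1 / ((n : ℝ) + 1) ^ 2 = Real.pi ^ 2 / 6 := by
    have h := hasSum_zeta_two.tsum_eq
    rw [(Real.summable_one_div_nat_pow.mpr (one_lt_two)).tsum_eq_zero_add] at h
    simpa using h
  have hsum : Summable (fun n : ℕ => 1 / ((n : ℂ) + 1) ^ s) := by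
    have := (summable_nat_add_iff 1).mpr (Complex.summable_one_div_nat_cpow.mpr hs1)
    simpa using this
  have h1 : riemannZeta s - 1 = ∑' n : ℕ, 1 / ((n : ℂ) + 1 + 1) ^ s := by
    rw [zeta_eq_tsum_one_div_nat_add_one_cpow hs1, hsum.tsum_eq_zero_add]
    simp
  have h2 : ∑' n : ℕ, 1 / ((n : ℝ) + 1 + 1) ^ 2 = Real.pi ^ 2 / 6 - 1 := by
    rw [← h0', h0.tsum_eq_zero_add]
    simp
  have h3 : Summable (fun n : ℕ => 1 / ((n : ℝ) + 1 + 1) ^ 2) := by
    have := (summable_nat_add_iff 1).mpr h0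
    simpa using this
  rw [h1, ← h2]
  refine tsum_of_norm_bounded h3.hasSum fun n => ?_
  have hn : (0 : ℝ) < (n : ℝ) + 1 + 1 := by positivity
  have : ((n : ℂ) + 1 + 1) = (((n : ℝ) + 1 + 1 : ℝ) : ℂ) := by push_cast; ring
  rw [this, norm_div, norm_one, Complex.norm_cpow_eq_rpow_re_of_pos hn]
  rw [← Real.rpow_natCast]
  gcongr
  · linarith [(Nat.cast_nonneg n : (0 : ℝ) ≤ n)]
  · simpa using hs

lemma norm_zeta_sub_one_lt {s : ℂ} (hs : 2 ≤ s.re) : ‖riemannZeta s - 1‖ < 2 / 3 := by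
  refine (norm_zeta_sub_one_le hs).trans_lt ?_
  have := Real.pi_lt_d4
  have h2 := Real.pi_pos
  nlinarith

lemma one_third_lt_norm_zeta {s : ℂ} (hs : 2 ≤ s.re) : 1 / 3 < ‖riemannZeta s‖ := by
  have h := norm_zeta_sub_one_lt hs
  have h1 : ‖(1 : ℂ)‖ ≤ ‖riemannZeta s‖ + ‖riemannZeta s - 1‖ := by
    have : (1 : ℂ) = riemannZeta s - (riemannZeta s - 1) := by ring
    calc ‖(1 : ℂ)‖ = ‖riemannZeta s - (riemannZeta s - 1)‖ := by rw [← this]
      _ ≤ _ := norm_sub_le _ _
  rw [norm_one] at h1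
  linarith

lemma norm_zeta_lt_five_thirds {s : ℂ} (hs : 2 ≤ s.re) : ‖riemannZeta s‖ < 5 / 3 := by
  have h := norm_zeta_sub_one_lt hs
  have h1 : ‖riemannZeta s‖ ≤ ‖riemannZeta s - 1‖ + ‖(1 : ℂ)‖ := by
    calc ‖riemannZeta s‖ = ‖(riemannZeta s - 1) + 1‖ := by ring_nf
      _ ≤ _ := norm_add_le _ _
  rw [norm_one] at h1
  linarith

lemma ne_one_of_mem_NTZ {ρ : ℂ} (h : ρ ∈ NTZ) : ρ ≠ 1 := by
  intro h1; have := h.2.2; rw [h1] at this; simp at this

lemma analyticAt_zeta {s : ℂ} (hs : s ≠ 1) : AnalyticAt ℂ riemannZeta s :=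
  analyticOn_riemannZeta s hs

lemma analyticOrderAt_zeta_ne_top {s : ℂ} (hs : s ≠ 1) : analyticOrderAt riemannZeta s ≠ ⊤ := by
  have hconn : IsPreconnected ({1}ᶜ : Set ℂ) :=
    (isConnected_compl_singleton_of_one_lt_rank (by simp) 1).isPreconnected
  have h2 : (2 : ℂ) ∈ ({1}ᶜ : Set ℂ) := by simp
  refine analyticOn_riemannZeta.analyticOrderAt_ne_top_of_isPreconnected hconn h2 hs ?_
  have : analyticOrderAt riemannZeta 2 = 0 := by
    rw [(analyticAt_zeta (by simp)).analyticOrderAt_eq_zero]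
    exact riemannZeta_ne_zero_of_one_le_re (by simp)
  rw [this]
  simp

/-- The zeros are symmetric under `s ↦ 1 - s`. -/
lemma one_sub_mem_NTZ {ρ : ℂ} (h : ρ ∈ NTZ) : 1 - ρ ∈ NTZ := by
  refine ⟨?_, by simpa using h.2.2, by simpa using h.2.1⟩
  rw [riemannZeta_one_sub ?_ (ne_one_of_mem_NTZ h), h.1, mul_zero]
  intro n hn
  have := h.2.1
  rw [hn] at this
  simp at this
  have h3 : (0 : ℝ) ≤ n := Nat.cast_nonneg n
  linarith

lemma one_sub_mem_NTZ_iff {ρ : ℂ} : 1 - ρ ∈ NTZ ↔ ρ ∈ NTZ := by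
  refine ⟨fun h => ?_, one_sub_mem_NTZ⟩
  have := one_sub_mem_NTZ h
  simpa using this

lemma conj_mem_NTZ {ρ : ℂ} (h : ρ ∈ NTZ) : conj ρ ∈ NTZ := by
  refine ⟨?_, by simpa using h.2.1, by simpa using h.2.2⟩
  rw [riemannZeta_conj, h.1, map_zero]

lemma conj_mem_NTZ_iff {ρ : ℂ} : conj ρ ∈ NTZ ↔ ρ ∈ NTZ := by
  refine ⟨fun h => ?_, conj_mem_NTZ⟩
  have := conj_mem_NTZ h
  simpa using this

/-- The factor in the functional equation is analytic and nonzero in the critical strip. -/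
lemma analyticOrderAt_one_sub {ρ : ℂ} (h0 : 0 < ρ.re) (h1 : ρ.re < 1) :
    analyticOrderAt riemannZeta (1 - ρ) = analyticOrderAt riemannZeta ρ := by
  have hρ1 : ρ ≠ 1 := by intro h; rw [h] at h1; simp at h1
  have hg : AnalyticAt ℂ (fun s : ℂ => 1 - s) ρ := by fun_prop
  have hg' : deriv (fun s : ℂ => 1 - s) ρ ≠ 0 := by
    simp [deriv_const_sub]
  have e1 := analyticOrderAt_comp_of_deriv_ne_zero (f := riemannZeta) hg hg'
  rw [← e1]
  set χ : ℂ → ℂ := fun s => 2 * (2 * (Real.pi : ℂ)) ^ (-s) * Complex.Gamma s *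
    Complex.cos (Real.pi * s / 2) with hχ
  have hopen : {s : ℂ | 0 < s.re ∧ s.re < 1} ∈ 𝓝 ρ := by
    refine IsOpen.mem_nhds ?_ ⟨h0, h1⟩
    exact (isOpen_lt continuous_const continuous_re).inter (isOpen_lt continuous_re continuous_const)
  have e2 : (riemannZeta ∘ fun s => 1 - s) =ᶠ[𝓝 ρ] fun s => χ s * riemannZeta s := by
    filter_upwards [hopen] with s hs
    simp only [Function.comp, hχ]
    refine riemannZeta_one_sub ?_ ?_
    · intro n hn
      have := hs.1
      rw [hn] at this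
      simp at this
      have h3 : (0 : ℝ) ≤ n := Nat.cast_nonneg n
      linarith
    · intro h; have := hs.2; rw [h] at this; simp at this
  rw [analyticOrderAt_congr e2]
  have hGd : ∀ s : ℂ, 0 < s.re → DifferentiableAt ℂ Complex.Gamma s := by
    intro s hs
    refine Complex.differentiableAt_Gamma s fun m hm => ?_
    rw [hm] at hs
    simp at hs
    have h3 : (0 : ℝ) ≤ m := Nat.cast_nonneg m
    linarith
  have hχan : AnalyticAt ℂ χ ρ := by
    rw [Complex.analyticAt_iff_eventually_differentiableAt]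
    filter_upwards [hopen] with s hs
    have := hGd s hs.1
    have h2pi : (2 * (Real.pi : ℂ)) ≠ 0 := by
      simp [Real.pi_ne_zero]
    have h5 : DifferentiableAt ℂ (fun s : ℂ => (2 * (Real.pi : ℂ)) ^ (-s)) s :=
      (differentiableAt_id.neg).const_cpow (Or.inl h2pi)
    simp only [hχ]
    fun_prop
  have hχ0 : χ ρ ≠ 0 := by
    have h2pi : (2 * (Real.pi : ℂ)) ≠ 0 := by
      simp [Real.pi_ne_zero]
    simp only [hχ]
    refine mul_ne_zero (mul_ne_zero (mul_ne_zero two_ne_zero ?_) ?_) ?_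
    · rw [Ne, Complex.cpow_eq_zero_iff]
      tauto
    · refine Complex.Gamma_ne_zero fun m hm => ?_
      rw [hm] at h0
      simp at h0
      have h3 : (0 : ℝ) ≤ m := Nat.cast_nonneg m
      linarith
    · rw [Ne, Complex.cos_eq_zero_iff]
      rintro ⟨k, hk⟩
      have hpi : (Real.pi : ℂ) ≠ 0 := by exact_mod_cast Real.pi_ne_zero
      have h3 : ρ = 2 * k + 1 := by
        field_simp at hk
        linear_combination hk
      have h4 : ρ.re = 2 * k + 1 := by rw [h3]; simp
      rw [h4] at h0 h1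
      have h5 : (-1 : ℤ) < 2 * k := by
        have : (-1 : ℝ) < 2 * (k : ℝ) := by linarith
        exact_mod_cast this
      have h6 : (2 * k : ℤ) < 0 := by
        have : 2 * (k : ℝ) < 0 := by linarith
        exact_mod_cast this
      omega
  have h6 : analyticOrderAt χ ρ = 0 := hχan.analyticOrderAt_eq_zero.mpr hχ0
  have h7 : analyticOrderAt (fun s => χ s * riemannZeta s) ρ =
      analyticOrderAt χ ρ + analyticOrderAt riemannZeta ρ :=
    analyticOrderAt_mul hχan (analyticAt_zeta hρ1)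
  rw [h7, h6, zero_add]

lemma mult_one_sub {ρ : ℂ} (h : ρ ∈ NTZ) : mult (1 - ρ) = mult ρ := by
  unfold mult analyticOrderNatAt
  rw [analyticOrderAt_one_sub h.2.1 h.2.2]

lemma le_analyticOrderAt_conj {ρ : ℂ} (hρ : ρ ≠ 1) (n : ℕ)
    (h : (n : ℕ∞) ≤ analyticOrderAt riemannZeta ρ) :
    (n : ℕ∞) ≤ analyticOrderAt riemannZeta (conj ρ) := by
  have hρ' : conj ρ ≠ 1 := by
    intro h; apply hρ; rw [← Complex.conj_conj ρ, h, map_one]
  rw [natCast_le_analyticOrderAt (analyticAt_zeta hρ)] at h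
  rw [natCast_le_analyticOrderAt (analyticAt_zeta hρ')]
  obtain ⟨g, hg, hgz⟩ := h
  refine ⟨fun z => conj (g (conj z)), ?_, ?_⟩
  · rw [Complex.analyticAt_iff_eventually_differentiableAt] at hg ⊢
    have hc : Tendsto (fun z : ℂ => conj z) (𝓝 (conj ρ)) (𝓝 ρ) := by
      have := Complex.continuous_conj.tendsto (conj ρ)
      simpa using this
    filter_upwards [hc.eventually hg] with z hz
    exact (differentiableAt_conj_conj_iff).mpr hz
  · have hc : Tendsto (fun z : ℂ => conj z) (𝓝 (conj ρ)) (𝓝 ρ) := by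
      have := Complex.continuous_conj.tendsto (conj ρ)
      simpa using this
    filter_upwards [hc.eventually hgz] with z hz
    have : riemannZeta z = conj (riemannZeta (conj z)) := by
      rw [riemannZeta_conj]; simp
    rw [this, hz]
    simp

lemma analyticOrderAt_conj {ρ : ℂ} (hρ : ρ ≠ 1) :
    analyticOrderAt riemannZeta (conj ρ) = analyticOrderAt riemannZeta ρ := by
  have hρ' : conj ρ ≠ 1 := by
    intro h; apply hρ; rw [← Complex.conj_conj ρ, h, map_one]
  apply le_antisymm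
  · refine ENat.forall_natCast_le_iff_le.mp fun n hn => ?_
    have := le_analyticOrderAt_conj hρ' n hn
    simpa using this
  · refine ENat.forall_natCast_le_iff_le.mp fun n hn => ?_
    exact le_analyticOrderAt_conj hρ n hn

lemma mult_conj {ρ : ℂ} (h : ρ ∈ NTZ) : mult (conj ρ) = mult ρ := by
  unfold mult analyticOrderNatAt
  rw [analyticOrderAt_conj (ne_one_of_mem_NTZ h)]

lemma mult_pos {ρ : ℂ} (h : ρ ∈ NTZ) : 1 ≤ mult ρ := by
  unfold mult
  have h1 := analyticOrderAt_zeta_ne_top (ne_one_of_mem_NTZ h)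
  have h2 : analyticOrderAt riemannZeta ρ ≠ 0 := by
    rw [analyticOrderAt_ne_zero]
    exact ⟨analyticAt_zeta (ne_one_of_mem_NTZ h), h.1⟩
  rw [← Nat.cast_analyticOrderNatAt h1] at h2
  have : analyticOrderNatAt riemannZeta ρ ≠ 0 := by exact_mod_cast h2
  omega

/-- The reflection `ρ ↦ 1 - conj ρ`, which preserves the ordinate. -/
lemma refl_mem_NTZ {ρ : ℂ} (h : ρ ∈ NTZ) : 1 - conj ρ ∈ NTZ := one_sub_mem_NTZ (conj_mem_NTZ h)

lemma mult_refl {ρ : ℂ} (h : ρ ∈ NTZ) : mult (1 - conj ρ) = mult ρ := by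
  rw [mult_one_sub (conj_mem_NTZ h), mult_conj h]

end Pool.Agent.PairCorr
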