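import Mathlib

set_option autoImplicit false

namespace Pool.Agent.PairCorr

open Filter Topology Complex ComplexConjugate

/-- Monotonicity in `x` of `‖Γ(x+iy)‖ / Γ(x)`. -/
theorem norm_Gamma_ratio_mono {x x' : ℝ} (hx : 0 < x) (hxx : x ≤ x') (y : ℝ) :
    ‖Complex.Gamma (x + y * I)‖ * Real.Gamma x' ≤ ‖Complex.Gamma (x' + y * I)‖ * Real.Gamma x := by
  have hx' : 0 < x' := hx.trans_le hxx
  have t1 := ((Complex.GammaSeq_tendsto_Gamma (x + y * I)).norm).mul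
    (Real.GammaSeq_tendsto_Gamma x')
  have t2 := ((Complex.GammaSeq_tendsto_Gamma (x' + y * I)).norm).mul
    (Real.GammaSeq_tendsto_Gamma x)
  refine le_of_tendsto_of_tendsto t1 t2 ?_
  filter_upwards [eventually_gt_atTop 0] with n hn
  have hn' : (0 : ℝ) < n := by exact_mod_cast hn
  have hnorm : ∀ u : ℝ, 0 < u → ‖Complex.GammaSeq (u + y * I) n‖ =
      (n : ℝ) ^ u * n.factorial / ∏ j ∈ Finset.range (n + 1), Real.sqrt ((u + j) ^ 2 + y ^ 2) := by
    intro u hu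
    rw [Complex.GammaSeq, norm_div, norm_mul, norm_prod]
    have h1 : ‖((n : ℂ)) ^ ((u : ℂ) + y * I)‖ = (n : ℝ) ^ u := by
      have : ((n : ℂ)) = ((n : ℝ) : ℂ) := by push_cast; rfl
      rw [this, Complex.norm_cpow_eq_rpow_re_of_pos hn']
      simp
    rw [h1]
    congr 1
    · simp
    · refine Finset.prod_congr rfl fun j _ => ?_
      have h2 : (u : ℂ) + y * I + j = ((u + j : ℝ) : ℂ) + (y : ℝ) * I := by push_cast; ring
      rw [h2, Complex.norm_add_mul_I]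
  have hreal : ∀ u : ℝ, Real.GammaSeq u n =
      (n : ℝ) ^ u * n.factorial / ∏ j ∈ Finset.range (n + 1), (u + j) := fun u => rfl
  rw [hnorm x hx, hnorm x' hx', hreal, hreal]
  have hP : ∀ u : ℝ, 0 < u → 0 < ∏ j ∈ Finset.range (n + 1), (u + j) := fun u hu =>
    Finset.prod_pos fun j _ => by positivity
  have hQ : ∀ u : ℝ, 0 < u → 0 < ∏ j ∈ Finset.range (n + 1), Real.sqrt ((u + j) ^ 2 + y ^ 2) :=
    fun u hu => Finset.prod_pos fun j _ => by positivity
  rw [div_mul_div_comm, div_mul_div_comm, div_le_div_iff₀ (mul_pos (hQ x hx) (hP x' hx'))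
    (mul_pos (hQ x' hx') (hP x hx))]
  have hkey : (∏ j ∈ Finset.range (n + 1), Real.sqrt ((x' + j) ^ 2 + y ^ 2)) *
      (∏ j ∈ Finset.range (n + 1), (x + j)) ≤
      (∏ j ∈ Finset.range (n + 1), Real.sqrt ((x + j) ^ 2 + y ^ 2)) *
      (∏ j ∈ Finset.range (n + 1), (x' + j)) := by
    rw [← Finset.prod_mul_distrib, ← Finset.prod_mul_distrib]
    refine Finset.prod_le_prod (fun j _ => by positivity) fun j _ => ?_
    have ha : 0 < x + j := by positivity
    have hb : 0 < x' + j := by positivity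
    have hab : x + j ≤ x' + j := by linarith
    rw [← Real.sqrt_sq ha.le, ← Real.sqrt_sq hb.le]
    rw [Real.sqrt_sq ha.le, Real.sqrt_sq hb.le]
    have e1 : Real.sqrt ((x' + j) ^ 2 + y ^ 2) * (x + j) =
        Real.sqrt (((x' + j) ^ 2 + y ^ 2) * (x + j) ^ 2) := by
      rw [Real.sqrt_mul (by positivity), Real.sqrt_sq ha.le]
    have e2 : Real.sqrt ((x + j) ^ 2 + y ^ 2) * (x' + j) =
        Real.sqrt (((x + j) ^ 2 + y ^ 2) * (x' + j) ^ 2) := by
      rw [Real.sqrt_mul (by positivity), Real.sqrt_sq hb.le]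
    rw [e1, e2]
    apply Real.sqrt_le_sqrt
    have : (x + j) ^ 2 ≤ (x' + j) ^ 2 := by gcongr
    nlinarith [sq_nonneg y, mul_le_mul_of_nonneg_left this (sq_nonneg y)]
  have hc : 0 ≤ (n : ℝ) ^ x * n.factorial * ((n : ℝ) ^ x' * n.factorial) := by positivity
  calc (n : ℝ) ^ x * n.factorial * ((n : ℝ) ^ x' * n.factorial) *
      ((∏ j ∈ Finset.range (n + 1), Real.sqrt ((x' + j) ^ 2 + y ^ 2)) *
      (∏ j ∈ Finset.range (n + 1), (x + j)))
      ≤ (n : ℝ) ^ x * n.factorial * ((n : ℝ) ^ x' * n.factorial) *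
      ((∏ j ∈ Finset.range (n + 1), Real.sqrt ((x + j) ^ 2 + y ^ 2)) *
      (∏ j ∈ Finset.range (n + 1), (x' + j))) := mul_le_mul_of_nonneg_left hkey hc
    _ = _ := by ring

/-- `‖Γ(x+iy)‖ ≤ Γ(x)` for `x > 0`. -/
theorem norm_Gamma_le {x : ℝ} (hx : 0 < x) (y : ℝ) :
    ‖Complex.Gamma (x + y * I)‖ ≤ Real.Gamma x := by
  rw [Complex.Gamma_eq_integral (by simpa using hx), Real.Gamma_eq_integral hx,
    Complex.GammaIntegral]
  refine MeasureTheory.norm_integral_le_of_norm_le (Real.GammaIntegral_convergent hx) ?_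
  refine (MeasureTheory.ae_restrict_mem measurableSet_Ioi).mono fun t ht => ?_
  have ht' : (0 : ℝ) < t := ht
  rw [norm_mul, Complex.norm_cpow_eq_rpow_re_of_pos ht', Complex.norm_real, Real.norm_eq_abs,
    abs_of_pos (Real.exp_pos _)]
  simp

theorem Gamma_conj_symm (x y : ℝ) :
    Complex.Gamma (x - y * I) = conj (Complex.Gamma (x + y * I)) := by
  rw [← Complex.Gamma_conj]
  congr 1
  simp [sub_eq_add_neg]

theorem norm_Gamma_one_half_sq (y : ℝ) :
    ‖Complex.Gamma ((1 / 2 : ℝ) + y * I)‖ ^ 2 = Real.pi / Real.cosh (Real.pi * y) := by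
  have h := Complex.Gamma_mul_Gamma_one_sub ((1 / 2 : ℝ) + y * I)
  have h1 : (1 : ℂ) - (((1 / 2 : ℝ) : ℂ) + y * I) = ((1 / 2 : ℝ) : ℂ) - y * I := by
    push_cast; ring
  rw [h1, Gamma_conj_symm, Complex.mul_conj, Complex.normSq_eq_norm_sq] at h
  have h2 : Complex.sin (Real.pi * (((1 / 2 : ℝ) : ℂ) + y * I)) =
      ((Real.cosh (Real.pi * y) : ℝ) : ℂ) := by
    have : (Real.pi : ℂ) * (((1 / 2 : ℝ) : ℂ) + y * I) = ((Real.pi * y : ℝ) : ℂ) * I + Real.pi / 2 := by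
      push_cast; ring
    rw [this, Complex.sin_add_pi_div_two, Complex.cos_mul_I]
    simp
  rw [h2] at h
  exact_mod_cast h

theorem norm_Gamma_one_sq {y : ℝ} (hy : y ≠ 0) :
    ‖Complex.Gamma ((1 : ℝ) + y * I)‖ ^ 2 = Real.pi * y / Real.sinh (Real.pi * y) := by
  have hyI : (y : ℂ) * I ≠ 0 := mul_ne_zero (by exact_mod_cast hy) I_ne_zero
  have h := Complex.Gamma_mul_Gamma_one_sub ((y : ℂ) * I)
  have h0 : Complex.Gamma ((1 : ℝ) + y * I) = (y * I) * Complex.Gamma (y * I) := by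
    rw [← Complex.Gamma_add_one _ hyI]
    congr 1
    push_cast; ring
  have h1 : (1 : ℂ) - (y : ℂ) * I = ((1 : ℝ) : ℂ) - y * I := by push_cast; ring
  rw [h1, Gamma_conj_symm] at h
  have h2 : Complex.sin (Real.pi * ((y : ℂ) * I)) = ((Real.sinh (Real.pi * y) : ℝ) : ℂ) * I := by
    have : (Real.pi : ℂ) * ((y : ℂ) * I) = ((Real.pi * y : ℝ) : ℂ) * I := by push_cast; ring
    rw [this, Complex.sin_mul_I]
    simp
  have hs : Real.sinh (Real.pi * y) ≠ 0 := by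
    rw [Ne, Real.sinh_eq_zero]
    exact mul_ne_zero Real.pi_ne_zero hy
  have hsc : ((Real.sinh (Real.pi * y) : ℝ) : ℂ) ≠ 0 := by exact_mod_cast hs
  have h3 : ((‖Complex.Gamma ((1 : ℝ) + y * I)‖ ^ 2 : ℝ) : ℂ) =
      ((Real.pi * y / Real.sinh (Real.pi * y) : ℝ) : ℂ) := by
    rw [← Complex.normSq_eq_norm_sq, ← Complex.mul_conj]
    nth_rewrite 1 [h0]
    rw [mul_assoc, h, h2]
    push_cast
    have hI : I ≠ 0 := I_ne_zero
    push_cast at hsc
    field_simp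
  exact_mod_cast h3

/-- `u / sinh u ≤ (1 + 2u) e^{-u}` for `u > 0`. -/
lemma div_sinh_le {u : ℝ} (hu : 0 < u) : u / Real.sinh u ≤ (1 + 2 * u) * Real.exp (-u) := by
  have hs : 0 < Real.sinh u := Real.sinh_pos_iff.mpr hu
  rw [div_le_iff₀ hs, Real.sinh_eq]
  have h1 : Real.exp (-u) * Real.exp u = 1 := by rw [← Real.exp_add]; simp
  have h2 : Real.exp (-u) * Real.exp (-u) = Real.exp (-(2 * u)) := by
    rw [← Real.exp_add]; ring_nf
  have h3 : Real.exp (-(2 * u)) * (1 + 2 * u) ≤ 1 := by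
    have := Real.add_one_le_exp (2 * u)
    have h4 : Real.exp (-(2 * u)) * Real.exp (2 * u) = 1 := by rw [← Real.exp_add]; simp
    nlinarith [Real.exp_pos (-(2 * u))]
  have : (1 + 2 * u) * Real.exp (-u) * ((Real.exp u - Real.exp (-u)) / 2) =
      ((1 + 2 * u) * 1 - Real.exp (-(2 * u)) * (1 + 2 * u)) / 2 := by
    rw [← h1, ← h2]; ring
  rw [this]
  nlinarith

/-- Upper bound of the form `‖Γ(x+iy)‖ ≤ Γ(x) · stuff · e^{-π|y|/2}` for `0 < x ≤ 1`. -/
theorem norm_Gamma_one_le (y : ℝ) :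
    ‖Complex.Gamma ((1 : ℝ) + y * I)‖ ≤ (1 + 7 * |y|) * Real.exp (-(Real.pi * |y| / 2)) := by
  by_cases hy : y = 0
  · rw [hy]; simp [Complex.Gamma_one]
  have habs : 0 < |y| := abs_pos.mpr hy
  have h1 := norm_Gamma_one_sq hy
  have h2 : Real.pi * y / Real.sinh (Real.pi * y) = Real.pi * |y| / Real.sinh (Real.pi * |y|) := by
    rcases abs_cases y with ⟨h, _⟩ | ⟨h, _⟩
    · rw [h]
    · rw [h, mul_neg, Real.sinh_neg]; rw [neg_div_neg_eq]
  rw [h2] at h1
  have h3 := div_sinh_le (mul_pos Real.pi_pos habs)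
  rw [← h1] at h3
  have hexp : Real.exp (-(Real.pi * |y|)) = Real.exp (-(Real.pi * |y| / 2)) ^ 2 := by
    rw [← Real.exp_nat_mul]; ring_nf
  rw [hexp] at h3
  have h4 : 1 + 2 * (Real.pi * |y|) ≤ (1 + 7 * |y|) ^ 2 := by
    have := Real.pi_lt_d2
    nlinarith
  refine le_of_sq_le_sq ?_ (by positivity)
  calc ‖Complex.Gamma ((1 : ℝ) + y * I)‖ ^ 2 ≤ (1 + 2 * (Real.pi * |y|)) *
      Real.exp (-(Real.pi * |y| / 2)) ^ 2 := h3
    _ ≤ (1 + 7 * |y|) ^ 2 * Real.exp (-(Real.pi * |y| / 2)) ^ 2 := by gcongr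
    _ = _ := by ring

/-- Lower bound: `‖Γ(x+iy)‖ ≥ Γ(x) e^{-π|y|/2}` for `x ≥ 1/2`. -/
theorem norm_Gamma_ge {x : ℝ} (hx : 1 / 2 ≤ x) (y : ℝ) :
    Real.Gamma x * Real.exp (-(Real.pi * |y| / 2)) ≤ ‖Complex.Gamma (x + y * I)‖ := by
  have h1 := norm_Gamma_ratio_mono (x := 1 / 2) (x' := x) (by norm_num) hx y
  have h2 := norm_Gamma_one_half_sq y
  have hG : Real.Gamma (1 / 2) = Real.sqrt Real.pi := Real.Gamma_one_half_eq
  have hGx : 0 < Real.Gamma x := Real.Gamma_pos_of_pos (by linarith)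
  have hc : Real.cosh (Real.pi * y) ≤ Real.exp (Real.pi * |y|) := by
    rw [← Real.cosh_abs, abs_mul, abs_of_pos Real.pi_pos, Real.cosh_eq]
    have : Real.exp (-(Real.pi * |y|)) ≤ Real.exp (Real.pi * |y|) := by
      apply Real.exp_le_exp.mpr
      have : 0 ≤ Real.pi * |y| := by positivity
      linarith
    linarith
  have h3 : Real.sqrt Real.pi * Real.exp (-(Real.pi * |y| / 2)) ≤
      ‖Complex.Gamma ((1 / 2 : ℝ) + y * I)‖ := by
    refine le_of_sq_le_sq ?_ (norm_nonneg _)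
    rw [h2, mul_pow, Real.sq_sqrt Real.pi_pos.le, le_div_iff₀ (Real.cosh_pos _), mul_assoc]
    have h4 : Real.exp (-(Real.pi * |y| / 2)) ^ 2 * Real.cosh (Real.pi * y) ≤ 1 := by
      have : Real.exp (-(Real.pi * |y| / 2)) ^ 2 = Real.exp (-(Real.pi * |y|)) := by
        rw [← Real.exp_nat_mul]; ring_nf
      rw [this]
      calc Real.exp (-(Real.pi * |y|)) * Real.cosh (Real.pi * y) ≤
          Real.exp (-(Real.pi * |y|)) * Real.exp (Real.pi * |y|) := by gcongr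
        _ = 1 := by rw [← Real.exp_add]; simp
    nlinarith [Real.pi_pos]
  rw [hG] at h1
  have hs : 0 < Real.sqrt Real.pi := Real.sqrt_pos.mpr Real.pi_pos
  have h5 : Real.sqrt Real.pi * (Real.Gamma x * Real.exp (-(Real.pi * |y| / 2))) ≤
      Real.sqrt Real.pi * ‖Complex.Gamma (x + y * I)‖ := by
    calc Real.sqrt Real.pi * (Real.Gamma x * Real.exp (-(Real.pi * |y| / 2)))
        = (Real.sqrt Real.pi * Real.exp (-(Real.pi * |y| / 2))) * Real.Gamma x := by ring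
      _ ≤ ‖Complex.Gamma ((1 / 2 : ℝ) + y * I)‖ * Real.Gamma x := by gcongr
      _ ≤ ‖Complex.Gamma (x + y * I)‖ * Real.sqrt Real.pi := by exact_mod_cast h1
      _ = _ := by ring
  exact le_of_mul_le_mul_left h5 hs

end Pool.Agent.PairCorr
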