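import Mathlib
import Pool.Agent.PairCorr.Defs

set_option autoImplicit false

namespace Pool.Agent.PairCorr

open MeasureTheory Filter Topology Complex Set Metric Real MeromorphicOn

/-- Jensen's inequality: the zeros in the smaller disc are controlled by the mean of `log ‖f‖` on
the larger circle. -/
theorem jensen_sum_le {f : ℂ → ℂ} {c : ℂ} {r R : ℝ} (hr : 0 < r) (hrR : r < R)
    (hf : AnalyticOnNhd ℂ f (closedBall c R)) (hfc : f c ≠ 0) (S : Finset ℂ)
    (hS : ∀ ρ ∈ S, ‖ρ - c‖ ≤ r) :
    (∑ ρ ∈ S, (analyticOrderNatAt f ρ : ℝ)) * Real.log (R / r) ≤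
      circleAverage (fun z => Real.log ‖f z‖) c R - Real.log ‖f c‖ := by
  have hR : 0 < R := hr.trans hrR
  have hRabs : |R| = R := abs_of_pos hR
  have hf' : AnalyticOnNhd ℂ f (closedBall c |R|) := by rwa [hRabs]
  have hJ := hf'.circleAverage_log_norm hR.ne' hfc
  rw [hRabs] at hJ
  rw [hJ, add_sub_cancel_right]
  set D := divisor f (closedBall c R) with hD
  have hDfin : D.support.Finite := D.finiteSupport (isCompact_closedBall c R)
  have hterm_nonneg : ∀ u, 0 ≤ (D u : ℝ) * Real.log (R * ‖c - u‖⁻¹) := by
    intro u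
    by_cases hu : u ∈ closedBall c R
    · have h1 : (0 : ℝ) ≤ (D u : ℝ) := by exact_mod_cast (hf.divisor_nonneg u)
      by_cases huc : u = c
      · have : D u = 0 := by
          rw [hD, hf.divisor_apply hu, huc, (hf c (by simp [hR.le])).analyticOrderAt_eq_zero.mpr hfc]
          simp
        rw [this]; simp
      · refine mul_nonneg h1 (Real.log_nonneg ?_)
        have h2 : 0 < ‖c - u‖ := by
          rw [norm_pos_iff, sub_ne_zero]; exact fun h => huc h.symm
        rw [← div_eq_mul_inv, one_le_div h2]
        rw [mem_closedBall, dist_eq_norm'] at hu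
        exact hu
    · have : D u = 0 := by
        exact Function.locallyFinsuppWithin.apply_eq_zero_of_notMem _ hu
      rw [this]; simp
  have hfs : ∑ᶠ u, (D u : ℝ) * Real.log (R * ‖c - u‖⁻¹) =
      ∑ u ∈ hDfin.toFinset ∪ S, (D u : ℝ) * Real.log (R * ‖c - u‖⁻¹) := by
    refine finsum_eq_sum_of_support_subset _ ?_
    intro u hu
    simp only [Function.mem_support] at hu
    have : D u ≠ 0 := by
      intro h; apply hu; rw [h]; simp
    simp only [Finset.coe_union, Finite.coe_toFinset]
    left
    exact this
  rw [hfs, Finset.sum_mul]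
  calc ∑ ρ ∈ S, (analyticOrderNatAt f ρ : ℝ) * Real.log (R / r)
      ≤ ∑ u ∈ S, (D u : ℝ) * Real.log (R * ‖c - u‖⁻¹) := by
        refine Finset.sum_le_sum fun ρ hρ => ?_
        have hρr := hS ρ hρ
        have hρR : ρ ∈ closedBall c R := by
          rw [mem_closedBall, dist_eq_norm]; linarith
        have hDρ : (D ρ : ℝ) = (analyticOrderNatAt f ρ : ℝ) := by
          rw [hD, hf.divisor_apply hρR]
          unfold analyticOrderNatAt
          generalize analyticOrderAt f ρ = n
          induction n using ENat.recTopCoe <;> simp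
        rw [hDρ]
        by_cases huc : ρ = c
        · have : analyticOrderNatAt f ρ = 0 := by
            unfold analyticOrderNatAt
            rw [huc, (hf c (by simp [hR.le])).analyticOrderAt_eq_zero.mpr hfc]
            simp
          rw [this]; simp
        · have h2 : 0 < ‖c - ρ‖ := by
            rw [norm_pos_iff, sub_ne_zero]; exact fun h => huc h.symm
          have h3 : ‖c - ρ‖ ≤ r := by rw [norm_sub_rev]; exact hρr
          rw [div_eq_mul_inv]
          gcongr
    _ ≤ ∑ u ∈ hDfin.toFinset ∪ S, (D u : ℝ) * Real.log (R * ‖c - u‖⁻¹) :=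
        Finset.sum_le_sum_of_subset_of_nonneg Finset.subset_union_right
          (fun u _ _ => hterm_nonneg u)

end Pool.Agent.PairCorr
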