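import Mathlib
import Pool.Agent.PairCorr.ZetaBasic
import Pool.Agent.PairCorr.GammaBounds
import Pool.Agent.PairCorr.JensenSum

/-!
Growth of `riemannZeta₁ z = (z - 1) ζ(z)` in the half plane `Re z ≥ -6`.
-/

set_option autoImplicit false

namespace Pool.Agent.PairCorr

open MeasureTheory Filter Topology Complex Set ComplexConjugate

lemma zeta1_eq_of_re_pos {z : ℂ} (hz : 0 < z.re) :
    riemannZeta₁ z = z - (z - 1) * (z * fractInt z) := by
  by_cases h1 : z = 1
  · rw [h1]; simp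
  · have h := zeta_eq_of_re_pos hz h1
    have hs1' : z - 1 ≠ 0 := sub_ne_zero.mpr h1
    rw [riemannZeta_eq_inv_sub_mul h1] at h
    field_simp at h
    linear_combination h

lemma zeta1_eq_mul {z : ℂ} (h : z ≠ 1) : riemannZeta₁ z = (z - 1) * riemannZeta z := by
  have hs1' : z - 1 ≠ 0 := sub_ne_zero.mpr h
  rw [riemannZeta_eq_inv_sub_mul h]
  field_simp

lemma norm_zeta1_le_right {z : ℂ} (hz : 1 / 4 ≤ z.re) :
    ‖riemannZeta₁ z‖ ≤ 5 * (2 + ‖z‖) ^ 2 := by
  have hz0 : 0 < z.re := by linarith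
  rw [zeta1_eq_of_re_pos hz0]
  have h1 : ‖z - 1‖ ≤ ‖z‖ + 1 := by
    simpa using norm_sub_le z 1
  have h2 : ‖fractInt z‖ ≤ 4 := by
    refine (norm_fractInt_le hz0).trans ?_
    rw [div_le_iff₀ hz0]; linarith
  have h0 := norm_nonneg z
  calc ‖z - (z - 1) * (z * fractInt z)‖ ≤ ‖z‖ + ‖(z - 1) * (z * fractInt z)‖ := norm_sub_le _ _
    _ ≤ ‖z‖ + (‖z‖ + 1) * (‖z‖ * 4) := by
        rw [norm_mul, norm_mul]
        gcongr
    _ ≤ 5 * (2 + ‖z‖) ^ 2 := by nlinarith

lemma norm_cos_le (z : ℂ) : ‖Complex.cos z‖ ≤ Real.exp |z.im| := by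
  rw [Complex.cos]
  rw [norm_div]
  have h1 : ‖Complex.exp (z * I)‖ ≤ Real.exp |z.im| := by
    rw [Complex.norm_exp]
    apply Real.exp_le_exp.mpr
    simp
    exact neg_le_abs z.im
  have h2 : ‖Complex.exp (-z * I)‖ ≤ Real.exp |z.im| := by
    rw [Complex.norm_exp]
    apply Real.exp_le_exp.mpr
    simp
    exact le_abs_self _
  have h3 : ‖(2 : ℂ)‖ = 2 := by simp
  rw [h3, div_le_iff₀ two_pos]
  calc ‖Complex.exp (z * I) + Complex.exp (-z * I)‖ ≤ ‖Complex.exp (z * I)‖ + ‖Complex.exp (-z * I)‖ :=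
        norm_add_le _ _
    _ ≤ _ := by linarith

/-- Bound for `Γ` in the strip `3/4 ≤ Re s ≤ 7`. -/
lemma exists_norm_Gamma_le : ∃ C : ℝ, 0 < C ∧ ∀ x ∈ Icc (3 / 4 : ℝ) 7, ∀ y : ℝ,
    ‖Complex.Gamma (x + y * I)‖ ≤ C * (7 + |y|) ^ 8 * Real.exp (-(Real.pi * |y| / 2)) := by
  have hcont : ContinuousOn Real.Gamma (Icc (3 / 4 : ℝ) 7) := by
    intro x hx
    refine (Real.differentiableAt_Gamma fun m hm => ?_).continuousAt.continuousWithinAt
    have h3 : (0 : ℝ) ≤ m := Nat.cast_nonneg m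
    have := hx.1
    rw [hm] at this
    linarith
  obtain ⟨B, hB⟩ := isCompact_Icc.bddAbove_image hcont
  have hB' : ∀ x ∈ Icc (3 / 4 : ℝ) 7, Real.Gamma x ≤ B := fun x hx => hB ⟨x, hx, rfl⟩
  have hBpos : 0 < B := lt_of_lt_of_le (Real.Gamma_pos_of_pos (by norm_num : (0:ℝ) < 1))
    (hB' 1 (by norm_num))
  refine ⟨7 * B, by positivity, fun x hx y => ?_⟩
  have hx0 : 0 < x := by linarith [hx.1]
  have h1 := norm_Gamma_ratio_mono (x := x) (x' := 8) hx0 (by linarith [hx.2]) y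
  -- express Γ(8+iy)
  have hstep : ∀ n : ℕ, 1 ≤ n → ‖Complex.Gamma (((n : ℝ) : ℂ) + y * I)‖ ≤
      (7 + |y|) ^ (n - 1) * ‖Complex.Gamma ((1 : ℝ) + y * I)‖ ∨ 8 < n := by
    intro n hn
    induction n, hn using Nat.le_induction with
    | base => left; simp
    | succ n hn ih =>
      by_cases h8 : 8 < n + 1
      · right; exact h8
      · left
        rcases ih with ih | ih
        · have hne : (((n : ℝ) : ℂ) + y * I) ≠ 0 := by
            intro h
            have := congrArg Complex.re h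
            simp at this
            omega
          have e : ((((n + 1 : ℕ) : ℝ) : ℂ) + y * I) = (((n : ℝ) : ℂ) + y * I) + 1 := by
            push_cast; ring
          rw [e, Complex.Gamma_add_one _ hne, norm_mul]
          have h2 : ‖((n : ℝ) : ℂ) + y * I‖ ≤ 7 + |y| := by
            calc ‖((n : ℝ) : ℂ) + y * I‖ ≤ ‖((n : ℝ) : ℂ)‖ + ‖(y : ℂ) * I‖ := norm_add_le _ _
              _ ≤ 7 + |y| := by
                rw [Complex.norm_real, norm_mul, Complex.norm_I, mul_one, Complex.norm_real,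
                  Real.norm_eq_abs, Real.norm_eq_abs, abs_of_nonneg (Nat.cast_nonneg n)]
                have : (n : ℝ) ≤ 7 := by
                  have : n ≤ 7 := by omega
                  exact_mod_cast this
                linarith
          calc ‖((n : ℝ) : ℂ) + y * I‖ * ‖Complex.Gamma (((n : ℝ) : ℂ) + y * I)‖
              ≤ (7 + |y|) * ((7 + |y|) ^ (n - 1) * ‖Complex.Gamma ((1 : ℝ) + y * I)‖) := by
                gcongr
            _ = (7 + |y|) ^ (n + 1 - 1) * ‖Complex.Gamma ((1 : ℝ) + y * I)‖ := by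
                rw [← mul_assoc, ← pow_succ']
                congr 2
                omega
        · omega
  have h8 : ‖Complex.Gamma ((8 : ℝ) + y * I)‖ ≤
      (7 + |y|) ^ 7 * ‖Complex.Gamma ((1 : ℝ) + y * I)‖ := by
    rcases hstep 8 (by norm_num) with h | h
    · simpa using h
    · omega
  have hG1 := norm_Gamma_one_le y
  have hG8 : (1 : ℝ) ≤ Real.Gamma 8 := by
    have : Real.Gamma 8 = (Nat.factorial 7 : ℝ) := by
      have := Real.Gamma_nat_eq_factorial 7
      rw [← this]; norm_num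
    rw [this]; norm_num [Nat.factorial]
  have hy : 0 ≤ |y| := abs_nonneg y
  have hn0 : 0 ≤ ‖Complex.Gamma (x + y * I)‖ := norm_nonneg _
  calc ‖Complex.Gamma (x + y * I)‖ ≤ ‖Complex.Gamma (x + y * I)‖ * Real.Gamma 8 := by nlinarith
    _ ≤ ‖Complex.Gamma ((8 : ℝ) + y * I)‖ * Real.Gamma x := h1
    _ ≤ ((7 + |y|) ^ 7 * ((1 + 7 * |y|) * Real.exp (-(Real.pi * |y| / 2)))) * B := by
        gcongr
        · exact h8.trans (by gcongr)
        · exact hB' x hx
    _ ≤ ((7 + |y|) ^ 7 * ((7 * (7 + |y|)) * Real.exp (-(Real.pi * |y| / 2)))) * B := by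
        gcongr
        linarith
    _ = 7 * B * (7 + |y|) ^ 8 * Real.exp (-(Real.pi * |y| / 2)) := by ring

/-- (G1) Polynomial growth of `(z-1)ζ(z)` for `Re z ≥ -6`. -/
theorem zeta1_growth : ∃ C : ℝ, 1 ≤ C ∧ ∀ z : ℂ, -6 ≤ z.re →
    ‖riemannZeta₁ z‖ ≤ C * (2 + ‖z‖) ^ 10 := by
  obtain ⟨CG, hCG, hG⟩ := exists_norm_Gamma_le
  -- compact part
  have hcomp : IsCompact (Icc (-6 : ℝ) (1 / 4) ×ℂ Icc (-1 : ℝ) 1) :=
    isCompact_Icc.reProdIm isCompact_Icc
  obtain ⟨B, hB⟩ := hcomp.exists_bound_of_continuousOn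
    (differentiable_riemannZeta₁.continuous.continuousOn)
  set C₁ : ℝ := 2 * CG * 7 ^ 8 * 6 with hC₁
  have hC₁pos : 0 < C₁ := by positivity
  refine ⟨5 + |B| + C₁, by have := abs_nonneg B; linarith, fun z hz => ?_⟩
  have hz0 := norm_nonneg z
  have hone : (1 : ℝ) ≤ (2 + ‖z‖) ^ 10 := one_le_pow₀ (by linarith)
  have hB0 := abs_nonneg B
  by_cases h14 : 1 / 4 ≤ z.re
  · calc ‖riemannZeta₁ z‖ ≤ 5 * (2 + ‖z‖) ^ 2 := norm_zeta1_le_right h14
      _ ≤ 5 * (2 + ‖z‖) ^ 10 := by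
          gcongr
          · linarith
          · norm_num
      _ ≤ _ := by
          apply mul_le_mul_of_nonneg_right _ (by positivity)
          linarith
  push Not at h14
  by_cases him : |z.im| ≤ 1
  · have hmem : z ∈ Icc (-6 : ℝ) (1 / 4) ×ℂ Icc (-1 : ℝ) 1 := by
      rw [Complex.mem_reProdIm]
      exact ⟨⟨hz, h14.le⟩, abs_le.mp him⟩
    calc ‖riemannZeta₁ z‖ ≤ B := hB z hmem
      _ ≤ |B| := le_abs_self B
      _ ≤ (5 + |B| + C₁) * 1 := by linarith
      _ ≤ _ := by gcongr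
  push Not at him
  -- functional equation
  set s : ℂ := 1 - z with hs
  have hsre : s.re = 1 - z.re := by simp [hs]
  have hsim : s.im = -z.im := by simp [hs]
  have hz1 : z ≠ 1 := by
    intro h; rw [h] at him; simp at him; linarith
  have hs_ne : ∀ n : ℕ, s ≠ -n := by
    intro n hn
    have : s.im = 0 := by rw [hn]; simp
    rw [hsim] at this
    have : z.im = 0 := by linarith
    rw [this] at him; simp at him; linarith
  have hs1 : s ≠ 1 := by
    intro h
    have : s.im = 0 := by rw [h]; simp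
    rw [hsim] at this
    have : z.im = 0 := by linarith
    rw [this] at him; simp at him; linarith
  have hfe := riemannZeta_one_sub hs_ne hs1
  have hz_eq : 1 - s = z := by simp [hs]
  rw [hz_eq] at hfe
  rw [zeta1_eq_mul hz1, hfe]
  have hzeta : ‖riemannZeta s‖ ≤ 6 * ‖s‖ := norm_zeta_le (by rw [hsre]; linarith)
    (by rw [hsim, abs_neg]; exact him.le)
  have hsnorm : ‖s‖ ≤ 2 + ‖z‖ := by
    have := norm_sub_le (1 : ℂ) z
    simp only [norm_one] at this
    rw [hs]; linarith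
  have hs_eq : s = ((s.re : ℝ) : ℂ) + (s.im : ℝ) * I := (Complex.re_add_im s).symm
  have hGs : ‖Complex.Gamma s‖ ≤ CG * (7 + |s.im|) ^ 8 * Real.exp (-(Real.pi * |s.im| / 2)) := by
    have := hG s.re (by rw [hsre]; constructor <;> linarith) s.im
    rwa [← hs_eq] at this
  have hcos : ‖Complex.cos (Real.pi * s / 2)‖ ≤ Real.exp (Real.pi * |s.im| / 2) := by
    refine (norm_cos_le _).trans ?_
    apply Real.exp_le_exp.mpr
    have : (Real.pi * s / 2 : ℂ).im = Real.pi * s.im / 2 := by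
      have : (Real.pi * s / 2 : ℂ) = ((Real.pi / 2 : ℝ) : ℂ) * s := by push_cast; ring
      rw [this, Complex.im_ofReal_mul]; ring
    rw [this, abs_div, abs_mul, abs_of_pos Real.pi_pos]
    simp
  have h2pi : ‖(2 * (Real.pi : ℂ)) ^ (-s)‖ ≤ 1 := by
    have : (2 * (Real.pi : ℂ)) = ((2 * Real.pi : ℝ) : ℂ) := by push_cast; ring
    rw [this, Complex.norm_cpow_eq_rpow_re_of_pos (by positivity)]
    refine Real.rpow_le_one_of_one_le_of_nonpos ?_ ?_
    · have := Real.pi_gt_three; linarith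
    · simp only [neg_re]; rw [hsre]; linarith
  have hz1n : ‖z - 1‖ = ‖s‖ := by rw [hs, norm_sub_rev]
  have hsi : |s.im| ≤ ‖z‖ := by
    rw [hsim, abs_neg]; exact Complex.abs_im_le_norm z
  have hee : Real.exp (-(Real.pi * |s.im| / 2)) * Real.exp (Real.pi * |s.im| / 2) = 1 := by
    rw [← Real.exp_add]; simp
  calc ‖(z - 1) * (2 * (2 * (Real.pi : ℂ)) ^ (-s) * Complex.Gamma s *
        Complex.cos (Real.pi * s / 2) * riemannZeta s)‖
      = ‖s‖ * (2 * ‖(2 * (Real.pi : ℂ)) ^ (-s)‖ * ‖Complex.Gamma s‖ *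
        ‖Complex.cos (Real.pi * s / 2)‖ * ‖riemannZeta s‖) := by
        rw [norm_mul, hz1n, norm_mul, norm_mul, norm_mul, norm_mul]
        simp
    _ ≤ (2 + ‖z‖) * (2 * 1 * (CG * (7 + |s.im|) ^ 8 * Real.exp (-(Real.pi * |s.im| / 2))) *
        Real.exp (Real.pi * |s.im| / 2) * (6 * (2 + ‖z‖))) := by
        gcongr
        exact hzeta.trans (by gcongr)
    _ = (2 + ‖z‖) * (2 * CG * (7 + |s.im|) ^ 8 *
        (Real.exp (-(Real.pi * |s.im| / 2)) * Real.exp (Real.pi * |s.im| / 2)) *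
        (6 * (2 + ‖z‖))) := by ring
    _ = (2 + ‖z‖) * (2 * CG * (7 + |s.im|) ^ 8 * (6 * (2 + ‖z‖))) := by rw [hee, mul_one]
    _ ≤ (2 + ‖z‖) * (2 * CG * (7 * (2 + ‖z‖)) ^ 8 * (6 * (2 + ‖z‖))) := by
        gcongr
        linarith
    _ = C₁ * (2 + ‖z‖) ^ 10 := by rw [hC₁]; ring
    _ ≤ _ := by
        apply mul_le_mul_of_nonneg_right _ (by positivity)
        linarith

end Pool.Agent.PairCorr
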