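import Mathlib
import Pool.Agent.PairCorr.Growth

/-!
The deterministic local bound for the number of zeros.
-/

set_option autoImplicit false

namespace Pool.Agent.PairCorr

open MeasureTheory Filter Topology Complex Set ComplexConjugate Metric Real

lemma finite_NTZ_window (t h : ℝ) : ({ρ : ℂ | ρ ∈ NTZ ∧ |ρ.im - t| ≤ h}).Finite := by
  have hcomp : IsCompact (Icc (0 : ℝ) 1 ×ℂ Icc (t - h) (t + h)) :=
    isCompact_Icc.reProdIm isCompact_Icc
  refine (hcomp.inter_riemannZetaZeros_finite).subset ?_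
  rintro ρ ⟨hρ, him⟩
  refine ⟨?_, hρ.1⟩
  rw [Complex.mem_reProdIm]
  rw [abs_le] at him
  exact ⟨⟨hρ.2.1.le, hρ.2.2.le⟩, ⟨by linarith [him.1], by linarith [him.2]⟩⟩

lemma analyticOrderNatAt_zeta1 {ρ : ℂ} (hρ : ρ ≠ 1) :
    analyticOrderNatAt riemannZeta₁ ρ = mult ρ := by
  unfold mult analyticOrderNatAt
  have h1 : riemannZeta₁ =ᶠ[𝓝 ρ] fun z => (z - 1) * riemannZeta z := by
    filter_upwards [isOpen_compl_singleton.mem_nhds hρ] with z hz
    exact zeta1_eq_mul hz
  rw [analyticOrderAt_congr h1]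
  have h2 : AnalyticAt ℂ (fun z : ℂ => z - 1) ρ := by fun_prop
  have h3 : analyticOrderAt (fun z : ℂ => z - 1) ρ = 0 :=
    h2.analyticOrderAt_eq_zero.mpr (sub_ne_zero.mpr hρ)
  have h4 : analyticOrderAt (fun z : ℂ => (z - 1) * riemannZeta z) ρ =
      analyticOrderAt (fun z : ℂ => z - 1) ρ + analyticOrderAt riemannZeta ρ :=
    analyticOrderAt_mul h2 (analyticAt_zeta hρ)
  rw [h4, h3, zero_add]

lemma norm_zeta1_lower {t : ℝ} : 2 / 3 ≤ ‖riemannZeta₁ (3 + t * I)‖ := by
  have hre : ((3 : ℂ) + t * I).re = 3 := by simp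
  have h1 : ((3 : ℂ) + t * I) ≠ 1 := by
    intro h
    have := congrArg Complex.re h
    rw [hre] at this
    simp at this
  rw [zeta1_eq_mul h1, norm_mul]
  have h2 : 1 / 3 < ‖riemannZeta (3 + t * I)‖ := one_third_lt_norm_zeta (by rw [hre]; norm_num)
  have h3 : 2 ≤ ‖(3 : ℂ) + t * I - 1‖ := by
    have := Complex.abs_re_le_norm ((3 : ℂ) + t * I - 1)
    simp at this
    norm_num at this
    exact this
  nlinarith

/-- Finite form of the local count. -/
theorem exists_local_count_finset : ∃ C : ℝ, 0 < C ∧ ∀ t : ℝ, ∀ S : Finset ℂ,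
    (∀ ρ ∈ S, ρ ∈ NTZ ∧ |ρ.im - t| ≤ 1) → ∑ ρ ∈ S, (mult ρ : ℝ) ≤ C * Real.log (|t| + 2) := by
  obtain ⟨C, hC1, hC⟩ := zeta1_growth
  have hlog2 : 0 < Real.log 2 := Real.log_pos one_lt_two
  set κ : ℝ := Real.log (6 / (7 / 2)) with hκ
  have hκpos : 0 < κ := Real.log_pos (by norm_num)
  refine ⟨(Real.log C / Real.log 2 + 50) / κ, ?_, fun t S hS => ?_⟩
  · have : 0 ≤ Real.log C := Real.log_nonneg hC1
    positivity
  set c : ℂ := 3 + t * I with hc
  have hcre : c.re = 3 := by simp [hc]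
  have hcim : c.im = t := by simp [hc]
  have hfc : riemannZeta₁ c ≠ 0 := by
    have := norm_zeta1_lower (t := t)
    intro h
    rw [← hc, h, norm_zero] at this
    linarith
  have hJ := jensen_sum_le (f := riemannZeta₁) (c := c) (r := 7 / 2) (R := 6) (by norm_num)
    (by norm_num) (fun z _ => differentiable_riemannZeta₁.analyticAt z) hfc S (by
      intro ρ hρ
      obtain ⟨hρ1, hρ2⟩ := hS ρ hρ
      have h1 : ‖ρ - c‖ ^ 2 = (ρ.re - 3) ^ 2 + (ρ.im - t) ^ 2 := by
        rw [← Complex.normSq_eq_norm_sq, Complex.normSq_apply]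
        simp only [sub_re, sub_im, hcre, hcim]; ring
      have h2 : (ρ.im - t) ^ 2 ≤ 1 := by
        rw [← sq_abs]; nlinarith [abs_nonneg (ρ.im - t)]
      have h3 : (ρ.re - 3) ^ 2 ≤ 9 := by nlinarith [hρ1.2.1, hρ1.2.2]
      nlinarith [norm_nonneg (ρ - c)])
  have hsum : ∑ ρ ∈ S, (analyticOrderNatAt riemannZeta₁ ρ : ℝ) = ∑ ρ ∈ S, (mult ρ : ℝ) := by
    refine Finset.sum_congr rfl fun ρ hρ => ?_
    rw [analyticOrderNatAt_zeta1 (ne_one_of_mem_NTZ (hS ρ hρ).1)]
  rw [hsum, ← hκ] at hJ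
  -- upper bound for the circle average
  have hM : 0 < C * (11 + |t|) ^ 10 := by positivity
  have hM1 : 1 ≤ C * (11 + |t|) ^ 10 := by
    have h1 : (1 : ℝ) ≤ (11 + |t|) ^ 10 := one_le_pow₀ (by have := abs_nonneg t; linarith)
    nlinarith
  have havg : circleAverage (fun z => Real.log ‖riemannZeta₁ z‖) c 6 ≤
      Real.log (C * (11 + |t|) ^ 10) := by
    refine circleAverage_mono_on_of_le_circle ?_ ?_
    · refine MeromorphicOn.circleIntegrable_log_norm ?_
      exact fun z _ => (differentiable_riemannZeta₁.analyticAt z).meromorphicAt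
    · intro z hz
      have hz' : ‖z - c‖ = 6 := by
        rw [mem_sphere, dist_eq_norm] at hz
        rw [hz]; norm_num
      have hzre : -6 ≤ z.re := by
        have := Complex.abs_re_le_norm (z - c)
        rw [hz'] at this
        simp only [sub_re, hcre] at this
        have := (abs_le.mp this).1
        linarith
      have hcn : ‖c‖ ≤ 3 + |t| := by
        rw [hc]
        calc ‖(3 : ℂ) + t * I‖ ≤ ‖(3 : ℂ)‖ + ‖(t : ℂ) * I‖ := norm_add_le _ _
          _ = 3 + |t| := by simp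
      have hzn : ‖z‖ ≤ 9 + |t| := by
        calc ‖z‖ = ‖(z - c) + c‖ := by ring_nf
          _ ≤ ‖z - c‖ + ‖c‖ := norm_add_le _ _
          _ ≤ _ := by rw [hz']; linarith
      have h1 : ‖riemannZeta₁ z‖ ≤ C * (11 + |t|) ^ 10 := by
        refine (hC z hzre).trans ?_
        have : 2 + ‖z‖ ≤ 11 + |t| := by linarith
        gcongr
      rcases (norm_nonneg (riemannZeta₁ z)).eq_or_lt' with h | h
      · rw [h, Real.log_zero]; exact Real.log_nonneg hM1
      · exact Real.log_le_log h h1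
  have hlow : Real.log (2 / 3) ≤ Real.log ‖riemannZeta₁ c‖ :=
    Real.log_le_log (by norm_num) norm_zeta1_lower
  have h23 : -Real.log 2 ≤ Real.log (2 / 3) := by
    rw [← Real.log_inv]
    exact Real.log_le_log (by norm_num) (by norm_num)
  have hsplit : Real.log (C * (11 + |t|) ^ 10) = Real.log C + 10 * Real.log (11 + |t|) := by
    rw [Real.log_mul (by positivity) (by positivity), Real.log_pow]
    norm_num
  have ht0 := abs_nonneg t
  have hl2 : Real.log 2 ≤ Real.log (|t| + 2) := Real.log_le_log two_pos (by linarith)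
  have h11 : Real.log (11 + |t|) ≤ 4 * Real.log (|t| + 2) := by
    have : Real.log (11 + |t|) ≤ Real.log ((|t| + 2) ^ 4) := by
      apply Real.log_le_log (by positivity)
      nlinarith [sq_nonneg (|t|), sq_nonneg (|t| * |t|), mul_nonneg ht0 ht0,
        mul_nonneg ht0 (mul_nonneg ht0 ht0)]
    rw [Real.log_pow] at this
    exact_mod_cast this
  have hCl : Real.log C ≤ Real.log C / Real.log 2 * Real.log (|t| + 2) := by
    have : 0 ≤ Real.log C := Real.log_nonneg hC1
    rw [div_mul_eq_mul_div, le_div_iff₀ hlog2]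
    gcongr
  rw [div_mul_eq_mul_div, le_div_iff₀ hκpos]
  have : (∑ ρ ∈ S, (mult ρ : ℝ)) * κ ≤ Real.log (C * (11 + |t|) ^ 10) - Real.log (2 / 3) := by
    linarith
  rw [hsplit] at this
  nlinarith

/-- (B') the deterministic local bound for the number of zeros. -/
theorem statementB' : StatementB' := by
  obtain ⟨C, hC, h⟩ := exists_local_count_finset
  refine ⟨C, hC, fun t => ?_⟩
  have hfin := finite_NTZ_window t 1
  refine ⟨hfin, ?_⟩
  rw [finsum_mem_eq_finite_toFinset_sum _ hfin]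
  refine h t _ fun ρ hρ => ?_
  simpa using hρ

end Pool.Agent.PairCorr
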