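import Mathlib
import Pool.Agent.PairCorr.B_LocalCount

/-!
Area integrals over discs in terms of circle averages, and the local integrability of
`log ‖(z-1)ζ(z)‖` with a logarithmic bound.
-/

set_option autoImplicit false

namespace Pool.Agent.PairCorr

open MeasureTheory Filter Topology Complex Set Metric Real
open scoped ENNReal

lemma lintegral_ball_le {F : ℂ → ℝ≥0∞} (hF : Measurable F) (c : ℂ) {R : ℝ} (hR : 0 < R)
    (B : ℝ≥0∞) (h : ∀ r ∈ Ioo 0 R, ∫⁻ θ in Ioo 0 (2 * π), F (circleMap c r θ) ≤ B) :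
    ∫⁻ z in ball c R, F z ≤ ENNReal.ofReal (R ^ 2 / 2) * B := by
  set G : ℂ → ℝ≥0∞ := fun w => (ball (0 : ℂ) R).indicator (fun w => F (c - w)) w with hG
  have hGm : Measurable G := by
    apply Measurable.indicator _ measurableSet_ball
    exact hF.comp (measurable_const.sub measurable_id)
  have e1 : ∫⁻ z in ball c R, F z = ∫⁻ w, G w := by
    rw [← lintegral_indicator measurableSet_ball]
    have : ∀ w : ℂ, G w = (ball c R).indicator F (c - w) := by
      intro w
      simp only [hG]
      by_cases hw : w ∈ ball (0 : ℂ) R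
      · have : c - w ∈ ball c R := by
          simp only [mem_ball, dist_eq_norm] at hw ⊢
          simpa using hw
        rw [indicator_of_mem hw, indicator_of_mem this]
      · have : c - w ∉ ball c R := by
          simp only [mem_ball, dist_eq_norm] at hw ⊢
          simpa using hw
        rw [indicator_of_notMem hw, indicator_of_notMem this]
    simp_rw [this]
    exact (lintegral_sub_left_eq_self _ c).symm
  rw [e1, ← Complex.lintegral_comp_polarCoord_symm]
  have htarget : polarCoord.target = Ioi (0 : ℝ) ×ˢ Ioo (-π) π := rfl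
  rw [htarget, Measure.volume_eq_prod, setLIntegral_prod]
  swap
  · apply Measurable.aemeasurable
    simp only [smul_eq_mul]
    apply Measurable.mul
    · exact measurable_fst.ennreal_ofReal
    · have hps : (fun p : ℝ × ℝ => Complex.polarCoord.symm p) =
          fun p : ℝ × ℝ => (p.1 : ℂ) * (Real.cos p.2 + Real.sin p.2 * Complex.I) :=
        funext fun p => Complex.polarCoord_symm_apply p
      have hm : Measurable (fun p : ℝ × ℝ => Complex.polarCoord.symm p) := by
        rw [hps]; fun_prop
      exact hGm.comp hm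
  have e2 : ∀ r ∈ Ioi (0 : ℝ), ∫⁻ θ in Ioo (-π) π, ENNReal.ofReal (r, θ).1 •
      G (Complex.polarCoord.symm (r, θ)) ≤ (Ioo 0 R).indicator (fun r => ENNReal.ofReal r * B) r := by
    intro r hr
    have hr0 : (0 : ℝ) < r := hr
    have hsymm : ∀ θ : ℝ, c - Complex.polarCoord.symm (r, θ) = circleMap c r (θ + π) := by
      intro θ
      rw [Complex.polarCoord_symm_apply, circleMap]
      push_cast
      rw [Complex.exp_mul_I, Complex.cos_add_pi, Complex.sin_add_pi]
      ring
    by_cases hrR : r < R
    · rw [indicator_of_mem (show r ∈ Ioo 0 R from ⟨hr0, hrR⟩)]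
      have : ∀ θ : ℝ, ENNReal.ofReal (r, θ).1 • G (Complex.polarCoord.symm (r, θ)) =
          ENNReal.ofReal r * F (circleMap c r (θ + π)) := by
        intro θ
        have hmem : Complex.polarCoord.symm (r, θ) ∈ ball (0 : ℂ) R := by
          simp only [mem_ball, dist_zero_right]
          rw [Complex.norm_polarCoord_symm, abs_of_pos hr0]
          exact hrR
        simp only [hG]
        rw [indicator_of_mem hmem, hsymm]
        simp
      simp_rw [this]
      rw [lintegral_const_mul]
      swap
      · exact hF.comp ((continuous_circleMap c r).comp (continuous_id.add continuous_const)).measurable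
      gcongr
      have e3 : ∫⁻ θ in Ioo (-π) π, F (circleMap c r (θ + π)) =
          ∫⁻ θ in Ioo 0 (2 * π), F (circleMap c r θ) := by
        rw [← lintegral_indicator measurableSet_Ioo, ← lintegral_indicator measurableSet_Ioo]
        rw [← lintegral_add_right_eq_self (fun θ => (Ioo 0 (2 * π)).indicator
          (fun θ => F (circleMap c r θ)) θ) π]
        congr 1
        ext θ
        by_cases hθ : θ ∈ Ioo (-π) π
        · have : θ + π ∈ Ioo 0 (2 * π) := ⟨by linarith [hθ.1], by linarith [hθ.2]⟩
          rw [indicator_of_mem hθ, indicator_of_mem this]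
        · have : θ + π ∉ Ioo 0 (2 * π) := by
            intro h'
            exact hθ ⟨by linarith [h'.1], by linarith [h'.2]⟩
          rw [indicator_of_notMem hθ, indicator_of_notMem this]
      rw [e3]
      exact h r ⟨hr0, hrR⟩
    · have hnot : r ∉ Ioo 0 R := fun h' => hrR h'.2
      rw [indicator_of_notMem hnot]
      have : ∀ θ : ℝ, ENNReal.ofReal (r, θ).1 • G (Complex.polarCoord.symm (r, θ)) = 0 := by
        intro θ
        have hmem : Complex.polarCoord.symm (r, θ) ∉ ball (0 : ℂ) R := by
          simp only [mem_ball, dist_zero_right]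
          rw [Complex.norm_polarCoord_symm, abs_of_pos hr0]
          exact hrR
        simp only [hG]
        rw [indicator_of_notMem hmem]
        simp
      simp_rw [this]
      simp
  calc ∫⁻ r in Ioi (0 : ℝ), ∫⁻ θ in Ioo (-π) π, ENNReal.ofReal (r, θ).1 •
      G (Complex.polarCoord.symm (r, θ))
      ≤ ∫⁻ r in Ioi (0 : ℝ), (Ioo 0 R).indicator (fun r => ENNReal.ofReal r * B) r :=
        setLIntegral_mono' measurableSet_Ioi e2
    _ = ∫⁻ r in Ioo 0 R, ENNReal.ofReal r * B := by
        rw [setLIntegral_indicator measurableSet_Ioo]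
        congr 2
        ext x; simp
        intro hx _; exact hx
    _ = (∫⁻ r in Ioo 0 R, ENNReal.ofReal r) * B := by
        rw [lintegral_mul_const _ (by fun_prop)]
    _ = ENNReal.ofReal (R ^ 2 / 2) * B := by
        congr 1
        have hint : IntegrableOn (fun r : ℝ => r) (Ioo 0 R) :=
          (continuous_id.integrableOn_Icc).mono_set Ioo_subset_Icc_self
        rw [← ofReal_integral_eq_lintegral_ofReal hint]
        · congr 1
          rw [← integral_Ioc_eq_integral_Ioo, ← intervalIntegral.integral_of_le hR.le, integral_id]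
          ring
        · exact (ae_restrict_mem measurableSet_Ioo).mono fun r hr => hr.1.le

/-- The mean value inequality for `log ‖f‖`. -/
lemma log_norm_le_circleAverage {f : ℂ → ℂ} {c : ℂ} {R : ℝ} (hR : 0 < R)
    (hf : AnalyticOnNhd ℂ f (closedBall c R)) (hfc : f c ≠ 0) :
    Real.log ‖f c‖ ≤ circleAverage (fun z => Real.log ‖f z‖) c R := by
  have := jensen_sum_le (r := R / 2) (R := R) (by linarith) (by linarith) hf hfc ∅ (by simp)
  simp at this
  exact this

lemma lintegral_circle_abs_log_le {f : ℂ → ℂ} (hf : Differentiable ℂ f) {c : ℂ} {r M m : ℝ}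
    (hr : 0 < r) (hM : 0 ≤ M) (hup : ∀ z ∈ sphere c r, ‖f z‖ ≤ Real.exp M)
    (hlow : Real.exp (-m) ≤ ‖f c‖) :
    ∫⁻ θ in Ioo 0 (2 * π), ENNReal.ofReal |Real.log ‖f (circleMap c r θ)‖| ≤
      ENNReal.ofReal (2 * π * (2 * M + m)) := by
  have hfc : f c ≠ 0 := by
    intro h; rw [h, norm_zero] at hlow; exact absurd hlow (not_le.mpr (Real.exp_pos _))
  have hpi := Real.pi_pos
  have hci : CircleIntegrable (fun z => Real.log ‖f z‖) c r := by
    refine MeromorphicOn.circleIntegrable_log_norm ?_
    exact fun z _ => (hf.analyticAt z).meromorphicAt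
  have hint : IntegrableOn (fun θ => Real.log ‖f (circleMap c r θ)‖) (Ioo 0 (2 * π)) := by
    have := (intervalIntegrable_iff_integrableOn_Ioo_of_le (by positivity)).mp hci
    exact this
  have hfin : volume (Ioo 0 (2 * π)) ≠ ⊤ := by
    rw [Real.volume_Ioo]; exact ENNReal.ofReal_ne_top
  have hconst : IntegrableOn (fun _ : ℝ => 2 * M) (Ioo 0 (2 * π)) := integrableOn_const hfin
  have hint2 : IntegrableOn (fun θ => 2 * M - Real.log ‖f (circleMap c r θ)‖) (Ioo 0 (2 * π)) :=
    hconst.sub hint
  have hpt : ∀ θ : ℝ, |Real.log ‖f (circleMap c r θ)‖| ≤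
      2 * M - Real.log ‖f (circleMap c r θ)‖ := by
    intro θ
    have hz := hup (circleMap c r θ) (circleMap_mem_sphere c hr.le θ)
    rcases (norm_nonneg (f (circleMap c r θ))).eq_or_lt' with h | h
    · rw [h, Real.log_zero]; simp; exact hM
    · have h1 : Real.log ‖f (circleMap c r θ)‖ ≤ M := by
        rw [← Real.log_exp M]; exact Real.log_le_log h hz
      rw [abs_le]
      constructor <;> linarith
  calc ∫⁻ θ in Ioo 0 (2 * π), ENNReal.ofReal |Real.log ‖f (circleMap c r θ)‖|
      ≤ ∫⁻ θ in Ioo 0 (2 * π), ENNReal.ofReal (2 * M - Real.log ‖f (circleMap c r θ)‖) :=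
        lintegral_mono fun θ => ENNReal.ofReal_le_ofReal (hpt θ)
    _ = ENNReal.ofReal (∫ θ in Ioo 0 (2 * π), (2 * M - Real.log ‖f (circleMap c r θ)‖)) := by
        rw [ofReal_integral_eq_lintegral_ofReal hint2]
        exact Eventually.of_forall fun θ => (abs_nonneg _).trans (hpt θ)
    _ ≤ ENNReal.ofReal (2 * π * (2 * M + m)) := by
        apply ENNReal.ofReal_le_ofReal
        rw [integral_sub hconst hint]
        have h1 : ∫ θ in Ioo 0 (2 * π), Real.log ‖f (circleMap c r θ)‖ =
            2 * π * circleAverage (fun z => Real.log ‖f z‖) c r := by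
          rw [circleAverage_def, ← integral_Ioc_eq_integral_Ioo,
            ← intervalIntegral.integral_of_le (by positivity)]
          simp only [smul_eq_mul]
          field_simp
        have h2 := log_norm_le_circleAverage hr (fun z _ => hf.analyticAt z) hfc
        have h3 : -m ≤ Real.log ‖f c‖ := by
          rw [← Real.log_exp (-m)]; exact Real.log_le_log (Real.exp_pos _) hlow
        rw [h1]
        simp
        have : max (2 * π) 0 = 2 * π := max_eq_left (by positivity)
        rw [this]
        nlinarith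

/-- Area integral of `|log ‖f‖|` over a disc. -/
theorem lintegral_ball_abs_log_le {f : ℂ → ℂ} (hf : Differentiable ℂ f) {c : ℂ} {R M m : ℝ}
    (hR : 0 < R) (hM : 0 ≤ M) (hup : ∀ z ∈ closedBall c R, ‖f z‖ ≤ Real.exp M)
    (hlow : Real.exp (-m) ≤ ‖f c‖) :
    ∫⁻ z in ball c R, ENNReal.ofReal |Real.log ‖f z‖| ≤
      ENNReal.ofReal (π * R ^ 2 * (2 * M + m)) := by
  have hmeas : Measurable (fun z => ENNReal.ofReal |Real.log ‖f z‖|) := by
    have := hf.continuous.measurable
    fun_prop
  refine (lintegral_ball_le hmeas c hR (ENNReal.ofReal (2 * π * (2 * M + m))) ?_).trans ?_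
  · intro r hr
    refine lintegral_circle_abs_log_le hf hr.1 hM ?_ hlow
    intro z hz
    exact hup z (sphere_subset_closedBall.trans (closedBall_subset_closedBall hr.2.le) hz)
  · rw [← ENNReal.ofReal_mul (by positivity)]
    apply ENNReal.ofReal_le_ofReal
    apply le_of_eq
    ring

/-- (G2) Area integrability of `log ‖(z-1)ζ(z)‖`, with a logarithmic bound on boxes. -/
theorem zeta1_log_area : ∃ C : ℝ, 0 < C ∧ ∀ t : ℝ,
    IntegrableOn (fun z : ℂ => Real.log ‖riemannZeta₁ z‖)
      (Icc (-4 : ℝ) 4 ×ℂ Icc (t - 1) (t + 1)) ∧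
    ∫ z in (Icc (-4 : ℝ) 4 ×ℂ Icc (t - 1) (t + 1)), |Real.log ‖riemannZeta₁ z‖| ≤
      C * Real.log (|t| + 2) := by
  obtain ⟨C, hC1, hC⟩ := zeta1_growth
  have hlog2 : 0 < Real.log 2 := Real.log_pos one_lt_two
  have hpi := Real.pi_pos
  have hlogC : 0 ≤ Real.log C := Real.log_nonneg hC1
  refine ⟨π * 8 ^ 2 * (2 * (Real.log C / Real.log 2 + 50) + 1), by positivity, fun t => ?_⟩
  have ht0 := abs_nonneg t
  set c : ℂ := 3 + t * I with hc
  have hcre : c.re = 3 := by simp [hc]
  have hcim : c.im = t := by simp [hc]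
  set M : ℝ := (Real.log C / Real.log 2 + 50) * Real.log (|t| + 2) with hM
  have hl2 : Real.log 2 ≤ Real.log (|t| + 2) := Real.log_le_log two_pos (by linarith)
  have hlt : 0 < Real.log (|t| + 2) := by linarith
  have hM0 : 0 ≤ M := by positivity
  have hup : ∀ z ∈ closedBall c 8, ‖riemannZeta₁ z‖ ≤ Real.exp M := by
    intro z hz
    have hz' : ‖z - c‖ ≤ 8 := by rwa [mem_closedBall, dist_eq_norm] at hz
    have hzre : -6 ≤ z.re := by
      have := (Complex.abs_re_le_norm (z - c)).trans hz'
      simp only [sub_re, hcre] at this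
      have := (abs_le.mp this).1
      linarith
    have hcn : ‖c‖ ≤ 3 + |t| := by
      rw [hc]
      calc ‖(3 : ℂ) + t * I‖ ≤ ‖(3 : ℂ)‖ + ‖(t : ℂ) * I‖ := norm_add_le _ _
        _ = 3 + |t| := by simp
    have hzn : ‖z‖ ≤ 11 + |t| := by
      calc ‖z‖ = ‖(z - c) + c‖ := by ring_nf
        _ ≤ ‖z - c‖ + ‖c‖ := norm_add_le _ _
        _ ≤ _ := by linarith
    have h1 : ‖riemannZeta₁ z‖ ≤ C * (13 + |t|) ^ 10 := by
      refine (hC z hzre).trans ?_
      have : 2 + ‖z‖ ≤ 13 + |t| := by linarith
      gcongr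
    refine h1.trans ?_
    have h13 : 13 + |t| ≤ (|t| + 2) ^ 4 := by
      nlinarith [sq_nonneg (|t|), sq_nonneg (|t| * |t|), mul_nonneg ht0 ht0,
        mul_nonneg ht0 (mul_nonneg ht0 ht0)]
    have hCe : C ≤ Real.exp (Real.log C / Real.log 2 * Real.log (|t| + 2)) := by
      rw [← Real.log_le_iff_le_exp (by linarith)]
      rw [div_mul_eq_mul_div, le_div_iff₀ hlog2]
      gcongr
    calc C * (13 + |t|) ^ 10 ≤ Real.exp (Real.log C / Real.log 2 * Real.log (|t| + 2)) *
        ((|t| + 2) ^ 4) ^ 10 := by gcongr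
      _ = Real.exp (Real.log C / Real.log 2 * Real.log (|t| + 2)) *
          Real.exp (40 * Real.log (|t| + 2)) := by
          congr 1
          rw [← pow_mul, ← Real.exp_log (show 0 < |t| + 2 by linarith), ← Real.exp_nat_mul,
            Real.log_exp]
          norm_num
      _ ≤ Real.exp M := by
          rw [← Real.exp_add]
          apply Real.exp_le_exp.mpr
          rw [hM]
          nlinarith
  have hlow : Real.exp (-Real.log (|t| + 2)) ≤ ‖riemannZeta₁ c‖ := by
    have h1 := norm_zeta1_lower (t := t)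
    rw [← hc] at h1
    refine le_trans ?_ h1
    rw [Real.exp_neg, Real.exp_log (by linarith), inv_eq_one_div, div_le_div_iff₀ (by linarith) (by norm_num)]
    linarith
  have hA := lintegral_ball_abs_log_le differentiable_riemannZeta₁ (by norm_num : (0:ℝ) < 8) hM0
    hup hlow
  have hsub : (Icc (-4 : ℝ) 4 ×ℂ Icc (t - 1) (t + 1)) ⊆ ball c 8 := by
    intro z hz
    rw [Complex.mem_reProdIm] at hz
    rw [mem_ball, dist_eq_norm]
    have h1 : ‖z - c‖ ^ 2 = (z.re - 3) ^ 2 + (z.im - t) ^ 2 := by
      rw [← Complex.normSq_eq_norm_sq, Complex.normSq_apply]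
      simp only [sub_re, sub_im, hcre, hcim]; ring
    obtain ⟨⟨h2, h3⟩, h4, h5⟩ := hz
    nlinarith [norm_nonneg (z - c)]
  have hmeas : Measurable (fun z : ℂ => Real.log ‖riemannZeta₁ z‖) := by
    have := differentiable_riemannZeta₁.continuous.measurable
    fun_prop
  have hle : ∫⁻ z in (Icc (-4 : ℝ) 4 ×ℂ Icc (t - 1) (t + 1)),
      ENNReal.ofReal |Real.log ‖riemannZeta₁ z‖| ≤
      ENNReal.ofReal (π * 8 ^ 2 * (2 * M + Real.log (|t| + 2))) :=
    (lintegral_mono_set hsub).trans hA
  have hInt : IntegrableOn (fun z : ℂ => Real.log ‖riemannZeta₁ z‖)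
      (Icc (-4 : ℝ) 4 ×ℂ Icc (t - 1) (t + 1)) := by
    refine ⟨hmeas.aestronglyMeasurable, ?_⟩
    rw [hasFiniteIntegral_iff_norm]
    exact hle.trans_lt ENNReal.ofReal_lt_top
  refine ⟨hInt, ?_⟩
  rw [integral_eq_lintegral_of_nonneg_ae (Eventually.of_forall fun z => abs_nonneg _)
    hmeas.abs.aestronglyMeasurable]
  refine (ENNReal.toReal_mono ENNReal.ofReal_ne_top hle).trans ?_
  rw [ENNReal.toReal_ofReal (by positivity)]
  apply le_of_eq
  rw [hM]; ring

end Pool.Agent.PairCorr
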