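import Mathlib
import Pool.Agent.PairCorr.AreaLog

/-!
Pointwise inequalities for the local zero count in terms of a mollified zeta function.
-/

set_option autoImplicit false

namespace Pool.Agent.PairCorr

open MeasureTheory Filter Topology Complex Set Metric Real
open scoped ENNReal

/-- The mollified zeta function. -/
noncomputable def FF (Mo : ℂ → ℂ) (z : ℂ) : ℂ := riemannZeta z * Mo z

lemma ne_one_of_mem_closedBall {c : ℂ} {R : ℝ} (h : R < c.im) {z : ℂ} (hz : z ∈ closedBall c R) :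
    z ≠ 1 := by
  intro h1
  rw [mem_closedBall, dist_eq_norm, h1] at hz
  have := (Complex.abs_im_le_norm (1 - c)).trans hz
  simp only [sub_im, one_im, zero_sub, abs_neg] at this
  linarith [le_abs_self c.im]

lemma FF_analytic {Mo : ℂ → ℂ} (hMo : Differentiable ℂ Mo) {z : ℂ} (hz : z ≠ 1) :
    AnalyticAt ℂ (FF Mo) z := (analyticAt_zeta hz).mul (hMo.analyticAt z)

lemma FF_analyticOnNhd {Mo : ℂ → ℂ} (hMo : Differentiable ℂ Mo) {c : ℂ} {R : ℝ}
    (h : R < c.im) : AnalyticOnNhd ℂ (FF Mo) (closedBall c R) := fun _ hz =>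
  FF_analytic hMo (ne_one_of_mem_closedBall h hz)

lemma mult_le_order {Mo : ℂ → ℂ} (hMo : Differentiable ℂ Mo) {c : ℂ} {R : ℝ} (hR : 0 < R)
    (h : R < c.im) (hc : FF Mo c ≠ 0) {ρ : ℂ} (hρ : ρ ∈ closedBall c R) :
    mult ρ ≤ analyticOrderNatAt (FF Mo) ρ := by
  have hρ1 := ne_one_of_mem_closedBall h hρ
  have htop : analyticOrderAt (FF Mo) ρ ≠ ⊤ := by
    refine (FF_analyticOnNhd hMo h).analyticOrderAt_ne_top_of_isPreconnected
      (convex_closedBall c R).isPreconnected (mem_closedBall_self hR.le) hρ ?_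
    have : analyticOrderAt (FF Mo) c = 0 :=
      (FF_analyticOnNhd hMo h c (mem_closedBall_self hR.le)).analyticOrderAt_eq_zero.mpr hc
    rw [this]; simp
  have hmul : analyticOrderAt (FF Mo) ρ = analyticOrderAt riemannZeta ρ + analyticOrderAt Mo ρ :=
    analyticOrderAt_mul (analyticAt_zeta hρ1) (hMo.analyticAt ρ)
  have h1 : analyticOrderAt riemannZeta ρ ≤ analyticOrderAt (FF Mo) ρ := by
    rw [hmul]; exact le_self_add
  unfold mult analyticOrderNatAt
  exact ENat.toNat_le_toNat h1 htop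

theorem jensen_FF {Mo : ℂ → ℂ} (hMo : Differentiable ℂ Mo) {c : ℂ} {r R : ℝ} (hr : 0 < r)
    (hrR : r < R) (h : R < c.im) (hc : FF Mo c ≠ 0) (S : Finset ℂ) (hS : ∀ ρ ∈ S, ‖ρ - c‖ ≤ r) :
    (∑ ρ ∈ S, (mult ρ : ℝ)) * Real.log (R / r) ≤
      circleAverage (fun z => Real.log ‖FF Mo z‖) c R - Real.log ‖FF Mo c‖ := by
  refine le_trans ?_ (jensen_sum_le hr hrR (FF_analyticOnNhd hMo h) hc S hS)
  have : 0 ≤ Real.log (R / r) := Real.log_nonneg (by rw [le_div_iff₀ hr]; linarith)
  gcongr with ρ hρ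
  apply mult_le_order hMo (hr.trans hrR) h hc
  rw [mem_closedBall, dist_eq_norm]
  exact (hS ρ hρ).trans hrR.le

lemma FF_continuousOn_circle {Mo : ℂ → ℂ} (hMo : Differentiable ℂ Mo) {c : ℂ} {R : ℝ}
    (hR : 0 < R) (h : R < c.im) : Continuous (fun θ : ℝ => FF Mo (circleMap c R θ)) := by
  rw [continuous_iff_continuousAt]
  intro θ
  have hmem : circleMap c R θ ∈ closedBall c R := circleMap_mem_closedBall c hR.le θ
  exact ContinuousAt.comp (f := fun θ : ℝ => circleMap c R θ)
    (FF_analyticOnNhd hMo h _ hmem).continuousAt (continuous_circleMap c R).continuousAt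

/-- Powers of circle averages. -/
lemma circleAverage_pow_le {g : ℂ → ℝ} {c : ℂ} {R : ℝ} (hg : Continuous fun θ => g (circleMap c R θ))
    (hg0 : ∀ z, 0 ≤ g z) (q : ℕ) :
    (circleAverage g c R) ^ q ≤ circleAverage (fun z => g z ^ q) c R := by
  rw [circleAverage_eq_intervalAverage, circleAverage_eq_intervalAverage]
  have hpi := Real.pi_pos
  have h1 : volume (Set.uIoc 0 (2 * π)) ≠ 0 := by
    rw [Set.uIoc_of_le (by positivity), Real.volume_Ioc]
    simp [Real.pi_pos]
  have h2 : volume (Set.uIoc 0 (2 * π)) ≠ ⊤ := by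
    rw [Set.uIoc_of_le (by positivity), Real.volume_Ioc]
    exact ENNReal.ofReal_ne_top
  refine ConvexOn.map_set_average_le (convexOn_pow q) (continuous_pow q).continuousOn isClosed_Ici
    h1 h2 (Eventually.of_forall fun θ => hg0 _) ?_ ?_
  · rw [← intervalIntegrable_iff]
    exact hg.intervalIntegrable _ _
  · rw [← intervalIntegrable_iff]
    exact (hg.pow q).intervalIntegrable _ _

/-- The basic quadratic quantity. -/
noncomputable def QQ (Mo : ℂ → ℂ) (c : ℂ) (R : ℝ) : ℝ :=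
  circleAverage (fun z => ‖FF Mo z - 1‖ ^ 2) c R

lemma QQ_nonneg (Mo : ℂ → ℂ) (c : ℂ) (R : ℝ) : 0 ≤ QQ Mo c R := by
  apply circleAverage_nonneg_of_nonneg
  intro z _
  positivity

/-- Type I inequality: a zero of zeta in the smaller disc forces `FF - 1` to be large in mean. -/
theorem typeI {Mo : ℂ → ℂ} (hMo : Differentiable ℂ Mo) {c : ℂ} {r R : ℝ} (hr : 0 < r)
    (hrR : r < R) (hRe : R ≤ 2 * r) (h : R < c.im) {ρ : ℂ} (hρ : ρ ∈ NTZ) (hρc : ‖ρ - c‖ ≤ r) :
    Real.log (R / r) ^ 2 ≤ 8 * (QQ Mo c R + ‖FF Mo c - 1‖ ^ 2) := by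
  have hR : 0 < R := hr.trans hrR
  have hQ := QQ_nonneg Mo c R
  have hlog0 : 0 < Real.log (R / r) := Real.log_pos (by rw [lt_div_iff₀ hr]; linarith)
  have hlog1 : Real.log (R / r) ≤ 1 := by
    have h1 : R / r ≤ 2 := by rw [div_le_iff₀ hr]; linarith
    have h2 : Real.log (R / r) ≤ Real.log 2 := Real.log_le_log (by positivity) h1
    have := Real.log_two_lt_d9
    linarith
  by_cases hbig : 1 / 2 < ‖FF Mo c - 1‖
  · nlinarith
  push Not at hbig
  have hFc : 1 / 2 ≤ ‖FF Mo c‖ := by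
    have h1 : ‖(1 : ℂ)‖ ≤ ‖FF Mo c‖ + ‖FF Mo c - 1‖ := by
      calc ‖(1 : ℂ)‖ = ‖FF Mo c - (FF Mo c - 1)‖ := by ring_nf
        _ ≤ _ := norm_sub_le _ _
    rw [norm_one] at h1
    linarith
  have hFc0 : FF Mo c ≠ 0 := by
    intro h0; rw [h0, norm_zero] at hFc; linarith
  have hJ := jensen_FF hMo hr hrR h hFc0 {ρ} (by simpa using hρc)
  simp only [Finset.sum_singleton] at hJ
  have hm : (1 : ℝ) ≤ mult ρ := by exact_mod_cast mult_pos hρ
  have hcont := FF_continuousOn_circle hMo hR h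
  have hcont1 : Continuous (fun θ : ℝ => ‖FF Mo (circleMap c R θ) - 1‖) :=
    (hcont.sub continuous_const).norm
  -- upper bound of the average
  have havg : circleAverage (fun z => Real.log ‖FF Mo z‖) c R ≤
      circleAverage (fun z => ‖FF Mo z - 1‖) c R := by
    refine circleAverage_mono ?_ ?_ ?_
    · refine MeromorphicOn.circleIntegrable_log_norm ?_
      intro z hz
      refine (FF_analyticOnNhd hMo h z ?_).meromorphicAt
      rw [abs_of_pos hR] at hz
      exact sphere_subset_closedBall hz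
    · exact hcont1.intervalIntegrable _ _
    · intro z _
      rcases (norm_nonneg (FF Mo z)).eq_or_lt' with h0 | h0
      · simp only [h0, Real.log_zero]; positivity
      · have h1 := Real.log_le_sub_one_of_pos h0
        have h2 : ‖FF Mo z‖ ≤ ‖FF Mo z - 1‖ + 1 := by
          calc ‖FF Mo z‖ = ‖(FF Mo z - 1) + 1‖ := by ring_nf
            _ ≤ ‖FF Mo z - 1‖ + ‖(1 : ℂ)‖ := norm_add_le _ _
            _ = _ := by rw [norm_one]
        linarith
  have hsq : (circleAverage (fun z => ‖FF Mo z - 1‖) c R) ^ 2 ≤ QQ Mo c R :=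
    circleAverage_pow_le hcont1 (fun z => norm_nonneg _) 2
  have havg0 : 0 ≤ circleAverage (fun z => ‖FF Mo z - 1‖) c R :=
    circleAverage_nonneg_of_nonneg fun z _ => norm_nonneg _
  -- lower bound of log ‖F c‖
  have hlow : -Real.log ‖FF Mo c‖ ≤ 2 * ‖FF Mo c - 1‖ := by
    have hpos : 0 < ‖FF Mo c‖ := by linarith
    rw [← Real.log_inv]
    have h1 := Real.log_le_sub_one_of_pos (inv_pos.mpr hpos)
    have h2 : 1 - ‖FF Mo c - 1‖ ≤ ‖FF Mo c‖ := by
      have h1 : ‖(1 : ℂ)‖ ≤ ‖FF Mo c‖ + ‖FF Mo c - 1‖ := by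
        calc ‖(1 : ℂ)‖ = ‖FF Mo c - (FF Mo c - 1)‖ := by ring_nf
          _ ≤ _ := norm_sub_le _ _
      rw [norm_one] at h1
      linarith
    have h3 : ‖FF Mo c‖⁻¹ ≤ 1 + 2 * ‖FF Mo c - 1‖ := by
      rw [inv_le_iff_one_le_mul₀ hpos]
      nlinarith [norm_nonneg (FF Mo c - 1)]
    linarith
  have hmain : Real.log (R / r) ≤ circleAverage (fun z => ‖FF Mo z - 1‖) c R +
      2 * ‖FF Mo c - 1‖ := by
    have : Real.log (R / r) ≤ (mult ρ : ℝ) * Real.log (R / r) := by nlinarith
    linarith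
  have hn0 := norm_nonneg (FF Mo c - 1)
  nlinarith [sq_nonneg (circleAverage (fun z => ‖FF Mo z - 1‖) c R - 2 * ‖FF Mo c - 1‖)]

lemma pow_log_le (q : ℕ) {a v : ℝ} (ha : 0 ≤ a) (hv : 1 ≤ v) :
    Real.log v ^ q ≤ 2 ^ q * (a ^ q + q.factorial * (Real.exp (-a) * v)) := by
  have hv0 : 0 < v := by linarith
  have hlv : 0 ≤ Real.log v := Real.log_nonneg hv
  by_cases hva : Real.log v ≤ 2 * a
  · calc Real.log v ^ q ≤ (2 * a) ^ q := by gcongr
      _ = 2 ^ q * a ^ q := by rw [mul_pow]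
      _ ≤ _ := by
          apply mul_le_mul_of_nonneg_left _ (by positivity)
          have : 0 ≤ (q.factorial : ℝ) * (Real.exp (-a) * v) := by positivity
          linarith
  · push Not at hva
    have h1 : Real.log v ≤ 2 * (Real.log v - a) := by linarith
    have h2 : 0 ≤ Real.log v - a := by linarith
    have h3 : (Real.log v - a) ^ q ≤ q.factorial * (Real.exp (-a) * v) := by
      have h4 := Real.pow_div_factorial_le_exp (Real.log v - a) h2 q
      rw [div_le_iff₀ (by positivity), Real.exp_sub, Real.exp_log hv0] at h4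
      rw [Real.exp_neg]
      calc (Real.log v - a) ^ q ≤ v / Real.exp a * q.factorial := h4
        _ = _ := by field_simp
    calc Real.log v ^ q ≤ (2 * (Real.log v - a)) ^ q := by gcongr
      _ = 2 ^ q * (Real.log v - a) ^ q := by rw [mul_pow]
      _ ≤ 2 ^ q * (q.factorial * (Real.exp (-a) * v)) := by gcongr
      _ ≤ _ := by
          apply mul_le_mul_of_nonneg_left _ (by positivity)
          have : 0 ≤ a ^ q := by positivity
          linarith

/-- Type II inequality: powers of the number of zeros in the smaller disc. -/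
theorem typeII {Mo : ℂ → ℂ} (hMo : Differentiable ℂ Mo) {c : ℂ} {r R : ℝ} (hr : 0 < r)
    (hrR : r < R) (h : R < c.im) (hgood : ‖FF Mo c - 1‖ ≤ 1 / 2) (S : Finset ℂ)
    (hS : ∀ ρ ∈ S, ‖ρ - c‖ ≤ r) (q : ℕ) {a : ℝ} (ha : 0 ≤ a) :
    ((∑ ρ ∈ S, (mult ρ : ℝ)) * Real.log (R / r)) ^ q ≤
      4 ^ q * q.factorial * 4 * (1 + a ^ q + Real.exp (-a) * (1 + QQ Mo c R)) := by
  have hR : 0 < R := hr.trans hrR
  have hQ := QQ_nonneg Mo c R
  have hlog0 : 0 < Real.log (R / r) := Real.log_pos (by rw [lt_div_iff₀ hr]; linarith)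
  have hFc : 1 / 2 ≤ ‖FF Mo c‖ := by
    have h1 : ‖(1 : ℂ)‖ ≤ ‖FF Mo c‖ + ‖FF Mo c - 1‖ := by
      calc ‖(1 : ℂ)‖ = ‖FF Mo c - (FF Mo c - 1)‖ := by ring_nf
        _ ≤ _ := norm_sub_le _ _
    rw [norm_one] at h1
    linarith
  have hFc0 : FF Mo c ≠ 0 := by
    intro h0; rw [h0, norm_zero] at hFc; linarith
  have hJ := jensen_FF hMo hr hrR h hFc0 S hS
  have hcont := FF_continuousOn_circle hMo hR h
  set u : ℂ → ℝ := fun z => Real.log (1 + ‖FF Mo z‖ ^ 2) with hu
  have hu0 : ∀ z, 0 ≤ u z := fun z => Real.log_nonneg (by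
    have : 0 ≤ ‖FF Mo z‖ ^ 2 := by positivity
    linarith)
  have hucont : Continuous (fun θ => u (circleMap c R θ)) := by
    simp only [hu]
    refine Continuous.log (by fun_prop) fun θ => ?_
    positivity
  have havg : circleAverage (fun z => Real.log ‖FF Mo z‖) c R ≤ circleAverage u c R := by
    refine circleAverage_mono ?_ ?_ ?_
    · refine MeromorphicOn.circleIntegrable_log_norm ?_
      intro z hz
      refine (FF_analyticOnNhd hMo h z ?_).meromorphicAt
      rw [abs_of_pos hR] at hz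
      exact sphere_subset_closedBall hz
    · exact hucont.intervalIntegrable _ _
    · intro z _
      rcases (norm_nonneg (FF Mo z)).eq_or_lt' with h0 | h0
      · simp only [h0, Real.log_zero]; exact hu0 z
      · apply Real.log_le_log h0
        nlinarith [sq_nonneg (‖FF Mo z‖ - 1)]
  have hlow : -Real.log ‖FF Mo c‖ ≤ 1 := by
    have hpos : 0 < ‖FF Mo c‖ := by linarith
    rw [← Real.log_inv]
    have h2 : ‖FF Mo c‖⁻¹ ≤ 2 := by
      rw [inv_le_comm₀ hpos two_pos]; linarith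
    have h3 : Real.log ‖FF Mo c‖⁻¹ ≤ Real.log 2 := Real.log_le_log (by positivity) h2
    have := Real.log_two_lt_d9
    linarith
  have havg0 : 0 ≤ circleAverage u c R := circleAverage_nonneg_of_nonneg fun z _ => hu0 z
  have hsum0 : 0 ≤ (∑ ρ ∈ S, (mult ρ : ℝ)) * Real.log (R / r) := by positivity
  have h1 : (∑ ρ ∈ S, (mult ρ : ℝ)) * Real.log (R / r) ≤ circleAverage u c R + 1 := by linarith
  have hpow : (circleAverage u c R) ^ q ≤ circleAverage (fun z => u z ^ q) c R :=
    circleAverage_pow_le hucont hu0 q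
  have hupow : circleAverage (fun z => u z ^ q) c R ≤
      2 ^ q * (a ^ q + q.factorial * (Real.exp (-a) * (3 + 2 * QQ Mo c R))) := by
    have e1 : 2 ^ q * (a ^ q + q.factorial * (Real.exp (-a) * (3 + 2 * QQ Mo c R))) =
        circleAverage (fun z => 2 ^ q * (a ^ q + q.factorial * (Real.exp (-a) *
          (3 + 2 * ‖FF Mo z - 1‖ ^ 2)))) c R := by
      have hc1 : CircleIntegrable (fun z => ‖FF Mo z - 1‖ ^ 2) c R := by
        apply Continuous.intervalIntegrable
        fun_prop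
      have e2 : (fun z => 2 ^ q * (a ^ q + q.factorial * (Real.exp (-a) *
          (3 + 2 * ‖FF Mo z - 1‖ ^ 2)))) =
          (fun z => (2 ^ q * (a ^ q + q.factorial * (Real.exp (-a) * 3)) : ℝ) +
            (2 ^ q * q.factorial * Real.exp (-a) * 2) • ‖FF Mo z - 1‖ ^ 2) := by
        funext z; simp only [smul_eq_mul]; ring
      have hc2 : CircleIntegrable (fun z => (2 ^ q * q.factorial * Real.exp (-a) * 2) •
          ‖FF Mo z - 1‖ ^ 2) c R := by
        apply Continuous.intervalIntegrable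
        fun_prop
      rw [e2, circleAverage_fun_add (circleIntegrable_const _ _ _) hc2,
        circleAverage_const, circleAverage_fun_smul]
      simp only [smul_eq_mul, QQ]
      ring
    rw [e1]
    refine circleAverage_mono ?_ ?_ ?_
    · exact (hucont.pow q).intervalIntegrable _ _
    · apply Continuous.intervalIntegrable
      fun_prop
    · intro z _
      have hv : (1 : ℝ) ≤ 1 + ‖FF Mo z‖ ^ 2 := by
        have : 0 ≤ ‖FF Mo z‖ ^ 2 := by positivity
        linarith
      refine (pow_log_le q ha hv).trans ?_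
      have h2 : ‖FF Mo z‖ ≤ ‖FF Mo z - 1‖ + 1 := by
        calc ‖FF Mo z‖ = ‖(FF Mo z - 1) + 1‖ := by ring_nf
          _ ≤ ‖FF Mo z - 1‖ + ‖(1 : ℂ)‖ := norm_add_le _ _
          _ = _ := by rw [norm_one]
      have h3 : 1 + ‖FF Mo z‖ ^ 2 ≤ 3 + 2 * ‖FF Mo z - 1‖ ^ 2 := by
        nlinarith [norm_nonneg (FF Mo z), norm_nonneg (FF Mo z - 1),
          sq_nonneg (‖FF Mo z - 1‖ - 1)]
      gcongr
  have hq1 : (1 : ℝ) ≤ q.factorial := by exact_mod_cast Nat.one_le_iff_ne_zero.mpr (Nat.factorial_ne_zero q)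
  have h2q : (1 : ℝ) ≤ 2 ^ q := one_le_pow₀ (by norm_num)
  calc ((∑ ρ ∈ S, (mult ρ : ℝ)) * Real.log (R / r)) ^ q
      ≤ (circleAverage u c R + 1) ^ q := by gcongr
    _ ≤ 2 ^ q * ((circleAverage u c R) ^ q + 1) := by
        rcases le_total (circleAverage u c R) 1 with hle | hle
        · calc (circleAverage u c R + 1) ^ q ≤ (2 : ℝ) ^ q := by gcongr; linarith
            _ ≤ _ := by
              have : 0 ≤ (circleAverage u c R) ^ q := by positivity
              nlinarith
        · calc (circleAverage u c R + 1) ^ q ≤ (2 * circleAverage u c R) ^ q := by gcongr; linarith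
            _ = 2 ^ q * (circleAverage u c R) ^ q := by rw [mul_pow]
            _ ≤ _ := by nlinarith
    _ ≤ 2 ^ q * (2 ^ q * (a ^ q + q.factorial * (Real.exp (-a) * (3 + 2 * QQ Mo c R))) + 1) := by
        gcongr
        exact hpow.trans hupow
    _ ≤ 2 ^ q * (2 ^ q * q.factorial * (4 * (1 + a ^ q + Real.exp (-a) * (1 + QQ Mo c R)))) := by
        gcongr
        have he := Real.exp_pos (-a)
        have ha' : 0 ≤ a ^ q := by positivity
        have hx : a ^ q + q.factorial * (Real.exp (-a) * (3 + 2 * QQ Mo c R)) ≤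
            q.factorial * (a ^ q + Real.exp (-a) * (3 + 2 * QQ Mo c R)) := by
          have : a ^ q ≤ q.factorial * a ^ q := by nlinarith
          nlinarith
        have hy : (1 : ℝ) ≤ 2 ^ q * q.factorial := by nlinarith
        have hz : 2 ^ q * (a ^ q + q.factorial * (Real.exp (-a) * (3 + 2 * QQ Mo c R))) ≤
            2 ^ q * q.factorial * (a ^ q + Real.exp (-a) * (3 + 2 * QQ Mo c R)) := by
          rw [mul_assoc]; gcongr
        have hw : 2 ^ q * q.factorial * (a ^ q + Real.exp (-a) * (3 + 2 * QQ Mo c R)) + 1 ≤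
            2 ^ q * q.factorial * (a ^ q + Real.exp (-a) * (3 + 2 * QQ Mo c R) + 1) := by
          nlinarith
        have hv : a ^ q + Real.exp (-a) * (3 + 2 * QQ Mo c R) + 1 ≤
            4 * (1 + a ^ q + Real.exp (-a) * (1 + QQ Mo c R)) := by
          nlinarith [mul_nonneg he.le hQ]
        calc _ ≤ 2 ^ q * q.factorial * (a ^ q + Real.exp (-a) * (3 + 2 * QQ Mo c R)) + 1 := by linarith
          _ ≤ _ := hw
          _ ≤ _ := by gcongr
    _ = _ := by
        have : (4 : ℝ) ^ q = 2 ^ q * 2 ^ q := by rw [← mul_pow]; norm_num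
        rw [this]; ring

end Pool.Agent.PairCorr
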