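import Mathlib
import Pool.Agent.PairCorr.B_Pointwise

/-!
Integrals over `t` of the quantities attached to a mollifier.
-/

set_option autoImplicit false

namespace Pool.Agent.PairCorr

open MeasureTheory Filter Topology Complex Set Metric Real
open scoped ENNReal

/-- The mollified second moment bounds, for a given height `T`. -/
structure MollCtx (T c C : ℝ) (Mo : ℂ → ℂ) : Prop where
  diff : Differentiable ℂ Mo
  A1 : ∀ σ ∈ Icc (1 / 2 : ℝ) 5, ∫⁻ t in Icc 1 T,
    ENNReal.ofReal (‖FF Mo (σ + t * Complex.I) - 1‖ ^ 2) ≤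
      ENNReal.ofReal (C * T * Real.exp (-c * (min σ 1 - 1 / 2) * Real.log T))
  A2 : ∀ σ ∈ Icc (1 / 4 : ℝ) (1 / 2), ∫⁻ t in Icc 1 T,
    ENNReal.ofReal (‖FF Mo (σ + t * Complex.I) - 1‖ ^ 2) ≤
      ENNReal.ofReal (C * T * Real.exp (C * (1 / 2 - σ) * Real.log T))

lemma measurable_riemannZeta : Measurable riemannZeta :=
  measurable_of_continuousOn_compl_singleton 1
    (fun _ hs => (analyticAt_zeta hs).continuousAt.continuousWithinAt)

lemma measurable_FF {Mo : ℂ → ℂ} (hMo : Differentiable ℂ Mo) : Measurable (FF Mo) :=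
  measurable_riemannZeta.mul hMo.continuous.measurable

/-- The integrand as an extended nonnegative function. -/
noncomputable def GG (Mo : ℂ → ℂ) (z : ℂ) : ℝ≥0∞ := ENNReal.ofReal (‖FF Mo z - 1‖ ^ 2)

lemma measurable_GG {Mo : ℂ → ℂ} (hMo : Differentiable ℂ Mo) : Measurable (GG Mo) := by
  unfold GG
  have := measurable_FF hMo
  fun_prop

/-- Circle average of `GG` as a lower integral. -/
noncomputable def qq (Mo : ℂ → ℂ) (x R t : ℝ) : ℝ≥0∞ :=
  ENNReal.ofReal (2 * π)⁻¹ * ∫⁻ θ in Ioc 0 (2 * π), GG Mo (circleMap (x + t * Complex.I) R θ)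

lemma measurable_circle_param (x R : ℝ) :
    Measurable (fun p : ℝ × ℝ => circleMap ((x : ℂ) + (p.1 : ℂ) * Complex.I) R p.2) := by
  unfold circleMap
  fun_prop

lemma measurable_qq {Mo : ℂ → ℂ} (hMo : Differentiable ℂ Mo) (x R : ℝ) :
    Measurable (qq Mo x R) := by
  unfold qq
  apply Measurable.const_mul
  have h1 : Measurable (fun p : ℝ × ℝ => GG Mo (circleMap ((x : ℂ) + (p.1 : ℂ) * Complex.I) R p.2)) :=
    (measurable_GG hMo).comp (measurable_circle_param x R)
  exact h1.lintegral_prod_right'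

lemma ofReal_QQ {Mo : ℂ → ℂ} (hMo : Differentiable ℂ Mo) {x R t : ℝ} (hR : 0 < R) (ht : R < t) :
    ENNReal.ofReal (QQ Mo (x + t * Complex.I) R) = qq Mo x R t := by
  unfold QQ qq
  have hpi := Real.pi_pos
  have him : R < ((x : ℂ) + t * Complex.I).im := by simpa using ht
  have hcont := FF_continuousOn_circle hMo hR him
  have hcont1 : Continuous (fun θ : ℝ => ‖FF Mo (circleMap (x + t * Complex.I) R θ) - 1‖ ^ 2) :=
    ((hcont.sub continuous_const).norm).pow 2
  rw [circleAverage_def, smul_eq_mul, ENNReal.ofReal_mul (by positivity)]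
  congr 1
  rw [intervalIntegral.integral_of_le (by positivity)]
  rw [ofReal_integral_eq_lintegral_ofReal]
  · rfl
  · exact (hcont1.integrableOn_Icc).mono_set Ioc_subset_Icc_self
  · exact Eventually.of_forall fun θ => by positivity

/-- The interval of heights that is used. -/
def DD (T : ℝ) : Set ℝ := Icc 5 (T - 5)

lemma measurableSet_DD (T : ℝ) : MeasurableSet (DD T) := measurableSet_Icc

lemma lintegral_line_shift_le {T : ℝ} (G : ℝ → ℝ≥0∞) {s : ℝ} (hs : |s| ≤ 4) :
    ∫⁻ t in DD T, G (t + s) ≤ ∫⁻ t in Icc 1 T, G t := by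
  unfold DD
  rw [← lintegral_indicator measurableSet_Icc, ← lintegral_indicator measurableSet_Icc]
  rw [← lintegral_add_right_eq_self (fun t => (Icc 1 T).indicator (fun t => G t) t) s]
  refine lintegral_mono fun t => ?_
  rw [abs_le] at hs
  by_cases ht : t ∈ Icc 5 (T - 5)
  · have : t + s ∈ Icc 1 T := ⟨by linarith [ht.1, hs.1], by linarith [ht.2, hs.2]⟩
    rw [indicator_of_mem ht, indicator_of_mem this]
  · rw [indicator_of_notMem ht]
    exact zero_le

/-- Integral over `t` of the circle averages. -/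
theorem lintegral_qq_le {Mo : ℂ → ℂ} (hMo : Differentiable ℂ Mo) {T x R : ℝ} (hR : 0 < R)
    (hR4 : R ≤ 4) {B : ℝ≥0∞}
    (hB : ∀ σ ∈ Icc (x - R) (x + R), ∫⁻ t in Icc 1 T, GG Mo (σ + t * Complex.I) ≤ B) :
    ∫⁻ t in DD T, qq Mo x R t ≤ B := by
  have hpi := Real.pi_pos
  unfold qq
  have h1 : Measurable (fun p : ℝ × ℝ => GG Mo (circleMap ((x : ℂ) + (p.1 : ℂ) * Complex.I) R p.2)) :=
    (measurable_GG hMo).comp (measurable_circle_param x R)
  rw [lintegral_const_mul _ (h1.lintegral_prod_right')]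
  rw [lintegral_lintegral_swap h1.aemeasurable]
  have h2 : ∀ θ : ℝ, ∫⁻ t in DD T, GG Mo (circleMap ((x : ℂ) + (t : ℂ) * Complex.I) R θ) ≤ B := by
    intro θ
    have e : ∀ t : ℝ, circleMap ((x : ℂ) + (t : ℂ) * Complex.I) R θ =
        ((x + R * Real.cos θ : ℝ) : ℂ) + ((t + R * Real.sin θ : ℝ) : ℂ) * Complex.I := by
      intro t
      rw [circleMap, Complex.exp_mul_I]
      push_cast
      ring
    simp_rw [e]
    have hcos : |R * Real.cos θ| ≤ R := by
      rw [abs_mul, abs_of_pos hR]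
      exact mul_le_of_le_one_right hR.le (Real.abs_cos_le_one θ)
    have hsin : |R * Real.sin θ| ≤ 4 := by
      rw [abs_mul, abs_of_pos hR]
      exact (mul_le_of_le_one_right hR.le (Real.abs_sin_le_one θ)).trans hR4
    refine (lintegral_line_shift_le (T := T)
      (fun u => GG Mo (((x + R * Real.cos θ : ℝ) : ℂ) + (u : ℂ) * Complex.I)) hsin).trans ?_
    refine hB (x + R * Real.cos θ) ?_
    rw [abs_le] at hcos
    exact ⟨by linarith [hcos.1], by linarith [hcos.2]⟩
  calc ENNReal.ofReal (2 * π)⁻¹ * ∫⁻ θ in Ioc 0 (2 * π), ∫⁻ t in DD T,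
        GG Mo (circleMap ((x : ℂ) + (t : ℂ) * Complex.I) R θ)
      ≤ ENNReal.ofReal (2 * π)⁻¹ * ∫⁻ θ in Ioc 0 (2 * π), B := by
        gcongr with θ
        exact h2 θ
    _ = ENNReal.ofReal (2 * π)⁻¹ * (B * ENNReal.ofReal (2 * π)) := by
        rw [setLIntegral_const, Real.volume_Ioc, sub_zero]
    _ = B := by
        rw [mul_comm B, ← mul_assoc, ← ENNReal.ofReal_mul (by positivity),
          inv_mul_cancel₀ (by positivity)]
        simp

lemma lintegral_line_le {Mo : ℂ → ℂ} {T x : ℝ} {B : ℝ≥0∞}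
    (hB : ∫⁻ t in Icc 1 T, GG Mo (x + t * Complex.I) ≤ B) :
    ∫⁻ t in DD T, GG Mo (x + t * Complex.I) ≤ B := by
  refine le_trans ?_ hB
  have := lintegral_line_shift_le (T := T) (fun u => GG Mo ((x : ℂ) + (u : ℂ) * Complex.I)) (s := 0)
    (by norm_num)
  simpa using this

end Pool.Agent.PairCorr
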