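import Mathlib
import Pool.Agent.PairCorr.B_Integrals

/-!
Levels: measure of the exceptional sets.
-/

set_option autoImplicit false

namespace Pool.Agent.PairCorr

open MeasureTheory Filter Topology Complex Set Metric Real
open scoped ENNReal

/-- The horizontal offset at level `k`. -/
noncomputable def kap (T : ℝ) (k : ℕ) : ℝ := 2 ^ k / Real.log T

/-- The real part of the centre at level `k`. -/
noncomputable def xc (T : ℝ) (k : ℕ) : ℝ := 1 / 2 + 2 * kap T k

/-- Heights at which the centre at level `k` is bad. -/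
def badSet (Mo : ℂ → ℂ) (T : ℝ) (k : ℕ) : Set ℝ :=
  {t | t ∈ DD T ∧ 1 / 2 < ‖FF Mo (xc T k + t * Complex.I) - 1‖}

/-- Heights near which there is a zero in the band of level `k`. -/
def bandSet (T : ℝ) (k : ℕ) : Set ℝ :=
  {t | t ∈ DD T ∧ ∃ ρ ∈ NTZ, |ρ.im - t| ≤ 2 / Real.log T ∧ kap T k / 2 < ρ.re - 1 / 2 ∧
    ρ.re - 1 / 2 ≤ kap T k}

lemma measurable_GG_line {Mo : ℂ → ℂ} (hMo : Differentiable ℂ Mo) (x : ℝ) :
    Measurable (fun t : ℝ => GG Mo (x + t * Complex.I)) :=
  (measurable_GG hMo).comp (by fun_prop)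

lemma measurableSet_badSet {Mo : ℂ → ℂ} (hMo : Differentiable ℂ Mo) (T : ℝ) (k : ℕ) :
    MeasurableSet (badSet Mo T k) := by
  unfold badSet
  have h1 : Measurable (fun t : ℝ => ‖FF Mo (xc T k + t * Complex.I) - 1‖) := by
    have := measurable_FF hMo
    fun_prop
  exact (measurableSet_DD T).inter (measurableSet_lt measurable_const h1)

lemma kap_mul_log {T : ℝ} (hT : 0 < Real.log T) (k : ℕ) : kap T k * Real.log T = 2 ^ k := by
  unfold kap; field_simp

lemma kap_pos {T : ℝ} (hT : 0 < Real.log T) (k : ℕ) : 0 < kap T k := by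
  unfold kap; positivity

lemma kap_mono {T : ℝ} (hT : 0 < Real.log T) {j k : ℕ} (h : j ≤ k) : kap T j ≤ kap T k := by
  unfold kap
  gcongr
  norm_num

lemma center_bound {T c C : ℝ} {Mo : ℂ → ℂ} (h : MollCtx T c C Mo) (hT : 0 < Real.log T)
    (hT0 : 0 < T) (hc : 0 < c) (hC : 0 < C) {k : ℕ} (hk : kap T k ≤ 1) :
    ∫⁻ t in DD T, GG Mo (xc T k + t * Complex.I) ≤
      ENNReal.ofReal (C * T * Real.exp (-(c / 5 * 2 ^ k))) := by
  have hkp := kap_pos hT k
  have hkl := kap_mul_log hT k
  refine lintegral_line_le (le_trans (h.A1 (xc T k) ?_) ?_)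
  · unfold xc; constructor <;> linarith
  · apply ENNReal.ofReal_le_ofReal
    gcongr
    rw [← hkl]
    have : kap T k / 5 ≤ min (xc T k) 1 - 1 / 2 := by
      unfold xc
      rcases le_total (1 / 2 + 2 * kap T k) 1 with h1 | h1
      · rw [min_eq_left h1]; linarith
      · rw [min_eq_right h1]; linarith
    have h2 : c / 5 * (kap T k * Real.log T) ≤ c * (min (xc T k) 1 - 1 / 2) * Real.log T := by
      calc c / 5 * (kap T k * Real.log T) = c * (kap T k / 5) * Real.log T := by ring
        _ ≤ _ := by gcongr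
    linarith

lemma volume_badSet_le {T c C : ℝ} {Mo : ℂ → ℂ} (h : MollCtx T c C Mo) (hT : 0 < Real.log T)
    (hT0 : 0 < T) (hc : 0 < c) (hC : 0 < C) {k : ℕ} (hk : kap T k ≤ 1) :
    volume (badSet Mo T k) ≤ ENNReal.ofReal (4 * (C * T * Real.exp (-(c / 5 * 2 ^ k)))) := by
  have h1 := center_bound h hT hT0 hc hC hk
  have hsub : badSet Mo T k ⊆ {t | ENNReal.ofReal (1 / 4) ≤
      (DD T).indicator (fun t : ℝ => GG Mo (xc T k + t * Complex.I)) t} := by
    intro t ht
    obtain ⟨ht1, ht2⟩ := ht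
    simp only [mem_ofPred_eq]
    rw [indicator_of_mem ht1]
    unfold GG
    apply ENNReal.ofReal_le_ofReal
    nlinarith [norm_nonneg (FF Mo (xc T k + t * Complex.I) - 1)]
  have hmeas : Measurable ((DD T).indicator (fun t : ℝ => GG Mo (xc T k + t * Complex.I))) :=
    (measurable_GG_line h.diff _).indicator (measurableSet_DD T)
  have hmk := mul_meas_ge_le_lintegral (μ := volume) hmeas (ENNReal.ofReal (1 / 4))
  rw [lintegral_indicator (measurableSet_DD T)] at hmk
  have h2 : ENNReal.ofReal (1 / 4) * volume (badSet Mo T k) ≤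
      ENNReal.ofReal (C * T * Real.exp (-(c / 5 * 2 ^ k))) :=
    (mul_le_mul_right (measure_mono hsub) _).trans (hmk.trans h1)
  calc volume (badSet Mo T k) = ENNReal.ofReal 4 * (ENNReal.ofReal (1 / 4) * volume (badSet Mo T k)) := by
        rw [← mul_assoc, ← ENNReal.ofReal_mul (by norm_num)]
        norm_num
    _ ≤ ENNReal.ofReal 4 * ENNReal.ofReal (C * T * Real.exp (-(c / 5 * 2 ^ k))) := by gcongr
    _ = _ := by rw [← ENNReal.ofReal_mul (by norm_num)]

lemma qq_bound_I {T c C : ℝ} {Mo : ℂ → ℂ} (h : MollCtx T c C Mo) (hT : 0 < Real.log T)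
    (hT0 : 0 < T) (hc : 0 < c) (hC : 0 < C) {k : ℕ} (hk : kap T k ≤ 1) :
    ∫⁻ t in DD T, qq Mo (xc T k) (9 / 5 * kap T k) t ≤
      ENNReal.ofReal (C * T * Real.exp (-(c / 5 * 2 ^ k))) := by
  have hkp := kap_pos hT k
  have hkl := kap_mul_log hT k
  refine lintegral_qq_le h.diff (by positivity) (by linarith) fun σ hσ => ?_
  obtain ⟨hσ1, hσ2⟩ := hσ
  unfold xc at hσ1 hσ2
  refine le_trans (h.A1 σ ⟨by linarith, by linarith⟩) ?_
  apply ENNReal.ofReal_le_ofReal
  gcongr
  rw [← hkl]
  have : kap T k / 5 ≤ min σ 1 - 1 / 2 := by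
    rcases le_total σ 1 with h1 | h1
    · rw [min_eq_left h1]; linarith
    · rw [min_eq_right h1]; linarith
  have h2 : c / 5 * (kap T k * Real.log T) ≤ c * (min σ 1 - 1 / 2) * Real.log T := by
    calc c / 5 * (kap T k * Real.log T) = c * (kap T k / 5) * Real.log T := by ring
      _ ≤ _ := by gcongr
  linarith

lemma qq_bound_II {T c C : ℝ} {Mo : ℂ → ℂ} (h : MollCtx T c C Mo) (hT : 0 < Real.log T)
    (hT0 : 0 < T) (hc : 0 < c) (hC : 0 < C) {k : ℕ} (hk : kap T k ≤ 1 / 6) :
    ∫⁻ t in DD T, qq Mo (xc T k) (7 / 2 * kap T k) t ≤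
      ENNReal.ofReal (C * T * Real.exp (3 / 2 * C * 2 ^ k)) := by
  have hkp := kap_pos hT k
  have hkl := kap_mul_log hT k
  refine lintegral_qq_le h.diff (by positivity) (by linarith) fun σ hσ => ?_
  obtain ⟨hσ1, hσ2⟩ := hσ
  unfold xc at hσ1 hσ2
  rcases le_total (1 / 2) σ with h1 | h1
  · refine le_trans (h.A1 σ ⟨h1, by linarith⟩) ?_
    apply ENNReal.ofReal_le_ofReal
    refine mul_le_mul_of_nonneg_left (Real.exp_le_exp.mpr ?_) (by positivity)
    have h3 : 0 ≤ c * (min σ 1 - 1 / 2) * Real.log T := by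
      have : 0 ≤ min σ 1 - 1 / 2 := by
        rcases le_total σ 1 with h1 | h1
        · rw [min_eq_left h1]; linarith
        · rw [min_eq_right h1]; linarith
      positivity
    have h4 : 0 ≤ 3 / 2 * C * 2 ^ k := by positivity
    linarith
  · refine le_trans (h.A2 σ ⟨by linarith, h1⟩) ?_
    apply ENNReal.ofReal_le_ofReal
    refine mul_le_mul_of_nonneg_left (Real.exp_le_exp.mpr ?_) (by positivity)
    rw [← hkl]
    have : 1 / 2 - σ ≤ 3 / 2 * kap T k := by linarith
    calc C * (1 / 2 - σ) * Real.log T ≤ C * (3 / 2 * kap T k) * Real.log T := by gcongr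
      _ = _ := by ring

/-- Constant in the measure bound for `bandSet`. -/
noncomputable def KU : ℝ := 16 / (Real.log (36 / 31)) ^ 2

lemma log3631_pos : 0 < Real.log (36 / 31) := Real.log_pos (by norm_num)

lemma volume_bandSet_le {T c C : ℝ} {Mo : ℂ → ℂ} (h : MollCtx T c C Mo) (hT : 1 < Real.log T)
    (hT0 : 0 < T) (hc : 0 < c) (hC : 0 < C) {k : ℕ} (hk3 : 3 ≤ k) (hk : kap T k ≤ 1) :
    volume (bandSet T k) ≤ ENNReal.ofReal (KU * (C * T * Real.exp (-(c / 5 * 2 ^ k)))) := by
  have hL : 0 < Real.log T := by linarith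
  have hkp := kap_pos hL k
  have h1 := center_bound h hL hT0 hc hC hk
  have h2 := qq_bound_I h hL hT0 hc hC hk
  set τ : ℝ := Real.log (36 / 31) ^ 2 / 8 with hτ
  have hlp := log3631_pos
  have hτpos : 0 < τ := by positivity
  have h8 : 8 / Real.log T ≤ kap T k := by
    unfold kap
    gcongr
    calc (8 : ℝ) = 2 ^ 3 := by norm_num
      _ ≤ 2 ^ k := by gcongr; norm_num
  have hsub : bandSet T k ⊆ {t | ENNReal.ofReal τ ≤
      (DD T).indicator (fun t : ℝ => qq Mo (xc T k) (9 / 5 * kap T k) t +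
        GG Mo (xc T k + t * Complex.I)) t} := by
    intro t ht
    obtain ⟨ht1, ρ, hρ, him, hre1, hre2⟩ := ht
    simp only [mem_ofPred_eq]
    rw [indicator_of_mem ht1]
    have ht5 : 5 ≤ t := ht1.1
    rw [← ofReal_QQ h.diff (by positivity) (by linarith)]
    unfold GG
    rw [← ENNReal.ofReal_add (QQ_nonneg _ _ _) (by positivity)]
    apply ENNReal.ofReal_le_ofReal
    have hI := typeI h.diff (c := xc T k + t * Complex.I) (r := 31 / 20 * kap T k)
      (R := 9 / 5 * kap T k) (by positivity) (by linarith) (by linarith)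
      (by simp; linarith) hρ (by
        have e1 : ‖ρ - (xc T k + t * Complex.I)‖ ^ 2 =
            (ρ.re - 1 / 2 - 2 * kap T k) ^ 2 + (ρ.im - t) ^ 2 := by
          rw [← Complex.normSq_eq_norm_sq, Complex.normSq_apply]
          simp only [sub_re, sub_im, add_re, add_im, mul_re, mul_im, ofReal_re, ofReal_im, I_re,
            I_im, xc]
          ring
        have e2 : (ρ.im - t) ^ 2 ≤ (kap T k / 4) ^ 2 := by
          rw [← sq_abs]
          have : |ρ.im - t| ≤ kap T k / 4 := by
            refine him.trans ?_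
            have : 2 / Real.log T = (8 / Real.log T) / 4 := by ring
            rw [this]; linarith
          gcongr
        have e3 : (ρ.re - 1 / 2 - 2 * kap T k) ^ 2 ≤ (3 / 2 * kap T k) ^ 2 := by
          apply sq_le_sq'
          · linarith
          · linarith
        have e4 : ‖ρ - (xc T k + t * Complex.I)‖ ^ 2 ≤ (31 / 20 * kap T k) ^ 2 := by
          rw [e1]; nlinarith
        exact le_of_sq_le_sq e4 (by positivity))
    have hdiv : 9 / 5 * kap T k / (31 / 20 * kap T k) = 36 / 31 := by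
      field_simp; norm_num
    rw [hdiv] at hI
    rw [hτ]
    linarith
  have hmeas : Measurable ((DD T).indicator (fun t : ℝ => qq Mo (xc T k) (9 / 5 * kap T k) t +
        GG Mo (xc T k + t * Complex.I))) :=
    ((measurable_qq h.diff _ _).add (measurable_GG_line h.diff _)).indicator (measurableSet_DD T)
  have hmk := mul_meas_ge_le_lintegral (μ := volume) hmeas (ENNReal.ofReal τ)
  rw [lintegral_indicator (measurableSet_DD T), lintegral_add_left (measurable_qq h.diff _ _)] at hmk
  have h3 : ENNReal.ofReal τ * volume (bandSet T k) ≤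
      ENNReal.ofReal (2 * (C * T * Real.exp (-(c / 5 * 2 ^ k)))) := by
    refine (mul_le_mul_right (measure_mono hsub) _).trans (hmk.trans ((add_le_add h2 h1).trans ?_))
    rw [← ENNReal.ofReal_add (by positivity) (by positivity)]
    apply le_of_eq
    congr 1
    ring
  calc volume (bandSet T k) = ENNReal.ofReal τ⁻¹ * (ENNReal.ofReal τ * volume (bandSet T k)) := by
        rw [← mul_assoc, ← ENNReal.ofReal_mul (by positivity), inv_mul_cancel₀ hτpos.ne']
        simp
    _ ≤ ENNReal.ofReal τ⁻¹ * ENNReal.ofReal (2 * (C * T * Real.exp (-(c / 5 * 2 ^ k)))) := by gcongr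
    _ = _ := by
        rw [← ENNReal.ofReal_mul (by positivity)]
        congr 1
        rw [hτ, KU]
        field_simp
        norm_num

end Pool.Agent.PairCorr
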