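import Mathlib
import Pool.Agent.PairCorr.B_Levels

/-!
Moments of the local zero counts near the critical line, level by level.
-/

set_option autoImplicit false

namespace Pool.Agent.PairCorr

open MeasureTheory Filter Topology Complex Set Metric Real
open scoped ENNReal

/-- The nontrivial zeros with ordinate at most `T` in absolute value. -/
noncomputable def ZZ (T : ℝ) : Finset ℂ := (finite_NTZ_window 0 T).toFinset

lemma mem_ZZ {T : ℝ} {ρ : ℂ} : ρ ∈ ZZ T ↔ ρ ∈ NTZ ∧ |ρ.im| ≤ T := by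
  unfold ZZ; simp

open scoped Classical in
/-- The number of zeros within `2 / log T` of height `t`, to the right of the critical line at
distance at most `kap T k`. -/
noncomputable def nle (T : ℝ) (k : ℕ) (t : ℝ) : ℝ :=
  ∑ ρ ∈ (ZZ T).filter (fun ρ => |ρ.im - t| ≤ 2 / Real.log T ∧ 1 / 2 ≤ ρ.re ∧
    ρ.re - 1 / 2 ≤ kap T k), (mult ρ : ℝ)

lemma nle_nonneg (T : ℝ) (k : ℕ) (t : ℝ) : 0 ≤ nle T k t := by
  unfold nle; positivity

/-- The deterministic constant. -/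
noncomputable def detC : ℝ := Classical.choose exists_local_count_finset

lemma detC_pos : 0 < detC := (Classical.choose_spec exists_local_count_finset).1

lemma det_count (t : ℝ) (S : Finset ℂ) (hS : ∀ ρ ∈ S, ρ ∈ NTZ ∧ |ρ.im - t| ≤ 1) :
    ∑ ρ ∈ S, (mult ρ : ℝ) ≤ detC * Real.log (|t| + 2) :=
  (Classical.choose_spec exists_local_count_finset).2 t S hS

lemma nle_le_det {T : ℝ} (hL : 2 ≤ Real.log T) (k : ℕ) (t : ℝ) :
    nle T k t ≤ detC * Real.log (|t| + 2) := by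
  unfold nle
  apply det_count
  intro ρ hρ
  simp only [Finset.mem_filter, mem_ZZ] at hρ
  refine ⟨hρ.1.1, hρ.2.1.trans ?_⟩
  rw [div_le_one (by linarith)]
  exact hL

lemma nle_le_log {T : ℝ} (hL : 2 ≤ Real.log T) (k : ℕ) {t : ℝ} (ht : t ∈ DD T) :
    nle T k t ≤ detC * Real.log T := by
  refine (nle_le_det hL k t).trans ?_
  have h5 : 5 ≤ t := ht.1
  have hT : t ≤ T - 5 := ht.2
  have := detC_pos
  gcongr
  rw [abs_of_nonneg (by linarith)]
  linarith

/-- The constant in the level inequality. -/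
noncomputable def KK (q : ℕ) (a : ℝ) : ℝ :=
  4 ^ q * q.factorial * 4 * (2 * a ^ q) / Real.log (35 / 29) ^ q

lemma log3529_pos : 0 < Real.log (35 / 29) := Real.log_pos (by norm_num)

lemma KK_pos (q : ℕ) {a : ℝ} (ha : 1 ≤ a) : 0 < KK q a := by
  unfold KK
  have := log3529_pos
  positivity

theorem nle_pow_le {Mo : ℂ → ℂ} {T : ℝ} (hMo : Differentiable ℂ Mo) (hL : 2 ≤ Real.log T) {t : ℝ}
    (ht : t ∈ DD T) {j k : ℕ} (hkj : k ≤ j) (hj : kap T j ≤ 1 / 6)
    (hgood : ‖FF Mo (xc T j + t * Complex.I) - 1‖ ≤ 1 / 2) (q : ℕ) {a : ℝ} (ha : 1 ≤ a) :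
    (nle T k t) ^ q ≤ KK q a * (2 ^ (j * q) + Real.exp (-(a * 2 ^ j)) *
      (1 + QQ Mo (xc T j + t * Complex.I) (7 / 2 * kap T j))) := by
  have hL0 : 0 < Real.log T := by linarith
  have hkp := kap_pos hL0 j
  have h5 : 5 ≤ t := ht.1
  have hlp := log3529_pos
  have hQ := QQ_nonneg Mo (xc T j + t * Complex.I) (7 / 2 * kap T j)
  have h2 : 2 / Real.log T ≤ 2 * kap T j := by
    unfold kap
    rw [← mul_div_assoc]
    gcongr
    have : (1 : ℝ) ≤ 2 ^ j := one_le_pow₀ (by norm_num)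
    linarith
  have hkk : kap T k ≤ kap T j := kap_mono hL0 hkj
  classical
  have hII := typeII hMo (c := xc T j + t * Complex.I) (r := 29 / 10 * kap T j)
    (R := 7 / 2 * kap T j) (by positivity) (by linarith) (by simp; linarith) hgood
    ((ZZ T).filter (fun ρ => |ρ.im - t| ≤ 2 / Real.log T ∧ 1 / 2 ≤ ρ.re ∧
      ρ.re - 1 / 2 ≤ kap T k)) (by
      intro ρ hρ
      simp only [Finset.mem_filter] at hρ
      obtain ⟨-, him, hre1, hre2⟩ := hρ
      have e1 : ‖ρ - (xc T j + t * Complex.I)‖ ^ 2 =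
          (ρ.re - 1 / 2 - 2 * kap T j) ^ 2 + (ρ.im - t) ^ 2 := by
        rw [← Complex.normSq_eq_norm_sq, Complex.normSq_apply]
        simp only [sub_re, sub_im, add_re, add_im, mul_re, mul_im, ofReal_re, ofReal_im, I_re,
          I_im, xc]
        ring
      have e2 : (ρ.im - t) ^ 2 ≤ (2 * kap T j) ^ 2 := by
        rw [← sq_abs]
        have : |ρ.im - t| ≤ 2 * kap T j := him.trans h2
        gcongr
      have e3 : (ρ.re - 1 / 2 - 2 * kap T j) ^ 2 ≤ (2 * kap T j) ^ 2 := by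
        apply sq_le_sq'
        · linarith
        · linarith
      have e4 : ‖ρ - (xc T j + t * Complex.I)‖ ^ 2 ≤ (29 / 10 * kap T j) ^ 2 := by
        rw [e1]; nlinarith
      exact le_of_sq_le_sq e4 (by positivity)) q (a := a * 2 ^ j) (by positivity)
  have hdiv : 7 / 2 * kap T j / (29 / 10 * kap T j) = 35 / 29 := by
    field_simp; norm_num
  rw [hdiv, mul_pow] at hII
  have hsum : ∑ ρ ∈ (ZZ T).filter (fun ρ => |ρ.im - t| ≤ 2 / Real.log T ∧ 1 / 2 ≤ ρ.re ∧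
      ρ.re - 1 / 2 ≤ kap T k), (mult ρ : ℝ) = nle T k t := by
    unfold nle
    congr
  rw [hsum] at hII
  have hlq : 0 < Real.log (35 / 29) ^ q := by positivity
  have h3 : nle T k t ^ q ≤ 4 ^ q * q.factorial * 4 * (1 + (a * 2 ^ j) ^ q +
      Real.exp (-(a * 2 ^ j)) * (1 + QQ Mo (xc T j + t * Complex.I) (7 / 2 * kap T j))) /
      Real.log (35 / 29) ^ q := by
    rw [le_div_iff₀ hlq]; exact hII
  refine h3.trans ?_
  unfold KK
  rw [div_mul_eq_mul_div (4 ^ q * (q.factorial : ℝ) * 4 * (2 * a ^ q))]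
  refine div_le_div_of_nonneg_right ?_ hlq.le
  have haq : (1 : ℝ) ≤ a ^ q := one_le_pow₀ ha
  have h2q : (1 : ℝ) ≤ 2 ^ (j * q) := one_le_pow₀ (by norm_num)
  have hpw : (a * 2 ^ j) ^ q = a ^ q * 2 ^ (j * q) := by rw [mul_pow, pow_mul]
  have he := Real.exp_pos (-(a * 2 ^ j))
  have h4 : 1 + (a * 2 ^ j) ^ q + Real.exp (-(a * 2 ^ j)) *
      (1 + QQ Mo (xc T j + t * Complex.I) (7 / 2 * kap T j)) ≤
      (2 * a ^ q) * (2 ^ (j * q) + Real.exp (-(a * 2 ^ j)) *
      (1 + QQ Mo (xc T j + t * Complex.I) (7 / 2 * kap T j))) := by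
    rw [hpw]
    have h5 : (1 : ℝ) ≤ a ^ q * 2 ^ (j * q) := by nlinarith
    have h6 : 0 ≤ Real.exp (-(a * 2 ^ j)) *
      (1 + QQ Mo (xc T j + t * Complex.I) (7 / 2 * kap T j)) := by positivity
    nlinarith
  calc (4 : ℝ) ^ q * q.factorial * 4 * (1 + (a * 2 ^ j) ^ q + Real.exp (-(a * 2 ^ j)) *
      (1 + QQ Mo (xc T j + t * Complex.I) (7 / 2 * kap T j)))
      ≤ 4 ^ q * q.factorial * 4 * ((2 * a ^ q) * (2 ^ (j * q) + Real.exp (-(a * 2 ^ j)) *
      (1 + QQ Mo (xc T j + t * Complex.I) (7 / 2 * kap T j)))) := by gcongr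
    _ = _ := by ring

/-- The level term. -/
noncomputable def lterm (Mo : ℂ → ℂ) (T : ℝ) (q : ℕ) (a : ℝ) (j : ℕ) (t : ℝ) : ℝ≥0∞ :=
  ENNReal.ofReal (KK q a * 2 ^ (j * q)) + ENNReal.ofReal (KK q a * Real.exp (-(a * 2 ^ j))) *
    (1 + qq Mo (xc T j) (7 / 2 * kap T j) t)

lemma measurable_lterm {Mo : ℂ → ℂ} (hMo : Differentiable ℂ Mo) (T : ℝ) (q : ℕ) (a : ℝ) (j : ℕ) :
    Measurable (lterm Mo T q a j) := by
  unfold lterm
  have := measurable_qq hMo (xc T j) (7 / 2 * kap T j)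
  fun_prop

lemma nle_pow_le_lterm {Mo : ℂ → ℂ} {T : ℝ} (hMo : Differentiable ℂ Mo) (hL : 2 ≤ Real.log T)
    {t : ℝ} (ht : t ∈ DD T) {j k : ℕ} (hkj : k ≤ j) (hj : kap T j ≤ 1 / 6)
    (hgood : t ∉ badSet Mo T j) (q : ℕ) {a : ℝ} (ha : 1 ≤ a) :
    ENNReal.ofReal ((nle T k t) ^ q) ≤ lterm Mo T q a j t := by
  have hL0 : 0 < Real.log T := by linarith
  have hkp := kap_pos hL0 j
  have h5 : 5 ≤ t := ht.1
  have hg : ‖FF Mo (xc T j + t * Complex.I) - 1‖ ≤ 1 / 2 := by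
    by_contra hcon
    push Not at hcon
    exact hgood ⟨ht, hcon⟩
  have h1 := nle_pow_le hMo hL ht hkj hj hg q ha
  have hQ := QQ_nonneg Mo (xc T j + t * Complex.I) (7 / 2 * kap T j)
  have hK := KK_pos q ha
  refine (ENNReal.ofReal_le_ofReal h1).trans ?_
  unfold lterm
  rw [← ofReal_QQ hMo (by positivity) (by linarith), mul_add, ENNReal.ofReal_add (by positivity)
    (by positivity), ← mul_assoc (KK q a), ENNReal.ofReal_mul (p := KK q a * Real.exp (-(a * 2 ^ j)))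
    (by positivity), ENNReal.ofReal_add zero_le_one hQ, ENNReal.ofReal_one]

/-- Pointwise stopping-level inequality. -/
lemma stopping {Mo : ℂ → ℂ} {T : ℝ} (hMo : Differentiable ℂ Mo) (hL : 2 ≤ Real.log T)
    {t : ℝ} (ht : t ∈ DD T) {J k : ℕ} (hkJ : k ≤ J) (hJ : kap T J ≤ 1 / 6) (q : ℕ) {a : ℝ}
    (ha : 1 ≤ a) {Dt : ℝ} (hDt : nle T k t ≤ Dt) :
    ENNReal.ofReal ((nle T k t) ^ q) ≤ lterm Mo T q a k t +
      (∑ j ∈ Finset.Ico k J, (badSet Mo T j).indicator (fun t => lterm Mo T q a (j + 1) t) t +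
        (badSet Mo T J).indicator (fun _ => ENNReal.ofReal (Dt ^ q)) t) := by
  classical
  have hL0 : 0 < Real.log T := by linarith
  by_cases hex : ∃ j, k ≤ j ∧ j ≤ J ∧ t ∉ badSet Mo T j
  · obtain ⟨hj1, hj2, hj3⟩ := Nat.find_spec hex
    set j₀ := Nat.find hex with hj₀
    rcases hj1.eq_or_lt with heq | hlt
    · refine (nle_pow_le_lterm hMo hL ht le_rfl ?_ (heq ▸ hj3) q ha).trans le_self_add
      exact (kap_mono hL0 hkJ).trans hJ
    · -- predecessor is bad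
      obtain ⟨j', hj'⟩ : ∃ j', j₀ = j' + 1 := ⟨j₀ - 1, by omega⟩
      have hbad : t ∈ badSet Mo T j' := by
        by_contra hcon
        exact Nat.find_min hex (m := j') (by omega) ⟨by omega, by omega, hcon⟩
      have h1 := nle_pow_le_lterm hMo hL ht hj1 ((kap_mono hL0 hj2).trans hJ) hj3 q ha
      refine h1.trans ?_
      refine le_trans ?_ le_add_self
      refine le_trans ?_ le_self_add
      have hmem : j' ∈ Finset.Ico k J := by simp only [Finset.mem_Ico]; omega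
      refine le_trans ?_ (Finset.single_le_sum (f := fun j => (badSet Mo T j).indicator
        (fun t => lterm Mo T q a (j + 1) t) t) (fun _ _ => zero_le) hmem)
      rw [indicator_of_mem hbad, ← hj']
  · push Not at hex
    have hbad : t ∈ badSet Mo T J := hex J hkJ le_rfl
    refine le_trans ?_ le_add_self
    refine le_trans ?_ le_add_self
    rw [indicator_of_mem hbad]
    apply ENNReal.ofReal_le_ofReal
    have := nle_nonneg T k t
    gcongr

/-- Summation over dyadic levels. -/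
lemma geo_sum_le (q : ℕ) {b : ℝ} (hb : 0 < b) (s : Finset ℕ) :
    ∑ j ∈ s, (2 : ℝ) ^ (j * q) * Real.exp (-(b * 2 ^ j)) ≤
      2 * (q + 1).factorial / b ^ (q + 1) := by
  have hterm : ∀ j : ℕ, (2 : ℝ) ^ (j * q) * Real.exp (-(b * 2 ^ j)) ≤
      (q + 1).factorial / b ^ (q + 1) * (1 / 2) ^ j := by
    intro j
    have hy : 0 ≤ b * 2 ^ j := by positivity
    have h1 := Real.pow_div_factorial_le_exp (b * 2 ^ j) hy (q + 1)
    rw [Real.exp_neg, ← div_eq_mul_inv, div_le_iff₀ (Real.exp_pos _)]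
    have h2 : (b * 2 ^ j) ^ (q + 1) / ((q + 1).factorial : ℝ) =
        b ^ (q + 1) * 2 ^ (j * q) * 2 ^ j / (q + 1).factorial := by
      rw [mul_pow, ← pow_mul, mul_add, pow_add (2 : ℝ)]
      ring_nf
    rw [h2] at h1
    have h3 : (2 : ℝ) ^ (j * q) = (q + 1).factorial / b ^ (q + 1) * (1 / 2) ^ j *
        (b ^ (q + 1) * 2 ^ (j * q) * 2 ^ j / (q + 1).factorial) := by
      rw [one_div, inv_pow]
      field_simp
    calc (2 : ℝ) ^ (j * q) = (q + 1).factorial / b ^ (q + 1) * (1 / 2) ^ j *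
        (b ^ (q + 1) * 2 ^ (j * q) * 2 ^ j / (q + 1).factorial) := h3
      _ ≤ _ := by gcongr
  calc ∑ j ∈ s, (2 : ℝ) ^ (j * q) * Real.exp (-(b * 2 ^ j))
      ≤ ∑ j ∈ s, (q + 1).factorial / b ^ (q + 1) * (1 / 2) ^ j := Finset.sum_le_sum fun j _ => hterm j
    _ = (q + 1).factorial / b ^ (q + 1) * ∑ j ∈ s, (1 / 2 : ℝ) ^ j := by rw [Finset.mul_sum]
    _ ≤ (q + 1).factorial / b ^ (q + 1) * 2 := by
        gcongr
        calc ∑ j ∈ s, (1 / 2 : ℝ) ^ j ≤ ∑' j : ℕ, (1 / 2 : ℝ) ^ j :=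
              (summable_geometric_two).sum_le_tsum s (fun _ _ => by positivity)
          _ = 2 := tsum_geometric_two
    _ = _ := by ring

lemma geo_sum_tail (q : ℕ) {b : ℝ} (hb : 0 < b) (k J : ℕ) :
    ∑ j ∈ Finset.Icc k J, (2 : ℝ) ^ (j * q) * Real.exp (-(2 * b * 2 ^ j)) ≤
      Real.exp (-(b * 2 ^ k)) * (2 * (q + 1).factorial / b ^ (q + 1)) := by
  calc ∑ j ∈ Finset.Icc k J, (2 : ℝ) ^ (j * q) * Real.exp (-(2 * b * 2 ^ j))
      ≤ ∑ j ∈ Finset.Icc k J, Real.exp (-(b * 2 ^ k)) *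
          ((2 : ℝ) ^ (j * q) * Real.exp (-(b * 2 ^ j))) := by
        refine Finset.sum_le_sum fun j hj => ?_
        simp only [Finset.mem_Icc] at hj
        have : Real.exp (-(2 * b * 2 ^ j)) ≤ Real.exp (-(b * 2 ^ k)) * Real.exp (-(b * 2 ^ j)) := by
          rw [← Real.exp_add]
          apply Real.exp_le_exp.mpr
          have h1 : (2 : ℝ) ^ k ≤ 2 ^ j := pow_le_pow_right₀ (by norm_num) hj.1
          nlinarith
        calc (2 : ℝ) ^ (j * q) * Real.exp (-(2 * b * 2 ^ j))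
            ≤ 2 ^ (j * q) * (Real.exp (-(b * 2 ^ k)) * Real.exp (-(b * 2 ^ j))) := by gcongr
          _ = _ := by ring
    _ = Real.exp (-(b * 2 ^ k)) * ∑ j ∈ Finset.Icc k J,
          ((2 : ℝ) ^ (j * q) * Real.exp (-(b * 2 ^ j))) := by rw [Finset.mul_sum]
    _ ≤ _ := by
        gcongr
        exact geo_sum_le q hb _

end Pool.Agent.PairCorr
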