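import Mathlib
import Pool.Agent.PairCorr.B_Stopping

/-!
Integrated moment bounds for the level counts.
-/

set_option autoImplicit false

namespace Pool.Agent.PairCorr

open MeasureTheory Filter Topology Complex Set Metric Real
open scoped ENNReal

noncomputable def aa (C : ℝ) : ℝ := 3 / 2 * C + 1
noncomputable def bb (c : ℝ) : ℝ := min 1 (c / 10) / 2

lemma bb_pos {c : ℝ} (hc : 0 < c) : 0 < bb c := by unfold bb; positivity

lemma volume_DD_le {T : ℝ} (hT : 0 < T) : volume (DD T) ≤ ENNReal.ofReal T := by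
  unfold DD
  rw [Real.volume_Icc]
  apply ENNReal.ofReal_le_ofReal
  linarith

lemma lterm_int {T c C : ℝ} {Mo : ℂ → ℂ} (h : MollCtx T c C Mo) (hT : 0 < Real.log T)
    (hT0 : 0 < T) (hc : 0 < c) (hC : 0 < C) (q : ℕ) {j : ℕ} (hj : kap T j ≤ 1 / 6) {V : Set ℝ}
    (hV : V ⊆ DD T) :
    ∫⁻ t in V, lterm Mo T q (aa C) j t ≤ ENNReal.ofReal (KK q (aa C) * 2 ^ (j * q)) * volume V +
      ENNReal.ofReal (KK q (aa C) * (1 + C) * T * Real.exp (-(2 ^ j))) := by
  have haa : 1 ≤ aa C := by unfold aa; linarith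
  have hK := KK_pos q haa
  have hqm := measurable_qq h.diff (xc T j) (7 / 2 * kap T j)
  unfold lterm
  rw [lintegral_add_left (by fun_prop), setLIntegral_const]
  gcongr
  rw [lintegral_const_mul _ (by fun_prop), lintegral_add_left (by fun_prop), setLIntegral_const,
    one_mul]
  have h1 : volume V + ∫⁻ t in V, qq Mo (xc T j) (7 / 2 * kap T j) t ≤
      ENNReal.ofReal (T + C * T * Real.exp (3 / 2 * C * 2 ^ j)) := by
    rw [ENNReal.ofReal_add hT0.le (by positivity)]
    refine add_le_add ((measure_mono hV).trans (volume_DD_le hT0)) ?_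
    exact (lintegral_mono_set hV).trans (qq_bound_II h hT hT0 hc hC hj)
  refine (mul_le_mul_right h1 _).trans ?_
  rw [← ENNReal.ofReal_mul (by positivity)]
  apply ENNReal.ofReal_le_ofReal
  have h2 : Real.exp (-(aa C * 2 ^ j)) ≤ Real.exp (-(2 ^ j)) := by
    apply Real.exp_le_exp.mpr
    have : (0 : ℝ) < 2 ^ j := by positivity
    nlinarith
  have h3 : Real.exp (-(aa C * 2 ^ j)) * Real.exp (3 / 2 * C * 2 ^ j) = Real.exp (-(2 ^ j)) := by
    rw [← Real.exp_add]; congr 1; unfold aa; ring
  calc KK q (aa C) * Real.exp (-(aa C * 2 ^ j)) * (T + C * T * Real.exp (3 / 2 * C * 2 ^ j))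
      = KK q (aa C) * T * (Real.exp (-(aa C * 2 ^ j)) +
        C * (Real.exp (-(aa C * 2 ^ j)) * Real.exp (3 / 2 * C * 2 ^ j))) := by ring
    _ ≤ KK q (aa C) * T * (Real.exp (-(2 ^ j)) + C * Real.exp (-(2 ^ j))) := by
        rw [h3]; gcongr
    _ = _ := by ring

/-- Existence of the top level used in the stopping argument. -/
lemma exists_top_level {T : ℝ} (hT : 6 ≤ Real.log T) :
    ∃ J : ℕ, kap T J ≤ 1 / 6 ∧ 1 / 6 < kap T (J + 1) := by
  classical
  have hL : 0 < Real.log T := by linarith
  have hex : ∃ k : ℕ, 1 / 6 < kap T k := by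
    obtain ⟨k, hk⟩ := pow_unbounded_of_one_lt (Real.log T) (one_lt_two (α := ℝ))
    refine ⟨k, ?_⟩
    unfold kap
    rw [lt_div_iff₀ hL]; linarith
  have h0 : Nat.find hex ≠ 0 := by
    intro h
    have := Nat.find_spec hex
    rw [h] at this
    unfold kap at this
    rw [pow_zero, div_lt_div_iff₀ (by norm_num) hL] at this
    linarith
  obtain ⟨J, hJ⟩ := Nat.exists_eq_succ_of_ne_zero h0
  refine ⟨J, ?_, ?_⟩
  · have := Nat.find_min hex (m := J) (by omega)
    push Not at this
    exact this
  · have := Nat.find_spec hex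
    rw [hJ] at this
    exact this

/-- The final constant. -/
noncomputable def Kfin (q : ℕ) (c C : ℝ) : ℝ :=
  KK q (aa C) + (6 * detC) ^ q +
    (KK q (aa C) * (1 + C) + 4 * C * KK q (aa C) + 4 * C * (6 * detC) ^ q) *
      (2 * (q + 1).factorial / bb c ^ (q + 1))

lemma Kfin_nonneg (q : ℕ) {c C : ℝ} (hc : 0 < c) (hC : 0 < C) : 0 ≤ Kfin q c C := by
  unfold Kfin
  have := KK_pos q (a := aa C) (by unfold aa; linarith)
  have := bb_pos hc
  have := detC_pos
  positivity

theorem moment_nle {T c C : ℝ} {Mo : ℂ → ℂ} (h : MollCtx T c C Mo) (hL : 6 ≤ Real.log T)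
    (hT0 : 0 < T) (hc : 0 < c) (hC : 0 < C) (q k : ℕ) {U : Set ℝ} (hU : U ⊆ DD T) :
    ∫⁻ t in U, ENNReal.ofReal ((nle T k t) ^ q) ≤
      ENNReal.ofReal (Kfin q c C * 2 ^ (k * q)) * volume U +
      ENNReal.ofReal (Kfin q c C * T * Real.exp (-(bb c * 2 ^ k))) := by
  have hL0 : 0 < Real.log T := by linarith
  have haa : 1 ≤ aa C := by unfold aa; linarith
  have hK := KK_pos q haa
  have hb := bb_pos hc
  have hdet := detC_pos
  have hD : 0 < (6 * detC) ^ q := by positivity
  set G : ℝ := 2 * (q + 1).factorial / bb c ^ (q + 1) with hG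
  have hGpos : 0 < G := by positivity
  have hKf : Kfin q c C = KK q (aa C) + (6 * detC) ^ q +
    (KK q (aa C) * (1 + C) + 4 * C * KK q (aa C) + 4 * C * (6 * detC) ^ q) * G := rfl
  have hrest : 0 ≤ (KK q (aa C) * (1 + C) + 4 * C * KK q (aa C) + 4 * C * (6 * detC) ^ q) * G := by
    positivity
  obtain ⟨J, hJ1, hJ2⟩ := exists_top_level hL
  have hJlog : Real.log T ≤ 6 * 2 ^ (J + 1) := by
    unfold kap at hJ2
    rw [div_lt_div_iff₀ (by norm_num) hL0] at hJ2
    linarith
  by_cases hkJ : k ≤ J
  · -- stopping argument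
    set Dt : ℝ := detC * (6 * 2 ^ (J + 1)) with hDt
    have hDtb : ∀ t ∈ DD T, nle T k t ≤ Dt := by
      intro t ht
      refine (nle_le_log (by linarith) k ht).trans ?_
      rw [hDt]
      gcongr
    have hmeas1 := measurable_lterm h.diff T q (aa C)
    have hmeas2 : ∀ j, Measurable ((badSet Mo T j).indicator
        (fun t => lterm Mo T q (aa C) (j + 1) t)) := fun j =>
      (hmeas1 (j + 1)).indicator (measurableSet_badSet h.diff T j)
    have hmeas3 : Measurable ((badSet Mo T J).indicator (fun _ : ℝ => ENNReal.ofReal (Dt ^ q))) :=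
      measurable_const.indicator (measurableSet_badSet h.diff T J)
    have hmeas4 : Measurable (fun t => ∑ j ∈ Finset.Ico k J, (badSet Mo T j).indicator
        (fun t => lterm Mo T q (aa C) (j + 1) t) t) :=
      Finset.measurable_sum _ fun j _ => hmeas2 j
    have hbadsub : ∀ j, badSet Mo T j ⊆ DD T := fun j t ht => ht.1
    -- the bounds for the three pieces
    have hA := lterm_int h hL0 hT0 hc hC q (kap_mono hL0 hkJ |>.trans hJ1) hU
    have hb1 : ∀ j : ℕ, Real.exp (-(2 ^ j)) ≤ Real.exp (-(2 * bb c * 2 ^ j)) := by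
      intro j
      apply Real.exp_le_exp.mpr
      have h1 : bb c ≤ 1 / 2 := by
        unfold bb
        have := min_le_left 1 (c / 10)
        linarith
      have : (0 : ℝ) < 2 ^ j := by positivity
      nlinarith
    have hb2 : ∀ j : ℕ, Real.exp (-(c / 5 * 2 ^ j)) ≤ Real.exp (-(2 * bb c * 2 ^ (j + 1))) := by
      intro j
      apply Real.exp_le_exp.mpr
      have h1 : bb c ≤ c / 20 := by
        unfold bb
        have := min_le_right 1 (c / 10)
        linarith
      have : (0 : ℝ) < 2 ^ j := by positivity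
      rw [pow_succ]
      nlinarith
    have hB : ∀ j ∈ Finset.Ico k J, ∫⁻ t in U, (badSet Mo T j).indicator
        (fun t => lterm Mo T q (aa C) (j + 1) t) t ≤
        ENNReal.ofReal (T * (KK q (aa C) * (1 + C) + 4 * C * KK q (aa C)) *
          (2 ^ ((j + 1) * q) * Real.exp (-(2 * bb c * 2 ^ (j + 1))))) := by
      intro j hj
      simp only [Finset.mem_Ico] at hj
      have hjJ : kap T (j + 1) ≤ 1 / 6 := (kap_mono hL0 (by omega)).trans hJ1
      have hjJ' : kap T j ≤ 1 := (kap_mono hL0 (Nat.le_succ j)).trans (hjJ.trans (by norm_num))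
      have h1 : ∫⁻ t in U, (badSet Mo T j).indicator
        (fun t => lterm Mo T q (aa C) (j + 1) t) t ≤ ∫⁻ t in badSet Mo T j,
          lterm Mo T q (aa C) (j + 1) t := by
        refine (setLIntegral_le_lintegral _ _).trans ?_
        rw [lintegral_indicator (measurableSet_badSet h.diff T j)]
      refine h1.trans ((lterm_int h hL0 hT0 hc hC q hjJ (hbadsub j)).trans ?_)
      have h2 := volume_badSet_le h hL0 hT0 hc hC hjJ'
      refine (add_le_add (mul_le_mul_right h2 _) le_rfl).trans ?_
      rw [← ENNReal.ofReal_mul (by positivity), ← ENNReal.ofReal_add (by positivity)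
        (by positivity)]
      apply ENNReal.ofReal_le_ofReal
      have hone : (1 : ℝ) ≤ 2 ^ ((j + 1) * q) := one_le_pow₀ (by norm_num)
      have he := Real.exp_pos (-(2 * bb c * 2 ^ (j + 1)))
      calc KK q (aa C) * 2 ^ ((j + 1) * q) * (4 * (C * T * Real.exp (-(c / 5 * 2 ^ j)))) +
            KK q (aa C) * (1 + C) * T * Real.exp (-(2 ^ (j + 1)))
          ≤ KK q (aa C) * 2 ^ ((j + 1) * q) * (4 * (C * T * Real.exp (-(2 * bb c * 2 ^ (j + 1))))) +
            KK q (aa C) * (1 + C) * T * (2 ^ ((j + 1) * q) * Real.exp (-(2 * bb c * 2 ^ (j + 1)))) := by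
            refine add_le_add (mul_le_mul_of_nonneg_left (mul_le_mul_of_nonneg_left
              (mul_le_mul_of_nonneg_left (hb2 j) (by positivity)) (by norm_num)) (by positivity))
              (mul_le_mul_of_nonneg_left ?_ (by positivity))
            refine (hb1 (j + 1)).trans ?_
            nlinarith
        _ = _ := by ring
    have hCc : ∫⁻ t in U, (badSet Mo T J).indicator (fun _ : ℝ => ENNReal.ofReal (Dt ^ q)) t ≤
        ENNReal.ofReal (T * (4 * C * (6 * detC) ^ q) *
          (2 ^ ((J + 1) * q) * Real.exp (-(2 * bb c * 2 ^ (J + 1))))) := by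
      have h1 : ∫⁻ t in U, (badSet Mo T J).indicator (fun _ : ℝ => ENNReal.ofReal (Dt ^ q)) t ≤
          ENNReal.ofReal (Dt ^ q) * volume (badSet Mo T J) := by
        refine (setLIntegral_le_lintegral _ _).trans ?_
        rw [lintegral_indicator (measurableSet_badSet h.diff T J), setLIntegral_const]
      refine h1.trans ?_
      have h2 := volume_badSet_le h hL0 hT0 hc hC (hJ1.trans (by norm_num))
      refine (mul_le_mul_right h2 _).trans ?_
      have hDt0 : 0 ≤ Dt := by positivity
      rw [← ENNReal.ofReal_mul (by positivity)]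
      apply ENNReal.ofReal_le_ofReal
      have e1 : Dt ^ q = (6 * detC) ^ q * 2 ^ ((J + 1) * q) := by
        rw [hDt, pow_mul, ← mul_pow]; ring
      rw [e1]
      calc (6 * detC) ^ q * 2 ^ ((J + 1) * q) * (4 * (C * T * Real.exp (-(c / 5 * 2 ^ J))))
          ≤ (6 * detC) ^ q * 2 ^ ((J + 1) * q) *
            (4 * (C * T * Real.exp (-(2 * bb c * 2 ^ (J + 1))))) :=
            mul_le_mul_of_nonneg_left (mul_le_mul_of_nonneg_left
              (mul_le_mul_of_nonneg_left (hb2 J) (by positivity)) (by norm_num)) (by positivity)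
        _ = _ := by ring
    -- assemble
    have hsum1 : ∑ j ∈ Finset.Ico k J, (T * (KK q (aa C) * (1 + C) + 4 * C * KK q (aa C)) *
          (2 ^ ((j + 1) * q) * Real.exp (-(2 * bb c * 2 ^ (j + 1))))) =
        T * (KK q (aa C) * (1 + C) + 4 * C * KK q (aa C)) * ∑ j ∈ Finset.Icc (k + 1) J,
          (2 : ℝ) ^ (j * q) * Real.exp (-(2 * bb c * 2 ^ j)) := by
      rw [← Finset.mul_sum]
      congr 1
      have : Finset.Icc (k + 1) J = Finset.Ico (k + 1) (J + 1) := by
        ext x; simp
      rw [this, ← Finset.sum_Ico_add' (fun j => (2 : ℝ) ^ (j * q) *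
        Real.exp (-(2 * bb c * 2 ^ j))) k J 1]
    set Sg : ℝ := ∑ j ∈ Finset.Icc k (J + 1), (2 : ℝ) ^ (j * q) * Real.exp (-(2 * bb c * 2 ^ j))
      with hSg
    have hSgb : Sg ≤ Real.exp (-(bb c * 2 ^ k)) * G := geo_sum_tail q hb k (J + 1)
    have hpos_term : ∀ j : ℕ, 0 ≤ (2 : ℝ) ^ (j * q) * Real.exp (-(2 * bb c * 2 ^ j)) := by
      intro j; positivity
    have hsplit : (2 : ℝ) ^ (k * q) * Real.exp (-(2 * bb c * 2 ^ k)) +
        ∑ j ∈ Finset.Icc (k + 1) J, (2 : ℝ) ^ (j * q) * Real.exp (-(2 * bb c * 2 ^ j)) +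
        (2 : ℝ) ^ ((J + 1) * q) * Real.exp (-(2 * bb c * 2 ^ (J + 1))) = Sg := by
      rw [hSg, Finset.sum_Icc_succ_top (by omega)]
      congr 1
      have : Finset.Icc k J = insert k (Finset.Icc (k + 1) J) := by
        ext x; simp only [Finset.mem_Icc, Finset.mem_insert]; omega
      rw [this, Finset.sum_insert (by simp)]
    have h1k : Real.exp (-(2 ^ k)) ≤ (2 : ℝ) ^ (k * q) * Real.exp (-(2 * bb c * 2 ^ k)) := by
      refine (hb1 k).trans ?_
      have hone : (1 : ℝ) ≤ 2 ^ (k * q) := one_le_pow₀ (by norm_num)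
      have he := Real.exp_pos (-(2 * bb c * 2 ^ k))
      nlinarith
    set S2 : ℝ := ∑ j ∈ Finset.Icc (k + 1) J, (2 : ℝ) ^ (j * q) * Real.exp (-(2 * bb c * 2 ^ j))
      with hS2
    have hS20 : 0 ≤ S2 := Finset.sum_nonneg fun j _ => hpos_term j
    calc ∫⁻ t in U, ENNReal.ofReal ((nle T k t) ^ q)
        ≤ ∫⁻ t in U, (lterm Mo T q (aa C) k t +
          ((∑ j ∈ Finset.Ico k J, (badSet Mo T j).indicator
            (fun t => lterm Mo T q (aa C) (j + 1) t) t) +
          (badSet Mo T J).indicator (fun _ => ENNReal.ofReal (Dt ^ q)) t)) := by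
          refine setLIntegral_mono ((hmeas1 k).add (hmeas4.add hmeas3)) fun t ht => ?_
          exact stopping h.diff (by linarith) (hU ht) hkJ hJ1 q haa (hDtb t (hU ht))
      _ = (∫⁻ t in U, lterm Mo T q (aa C) k t) +
          ((∑ j ∈ Finset.Ico k J, ∫⁻ t in U, (badSet Mo T j).indicator
            (fun t => lterm Mo T q (aa C) (j + 1) t) t) +
          (∫⁻ t in U, (badSet Mo T J).indicator (fun _ => ENNReal.ofReal (Dt ^ q)) t)) := by
          rw [lintegral_add_left (hmeas1 k), lintegral_add_left hmeas4,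
            lintegral_finsetSum _ fun j _ => hmeas2 j]
      _ ≤ (ENNReal.ofReal (KK q (aa C) * 2 ^ (k * q)) * volume U +
          ENNReal.ofReal (KK q (aa C) * (1 + C) * T * Real.exp (-(2 ^ k)))) +
          ((∑ j ∈ Finset.Ico k J, ENNReal.ofReal (T * (KK q (aa C) * (1 + C) +
            4 * C * KK q (aa C)) * (2 ^ ((j + 1) * q) * Real.exp (-(2 * bb c * 2 ^ (j + 1)))))) +
          ENNReal.ofReal (T * (4 * C * (6 * detC) ^ q) *
          (2 ^ ((J + 1) * q) * Real.exp (-(2 * bb c * 2 ^ (J + 1)))))) := by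
          gcongr with j hj
          exact hB j hj
      _ = ENNReal.ofReal (KK q (aa C) * 2 ^ (k * q)) * volume U +
          ENNReal.ofReal (KK q (aa C) * (1 + C) * T * Real.exp (-(2 ^ k)) +
            (T * (KK q (aa C) * (1 + C) + 4 * C * KK q (aa C)) * S2 +
            T * (4 * C * (6 * detC) ^ q) *
            (2 ^ ((J + 1) * q) * Real.exp (-(2 * bb c * 2 ^ (J + 1)))))) := by
          rw [← ENNReal.ofReal_sum_of_nonneg (fun j _ => by positivity), hsum1, add_assoc,
            ← ENNReal.ofReal_add (by positivity) (by positivity),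
            ← ENNReal.ofReal_add (by positivity) (by positivity)]
      _ ≤ _ := by
          gcongr
          · rw [hKf]; linarith
          · have hJ0 := hpos_term (J + 1)
            have hk0 := hpos_term k
            calc KK q (aa C) * (1 + C) * T * Real.exp (-(2 ^ k)) +
                (T * (KK q (aa C) * (1 + C) + 4 * C * KK q (aa C)) * S2 +
                T * (4 * C * (6 * detC) ^ q) *
                (2 ^ ((J + 1) * q) * Real.exp (-(2 * bb c * 2 ^ (J + 1)))))
                ≤ KK q (aa C) * (1 + C) * T * (2 ^ (k * q) * Real.exp (-(2 * bb c * 2 ^ k))) +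
                (T * (KK q (aa C) * (1 + C) + 4 * C * KK q (aa C)) * S2 +
                T * (4 * C * (6 * detC) ^ q) *
                (2 ^ ((J + 1) * q) * Real.exp (-(2 * bb c * 2 ^ (J + 1))))) := by gcongr
              _ ≤ T * (KK q (aa C) * (1 + C) + 4 * C * KK q (aa C) + 4 * C * (6 * detC) ^ q) *
                  (2 ^ (k * q) * Real.exp (-(2 * bb c * 2 ^ k)) + S2 +
                  2 ^ ((J + 1) * q) * Real.exp (-(2 * bb c * 2 ^ (J + 1)))) := by
                  have hA1 : 0 ≤ T * (KK q (aa C) * (1 + C)) := by positivity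
                  have hA2 : 0 ≤ T * (4 * C * KK q (aa C)) := by positivity
                  have hA3 : 0 ≤ T * (4 * C * (6 * detC) ^ q) := by positivity
                  nlinarith [mul_nonneg hA1 hJ0, mul_nonneg hA2 hJ0, mul_nonneg hA2 hk0,
                    mul_nonneg hA3 hk0, mul_nonneg hA3 hS20]
              _ = T * (KK q (aa C) * (1 + C) + 4 * C * KK q (aa C) + 4 * C * (6 * detC) ^ q) * Sg := by
                  rw [hsplit]
              _ ≤ T * (KK q (aa C) * (1 + C) + 4 * C * KK q (aa C) + 4 * C * (6 * detC) ^ q) *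
                  (Real.exp (-(bb c * 2 ^ k)) * G) := by gcongr
              _ = ((KK q (aa C) * (1 + C) + 4 * C * KK q (aa C) + 4 * C * (6 * detC) ^ q) * G) * T *
                  Real.exp (-(bb c * 2 ^ k)) := by ring
              _ ≤ Kfin q c C * T * Real.exp (-(bb c * 2 ^ k)) := by
                  gcongr
                  rw [hKf]; linarith
  · push Not at hkJ
    have hkl : Real.log T ≤ 6 * 2 ^ k := by
      refine hJlog.trans ?_
      gcongr
      · norm_num
      · omega
    have hpt : ∀ t ∈ U, ENNReal.ofReal ((nle T k t) ^ q) ≤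
        ENNReal.ofReal (Kfin q c C * 2 ^ (k * q)) := by
      intro t ht
      apply ENNReal.ofReal_le_ofReal
      have h1 := nle_le_log (by linarith) k (hU ht)
      have h0 := nle_nonneg T k t
      calc (nle T k t) ^ q ≤ (detC * (6 * 2 ^ k)) ^ q := by
            gcongr
            exact h1.trans (by gcongr)
        _ = (6 * detC) ^ q * 2 ^ (k * q) := by
            rw [pow_mul, ← mul_pow]; ring
        _ ≤ _ := by
            gcongr
            rw [hKf]; linarith
    calc ∫⁻ t in U, ENNReal.ofReal ((nle T k t) ^ q)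
        ≤ ∫⁻ _ in U, ENNReal.ofReal (Kfin q c C * 2 ^ (k * q)) :=
          setLIntegral_mono measurable_const hpt
      _ = ENNReal.ofReal (Kfin q c C * 2 ^ (k * q)) * volume U := setLIntegral_const _ _
      _ ≤ _ := le_self_add

end Pool.Agent.PairCorr
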