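import Mathlib
import Pool.Agent.PairCorr.B_MomentLevel

/-!
Moments of the weighted local zero count to the right of the critical line.
-/

set_option autoImplicit false

namespace Pool.Agent.PairCorr

open MeasureTheory Filter Topology Complex Set Metric Real
open scoped ENNReal

open scoped Classical in
/-- The weighted count to the right of the critical line. -/
noncomputable def EP (T c0 t : ℝ) : ℝ :=
  ∑ ρ ∈ (ZZ T).filter (fun ρ => |ρ.im - t| ≤ 2 / Real.log T ∧ 1 / 2 ≤ ρ.re),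
    (mult ρ : ℝ) * Real.exp (c0 * (ρ.re - 1 / 2) * Real.log T)

open scoped Classical in
/-- The count in the band of level `k`. -/
noncomputable def bandSum (T : ℝ) (k : ℕ) (t : ℝ) : ℝ :=
  ∑ ρ ∈ (ZZ T).filter (fun ρ => |ρ.im - t| ≤ 2 / Real.log T ∧ kap T k / 2 < ρ.re - 1 / 2 ∧
    ρ.re - 1 / 2 ≤ kap T k), (mult ρ : ℝ)

/-- The pieces. -/
noncomputable def piece (T : ℝ) (k : ℕ) (t : ℝ) : ℝ :=
  if k = 2 then nle T 2 t else bandSum T k t

lemma measurable_window_sum (S : Finset ℂ) (w : ℝ) (P : ℂ → Prop) [DecidablePred P] (f : ℂ → ℝ)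
    [∀ t : ℝ, DecidablePred fun ρ : ℂ => |ρ.im - t| ≤ w ∧ P ρ] :
    Measurable (fun t : ℝ => ∑ ρ ∈ S.filter (fun ρ => |ρ.im - t| ≤ w ∧ P ρ), f ρ) := by
  classical
  have : (fun t : ℝ => ∑ ρ ∈ S.filter (fun ρ => |ρ.im - t| ≤ w ∧ P ρ), f ρ) =
      fun t : ℝ => ∑ ρ ∈ S, if |ρ.im - t| ≤ w ∧ P ρ then f ρ else 0 := by
    funext t
    rw [Finset.sum_filter]
  rw [this]
  refine Finset.measurable_sum _ fun ρ _ => ?_
  by_cases hP : P ρ
  · simp only [hP, and_true]
    refine Measurable.ite ?_ measurable_const measurable_const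
    have : Measurable (fun t : ℝ => |ρ.im - t|) := by fun_prop
    exact measurableSet_le this measurable_const
  · simp only [hP, and_false, if_false]
    exact measurable_const

lemma measurable_nle (T : ℝ) (k : ℕ) : Measurable (nle T k) := by
  unfold nle
  exact measurable_window_sum _ _ _ _

lemma measurable_bandSum (T : ℝ) (k : ℕ) : Measurable (bandSum T k) := by
  unfold bandSum
  exact measurable_window_sum _ _ _ _

lemma measurable_EP (T c0 : ℝ) : Measurable (EP T c0) := by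
  unfold EP
  exact measurable_window_sum _ _ _ _

lemma measurable_piece (T : ℝ) (k : ℕ) : Measurable (piece T k) := by
  unfold piece
  by_cases h : k = 2
  · simp only [h, if_true]; exact measurable_nle T 2
  · simp only [h, if_false]; exact measurable_bandSum T k

lemma bandSum_nonneg (T : ℝ) (k : ℕ) (t : ℝ) : 0 ≤ bandSum T k t := by
  unfold bandSum; positivity

lemma piece_nonneg (T : ℝ) (k : ℕ) (t : ℝ) : 0 ≤ piece T k t := by
  unfold piece
  split_ifs
  · exact nle_nonneg _ _ _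
  · exact bandSum_nonneg _ _ _

lemma bandSum_le_nle {T : ℝ} (hT : 0 < Real.log T) (k : ℕ) (t : ℝ) : bandSum T k t ≤ nle T k t := by
  classical
  unfold bandSum nle
  apply Finset.sum_le_sum_of_subset_of_nonneg
  · intro ρ hρ
    simp only [Finset.mem_filter] at hρ ⊢
    refine ⟨hρ.1, hρ.2.1, ?_, hρ.2.2.2⟩
    have := kap_pos hT k
    linarith [hρ.2.2.1]
  · intro ρ _ _
    positivity

lemma bandSum_eq_zero {T : ℝ} {k : ℕ} {t : ℝ} (htD : t ∈ DD T) (ht : t ∉ bandSet T k) :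
    bandSum T k t = 0 := by
  classical
  unfold bandSum
  rw [Finset.filter_eq_empty_iff.mpr]
  · simp
  · intro ρ hρ hcon
    apply ht
    exact ⟨htD, ρ, (mem_ZZ.mp hρ).1, hcon.1, hcon.2.1, hcon.2.2⟩

lemma sum_pow_le {s : Finset ℕ} (hs : s.Nonempty) (a : ℕ → ℝ) (ha : ∀ k, 0 ≤ a k) (p : ℕ) :
    (∑ k ∈ s, a k) ^ p ≤ ∑ k ∈ s, 2 ^ ((k + 1) * p) * (a k) ^ p := by
  obtain ⟨m, hm, hmax⟩ := s.exists_max_image (fun k => 2 ^ (k + 1) * a k) hs
  have h1 : ∑ k ∈ s, a k ≤ 2 ^ (m + 1) * a m := by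
    calc ∑ k ∈ s, a k = ∑ k ∈ s, (1 / 2) ^ (k + 1) * (2 ^ (k + 1) * a k) := by
          refine Finset.sum_congr rfl fun k _ => ?_
          rw [← mul_assoc, ← mul_pow]; norm_num
      _ ≤ ∑ k ∈ s, (1 / 2) ^ (k + 1) * (2 ^ (m + 1) * a m) := by
          refine Finset.sum_le_sum fun k hk => ?_
          exact mul_le_mul_of_nonneg_left (hmax k hk) (by positivity)
      _ = (∑ k ∈ s, (1 / 2 : ℝ) ^ (k + 1)) * (2 ^ (m + 1) * a m) := by rw [Finset.sum_mul]
      _ ≤ 1 * (2 ^ (m + 1) * a m) := by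
          have := ha m
          gcongr
          calc ∑ k ∈ s, (1 / 2 : ℝ) ^ (k + 1) = 1 / 2 * ∑ k ∈ s, (1 / 2 : ℝ) ^ k := by
                rw [Finset.mul_sum]; refine Finset.sum_congr rfl fun k _ => by rw [pow_succ']
            _ ≤ 1 / 2 * 2 := by
                gcongr
                calc ∑ j ∈ s, (1 / 2 : ℝ) ^ j ≤ ∑' j : ℕ, (1 / 2 : ℝ) ^ j :=
                      (summable_geometric_two).sum_le_tsum s (fun _ _ => by positivity)
                  _ = 2 := tsum_geometric_two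
            _ = 1 := by norm_num
      _ = _ := one_mul _
  have h0 : 0 ≤ ∑ k ∈ s, a k := Finset.sum_nonneg fun k _ => ha k
  calc (∑ k ∈ s, a k) ^ p ≤ (2 ^ (m + 1) * a m) ^ p := by gcongr
    _ = 2 ^ ((m + 1) * p) * (a m) ^ p := by rw [mul_pow, ← pow_mul]
    _ ≤ _ := Finset.single_le_sum (f := fun k => 2 ^ ((k + 1) * p) * (a k) ^ p)
        (fun k _ => by have := ha k; positivity) hm

lemma exists_ktop {T : ℝ} (hT : 9 ≤ Real.log T) :
    ∃ K : ℕ, 3 ≤ K ∧ kap T K ≤ 1 ∧ 1 / 2 ≤ kap T K := by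
  classical
  have hL : 0 < Real.log T := by linarith
  have hex : ∃ k : ℕ, 1 / 2 ≤ kap T k := by
    obtain ⟨k, hk⟩ := pow_unbounded_of_one_lt (Real.log T) (one_lt_two (α := ℝ))
    refine ⟨k, ?_⟩
    unfold kap
    rw [le_div_iff₀ hL]; linarith
  have hsmall : ∀ k, k ≤ 2 → kap T k < 1 / 2 := by
    intro k hk
    refine (kap_mono hL hk).trans_lt ?_
    unfold kap
    rw [div_lt_div_iff₀ hL (by norm_num)]
    linarith
  set K := Nat.find hex with hK
  have hKs := Nat.find_spec hex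
  have h3 : 3 ≤ K := by
    by_contra hcon
    push Not at hcon
    have := hsmall K (by omega)
    linarith
  refine ⟨K, h3, ?_, hKs⟩
  have hmin := Nat.find_min hex (m := K - 1) (by omega)
  push Not at hmin
  have : kap T K = 2 * kap T (K - 1) := by
    unfold kap
    have : (2 : ℝ) ^ K = 2 * 2 ^ (K - 1) := by
      rw [← pow_succ']; congr 1; omega
    rw [this]; ring
  linarith

/-- Pointwise decomposition into dyadic bands. -/
lemma EP_le {T c0 : ℝ} (hT : 9 ≤ Real.log T) (hc0 : 0 ≤ c0) {K : ℕ} (hK3 : 3 ≤ K)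
    (hK : 1 / 2 ≤ kap T K) (t : ℝ) :
    EP T c0 t ≤ ∑ k ∈ Finset.Icc 2 K, Real.exp (c0 * 2 ^ k) * piece T k t := by
  classical
  have hL : 0 < Real.log T := by linarith
  have hpiece2 : piece T 2 t = ∑ ρ ∈ (ZZ T).filter (fun ρ => |ρ.im - t| ≤ 2 / Real.log T ∧
      1 / 2 ≤ ρ.re), (if ρ.re - 1 / 2 ≤ kap T 2 then (mult ρ : ℝ) else 0) := by
    unfold piece nle
    simp only [if_true]
    rw [← Finset.sum_filter, Finset.filter_filter]
    refine Finset.sum_congr ?_ fun _ _ => rfl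
    ext ρ
    simp only [Finset.mem_filter]
    tauto
  have hpiecek : ∀ k, 3 ≤ k → piece T k t = ∑ ρ ∈ (ZZ T).filter
      (fun ρ => |ρ.im - t| ≤ 2 / Real.log T ∧ 1 / 2 ≤ ρ.re),
      (if kap T k / 2 < ρ.re - 1 / 2 ∧ ρ.re - 1 / 2 ≤ kap T k then (mult ρ : ℝ) else 0) := by
    intro k hk
    unfold piece bandSum
    rw [if_neg (by omega), ← Finset.sum_filter, Finset.filter_filter]
    refine Finset.sum_congr ?_ fun _ _ => rfl
    ext ρ
    simp only [Finset.mem_filter]
    have := kap_pos hL k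
    constructor
    · rintro ⟨h1, h2, h3, h4⟩
      exact ⟨h1, ⟨h2, by linarith⟩, h3, h4⟩
    · rintro ⟨h1, ⟨h2, h2'⟩, h3, h4⟩
      exact ⟨h1, h2, h3, h4⟩
  have hpiece : ∀ k ∈ Finset.Icc 2 K, piece T k t = ∑ ρ ∈ (ZZ T).filter
      (fun ρ => |ρ.im - t| ≤ 2 / Real.log T ∧ 1 / 2 ≤ ρ.re),
      (if (k = 2 ∧ ρ.re - 1 / 2 ≤ kap T 2) ∨ (k ≠ 2 ∧ kap T k / 2 < ρ.re - 1 / 2 ∧
        ρ.re - 1 / 2 ≤ kap T k) then (mult ρ : ℝ) else 0) := by
    intro k hk
    simp only [Finset.mem_Icc] at hk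
    by_cases h2 : k = 2
    · rw [h2, hpiece2]
      refine Finset.sum_congr rfl fun ρ _ => ?_
      simp
    · rw [hpiecek k (by omega)]
      refine Finset.sum_congr rfl fun ρ _ => ?_
      simp [h2]
  rw [Finset.sum_congr rfl fun k hk => by rw [hpiece k hk, Finset.mul_sum]]
  rw [Finset.sum_comm]
  unfold EP
  refine Finset.sum_le_sum fun ρ hρ => ?_
  simp only [Finset.mem_filter, mem_ZZ] at hρ
  obtain ⟨⟨hρN, -⟩, -, hre⟩ := hρ
  have hx0 : 0 ≤ ρ.re - 1 / 2 := by linarith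
  have hx1 : ρ.re - 1 / 2 ≤ kap T K := by linarith [hρN.2.2]
  -- find the level
  obtain ⟨k, hkmem, hkP, hkle⟩ : ∃ k ∈ Finset.Icc 2 K, ((k = 2 ∧ ρ.re - 1 / 2 ≤ kap T 2) ∨
      (k ≠ 2 ∧ kap T k / 2 < ρ.re - 1 / 2 ∧ ρ.re - 1 / 2 ≤ kap T k)) ∧
      ρ.re - 1 / 2 ≤ kap T k := by
    by_cases hsm : ρ.re - 1 / 2 ≤ kap T 2
    · exact ⟨2, by simp only [Finset.mem_Icc]; omega, Or.inl ⟨rfl, hsm⟩, hsm⟩
    · have hex : ∃ k, ρ.re - 1 / 2 ≤ kap T k := ⟨K, hx1⟩
      set m := Nat.find hex with hm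
      have hms := Nat.find_spec hex
      have hmK : m ≤ K := Nat.find_min' hex hx1
      have hm2 : 2 < m := by
        by_contra hcon
        push Not at hcon
        exact hsm (hms.trans (kap_mono hL hcon))
      have hmin := Nat.find_min hex (m := m - 1) (by omega)
      push Not at hmin
      have hhalf : kap T (m - 1) = kap T m / 2 := by
        unfold kap
        have : (2 : ℝ) ^ m = 2 * 2 ^ (m - 1) := by
          rw [← pow_succ']; congr 1; omega
        rw [this]; ring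
      rw [hhalf] at hmin
      refine ⟨m, by simp only [Finset.mem_Icc]; omega, Or.inr ⟨by omega, hmin, hms⟩, hms⟩
  have hterm : (mult ρ : ℝ) * Real.exp (c0 * (ρ.re - 1 / 2) * Real.log T) ≤
      Real.exp (c0 * 2 ^ k) * (if (k = 2 ∧ ρ.re - 1 / 2 ≤ kap T 2) ∨
        (k ≠ 2 ∧ kap T k / 2 < ρ.re - 1 / 2 ∧ ρ.re - 1 / 2 ≤ kap T k) then (mult ρ : ℝ) else 0) := by
    rw [if_pos hkP, mul_comm]
    refine mul_le_mul_of_nonneg_right (Real.exp_le_exp.mpr ?_) (Nat.cast_nonneg _)
    rw [← kap_mul_log hL k, mul_assoc]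
    gcongr
  refine hterm.trans ?_
  exact Finset.single_le_sum (f := fun k => Real.exp (c0 * 2 ^ k) *
    (if (k = 2 ∧ ρ.re - 1 / 2 ≤ kap T 2) ∨ (k ≠ 2 ∧ kap T k / 2 < ρ.re - 1 / 2 ∧
      ρ.re - 1 / 2 ≤ kap T k) then (mult ρ : ℝ) else 0))
    (fun j _ => by
      have : (0 : ℝ) ≤ (mult ρ : ℝ) := Nat.cast_nonneg _
      split_ifs <;> positivity) hkmem

lemma KU_pos : 0 < KU := by
  unfold KU
  have := log3631_pos
  positivity

lemma piece_moment {T c C : ℝ} {Mo : ℂ → ℂ} (h : MollCtx T c C Mo) (hL : 6 ≤ Real.log T)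
    (hT0 : 0 < T) (hc : 0 < c) (hC : 0 < C) {p : ℕ} (hp : 1 ≤ p) {k : ℕ} (hk2 : 2 ≤ k)
    (hk1 : kap T k ≤ 1) :
    ∫⁻ t in DD T, ENNReal.ofReal ((piece T k t) ^ p) ≤
      ENNReal.ofReal (T * (Kfin p c C * (KU * C + 1 + Real.exp (4 * bb c))) *
        (2 ^ (k * p) * Real.exp (-(bb c * 2 ^ k)))) := by
  have hL0 : 0 < Real.log T := by linarith
  have hKf := Kfin_nonneg p hc hC
  have hKU := KU_pos
  have hb := bb_pos hc
  by_cases h2 : k = 2
  · subst h2
    have e : ∀ t, piece T 2 t = nle T 2 t := fun t => by unfold piece; simp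
    simp_rw [e]
    refine (moment_nle h hL hT0 hc hC p 2 (U := DD T) subset_rfl).trans ?_
    refine (add_le_add (mul_le_mul_right (volume_DD_le hT0) _) le_rfl).trans ?_
    rw [← ENNReal.ofReal_mul (by positivity), ← ENNReal.ofReal_add (by positivity) (by positivity)]
    apply ENNReal.ofReal_le_ofReal
    have h4 : (bb c) * 2 ^ 2 = 4 * bb c := by ring
    rw [h4]
    have hee : Real.exp (4 * bb c) * Real.exp (-(4 * bb c)) = 1 := by
      rw [← Real.exp_add]; simp
    have hone : (1 : ℝ) ≤ 2 ^ (2 * p) := one_le_pow₀ (by norm_num)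
    have he := Real.exp_pos (-(4 * bb c))
    calc Kfin p c C * 2 ^ (2 * p) * T + Kfin p c C * T * Real.exp (-(4 * bb c))
        ≤ Kfin p c C * 2 ^ (2 * p) * T + Kfin p c C * T * (2 ^ (2 * p) * Real.exp (-(4 * bb c))) := by
          gcongr
          nlinarith
      _ = T * (Kfin p c C * (0 + 1 + Real.exp (4 * bb c))) *
          (2 ^ (2 * p) * Real.exp (-(4 * bb c))) := by
          have : Kfin p c C * 2 ^ (2 * p) * T = Kfin p c C * 2 ^ (2 * p) * T *
            (Real.exp (4 * bb c) * Real.exp (-(4 * bb c))) := by rw [hee, mul_one]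
          rw [this]; ring
      _ ≤ _ := by gcongr; positivity
  · have hk3 : 3 ≤ k := by omega
    have e : ∀ t, piece T k t = bandSum T k t := fun t => by unfold piece; simp [h2]
    simp_rw [e]
    have h1 : ∫⁻ t in DD T, ENNReal.ofReal ((bandSum T k t) ^ p) ≤
        ∫⁻ t in bandSet T k, ENNReal.ofReal ((nle T k t) ^ p) := by
      calc ∫⁻ t in DD T, ENNReal.ofReal ((bandSum T k t) ^ p)
          ≤ ∫⁻ t in DD T, (bandSet T k).indicator (fun t => ENNReal.ofReal ((nle T k t) ^ p)) t := by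
            refine setLIntegral_mono' (measurableSet_DD T) fun t ht => ?_
            by_cases htb : t ∈ bandSet T k
            · rw [indicator_of_mem htb]
              apply ENNReal.ofReal_le_ofReal
              have := bandSum_nonneg T k t
              have := bandSum_le_nle hL0 k t
              gcongr
            · rw [bandSum_eq_zero ht htb, zero_pow (by omega)]
              simp
        _ ≤ ∫⁻ t, (bandSet T k).indicator (fun t => ENNReal.ofReal ((nle T k t) ^ p)) t :=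
            setLIntegral_le_lintegral _ _
        _ ≤ _ := lintegral_indicator_le _ _
    refine h1.trans ((moment_nle h hL hT0 hc hC p k (U := bandSet T k) (fun t ht => ht.1)).trans ?_)
    have hv := volume_bandSet_le h (by linarith) hT0 hc hC hk3 hk1
    refine (add_le_add (mul_le_mul_right hv _) le_rfl).trans ?_
    rw [← ENNReal.ofReal_mul (by positivity), ← ENNReal.ofReal_add (by positivity) (by positivity)]
    apply ENNReal.ofReal_le_ofReal
    have hone : (1 : ℝ) ≤ 2 ^ (k * p) := one_le_pow₀ (by norm_num)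
    have he := Real.exp_pos (-(bb c * 2 ^ k))
    have hbc : Real.exp (-(c / 5 * 2 ^ k)) ≤ Real.exp (-(bb c * 2 ^ k)) := by
      apply Real.exp_le_exp.mpr
      have h1 : bb c ≤ c / 20 := by
        unfold bb
        have := min_le_right 1 (c / 10)
        linarith
      have : (0 : ℝ) < 2 ^ k := by positivity
      nlinarith
    calc Kfin p c C * 2 ^ (k * p) * (KU * (C * T * Real.exp (-(c / 5 * 2 ^ k)))) +
          Kfin p c C * T * Real.exp (-(bb c * 2 ^ k))
        ≤ Kfin p c C * 2 ^ (k * p) * (KU * (C * T * Real.exp (-(bb c * 2 ^ k)))) +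
          Kfin p c C * T * (2 ^ (k * p) * Real.exp (-(bb c * 2 ^ k))) := by
          refine add_le_add (mul_le_mul_of_nonneg_left (mul_le_mul_of_nonneg_left
            (mul_le_mul_of_nonneg_left hbc (by positivity)) hKU.le) (by positivity))
            (mul_le_mul_of_nonneg_left ?_ (by positivity))
          nlinarith
      _ = T * (Kfin p c C * (KU * C + 1 + 0)) * (2 ^ (k * p) * Real.exp (-(bb c * 2 ^ k))) := by ring
      _ ≤ _ := by gcongr; positivity

/-- All moments of the weighted count to the right of the critical line. -/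
theorem EP_moment {c C : ℝ} (hc : 0 < c) (hC : 0 < C) {p : ℕ} (hp : 1 ≤ p) :
    ∃ c0 : ℝ, 0 < c0 ∧ ∃ K : ℝ, 0 < K ∧ ∀ T : ℝ, 9 ≤ Real.log T → 0 < T → ∀ Mo : ℂ → ℂ,
      MollCtx T c C Mo → ∫⁻ t in DD T, ENNReal.ofReal ((EP T c0 t) ^ p) ≤ ENNReal.ofReal (K * T) := by
  have hb := bb_pos hc
  have hp0 : (0 : ℝ) < p := by exact_mod_cast hp
  have hKf := Kfin_nonneg p hc hC
  have hKU := KU_pos
  set c0 : ℝ := bb c / 2 / p with hc0
  have hc0pos : 0 < c0 := by positivity
  set A : ℝ := Kfin p c C * (KU * C + 1 + Real.exp (4 * bb c)) with hA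
  have hA0 : 0 ≤ A := by positivity
  set G : ℝ := 2 * (2 * p + 1).factorial / (bb c / 2) ^ (2 * p + 1) with hG
  have hG0 : 0 < G := by positivity
  refine ⟨c0, hc0pos, A * 2 ^ p * G + 1, by positivity, fun T hL hT0 Mo h => ?_⟩
  obtain ⟨K, hK3, hK1, hK2⟩ := exists_ktop hL
  have hL0 : 0 < Real.log T := by linarith
  have hne : (Finset.Icc 2 K).Nonempty := ⟨2, by simp only [Finset.mem_Icc]; omega⟩
  have hpt : ∀ t, ENNReal.ofReal ((EP T c0 t) ^ p) ≤ ∑ k ∈ Finset.Icc 2 K,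
      ENNReal.ofReal (2 ^ ((k + 1) * p) * Real.exp (bb c / 2 * 2 ^ k)) *
        ENNReal.ofReal ((piece T k t) ^ p) := by
    intro t
    have h1 := EP_le hL hc0pos.le hK3 hK2 t
    have h0 : 0 ≤ EP T c0 t := by unfold EP; positivity
    have h2 : (EP T c0 t) ^ p ≤ ∑ k ∈ Finset.Icc 2 K, 2 ^ ((k + 1) * p) *
        (Real.exp (c0 * 2 ^ k) * piece T k t) ^ p := by
      refine (pow_le_pow_left₀ h0 h1 p).trans ?_
      exact sum_pow_le hne (fun k => Real.exp (c0 * 2 ^ k) * piece T k t)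
        (fun k => by have := piece_nonneg T k t; positivity) p
    refine (ENNReal.ofReal_le_ofReal h2).trans ?_
    rw [ENNReal.ofReal_sum_of_nonneg (fun k _ => by have := piece_nonneg T k t; positivity)]
    refine Finset.sum_le_sum fun k _ => ?_
    rw [← ENNReal.ofReal_mul (by positivity)]
    apply ENNReal.ofReal_le_ofReal
    apply le_of_eq
    rw [mul_pow, ← Real.exp_nat_mul]
    have : (p : ℝ) * (c0 * 2 ^ k) = bb c / 2 * 2 ^ k := by rw [hc0]; field_simp
    rw [this]; ring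
  calc ∫⁻ t in DD T, ENNReal.ofReal ((EP T c0 t) ^ p)
      ≤ ∫⁻ t in DD T, ∑ k ∈ Finset.Icc 2 K,
        ENNReal.ofReal (2 ^ ((k + 1) * p) * Real.exp (bb c / 2 * 2 ^ k)) *
        ENNReal.ofReal ((piece T k t) ^ p) := lintegral_mono hpt
    _ = ∑ k ∈ Finset.Icc 2 K, ENNReal.ofReal (2 ^ ((k + 1) * p) * Real.exp (bb c / 2 * 2 ^ k)) *
        ∫⁻ t in DD T, ENNReal.ofReal ((piece T k t) ^ p) := by
        rw [lintegral_finsetSum]
        · refine Finset.sum_congr rfl fun k _ => ?_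
          rw [lintegral_const_mul]
          exact ((measurable_piece T k).pow_const p).ennreal_ofReal
        · intro k _
          exact ((measurable_piece T k).pow_const p).ennreal_ofReal.const_mul _
    _ ≤ ∑ k ∈ Finset.Icc 2 K, ENNReal.ofReal (2 ^ ((k + 1) * p) * Real.exp (bb c / 2 * 2 ^ k)) *
        ENNReal.ofReal (T * A * (2 ^ (k * p) * Real.exp (-(bb c * 2 ^ k)))) := by
        refine Finset.sum_le_sum fun k hk => ?_
        simp only [Finset.mem_Icc] at hk
        gcongr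
        exact piece_moment h (by linarith) hT0 hc hC hp hk.1 ((kap_mono hL0 hk.2).trans hK1)
    _ = ENNReal.ofReal (∑ k ∈ Finset.Icc 2 K, (T * A * 2 ^ p) *
        ((2 : ℝ) ^ (k * (2 * p)) * Real.exp (-(bb c / 2 * 2 ^ k)))) := by
        rw [ENNReal.ofReal_sum_of_nonneg (fun k _ => by positivity)]
        refine Finset.sum_congr rfl fun k _ => ?_
        rw [← ENNReal.ofReal_mul (by positivity)]
        congr 1
        have e1 : Real.exp (-(bb c * 2 ^ k)) = Real.exp (-(bb c / 2 * 2 ^ k)) *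
            Real.exp (-(bb c / 2 * 2 ^ k)) := by rw [← Real.exp_add]; ring_nf
        have e2 : Real.exp (bb c / 2 * 2 ^ k) * Real.exp (-(bb c / 2 * 2 ^ k)) = 1 := by
          rw [← Real.exp_add]; simp
        have e3 : (2 : ℝ) ^ ((k + 1) * p) * 2 ^ (k * p) = 2 ^ p * 2 ^ (k * (2 * p)) := by
          rw [← pow_add, ← pow_add]; ring_nf
        rw [e1]
        calc 2 ^ ((k + 1) * p) * Real.exp (bb c / 2 * 2 ^ k) * (T * A * (2 ^ (k * p) *
              (Real.exp (-(bb c / 2 * 2 ^ k)) * Real.exp (-(bb c / 2 * 2 ^ k)))))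
            = (T * A) * ((2 : ℝ) ^ ((k + 1) * p) * 2 ^ (k * p)) * (Real.exp (bb c / 2 * 2 ^ k) *
              Real.exp (-(bb c / 2 * 2 ^ k))) * Real.exp (-(bb c / 2 * 2 ^ k)) := by ring
          _ = _ := by rw [e2, e3]; ring
    _ ≤ ENNReal.ofReal ((A * 2 ^ p * G + 1) * T) := by
        apply ENNReal.ofReal_le_ofReal
        rw [← Finset.mul_sum]
        have := geo_sum_le (2 * p) (b := bb c / 2) (by positivity) (Finset.Icc 2 K)
        calc T * A * 2 ^ p * ∑ k ∈ Finset.Icc 2 K, (2 : ℝ) ^ (k * (2 * p)) *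
              Real.exp (-(bb c / 2 * 2 ^ k)) ≤ T * A * 2 ^ p * G := by gcongr
          _ ≤ _ := by nlinarith

end Pool.Agent.PairCorr
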