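import Mathlib
import Pool.Agent.PairCorr.B_Weighted

/-!
The moment statement (B) from the mollified second moment bounds.
-/

set_option autoImplicit false

namespace Pool.Agent.PairCorr

open MeasureTheory Filter Topology Complex Set Metric Real ComplexConjugate
open scoped ENNReal

/-- Extended form of (A): mollifier bounds at every large height. -/
def StatementAX : Prop :=
  ∃ c : ℝ, 0 < c ∧ ∃ C : ℝ, 0 < C ∧ ∃ T₀ : ℝ, ∀ T : ℝ, T₀ ≤ T → ∃ Mo : ℂ → ℂ, MollCtx T c C Mo

open scoped Classical in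
/-- `Eloc` as a finite sum. -/
noncomputable def Gl (c T1 t : ℝ) : ℝ :=
  ∑ ρ ∈ (ZZ (4 * T1)).filter (fun ρ => |ρ.im - t| ≤ 1 / Real.log T1 ∧ True),
    (mult ρ : ℝ) * Real.exp (c * |ρ.re - 1 / 2| * Real.log T1)

lemma Gl_nonneg (c T1 t : ℝ) : 0 ≤ Gl c T1 t := by unfold Gl; positivity

lemma measurable_Gl (c T1 : ℝ) : Measurable (Gl c T1) := by
  unfold Gl
  exact measurable_window_sum _ _ _ _

lemma Eloc_eq_Gl {c T1 t : ℝ} (hL : 1 ≤ Real.log T1) (hT : 1 ≤ T1) (ht : |t| ≤ 3 * T1) :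
    Eloc c T1 t = Gl c T1 t := by
  classical
  unfold Eloc Gl
  have hset : {ρ : ℂ | ρ ∈ NTZ ∧ |ρ.im - t| ≤ 1 / Real.log T1} =
      ↑((ZZ (4 * T1)).filter (fun ρ => |ρ.im - t| ≤ 1 / Real.log T1 ∧ True)) := by
    ext ρ
    simp only [and_true, Finset.coe_filter, mem_ZZ, mem_ofPred_eq]
    constructor
    · rintro ⟨h1, h2⟩
      refine ⟨⟨h1, ?_⟩, h2⟩
      have h3 : 1 / Real.log T1 ≤ 1 := by
        rw [div_le_one (by linarith)]; exact hL
      have h4 : |ρ.im| ≤ |ρ.im - t| + |t| := by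
        have := abs_add_le (ρ.im - t) t
        simpa using this
      linarith
    · rintro ⟨⟨h1, -⟩, h2⟩
      exact ⟨h1, h2⟩
  rw [hset, finsum_mem_coe_finset]

/-- Symmetry of `Eloc`. -/
lemma Gl_neg (c T1 t : ℝ) : Gl c T1 (-t) = Gl c T1 t := by
  classical
  unfold Gl
  refine Finset.sum_bij' (fun ρ _ => conj ρ) (fun ρ _ => conj ρ) ?_ ?_ ?_ ?_ ?_
  · intro ρ hρ
    simp only [Finset.mem_filter, mem_ZZ, and_true] at hρ ⊢
    obtain ⟨⟨h1, h2⟩, h3⟩ := hρ
    refine ⟨⟨conj_mem_NTZ h1, by simpa using h2⟩, ?_⟩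
    simp only [conj_im]
    rw [← abs_neg]
    convert h3 using 2
    ring
  · intro ρ hρ
    simp only [Finset.mem_filter, mem_ZZ, and_true] at hρ ⊢
    obtain ⟨⟨h1, h2⟩, h3⟩ := hρ
    refine ⟨⟨conj_mem_NTZ h1, by simpa using h2⟩, ?_⟩
    simp only [conj_im]
    rw [← abs_neg]
    convert h3 using 2
    ring
  · intro ρ _; simp
  · intro ρ _; simp
  · intro ρ hρ
    simp only [Finset.mem_filter, mem_ZZ, and_true] at hρ
    rw [mult_conj hρ.1.1]
    simp

/-- Comparison with the count to the right of the line. -/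
lemma Gl_le_EP {c c0 T1 t : ℝ} (hc : 0 ≤ c) (hcc : c ≤ c0) (hL : 2 ≤ Real.log T1) (hT : 1 ≤ T1) :
    Gl c T1 t ≤ 2 * EP (4 * T1) c0 t := by
  classical
  have hlog4 : Real.log (4 * T1) = Real.log 4 + Real.log T1 :=
    Real.log_mul (by norm_num) (by linarith)
  have hl4 : Real.log 4 ≤ 2 := by
    have : Real.log 4 = 2 * Real.log 2 := by
      rw [show (4 : ℝ) = 2 ^ 2 by norm_num, Real.log_pow]; norm_num
    have := Real.log_two_lt_d9
    linarith
  have hl40 : 0 ≤ Real.log 4 := Real.log_nonneg (by norm_num)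
  have hLL : 1 / Real.log T1 ≤ 2 / Real.log (4 * T1) := by
    rw [div_le_div_iff₀ (by linarith) (by linarith)]
    linarith
  set W := (ZZ (4 * T1)).filter (fun ρ => |ρ.im - t| ≤ 1 / Real.log T1 ∧ True) with hW
  set w : ℂ → ℝ := fun ρ => (mult ρ : ℝ) * Real.exp (c * |ρ.re - 1 / 2| * Real.log T1) with hw
  have hw0 : ∀ ρ, 0 ≤ w ρ := fun ρ => by simp only [hw]; positivity
  have hsplit : Gl c T1 t = ∑ ρ ∈ W.filter (fun ρ => 1 / 2 ≤ ρ.re), w ρ +
      ∑ ρ ∈ W.filter (fun ρ => ¬ 1 / 2 ≤ ρ.re), w ρ := by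
    unfold Gl
    rw [Finset.sum_filter_add_sum_filter_not]
  have hright : ∑ ρ ∈ W.filter (fun ρ => 1 / 2 ≤ ρ.re), w ρ ≤ EP (4 * T1) c0 t := by
    unfold EP
    calc ∑ ρ ∈ W.filter (fun ρ => 1 / 2 ≤ ρ.re), w ρ
        ≤ ∑ ρ ∈ W.filter (fun ρ => 1 / 2 ≤ ρ.re), (mult ρ : ℝ) *
          Real.exp (c0 * (ρ.re - 1 / 2) * Real.log (4 * T1)) := by
          refine Finset.sum_le_sum fun ρ hρ => ?_
          simp only [Finset.mem_filter] at hρ
          simp only [hw]
          refine mul_le_mul_of_nonneg_left (Real.exp_le_exp.mpr ?_) (Nat.cast_nonneg _)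
          have h0 : 0 ≤ ρ.re - 1 / 2 := by linarith [hρ.2]
          rw [abs_of_nonneg h0]
          have : Real.log T1 ≤ Real.log (4 * T1) := by linarith
          have hc00 : 0 ≤ c0 := hc.trans hcc
          have : 0 ≤ c0 * (ρ.re - 1 / 2) := by positivity
          gcongr
      _ ≤ _ := by
          apply Finset.sum_le_sum_of_subset_of_nonneg
          · intro ρ hρ
            simp only [hW, Finset.mem_filter, and_true] at hρ ⊢
            exact ⟨hρ.1.1, hρ.1.2.trans hLL, hρ.2⟩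
          · intro ρ _ _
            positivity
  have hleft : ∑ ρ ∈ W.filter (fun ρ => ¬ 1 / 2 ≤ ρ.re), w ρ ≤
      ∑ ρ ∈ W.filter (fun ρ => 1 / 2 ≤ ρ.re), w ρ := by
    have hinj : Set.InjOn (fun ρ : ℂ => 1 - conj ρ) (W.filter (fun ρ => ¬ 1 / 2 ≤ ρ.re)) := by
      intro a _ b _ hab
      simp only at hab
      have : conj a = conj b := by linear_combination -hab
      exact (starRingEnd ℂ).injective this
    have hval : ∀ ρ ∈ W.filter (fun ρ => ¬ 1 / 2 ≤ ρ.re), w ρ = w (1 - conj ρ) := by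
      intro ρ hρ
      simp only [hW, Finset.mem_filter, mem_ZZ, and_true] at hρ
      simp only [hw]
      rw [mult_refl hρ.1.1.1]
      have : (1 - conj ρ).re - 1 / 2 = -(ρ.re - 1 / 2) := by simp; ring
      rw [this, abs_neg]
    rw [Finset.sum_congr rfl hval, ← Finset.sum_image (f := w) hinj]
    apply Finset.sum_le_sum_of_subset_of_nonneg
    · intro z hz
      simp only [Finset.mem_image] at hz
      obtain ⟨ρ, hρ, rfl⟩ := hz
      simp only [hW, Finset.mem_filter, mem_ZZ, and_true] at hρ ⊢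
      obtain ⟨⟨⟨h1, h2⟩, h3⟩, h4⟩ := hρ
      push Not at h4
      refine ⟨⟨⟨refl_mem_NTZ h1, ?_⟩, ?_⟩, ?_⟩
      · simpa using h2
      · simpa using h3
      · simp; linarith
    · intro ρ _ _
      exact hw0 ρ
  rw [hsplit]
  linarith

/-- Deterministic bound. -/
lemma Gl_le_det {c T1 t : ℝ} (hc : 0 ≤ c) (hL : 1 ≤ Real.log T1) :
    Gl c T1 t ≤ detC * Real.log (|t| + 2) * Real.exp (c / 2 * Real.log T1) := by
  classical
  have hdet := detC_pos
  calc Gl c T1 t ≤ ∑ ρ ∈ (ZZ (4 * T1)).filter (fun ρ => |ρ.im - t| ≤ 1 / Real.log T1 ∧ True),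
      (mult ρ : ℝ) * Real.exp (c / 2 * Real.log T1) := by
        unfold Gl
        refine Finset.sum_le_sum fun ρ hρ => ?_
        simp only [Finset.mem_filter, mem_ZZ] at hρ
        refine mul_le_mul_of_nonneg_left (Real.exp_le_exp.mpr ?_) (Nat.cast_nonneg _)
        have : |ρ.re - 1 / 2| ≤ 1 / 2 := by
          rw [abs_le]
          constructor <;> linarith [hρ.1.1.2.1, hρ.1.1.2.2]
        calc c * |ρ.re - 1 / 2| * Real.log T1 ≤ c * (1 / 2) * Real.log T1 := by gcongr
          _ = _ := by ring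
    _ = (∑ ρ ∈ (ZZ (4 * T1)).filter (fun ρ => |ρ.im - t| ≤ 1 / Real.log T1 ∧ True),
      (mult ρ : ℝ)) * Real.exp (c / 2 * Real.log T1) := by rw [Finset.sum_mul]
    _ ≤ _ := by
        gcongr
        apply det_count
        intro ρ hρ
        simp only [Finset.mem_filter, mem_ZZ, and_true] at hρ
        refine ⟨hρ.1.1, hρ.2.trans ?_⟩
        rw [div_le_one (by linarith)]
        exact hL

theorem statementB_of (hAX : StatementAX) : StatementB := by
  obtain ⟨cA, hcA, CA, hCA, TA, hA⟩ := hAX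
  intro p
  rcases Nat.eq_zero_or_pos p with hp0 | hp
  · refine ⟨1, one_pos, 6, by norm_num, 0, fun T hT => ?_⟩
    simp only [hp0, pow_zero]
    refine ⟨intervalIntegrable_const, ?_⟩
    rw [intervalIntegral.integral_const]
    simp only [smul_eq_mul, mul_one]
    linarith
  obtain ⟨c0, hc0, K, hK, hmom⟩ := EP_moment hcA hCA (p := p) hp
  have hpR : (0 : ℝ) < p := by exact_mod_cast hp
  have hdet := detC_pos
  set c : ℝ := min c0 (1 / p) with hc
  have hcpos : 0 < c := by positivity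
  have hcc0 : c ≤ c0 := min_le_left _ _
  have hcp : c * p ≤ 1 := by
    have : c ≤ 1 / p := min_le_right _ _
    rw [le_div_iff₀ hpR] at this
    exact this
  have hlog7 : 0 < Real.log 7 := Real.log_pos (by norm_num)
  set B : ℝ := 10 * (detC * Real.log 7) ^ p with hB
  have hBpos : 0 < B := by positivity
  refine ⟨c, hcpos, B + 2 * (2 ^ p * (4 * K)), by positivity, max (max TA 5) (Real.exp 9),
    fun T1 hT1 => ?_⟩
  have hTA : TA ≤ T1 := ((le_max_left _ _).trans (le_max_left _ _)).trans hT1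
  have hT5 : 5 ≤ T1 := ((le_max_right _ _).trans (le_max_left _ _)).trans hT1
  have hTe : Real.exp 9 ≤ T1 := (le_max_right _ _).trans hT1
  have hL9 : 9 ≤ Real.log T1 := by
    rw [← Real.log_exp 9]; exact Real.log_le_log (Real.exp_pos _) hTe
  have hT0 : 0 < T1 := by linarith
  obtain ⟨Mo, hMo⟩ := hA (4 * T1) (by linarith)
  have hL4 : 9 ≤ Real.log (4 * T1) := by
    rw [Real.log_mul (by norm_num) hT0.ne']
    have : 0 ≤ Real.log 4 := Real.log_nonneg (by norm_num)
    linarith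
  have hm := hmom (4 * T1) hL4 (by linarith) Mo hMo
  -- main range
  have hmain : ∫⁻ t in Icc 5 (3 * T1), ENNReal.ofReal ((Gl c T1 t) ^ p) ≤
      ENNReal.ofReal (2 ^ p * (4 * K) * T1) := by
    have hsub : Icc 5 (3 * T1) ⊆ DD (4 * T1) := by
      intro t ht
      exact ⟨ht.1, by linarith [ht.2]⟩
    calc ∫⁻ t in Icc 5 (3 * T1), ENNReal.ofReal ((Gl c T1 t) ^ p)
        ≤ ∫⁻ t in Icc 5 (3 * T1), ENNReal.ofReal (2 ^ p) *
          ENNReal.ofReal ((EP (4 * T1) c0 t) ^ p) := by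
          refine lintegral_mono fun t => ?_
          rw [← ENNReal.ofReal_mul (by positivity), ← mul_pow]
          apply ENNReal.ofReal_le_ofReal
          have h1 := Gl_le_EP (t := t) hcpos.le hcc0 (by linarith) (by linarith : 1 ≤ T1)
          have h0 := Gl_nonneg c T1 t
          gcongr
      _ ≤ ∫⁻ t in DD (4 * T1), ENNReal.ofReal (2 ^ p) *
          ENNReal.ofReal ((EP (4 * T1) c0 t) ^ p) := lintegral_mono_set hsub
      _ = ENNReal.ofReal (2 ^ p) * ∫⁻ t in DD (4 * T1),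
          ENNReal.ofReal ((EP (4 * T1) c0 t) ^ p) :=
          lintegral_const_mul _ ((measurable_EP _ _).pow_const p).ennreal_ofReal
      _ ≤ ENNReal.ofReal (2 ^ p) * ENNReal.ofReal (K * (4 * T1)) := by gcongr
      _ = _ := by
          rw [← ENNReal.ofReal_mul (by positivity)]
          congr 1; ring
  have hneg : ∫⁻ t in Icc (-(3 * T1)) (-5), ENNReal.ofReal ((Gl c T1 t) ^ p) =
      ∫⁻ t in Icc 5 (3 * T1), ENNReal.ofReal ((Gl c T1 t) ^ p) := by
    rw [← lintegral_indicator measurableSet_Icc, ← lintegral_indicator measurableSet_Icc,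
      ← lintegral_neg_eq_self (fun t => (Icc (-(3 * T1)) (-5)).indicator
        (fun t => ENNReal.ofReal ((Gl c T1 t) ^ p)) t)]
    congr 1
    funext t
    by_cases ht : t ∈ Icc 5 (3 * T1)
    · have : -t ∈ Icc (-(3 * T1)) (-5) := ⟨by linarith [ht.2], by linarith [ht.1]⟩
      rw [indicator_of_mem ht, indicator_of_mem this, Gl_neg]
    · have : -t ∉ Icc (-(3 * T1)) (-5) := by
        intro h'
        exact ht ⟨by linarith [h'.2], by linarith [h'.1]⟩
      rw [indicator_of_notMem ht, indicator_of_notMem this]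
  have hmid : ∫⁻ t in Icc (-5 : ℝ) 5, ENNReal.ofReal ((Gl c T1 t) ^ p) ≤
      ENNReal.ofReal (B * T1) := by
    have hpt : ∀ t ∈ Icc (-5 : ℝ) 5, ENNReal.ofReal ((Gl c T1 t) ^ p) ≤
        ENNReal.ofReal ((detC * Real.log 7) ^ p * T1) := by
      intro t ht
      apply ENNReal.ofReal_le_ofReal
      have h0 := Gl_nonneg c T1 t
      have h1 := Gl_le_det (t := t) hcpos.le (by linarith : 1 ≤ Real.log T1)
      have habs : |t| ≤ 5 := abs_le.mpr ht
      have h2 : Gl c T1 t ≤ detC * Real.log 7 * Real.exp (c / 2 * Real.log T1) := by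
        refine h1.trans ?_
        have : 0 < |t| + 2 := by positivity
        gcongr
        linarith
      calc (Gl c T1 t) ^ p ≤ (detC * Real.log 7 * Real.exp (c / 2 * Real.log T1)) ^ p := by gcongr
        _ = (detC * Real.log 7) ^ p * Real.exp (p * (c / 2 * Real.log T1)) := by
            rw [mul_pow, ← Real.exp_nat_mul]
        _ ≤ (detC * Real.log 7) ^ p * Real.exp (Real.log T1) := by
            refine mul_le_mul_of_nonneg_left (Real.exp_le_exp.mpr ?_) (by positivity)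
            nlinarith
        _ = _ := by rw [Real.exp_log hT0]
    calc ∫⁻ t in Icc (-5 : ℝ) 5, ENNReal.ofReal ((Gl c T1 t) ^ p)
        ≤ ∫⁻ _ in Icc (-5 : ℝ) 5, ENNReal.ofReal ((detC * Real.log 7) ^ p * T1) :=
          setLIntegral_mono measurable_const hpt
      _ = ENNReal.ofReal (B * T1) := by
          rw [setLIntegral_const, Real.volume_Icc, ← ENNReal.ofReal_mul (by positivity)]
          congr 1
          rw [hB]; ring
  have htotal : ∫⁻ t in Icc (-(3 * T1)) (3 * T1), ENNReal.ofReal ((Gl c T1 t) ^ p) ≤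
      ENNReal.ofReal ((B + 2 * (2 ^ p * (4 * K))) * T1) := by
    have hcover : Icc (-(3 * T1)) (3 * T1) ⊆ (Icc (-(3 * T1)) (-5) ∪ Icc (-5 : ℝ) 5) ∪
        Icc 5 (3 * T1) := by
      intro t ht
      rcases le_total t (-5) with h1 | h1
      · exact Or.inl (Or.inl ⟨ht.1, h1⟩)
      · rcases le_total t 5 with h2 | h2
        · exact Or.inl (Or.inr ⟨h1, h2⟩)
        · exact Or.inr ⟨h2, ht.2⟩
    calc ∫⁻ t in Icc (-(3 * T1)) (3 * T1), ENNReal.ofReal ((Gl c T1 t) ^ p)
        ≤ ∫⁻ t in (Icc (-(3 * T1)) (-5) ∪ Icc (-5 : ℝ) 5) ∪ Icc 5 (3 * T1),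
          ENNReal.ofReal ((Gl c T1 t) ^ p) := lintegral_mono_set hcover
      _ ≤ (∫⁻ t in Icc (-(3 * T1)) (-5) ∪ Icc (-5 : ℝ) 5, ENNReal.ofReal ((Gl c T1 t) ^ p)) +
          ∫⁻ t in Icc 5 (3 * T1), ENNReal.ofReal ((Gl c T1 t) ^ p) :=
          lintegral_union_le _ _ _
      _ ≤ ((∫⁻ t in Icc (-(3 * T1)) (-5), ENNReal.ofReal ((Gl c T1 t) ^ p)) +
          ∫⁻ t in Icc (-5 : ℝ) 5, ENNReal.ofReal ((Gl c T1 t) ^ p)) +
          ∫⁻ t in Icc 5 (3 * T1), ENNReal.ofReal ((Gl c T1 t) ^ p) := by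
          gcongr
          exact lintegral_union_le _ _ _
      _ ≤ (ENNReal.ofReal (2 ^ p * (4 * K) * T1) + ENNReal.ofReal (B * T1)) +
          ENNReal.ofReal (2 ^ p * (4 * K) * T1) := by
          rw [hneg]
          gcongr
      _ = _ := by
          rw [← ENNReal.ofReal_add (by positivity) (by positivity),
            ← ENNReal.ofReal_add (by positivity) (by positivity)]
          congr 1; ring
  have hmeasG : Measurable (fun t => (Gl c T1 t) ^ p) := (measurable_Gl c T1).pow_const p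
  have hintG : IntegrableOn (fun t => (Gl c T1 t) ^ p) (Icc (-(3 * T1)) (3 * T1)) := by
    refine ⟨hmeasG.aestronglyMeasurable, ?_⟩
    rw [hasFiniteIntegral_iff_ofReal (Eventually.of_forall fun t => by
      have := Gl_nonneg c T1 t; positivity)]
    exact htotal.trans_lt ENNReal.ofReal_lt_top
  have hcongr : EqOn (fun t => Eloc c T1 t ^ p) (fun t => (Gl c T1 t) ^ p)
      (Icc (-(3 * T1)) (3 * T1)) := by
    intro t ht
    simp only
    rw [Eloc_eq_Gl (by linarith) (by linarith) (abs_le.mpr ht)]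
  have hintE : IntegrableOn (fun t => Eloc c T1 t ^ p) (Icc (-(3 * T1)) (3 * T1)) :=
    hintG.congr_fun hcongr.symm measurableSet_Icc
  refine ⟨?_, ?_⟩
  · rw [intervalIntegrable_iff_integrableOn_Icc_of_le (by linarith)]
    exact hintE
  · rw [intervalIntegral.integral_of_le (by linarith), ← integral_Icc_eq_integral_Ioc,
      setIntegral_congr_fun measurableSet_Icc hcongr,
      integral_eq_lintegral_of_nonneg_ae (Eventually.of_forall fun t => by
        have := Gl_nonneg c T1 t; positivity) hmeasG.aestronglyMeasurable]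
    refine (ENNReal.toReal_mono ENNReal.ofReal_ne_top htotal).trans ?_
    rw [ENNReal.toReal_ofReal (by positivity)]

end Pool.Agent.PairCorr
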