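import Mathlib
import Pool.Agent.PairCorr.AreaLog

/-!
The completed zeta function as an entire function, and Jensen's formula on large circles.
-/

set_option autoImplicit false

namespace Pool.Agent.PairCorr.ERV

open MeasureTheory Filter Topology Complex Set Metric Real MeromorphicOn

/-- The entire function `z (z-1) Λ(z)`. -/
noncomputable def Xi (z : ℂ) : ℂ := z * (z - 1) * completedRiemannZeta₀ z + 1

lemma differentiable_Xi : Differentiable ℂ Xi := by
  unfold Xi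
  have := differentiable_completedZeta₀
  fun_prop

lemma Xi_one_sub (z : ℂ) : Xi (1 - z) = Xi z := by
  unfold Xi
  rw [completedRiemannZeta₀_one_sub]
  ring

/-- The nonvanishing factor. -/
noncomputable def gfac (z : ℂ) : ℂ := 2 * (Real.pi : ℂ) ^ (-z / 2) * Complex.Gamma (z / 2 + 1)

lemma Gamma_half_ne_zero {z : ℂ} (hz : -2 < z.re) : Complex.Gamma (z / 2 + 1) ≠ 0 := by
  apply Complex.Gamma_ne_zero_of_re_pos
  have : (z / 2 + 1).re = z.re / 2 + 1 := by simp
  rw [this]; linarith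

lemma gfac_ne_zero {z : ℂ} (hz : -2 < z.re) : gfac z ≠ 0 := by
  unfold gfac
  refine mul_ne_zero (mul_ne_zero two_ne_zero ?_) (Gamma_half_ne_zero hz)
  rw [Ne, Complex.cpow_eq_zero_iff]
  have : (Real.pi : ℂ) ≠ 0 := by exact_mod_cast Real.pi_ne_zero
  tauto

lemma Xi_eq {z : ℂ} (hz : -2 < z.re) : Xi z = gfac z * riemannZeta₁ z := by
  by_cases h1 : z = 1
  · subst h1
    unfold Xi gfac
    rw [riemannZeta₁_one]
    have e1 : ((1 : ℂ) / 2 + 1) = 3 / 2 := by norm_num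
    have e2 : Complex.Gamma (1 / 2 + 1) = (1 / 2) * Complex.Gamma (1 / 2) :=
      Complex.Gamma_add_one _ (by norm_num)
    rw [e2, Complex.Gamma_one_half_eq]
    have hpi : (Real.pi : ℂ) ≠ 0 := by exact_mod_cast Real.pi_ne_zero
    have e3 : (Real.pi : ℂ) ^ (-(1 : ℂ) / 2) * (Real.pi : ℂ) ^ ((1 : ℂ) / 2) = 1 := by
      rw [← Complex.cpow_add _ _ hpi]
      norm_num
    linear_combination -e3
  · have h := riemannZeta_eq_mul_completedRiemannZeta₀ z
    have hG := Gamma_half_ne_zero hz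
    have hpi : (Real.pi : ℂ) ^ (-z / 2) ≠ 0 := by
      rw [Ne, Complex.cpow_eq_zero_iff]
      have : (Real.pi : ℂ) ≠ 0 := by exact_mod_cast Real.pi_ne_zero
      tauto
    have hz1 : (1 : ℂ) - z ≠ 0 := sub_ne_zero.mpr (Ne.symm h1)
    rw [zeta1_eq_mul h1, h]
    unfold Xi gfac
    generalize Complex.Gamma (z / 2 + 1) = G at hG
    generalize (Real.pi : ℂ) ^ (-z / 2) = P at hpi
    field_simp
    ring

lemma analyticAt_gfac {z : ℂ} (hz : -2 < z.re) : AnalyticAt ℂ gfac z := by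
  rw [Complex.analyticAt_iff_eventually_differentiableAt]
  have hopen : {s : ℂ | -2 < s.re} ∈ 𝓝 z :=
    (isOpen_lt continuous_const continuous_re).mem_nhds hz
  filter_upwards [hopen] with s hs
  have hs' : -2 < s.re := hs
  have hpi : (Real.pi : ℂ) ≠ 0 := by exact_mod_cast Real.pi_ne_zero
  have h5 : DifferentiableAt ℂ (fun s : ℂ => (Real.pi : ℂ) ^ (-s / 2)) s := by
    apply DifferentiableAt.const_cpow _ (Or.inl hpi)
    fun_prop
  have h6 : DifferentiableAt ℂ (fun s : ℂ => Complex.Gamma (s / 2 + 1)) s := by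
    refine DifferentiableAt.comp (g := Complex.Gamma) s
      (Complex.differentiableAt_Gamma _ fun m hm => ?_) (by fun_prop)
    have := congrArg Complex.re hm
    simp at this
    have h3 : (0 : ℝ) ≤ m := Nat.cast_nonneg m
    linarith
  unfold gfac
  fun_prop

lemma order_Xi {ρ : ℂ} (hρ : ρ ∈ NTZ) : analyticOrderNatAt Xi ρ = mult ρ := by
  rw [← analyticOrderNatAt_zeta1 (ne_one_of_mem_NTZ hρ)]
  unfold analyticOrderNatAt
  have hre : -2 < ρ.re := by linarith [hρ.2.1]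
  have hopen : {s : ℂ | -2 < s.re} ∈ 𝓝 ρ :=
    (isOpen_lt continuous_const continuous_re).mem_nhds hre
  have h1 : Xi =ᶠ[𝓝 ρ] fun z => gfac z * riemannZeta₁ z := by
    filter_upwards [hopen] with z hz
    exact Xi_eq hz
  rw [analyticOrderAt_congr h1]
  have h3 : analyticOrderAt gfac ρ = 0 :=
    (analyticAt_gfac hre).analyticOrderAt_eq_zero.mpr (gfac_ne_zero hre)
  have h4 : analyticOrderAt (fun z : ℂ => gfac z * riemannZeta₁ z) ρ =
      analyticOrderAt gfac ρ + analyticOrderAt riemannZeta₁ ρ :=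
    analyticOrderAt_mul (analyticAt_gfac hre) (differentiable_riemannZeta₁.analyticAt ρ)
  rw [h4, h3, zero_add]

lemma Xi_ne_zero_right {z : ℂ} (hz : 1 ≤ z.re) : Xi z ≠ 0 := by
  rw [Xi_eq (by linarith)]
  refine mul_ne_zero (gfac_ne_zero (by linarith)) ?_
  by_cases h1 : z = 1
  · rw [h1, riemannZeta₁_one]; exact one_ne_zero
  · rw [zeta1_eq_mul h1]
    exact mul_ne_zero (sub_ne_zero.mpr h1) (riemannZeta_ne_zero_of_one_le_re hz)

lemma Xi_ne_zero_left {z : ℂ} (hz : z.re ≤ 0) : Xi z ≠ 0 := by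
  rw [← Xi_one_sub]
  exact Xi_ne_zero_right (by simpa using hz)

lemma Xi_eq_zero_iff {z : ℂ} : Xi z = 0 ↔ z ∈ NTZ := by
  constructor
  · intro h
    have h0 : 0 < z.re := by
      by_contra hcon
      exact Xi_ne_zero_left (not_lt.mp hcon) h
    have h1 : z.re < 1 := by
      by_contra hcon
      exact Xi_ne_zero_right (not_lt.mp hcon) h
    have hz1 : z ≠ 1 := by intro h'; rw [h'] at h1; simp at h1
    rw [Xi_eq (by linarith), zeta1_eq_mul hz1] at h
    rcases mul_eq_zero.mp h with h' | h'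
    · exact absurd h' (gfac_ne_zero (by linarith))
    · rcases mul_eq_zero.mp h' with h'' | h''
      · exact absurd (sub_eq_zero.mp h'') hz1
      · exact ⟨h'', h0, h1⟩
  · intro h
    rw [Xi_eq (by linarith [h.2.1]), zeta1_eq_mul (ne_one_of_mem_NTZ h), h.1]
    simp

lemma finite_NTZ_ball (R : ℝ) : ({ρ : ℂ | ρ ∈ NTZ ∧ ‖ρ - 2‖ ≤ R}).Finite := by
  refine (finite_NTZ_window 0 R).subset ?_
  rintro ρ ⟨h1, h2⟩
  refine ⟨h1, ?_⟩
  have := (Complex.abs_im_le_norm (ρ - 2)).trans h2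
  simpa using this

/-- The nontrivial zeros in the disc of radius `R` about `2`. -/
noncomputable def SR (R : ℝ) : Finset ℂ := (finite_NTZ_ball R).toFinset

lemma mem_SR {R : ℝ} {ρ : ℂ} : ρ ∈ SR R ↔ ρ ∈ NTZ ∧ ‖ρ - 2‖ ≤ R := by
  unfold SR; simp

/-- The circle average of `log ‖Xi‖`. -/
noncomputable def Jx (R : ℝ) : ℝ := circleAverage (fun z => Real.log ‖Xi z‖) 2 R

/-- Jensen's formula on circles centred at `2`. -/
theorem Jx_eq {R : ℝ} (hR : 0 < R) :
    Jx R = ∑ ρ ∈ SR R, (mult ρ : ℝ) * Real.log (R * ‖2 - ρ‖⁻¹) + Real.log ‖Xi 2‖ := by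
  have hRabs : |R| = R := abs_of_pos hR
  have han : AnalyticOnNhd ℂ Xi (closedBall 2 |R|) := fun z _ => differentiable_Xi.analyticAt z
  have h2 : Xi 2 ≠ 0 := Xi_ne_zero_right (by simp)
  unfold Jx
  rw [han.circleAverage_log_norm hR.ne' h2, hRabs]
  congr 1
  have hfs : (fun u => ((divisor Xi (closedBall 2 R) u : ℤ) : ℝ) * Real.log (R * ‖2 - u‖⁻¹)).support ⊆
      ↑(SR R) := by
    intro u hu
    simp only [Function.mem_support] at hu
    have hD : divisor Xi (closedBall 2 R) u ≠ 0 := by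
      intro h; apply hu; rw [h]; simp
    have hmem : u ∈ closedBall (2 : ℂ) R := by
      by_contra hcon
      exact hD (Function.locallyFinsuppWithin.apply_eq_zero_of_notMem _ hcon)
    have hzero : Xi u = 0 := by
      by_contra hcon
      apply hD
      have hanR : AnalyticOnNhd ℂ Xi (closedBall 2 R) := fun z _ => differentiable_Xi.analyticAt z
      rw [hanR.divisor_apply hmem, (differentiable_Xi.analyticAt u).analyticOrderAt_eq_zero.mpr hcon]
      simp
    rw [Finset.mem_coe, mem_SR]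
    refine ⟨Xi_eq_zero_iff.mp hzero, ?_⟩
    rwa [mem_closedBall, dist_eq_norm] at hmem
  rw [finsum_eq_sum_of_support_subset _ hfs]
  refine Finset.sum_congr rfl fun ρ hρ => ?_
  obtain ⟨h1, h3⟩ := mem_SR.mp hρ
  congr 1
  have hanR : AnalyticOnNhd ℂ Xi (closedBall 2 R) := fun z _ => differentiable_Xi.analyticAt z
  have hmem : ρ ∈ closedBall (2 : ℂ) R := by rwa [mem_closedBall, dist_eq_norm]
  rw [hanR.divisor_apply hmem, ← order_Xi h1]
  unfold analyticOrderNatAt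
  generalize analyticOrderAt Xi ρ = n
  induction n using ENat.recTopCoe <;> simp

/-- The number of nontrivial zeros in the disc. -/
noncomputable def nR (R : ℝ) : ℝ := ∑ ρ ∈ SR R, (mult ρ : ℝ)

lemma norm_two_sub_pos {ρ : ℂ} (h : ρ ∈ NTZ) : 0 < ‖2 - ρ‖ := by
  rw [norm_pos_iff, sub_ne_zero]
  intro h2
  have := h.2.2
  rw [← h2] at this
  simp at this

lemma Jx_diff_ge {R R' : ℝ} (hR : 0 < R) (hRR : R ≤ R') :
    Real.log (R' / R) * nR R ≤ Jx R' - Jx R := by
  have hR' : 0 < R' := hR.trans_le hRR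
  rw [Jx_eq hR, Jx_eq hR']
  have hsub : SR R ⊆ SR R' := by
    intro ρ hρ
    rw [mem_SR] at hρ ⊢
    exact ⟨hρ.1, hρ.2.trans hRR⟩
  have h1 : ∑ ρ ∈ SR R, (mult ρ : ℝ) * Real.log (R' * ‖2 - ρ‖⁻¹) ≤
      ∑ ρ ∈ SR R', (mult ρ : ℝ) * Real.log (R' * ‖2 - ρ‖⁻¹) := by
    apply Finset.sum_le_sum_of_subset_of_nonneg hsub
    intro ρ hρ _
    rw [mem_SR] at hρ
    have h2 := norm_two_sub_pos hρ.1
    refine mul_nonneg (Nat.cast_nonneg _) (Real.log_nonneg ?_)
    rw [← div_eq_mul_inv, one_le_div h2, norm_sub_rev]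
    exact hρ.2
  have h2 : Real.log (R' / R) * nR R = ∑ ρ ∈ SR R, (mult ρ : ℝ) * Real.log (R' * ‖2 - ρ‖⁻¹) -
      ∑ ρ ∈ SR R, (mult ρ : ℝ) * Real.log (R * ‖2 - ρ‖⁻¹) := by
    unfold nR
    rw [← Finset.sum_sub_distrib, Finset.mul_sum]
    refine Finset.sum_congr rfl fun ρ hρ => ?_
    rw [mem_SR] at hρ
    have h2 := norm_two_sub_pos hρ.1
    rw [Real.log_mul hR'.ne' (by positivity), Real.log_mul hR.ne' (by positivity),
      Real.log_div hR'.ne' hR.ne']
    ring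
  linarith

lemma Jx_diff_le {R R' : ℝ} (hR : 0 < R) (hRR : R ≤ R') :
    Jx R' - Jx R ≤ Real.log (R' / R) * nR R' := by
  have hR' : 0 < R' := hR.trans_le hRR
  rw [Jx_eq hR, Jx_eq hR']
  have hsub : SR R ⊆ SR R' := by
    intro ρ hρ
    rw [mem_SR] at hρ ⊢
    exact ⟨hρ.1, hρ.2.trans hRR⟩
  have h1 : ∑ ρ ∈ SR R', (mult ρ : ℝ) * Real.log (R' * ‖2 - ρ‖⁻¹) -
      Real.log (R' / R) * nR R' ≤ ∑ ρ ∈ SR R, (mult ρ : ℝ) * Real.log (R * ‖2 - ρ‖⁻¹) := by
    unfold nR
    rw [Finset.mul_sum, ← Finset.sum_sub_distrib]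
    have e : ∀ ρ ∈ SR R', (mult ρ : ℝ) * Real.log (R' * ‖2 - ρ‖⁻¹) -
        Real.log (R' / R) * (mult ρ : ℝ) = (mult ρ : ℝ) * Real.log (R * ‖2 - ρ‖⁻¹) := by
      intro ρ hρ
      rw [mem_SR] at hρ
      have h2 := norm_two_sub_pos hρ.1
      rw [Real.log_mul hR'.ne' (by positivity), Real.log_mul hR.ne' (by positivity),
        Real.log_div hR'.ne' hR.ne']
      ring
    rw [Finset.sum_congr rfl e, ← Finset.sum_sdiff hsub]
    have h3 : ∑ ρ ∈ SR R' \ SR R, (mult ρ : ℝ) * Real.log (R * ‖2 - ρ‖⁻¹) ≤ 0 := by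
      apply Finset.sum_nonpos
      intro ρ hρ
      simp only [Finset.mem_sdiff, mem_SR, not_and, not_le] at hρ
      have h2 := norm_two_sub_pos hρ.1.1
      refine mul_nonpos_of_nonneg_of_nonpos (Nat.cast_nonneg _) (Real.log_nonpos (by positivity) ?_)
      rw [← div_eq_mul_inv, div_le_one h2, norm_sub_rev]
      exact (hρ.2 hρ.1.1).le
    linarith
  linarith

lemma Jx_mono {R R' : ℝ} (hR : 0 < R) (hRR : R ≤ R') : Jx R ≤ Jx R' := by
  have h1 := Jx_diff_ge hR hRR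
  have h2 : 0 ≤ Real.log (R' / R) := Real.log_nonneg (by rw [le_div_iff₀ hR]; linarith)
  have h3 : 0 ≤ nR R := by unfold nR; positivity
  nlinarith [mul_nonneg h2 h3]

end Pool.Agent.PairCorr.ERV
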