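import Mathlib
import Pool.Agent.PairCorr.E_Xi

/-!
Crude Stirling bounds and the size of `Xi` on large circles.
-/

set_option autoImplicit false

namespace Pool.Agent.PairCorr.ERV

open MeasureTheory Filter Topology Complex Set Metric Real

/-- `Γ(x+1) ≤ 2 (2x)^x e^{-x}`. -/
lemma Gamma_add_one_le {x : ℝ} (hx : 0 < x) :
    Real.Gamma (x + 1) ≤ 2 * (Real.exp (x * Real.log (2 * x) - x)) := by
  rw [Real.Gamma_eq_integral (by linarith)]
  have hint : IntegrableOn (fun t : ℝ => Real.exp (x * Real.log (2 * x) - x) *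
      Real.exp (-(1 / 2) * t)) (Ioi 0) := by
    apply Integrable.const_mul
    have := integrableOn_exp_mul_Ioi (a := -(1 / 2)) (by norm_num) 0
    exact this
  calc ∫ t in Ioi (0 : ℝ), Real.exp (-t) * t ^ (x + 1 - 1)
      ≤ ∫ t in Ioi (0 : ℝ), Real.exp (x * Real.log (2 * x) - x) * Real.exp (-(1 / 2) * t) := by
        refine setIntegral_mono_on (Real.GammaIntegral_convergent (by linarith)) hint
          measurableSet_Ioi fun t ht => ?_
        have ht0 : (0 : ℝ) < t := ht
        rw [add_sub_cancel_right, Real.rpow_def_of_pos ht0, ← Real.exp_add, ← Real.exp_add]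
        apply Real.exp_le_exp.mpr
        have h1 := Real.log_le_sub_one_of_pos (show 0 < t / (2 * x) by positivity)
        rw [Real.log_div ht0.ne' (by positivity)] at h1
        have h2 : x * (Real.log t - Real.log (2 * x)) ≤ x * (t / (2 * x) - 1) := by gcongr
        have h3 : x * (t / (2 * x) - 1) = t / 2 - x := by field_simp
        nlinarith
    _ = _ := by
        rw [integral_const_mul, integral_exp_mul_Ioi (by norm_num)]
        simp
        ring

/-- `Γ(x+1) ≥ x^x e^{-x}`. -/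
lemma Gamma_add_one_ge {x : ℝ} (hx : 0 < x) :
    Real.exp (x * Real.log x - x) ≤ Real.Gamma (x + 1) := by
  rw [Real.Gamma_eq_integral (by linarith)]
  have hint := Real.GammaIntegral_convergent (show 0 < x + 1 by linarith)
  have hint2 : IntegrableOn (fun t : ℝ => Real.exp (x * Real.log x) * Real.exp (-1 * t)) (Ioi x) := by
    apply Integrable.const_mul
    exact integrableOn_exp_mul_Ioi (a := -1) (by norm_num) x
  calc Real.exp (x * Real.log x - x)
      = ∫ t in Ioi x, Real.exp (x * Real.log x) * Real.exp (-1 * t) := by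
        rw [integral_const_mul, integral_exp_mul_Ioi (by norm_num), sub_eq_add_neg, Real.exp_add]
        simp
    _ ≤ ∫ t in Ioi x, Real.exp (-t) * t ^ (x + 1 - 1) := by
        refine setIntegral_mono_on hint2 (hint.mono_set (Ioi_subset_Ioi hx.le)) measurableSet_Ioi
          fun t ht => ?_
        have htx : x < t := ht
        have ht0 : (0 : ℝ) < t := hx.trans htx
        rw [add_sub_cancel_right, Real.rpow_def_of_pos ht0, mul_comm, neg_one_mul]
        refine mul_le_mul_of_nonneg_left (Real.exp_le_exp.mpr ?_) (Real.exp_pos _).le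
        rw [mul_comm (Real.log t)]
        exact mul_le_mul_of_nonneg_left (Real.log_le_log hx htx.le) hx.le
    _ ≤ ∫ t in Ioi (0 : ℝ), Real.exp (-t) * t ^ (x + 1 - 1) := by
        refine setIntegral_mono_set hint ?_ (Eventually.of_forall (Ioi_subset_Ioi hx.le))
        refine (ae_restrict_mem measurableSet_Ioi).mono fun t ht => ?_
        have ht0 : (0 : ℝ) < t := ht
        simp only [Pi.zero_apply]
        positivity

lemma xlog_ge {x r : ℝ} (hx : 0 < x) (hr : 0 < r) : x * Real.log r - r ≤ x * Real.log x := by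
  have h1 := Real.log_le_sub_one_of_pos (show 0 < r / x by positivity)
  rw [Real.log_div hr.ne' hx.ne'] at h1
  have h2 : x * (Real.log r - Real.log x) ≤ x * (r / x - 1) := by gcongr
  have h3 : x * (r / x - 1) = r - x := by field_simp
  nlinarith

/-- Norm of `gfac`. -/
lemma norm_gfac (z : ℂ) : ‖gfac z‖ = 2 * Real.pi ^ (-z.re / 2) *
    ‖Complex.Gamma (((z.re / 2 + 1 : ℝ) : ℂ) + ((z.im / 2 : ℝ) : ℂ) * Complex.I)‖ := by
  unfold gfac
  rw [norm_mul, norm_mul]
  have e1 : ‖(2 : ℂ)‖ = 2 := by simp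
  have e2 : ‖(Real.pi : ℂ) ^ (-z / 2)‖ = Real.pi ^ (-z.re / 2) := by
    rw [Complex.norm_cpow_eq_rpow_re_of_pos Real.pi_pos]
    congr 1
    have : (-z / 2 : ℂ) = ((-(1 / 2) : ℝ) : ℂ) * z := by push_cast; ring
    rw [this, Complex.re_ofReal_mul]; ring
  have e3 : z / 2 + 1 = ((z.re / 2 + 1 : ℝ) : ℂ) + ((z.im / 2 : ℝ) : ℂ) * Complex.I := by
    apply Complex.ext
    · simp
    · simp
  rw [e1, e2, e3]

/-- Upper bound for `log ‖Xi z‖` in `Re z ≥ 1/2`. -/
lemma exists_log_Xi_upper : ∃ C : ℝ, 0 < C ∧ ∀ z : ℂ, 1 / 2 ≤ z.re → 1 ≤ ‖z‖ →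
    Real.log ‖Xi z‖ ≤ z.re / 2 * Real.log ‖z‖ + C * ‖z‖ := by
  obtain ⟨C, hC1, hC⟩ := zeta1_growth
  have hlogC : 0 ≤ Real.log C := Real.log_nonneg hC1
  refine ⟨Real.log C + 50, by positivity, fun z hz hz1 => ?_⟩
  have hx : 0 < z.re / 2 := by linarith
  have hr : 0 < ‖z‖ := by linarith
  have hxr : z.re ≤ ‖z‖ := Complex.re_le_norm z
  have hlogr : 0 ≤ Real.log ‖z‖ := Real.log_nonneg hz1
  rcases (norm_nonneg (Xi z)).eq_or_lt' with h0 | h0
  · rw [h0, Real.log_zero]; positivity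
  have hXi : Xi z = gfac z * riemannZeta₁ z := Xi_eq (by linarith)
  rw [hXi, norm_mul] at h0 ⊢
  have hg0 : 0 < ‖gfac z‖ := norm_pos_iff.mpr (gfac_ne_zero (by linarith))
  have hz0 : 0 < ‖riemannZeta₁ z‖ := by
    by_contra hcon
    push Not at hcon
    nlinarith [norm_nonneg (riemannZeta₁ z)]
  rw [Real.log_mul hg0.ne' hz0.ne']
  have hG : ‖gfac z‖ ≤ 4 * Real.exp (z.re / 2 * Real.log (2 * (z.re / 2)) - z.re / 2) := by
    rw [norm_gfac]
    have h1 := norm_Gamma_le (x := z.re / 2 + 1) (by linarith) (z.im / 2)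
    have h2 := Gamma_add_one_le hx
    have h3 : Real.pi ^ (-z.re / 2) ≤ 1 := by
      refine Real.rpow_le_one_of_one_le_of_nonpos ?_ (by linarith)
      have := Real.pi_gt_three; linarith
    have h4 : 0 ≤ Real.pi ^ (-z.re / 2) := by positivity
    calc 2 * Real.pi ^ (-z.re / 2) *
        ‖Complex.Gamma (((z.re / 2 + 1 : ℝ) : ℂ) + ((z.im / 2 : ℝ) : ℂ) * Complex.I)‖
        ≤ 2 * 1 * (2 * Real.exp (z.re / 2 * Real.log (2 * (z.re / 2)) - z.re / 2)) := by
          gcongr
          exact h1.trans h2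
      _ = _ := by ring
  have hlg : Real.log ‖gfac z‖ ≤ Real.log 4 + (z.re / 2 * Real.log (2 * (z.re / 2)) - z.re / 2) := by
    refine (Real.log_le_log hg0 hG).trans ?_
    rw [Real.log_mul (by norm_num) (Real.exp_pos _).ne', Real.log_exp]
  have hlog4 : Real.log 4 ≤ 3 := by
    have := Real.log_le_sub_one_of_pos (show (0 : ℝ) < 4 by norm_num)
    linarith
  have h2x : 2 * (z.re / 2) = z.re := by ring
  rw [h2x] at hlg
  have hlx : Real.log z.re ≤ Real.log ‖z‖ := Real.log_le_log (by linarith) hxr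
  have hA : z.re / 2 * Real.log z.re ≤ z.re / 2 * Real.log ‖z‖ := by gcongr
  have hζ : Real.log ‖riemannZeta₁ z‖ ≤ Real.log C + 10 * Real.log (2 + ‖z‖) := by
    refine (Real.log_le_log hz0 (hC z (by linarith))).trans ?_
    rw [Real.log_mul (by positivity) (by positivity), Real.log_pow]
    norm_num
  have hl2 : Real.log (2 + ‖z‖) ≤ 2 + ‖z‖ - 1 := Real.log_le_sub_one_of_pos (by linarith)
  nlinarith

/-- Lower bound for `log ‖Xi z‖` in `Re z ≥ 1/2`. -/
lemma log_Xi_lower {z : ℂ} (hz : 1 / 2 ≤ z.re) (hz1 : 1 ≤ ‖z‖) :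
    z.re / 2 * Real.log ‖z‖ - 8 * ‖z‖ -
      (if z.re ≤ 4 then |Real.log ‖riemannZeta₁ z‖| else 0) ≤ Real.log ‖Xi z‖ := by
  have hx : 0 < z.re / 2 := by linarith
  have hr : 0 < ‖z‖ := by linarith
  have hxr : z.re ≤ ‖z‖ := Complex.re_le_norm z
  have hyr : |z.im| ≤ ‖z‖ := Complex.abs_im_le_norm z
  have hlogr : 0 ≤ Real.log ‖z‖ := Real.log_nonneg hz1
  have hXi : Xi z = gfac z * riemannZeta₁ z := Xi_eq (by linarith)
  by_cases h0 : riemannZeta₁ z = 0
  · -- a zero, so `Re z < 1`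
    have hX0 : Xi z = 0 := by rw [hXi, h0, mul_zero]
    have hN := Xi_eq_zero_iff.mp hX0
    rw [hX0, h0]
    simp only [norm_zero, Real.log_zero, abs_zero, ite_self, sub_zero]
    have h1 : z.re ≤ 1 := hN.2.2.le
    have h2 : Real.log ‖z‖ ≤ ‖z‖ - 1 := Real.log_le_sub_one_of_pos hr
    nlinarith
  have hz0 : 0 < ‖riemannZeta₁ z‖ := norm_pos_iff.mpr h0
  have hg0 : 0 < ‖gfac z‖ := norm_pos_iff.mpr (gfac_ne_zero (by linarith))
  rw [hXi, norm_mul, Real.log_mul hg0.ne' hz0.ne']
  have hG : Real.pi ^ (-z.re / 2) * (Real.exp (z.re / 2 * Real.log (z.re / 2) - z.re / 2) *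
      Real.exp (-(Real.pi * |z.im / 2| / 2))) ≤ ‖gfac z‖ := by
    rw [norm_gfac]
    have h1 := norm_Gamma_ge (x := z.re / 2 + 1) (by linarith) (z.im / 2)
    have h2 := Gamma_add_one_ge hx
    have h4 : 0 < Real.pi ^ (-z.re / 2) := by positivity
    have h5 : Real.exp (z.re / 2 * Real.log (z.re / 2) - z.re / 2) *
        Real.exp (-(Real.pi * |z.im / 2| / 2)) ≤
        ‖Complex.Gamma (((z.re / 2 + 1 : ℝ) : ℂ) + ((z.im / 2 : ℝ) : ℂ) * Complex.I)‖ :=
      le_trans (by gcongr) h1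
    calc Real.pi ^ (-z.re / 2) * (Real.exp (z.re / 2 * Real.log (z.re / 2) - z.re / 2) *
        Real.exp (-(Real.pi * |z.im / 2| / 2)))
        ≤ Real.pi ^ (-z.re / 2) *
          ‖Complex.Gamma (((z.re / 2 + 1 : ℝ) : ℂ) + ((z.im / 2 : ℝ) : ℂ) * Complex.I)‖ := by
          gcongr
      _ ≤ _ := by
          have := norm_nonneg (Complex.Gamma (((z.re / 2 + 1 : ℝ) : ℂ) +
            ((z.im / 2 : ℝ) : ℂ) * Complex.I))
          have h6 : 0 ≤ Real.pi ^ (-z.re / 2) *
            ‖Complex.Gamma (((z.re / 2 + 1 : ℝ) : ℂ) + ((z.im / 2 : ℝ) : ℂ) * Complex.I)‖ := by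
            positivity
          linarith
  have hlg : -z.re / 2 * Real.log Real.pi + (z.re / 2 * Real.log (z.re / 2) - z.re / 2) -
      Real.pi * |z.im / 2| / 2 ≤ Real.log ‖gfac z‖ := by
    refine le_trans (le_of_eq ?_) (Real.log_le_log (by positivity) hG)
    rw [Real.log_mul (by positivity) (by positivity), Real.log_mul (by positivity) (by positivity),
      Real.log_exp, Real.log_exp, Real.log_rpow Real.pi_pos]
    ring
  have hpi1 : Real.log Real.pi ≤ 3 := by
    have := Real.log_le_sub_one_of_pos Real.pi_pos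
    have := Real.pi_lt_four
    linarith
  have hpi0 : 0 ≤ Real.log Real.pi := Real.log_nonneg (by have := Real.pi_gt_three; linarith)
  have hxl := xlog_ge hx hr
  have hab : |z.im / 2| = |z.im| / 2 := by rw [abs_div]; simp
  rw [hab] at hlg
  have hpi4 := Real.pi_lt_four
  have hpi := Real.pi_pos
  have hb1 : Real.pi * (|z.im| / 2) / 2 ≤ ‖z‖ := by nlinarith [abs_nonneg z.im]
  have hb2 : z.re / 2 * Real.log Real.pi ≤ 3 * ‖z‖ := by nlinarith
  have hζ : -(if z.re ≤ 4 then |Real.log ‖riemannZeta₁ z‖| else 0) ≤ Real.log ‖riemannZeta₁ z‖ := by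
    split_ifs with h4
    · exact neg_abs_le _
    · push Not at h4
      rw [neg_zero]
      apply Real.log_nonneg
      have hne : z ≠ 1 := by intro h; rw [h] at h4; simp at h4
      rw [zeta1_eq_mul hne, norm_mul]
      have h5 : 3 ≤ ‖z - 1‖ := by
        have := Complex.re_le_norm (z - 1)
        simp at this
        linarith
      have h6 := one_third_lt_norm_zeta (s := z) (by linarith)
      nlinarith
  have e : -z.re / 2 * Real.log Real.pi = -(z.re / 2 * Real.log Real.pi) := by ring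
  rw [e] at hlg
  linarith

end Pool.Agent.PairCorr.ERV
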