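import Mathlib
import Pool.Agent.PairCorr.E_Size

/-!
The circle averages of `log ‖Xi‖`.
-/

set_option autoImplicit false

namespace Pool.Agent.PairCorr.ERV

open MeasureTheory Filter Topology Complex Set Metric Real
open scoped ENNReal

/-- Polar coordinates about `c`. -/
lemma lintegral_polar {F : ℂ → ℝ≥0∞} (hF : Measurable F) (c : ℂ) :
    ∫⁻ z, F z = ∫⁻ r in Ioi (0 : ℝ), ENNReal.ofReal r *
      ∫⁻ θ in Ioo 0 (2 * π), F (circleMap c r θ) := by
  set G : ℂ → ℝ≥0∞ := fun w => F (c - w) with hG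
  have hGm : Measurable G := hF.comp (measurable_const.sub measurable_id)
  have e1 : ∫⁻ z, F z = ∫⁻ w, G w := (lintegral_sub_left_eq_self _ c).symm
  rw [e1, ← Complex.lintegral_comp_polarCoord_symm]
  have htarget : polarCoord.target = Ioi (0 : ℝ) ×ˢ Ioo (-π) π := rfl
  rw [htarget, Measure.volume_eq_prod, setLIntegral_prod]
  swap
  · apply Measurable.aemeasurable
    simp only [smul_eq_mul]
    apply Measurable.mul
    · exact measurable_fst.ennreal_ofReal
    · have hps : (fun p : ℝ × ℝ => Complex.polarCoord.symm p) =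
          fun p : ℝ × ℝ => (p.1 : ℂ) * (Real.cos p.2 + Real.sin p.2 * Complex.I) :=
        funext fun p => Complex.polarCoord_symm_apply p
      have hm : Measurable (fun p : ℝ × ℝ => Complex.polarCoord.symm p) := by
        rw [hps]; fun_prop
      exact hGm.comp hm
  refine setLIntegral_congr_fun measurableSet_Ioi fun r hr => ?_
  have hr0 : (0 : ℝ) < r := hr
  have hsymm : ∀ θ : ℝ, c - Complex.polarCoord.symm (r, θ) = circleMap c r (θ + π) := by
    intro θ
    rw [Complex.polarCoord_symm_apply, circleMap]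
    push_cast
    rw [Complex.exp_mul_I, Complex.cos_add_pi, Complex.sin_add_pi]
    ring
  have : ∀ θ : ℝ, ENNReal.ofReal (r, θ).1 • G (Complex.polarCoord.symm (r, θ)) =
      ENNReal.ofReal r * F (circleMap c r (θ + π)) := by
    intro θ
    simp only [hG]
    rw [hsymm]
    simp
  simp only [this]
  rw [lintegral_const_mul]
  swap
  · exact hF.comp ((continuous_circleMap c r).comp (continuous_id.add continuous_const)).measurable
  congr 1
  rw [← lintegral_indicator measurableSet_Ioo, ← lintegral_indicator measurableSet_Ioo]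
  rw [← lintegral_add_right_eq_self (fun θ => (Ioo 0 (2 * π)).indicator
    (fun θ => F (circleMap c r θ)) θ) π]
  congr 1
  ext θ
  by_cases hθ : θ ∈ Ioo (-π) π
  · have : θ + π ∈ Ioo 0 (2 * π) := ⟨by linarith [hθ.1], by linarith [hθ.2]⟩
    rw [indicator_of_mem hθ, indicator_of_mem this]
  · have : θ + π ∉ Ioo 0 (2 * π) := by
      intro h'
      exact hθ ⟨by linarith [h'.1], by linarith [h'.2]⟩
    rw [indicator_of_notMem hθ, indicator_of_notMem this]

/-- `∫_0^{2π} |cos| = 4`. -/
lemma integral_abs_cos : ∫ θ in (0 : ℝ)..(2 * π), |Real.cos θ| = 4 := by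
  have hpi := Real.pi_pos
  have hint : ∀ a b : ℝ, IntervalIntegrable (fun θ => |Real.cos θ|) volume a b := fun a b =>
    (Real.continuous_cos.abs).intervalIntegrable a b
  rw [← intervalIntegral.integral_add_adjacent_intervals (hint 0 (π / 2)) (hint (π / 2) (2 * π)),
    ← intervalIntegral.integral_add_adjacent_intervals (hint (π / 2) (3 * π / 2))
      (hint (3 * π / 2) (2 * π))]
  have h1 : ∫ θ in (0 : ℝ)..(π / 2), |Real.cos θ| = 1 := by
    rw [intervalIntegral.integral_congr (g := Real.cos)]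
    · rw [integral_cos]; simp
    · intro θ hθ
      rw [uIcc_of_le (by linarith)] at hθ
      exact abs_of_nonneg (Real.cos_nonneg_of_neg_pi_div_two_le_of_le (by linarith [hθ.1]) hθ.2)
  have h2 : ∫ θ in (π / 2)..(3 * π / 2), |Real.cos θ| = 2 := by
    rw [intervalIntegral.integral_congr (g := fun θ => -Real.cos θ)]
    · rw [intervalIntegral.integral_neg, integral_cos]
      have : Real.sin (3 * π / 2) = -1 := by
        have : 3 * π / 2 = π / 2 + π := by ring
        rw [this, Real.sin_add_pi, Real.sin_pi_div_two]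
      rw [this, Real.sin_pi_div_two]
      norm_num
    · intro θ hθ
      rw [uIcc_of_le (by linarith)] at hθ
      exact abs_of_nonpos (Real.cos_nonpos_of_pi_div_two_le_of_le hθ.1 (by linarith [hθ.2]))
  have h3 : ∫ θ in (3 * π / 2)..(2 * π), |Real.cos θ| = 1 := by
    rw [intervalIntegral.integral_congr (g := Real.cos)]
    · rw [integral_cos]
      have : Real.sin (3 * π / 2) = -1 := by
        have : 3 * π / 2 = π / 2 + π := by ring
        rw [this, Real.sin_add_pi, Real.sin_pi_div_two]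
      rw [this, Real.sin_two_pi]
      norm_num
    · intro θ hθ
      rw [uIcc_of_le (by linarith)] at hθ
      refine abs_of_nonneg ?_
      have : Real.cos θ = Real.cos (θ - 2 * π) := (Real.cos_sub_two_pi θ).symm
      rw [this]
      exact Real.cos_nonneg_of_neg_pi_div_two_le_of_le (by linarith [hθ.1]) (by linarith [hθ.2])
  rw [h1, h2, h3]
  norm_num

/-- Reflected point with real part at least `1/2`. -/
noncomputable def rfl2 (z : ℂ) : ℂ := if 1 / 2 ≤ z.re then z else 1 - z

lemma Xi_rfl2 (z : ℂ) : Xi (rfl2 z) = Xi z := by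
  unfold rfl2
  split_ifs
  · rfl
  · exact Xi_one_sub z

lemma rfl2_re (z : ℂ) : (rfl2 z).re = 1 / 2 + |z.re - 1 / 2| := by
  unfold rfl2
  split_ifs with h
  · rw [abs_of_nonneg (by linarith)]; ring
  · push Not at h
    rw [abs_of_neg (by linarith)]
    simp
    ring

lemma norm_rfl2_le (z : ℂ) : ‖rfl2 z‖ ≤ ‖z - 2‖ + 3 := by
  unfold rfl2
  split_ifs with h
  · calc ‖z‖ = ‖(z - 2) + 2‖ := by ring_nf
      _ ≤ ‖z - 2‖ + ‖(2 : ℂ)‖ := norm_add_le _ _
      _ ≤ _ := by simp; norm_num
  · calc ‖1 - z‖ = ‖-(z - 2) + (-1 : ℂ)‖ := by ring_nf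
      _ ≤ ‖-(z - 2)‖ + ‖(-1 : ℂ)‖ := norm_add_le _ _
      _ ≤ _ := by rw [norm_neg]; simp; 

lemma norm_rfl2_ge (z : ℂ) : ‖z - 2‖ - 3 ≤ ‖rfl2 z‖ := by
  unfold rfl2
  split_ifs with h
  · have h1 : ‖z - 2‖ ≤ ‖z‖ + ‖(2 : ℂ)‖ := norm_sub_le _ _
    simp at h1
    linarith
  · have h1 : ‖z - 2‖ ≤ ‖z - 1‖ + ‖(1 : ℂ)‖ := by
      calc ‖z - 2‖ = ‖(z - 1) - 1‖ := by ring_nf
        _ ≤ _ := norm_sub_le _ _
    simp at h1
    rw [norm_sub_rev 1 z]
    linarith

/-- The error term near the critical strip. -/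
noncomputable def Ez (z : ℂ) : ℝ :=
  if (rfl2 z).re ≤ 4 then |Real.log ‖riemannZeta₁ (rfl2 z)‖| else 0

lemma Ez_nonneg (z : ℂ) : 0 ≤ Ez z := by
  unfold Ez; split_ifs <;> positivity

lemma measurable_rfl2 : Measurable rfl2 := by
  unfold rfl2
  refine Measurable.ite ?_ measurable_id (by fun_prop)
  exact measurableSet_le measurable_const Complex.measurable_re

lemma measurable_Ez : Measurable Ez := by
  unfold Ez
  refine Measurable.ite ?_ ?_ measurable_const
  · exact measurableSet_le (Complex.measurable_re.comp measurable_rfl2) measurable_const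
  · have h : Measurable (fun z : ℂ => |Real.log ‖riemannZeta₁ z‖|) := by
      have := differentiable_riemannZeta₁.continuous.measurable
      have h2 : Measurable fun z : ℂ => Real.log ‖riemannZeta₁ z‖ := this.norm.log
      exact h2.norm
    exact h.comp measurable_rfl2

/-- Upper bound on a circle. -/
lemma exists_Xi_circle_upper : ∃ C : ℝ, 0 < C ∧ ∀ R : ℝ, 10 ≤ R → ∀ z : ℂ, ‖z - 2‖ = R →
    Real.log ‖Xi z‖ ≤ |z.re - 2| / 2 * Real.log R + C * R := by
  obtain ⟨C, hC, h⟩ := exists_log_Xi_upper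
  refine ⟨2 * C + 10, by positivity, fun R hR z hz => ?_⟩
  have h1 : 1 / 2 ≤ (rfl2 z).re := by rw [rfl2_re]; linarith [abs_nonneg (z.re - 1 / 2)]
  have h2 := norm_rfl2_ge z
  have h3 := norm_rfl2_le z
  rw [hz] at h2 h3
  have h4 := h (rfl2 z) h1 (by linarith)
  rw [Xi_rfl2, rfl2_re] at h4
  have h5 : |z.re - 1 / 2| ≤ |z.re - 2| + 3 / 2 := by
    calc |z.re - 1 / 2| = |(z.re - 2) + 3 / 2| := by ring_nf
      _ ≤ |z.re - 2| + |(3 / 2 : ℝ)| := abs_add_le _ _
      _ = _ := by norm_num
  have h6 : |z.re - 2| ≤ R := by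
    have := Complex.abs_re_le_norm (z - 2)
    rw [hz] at this
    simpa using this
  have h7 : Real.log ‖rfl2 z‖ ≤ Real.log R + 3 / R := by
    have e1 : Real.log ‖rfl2 z‖ ≤ Real.log (R * (1 + 3 / R)) := by
      apply Real.log_le_log (by linarith)
      have : R * (1 + 3 / R) = R + 3 := by field_simp
      linarith
    rw [Real.log_mul (by positivity) (by positivity)] at e1
    have e2 := Real.log_le_sub_one_of_pos (show 0 < 1 + 3 / R by positivity)
    linarith
  have hlogR : 0 ≤ Real.log R := Real.log_nonneg (by linarith)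
  have hlogR2 : Real.log R ≤ R - 1 := Real.log_le_sub_one_of_pos (by linarith)
  have h8 : (1 / 2 + |z.re - 1 / 2|) / 2 * Real.log ‖rfl2 z‖ ≤
      (2 + |z.re - 2|) / 2 * (Real.log R + 3 / R) := by
    have : 0 ≤ Real.log ‖rfl2 z‖ := Real.log_nonneg (by linarith)
    apply mul_le_mul _ h7 this (by positivity)
    linarith
  have h9 : (2 + |z.re - 2|) / 2 * (Real.log R + 3 / R) ≤
      |z.re - 2| / 2 * Real.log R + (R + 3) := by
    have e1 : |z.re - 2| / 2 * (3 / R) ≤ 3 / 2 := by
      have : |z.re - 2| / 2 * (3 / R) ≤ R / 2 * (3 / R) := by gcongr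
      have e : R / 2 * (3 / R) = 3 / 2 := by field_simp
      linarith
    have e2 : 3 / R ≤ 1 := by rw [div_le_one (by linarith)]; linarith
    nlinarith
  have h10 : C * ‖rfl2 z‖ ≤ C * (2 * R) := by gcongr; linarith
  linarith

/-- Lower bound on a circle. -/
lemma Xi_circle_lower {R : ℝ} (hR : 10 ≤ R) {z : ℂ} (hz : ‖z - 2‖ = R) :
    |z.re - 2| / 2 * Real.log R - 20 * R - Ez z ≤ Real.log ‖Xi z‖ := by
  have h1 : 1 / 2 ≤ (rfl2 z).re := by rw [rfl2_re]; linarith [abs_nonneg (z.re - 1 / 2)]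
  have h2 := norm_rfl2_ge z
  have h3 := norm_rfl2_le z
  rw [hz] at h2 h3
  have h4 := log_Xi_lower h1 (by linarith)
  rw [Xi_rfl2] at h4
  have hE : Ez z = if (rfl2 z).re ≤ 4 then |Real.log ‖riemannZeta₁ (rfl2 z)‖| else 0 := rfl
  rw [← hE, rfl2_re] at h4
  have h5 : |z.re - 2| ≤ |z.re - 1 / 2| + 3 / 2 := by
    calc |z.re - 2| = |(z.re - 1 / 2) + (-3 / 2)| := by ring_nf
      _ ≤ |z.re - 1 / 2| + |(-3 / 2 : ℝ)| := abs_add_le _ _
      _ = _ := by norm_num [abs_div]
  have h6 : |z.re - 2| ≤ R := by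
    have := Complex.abs_re_le_norm (z - 2)
    rw [hz] at this
    simpa using this
  have h7 : Real.log R - 6 / R ≤ Real.log ‖rfl2 z‖ := by
    have e1 : Real.log (R / (1 + 6 / R)) ≤ Real.log ‖rfl2 z‖ := by
      apply Real.log_le_log (by positivity)
      refine le_trans ?_ h2
      rw [div_le_iff₀ (by positivity)]
      have : (R - 3) * (1 + 6 / R) = R + 3 - 18 / R := by field_simp; ring
      rw [this]
      have : 18 / R ≤ 3 := by rw [div_le_iff₀ (by linarith)]; linarith
      linarith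
    rw [Real.log_div (by positivity) (by positivity)] at e1
    have e2 := Real.log_le_sub_one_of_pos (show 0 < 1 + 6 / R by positivity)
    linarith
  have hlogR : 0 ≤ Real.log R := Real.log_nonneg (by linarith)
  have hlogR2 : Real.log R ≤ R - 1 := Real.log_le_sub_one_of_pos (by linarith)
  have hlogr : 0 ≤ Real.log ‖rfl2 z‖ := Real.log_nonneg (by linarith)
  have h8 : (|z.re - 2| - 1) / 2 * Real.log ‖rfl2 z‖ ≤
      (1 / 2 + |z.re - 1 / 2|) / 2 * Real.log ‖rfl2 z‖ := by
    gcongr
    linarith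
  have h9 : |z.re - 2| / 2 * (Real.log R - 6 / R) ≤ |z.re - 2| / 2 * Real.log ‖rfl2 z‖ := by
    gcongr
  have h10 : |z.re - 2| / 2 * (6 / R) ≤ 3 := by
    have : |z.re - 2| / 2 * (6 / R) ≤ R / 2 * (6 / R) := by gcongr
    have e : R / 2 * (6 / R) = 3 := by field_simp; norm_num
    linarith
  have h11 : Real.log ‖rfl2 z‖ ≤ 2 * R := by
    have := Real.log_le_sub_one_of_pos (show 0 < ‖rfl2 z‖ by linarith)
    linarith
  nlinarith

lemma circleInt_Xi (R : ℝ) : IntervalIntegrable (fun θ => Real.log ‖Xi (circleMap 2 R θ)‖)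
    volume 0 (2 * π) := by
  have hci : CircleIntegrable (fun z => Real.log ‖Xi z‖) 2 R := by
    refine MeromorphicOn.circleIntegrable_log_norm ?_
    exact fun z _ => (differentiable_Xi.analyticAt z).meromorphicAt
  exact hci

lemma Jx_eq_integral (R : ℝ) : Jx R = (2 * π)⁻¹ *
    ∫ θ in (0 : ℝ)..(2 * π), Real.log ‖Xi (circleMap 2 R θ)‖ := by
  unfold Jx
  rw [circleAverage_def]
  simp

lemma circleMap_re_sub (R θ : ℝ) : (circleMap 2 R θ).re - 2 = R * Real.cos θ := by
  simp [circleMap, Complex.exp_ofReal_mul_I_re]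

lemma norm_circleMap_sub {R : ℝ} (hR : 0 ≤ R) (θ : ℝ) : ‖circleMap 2 R θ - 2‖ = R := by
  simp [circleMap, abs_of_nonneg hR]

/-- Upper bound for the circle average. -/
lemma exists_Jx_upper : ∃ C : ℝ, 0 < C ∧ ∀ R : ℝ, 10 ≤ R →
    Jx R ≤ R / π * Real.log R + C * R := by
  obtain ⟨C, hC, h⟩ := exists_Xi_circle_upper
  refine ⟨C, hC, fun R hR => ?_⟩
  have hpi := Real.pi_pos
  rw [Jx_eq_integral]
  have h1 : ∫ θ in (0 : ℝ)..(2 * π), Real.log ‖Xi (circleMap 2 R θ)‖ ≤
      ∫ θ in (0 : ℝ)..(2 * π), (R / 2 * Real.log R * |Real.cos θ| + C * R) := by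
    apply intervalIntegral.integral_mono_on (by positivity) (circleInt_Xi R)
    · apply Continuous.intervalIntegrable
      fun_prop
    · intro θ _
      have := h R hR (circleMap 2 R θ) (norm_circleMap_sub (by linarith) θ)
      rw [circleMap_re_sub, abs_mul, abs_of_nonneg (show 0 ≤ R by linarith)] at this
      linarith
  have h2 : ∫ θ in (0 : ℝ)..(2 * π), (R / 2 * Real.log R * |Real.cos θ| + C * R) =
      R / 2 * Real.log R * 4 + 2 * π * (C * R) := by
    rw [intervalIntegral.integral_add, intervalIntegral.integral_const_mul, integral_abs_cos]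
    · simp; ring
    · apply Continuous.intervalIntegrable; fun_prop
    · apply Continuous.intervalIntegrable; fun_prop
  rw [h2] at h1
  calc (2 * π)⁻¹ * ∫ θ in (0 : ℝ)..(2 * π), Real.log ‖Xi (circleMap 2 R θ)‖
      ≤ (2 * π)⁻¹ * (R / 2 * Real.log R * 4 + 2 * π * (C * R)) := by gcongr
    _ = _ := by field_simp; ring

/-- Lower bound for the circle average, with the error term. -/
lemma Jx_lower {R : ℝ} (hR : 10 ≤ R) {K : ℝ} (hK : 0 ≤ K)
    (hE : ∫⁻ θ in Ioo 0 (2 * π), ENNReal.ofReal (Ez (circleMap 2 R θ)) ≤ ENNReal.ofReal K) :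
    R / π * Real.log R - 20 * R - K ≤ Jx R := by
  have hpi := Real.pi_pos
  have hmeas : Measurable fun θ => Ez (circleMap 2 R θ) :=
    measurable_Ez.comp (continuous_circleMap 2 R).measurable
  have hEint : IntegrableOn (fun θ => Ez (circleMap 2 R θ)) (Ioo 0 (2 * π)) := by
    refine ⟨hmeas.aestronglyMeasurable, ?_⟩
    rw [hasFiniteIntegral_iff_ofReal (Eventually.of_forall fun θ => Ez_nonneg _)]
    exact hE.trans_lt ENNReal.ofReal_lt_top
  have hEii : IntervalIntegrable (fun θ => Ez (circleMap 2 R θ)) volume 0 (2 * π) :=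
    (intervalIntegrable_iff_integrableOn_Ioo_of_le (by positivity)).mpr hEint
  have hEle : ∫ θ in (0 : ℝ)..(2 * π), Ez (circleMap 2 R θ) ≤ K := by
    rw [intervalIntegral.integral_of_le (by positivity), integral_Ioc_eq_integral_Ioo,
      integral_eq_lintegral_of_nonneg_ae (Eventually.of_forall fun θ => Ez_nonneg _)
        hmeas.aestronglyMeasurable]
    exact ENNReal.toReal_le_of_le_ofReal hK hE
  rw [Jx_eq_integral]
  have hci : IntervalIntegrable (fun θ => R / 2 * Real.log R * |Real.cos θ| - 20 * R)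
      volume 0 (2 * π) := by
    apply Continuous.intervalIntegrable
    fun_prop
  have h1 : ∫ θ in (0 : ℝ)..(2 * π), (R / 2 * Real.log R * |Real.cos θ| - 20 * R -
      Ez (circleMap 2 R θ)) ≤ ∫ θ in (0 : ℝ)..(2 * π), Real.log ‖Xi (circleMap 2 R θ)‖ := by
    apply intervalIntegral.integral_mono_on (by positivity) (hci.sub hEii) (circleInt_Xi R)
    intro θ _
    have := Xi_circle_lower hR (norm_circleMap_sub (R := R) (by linarith) θ)
    rw [circleMap_re_sub, abs_mul, abs_of_nonneg (show 0 ≤ R by linarith)] at this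
    linarith
  have h2 : ∫ θ in (0 : ℝ)..(2 * π), (R / 2 * Real.log R * |Real.cos θ| - 20 * R) =
      R / 2 * Real.log R * 4 - 2 * π * (20 * R) := by
    rw [intervalIntegral.integral_sub, intervalIntegral.integral_const_mul, integral_abs_cos]
    · simp; ring
    · apply Continuous.intervalIntegrable; fun_prop
    · apply Continuous.intervalIntegrable; fun_prop
  rw [intervalIntegral.integral_sub hci hEii, h2] at h1
  have h3 : (2 * π)⁻¹ * (R / 2 * Real.log R * 4 - 2 * π * (20 * R) - K) ≤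
      (2 * π)⁻¹ * ∫ θ in (0 : ℝ)..(2 * π), Real.log ‖Xi (circleMap 2 R θ)‖ := by
    gcongr
    linarith
  refine le_trans ?_ h3
  have e : (2 * π)⁻¹ * (R / 2 * Real.log R * 4 - 2 * π * (20 * R) - K) =
      R / π * Real.log R - 20 * R - (2 * π)⁻¹ * K := by field_simp; ring
  rw [e]
  have : (2 * π)⁻¹ * K ≤ 1 * K := by
    gcongr
    apply inv_le_one_of_one_le₀
    have := Real.pi_gt_three
    linarith
  linarith

/-- The boxes containing the support of `Ez` on the annulus. -/
lemma Ez_le_boxes {R : ℝ} (hR : 20 ≤ R) {z : ℂ} (h1 : R - 1 ≤ ‖z - 2‖) (h2 : ‖z - 2‖ ≤ R) :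
    ENNReal.ofReal (Ez z) ≤
      (((Icc (-4 : ℝ) 4 ×ℂ Icc ((R - 1) - 1) ((R - 1) + 1)).indicator
        (fun z => ENNReal.ofReal |Real.log ‖riemannZeta₁ z‖|) z +
      (Icc (-4 : ℝ) 4 ×ℂ Icc (-(R - 1) - 1) (-(R - 1) + 1)).indicator
        (fun z => ENNReal.ofReal |Real.log ‖riemannZeta₁ z‖|) z) +
      ((Icc (-4 : ℝ) 4 ×ℂ Icc ((R - 1) - 1) ((R - 1) + 1)).indicator
        (fun z => ENNReal.ofReal |Real.log ‖riemannZeta₁ z‖|) (1 - z) +
      (Icc (-4 : ℝ) 4 ×ℂ Icc (-(R - 1) - 1) (-(R - 1) + 1)).indicator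
        (fun z => ENNReal.ofReal |Real.log ‖riemannZeta₁ z‖|) (1 - z))) := by
  unfold Ez
  split_ifs with h
  swap
  · simp
  rw [rfl2_re] at h
  have hre := abs_le.mp (show |z.re - 1 / 2| ≤ 7 / 2 by linarith)
  have him : R - 2 ≤ |z.im| ∧ |z.im| ≤ R := by
    have e : ‖z - 2‖ ^ 2 = (z.re - 2) ^ 2 + z.im ^ 2 := by
      rw [← Complex.normSq_eq_norm_sq, Complex.normSq_apply]
      simp
      ring
    have h3 : (z.re - 2) ^ 2 ≤ 25 := by nlinarith
    constructor
    · have : (R - 2) ^ 2 ≤ z.im ^ 2 := by nlinarith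
      rw [← abs_of_nonneg (show 0 ≤ R - 2 by linarith)]
      exact sq_le_sq.mp this
    · have := Complex.abs_im_le_norm (z - 2)
      simp at this
      linarith
  unfold rfl2
  split_ifs with h4
  · -- w = z
    rcases le_total 0 z.im with h5 | h5
    · rw [abs_of_nonneg h5] at him
      have hm : z ∈ (Icc (-4 : ℝ) 4 ×ℂ Icc ((R - 1) - 1) ((R - 1) + 1)) := by
        rw [mem_reProdIm]
        exact ⟨⟨by linarith, by linarith⟩, ⟨by linarith, by linarith⟩⟩
      rw [indicator_of_mem hm]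
      refine le_trans ?_ le_self_add
      exact le_self_add
    · rw [abs_of_nonpos h5] at him
      have hm : z ∈ (Icc (-4 : ℝ) 4 ×ℂ Icc (-(R - 1) - 1) (-(R - 1) + 1)) := by
        rw [mem_reProdIm]
        exact ⟨⟨by linarith, by linarith⟩, ⟨by linarith, by linarith⟩⟩
      refine le_trans ?_ le_self_add
      rw [indicator_of_mem hm]
      exact le_add_self
  · rcases le_total 0 z.im with h5 | h5
    · rw [abs_of_nonneg h5] at him
      have hm : 1 - z ∈ (Icc (-4 : ℝ) 4 ×ℂ Icc (-(R - 1) - 1) (-(R - 1) + 1)) := by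
        rw [mem_reProdIm]
        simp only [sub_re, one_re, sub_im, one_im, zero_sub]
        exact ⟨⟨by linarith, by linarith⟩, ⟨by linarith, by linarith⟩⟩
      refine le_trans ?_ le_add_self
      rw [indicator_of_mem hm]
      exact le_add_self
    · rw [abs_of_nonpos h5] at him
      have hm : 1 - z ∈ (Icc (-4 : ℝ) 4 ×ℂ Icc ((R - 1) - 1) ((R - 1) + 1)) := by
        rw [mem_reProdIm]
        simp only [sub_re, one_re, sub_im, one_im, zero_sub]
        exact ⟨⟨by linarith, by linarith⟩, ⟨by linarith, by linarith⟩⟩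
      refine le_trans ?_ le_add_self
      rw [indicator_of_mem hm]
      exact le_self_add

lemma lintegral_four_le {a b c d : ℂ → ℝ≥0∞} (ha : Measurable a) (hb : Measurable b)
    (hc : Measurable c) {A B C D : ℝ≥0∞} (h1 : ∫⁻ z, a z ≤ A) (h2 : ∫⁻ z, b z ≤ B)
    (h3 : ∫⁻ z, c z ≤ C) (h4 : ∫⁻ z, d z ≤ D) :
    ∫⁻ z, ((a z + b z) + (c z + d z)) ≤ (A + B) + (C + D) := by
  have hab : Measurable fun z => a z + b z := ha.add hb
  rw [lintegral_add_left hab, lintegral_add_left ha, lintegral_add_left hc]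
  exact add_le_add (add_le_add h1 h2) (add_le_add h3 h4)

/-- A good circle. -/
lemma exists_good_circle : ∃ K : ℝ, 0 < K ∧ ∀ R : ℝ, 20 ≤ R → ∃ r ∈ Ioo (R - 1) R,
    ∫⁻ θ in Ioo 0 (2 * π), ENNReal.ofReal (Ez (circleMap 2 r θ)) ≤ ENNReal.ofReal K := by
  obtain ⟨C, hC, h⟩ := zeta1_log_area
  refine ⟨8 * C, by positivity, fun R hR => ?_⟩
  by_contra hcon
  push Not at hcon
  have hm1 : Measurable (fun z : ℂ => ENNReal.ofReal |Real.log ‖riemannZeta₁ z‖|) := by
    have := differentiable_riemannZeta₁.continuous.measurable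
    have h2 : Measurable fun z : ℂ => Real.log ‖riemannZeta₁ z‖ := this.norm.log
    exact h2.norm.ennreal_ofReal
  have hmbox : ∀ t : ℝ, MeasurableSet (Icc (-4 : ℝ) 4 ×ℂ Icc (t - 1) (t + 1)) := fun t =>
    (measurable_re measurableSet_Icc).inter (measurable_im measurableSet_Icc)
  have hbox : ∀ t : ℝ, ∫⁻ z, (Icc (-4 : ℝ) 4 ×ℂ Icc (t - 1) (t + 1)).indicator
      (fun z => ENNReal.ofReal |Real.log ‖riemannZeta₁ z‖|) z ≤
      ENNReal.ofReal (C * Real.log (|t| + 2)) := by
    intro t
    rw [lintegral_indicator (hmbox t)]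
    obtain ⟨h1, h2⟩ := h t
    have h3 : ∫⁻ z in (Icc (-4 : ℝ) 4 ×ℂ Icc (t - 1) (t + 1)),
        ENNReal.ofReal |Real.log ‖riemannZeta₁ z‖| =
        ENNReal.ofReal (∫ z in (Icc (-4 : ℝ) 4 ×ℂ Icc (t - 1) (t + 1)),
          |Real.log ‖riemannZeta₁ z‖|) := by
      rw [ofReal_integral_eq_lintegral_ofReal h1.abs]
      exact Eventually.of_forall fun z => abs_nonneg _
    rw [h3]
    exact ENNReal.ofReal_le_ofReal h2
  have hbox' : ∀ t : ℝ, ∫⁻ z, (Icc (-4 : ℝ) 4 ×ℂ Icc (t - 1) (t + 1)).indicator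
      (fun z => ENNReal.ofReal |Real.log ‖riemannZeta₁ z‖|) (1 - z) ≤
      ENNReal.ofReal (C * Real.log (|t| + 2)) := by
    intro t
    rw [lintegral_sub_left_eq_self (fun z : ℂ => (Icc (-4 : ℝ) 4 ×ℂ Icc (t - 1) (t + 1)).indicator
      (fun z => ENNReal.ofReal |Real.log ‖riemannZeta₁ z‖|) z) 1]
    exact hbox t
  set A : Set ℂ := {z : ℂ | R - 1 ≤ ‖z - 2‖ ∧ ‖z - 2‖ ≤ R} with hA
  have hAm : MeasurableSet A := by
    have hnm : Measurable fun z : ℂ => ‖z - 2‖ := by fun_prop
    exact (measurableSet_le measurable_const hnm).inter (measurableSet_le hnm measurable_const)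
  have hup : ∫⁻ z, A.indicator (fun z => ENNReal.ofReal (Ez z)) z ≤
      ENNReal.ofReal (4 * (C * Real.log (R + 1))) := by
    calc ∫⁻ z, A.indicator (fun z => ENNReal.ofReal (Ez z)) z
        ≤ ∫⁻ z, (((Icc (-4 : ℝ) 4 ×ℂ Icc ((R - 1) - 1) ((R - 1) + 1)).indicator
        (fun z => ENNReal.ofReal |Real.log ‖riemannZeta₁ z‖|) z +
      (Icc (-4 : ℝ) 4 ×ℂ Icc (-(R - 1) - 1) (-(R - 1) + 1)).indicator
        (fun z => ENNReal.ofReal |Real.log ‖riemannZeta₁ z‖|) z) +
      ((Icc (-4 : ℝ) 4 ×ℂ Icc ((R - 1) - 1) ((R - 1) + 1)).indicator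
        (fun z => ENNReal.ofReal |Real.log ‖riemannZeta₁ z‖|) (1 - z) +
      (Icc (-4 : ℝ) 4 ×ℂ Icc (-(R - 1) - 1) (-(R - 1) + 1)).indicator
        (fun z => ENNReal.ofReal |Real.log ‖riemannZeta₁ z‖|) (1 - z))) := by
          apply lintegral_mono
          intro z
          by_cases hz : z ∈ A
          · rw [indicator_of_mem hz]
            exact Ez_le_boxes hR hz.1 hz.2
          · rw [indicator_of_notMem hz]
            exact zero_le
      _ ≤ (ENNReal.ofReal (C * Real.log (|R - 1| + 2)) +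
          ENNReal.ofReal (C * Real.log (|-(R - 1)| + 2))) +
          (ENNReal.ofReal (C * Real.log (|R - 1| + 2)) +
          ENNReal.ofReal (C * Real.log (|-(R - 1)| + 2))) := by
          have hmi : ∀ t : ℝ, Measurable (fun z : ℂ => (Icc (-4 : ℝ) 4 ×ℂ Icc (t - 1) (t + 1)).indicator
              (fun z => ENNReal.ofReal |Real.log ‖riemannZeta₁ z‖|) z) := fun t =>
            hm1.indicator (hmbox t)
          have hmi' : ∀ t : ℝ, Measurable (fun z : ℂ => (Icc (-4 : ℝ) 4 ×ℂ Icc (t - 1) (t + 1)).indicator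
              (fun z => ENNReal.ofReal |Real.log ‖riemannZeta₁ z‖|) (1 - z)) := fun t =>
            (hmi t).comp (measurable_const.sub measurable_id)
          exact lintegral_four_le (hmi _) (hmi _) (hmi' _) (hbox _) (hbox _) (hbox' _) (hbox' _)
      _ = ENNReal.ofReal (4 * (C * Real.log (R + 1))) := by
          rw [abs_neg, abs_of_nonneg (show 0 ≤ R - 1 by linarith)]
          have e : R - 1 + 2 = R + 1 := by ring
          rw [e]
          have hnn : 0 ≤ C * Real.log (R + 1) :=
            mul_nonneg hC.le (Real.log_nonneg (by linarith))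
          rw [← ENNReal.ofReal_add hnn hnn, ← ENNReal.ofReal_add (by positivity) (by positivity)]
          congr 1
          ring
  have hmE : Measurable (fun z => ENNReal.ofReal (Ez z)) := measurable_Ez.ennreal_ofReal
  rw [lintegral_polar (hmE.indicator hAm) 2] at hup
  have hlow : ENNReal.ofReal ((R - 1) * (8 * C)) ≤ ∫⁻ r in Ioi (0 : ℝ), ENNReal.ofReal r *
      ∫⁻ θ in Ioo 0 (2 * π), A.indicator (fun z => ENNReal.ofReal (Ez z)) (circleMap 2 r θ) := by
    calc ENNReal.ofReal ((R - 1) * (8 * C)) = ∫⁻ r in Ioo (R - 1) R,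
          ENNReal.ofReal ((R - 1) * (8 * C)) := by
          rw [setLIntegral_const, Real.volume_Ioo]
          simp
      _ ≤ ∫⁻ r in Ioo (R - 1) R, ENNReal.ofReal r *
          ∫⁻ θ in Ioo 0 (2 * π), A.indicator (fun z => ENNReal.ofReal (Ez z)) (circleMap 2 r θ) := by
          refine setLIntegral_mono' measurableSet_Ioo fun r hr => ?_
          rw [ENNReal.ofReal_mul (by linarith)]
          have hr0 : 0 ≤ r := by linarith [hr.1]
          have e : ∫⁻ θ in Ioo 0 (2 * π), A.indicator (fun z => ENNReal.ofReal (Ez z))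
              (circleMap 2 r θ) = ∫⁻ θ in Ioo 0 (2 * π), ENNReal.ofReal (Ez (circleMap 2 r θ)) := by
            apply lintegral_congr
            intro θ
            rw [indicator_of_mem]
            simp only [hA, mem_ofPred_eq]
            rw [norm_circleMap_sub hr0]
            exact ⟨hr.1.le, hr.2.le⟩
          rw [e]
          exact mul_le_mul' (ENNReal.ofReal_le_ofReal hr.1.le) (hcon r hr).le
      _ ≤ _ := by
          apply lintegral_mono_set
          intro r hr
          have : R - 1 < r := hr.1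
          exact lt_of_le_of_lt (by linarith : (0 : ℝ) ≤ R - 1) this
  have h3 := hlow.trans hup
  rw [ENNReal.ofReal_le_ofReal_iff (by
    have : 0 ≤ Real.log (R + 1) := Real.log_nonneg (by linarith)
    positivity)] at h3
  have h4 : Real.log (R + 1) ≤ R := by
    have := Real.log_le_sub_one_of_pos (show 0 < R + 1 by linarith)
    linarith
  have h5 : 4 * (C * Real.log (R + 1)) ≤ 4 * (C * R) := by gcongr
  nlinarith

/-- Lower bound for the circle averages. -/
lemma exists_Jx_lower : ∃ C : ℝ, 0 < C ∧ ∀ R : ℝ, 20 ≤ R →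
    R / π * Real.log R - C * R ≤ Jx R := by
  obtain ⟨K, hK, h⟩ := exists_good_circle
  refine ⟨22 + K, by positivity, fun R hR => ?_⟩
  obtain ⟨r, hr, hE⟩ := h R hR
  have h1 := Jx_lower (by linarith [hr.1]) hK.le hE
  have h2 := Jx_mono (by linarith [hr.1]) hr.2.le
  refine le_trans ?_ (h1.trans h2)
  have hpi := Real.pi_pos
  have hpi3 := Real.pi_gt_three
  have hlog : Real.log R - 2 / R ≤ Real.log r := by
    have e1 : Real.log (R / (1 + 2 / R)) ≤ Real.log r := by
      apply Real.log_le_log (by positivity)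
      refine le_trans ?_ hr.1.le
      rw [div_le_iff₀ (by positivity)]
      have : (R - 1) * (1 + 2 / R) = R + 1 - 2 / R := by field_simp; ring
      rw [this]
      have : 2 / R ≤ 1 := by rw [div_le_iff₀ (by linarith)]; linarith
      linarith
    rw [Real.log_div (by positivity) (by positivity)] at e1
    have e2 := Real.log_le_sub_one_of_pos (show 0 < 1 + 2 / R by positivity)
    linarith
  have hlogr : 0 ≤ Real.log r := Real.log_nonneg (by linarith [hr.1])
  have hlogR : Real.log R ≤ R - 1 := Real.log_le_sub_one_of_pos (by linarith)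
  have h3 : (R - 1) / π * Real.log r ≤ r / π * Real.log r := by
    gcongr
    exact hr.1.le
  have h4 : (R - 1) / π * (Real.log R - 2 / R) ≤ (R - 1) / π * Real.log r := by
    apply mul_le_mul_of_nonneg_left hlog
    apply div_nonneg (by linarith) hpi.le
  have h5 : (R - 1) / π * (Real.log R - 2 / R) = R / π * Real.log R - Real.log R / π -
      (R - 1) / π * (2 / R) := by ring
  have h6 : Real.log R / π ≤ R := by
    rw [div_le_iff₀ hpi]
    nlinarith
  have h7 : (R - 1) / π * (2 / R) ≤ R := by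
    have e1 : (R - 1) / π ≤ R := by
      rw [div_le_iff₀ hpi]
      nlinarith
    have e2 : 2 / R ≤ 1 := by rw [div_le_iff₀ (by linarith)]; linarith
    calc (R - 1) / π * (2 / R) ≤ R * 1 := by
          apply mul_le_mul e1 e2 (by positivity) (by linarith)
      _ = R := by ring
  nlinarith [hr.2]

end Pool.Agent.PairCorr.ERV
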