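import Mathlib
import Pool.Agent.PairCorr.E_Circle

/-!
The leading term of the Riemann-von Mangoldt formula.
-/

set_option autoImplicit false

namespace Pool.Agent.PairCorr.ERV

open MeasureTheory Filter Topology Complex Set Metric Real
open scoped ENNReal

lemma nR_nonneg (R : ℝ) : 0 ≤ nR R := by unfold nR; positivity

lemma nR_upper {lam : ℝ} (hl : 1 < lam) : ∀ᶠ R in atTop, nR R ≤ lam ^ 2 / π * (R * Real.log R) := by
  obtain ⟨C, hC, hup⟩ := exists_Jx_upper
  obtain ⟨D, hD, hlow⟩ := exists_Jx_lower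
  have hpi := Real.pi_pos
  have hl0 : 0 < lam := by linarith
  have hlog0 : 0 < Real.log lam := Real.log_pos hl
  set K : ℝ := lam / π * Real.log lam + C * lam + D with hK
  have hev : ∀ᶠ R in atTop, K / Real.log lam / ((lam ^ 2 - lam) / π) ≤ Real.log R :=
    Real.tendsto_log_atTop.eventually_ge_atTop _
  filter_upwards [hev, eventually_ge_atTop 20] with R h1 hR
  have hR0 : 0 < R := by linarith
  have hlR : R ≤ lam * R := by nlinarith
  have h2 := Jx_diff_ge hR0 hlR
  have h3 := hup (lam * R) (by linarith)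
  have h4 := hlow R hR
  have e1 : lam * R / R = lam := by field_simp
  rw [e1] at h2
  rw [Real.log_mul hl0.ne' hR0.ne'] at h3
  have h5 : Real.log lam * nR R ≤ (lam - 1) / π * (R * Real.log R) + K * R := by
    have : lam * R / π * (Real.log lam + Real.log R) + C * (lam * R) - (R / π * Real.log R - D * R) =
        (lam - 1) / π * (R * Real.log R) + K * R := by
      rw [hK]; ring
    linarith
  have hinv : (lam - 1) / lam ≤ Real.log lam := by
    have := Real.log_le_sub_one_of_pos (show 0 < lam⁻¹ by positivity)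
    rw [Real.log_inv] at this
    have e : (lam - 1) / lam = 1 - lam⁻¹ := by field_simp
    linarith
  have hpos : 0 < (lam ^ 2 - lam) / π := div_pos (by nlinarith) hpi
  have h6 : K / Real.log lam ≤ (lam ^ 2 - lam) / π * Real.log R := by
    rw [div_le_iff₀ hpos] at h1
    linarith
  have hlogR : 0 < Real.log R := Real.log_pos (by linarith)
  have h7 : (lam - 1) / Real.log lam ≤ lam := by
    rw [div_le_iff₀ hlog0]
    rw [div_le_iff₀ hl0] at hinv
    linarith
  have h8 : nR R ≤ (lam - 1) / Real.log lam / π * (R * Real.log R) + K / Real.log lam * R := by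
    have : nR R ≤ ((lam - 1) / π * (R * Real.log R) + K * R) / Real.log lam := by
      rw [le_div_iff₀ hlog0]; linarith
    refine this.trans (le_of_eq ?_)
    field_simp
  have h9 : (lam - 1) / Real.log lam / π * (R * Real.log R) ≤ lam / π * (R * Real.log R) := by
    gcongr
  have h10 : K / Real.log lam * R ≤ (lam ^ 2 - lam) / π * Real.log R * R := by gcongr
  calc nR R ≤ lam / π * (R * Real.log R) + (lam ^ 2 - lam) / π * Real.log R * R := by linarith
    _ = _ := by ring

lemma nR_lower {lam : ℝ} (hl : 1 < lam) :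
    ∀ᶠ R in atTop, 1 / (lam ^ 2 * π) * (R * Real.log R) ≤ nR R := by
  obtain ⟨C, hC, hup⟩ := exists_Jx_upper
  obtain ⟨D, hD, hlow⟩ := exists_Jx_lower
  have hpi := Real.pi_pos
  have hl0 : 0 < lam := by linarith
  have hlog0 : 0 < Real.log lam := Real.log_pos hl
  set K : ℝ := C / lam + D with hK
  have hev : ∀ᶠ R in atTop, K / Real.log lam / ((lam - 1) / (lam ^ 2 * π)) ≤ Real.log R :=
    Real.tendsto_log_atTop.eventually_ge_atTop _
  filter_upwards [hev, eventually_ge_atTop (20 * lam)] with R h1 hR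
  have hR0 : 0 < R := by nlinarith
  have hR20 : 20 ≤ R := by nlinarith
  have hlR : R / lam ≤ R := div_le_self hR0.le hl.le
  have hRl0 : 0 < R / lam := by positivity
  have hRl : 20 ≤ R / lam := by rw [le_div_iff₀ hl0]; linarith
  have h2 := Jx_diff_le hRl0 hlR
  have h3 := hup (R / lam) (by linarith)
  have h4 := hlow R hR20
  have e1 : R / (R / lam) = lam := by field_simp
  rw [e1] at h2
  have hlogR : 0 < Real.log R := Real.log_pos (by linarith)
  have h3' : Jx (R / lam) ≤ R / lam / π * Real.log R + C * (R / lam) := by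
    have : Real.log (R / lam) ≤ Real.log R := Real.log_le_log hRl0 hlR
    have : R / lam / π * Real.log (R / lam) ≤ R / lam / π * Real.log R := by gcongr
    linarith
  have h5 : (lam - 1) / (lam * π) * (R * Real.log R) - K * R ≤ Real.log lam * nR R := by
    have : (R / π * Real.log R - D * R) - (R / lam / π * Real.log R + C * (R / lam)) =
        (lam - 1) / (lam * π) * (R * Real.log R) - K * R := by
      rw [hK]; field_simp; ring
    linarith
  have hle : Real.log lam ≤ lam - 1 := Real.log_le_sub_one_of_pos hl0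
  have hpos : 0 < (lam - 1) / (lam ^ 2 * π) := by
    apply div_pos (by linarith) (by positivity)
  have h6 : K / Real.log lam ≤ (lam - 1) / (lam ^ 2 * π) * Real.log R := by
    rw [div_le_iff₀ hpos] at h1
    linarith
  have h7 : 1 ≤ (lam - 1) / Real.log lam := by
    rw [le_div_iff₀ hlog0]; linarith
  have h8 : (lam - 1) / Real.log lam / (lam * π) * (R * Real.log R) - K / Real.log lam * R ≤ nR R := by
    have : ((lam - 1) / (lam * π) * (R * Real.log R) - K * R) / Real.log lam ≤ nR R := by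
      rw [div_le_iff₀ hlog0]; linarith
    refine le_trans (le_of_eq ?_) this
    field_simp
  have h9 : 1 / (lam * π) * (R * Real.log R) ≤
      (lam - 1) / Real.log lam / (lam * π) * (R * Real.log R) := by
    gcongr
  have h10 : K / Real.log lam * R ≤ (lam - 1) / (lam ^ 2 * π) * Real.log R * R := by gcongr
  calc 1 / (lam ^ 2 * π) * (R * Real.log R)
      = 1 / (lam * π) * (R * Real.log R) - (lam - 1) / (lam ^ 2 * π) * Real.log R * R := by
        field_simp; ring
    _ ≤ nR R := by linarith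

/-- The zeros with `|Im ρ| ≤ T`. -/
noncomputable def ZT (T : ℝ) : Finset ℂ := (finite_NTZ_window 0 T).toFinset

lemma mem_ZT {T : ℝ} {ρ : ℂ} : ρ ∈ ZT T ↔ ρ ∈ NTZ ∧ |ρ.im| ≤ T := by
  unfold ZT; simp

noncomputable def sZ (T : ℝ) : ℝ := ∑ ρ ∈ ZT T, (mult ρ : ℝ)

lemma nR_le_sZ (T : ℝ) : nR T ≤ sZ T := by
  unfold nR sZ
  apply Finset.sum_le_sum_of_subset_of_nonneg
  · intro ρ hρ
    rw [mem_SR] at hρ
    rw [mem_ZT]
    refine ⟨hρ.1, ?_⟩
    have := Complex.abs_im_le_norm (ρ - 2)
    simp at this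
    linarith [hρ.2]
  · intro ρ _ _
    positivity

lemma sZ_le_nR (T : ℝ) : sZ T ≤ nR (T + 2) := by
  unfold nR sZ
  apply Finset.sum_le_sum_of_subset_of_nonneg
  · intro ρ hρ
    rw [mem_ZT] at hρ
    rw [mem_SR]
    refine ⟨hρ.1, ?_⟩
    have h1 := Complex.norm_le_abs_re_add_abs_im (ρ - 2)
    have h2 : |(ρ - 2).re| ≤ 2 := by
      rw [abs_le]
      simp
      constructor
      · linarith [hρ.1.2.1]
      · linarith [hρ.1.2.2]
    have h3 : |(ρ - 2).im| = |ρ.im| := by simp
    linarith [hρ.2]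
  · intro ρ _ _
    positivity

/-- `NCount` in terms of the symmetric count. -/
lemma NCount_eq {T : ℝ} (hT : 0 ≤ T) : NCount T = (sZ T - sZ 0) / 2 := by
  have hfin : ({ρ : ℂ | ρ ∈ NTZ ∧ 0 < ρ.im ∧ ρ.im ≤ T}).Finite := by
    refine (finite_NTZ_window 0 T).subset ?_
    rintro ρ ⟨h1, h2, h3⟩
    refine ⟨h1, ?_⟩
    rw [sub_zero, abs_of_pos h2]
    exact h3
  have h1 : NCount T = ∑ ρ ∈ (ZT T).filter (fun ρ => 0 < ρ.im), (mult ρ : ℝ) := by
    unfold NCount
    rw [finsum_mem_eq_finite_toFinset_sum _ hfin]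
    apply Finset.sum_congr _ (fun _ _ => rfl)
    ext ρ
    simp only [Finite.mem_toFinset, mem_ofPred_eq, Finset.mem_filter, mem_ZT]
    constructor
    · rintro ⟨h1, h2, h3⟩
      exact ⟨⟨h1, by rw [abs_of_pos h2]; exact h3⟩, h2⟩
    · rintro ⟨⟨h1, h2⟩, h3⟩
      exact ⟨h1, h3, (le_abs_self _).trans h2⟩
  have h2 : ∑ ρ ∈ (ZT T).filter (fun ρ => ρ.im < 0), (mult ρ : ℝ) =
      ∑ ρ ∈ (ZT T).filter (fun ρ => 0 < ρ.im), (mult ρ : ℝ) := by
    apply Finset.sum_bij' (fun ρ _ => starRingEnd ℂ ρ) (fun ρ _ => starRingEnd ℂ ρ)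
    · intro ρ hρ
      simp only [Finset.mem_filter, mem_ZT] at hρ ⊢
      exact ⟨⟨conj_mem_NTZ hρ.1.1, by simpa using hρ.1.2⟩, by simpa using hρ.2⟩
    · intro ρ hρ
      simp only [Finset.mem_filter, mem_ZT] at hρ ⊢
      exact ⟨⟨conj_mem_NTZ hρ.1.1, by simpa using hρ.1.2⟩, by simpa using hρ.2⟩
    · intro ρ _
      simp
    · intro ρ _
      simp
    · intro ρ hρ
      simp only [Finset.mem_filter, mem_ZT] at hρ
      rw [mult_conj hρ.1.1]
  have h3 : sZ 0 = ∑ ρ ∈ (ZT T).filter (fun ρ => ρ.im = 0), (mult ρ : ℝ) := by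
    unfold sZ
    apply Finset.sum_congr _ (fun _ _ => rfl)
    ext ρ
    simp only [mem_ZT, Finset.mem_filter]
    constructor
    · rintro ⟨h1, h2⟩
      have h3 : ρ.im = 0 := abs_eq_zero.mp (le_antisymm h2 (abs_nonneg _))
      exact ⟨⟨h1, by rw [h3]; simpa using hT⟩, h3⟩
    · rintro ⟨⟨h1, h2⟩, h3⟩
      exact ⟨h1, by rw [h3]; simp⟩
  have h4 : sZ T = ∑ ρ ∈ (ZT T).filter (fun ρ => 0 < ρ.im), (mult ρ : ℝ) +
      (∑ ρ ∈ (ZT T).filter (fun ρ => ρ.im < 0), (mult ρ : ℝ) +
      ∑ ρ ∈ (ZT T).filter (fun ρ => ρ.im = 0), (mult ρ : ℝ)) := by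
    unfold sZ
    rw [← Finset.sum_filter_add_sum_filter_not (ZT T) (fun ρ => 0 < ρ.im)]
    congr 1
    rw [← Finset.sum_filter_add_sum_filter_not ((ZT T).filter (fun ρ => ¬ 0 < ρ.im))
      (fun ρ => ρ.im < 0)]
    congr 1
    · apply Finset.sum_congr _ (fun _ _ => rfl)
      ext ρ
      simp only [Finset.mem_filter]
      constructor
      · rintro ⟨⟨h1, h2⟩, h3⟩
        exact ⟨h1, h3⟩
      · rintro ⟨h1, h2⟩
        exact ⟨⟨h1, by linarith⟩, h2⟩
    · apply Finset.sum_congr _ (fun _ _ => rfl)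
      ext ρ
      simp only [Finset.mem_filter]
      constructor
      · rintro ⟨⟨h1, h2⟩, h3⟩
        exact ⟨h1, le_antisymm (not_lt.mp h2) (not_lt.mp h3)⟩
      · rintro ⟨h1, h2⟩
        exact ⟨⟨h1, by rw [h2]; simp⟩, by rw [h2]; simp⟩
  rw [h1, h3, h4, h2]
  ring

theorem statementE_aux : StatementE := by
  unfold StatementE
  have hpi := Real.pi_pos
  have hcont : ∀ b > 1 / (2 * π), ∃ lam : ℝ, 1 < lam ∧ lam ^ 2 / π * (1 / 2) * lam < b := by
    intro b hb
    have h1 : Tendsto (fun x : ℝ => x ^ 2 / π * (1 / 2) * x) (𝓝[>] 1) (𝓝 (1 ^ 2 / π * (1 / 2) * 1)) := by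
      apply Tendsto.mono_left _ nhdsWithin_le_nhds
      apply Continuous.tendsto
      fun_prop
    have h2 : (1 : ℝ) ^ 2 / π * (1 / 2) * 1 < b := by
      have : (1 : ℝ) ^ 2 / π * (1 / 2) * 1 = 1 / (2 * π) := by field_simp
      linarith
    have h3 := (h1.eventually (gt_mem_nhds h2)).and self_mem_nhdsWithin
    obtain ⟨x, hx⟩ := h3.exists
    exact ⟨x, hx.2, hx.1⟩
  have hcont' : ∀ a < 1 / (2 * π), ∃ lam : ℝ, 1 < lam ∧ a < 1 / (lam ^ 2 * π) * (1 / 2) := by
    intro a ha
    have h1 : Tendsto (fun x : ℝ => 1 / (x ^ 2 * π) * (1 / 2)) (𝓝[>] 1)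
        (𝓝 (1 / (1 ^ 2 * π) * (1 / 2))) := by
      apply Tendsto.mono_left _ nhdsWithin_le_nhds
      apply ContinuousAt.tendsto
      refine ContinuousAt.mul ?_ continuousAt_const
      refine ContinuousAt.div continuousAt_const (by fun_prop) (by positivity)
    have h2 : a < 1 / ((1 : ℝ) ^ 2 * π) * (1 / 2) := by
      have : 1 / ((1 : ℝ) ^ 2 * π) * (1 / 2) = 1 / (2 * π) := by field_simp
      linarith
    have h3 := (h1.eventually (lt_mem_nhds h2)).and self_mem_nhdsWithin
    obtain ⟨x, hx⟩ := h3.exists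
    exact ⟨x, hx.2, hx.1⟩
  rw [tendsto_order]
  constructor
  · intro a ha
    obtain ⟨lam, hl, hal⟩ := hcont' a ha
    have h1 := nR_lower hl
    -- `sZ 0 / 2` is absorbed
    have h2 : ∀ᶠ T in atTop, sZ 0 / 2 < (1 / (lam ^ 2 * π) * (1 / 2) - a) * (T * Real.log T) := by
      have : Tendsto (fun T : ℝ => (1 / (lam ^ 2 * π) * (1 / 2) - a) * (T * Real.log T)) atTop atTop := by
        apply Tendsto.const_mul_atTop (by linarith)
        exact tendsto_id.atTop_mul_atTop₀ Real.tendsto_log_atTop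
      exact this.eventually_gt_atTop _
    filter_upwards [h1, h2, eventually_gt_atTop 1] with T h1 h2 hT
    have hTl : 0 < T * Real.log T := mul_pos (by linarith) (Real.log_pos hT)
    rw [lt_div_iff₀ hTl, NCount_eq (by linarith)]
    have h3 := nR_le_sZ T
    linarith
  · intro b hb
    obtain ⟨lam, hl, hbl⟩ := hcont b hb
    have h1 := (tendsto_atTop_add_const_right atTop 2 tendsto_id).eventually (nR_upper hl)
    have h2 : ∀ᶠ T : ℝ in atTop, (T + 2) * Real.log (T + 2) ≤ lam * (T * Real.log T) := by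
      have e1 : Tendsto (fun T : ℝ => ((T + 2) / T) * (1 + (Real.log (T + 2) - Real.log T) / Real.log T))
          atTop (𝓝 (1 * (1 + 0))) := by
        apply Tendsto.mul
        · have : Tendsto (fun T : ℝ => 1 + 2 / T) atTop (𝓝 (1 + 0)) :=
            tendsto_const_nhds.add (tendsto_const_nhds.div_atTop tendsto_id)
          rw [add_zero] at this
          refine this.congr' ?_
          filter_upwards [eventually_gt_atTop 0] with T hT
          field_simp
        · apply tendsto_const_nhds.add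
          exact (Real.tendsto_log_comp_add_sub_log 2).div_atTop Real.tendsto_log_atTop
      have e2 : (1 : ℝ) * (1 + 0) < lam := by linarith
      filter_upwards [e1.eventually (gt_mem_nhds e2), eventually_gt_atTop 1] with T hT hT1
      have hlog : 0 < Real.log T := Real.log_pos hT1
      have hT0 : 0 < T := by linarith
      have e3 : (T + 2) / T * (1 + (Real.log (T + 2) - Real.log T) / Real.log T) =
          (T + 2) * Real.log (T + 2) / (T * Real.log T) := by
        field_simp
        ring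
      rw [e3, div_lt_iff₀ (by positivity)] at hT
      exact hT.le
    filter_upwards [h1, h2, eventually_gt_atTop 1] with T h1 h2 hT
    have hTl : 0 < T * Real.log T := mul_pos (by linarith) (Real.log_pos hT)
    rw [div_lt_iff₀ hTl, NCount_eq (by linarith)]
    have h3 := sZ_le_nR T
    have h4 : 0 ≤ sZ 0 := by unfold sZ; positivity
    simp only [id_eq] at h1
    have h5 : lam ^ 2 / π * ((T + 2) * Real.log (T + 2)) ≤ lam ^ 2 / π * (lam * (T * Real.log T)) := by
      gcongr
    have h6 : lam ^ 2 / π * (1 / 2) * lam * (T * Real.log T) < b * (T * Real.log T) := by gcongr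
    linarith

end Pool.Agent.PairCorr.ERV

namespace Pool.Agent.PairCorr

/-- (E): `N(T) ~ T log T / (2π)`. -/
theorem statementE : StatementE := ERV.statementE_aux

end Pool.Agent.PairCorr
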