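import Mathlib

set_option autoImplicit false

namespace Pool.Agent.PairCorr

open MeasureTheory Filter Topology Set Real Metric

section Green

lemma integral_y_log : ∫ y in (0:ℝ)..1, -(y * Real.log y) = 1 / 4 := by
  have h := intervalIntegral.integral_eq_sub_of_hasDeriv_right_of_le (a := 0) (b := 1)
    (f := fun y : ℝ => y ^ 2 / 4 - y * (y * Real.log y) / 2) (f' := fun y => -(y * Real.log y))
    zero_le_one ?_ ?_ ?_
  · rw [h]; norm_num
  · apply Continuous.continuousOn
    exact (by fun_prop : Continuous fun y : ℝ => y ^ 2 / 4).sub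
      ((continuous_id.mul Real.continuous_mul_log).div_const 2)
  · intro y hy
    apply HasDerivAt.hasDerivWithinAt
    have hy0 : y ≠ 0 := hy.1.ne'
    have h1 : HasDerivAt (fun y : ℝ => y ^ 2 / 4) (2 * y / 4) y := by
      have := (hasDerivAt_pow 2 y).div_const 4
      exact this.congr_deriv (by norm_num)
    have h2 : HasDerivAt (fun y : ℝ => y * Real.log y) (Real.log y + 1) y := Real.hasDerivAt_mul_log hy0
    have h3 := h1.sub (((hasDerivAt_id y).mul h2).div_const 2)
    refine h3.congr_deriv ?_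
    simp only [id]; ring
  · exact (Real.continuous_mul_log.neg).intervalIntegrable _ _

lemma posLog_inv_eq {y : ℝ} (hy : 0 < y) (hy1 : y ≤ 1) : log⁺ y⁻¹ = - Real.log y := by
  rw [posLog_eq_log, Real.log_inv]
  rw [abs_of_pos (inv_pos.2 hy)]
  exact (one_le_inv₀ hy).2 hy1

lemma posLog_inv_eq_zero {y : ℝ} (hy1 : 1 ≤ y) : log⁺ y⁻¹ = 0 := by
  rw [posLog_eq_zero_iff, abs_of_pos (inv_pos.2 (by linarith))]
  exact inv_le_one_of_one_le₀ hy1

lemma integral_y_posLog : ∫ y in Ioi (0:ℝ), y * log⁺ y⁻¹ = 1 / 4 := by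
  have h1 : ∫ y in Ioi (0:ℝ), y * log⁺ y⁻¹ = ∫ y in Ioc (0:ℝ) 1, y * log⁺ y⁻¹ := by
    apply setIntegral_eq_of_subset_of_forall_sdiff_eq_zero measurableSet_Ioi Ioc_subset_Ioi_self
    intro y hy
    have hy1 : 1 ≤ y := by
      by_contra h
      exact hy.2 ⟨hy.1, by linarith⟩
    rw [posLog_inv_eq_zero hy1, mul_zero]
  rw [h1, ← integral_y_log, intervalIntegral.integral_of_le zero_le_one]
  apply setIntegral_congr_fun measurableSet_Ioc
  intro y hy
  simp only
  rw [posLog_inv_eq hy.1 hy.2]; ring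

lemma integral_posLog_norm : ∫ c : ℂ, log⁺ ‖c‖⁻¹ = π / 2 := by
  have h := integral_fun_norm_addHaar (volume : Measure ℂ) (fun y : ℝ => log⁺ y⁻¹)
  rw [h]
  have h2 : Module.finrank ℝ ℂ = 2 := Complex.finrank_real_complex
  rw [h2]
  have h3 : (volume : Measure ℂ).real (ball 0 1) = π := by
    rw [measureReal_def, Complex.volume_ball]
    simp
  rw [h3]
  simp only [smul_eq_mul, Nat.add_one_sub_one, pow_one]
  rw [integral_y_posLog]
  simp; ring

lemma integrable_posLog_norm : Integrable (fun c : ℂ => log⁺ ‖c‖⁻¹) := by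
  by_contra h
  have h1 := integral_undef h
  rw [integral_posLog_norm] at h1
  have := Real.pi_pos
  linarith


/-- scaled version -/
lemma posLog_scale {R : ℝ} (hR : 0 < R) (ρ c : ℂ) :
    log⁺ (R * ‖c - ρ‖⁻¹) = log⁺ ‖(R⁻¹ : ℂ) * (c - ρ)‖⁻¹ := by
  rw [norm_mul, mul_inv, norm_inv, inv_inv, Complex.norm_real, Real.norm_of_nonneg hR.le]

lemma integrable_posLog_scale {R : ℝ} (hR : 0 < R) (ρ : ℂ) :
    Integrable (fun c : ℂ => log⁺ (R * ‖c - ρ‖⁻¹)) := by
  simp_rw [posLog_scale hR]
  have h1 : Integrable (fun c : ℂ => log⁺ ‖(R⁻¹ : ℂ) * c‖⁻¹) := by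
    have h2 := integrable_posLog_norm.comp_smul (R := R⁻¹) (by positivity)
    refine h2.congr (Eventually.of_forall fun c => ?_)
    simp
  exact h1.comp_sub_right ρ

lemma integral_posLog_scale {R : ℝ} (hR : 0 < R) (ρ : ℂ) :
    ∫ c : ℂ, log⁺ (R * ‖c - ρ‖⁻¹) = R ^ 2 * (π / 2) := by
  simp_rw [posLog_scale hR]
  rw [integral_sub_right_eq_self (fun c : ℂ => log⁺ ‖(R⁻¹ : ℂ) * c‖⁻¹) ρ]
  have h := Measure.integral_comp_smul (volume : Measure ℂ) (fun c : ℂ => log⁺ ‖c‖⁻¹) R⁻¹
  rw [integral_posLog_norm, Complex.finrank_real_complex] at h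
  have e : ∀ c : ℂ, (R⁻¹ : ℂ) * c = (R⁻¹ : ℝ) • c := by intro c; simp
  simp_rw [e]
  rw [h, smul_eq_mul]
  congr 1
  rw [inv_pow, inv_inv, abs_of_nonneg (by positivity)]

/-- Jensen's formula on small circles, with the sum over all zeros in a strip. -/
lemma jensen_small {f : ℂ → ℂ} (hf : Differentiable ℂ f) {c : ℂ} {R : ℝ} (hR : 0 < R)
    {Z : Set ℂ} (hZ : ∀ z ∈ closedBall c R, f z = 0 → z ∈ Z) (hZ0 : ∀ z ∈ Z, f z = 0) (hc : f c ≠ 0) :
    circleAverage (fun z => Real.log ‖f z‖) c R =
      (∑' ρ : Z, (analyticOrderNatAt f ρ : ℝ) * log⁺ (R * ‖c - ρ‖⁻¹)) + Real.log ‖f c‖ := by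
  have hfa : AnalyticOnNhd ℂ f univ := fun z _ => hf.analyticAt z
  have hJ := AnalyticOnNhd.circleAverage_log_norm (c := c) (R := R) (f := f) hR.ne'
    (fun z _ => hf.analyticAt z) hc
  rw [hJ]
  congr 1
  rw [abs_of_pos hR] at *
  set D := MeromorphicOn.divisor f (closedBall c R) with hD
  have hfin : (Function.support fun u => (D u : ℝ) * Real.log (R * ‖c - u‖⁻¹)).Finite := by
    apply (D.finiteSupport (isCompact_closedBall c R)).subset
    intro u hu
    simp only [Function.mem_support] at hu ⊢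
    intro h
    apply hu
    simp [h]
  rw [← tsum_eq_finsum (L := SummationFilter.unconditional _) hfin]
  have horder : ∀ z, analyticOrderAt f z ≠ ⊤ := by
    intro z h
    rw [analyticOrderAt_eq_top] at h
    have := hfa.eqOn_zero_of_preconnected_of_eventuallyEq_zero isPreconnected_univ (mem_univ z) h
    exact hc (this (mem_univ c))
  have hdiv : ∀ u ∈ closedBall c R, (D u : ℝ) = analyticOrderNatAt f u := by
    intro u hu
    rw [hD, MeromorphicOn.AnalyticOnNhd.divisor_apply (fun z _ => hf.analyticAt z) hu]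
    have h1 := Nat.cast_analyticOrderNatAt (horder u)
    rw [← h1]
    simp
  have hsupp : Function.support (fun u => (D u : ℝ) * Real.log (R * ‖c - u‖⁻¹)) ⊆ Z := by
    intro u hu
    simp only [Function.mem_support, ne_eq, mul_eq_zero, not_or] at hu
    have hmem : u ∈ closedBall c R := by
      by_contra h
      apply hu.1
      rw [Function.locallyFinsuppWithin.apply_eq_zero_of_notMem D h]
      simp
    apply hZ u hmem
    by_contra h
    apply hu.1
    rw [hdiv u hmem]
    have : analyticOrderNatAt f u = 0 := by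
      unfold analyticOrderNatAt
      rw [(hf.analyticAt u).analyticOrderAt_eq_zero.2 h]
      rfl
    rw [this]; simp
  rw [← tsum_subtype_eq_of_support_subset hsupp]
  apply tsum_congr
  intro ρ
  by_cases hmem : (ρ : ℂ) ∈ closedBall c R
  · rw [hdiv _ hmem]
    congr 1
    rw [posLog_eq_log]
    have hne : c - ρ ≠ 0 := by
      intro h
      rw [sub_eq_zero] at h
      exact hc (h ▸ hZ0 ρ ρ.2)
    have hpos : 0 < ‖c - ρ‖ := norm_pos_iff.2 hne
    rw [abs_of_pos (by positivity), ← div_eq_mul_inv, le_div_iff₀ hpos, one_mul]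
    rw [mem_closedBall, dist_comm, dist_eq_norm] at hmem
    exact hmem
  · rw [Function.locallyFinsuppWithin.apply_eq_zero_of_notMem D hmem]
    have : log⁺ (R * ‖c - ρ‖⁻¹) = 0 := by
      rw [posLog_eq_zero_iff, abs_of_nonneg (by positivity)]
      rw [mem_closedBall, dist_comm, dist_eq_norm, not_le] at hmem
      rw [← div_eq_mul_inv, div_le_one (lt_trans hR hmem)]
      exact hmem.le
    rw [this]; simp


/-- the zeros in the open strip -/
def Zst (f : ℂ → ℂ) : Set ℂ := {ρ | f ρ = 0 ∧ -2 < ρ.re ∧ ρ.re < 3}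

/-- the weight function `1/(1+τ^2)` -/
noncomputable def wt (z : ℂ) : ℝ := (1 + z.im ^ 2)⁻¹

lemma wt_pos (z : ℂ) : 0 < wt z := by unfold wt; positivity

lemma wt_le_one (z : ℂ) : wt z ≤ 1 := by
  unfold wt
  exact inv_le_one_of_one_le₀ (by nlinarith [sq_nonneg z.im])

lemma wt_shift {z c : ℂ} (h : |z.im - c.im| ≤ 1) : wt z ≤ 3 * wt c := by
  unfold wt
  rw [← div_eq_mul_inv, inv_eq_one_div, div_le_div_iff₀ (by positivity) (by positivity)]
  have h1 := abs_le.1 h
  nlinarith [sq_nonneg (z.im + c.im), sq_nonneg (z.im - c.im), sq_nonneg (2 * z.im - c.im), sq_nonneg z.im,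
    mul_nonneg (sub_nonneg.2 h1.2) (by linarith [h1.1] : (0:ℝ) ≤ 1 + (z.im - c.im))]

lemma circleMap_re_im (c : ℂ) (R θ : ℝ) : (circleMap c R θ).re = c.re + R * Real.cos θ ∧
    (circleMap c R θ).im = c.im + R * Real.sin θ := by
  unfold circleMap
  constructor
  · simp [Complex.exp_re]
  · simp [Complex.exp_im]

section Jstar

variable {f w : ℂ → ℂ} {Cw R : ℝ}

/-- integrability of the product function on `ℂ × [0,2π]`. -/
lemma J_fubini_integrable (hf : Differentiable ℂ f) (hw : Continuous w)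
    (hsupp : ∀ z : ℂ, (z.re < -1 ∨ 2 < z.re) → w z = 0) (hdec : ∀ z, ‖w z‖ ≤ Cw * wt z)
    (hInt : IntegrableOn (fun z => Real.log ‖f z‖ * wt z) {z : ℂ | -2 ≤ z.re ∧ z.re ≤ 3})
    (hR : 0 < R) (hR2 : R ≤ 1 / 2) :
    Integrable (fun p : ℂ × ℝ => w (p.1 - circleMap 0 R p.2) * (Real.log ‖f p.1‖ : ℂ))
      ((volume : Measure ℂ).prod (volume.restrict (Ioc 0 (2 * π)))) := by
  have hum : Measurable (fun z => Real.log ‖f z‖) := Real.measurable_log.comp hf.continuous.norm.measurable
  have hmeas : AEStronglyMeasurable (fun p : ℂ × ℝ => w (p.1 - circleMap 0 R p.2) * (Real.log ‖f p.1‖ : ℂ))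
      ((volume : Measure ℂ).prod (volume.restrict (Ioc 0 (2 * π)))) := by
    apply AEStronglyMeasurable.mul
    · apply Continuous.aestronglyMeasurable
      exact hw.comp (continuous_fst.sub ((continuous_circleMap 0 R).comp continuous_snd))
    · exact (Complex.measurable_ofReal.comp (hum.comp measurable_fst)).aestronglyMeasurable
  -- dominating function
  set S : Set ℂ := {z : ℂ | -2 ≤ z.re ∧ z.re ≤ 3} with hS
  have hSm : MeasurableSet S := by
    apply MeasurableSet.inter
    · exact measurableSet_le measurable_const Complex.measurable_re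
    · exact measurableSet_le Complex.measurable_re measurable_const
  have hdom : Integrable (S.indicator (fun z => 3 * |Cw| * |Real.log ‖f z‖ * wt z|)) := by
    rw [integrable_indicator_iff hSm]
    exact (hInt.abs).const_mul _
  have hbound : ∀ (z : ℂ) (θ : ℝ), ‖w (z - circleMap 0 R θ) * (Real.log ‖f z‖ : ℂ)‖ ≤
      S.indicator (fun z => 3 * |Cw| * |Real.log ‖f z‖ * wt z|) z := by
    intro z θ
    have hc := circleMap_re_im 0 R θ
    have hcos := Real.abs_cos_le_one θ
    have hsin := Real.abs_sin_le_one θ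
    have hRc : |R * Real.cos θ| ≤ 1/2 := by
      rw [abs_mul, abs_of_pos hR]; nlinarith [abs_nonneg (Real.cos θ)]
    have hRs : |R * Real.sin θ| ≤ 1/2 := by
      rw [abs_mul, abs_of_pos hR]; nlinarith [abs_nonneg (Real.sin θ)]
    by_cases hz : z ∈ S
    · rw [indicator_of_mem hz, norm_mul, Complex.norm_real, Real.norm_eq_abs, abs_mul,
        abs_of_pos (wt_pos z)]
      have h1 := hdec (z - circleMap 0 R θ)
      have h2 : wt (z - circleMap 0 R θ) ≤ 3 * wt z := by
        apply wt_shift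
        rw [Complex.sub_im, hc.2]
        simp only [Complex.zero_im, zero_add]
        rw [show z.im - R * Real.sin θ - z.im = -(R * Real.sin θ) by ring, abs_neg]
        linarith
      have h3 : ‖w (z - circleMap 0 R θ)‖ ≤ |Cw| * (3 * wt z) := by
        refine h1.trans ?_
        apply mul_le_mul (le_abs_self _) h2 (wt_pos _).le (abs_nonneg _)
      calc ‖w (z - circleMap 0 R θ)‖ * |Real.log ‖f z‖| ≤ |Cw| * (3 * wt z) * |Real.log ‖f z‖| :=
            mul_le_mul_of_nonneg_right h3 (abs_nonneg _)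
        _ = _ := by ring
    · rw [indicator_of_notMem hz]
      have : w (z - circleMap 0 R θ) = 0 := by
        apply hsupp
        rw [Complex.sub_re, hc.1]
        simp only [Complex.zero_re, zero_add]
        have h4 := abs_le.1 hRc
        simp only [hS, mem_ofPred_eq, not_and_or, not_le] at hz
        rcases hz with h | h
        · left; linarith [h4.1]
        · right; linarith [h4.2]
      rw [this]; simp
  rw [integrable_prod_iff' hmeas]
  have hone : ∀ θ : ℝ, Integrable (fun z => w (z - circleMap 0 R θ) * (Real.log ‖f z‖ : ℂ)) := by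
    intro θ
    refine Integrable.mono' hdom ?_ (Eventually.of_forall fun z => hbound z θ)
    apply AEStronglyMeasurable.mul
    · apply Continuous.aestronglyMeasurable
      exact hw.comp (continuous_id.sub continuous_const)
    · exact (Complex.measurable_ofReal.comp hum).aestronglyMeasurable
  refine ⟨Eventually.of_forall hone, ?_⟩
  refine Integrable.mono' (g := fun _ => ∫ z, S.indicator (fun z => 3 * |Cw| * |Real.log ‖f z‖ * wt z|) z)
    ?_ ?_ ?_
  · exact integrable_const _
  · exact hmeas.prod_swap.norm.integral_prod_right'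
  · refine Eventually.of_forall fun θ => ?_
    rw [Real.norm_of_nonneg (integral_nonneg fun _ => norm_nonneg _)]
    exact integral_mono (hone θ).norm hdom (fun z => hbound z θ)



lemma J_fubini_integrable' (hf : Differentiable ℂ f) (hw : Continuous w)
    (hsupp : ∀ z : ℂ, (z.re < -1 ∨ 2 < z.re) → w z = 0) (hdec : ∀ z, ‖w z‖ ≤ Cw * wt z)
    (hInt : IntegrableOn (fun z => Real.log ‖f z‖ * wt z) {z : ℂ | -2 ≤ z.re ∧ z.re ≤ 3})
    (hR : 0 < R) (hR2 : R ≤ 1 / 2) :
    Integrable (fun p : ℂ × ℝ => w p.1 * (Real.log ‖f (p.1 + circleMap 0 R p.2)‖ : ℂ))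
      ((volume : Measure ℂ).prod (volume.restrict (Ioc 0 (2 * π)))) := by
  have hF := J_fubini_integrable hf hw hsupp hdec hInt hR hR2
  have hum : Measurable (fun z => Real.log ‖f z‖) :=
    Real.measurable_log.comp hf.continuous.norm.measurable
  have hmeasF : AEStronglyMeasurable (fun p : ℂ × ℝ => w p.1 *
      (Real.log ‖f (p.1 + circleMap 0 R p.2)‖ : ℂ))
      ((volume : Measure ℂ).prod (volume.restrict (Ioc 0 (2 * π)))) := by
    apply AEStronglyMeasurable.mul
    · exact (hw.comp continuous_fst).aestronglyMeasurable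
    · exact (Complex.measurable_ofReal.comp (hum.comp
        (continuous_fst.add ((continuous_circleMap 0 R).comp continuous_snd)).measurable)).aestronglyMeasurable
  have hG := (integrable_prod_iff' hF.aestronglyMeasurable).1 hF
  rw [integrable_prod_iff' hmeasF]
  refine ⟨?_, ?_⟩
  · filter_upwards [hG.1] with θ hθ
    have := hθ.comp_add_right (circleMap 0 R θ)
    refine this.congr (Eventually.of_forall fun c => ?_)
    simp
  · refine hG.2.congr (Eventually.of_forall fun θ => ?_)
    have := integral_add_right_eq_self (μ := (volume : Measure ℂ))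
      (fun z : ℂ => ‖w (z - circleMap 0 R θ) * (Real.log ‖f z‖ : ℂ)‖) (circleMap 0 R θ)
    simp only
    rw [← this]
    simp

lemma J_avg_w (z : ℂ) (R : ℝ) (w : ℂ → ℂ) (a : ℂ) :
    a * circleAverage w z R = (2 * π : ℂ)⁻¹ * ∫ θ in Ioc 0 (2 * π), w (z - circleMap 0 R θ) * a := by
  rw [← circleAverage_neg_radius, circleAverage_def, intervalIntegral.integral_of_le (by positivity)]
  rw [integral_mul_const]
  have : ∀ θ, circleMap z (-R) θ = z - circleMap 0 R θ := by
    intro θ
    unfold circleMap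
    push_cast; ring
  simp_rw [this]
  rw [Complex.real_smul]
  push_cast
  ring

lemma J_avg_u (c : ℂ) (R : ℝ) (u : ℂ → ℝ) (a : ℂ) :
    a * ((circleAverage u c R : ℝ) : ℂ) =
      (2 * π : ℂ)⁻¹ * ∫ θ in Ioc 0 (2 * π), a * (u (c + circleMap 0 R θ) : ℂ) := by
  rw [circleAverage_def, intervalIntegral.integral_of_le (by positivity)]
  rw [integral_const_mul]
  have : ∀ θ, circleMap c R θ = c + circleMap 0 R θ := by
    intro θ
    unfold circleMap
    ring
  simp_rw [this]
  simp only [smul_eq_mul]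
  rw [integral_complex_ofReal]
  push_cast
  ring

/-- integrated Jensen formula, left-hand side after Fubini -/
lemma J_lhs (hf : Differentiable ℂ f) (hw : Continuous w)
    (hsupp : ∀ z : ℂ, (z.re < -1 ∨ 2 < z.re) → w z = 0) (hdec : ∀ z, ‖w z‖ ≤ Cw * wt z)
    (hInt : IntegrableOn (fun z => Real.log ‖f z‖ * wt z) {z : ℂ | -2 ≤ z.re ∧ z.re ≤ 3})
    (hR : 0 < R) (hR2 : R ≤ 1 / 2) :
    Integrable (fun c => w c * ((circleAverage (fun z => Real.log ‖f z‖) c R : ℝ) : ℂ)) ∧
    Integrable (fun z => (Real.log ‖f z‖ : ℂ) * circleAverage w z R) ∧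
    ∫ c, w c * ((circleAverage (fun z => Real.log ‖f z‖) c R : ℝ) : ℂ) =
      ∫ z, (Real.log ‖f z‖ : ℂ) * circleAverage w z R := by
  have hF := J_fubini_integrable hf hw hsupp hdec hInt hR hR2
  have hF2 := J_fubini_integrable' hf hw hsupp hdec hInt hR hR2
  simp_rw [J_avg_w, J_avg_u]
  refine ⟨?_, ?_, ?_⟩
  · exact hF2.integral_prod_left.const_mul _
  · exact hF.integral_prod_left.const_mul _
  rw [integral_const_mul, integral_const_mul]
  congr 1
  rw [integral_integral_swap (f := fun c θ => w c * (Real.log ‖f (c + circleMap 0 R θ)‖ : ℂ)) hF2,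
    integral_integral_swap (f := fun z θ => w (z - circleMap 0 R θ) * (Real.log ‖f z‖ : ℂ)) hF]
  congr 1
  ext θ
  have := integral_add_right_eq_self (μ := (volume : Measure ℂ))
    (fun z : ℂ => w (z - circleMap 0 R θ) * (Real.log ‖f z‖ : ℂ)) (circleMap 0 R θ)
  rw [← this]
  simp

lemma w_mul_posLog_bound (hdec : ∀ z, ‖w z‖ ≤ Cw * wt z) (hR : 0 < R) (hR2 : R ≤ 1 / 2) (ρ c : ℂ) :
    ‖w c * (log⁺ (R * ‖c - ρ‖⁻¹) : ℂ)‖ ≤ 3 * |Cw| * wt ρ * log⁺ (R * ‖c - ρ‖⁻¹) := by
  rw [norm_mul, Complex.norm_real, Real.norm_of_nonneg posLog_nonneg]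
  by_cases h : ‖c - ρ‖ ≤ R
  · apply mul_le_mul_of_nonneg_right _ posLog_nonneg
    have h1 : wt c ≤ 3 * wt ρ := by
      apply wt_shift
      have := Complex.abs_im_le_norm (c - ρ)
      rw [Complex.sub_im] at this
      linarith
    have h0 := (wt_pos c).le
    calc ‖w c‖ ≤ Cw * wt c := hdec c
      _ ≤ |Cw| * wt c := mul_le_mul_of_nonneg_right (le_abs_self _) h0
      _ ≤ |Cw| * (3 * wt ρ) := mul_le_mul_of_nonneg_left h1 (abs_nonneg _)
      _ = _ := by ring
  · have : log⁺ (R * ‖c - ρ‖⁻¹) = 0 := by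
      rw [posLog_eq_zero_iff, abs_of_nonneg (by positivity)]
      rw [not_le] at h
      rw [← div_eq_mul_inv, div_le_one (lt_trans hR h)]
      exact h.le
    rw [this]; simp

lemma w_mul_posLog_integrable (hw : Continuous w) (hdec : ∀ z, ‖w z‖ ≤ Cw * wt z) (hR : 0 < R)
    (hR2 : R ≤ 1 / 2) (ρ : ℂ) : Integrable (fun c => w c * (log⁺ (R * ‖c - ρ‖⁻¹) : ℂ)) := by
  refine Integrable.mono' ((integrable_posLog_scale hR ρ).const_mul (3 * |Cw| * wt ρ)) ?_
    (Eventually.of_forall fun c => w_mul_posLog_bound hdec hR hR2 ρ c)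
  apply AEStronglyMeasurable.mul hw.aestronglyMeasurable
  exact Complex.continuous_ofReal.comp_aestronglyMeasurable
    (integrable_posLog_scale hR ρ).aestronglyMeasurable

lemma w_mul_posLog_norm_integral (hw : Continuous w) (hdec : ∀ z, ‖w z‖ ≤ Cw * wt z) (hR : 0 < R)
    (hR2 : R ≤ 1 / 2) (ρ : ℂ) : ∫ c, ‖w c * (log⁺ (R * ‖c - ρ‖⁻¹) : ℂ)‖ ≤
      3 * |Cw| * wt ρ * (R ^ 2 * (π / 2)) := by
  rw [← integral_posLog_scale hR ρ, ← integral_const_mul]
  exact integral_mono (w_mul_posLog_integrable hw hdec hR hR2 ρ).norm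
    ((integrable_posLog_scale hR ρ).const_mul _) (fun c => w_mul_posLog_bound hdec hR hR2 ρ c)

/-- The integrated Jensen formula. -/
theorem Jstar (hf : Differentiable ℂ f) (hZc : {z | f z = 0}.Countable) (hw : Continuous w)
    (hsupp : ∀ z : ℂ, (z.re < -1 ∨ 2 < z.re) → w z = 0) (hdec : ∀ z, ‖w z‖ ≤ Cw * wt z)
    (hInt : IntegrableOn (fun z => Real.log ‖f z‖ * wt z) {z : ℂ | -2 ≤ z.re ∧ z.re ≤ 3})
    (hSum : Summable fun ρ : Zst f => (analyticOrderNatAt f ρ : ℝ) * wt ρ)
    (hR : 0 < R) (hR2 : R ≤ 1 / 2) :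
    ∫ z, (Real.log ‖f z‖ : ℂ) * (circleAverage w z R - w z) =
      ∑' ρ : Zst f, (analyticOrderNatAt f ρ : ℂ) * ∫ c, w c * (log⁺ (R * ‖c - ρ‖⁻¹) : ℂ) := by
  obtain ⟨hI1, hI2, hE⟩ := J_lhs hf hw hsupp hdec hInt hR hR2
  have hcount : Countable (Zst f) := (hZc.mono (fun z hz => hz.1)).to_subtype
  have hum : Measurable (fun z => Real.log ‖f z‖) :=
    Real.measurable_log.comp hf.continuous.norm.measurable
  -- integrability of w * u
  have hwu : Integrable (fun z => w z * (Real.log ‖f z‖ : ℂ)) := by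
    set S : Set ℂ := {z : ℂ | -2 ≤ z.re ∧ z.re ≤ 3} with hS
    have hSm : MeasurableSet S := by
      apply MeasurableSet.inter
      · exact measurableSet_le measurable_const Complex.measurable_re
      · exact measurableSet_le Complex.measurable_re measurable_const
    have hdom : Integrable (S.indicator (fun z => |Cw| * |Real.log ‖f z‖ * wt z|)) := by
      rw [integrable_indicator_iff hSm]
      exact (hInt.abs).const_mul _
    refine Integrable.mono' hdom ?_ (Eventually.of_forall fun z => ?_)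
    · exact hw.aestronglyMeasurable.mul (Complex.measurable_ofReal.comp hum).aestronglyMeasurable
    · by_cases hz : z ∈ S
      · rw [indicator_of_mem hz, norm_mul, Complex.norm_real, Real.norm_eq_abs, abs_mul,
          abs_of_pos (wt_pos z)]
        have := (hdec z).trans (mul_le_mul_of_nonneg_right (le_abs_self Cw) (wt_pos z).le)
        calc ‖w z‖ * |Real.log ‖f z‖| ≤ |Cw| * wt z * |Real.log ‖f z‖| :=
              mul_le_mul_of_nonneg_right this (abs_nonneg _)
          _ = _ := by ring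
      · rw [indicator_of_notMem hz]
        have : w z = 0 := by
          apply hsupp
          simp only [hS, mem_ofPred_eq, not_and_or, not_le] at hz
          rcases hz with h | h
          · left; linarith
          · right; linarith
        rw [this]; simp
  have hwu' : Integrable (fun z => (Real.log ‖f z‖ : ℂ) * w z) := by
    refine hwu.congr (Eventually.of_forall fun z => ?_)
    simp only; ring
  -- left side
  have eL : ∫ z, (Real.log ‖f z‖ : ℂ) * (circleAverage w z R - w z) =
      ∫ c, (w c * ((circleAverage (fun z => Real.log ‖f z‖) c R : ℝ) : ℂ) - w c * (Real.log ‖f c‖ : ℂ)) := by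
    rw [integral_sub hI1 hwu, hE]
    simp_rw [mul_sub]
    rw [integral_sub hI2 hwu']
    congr 1
    congr 1
    ext z; ring
  rw [eL]
  -- pointwise Jensen
  have hpt : ∀ᵐ c : ℂ, w c * ((circleAverage (fun z => Real.log ‖f z‖) c R : ℝ) : ℂ) -
      w c * (Real.log ‖f c‖ : ℂ) =
      ∑' ρ : Zst f, (analyticOrderNatAt f ρ : ℂ) * (w c * (log⁺ (R * ‖c - ρ‖⁻¹) : ℂ)) := by
    have hae : ∀ᵐ c : ℂ, f c ≠ 0 := by
      have := hZc.measure_zero (volume : Measure ℂ)
      rw [ae_iff]
      simpa using this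
    filter_upwards [hae] with c hc
    by_cases hcs : c.re < -1 ∨ 2 < c.re
    · rw [hsupp c hcs]; simp
    · push Not at hcs
      have hJ := jensen_small hf (c := c) hR (Z := Zst f) ?_ (fun z hz => hz.1) hc
      · rw [hJ]
        push_cast
        rw [mul_add, add_sub_cancel_right, ← tsum_mul_left]
        apply tsum_congr
        intro ρ
        push_cast; ring
      · intro z hz hfz
        refine ⟨hfz, ?_, ?_⟩
        · rw [mem_closedBall, dist_eq_norm] at hz
          have := Complex.abs_re_le_norm (z - c)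
          rw [Complex.sub_re] at this
          have h3 := (abs_le.1 (this.trans hz)).1
          linarith [hcs.1]
        · rw [mem_closedBall, dist_eq_norm] at hz
          have := Complex.abs_re_le_norm (z - c)
          rw [Complex.sub_re] at this
          have h3 := (abs_le.1 (this.trans hz)).2
          linarith [hcs.2]
  rw [integral_congr_ae hpt]
  have hs := hasSum_integral_of_summable_integral_norm
    (F := fun (ρ : Zst f) (c : ℂ) => (analyticOrderNatAt f ρ : ℂ) * (w c * (log⁺ (R * ‖c - ρ‖⁻¹) : ℂ)))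
    (μ := volume) (fun ρ => (w_mul_posLog_integrable hw hdec hR hR2 ρ).const_mul _) ?_
  · rw [← hs.tsum_eq]
    apply tsum_congr
    intro ρ
    rw [integral_const_mul]
  · refine Summable.of_nonneg_of_le (fun ρ => integral_nonneg fun _ => norm_nonneg _) ?_
      (hSum.mul_left (3 * |Cw| * (R ^ 2 * (π / 2))))
    intro ρ
    simp_rw [norm_mul (analyticOrderNatAt f ρ : ℂ)]
    rw [integral_const_mul]
    have h1 := w_mul_posLog_norm_integral hw hdec hR hR2 (ρ : ℂ)
    have h2 : ‖(analyticOrderNatAt f ρ : ℂ)‖ = (analyticOrderNatAt f ρ : ℝ) := by simp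
    rw [h2]
    calc (analyticOrderNatAt f ρ : ℝ) * ∫ c, ‖w c * (log⁺ (R * ‖c - ρ‖⁻¹) : ℂ)‖
        ≤ (analyticOrderNatAt f ρ : ℝ) * (3 * |Cw| * wt ρ * (R ^ 2 * (π / 2))) :=
          mul_le_mul_of_nonneg_left h1 (Nat.cast_nonneg _)
      _ = _ := by ring

end Jstar

end Green

end Pool.Agent.PairCorr
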