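import Mathlib
import Pool.Agent.PairCorr.C_Green

set_option autoImplicit false

namespace Pool.Agent.PairCorr

open MeasureTheory Filter Topology Set Real
open scoped FourierTransform

section Kernel

/-- A test function: smooth, supported in `[-b,b]`. -/
structure TF (φ : ℝ → ℝ) (b : ℝ) : Prop where
  smooth : ContDiff ℝ (⊤ : ℕ∞) φ
  supp : ∀ v, b < |v| → φ v = 0

variable {φ : ℝ → ℝ} {b : ℝ}

lemma TF.cont (h : TF φ b) : Continuous φ := h.smooth.continuous

lemma TF.hasCompactSupport (h : TF φ b) : HasCompactSupport φ := by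
  apply HasCompactSupport.intro (isCompact_Icc (a := -b) (b := b))
  intro x hx
  apply h.supp
  by_contra hc
  push Not at hc
  exact hx (abs_le.1 hc)

lemma TF.deriv (h : TF φ b) : TF (deriv φ) b where
  smooth := (contDiff_infty_iff_deriv.1 h.smooth).2
  supp := by
    intro v hv
    have hopen : IsOpen {v : ℝ | b < |v|} := isOpen_lt continuous_const continuous_abs
    have : φ =ᶠ[𝓝 v] fun _ => 0 := by
      filter_upwards [hopen.mem_nhds hv] with x hx using h.supp x hx
    rw [this.deriv_eq]; simp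

lemma TF.hasDerivAt (h : TF φ b) (v : ℝ) : HasDerivAt φ (_root_.deriv φ v) v :=
  ((contDiff_infty_iff_deriv.1 h.smooth).1 v).hasDerivAt

lemma TF.mul_id (h : TF φ b) : TF (fun v => v * φ v) b where
  smooth := contDiff_id.mul h.smooth
  supp := by intro v hv; simp [h.supp v hv]

lemma TF.mul {ψ : ℝ → ℝ} (h : TF φ b) (h' : ContDiff ℝ (⊤ : ℕ∞) ψ) : TF (fun v => ψ v * φ v) b where
  smooth := h'.mul h.smooth
  supp := by intro v hv; simp [h.supp v hv]

lemma TF.add {ψ : ℝ → ℝ} (h : TF φ b) (h' : TF ψ b) : TF (fun v => φ v + ψ v) b where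
  smooth := h.smooth.add h'.smooth
  supp := by intro v hv; simp [h.supp v hv, h'.supp v hv]

lemma TF.sub {ψ : ℝ → ℝ} (h : TF φ b) (h' : TF ψ b) : TF (fun v => φ v - ψ v) b where
  smooth := h.smooth.sub h'.smooth
  supp := by intro v hv; simp [h.supp v hv, h'.supp v hv]

lemma TF.mono {b' : ℝ} (h : TF φ b) (hb : b ≤ b') : TF φ b' where
  smooth := h.smooth
  supp := by intro v hv; exact h.supp v (lt_of_le_of_lt hb hv)

/-- The kernel `∫ φ(v) e^{vw} dv`. -/
noncomputable def Kc (φ : ℝ → ℝ) (w : ℂ) : ℂ := ∫ v : ℝ, (φ v : ℂ) * Complex.exp (v * w)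

lemma TF.integrable (h : TF φ b) : Integrable φ :=
  h.cont.integrable_of_hasCompactSupport h.hasCompactSupport

lemma TF.integrable_exp (h : TF φ b) (w : ℂ) :
    Integrable (fun v : ℝ => (φ v : ℂ) * Complex.exp (v * w)) := by
  apply Continuous.integrable_of_hasCompactSupport
  · have := h.cont
    fun_prop
  · apply HasCompactSupport.mul_right
    exact h.hasCompactSupport.comp_left (g := fun x : ℝ => (x : ℂ)) (by simp)

lemma TF.norm_exp_le (h : TF φ b) (v : ℝ) (w : ℂ) :
    ‖(φ v : ℂ) * Complex.exp (v * w)‖ ≤ Real.exp (b * |w.re|) * |φ v| := by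
  rw [norm_mul, Complex.norm_real, Real.norm_eq_abs, Complex.norm_exp, mul_comm]
  by_cases hv : b < |v|
  · rw [h.supp v hv]; simp
  · push Not at hv
    apply mul_le_mul_of_nonneg_right _ (abs_nonneg _)
    apply Real.exp_le_exp.2
    simp only [Complex.mul_re, Complex.ofReal_re, Complex.ofReal_im, zero_mul, sub_zero]
    calc v * w.re ≤ |v * w.re| := le_abs_self _
      _ = |v| * |w.re| := abs_mul _ _
      _ ≤ b * |w.re| := mul_le_mul_of_nonneg_right hv (abs_nonneg _)

lemma TF.norm_Kc_le (h : TF φ b) (w : ℂ) :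
    ‖Kc φ w‖ ≤ Real.exp (b * |w.re|) * ∫ v, |φ v| := by
  unfold Kc
  refine (norm_integral_le_integral_norm _).trans ?_
  rw [← integral_const_mul]
  exact integral_mono (h.integrable_exp w).norm (h.integrable.abs.const_mul _)
    (fun v => h.norm_exp_le v w)

/-- integration by parts -/
lemma TF.mul_Kc (h : TF φ b) (w : ℂ) : w * Kc φ w = - Kc (_root_.deriv φ) w := by
  have hd : ∀ v : ℝ, HasDerivAt (fun v : ℝ => (φ v : ℂ) * Complex.exp (v * w))
      (((_root_.deriv φ v : ℝ) : ℂ) * Complex.exp (v * w) + w * ((φ v : ℂ) * Complex.exp (v * w))) v := by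
    intro v
    have e1 : HasDerivAt (fun v : ℝ => (φ v : ℂ)) ((_root_.deriv φ v : ℝ) : ℂ) v :=
      (h.hasDerivAt v).ofReal_comp
    have e2 : HasDerivAt (fun v : ℝ => Complex.exp (v * w)) (Complex.exp (v * w) * w) v := by
      have : HasDerivAt (fun v : ℝ => (v : ℂ) * w) w v := by
        simpa using (Complex.ofRealCLM.hasDerivAt (x := v)).mul_const w
      exact this.cexp
    exact (e1.mul e2).congr_deriv (by ring)
  have h0 := integral_eq_zero_of_hasDerivAt_of_integrable hd
    ((h.deriv.integrable_exp w).add ((h.integrable_exp w).const_mul w)) (h.integrable_exp w)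
  rw [integral_add (h.deriv.integrable_exp w) ((h.integrable_exp w).const_mul w),
    integral_const_mul] at h0
  unfold Kc
  linear_combination h0

lemma TF.decay (h : TF φ b) (j : ℕ) : ∃ C : ℝ, 0 ≤ C ∧ ∀ w : ℂ,
    ‖w‖ ^ j * ‖Kc φ w‖ ≤ C * Real.exp (b * |w.re|) := by
  induction j generalizing φ with
  | zero =>
    refine ⟨∫ v, |φ v|, integral_nonneg fun _ => abs_nonneg _, fun w => ?_⟩
    have := h.norm_Kc_le w
    simp only [pow_zero, one_mul]
    linarith [mul_comm (∫ v, |φ v|) (Real.exp (b * |w.re|))]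
  | succ j ih =>
    obtain ⟨C, hC0, hC⟩ := ih h.deriv
    refine ⟨C, hC0, fun w => ?_⟩
    have h1 := hC w
    have h2 : ‖w‖ * ‖Kc φ w‖ = ‖Kc (_root_.deriv φ) w‖ := by
      rw [← norm_mul, h.mul_Kc, norm_neg]
    rw [pow_succ, mul_assoc, h2]
    exact h1

lemma TF.decay_one_add (h : TF φ b) (j : ℕ) : ∃ C : ℝ, 0 ≤ C ∧ ∀ w : ℂ,
    (1 + ‖w‖) ^ j * ‖Kc φ w‖ ≤ C * Real.exp (b * |w.re|) := by
  obtain ⟨C0, hC0, h0⟩ := h.decay 0
  obtain ⟨C1, hC1, h1⟩ := h.decay j
  refine ⟨2 ^ j * (C0 + C1), by positivity, fun w => ?_⟩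
  have hK := norm_nonneg (Kc φ w)
  have e : (1 + ‖w‖) ^ j ≤ 2 ^ j * (1 + ‖w‖ ^ j) := by
    rcases le_total ‖w‖ 1 with hw | hw
    · calc (1 + ‖w‖) ^ j ≤ 2 ^ j := by
            apply pow_le_pow_left₀ (by positivity); linarith
        _ ≤ 2 ^ j * (1 + ‖w‖ ^ j) := by
            apply le_mul_of_one_le_right (by positivity)
            linarith [pow_nonneg (norm_nonneg w) j]
    · calc (1 + ‖w‖) ^ j ≤ (2 * ‖w‖) ^ j := by
            apply pow_le_pow_left₀ (by positivity); linarith
        _ = 2 ^ j * ‖w‖ ^ j := mul_pow _ _ _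
        _ ≤ 2 ^ j * (1 + ‖w‖ ^ j) := by
            apply mul_le_mul_of_nonneg_left _ (by positivity)
            linarith
  have h0' := h0 w
  have h1' := h1 w
  simp only [pow_zero, one_mul] at h0'
  calc (1 + ‖w‖) ^ j * ‖Kc φ w‖ ≤ 2 ^ j * (1 + ‖w‖ ^ j) * ‖Kc φ w‖ :=
        mul_le_mul_of_nonneg_right e hK
    _ = 2 ^ j * (‖Kc φ w‖ + ‖w‖ ^ j * ‖Kc φ w‖) := by ring
    _ ≤ 2 ^ j * (C0 * Real.exp (b * |w.re|) + C1 * Real.exp (b * |w.re|)) := by
        apply mul_le_mul_of_nonneg_left _ (by positivity)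
        linarith
    _ = _ := by ring

lemma TF.hasDerivAt_Kc (h : TF φ b) (w : ℂ) :
    HasDerivAt (Kc φ) (Kc (fun v => v * φ v) w) w := by
  have hkey := hasDerivAt_integral_of_dominated_loc_of_deriv_le (μ := (volume : Measure ℝ))
    (F := fun (w : ℂ) (v : ℝ) => (φ v : ℂ) * Complex.exp (v * w))
    (F' := fun (w : ℂ) (v : ℝ) => ((v * φ v : ℝ) : ℂ) * Complex.exp (v * w))
    (x₀ := w) (s := Metric.ball w 1) (bound := fun v => Real.exp (|b| * (|w.re| + 1)) * |v * φ v|)
    (Metric.ball_mem_nhds w one_pos) ?_ (h.integrable_exp w) ?_ ?_ ?_ ?_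
  · exact hkey.2
  · filter_upwards with x
    exact (h.integrable_exp x).aestronglyMeasurable
  · exact (h.mul_id.integrable_exp w).aestronglyMeasurable
  · filter_upwards with v x hx
    refine (h.mul_id.norm_exp_le v x).trans ?_
    apply mul_le_mul_of_nonneg_right _ (abs_nonneg _)
    apply Real.exp_le_exp.2
    have h1 : |x.re| ≤ |w.re| + 1 := by
      rw [Metric.mem_ball, dist_eq_norm] at hx
      have := Complex.abs_re_le_norm (x - w)
      rw [Complex.sub_re] at this
      have h2 := abs_sub_abs_le_abs_sub x.re w.re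
      linarith
    calc b * |x.re| ≤ |b| * |x.re| := mul_le_mul_of_nonneg_right (le_abs_self _) (abs_nonneg _)
      _ ≤ |b| * (|w.re| + 1) := mul_le_mul_of_nonneg_left h1 (abs_nonneg _)
  · exact h.mul_id.integrable.abs.const_mul _
  · filter_upwards with v x _
    have h1 : HasDerivAt (fun x : ℂ => (v : ℂ) * x) v x := by
      simpa using (hasDerivAt_id x).const_mul (v : ℂ)
    have h2 := (h1.cexp).const_mul (φ v : ℂ)
    refine h2.congr_deriv ?_
    push_cast; ring

lemma TF.differentiable_Kc (h : TF φ b) : Differentiable ℂ (Kc φ) :=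
  fun w => (h.hasDerivAt_Kc w).differentiableAt

/-- Fourier inversion for the kernel on vertical lines -/
lemma TF.inversion (h : TF φ b) (x u : ℝ) :
    Integrable (fun τ : ℝ => Kc φ (x + τ * Complex.I) * Complex.exp (-(u * τ * Complex.I))) ∧
    ∫ τ : ℝ, Kc φ (x + τ * Complex.I) * Complex.exp (-(u * τ * Complex.I)) =
      2 * π * ((φ u : ℂ) * Real.exp (u * x)) := by
  set f : ℝ → ℂ := fun v => (φ v : ℂ) * (Real.exp (v * x) : ℂ) with hf
  have hfc : Continuous f := by
    have := h.cont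
    fun_prop
  have hfi : Integrable f := by
    have := h.integrable_exp (x : ℂ)
    refine this.congr (Eventually.of_forall fun v => ?_)
    simp [hf]
  have hFf : ∀ ξ : ℝ, 𝓕 f ξ = Kc φ (x + ((-2 * π * ξ : ℝ) : ℂ) * Complex.I) := by
    intro ξ
    rw [fourier_real_eq_integral_exp_smul]
    unfold Kc
    congr 1
    ext v
    simp only [hf, smul_eq_mul]
    have : Complex.exp (v * (x + ((-2 * π * ξ : ℝ) : ℂ) * Complex.I)) =
        Complex.exp (((-2 * π * v * ξ : ℝ) : ℂ) * Complex.I) * (Real.exp (v * x) : ℂ) := by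
      rw [Complex.ofReal_exp, ← Complex.exp_add]
      congr 1
      push_cast; ring
    rw [this]
    ring
  have hKint : Integrable (fun τ : ℝ => Kc φ (x + τ * Complex.I)) := by
    obtain ⟨C, hC0, hC⟩ := h.decay_one_add 2
    have hcont : Continuous (fun τ : ℝ => Kc φ (x + τ * Complex.I)) :=
      h.differentiable_Kc.continuous.comp (by fun_prop)
    refine Integrable.mono' (g := fun τ => C * Real.exp (b * |x|) * (1 + τ ^ 2)⁻¹)
      (integrable_inv_one_add_sq.const_mul _) hcont.aestronglyMeasurable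
      (Eventually.of_forall fun τ => ?_)
    have h1 := hC (x + τ * Complex.I)
    have hre : (x + τ * Complex.I : ℂ).re = x := by simp
    have him : (x + τ * Complex.I : ℂ).im = τ := by simp
    rw [hre] at h1
    have h2 : 1 + τ ^ 2 ≤ (1 + ‖(x + τ * Complex.I : ℂ)‖) ^ 2 := by
      have := Complex.abs_im_le_norm (x + τ * Complex.I : ℂ)
      rw [him] at this
      nlinarith [sq_abs τ, abs_nonneg τ, norm_nonneg (x + τ * Complex.I : ℂ)]
    rw [← div_eq_mul_inv, le_div_iff₀ (by positivity), mul_comm]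
    exact (mul_le_mul_of_nonneg_right h2 (norm_nonneg _)).trans h1
  have hFint : Integrable (𝓕 f) := by
    have h1 := hKint.comp_mul_left' (R := -2 * π) (by have := Real.pi_pos; nlinarith)
    refine h1.congr (Eventually.of_forall fun ξ => ?_)
    rw [hFf]
  have hinv := congrFun (hfc.fourierInv_fourier_eq hfi hFint) u
  constructor
  · refine Integrable.mono' hKint.norm ?_ (Eventually.of_forall fun τ => ?_)
    · apply hKint.aestronglyMeasurable.mul
      exact (Continuous.aestronglyMeasurable (by fun_prop))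
    · rw [norm_mul, Complex.norm_exp]
      simp
  · rw [Real.fourierInv_eq'] at hinv
    simp_rw [hFf] at hinv
    have h2 := Measure.integral_comp_mul_left
      (fun τ : ℝ => Kc φ (x + τ * Complex.I) * Complex.exp (-(u * τ * Complex.I))) (-2 * π)
    have h3 : ∫ ξ : ℝ, Kc φ (x + ((-2 * π * ξ : ℝ) : ℂ) * Complex.I) *
        Complex.exp (-(u * ((-2 * π * ξ : ℝ) : ℂ) * Complex.I)) = f u := by
      rw [← hinv]
      congr 1
      ext ξ
      rw [smul_eq_mul, mul_comm]
      congr 2
      simp only [RCLike.inner_apply, conj_trivial]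
      push_cast; ring
    rw [h3] at h2
    have hpi := Real.pi_pos
    have h4 : |(-2 * π)⁻¹| = (2 * π)⁻¹ := by
      rw [abs_inv, show -2 * π = -(2 * π) by ring, abs_neg, abs_of_pos (by positivity)]
    rw [h4, Complex.real_smul] at h2
    have hpi' : (π : ℂ) ≠ 0 := by exact_mod_cast hpi.ne'
    simp only [hf] at h2
    rw [h2]
    generalize (∫ τ : ℝ, Kc φ (x + τ * Complex.I) * Complex.exp (-(u * τ * Complex.I))) = X
    push_cast
    field_simp

end Kernel

end Pool.Agent.PairCorr
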