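import Mathlib
import Pool.Agent.PairCorr.Defs
import Pool.Agent.PairCorr.B_LocalCount
import Pool.Agent.PairCorr.C_Green

/-!
The measure `∑ m_ρ δ_ρ` on the nontrivial zeros, and general estimates for measures with
logarithmic local density.
-/

set_option autoImplicit false

namespace Pool.Agent.PairCorr

open MeasureTheory Filter Topology Set Real
open scoped ENNReal

lemma countable_zeros : riemannZetaZeros.Countable := by
  have h : riemannZetaZeros = ⋃ n : ℕ, (Metric.closedBall (0 : ℂ) n ∩ riemannZetaZeros) := by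
    ext z
    simp only [mem_iUnion, mem_inter_iff, Metric.mem_closedBall, dist_zero_right, exists_and_right]
    refine ⟨fun hz => ⟨⟨⌈‖z‖⌉₊, Nat.le_ceil _⟩, hz⟩, fun hz => hz.2⟩
  rw [h]
  exact countable_iUnion fun n =>
    ((isCompact_closedBall (0:ℂ) n).inter_riemannZetaZeros_finite).countable

lemma countable_NTZ : NTZ.Countable := countable_zeros.mono fun _ h => h.1

instance : Countable NTZ := countable_NTZ.to_subtype

/-- The zero counting measure. -/
noncomputable def muZ : Measure ℂ :=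
  Measure.sum (fun ρ : NTZ => ((mult ρ : ℕ) : ℝ≥0∞) • Measure.dirac (ρ : ℂ))

instance : SFinite muZ := by unfold muZ; infer_instance

lemma muZ_integrable_iff {E : Type*} [NormedAddCommGroup E] {f : ℂ → E} :
    Integrable f muZ ↔ Summable fun ρ : NTZ => (mult ρ : ℝ) * ‖f ρ‖ := by
  unfold muZ
  rw [integrable_sum_dirac_iff (by intro i; simp)]
  simp

lemma muZ_integral {E : Type*} [NormedAddCommGroup E] [NormedSpace ℝ E] [CompleteSpace E] {f : ℂ → E}
    (hf : Integrable f muZ) :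
    ∫ z, f z ∂muZ = ∑' ρ : NTZ, (mult ρ : ℝ) • f ρ := by
  have h := (muZ_integrable_iff.1 hf)
  unfold muZ
  rw [integral_sum_dirac_eq_tsum (by intro i; simp)]
  · simp
  · simpa using h

lemma muZ_lintegral {f : ℂ → ℝ≥0∞} :
    ∫⁻ z, f z ∂muZ = ∑' ρ : NTZ, (mult ρ : ℝ≥0∞) * f ρ := by
  unfold muZ
  rw [lintegral_sum_measure]
  simp

lemma muZ_apply {s : Set ℂ} : muZ s = ∑' ρ : NTZ, (mult ρ : ℝ≥0∞) * s.indicator 1 (ρ : ℂ) := by
  have h : muZ s = ∑' ρ : NTZ, (((mult ρ : ℕ) : ℝ≥0∞) • Measure.dirac (ρ : ℂ)) s := by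
    unfold muZ
    rw [Measure.sum_apply_of_countable]
  rw [h]
  simp

/-- a.e. point for `muZ` is a nontrivial zero -/
lemma muZ_ae : ∀ᵐ z ∂muZ, z ∈ NTZ := by
  rw [ae_iff, muZ_apply]
  simp

lemma muZ_window : ∃ C : ℝ, 0 < C ∧ ∀ t : ℝ,
    muZ {z | |z.im - t| ≤ 1} ≤ ENNReal.ofReal (C * Real.log (|t| + 2)) := by
  obtain ⟨C, hC, h⟩ := exists_local_count_finset
  refine ⟨C, hC, fun t => ?_⟩
  rw [muZ_apply]
  apply ENNReal.summable.tsum_le_of_sum_le
  intro s
  classical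
  set S : Finset ℂ := (s.filter (fun ρ : NTZ => |(ρ:ℂ).im - t| ≤ 1)).map
    ⟨(fun ρ : NTZ => (ρ : ℂ)), Subtype.coe_injective⟩ with hS
  have e : ∑ ρ ∈ s, (mult (ρ:ℂ) : ℝ≥0∞) * ({z : ℂ | |z.im - t| ≤ 1} : Set ℂ).indicator 1 (ρ : ℂ) =
      ENNReal.ofReal (∑ ρ ∈ S, (mult ρ : ℝ)) := by
    rw [ENNReal.ofReal_sum_of_nonneg (fun _ _ => Nat.cast_nonneg _), hS, Finset.sum_map,
      Finset.sum_filter]
    apply Finset.sum_congr rfl
    intro ρ _
    by_cases h1 : |(ρ:ℂ).im - t| ≤ 1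
    · simp [h1]
    · simp [h1]
  rw [e]
  apply ENNReal.ofReal_le_ofReal
  apply h t
  intro ρ hρ
  simp only [hS, Finset.mem_map, Finset.mem_filter, Function.Embedding.coeFn_mk] at hρ
  obtain ⟨a, ha, rfl⟩ := hρ
  exact ⟨a.2, ha.2⟩

/-- A measure on `ℂ` whose local mass grows at most logarithmically. -/
def LogDens (μ : Measure ℂ) (C : ℝ) : Prop :=
  ∀ t : ℝ, μ {z | |z.im - t| ≤ 1} ≤ ENNReal.ofReal (C * Real.log (|t| + 2))

lemma log_add_le (t : ℝ) (n : ℤ) : Real.log (|t + n| + 2) ≤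
    Real.log (|t| + 2) * (1 + 2 * Real.log (|(n:ℝ)| + 2)) := by
  have h2 : (1:ℝ) / 2 ≤ Real.log 2 := by
    have := Real.log_two_gt_d9; linarith
  have ht := abs_nonneg t
  have hn := abs_nonneg (n : ℝ)
  have h3 : Real.log 2 ≤ Real.log (|t| + 2) := Real.log_le_log two_pos (by linarith)
  have h4 : Real.log 2 ≤ Real.log (|(n:ℝ)| + 2) := Real.log_le_log two_pos (by linarith)
  have h5 : Real.log (|t + n| + 2) ≤ Real.log (|t| + 2) + Real.log (|(n:ℝ)| + 2) := by
    rw [← Real.log_mul (by positivity) (by positivity)]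
    apply Real.log_le_log (by positivity)
    have := abs_add_le t n
    nlinarith [mul_nonneg ht hn]
  nlinarith [mul_nonneg (sub_nonneg.2 (h2.trans h3)) (sub_nonneg.2 (h2.trans h4))]

lemma summable_wt_log : Summable fun n : ℤ => (1 + (n:ℝ)^2)⁻¹ * (1 + 2 * Real.log (|(n:ℝ)| + 2)) := by
  have h1 : Summable fun n : ℤ => |(n:ℝ)| ^ (-(3/2) : ℝ) :=
    Real.summable_abs_int_rpow (by norm_num)
  have h2 : Summable fun n : ℤ => (20 : ℝ) * |(n:ℝ)| ^ (-(3/2) : ℝ) + (if n = 0 then 20 else 0) := by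
    apply (h1.mul_left _).add
    exact (hasSum_ite_eq (0:ℤ) (20:ℝ)).summable
  refine Summable.of_nonneg_of_le (fun n => ?_) (fun n => ?_) h2
  · have := abs_nonneg (n : ℝ)
    have : 0 ≤ Real.log (|(n:ℝ)| + 2) := Real.log_nonneg (by linarith)
    positivity
  · by_cases hn : n = 0
    · subst hn
      have : Real.log 2 ≤ 1 := by have := Real.log_two_lt_d9; linarith
      simp
      have h5 : (0:ℝ) ≤ 0 ^ (-(3/2) : ℝ) := by positivity
      nlinarith
    · have hn1 : (1:ℝ) ≤ |(n:ℝ)| := by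
        have := Int.one_le_abs hn
        exact_mod_cast this
      rw [if_neg hn, add_zero]
      set x : ℝ := |(n:ℝ)| with hx
      have hx2 : (n:ℝ)^2 = x^2 := by rw [hx, sq_abs]
      rw [hx2]
      have hx0 : 0 < x := by linarith
      -- log (x+2) ≤ 4 * x^(1/2)
      have h6 : Real.log (x + 2) ≤ 4 * x ^ (1/2 : ℝ) := by
        have h7 : Real.log (x + 2) ≤ Real.log (4 * x) := Real.log_le_log (by linarith) (by linarith)
        have h8 : Real.log (4 * x) ≤ 2 * (4 * x) ^ (1/2 : ℝ) := by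
          have := Real.log_le_rpow_div (x := 4 * x) (by positivity) (ε := 1/2) (by norm_num)
          linarith
        have h9 : (4 * x) ^ (1/2 : ℝ) = 2 * x ^ (1/2 : ℝ) := by
          rw [Real.mul_rpow (by norm_num) hx0.le]
          congr 1
          rw [show (4:ℝ) = 2 ^ (2:ℝ) by norm_num, ← Real.rpow_mul (by norm_num)]
          norm_num
        rw [h9] at h8
        linarith
      have h10 : 1 ≤ x ^ (1/2 : ℝ) := Real.one_le_rpow hn1 (by norm_num)
      have h11 : x ^ (-(3/2) : ℝ) = x ^ (1/2 : ℝ) * (x ^ 2)⁻¹ := by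
        rw [← Real.rpow_natCast, ← Real.rpow_neg hx0.le, ← Real.rpow_add hx0]
        norm_num
      rw [h11]
      calc (1 + x ^ 2)⁻¹ * (1 + 2 * Real.log (x + 2)) ≤ (x ^ 2)⁻¹ * (20 * x ^ (1/2 : ℝ)) := by
            apply mul_le_mul
            · apply inv_anti₀ (by positivity); linarith
            · linarith
            · have : 0 ≤ Real.log (x + 2) := Real.log_nonneg (by linarith)
              positivity
            · positivity
        _ = _ := by ring

/-- shifted weight -/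
lemma LogDens.lintegral_le {μ : Measure ℂ} {C : ℝ} (hC : 0 ≤ C) (h : LogDens μ C) :
    ∀ t : ℝ, ∫⁻ z, ENNReal.ofReal ((1 + (z.im - t) ^ 2)⁻¹) ∂μ ≤
      ENNReal.ofReal ((3 * C * ∑' n : ℤ, (1 + (n:ℝ)^2)⁻¹ * (1 + 2 * Real.log (|(n:ℝ)| + 2))) *
        Real.log (|t| + 2)) := by
  intro t
  have hlt : 0 ≤ Real.log (|t| + 2) := Real.log_nonneg (by have := abs_nonneg t; linarith)
  have hcov : (univ : Set ℂ) = ⋃ n : ℤ, {z : ℂ | |z.im - (t + n)| ≤ 1} := by
    symm
    rw [eq_univ_iff_forall]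
    intro z
    rw [mem_iUnion]
    refine ⟨⌊z.im - t⌋, ?_⟩
    have h1 := Int.floor_le (z.im - t)
    have h2 := Int.lt_floor_add_one (z.im - t)
    rw [mem_ofPred_eq, abs_le]
    constructor <;> linarith
  rw [← setLIntegral_univ, hcov]
  refine (lintegral_iUnion_le _ _).trans ?_
  have hbound : ∀ n : ℤ, ∫⁻ z in {z : ℂ | |z.im - (t + n)| ≤ 1},
      ENNReal.ofReal ((1 + (z.im - t) ^ 2)⁻¹) ∂μ ≤
      ENNReal.ofReal (3 * C * Real.log (|t| + 2) *
        ((1 + (n:ℝ)^2)⁻¹ * (1 + 2 * Real.log (|(n:ℝ)| + 2)))) := by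
    intro n
    have hmeas : MeasurableSet {z : ℂ | |z.im - (t + n)| ≤ 1} :=
      measurableSet_le (by fun_prop) measurable_const
    have h1 : ∫⁻ z in {z : ℂ | |z.im - (t + n)| ≤ 1},
        ENNReal.ofReal ((1 + (z.im - t) ^ 2)⁻¹) ∂μ ≤
        ∫⁻ z in {z : ℂ | |z.im - (t + n)| ≤ 1}, ENNReal.ofReal (3 * (1 + (n:ℝ)^2)⁻¹) ∂μ := by
      apply setLIntegral_mono (by fun_prop)
      intro z hz
      apply ENNReal.ofReal_le_ofReal
      have := wt_shift (z := ⟨0, z.im - t⟩) (c := ⟨0, (n:ℝ)⟩) (by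
        simp only
        rw [mem_ofPred_eq] at hz
        rw [show z.im - t - n = z.im - (t + n) by ring]; exact hz)
      simpa [wt] using this
    refine h1.trans ?_
    rw [setLIntegral_const]
    have hlog := log_add_le t n
    have hn0 : 0 ≤ Real.log (|t + n| + 2) := Real.log_nonneg (by have := abs_nonneg (t + n); linarith)
    calc ENNReal.ofReal (3 * (1 + (n:ℝ)^2)⁻¹) * μ {z : ℂ | |z.im - (t + n)| ≤ 1}
        ≤ ENNReal.ofReal (3 * (1 + (n:ℝ)^2)⁻¹) * ENNReal.ofReal (C * Real.log (|t + n| + 2)) := by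
          gcongr
          exact h (t + n)
      _ = ENNReal.ofReal (3 * (1 + (n:ℝ)^2)⁻¹ * (C * Real.log (|t + n| + 2))) := by
          rw [← ENNReal.ofReal_mul (by positivity)]
      _ ≤ _ := by
          apply ENNReal.ofReal_le_ofReal
          have h5 : 0 ≤ 3 * (1 + (n:ℝ)^2)⁻¹ * C := by positivity
          calc 3 * (1 + (n:ℝ)^2)⁻¹ * (C * Real.log (|t + n| + 2)) =
              (3 * (1 + (n:ℝ)^2)⁻¹ * C) * Real.log (|t + n| + 2) := by ring
            _ ≤ (3 * (1 + (n:ℝ)^2)⁻¹ * C) * (Real.log (|t| + 2) * (1 + 2 * Real.log (|(n:ℝ)| + 2))) :=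
                mul_le_mul_of_nonneg_left hlog h5
            _ = _ := by ring
  refine (ENNReal.tsum_le_tsum hbound).trans ?_
  rw [← ENNReal.ofReal_tsum_of_nonneg]
  · apply ENNReal.ofReal_le_ofReal
    rw [tsum_mul_left]
    apply le_of_eq; ring
  · intro n
    have : 0 ≤ Real.log (|(n:ℝ)| + 2) := Real.log_nonneg (by have := abs_nonneg (n:ℝ); linarith)
    positivity
  · exact summable_wt_log.mul_left _

/-- integral form -/
lemma LogDens.integral_le {μ : Measure ℂ} {C : ℝ} (hC : 0 ≤ C) (h : LogDens μ C) : ∃ C' : ℝ, 0 ≤ C' ∧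
    ∀ t : ℝ, Integrable (fun z : ℂ => (1 + (z.im - t) ^ 2)⁻¹) μ ∧
      ∫ z, (1 + (z.im - t) ^ 2)⁻¹ ∂μ ≤ C' * Real.log (|t| + 2) := by
  refine ⟨3 * C * ∑' n : ℤ, (1 + (n:ℝ)^2)⁻¹ * (1 + 2 * Real.log (|(n:ℝ)| + 2)), ?_, fun t => ?_⟩
  · have : 0 ≤ ∑' n : ℤ, (1 + (n:ℝ)^2)⁻¹ * (1 + 2 * Real.log (|(n:ℝ)| + 2)) := by
      apply tsum_nonneg
      intro n
      have : 0 ≤ Real.log (|(n:ℝ)| + 2) := Real.log_nonneg (by have := abs_nonneg (n:ℝ); linarith)
      positivity
    positivity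
  · have hmeas : Measurable (fun z : ℂ => (1 + (z.im - t) ^ 2)⁻¹) := by fun_prop
    have hle := h.lintegral_le hC t
    have hint : Integrable (fun z : ℂ => (1 + (z.im - t) ^ 2)⁻¹) μ := by
      refine ⟨hmeas.aestronglyMeasurable, ?_⟩
      rw [hasFiniteIntegral_iff_norm]
      refine lt_of_le_of_lt ?_ (lt_of_le_of_lt hle ENNReal.ofReal_lt_top)
      apply lintegral_mono
      intro z
      simp only
      rw [Real.norm_of_nonneg (by positivity)]
    refine ⟨hint, ?_⟩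
    rw [integral_eq_lintegral_of_nonneg_ae (Eventually.of_forall fun z => by positivity)
      hmeas.aestronglyMeasurable]
    refine (ENNReal.toReal_mono ENNReal.ofReal_ne_top hle).trans ?_
    rw [ENNReal.toReal_ofReal]
    have : 0 ≤ ∑' n : ℤ, (1 + (n:ℝ)^2)⁻¹ * (1 + 2 * Real.log (|(n:ℝ)| + 2)) := by
      apply tsum_nonneg
      intro n
      have : 0 ≤ Real.log (|(n:ℝ)| + 2) := Real.log_nonneg (by have := abs_nonneg (n:ℝ); linarith)
      positivity
    have hlt : 0 ≤ Real.log (|t| + 2) := Real.log_nonneg (by have := abs_nonneg t; linarith)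
    positivity

lemma muZ_logDens : ∃ C : ℝ, 0 < C ∧ LogDens muZ C := muZ_window

end Pool.Agent.PairCorr
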