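import Mathlib
import Pool.Agent.PairCorr.Defs
import Pool.Agent.PairCorr.ZeroMeasure
import Pool.Agent.PairCorr.C_Kernel

/-!
Interface statements for the second half of the proof of the rigidity theorem
(problem MP_f58427_nt).
-/

set_option autoImplicit false

namespace Pool.Agent.PairCorr

open MeasureTheory Filter Topology
open scoped ArithmeticFunction.vonMangoldt

/-! ### (D) -/

/-- the (real) prime sum, for even `ψ`. -/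
noncomputable def PP (ψ : ℝ → ℝ) (T t : ℝ) : ℝ :=
  (2 / Real.log T) * ∑' n : ℕ, Λ n / √n * ψ (Real.log n / Real.log T) * Real.cos (t * Real.log n)

/-- (D), helper10. -/
def StatementD : Prop :=
  ∀ ψ : ℝ → ℝ, TF ψ (1/8) → (∀ v, ψ (-v) = ψ v) →
    Tendsto (fun T : ℝ => T⁻¹ * ∫ t in (0:ℝ)..T, (ψ 0 - PP ψ T t) ^ 2) atTop
      (𝓝 (ψ 0 ^ 2 + ∫ v, |v| * ψ v ^ 2))

/-! ### Pair sums over zeros -/

/-- zeros with ordinate in `(0,T]` -/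
def WT (T : ℝ) : Set ℂ := {z | 0 < z.im ∧ z.im ≤ T}

/-- the zero measure restricted to ordinates in `(0,T]`. -/
noncomputable def muW (T : ℝ) : Measure ℂ := muZ.restrict (WT T)

/-- the exponential weight off the critical line -/
noncomputable def wgt (c T : ℝ) (z : ℂ) : ℝ := Real.exp (c * |z.re - 1/2| * Real.log T)

/-- the weight of a pair -/
noncomputable def pairW (c T δ : ℝ) (p : ℂ × ℂ) : ℝ :=
  wgt c T p.1 * wgt c T p.2 * ((1 + δ * Real.log T * |p.1.im - p.2.im|) ^ 4)⁻¹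

/-- (PB), helper12: uniform bound for weighted pairs. -/
def StatementPB : Prop :=
  ∃ c : ℝ, 0 < c ∧ ∃ C : ℝ, 0 < C ∧ ∃ T₀ : ℝ, ∀ T : ℝ, T₀ ≤ T → ∀ δ : ℝ,
    T ^ (-(1/2) : ℝ) ≤ δ → δ ≤ 1 →
    Integrable (pairW c T δ) ((muW T).prod muZ) ∧
    ∫ p, pairW c T δ p ∂((muW T).prod muZ) ≤ C * (T * Real.log T) / δ

/-- (PBoff), helper12: off-line zeros are negligible as soon as they are few. -/
def StatementPBoff : Prop :=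
  ∃ c : ℝ, 0 < c ∧ ∀ l : Filter ℝ, l ≤ atTop →
    Tendsto (fun T : ℝ => (muZ {z | z ∈ WT T ∧ z.re ≠ 1/2}).toReal / (T * Real.log T)) l (𝓝 0) →
    Tendsto (fun T : ℝ =>
      (∫ p in {p : ℂ × ℂ | p.1.re ≠ 1/2 ∨ p.2.re ≠ 1/2}, pairW c T 1 p ∂((muW T).prod muZ)) /
        (T * Real.log T)) l (𝓝 0)

/-- the analytic pair sum `∑_{0<γ≤T} ∑_{γ'} K(L(ρ-ρ'))` -/
noncomputable def Spair (χ : ℝ → ℝ) (T : ℝ) : ℂ :=
  ∫ p : ℂ × ℂ, Kc χ (Real.log T * (p.1 - p.2)) ∂((muW T).prod muZ)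

/-- the pair sum over ordinates `∑_{0<γ≤T} ∑_{γ'} K(iL(γ-γ'))` -/
noncomputable def Spair0 (χ : ℝ → ℝ) (T : ℝ) : ℂ :=
  ∫ p : ℂ × ℂ, Kc χ ((Real.log T * (p.1.im - p.2.im) : ℝ) * Complex.I) ∂((muW T).prod muZ)

/-- (S), helper11: asymptotics of the analytic pair sum. -/
def StatementS : Prop :=
  ∃ b₀ : ℝ, 0 < b₀ ∧ ∀ χ : ℝ → ℝ, TF χ b₀ → (∀ v, χ (-v) = χ v) →
    Tendsto (fun T : ℝ => Spair χ T / ((T * Real.log T / (2 * Real.pi) : ℝ) : ℂ)) atTop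
      (𝓝 ((χ 0 + ∫ v, |v| * χ v : ℝ) : ℂ))

/-- (OD1): replacing `ρ-ρ'` by `i(γ-γ')`, wide scale. -/
def StatementOD1 : Prop :=
  ∃ b₀ : ℝ, 0 < b₀ ∧ ∀ χ : ℝ → ℝ, TF χ b₀ → (∀ v, χ (-v) = χ v) →
    ∃ C : ℝ, 0 < C ∧ ∀ δ : ℝ, 0 < δ → δ ≤ 1 → ∃ T₀ : ℝ, ∀ T : ℝ, T₀ ≤ T →
      ‖Spair (fun v => χ (v / δ) / δ) T - Spair0 (fun v => χ (v / δ) / δ) T‖ ≤
        C * δ * (T * Real.log T)

/-- (OD2): replacing `ρ-ρ'` by `i(γ-γ')` when few zeros are off the line. -/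
def StatementOD2 : Prop :=
  ∃ b₀ : ℝ, 0 < b₀ ∧ ∀ χ : ℝ → ℝ, TF χ b₀ → (∀ v, χ (-v) = χ v) →
    ∀ l : Filter ℝ, l ≤ atTop →
    Tendsto (fun T : ℝ => (muZ {z | z ∈ WT T ∧ z.re ≠ 1/2}).toReal / (T * Real.log T)) l (𝓝 0) →
    Tendsto (fun T : ℝ => ‖Spair χ T - Spair0 χ T‖ / (T * Real.log T)) l (𝓝 0)

end Pool.Agent.PairCorr
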