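import Mathlib
import Pool.Agent.PairCorr.PB_Statement
import Pool.Agent.PairCorr.E_Final

/-!
Conversions between sums over zeros and integrals against the zero measure.
-/

set_option autoImplicit false

namespace Pool.Agent.PairCorr

open MeasureTheory Filter Topology Set Real
open scoped ENNReal

lemma muZ_lintegral_set {s : Set ℂ} (hs : MeasurableSet s) (hfin : ({ρ : ℂ | ρ ∈ NTZ ∧ ρ ∈ s}).Finite)
    {f : ℂ → ℝ} (hf : ∀ z, 0 ≤ f z) :
    ∫⁻ z in s, ENNReal.ofReal (f z) ∂muZ =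
      ENNReal.ofReal (∑ᶠ ρ ∈ {ρ : ℂ | ρ ∈ NTZ ∧ ρ ∈ s}, (mult ρ : ℝ) * f ρ) := by
  rw [← lintegral_indicator hs, muZ_lintegral, finsum_mem_eq_finite_toFinset_sum _ hfin,
    ENNReal.ofReal_sum_of_nonneg (fun ρ _ => mul_nonneg (Nat.cast_nonneg _) (hf ρ))]
  rw [tsum_subtype NTZ (fun ρ : ℂ => (mult ρ : ℝ≥0∞) *
    s.indicator (fun z => ENNReal.ofReal (f z)) ρ)]
  rw [tsum_eq_sum (s := hfin.toFinset)]
  · apply Finset.sum_congr rfl
    intro ρ hρ
    rw [Finite.mem_toFinset] at hρ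
    rw [indicator_of_mem hρ.1, indicator_of_mem hρ.2, ENNReal.ofReal_mul (Nat.cast_nonneg _),
      ENNReal.ofReal_natCast]
  · intro ρ hρ
    rw [Finite.mem_toFinset] at hρ
    by_cases h : ρ ∈ NTZ
    · have : ρ ∉ s := fun h' => hρ ⟨h, h'⟩
      rw [indicator_of_mem h, indicator_of_notMem this, mul_zero]
    · rw [indicator_of_notMem h]

lemma muZ_prod_lintegral {f : ℂ × ℂ → ℝ≥0∞} (hf : Measurable f) :
    ∫⁻ p, f p ∂(muZ.prod muZ) = ∑' ρ : NTZ, ∑' ρ' : NTZ,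
      (mult ρ : ℝ≥0∞) * ((mult ρ' : ℝ≥0∞) * f (ρ, ρ')) := by
  rw [lintegral_prod _ hf.aemeasurable, muZ_lintegral]
  apply tsum_congr
  intro ρ
  rw [muZ_lintegral, ENNReal.tsum_mul_left]

lemma muW_prod_restrict (T : ℝ) : (muW T).prod muZ = (muZ.prod muZ).restrict (WT T ×ˢ univ) := by
  unfold muW
  rw [← Measure.prod_restrict, Measure.restrict_univ]

lemma measurableSet_WT (T : ℝ) : MeasurableSet (WT T) :=
  (measurableSet_lt measurable_const Complex.measurable_im).inter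
    (measurableSet_le Complex.measurable_im measurable_const)

lemma muZ_prod_apply {A : Set (ℂ × ℂ)} (hA : MeasurableSet A)
    (hfin : ({p : ℂ × ℂ | p.1 ∈ NTZ ∧ p.2 ∈ NTZ ∧ p ∈ A}).Finite) :
    (muZ.prod muZ) A = ENNReal.ofReal (∑ᶠ p ∈ {p : ℂ × ℂ | p.1 ∈ NTZ ∧ p.2 ∈ NTZ ∧ p ∈ A},
      (mult p.1 : ℝ) * (mult p.2 : ℝ)) := by
  rw [← lintegral_indicator_one hA, muZ_prod_lintegral (measurable_one.indicator hA)]
  rw [finsum_mem_eq_finite_toFinset_sum _ hfin,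
    ENNReal.ofReal_sum_of_nonneg (fun ρ _ => by positivity)]
  have e2 : ∑' ρ : NTZ, ∑' ρ' : NTZ, (mult ρ : ℝ≥0∞) * ((mult ρ' : ℝ≥0∞) *
      A.indicator 1 ((ρ : ℂ), (ρ' : ℂ))) =
      ∑' ρ : ℂ, NTZ.indicator (fun ρ : ℂ => ∑' ρ' : ℂ, NTZ.indicator
        (fun ρ' : ℂ => (mult ρ : ℝ≥0∞) * ((mult ρ' : ℝ≥0∞) * A.indicator 1 (ρ, ρ'))) ρ') ρ := by
    rw [← tsum_subtype NTZ (fun ρ : ℂ => ∑' ρ' : ℂ, NTZ.indicator
        (fun ρ' : ℂ => (mult ρ : ℝ≥0∞) * ((mult ρ' : ℝ≥0∞) * A.indicator 1 (ρ, ρ'))) ρ')]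
    apply tsum_congr
    intro ρ
    rw [tsum_subtype NTZ (fun ρ' : ℂ => (mult ρ : ℝ≥0∞) * ((mult ρ' : ℝ≥0∞) *
      A.indicator 1 ((ρ : ℂ), ρ')))]
  rw [e2]
  have e3 : ∀ ρ : ℂ, NTZ.indicator (fun ρ : ℂ => ∑' ρ' : ℂ, NTZ.indicator
        (fun ρ' : ℂ => (mult ρ : ℝ≥0∞) * ((mult ρ' : ℝ≥0∞) * A.indicator 1 (ρ, ρ'))) ρ') ρ =
      ∑' ρ' : ℂ, ({p : ℂ × ℂ | p.1 ∈ NTZ ∧ p.2 ∈ NTZ ∧ p ∈ A}).indicator
        (fun p => (mult p.1 : ℝ≥0∞) * (mult p.2 : ℝ≥0∞)) (ρ, ρ') := by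
    intro ρ
    by_cases h : ρ ∈ NTZ
    · rw [indicator_of_mem h]
      apply tsum_congr
      intro ρ'
      by_cases h' : ρ' ∈ NTZ
      · rw [indicator_of_mem h']
        by_cases h'' : (ρ, ρ') ∈ A
        · rw [indicator_of_mem h'', indicator_of_mem (show (ρ, ρ') ∈
            {p : ℂ × ℂ | p.1 ∈ NTZ ∧ p.2 ∈ NTZ ∧ p ∈ A} from ⟨h, h', h''⟩)]
          simp
        · rw [indicator_of_notMem h'', indicator_of_notMem (fun hc => h'' hc.2.2)]
          simp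
      · rw [indicator_of_notMem h', indicator_of_notMem (fun hc => h' hc.2.1)]
    · rw [indicator_of_notMem h]
      symm
      rw [ENNReal.tsum_eq_zero]
      intro ρ'
      rw [indicator_of_notMem (fun hc => h hc.1)]
  rw [tsum_congr e3, ← ENNReal.tsum_prod (f := fun ρ ρ' =>
    ({p : ℂ × ℂ | p.1 ∈ NTZ ∧ p.2 ∈ NTZ ∧ p ∈ A}).indicator
        (fun p => (mult p.1 : ℝ≥0∞) * (mult p.2 : ℝ≥0∞)) (ρ, ρ'))]
  rw [tsum_eq_sum (s := hfin.toFinset)]
  · apply Finset.sum_congr rfl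
    rintro ⟨ρ, ρ'⟩ hρ
    rw [Finite.mem_toFinset] at hρ
    rw [indicator_of_mem hρ, ENNReal.ofReal_mul (Nat.cast_nonneg _), ENNReal.ofReal_natCast,
      ENNReal.ofReal_natCast]
  · rintro ⟨ρ, ρ'⟩ hρ
    rw [Finite.mem_toFinset] at hρ
    rw [indicator_of_notMem hρ]

/-- The weighted local count as an integral. -/
lemma Eloc_eq_lintegral (c T t : ℝ) :
    ∫⁻ z in {z : ℂ | |z.im - t| ≤ 1 / Real.log T}, ENNReal.ofReal (wgt c T z) ∂muZ =
      ENNReal.ofReal (Eloc c T t) := by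
  have hmeas : MeasurableSet {z : ℂ | |z.im - t| ≤ 1 / Real.log T} :=
    measurableSet_le (by fun_prop) measurable_const
  have hfin : ({ρ : ℂ | ρ ∈ NTZ ∧ ρ ∈ {z : ℂ | |z.im - t| ≤ 1 / Real.log T}}).Finite :=
    finite_NTZ_window t (1 / Real.log T)
  have h := muZ_lintegral_set hmeas hfin (f := wgt c T) (fun z => (Real.exp_pos _).le)
  exact h

/-- `N(T)` as the mass of the zero measure. -/
lemma muW_univ {T : ℝ} : muW T univ = ENNReal.ofReal (NCount T) := by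
  unfold muW
  rw [Measure.restrict_apply_univ]
  have hfin : ({ρ : ℂ | ρ ∈ NTZ ∧ ρ ∈ WT T}).Finite := by
    refine (finite_NTZ_window 0 (|T|)).subset ?_
    rintro ρ ⟨h1, h2, h3⟩
    refine ⟨h1, ?_⟩
    rw [sub_zero, abs_of_pos h2]
    exact h3.trans (le_abs_self _)
  have h := muZ_lintegral_set (measurableSet_WT T) hfin (f := fun _ => 1) (fun z => zero_le_one)
  simp only [ENNReal.ofReal_one, lintegral_one, Measure.restrict_apply_univ, mul_one] at h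
  exact h

lemma NCount_nonneg (T : ℝ) : 0 ≤ NCount T := by
  unfold NCount
  exact finsum_nonneg fun ρ => finsum_nonneg fun _ => Nat.cast_nonneg _

lemma NCount_eq_toReal (T : ℝ) : NCount T = (muW T univ).toReal := by
  rw [muW_univ, ENNReal.toReal_ofReal (NCount_nonneg T)]

/-- The region of pairs counted by `N*`. -/
def NSset (T a : ℝ) : Set (ℂ × ℂ) :=
  {p | 0 < p.1.im - p.2.im ∧ p.1.im - p.2.im ≤ 2 * Real.pi * a / Real.log T}

lemma measurableSet_NSset (T a : ℝ) : MeasurableSet (NSset T a) := by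
  have h : Measurable fun p : ℂ × ℂ => p.1.im - p.2.im := by fun_prop
  exact (measurableSet_lt measurable_const h).inter (measurableSet_le h measurable_const)

lemma pairSet_finite (T a : ℝ) : (pairSet T a).Finite := by
  have h1 := finite_NTZ_window 0 |T|
  have h2 := finite_NTZ_window 0 (|T| + |2 * Real.pi * a / Real.log T|)
  refine (h1.prod h2).subset ?_
  rintro ⟨ρ, ρ'⟩ ⟨h3, h4, h5, h6, h7, h8⟩
  simp only at h3 h4 h5 h6 h7 h8
  refine ⟨⟨h3, ?_⟩, ⟨h4, ?_⟩⟩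
  · rw [sub_zero, abs_of_pos h5]
    exact h6.trans (le_abs_self _)
  · simp only [sub_zero]
    have e1 := le_abs_self T
    have e2 := le_abs_self (2 * Real.pi * a / Real.log T)
    have e3 := abs_nonneg T
    have e4 := abs_nonneg (2 * Real.pi * a / Real.log T)
    rw [abs_le]
    constructor <;> linarith

/-- `N*(T,a)` as the mass of the product of zero measures. -/
lemma NStar_measure (T a : ℝ) :
    ((muW T).prod muZ) (NSset T a) = ENNReal.ofReal (NStar T a) := by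
  rw [muW_prod_restrict, Measure.restrict_apply (measurableSet_NSset T a)]
  have hm : MeasurableSet (NSset T a ∩ WT T ×ˢ univ) :=
    (measurableSet_NSset T a).inter ((measurableSet_WT T).prod MeasurableSet.univ)
  have hset : {p : ℂ × ℂ | p.1 ∈ NTZ ∧ p.2 ∈ NTZ ∧ p ∈ NSset T a ∩ WT T ×ˢ univ} = pairSet T a := by
    ext p
    simp only [pairSet, NSset, WT, mem_inter_iff, mem_ofPred_eq, mem_prod, mem_univ, and_true]
    tauto
  rw [muZ_prod_apply hm (by rw [hset]; exact pairSet_finite T a), hset]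
  rfl

lemma NStar_nonneg (T a : ℝ) : 0 ≤ NStar T a := by
  unfold NStar
  exact finsum_nonneg fun ρ => finsum_nonneg fun _ => by positivity

lemma NStar_eq_toReal (T a : ℝ) : NStar T a = (((muW T).prod muZ) (NSset T a)).toReal := by
  rw [NStar_measure, ENNReal.toReal_ofReal (NStar_nonneg T a)]

/-- A nonempty set has mass at least `1`. -/
lemma one_le_muZ {s : Set ℂ} (h : muZ s ≠ 0) : 1 ≤ muZ s := by
  rw [muZ_apply] at h ⊢
  rw [Ne, ENNReal.tsum_eq_zero] at h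
  push Not at h
  obtain ⟨ρ, hρ⟩ := h
  refine le_trans ?_ (ENNReal.le_tsum ρ)
  have h1 : (mult (ρ : ℂ) : ℝ≥0∞) ≠ 0 := left_ne_zero_of_mul hρ
  have h2 : s.indicator (1 : ℂ → ℝ≥0∞) (ρ : ℂ) ≠ 0 := right_ne_zero_of_mul hρ
  have h3 : (ρ : ℂ) ∈ s := by
    by_contra hc
    exact h2 (indicator_of_notMem hc _)
  rw [indicator_of_mem h3]
  simp only [Pi.one_apply, mul_one, Nat.one_le_cast]
  have : mult (ρ : ℂ) ≠ 0 := by exact_mod_cast h1
  omega

end Pool.Agent.PairCorr
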