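import Mathlib

set_option autoImplicit false

namespace Pool.Agent.PairCorr

open MeasureTheory Filter Topology Set

section Stirling

/-- `g τ v = log |v + iτ|` -/
noncomputable def gS (τ v : ℝ) : ℝ := Real.log (v ^ 2 + τ ^ 2) / 2

lemma gS_eq {τ v : ℝ} : gS τ v = Real.log ‖(v : ℂ) + τ * Complex.I‖ := by
  unfold gS
  rw [Complex.norm_add_mul_I, Real.log_sqrt (by positivity)]

lemma gS_hasDeriv {τ : ℝ} (hτ : τ ≠ 0) (v : ℝ) : HasDerivAt (gS τ) (v / (v ^ 2 + τ ^ 2)) v := by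
  have hpos : v ^ 2 + τ ^ 2 ≠ 0 := by positivity
  have h1 : HasDerivAt (fun v : ℝ => v ^ 2 + τ ^ 2) (2 * v) v := by
    simpa using (hasDerivAt_pow 2 v).add_const (τ ^ 2)
  have h2 := (h1.log hpos).div_const 2
  exact h2.congr_deriv (by ring)

lemma gS'_hasDeriv {τ : ℝ} (hτ : τ ≠ 0) (v : ℝ) :
    HasDerivAt (fun v : ℝ => v / (v ^ 2 + τ ^ 2)) ((τ ^ 2 - v ^ 2) / (v ^ 2 + τ ^ 2) ^ 2) v := by
  have hpos : v ^ 2 + τ ^ 2 ≠ 0 := by positivity
  have h1 : HasDerivAt (fun v : ℝ => v ^ 2 + τ ^ 2) (2 * v) v := by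
    simpa using (hasDerivAt_pow 2 v).add_const (τ ^ 2)
  have h2 := (hasDerivAt_id v).div h1 hpos
  exact h2.congr_deriv (by simp only [id]; ring)

lemma gS''_bound {τ : ℝ} (hτ : τ ≠ 0) (v : ℝ) :
    |(τ ^ 2 - v ^ 2) / (v ^ 2 + τ ^ 2) ^ 2| ≤ 1 / (v ^ 2 + τ ^ 2) := by
  have hpos : 0 < v ^ 2 + τ ^ 2 := by positivity
  rw [abs_div, abs_of_pos (pow_pos hpos 2), div_le_div_iff₀ (by positivity) hpos, one_mul, sq (v ^ 2 + τ ^ 2)]
  apply mul_le_mul_of_nonneg_right _ hpos.le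
  rw [abs_le]; constructor <;> nlinarith [sq_nonneg v, sq_nonneg τ]

/-- first order Taylor expansion of `gS` -/
lemma gS_taylor {τ : ℝ} (hτ : τ ≠ 0) {a δ : ℝ} (ha : 0 ≤ a) (hδ : 0 ≤ δ) :
    |gS τ (a + δ) - gS τ a - δ * (a / (a ^ 2 + τ ^ 2))| ≤ δ ^ 2 / (a ^ 2 + τ ^ 2) := by
  have hpos : 0 < a ^ 2 + τ ^ 2 := by positivity
  -- derivative bound for g'
  have h1 : ∀ v ∈ Icc a (a + δ), |v / (v ^ 2 + τ ^ 2) - a / (a ^ 2 + τ ^ 2)| ≤ δ / (a ^ 2 + τ ^ 2) := by
    intro v hv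
    have := (convex_Icc a (a + δ)).norm_image_sub_le_of_norm_hasDerivWithin_le
      (f := fun v : ℝ => v / (v ^ 2 + τ ^ 2)) (f' := fun v => (τ ^ 2 - v ^ 2) / (v ^ 2 + τ ^ 2) ^ 2)
      (C := 1 / (a ^ 2 + τ ^ 2)) (x := a) (y := v)
      (fun x _ => (gS'_hasDeriv hτ x).hasDerivWithinAt) (fun x hx => ?_) ⟨le_rfl, by linarith⟩ hv
    · rw [Real.norm_eq_abs, Real.norm_eq_abs] at this
      refine this.trans ?_
      rw [abs_of_nonneg (by linarith [hv.1]), div_mul_eq_mul_div, one_mul]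
      exact div_le_div_of_nonneg_right (by linarith [hv.2]) hpos.le
    · rw [Real.norm_eq_abs]
      refine (gS''_bound hτ x).trans ?_
      apply one_div_le_one_div_of_le hpos
      nlinarith [hx.1]
  have h2 := (convex_Icc a (a + δ)).norm_image_sub_le_of_norm_hasDerivWithin_le
      (f := fun v : ℝ => gS τ v - v * (a / (a ^ 2 + τ ^ 2)))
      (f' := fun v => v / (v ^ 2 + τ ^ 2) - a / (a ^ 2 + τ ^ 2))
      (C := δ / (a ^ 2 + τ ^ 2)) (x := a) (y := a + δ)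
      (fun x _ => ((gS_hasDeriv hτ x).sub (by simpa using (hasDerivAt_id x).mul_const (a / (a ^ 2 + τ ^ 2)))).hasDerivWithinAt)
      (fun x hx => by rw [Real.norm_eq_abs]; exact h1 x hx) ⟨le_rfl, by linarith⟩ ⟨by linarith, le_rfl⟩
  rw [Real.norm_eq_abs, Real.norm_eq_abs] at h2
  have e : gS τ (a + δ) - (a + δ) * (a / (a ^ 2 + τ ^ 2)) - (gS τ a - a * (a / (a ^ 2 + τ ^ 2))) =
    gS τ (a + δ) - gS τ a - δ * (a / (a ^ 2 + τ ^ 2)) := by ring
  rw [e] at h2
  refine h2.trans (le_of_eq ?_)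
  rw [add_sub_cancel_left, abs_of_nonneg hδ]; ring

lemma sum_inv_sq_le {a : ℝ} (ha : 1 ≤ a) (n : ℕ) :
    ∑ j ∈ Finset.range (n + 1), 1 / ((j : ℝ) ^ 2 + a ^ 2) ≤ 4 / a := by
  have key : ∑ j ∈ Finset.range (n + 1), 1 / ((j : ℝ) ^ 2 + a ^ 2) ≤ 2 / a ^ 2 + 2 / a - 2 / (a + n) := by
    induction n with
    | zero =>
      simp
      have h1 : (a ^ 2)⁻¹ ≤ 2 / a ^ 2 := by
        rw [div_eq_mul_inv]; nlinarith [inv_nonneg.2 (sq_nonneg a)]
      linarith
    | succ n ih =>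
      rw [Finset.sum_range_succ]
      have h1 : 1 / (((n + 1 : ℕ) : ℝ) ^ 2 + a ^ 2) ≤ 2 / (a + n) - 2 / (a + (n + 1 : ℕ)) := by
        push_cast
        have hn : (0:ℝ) ≤ n := Nat.cast_nonneg n
        have hp1 : 0 < a + n := by linarith
        have hp2 : 0 < a + (n + 1) := by linarith
        rw [div_sub_div _ _ hp1.ne' hp2.ne', div_le_div_iff₀ (by positivity) (by positivity)]
        nlinarith [sq_nonneg (a - (n + 1)), sq_nonneg (n + 1 : ℝ), sq_nonneg a]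
      linarith
  have h2 : (0:ℝ) ≤ 2 / (a + n) := by positivity
  have h3 : 2 / a ^ 2 ≤ 2 / a := by
    apply div_le_div_of_nonneg_left (by norm_num) (by linarith)
    nlinarith
  have h4 : 4 / a = 2 / a + 2 / a := by ring
  linarith

lemma norm_GammaSeq_log {s : ℂ} (hs : 0 < s.re) {n : ℕ} (hn : n ≠ 0) :
    Real.log ‖Complex.GammaSeq s n‖ = s.re * Real.log n + Real.log n.factorial -
      ∑ j ∈ Finset.range (n + 1), gS s.im (s.re + j) := by
  unfold Complex.GammaSeq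
  have hj : ∀ j : ℕ, s + j ≠ 0 := by
    intro j h
    have := congrArg Complex.re h
    simp at this
    have hj0 : (0:ℝ) ≤ j := Nat.cast_nonneg j
    linarith
  have hn0 : (0:ℝ) < n := by positivity
  rw [norm_div, norm_mul, norm_prod, Real.log_div, Real.log_mul]
  · congr 1
    · congr 1
      · rw [Complex.norm_natCast_cpow_of_pos (Nat.pos_of_ne_zero hn), Real.log_rpow hn0]
      · simp
    · rw [Real.log_prod]
      · apply Finset.sum_congr rfl
        intro j _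
        rw [gS_eq]
        congr 2
        apply Complex.ext <;> simp
      · intro j _
        exact norm_ne_zero_iff.2 (hj j)
  · rw [norm_ne_zero_iff]
    rw [Complex.cpow_ne_zero_iff]
    left; exact_mod_cast hn
  · simp [Nat.factorial_ne_zero]
  · refine mul_ne_zero ?_ (by simp [Nat.factorial_ne_zero])
    rw [norm_ne_zero_iff, Complex.cpow_ne_zero_iff]
    left; exact_mod_cast hn
  · rw [Finset.prod_ne_zero_iff]
    intro j _
    exact norm_ne_zero_iff.2 (hj j)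


lemma gS_sum_bound {τ : ℝ} (hτ : 1 ≤ |τ|) {δ : ℝ} (hδ : 0 ≤ δ) (n : ℕ) :
    |∑ j ∈ Finset.range (n + 1), (gS τ (1/2 + δ + j) - gS τ (1/2 + j)) -
      δ * (gS τ (n + 3/2) - gS τ (1/2))| ≤ (δ ^ 2 + δ) * (4 / |τ|) := by
  have hτ0 : τ ≠ 0 := by intro h; rw [h, abs_zero] at hτ; linarith
  have tele : gS τ (n + 3/2) - gS τ (1/2) =
      ∑ j ∈ Finset.range (n + 1), (gS τ (1/2 + j + 1) - gS τ (1/2 + j)) := by
    have h1 := Finset.sum_range_sub (fun j : ℕ => gS τ (1/2 + j)) (n + 1)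
    rw [show gS τ (n + 3/2) - gS τ (1/2) = gS τ (1/2 + ((n + 1 : ℕ) : ℝ)) - gS τ (1/2 + ((0:ℕ):ℝ)) by
      push_cast; congr 2 <;> ring]
    rw [← h1]
    apply Finset.sum_congr rfl
    intro j _
    push_cast; ring_nf
  rw [tele, Finset.mul_sum, ← Finset.sum_sub_distrib]
  calc |∑ j ∈ Finset.range (n + 1), (gS τ (1/2 + δ + j) - gS τ (1/2 + j) -
        δ * (gS τ (1/2 + j + 1) - gS τ (1/2 + j)))|
      ≤ ∑ j ∈ Finset.range (n + 1), |gS τ (1/2 + δ + j) - gS τ (1/2 + j) -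
        δ * (gS τ (1/2 + j + 1) - gS τ (1/2 + j))| := Finset.abs_sum_le_sum_abs _ _
    _ ≤ ∑ j ∈ Finset.range (n + 1), (δ ^ 2 + δ) * (1 / ((j:ℝ) ^ 2 + |τ| ^ 2)) := by
        apply Finset.sum_le_sum
        intro j _
        have hj : (0:ℝ) ≤ j := Nat.cast_nonneg j
        have h1 := gS_taylor hτ0 (a := 1/2 + j) (δ := δ) (by positivity) hδ
        have h2 := gS_taylor hτ0 (a := 1/2 + j) (δ := 1) (by positivity) zero_le_one
        have h3 : 1 / ((1/2 + (j:ℝ)) ^ 2 + τ ^ 2) ≤ 1 / ((j:ℝ) ^ 2 + |τ| ^ 2) := by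
          rw [sq_abs]
          apply one_div_le_one_div_of_le (by positivity)
          nlinarith
        have h4 : δ ^ 2 / ((1/2 + (j:ℝ)) ^ 2 + τ ^ 2) = δ ^ 2 * (1 / ((1/2 + (j:ℝ)) ^ 2 + τ ^ 2)) := by ring
        have h5 : (1:ℝ) ^ 2 / ((1/2 + (j:ℝ)) ^ 2 + τ ^ 2) = (1 / ((1/2 + (j:ℝ)) ^ 2 + τ ^ 2)) := by ring
        rw [h4] at h1
        rw [h5] at h2
        have e : gS τ (1/2 + δ + j) - gS τ (1/2 + j) - δ * (gS τ (1/2 + j + 1) - gS τ (1/2 + j)) =
          (gS τ (1/2 + j + δ) - gS τ (1/2 + j) - δ * ((1/2 + j) / ((1/2 + j) ^ 2 + τ ^ 2))) -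
          δ * (gS τ (1/2 + j + 1) - gS τ (1/2 + j) - 1 * ((1/2 + j) / ((1/2 + j) ^ 2 + τ ^ 2))) := by
          rw [show (1:ℝ)/2 + δ + j = 1/2 + j + δ by ring]; ring
        rw [e]
        refine (abs_sub _ _).trans ?_
        rw [abs_mul, abs_of_nonneg hδ]
        have h6 := mul_le_mul_of_nonneg_left h2 hδ
        have h7 := mul_le_mul_of_nonneg_left h3 hδ
        have h8 := mul_le_mul_of_nonneg_left h3 (sq_nonneg δ)
        nlinarith
    _ = (δ ^ 2 + δ) * ∑ j ∈ Finset.range (n + 1), (1 / ((j:ℝ) ^ 2 + |τ| ^ 2)) := by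
        rw [Finset.mul_sum]
    _ ≤ (δ ^ 2 + δ) * (4 / |τ|) := mul_le_mul_of_nonneg_left (sum_inv_sq_le hτ n) (by positivity)

lemma log_sub_gS_tendsto (τ : ℝ) :
    Tendsto (fun n : ℕ => Real.log n - gS τ (n + 3/2)) atTop (𝓝 0) := by
  have h1 : Tendsto (fun n : ℕ => ((((n:ℝ) + 3/2) ^ 2 + τ ^ 2) / (n:ℝ) ^ 2)) atTop (𝓝 1) := by
    have h2 : Tendsto (fun n : ℕ => (1 + (3/2) * ((n:ℝ))⁻¹) ^ 2 + τ ^ 2 * (((n:ℝ))⁻¹) ^ 2) atTop
        (𝓝 ((1 + (3/2) * 0) ^ 2 + τ ^ 2 * 0 ^ 2)) := by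
      have h3 : Tendsto (fun n : ℕ => ((n:ℝ))⁻¹) atTop (𝓝 0) := tendsto_inv_atTop_nhds_zero_nat
      exact (((h3.const_mul _).const_add _).pow 2).add ((h3.pow 2).const_mul _)
    rw [show ((1:ℝ) + (3/2) * 0) ^ 2 + τ ^ 2 * 0 ^ 2 = 1 by ring] at h2
    refine h2.congr' ?_
    filter_upwards [eventually_gt_atTop 0] with n hn
    have : (n:ℝ) ≠ 0 := by positivity
    field_simp
  have h2 := (Real.continuousAt_log one_ne_zero).tendsto.comp h1
  rw [Real.log_one] at h2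
  have h3 := (h2.div_const 2).neg
  rw [zero_div, neg_zero] at h3
  refine h3.congr' ?_
  filter_upwards [eventually_gt_atTop 0] with n hn
  have hn' : (0:ℝ) < n := by exact_mod_cast hn
  simp only [Function.comp]
  rw [Real.log_div (by positivity) (by positivity), Real.log_pow]
  unfold gS
  push_cast; ring

lemma gS_half {τ : ℝ} (hτ : 1 ≤ |τ|) : abs (gS τ (1/2) - Real.log (abs τ)) ≤ 1 / |τ| := by
  have hτ0 : 0 < |τ| := by linarith
  have e : gS τ (1/2) - Real.log |τ| = Real.log (1 + 1 / (4 * |τ| ^ 2)) / 2 := by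
    unfold gS
    have : (1/2:ℝ) ^ 2 + τ ^ 2 = |τ| ^ 2 * (1 + 1 / (4 * |τ| ^ 2)) := by
      rw [← sq_abs τ]; field_simp; ring
    rw [this, Real.log_mul (by positivity) (by positivity), Real.log_pow]
    push_cast; ring
  rw [e]
  have h1 : 0 ≤ Real.log (1 + 1 / (4 * |τ| ^ 2)) := by
    apply Real.log_nonneg
    have : (0:ℝ) ≤ 1 / (4 * |τ| ^ 2) := by positivity
    linarith
  have h2 : Real.log (1 + 1 / (4 * |τ| ^ 2)) ≤ 1 / (4 * |τ| ^ 2) := by
    have := Real.log_le_sub_one_of_pos (x := 1 + 1 / (4 * |τ| ^ 2)) (by positivity)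
    linarith
  rw [abs_of_nonneg (by positivity)]
  have h3 : 1 / (4 * |τ| ^ 2) ≤ 1 / |τ| := by
    apply one_div_le_one_div_of_le hτ0
    nlinarith
  linarith

/-- Vertical growth of the Gamma function relative to the line `Re s = 1/2`. -/
lemma log_Gamma_diff {σ τ : ℝ} (hσ : 1/2 ≤ σ) (hτ : 1 ≤ |τ|) :
    abs (Real.log ‖Complex.Gamma (σ + τ * Complex.I)‖ - Real.log ‖Complex.Gamma (1/2 + τ * Complex.I)‖ -
      (σ - 1/2) * Real.log (abs τ)) ≤ (4 * (σ - 1/2) ^ 2 + 5 * (σ - 1/2)) / |τ| := by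
  set δ := σ - 1/2 with hδ
  have hδ0 : 0 ≤ δ := by linarith
  have hτ0 : 0 < |τ| := by linarith
  have hs1 : (0:ℝ) < ((σ : ℂ) + τ * Complex.I).re := by simp; linarith
  have hs2 : (0:ℝ) < ((1/2 : ℂ) + τ * Complex.I).re := by simp
  have hlim : ∀ s : ℂ, 0 < s.re → Tendsto (fun n => Real.log ‖Complex.GammaSeq s n‖) atTop
      (𝓝 (Real.log ‖Complex.Gamma s‖)) := by
    intro s hs
    have h1 := (Complex.GammaSeq_tendsto_Gamma s).norm
    exact ((Real.continuousAt_log (norm_ne_zero_iff.2 (Complex.Gamma_ne_zero_of_re_pos hs))).tendsto).comp h1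
  have hR := ((hlim _ hs1).sub (hlim _ hs2))
  have hR2 : Tendsto (fun n : ℕ => δ * (Real.log n - gS τ (n + 3/2))) atTop (𝓝 (δ * 0)) :=
    (log_sub_gS_tendsto τ).const_mul δ
  have hR3 := (hR.sub hR2).sub_const (δ * gS τ (1/2))
  have hbound : ∀ᶠ n : ℕ in atTop, ‖Real.log ‖Complex.GammaSeq (σ + τ * Complex.I) n‖ -
      Real.log ‖Complex.GammaSeq (1/2 + τ * Complex.I) n‖ - δ * (Real.log n - gS τ (n + 3/2)) -
      δ * gS τ (1/2)‖ ≤ (δ ^ 2 + δ) * (4 / |τ|) := by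
    filter_upwards [eventually_ne_atTop 0] with n hn
    rw [norm_GammaSeq_log hs1 hn, norm_GammaSeq_log hs2 hn]
    have hre1 : ((σ : ℂ) + τ * Complex.I).re = σ := by simp
    have him1 : ((σ : ℂ) + τ * Complex.I).im = τ := by simp
    have hre2 : ((1/2 : ℂ) + τ * Complex.I).re = 1/2 := by simp
    have him2 : ((1/2 : ℂ) + τ * Complex.I).im = τ := by simp
    rw [hre1, him1, hre2, him2]
    have h1 := gS_sum_bound hτ hδ0 n
    have e : σ * Real.log n + Real.log n.factorial - ∑ j ∈ Finset.range (n + 1), gS τ (σ + j) -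
      (1/2 * Real.log n + Real.log n.factorial - ∑ j ∈ Finset.range (n + 1), gS τ (1/2 + j)) -
      δ * (Real.log n - gS τ (n + 3/2)) - δ * gS τ (1/2) =
      -(∑ j ∈ Finset.range (n + 1), (gS τ (1/2 + δ + j) - gS τ (1/2 + j)) -
      δ * (gS τ (n + 3/2) - gS τ (1/2))) := by
      rw [Finset.sum_sub_distrib, hδ]
      rw [show (1:ℝ)/2 + (σ - 1/2) = σ by ring]
      ring
    rw [e, norm_neg, Real.norm_eq_abs]
    exact h1
  have h5 := le_of_tendsto hR3.norm hbound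
  rw [Real.norm_eq_abs, mul_zero, sub_zero] at h5
  have h6 := gS_half hτ
  have e2 : Real.log ‖Complex.Gamma (σ + τ * Complex.I)‖ - Real.log ‖Complex.Gamma (1/2 + τ * Complex.I)‖ -
      δ * Real.log |τ| = (Real.log ‖Complex.Gamma (σ + τ * Complex.I)‖ -
      Real.log ‖Complex.Gamma (1/2 + τ * Complex.I)‖ - δ * gS τ (1/2)) +
      δ * (gS τ (1/2) - Real.log |τ|) := by ring
  rw [e2]
  refine (abs_add_le _ _).trans ?_
  rw [abs_mul, abs_of_nonneg hδ0]
  have h7 := mul_le_mul_of_nonneg_left h6 hδ0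
  have e3 : (4 * δ ^ 2 + 5 * δ) / |τ| = (δ ^ 2 + δ) * (4 / |τ|) + δ * (1 / |τ|) := by
    field_simp; ring
  rw [e3]
  exact add_le_add h5 h7

end Stirling

section Chi

lemma norm_Gamma_half_sq (τ : ℝ) :
    ‖Complex.Gamma (1/2 + τ * Complex.I)‖ ^ 2 = Real.pi / Real.cosh (Real.pi * τ) := by
  have h := Complex.Gamma_mul_Gamma_one_sub (1/2 + τ * Complex.I)
  have hconj : (1 - (1/2 + τ * Complex.I) : ℂ) = (starRingEnd ℂ) (1/2 + τ * Complex.I) := by
    apply Complex.ext <;> simp; norm_num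
  rw [hconj, Complex.Gamma_conj] at h
  have h2 := congrArg norm h
  rw [norm_mul, Complex.norm_conj, norm_div] at h2
  rw [sq, h2]
  have e1 : Complex.sin (Real.pi * (1/2 + τ * Complex.I)) = (Real.cosh (Real.pi * τ) : ℂ) := by
    rw [show (Real.pi : ℂ) * (1/2 + τ * Complex.I) = (Real.pi : ℂ) / 2 + ((Real.pi * τ : ℝ) : ℂ) * Complex.I by
      push_cast; ring]
    rw [Complex.sin_add, Complex.sin_pi_div_two, Complex.cos_pi_div_two, Complex.cos_mul_I]
    simp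
  rw [e1, Complex.norm_real, Complex.norm_real, Real.norm_of_nonneg Real.pi_pos.le,
    Real.norm_of_nonneg (Real.cosh_pos _).le]

lemma log_norm_Gamma_half (τ : ℝ) :
    Real.log ‖Complex.Gamma (1/2 + τ * Complex.I)‖ =
      (Real.log Real.pi - Real.log (Real.cosh (Real.pi * τ))) / 2 := by
  have h := norm_Gamma_half_sq τ
  have h2 := congrArg Real.log h
  rw [Real.log_pow, Real.log_div Real.pi_pos.ne' (Real.cosh_pos _).ne'] at h2
  push_cast at h2
  linarith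

lemma log_cosh_bound (y : ℝ) :
    |Real.log (Real.cosh y) - (y - Real.log 2)| ≤ Real.exp (-(2 * y)) := by
  have e : Real.cosh y = Real.exp y / 2 * (1 + Real.exp (-(2 * y))) := by
    rw [Real.cosh_eq, mul_add, mul_one, div_mul_eq_mul_div, ← Real.exp_add]
    rw [show y + -(2 * y) = -y by ring]; ring
  rw [e, Real.log_mul (by positivity) (by positivity), Real.log_div (by positivity) (by norm_num),
    Real.log_exp]
  have h1 : 0 ≤ Real.log (1 + Real.exp (-(2 * y))) := Real.log_nonneg (by linarith [Real.exp_pos (-(2*y))])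
  have h2 : Real.log (1 + Real.exp (-(2 * y))) ≤ Real.exp (-(2 * y)) := by
    have := Real.log_le_sub_one_of_pos (x := 1 + Real.exp (-(2 * y))) (by positivity)
    linarith
  rw [show y - Real.log 2 + Real.log (1 + Real.exp (-(2 * y))) - (y - Real.log 2) =
    Real.log (1 + Real.exp (-(2 * y))) by ring, abs_of_nonneg h1]
  exact h2

lemma log_sinh_bound (y : ℝ) (hy : 1 ≤ y) :
    |Real.log (Real.sinh y) - (y - Real.log 2)| ≤ 2 * Real.exp (-(2 * y)) := by
  have hexp : Real.exp (-(2 * y)) ≤ 1/2 := by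
    have h1 : Real.exp (-(2*y)) ≤ Real.exp (-1) := Real.exp_le_exp.2 (by linarith)
    have h2 : Real.exp (-1) ≤ 1/2 := by
      rw [Real.exp_neg]
      have := Real.add_one_le_exp (1:ℝ)
      rw [one_div]
      exact inv_anti₀ (by norm_num) (by linarith)
    linarith
  have hpos := Real.exp_pos (-(2*y))
  have e : Real.sinh y = Real.exp y / 2 * (1 - Real.exp (-(2 * y))) := by
    rw [Real.sinh_eq, mul_sub, mul_one, div_mul_eq_mul_div, ← Real.exp_add]
    rw [show y + -(2 * y) = -y by ring]; ring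
  rw [e, Real.log_mul (by positivity) (by linarith), Real.log_div (by positivity) (by norm_num),
    Real.log_exp]
  rw [show y - Real.log 2 + Real.log (1 - Real.exp (-(2 * y))) - (y - Real.log 2) =
    Real.log (1 - Real.exp (-(2 * y))) by ring]
  have h1 : Real.log (1 - Real.exp (-(2 * y))) ≤ 0 := Real.log_nonpos (by linarith) (by linarith)
  rw [abs_of_nonpos h1]
  -- -log(1-e) ≤ e/(1-e) ≤ 2e
  have h2 := Real.log_le_sub_one_of_pos (x := (1 - Real.exp (-(2 * y)))⁻¹) (by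
    apply inv_pos.2; linarith)
  rw [Real.log_inv] at h2
  refine h2.trans ?_
  have h3 : (1 - Real.exp (-(2 * y)))⁻¹ - 1 = Real.exp (-(2*y)) / (1 - Real.exp (-(2 * y))) := by
    have : 1 - Real.exp (-(2 * y)) ≠ 0 := by linarith
    field_simp; ring
  rw [h3, div_le_iff₀ (by linarith)]
  nlinarith

lemma norm_cos_sq (a b : ℝ) :
    ‖Complex.cos (a + b * Complex.I)‖ ^ 2 = Real.cos a ^ 2 * Real.cosh b ^ 2 + Real.sin a ^ 2 * Real.sinh b ^ 2 := by
  rw [Complex.cos_add_mul_I, ← Complex.ofReal_cos, ← Complex.ofReal_cosh, ← Complex.ofReal_sin,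
    ← Complex.ofReal_sinh, ← Complex.ofReal_mul, ← Complex.ofReal_mul, Complex.sq_norm]
  rw [Complex.normSq_apply]
  simp only [Complex.sub_re, Complex.mul_re, Complex.ofReal_re, Complex.ofReal_im, Complex.I_re,
    Complex.I_im, Complex.sub_im, Complex.mul_im]
  ring

lemma norm_cos_bounds (a b : ℝ) :
    Real.sinh |b| ≤ ‖Complex.cos (a + b * Complex.I)‖ ∧ ‖Complex.cos (a + b * Complex.I)‖ ≤ Real.cosh |b| := by
  have h := norm_cos_sq a b
  have h1 := Real.cosh_sq b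
  have h2 := Real.sin_sq_add_cos_sq a
  have hs : Real.sinh |b| ^ 2 = Real.sinh b ^ 2 := by
    rcases abs_cases b with ⟨h, _⟩ | ⟨h, _⟩ <;> rw [h]
    rw [Real.sinh_neg]; ring
  have hc : Real.cosh |b| = Real.cosh b := Real.cosh_abs b
  constructor
  · refine (pow_le_pow_iff_left₀ (Real.sinh_nonneg_iff.2 (abs_nonneg _)) (norm_nonneg _) two_ne_zero).1 ?_
    rw [h, hs]
    nlinarith [sq_nonneg (Real.cos a)]
  · rw [hc]
    refine (pow_le_pow_iff_left₀ (norm_nonneg _) (Real.cosh_pos _).le two_ne_zero).1 ?_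
    rw [h]
    nlinarith [sq_nonneg (Real.sin a)]

lemma log_norm_cos (a b : ℝ) (hb : 1 ≤ |b|) :
    |Real.log ‖Complex.cos (a + b * Complex.I)‖ - (|b| - Real.log 2)| ≤ 2 * Real.exp (-(2 * |b|)) := by
  obtain ⟨h1, h2⟩ := norm_cos_bounds a b
  have hs : 0 < Real.sinh |b| := Real.sinh_pos_iff.2 (by linarith)
  have l1 := Real.log_le_log hs h1
  have l2 := Real.log_le_log (lt_of_lt_of_le hs h1) h2
  have c1 := log_cosh_bound |b|
  have c2 := log_sinh_bound |b| hb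
  rw [abs_le] at c1 c2 ⊢
  have := Real.exp_pos (-(2 * |b|))
  constructor <;> linarith [c1.1, c1.2, c2.1, c2.2]


/-- `log` of the modulus of the factor `χ(z)` in `ζ(z) = χ(z) ζ(1-z)`. -/
noncomputable def Xi (z : ℂ) : ℝ :=
  Real.log ‖2 * (2 * (Real.pi : ℂ)) ^ (-(1 - z)) * Complex.Gamma (1 - z) *
    Complex.cos (Real.pi * (1 - z) / 2)‖

lemma cos_ne_zero_left {z : ℂ} (h1 : -1 ≤ z.re) (h2 : z.re ≤ -1/2) :
    Complex.cos (Real.pi * (1 - z) / 2) ≠ 0 := by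
  intro h
  rw [Complex.cos_eq_zero_iff] at h
  obtain ⟨k, hk⟩ := h
  have hk2 : (1 - z.re) = 2 * k + 1 := by
    have h3 := congrArg Complex.re hk
    have e1 : ((Real.pi : ℂ) * (1 - z) / 2).re = Real.pi * (1 - z.re) / 2 := by simp
    have e2 : ((2 * (k : ℂ) + 1) * Real.pi / 2).re = (2 * k + 1) * Real.pi / 2 := by simp
    rw [e1, e2] at h3
    have hpi := Real.pi_pos
    have : Real.pi * (1 - z.re) = Real.pi * (2 * k + 1) := by linarith
    exact mul_left_cancel₀ hpi.ne' this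
  have h3 : (2:ℝ) * k + 1 ≤ 2 := by linarith
  have h4 : (3/2:ℝ) ≤ 2 * k + 1 := by linarith
  have h5 : (k:ℝ) ≤ 1/2 := by linarith
  have h6 : (1/4:ℝ) ≤ k := by linarith
  have h7 : k < 1 := by
    have : (k:ℝ) < 1 := by linarith
    exact_mod_cast this
  have h8 : 0 < k := by
    have : (0:ℝ) < k := by linarith
    exact_mod_cast this
  omega

lemma log_norm_zeta_left {z : ℂ} (h1 : -1 ≤ z.re) (h2 : z.re ≤ -1/2) :
    Real.log ‖riemannZeta z‖ = Xi z + Real.log ‖riemannZeta (1 - z)‖ := by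
  have hre : (1 - z).re = 1 - z.re := by simp
  have hs : ∀ n : ℕ, (1 - z) ≠ -n := by
    intro n h
    have h3 := congrArg Complex.re h
    rw [hre] at h3
    simp at h3
    have : (0:ℝ) ≤ n := Nat.cast_nonneg n
    linarith
  have hs1 : (1 - z) ≠ 1 := by
    intro h
    have h3 := congrArg Complex.re h
    rw [hre] at h3
    simp at h3
    linarith
  have h := riemannZeta_one_sub hs hs1
  rw [sub_sub_cancel] at h
  rw [h, norm_mul, Real.log_mul, Xi]
  · have hG : Complex.Gamma (1 - z) ≠ 0 := Complex.Gamma_ne_zero_of_re_pos (by rw [hre]; linarith)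
    have hc := cos_ne_zero_left h1 h2
    have hp : (2 * (Real.pi : ℂ)) ^ (-(1 - z)) ≠ 0 := by
      rw [Complex.cpow_ne_zero_iff]
      left
      simp [Real.pi_ne_zero]
    rw [norm_ne_zero_iff]
    exact mul_ne_zero (mul_ne_zero (mul_ne_zero two_ne_zero hp) hG) hc
  · rw [norm_ne_zero_iff]
    exact riemannZeta_ne_zero_of_one_le_re (by rw [hre]; linarith)

lemma Xi_expand {x τ : ℝ} (h1 : -1 ≤ x) (h2 : x ≤ -1/2) :
    Xi (x + τ * Complex.I) = Real.log 2 - (1 - x) * Real.log (2 * Real.pi) +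
      Real.log ‖Complex.Gamma ((1 - x : ℝ) + (-τ : ℝ) * Complex.I)‖ +
      Real.log ‖Complex.cos ((Real.pi * (1 - x) / 2 : ℝ) + (Real.pi * (-τ) / 2 : ℝ) * Complex.I)‖ := by
  have hre : ((x:ℂ) + τ * Complex.I).re = x := by simp
  have e1 : (1 - ((x:ℂ) + τ * Complex.I)) = ((1 - x : ℝ) : ℂ) + ((-τ : ℝ) : ℂ) * Complex.I := by
    push_cast; ring
  have e2 : (Real.pi : ℂ) * (1 - ((x:ℂ) + τ * Complex.I)) / 2 =
      ((Real.pi * (1 - x) / 2 : ℝ) : ℂ) + ((Real.pi * (-τ) / 2 : ℝ) : ℂ) * Complex.I := by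
    push_cast; ring
  have hG : Complex.Gamma (((1 - x : ℝ) : ℂ) + ((-τ : ℝ) : ℂ) * Complex.I) ≠ 0 :=
    Complex.Gamma_ne_zero_of_re_pos (by simp; linarith)
  have hc := cos_ne_zero_left (z := (x:ℂ) + τ * Complex.I) (by rw [hre]; exact h1) (by rw [hre]; exact h2)
  have h2pi : (2 * (Real.pi : ℂ)) = ((2 * Real.pi : ℝ) : ℂ) := by push_cast; ring
  have hnp : ‖(2 * (Real.pi : ℂ)) ^ (-(1 - ((x:ℂ) + τ * Complex.I)))‖ = (2 * Real.pi) ^ (-(1 - x)) := by
    rw [h2pi, Complex.norm_cpow_eq_rpow_re_of_pos (by positivity)]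
    congr 1
    simp
  unfold Xi
  rw [e2] at hc ⊢
  rw [norm_mul, norm_mul, norm_mul, hnp, e1]
  rw [Real.log_mul, Real.log_mul, Real.log_mul, Real.log_rpow (by positivity)]
  · simp; ring
  · simp
  · positivity
  · exact mul_ne_zero (by simp) (by positivity)
  · exact norm_ne_zero_iff.2 hG
  · exact mul_ne_zero (mul_ne_zero (by simp) (by positivity)) (norm_ne_zero_iff.2 hG)
  · exact norm_ne_zero_iff.2 hc

/-- Asymptotics of `log |χ|` on vertical lines. -/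
lemma Xi_asymp {x τ : ℝ} (h1 : -1 ≤ x) (h2 : x ≤ -1/2) (hτ : 1 ≤ |τ|) :
    |Xi (x + τ * Complex.I) - (1/2 - x) * Real.log (|τ| / (2 * Real.pi))| ≤ 25 / |τ| := by
  have hτ0 : 0 < |τ| := by linarith
  have hpi := Real.pi_gt_three
  rw [Xi_expand h1 h2]
  have hG := log_Gamma_diff (σ := 1 - x) (τ := -τ) (by linarith) (by rwa [abs_neg])
  have hG2 := log_norm_Gamma_half (-τ)
  have hb : |Real.pi * (-τ) / 2| = Real.pi * |τ| / 2 := by
    rw [abs_div, abs_mul, abs_neg, abs_of_pos Real.pi_pos]; norm_num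
  have hc := log_norm_cos (Real.pi * (1 - x) / 2) (Real.pi * (-τ) / 2) (by rw [hb]; nlinarith)
  rw [hb] at hc
  have hch := log_cosh_bound (Real.pi * |τ|)
  have hcosh : Real.cosh (Real.pi * (-τ)) = Real.cosh (Real.pi * |τ|) := by
    rw [← Real.cosh_abs (Real.pi * -τ)]
    congr 1
    rw [abs_mul, abs_neg, abs_of_pos Real.pi_pos]
  rw [hcosh] at hG2
  rw [abs_neg] at hG
  have e1 : Real.exp (-(2 * (Real.pi * |τ| / 2))) ≤ 1 / |τ| := by
    rw [Real.exp_neg, one_div]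
    apply inv_anti₀ hτ0
    have := Real.add_one_le_exp (2 * (Real.pi * |τ| / 2))
    nlinarith
  have e2 : Real.exp (-(2 * (Real.pi * |τ|))) ≤ 1 / |τ| := by
    rw [Real.exp_neg, one_div]
    apply inv_anti₀ hτ0
    have := Real.add_one_le_exp (2 * (Real.pi * |τ|))
    nlinarith
  have e3 : (4 * (1 - x - 1/2) ^ 2 + 5 * (1 - x - 1/2)) / |τ| ≤ 17 / |τ| := by
    apply div_le_div_of_nonneg_right _ hτ0.le
    nlinarith
  have e4 : (25:ℝ) / |τ| = 25 * (1 / |τ|) := by ring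
  have e5 : (17:ℝ) / |τ| = 17 * (1 / |τ|) := by ring
  have hpos : 0 < 1 / |τ| := by positivity
  rw [e4]
  rw [e5] at e3
  rw [Real.log_div hτ0.ne' (by positivity), Real.log_mul (by norm_num) (by positivity)]
  rw [hG2] at hG
  rw [abs_le] at hG hc hch ⊢
  have hx : ((1 - x : ℝ) : ℝ) - 1/2 = 1/2 - x := by ring
  constructor
  · nlinarith [hG.1, hc.1, hch.2]
  · nlinarith [hG.2, hc.2, hch.1]

end Chi

end Pool.Agent.PairCorr
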