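import Mathlib
import Pool.Agent.PairCorr.C_Green

set_option autoImplicit false

namespace Pool.Agent.PairCorr

open MeasureTheory Filter Topology Set Real Metric

section Green2

/-- cutoff function data: `η` with its first two derivatives. -/
structure Cutoff (η η1 η2 : ℝ → ℝ) (M : ℝ) : Prop where
  d1 : ∀ x, HasDerivAt η (η1 x) x
  d2 : ∀ x, HasDerivAt η1 (η2 x) x
  c2 : Continuous η2
  b0 : ∀ x, |η x| ≤ M
  b1 : ∀ x, |η1 x| ≤ M
  b2 : ∀ x, |η2 x| ≤ M
  z0 : ∀ x, (x ≤ -1 ∨ 2 ≤ x) → η x = 0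
  z1 : ∀ x, (x ≤ -1 ∨ 2 ≤ x) → η1 x = 0
  z2 : ∀ x, (x ≤ -1 ∨ 2 ≤ x) → η2 x = 0

variable {η η1 η2 : ℝ → ℝ} {M : ℝ} {k : ℂ → ℂ} {Ck : ℝ}

lemma Cutoff.M_nonneg (h : Cutoff η η1 η2 M) : 0 ≤ M := (abs_nonneg _).trans (h.b0 0)

lemma Cutoff.c0 (h : Cutoff η η1 η2 M) : Continuous η :=
  continuous_iff_continuousAt.2 fun x => (h.d1 x).continuousAt

lemma Cutoff.c1 (h : Cutoff η η1 η2 M) : Continuous η1 :=
  continuous_iff_continuousAt.2 fun x => (h.d2 x).continuousAt

/-- the second-order remainder -/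
noncomputable def rem2 (η η1 : ℝ → ℝ) (x h : ℝ) : ℝ := η (x + h) - η x - h * η1 x

lemma Cutoff.rem_eq (hc : Cutoff η η1 η2 M) (x h : ℝ) :
    rem2 η η1 x h = ∫ s in (0:ℝ)..1, (1 - s) * (h ^ 2 * η2 (x + s * h)) := by
  have hd : ∀ s ∈ uIcc (0:ℝ) 1, HasDerivAt (fun s => (1 - s) * (h * η1 (x + s * h)) + η (x + s * h))
      ((1 - s) * (h ^ 2 * η2 (x + s * h))) s := by
    intro s _
    have e1 : HasDerivAt (fun s : ℝ => x + s * h) h s := by
      have := ((hasDerivAt_id s).mul_const h).const_add x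
      simpa using this
    have e2 : HasDerivAt (fun s : ℝ => η1 (x + s * h)) (η2 (x + s * h) * h) s := (hc.d2 _).comp s e1
    have e3 : HasDerivAt (fun s : ℝ => η (x + s * h)) (η1 (x + s * h) * h) s := (hc.d1 _).comp s e1
    have e4 : HasDerivAt (fun s : ℝ => 1 - s) (-1) s := by
      simpa using (hasDerivAt_id s).const_sub 1
    exact ((e4.mul (e2.const_mul h)).add e3).congr_deriv (by ring)
  rw [intervalIntegral.integral_eq_sub_of_hasDerivAt hd]
  · unfold rem2; simp; ring
  · apply Continuous.intervalIntegrable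
    have := hc.c2
    fun_prop

lemma Cutoff.rem_bound (hc : Cutoff η η1 η2 M) (x h : ℝ) : |rem2 η η1 x h| ≤ M * h ^ 2 := by
  rw [hc.rem_eq]
  have := intervalIntegral.norm_integral_le_of_norm_le_const (a := (0:ℝ)) (b := 1) (C := M * h ^ 2)
    (f := fun s => (1 - s) * (h ^ 2 * η2 (x + s * h))) ?_
  · simpa using this
  · intro s hs
    rw [uIoc_of_le zero_le_one] at hs
    rw [Real.norm_eq_abs, abs_mul, abs_mul, abs_of_nonneg (sub_nonneg.2 hs.2), abs_of_nonneg (sq_nonneg h)]
    have h1 := hc.b2 (x + s * h)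
    have hM := hc.M_nonneg
    calc (1 - s) * (h ^ 2 * |η2 (x + s * h)|) ≤ 1 * (h ^ 2 * M) := by
          apply mul_le_mul _ _ (by positivity) (by norm_num)
          · linarith [hs.1]
          · exact mul_le_mul_of_nonneg_left h1 (sq_nonneg h)
      _ = _ := by ring

lemma Cutoff.rem_lim (hc : Cutoff η η1 η2 M) (x c : ℝ) :
    Tendsto (fun R : ℝ => rem2 η η1 x (R * c) / R ^ 2) (𝓝[>] 0) (𝓝 (c ^ 2 * η2 x / 2)) := by
  have hcont : Continuous (fun R : ℝ => ∫ s in (0:ℝ)..1, (1 - s) * (c ^ 2 * η2 (x + s * (R * c)))) := by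
    apply intervalIntegral.continuous_parametric_intervalIntegral_of_continuous'
    have := hc.c2
    fun_prop
  have h0 : (∫ s in (0:ℝ)..1, (1 - s) * (c ^ 2 * η2 (x + s * (0 * c)))) = c ^ 2 * η2 x / 2 := by
    simp only [zero_mul, mul_zero, add_zero]
    rw [intervalIntegral.integral_mul_const]
    have : ∫ s in (0:ℝ)..1, (1 - s) = 1 / 2 := by
      rw [intervalIntegral.integral_sub (by simp) (by simp)]
      simp; norm_num
    rw [this]; ring
  have ht : Tendsto (fun R : ℝ => ∫ s in (0:ℝ)..1, (1 - s) * (c ^ 2 * η2 (x + s * (R * c))))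
      (𝓝[>] 0) (𝓝 (c ^ 2 * η2 x / 2)) := by
    rw [← h0]
    exact (hcont.tendsto 0).mono_left nhdsWithin_le_nhds
  refine ht.congr' ?_
  filter_upwards [self_mem_nhdsWithin] with R hR
  have hR' : (R:ℝ) ≠ 0 := (mem_Ioi.1 hR).ne'
  rw [hc.rem_eq, eq_div_iff (pow_ne_zero 2 hR'), ← intervalIntegral.integral_mul_const]
  congr 1
  ext s; ring

/-- mean value property, in integral form -/
lemma avg_k (hk : Differentiable ℂ k) (z : ℂ) (R : ℝ) :
    ∫ θ in (0:ℝ)..(2 * π), k (circleMap z R θ) = 2 * π * k z := by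
  have h := (hk.diffContOnCl (s := ball z |R|)).circleAverage
  rw [circleAverage_def] at h
  rw [← h, Complex.real_smul]
  push_cast
  have : (π : ℂ) ≠ 0 := by exact_mod_cast Real.pi_ne_zero
  field_simp

lemma avg_cos : ∫ θ in (0:ℝ)..(2 * π), (Real.cos θ : ℂ) = 0 := by
  rw [intervalIntegral.integral_ofReal, integral_cos]
  simp

lemma avg_k_cos (hk : Differentiable ℂ k) (z : ℂ) {R : ℝ} (hR : 0 < R) :
    ∫ θ in (0:ℝ)..(2 * π), k (circleMap z R θ) * (Real.cos θ : ℂ) = 2 * π * (R * deriv k z / 2) := by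
  have hg : Differentiable ℂ (dslope k z) := by
    rw [← differentiableOn_univ, Complex.differentiableOn_dslope univ_mem, differentiableOn_univ]
    exact hk
  have hR' : (R : ℂ) ≠ 0 := by exact_mod_cast hR.ne'
  set h : ℂ → ℂ := fun ζ => (1 + ((ζ - z) / R) ^ 2) * dslope k z ζ with hh
  have hhd : Differentiable ℂ h := by
    apply Differentiable.mul _ hg
    fun_prop
  have e : ∀ θ : ℝ, k (circleMap z R θ) * (Real.cos θ : ℂ) =
      k z * (Real.cos θ : ℂ) + (R / 2 : ℂ) * h (circleMap z R θ) := by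
    intro θ
    have h1 : k (circleMap z R θ) = k z + (circleMap z R θ - z) * dslope k z (circleMap z R θ) := by
      have := sub_smul_dslope k z (circleMap z R θ)
      rw [smul_eq_mul] at this
      rw [this]; ring
    have h2 : circleMap z R θ - z = R * Complex.exp (θ * Complex.I) := by
      unfold circleMap; ring
    have h3 : (Real.cos θ : ℂ) = (Complex.exp (θ * Complex.I) + Complex.exp (-(θ * Complex.I))) / 2 := by
      rw [Complex.ofReal_cos, Complex.cos]; ring_nf
    have h4 : Complex.exp (-(θ * Complex.I)) * Complex.exp (θ * Complex.I) = 1 := by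
      rw [← Complex.exp_add]; simp
    simp only [hh]
    rw [h1, h2]
    have h5 : (R : ℂ) * Complex.exp (θ * Complex.I) / R = Complex.exp (θ * Complex.I) := by
      field_simp
    rw [h5, h3]
    generalize dslope k z (circleMap z R θ) = g
    linear_combination ((R:ℂ) * g / 2) * h4
  simp_rw [e]
  rw [intervalIntegral.integral_add, intervalIntegral.integral_const_mul, avg_cos,
    intervalIntegral.integral_const_mul, avg_k hhd]
  · simp only [hh, sub_self, zero_div, dslope_same]
    ring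
  · apply Continuous.intervalIntegrable
    fun_prop
  · apply Continuous.intervalIntegrable
    have := hhd.continuous
    have h2 := continuous_circleMap z R
    fun_prop

/-- expansion of the circle average -/
lemma avg_w (hk : Differentiable ℂ k) (hc : Cutoff η η1 η2 M) (z : ℂ) {R : ℝ} (hR : 0 < R) :
    circleAverage (fun z => k z * (η z.re : ℂ)) z R - k z * (η z.re : ℂ) =
      R ^ 2 * (deriv k z * (η1 z.re : ℂ) / 2) +
      (2 * π : ℂ)⁻¹ * ∫ θ in (0:ℝ)..(2 * π),
        k (circleMap z R θ) * (rem2 η η1 z.re (R * Real.cos θ) : ℂ) := by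
  rw [circleAverage_def]
  have e : ∀ θ : ℝ, k (circleMap z R θ) * (η (circleMap z R θ).re : ℂ) =
      (η z.re : ℂ) * k (circleMap z R θ) + (R * η1 z.re : ℂ) * (k (circleMap z R θ) * (Real.cos θ : ℂ))
      + k (circleMap z R θ) * (rem2 η η1 z.re (R * Real.cos θ) : ℂ) := by
    intro θ
    rw [(circleMap_re_im z R θ).1]
    unfold rem2
    push_cast
    ring
  have hkc : Continuous fun θ : ℝ => k (circleMap z R θ) := hk.continuous.comp (continuous_circleMap z R)
  have hη := hc.c0
  have hcosc : Continuous fun θ : ℝ => (Real.cos θ : ℂ) := by fun_prop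
  simp_rw [e]
  rw [intervalIntegral.integral_add, intervalIntegral.integral_add, intervalIntegral.integral_const_mul,
    intervalIntegral.integral_const_mul, avg_k hk, avg_k_cos hk z hR, Complex.real_smul]
  · push_cast
    have : (π : ℂ) ≠ 0 := by exact_mod_cast Real.pi_ne_zero
    field_simp
    ring
  · exact (continuous_const.mul hkc).intervalIntegrable _ _
  · exact (continuous_const.mul (hkc.mul hcosc)).intervalIntegrable _ _
  · exact ((continuous_const.mul hkc).add (continuous_const.mul (hkc.mul hcosc))).intervalIntegrable _ _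
  · apply Continuous.intervalIntegrable
    unfold rem2
    exact hkc.mul (Complex.continuous_ofReal.comp (by fun_prop))

/-- the Laplacian of `k(z) η(Re z)`. -/
noncomputable def Lap (k : ℂ → ℂ) (η1 η2 : ℝ → ℝ) (z : ℂ) : ℂ :=
  2 * deriv k z * (η1 z.re : ℂ) + k z * (η2 z.re : ℂ)

lemma norm_k_circle (hkb : ∀ z : ℂ, |z.re| ≤ 4 → ‖k z‖ ≤ Ck * wt z) {z : ℂ} {R : ℝ} (hR : 0 < R)
    (hR2 : R ≤ 1 / 2) (hz : |z.re| ≤ 3) (θ : ℝ) : ‖k (circleMap z R θ)‖ ≤ 3 * |Ck| * wt z := by
  have hc := circleMap_re_im z R θ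
  have hcos := Real.abs_cos_le_one θ
  have hsin := Real.abs_sin_le_one θ
  have hRc : |R * Real.cos θ| ≤ 1/2 := by
    rw [abs_mul, abs_of_pos hR]; nlinarith [abs_nonneg (Real.cos θ)]
  have hRs : |R * Real.sin θ| ≤ 1/2 := by
    rw [abs_mul, abs_of_pos hR]; nlinarith [abs_nonneg (Real.sin θ)]
  have h1 : ‖k (circleMap z R θ)‖ ≤ Ck * wt (circleMap z R θ) := by
    apply hkb
    rw [hc.1]
    exact (abs_add_le _ _).trans (by linarith)
  have h2 : wt (circleMap z R θ) ≤ 3 * wt z := by
    apply wt_shift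
    rw [hc.2, add_sub_cancel_left]
    linarith
  calc ‖k (circleMap z R θ)‖ ≤ |Ck| * wt (circleMap z R θ) :=
        h1.trans (mul_le_mul_of_nonneg_right (le_abs_self _) (wt_pos _).le)
    _ ≤ |Ck| * (3 * wt z) := mul_le_mul_of_nonneg_left h2 (abs_nonneg _)
    _ = _ := by ring

/-- bound for the normalised circle average -/
lemma avg_bound (hk : Differentiable ℂ k) (hkb : ∀ z : ℂ, |z.re| ≤ 4 → ‖k z‖ ≤ Ck * wt z)
    (hkb' : ∀ z : ℂ, |z.re| ≤ 4 → ‖deriv k z‖ ≤ Ck * wt z) (hc : Cutoff η η1 η2 M)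
    (z : ℂ) {R : ℝ} (hR : 0 < R) (hR2 : R ≤ 1 / 2) :
    ‖(4 / R ^ 2 : ℂ) * (circleAverage (fun z => k z * (η z.re : ℂ)) z R - k z * (η z.re : ℂ))‖ ≤
      {z : ℂ | -2 ≤ z.re ∧ z.re ≤ 3}.indicator (fun z => 14 * |Ck| * M * wt z) z := by
  have hM := hc.M_nonneg
  by_cases hz : z ∈ {z : ℂ | -2 ≤ z.re ∧ z.re ≤ 3}
  · rw [indicator_of_mem hz]
    rw [mem_ofPred_eq] at hz
    have hz3 : |z.re| ≤ 3 := abs_le.2 ⟨by linarith [hz.1], hz.2⟩
    rw [avg_w hk hc z hR, mul_add]
    have hR' : (R : ℂ) ≠ 0 := by exact_mod_cast hR.ne'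
    refine (norm_add_le _ _).trans ?_
    have h1 : ‖(4 / R ^ 2 : ℂ) * (R ^ 2 * (deriv k z * (η1 z.re : ℂ) / 2))‖ ≤ 2 * (|Ck| * wt z * M) := by
      have : (4 / R ^ 2 : ℂ) * (R ^ 2 * (deriv k z * (η1 z.re : ℂ) / 2)) = 2 * (deriv k z * (η1 z.re : ℂ)) := by
        field_simp; ring
      rw [this, norm_mul, norm_mul, Complex.norm_real, Real.norm_eq_abs, Complex.norm_ofNat]
      apply mul_le_mul_of_nonneg_left _ (by norm_num)
      apply mul_le_mul _ (hc.b1 _) (abs_nonneg _) (mul_nonneg (abs_nonneg _) (wt_pos z).le)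
      exact (hkb' z (hz3.trans (by norm_num))).trans
        (mul_le_mul_of_nonneg_right (le_abs_self _) (wt_pos _).le)
    have h2 : ‖∫ θ in (0:ℝ)..(2 * π), k (circleMap z R θ) * (rem2 η η1 z.re (R * Real.cos θ) : ℂ)‖ ≤
        (3 * |Ck| * wt z * (M * R ^ 2)) * |2 * π - 0| := by
      apply intervalIntegral.norm_integral_le_of_norm_le_const
      intro θ _
      rw [norm_mul, Complex.norm_real, Real.norm_eq_abs]
      apply mul_le_mul (norm_k_circle hkb hR hR2 hz3 θ) _ (abs_nonneg _)
        (mul_nonneg (by positivity) (wt_pos z).le)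
      refine (hc.rem_bound _ _).trans ?_
      apply mul_le_mul_of_nonneg_left _ hM
      have := Real.abs_cos_le_one θ
      have h3 : Real.cos θ ^ 2 ≤ 1 := Real.cos_sq_le_one θ
      rw [mul_pow]
      nlinarith [sq_nonneg R]
    have h3 : ‖(4 / R ^ 2 : ℂ) * ((2 * π : ℂ)⁻¹ * ∫ θ in (0:ℝ)..(2 * π),
        k (circleMap z R θ) * (rem2 η η1 z.re (R * Real.cos θ) : ℂ))‖ ≤ 12 * (|Ck| * wt z * M) := by
      rw [← mul_assoc, norm_mul]
      have e : (4 / R ^ 2 : ℂ) * (2 * π : ℂ)⁻¹ = ((4 / R ^ 2 * (2 * π)⁻¹ : ℝ) : ℂ) := by push_cast; ring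
      rw [e, Complex.norm_real, Real.norm_of_nonneg (by positivity)]
      calc (4 / R ^ 2 * (2 * π)⁻¹) * ‖∫ θ in (0:ℝ)..(2 * π),
            k (circleMap z R θ) * (rem2 η η1 z.re (R * Real.cos θ) : ℂ)‖
          ≤ (4 / R ^ 2 * (2 * π)⁻¹) * ((3 * |Ck| * wt z * (M * R ^ 2)) * |2 * π - 0|) :=
            mul_le_mul_of_nonneg_left h2 (by positivity)
        _ = 12 * (|Ck| * wt z * M) := by
            rw [sub_zero, abs_of_pos (a := 2 * π) (by positivity)]
            have := Real.pi_pos
            field_simp; ring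
    calc _ ≤ 2 * (|Ck| * wt z * M) + 12 * (|Ck| * wt z * M) := add_le_add h1 h3
      _ = _ := by ring
  · rw [indicator_of_notMem hz]
    simp only [mem_ofPred_eq, not_and_or, not_le] at hz
    have h0 : ∀ θ : ℝ, η (circleMap z R θ).re = 0 := by
      intro θ
      apply hc.z0
      rw [(circleMap_re_im z R θ).1]
      have hcos := Real.abs_cos_le_one θ
      have hRc : |R * Real.cos θ| ≤ 1/2 := by
        rw [abs_mul, abs_of_pos hR]; nlinarith [abs_nonneg (Real.cos θ)]
      have h4 := abs_le.1 hRc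
      rcases hz with h | h
      · left; linarith [h4.2]
      · right; linarith [h4.1]
    have h1 : η z.re = 0 := by
      apply hc.z0
      rcases hz with h | h
      · left; linarith
      · right; linarith
    rw [circleAverage_def]
    simp [h0, h1]

/-- pointwise limit of the normalised circle average -/
lemma avg_lim (hk : Differentiable ℂ k) (hc : Cutoff η η1 η2 M) (z : ℂ) :
    Tendsto (fun R : ℝ => (4 / R ^ 2 : ℂ) *
      (circleAverage (fun z => k z * (η z.re : ℂ)) z R - k z * (η z.re : ℂ))) (𝓝[>] 0)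
      (𝓝 (Lap k η1 η2 z)) := by
  have hkc : ∀ R, Continuous fun θ : ℝ => k (circleMap z R θ) := fun R =>
    hk.continuous.comp (continuous_circleMap z R)
  -- the integral term
  have hlim : Tendsto (fun R : ℝ => ∫ θ in (0:ℝ)..(2 * π),
      k (circleMap z R θ) * ((rem2 η η1 z.re (R * Real.cos θ) / R ^ 2 : ℝ) : ℂ)) (𝓝[>] 0)
      (𝓝 (∫ θ in (0:ℝ)..(2 * π), k z * ((Real.cos θ ^ 2 * η2 z.re / 2 : ℝ) : ℂ))) := by
    obtain ⟨B, hB⟩ := (isCompact_closedBall z 1).exists_bound_of_continuousOn (f := k)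
      hk.continuous.continuousOn
    apply intervalIntegral.tendsto_integral_filter_of_dominated_convergence (fun _ => B * M)
    · filter_upwards with R
      apply Continuous.aestronglyMeasurable
      have hη := hc.c0
      refine (hkc R).mul (Complex.continuous_ofReal.comp ?_)
      unfold rem2
      fun_prop
    · filter_upwards [Ioc_mem_nhdsGT (zero_lt_one : (0:ℝ) < 1)] with R hR
      filter_upwards with θ _
      rw [norm_mul, Complex.norm_real, Real.norm_eq_abs]
      have hBz : ‖k (circleMap z R θ)‖ ≤ B := by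
        apply hB
        apply closedBall_subset_closedBall hR.2
        exact circleMap_mem_closedBall z hR.1.le θ
      have hB0 : 0 ≤ B := (norm_nonneg _).trans hBz
      apply mul_le_mul hBz _ (abs_nonneg _) hB0
      rw [abs_div, abs_of_nonneg (sq_nonneg R), div_le_iff₀ (by have := hR.1; positivity)]
      refine (hc.rem_bound _ _).trans ?_
      apply mul_le_mul_of_nonneg_left _ hc.M_nonneg
      rw [mul_pow]
      nlinarith [sq_nonneg R, Real.cos_sq_le_one θ]
    · exact intervalIntegrable_const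
    · filter_upwards with θ _
      apply Tendsto.mul
      · have h1 : Continuous fun R : ℝ => k (circleMap z R θ) := by
          apply hk.continuous.comp
          unfold circleMap
          fun_prop
        have h2 := (h1.tendsto 0).mono_left (nhdsWithin_le_nhds (s := Ioi 0))
        simpa using h2
      · exact (Complex.continuous_ofReal.tendsto _).comp (hc.rem_lim z.re (Real.cos θ))
  have hval : (∫ θ in (0:ℝ)..(2 * π), k z * ((Real.cos θ ^ 2 * η2 z.re / 2 : ℝ) : ℂ)) =
      k z * (η2 z.re : ℂ) * (π / 2) := by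
    rw [intervalIntegral.integral_const_mul, intervalIntegral.integral_ofReal]
    have : ∫ θ in (0:ℝ)..(2 * π), Real.cos θ ^ 2 * η2 z.re / 2 = π * η2 z.re / 2 := by
      rw [intervalIntegral.integral_div, intervalIntegral.integral_mul_const, integral_cos_sq]
      simp
    rw [this]; push_cast; ring
  rw [hval] at hlim
  have h2 := (hlim.const_mul (4 * (2 * π : ℂ)⁻¹)).const_add (2 * deriv k z * (η1 z.re : ℂ))
  have hpi : (π : ℂ) ≠ 0 := by exact_mod_cast Real.pi_ne_zero
  have e2 : 2 * deriv k z * (η1 z.re : ℂ) + 4 * (2 * π : ℂ)⁻¹ * (k z * (η2 z.re : ℂ) * (π / 2)) =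
      Lap k η1 η2 z := by
    unfold Lap
    field_simp; ring
  rw [e2] at h2
  refine h2.congr' ?_
  filter_upwards [self_mem_nhdsWithin] with R hR
  have hR0 : 0 < R := hR
  have hR' : (R : ℂ) ≠ 0 := by exact_mod_cast hR0.ne'
  rw [avg_w hk hc z hR0]
  have e3 : ∫ θ in (0:ℝ)..(2 * π), k (circleMap z R θ) * ((rem2 η η1 z.re (R * Real.cos θ) / R ^ 2 : ℝ) : ℂ)
      = (∫ θ in (0:ℝ)..(2 * π), k (circleMap z R θ) * (rem2 η η1 z.re (R * Real.cos θ) : ℂ)) / R ^ 2 := by
    rw [← intervalIntegral.integral_div]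
    congr 1
    ext θ
    push_cast; ring
  rw [e3]
  generalize (∫ θ in (0:ℝ)..(2 * π), k (circleMap z R θ) * (rem2 η η1 z.re (R * Real.cos θ) : ℂ)) = X
  field_simp
  ring

/-- The Green identity for `log ‖f‖` in a vertical strip. -/
theorem green_identity {f : ℂ → ℂ} (hf : Differentiable ℂ f) (hZc : {z | f z = 0}.Countable)
    (hInt : IntegrableOn (fun z => Real.log ‖f z‖ * wt z) {z : ℂ | -2 ≤ z.re ∧ z.re ≤ 3})
    (hSum : Summable fun ρ : Zst f => (analyticOrderNatAt f ρ : ℝ) * wt ρ)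
    (hk : Differentiable ℂ k) (hkb : ∀ z : ℂ, |z.re| ≤ 4 → ‖k z‖ ≤ Ck * wt z)
    (hkb' : ∀ z : ℂ, |z.re| ≤ 4 → ‖deriv k z‖ ≤ Ck * wt z) (hc : Cutoff η η1 η2 M) :
    ∫ z, (Real.log ‖f z‖ : ℂ) * Lap k η1 η2 z =
      2 * π * ∑' ρ : Zst f, (analyticOrderNatAt f ρ : ℂ) * (k ρ * (η (ρ : ℂ).re : ℂ)) := by
  set w : ℂ → ℂ := fun z => k z * (η z.re : ℂ) with hwdef
  have hM := hc.M_nonneg
  have hw : Continuous w := by
    have := hc.c0
    have := hk.continuous
    exact this.mul (Complex.continuous_ofReal.comp (hc.c0.comp Complex.continuous_re))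
  have hsupp : ∀ z : ℂ, (z.re < -1 ∨ 2 < z.re) → w z = 0 := by
    intro z hz
    have : η z.re = 0 := hc.z0 _ (by rcases hz with h | h; exacts [Or.inl h.le, Or.inr h.le])
    simp [hwdef, this]
  have hdec : ∀ z, ‖w z‖ ≤ |Ck| * M * wt z := by
    intro z
    by_cases hz : z.re < -1 ∨ 2 < z.re
    · rw [hsupp z hz, norm_zero]
      have := (wt_pos z).le
      positivity
    · push Not at hz
      simp only [hwdef]
      rw [norm_mul, Complex.norm_real, Real.norm_eq_abs]
      have h1 := hkb z (abs_le.2 ⟨by linarith [hz.1], by linarith [hz.2]⟩)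
      calc ‖k z‖ * |η z.re| ≤ (|Ck| * wt z) * M := by
            apply mul_le_mul _ (hc.b0 _) (abs_nonneg _) (mul_nonneg (abs_nonneg _) (wt_pos z).le)
            exact h1.trans (mul_le_mul_of_nonneg_right (le_abs_self _) (wt_pos _).le)
        _ = _ := by ring
  have hum : Measurable (fun z => Real.log ‖f z‖) :=
    Real.measurable_log.comp hf.continuous.norm.measurable
  have hSm : MeasurableSet {z : ℂ | -2 ≤ z.re ∧ z.re ≤ 3} := by
    apply MeasurableSet.inter
    · exact measurableSet_le measurable_const Complex.measurable_re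
    · exact measurableSet_le Complex.measurable_re measurable_const
  -- left side limit
  have hL : Tendsto (fun R : ℝ => ∫ z, (Real.log ‖f z‖ : ℂ) *
      ((4 / R ^ 2 : ℂ) * (circleAverage w z R - w z))) (𝓝[>] 0)
      (𝓝 (∫ z, (Real.log ‖f z‖ : ℂ) * Lap k η1 η2 z)) := by
    apply tendsto_integral_filter_of_dominated_convergence
      (fun z => {z : ℂ | -2 ≤ z.re ∧ z.re ≤ 3}.indicator
        (fun z => 14 * |Ck| * M * |Real.log ‖f z‖ * wt z|) z)
    · filter_upwards [Ioc_mem_nhdsGT (by norm_num : (0:ℝ) < 1 / 2)] with R hR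
      apply AEStronglyMeasurable.mul
      · exact (Complex.measurable_ofReal.comp hum).aestronglyMeasurable
      · have hcont : Continuous (fun z => circleAverage w z R) := by
          simp_rw [circleAverage_def]
          apply Continuous.const_smul
          apply intervalIntegral.continuous_parametric_intervalIntegral_of_continuous'
          apply hw.comp
          unfold circleMap
          fun_prop
        exact (continuous_const.mul (hcont.sub hw)).aestronglyMeasurable
    · filter_upwards [Ioc_mem_nhdsGT (by norm_num : (0:ℝ) < 1 / 2)] with R hR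
      filter_upwards with z
      have hb := avg_bound hk hkb hkb' hc z hR.1 hR.2
      rw [norm_mul, Complex.norm_real, Real.norm_eq_abs]
      by_cases hz : z ∈ {z : ℂ | -2 ≤ z.re ∧ z.re ≤ 3}
      · rw [indicator_of_mem hz] at hb ⊢
        rw [abs_mul, abs_of_pos (wt_pos z)]
        calc _ ≤ |Real.log ‖f z‖| * (14 * |Ck| * M * wt z) :=
              mul_le_mul_of_nonneg_left hb (abs_nonneg _)
          _ = _ := by ring
      · rw [indicator_of_notMem hz] at hb ⊢
        have := le_antisymm hb (norm_nonneg _)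
        rw [this, mul_zero]
    · rw [integrable_indicator_iff hSm]
      exact (hInt.abs).const_mul _
    · filter_upwards with z
      exact (avg_lim hk hc z).const_mul _
  -- right side limit
  have hRt : Tendsto (fun R : ℝ => ∑' ρ : Zst f, (4 / R ^ 2 : ℂ) * ((analyticOrderNatAt f ρ : ℂ) *
      ∫ c, w c * (log⁺ (R * ‖c - ρ‖⁻¹) : ℂ))) (𝓝[>] 0)
      (𝓝 (∑' ρ : Zst f, 2 * π * ((analyticOrderNatAt f ρ : ℂ) * (k ρ * (η (ρ : ℂ).re : ℂ))))) := by
    apply tendsto_tsum_of_dominated_convergence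
      (bound := fun ρ : Zst f => 6 * π * (|Ck| * M) * ((analyticOrderNatAt f ρ : ℝ) * wt ρ))
    · exact hSum.mul_left _
    · intro ρ
      have hone : Tendsto (fun R : ℝ => ∫ c : ℂ, w (ρ + R * c) * (log⁺ (‖c‖⁻¹) : ℂ)) (𝓝[>] 0)
          (𝓝 (∫ c : ℂ, w ρ * (log⁺ (‖c‖⁻¹) : ℂ))) := by
        apply tendsto_integral_filter_of_dominated_convergence
          (fun c : ℂ => (|Ck| * M) * (log⁺ (‖c‖⁻¹)))
        · filter_upwards with R
          apply AEStronglyMeasurable.mul
          · exact (hw.comp (by fun_prop)).aestronglyMeasurable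
          · exact Complex.continuous_ofReal.comp_aestronglyMeasurable
              integrable_posLog_norm.aestronglyMeasurable
        · filter_upwards with R
          filter_upwards with c
          rw [norm_mul, Complex.norm_real, Real.norm_of_nonneg posLog_nonneg]
          apply mul_le_mul_of_nonneg_right _ posLog_nonneg
          refine (hdec _).trans ?_
          exact mul_le_of_le_one_right (by positivity) (wt_le_one _)
        · exact integrable_posLog_norm.const_mul _
        · filter_upwards with c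
          apply Tendsto.mul_const
          have h1 : Continuous fun R : ℝ => w (ρ + R * c) := hw.comp (by fun_prop)
          have h2 := (h1.tendsto 0).mono_left (nhdsWithin_le_nhds (s := Ioi 0))
          simpa using h2
      have hv : (∫ c : ℂ, w ρ * (log⁺ (‖c‖⁻¹) : ℂ)) = w ρ * (π / 2) := by
        rw [integral_const_mul, integral_complex_ofReal, integral_posLog_norm]
        push_cast; ring
      rw [hv] at hone
      have h3 := hone.const_mul (4 * (analyticOrderNatAt f ρ : ℂ))
      have e3 : 4 * (analyticOrderNatAt f ρ : ℂ) * (w ρ * (π / 2)) =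
        2 * π * ((analyticOrderNatAt f ρ : ℂ) * (k ρ * (η (ρ : ℂ).re : ℂ))) := by
        simp only [hwdef]; ring
      rw [e3] at h3
      refine h3.congr' ?_
      filter_upwards [self_mem_nhdsWithin] with R hR
      have hR0 : 0 < R := hR
      have hR' : (R : ℂ) ≠ 0 := by exact_mod_cast hR0.ne'
      have e4 : ∫ c, w c * (log⁺ (R * ‖c - ρ‖⁻¹) : ℂ) =
          R ^ 2 * ∫ c : ℂ, w (ρ + R * c) * (log⁺ (‖c‖⁻¹) : ℂ) := by
        have h5 := Measure.integral_comp_smul (volume : Measure ℂ)
          (fun c : ℂ => w (ρ + R * (R⁻¹ • c)) * (log⁺ (‖(R⁻¹ • c : ℂ)‖⁻¹) : ℂ)) R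
        have h6 : ∀ c : ℂ, (R⁻¹ • (R • c) : ℂ) = c := by
          intro c
          rw [smul_smul, inv_mul_cancel₀ hR0.ne', one_smul]
        simp only [h6] at h5
        rw [h5, Complex.finrank_real_complex, abs_of_nonneg (by positivity), Complex.real_smul]
        push_cast
        rw [← mul_assoc, mul_inv_cancel₀ (pow_ne_zero 2 hR'), one_mul]
        rw [← integral_add_right_eq_self (μ := (volume : Measure ℂ)) _ (ρ : ℂ)]
        congr 1
        ext c
        rw [add_sub_cancel_right]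
        congr 2
        · rw [Complex.real_smul]
          push_cast
          field_simp
          ring
        · rw [norm_smul, mul_inv]
          simp [abs_of_pos hR0]
      rw [e4]
      field_simp
    · filter_upwards [Ioc_mem_nhdsGT (by norm_num : (0:ℝ) < 1 / 2)] with R hR
      intro ρ
      have h1 := w_mul_posLog_norm_integral hw hdec hR.1 hR.2 (ρ : ℂ)
      have h2 : ‖∫ c, w c * (log⁺ (R * ‖c - ρ‖⁻¹) : ℂ)‖ ≤ 3 * |(|Ck| * M)| * wt ρ * (R ^ 2 * (π / 2)) :=
        (norm_integral_le_integral_norm _).trans h1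
      rw [norm_mul, norm_mul]
      have e1 : ‖(4 / R ^ 2 : ℂ)‖ = 4 / R ^ 2 := by
        rw [norm_div, norm_pow, Complex.norm_real, Real.norm_of_nonneg hR.1.le]; simp
      have e2 : ‖(analyticOrderNatAt f ρ : ℂ)‖ = (analyticOrderNatAt f ρ : ℝ) := by simp
      rw [e1, e2]
      rw [abs_of_nonneg (by positivity : 0 ≤ |Ck| * M)] at h2
      have hRp := hR.1
      calc 4 / R ^ 2 * ((analyticOrderNatAt f ρ : ℝ) * ‖∫ c, w c * (log⁺ (R * ‖c - ρ‖⁻¹) : ℂ)‖)
          ≤ 4 / R ^ 2 * ((analyticOrderNatAt f ρ : ℝ) * (3 * (|Ck| * M) * wt ρ * (R ^ 2 * (π / 2)))) := by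
            apply mul_le_mul_of_nonneg_left _ (by positivity)
            exact mul_le_mul_of_nonneg_left h2 (Nat.cast_nonneg _)
        _ = _ := by field_simp; ring
  have hEq : (fun R : ℝ => ∫ z, (Real.log ‖f z‖ : ℂ) *
      ((4 / R ^ 2 : ℂ) * (circleAverage w z R - w z))) =ᶠ[𝓝[>] 0]
      (fun R : ℝ => ∑' ρ : Zst f, (4 / R ^ 2 : ℂ) * ((analyticOrderNatAt f ρ : ℂ) *
      ∫ c, w c * (log⁺ (R * ‖c - ρ‖⁻¹) : ℂ))) := by
    filter_upwards [Ioc_mem_nhdsGT (by norm_num : (0:ℝ) < 1 / 2)] with R hR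
    have hJ := Jstar hf hZc hw hsupp hdec hInt hSum hR.1 hR.2
    rw [tsum_mul_left, ← hJ, ← integral_const_mul]
    congr 1
    ext z; ring
  have := tendsto_nhds_unique (hL.congr' hEq) hRt
  rw [this, tsum_mul_left]

end Green2

end Pool.Agent.PairCorr
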