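import Mathlib
import Pool.Agent.PairCorr.Defs
import Pool.Agent.PairCorr.AreaLog
import Pool.Agent.PairCorr.ZeroMeasure
import Pool.Agent.PairCorr.C_Green2

set_option autoImplicit false

namespace Pool.Agent.PairCorr

open MeasureTheory Filter Topology Set Real
open scoped ENNReal

lemma zeta1_one_ne : riemannZeta₁ 1 ≠ 0 := by
  rw [zeta1_eq_of_re_pos (by simp)]; simp

lemma zeta1_eq_zero_iff {z : ℂ} : riemannZeta₁ z = 0 ↔ z ≠ 1 ∧ riemannZeta z = 0 := by
  constructor
  · intro h
    have h1 : z ≠ 1 := by intro h1; rw [h1] at h; exact zeta1_one_ne h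
    refine ⟨h1, ?_⟩
    rw [zeta1_eq_mul h1, mul_eq_zero] at h
    exact h.resolve_left (sub_ne_zero.2 h1)
  · rintro ⟨h1, h2⟩
    rw [zeta1_eq_mul h1, h2, mul_zero]

/-- the zeros of `(z-1)ζ(z)` in the strip `-2 < Re z < 3` are the nontrivial zeros. -/
lemma Zst_zeta1 : Zst riemannZeta₁ = NTZ := by
  ext z
  unfold Zst NTZ
  simp only [mem_ofPred_eq]
  rw [zeta1_eq_zero_iff]
  constructor
  · rintro ⟨⟨h1, h0⟩, h2, h3⟩
    refine ⟨h0, ?_, ?_⟩
    · by_contra hre
      push Not at hre
      -- functional equation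
      have hz0 : z ≠ 0 := by
        intro h; rw [h, riemannZeta_zero] at h0; norm_num at h0
      have hs : ∀ n : ℕ, 1 - z ≠ -n := by
        intro n h
        have := congrArg Complex.re h
        simp at this
        have hn : (0:ℝ) ≤ n := Nat.cast_nonneg n
        linarith
      have hs1 : (1 - z) ≠ 1 := by
        intro h; apply hz0; linear_combination -h
      have hfe := riemannZeta_one_sub hs hs1
      rw [sub_sub_cancel, h0] at hfe
      have hζ : riemannZeta (1 - z) ≠ 0 := by
        apply riemannZeta_ne_zero_of_one_le_re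
        simp; linarith
      have hΓ : Complex.Gamma (1 - z) ≠ 0 := Complex.Gamma_ne_zero hs
      have hπ : (2 * (π:ℂ)) ^ (-(1 - z)) ≠ 0 := by
        rw [Complex.cpow_def_of_ne_zero (by simp [Real.pi_ne_zero])]
        exact Complex.exp_ne_zero _
      have hcos : Complex.cos (π * (1 - z) / 2) ≠ 0 := by
        rw [Complex.cos_ne_zero_iff]
        intro k hk
        have hpi : (π : ℂ) ≠ 0 := by exact_mod_cast Real.pi_ne_zero
        have h5 : (1 - z) = (2 * k + 1 : ℂ) := by
          field_simp at hk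
          linear_combination hk
        have h6 := congrArg Complex.re h5
        simp at h6
        have h7 : (z.re : ℝ) = ((-2 * k : ℤ) : ℝ) := by push_cast; linarith
        have h8 : (-2 : ℤ) < -2 * k := by
          have : (-2 : ℝ) < ((-2 * k : ℤ) : ℝ) := by rw [← h7]; exact h2
          exact_mod_cast this
        have h9 : (-2 * k : ℤ) ≤ 0 := by
          have : ((-2 * k : ℤ) : ℝ) ≤ 0 := by rw [← h7]; exact hre
          exact_mod_cast this
        have hk0 : k = 0 := by omega
        rw [hk0] at h5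
        apply hs1; rw [h5]; simp
      have hne : 2 * (2 * (π:ℂ)) ^ (-(1 - z)) * Complex.Gamma (1 - z) * Complex.cos (π * (1 - z) / 2) *
          riemannZeta (1 - z) ≠ 0 := by
        simp only [ne_eq, mul_eq_zero, not_or]
        refine ⟨⟨⟨⟨by norm_num, ?_⟩, hΓ⟩, hcos⟩, hζ⟩
        exact hπ
      exact hne hfe.symm
    · by_contra hre
      push Not at hre
      exact riemannZeta_ne_zero_of_one_le_re hre h0
  · rintro ⟨h0, h1, h2⟩
    refine ⟨⟨?_, h0⟩, by linarith, by linarith⟩
    intro h; rw [h] at h2; simp at h2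

/-- the closed strip -/
def strip : Set ℂ := {z : ℂ | -2 ≤ z.re ∧ z.re ≤ 3}

lemma measurableSet_strip : MeasurableSet strip :=
  (measurableSet_le measurable_const Complex.measurable_re).inter
    (measurableSet_le Complex.measurable_re measurable_const)

lemma integrableOn_log_wt {f : ℂ → ℂ} (hum : Measurable fun z => Real.log ‖f z‖) {C : ℝ} (hC : 0 ≤ C)
    (h : ∀ t : ℝ, ∫⁻ z in ({z : ℂ | |z.im - t| ≤ 1} ∩ strip), ENNReal.ofReal |Real.log ‖f z‖| ≤
      ENNReal.ofReal (C * Real.log (|t| + 2))) :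
    IntegrableOn (fun z => Real.log ‖f z‖ * wt z) strip := by
  set ν : Measure ℂ := (volume.restrict strip).withDensity (fun z => ENNReal.ofReal |Real.log ‖f z‖|)
    with hν
  have hLD : LogDens ν C := by
    intro t
    have hWm : MeasurableSet {z : ℂ | |z.im - t| ≤ 1} := measurableSet_le (by fun_prop) measurable_const
    rw [hν, withDensity_apply _ hWm, Measure.restrict_restrict hWm]
    exact h t
  have hle := hLD.lintegral_le hC 0
  rw [hν, lintegral_withDensity_eq_lintegral_mul _ (by fun_prop) (by fun_prop)] at hle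
  refine ⟨?_, ?_⟩
  · apply Measurable.aestronglyMeasurable
    unfold wt
    fun_prop
  · rw [hasFiniteIntegral_iff_norm]
    refine lt_of_le_of_lt ?_ (lt_of_le_of_lt hle ENNReal.ofReal_lt_top)
    apply lintegral_mono
    intro z
    simp only [Pi.mul_apply, sub_zero]
    rw [← ENNReal.ofReal_mul (abs_nonneg _), Real.norm_eq_abs, abs_mul, abs_of_pos (wt_pos z)]
    exact le_rfl

/-- the area measure with density `|log ‖(z-1)ζ(z)‖|` on the strip. -/
lemma logzeta_integrableOn :
    IntegrableOn (fun z => Real.log ‖riemannZeta₁ z‖ * wt z) strip := by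
  obtain ⟨C, hC, h⟩ := zeta1_log_area
  have hum : Measurable (fun z : ℂ => Real.log ‖riemannZeta₁ z‖) := by
    have := differentiable_riemannZeta₁.continuous.measurable
    fun_prop
  apply integrableOn_log_wt hum hC.le
  intro t
  have hsub : {z : ℂ | |z.im - t| ≤ 1} ∩ strip ⊆ (Icc (-4 : ℝ) 4 ×ℂ Icc (t - 1) (t + 1)) := by
    rintro z ⟨h1, h2, h3⟩
    rw [mem_ofPred_eq, abs_le] at h1
    rw [Complex.mem_reProdIm]
    exact ⟨⟨by linarith, by linarith⟩, ⟨by linarith [h1.1], by linarith [h1.2]⟩⟩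
  refine (lintegral_mono_set hsub).trans ?_
  have h1 := (h t).1
  have h2 := (h t).2
  rw [← ofReal_integral_eq_lintegral_ofReal h1.abs (Eventually.of_forall fun _ => abs_nonneg _)]
  exact ENNReal.ofReal_le_ofReal h2

lemma logsub_integrableOn :
    IntegrableOn (fun z => Real.log ‖z - 1‖ * wt z) strip := by
  have hum : Measurable (fun z : ℂ => Real.log ‖z - 1‖) := by fun_prop
  have hpi := Real.pi_pos
  refine integrableOn_log_wt (f := fun z => z - 1) hum (C := π + 32 * π) (by positivity) ?_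
  intro t
  have ht := abs_nonneg t
  have hl2 : Real.log 2 ≤ Real.log (|t| + 2) := Real.log_le_log two_pos (by linarith)
  have hl2' : (1:ℝ) / 2 ≤ Real.log 2 := by have := Real.log_two_gt_d9; linarith
  have hlp : 0 < Real.log (|t| + 2) := by linarith
  have hsub : {z : ℂ | |z.im - t| ≤ 1} ∩ strip ⊆ Metric.closedBall (t * Complex.I) 4 := by
    rintro z ⟨h1, h2, h3⟩
    rw [mem_ofPred_eq, abs_le] at h1
    rw [Metric.mem_closedBall, dist_eq_norm]
    have h4 : ‖z - t * Complex.I‖ ^ 2 = z.re ^ 2 + (z.im - t) ^ 2 := by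
      rw [← Complex.normSq_eq_norm_sq, Complex.normSq_apply]
      simp; ring
    obtain ⟨h1, h1'⟩ := h1
    nlinarith [norm_nonneg (z - t * Complex.I)]
  have hpt : ∀ z ∈ {z : ℂ | |z.im - t| ≤ 1} ∩ strip,
      ENNReal.ofReal |Real.log ‖z - 1‖| ≤ ENNReal.ofReal (log⁺ (1 * ‖z - 1‖⁻¹)) +
        ENNReal.ofReal (2 * Real.log (|t| + 2)) := by
    rintro z ⟨h1, h2, h3⟩
    rw [← ENNReal.ofReal_add posLog_nonneg (by linarith)]
    apply ENNReal.ofReal_le_ofReal
    rw [one_mul]
    have e := Real.posLog_sub_posLog_inv (x := ‖z - 1‖)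
    have e1 : |Real.log ‖z - 1‖| ≤ log⁺ ‖z - 1‖ + log⁺ ‖z - 1‖⁻¹ := by
      rw [← e, abs_le]
      have := posLog_nonneg (x := ‖z - 1‖)
      have := posLog_nonneg (x := ‖z - 1‖⁻¹)
      constructor <;> linarith
    have e2 : log⁺ ‖z - 1‖ ≤ 2 * Real.log (|t| + 2) := by
      have h4 : ‖z - 1‖ ≤ (|t| + 2) ^ 2 := by
        have := Complex.norm_le_abs_re_add_abs_im (z - 1)
        simp only [Complex.sub_re, Complex.one_re, Complex.sub_im, Complex.one_im, sub_zero] at this
        have h5 : |z.re - 1| ≤ 3 := abs_le.2 ⟨by linarith, by linarith⟩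
        have h6 : |z.im| ≤ |t| + 1 := by
          have := abs_sub_abs_le_abs_sub z.im t
          rw [mem_ofPred_eq] at h1
          linarith
        nlinarith
      rw [posLog]
      apply max_le (by positivity)
      by_cases h0 : ‖z - 1‖ = 0
      · rw [h0, Real.log_zero]; positivity
      · have h7 : 0 < ‖z - 1‖ := lt_of_le_of_ne (norm_nonneg _) (Ne.symm h0)
        have := Real.log_le_log h7 h4
        rw [Real.log_pow] at this
        exact_mod_cast this
    linarith
  have hm : MeasurableSet ({z : ℂ | |z.im - t| ≤ 1} ∩ strip) :=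
    (measurableSet_le (by fun_prop) measurable_const).inter measurableSet_strip
  refine (setLIntegral_mono (by
    have h0 : Measurable (fun x : ℝ => log⁺ x) := by
      unfold posLog; fun_prop
    have h1 : Measurable (fun z : ℂ => (1 * ‖z - 1‖⁻¹ : ℝ)) := by fun_prop
    have h2 := h0.comp h1
    exact (ENNReal.measurable_ofReal.comp h2).add_const _) hpt).trans ?_
  rw [lintegral_add_right _ measurable_const, setLIntegral_const]
  have e3 : ∫⁻ z in ({z : ℂ | |z.im - t| ≤ 1} ∩ strip), ENNReal.ofReal (log⁺ (1 * ‖z - 1‖⁻¹)) ≤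
      ENNReal.ofReal (π / 2) := by
    refine (setLIntegral_le_lintegral _ _).trans ?_
    have := integral_posLog_scale (zero_lt_one) 1
    rw [← ofReal_integral_eq_lintegral_ofReal (integrable_posLog_scale zero_lt_one 1)
      (Eventually.of_forall fun _ => posLog_nonneg), this]
    simp
  have e4 : volume ({z : ℂ | |z.im - t| ≤ 1} ∩ strip) ≤ ENNReal.ofReal (16 * π) := by
    refine (measure_mono hsub).trans ?_
    rw [Complex.volume_closedBall, ← NNReal.coe_real_pi, ENNReal.ofReal_mul (by norm_num),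
      ENNReal.ofReal_coe_nnreal, ← ENNReal.ofReal_pow (by norm_num)]
    norm_num
  calc _ ≤ ENNReal.ofReal (π / 2) + ENNReal.ofReal (2 * Real.log (|t| + 2)) * ENNReal.ofReal (16 * π) := by
        gcongr
    _ = ENNReal.ofReal (π / 2 + 2 * Real.log (|t| + 2) * (16 * π)) := by
        rw [← ENNReal.ofReal_mul (by positivity), ← ENNReal.ofReal_add (by positivity) (by positivity)]
    _ ≤ _ := by
        apply ENNReal.ofReal_le_ofReal
        nlinarith

lemma sum_wt_zeta : Summable fun ρ : Zst riemannZeta₁ => (analyticOrderNatAt riemannZeta₁ ρ : ℝ) * wt ρ := by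
  obtain ⟨C, hC, h⟩ := muZ_logDens
  obtain ⟨C', _, h'⟩ := h.integral_le hC.le
  have h1 := (muZ_integrable_iff.1 (h' 0).1)
  rw [Zst_zeta1]
  refine h1.congr fun ρ => ?_
  rw [analyticOrderNatAt_zeta1 (ne_one_of_mem_NTZ ρ.2)]
  unfold wt
  rw [Real.norm_of_nonneg (by positivity)]
  simp

/-- a compactly supported cutoff, with `η = 1` on `[-1/2, 3/2]` -/
structure Cutoff1 (η η1 η2 : ℝ → ℝ) (M : ℝ) : Prop extends Cutoff η η1 η2 M where
  one : ∀ x, -1/2 ≤ x → x ≤ 3/2 → η x = 1
  one1 : ∀ x, -1/2 ≤ x → x ≤ 3/2 → η1 x = 0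
  one2 : ∀ x, -1/2 ≤ x → x ≤ 3/2 → η2 x = 0

variable {η η1 η2 : ℝ → ℝ} {M : ℝ} {k : ℂ → ℂ} {Ck : ℝ}

/-- Green identity for `(z-1)ζ(z)`. -/
theorem green_zeta1 (hk : Differentiable ℂ k) (hkb : ∀ z : ℂ, |z.re| ≤ 4 → ‖k z‖ ≤ Ck * wt z)
    (hkb' : ∀ z : ℂ, |z.re| ≤ 4 → ‖deriv k z‖ ≤ Ck * wt z) (hc : Cutoff1 η η1 η2 M) :
    ∫ z, (Real.log ‖riemannZeta₁ z‖ : ℂ) * Lap k η1 η2 z = 2 * π * ∫ z, k z ∂muZ := by
  have hg := green_identity differentiable_riemannZeta₁
    (countable_zeros.mono fun z hz => (zeta1_eq_zero_iff.1 hz).2)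
    logzeta_integrableOn sum_wt_zeta hk hkb hkb' hc.toCutoff
  rw [hg]
  congr 1
  have hint : Integrable k muZ := by
    rw [muZ_integrable_iff]
    obtain ⟨C, hC, h⟩ := muZ_logDens
    obtain ⟨C', _, h'⟩ := h.integral_le hC.le
    have h1 := (muZ_integrable_iff.1 (h' 0).1)
    refine Summable.of_nonneg_of_le (fun ρ => by positivity) (fun ρ => ?_) (h1.mul_left Ck)
    have h2 := hkb ρ (abs_le.2 ⟨by linarith [ρ.2.2.1], by linarith [ρ.2.2.2]⟩)
    rw [Real.norm_of_nonneg (by positivity), sub_zero]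
    unfold wt at h2
    calc (mult ρ : ℝ) * ‖k ρ‖ ≤ (mult ρ : ℝ) * (Ck * (1 + (ρ : ℂ).im ^ 2)⁻¹) :=
          mul_le_mul_of_nonneg_left h2 (Nat.cast_nonneg _)
      _ = _ := by ring
  rw [muZ_integral hint, Zst_zeta1]
  apply tsum_congr
  intro ρ
  rw [analyticOrderNatAt_zeta1 (ne_one_of_mem_NTZ ρ.2),
    hc.one _ (by linarith [ρ.2.2.1]) (by linarith [ρ.2.2.2])]
  rw [Complex.real_smul]
  push_cast; ring

/-- Green identity for `z-1`. -/
theorem green_sub_one (hk : Differentiable ℂ k) (hkb : ∀ z : ℂ, |z.re| ≤ 4 → ‖k z‖ ≤ Ck * wt z)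
    (hkb' : ∀ z : ℂ, |z.re| ≤ 4 → ‖deriv k z‖ ≤ Ck * wt z) (hc : Cutoff1 η η1 η2 M) :
    ∫ z, (Real.log ‖z - 1‖ : ℂ) * Lap k η1 η2 z = 2 * π * k 1 := by
  have hZ : Zst (fun z : ℂ => z - 1) = {1} := by
    ext z
    unfold Zst
    simp only [mem_ofPred_eq, mem_singleton_iff, sub_eq_zero]
    constructor
    · exact fun h => h.1
    · rintro rfl; norm_num
  have hord : analyticOrderNatAt (fun z : ℂ => z - 1) 1 = 1 := by
    have h1 : analyticOrderAt (fun z : ℂ => z - 1) 1 = 1 := by
      have h2 : AnalyticAt ℂ (fun z : ℂ => z) 1 := analyticAt_id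
      exact h2.analyticOrderAt_sub_eq_one_of_deriv_ne_zero (by simp)
    unfold analyticOrderNatAt
    rw [h1]; rfl
  have hg := green_identity (f := fun z => z - 1) (by fun_prop)
    ((countable_singleton (1:ℂ)).mono fun z hz => by
      simp only [mem_ofPred_eq, sub_eq_zero] at hz; exact hz)
    logsub_integrableOn ?_ hk hkb hkb' hc.toCutoff
  · rw [hg, hZ]
    congr 1
    rw [tsum_fintype]
    simp only [Finset.univ_unique, Finset.sum_singleton]
    have : ((default : ({1} : Set ℂ)) : ℂ) = 1 := rfl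
    rw [this, hord, Complex.one_re, hc.one 1 (by norm_num) (by norm_num)]
    simp
  · rw [hZ]
    exact (hasSum_fintype _).summable

/-- The Green identity for `ζ` itself. -/
theorem green_zeta (hk : Differentiable ℂ k) (hkb : ∀ z : ℂ, |z.re| ≤ 4 → ‖k z‖ ≤ Ck * wt z)
    (hkb' : ∀ z : ℂ, |z.re| ≤ 4 → ‖deriv k z‖ ≤ Ck * wt z) (hc : Cutoff1 η η1 η2 M) :
    Integrable (fun z => (Real.log ‖riemannZeta z‖ : ℂ) * Lap k η1 η2 z) ∧
    ∫ z, (Real.log ‖riemannZeta z‖ : ℂ) * Lap k η1 η2 z = 2 * π * (∫ z, k z ∂muZ - k 1) := by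
  have h1 := green_zeta1 hk hkb hkb' hc
  have h2 := green_sub_one hk hkb hkb' hc
  have hM := hc.M_nonneg
  have hLapc : Continuous (Lap k η1 η2) := by
    have c1 := hc.c1
    have c2 := hc.c2
    have ck := hk.continuous
    have ck' : Continuous (deriv k) := (hk.contDiff (n := 1)).continuous_deriv le_rfl
    unfold Lap
    exact ((continuous_const.mul ck').mul (Complex.continuous_ofReal.comp (c1.comp Complex.continuous_re))).add
      (ck.mul (Complex.continuous_ofReal.comp (c2.comp Complex.continuous_re)))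
  -- general integrability
  have hgen : ∀ u : ℂ → ℝ, Measurable u → IntegrableOn (fun z => u z * wt z) strip →
      Integrable (fun z => (u z : ℂ) * Lap k η1 η2 z) := by
    intro u hu hi
    have hdom : Integrable (strip.indicator (fun z => 3 * |Ck| * M * |u z * wt z|)) := by
      rw [integrable_indicator_iff measurableSet_strip]
      exact (hi.abs).const_mul _
    refine Integrable.mono' hdom ?_ (Eventually.of_forall fun z => ?_)
    · exact (Complex.measurable_ofReal.comp hu).aestronglyMeasurable.mul hLapc.aestronglyMeasurable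
    · by_cases hz : z ∈ strip
      · rw [indicator_of_mem hz, norm_mul, Complex.norm_real, Real.norm_eq_abs, abs_mul,
          abs_of_pos (wt_pos z)]
        have hz4 : |z.re| ≤ 4 := abs_le.2 ⟨by linarith [hz.1], by linarith [hz.2]⟩
        have hL : ‖Lap k η1 η2 z‖ ≤ 3 * |Ck| * M * wt z := by
          unfold Lap
          refine (norm_add_le _ _).trans ?_
          rw [norm_mul, norm_mul, norm_mul, Complex.norm_real, Complex.norm_real, Real.norm_eq_abs,
            Real.norm_eq_abs, Complex.norm_ofNat]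
          have a1 := (hkb z hz4).trans (mul_le_mul_of_nonneg_right (le_abs_self Ck) (wt_pos z).le)
          have a2 := (hkb' z hz4).trans (mul_le_mul_of_nonneg_right (le_abs_self Ck) (wt_pos z).le)
          have b1 := hc.b1 z.re
          have b2 := hc.b2 z.re
          have hw := (wt_pos z).le
          have a3 : ‖deriv k z‖ * |η1 z.re| ≤ |Ck| * wt z * M :=
            mul_le_mul a2 b1 (abs_nonneg _) (by positivity)
          have a4 : ‖k z‖ * |η2 z.re| ≤ |Ck| * wt z * M :=
            mul_le_mul a1 b2 (abs_nonneg _) (by positivity)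
          nlinarith
        calc |u z| * ‖Lap k η1 η2 z‖ ≤ |u z| * (3 * |Ck| * M * wt z) :=
              mul_le_mul_of_nonneg_left hL (abs_nonneg _)
          _ = _ := by ring
      · rw [indicator_of_notMem hz]
        have : Lap k η1 η2 z = 0 := by
          unfold strip at hz
          simp only [mem_ofPred_eq, not_and_or, not_le] at hz
          have hx : z.re ≤ -1 ∨ 2 ≤ z.re := by
            rcases hz with h | h
            · left; linarith
            · right; linarith
          unfold Lap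
          rw [hc.z1 _ hx, hc.z2 _ hx]; simp
        rw [this]; simp
  have hum : Measurable (fun z : ℂ => Real.log ‖riemannZeta₁ z‖) := by
    have := differentiable_riemannZeta₁.continuous.measurable
    fun_prop
  have i1 := hgen _ hum logzeta_integrableOn
  have i2 := hgen (fun z : ℂ => Real.log ‖z - 1‖) (by fun_prop) logsub_integrableOn
  have hae : (fun z => (Real.log ‖riemannZeta z‖ : ℂ) * Lap k η1 η2 z) =ᵐ[volume]
      (fun z => (Real.log ‖riemannZeta₁ z‖ : ℂ) * Lap k η1 η2 z -
        (Real.log ‖z - 1‖ : ℂ) * Lap k η1 η2 z) := by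
    have hnull : ∀ᵐ z : ℂ, z ∉ ({1} ∪ riemannZetaZeros : Set ℂ) := by
      exact measure_eq_zero_iff_ae_notMem.1
        (((countable_singleton (1:ℂ)).union countable_zeros).measure_zero (volume : Measure ℂ))
    filter_upwards [hnull] with z hz
    rw [mem_union, not_or, mem_singleton_iff] at hz
    rw [← sub_mul]
    congr 1
    rw [zeta1_eq_mul hz.1, norm_mul, Real.log_mul, Complex.ofReal_add]
    · ring
    · exact norm_ne_zero_iff.2 (sub_ne_zero.2 hz.1)
    · exact norm_ne_zero_iff.2 hz.2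
  refine ⟨(i1.sub i2).congr hae.symm, ?_⟩
  rw [integral_congr_ae hae, integral_sub i1 i2, h1, h2]
  ring

end Pool.Agent.PairCorr
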