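import Mathlib
import Pool.Agent.PairCorr.C_EF1
import Pool.Agent.PairCorr.C_Kernel
import Pool.Agent.PairCorr.C_Chi

set_option autoImplicit false

namespace Pool.Agent.PairCorr

open MeasureTheory Filter Topology Set Real
open scoped ENNReal ArithmeticFunction.vonMangoldt

/-! ### Fubini on the complex plane -/

lemma integrable_complex_iff {F : ℂ → ℂ} :
    Integrable F ↔ Integrable (fun p : ℝ × ℝ => F (p.1 + p.2 * Complex.I)) := by
  have h := (Complex.volume_preserving_equiv_real_prod.symm).integrable_comp_emb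
    Complex.measurableEquivRealProd.symm.measurableEmbedding (g := F)
  rw [← h]
  apply integrable_congr
  filter_upwards with p
  simp only [Function.comp]
  congr 1
  rw [Complex.measurableEquivRealProd_symm_apply]
  apply Complex.ext <;> simp

lemma integral_complex_eq {F : ℂ → ℂ} (hF : Integrable F) :
    ∫ z, F z = ∫ x : ℝ, ∫ y : ℝ, F (x + y * Complex.I) := by
  have h := (Complex.volume_preserving_equiv_real_prod.symm).integral_comp
    Complex.measurableEquivRealProd.symm.measurableEmbedding F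
  rw [← h, ← integral_prod (fun p : ℝ × ℝ => F (p.1 + p.2 * Complex.I)) (integrable_complex_iff.1 hF)]
  congr 1
  ext p
  rw [Complex.measurableEquivRealProd_symm_apply]
  congr 1
  apply Complex.ext <;> simp

lemma integrable_wt_strip : Integrable (fun z : ℂ => strip.indicator wt z) := by
  have h0 : Integrable (fun p : ℝ × ℝ => (Icc (-2:ℝ) 3).indicator (fun _ => (1:ℝ)) p.1 * (1 + p.2 ^ 2)⁻¹) := by
    apply Integrable.mul_prod (f := (Icc (-2:ℝ) 3).indicator (fun _ => (1:ℝ))) (g := fun y : ℝ => (1 + y ^ 2)⁻¹)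
    · rw [integrable_indicator_iff measurableSet_Icc]
      exact integrableOn_const (by simp)
    · exact integrable_inv_one_add_sq
  have h := (Complex.volume_preserving_equiv_real_prod).integrable_comp_emb
    Complex.measurableEquivRealProd.measurableEmbedding (g := fun p : ℝ × ℝ =>
      (Icc (-2:ℝ) 3).indicator (fun _ => (1:ℝ)) p.1 * (1 + p.2 ^ 2)⁻¹)
  rw [← h] at h0
  refine h0.congr (Eventually.of_forall fun z => ?_)
  simp only [Function.comp, Complex.measurableEquivRealProd_apply, indicator]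
  by_cases hz : z ∈ strip
  · have : z.re ∈ Icc (-2:ℝ) 3 := hz
    simp [hz, this, wt]
  · have : z.re ∉ Icc (-2:ℝ) 3 := hz
    simp [hz, this]

/-! ### The logarithm of zeta to the right of the critical strip -/

/-- the coefficient `Λ(n)/log n`. -/
noncomputable def cL (n : ℕ) : ℝ := Λ n / Real.log n

lemma cL_nonneg (n : ℕ) : 0 ≤ cL n := by
  unfold cL
  apply div_nonneg ArithmeticFunction.vonMangoldt_nonneg
  exact Real.log_natCast_nonneg n

lemma cL_le_one (n : ℕ) : cL n ≤ 1 := by
  unfold cL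
  rcases Nat.lt_or_ge 1 n with h | h
  · have : 0 < Real.log n := Real.log_pos (by exact_mod_cast h)
    rw [div_le_one this]
    exact ArithmeticFunction.vonMangoldt_le_log
  · interval_cases n <;> simp

lemma cL_mul_log (n : ℕ) : cL n * Real.log n = Λ n := by
  unfold cL
  rcases Nat.lt_or_ge 1 n with h | h
  · have : 0 < Real.log n := Real.log_pos (by exact_mod_cast h)
    field_simp
  · interval_cases n <;> simp

lemma term_re (n : ℕ) (z : ℂ) : (LSeries.term (fun n : ℕ => (Λ n / Real.log n : ℂ)) z n).re =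
    cL n * (Real.exp (-(Real.log n * z.re)) * Real.cos (Real.log n * z.im)) := by
  rcases Nat.eq_zero_or_pos n with rfl | hn
  · simp [cL]
  · rw [LSeries.term_of_ne_zero hn.ne']
    have h1 : ((n : ℂ) ^ z)⁻¹ = Complex.exp (-(Real.log n * z)) := by
      rw [← Complex.cpow_neg, Complex.cpow_def_of_ne_zero (by exact_mod_cast hn.ne')]
      congr 1
      rw [Complex.natCast_log]
      ring
    rw [div_eq_mul_inv, h1]
    have h2 : ((Λ n : ℂ) / (Real.log n : ℂ)) = ((cL n : ℝ) : ℂ) := by
      unfold cL; push_cast; rfl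
    rw [h2, Complex.re_ofReal_mul, Complex.exp_re, Complex.neg_re, Complex.neg_im,
      Complex.re_ofReal_mul, Complex.im_ofReal_mul, Real.cos_neg]

lemma log_norm_zeta_hasSum {z : ℂ} (hz : 1 < z.re) :
    HasSum (fun n : ℕ => cL n * (Real.exp (-(Real.log n * z.re)) * Real.cos (Real.log n * z.im)))
      (Real.log ‖riemannZeta z‖) := by
  have hs : Summable (fun n : ℕ => cL n * Real.exp (-(Real.log n * z.re))) := by
    have h1 : Summable fun n : ℕ => (n : ℝ) ^ (-z.re) := Real.summable_nat_rpow.2 (by linarith)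
    refine Summable.of_nonneg_of_le (fun n => mul_nonneg (cL_nonneg n) (Real.exp_pos _).le) (fun n => ?_) h1
    rcases Nat.eq_zero_or_pos n with rfl | hn
    · simp [cL]; positivity
    · have h2 : Real.exp (-(Real.log n * z.re)) = (n:ℝ) ^ (-z.re) := by
        rw [Real.rpow_def_of_pos (by exact_mod_cast hn)]; ring_nf
      rw [h2]
      exact mul_le_of_le_one_left (by positivity) (cL_le_one n)
  have hsum : LSeriesSummable (fun n : ℕ => (Λ n / Real.log n : ℂ)) z := by
    unfold LSeriesSummable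
    refine Summable.of_norm_bounded hs (fun n => ?_)
    rcases Nat.eq_zero_or_pos n with rfl | hn
    · simp [cL]
    · rw [LSeries.term_of_ne_zero hn.ne']
      have h1 : ‖(n : ℂ) ^ z‖ = (n:ℝ) ^ z.re := by
        rw [← Complex.ofReal_natCast, Complex.norm_cpow_eq_rpow_re_of_pos (by exact_mod_cast hn)]
      have h2 : ((Λ n : ℂ) / (Real.log n : ℂ)) = ((cL n : ℝ) : ℂ) := by
        unfold cL; push_cast; rfl
      rw [norm_div, h1, h2, Complex.norm_real, Real.norm_of_nonneg (cL_nonneg n), div_eq_mul_inv]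
      have h3 : Real.exp (-(Real.log n * z.re)) = ((n:ℝ) ^ z.re)⁻¹ := by
        rw [← Real.rpow_neg (by positivity), Real.rpow_def_of_pos (by exact_mod_cast hn)]; ring_nf
      rw [h3]
  have h1 := (Complex.hasSum_re hsum.hasSum)
  have h2 := riemannZeta_eq_exp_LSeries hz
  rw [← h2, Complex.norm_exp, Real.log_exp]
  simp_rw [term_re] at h1
  exact h1

/-! ### Evaluation of one term -/

variable {η η1 η2 : ℝ → ℝ} {M : ℝ} {φ : ℝ → ℝ} {b : ℝ}

/-- the shifted kernel -/
noncomputable def kS (φ : ℝ → ℝ) (t : ℝ) (z : ℂ) : ℂ := Kc φ (z - (1/2 + t * Complex.I))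

lemma kS_deriv (h : TF φ b) (t : ℝ) (z : ℂ) : deriv (kS φ t) z = kS (fun v => v * φ v) t z := by
  unfold kS
  have h1 := (h.hasDerivAt_Kc (z - (1/2 + t * Complex.I)))
  have h2 : HasDerivAt (fun z : ℂ => z - (1/2 + t * Complex.I)) 1 z := (hasDerivAt_id z).sub_const _
  have h3 := h1.comp z h2
  rw [mul_one] at h3
  exact h3.deriv

lemma kS_differentiable (h : TF φ b) (t : ℝ) : Differentiable ℂ (kS φ t) :=
  h.differentiable_Kc.comp (by fun_prop)

lemma kS_bound (h : TF φ b) (t : ℝ) : ∃ Ck : ℝ, ∀ z : ℂ, |z.re| ≤ 4 → ‖kS φ t z‖ ≤ Ck * wt z := by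
  obtain ⟨C, hC0, hC⟩ := h.decay_one_add 2
  refine ⟨2 * (1 + t ^ 2) * (C * Real.exp (|b| * 5)), fun z hz => ?_⟩
  unfold kS wt
  have h1 := hC (z - (1/2 + t * Complex.I))
  set w := z - (1/2 + t * Complex.I) with hw
  have hre : w.re = z.re - 1/2 := by simp [hw]
  have him : w.im = z.im - t := by simp [hw]
  have h2 : 1 + (z.im - t) ^ 2 ≤ (1 + ‖w‖) ^ 2 := by
    have := Complex.abs_im_le_norm w
    rw [him] at this
    nlinarith [sq_abs (z.im - t), abs_nonneg (z.im - t), norm_nonneg w]
  have h3 : 1 + z.im ^ 2 ≤ 2 * (1 + t ^ 2) * (1 + (z.im - t) ^ 2) := by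
    nlinarith [sq_nonneg (z.im - 2 * t), sq_nonneg (z.im - t), sq_nonneg t,
      mul_nonneg (sq_nonneg t) (sq_nonneg (z.im - t))]
  have h4 : Real.exp (b * |w.re|) ≤ Real.exp (|b| * 5) := by
    apply Real.exp_le_exp.2
    have : |w.re| ≤ 5 := by
      rw [hre]
      have := abs_sub z.re (1/2)
      have h5 : |(1/2:ℝ)| = 1/2 := by norm_num
      linarith
    calc b * |w.re| ≤ |b| * |w.re| := mul_le_mul_of_nonneg_right (le_abs_self _) (abs_nonneg _)
      _ ≤ |b| * 5 := mul_le_mul_of_nonneg_left this (abs_nonneg _)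
  rw [← div_eq_mul_inv, le_div_iff₀ (by positivity)]
  calc ‖Kc φ w‖ * (1 + z.im ^ 2) ≤ ‖Kc φ w‖ * (2 * (1 + t ^ 2) * (1 + ‖w‖) ^ 2) := by
        apply mul_le_mul_of_nonneg_left _ (norm_nonneg _)
        calc 1 + z.im ^ 2 ≤ 2 * (1 + t ^ 2) * (1 + (z.im - t) ^ 2) := h3
          _ ≤ _ := mul_le_mul_of_nonneg_left h2 (by positivity)
    _ = 2 * (1 + t ^ 2) * ((1 + ‖w‖) ^ 2 * ‖Kc φ w‖) := by ring
    _ ≤ 2 * (1 + t ^ 2) * (C * Real.exp (b * |w.re|)) := mul_le_mul_of_nonneg_left h1 (by positivity)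
    _ ≤ 2 * (1 + t ^ 2) * (C * Real.exp (|b| * 5)) := by
        apply mul_le_mul_of_nonneg_left _ (by positivity)
        exact mul_le_mul_of_nonneg_left h4 hC0

/-- inversion against a cosine -/
lemma kS_cos (h : TF φ b) (t u x : ℝ) :
    Integrable (fun y : ℝ => ((Real.cos (u * y) : ℝ) : ℂ) * kS φ t (x + y * Complex.I)) ∧
    ∫ y : ℝ, ((Real.cos (u * y) : ℝ) : ℂ) * kS φ t (x + y * Complex.I) =
      π * (φ u * Real.exp (u * (x - 1/2)) * Complex.exp (-(u * t * Complex.I)) +
        φ (-u) * Real.exp (-(u * (x - 1/2))) * Complex.exp (u * t * Complex.I)) := by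
  have key : ∀ v : ℝ, Integrable (fun y : ℝ => kS φ t (x + y * Complex.I) * Complex.exp (-(v * y * Complex.I))) ∧
      ∫ y : ℝ, kS φ t (x + y * Complex.I) * Complex.exp (-(v * y * Complex.I)) =
        2 * π * (φ v * Real.exp (v * (x - 1/2))) * Complex.exp (-(v * t * Complex.I)) := by
    intro v
    obtain ⟨h1, h2⟩ := h.inversion (x - 1/2) v
    have e : ∀ y : ℝ, kS φ t (x + y * Complex.I) * Complex.exp (-(v * y * Complex.I)) =
        (Kc φ (((x - 1/2 : ℝ) : ℂ) + ((y - t : ℝ) : ℂ) * Complex.I) *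
          Complex.exp (-(v * ((y - t : ℝ) : ℂ) * Complex.I))) * Complex.exp (-(v * t * Complex.I)) := by
      intro y
      unfold kS
      rw [mul_assoc (Kc φ (((x - 1/2 : ℝ) : ℂ) + ((y - t : ℝ) : ℂ) * Complex.I)), ← Complex.exp_add]
      congr 2
      · push_cast; ring
      · push_cast; ring
    simp_rw [e]
    constructor
    · exact (h1.comp_sub_right t).mul_const _
    · rw [integral_mul_const,
        integral_sub_right_eq_self (fun y : ℝ => Kc φ (((x - 1/2 : ℝ) : ℂ) + (y : ℂ) * Complex.I) *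
          Complex.exp (-(v * (y : ℂ) * Complex.I))) t, h2]
  obtain ⟨a1, a2⟩ := key u
  obtain ⟨b1, b2⟩ := key (-u)
  have e : ∀ y : ℝ, ((Real.cos (u * y) : ℝ) : ℂ) * kS φ t (x + y * Complex.I) =
      (kS φ t (x + y * Complex.I) * Complex.exp (-(u * y * Complex.I)) +
        kS φ t (x + y * Complex.I) * Complex.exp (-(((-u : ℝ) : ℂ) * y * Complex.I))) / 2 := by
    intro y
    rw [Complex.ofReal_cos, Complex.cos]
    push_cast
    ring_nf
  simp_rw [e]
  constructor
  · exact (a1.add b1).div_const 2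
  · rw [integral_div, integral_add a1 b1, a2, b2]
    push_cast
    ring_nf

lemma Lap_continuous {k : ℂ → ℂ} (hk : Differentiable ℂ k) (hc : Cutoff η η1 η2 M) :
    Continuous (Lap k η1 η2) := by
  have c1 := hc.c1
  have c2 := hc.c2
  have ck := hk.continuous
  have ck' : Continuous (deriv k) := (hk.contDiff (n := 1)).continuous_deriv le_rfl
  unfold Lap
  exact ((continuous_const.mul ck').mul (Complex.continuous_ofReal.comp (c1.comp Complex.continuous_re))).add
    (ck.mul (Complex.continuous_ofReal.comp (c2.comp Complex.continuous_re)))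

lemma Lap_bound {k : ℂ → ℂ} {Ck : ℝ} (hkb : ∀ z : ℂ, |z.re| ≤ 4 → ‖k z‖ ≤ Ck * wt z)
    (hkb' : ∀ z : ℂ, |z.re| ≤ 4 → ‖deriv k z‖ ≤ Ck * wt z) (hc : Cutoff η η1 η2 M) (z : ℂ) :
    ‖Lap k η1 η2 z‖ ≤ 3 * |Ck| * M * strip.indicator wt z := by
  have hM := hc.M_nonneg
  by_cases hz : z ∈ strip
  · rw [indicator_of_mem hz]
    have hz4 : |z.re| ≤ 4 := abs_le.2 ⟨by linarith [hz.1], by linarith [hz.2]⟩
    unfold Lap
    refine (norm_add_le _ _).trans ?_
    rw [norm_mul, norm_mul, norm_mul, Complex.norm_real, Complex.norm_real, Real.norm_eq_abs,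
      Real.norm_eq_abs, Complex.norm_ofNat]
    have a1 := (hkb z hz4).trans (mul_le_mul_of_nonneg_right (le_abs_self Ck) (wt_pos z).le)
    have a2 := (hkb' z hz4).trans (mul_le_mul_of_nonneg_right (le_abs_self Ck) (wt_pos z).le)
    have b1 := hc.b1 z.re
    have b2 := hc.b2 z.re
    have hw := (wt_pos z).le
    have a3 : ‖deriv k z‖ * |η1 z.re| ≤ |Ck| * wt z * M :=
      mul_le_mul a2 b1 (abs_nonneg _) (by positivity)
    have a4 : ‖k z‖ * |η2 z.re| ≤ |Ck| * wt z * M :=
      mul_le_mul a1 b2 (abs_nonneg _) (by positivity)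
    nlinarith
  · rw [indicator_of_notMem hz]
    have : Lap k η1 η2 z = 0 := by
      unfold strip at hz
      simp only [mem_ofPred_eq, not_and_or, not_le] at hz
      have hx : z.re ≤ -1 ∨ 2 ≤ z.re := by
        rcases hz with h | h
        · left; linarith
        · right; linarith
      unfold Lap
      rw [hc.z1 _ hx, hc.z2 _ hx]; simp
    rw [this]; simp

/-- The contribution of a single frequency in the right half of the strip. -/
lemma right_term (h : TF φ b) (hc : Cutoff1 η η1 η2 M) (t u : ℝ) (hu : 0 ≤ u) :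
    Integrable (fun z : ℂ => {z : ℂ | 1 < z.re}.indicator (fun z =>
      ((Real.exp (-(u * z.re)) * Real.cos (u * z.im) : ℝ) : ℂ) * Lap (kS φ t) η1 η2 z) z) ∧
    ∫ z in {z : ℂ | 1 < z.re}, ((Real.exp (-(u * z.re)) * Real.cos (u * z.im) : ℝ) : ℂ) *
      Lap (kS φ t) η1 η2 z =
      - (2 * π * u * φ u * Complex.exp (-(u * (1/2 + t * Complex.I)))) := by
  have hmeas : MeasurableSet {z : ℂ | 1 < z.re} := measurableSet_lt measurable_const Complex.measurable_re
  obtain ⟨C1, hC1⟩ := kS_bound h t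
  obtain ⟨C2, hC2⟩ := kS_bound h.mul_id t
  have hb1 : ∀ z : ℂ, |z.re| ≤ 4 → ‖kS φ t z‖ ≤ max C1 C2 * wt z := fun z hz =>
    (hC1 z hz).trans (mul_le_mul_of_nonneg_right (le_max_left _ _) (wt_pos z).le)
  have hb2 : ∀ z : ℂ, |z.re| ≤ 4 → ‖deriv (kS φ t) z‖ ≤ max C1 C2 * wt z := fun z hz => by
    rw [kS_deriv h]
    exact (hC2 z hz).trans (mul_le_mul_of_nonneg_right (le_max_right _ _) (wt_pos z).le)
  have hLc := Lap_continuous (kS_differentiable h t) hc.toCutoff
  have hInt : Integrable (fun z : ℂ => {z : ℂ | 1 < z.re}.indicator (fun z =>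
      ((Real.exp (-(u * z.re)) * Real.cos (u * z.im) : ℝ) : ℂ) * Lap (kS φ t) η1 η2 z) z) := by
    refine Integrable.mono' (integrable_wt_strip.const_mul (3 * |max C1 C2| * M)) ?_
      (Eventually.of_forall fun z => ?_)
    · apply AEStronglyMeasurable.indicator _ hmeas
      apply Continuous.aestronglyMeasurable
      exact (Complex.continuous_ofReal.comp (by fun_prop)).mul hLc
    · have hL := Lap_bound hb1 hb2 hc.toCutoff z
      refine le_trans ?_ hL
      by_cases hz : z ∈ {z : ℂ | 1 < z.re}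
      · rw [indicator_of_mem hz, norm_mul, Complex.norm_real]
        apply mul_le_of_le_one_left (norm_nonneg _)
        rw [norm_mul, Real.norm_eq_abs, Real.norm_eq_abs, abs_of_pos (Real.exp_pos _)]
        have hz' : 1 < z.re := hz
        have e1 : Real.exp (-(u * z.re)) ≤ 1 := by
          apply Real.exp_le_one_iff.2
          have : 0 ≤ u * z.re := mul_nonneg hu (by linarith)
          linarith
        exact mul_le_one₀ e1 (abs_nonneg _) (Real.abs_cos_le_one _)
      · rw [indicator_of_notMem hz, norm_zero]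
        exact norm_nonneg _
  refine ⟨hInt, ?_⟩
  rw [← integral_indicator hmeas, integral_complex_eq hInt]
  -- the inner integral
  set E1 : ℂ := Complex.exp (-(u * t * Complex.I)) with hE1
  set E2 : ℂ := Complex.exp (u * t * Complex.I) with hE2
  set g : ℝ → ℂ := fun x => (Real.exp (-(u * x)) : ℂ) *
    (2 * (η1 x : ℂ) * (π * (((u * φ u : ℝ) : ℂ) * Real.exp (u * (x - 1/2)) * E1 +
      ((-u * φ (-u) : ℝ) : ℂ) * Real.exp (-(u * (x - 1/2))) * E2)) +
    (η2 x : ℂ) * (π * (φ u * Real.exp (u * (x - 1/2)) * E1 +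
      φ (-u) * Real.exp (-(u * (x - 1/2))) * E2))) with hg
  have hinner : ∀ x : ℝ, ∫ y : ℝ, {z : ℂ | 1 < z.re}.indicator (fun z =>
      ((Real.exp (-(u * z.re)) * Real.cos (u * z.im) : ℝ) : ℂ) * Lap (kS φ t) η1 η2 z)
        (x + y * Complex.I) = (Ioi (1:ℝ)).indicator g x := by
    intro x
    by_cases hx : 1 < x
    · have e0 : ∀ y : ℝ, {z : ℂ | 1 < z.re}.indicator (fun z =>
          ((Real.exp (-(u * z.re)) * Real.cos (u * z.im) : ℝ) : ℂ) * Lap (kS φ t) η1 η2 z)
            (x + y * Complex.I) = (Real.exp (-(u * x)) : ℂ) * (2 * (η1 x : ℂ) *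
            (((Real.cos (u * y) : ℝ) : ℂ) * kS (fun v => v * φ v) t (x + y * Complex.I)) +
            (η2 x : ℂ) * (((Real.cos (u * y) : ℝ) : ℂ) * kS φ t (x + y * Complex.I))) := by
        intro y
        have hre : ((x : ℂ) + y * Complex.I).re = x := by simp
        have him : ((x : ℂ) + y * Complex.I).im = y := by simp
        rw [indicator_of_mem (by rw [mem_ofPred_eq, hre]; exact hx)]
        unfold Lap
        rw [hre, him, kS_deriv h]
        push_cast
        ring
      simp_rw [e0]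
      obtain ⟨i1, v1⟩ := kS_cos h t u x
      obtain ⟨i2, v2⟩ := kS_cos h.mul_id t u x
      rw [integral_const_mul, integral_add (i2.const_mul _) (i1.const_mul _), integral_const_mul,
        integral_const_mul, v1, v2, indicator_of_mem (by exact hx)]
    · have e0 : ∀ y : ℝ, {z : ℂ | 1 < z.re}.indicator (fun z =>
          ((Real.exp (-(u * z.re)) * Real.cos (u * z.im) : ℝ) : ℂ) * Lap (kS φ t) η1 η2 z)
            (x + y * Complex.I) = 0 := by
        intro y
        apply indicator_of_notMem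
        rw [mem_ofPred_eq]
        simpa using hx
      simp_rw [e0]
      rw [integral_zero, indicator_of_notMem (by exact hx)]
  simp_rw [hinner]
  rw [integral_indicator measurableSet_Ioi]
  -- truncate at 2
  have htr : ∫ x in Ioi (1:ℝ), g x = ∫ x in (1:ℝ)..2, g x := by
    rw [intervalIntegral.integral_of_le (by norm_num)]
    apply setIntegral_eq_of_subset_of_forall_sdiff_eq_zero measurableSet_Ioi Ioc_subset_Ioi_self
    intro x hx
    have hx2 : 2 ≤ x := by
      by_contra hcon
      push Not at hcon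
      exact hx.2 ⟨hx.1, hcon.le⟩
    simp only [hg]
    rw [hc.z1 _ (Or.inr hx2), hc.z2 _ (Or.inr hx2)]
    simp
  rw [htr]
  set K1 : ℂ := π * φ u * Complex.exp (-(u / 2)) * E1 with hK1
  set K2 : ℂ := π * φ (-u) * Complex.exp (u / 2) * E2 with hK2
  have hderiv : ∀ x ∈ uIcc (1:ℝ) 2, HasDerivAt (fun x : ℝ => K1 * (2 * u * (η x : ℂ) + (η1 x : ℂ)) +
      K2 * ((Real.exp (-(2 * u * x)) : ℂ) * (η1 x : ℂ))) (g x) x := by
    intro x _
    have d1 : HasDerivAt (fun x : ℝ => (η x : ℂ)) (η1 x : ℂ) x := (hc.d1 x).ofReal_comp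
    have d2 : HasDerivAt (fun x : ℝ => (η1 x : ℂ)) (η2 x : ℂ) x := (hc.d2 x).ofReal_comp
    have d3 : HasDerivAt (fun x : ℝ => (Real.exp (-(2 * u * x)) : ℂ))
        ((Real.exp (-(2 * u * x)) * (-(2 * u)) : ℝ) : ℂ) x := by
      apply HasDerivAt.ofReal_comp
      have e0 : HasDerivAt (fun x : ℝ => (-(2 * u)) * x) (-(2 * u)) x := by
        simpa using (hasDerivAt_id x).const_mul (-(2 * u))
      have : HasDerivAt (fun x : ℝ => -(2 * u * x)) (-(2 * u)) x := by
        simpa only [neg_mul] using e0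
      exact this.exp
    have d4 := ((d1.const_mul (2 * (u:ℂ))).add d2).const_mul K1
    have d5 := (d3.mul d2).const_mul K2
    refine (d4.add d5).congr_deriv ?_
    simp only [hg, hK1, hK2]
    have x1 : (Real.exp (-(u * x)) : ℂ) * Real.exp (u * (x - 1/2)) = Complex.exp (-(u / 2)) := by
      rw [← Complex.ofReal_mul, ← Real.exp_add, Complex.ofReal_exp]
      congr 1; push_cast; ring
    have x2 : (Real.exp (-(u * x)) : ℂ) * Real.exp (-(u * (x - 1/2))) =
        Complex.exp (u / 2) * (Real.exp (-(2 * u * x)) : ℂ) := by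
      rw [← Complex.ofReal_mul, ← Real.exp_add, Complex.ofReal_exp, Complex.ofReal_exp, ← Complex.exp_add]
      congr 1; push_cast; ring
    push_cast
    push_cast at x1 x2
    linear_combination (-(2 * (η1 x : ℂ) * π * (u * φ u) * E1) - (η2 x : ℂ) * π * φ u * E1) * x1 +
      (2 * (η1 x : ℂ) * π * (u * φ (-u)) * E2 - (η2 x : ℂ) * π * φ (-u) * E2) * x2
  rw [intervalIntegral.integral_eq_sub_of_hasDerivAt hderiv]
  · rw [hc.z0 2 (Or.inr le_rfl), hc.z1 2 (Or.inr le_rfl), hc.one 1 (by norm_num) (by norm_num),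
      hc.one1 1 (by norm_num) (by norm_num)]
    simp only [hK1, hE1]
    have : Complex.exp (-(u * (1/2 + t * Complex.I))) = Complex.exp (-(u/2)) * Complex.exp (-(u * t * Complex.I)) := by
      rw [← Complex.exp_add]; congr 1; ring
    rw [this]
    push_cast
    ring
  · apply Continuous.intervalIntegrable
    have c1 := hc.c1
    have c2 := hc.c2
    simp only [hg]
    fun_prop

lemma kS_bounds (h : TF φ b) (t : ℝ) : ∃ Ck : ℝ, (∀ z : ℂ, |z.re| ≤ 4 → ‖kS φ t z‖ ≤ Ck * wt z) ∧
    (∀ z : ℂ, |z.re| ≤ 4 → ‖deriv (kS φ t) z‖ ≤ Ck * wt z) := by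
  obtain ⟨C1, hC1⟩ := kS_bound h t
  obtain ⟨C2, hC2⟩ := kS_bound h.mul_id t
  refine ⟨max C1 C2, fun z hz => ?_, fun z hz => ?_⟩
  · exact (hC1 z hz).trans (mul_le_mul_of_nonneg_right (le_max_left _ _) (wt_pos z).le)
  · rw [kS_deriv h]
    exact (hC2 z hz).trans (mul_le_mul_of_nonneg_right (le_max_right _ _) (wt_pos z).le)

lemma Lap_integrable (h : TF φ b) (hc : Cutoff1 η η1 η2 M) (t : ℝ) :
    Integrable (Lap (kS φ t) η1 η2) := by
  obtain ⟨Ck, hb1, hb2⟩ := kS_bounds h t
  exact Integrable.mono' (integrable_wt_strip.const_mul (3 * |Ck| * M))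
    (Lap_continuous (kS_differentiable h t) hc.toCutoff).aestronglyMeasurable
    (Eventually.of_forall fun z => Lap_bound hb1 hb2 hc.toCutoff z)

/-- `Lap` vanishes in the middle zone. -/
lemma Lap_mid {k : ℂ → ℂ} (hc : Cutoff1 η η1 η2 M) {z : ℂ} (h1 : -1/2 ≤ z.re) (h2 : z.re ≤ 3/2) :
    Lap k η1 η2 z = 0 := by
  unfold Lap
  rw [hc.one1 _ h1 h2, hc.one2 _ h1 h2]; simp

lemma Lap_out {k : ℂ → ℂ} (hc : Cutoff1 η η1 η2 M) {z : ℂ} (h : z.re ≤ -1 ∨ 2 ≤ z.re) :
    Lap k η1 η2 z = 0 := by
  unfold Lap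
  rw [hc.z1 _ h, hc.z2 _ h]; simp

/-- the summand of the prime sum -/
noncomputable def primeTerm (φ : ℝ → ℝ) (t : ℝ) (n : ℕ) : ℂ :=
  (Λ n : ℂ) * φ (Real.log n) * Complex.exp (-(Real.log n * (1/2 + t * Complex.I)))

theorem EF_right (h : TF φ b) (hc : Cutoff1 η η1 η2 M) (t : ℝ) :
    ∫ z in {z : ℂ | 1 < z.re}, (Real.log ‖riemannZeta z‖ : ℂ) * Lap (kS φ t) η1 η2 z =
      - (2 * π * ∑' n : ℕ, primeTerm φ t n) := by
  have hmeas : MeasurableSet {z : ℂ | 1 < z.re} := measurableSet_lt measurable_const Complex.measurable_re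
  have hLi := Lap_integrable h hc t
  set F : ℕ → ℂ → ℂ := fun n z => (cL n : ℂ) * {z : ℂ | 1 < z.re}.indicator (fun z =>
      ((Real.exp (-(Real.log n * z.re)) * Real.cos (Real.log n * z.im) : ℝ) : ℂ) *
        Lap (kS φ t) η1 η2 z) z with hF
  have hFi : ∀ n, Integrable (F n) := fun n =>
    (right_term h hc t (Real.log n) (Real.log_natCast_nonneg n)).1.const_mul _
  have hFn : ∀ n, ∫ z, ‖F n z‖ ≤ (n : ℝ) ^ (-(3/2) : ℝ) * ∫ z, ‖Lap (kS φ t) η1 η2 z‖ := by
    intro n
    rw [← integral_const_mul]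
    apply integral_mono (hFi n).norm (hLi.norm.const_mul _)
    intro z
    simp only [hF]
    rw [norm_mul, Complex.norm_real, Real.norm_of_nonneg (cL_nonneg n)]
    by_cases hz : z ∈ {z : ℂ | 1 < z.re}
    · rw [indicator_of_mem hz]
      by_cases hz2 : z.re ≤ 3/2
      · rw [Lap_mid hc (by rw [mem_ofPred_eq] at hz; linarith) hz2]; simp
      · push Not at hz2
        rw [norm_mul, Complex.norm_real, norm_mul, Real.norm_eq_abs, Real.norm_eq_abs,
          abs_of_pos (Real.exp_pos _), ← mul_assoc]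
        apply mul_le_mul_of_nonneg_right _ (norm_nonneg _)
        rcases Nat.eq_zero_or_pos n with rfl | hn
        · simp [cL]
        · have e1 : Real.exp (-(Real.log n * z.re)) ≤ (n:ℝ) ^ (-(3/2) : ℝ) := by
            rw [Real.rpow_def_of_pos (by exact_mod_cast hn)]
            apply Real.exp_le_exp.2
            have := Real.log_natCast_nonneg n
            nlinarith
          calc cL n * (Real.exp (-(Real.log n * z.re)) * |Real.cos (Real.log n * z.im)|)
              ≤ 1 * ((n:ℝ) ^ (-(3/2) : ℝ) * 1) := by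
                apply mul_le_mul (cL_le_one n) _ (by positivity) zero_le_one
                exact mul_le_mul e1 (Real.abs_cos_le_one _) (abs_nonneg _) (by positivity)
            _ = _ := by ring
    · rw [indicator_of_notMem hz, norm_zero, mul_zero]
      positivity
  have hsum : Summable fun n : ℕ => ∫ z, ‖F n z‖ := by
    have h1 : Summable fun n : ℕ => (n : ℝ) ^ (-(3/2) : ℝ) := Real.summable_nat_rpow.2 (by norm_num)
    exact Summable.of_nonneg_of_le (fun n => integral_nonneg fun _ => norm_nonneg _) hFn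
      (h1.mul_right _)
  have hs := hasSum_integral_of_summable_integral_norm hFi hsum
  have e1 : ∀ z, {z : ℂ | 1 < z.re}.indicator (fun z => (Real.log ‖riemannZeta z‖ : ℂ) *
      Lap (kS φ t) η1 η2 z) z = ∑' n, F n z := by
    intro z
    by_cases hz : z ∈ {z : ℂ | 1 < z.re}
    · rw [indicator_of_mem hz]
      have h1 := log_norm_zeta_hasSum (z := z) hz
      have h2 := (Complex.hasSum_ofReal.2 h1).mul_right (Lap (kS φ t) η1 η2 z)
      rw [← h2.tsum_eq]
      apply tsum_congr
      intro n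
      simp only [hF]
      rw [indicator_of_mem hz]
      push_cast; ring
    · rw [indicator_of_notMem hz]
      simp only [hF]
      simp_rw [indicator_of_notMem hz]
      simp
  rw [← integral_indicator hmeas]
  simp_rw [e1]
  rw [← hs.tsum_eq, ← neg_mul, ← tsum_mul_left]
  apply tsum_congr
  intro n
  simp only [hF]
  rw [integral_const_mul, integral_indicator hmeas,
    (right_term h hc t (Real.log n) (Real.log_natCast_nonneg n)).2]
  unfold primeTerm
  rw [← cL_mul_log n]
  push_cast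
  ring

/-- reflected test function -/
lemma TF.reflect (h : TF φ b) : TF (fun v => φ (-v)) b where
  smooth := h.smooth.comp contDiff_neg
  supp := by intro v hv; exact h.supp (-v) (by rwa [abs_neg])

lemma Kc_reflect (φ : ℝ → ℝ) (w : ℂ) : Kc (fun v => φ (-v)) w = Kc φ (-w) := by
  unfold Kc
  rw [← integral_neg_eq_self]
  congr 1
  ext v
  push_cast
  simp

lemma Cutoff1.reflect (hc : Cutoff1 η η1 η2 M) :
    Cutoff1 (fun x => η (1 - x)) (fun x => -η1 (1 - x)) (fun x => η2 (1 - x)) M where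
  d1 := by
    intro x
    have e : HasDerivAt (fun x : ℝ => 1 - x) (-1) x := by simpa using (hasDerivAt_id x).const_sub 1
    exact ((hc.d1 (1 - x)).comp x e).congr_deriv (by ring)
  d2 := by
    intro x
    have e : HasDerivAt (fun x : ℝ => 1 - x) (-1) x := by simpa using (hasDerivAt_id x).const_sub 1
    have h1 := ((hc.d2 (1 - x)).comp x e)
    exact (h1.fun_neg).congr_deriv (by ring)
  c2 := hc.c2.comp (by fun_prop)
  b0 := fun x => hc.b0 _
  b1 := fun x => by rw [abs_neg]; exact hc.b1 _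
  b2 := fun x => hc.b2 _
  z0 := fun x hx => hc.z0 _ (by rcases hx with h | h; right; linarith; left; linarith)
  z1 := fun x hx => by rw [hc.z1 _ (by rcases hx with h | h; right; linarith; left; linarith)]; simp
  z2 := fun x hx => hc.z2 _ (by rcases hx with h | h; right; linarith; left; linarith)
  one := fun x h1 h2 => hc.one _ (by linarith) (by linarith)
  one1 := fun x h1 h2 => by rw [hc.one1 _ (by linarith) (by linarith)]; simp
  one2 := fun x h1 h2 => hc.one2 _ (by linarith) (by linarith)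

lemma kS_reflect (φ : ℝ → ℝ) (t : ℝ) (z : ℂ) : kS φ t (1 - z) = kS (fun v => φ (-v)) (-t) z := by
  unfold kS
  rw [Kc_reflect]
  congr 1
  push_cast; ring

lemma Lap_reflect (h : TF φ b) (t : ℝ) (z : ℂ) : Lap (kS φ t) η1 η2 (1 - z) =
    Lap (kS (fun v => φ (-v)) (-t)) (fun x => -η1 (1 - x)) (fun x => η2 (1 - x)) z := by
  unfold Lap
  rw [kS_deriv h, kS_deriv h.reflect, kS_reflect, kS_reflect]
  have e : kS (fun v => -v * φ (-v)) (-t) z = - kS (fun v => v * φ (-v)) (-t) z := by
    unfold kS Kc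
    rw [← integral_neg]
    congr 1
    ext v
    push_cast; ring
  rw [e]
  simp only [Complex.sub_re, Complex.one_re]
  push_cast
  ring

theorem EF_left (h : TF φ b) (hc : Cutoff1 η η1 η2 M) (t : ℝ) :
    ∫ z in {z : ℂ | z.re < 0}, (Real.log ‖riemannZeta (1 - z)‖ : ℂ) * Lap (kS φ t) η1 η2 z =
      - (2 * π * ∑' n : ℕ, primeTerm (fun v => φ (-v)) (-t) n) := by
  rw [← EF_right h.reflect hc.reflect (-t)]
  have hm1 : MeasurableSet {z : ℂ | 1 < z.re} := measurableSet_lt measurable_const Complex.measurable_re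
  have hm2 : MeasurableSet {z : ℂ | z.re < 0} := measurableSet_lt Complex.measurable_re measurable_const
  rw [← integral_indicator hm1, ← integral_indicator hm2]
  rw [← integral_sub_left_eq_self _ volume (1 : ℂ)]
  congr 1
  ext z
  by_cases hz : 1 < z.re
  · rw [indicator_of_mem (by simpa using hz), indicator_of_mem (by simpa using hz), Lap_reflect h]
    simp
  · rw [indicator_of_notMem (by simpa using hz), indicator_of_notMem (by simpa using hz)]

/-- the archimedean part -/
noncomputable def Arch (φ η1 η2 : ℝ → ℝ) (t : ℝ) : ℂ :=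
  ∫ z in {z : ℂ | z.re < 0}, (Xi z : ℂ) * Lap (kS φ t) η1 η2 z

/-- The exact explicit formula. -/
theorem explicit_formula (h : TF φ b) (hc : Cutoff1 η η1 η2 M) (t : ℝ) :
    ∫ z, kS φ t z ∂muZ = kS φ t 1 - ∑' n : ℕ, primeTerm φ t n -
      ∑' n : ℕ, primeTerm (fun v => φ (-v)) (-t) n + (2 * π)⁻¹ * Arch φ η1 η2 t := by
  obtain ⟨Ck, hb1, hb2⟩ := kS_bounds h t
  obtain ⟨gi, g⟩ := green_zeta (kS_differentiable h t) hb1 hb2 hc
  have hm1 : MeasurableSet {z : ℂ | 1 < z.re} := measurableSet_lt measurable_const Complex.measurable_re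
  have hm2 : MeasurableSet {z : ℂ | z.re < 0} := measurableSet_lt Complex.measurable_re measurable_const
  -- split
  have hsplit : ∫ z, (Real.log ‖riemannZeta z‖ : ℂ) * Lap (kS φ t) η1 η2 z =
      (∫ z in {z : ℂ | 1 < z.re}, (Real.log ‖riemannZeta z‖ : ℂ) * Lap (kS φ t) η1 η2 z) +
      ∫ z in {z : ℂ | z.re < 0}, (Real.log ‖riemannZeta z‖ : ℂ) * Lap (kS φ t) η1 η2 z := by
    rw [← integral_indicator hm1, ← integral_indicator hm2, ← integral_add (gi.indicator hm1)
      (gi.indicator hm2)]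
    congr 1
    ext z
    by_cases h1 : 1 < z.re
    · rw [indicator_of_mem (by simpa using h1), indicator_of_notMem (by simp; linarith), add_zero]
    · by_cases h2 : z.re < 0
      · rw [indicator_of_notMem (by simpa using h1), indicator_of_mem (by simpa using h2), zero_add]
      · rw [indicator_of_notMem (by simpa using h1), indicator_of_notMem (by simpa using h2)]
        push Not at h1 h2
        rw [Lap_mid hc (by linarith) (by linarith)]; simp
  -- left part
  have hleft : ∫ z in {z : ℂ | z.re < 0}, (Real.log ‖riemannZeta z‖ : ℂ) * Lap (kS φ t) η1 η2 z =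
      Arch φ η1 η2 t +
      ∫ z in {z : ℂ | z.re < 0}, (Real.log ‖riemannZeta (1 - z)‖ : ℂ) * Lap (kS φ t) η1 η2 z := by
    -- integrability of the right-hand piece
    have i1 : IntegrableOn (fun z => (Real.log ‖riemannZeta z‖ : ℂ) * Lap (kS φ t) η1 η2 z)
        {z : ℂ | z.re < 0} := gi.integrableOn
    have i2 : IntegrableOn (fun z => (Real.log ‖riemannZeta (1 - z)‖ : ℂ) * Lap (kS φ t) η1 η2 z)
        {z : ℂ | z.re < 0} := by
      obtain ⟨Ck', hb1', hb2'⟩ := kS_bounds h.reflect (-t)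
      obtain ⟨gi', _⟩ := green_zeta (kS_differentiable h.reflect (-t)) hb1' hb2' hc.reflect
      have h3 := (gi'.comp_sub_left 1)
      refine Integrable.integrableOn (h3.congr (Eventually.of_forall fun z => ?_))
      simp only
      rw [← Lap_reflect h, sub_sub_cancel]
    have e : ∀ z ∈ {z : ℂ | z.re < 0}, (Real.log ‖riemannZeta z‖ : ℂ) * Lap (kS φ t) η1 η2 z =
        (Xi z : ℂ) * Lap (kS φ t) η1 η2 z +
          (Real.log ‖riemannZeta (1 - z)‖ : ℂ) * Lap (kS φ t) η1 η2 z := by
      intro z _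
      by_cases hz1 : z.re < -1
      · rw [Lap_out hc (Or.inl hz1.le)]; simp
      · by_cases hz2 : z.re ≤ -1/2
        · push Not at hz1
          rw [log_norm_zeta_left hz1 hz2]
          push_cast; ring
        · push Not at hz2
          rename_i hz
          have hz' : z.re < 0 := hz
          rw [Lap_mid hc hz2.le (by linarith)]; simp
    rw [setIntegral_congr_fun hm2 e]
    unfold Arch
    apply integral_add _ i2
    have := i1.sub i2
    refine this.congr ?_
    filter_upwards [ae_restrict_mem hm2] with z hz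
    simp only [Pi.sub_apply]
    rw [e z hz]; ring
  rw [hsplit, hleft, EF_right h hc, EF_left h hc] at g
  have hpi : (π : ℂ) ≠ 0 := by exact_mod_cast Real.pi_ne_zero
  have h2pi : (2 * π : ℂ) ≠ 0 := by simp [Real.pi_ne_zero]
  push_cast
  field_simp
  linear_combination -g

end Pool.Agent.PairCorr
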