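import Mathlib
import Pool.Agent.PairCorr.C_EF2

set_option autoImplicit false

namespace Pool.Agent.PairCorr

open MeasureTheory Filter Topology Set Real
open scoped ENNReal ArithmeticFunction.vonMangoldt

/-! ### A concrete cutoff -/

lemma deriv_zero_of_eqOn_Iio {f : ℝ → ℝ} (hf : ContDiff ℝ 1 f) {a c : ℝ}
    (h : ∀ x < a, f x = c) : ∀ x ≤ a, deriv f x = 0 := by
  have hcont : Continuous (deriv f) := hf.continuous_deriv le_rfl
  have h1 : ∀ x < a, deriv f x = 0 := by
    intro x hx
    have : f =ᶠ[𝓝 x] fun _ => c := by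
      filter_upwards [Iio_mem_nhds hx] with y hy using h y hy
    rw [this.deriv_eq]; simp
  intro x hx
  rcases hx.lt_or_eq with hx | rfl
  · exact h1 x hx
  · have hcl : closure (Iio x) ⊆ {y | deriv f y = 0} :=
      closure_minimal (fun y hy => h1 y hy) (isClosed_eq hcont continuous_const)
    rw [closure_Iio] at hcl
    exact hcl (mem_Iic.2 le_rfl)

lemma deriv_zero_of_eqOn_Ioi {f : ℝ → ℝ} (hf : ContDiff ℝ 1 f) {a c : ℝ}
    (h : ∀ x, a < x → f x = c) : ∀ x, a ≤ x → deriv f x = 0 := by
  have hcont : Continuous (deriv f) := hf.continuous_deriv le_rfl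
  have h1 : ∀ x, a < x → deriv f x = 0 := by
    intro x hx
    have : f =ᶠ[𝓝 x] fun _ => c := by
      filter_upwards [Ioi_mem_nhds hx] with y hy using h y hy
    rw [this.deriv_eq]; simp
  intro x hx
  rcases hx.lt_or_eq with hx | rfl
  · exact h1 x hx
  · have hcl : closure (Ioi a) ⊆ {y | deriv f y = 0} :=
      closure_minimal (fun y hy => h1 y hy) (isClosed_eq hcont continuous_const)
    rw [closure_Ioi] at hcl
    exact hcl (mem_Ici.2 le_rfl)

lemma deriv_zero_of_eqOn_Ioo {f : ℝ → ℝ} (hf : ContDiff ℝ 1 f) {a b c : ℝ} (hab : a < b)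
    (h : ∀ x, a < x → x < b → f x = c) : ∀ x, a ≤ x → x ≤ b → deriv f x = 0 := by
  have hcont : Continuous (deriv f) := hf.continuous_deriv le_rfl
  have h1 : ∀ x, a < x → x < b → deriv f x = 0 := by
    intro x hx hx'
    have : f =ᶠ[𝓝 x] fun _ => c := by
      filter_upwards [Ioo_mem_nhds hx hx'] with y hy using h y hy.1 hy.2
    rw [this.deriv_eq]; simp
  have hcl : closure (Ioo a b) ⊆ {y | deriv f y = 0} :=
    closure_minimal (fun y hy => h1 y hy.1 hy.2) (isClosed_eq hcont continuous_const)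
  rw [closure_Ioo hab.ne] at hcl
  intro x h1 h2
  exact hcl ⟨h1, h2⟩

theorem exists_cutoff : ∃ (η η1 η2 : ℝ → ℝ) (M : ℝ), Cutoff1 η η1 η2 M := by
  set η : ℝ → ℝ := fun x => Real.smoothTransition (2 * (x + 1)) * Real.smoothTransition (2 * (2 - x))
    with hη
  have hsm : ContDiff ℝ (⊤ : ℕ∞) η := by
    apply ContDiff.mul
    · exact Real.smoothTransition.contDiff.comp (by fun_prop)
    · exact Real.smoothTransition.contDiff.comp (by fun_prop)
  have hs1 : ContDiff ℝ (⊤ : ℕ∞) (deriv η) := (contDiff_infty_iff_deriv.1 hsm).2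
  have hs2 : ContDiff ℝ (⊤ : ℕ∞) (deriv (deriv η)) := (contDiff_infty_iff_deriv.1 hs1).2
  have l1 : ∀ x ≤ -1, η x = 0 := by
    intro x hx
    simp only [hη]
    rw [Real.smoothTransition.zero_of_nonpos (by linarith), zero_mul]
  have r1 : ∀ x, 2 ≤ x → η x = 0 := by
    intro x hx
    simp only [hη]
    rw [Real.smoothTransition.zero_of_nonpos (x := 2 * (2 - x)) (by linarith), mul_zero]
  have m1 : ∀ x, -1/2 ≤ x → x ≤ 3/2 → η x = 1 := by
    intro x h1 h2
    simp only [hη]
    rw [Real.smoothTransition.one_of_one_le (by linarith),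
      Real.smoothTransition.one_of_one_le (by linarith), mul_one]
  have l2 := deriv_zero_of_eqOn_Iio (hsm.of_le (by norm_cast)) (a := -1) (c := 0) (fun x hx => l1 x hx.le)
  have r2 := deriv_zero_of_eqOn_Ioi (hsm.of_le (by norm_cast)) (a := 2) (c := 0) (fun x hx => r1 x hx.le)
  have m2 := deriv_zero_of_eqOn_Ioo (hsm.of_le (by norm_cast)) (a := -1/2) (b := 3/2) (c := 1) (by norm_num)
    (fun x h1 h2 => m1 x h1.le h2.le)
  have l3 := deriv_zero_of_eqOn_Iio (hs1.of_le (by norm_cast)) (a := -1) (c := 0) (fun x hx => l2 x hx.le)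
  have r3 := deriv_zero_of_eqOn_Ioi (hs1.of_le (by norm_cast)) (a := 2) (c := 0) (fun x hx => r2 x hx.le)
  have m3 := deriv_zero_of_eqOn_Ioo (hs1.of_le (by norm_cast)) (a := -1/2) (b := 3/2) (c := 0) (by norm_num)
    (fun x h1 h2 => m2 x h1.le h2.le)
  have hbd : ∀ f : ℝ → ℝ, Continuous f → (∀ x ≤ -1, f x = 0) → (∀ x, 2 ≤ x → f x = 0) →
      ∃ C, ∀ x, |f x| ≤ C := by
    intro f hf h1 h2
    obtain ⟨C, hC⟩ := (isCompact_Icc (a := (-1:ℝ)) (b := 2)).exists_bound_of_continuousOn hf.continuousOn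
    have hC0 : 0 ≤ C := (norm_nonneg _).trans (hC 0 (by norm_num))
    refine ⟨C, fun x => ?_⟩
    by_cases hx1 : x ≤ -1
    · rw [h1 x hx1]; simpa using hC0
    · by_cases hx2 : 2 ≤ x
      · rw [h2 x hx2]; simpa using hC0
      · exact hC x ⟨by linarith, by linarith⟩
  obtain ⟨C0, h0⟩ := hbd η hsm.continuous l1 r1
  obtain ⟨C1, h1⟩ := hbd _ hs1.continuous l2 r2
  obtain ⟨C2, h2⟩ := hbd _ hs2.continuous l3 r3
  refine ⟨η, deriv η, deriv (deriv η), max C0 (max C1 C2), ?_⟩
  exact {
    d1 := fun x => ((contDiff_infty_iff_deriv.1 hsm).1 x).hasDerivAt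
    d2 := fun x => ((contDiff_infty_iff_deriv.1 hs1).1 x).hasDerivAt
    c2 := hs2.continuous
    b0 := fun x => (h0 x).trans (le_max_left _ _)
    b1 := fun x => (h1 x).trans ((le_max_left _ _).trans (le_max_right _ _))
    b2 := fun x => (h2 x).trans ((le_max_right _ _).trans (le_max_right _ _))
    z0 := fun x hx => hx.elim (l1 x) (r1 x)
    z1 := fun x hx => hx.elim (l2 x) (r2 x)
    z2 := fun x hx => hx.elim (l3 x) (r3 x)
    one := m1
    one1 := m2
    one2 := m3 }

/-! ### Uniform bound for `Xi` -/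

lemma Xi_continuousOn : ContinuousOn Xi {z : ℂ | -1 ≤ z.re ∧ z.re ≤ -1/2} := by
  intro z hz
  apply ContinuousAt.continuousWithinAt
  have hG : Complex.Gamma (1 - z) ≠ 0 := by
    apply Complex.Gamma_ne_zero_of_re_pos
    simp; linarith [hz.2]
  have hGd : DifferentiableAt ℂ Complex.Gamma (1 - z) := by
    apply Complex.differentiableAt_Gamma
    intro m h
    have := congrArg Complex.re h
    simp at this
    have hm : (0:ℝ) ≤ m := Nat.cast_nonneg m
    linarith [hz.2]
  have hc := cos_ne_zero_left hz.1 hz.2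
  have hp : (2 * (π : ℂ)) ^ (-(1 - z)) ≠ 0 := by
    rw [Complex.cpow_ne_zero_iff]
    left
    simp [Real.pi_ne_zero]
  unfold Xi
  apply ContinuousAt.log
  · apply ContinuousAt.norm
    apply ContinuousAt.mul
    · apply ContinuousAt.mul
      · apply ContinuousAt.mul continuousAt_const
        apply ContinuousAt.const_cpow (by fun_prop)
        left
        simp [Real.pi_ne_zero]
      · exact hGd.continuousAt.comp (f := fun z : ℂ => 1 - z) (by fun_prop)
    · fun_prop
  · rw [norm_ne_zero_iff]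
    exact mul_ne_zero (mul_ne_zero (mul_ne_zero two_ne_zero hp) hG) hc

lemma Xi_uniform : ∃ C : ℝ, 0 ≤ C ∧ ∀ x τ t : ℝ, -1 ≤ x → x ≤ -1/2 →
    |Xi (x + τ * Complex.I) - (1/2 - x) * Real.log ((1 + |t|) / (2 * π))| ≤
      C * (1 + |τ - t|) ^ 2 / (1 + |t|) := by
  have hcomp : IsCompact (Icc (-1 : ℝ) (-1/2) ×ℂ Icc (-1 : ℝ) 1) :=
    isCompact_Icc.reProdIm isCompact_Icc
  obtain ⟨B, hB⟩ := hcomp.exists_bound_of_continuousOn (f := Xi) (Xi_continuousOn.mono (by
    intro z hz
    rw [Complex.mem_reProdIm] at hz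
    exact hz.1))
  have hpi := Real.pi_pos
  have hpi3 := Real.pi_gt_three
  refine ⟨100 * (|B| + 1), by positivity, fun x τ t h1 h2 => ?_⟩
  have ht := abs_nonneg t
  have hτt := abs_nonneg (τ - t)
  rw [le_div_iff₀ (by positivity)]
  rcases le_or_gt 1 |τ| with hτ | hτ
  · -- large τ
    have hX := Xi_asymp h1 h2 hτ
    have hτ0 : 0 < |τ| := by linarith
    have hlog : (1/2 - x) * Real.log (|τ| / (2 * π)) - (1/2 - x) * Real.log ((1 + |t|) / (2 * π)) =
        (1/2 - x) * Real.log (|τ| / (1 + |t|)) := by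
      rw [Real.log_div hτ0.ne' (by positivity), Real.log_div (by positivity) (by positivity),
        Real.log_div hτ0.ne' (by positivity)]
      ring
    have habs1 : |t| ≤ |τ| + |τ - t| := by
      have := abs_sub_abs_le_abs_sub t τ
      rw [abs_sub_comm] at this; linarith
    have habs2 : |τ| ≤ |t| + |τ - t| := by
      have := abs_sub_abs_le_abs_sub τ t
      linarith
    -- bound of the log
    have hl1 : |Real.log (|τ| / (1 + |t|))| * (1 + |t|) ≤ 2 * (1 + |τ - t|) ^ 2 := by
      rcases le_total |τ| (1 + |t|) with h3 | h3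
      · have h4 : Real.log (|τ| / (1 + |t|)) ≤ 0 := Real.log_nonpos (by positivity) ((div_le_one (by positivity)).2 h3)
        rw [abs_of_nonpos h4, ← Real.log_inv, inv_div]
        have h5 : Real.log ((1 + |t|) / |τ|) ≤ (1 + |t|) / |τ| - 1 := Real.log_le_sub_one_of_pos (by positivity)
        have h6 : (1 + |t|) / |τ| - 1 ≤ (1 + |τ - t|) / |τ| := by
          rw [div_sub_one hτ0.ne']
          apply div_le_div_of_nonneg_right _ hτ0.le
          linarith
        have h7 : (1 + |t|) / |τ| ≤ 2 + |τ - t| := by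
          rw [div_le_iff₀ hτ0]
          nlinarith
        calc Real.log ((1 + |t|) / |τ|) * (1 + |t|) ≤ (1 + |τ - t|) / |τ| * (1 + |t|) :=
              mul_le_mul_of_nonneg_right (h5.trans h6) (by positivity)
          _ = (1 + |τ - t|) * ((1 + |t|) / |τ|) := by ring
          _ ≤ (1 + |τ - t|) * (2 + |τ - t|) := mul_le_mul_of_nonneg_left h7 (by positivity)
          _ ≤ _ := by nlinarith
      · have h4 : 0 ≤ Real.log (|τ| / (1 + |t|)) := Real.log_nonneg ((one_le_div (by positivity)).2 h3)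
        rw [abs_of_nonneg h4]
        have h5 : Real.log (|τ| / (1 + |t|)) ≤ |τ| / (1 + |t|) - 1 := Real.log_le_sub_one_of_pos (by positivity)
        calc Real.log (|τ| / (1 + |t|)) * (1 + |t|) ≤ (|τ| / (1 + |t|) - 1) * (1 + |t|) :=
              mul_le_mul_of_nonneg_right h5 (by positivity)
          _ = |τ| - (1 + |t|) := by field_simp
          _ ≤ _ := by nlinarith
    have hl2 : 25 / |τ| * (1 + |t|) ≤ 25 * (2 + |τ - t|) := by
      rw [div_mul_eq_mul_div, div_le_iff₀ hτ0]
      nlinarith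
    have hsplit : |Xi (x + τ * Complex.I) - (1/2 - x) * Real.log ((1 + |t|) / (2 * π))| ≤
        25 / |τ| + (3/2) * |Real.log (|τ| / (1 + |t|))| := by
      have e : Xi (x + τ * Complex.I) - (1/2 - x) * Real.log ((1 + |t|) / (2 * π)) =
          (Xi (x + τ * Complex.I) - (1/2 - x) * Real.log (|τ| / (2 * π))) +
            (1/2 - x) * Real.log (|τ| / (1 + |t|)) := by rw [← hlog]; ring
      rw [e]
      refine (abs_add_le _ _).trans (add_le_add hX ?_)
      rw [abs_mul]
      apply mul_le_mul_of_nonneg_right _ (abs_nonneg _)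
      rw [abs_le]; constructor <;> linarith
    have hB0 := abs_nonneg B
    calc _ ≤ (25 / |τ| + (3/2) * |Real.log (|τ| / (1 + |t|))|) * (1 + |t|) :=
          mul_le_mul_of_nonneg_right hsplit (by positivity)
      _ = 25 / |τ| * (1 + |t|) + (3/2) * (|Real.log (|τ| / (1 + |t|))| * (1 + |t|)) := by ring
      _ ≤ 25 * (2 + |τ - t|) + (3/2) * (2 * (1 + |τ - t|) ^ 2) := by linarith
      _ ≤ 100 * (0 + 1) * (1 + |τ - t|) ^ 2 := by nlinarith
      _ ≤ _ := by
          apply mul_le_mul_of_nonneg_right _ (by positivity)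
          linarith
  · -- small τ
    have hXB : |Xi (x + τ * Complex.I)| ≤ |B| := by
      have := hB (x + τ * Complex.I) (by
        rw [Complex.mem_reProdIm]
        have := abs_lt.1 hτ
        simp only [Complex.add_re, Complex.ofReal_re, Complex.mul_re, Complex.I_re, mul_zero,
          Complex.ofReal_im, Complex.I_im, mul_one, sub_self, add_zero, Complex.add_im,
          Complex.mul_im, zero_add]
        exact ⟨⟨h1, h2⟩, ⟨this.1.le, this.2.le⟩⟩)
      exact this.trans (le_abs_self _)
    have hlog : |Real.log ((1 + |t|) / (2 * π))| ≤ 2 + |t| := by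
      rw [Real.log_div (by positivity) (by positivity)]
      have a1 : Real.log (1 + |t|) ≤ |t| := by
        have := Real.log_le_sub_one_of_pos (x := 1 + |t|) (by positivity); linarith
      have a2 : 0 ≤ Real.log (1 + |t|) := Real.log_nonneg (by linarith)
      have a3 : Real.log (2 * π) ≤ 2 := by
        rw [Real.log_le_iff_le_exp (by positivity)]
        have := Real.exp_one_gt_d9
        have h4 := Real.pi_lt_d2
        have : Real.exp 2 = Real.exp 1 * Real.exp 1 := by rw [← Real.exp_add]; norm_num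
        nlinarith
      have a4 : 0 ≤ Real.log (2 * π) := Real.log_nonneg (by linarith)
      rw [abs_le]; constructor <;> linarith
    have habs1 : |t| ≤ 1 + |τ - t| := by
      have := abs_sub_abs_le_abs_sub t τ
      rw [abs_sub_comm] at this; linarith
    have hB0 := abs_nonneg B
    have hsplit : |Xi (x + τ * Complex.I) - (1/2 - x) * Real.log ((1 + |t|) / (2 * π))| ≤
        |B| + (3/2) * (2 + |t|) := by
      refine (abs_sub _ _).trans (add_le_add hXB ?_)
      rw [abs_mul]
      apply mul_le_mul _ hlog (abs_nonneg _) (by norm_num)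
      rw [abs_le]; constructor <;> linarith
    calc _ ≤ (|B| + (3/2) * (2 + |t|)) * (1 + |t|) := mul_le_mul_of_nonneg_right hsplit (by positivity)
      _ ≤ (|B| + (3/2) * (3 + |τ - t|)) * (2 + |τ - t|) := by
          apply mul_le_mul _ (by linarith) (by positivity) (by positivity)
          linarith
      _ ≤ _ := by nlinarith [mul_nonneg hB0 hτt, mul_nonneg hB0 (mul_nonneg hτt hτt)]

end Pool.Agent.PairCorr
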