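import Mathlib
import Pool.Agent.PairCorr.C_Arch

set_option autoImplicit false

namespace Pool.Agent.PairCorr

open MeasureTheory Filter Topology Set Real
open scoped ENNReal ArithmeticFunction.vonMangoldt

variable {η η1 η2 : ℝ → ℝ} {M : ℝ} {φ ψ : ℝ → ℝ} {b L : ℝ}

lemma TF.scale (h : TF ψ b) (hL : 0 < L) : TF (fun v => ψ (v / L) / L) (b * L) where
  smooth := (h.smooth.comp (contDiff_id.div_const L)).div_const L
  supp := by
    intro v hv
    rw [h.supp (v / L), zero_div]
    rw [abs_div, abs_of_pos hL, lt_div_iff₀ hL]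
    exact hv

lemma Kc_scale (ψ : ℝ → ℝ) (hL : 0 < L) (w : ℂ) : Kc (fun v => ψ (v / L) / L) w = Kc ψ (L * w) := by
  unfold Kc
  have h := Measure.integral_comp_div (fun v : ℝ => (ψ v : ℂ) * Complex.exp (v * (L * w))) L
  have e : ∀ v : ℝ, ((ψ (v / L) / L : ℝ) : ℂ) * Complex.exp (v * w) =
      (L : ℂ)⁻¹ * ((ψ (v / L) : ℂ) * Complex.exp (((v / L : ℝ) : ℂ) * (L * w))) := by
    intro v
    have hL' : (L : ℂ) ≠ 0 := by exact_mod_cast hL.ne'
    have : ((v / L : ℝ) : ℂ) * (L * w) = v * w := by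
      push_cast; field_simp
    rw [this]
    push_cast
    field_simp
  simp_rw [e]
  rw [integral_const_mul, h, abs_of_pos hL, Complex.real_smul, ← mul_assoc,
    inv_mul_cancel₀ (by exact_mod_cast hL.ne'), one_mul]

lemma kS_int (h : TF φ b) (t x : ℝ) :
    Integrable (fun y : ℝ => kS φ t (x + y * Complex.I)) ∧
    ∫ y : ℝ, kS φ t (x + y * Complex.I) = 2 * π * φ 0 := by
  obtain ⟨h1, h2⟩ := kS_cos h t 0 x
  simp only [zero_mul, Real.cos_zero, Complex.ofReal_one, one_mul, neg_zero, Real.exp_zero,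
    Complex.ofReal_zero, Complex.exp_zero, mul_one] at h1 h2
  refine ⟨h1, h2.trans (by ring)⟩

lemma arch_main (h : TF φ b) (hc : Cutoff1 η η1 η2 M) (t : ℝ) :
    IntegrableOn (fun z : ℂ => ((1/2 - z.re : ℝ) : ℂ) * Lap (kS φ t) η1 η2 z) {z : ℂ | z.re < 0} ∧
    ∫ z in {z : ℂ | z.re < 0}, ((1/2 - z.re : ℝ) : ℂ) * Lap (kS φ t) η1 η2 z = 2 * π * φ 0 := by
  have hm2 : MeasurableSet {z : ℂ | z.re < 0} := measurableSet_lt Complex.measurable_re measurable_const
  obtain ⟨Ck, hb1, hb2⟩ := kS_bounds h t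
  have hLc := Lap_continuous (kS_differentiable h t) hc.toCutoff
  have hInt : Integrable (fun z : ℂ => {z : ℂ | z.re < 0}.indicator (fun z =>
      ((1/2 - z.re : ℝ) : ℂ) * Lap (kS φ t) η1 η2 z) z) := by
    refine Integrable.mono' ((integrable_wt_strip.const_mul (3 * |Ck| * M)).const_mul 4) ?_
      (Eventually.of_forall fun z => ?_)
    · apply AEStronglyMeasurable.indicator _ hm2
      exact (Continuous.mul (by fun_prop) hLc).aestronglyMeasurable
    · have hL := Lap_bound hb1 hb2 hc.toCutoff z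
      by_cases hz : z ∈ {z : ℂ | z.re < 0}
      · rw [indicator_of_mem hz, norm_mul, Complex.norm_real, Real.norm_eq_abs]
        by_cases hz1 : z.re ≤ -1
        · rw [Lap_out hc (Or.inl hz1), norm_zero, mul_zero]
          have := (norm_nonneg _).trans hL
          linarith
        · push Not at hz1
          apply mul_le_mul _ hL (norm_nonneg _) (by norm_num)
          have hz' : z.re < 0 := hz
          rw [abs_le]; constructor <;> linarith
      · rw [indicator_of_notMem hz, norm_zero]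
        have := (norm_nonneg _).trans hL
        linarith
  refine ⟨(integrable_indicator_iff hm2).1 hInt, ?_⟩
  rw [← integral_indicator hm2, integral_complex_eq hInt]
  set g : ℝ → ℂ := fun x => ((1/2 - x : ℝ) : ℂ) * ((η2 x : ℂ) * (2 * π * φ 0)) with hg
  have hinner : ∀ x : ℝ, ∫ y : ℝ, {z : ℂ | z.re < 0}.indicator (fun z =>
      ((1/2 - z.re : ℝ) : ℂ) * Lap (kS φ t) η1 η2 z) (x + y * Complex.I) = (Iio (0:ℝ)).indicator g x := by
    intro x
    by_cases hx : x < 0
    · have e0 : ∀ y : ℝ, {z : ℂ | z.re < 0}.indicator (fun z =>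
          ((1/2 - z.re : ℝ) : ℂ) * Lap (kS φ t) η1 η2 z) (x + y * Complex.I) =
          ((1/2 - x : ℝ) : ℂ) * (2 * (η1 x : ℂ) * kS (fun v => v * φ v) t (x + y * Complex.I) +
            (η2 x : ℂ) * kS φ t (x + y * Complex.I)) := by
        intro y
        have hre : ((x : ℂ) + y * Complex.I).re = x := by simp
        rw [indicator_of_mem (by rw [mem_ofPred_eq, hre]; exact hx)]
        unfold Lap
        rw [hre, kS_deriv h]
        ring
      simp_rw [e0]
      obtain ⟨i1, v1⟩ := kS_int h t x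
      obtain ⟨i2, v2⟩ := kS_int h.mul_id t x
      rw [integral_const_mul, integral_add (i2.const_mul _) (i1.const_mul _), integral_const_mul,
        integral_const_mul, v1, v2, indicator_of_mem (by exact hx)]
      simp [hg]
    · have e0 : ∀ y : ℝ, {z : ℂ | z.re < 0}.indicator (fun z =>
          ((1/2 - z.re : ℝ) : ℂ) * Lap (kS φ t) η1 η2 z) (x + y * Complex.I) = 0 := by
        intro y
        apply indicator_of_notMem
        rw [mem_ofPred_eq]
        simpa using hx
      simp_rw [e0]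
      rw [integral_zero, indicator_of_notMem (by exact hx)]
  simp_rw [hinner]
  rw [integral_indicator measurableSet_Iio]
  have htr : ∫ x in Iio (0:ℝ), g x = ∫ x in (-1:ℝ)..0, g x := by
    rw [intervalIntegral.integral_of_le (by norm_num), integral_Ioc_eq_integral_Ioo]
    apply setIntegral_eq_of_subset_of_forall_sdiff_eq_zero measurableSet_Iio (fun x hx => hx.2)
    intro x hx
    have hx2 : x ≤ -1 := by
      by_contra hcon
      push Not at hcon
      exact hx.2 ⟨hcon, hx.1⟩
    simp only [hg]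
    rw [hc.z2 _ (Or.inl hx2)]
    simp
  rw [htr]
  have hderiv : ∀ x ∈ uIcc (-1:ℝ) 0, HasDerivAt (fun x : ℝ => (((1/2 - x : ℝ) : ℂ) * (η1 x : ℂ) + (η x : ℂ))
      * (2 * π * φ 0)) (g x) x := by
    intro x _
    have d1 : HasDerivAt (fun x : ℝ => (η x : ℂ)) (η1 x : ℂ) x := (hc.d1 x).ofReal_comp
    have d2 : HasDerivAt (fun x : ℝ => (η1 x : ℂ)) (η2 x : ℂ) x := (hc.d2 x).ofReal_comp
    have d3 : HasDerivAt (fun x : ℝ => ((1/2 - x : ℝ) : ℂ)) ((-1 : ℝ) : ℂ) x := by
      apply HasDerivAt.ofReal_comp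
      exact (hasDerivAt_id x).const_sub (1/2)
    refine (((d3.mul d2).add d1).mul_const (2 * π * φ 0 : ℂ)).congr_deriv ?_
    simp only [hg]
    push_cast
    ring
  rw [intervalIntegral.integral_eq_sub_of_hasDerivAt hderiv]
  · rw [hc.z0 (-1) (Or.inl le_rfl), hc.z1 (-1) (Or.inl le_rfl), hc.one 0 (by norm_num) (by norm_num),
      hc.one1 0 (by norm_num) (by norm_num)]
    simp
  · apply Continuous.intervalIntegrable
    have c2 := hc.c2
    simp only [hg]
    fun_prop

/-- integral of the product weight over a half strip -/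
lemma integral_half_strip (t : ℝ) :
    Integrable (fun z : ℂ => (Icc (-1:ℝ) 0).indicator (fun _ => (1:ℝ)) z.re * (1 + (z.im - t) ^ 2)⁻¹) ∧
    ∫ z : ℂ, (Icc (-1:ℝ) 0).indicator (fun _ => (1:ℝ)) z.re * (1 + (z.im - t) ^ 2)⁻¹ = π := by
  have e1 : Integrable (fun y : ℝ => (1 + (y - t) ^ 2)⁻¹) := integrable_inv_one_add_sq.comp_sub_right t
  have e2 : Integrable ((Icc (-1:ℝ) 0).indicator (fun _ => (1:ℝ))) := by
    rw [integrable_indicator_iff measurableSet_Icc]
    exact integrableOn_const (by simp)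
  have h0 := e2.mul_prod e1
  have h := (Complex.volume_preserving_equiv_real_prod).integrable_comp_emb
    Complex.measurableEquivRealProd.measurableEmbedding (g := fun p : ℝ × ℝ =>
      (Icc (-1:ℝ) 0).indicator (fun _ => (1:ℝ)) p.1 * (1 + (p.2 - t) ^ 2)⁻¹)
  have h' := (Complex.volume_preserving_equiv_real_prod).integral_comp
    Complex.measurableEquivRealProd.measurableEmbedding (fun p : ℝ × ℝ =>
      (Icc (-1:ℝ) 0).indicator (fun _ => (1:ℝ)) p.1 * (1 + (p.2 - t) ^ 2)⁻¹)
  constructor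
  · exact h.2 h0
  · have : ∫ p : ℝ × ℝ, (Icc (-1:ℝ) 0).indicator (fun _ => (1:ℝ)) p.1 * (1 + (p.2 - t) ^ 2)⁻¹ = π := by
      rw [Measure.volume_eq_prod, integral_prod_mul (f := (Icc (-1:ℝ) 0).indicator (fun _ => (1:ℝ)))
        (g := fun y : ℝ => (1 + (y - t) ^ 2)⁻¹)]
      rw [integral_indicator measurableSet_Icc,
        integral_sub_right_eq_self (fun y : ℝ => (1 + y ^ 2)⁻¹) t, integral_univ_inv_one_add_sq]
      simp
    rw [← this, ← h']
    rfl

/-- pointwise bound for the scaled kernel -/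
lemma kS_scaled_bound (h : TF ψ b) : ∃ C : ℝ, 0 ≤ C ∧ ∀ L : ℝ, 1 ≤ L → ∀ (t : ℝ) (z : ℂ),
    ‖Kc ψ (L * (z - (1/2 + t * Complex.I)))‖ * (1 + |z.im - t|) ^ 4 ≤
      C * Real.exp (b * (L * |z.re - 1/2|)) := by
  obtain ⟨C, hC0, hC⟩ := h.decay_one_add 4
  refine ⟨C, hC0, fun L hL t z => ?_⟩
  have h1 := hC (L * (z - (1/2 + t * Complex.I)))
  have hre : (L * (z - (1/2 + t * Complex.I)) : ℂ).re = L * (z.re - 1/2) := by simp
  have him : (L * (z - (1/2 + t * Complex.I)) : ℂ).im = L * (z.im - t) := by simp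
  rw [hre, abs_mul, abs_of_pos (by linarith : 0 < L)] at h1
  refine le_trans ?_ h1
  rw [mul_comm]
  apply mul_le_mul_of_nonneg_right _ (norm_nonneg _)
  apply pow_le_pow_left₀ (by positivity)
  have := Complex.abs_im_le_norm (L * (z - (1/2 + t * Complex.I)) : ℂ)
  rw [him, abs_mul, abs_of_pos (by linarith : 0 < L)] at this
  nlinarith [abs_nonneg (z.im - t)]

/-- The archimedean term. -/
theorem arch_err (h : TF ψ b) (hb : 0 < b) (hc : Cutoff1 η η1 η2 M) : ∃ C : ℝ, 0 ≤ C ∧ ∀ L : ℝ, 1 ≤ L →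
    ∀ t : ℝ, ‖Arch (fun v => ψ (v / L) / L) η1 η2 t -
      Real.log ((1 + |t|) / (2 * π)) * (2 * π * (ψ 0 / L : ℝ))‖ ≤ C * Real.exp (2 * b * L) / (1 + |t|) := by
  obtain ⟨CX, hCX0, hCX⟩ := Xi_uniform
  obtain ⟨C1, hC1, h1⟩ := kS_scaled_bound h
  obtain ⟨C2, hC2, h2⟩ := kS_scaled_bound h.mul_id
  have hM := hc.M_nonneg
  refine ⟨CX * (2 * M * C2 * (2 / b) + M * C1) * π, by positivity, fun L hL t => ?_⟩
  have hL0 : 0 < L := by linarith
  have hm2 : MeasurableSet {z : ℂ | z.re < 0} := measurableSet_lt Complex.measurable_re measurable_const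
  have hφ := h.scale hL0
  set φ : ℝ → ℝ := fun v => ψ (v / L) / L with hφdef
  have hφ0 : φ 0 = ψ 0 / L := by simp [hφdef]
  have hmain := arch_main hφ hc t
  set ℓ : ℝ := Real.log ((1 + |t|) / (2 * π)) with hℓ
  have ht := abs_nonneg t
  -- bounds for k and k'
  have hE : ∀ z : ℂ, -1 ≤ z.re → z.re ≤ -1/2 → Real.exp (b * (L * |z.re - 1/2|)) ≤ Real.exp (3/2 * b * L) := by
    intro z hz1 hz2
    apply Real.exp_le_exp.2
    have : |z.re - 1/2| ≤ 3/2 := by rw [abs_le]; constructor <;> linarith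
    calc b * (L * |z.re - 1/2|) ≤ b * (L * (3/2)) := by gcongr
      _ = _ := by ring
  have hk : ∀ z : ℂ, ‖kS φ t z‖ = ‖Kc ψ (L * (z - (1/2 + t * Complex.I)))‖ := by
    intro z
    unfold kS
    rw [hφdef, Kc_scale ψ hL0]
  have hk' : ∀ z : ℂ, ‖deriv (kS φ t) z‖ = L * ‖Kc (fun v => v * ψ v) (L * (z - (1/2 + t * Complex.I)))‖ := by
    intro z
    rw [kS_deriv hφ]
    unfold kS
    rw [← Kc_scale (fun v => v * ψ v) hL0]
    have : (fun v => v * φ v) = fun v => L * ((fun v => v * ψ v) (v / L) / L) := by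
      funext v
      simp only [hφdef]
      field_simp
    rw [this]
    have e : Kc (fun v => L * ((fun v => v * ψ v) (v / L) / L)) (z - (1/2 + t * Complex.I)) =
        L * Kc (fun v => (fun v => v * ψ v) (v / L) / L) (z - (1/2 + t * Complex.I)) := by
      unfold Kc
      rw [← integral_const_mul]
      congr 1
      ext v
      push_cast; ring
    rw [e, norm_mul, Complex.norm_real, Real.norm_of_nonneg hL0.le]
  -- pointwise bound
  set A : ℝ := CX * (2 * M * C2 * (2 / b) + M * C1) * Real.exp (2 * b * L) / (1 + |t|) with hA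
  have hA0 : 0 ≤ A := by positivity
  have hpt : ∀ z : ℂ, ‖{z : ℂ | z.re < 0}.indicator (fun z => (Xi z - (1/2 - z.re) * ℓ : ℝ) *
      Lap (kS φ t) η1 η2 z) z‖ ≤
      A * ((Icc (-1:ℝ) 0).indicator (fun _ => (1:ℝ)) z.re * (1 + (z.im - t) ^ 2)⁻¹) := by
    intro z
    by_cases hz : z ∈ {z : ℂ | z.re < 0}
    · rw [indicator_of_mem hz]
      have hz' : z.re < 0 := hz
      by_cases hz1 : z.re < -1
      · rw [Lap_out hc (Or.inl hz1.le), mul_zero, norm_zero]
        rw [indicator_of_notMem (by intro h; linarith [h.1])]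
        simp
      · push Not at hz1
        by_cases hz2 : z.re ≤ -1/2
        · rw [indicator_of_mem (by exact ⟨hz1, hz'.le⟩), one_mul, norm_mul, Complex.norm_real, Real.norm_eq_abs]
          have hx := hCX z.re z.im t hz1 hz2
          have hzz : (z.re : ℂ) + z.im * Complex.I = z := Complex.re_add_im z
          rw [hzz] at hx
          have e1 := h1 L hL t z
          have e2 := h2 L hL t z
          have hEz := hE z hz1 hz2
          set s := |z.im - t| with hs
          have hs0 : 0 ≤ s := abs_nonneg _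
          have hLe : L ≤ (2 / b) * Real.exp (b / 2 * L) := by
            have := Real.add_one_le_exp (b / 2 * L)
            have h5 : b / 2 * L ≤ Real.exp (b / 2 * L) := by linarith
            calc L = (2 / b) * (b / 2 * L) := by field_simp
              _ ≤ _ := mul_le_mul_of_nonneg_left h5 (by positivity)
          have hexp : Real.exp (b / 2 * L) * Real.exp (3/2 * b * L) = Real.exp (2 * b * L) := by
            rw [← Real.exp_add]; congr 1; ring
          have hLap : ‖Lap (kS φ t) η1 η2 z‖ * (1 + s) ^ 4 ≤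
              (2 * M * C2 * (2 / b) + M * C1) * Real.exp (2 * b * L) := by
            have l1 : ‖Lap (kS φ t) η1 η2 z‖ ≤ 2 * M * (L * ‖Kc (fun v => v * ψ v) (L * (z - (1/2 + t * Complex.I)))‖) +
                M * ‖Kc ψ (L * (z - (1/2 + t * Complex.I)))‖ := by
              unfold Lap
              refine (norm_add_le _ _).trans ?_
              rw [norm_mul, norm_mul, norm_mul, Complex.norm_real, Complex.norm_real, Real.norm_eq_abs,
                Real.norm_eq_abs, Complex.norm_ofNat, hk', hk]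
              have b1 := hc.b1 z.re
              have b2 := hc.b2 z.re
              apply add_le_add
              · calc 2 * (L * ‖Kc (fun v => v * ψ v) (L * (z - (1/2 + t * Complex.I)))‖) * |η1 z.re|
                    ≤ 2 * (L * ‖Kc (fun v => v * ψ v) (L * (z - (1/2 + t * Complex.I)))‖) * M :=
                      mul_le_mul_of_nonneg_left b1 (by positivity)
                  _ = _ := by ring
              · rw [mul_comm]
                exact mul_le_mul_of_nonneg_right b2 (norm_nonneg _)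
            calc ‖Lap (kS φ t) η1 η2 z‖ * (1 + s) ^ 4 ≤
                (2 * M * (L * ‖Kc (fun v => v * ψ v) (L * (z - (1/2 + t * Complex.I)))‖) +
                M * ‖Kc ψ (L * (z - (1/2 + t * Complex.I)))‖) * (1 + s) ^ 4 :=
                  mul_le_mul_of_nonneg_right l1 (by positivity)
              _ = 2 * M * L * (‖Kc (fun v => v * ψ v) (L * (z - (1/2 + t * Complex.I)))‖ * (1 + s) ^ 4) +
                M * (‖Kc ψ (L * (z - (1/2 + t * Complex.I)))‖ * (1 + s) ^ 4) := by ring
              _ ≤ 2 * M * L * (C2 * Real.exp (3/2 * b * L)) + M * (C1 * Real.exp (3/2 * b * L)) := by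
                  have g1 : ‖Kc (fun v => v * ψ v) (L * (z - (1/2 + t * Complex.I)))‖ * (1 + s) ^ 4 ≤
                      C2 * Real.exp (3/2 * b * L) := e2.trans (mul_le_mul_of_nonneg_left hEz hC2)
                  have g2 : ‖Kc ψ (L * (z - (1/2 + t * Complex.I)))‖ * (1 + s) ^ 4 ≤
                      C1 * Real.exp (3/2 * b * L) := e1.trans (mul_le_mul_of_nonneg_left hEz hC1)
                  gcongr
              _ ≤ 2 * M * ((2 / b) * Real.exp (b / 2 * L)) * (C2 * Real.exp (3/2 * b * L)) +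
                  M * (C1 * (Real.exp (b / 2 * L) * Real.exp (3/2 * b * L))) := by
                  have g3 : 1 ≤ Real.exp (b / 2 * L) := Real.one_le_exp (by positivity)
                  have g4 : Real.exp (3/2 * b * L) ≤ Real.exp (b / 2 * L) * Real.exp (3/2 * b * L) :=
                    le_mul_of_one_le_left (Real.exp_pos _).le g3
                  gcongr
              _ = (2 * M * C2 * (2 / b) + M * C1) * (Real.exp (b / 2 * L) * Real.exp (3/2 * b * L)) := by ring
              _ = _ := by rw [hexp]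
          have hD : (1 + s ^ 2) ≤ (1 + s) ^ 2 := by nlinarith
          have hs2 : (z.im - t) ^ 2 = s ^ 2 := by rw [hs, sq_abs]
          rw [hs2, ← div_eq_mul_inv, le_div_iff₀ (by positivity)]
          calc |Xi z - (1/2 - z.re) * ℓ| * ‖Lap (kS φ t) η1 η2 z‖ * (1 + s ^ 2)
              ≤ (CX * (1 + s) ^ 2 / (1 + |t|)) * ‖Lap (kS φ t) η1 η2 z‖ * (1 + s) ^ 2 := by
                gcongr
            _ = CX / (1 + |t|) * (‖Lap (kS φ t) η1 η2 z‖ * (1 + s) ^ 4) := by ring
            _ ≤ CX / (1 + |t|) * ((2 * M * C2 * (2 / b) + M * C1) * Real.exp (2 * b * L)) := by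
                gcongr
            _ = A := by rw [hA]; ring
        · push Not at hz2
          rw [Lap_mid hc hz2.le (by linarith), mul_zero, norm_zero]
          apply mul_nonneg hA0
          apply mul_nonneg _ (by positivity)
          exact indicator_nonneg (fun _ _ => zero_le_one) _
    · rw [indicator_of_notMem hz, norm_zero]
      apply mul_nonneg hA0
      apply mul_nonneg _ (by positivity)
      exact indicator_nonneg (fun _ _ => zero_le_one) _
  obtain ⟨hsi, hsv⟩ := integral_half_strip t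
  have hLc := Lap_continuous (kS_differentiable hφ t) hc.toCutoff
  set S' : Set ℂ := {z : ℂ | -1 ≤ z.re ∧ z.re ≤ -1/2} with hS'
  have hS'm : MeasurableSet S' := (measurableSet_le measurable_const Complex.measurable_re).inter
    (measurableSet_le Complex.measurable_re measurable_const)
  have hind : (fun z : ℂ => {z : ℂ | z.re < 0}.indicator (fun z => ((Xi z - (1/2 - z.re) * ℓ : ℝ) : ℂ) *
      Lap (kS φ t) η1 η2 z) z) = S'.indicator (fun z => ((Xi z - (1/2 - z.re) * ℓ : ℝ) : ℂ) *
      Lap (kS φ t) η1 η2 z) := by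
    funext z
    by_cases hz : z ∈ S'
    · rw [indicator_of_mem hz, indicator_of_mem]
      have := hz.2
      rw [mem_ofPred_eq]; linarith
    · rw [indicator_of_notMem hz]
      by_cases hz0 : z ∈ {z : ℂ | z.re < 0}
      · rw [indicator_of_mem hz0]
        rw [hS', mem_ofPred_eq, not_and_or, not_le, not_le] at hz
        rcases hz with h | h
        · rw [Lap_out hc (Or.inl h.le), mul_zero]
        · have hz0' : z.re < 0 := hz0
          rw [Lap_mid hc h.le (by linarith), mul_zero]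
      · rw [indicator_of_notMem hz0]
  have hint : Integrable (fun z : ℂ => {z : ℂ | z.re < 0}.indicator
      (fun z => ((Xi z - (1/2 - z.re) * ℓ : ℝ) : ℂ) * Lap (kS φ t) η1 η2 z) z) := by
    refine Integrable.mono' (hsi.const_mul A) ?_ (Eventually.of_forall hpt)
    rw [hind, aestronglyMeasurable_indicator_iff hS'm]
    apply ContinuousOn.aestronglyMeasurable _ hS'm
    apply ContinuousOn.mul _ hLc.continuousOn
    apply Complex.continuous_ofReal.comp_continuousOn
    apply ContinuousOn.sub Xi_continuousOn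
    exact Continuous.continuousOn (by fun_prop)
  have hval : ‖∫ z in {z : ℂ | z.re < 0}, ((Xi z - (1/2 - z.re) * ℓ : ℝ) : ℂ) * Lap (kS φ t) η1 η2 z‖ ≤
      A * π := by
    rw [← integral_indicator hm2, ← hsv, ← integral_const_mul]
    refine (norm_integral_le_integral_norm _).trans ?_
    exact integral_mono hint.norm (hsi.const_mul A) hpt
  have hint' : IntegrableOn (fun z : ℂ => ((Xi z - (1/2 - z.re) * ℓ : ℝ) : ℂ) *
      Lap (kS φ t) η1 η2 z) {z : ℂ | z.re < 0} := (integrable_indicator_iff hm2).1 hint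
  have hsplit : Arch φ η1 η2 t = (∫ z in {z : ℂ | z.re < 0}, ((Xi z - (1/2 - z.re) * ℓ : ℝ) : ℂ) *
      Lap (kS φ t) η1 η2 z) + ℓ * (2 * π * φ 0) := by
    rw [← hmain.2, ← integral_const_mul, ← integral_add hint' (hmain.1.const_mul _)]
    unfold Arch
    congr 1
    ext z
    push_cast; ring
  rw [hsplit, hφ0]
  have e : (∫ z in {z : ℂ | z.re < 0}, ((Xi z - (1/2 - z.re) * ℓ : ℝ) : ℂ) * Lap (kS φ t) η1 η2 z) +
      ℓ * (2 * π * ((ψ 0 / L : ℝ) : ℂ)) - ℓ * (2 * π * ((ψ 0 / L : ℝ) : ℂ)) =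
      ∫ z in {z : ℂ | z.re < 0}, ((Xi z - (1/2 - z.re) * ℓ : ℝ) : ℂ) * Lap (kS φ t) η1 η2 z := by ring
  rw [e]
  refine hval.trans (le_of_eq ?_)
  rw [hA]; ring

/-- the prime sum with kernel `ψ(log n / L)/L` -/
noncomputable def Pc (ψ : ℝ → ℝ) (L t : ℝ) : ℂ :=
  ∑' n : ℕ, primeTerm (fun v => ψ (v / L) / L) t n +
    ∑' n : ℕ, primeTerm (fun v => ψ (-v / L) / L) (-t) n

/-- the smoothed zero sum -/
noncomputable def Zs (ψ : ℝ → ℝ) (L t : ℝ) : ℂ :=
  ∫ z, Kc ψ (L * (z - (1/2 + t * Complex.I))) ∂muZ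

/-- Approximate explicit formula. -/
theorem approx_formula (h : TF ψ b) (hb : 0 < b) : ∃ C : ℝ, 0 ≤ C ∧ ∀ L : ℝ, 1 ≤ L → ∀ t : ℝ,
    ‖Zs ψ L t - (((ψ 0 / L * Real.log ((1 + |t|) / (2 * π)) : ℝ) : ℂ) - Pc ψ L t)‖ ≤
      C * Real.exp (2 * b * L) / (1 + |t|) := by
  obtain ⟨η, η1, η2, M, hc⟩ := exists_cutoff
  obtain ⟨C1, hC1, h1⟩ := arch_err h hb hc
  obtain ⟨C2, hC2, h2⟩ := kS_scaled_bound h
  refine ⟨C1 + C2, by positivity, fun L hL t => ?_⟩
  have hL0 : 0 < L := by linarith
  have hφ := h.scale hL0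
  have hef := explicit_formula hφ hc t
  have hZ : ∫ z, kS (fun v => ψ (v / L) / L) t z ∂muZ = Zs ψ L t := by
    unfold Zs kS
    simp_rw [Kc_scale ψ hL0]
  rw [hZ] at hef
  rw [hef]
  have h1' := h1 L hL t
  have h2' := h2 L hL t 1
  have hpi : (2 * π : ℂ) ≠ 0 := by simp [Real.pi_ne_zero]
  have ht := abs_nonneg t
  have e : kS (fun v => ψ (v / L) / L) t 1 - ∑' n : ℕ, primeTerm (fun v => ψ (v / L) / L) t n -
      ∑' n : ℕ, primeTerm (fun v => ψ (-v / L) / L) (-t) n +
      (2 * π)⁻¹ * Arch (fun v => ψ (v / L) / L) η1 η2 t -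
      (((ψ 0 / L * Real.log ((1 + |t|) / (2 * π)) : ℝ) : ℂ) - Pc ψ L t) =
      Kc ψ (L * (1 - (1/2 + t * Complex.I))) + (2 * π : ℂ)⁻¹ * (Arch (fun v => ψ (v / L) / L) η1 η2 t -
        Real.log ((1 + |t|) / (2 * π)) * (2 * π * (ψ 0 / L : ℝ))) := by
    unfold kS Pc
    rw [Kc_scale ψ hL0]
    push_cast
    field_simp
    ring
  rw [e]
  refine (norm_add_le _ _).trans ?_
  have hpi0 := Real.pi_gt_three
  have b1 : ‖Kc ψ (L * (1 - (1/2 + t * Complex.I)))‖ ≤ C2 * Real.exp (2 * b * L) / (1 + |t|) := by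
    rw [le_div_iff₀ (by positivity)]
    have him : (1 : ℂ).im = 0 := rfl
    have hre : (1 : ℂ).re = 1 := rfl
    rw [him, hre, zero_sub, abs_neg] at h2'
    calc ‖Kc ψ (L * (1 - (1/2 + t * Complex.I)))‖ * (1 + |t|)
        ≤ ‖Kc ψ (L * (1 - (1/2 + t * Complex.I)))‖ * (1 + |t|) ^ 4 := by
          apply mul_le_mul_of_nonneg_left _ (norm_nonneg _)
          exact le_self_pow₀ (by linarith) (by norm_num)
      _ ≤ C2 * Real.exp (b * (L * |(1:ℝ) - 1/2|)) := h2'
      _ ≤ C2 * Real.exp (2 * b * L) := by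
          apply mul_le_mul_of_nonneg_left _ hC2
          apply Real.exp_le_exp.2
          have : |(1:ℝ) - 1/2| = 1/2 := by norm_num
          rw [this]
          nlinarith [mul_pos hb hL0]
  have b2 : ‖(2 * π : ℂ)⁻¹ * (Arch (fun v => ψ (v / L) / L) η1 η2 t -
        Real.log ((1 + |t|) / (2 * π)) * (2 * π * (ψ 0 / L : ℝ)))‖ ≤ C1 * Real.exp (2 * b * L) / (1 + |t|) := by
    rw [norm_mul]
    refine le_trans ?_ h1'
    apply mul_le_of_le_one_left (norm_nonneg _)
    rw [norm_inv]
    apply inv_le_one_of_one_le₀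
    rw [norm_mul, Complex.norm_ofNat, Complex.norm_real, Real.norm_of_nonneg (by linarith)]
    linarith
  calc _ ≤ C2 * Real.exp (2 * b * L) / (1 + |t|) + C1 * Real.exp (2 * b * L) / (1 + |t|) := add_le_add b1 b2
    _ = _ := by ring

end Pool.Agent.PairCorr
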