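import Mathlib
import Pool.Agent.PairCorr.PB_Statement
import Pool.Agent.PairCorr.C_Approx

set_option autoImplicit false

namespace Pool.Agent.PairCorr

open MeasureTheory Filter Topology Set Real
open scoped ENNReal ArithmeticFunction.vonMangoldt

variable {ψ1 ψ2 : ℝ → ℝ} {b1 b2 : ℝ}

lemma Kc_line_integrable (h : TF ψ1 b1) (x : ℝ) :
    Integrable (fun τ : ℝ => Kc ψ1 (x + τ * Complex.I)) := by
  have := (h.inversion x 0).1
  simpa using this

/-- Parseval for the kernels on vertical lines, unscaled. -/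
lemma parseval0 (h1 : TF ψ1 b1) (h2 : TF ψ2 b2) (x : ℝ) (w : ℂ) :
    ∫ s : ℝ, Kc ψ1 (x + s * Complex.I) * Kc ψ2 (w + s * Complex.I) =
      2 * π * Kc (fun v => ψ1 v * ψ2 (-v)) (x - w) := by
  have hfub : Integrable (fun p : ℝ × ℝ => Kc ψ1 (x + p.1 * Complex.I) *
      ((ψ2 p.2 : ℂ) * Complex.exp (p.2 * (w + p.1 * Complex.I))))
      ((volume : Measure ℝ).prod (volume : Measure ℝ)) := by
    have hprod : Integrable (fun p : ℝ × ℝ => ‖Kc ψ1 (x + p.1 * Complex.I)‖ *
        (Real.exp (b2 * |w.re|) * |ψ2 p.2|)) ((volume : Measure ℝ).prod (volume : Measure ℝ)) :=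
      (Kc_line_integrable h1 x).norm.mul_prod (h2.integrable.abs.const_mul _)
    refine Integrable.mono' hprod ?_ (Eventually.of_forall fun p => ?_)
    · apply Continuous.aestronglyMeasurable
      have c1 := h1.differentiable_Kc.continuous
      have c2 := h2.cont
      exact (c1.comp (by fun_prop)).mul ((Complex.continuous_ofReal.comp (c2.comp continuous_snd)).mul
        (by fun_prop))
    · rw [norm_mul]
      apply mul_le_mul_of_nonneg_left _ (norm_nonneg _)
      have := h2.norm_exp_le p.2 (w + p.1 * Complex.I)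
      simpa using this
  calc ∫ s : ℝ, Kc ψ1 (x + s * Complex.I) * Kc ψ2 (w + s * Complex.I)
      = ∫ s : ℝ, ∫ v : ℝ, Kc ψ1 (x + s * Complex.I) *
          ((ψ2 v : ℂ) * Complex.exp (v * (w + s * Complex.I))) := by
        congr 1
        ext s
        rw [integral_const_mul]
        rfl
    _ = ∫ v : ℝ, ∫ s : ℝ, Kc ψ1 (x + s * Complex.I) *
          ((ψ2 v : ℂ) * Complex.exp (v * (w + s * Complex.I))) := integral_integral_swap hfub
    _ = ∫ v : ℝ, 2 * π * ((ψ1 (-v) * ψ2 v : ℝ) * Complex.exp (-v * (x - w))) := by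
        congr 1
        ext v
        have e : ∀ s : ℝ, Kc ψ1 (x + s * Complex.I) * ((ψ2 v : ℂ) * Complex.exp (v * (w + s * Complex.I))) =
            (Kc ψ1 (x + s * Complex.I) * Complex.exp (-(((-v : ℝ) : ℂ) * s * Complex.I))) *
              ((ψ2 v : ℂ) * Complex.exp (v * w)) := by
          intro s
          rw [mul_add, Complex.exp_add]
          have : Complex.exp (-(((-v : ℝ) : ℂ) * s * Complex.I)) = Complex.exp (v * (s * Complex.I)) := by
            congr 1; push_cast; ring
          rw [this]; ring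
        simp_rw [e]
        rw [integral_mul_const, (h1.inversion x (-v)).2]
        have : Complex.exp (-v * (x - w)) = (Real.exp (-v * x) : ℂ) * Complex.exp (v * w) := by
          rw [Complex.ofReal_exp, ← Complex.exp_add]
          congr 1; push_cast; ring
        rw [this]
        push_cast
        ring
    _ = 2 * π * Kc (fun v => ψ1 v * ψ2 (-v)) (x - w) := by
        rw [integral_const_mul]
        unfold Kc
        rw [← integral_neg_eq_self]
        congr 2
        ext v
        push_cast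
        simp

/-- Parseval for the kernels, scaled. -/
lemma parseval (h1 : TF ψ1 b1) (h2 : TF ψ2 b2) {L : ℝ} (hL : 0 < L) (z w : ℂ) :
    Integrable (fun t : ℝ => Kc ψ1 (L * (z - (1/2 + t * Complex.I))) *
      Kc ψ2 (L * (w - (1/2 + t * Complex.I)))) ∧
    ∫ t : ℝ, Kc ψ1 (L * (z - (1/2 + t * Complex.I))) * Kc ψ2 (L * (w - (1/2 + t * Complex.I))) =
      (2 * π / L : ℝ) * Kc (fun v => ψ1 v * ψ2 (-v)) (L * (z - w)) := by
  constructor
  · have i1 : Integrable (fun t : ℝ => Kc ψ1 (L * (z - (1/2 + t * Complex.I)))) := by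
      have := ((Kc_line_integrable h1 (L * (z.re - 1/2))).comp_mul_left' (R := -L)
        (by linarith)).comp_add_right (-z.im)
      refine this.congr (Eventually.of_forall fun t => ?_)
      simp only
      congr 1
      have := Complex.re_add_im z
      push_cast
      linear_combination (L:ℂ) * this
    refine i1.mul_bdd (c := Real.exp (|b2| * (L * |w.re - 1/2|)) * ∫ v, |ψ2 v|) ?_ ?_
    · exact (h2.differentiable_Kc.continuous.comp (by fun_prop)).aestronglyMeasurable
    · refine Eventually.of_forall fun t => ?_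
      refine (h2.norm_Kc_le _).trans ?_
      apply mul_le_mul_of_nonneg_right _ (integral_nonneg fun _ => abs_nonneg _)
      apply Real.exp_le_exp.2
      have hre : (L * (w - (1/2 + t * Complex.I)) : ℂ).re = L * (w.re - 1/2) := by simp
      rw [hre, abs_mul, abs_of_pos hL]
      exact mul_le_mul_of_nonneg_right (le_abs_self _) (by positivity)
  · have h := parseval0 h1 h2 (L * (z.re - 1/2)) (L * (w - 1/2) - L * z.im * Complex.I)
    have hs := Measure.integral_comp_mul_left (fun s : ℝ => Kc ψ1 (((L * (z.re - 1/2) : ℝ) : ℂ) + s * Complex.I) *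
      Kc ψ2 (L * (w - 1/2) - L * z.im * Complex.I + s * Complex.I)) (-L)
    rw [← integral_add_right_eq_self _ (-z.im)] at hs
    have e : ∀ t : ℝ, Kc ψ1 (L * (z - (1/2 + t * Complex.I))) * Kc ψ2 (L * (w - (1/2 + t * Complex.I))) =
        Kc ψ1 (((L * (z.re - 1/2) : ℝ) : ℂ) + ((-L * (t + -z.im) : ℝ) : ℂ) * Complex.I) *
      Kc ψ2 (L * (w - 1/2) - L * z.im * Complex.I + ((-L * (t + -z.im) : ℝ) : ℂ) * Complex.I) := by
      intro t
      congr 2
      · have := Complex.re_add_im z
        push_cast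
        linear_combination (-(L:ℂ)) * this
      · push_cast; ring
    simp_rw [e]
    rw [hs, h]
    have habs : |(-L)⁻¹| = L⁻¹ := by rw [abs_inv, abs_neg, abs_of_pos hL]
    rw [habs, Complex.real_smul]
    have e2 : ((L * (z.re - 1/2) : ℝ) : ℂ) - (L * (w - 1/2) - L * z.im * Complex.I) = L * (z - w) := by
      have := Complex.re_add_im z
      push_cast
      linear_combination (L:ℂ) * this
    rw [e2]
    push_cast
    ring

/-- decay of the scaled kernel in the critical strip -/
lemma kernel_decay {ψ : ℝ → ℝ} {b : ℝ} (h : TF ψ b) (hb : 0 ≤ b) (j : ℕ) : ∃ C : ℝ, 0 ≤ C ∧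
    ∀ L : ℝ, 1 ≤ L → ∀ (t : ℝ) (z : ℂ), |z.re - 1/2| ≤ 1/2 →
    ‖Kc ψ (L * (z - (1/2 + t * Complex.I)))‖ ≤ C * Real.exp (b * L / 2) * ((1 + |z.im - t|) ^ j)⁻¹ := by
  obtain ⟨C, hC0, hC⟩ := h.decay_one_add j
  refine ⟨C, hC0, fun L hL t z hz => ?_⟩
  have h1 := hC (L * (z - (1/2 + t * Complex.I)))
  have hre : (L * (z - (1/2 + t * Complex.I)) : ℂ).re = L * (z.re - 1/2) := by simp
  have him : (L * (z - (1/2 + t * Complex.I)) : ℂ).im = L * (z.im - t) := by simp
  have hL0 : 0 < L := by linarith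
  rw [hre, abs_mul, abs_of_pos hL0] at h1
  rw [← div_eq_mul_inv, le_div_iff₀ (by positivity)]
  have h2 : (1 + |z.im - t|) ^ j ≤ (1 + ‖(L * (z - (1/2 + t * Complex.I)) : ℂ)‖) ^ j := by
    apply pow_le_pow_left₀ (by positivity)
    have := Complex.abs_im_le_norm (L * (z - (1/2 + t * Complex.I)) : ℂ)
    rw [him, abs_mul, abs_of_pos hL0] at this
    nlinarith [abs_nonneg (z.im - t)]
  calc ‖Kc ψ (L * (z - (1/2 + t * Complex.I)))‖ * (1 + |z.im - t|) ^ j
      ≤ ‖Kc ψ (L * (z - (1/2 + t * Complex.I)))‖ * (1 + ‖(L * (z - (1/2 + t * Complex.I)) : ℂ)‖) ^ j :=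
        mul_le_mul_of_nonneg_left h2 (norm_nonneg _)
    _ = (1 + ‖(L * (z - (1/2 + t * Complex.I)) : ℂ)‖) ^ j * ‖Kc ψ (L * (z - (1/2 + t * Complex.I)))‖ := by ring
    _ ≤ C * Real.exp (b * (L * |z.re - 1/2|)) := h1
    _ ≤ C * Real.exp (b * L / 2) := by
        apply mul_le_mul_of_nonneg_left _ hC0
        apply Real.exp_le_exp.2
        calc b * (L * |z.re - 1/2|) ≤ b * (L * (1/2)) := by gcongr
          _ = _ := by ring

lemma muZ_ae_strip : ∀ᵐ z ∂muZ, |z.re - 1/2| ≤ 1/2 := by
  filter_upwards [muZ_ae] with z hz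
  rw [abs_le]; constructor <;> linarith [hz.2.1, hz.2.2]

end Pool.Agent.PairCorr
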