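import Mathlib
import Pool.Agent.PairCorr.S_Parseval

set_option autoImplicit false

namespace Pool.Agent.PairCorr

open MeasureTheory Filter Topology Set Real
open scoped ENNReal ArithmeticFunction.vonMangoldt

lemma fub_lemma {h : ℝ → ℝ} {a : ℂ → ℝ → ℝ} {B : ℝ → ℝ}
    (hm : Measurable (fun q : (ℂ × ℂ) × ℝ => h q.2 * a q.1.1 q.2 * (1 + (q.1.2.im - q.2) ^ 2)⁻¹))
    (h0 : ∀ t, 0 ≤ h t) (a0 : ∀ z t, 0 ≤ a z t) (hai : ∀ t, Integrable (fun z => a z t) muZ)
    (hA : ∀ t : ℝ, Integrable (fun z : ℂ => (1 + (z.im - t) ^ 2)⁻¹) muZ)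
    (hB : ∀ t, h t * (∫ z, a z t ∂muZ) * (∫ z, (1 + (z.im - t) ^ 2)⁻¹ ∂muZ) ≤ B t)
    (hBi : Integrable B) :
    Integrable (fun q : (ℂ × ℂ) × ℝ => h q.2 * a q.1.1 q.2 * (1 + (q.1.2.im - q.2) ^ 2)⁻¹)
      ((muZ.prod muZ).prod volume) ∧
    ∫ q : (ℂ × ℂ) × ℝ, h q.2 * a q.1.1 q.2 * (1 + (q.1.2.im - q.2) ^ 2)⁻¹
      ∂((muZ.prod muZ).prod volume) ≤ ∫ t, B t := by
  have hone : ∀ t : ℝ, Integrable (fun p : ℂ × ℂ => h t * a p.1 t * (1 + (p.2.im - t) ^ 2)⁻¹)
      (muZ.prod muZ) := fun t => ((hai t).const_mul (h t)).mul_prod (hA t)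
  have hval : ∀ t : ℝ, ∫ p : ℂ × ℂ, h t * a p.1 t * (1 + (p.2.im - t) ^ 2)⁻¹ ∂(muZ.prod muZ) =
      h t * (∫ z, a z t ∂muZ) * (∫ z, (1 + (z.im - t) ^ 2)⁻¹ ∂muZ) := by
    intro t
    have := integral_prod_mul (μ := muZ) (ν := muZ) (fun z => h t * a z t)
      (fun z : ℂ => (1 + (z.im - t) ^ 2)⁻¹)
    rw [this, integral_const_mul]
  have hnn : ∀ (t : ℝ) (p : ℂ × ℂ), 0 ≤ h t * a p.1 t * (1 + (p.2.im - t) ^ 2)⁻¹ := fun t p =>
    mul_nonneg (mul_nonneg (h0 t) (a0 _ _)) (by positivity)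
  have hint : Integrable (fun q : (ℂ × ℂ) × ℝ => h q.2 * a q.1.1 q.2 * (1 + (q.1.2.im - q.2) ^ 2)⁻¹)
      ((muZ.prod muZ).prod volume) := by
    rw [integrable_prod_iff' hm.aestronglyMeasurable]
    refine ⟨Eventually.of_forall hone, ?_⟩
    refine Integrable.mono' hBi hm.aestronglyMeasurable.prod_swap.norm.integral_prod_right' ?_
    refine Eventually.of_forall fun t => ?_
    rw [Real.norm_of_nonneg (integral_nonneg fun _ => norm_nonneg _)]
    simp only [Real.norm_eq_abs, abs_of_nonneg (hnn t _)]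
    rw [hval]
    exact hB t
  refine ⟨hint, ?_⟩
  rw [integral_prod_symm _ hint]
  apply integral_mono_of_nonneg (Eventually.of_forall fun t => integral_nonneg fun p => hnn t p) hBi
    (Eventually.of_forall fun t => ?_)
  simp only
  rw [hval]
  exact hB t

/-- the two weights -/
noncomputable def W1 (T : ℝ) (q : (ℂ × ℂ) × ℝ) : ℝ :=
  (Ioc 0 T).indicator (fun _ => (1:ℝ)) q.2 * (1 + (q.1.1.im - q.2) ^ 2)⁻¹ *
    (1 + (q.1.2.im - q.2) ^ 2)⁻¹

noncomputable def W2 (e : ℝ) (q : (ℂ × ℂ) × ℝ) : ℝ :=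
  ((1 + |q.2 - e|) ^ 4)⁻¹ * (1 + (q.1.1.im - e) ^ 2)⁻¹ * (1 + (q.1.2.im - q.2) ^ 2)⁻¹

lemma log_shift_le (t e : ℝ) : Real.log (|t| + 2) ≤ 3 * (1 + |t - e|) * Real.log (|e| + 2) := by
  have he := abs_nonneg e
  have hte := abs_nonneg (t - e)
  have h2 : (1:ℝ) / 2 ≤ Real.log 2 := by have := Real.log_two_gt_d9; linarith
  have h3 : Real.log 2 ≤ Real.log (|e| + 2) := Real.log_le_log two_pos (by linarith)
  have h1 : Real.log (|t| + 2) ≤ Real.log (|e| + 2) + |t - e| := by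
    have : |t| + 2 ≤ (|e| + 2) * (1 + |t - e|) := by
      have := abs_sub_abs_le_abs_sub t e
      nlinarith
    have h4 := Real.log_le_log (by positivity) this
    rw [Real.log_mul (by positivity) (by positivity)] at h4
    have h5 := Real.log_le_sub_one_of_pos (x := 1 + |t - e|) (by positivity)
    linarith
  nlinarith

lemma W1_int (T : ℝ) : Integrable (W1 T) ((muZ.prod muZ).prod volume) := by
  obtain ⟨C, hC, hLD⟩ := muZ_logDens
  obtain ⟨C', hC'0, h'⟩ := hLD.integral_le hC.le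
  have hg := fub_lemma (h := (Ioc 0 T).indicator (fun _ => (1:ℝ))) (a := fun z t => (1 + (z.im - t) ^ 2)⁻¹)
    (B := (Ioc 0 T).indicator (fun t => (C' * Real.log (|t| + 2)) ^ 2)) ?_
    (fun t => indicator_nonneg (fun _ _ => zero_le_one) _)
    (fun z t => by positivity) (fun t => (h' t).1) (fun t => (h' t).1) ?_ ?_
  · exact hg.1
  · apply Measurable.mul _ (by fun_prop)
    apply Measurable.mul _ (by fun_prop)
    exact (measurable_const.indicator measurableSet_Ioc).comp measurable_snd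
  · intro t
    by_cases ht : t ∈ Ioc 0 T
    · rw [indicator_of_mem ht, indicator_of_mem ht, one_mul, ← sq]
      have h0 : 0 ≤ ∫ z : ℂ, (1 + (z.im - t) ^ 2)⁻¹ ∂muZ := integral_nonneg fun _ => by positivity
      exact pow_le_pow_left₀ h0 (h' t).2 2
    · rw [indicator_of_notMem ht, indicator_of_notMem ht]; simp
  · rw [integrable_indicator_iff measurableSet_Ioc]
    apply Continuous.integrableOn_Ioc
    apply Continuous.pow
    apply Continuous.mul continuous_const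
    apply Continuous.log (by fun_prop)
    intro t
    have := abs_nonneg t
    positivity

lemma integrable_cube : Integrable (fun t : ℝ => ((1 + |t|) ^ 3)⁻¹) := by
  refine Integrable.mono' integrable_inv_one_add_sq ?_ (Eventually.of_forall fun t => ?_)
  · exact Measurable.aestronglyMeasurable (by fun_prop)
  · rw [Real.norm_of_nonneg (by positivity)]
    apply inv_anti₀ (by positivity)
    have := abs_nonneg t
    have h2 : t ^ 2 = |t| ^ 2 := (sq_abs t).symm
    rw [h2]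
    nlinarith [mul_nonneg this (mul_nonneg this this), mul_nonneg this this]

lemma W2_int : ∃ C : ℝ, 0 ≤ C ∧ ∀ e : ℝ, Integrable (W2 e) ((muZ.prod muZ).prod volume) ∧
    ∫ q, W2 e q ∂((muZ.prod muZ).prod volume) ≤ C * Real.log (|e| + 2) ^ 2 := by
  obtain ⟨C, hC, hLD⟩ := muZ_logDens
  obtain ⟨C', hC'0, h'⟩ := hLD.integral_le hC.le
  refine ⟨C' * C' * 3 * ∫ t : ℝ, ((1 + |t|) ^ 3)⁻¹, ?_, fun e => ?_⟩
  · have : 0 ≤ ∫ t : ℝ, ((1 + |t|) ^ 3)⁻¹ := integral_nonneg fun _ => by positivity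
    positivity
  have hle : 0 ≤ Real.log (|e| + 2) := Real.log_nonneg (by have := abs_nonneg e; linarith)
  have hg := fub_lemma (h := fun t => ((1 + |t - e|) ^ 4)⁻¹) (a := fun z t => (1 + (z.im - e) ^ 2)⁻¹)
    (B := fun t => (C' * C' * 3 * Real.log (|e| + 2) ^ 2) * ((1 + |t - e|) ^ 3)⁻¹) (by fun_prop)
    (fun t => by positivity)
    (fun z t => by positivity) (fun t => (h' e).1) (fun t => (h' t).1) ?_ ?_
  · refine ⟨hg.1, hg.2.trans (le_of_eq ?_)⟩
    rw [integral_const_mul, integral_sub_right_eq_self (fun t : ℝ => ((1 + |t|) ^ 3)⁻¹) e]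
    ring
  · intro t
    have a1 := (h' e).2
    have a2 := (h' t).2
    have a3 := log_shift_le t e
    have n1 : 0 ≤ ∫ z : ℂ, (1 + (z.im - e) ^ 2)⁻¹ ∂muZ := integral_nonneg fun _ => by positivity
    have n2 : 0 ≤ ∫ z : ℂ, (1 + (z.im - t) ^ 2)⁻¹ ∂muZ := integral_nonneg fun _ => by positivity
    have hp : 0 < 1 + |t - e| := by positivity
    calc ((1 + |t - e|) ^ 4)⁻¹ * (∫ z : ℂ, (1 + (z.im - e) ^ 2)⁻¹ ∂muZ) * ∫ z : ℂ, (1 + (z.im - t) ^ 2)⁻¹ ∂muZ
        ≤ ((1 + |t - e|) ^ 4)⁻¹ * (C' * Real.log (|e| + 2)) *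
          (C' * (3 * (1 + |t - e|) * Real.log (|e| + 2))) := by
          apply mul_le_mul
          · exact mul_le_mul_of_nonneg_left a1 (by positivity)
          · exact a2.trans (mul_le_mul_of_nonneg_left a3 hC'0)
          · exact n2
          · positivity
      _ = (C' * C' * 3 * Real.log (|e| + 2) ^ 2) * ((1 + |t - e|) ^ 3)⁻¹ := by
          field_simp
  · exact (integrable_cube.comp_sub_right e).const_mul _

/-- pointwise edge inequality -/
lemma edge_pt {T γ t : ℝ} :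
    |(Ioc 0 T).indicator (fun _ => (1:ℝ)) t - (Ioc 0 T).indicator (fun _ => (1:ℝ)) γ| *
      ((1 + |γ - t|) ^ 6)⁻¹ ≤ ((1 + |t - 0|) ^ 4)⁻¹ * (1 + (γ - 0) ^ 2)⁻¹ +
        ((1 + |t - T|) ^ 4)⁻¹ * (1 + (γ - T) ^ 2)⁻¹ := by
  have key : ∀ e : ℝ, |γ - t| = |γ - e| + |t - e| →
      ((1 + |γ - t|) ^ 6)⁻¹ ≤ ((1 + |t - e|) ^ 4)⁻¹ * (1 + (γ - e) ^ 2)⁻¹ := by
    intro e he
    rw [← mul_inv]
    apply inv_anti₀ (by positivity)
    rw [he]
    have h1 := abs_nonneg (γ - e)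
    have h2 := abs_nonneg (t - e)
    have h3 : (γ - e) ^ 2 = |γ - e| ^ 2 := (sq_abs _).symm
    rw [h3]
    calc (1 + |t - e|) ^ 4 * (1 + |γ - e| ^ 2)
        ≤ (1 + (|γ - e| + |t - e|)) ^ 4 * (1 + (|γ - e| + |t - e|)) ^ 2 := by
          apply mul_le_mul
          · apply pow_le_pow_left₀ (by positivity); linarith
          · nlinarith [mul_nonneg h1 h2]
          · positivity
          · positivity
      _ = _ := by ring
  have hn0 : 0 ≤ ((1 + |t - 0|) ^ 4)⁻¹ * (1 + (γ - 0) ^ 2)⁻¹ := by positivity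
  have hnT : 0 ≤ ((1 + |t - T|) ^ 4)⁻¹ * (1 + (γ - T) ^ 2)⁻¹ := by positivity
  by_cases h1 : t ∈ Ioc 0 T
  · by_cases h2 : γ ∈ Ioc 0 T
    · rw [indicator_of_mem h1, indicator_of_mem h2]; simp; positivity
    · rw [indicator_of_mem h1, indicator_of_notMem h2]
      simp only [sub_zero, abs_one, one_mul]
      rw [mem_Ioc, not_and_or, not_lt, not_le] at h2
      rcases h2 with h | h
      · have := key 0 (by
          rw [abs_of_nonpos (by linarith [h1.1] : γ - t ≤ 0), abs_of_nonpos (by linarith : γ - 0 ≤ 0),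
            abs_of_nonneg (by linarith [h1.1] : 0 ≤ t - 0)]; ring)
        simp only [sub_zero] at this ⊢
        linarith
      · have := key T (by
          rw [abs_of_nonneg (by linarith [h1.2] : 0 ≤ γ - t), abs_of_nonneg (by linarith : 0 ≤ γ - T),
            abs_of_nonpos (by linarith [h1.2] : t - T ≤ 0)]; ring)
        simp only [sub_zero] at hn0
        linarith
  · by_cases h2 : γ ∈ Ioc 0 T
    · rw [indicator_of_notMem h1, indicator_of_mem h2]
      rw [zero_sub, abs_neg, abs_one, one_mul]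
      rw [mem_Ioc, not_and_or, not_lt, not_le] at h1
      rcases h1 with h | h
      · have := key 0 (by
          rw [abs_of_nonneg (by linarith [h2.1] : 0 ≤ γ - t), abs_of_nonneg (by linarith [h2.1] : 0 ≤ γ - 0),
            abs_of_nonpos (by linarith : t - 0 ≤ 0)]; ring)
        linarith
      · have := key T (by
          rw [abs_of_nonpos (by linarith [h2.2] : γ - t ≤ 0), abs_of_nonpos (by linarith [h2.2] : γ - T ≤ 0),
            abs_of_nonneg (by linarith : 0 ≤ t - T)]; ring)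
        linarith
    · rw [indicator_of_notMem h1, indicator_of_notMem h2]; simp; positivity

end Pool.Agent.PairCorr
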