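import Mathlib

set_option autoImplicit false

namespace Pool.Agent.PairCorr

open MeasureTheory Filter Topology Set

section Rigidity

variable {ι : Type*} {l : Filter ι} {D : ι → ℝ → ℝ} {G g : ℝ → ℝ}

/-- lower bound for the increments -/
lemma H_ge_of_le (hD : ∀ i, Monotone (D i)) (hG : ∀ u v, |G u - G v| ≤ |u - v|)
    (i : ι) {u v : ℝ} (huv : u ≤ v) : D i u - G u - (v - u) ≤ D i v - G v := by
  have h1 := hD i huv
  have h2 := hG v u
  rw [abs_of_nonneg (by linarith : (0:ℝ) ≤ v - u)] at h2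
  have h3 := le_abs_self (G v - G u)
  linarith

/-- Uniform lower bound on compact intervals. -/
lemma unif_lower (hD : ∀ i, Monotone (D i)) (hG : ∀ u v, |G u - G v| ≤ |u - v|)
    {A : ℝ} (hi : ∀ a ≥ A, ∀ ε > 0, ∀ᶠ i in l, -ε ≤ D i a - G a) (B : ℝ) {ε : ℝ} (hε : 0 < ε) :
    ∀ᶠ i in l, ∀ u ∈ Icc A B, -ε ≤ D i u - G u := by
  obtain ⟨m, hm⟩ := exists_nat_gt ((B - A) / (ε / 2))
  have hall : ∀ᶠ i in l, ∀ j ∈ Finset.range (m + 1), -(ε/2) ≤ D i (A + j * (ε/2)) - G (A + j * (ε/2)) := by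
    rw [Filter.eventually_all_finset]
    intro j _
    exact hi _ (by have : (0:ℝ) ≤ j * (ε/2) := by positivity
                   linarith) _ (by linarith)
  filter_upwards [hall] with i hi' u hu
  set j := ⌊(u - A) / (ε/2)⌋₊ with hj
  have hupos : 0 ≤ (u - A) / (ε/2) := div_nonneg (by linarith [hu.1]) (by linarith)
  have h1 : (j:ℝ) ≤ (u - A) / (ε/2) := Nat.floor_le hupos
  have h2 : (u - A) / (ε/2) < j + 1 := Nat.lt_floor_add_one _
  have h1' : j * (ε/2) ≤ u - A := by
    rwa [le_div_iff₀ (by linarith)] at h1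
  have h2' : u - A < (j + 1) * (ε/2) := by
    rwa [div_lt_iff₀ (by linarith)] at h2
  have hjm : j ∈ Finset.range (m + 1) := by
    rw [Finset.mem_range]
    have : (u - A) / (ε/2) ≤ (B - A) / (ε/2) := by
      apply div_le_div_of_nonneg_right _ (by linarith)
      linarith [hu.2]
    have h3 : (j:ℝ) < m + 1 := by linarith
    exact_mod_cast h3
  have h4 := hi' j hjm
  have h5 := H_ge_of_le (D := D) (G := G) hD hG i (u := A + j * (ε/2)) (v := u) (by linarith)
  linarith

/-- the test weight -/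
noncomputable def qw (g : ℝ → ℝ) (n : ℕ) (η u : ℝ) : ℝ := u ^ (2 * n + 1) * g (η * u)

lemma qw_nonneg (hg0 : ∀ u, 0 ≤ g u) (n : ℕ) (η : ℝ) {u : ℝ} (hu : 0 ≤ u) : 0 ≤ qw g n η u :=
  mul_nonneg (pow_nonneg hu _) (hg0 _)

lemma qw_cont (hgc : Continuous g) (n : ℕ) (η : ℝ) : Continuous (qw g n η) := by
  unfold qw; fun_prop

lemma qw_decay (hgdecay : ∀ N : ℕ, ∃ K, ∀ u ≥ 0, u ^ N * g u ≤ K) (n : ℕ) {η : ℝ} (hη : 0 < η) :
    ∃ K, 0 ≤ K ∧ ∀ u ≥ 0, qw g n η u * (1 + u) ≤ K * (1 + u ^ 2)⁻¹ := by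
  have key : ∀ N : ℕ, ∃ K, ∀ u ≥ 0, u ^ N * g (η * u) ≤ K := by
    intro N
    obtain ⟨K, hK⟩ := hgdecay N
    refine ⟨K / η ^ N, fun u hu => ?_⟩
    have := hK (η * u) (by positivity)
    rw [le_div_iff₀ (by positivity)]
    calc u ^ N * g (η * u) * η ^ N = (η * u) ^ N * g (η * u) := by ring
      _ ≤ K := this
  obtain ⟨K1, h1⟩ := key (2 * n + 1)
  obtain ⟨K2, h2⟩ := key (2 * n + 2)
  obtain ⟨K3, h3⟩ := key (2 * n + 3)
  obtain ⟨K4, h4⟩ := key (2 * n + 4)
  refine ⟨|K1| + |K2| + |K3| + |K4|, by positivity, fun u hu => ?_⟩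
  have hpos : (0:ℝ) < 1 + u ^ 2 := by positivity
  rw [← div_eq_mul_inv, le_div_iff₀ hpos]
  have e : qw g n η u * (1 + u) * (1 + u ^ 2) = u ^ (2 * n + 1) * g (η * u) + u ^ (2 * n + 2) * g (η * u)
      + u ^ (2 * n + 3) * g (η * u) + u ^ (2 * n + 4) * g (η * u) := by
    unfold qw; ring
  rw [e]
  have := h1 u hu; have := h2 u hu; have := h3 u hu; have := h4 u hu
  have := le_abs_self K1; have := le_abs_self K2; have := le_abs_self K3; have := le_abs_self K4
  linarith

lemma qw_int (hg0 : ∀ u, 0 ≤ g u) (hgc : Continuous g)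
    (hgdecay : ∀ N : ℕ, ∃ K, ∀ u ≥ 0, u ^ N * g u ≤ K) (n : ℕ) {η : ℝ} (hη : 0 < η) :
    IntegrableOn (fun u => qw g n η u * (1 + u)) (Ioi 0) := by
  obtain ⟨K, hK0, hK⟩ := qw_decay hgdecay n hη
  have hI : IntegrableOn (fun u : ℝ => K * (1 + u ^ 2)⁻¹) (Ioi 0) :=
    (integrable_inv_one_add_sq.const_mul K).integrableOn
  refine Integrable.mono' hI ?_ ?_
  · exact ((qw_cont hgc n η).mul (by fun_prop)).aestronglyMeasurable
  · filter_upwards [ae_restrict_mem measurableSet_Ioi] with u hu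
    have hu' : (0:ℝ) ≤ u := le_of_lt hu
    rw [Real.norm_of_nonneg (mul_nonneg (qw_nonneg hg0 n η hu') (by linarith))]
    exact hK u hu'

/-- integrability of `q * H` for `H` measurable with linear growth. -/
lemma qwH_int (hg0 : ∀ u, 0 ≤ g u) (hgc : Continuous g)
    (hgdecay : ∀ N : ℕ, ∃ K, ∀ u ≥ 0, u ^ N * g u ≤ K) (n : ℕ) {η : ℝ} (hη : 0 < η)
    {H : ℝ → ℝ} (hHm : Measurable H) {C : ℝ} (hHb : ∀ u ≥ 0, |H u| ≤ C * (1 + u)) :
    IntegrableOn (fun u => qw g n η u * H u) (Ioi 0) := by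
  refine Integrable.mono' ((qw_int hg0 hgc hgdecay n hη).const_mul C) ?_ ?_
  · exact ((qw_cont hgc n η).measurable.mul hHm).aestronglyMeasurable
  · filter_upwards [ae_restrict_mem measurableSet_Ioi] with u hu
    have hu' : (0:ℝ) ≤ u := le_of_lt hu
    rw [norm_mul, Real.norm_of_nonneg (qw_nonneg hg0 n η hu')]
    have := mul_le_mul_of_nonneg_left (hHb u hu') (qw_nonneg hg0 n η hu')
    rw [Real.norm_eq_abs]
    nlinarith

lemma qw_tail (hg0 : ∀ u, 0 ≤ g u) (hgc : Continuous g)
    (hgdecay : ∀ N : ℕ, ∃ K, ∀ u ≥ 0, u ^ N * g u ≤ K) (n : ℕ) {η : ℝ} (hη : 0 < η) {ε : ℝ}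
    (hε : 0 < ε) (B₁ : ℝ) :
    ∃ B, B₁ ≤ B ∧ 0 ≤ B ∧ ∫ u in Ioi B, qw g n η u * (1 + u) ≤ ε := by
  have hI := qw_int hg0 hgc hgdecay n hη
  have ht := intervalIntegral_tendsto_integral_Ioi (a := (0:ℝ)) (b := fun x : ℝ => x) hI tendsto_id
  have h1 := (ht.eventually (lt_mem_nhds (show (∫ u in Ioi 0, qw g n η u * (1 + u)) - ε <
    ∫ u in Ioi 0, qw g n η u * (1 + u) by linarith)))
  obtain ⟨B, hB⟩ := (h1.and (eventually_ge_atTop (max B₁ 0))).exists
  refine ⟨B, (le_max_left _ _).trans hB.2, (le_max_right _ _).trans hB.2, ?_⟩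
  have hB0 : 0 ≤ B := (le_max_right _ _).trans hB.2
  have h2 := intervalIntegral.integral_interval_add_Ioi (a := 0) (b := B)
    (f := fun u => qw g n η u * (1 + u)) hI (hI.mono_set (Ioi_subset_Ioi hB0))
  linarith [hB.1]

/-- The positive part of `H` is small on `[A+δ, B₀]`. -/
lemma pos_part_small (hD : ∀ i, Monotone (D i)) (hG : ∀ u v, |G u - G v| ≤ |u - v|)
    {C : ℝ} (hC : ∀ᶠ i in l, ∀ u ≥ 0, |D i u - G u| ≤ C * (1 + u))
    (hg0 : ∀ u, 0 ≤ g u) (hgc : Continuous g) (hg1 : g 0 = 1)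
    (hgdecay : ∀ N : ℕ, ∃ K, ∀ u ≥ 0, u ^ N * g u ≤ K)
    {η₀ : ℝ} (hη₀ : 0 < η₀)
    (hii : ∀ n : ℕ, ∀ η ∈ Ioo 0 η₀,
      Tendsto (fun i => ∫ u in Ioi 0, qw g n η u * (D i u - G u)) l (𝓝 0))
    {A : ℝ} (hA : 0 ≤ A) (hi : ∀ a ≥ A, ∀ ε > 0, ∀ᶠ i in l, -ε ≤ D i a - G a)
    {δ : ℝ} (hδ : 0 < δ) (B₀ : ℝ) {ε : ℝ} (hε : 0 < ε) :
    ∀ᶠ i in l, ∫ u in Ioc (A + δ) B₀, max (D i u - G u) 0 ≤ ε := by
  obtain ⟨M, hM⟩ := hgdecay 0
  have hGm : Measurable G := by
    have : Continuous G := by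
      rw [Metric.continuous_iff]
      intro b e he
      refine ⟨e, he, fun a ha => lt_of_le_of_lt ?_ ha⟩
      rw [Real.dist_eq, Real.dist_eq]; exact hG a b
    exact this.measurable
  have hM' : ∀ u ≥ 0, g u ≤ M := fun u hu => by simpa using hM u hu
  have hM1 : 1 ≤ M := by have := hM' 0 le_rfl; rwa [hg1] at this
  have hr : A / (A + δ) < 1 := by rw [div_lt_one (by linarith)]; linarith
  have hr0 : 0 ≤ A / (A + δ) := by positivity
  -- make C nonnegative
  have hC' : ∀ᶠ i in l, ∀ u ≥ 0, |D i u - G u| ≤ |C| * (1 + u) := by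
    filter_upwards [hC] with i h u hu
    exact (h u hu).trans (mul_le_mul_of_nonneg_right (le_abs_self C) (by linarith))
  set K := 2 * (M * (|C| * (1 + A)) * A) with hK
  have hK0 : 0 ≤ K := by positivity
  -- choose n
  obtain ⟨n, hn⟩ : ∃ n : ℕ, K * (A / (A + δ)) ^ (2 * n + 1) ≤ ε / 2 := by
    have h1 : Tendsto (fun n : ℕ => K * (A / (A + δ)) ^ (2 * n + 1)) atTop (𝓝 (K * 0)) := by
      apply Tendsto.const_mul
      apply (tendsto_pow_atTop_nhds_zero_of_lt_one hr0 hr).comp
      exact tendsto_atTop_mono (fun n => (show n ≤ 2 * n + 1 by omega)) tendsto_id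
    rw [mul_zero] at h1
    obtain ⟨n, hn⟩ := (h1.eventually (gt_mem_nhds (show (0:ℝ) < ε / 2 by linarith))).exists
    exact ⟨n, le_of_lt hn⟩
  set W := (A + δ) ^ (2 * n + 1) with hW
  have hWpos : 0 < W := by positivity
  -- choose η
  obtain ⟨η, hη, hgη⟩ : ∃ η, η ∈ Ioo 0 η₀ ∧ ∀ u ∈ Icc 0 B₀, 1 / 2 ≤ g (η * u) := by
    have h1 : ∀ᶠ x in 𝓝 (0:ℝ), 1 / 2 < g x := by
      have := hgc.continuousAt (x := 0)
      rw [ContinuousAt, hg1] at this
      exact this.eventually (lt_mem_nhds (by norm_num))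
    rw [Metric.eventually_nhds_iff] at h1
    obtain ⟨e, he, h1⟩ := h1
    refine ⟨min (η₀ / 2) (e / (|B₀| + 1)), ⟨by positivity, ?_⟩, ?_⟩
    · exact lt_of_le_of_lt (min_le_left _ _) (by linarith)
    · intro u hu
      apply le_of_lt
      apply h1
      rw [Real.dist_eq, sub_zero, abs_of_nonneg (mul_nonneg (by positivity) hu.1)]
      calc min (η₀ / 2) (e / (|B₀| + 1)) * u ≤ e / (|B₀| + 1) * u :=
            mul_le_mul_of_nonneg_right (min_le_right _ _) hu.1
        _ ≤ e / (|B₀| + 1) * |B₀| := mul_le_mul_of_nonneg_left (hu.2.trans (le_abs_self _)) (by positivity)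
        _ < e := by
            rw [div_mul_eq_mul_div, div_lt_iff₀ (by positivity)]
            nlinarith [abs_nonneg B₀]
  set q := qw g n η with hq
  have hqI := qw_int hg0 hgc hgdecay n hη.1
  set Q := ∫ u in Ioi 0, q u * (1 + u) with hQ
  have hQ0 : 0 ≤ Q := by
    apply setIntegral_nonneg measurableSet_Ioi
    intro u hu
    exact mul_nonneg (qw_nonneg hg0 n η (le_of_lt hu)) (by linarith [mem_Ioi.1 hu])
  -- δ'
  set d := ε * W / 16 with hd
  have hd0 : 0 < d := by positivity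
  obtain ⟨B, hB1, hB0, hB⟩ := qw_tail hg0 hgc hgdecay n hη.1 (ε := d / (|C| + 1)) (by positivity) A
  have hlow := unif_lower (l := l) hD hG hi B (ε := d / (Q + 1)) (by positivity)
  have hint := (hii n η hη).eventually (gt_mem_nhds hd0)
  filter_upwards [hC', hlow, hint] with i hCi hlowi hinti
  set H : ℝ → ℝ := fun u => D i u - G u with hH
  have hHm : Measurable H := (hD i).measurable.sub hGm
  have hqH : IntegrableOn (fun u => q u * H u) (Ioi 0) := qwH_int hg0 hgc hgdecay n hη.1 hHm hCi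
  have hPm : Measurable (fun u => max (H u) 0) := hHm.max measurable_const
  have hNm : Measurable (fun u => max (-H u) 0) := hHm.neg.max measurable_const
  have hPb : ∀ u ≥ 0, |max (H u) 0| ≤ |C| * (1 + u) := by
    intro u hu
    have := hCi u hu
    rw [abs_of_nonneg (le_max_right _ _)]
    exact max_le ((le_abs_self _).trans this) (by positivity)
  have hNb : ∀ u ≥ 0, |max (-H u) 0| ≤ |C| * (1 + u) := by
    intro u hu
    have := hCi u hu
    rw [abs_of_nonneg (le_max_right _ _)]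
    exact max_le ((neg_le_abs _).trans this) (by positivity)
  have hqP : IntegrableOn (fun u => q u * max (H u) 0) (Ioi 0) :=
    qwH_int hg0 hgc hgdecay n hη.1 hPm hPb
  have hqN : IntegrableOn (fun u => q u * max (-H u) 0) (Ioi 0) :=
    qwH_int hg0 hgc hgdecay n hη.1 hNm hNb
  have hsub : Ioi A ⊆ Ioi 0 := Ioi_subset_Ioi hA
  -- decomposition
  have e1 : ∫ u in Ioi A, q u * max (H u) 0 =
      (∫ u in Ioi A, q u * H u) + ∫ u in Ioi A, q u * max (-H u) 0 := by
    rw [← integral_add (hqH.mono_set hsub) (hqN.mono_set hsub)]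
    apply integral_congr_ae
    filter_upwards with u
    have : max (H u) 0 = H u + max (-H u) 0 := by
      rcases le_total 0 (H u) with h | h
      · rw [max_eq_left h, max_eq_right (by linarith)]; ring
      · rw [max_eq_right h, max_eq_left (by linarith)]; ring
    rw [this]; ring
  have e2 : ∫ u in Ioi A, q u * H u = (∫ u in Ioi 0, q u * H u) - ∫ u in (0:ℝ)..A, q u * H u := by
    have := intervalIntegral.integral_interval_add_Ioi (a := 0) (b := A)
      (f := fun u => q u * H u) hqH (hqH.mono_set hsub)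
    linarith
  have e3 : |∫ u in (0:ℝ)..A, q u * H u| ≤ M * (|C| * (1 + A)) * A ^ (2 * n + 1) * A := by
    have := intervalIntegral.norm_integral_le_of_norm_le_const (a := 0) (b := A)
      (f := fun u => q u * H u) (C := M * (|C| * (1 + A)) * A ^ (2 * n + 1)) ?_
    · simpa [abs_of_nonneg hA] using this
    · intro u hu
      rw [uIoc_of_le hA] at hu
      have hu0 : 0 ≤ u := le_of_lt hu.1
      rw [norm_mul, Real.norm_of_nonneg (qw_nonneg hg0 n η hu0), Real.norm_eq_abs]
      have h1 : q u ≤ M * A ^ (2 * n + 1) := by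
        rw [hq]; unfold qw
        rw [mul_comm]
        exact mul_le_mul (hM' _ (mul_nonneg hη.1.le hu0)) (pow_le_pow_left₀ hu0 hu.2 _)
          (by positivity) (by linarith)
      have h2 : |H u| ≤ |C| * (1 + A) :=
        (hCi u hu0).trans (mul_le_mul_of_nonneg_left (by linarith [hu.2]) (abs_nonneg _))
      calc q u * |H u| ≤ (M * A ^ (2 * n + 1)) * (|C| * (1 + A)) :=
            mul_le_mul h1 h2 (abs_nonneg _) (by positivity)
        _ = _ := by ring
  -- negative part
  have e4 : ∫ u in Ioi A, q u * max (-H u) 0 ≤ 2 * d := by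
    have hsplit : ∫ u in Ioi A, q u * max (-H u) 0 = (∫ u in A..B, q u * max (-H u) 0) +
        ∫ u in Ioi B, q u * max (-H u) 0 := by
      rw [intervalIntegral.integral_interval_add_Ioi (hqN.mono_set hsub)
        (hqN.mono_set (Ioi_subset_Ioi hB0))]
    have t1 : ∫ u in A..B, q u * max (-H u) 0 ≤ d := by
      have hle : ∫ u in A..B, q u * max (-H u) 0 ≤ ∫ u in A..B, (d / (Q + 1)) * (q u * (1 + u)) := by
        apply intervalIntegral.integral_mono_on hB1
        · rw [intervalIntegrable_iff_integrableOn_Ioc_of_le hB1]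
          exact hqN.mono_set (fun u hu => lt_of_le_of_lt hA hu.1)
        · rw [intervalIntegrable_iff_integrableOn_Ioc_of_le hB1]
          exact (hqI.mono_set (fun u hu => lt_of_le_of_lt hA hu.1)).const_mul _
        · intro u hu
          have hu0 : 0 ≤ u := hA.trans hu.1
          have h1 : max (-H u) 0 ≤ d / (Q + 1) := by
            have := hlowi u hu
            exact max_le (by linarith) (by positivity)
          have h2 := qw_nonneg hg0 n η hu0
          calc q u * max (-H u) 0 ≤ q u * (d / (Q + 1)) := mul_le_mul_of_nonneg_left h1 h2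
            _ = (d / (Q + 1)) * (q u * 1) := by ring
            _ ≤ (d / (Q + 1)) * (q u * (1 + u)) := by
                apply mul_le_mul_of_nonneg_left _ (by positivity)
                exact mul_le_mul_of_nonneg_left (by linarith) h2
      refine hle.trans ?_
      rw [intervalIntegral.integral_const_mul]
      have hle2 : ∫ u in A..B, q u * (1 + u) ≤ Q := by
        rw [intervalIntegral.integral_of_le hB1, hQ]
        apply setIntegral_mono_set hqI
        · filter_upwards [ae_restrict_mem measurableSet_Ioi] with u hu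
          exact mul_nonneg (qw_nonneg hg0 n η (le_of_lt hu)) (by linarith [mem_Ioi.1 hu])
        · exact (Eventually.of_forall (fun u hu => lt_of_le_of_lt hA hu.1))
      calc d / (Q + 1) * ∫ u in A..B, q u * (1 + u) ≤ d / (Q + 1) * Q :=
            mul_le_mul_of_nonneg_left hle2 (by positivity)
        _ ≤ d := by
            rw [div_mul_eq_mul_div, div_le_iff₀ (by positivity)]
            nlinarith
    have t2 : ∫ u in Ioi B, q u * max (-H u) 0 ≤ d := by
      have hle : ∫ u in Ioi B, q u * max (-H u) 0 ≤ ∫ u in Ioi B, |C| * (q u * (1 + u)) := by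
        apply setIntegral_mono_on (hqN.mono_set (Ioi_subset_Ioi hB0))
          ((hqI.mono_set (Ioi_subset_Ioi hB0)).const_mul _) measurableSet_Ioi
        intro u hu
        have hu0 : 0 ≤ u := hB0.trans (le_of_lt hu)
        have h1 := hNb u hu0
        rw [abs_of_nonneg (le_max_right _ _)] at h1
        have h2 := qw_nonneg hg0 n η hu0
        calc q u * max (-H u) 0 ≤ q u * (|C| * (1 + u)) := mul_le_mul_of_nonneg_left h1 h2
          _ = _ := by ring
      refine hle.trans ?_
      rw [integral_const_mul]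
      calc |C| * ∫ u in Ioi B, q u * (1 + u) ≤ |C| * (d / (|C| + 1)) :=
            mul_le_mul_of_nonneg_left hB (abs_nonneg _)
        _ ≤ d := by
            rw [mul_div_assoc', div_le_iff₀ (by positivity)]
            nlinarith [abs_nonneg C]
    rw [hsplit]; linarith
  -- total
  have e5 : ∫ u in Ioi A, q u * max (H u) 0 ≤ M * (|C| * (1 + A)) * A ^ (2 * n + 1) * A + 3 * d := by
    rw [e1, e2]
    have := neg_le_abs (∫ u in (0:ℝ)..A, q u * H u)
    have h7 : (∫ u in Ioi 0, q u * H u) < d := hinti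
    linarith
  have e6 : (W / 2) * ∫ u in Ioc (A + δ) B₀, max (H u) 0 ≤ ∫ u in Ioi A, q u * max (H u) 0 := by
    rw [← integral_const_mul]
    have hsub2 : Ioc (A + δ) B₀ ⊆ Ioi A := fun u hu => lt_trans (by linarith) hu.1
    calc ∫ u in Ioc (A + δ) B₀, (W / 2) * max (H u) 0
        ≤ ∫ u in Ioc (A + δ) B₀, q u * max (H u) 0 := by
          apply setIntegral_mono_on _ (hqP.mono_set (hsub2.trans hsub)) measurableSet_Ioc
          · intro u hu
            have hu0 : 0 ≤ u := le_trans (by linarith) (le_of_lt hu.1)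
            have h1 : W / 2 ≤ q u := by
              have h2 := hgη u ⟨hu0, hu.2⟩
              have h3 : W ≤ u ^ (2 * n + 1) := pow_le_pow_left₀ (by linarith) (le_of_lt hu.1) _
              rw [hq]; unfold qw
              calc W / 2 = W * (1 / 2) := by ring
                _ ≤ u ^ (2 * n + 1) * g (η * u) := mul_le_mul h3 h2 (by norm_num) (by positivity)
            exact mul_le_mul_of_nonneg_right h1 (le_max_right _ _)
          · apply Integrable.const_mul
            refine Integrable.mono' (g := fun u => |C| * (1 + u)) ?_ hPm.aestronglyMeasurable ?_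
            · exact ((Continuous.integrableOn_Icc (by fun_prop)).mono_set Ioc_subset_Icc_self)
            · filter_upwards [ae_restrict_mem measurableSet_Ioc] with u hu
              exact hPb u (le_trans (by linarith) (le_of_lt hu.1))
      _ ≤ ∫ u in Ioi A, q u * max (H u) 0 := by
          apply setIntegral_mono_set (hqP.mono_set hsub)
          · filter_upwards [ae_restrict_mem measurableSet_Ioi] with u hu
            exact mul_nonneg (qw_nonneg hg0 n η (hA.trans (le_of_lt hu))) (le_max_right _ _)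
          · exact Eventually.of_forall hsub2
  have e7 : (W / 2) * ∫ u in Ioc (A + δ) B₀, max (H u) 0 ≤
      M * (|C| * (1 + A)) * A ^ (2 * n + 1) * A + 3 * d := e6.trans e5
  have e8 : M * (|C| * (1 + A)) * A ^ (2 * n + 1) * A ≤ (W / 2) * (ε / 2) := by
    have h1 : (A / (A + δ)) ^ (2 * n + 1) = A ^ (2 * n + 1) / W := by rw [div_pow]
    rw [h1, mul_div_assoc', div_le_iff₀ hWpos] at hn
    rw [hK] at hn
    nlinarith
  have e9 : (W / 2) * ∫ u in Ioc (A + δ) B₀, max (H u) 0 ≤ (W / 2) * ε := by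
    have h3 : 3 * d = (W/2) * (ε * (3/8)) := by rw [hd]; ring
    have h4 : 0 < W / 2 * ε := by positivity
    nlinarith
  exact le_of_mul_le_mul_left e9 (by positivity)


lemma meas_of_lip (hG : ∀ u v, |G u - G v| ≤ |u - v|) : Measurable G := by
  have : Continuous G := by
    rw [Metric.continuous_iff]
    intro b e he
    refine ⟨e, he, fun a ha => lt_of_le_of_lt ?_ ha⟩
    rw [Real.dist_eq, Real.dist_eq]; exact hG a b
  exact this.measurable

/-- `|H|` is small in mean on `[A+δ, B₀]`. -/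
lemma abs_small (hD : ∀ i, Monotone (D i)) (hG : ∀ u v, |G u - G v| ≤ |u - v|)
    {C : ℝ} (hC : ∀ᶠ i in l, ∀ u ≥ 0, |D i u - G u| ≤ C * (1 + u))
    (hg0 : ∀ u, 0 ≤ g u) (hgc : Continuous g) (hg1 : g 0 = 1)
    (hgdecay : ∀ N : ℕ, ∃ K, ∀ u ≥ 0, u ^ N * g u ≤ K)
    {η₀ : ℝ} (hη₀ : 0 < η₀)
    (hii : ∀ n : ℕ, ∀ η ∈ Ioo 0 η₀,
      Tendsto (fun i => ∫ u in Ioi 0, qw g n η u * (D i u - G u)) l (𝓝 0))
    {A : ℝ} (hA : 0 ≤ A) (hi : ∀ a ≥ A, ∀ ε > 0, ∀ᶠ i in l, -ε ≤ D i a - G a)
    {δ : ℝ} (hδ : 0 < δ) (B₀ : ℝ) {ε : ℝ} (hε : 0 < ε) :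
    ∀ᶠ i in l, ∫ u in Ioc (A + δ) B₀, |D i u - G u| ≤ ε := by
  have h1 := pos_part_small hD hG hC hg0 hgc hg1 hgdecay hη₀ hii hA hi hδ B₀ (ε := ε / 2) (by linarith)
  have h2 := unif_lower (l := l) hD hG hi B₀ (ε := ε / 2 / (|B₀| + A + δ + 1)) (by positivity)
  filter_upwards [h1, h2, hC] with i h1 h2 hCi
  have hHm : Measurable (fun u => D i u - G u) := (hD i).measurable.sub (meas_of_lip hG)
  have hint : ∀ f : ℝ → ℝ, Measurable f → (∀ u ≥ 0, |f u| ≤ |C| * (1 + u)) →
      IntegrableOn f (Ioc (A + δ) B₀) := by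
    intro f hf hb
    refine Integrable.mono' (g := fun u => |C| * (1 + u)) ?_ hf.aestronglyMeasurable ?_
    · exact ((Continuous.integrableOn_Icc (by fun_prop)).mono_set Ioc_subset_Icc_self)
    · filter_upwards [ae_restrict_mem measurableSet_Ioc] with u hu
      exact hb u (le_trans (by linarith) (le_of_lt hu.1))
  have hCi' : ∀ u ≥ 0, |D i u - G u| ≤ |C| * (1 + u) := fun u hu =>
    (hCi u hu).trans (mul_le_mul_of_nonneg_right (le_abs_self C) (by linarith))
  have e1 : ∀ u, |D i u - G u| = max (D i u - G u) 0 + max (-(D i u - G u)) 0 := by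
    intro u
    rcases le_total 0 (D i u - G u) with h | h
    · rw [max_eq_left h, max_eq_right (by linarith), abs_of_nonneg h]; ring
    · rw [max_eq_right h, max_eq_left (by linarith), abs_of_nonpos h]; ring
  have hI1 : IntegrableOn (fun u => max (D i u - G u) 0) (Ioc (A + δ) B₀) := by
    apply hint _ (hHm.max measurable_const)
    intro u hu
    rw [abs_of_nonneg (le_max_right _ _)]
    exact max_le ((le_abs_self _).trans (hCi' u hu)) (by positivity)
  have hI2 : IntegrableOn (fun u => max (-(D i u - G u)) 0) (Ioc (A + δ) B₀) := by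
    apply hint _ (hHm.neg.max measurable_const)
    intro u hu
    rw [abs_of_nonneg (le_max_right _ _)]
    exact max_le ((neg_le_abs _).trans (hCi' u hu)) (by positivity)
  simp_rw [e1]
  rw [integral_add hI1 hI2]
  have e2 : ∫ u in Ioc (A + δ) B₀, max (-(D i u - G u)) 0 ≤ ε / 2 := by
    rcases le_total B₀ (A + δ) with hB | hB
    · rw [Ioc_eq_empty (not_lt.2 hB)]; simp; linarith
    have : ∫ u in Ioc (A + δ) B₀, max (-(D i u - G u)) 0 ≤
        ∫ u in Ioc (A + δ) B₀, ε / 2 / (|B₀| + A + δ + 1) := by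
      apply setIntegral_mono_on hI2 _ measurableSet_Ioc
      · intro u hu
        have := h2 u ⟨by linarith [hu.1], hu.2⟩
        exact max_le (by linarith) (by positivity)
      · exact (Continuous.integrableOn_Icc (by fun_prop)).mono_set Ioc_subset_Icc_self
    refine this.trans ?_
    rw [setIntegral_const]
    rw [measureReal_def, Real.volume_Ioc, ENNReal.toReal_ofReal (by linarith), smul_eq_mul]
    rw [mul_div_assoc', div_le_iff₀ (by positivity)]
    nlinarith [le_abs_self B₀]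
  linarith

/-- odd moments on `[0, A']` tend to zero. -/
lemma moments_small (hD : ∀ i, Monotone (D i)) (hG : ∀ u v, |G u - G v| ≤ |u - v|)
    {C : ℝ} (hC : ∀ᶠ i in l, ∀ u ≥ 0, |D i u - G u| ≤ C * (1 + u))
    (hg0 : ∀ u, 0 ≤ g u) (hgc : Continuous g) (hg1 : g 0 = 1)
    (hgdecay : ∀ N : ℕ, ∃ K, ∀ u ≥ 0, u ^ N * g u ≤ K)
    {η₀ : ℝ} (hη₀ : 0 < η₀)
    (hii : ∀ n : ℕ, ∀ η ∈ Ioo 0 η₀,
      Tendsto (fun i => ∫ u in Ioi 0, qw g n η u * (D i u - G u)) l (𝓝 0))
    {A : ℝ} (hA : 0 ≤ A) (hi : ∀ a ≥ A, ∀ ε > 0, ∀ᶠ i in l, -ε ≤ D i a - G a)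
    {δ : ℝ} (hδ : 0 < δ) (n : ℕ) {ε : ℝ} (hε : 0 < ε) :
    ∀ᶠ i in l, |∫ u in (0:ℝ)..(A + δ), u ^ (2 * n + 1) * (D i u - G u)| ≤ ε := by
  set A' := A + δ with hA'
  have hA'pos : 0 < A' := by positivity
  obtain ⟨M, hM⟩ := hgdecay 0
  have hM' : ∀ u ≥ 0, g u ≤ M := fun u hu => by simpa using hM u hu
  have hM1 : 1 ≤ M := by have := hM' 0 le_rfl; rwa [hg1] at this
  -- choose η
  set κ := ε / 4 / (A' ^ (2 * n + 1) * (|C| * (1 + A')) * A' + 1) with hκ
  have hκ0 : 0 < κ := by positivity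
  obtain ⟨η, hη, hgη⟩ : ∃ η, η ∈ Ioo 0 η₀ ∧ ∀ u ∈ Icc 0 A', |1 - g (η * u)| ≤ κ := by
    have h1 : ∀ᶠ x in 𝓝 (0:ℝ), |1 - g x| < κ := by
      have h0 : Tendsto (fun x => |1 - g x|) (𝓝 0) (𝓝 |1 - g 0|) :=
        (tendsto_const_nhds.sub hgc.continuousAt).abs
      rw [hg1, sub_self, abs_zero] at h0
      exact h0.eventually (gt_mem_nhds hκ0)
    rw [Metric.eventually_nhds_iff] at h1
    obtain ⟨e, he, h1⟩ := h1
    refine ⟨min (η₀ / 2) (e / (|A'| + 1)), ⟨by positivity, ?_⟩, ?_⟩
    · exact lt_of_le_of_lt (min_le_left _ _) (by linarith)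
    · intro u hu
      apply le_of_lt
      apply h1
      rw [Real.dist_eq, sub_zero, abs_of_nonneg (mul_nonneg (by positivity) hu.1)]
      calc min (η₀ / 2) (e / (|A'| + 1)) * u ≤ e / (|A'| + 1) * u :=
            mul_le_mul_of_nonneg_right (min_le_right _ _) hu.1
        _ ≤ e / (|A'| + 1) * |A'| := mul_le_mul_of_nonneg_left (hu.2.trans (le_abs_self _)) (by positivity)
        _ < e := by
            rw [div_mul_eq_mul_div, div_lt_iff₀ (by positivity)]
            nlinarith [abs_nonneg A']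
  set q := qw g n η with hq
  have hqI := qw_int hg0 hgc hgdecay n hη.1
  obtain ⟨K, hK0, hK⟩ := qw_decay hgdecay n hη.1
  have hqK : ∀ u ≥ 0, q u ≤ K := by
    intro u hu
    have h1 := hK u hu
    have h2 : (1 + u ^ 2)⁻¹ ≤ 1 := inv_le_one_of_one_le₀ (by nlinarith)
    have h3 := qw_nonneg hg0 n η hu
    nlinarith [mul_le_mul_of_nonneg_left h2 hK0, mul_nonneg h3 hu]
  obtain ⟨B, hB1, hB0, hB⟩ := qw_tail hg0 hgc hgdecay n hη.1 (ε := ε / 4 / (|C| + 1)) (by positivity) A'
  have habs := abs_small hD hG hC hg0 hgc hg1 hgdecay hη₀ hii hA hi hδ B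
    (ε := ε / 4 / (K + 1)) (by positivity)
  have hint : ∀ᶠ i in l, |∫ u in Ioi 0, q u * (D i u - G u)| < ε / 4 := by
    have := (hii n η hη).abs
    rw [abs_zero] at this
    exact this.eventually (gt_mem_nhds (by linarith))
  filter_upwards [hC, habs, hint] with i hCi0 habsi hinti
  have hCi : ∀ u ≥ 0, |D i u - G u| ≤ |C| * (1 + u) := fun u hu =>
    (hCi0 u hu).trans (mul_le_mul_of_nonneg_right (le_abs_self C) (by linarith))
  set H : ℝ → ℝ := fun u => D i u - G u with hH
  have hHm : Measurable H := (hD i).measurable.sub (meas_of_lip hG)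
  have hqH : IntegrableOn (fun u => q u * H u) (Ioi 0) := qwH_int hg0 hgc hgdecay n hη.1 hHm hCi
  have hsub : Ioi A' ⊆ Ioi 0 := Ioi_subset_Ioi hA'pos.le
  have e2 : ∫ u in (0:ℝ)..A', q u * H u = (∫ u in Ioi 0, q u * H u) - ∫ u in Ioi A', q u * H u := by
    have := intervalIntegral.integral_interval_add_Ioi (a := 0) (b := A')
      (f := fun u => q u * H u) hqH (hqH.mono_set hsub)
    linarith
  have hHint : ∀ a b : ℝ, 0 ≤ a → IntegrableOn H (Ioc a b) := by
    intro a b ha
    refine Integrable.mono' (g := fun u => |C| * (1 + u)) ?_ hHm.aestronglyMeasurable ?_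
    · exact ((Continuous.integrableOn_Icc (by fun_prop)).mono_set Ioc_subset_Icc_self)
    · filter_upwards [ae_restrict_mem measurableSet_Ioc] with u hu
      exact hCi u (ha.trans (le_of_lt hu.1))
  have e3 : |∫ u in Ioi A', q u * H u| ≤ ε / 2 := by
    have hsplit : ∫ u in Ioi A', q u * H u = (∫ u in A'..B, q u * H u) + ∫ u in Ioi B, q u * H u := by
      rw [intervalIntegral.integral_interval_add_Ioi (hqH.mono_set hsub)
        (hqH.mono_set (Ioi_subset_Ioi hB0))]
    have t1 : |∫ u in A'..B, q u * H u| ≤ ε / 4 := by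
      rw [intervalIntegral.integral_of_le hB1]
      calc |∫ u in Ioc A' B, q u * H u| ≤ ∫ u in Ioc A' B, |q u * H u| := abs_integral_le_integral_abs
        _ ≤ ∫ u in Ioc A' B, K * |H u| := by
            apply setIntegral_mono_on _ _ measurableSet_Ioc
            · intro u hu
              have hu0 : 0 ≤ u := hA'pos.le.trans (le_of_lt hu.1)
              rw [abs_mul, abs_of_nonneg (qw_nonneg hg0 n η hu0)]
              exact mul_le_mul_of_nonneg_right (hqK u hu0) (abs_nonneg _)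
            · exact (hqH.mono_set (fun u hu => hA'pos.trans hu.1)).abs
            · exact ((hHint A' B hA'pos.le).abs).const_mul K
        _ = K * ∫ u in Ioc A' B, |H u| := integral_const_mul _ _
        _ ≤ K * (ε / 4 / (K + 1)) := mul_le_mul_of_nonneg_left habsi hK0
        _ ≤ ε / 4 := by
            rw [mul_div_assoc', div_le_iff₀ (by positivity)]
            nlinarith
    have t2 : |∫ u in Ioi B, q u * H u| ≤ ε / 4 := by
      calc |∫ u in Ioi B, q u * H u| ≤ ∫ u in Ioi B, |q u * H u| := abs_integral_le_integral_abs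
        _ ≤ ∫ u in Ioi B, |C| * (q u * (1 + u)) := by
            apply setIntegral_mono_on (hqH.mono_set (Ioi_subset_Ioi hB0)).abs
              ((hqI.mono_set (Ioi_subset_Ioi hB0)).const_mul _) measurableSet_Ioi
            intro u hu
            have hu0 : 0 ≤ u := hB0.trans (le_of_lt hu)
            rw [abs_mul, abs_of_nonneg (qw_nonneg hg0 n η hu0)]
            have := mul_le_mul_of_nonneg_left (hCi u hu0) (qw_nonneg hg0 n η hu0)
            calc qw g n η u * |H u| ≤ qw g n η u * (|C| * (1 + u)) := this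
              _ = _ := by ring
        _ = |C| * ∫ u in Ioi B, q u * (1 + u) := integral_const_mul _ _
        _ ≤ |C| * (ε / 4 / (|C| + 1)) := mul_le_mul_of_nonneg_left hB (abs_nonneg _)
        _ ≤ ε / 4 := by
            rw [mul_div_assoc', div_le_iff₀ (by positivity)]
            nlinarith [abs_nonneg C]
    rw [hsplit]
    calc |(∫ u in A'..B, q u * H u) + ∫ u in Ioi B, q u * H u| ≤ _ := abs_add_le _ _
      _ ≤ ε / 2 := by linarith
  have e4 : |∫ u in (0:ℝ)..A', (u ^ (2 * n + 1) * H u - q u * H u)| ≤ ε / 4 := by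
    have := intervalIntegral.norm_integral_le_of_norm_le_const (a := 0) (b := A')
      (f := fun u => u ^ (2 * n + 1) * H u - q u * H u)
      (C := κ * (A' ^ (2 * n + 1) * (|C| * (1 + A')))) ?_
    · rw [Real.norm_eq_abs, sub_zero, abs_of_nonneg hA'pos.le] at this
      refine this.trans ?_
      rw [hκ]
      have hZ : 0 ≤ A' ^ (2 * n + 1) * (|C| * (1 + A')) * A' := by positivity
      rw [div_mul_eq_mul_div, div_mul_eq_mul_div, div_le_iff₀ (by positivity)]
      nlinarith
    · intro u hu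
      rw [uIoc_of_le hA'pos.le] at hu
      have hu0 : 0 ≤ u := le_of_lt hu.1
      have e : u ^ (2 * n + 1) * H u - q u * H u = (1 - g (η * u)) * (u ^ (2 * n + 1) * H u) := by
        rw [hq]; unfold qw; ring
      rw [e, norm_mul, norm_mul, Real.norm_eq_abs, Real.norm_eq_abs, Real.norm_eq_abs]
      apply mul_le_mul (hgη u ⟨hu0, hu.2⟩) _ (by positivity) hκ0.le
      apply mul_le_mul
      · rw [abs_of_nonneg (by positivity)]
        exact pow_le_pow_left₀ hu0 hu.2 _
      · exact (hCi u hu0).trans (mul_le_mul_of_nonneg_left (by linarith [hu.2]) (abs_nonneg _))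
      · positivity
      · positivity
  have e5 : ∫ u in (0:ℝ)..A', u ^ (2 * n + 1) * H u =
      (∫ u in (0:ℝ)..A', (u ^ (2 * n + 1) * H u - q u * H u)) + ∫ u in (0:ℝ)..A', q u * H u := by
    rw [← intervalIntegral.integral_add]
    · congr 1; ext u; ring
    · apply IntervalIntegrable.sub
      · apply IntervalIntegrable.continuousOn_mul _ (by fun_prop)
        rw [intervalIntegrable_iff_integrableOn_Ioc_of_le hA'pos.le]
        exact hHint 0 A' le_rfl
      · rw [intervalIntegrable_iff_integrableOn_Ioc_of_le hA'pos.le]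
        exact hqH.mono_set (fun u hu => hu.1)
    · rw [intervalIntegrable_iff_integrableOn_Ioc_of_le hA'pos.le]
      exact hqH.mono_set (fun u hu => hu.1)
  rw [e5]
  calc _ ≤ _ := abs_add_le _ _
    _ ≤ ε / 4 + |∫ u in (0:ℝ)..A', q u * H u| := by linarith
    _ ≤ ε / 4 + (|∫ u in Ioi 0, q u * H u| + |∫ u in Ioi A', q u * H u|) := by
        rw [e2]
        have := abs_sub (∫ u in Ioi 0, q u * H u) (∫ u in Ioi A', q u * H u)
        linarith
    _ ≤ ε := by linarith


/-- integrals against `u * φ(u^2)` tend to zero for continuous `φ`. -/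
lemma cont_small (hD : ∀ i, Monotone (D i)) (hG : ∀ u v, |G u - G v| ≤ |u - v|)
    {C : ℝ} (hC : ∀ᶠ i in l, ∀ u ≥ 0, |D i u - G u| ≤ C * (1 + u))
    (hg0 : ∀ u, 0 ≤ g u) (hgc : Continuous g) (hg1 : g 0 = 1)
    (hgdecay : ∀ N : ℕ, ∃ K, ∀ u ≥ 0, u ^ N * g u ≤ K)
    {η₀ : ℝ} (hη₀ : 0 < η₀)
    (hii : ∀ n : ℕ, ∀ η ∈ Ioo 0 η₀,
      Tendsto (fun i => ∫ u in Ioi 0, qw g n η u * (D i u - G u)) l (𝓝 0))
    {A : ℝ} (hA : 0 ≤ A) (hi : ∀ a ≥ A, ∀ ε > 0, ∀ᶠ i in l, -ε ≤ D i a - G a)
    {δ : ℝ} (hδ : 0 < δ) {φ : ℝ → ℝ} (hφ : Continuous φ) {ε : ℝ} (hε : 0 < ε) :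
    ∀ᶠ i in l, |∫ u in (0:ℝ)..(A + δ), u * φ (u ^ 2) * (D i u - G u)| ≤ ε := by
  set A' := A + δ with hA'
  have hA'pos : 0 < A' := by positivity
  obtain ⟨p, hp⟩ := exists_polynomial_near_of_continuousOn 0 (A' ^ 2) φ hφ.continuousOn
    (ε / 2 / (A' * (|C| * (1 + A')) * A' + 1)) (by positivity)
  -- polynomial part
  have hpoly : ∀ᶠ i in l, ∀ k ∈ Finset.range (p.natDegree + 1),
      |∫ u in (0:ℝ)..A', u ^ (2 * k + 1) * (D i u - G u)| ≤
        ε / 2 / ((∑ k ∈ Finset.range (p.natDegree + 1), |p.coeff k|) + 1) := by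
    rw [Filter.eventually_all_finset]
    intro k _
    exact moments_small hD hG hC hg0 hgc hg1 hgdecay hη₀ hii hA hi hδ k (by positivity)
  filter_upwards [hC, hpoly] with i hCi0 hpi
  have hCi : ∀ u ≥ 0, |D i u - G u| ≤ |C| * (1 + u) := fun u hu =>
    (hCi0 u hu).trans (mul_le_mul_of_nonneg_right (le_abs_self C) (by linarith))
  set H : ℝ → ℝ := fun u => D i u - G u with hH
  have hHm : Measurable H := (hD i).measurable.sub (meas_of_lip hG)
  have hHi : IntervalIntegrable H volume 0 A' := by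
    rw [intervalIntegrable_iff_integrableOn_Ioc_of_le hA'pos.le]
    refine Integrable.mono' (g := fun u => |C| * (1 + u)) ?_ hHm.aestronglyMeasurable ?_
    · exact ((Continuous.integrableOn_Icc (by fun_prop)).mono_set Ioc_subset_Icc_self)
    · filter_upwards [ae_restrict_mem measurableSet_Ioc] with u hu
      exact hCi u (le_of_lt hu.1)
  have e1 : ∫ u in (0:ℝ)..A', u * p.eval (u ^ 2) * H u =
      ∑ k ∈ Finset.range (p.natDegree + 1), p.coeff k * ∫ u in (0:ℝ)..A', u ^ (2 * k + 1) * H u := by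
    simp_rw [← intervalIntegral.integral_const_mul]
    rw [← intervalIntegral.integral_finsetSum]
    · congr 1; ext u
      rw [Polynomial.eval_eq_sum_range, Finset.mul_sum, Finset.sum_mul]
      apply Finset.sum_congr rfl
      intro k _
      rw [← pow_mul]; ring
    · intro k _
      apply IntervalIntegrable.const_mul
      exact hHi.continuousOn_mul (by fun_prop)
  have e2 : |∫ u in (0:ℝ)..A', u * p.eval (u ^ 2) * H u| ≤ ε / 2 := by
    rw [e1]
    calc |∑ k ∈ Finset.range (p.natDegree + 1), p.coeff k * ∫ u in (0:ℝ)..A', u ^ (2 * k + 1) * H u|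
        ≤ ∑ k ∈ Finset.range (p.natDegree + 1), |p.coeff k * ∫ u in (0:ℝ)..A', u ^ (2 * k + 1) * H u| :=
          Finset.abs_sum_le_sum_abs _ _
      _ ≤ ∑ k ∈ Finset.range (p.natDegree + 1), |p.coeff k| *
          (ε / 2 / ((∑ k ∈ Finset.range (p.natDegree + 1), |p.coeff k|) + 1)) := by
          apply Finset.sum_le_sum
          intro k hk
          rw [abs_mul]
          exact mul_le_mul_of_nonneg_left (hpi k hk) (abs_nonneg _)
      _ = (∑ k ∈ Finset.range (p.natDegree + 1), |p.coeff k|) *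
          (ε / 2 / ((∑ k ∈ Finset.range (p.natDegree + 1), |p.coeff k|) + 1)) := by
          rw [Finset.sum_mul]
      _ ≤ ε / 2 := by
          have : 0 ≤ ∑ k ∈ Finset.range (p.natDegree + 1), |p.coeff k| :=
            Finset.sum_nonneg (fun _ _ => abs_nonneg _)
          rw [mul_div_assoc', div_le_iff₀ (by positivity)]
          nlinarith
  have e3 : |∫ u in (0:ℝ)..A', (u * φ (u ^ 2) * H u - u * p.eval (u ^ 2) * H u)| ≤ ε / 2 := by
    have := intervalIntegral.norm_integral_le_of_norm_le_const (a := 0) (b := A')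
      (f := fun u => u * φ (u ^ 2) * H u - u * p.eval (u ^ 2) * H u)
      (C := A' * (ε / 2 / (A' * (|C| * (1 + A')) * A' + 1)) * (|C| * (1 + A'))) ?_
    · rw [Real.norm_eq_abs, sub_zero, abs_of_nonneg hA'pos.le] at this
      refine this.trans ?_
      have hZ : 0 ≤ A' * (|C| * (1 + A')) * A' := by positivity
      rw [mul_div_assoc', div_mul_eq_mul_div, div_mul_eq_mul_div, div_le_iff₀ (by positivity)]
      nlinarith
    · intro u hu
      rw [uIoc_of_le hA'pos.le] at hu
      have hu0 : 0 ≤ u := le_of_lt hu.1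
      have e : u * φ (u ^ 2) * H u - u * p.eval (u ^ 2) * H u =
          u * -(p.eval (u ^ 2) - φ (u ^ 2)) * H u := by ring
      rw [e, norm_mul, norm_mul, Real.norm_eq_abs, Real.norm_eq_abs, Real.norm_eq_abs, abs_neg]
      apply mul_le_mul
      · apply mul_le_mul
        · rw [abs_of_nonneg hu0]; exact hu.2
        · apply le_of_lt; apply hp
          exact ⟨by positivity, pow_le_pow_left₀ hu0 hu.2 2⟩
        · positivity
        · positivity
      · exact (hCi u hu0).trans (mul_le_mul_of_nonneg_left (by linarith [hu.2]) (abs_nonneg _))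
      · positivity
      · positivity
  have e5 : ∫ u in (0:ℝ)..A', u * φ (u ^ 2) * H u =
      (∫ u in (0:ℝ)..A', (u * φ (u ^ 2) * H u - u * p.eval (u ^ 2) * H u)) +
        ∫ u in (0:ℝ)..A', u * p.eval (u ^ 2) * H u := by
    rw [← intervalIntegral.integral_add]
    · congr 1; ext u; ring
    · apply IntervalIntegrable.sub
      · exact hHi.continuousOn_mul (by fun_prop)
      · exact hHi.continuousOn_mul (by fun_prop)
    · exact hHi.continuousOn_mul (by fun_prop)
  rw [e5]
  calc _ ≤ _ := abs_add_le _ _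
    _ ≤ ε := by linarith

/-- a bump integral is positive -/
lemma bump_pos {a b : ℝ} (ha : 0 ≤ a) (hab : a < b) :
    0 < ∫ u in a..b, u * max 0 (min (u ^ 2 - a ^ 2) (b ^ 2 - u ^ 2)) := by
  apply intervalIntegral.intervalIntegral_pos_of_pos_on
  · apply Continuous.intervalIntegrable; fun_prop
  · intro u hu
    have hu0 : 0 < u := lt_of_le_of_lt ha hu.1
    apply mul_pos hu0
    apply lt_max_of_lt_right
    apply lt_min
    · nlinarith [hu.1]
    · nlinarith [hu.2]
  · exact hab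

/-- **Rigidity lemma.** -/
theorem rigidity (hD : ∀ i, Monotone (D i)) (hG : ∀ u v, |G u - G v| ≤ |u - v|)
    {C : ℝ} (hC : ∀ᶠ i in l, ∀ u ≥ 0, |D i u - G u| ≤ C * (1 + u))
    (hg0 : ∀ u, 0 ≤ g u) (hgc : Continuous g) (hg1 : g 0 = 1)
    (hgdecay : ∀ N : ℕ, ∃ K, ∀ u ≥ 0, u ^ N * g u ≤ K)
    {η₀ : ℝ} (hη₀ : 0 < η₀)
    (hii : ∀ n : ℕ, ∀ η ∈ Ioo 0 η₀,
      Tendsto (fun i => ∫ u in Ioi 0, qw g n η u * (D i u - G u)) l (𝓝 0))
    {A : ℝ} (hi : ∀ a ≥ A, ∀ ε > 0, ∀ᶠ i in l, -ε ≤ D i a - G a) :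
    ∀ u > 0, Tendsto (fun i => D i u - G u) l (𝓝 0) := by
  intro u₀ hu₀
  -- enlarge A so that u₀ < A
  set A₁ := max (max A 0) (u₀ + 1) with hA₁
  have hA₁0 : 0 ≤ A₁ := by
    rw [hA₁]; exact le_trans (le_max_right A 0) (le_max_left _ _)
  have hA₁A : A ≤ A₁ := (le_max_left A 0).trans (le_max_left _ _)
  have hA₁u : u₀ + 1 ≤ A₁ := le_max_right _ _
  have hi1 : ∀ a ≥ A₁, ∀ ε > 0, ∀ᶠ i in l, -ε ≤ D i a - G a := fun a ha => hi a (hA₁A.trans ha)
  rw [Metric.tendsto_nhds]
  intro ε hε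
  -- upper bound
  have key : ∀ (a b : ℝ), 0 ≤ a → a < b → b ≤ A₁ + 1 → ∀ c > 0,
      ∀ᶠ i in l, |∫ u in a..b, u * max 0 (min (u ^ 2 - a ^ 2) (b ^ 2 - u ^ 2)) * (D i u - G u)| ≤ c := by
    intro a b ha hab hb c hc
    have h1 := cont_small hD hG hC hg0 hgc hg1 hgdecay hη₀ hii hA₁0 hi1 (δ := 1) one_pos
      (φ := fun v => max 0 (min (v - a ^ 2) (b ^ 2 - v))) (by fun_prop) hc
    filter_upwards [h1, hC] with i h1 hCi
    have hHm : Measurable (fun u => D i u - G u) := (hD i).measurable.sub (meas_of_lip hG)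
    have hHi : ∀ x y : ℝ, 0 ≤ x → x ≤ y → IntervalIntegrable
        (fun u => u * max 0 (min (u ^ 2 - a ^ 2) (b ^ 2 - u ^ 2)) * (D i u - G u)) volume x y := by
      intro x y hx hxy
      have h3 : IntervalIntegrable (fun u => D i u - G u) volume x y := by
        rw [intervalIntegrable_iff_integrableOn_Ioc_of_le hxy]
        refine Integrable.mono' (g := fun u => C * (1 + u)) ?_ hHm.aestronglyMeasurable ?_
        · exact ((Continuous.integrableOn_Icc (by fun_prop)).mono_set Ioc_subset_Icc_self)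
        · filter_upwards [ae_restrict_mem measurableSet_Ioc] with u hu
          exact hCi u (hx.trans (le_of_lt hu.1))
      exact h3.continuousOn_mul (by fun_prop)
    have e : ∫ u in (0:ℝ)..(A₁ + 1), u * max 0 (min (u ^ 2 - a ^ 2) (b ^ 2 - u ^ 2)) * (D i u - G u) =
        ∫ u in a..b, u * max 0 (min (u ^ 2 - a ^ 2) (b ^ 2 - u ^ 2)) * (D i u - G u) := by
      rw [← intervalIntegral.integral_add_adjacent_intervals (b := a) (hHi 0 a le_rfl ha)
        (hHi a (A₁ + 1) ha (by linarith)),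
        ← intervalIntegral.integral_add_adjacent_intervals (b := b) (hHi a b ha hab.le)
        (hHi b (A₁ + 1) (by linarith) hb)]
      have z1 : ∫ u in (0:ℝ)..a, u * max 0 (min (u ^ 2 - a ^ 2) (b ^ 2 - u ^ 2)) * (D i u - G u) = 0 := by
        rw [intervalIntegral.integral_congr (g := fun _ => (0:ℝ))]
        · simp
        · intro u hu
          rw [uIcc_of_le ha] at hu
          have : max 0 (min (u ^ 2 - a ^ 2) (b ^ 2 - u ^ 2)) = 0 := by
            apply max_eq_left
            apply (min_le_left _ _).trans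
            nlinarith [hu.1, hu.2]
          simp only [this]; ring
      have z2 : ∫ u in b..(A₁ + 1), u * max 0 (min (u ^ 2 - a ^ 2) (b ^ 2 - u ^ 2)) * (D i u - G u) = 0 := by
        rw [intervalIntegral.integral_congr (g := fun _ => (0:ℝ))]
        · simp
        · intro u hu
          rw [uIcc_of_le hb] at hu
          have : max 0 (min (u ^ 2 - a ^ 2) (b ^ 2 - u ^ 2)) = 0 := by
            apply max_eq_left
            apply (min_le_right _ _).trans
            nlinarith [hu.1, hu.2]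
          simp only [this]; ring
      rw [z1, z2]; ring
    rw [← e]; exact h1
  -- measurability / integrability helper for lower bounds of the bump integral
  have low : ∀ (a b : ℝ), 0 ≤ a → a < b → ∀ i, (∀ u ≥ 0, |D i u - G u| ≤ C * (1 + u)) → ∀ c : ℝ,
      (∀ u ∈ Icc a b, c ≤ D i u - G u) →
      c * (∫ u in a..b, u * max 0 (min (u ^ 2 - a ^ 2) (b ^ 2 - u ^ 2))) ≤
      ∫ u in a..b, u * max 0 (min (u ^ 2 - a ^ 2) (b ^ 2 - u ^ 2)) * (D i u - G u) := by
    intro a b ha hab i hCi c hc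
    rw [← intervalIntegral.integral_const_mul]
    have hHm : Measurable (fun u => D i u - G u) := (hD i).measurable.sub (meas_of_lip hG)
    apply intervalIntegral.integral_mono_on hab.le
    · apply Continuous.intervalIntegrable; fun_prop
    · have h3 : IntervalIntegrable (fun u => D i u - G u) volume a b := by
        rw [intervalIntegrable_iff_integrableOn_Ioc_of_le hab.le]
        refine Integrable.mono' (g := fun u => C * (1 + u)) ?_ hHm.aestronglyMeasurable ?_
        · exact ((Continuous.integrableOn_Icc (by fun_prop)).mono_set Ioc_subset_Icc_self)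
        · filter_upwards [ae_restrict_mem measurableSet_Ioc] with u hu
          exact hCi u (ha.trans (le_of_lt hu.1))
      exact h3.continuousOn_mul (by fun_prop)
    · intro u hu
      have h1 : 0 ≤ u * max 0 (min (u ^ 2 - a ^ 2) (b ^ 2 - u ^ 2)) :=
        mul_nonneg (ha.trans hu.1) (le_max_left _ _)
      rw [mul_comm c]
      exact mul_le_mul_of_nonneg_left (hc u hu) h1
  have upp : ∀ (a b : ℝ), 0 ≤ a → a < b → ∀ i, (∀ u ≥ 0, |D i u - G u| ≤ C * (1 + u)) → ∀ c : ℝ,
      (∀ u ∈ Icc a b, D i u - G u ≤ c) →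
      ∫ u in a..b, u * max 0 (min (u ^ 2 - a ^ 2) (b ^ 2 - u ^ 2)) * (D i u - G u) ≤
      c * (∫ u in a..b, u * max 0 (min (u ^ 2 - a ^ 2) (b ^ 2 - u ^ 2))) := by
    intro a b ha hab i hCi c hc
    rw [← intervalIntegral.integral_const_mul]
    have hHm : Measurable (fun u => D i u - G u) := (hD i).measurable.sub (meas_of_lip hG)
    apply intervalIntegral.integral_mono_on hab.le
    · have h3 : IntervalIntegrable (fun u => D i u - G u) volume a b := by
        rw [intervalIntegrable_iff_integrableOn_Ioc_of_le hab.le]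
        refine Integrable.mono' (g := fun u => C * (1 + u)) ?_ hHm.aestronglyMeasurable ?_
        · exact ((Continuous.integrableOn_Icc (by fun_prop)).mono_set Ioc_subset_Icc_self)
        · filter_upwards [ae_restrict_mem measurableSet_Ioc] with u hu
          exact hCi u (ha.trans (le_of_lt hu.1))
      exact h3.continuousOn_mul (by fun_prop)
    · apply Continuous.intervalIntegrable; fun_prop
    · intro u hu
      have h1 : 0 ≤ u * max 0 (min (u ^ 2 - a ^ 2) (b ^ 2 - u ^ 2)) :=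
        mul_nonneg (ha.trans hu.1) (le_max_left _ _)
      rw [mul_comm c]
      exact mul_le_mul_of_nonneg_left (hc u hu) h1
  set s := min (ε / 4) (min (u₀ / 2) 1) with hs
  have hs0 : 0 < s := by rw [hs]; positivity
  have hs1 : s ≤ ε / 4 := min_le_left _ _
  have hs2 : s ≤ u₀ / 2 := (min_le_right _ _).trans (min_le_left _ _)
  have hs3 : s ≤ 1 := (min_le_right _ _).trans (min_le_right _ _)
  have b1 := bump_pos (a := u₀) (b := u₀ + s) hu₀.le (by linarith)
  have b2 := bump_pos (a := u₀ - s) (b := u₀) (by linarith) (by linarith)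
  set κ₁ := ∫ u in u₀..(u₀ + s), u * max 0 (min (u ^ 2 - u₀ ^ 2) ((u₀ + s) ^ 2 - u ^ 2)) with hκ₁
  set κ₂ := ∫ u in (u₀ - s)..u₀, u * max 0 (min (u ^ 2 - (u₀ - s) ^ 2) (u₀ ^ 2 - u ^ 2)) with hκ₂
  have k1 := key u₀ (u₀ + s) hu₀.le (by linarith) (by linarith) (κ₁ * (ε / 4)) (by positivity)
  have k2 := key (u₀ - s) u₀ (by linarith) (by linarith) (by linarith) (κ₂ * (ε / 4)) (by positivity)
  filter_upwards [k1, k2, hC] with i k1 k2 hCi
  rw [Real.dist_eq, sub_zero, abs_lt]
  constructor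
  · by_contra hcon
    push Not at hcon
    have h1 : ∀ u ∈ Icc (u₀ - s) u₀, D i u - G u ≤ -(ε / 2) := by
      intro u hu
      have := H_ge_of_le (D := D) (G := G) hD hG i hu.2
      linarith [hu.1]
    have h2 := upp (u₀ - s) u₀ (by linarith) (by linarith) i hCi _ h1
    have h3 := neg_le_of_abs_le k2
    nlinarith
  · by_contra hcon
    push Not at hcon
    have h1 : ∀ u ∈ Icc u₀ (u₀ + s), ε / 2 ≤ D i u - G u := by
      intro u hu
      have := H_ge_of_le (D := D) (G := G) hD hG i hu.1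
      linarith [hu.2]
    have h2 := low u₀ (u₀ + s) hu₀.le (by linarith) i hCi _ h1
    have h3 := le_of_abs_le k1
    nlinarith

end Rigidity

end Pool.Agent.PairCorr
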