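import Mathlib
import Pool.Agent.PairCorr.C_Kernel

set_option autoImplicit false

namespace Pool.Agent.PairCorr

open MeasureTheory Filter Topology Set Real
open scoped FourierTransform

/-- rapidly decreasing functions -/
def RapidDecay (f : ℝ → ℝ) : Prop := ∀ N : ℕ, ∃ K : ℝ, 0 ≤ K ∧ ∀ u : ℝ, |f u| ≤ K * ((1 + |u|) ^ N)⁻¹

lemma integrable_inv_sq : Integrable (fun t : ℝ => ((1 + |t|) ^ 2)⁻¹) := by
  refine Integrable.mono' integrable_inv_one_add_sq ?_ (Eventually.of_forall fun t => ?_)
  · exact Measurable.aestronglyMeasurable (by fun_prop)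
  · rw [Real.norm_of_nonneg (by positivity)]
    apply inv_anti₀ (by positivity)
    have := abs_nonneg t
    have h2 : t ^ 2 = |t| ^ 2 := (sq_abs t).symm
    rw [h2]; nlinarith

lemma RapidDecay.integrable_mul {f : ℝ → ℝ} (h : RapidDecay f) (hc : Continuous f) (n : ℕ) :
    Integrable (fun u => |u| ^ n * |f u|) := by
  obtain ⟨K, hK, hb⟩ := h (n + 2)
  refine Integrable.mono' (integrable_inv_sq.const_mul K) ?_ (Eventually.of_forall fun u => ?_)
  · exact (Continuous.aestronglyMeasurable (by fun_prop))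
  · rw [Real.norm_of_nonneg (by positivity)]
    have h1 := hb u
    have hu := abs_nonneg u
    calc |u| ^ n * |f u| ≤ (1 + |u|) ^ n * (K * ((1 + |u|) ^ (n + 2))⁻¹) := by
          apply mul_le_mul _ h1 (abs_nonneg _) (by positivity)
          apply pow_le_pow_left₀ hu; linarith
      _ = K * ((1 + |u|) ^ 2)⁻¹ := by
          rw [pow_add]; field_simp

lemma RapidDecay.integrable {f : ℝ → ℝ} (h : RapidDecay f) (hc : Continuous f) : Integrable f := by
  have := h.integrable_mul hc 0
  simp only [pow_zero, one_mul] at this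
  exact (integrable_norm_iff hc.aestronglyMeasurable).1 this

/-- the tail integral -/
noncomputable def tailF (q : ℝ → ℝ) (u : ℝ) : ℝ := ∫ s in Ioi u, q s

lemma tailF_hasDerivAt {q : ℝ → ℝ} (hqc : Continuous q) (hqi : Integrable q) (u : ℝ) :
    HasDerivAt (tailF q) (-q u) u := by
  have e : ∀ x, tailF q x = (∫ s, q s) - ((∫ s in Iic 0, q s) + ∫ s in (0:ℝ)..x, q s) := by
    intro x
    unfold tailF
    have h1 := intervalIntegral.integral_Iic_add_Ioi (μ := volume) (b := x) hqi.integrableOn hqi.integrableOn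
    have h2 := intervalIntegral.integral_Iic_sub_Iic (μ := volume) (f := q) (a := 0) (b := x)
      hqi.integrableOn hqi.integrableOn
    linarith
  have h3 : HasDerivAt (fun x => (∫ s, q s) - ((∫ s in Iic 0, q s) + ∫ s in (0:ℝ)..x, q s)) (-q u) u := by
    apply HasDerivAt.const_sub
    apply HasDerivAt.const_add
    exact intervalIntegral.integral_hasDerivAt_right (hqc.intervalIntegrable _ _)
      (hqc.stronglyMeasurableAtFilter _ _) hqc.continuousAt
  exact h3.congr_of_eventuallyEq (Eventually.of_forall e)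

lemma tailF_even {q : ℝ → ℝ} (hqc : Continuous q) (hqi : Integrable q) (hodd : ∀ u, q (-u) = -q u)
    (u : ℝ) : tailF q (-u) = tailF q u := by
  have hd : ∀ x, HasDerivAt (fun x => tailF q (-x) - tailF q x) 0 x := by
    intro x
    have h1 := (tailF_hasDerivAt hqc hqi (-x)).comp x (hasDerivAt_neg x)
    have h2 := h1.sub (tailF_hasDerivAt hqc hqi x)
    refine h2.congr_deriv ?_
    rw [hodd]; ring
  have hconst := is_const_of_deriv_eq_zero (f := fun x => tailF q (-x) - tailF q x)
    (fun x => (hd x).differentiableAt) (fun x => (hd x).deriv) u 0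
  simp at hconst
  linarith

lemma tailF_decay {q : ℝ → ℝ} (hqc : Continuous q) (h : RapidDecay q) (hodd : ∀ u, q (-u) = -q u) :
    RapidDecay (tailF q) := by
  have hqi := h.integrable hqc
  intro N
  obtain ⟨K, hK, hb⟩ := h (N + 2)
  refine ⟨K * ∫ t : ℝ, ((1 + |t|) ^ 2)⁻¹, ?_, ?_⟩
  · have : 0 ≤ ∫ t : ℝ, ((1 + |t|) ^ 2)⁻¹ := integral_nonneg fun _ => by positivity
    positivity
  have hpos : ∀ u : ℝ, 0 ≤ u → |tailF q u| ≤ (K * ∫ t : ℝ, ((1 + |t|) ^ 2)⁻¹) * ((1 + |u|) ^ N)⁻¹ := by
    intro u hu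
    unfold tailF
    have h1 : ‖∫ s in Ioi u, q s‖ ≤ ∫ s in Ioi u, (K * ((1 + |u|) ^ N)⁻¹) * ((1 + |s|) ^ 2)⁻¹ := by
      apply norm_integral_le_of_norm_le (integrable_inv_sq.const_mul _).integrableOn
      filter_upwards [ae_restrict_mem measurableSet_Ioi] with s hs
      have hs' : u < s := hs
      refine (hb s).trans ?_
      rw [mul_assoc]
      apply mul_le_mul_of_nonneg_left _ hK
      rw [pow_add, mul_inv]
      apply mul_le_mul_of_nonneg_right _ (by positivity)
      apply inv_anti₀ (by positivity)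
      apply pow_le_pow_left₀ (by positivity)
      rw [abs_of_nonneg hu, abs_of_nonneg (hu.trans hs'.le)]
      linarith
    rw [integral_const_mul] at h1
    refine h1.trans ?_
    have h2 : ∫ s in Ioi u, ((1 + |s|) ^ 2)⁻¹ ≤ ∫ t : ℝ, ((1 + |t|) ^ 2)⁻¹ :=
      setIntegral_le_integral integrable_inv_sq (Eventually.of_forall fun _ => by positivity)
    calc K * ((1 + |u|) ^ N)⁻¹ * ∫ s in Ioi u, ((1 + |s|) ^ 2)⁻¹ ≤
        K * ((1 + |u|) ^ N)⁻¹ * ∫ t : ℝ, ((1 + |t|) ^ 2)⁻¹ := mul_le_mul_of_nonneg_left h2 (by positivity)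
      _ = _ := by ring
  intro u
  rcases le_total 0 u with hu | hu
  · exact hpos u hu
  · have := hpos (-u) (by linarith)
    rwa [tailF_even hqc hqi hodd, abs_neg] at this

/-- A rapidly decreasing odd band-limited `q` has a band-limited even primitive. -/
theorem exists_test {q : ℝ → ℝ} {b : ℝ} (hb : 0 ≤ b) (hqc : Continuous q) (h : RapidDecay q)
    (hodd : ∀ u, q (-u) = -q u)
    (hband : ∀ ξ : ℝ, b < |ξ| → 𝓕 (fun u : ℝ => (q u : ℂ)) ξ = 0) :
    ∃ χ : ℝ → ℝ, TF χ b ∧ (∀ v, χ (-v) = χ v) ∧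
      ∀ u : ℝ, Kc χ ((2 * π * u : ℝ) * Complex.I) = (tailF q u : ℂ) := by
  have hqi := h.integrable hqc
  have hFd := tailF_decay hqc h hodd
  have hFhas := tailF_hasDerivAt hqc hqi
  have hFc : Continuous (tailF q) := continuous_iff_continuousAt.2 fun x => (hFhas x).continuousAt
  set Fc : ℝ → ℂ := fun u => (tailF q u : ℂ) with hFcdef
  have hFcc : Continuous Fc := Complex.continuous_ofReal.comp hFc
  have hFi : Integrable Fc := (hFd.integrable hFc).ofReal
  have hFcd : ∀ u, HasDerivAt Fc ((-q u : ℝ) : ℂ) u := fun u => (hFhas u).ofReal_comp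
  have hderiv : deriv Fc = fun u => ((-q u : ℝ) : ℂ) := by
    funext u; exact (hFcd u).deriv
  -- smoothness of the transform
  have hsm : ContDiff ℝ (⊤ : ℕ∞) (𝓕 Fc) := by
    apply Real.contDiff_fourier
    intro n _
    have := hFd.integrable_mul hFc n
    refine this.congr (Eventually.of_forall fun u => ?_)
    simp [hFcdef]
  -- support of the transform
  have hFsupp : ∀ ξ : ℝ, b < |ξ| → 𝓕 Fc ξ = 0 := by
    intro ξ hξ
    have h1 := Real.fourier_deriv hFi (fun u => (hFcd u).differentiableAt) (by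
      rw [hderiv]; exact (hqi.neg).ofReal)
    have h2 := congrFun h1 ξ
    rw [hderiv] at h2
    have h3 : 𝓕 (fun u : ℝ => ((-q u : ℝ) : ℂ)) ξ = 0 := by
      have : (fun u : ℝ => ((-q u : ℝ) : ℂ)) = fun u => -((q u : ℝ) : ℂ) := by
        funext u; push_cast; ring
      rw [this]
      have h4 : 𝓕 (fun u : ℝ => -((q u : ℝ) : ℂ)) ξ = - 𝓕 (fun u : ℝ => (q u : ℂ)) ξ := by
        rw [fourier_real_eq_integral_exp_smul, fourier_real_eq_integral_exp_smul, ← integral_neg]
        congr 1
        ext v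
        simp
      rw [h4, hband ξ hξ, neg_zero]
    rw [h3] at h2
    have hξ0 : ξ ≠ 0 := by
      intro h0; rw [h0, abs_zero] at hξ; linarith
    have h5 : (2 * π * Complex.I * ξ : ℂ) ≠ 0 := by
      simp [Real.pi_ne_zero, hξ0]
    exact (smul_eq_zero.1 h2.symm).resolve_left h5
  -- evenness of the transform
  have hFeven : ∀ ξ : ℝ, 𝓕 Fc (-ξ) = 𝓕 Fc ξ := by
    intro ξ
    rw [fourier_real_eq_integral_exp_smul, fourier_real_eq_integral_exp_smul, ← integral_neg_eq_self]
    congr 1
    ext v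
    simp only [hFcdef]
    rw [tailF_even hqc hqi hodd]
    congr 3
    push_cast; ring
  -- reality
  have hFreal : ∀ ξ : ℝ, ((𝓕 Fc ξ).re : ℂ) = 𝓕 Fc ξ := by
    intro ξ
    apply Complex.conj_eq_iff_re.1
    have hcj : (starRingEnd ℂ) (𝓕 Fc ξ) = 𝓕 Fc (-ξ) := by
      rw [fourier_real_eq_integral_exp_smul, fourier_real_eq_integral_exp_smul, ← integral_conj]
      congr 1
      ext v
      simp only [smul_eq_mul, map_mul, hFcdef, Complex.conj_ofReal]
      rw [← Complex.exp_conj]
      congr 2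
      simp only [map_mul, Complex.conj_ofReal, Complex.conj_I]
      push_cast; ring
    rw [hcj, hFeven]
  set χ : ℝ → ℝ := fun v => (𝓕 Fc v).re with hχ
  have hTF : TF χ b := by
    refine ⟨?_, ?_⟩
    · exact Complex.reCLM.contDiff.comp hsm
    · intro v hv
      simp only [hχ]
      rw [hFsupp v hv]; simp
  refine ⟨χ, hTF, ?_, ?_⟩
  · intro v
    simp only [hχ]
    rw [hFeven]
  · intro u
    have hFFi : Integrable (𝓕 Fc) := by
      have h1 : Integrable (fun v => (χ v : ℂ)) := hTF.integrable.ofReal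
      refine h1.congr (Eventually.of_forall fun v => ?_)
      exact hFreal v
    have hinv := congrFun (hFcc.fourierInv_fourier_eq hFi hFFi) u
    rw [Real.fourierInv_eq'] at hinv
    have : (tailF q u : ℂ) = Fc u := rfl
    rw [this, ← hinv]
    unfold Kc
    congr 1
    ext v
    rw [← hFreal v, smul_eq_mul, mul_comm]
    congr 2
    simp only [RCLike.inner_apply, conj_trivial]
    push_cast; ring

end Pool.Agent.PairCorr
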