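import Mathlib
import Pool.Agent.PairCorr.T_Test
import Pool.Agent.PairCorr.S_Parseval
import Pool.Agent.PairCorr.F_Rigidity

set_option autoImplicit false

namespace Pool.Agent.PairCorr

open MeasureTheory Filter Topology Set Real
open scoped FourierTransform

lemma TF_iter {φ : ℝ → ℝ} {b : ℝ} (h : TF φ b) (m : ℕ) : TF (deriv^[m] φ) b ∧
    ∀ w : ℂ, w ^ m * Kc φ w = (-1) ^ m * Kc (deriv^[m] φ) w := by
  induction m generalizing φ with
  | zero => exact ⟨h, fun w => by simp⟩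
  | succ m ih =>
    obtain ⟨h1, h2⟩ := ih h.deriv
    refine ⟨h1, fun w => ?_⟩
    rw [Function.iterate_succ_apply, pow_succ, mul_assoc, h.mul_Kc, pow_succ]
    have := h2 w
    linear_combination -this

lemma TF.shift {φ : ℝ → ℝ} {b : ℝ} (h : TF φ b) (ξ : ℝ) : TF (fun v => φ (v + ξ)) (b + |ξ|) where
  smooth := h.smooth.comp (by fun_prop)
  supp := by
    intro v hv
    apply h.supp
    have := abs_sub_abs_le_abs_sub v (-ξ)
    rw [abs_neg, sub_neg_eq_add] at this
    linarith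

/-- the Fourier transform of a product of two kernels on the imaginary axis -/
lemma fourier_mul_kernels {ψ1 ψ2 : ℝ → ℝ} {b1 b2 : ℝ} (h1 : TF ψ1 b1) (h2 : TF ψ2 b2) (ξ : ℝ) :
    𝓕 (fun u : ℝ => Kc ψ1 ((2 * π * u : ℝ) * Complex.I) * Kc ψ2 ((2 * π * u : ℝ) * Complex.I)) ξ =
      ∫ v : ℝ, ((ψ1 v * ψ2 (ξ - v) : ℝ) : ℂ) := by
  have hp := parseval0 h1 (h2.shift ξ) 0 0
  rw [fourier_real_eq_integral_exp_smul]
  have hs := Measure.integral_comp_mul_left (fun s : ℝ => Kc ψ1 (((0:ℝ):ℂ) + s * Complex.I) *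
    Kc (fun v => ψ2 (v + ξ)) (0 + s * Complex.I)) (2 * π)
  rw [hp] at hs
  have e : ∀ u : ℝ, Complex.exp (((-2 * π * u * ξ : ℝ) : ℂ) * Complex.I) •
      (Kc ψ1 ((2 * π * u : ℝ) * Complex.I) * Kc ψ2 ((2 * π * u : ℝ) * Complex.I)) =
      Kc ψ1 (((0:ℝ):ℂ) + ((2 * π * u : ℝ) : ℂ) * Complex.I) *
        Kc (fun v => ψ2 (v + ξ)) (0 + ((2 * π * u : ℝ) : ℂ) * Complex.I) := by
    intro u
    have e1 : Kc (fun v => ψ2 (v + ξ)) (0 + ((2 * π * u : ℝ) : ℂ) * Complex.I) =
        Complex.exp (((-2 * π * u * ξ : ℝ) : ℂ) * Complex.I) * Kc ψ2 ((2 * π * u : ℝ) * Complex.I) := by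
      unfold Kc
      rw [← integral_const_mul, ← integral_add_right_eq_self (fun v : ℝ =>
        Complex.exp (((-2 * π * u * ξ : ℝ) : ℂ) * Complex.I) *
          ((ψ2 v : ℂ) * Complex.exp (v * (((2 * π * u : ℝ) : ℂ) * Complex.I)))) ξ]
      congr 1
      ext v
      have : Complex.exp ((v : ℂ) * (0 + ((2 * π * u : ℝ) : ℂ) * Complex.I)) =
          Complex.exp (((-2 * π * u * ξ : ℝ) : ℂ) * Complex.I) *
            Complex.exp (((v + ξ : ℝ) : ℂ) * (((2 * π * u : ℝ) : ℂ) * Complex.I)) := by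
        rw [← Complex.exp_add]; congr 1; push_cast; ring
      rw [this]; ring
    rw [e1, smul_eq_mul]
    simp only [Complex.ofReal_zero, zero_add]
    ring
  simp_rw [e]
  rw [hs]
  have hpi := Real.pi_pos
  rw [abs_of_pos (by positivity : 0 < (2 * π)⁻¹), Complex.real_smul]
  have hpi' : (π : ℂ) ≠ 0 := by exact_mod_cast hpi.ne'
  have e2 : Kc (fun v => ψ1 v * ψ2 (-v + ξ)) (((0:ℝ):ℂ) - 0) = ∫ v : ℝ, ((ψ1 v * ψ2 (ξ - v) : ℝ) : ℂ) := by
    unfold Kc
    congr 1
    ext v
    have : -v + ξ = ξ - v := by ring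
    beta_reduce
    rw [this]; simp
  rw [e2]
  push_cast
  field_simp

/-- an even nonnegative test function with total mass one -/
lemma exists_phi {r : ℝ} (hr : 0 < r) : ∃ φ : ℝ → ℝ, TF φ r ∧ (∀ v, φ (-v) = φ v) ∧ ∫ v, φ v = 1 := by
  set β : ℝ → ℝ := fun v => Real.smoothTransition (r ^ 2 - v ^ 2) with hβ
  have hβTF : TF β r := by
    refine ⟨Real.smoothTransition.contDiff.comp (by fun_prop), fun v hv => ?_⟩
    simp only [hβ]
    apply Real.smoothTransition.zero_of_nonpos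
    have : r ^ 2 < v ^ 2 := by
      rw [← sq_abs v]
      exact pow_lt_pow_left₀ hv hr.le (by norm_num)
    linarith
  have hpos : 0 < ∫ v, β v := by
    apply Continuous.integral_pos_of_hasCompactSupport_nonneg_nonzero hβTF.cont hβTF.hasCompactSupport (x := 0)
    · intro v
      exact Real.smoothTransition.nonneg _
    · have h1 : 0 < Real.smoothTransition (r ^ 2 - 0 ^ 2) := Real.smoothTransition.pos_of_pos (by
        have := pow_pos hr 2
        simpa using this)
      simp only [hβ]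
      exact h1.ne'
  refine ⟨fun v => (∫ v, β v)⁻¹ * β v, ?_, ?_, ?_⟩
  · exact ⟨contDiff_const.mul hβTF.smooth, fun v hv => by rw [hβTF.supp v hv, mul_zero]⟩
  · intro v
    have : β (-v) = β v := by simp only [hβ]; rw [neg_sq]
    beta_reduce
    rw [this]
  · rw [integral_const_mul, inv_mul_cancel₀ hpos.ne']

lemma Kc_even_real {φ : ℝ → ℝ} {r : ℝ} (h : TF φ r) (heven : ∀ v, φ (-v) = φ v) (y : ℝ) :
    Kc φ (y * Complex.I) = ((∫ v, φ v * Real.cos (v * y) : ℝ) : ℂ) := by
  have h1 := h.integrable_exp (y * Complex.I)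
  have hcos : Integrable (fun v => φ v * Real.cos (v * y)) := by
    refine h.integrable.mul_bdd (c := 1) (Continuous.aestronglyMeasurable (by fun_prop)) ?_
    exact Eventually.of_forall fun v => Real.abs_cos_le_one _
  have h2 : Kc φ (y * Complex.I) = Kc φ (-(y * Complex.I)) := by
    rw [← Kc_reflect]
    congr 1
    funext v
    exact (heven v).symm
  have h3 : Kc φ (y * Complex.I) = (Kc φ (y * Complex.I) + Kc φ (-(y * Complex.I))) / 2 := by
    rw [← h2]; ring
  rw [h3, ← integral_complex_ofReal]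
  unfold Kc
  rw [← integral_add h1 (h.integrable_exp _), ← integral_div]
  congr 1
  ext v
  have e : ((Real.cos (v * y) : ℝ) : ℂ) = (Complex.exp (v * (y * Complex.I)) +
      Complex.exp (v * (-(y * Complex.I)))) / 2 := by
    rw [Complex.ofReal_cos, Complex.cos]
    push_cast
    ring_nf
  rw [Complex.ofReal_mul, e]
  ring

theorem exists_g {b : ℝ} (hb : 0 < b) : ∃ g : ℝ → ℝ, (∀ u, 0 ≤ g u) ∧ Continuous g ∧ g 0 = 1 ∧
    (∀ u, g (-u) = g u) ∧ (∀ N : ℕ, ∃ K, ∀ u ≥ 0, u ^ N * g u ≤ K) ∧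
    (∀ n : ℕ, ∀ η : ℝ, 0 < η → η ≤ 1 → RapidDecay (qw g n η) ∧
      ∃ χ : ℝ → ℝ, TF χ b ∧ (∀ v, χ (-v) = χ v) ∧
        ∀ u : ℝ, Kc χ ((2 * π * u : ℝ) * Complex.I) = (tailF (qw g n η) u : ℂ)) := by
  obtain ⟨φ, hφ, hφe, hφ1⟩ := exists_phi (r := b / 2) (by linarith)
  set h : ℝ → ℝ := fun u => ∫ v, φ v * Real.cos (v * (2 * π * u)) with hh
  have hK : ∀ u, Kc φ ((2 * π * u : ℝ) * Complex.I) = (h u : ℂ) := fun u => Kc_even_real hφ hφe _
  have hhc : Continuous h := by
    have h1 : Continuous (fun u : ℝ => Kc φ ((2 * π * u : ℝ) * Complex.I)) :=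
      hφ.differentiable_Kc.continuous.comp (by fun_prop)
    have h2 : h = fun u => (Kc φ ((2 * π * u : ℝ) * Complex.I)).re := by
      funext u; rw [hK u]; simp
    rw [h2]
    exact Complex.continuous_re.comp h1
  have hhe : ∀ u, h (-u) = h u := by
    intro u
    simp only [hh]
    congr 1
    ext v
    rw [show v * (2 * π * -u) = -(v * (2 * π * u)) by ring, Real.cos_neg]
  have hh0 : h 0 = 1 := by
    simp only [hh]
    simp [hφ1]
  have hhd : ∀ N : ℕ, ∃ C : ℝ, 0 ≤ C ∧ ∀ u : ℝ, |h u| ≤ C * ((1 + |u|) ^ N)⁻¹ := by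
    intro N
    obtain ⟨C, hC, hCb⟩ := hφ.decay_one_add N
    refine ⟨C, hC, fun u => ?_⟩
    have h1 := hCb ((2 * π * u : ℝ) * Complex.I)
    rw [hK u, Complex.norm_real, Real.norm_eq_abs] at h1
    have hre : ((2 * π * u : ℝ) * Complex.I : ℂ).re = 0 := by simp
    rw [hre, abs_zero, mul_zero, Real.exp_zero, mul_one] at h1
    rw [← div_eq_mul_inv, le_div_iff₀ (by positivity), mul_comm]
    refine le_trans ?_ h1
    apply mul_le_mul_of_nonneg_right _ (abs_nonneg _)
    apply pow_le_pow_left₀ (by positivity)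
    rw [norm_mul, Complex.norm_real, Complex.norm_I, mul_one, Real.norm_eq_abs, abs_mul, abs_mul]
    have : (1:ℝ) ≤ |2| * |π| := by
      rw [abs_of_pos Real.pi_pos]
      have := Real.pi_gt_three
      norm_num
      linarith
    nlinarith [abs_nonneg u]
  set g : ℝ → ℝ := fun u => h u ^ 2 with hg
  have hge : ∀ u, g (-u) = g u := fun u => by simp only [hg]; rw [hhe]
  refine ⟨g, fun u => sq_nonneg _, hhc.pow 2, by simp [hg, hh0], hge, ?_, ?_⟩
  · intro N
    obtain ⟨C, hC, hb1⟩ := hhd N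
    obtain ⟨C', hC', hb2⟩ := hhd 0
    refine ⟨C * C', fun u hu => ?_⟩
    have a1 := hb1 u
    have a2 := hb2 u
    simp only [pow_zero, inv_one, mul_one] at a2
    have e : u ^ N * g u = (u ^ N * |h u|) * |h u| := by
      simp only [hg]
      rw [← sq_abs (h u)]; ring
    rw [e]
    apply mul_le_mul _ a2 (abs_nonneg _) hC
    rw [abs_of_nonneg hu] at a1
    calc u ^ N * |h u| ≤ (1 + u) ^ N * (C * ((1 + u) ^ N)⁻¹) := by
          apply mul_le_mul _ a1 (abs_nonneg _) (by positivity)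
          apply pow_le_pow_left₀ hu; linarith
      _ = C := by field_simp
  · intro n η hη hη1
    have hqc : Continuous (qw g n η) := qw_cont (hhc.pow 2) n η
    have hrd : RapidDecay (qw g n η) := by
      intro N
      obtain ⟨C, hC, hb1⟩ := hhd (N + (2 * n + 1))
      obtain ⟨C', hC', hb2⟩ := hhd 0
      refine ⟨C * C' * (η ^ (N + (2 * n + 1)))⁻¹, by positivity, fun u => ?_⟩
      have a1 := hb1 (η * u)
      have a2 := hb2 (η * u)
      simp only [pow_zero, inv_one, mul_one] at a2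
      have hu := abs_nonneg u
      have a3 : ((1 + |η * u|) ^ (N + (2 * n + 1)))⁻¹ ≤
          (η ^ (N + (2 * n + 1)))⁻¹ * ((1 + |u|) ^ (N + (2 * n + 1)))⁻¹ := by
        rw [← mul_inv, ← mul_pow]
        apply inv_anti₀ (by positivity)
        apply pow_le_pow_left₀ (by positivity)
        rw [abs_mul, abs_of_pos hη]
        nlinarith
      have e : |qw g n η u| = |u| ^ (2 * n + 1) * (|h (η * u)| * |h (η * u)|) := by
        unfold qw
        simp only [hg]
        rw [abs_mul, abs_pow, abs_pow]; ring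
      rw [e]
      calc |u| ^ (2 * n + 1) * (|h (η * u)| * |h (η * u)|)
          ≤ (1 + |u|) ^ (2 * n + 1) * ((C * ((η ^ (N + (2 * n + 1)))⁻¹ *
            ((1 + |u|) ^ (N + (2 * n + 1)))⁻¹)) * C') := by
            apply mul_le_mul _ _ (by positivity) (by positivity)
            · apply pow_le_pow_left₀ hu; linarith
            · apply mul_le_mul _ a2 (abs_nonneg _) (by positivity)
              exact a1.trans (mul_le_mul_of_nonneg_left a3 hC)
        _ = C * C' * (η ^ (N + (2 * n + 1)))⁻¹ * ((1 + |u|) ^ N)⁻¹ := by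
            rw [pow_add (1 + |u|) N (2 * n + 1)]
            field_simp
    refine ⟨hrd, ?_⟩
    have hodd : ∀ u, qw g n η (-u) = - qw g n η u := by
      intro u
      unfold qw
      rw [show η * -u = -(η * u) by ring, hge, Odd.neg_pow (by exact odd_two_mul_add_one n)]
      ring
    apply exists_test hb.le hqc hrd hodd
    intro ξ hξ
    -- band limitation
    have hφη := hφ.scale hη
    set φη : ℝ → ℝ := fun v => φ (v / η) / η with hφηdef
    have hφη' : TF φη (b / 2) := hφη.mono (by nlinarith)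
    obtain ⟨k1, k2⟩ := TF_iter hφη' (2 * n + 1)
    have hKη : ∀ u : ℝ, Kc φη ((2 * π * u : ℝ) * Complex.I) = (h (η * u) : ℂ) := by
      intro u
      rw [hφηdef, Kc_scale φ hη, ← hK]
      congr 1
      push_cast; ring
    have hfun : (fun u : ℝ => (qw g n η u : ℂ)) = fun u : ℝ => ((-1) ^ (2 * n + 1) * ((2 * π * Complex.I) ^ (2 * n + 1))⁻¹ : ℂ) •
        (Kc (deriv^[2 * n + 1] φη) ((2 * π * u : ℝ) * Complex.I) * Kc φη ((2 * π * u : ℝ) * Complex.I)) := by
      funext u
      have h4 := k2 ((2 * π * u : ℝ) * Complex.I)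
      rw [hKη] at h4 ⊢
      have h5 : Kc (deriv^[2 * n + 1] φη) ((2 * π * u : ℝ) * Complex.I) =
          (-1) ^ (2 * n + 1) * (((2 * π * u : ℝ) * Complex.I) ^ (2 * n + 1) * (h (η * u) : ℂ)) := by
        rw [h4, ← mul_assoc, ← mul_pow]; simp
      rw [h5, smul_eq_mul]
      have h6 : (2 * π * Complex.I : ℂ) ^ (2 * n + 1) ≠ 0 := by
        apply pow_ne_zero
        simp [Real.pi_ne_zero]
      unfold qw
      simp only [hg]
      have h7 : (((2 * π * u : ℝ) : ℂ) * Complex.I) ^ (2 * n + 1) = (2 * π * Complex.I) ^ (2 * n + 1) * (u : ℂ) ^ (2 * n + 1) := by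
        rw [← mul_pow]; congr 1; push_cast; ring
      rw [h7]
      have h8 : ((-1 : ℂ) ^ (2 * n + 1)) * (-1) ^ (2 * n + 1) = 1 := by rw [← mul_pow]; simp
      push_cast
      field_simp
      linear_combination (-(u : ℂ) ^ (2 * n + 1) * (h (η * u) : ℂ) ^ 2) * h8
    rw [hfun]
    have hlin : 𝓕 (fun u : ℝ => ((-1) ^ (2 * n + 1) * ((2 * π * Complex.I) ^ (2 * n + 1))⁻¹ : ℂ) •
        (Kc (deriv^[2 * n + 1] φη) ((2 * π * u : ℝ) * Complex.I) * Kc φη ((2 * π * u : ℝ) * Complex.I))) ξ =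
        ((-1) ^ (2 * n + 1) * ((2 * π * Complex.I) ^ (2 * n + 1))⁻¹ : ℂ) •
        𝓕 (fun u : ℝ => (Kc (deriv^[2 * n + 1] φη) ((2 * π * u : ℝ) * Complex.I) *
          Kc φη ((2 * π * u : ℝ) * Complex.I))) ξ := by
      rw [fourier_real_eq_integral_exp_smul, fourier_real_eq_integral_exp_smul, ← integral_smul]
      congr 1
      ext v
      rw [smul_comm]
    rw [hlin, fourier_mul_kernels k1 hφη']
    have hz : ∀ v : ℝ, ((deriv^[2 * n + 1] φη) v * φη (ξ - v) : ℝ) = 0 := by
      intro v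
      by_cases hv : b / 2 < |v|
      · rw [k1.supp v hv, zero_mul]
      · push Not at hv
        have : b / 2 < |ξ - v| := by
          have := abs_sub_abs_le_abs_sub ξ v
          linarith
        rw [hφη'.supp _ this, mul_zero]
    simp_rw [hz]
    simp

end Pool.Agent.PairCorr
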