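import Mathlib
import Pool.Agent.PairCorr.Defs
import Pool.Agent.PairCorr.T_Family

set_option autoImplicit false

namespace Pool.Agent.PairCorr

open MeasureTheory Filter Topology Set Real
open scoped FourierTransform

/-- `(sin πu / πu)^2` -/
noncomputable def sinc2 (u : ℝ) : ℝ := (Real.sin (π * u) / (π * u)) ^ 2

lemma sinc2_nonneg (u : ℝ) : 0 ≤ sinc2 u := sq_nonneg _

lemma sinc2_le_one (u : ℝ) : sinc2 u ≤ 1 := by
  unfold sinc2
  rw [sq_le_one_iff_abs_le_one, abs_div]
  apply div_le_one_of_le₀ _ (abs_nonneg _)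
  exact Real.abs_sin_le_abs

lemma sinc2_meas : Measurable sinc2 := by unfold sinc2; fun_prop

lemma sinc2_contAt {u : ℝ} (hu : u ≠ 0) : ContinuousAt sinc2 u := by
  unfold sinc2
  apply ContinuousAt.pow
  apply ContinuousAt.div (by fun_prop) (by fun_prop)
  exact mul_ne_zero Real.pi_ne_zero hu

lemma one_sub_sinc2_intervalIntegrable (a b : ℝ) : IntervalIntegrable (fun u => 1 - sinc2 u) volume a b := by
  rw [intervalIntegrable_iff]
  apply Measure.integrableOn_of_bounded (M := 1) (by simp)
  · exact (measurable_const.sub sinc2_meas).aestronglyMeasurable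
  · refine Eventually.of_forall fun u => ?_
    rw [Real.norm_eq_abs, abs_le]
    constructor <;> linarith [sinc2_nonneg u, sinc2_le_one u]

lemma gue_eq (a : ℝ) : gue a = ∫ u in (0:ℝ)..a, (1 - sinc2 u) := rfl

lemma gue_hasDerivAt {u : ℝ} (hu : u ≠ 0) : HasDerivAt gue (1 - sinc2 u) u := by
  have : gue = fun a => ∫ u in (0:ℝ)..a, (1 - sinc2 u) := by funext a; exact gue_eq a
  rw [this]
  apply intervalIntegral.integral_hasDerivAt_right (one_sub_sinc2_intervalIntegrable _ _)
  · exact ⟨univ, univ_mem, (measurable_const.sub sinc2_meas).aestronglyMeasurable⟩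
  · exact continuousAt_const.sub (sinc2_contAt hu)

lemma gue_lipschitz (u v : ℝ) : |gue u - gue v| ≤ |u - v| := by
  rw [gue_eq, gue_eq, intervalIntegral.integral_interval_sub_left (one_sub_sinc2_intervalIntegrable _ _)
    (one_sub_sinc2_intervalIntegrable _ _)]
  have := intervalIntegral.norm_integral_le_of_norm_le_const (a := v) (b := u) (C := 1)
    (f := fun u => 1 - sinc2 u) (fun x _ => by
      rw [Real.norm_eq_abs, abs_le]
      constructor <;> linarith [sinc2_nonneg x, sinc2_le_one x])
  simpa using this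

lemma gue_zero : gue 0 = 0 := by rw [gue_eq]; simp

lemma gue_nonneg {u : ℝ} (hu : 0 ≤ u) : 0 ≤ gue u := by
  rw [gue_eq]
  apply intervalIntegral.integral_nonneg hu
  intro x _
  linarith [sinc2_le_one x]

lemma gue_le {u : ℝ} (hu : 0 ≤ u) : gue u ≤ u := by
  have := gue_lipschitz u 0
  rw [gue_zero, sub_zero, sub_zero, abs_of_nonneg hu] at this
  exact (le_abs_self _).trans this

lemma gue_continuous : Continuous gue := by
  rw [Metric.continuous_iff]
  intro x ε hε
  refine ⟨ε, hε, fun y hy => ?_⟩
  rw [Real.dist_eq] at hy ⊢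
  exact (gue_lipschitz y x).trans_lt hy

/-- the triangle function -/
noncomputable def tri (v : ℝ) : ℝ := max 0 (1 - |v|)

lemma tri_cont : Continuous tri := by unfold tri; fun_prop

lemma tri_supp {v : ℝ} (hv : 1 ≤ |v|) : tri v = 0 := by
  unfold tri; rw [max_eq_left]; linarith

lemma tri_eq {v : ℝ} (hv : |v| ≤ 1) : tri v = 1 - |v| := by
  unfold tri; rw [max_eq_right]; linarith

lemma tri_compact : HasCompactSupport tri := by
  apply HasCompactSupport.intro (isCompact_Icc (a := (-1:ℝ)) (b := 1))
  intro x hx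
  apply tri_supp
  by_contra hc
  push Not at hc
  exact hx ⟨by linarith [(abs_lt.1 hc).1], by linarith [(abs_lt.1 hc).2]⟩

lemma tri_integrable : Integrable tri := tri_cont.integrable_of_hasCompactSupport tri_compact

lemma tri_even (v : ℝ) : tri (-v) = tri v := by unfold tri; rw [abs_neg]

/-- the Fourier transform of the triangle -/
lemma tri_cos {u : ℝ} (hu : u ≠ 0) : ∫ v, tri v * Real.cos (2 * π * u * v) = sinc2 u := by
  set c : ℝ := 2 * π * u with hc
  have hc0 : c ≠ 0 := by
    rw [hc]; exact mul_ne_zero (mul_ne_zero two_ne_zero Real.pi_ne_zero) hu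
  have h1 : ∫ v, tri v * Real.cos (c * v) = 2 * ∫ v in Ioi (0:ℝ), tri v * Real.cos (c * v) := by
    have := integral_comp_abs (f := fun v => tri v * Real.cos (c * v))
    rw [← this]
    congr 1
    ext v
    have e1 : tri |v| = tri v := by unfold tri; rw [abs_abs]
    have e2 : Real.cos (c * |v|) = Real.cos (c * v) := by
      rcases abs_cases v with ⟨h, _⟩ | ⟨h, _⟩
      · rw [h]
      · rw [h, mul_neg, Real.cos_neg]
    rw [e1, e2]
  have h2 : ∫ v in Ioi (0:ℝ), tri v * Real.cos (c * v) = ∫ v in (0:ℝ)..1, (1 - v) * Real.cos (c * v) := by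
    rw [intervalIntegral.integral_of_le zero_le_one]
    have e : ∫ v in Ioi (0:ℝ), tri v * Real.cos (c * v) = ∫ v in Ioc (0:ℝ) 1, tri v * Real.cos (c * v) := by
      apply setIntegral_eq_of_subset_of_forall_sdiff_eq_zero measurableSet_Ioi Ioc_subset_Ioi_self
      intro x hx
      have hx1 : 1 ≤ x := by
        by_contra h
        exact hx.2 ⟨hx.1, by linarith⟩
      rw [tri_supp (by rw [abs_of_nonneg (by linarith)]; exact hx1), zero_mul]
    rw [e]
    apply setIntegral_congr_fun measurableSet_Ioc
    intro x hx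
    beta_reduce
    rw [tri_eq (by rw [abs_of_pos hx.1]; exact hx.2), abs_of_pos hx.1]
  have h3 : ∫ v in (0:ℝ)..1, (1 - v) * Real.cos (c * v) = (1 - Real.cos c) / c ^ 2 := by
    have hd : ∀ v ∈ uIcc (0:ℝ) 1, HasDerivAt (fun v => (1 - v) * (Real.sin (c * v) / c) - Real.cos (c * v) / c ^ 2)
        ((1 - v) * Real.cos (c * v)) v := by
      intro v _
      have d0 : HasDerivAt (fun v : ℝ => c * v) c v := by simpa using (hasDerivAt_id v).const_mul c
      have d1 : HasDerivAt (fun v : ℝ => 1 - v) (-1) v := (hasDerivAt_id v).const_sub 1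
      have d2 := (d0.sin).div_const c
      have d3 := (d0.cos).div_const (c ^ 2)
      refine ((d1.mul d2).sub d3).congr_deriv ?_
      field_simp
      ring
    rw [intervalIntegral.integral_eq_sub_of_hasDerivAt hd]
    · simp; ring
    · exact Continuous.intervalIntegrable (by fun_prop) _ _
  rw [h1, h2, h3]
  unfold sinc2
  have h4 : Real.cos c = 1 - 2 * Real.sin (π * u) ^ 2 := by
    rw [hc, show 2 * π * u = 2 * (π * u) by ring, Real.cos_two_mul, Real.sin_sq]; ring
  rw [h4, hc]
  have := Real.pi_ne_zero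
  field_simp
  ring

/-- inversion in the `2π`-normalisation -/
lemma inversion_2pi {χ : ℝ → ℝ} {b : ℝ} (h : TF χ b) (v : ℝ) :
    Integrable (fun u : ℝ => Kc χ ((2 * π * u : ℝ) * Complex.I)) ∧
    ∫ u : ℝ, Kc χ ((2 * π * u : ℝ) * Complex.I) * Complex.exp (-((2 * π * u * v : ℝ) * Complex.I)) = (χ v : ℂ) := by
  have hpi := Real.pi_pos
  have hpi' : (π : ℂ) ≠ 0 := by exact_mod_cast hpi.ne'
  constructor
  · have := (Kc_line_integrable h 0).comp_mul_left' (R := 2 * π) (by positivity)
    simpa using this
  · have h1 := (h.inversion 0 v).2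
    have hs := Measure.integral_comp_mul_left (fun τ : ℝ => Kc χ (((0:ℝ):ℂ) + τ * Complex.I) *
      Complex.exp (-(v * τ * Complex.I))) (2 * π)
    rw [h1] at hs
    have e : ∀ u : ℝ, Kc χ ((2 * π * u : ℝ) * Complex.I) * Complex.exp (-((2 * π * u * v : ℝ) * Complex.I)) =
        Kc χ (((0:ℝ):ℂ) + ((2 * π * u : ℝ) : ℂ) * Complex.I) *
          Complex.exp (-(v * ((2 * π * u : ℝ) : ℂ) * Complex.I)) := by
      intro u
      congr 2
      · simp
      · push_cast; ring
    simp_rw [e]
    rw [hs, abs_of_pos (by positivity : 0 < (2 * π)⁻¹), Complex.real_smul]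
    simp
    field_simp

/-- `∫ F sinc² = ∫ χ(v)(1-|v|)` -/
lemma integral_F_sinc2 {χ F : ℝ → ℝ} {b : ℝ} (h : TF χ b) (hb : b ≤ 1) (heven : ∀ v, χ (-v) = χ v)
    (hF : ∀ u : ℝ, Kc χ ((2 * π * u : ℝ) * Complex.I) = (F u : ℂ)) :
    Integrable F ∧ ∫ u, F u = χ 0 ∧ ∫ u, F u * sinc2 u = ∫ v, χ v * (1 - |v|) := by
  have hFi : Integrable (fun u => (F u : ℂ)) := by
    have := (inversion_2pi h 0).1
    simpa only [hF] using this
  have hFi' : Integrable F := by
    have := hFi.re
    simpa using this
  refine ⟨hFi', ?_, ?_⟩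
  · have h0 := (inversion_2pi h 0).2
    simp only [hF, mul_zero, Complex.ofReal_zero, zero_mul, neg_zero, Complex.exp_zero, mul_one] at h0
    rw [integral_complex_ofReal] at h0
    exact_mod_cast h0
  · have hcos : ∀ v, ∫ u, F u * Real.cos (2 * π * u * v) = χ v := by
      intro v
      have h1 := (inversion_2pi h v).2
      have h2 := (inversion_2pi h (-v)).2
      simp only [hF] at h1 h2
      have i1 : Integrable (fun u : ℝ => (F u : ℂ) * Complex.exp (-((2 * π * u * v : ℝ) * Complex.I))) := by
        refine hFi.mul_bdd (c := 1) (Continuous.aestronglyMeasurable (by fun_prop)) ?_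
        refine Eventually.of_forall fun u => ?_
        rw [Complex.norm_exp]; simp
      have i2 : Integrable (fun u : ℝ => (F u : ℂ) * Complex.exp (-((2 * π * u * (-v) : ℝ) * Complex.I))) := by
        refine hFi.mul_bdd (c := 1) (Continuous.aestronglyMeasurable (by fun_prop)) ?_
        refine Eventually.of_forall fun u => ?_
        rw [Complex.norm_exp]; simp
      have h3 := integral_add i1 i2
      rw [h1, h2, heven] at h3
      have h4 : ∫ u, ((F u * Real.cos (2 * π * u * v) : ℝ) : ℂ) = (χ v : ℂ) := by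
        have e : ∀ u : ℝ, ((F u * Real.cos (2 * π * u * v) : ℝ) : ℂ) =
            ((F u : ℂ) * Complex.exp (-((2 * π * u * v : ℝ) * Complex.I)) +
            (F u : ℂ) * Complex.exp (-((2 * π * u * (-v) : ℝ) * Complex.I))) / 2 := by
          intro u
          rw [Complex.ofReal_mul, Complex.ofReal_cos, Complex.cos]
          push_cast
          ring_nf
        simp_rw [e]
        rw [integral_div, h3]
        ring
      rw [integral_complex_ofReal] at h4
      exact_mod_cast h4
    have hfub : Integrable (fun p : ℝ × ℝ => F p.1 * (tri p.2 * Real.cos (2 * π * p.1 * p.2)))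
        ((volume : Measure ℝ).prod (volume : Measure ℝ)) := by
      have h1 := hFi'.mul_prod tri_integrable
      have h2 : Integrable (fun p : ℝ × ℝ => (F p.1 * tri p.2) * Real.cos (2 * π * p.1 * p.2))
          ((volume : Measure ℝ).prod (volume : Measure ℝ)) := by
        refine h1.mul_bdd (c := 1) (Continuous.aestronglyMeasurable (by fun_prop)) ?_
        exact Eventually.of_forall fun p => Real.abs_cos_le_one _
      refine h2.congr (Eventually.of_forall fun p => ?_)
      simp only; ring
    have h5 : ∫ u, F u * sinc2 u = ∫ u, ∫ v, F u * (tri v * Real.cos (2 * π * u * v)) := by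
      apply integral_congr_ae
      have : ∀ᵐ u : ℝ, u ≠ 0 := by
        rw [ae_iff]; simp
      filter_upwards [this] with u hu
      rw [integral_const_mul, tri_cos hu]
    rw [h5, integral_integral_swap hfub]
    congr 1
    ext v
    have : ∀ u, F u * (tri v * Real.cos (2 * π * u * v)) = tri v * (F u * Real.cos (2 * π * u * v)) := by
      intro u; ring
    simp_rw [this]
    rw [integral_const_mul, hcos]
    by_cases hv : |v| ≤ 1
    · rw [tri_eq hv]; ring
    · push Not at hv
      rw [h.supp v (by linarith)]; ring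

theorem gue_identity {χ q : ℝ → ℝ} {b : ℝ} (h : TF χ b) (hb : b ≤ 1) (heven : ∀ v, χ (-v) = χ v)
    (hqc : Continuous q) (hq : RapidDecay q) (hodd : ∀ u, q (-u) = -q u)
    (hF : ∀ u : ℝ, Kc χ ((2 * π * u : ℝ) * Complex.I) = (tailF q u : ℂ)) :
    ∫ u in Ioi (0:ℝ), q u * (1 / 2 + gue u) = (χ 0 + ∫ v, |v| * χ v) / 2 := by
  have hqi := hq.integrable hqc
  obtain ⟨hFi, hF0, hFs⟩ := integral_F_sinc2 h hb heven hF
  have hFhas := tailF_hasDerivAt hqc hqi
  have hFc : Continuous (tailF q) := continuous_iff_continuousAt.2 fun x => (hFhas x).continuousAt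
  have hFe := tailF_even hqc hqi hodd
  -- half-line integrals
  have e1 : ∫ u, tailF q u = 2 * ∫ u in Ioi (0:ℝ), tailF q u := by
    have := integral_comp_abs (f := tailF q)
    rw [← this]
    congr 1
    ext u
    rcases abs_cases u with ⟨h, _⟩ | ⟨h, _⟩
    · rw [h]
    · rw [h, hFe]
  have e2 : ∫ u, tailF q u * sinc2 u = 2 * ∫ u in Ioi (0:ℝ), tailF q u * sinc2 u := by
    have := integral_comp_abs (f := fun u => tailF q u * sinc2 u)
    rw [← this]
    congr 1
    ext u
    have hs : sinc2 (-u) = sinc2 u := by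
      unfold sinc2; rw [mul_neg, Real.sin_neg, neg_div_neg_eq]
    rcases abs_cases u with ⟨h, _⟩ | ⟨h, _⟩
    · rw [h]
    · rw [h, hFe, hs]
  -- value of ∫ χ
  have e3 : tailF q 0 = ∫ v, χ v := by
    have := hF 0
    simp only [mul_zero, Complex.ofReal_zero, zero_mul] at this
    unfold Kc at this
    simp only [mul_zero, Complex.exp_zero, mul_one] at this
    rw [integral_complex_ofReal] at this
    exact_mod_cast this.symm
  -- integration by parts
  have hqu : Integrable (fun u => q u * gue u) := by
    have h1 := hq.integrable_mul hqc 1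
    refine Integrable.mono' h1 ((hqc.mul gue_continuous).aestronglyMeasurable)
      (Eventually.of_forall fun u => ?_)
    rw [Real.norm_eq_abs, abs_mul, pow_one, mul_comm]
    apply mul_le_mul_of_nonneg_right _ (abs_nonneg _)
    have := gue_lipschitz u 0
    rwa [gue_zero, sub_zero, sub_zero] at this
  have hFs' : Integrable (fun u => tailF q u * (1 - sinc2 u)) := by
    refine hFi.mul_bdd (c := 1) (measurable_const.sub sinc2_meas).aestronglyMeasurable ?_
    refine Eventually.of_forall fun u => ?_
    rw [Real.norm_eq_abs, abs_le]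
    constructor <;> linarith [sinc2_nonneg u, sinc2_le_one u]
  have hFs'' : Integrable (fun u => tailF q u * sinc2 u) := by
    refine hFi.mul_bdd (c := 1) sinc2_meas.aestronglyMeasurable ?_
    refine Eventually.of_forall fun u => ?_
    rw [Real.norm_eq_abs, abs_of_nonneg (sinc2_nonneg u)]
    exact sinc2_le_one u
  have hlim : Tendsto (fun u => tailF q u * gue u) atTop (𝓝 0) := by
    obtain ⟨K, hK, hb2⟩ := tailF_decay hqc hq hodd 2
    apply squeeze_zero_norm' (a := fun u => K * (1 + u)⁻¹)
    · filter_upwards [eventually_ge_atTop 0] with u hu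
      rw [Real.norm_eq_abs, abs_mul, abs_of_nonneg (gue_nonneg hu)]
      have h1 := hb2 u
      rw [abs_of_nonneg hu] at h1
      calc |tailF q u| * gue u ≤ (K * ((1 + u) ^ 2)⁻¹) * (1 + u) := by
            apply mul_le_mul h1 ((gue_le hu).trans (by linarith)) (gue_nonneg hu) (by positivity)
        _ = K * (1 + u)⁻¹ := by field_simp
    · have : Tendsto (fun u : ℝ => (1 + u)⁻¹) atTop (𝓝 0) :=
        (tendsto_atTop_add_const_left atTop 1 tendsto_id).inv_tendsto_atTop
      simpa using this.const_mul K
  have hparts : ∫ u in Ioi (0:ℝ), (-(q u * gue u) + tailF q u * (1 - sinc2 u)) = 0 - tailF q 0 * gue 0 := by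
    apply integral_Ioi_of_hasDerivAt_of_tendsto (hFc.mul gue_continuous).continuousWithinAt
    · intro u hu
      have hu' : u ≠ 0 := (mem_Ioi.1 hu).ne'
      exact ((hFhas u).mul (gue_hasDerivAt hu')).congr_deriv (by ring)
    · exact (hqu.neg.add hFs').integrableOn
    · exact hlim
  have hqn : Integrable (fun u => -(q u * gue u)) := hqu.neg
  rw [integral_add hqn.integrableOn hFs'.integrableOn, integral_neg, gue_zero, mul_zero, sub_zero] at hparts
  have e4 : ∫ u in Ioi (0:ℝ), tailF q u * (1 - sinc2 u) =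
      (∫ u in Ioi (0:ℝ), tailF q u) - ∫ u in Ioi (0:ℝ), tailF q u * sinc2 u := by
    rw [← integral_sub hFi.integrableOn hFs''.integrableOn]
    congr 1
    ext u; ring
  have e5 : ∫ u in Ioi (0:ℝ), q u * (1 / 2 + gue u) = (1/2) * tailF q 0 + ∫ u in Ioi (0:ℝ), q u * gue u := by
    have : tailF q 0 = ∫ u in Ioi (0:ℝ), q u := rfl
    rw [this, ← integral_const_mul, ← integral_add (hqi.const_mul _).integrableOn hqu.integrableOn]
    congr 1
    ext u; ring
  have e6 : ∫ v, χ v * (1 - |v|) = (∫ v, χ v) - ∫ v, |v| * χ v := by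
    have i1 : Integrable (fun v => |v| * χ v) := by
      apply Continuous.integrable_of_hasCompactSupport
      · have := h.cont
        fun_prop
      · exact h.hasCompactSupport.mul_left
    rw [← integral_sub h.integrable i1]
    congr 1
    ext v; ring
  rw [e5, e3]
  rw [e1] at hF0
  rw [e2, e6] at hFs
  linarith

end Pool.Agent.PairCorr
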