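import Mathlib
import Pool.Agent.PairCorr.T_Gue
import Pool.Agent.PairCorr.S_Edge
import Pool.Agent.PairCorr.PB_Convert

set_option autoImplicit false

namespace Pool.Agent.PairCorr

open MeasureTheory Filter Topology Set Real
open scoped ENNReal

/-- `T log T / 2π` -/
noncomputable def NT (T : ℝ) : ℝ := T * Real.log T / (2 * π)

/-- the pair measure: first zero with ordinate in `(0,T]`, second arbitrary -/
noncomputable def nu (T : ℝ) : Measure (ℂ × ℂ) := (muW T).prod muZ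

/-- normalised count of pairs with equal ordinates -/
noncomputable def Mr (T : ℝ) : ℝ := ((nu T) {p | p.1.im = p.2.im}).toReal / NT T

/-- normalised pair count -/
noncomputable def Lr (T u : ℝ) : ℝ := ((nu T) (NSset T u)).toReal / NT T

/-- quadratic bound for the number of pairs -/
def StatementNB : Prop := ∃ C : ℝ, 0 < C ∧ ∃ T₀ : ℝ, ∀ T : ℝ, T₀ ≤ T → ∀ u : ℝ, 0 ≤ u →
  (nu T) {p | |p.1.im - p.2.im| ≤ 2 * π * u / Real.log T} ≤
    ENNReal.ofReal (C * (1 + u) ^ 2 * (T * Real.log T))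

lemma Lr_eq (T u : ℝ) : Lr T u = NStar T u / NT T := by
  unfold Lr nu
  rw [← NStar_eq_toReal]

instance (T : ℝ) : IsFiniteMeasure (muW T) := by
  refine ⟨?_⟩
  rw [muW_univ]
  exact ENNReal.ofReal_lt_top

instance (T : ℝ) : SFinite (nu T) := by unfold nu; infer_instance

/-- the normalised ordinate difference -/
noncomputable def yy (T : ℝ) (p : ℂ × ℂ) : ℝ := Real.log T * (p.1.im - p.2.im) / (2 * π)

lemma yy_measurable (T : ℝ) : Measurable (yy T) := by unfold yy; fun_prop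

lemma yy_lower {T : ℝ} (hT : 1 ≤ Real.log T) (p : ℂ × ℂ) (N : ℕ) :
    ((1 + |yy T p|) ^ N)⁻¹ ≤ (2 * π) ^ N * ((1 + |p.1.im - p.2.im|) ^ N)⁻¹ := by
  have hpi := Real.pi_gt_three
  have hL : 0 < Real.log T := by linarith
  have h1 : (1 + |p.1.im - p.2.im|) / (2 * π) ≤ 1 + |yy T p| := by
    unfold yy
    rw [abs_div, abs_mul, abs_of_pos hL, abs_of_pos (by positivity : 0 < 2 * π), div_le_iff₀ (by positivity)]
    have := abs_nonneg (p.1.im - p.2.im)
    have e : (1 + Real.log T * |p.1.im - p.2.im| / (2 * π)) * (2 * π) = 2 * π + Real.log T * |p.1.im - p.2.im| := by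
      field_simp
    rw [e]
    nlinarith
  have h2 : ((1 + |p.1.im - p.2.im|) / (2 * π)) ^ N ≤ (1 + |yy T p|) ^ N :=
    pow_le_pow_left₀ (by positivity) h1 N
  calc ((1 + |yy T p|) ^ N)⁻¹ ≤ (((1 + |p.1.im - p.2.im|) / (2 * π)) ^ N)⁻¹ :=
        inv_anti₀ (by positivity) h2
    _ = _ := by rw [div_pow, inv_div]; rw [div_eq_mul_inv]

/-- integrability of the basic weight -/
lemma nu_weight_integrable (T : ℝ) : Integrable (fun p : ℂ × ℂ => (1 + (p.2.im - p.1.im) ^ 2)⁻¹) (nu T) := by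
  obtain ⟨C, hC, hLD⟩ := muZ_logDens
  obtain ⟨C', hC'0, h'⟩ := hLD.integral_le hC.le
  have hm : Measurable (fun p : ℂ × ℂ => (1 + (p.2.im - p.1.im) ^ 2)⁻¹) := by fun_prop
  unfold nu
  rw [integrable_prod_iff hm.aestronglyMeasurable]
  refine ⟨Eventually.of_forall fun z => (h' z.im).1, ?_⟩
  have hb : ∀ᵐ z ∂(muW T), ‖∫ w, ‖(1 + (w.im - z.im) ^ 2)⁻¹‖ ∂muZ‖ ≤ C' * Real.log (|T| + 2) := by
    unfold muW
    filter_upwards [ae_restrict_mem (show MeasurableSet (WT T) from measurableSet_WT T)] with z hz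
    rw [Real.norm_of_nonneg (integral_nonneg fun _ => norm_nonneg _)]
    have e : ∀ w : ℂ, ‖(1 + (w.im - z.im) ^ 2)⁻¹‖ = (1 + (w.im - z.im) ^ 2)⁻¹ := fun w =>
      Real.norm_of_nonneg (by positivity)
    simp_rw [e]
    refine ((h' z.im).2).trans ?_
    apply mul_le_mul_of_nonneg_left _ hC'0
    apply Real.log_le_log (by positivity)
    have h0 : 0 < z.im := hz.1
    have h1 : z.im ≤ T := hz.2
    rw [abs_of_pos h0, abs_of_pos (h0.trans_le h1)]
    linarith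
  refine Integrable.mono' (integrable_const (C' * Real.log (|T| + 2))) ?_ hb
  exact hm.aestronglyMeasurable.norm.integral_prod_right'

/-- decaying functions of the ordinate difference are integrable -/
lemma nu_decay_integrable {F : ℝ → ℝ} (hF : Measurable F) (hd : RapidDecay F) {T : ℝ}
    (hT : 1 ≤ Real.log T) : Integrable (fun p => F (yy T p)) (nu T) := by
  obtain ⟨K, hK, hb⟩ := hd 2
  refine Integrable.mono' ((nu_weight_integrable T).const_mul (K * (2 * π) ^ 2)) ?_ ?_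
  · exact (hF.comp (yy_measurable T)).aestronglyMeasurable
  · refine Eventually.of_forall fun p => ?_
    rw [Real.norm_eq_abs]
    refine (hb _).trans ?_
    rw [mul_assoc]
    apply mul_le_mul_of_nonneg_left _ hK
    refine (yy_lower hT p 2).trans ?_
    apply mul_le_mul_of_nonneg_left _ (by positivity)
    apply inv_anti₀ (by positivity)
    have h0 := abs_nonneg (p.1.im - p.2.im)
    have h2 : (p.2.im - p.1.im) ^ 2 = |p.1.im - p.2.im| ^ 2 := by rw [sq_abs]; ring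
    rw [h2]; nlinarith

lemma edge_weight_int : ∃ C : ℝ, 0 ≤ C ∧ ∀ e : ℝ,
    Integrable (fun p : ℂ × ℂ => (1 + (p.1.im - e) ^ 2)⁻¹ * (1 + (p.2.im - e) ^ 2)⁻¹) (muZ.prod muZ) ∧
    ∫ p : ℂ × ℂ, (1 + (p.1.im - e) ^ 2)⁻¹ * (1 + (p.2.im - e) ^ 2)⁻¹ ∂(muZ.prod muZ) ≤
      C * Real.log (|e| + 2) ^ 2 := by
  obtain ⟨C, hC, hLD⟩ := muZ_logDens
  obtain ⟨C', hC'0, h'⟩ := hLD.integral_le hC.le
  refine ⟨C' ^ 2, by positivity, fun e => ⟨(h' e).1.mul_prod (h' e).1, ?_⟩⟩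
  rw [integral_prod_mul (fun z : ℂ => (1 + (z.im - e) ^ 2)⁻¹) (fun z : ℂ => (1 + (z.im - e) ^ 2)⁻¹)]
  have h0 : 0 ≤ ∫ z : ℂ, (1 + (z.im - e) ^ 2)⁻¹ ∂muZ := integral_nonneg fun _ => by positivity
  have h1 := (h' e).2
  calc _ ≤ (C' * Real.log (|e| + 2)) * (C' * Real.log (|e| + 2)) := mul_le_mul h1 h1 h0 (h0.trans h1)
    _ = _ := by ring

/-- near-symmetry of the pair measure -/
lemma symm_edge {F : ℝ → ℝ} (hF : Measurable F) (hd : RapidDecay F) (heven : ∀ u, F (-u) = F u) :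
    ∃ C : ℝ, 0 ≤ C ∧ ∀ T : ℝ, Real.exp 1 ≤ T →
    |(∫ p in {p : ℂ × ℂ | p.2.im < p.1.im}, F (yy T p) ∂(nu T)) -
      ∫ p in {p : ℂ × ℂ | p.1.im < p.2.im}, F (yy T p) ∂(nu T)| ≤ C * Real.log (T + 2) ^ 2 := by
  obtain ⟨K, hK, hb⟩ := hd 6
  obtain ⟨CE, hCE, hE⟩ := edge_weight_int
  refine ⟨K * (2 * π) ^ 6 * (2 * CE), by positivity, fun T hT => ?_⟩
  have hT0 : 0 < T := (Real.exp_pos 1).trans_le hT
  have hL1 : 1 ≤ Real.log T := by rw [Real.le_log_iff_exp_le hT0]; exact hT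
  have hmA : MeasurableSet {p : ℂ × ℂ | p.2.im < p.1.im} := measurableSet_lt (by fun_prop) (by fun_prop)
  have hmB : MeasurableSet {p : ℂ × ℂ | p.1.im < p.2.im} := measurableSet_lt (by fun_prop) (by fun_prop)
  have hFi := nu_decay_integrable hF hd hL1
  have hnu : nu T = (muZ.prod muZ).restrict (WT T ×ˢ univ) := muW_prod_restrict T
  have hmW : MeasurableSet (WT T ×ˢ (univ : Set ℂ)) := (measurableSet_WT T).prod MeasurableSet.univ
  -- write as integrals over the full product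
  set G1 : ℂ × ℂ → ℝ := fun p => (Ioc 0 T).indicator (fun _ => (1:ℝ)) p.1.im *
    ({p : ℂ × ℂ | p.2.im < p.1.im}.indicator (fun p => F (yy T p)) p) with hG1
  set G2 : ℂ × ℂ → ℝ := fun p => (Ioc 0 T).indicator (fun _ => (1:ℝ)) p.2.im *
    ({p : ℂ × ℂ | p.2.im < p.1.im}.indicator (fun p => F (yy T p)) p) with hG2
  set G3 : ℂ × ℂ → ℝ := fun p => (Ioc 0 T).indicator (fun _ => (1:ℝ)) p.1.im *
    ({p : ℂ × ℂ | p.1.im < p.2.im}.indicator (fun p => F (yy T p)) p) with hG3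
  have hswap : ∀ p, G3 p.swap = G2 p := by
    intro p
    simp only [hG3, hG2, Prod.fst_swap]
    congr 1
    by_cases h : p.2.im < p.1.im
    · rw [indicator_of_mem (by exact h), indicator_of_mem (by exact h)]
      have : yy T p.swap = - yy T p := by
        unfold yy; simp only [Prod.fst_swap, Prod.snd_swap]; ring
      rw [this, heven]
    · rw [indicator_of_notMem (by exact h), indicator_of_notMem (by exact h)]
  have e1 : ∫ p in {p : ℂ × ℂ | p.2.im < p.1.im}, F (yy T p) ∂(nu T) = ∫ p, G1 p ∂(muZ.prod muZ) := by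
    rw [← integral_indicator hmA, hnu, ← integral_indicator hmW]
    congr 1
    ext p
    simp only [hG1]
    by_cases hp : p.1 ∈ WT T
    · have hp' : p.1.im ∈ Ioc 0 T := hp
      rw [indicator_of_mem hp', indicator_of_mem (by exact ⟨hp, mem_univ _⟩), one_mul]
    · have hp' : p.1.im ∉ Ioc 0 T := hp
      rw [indicator_of_notMem hp', indicator_of_notMem (by intro h; exact hp h.1), zero_mul]
  have e3 : ∫ p in {p : ℂ × ℂ | p.1.im < p.2.im}, F (yy T p) ∂(nu T) = ∫ p, G3 p ∂(muZ.prod muZ) := by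
    rw [← integral_indicator hmB, hnu, ← integral_indicator hmW]
    congr 1
    ext p
    simp only [hG3]
    by_cases hp : p.1 ∈ WT T
    · have hp' : p.1.im ∈ Ioc 0 T := hp
      rw [indicator_of_mem hp', indicator_of_mem (by exact ⟨hp, mem_univ _⟩), one_mul]
    · have hp' : p.1.im ∉ Ioc 0 T := hp
      rw [indicator_of_notMem hp', indicator_of_notMem (by intro h; exact hp h.1), zero_mul]
  have e2 : ∫ p, G3 p ∂(muZ.prod muZ) = ∫ p, G2 p ∂(muZ.prod muZ) := by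
    rw [← integral_prod_swap G3]
    congr 1
    ext p
    exact hswap p
  have i1 : Integrable G1 (muZ.prod muZ) := by
    have h1 : Integrable ({p : ℂ × ℂ | p.2.im < p.1.im}.indicator (fun p => F (yy T p))) (nu T) :=
      hFi.indicator hmA
    rw [hnu] at h1
    have h2 := (integrable_indicator_iff hmW).2 h1
    refine h2.congr (Eventually.of_forall fun p => ?_)
    simp only [hG1]
    by_cases hp : p.1 ∈ WT T
    · have hp' : p.1.im ∈ Ioc 0 T := hp
      rw [indicator_of_mem hp', indicator_of_mem (by exact ⟨hp, mem_univ _⟩), one_mul]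
    · have hp' : p.1.im ∉ Ioc 0 T := hp
      rw [indicator_of_notMem hp', indicator_of_notMem (by intro h; exact hp h.1), zero_mul]
  have i3 : Integrable G3 (muZ.prod muZ) := by
    have h1 : Integrable ({p : ℂ × ℂ | p.1.im < p.2.im}.indicator (fun p => F (yy T p))) (nu T) :=
      hFi.indicator hmB
    rw [hnu] at h1
    have h2 := (integrable_indicator_iff hmW).2 h1
    refine h2.congr (Eventually.of_forall fun p => ?_)
    simp only [hG3]
    by_cases hp : p.1 ∈ WT T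
    · have hp' : p.1.im ∈ Ioc 0 T := hp
      rw [indicator_of_mem hp', indicator_of_mem (by exact ⟨hp, mem_univ _⟩), one_mul]
    · have hp' : p.1.im ∉ Ioc 0 T := hp
      rw [indicator_of_notMem hp', indicator_of_notMem (by intro h; exact hp h.1), zero_mul]
  have i2 : Integrable G2 (muZ.prod muZ) := by
    have := i3.swap
    refine this.congr (Eventually.of_forall fun p => ?_)
    exact hswap p
  rw [e1, e3, e2, ← integral_sub i1 i2]
  have hpt : ∀ p, ‖G1 p - G2 p‖ ≤ (K * (2 * π) ^ 6) *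
      ((1 + (p.1.im - 0) ^ 2)⁻¹ * (1 + (p.2.im - 0) ^ 2)⁻¹ +
        (1 + (p.1.im - T) ^ 2)⁻¹ * (1 + (p.2.im - T) ^ 2)⁻¹) := by
    intro p
    simp only [hG1, hG2]
    rw [← sub_mul, norm_mul, Real.norm_eq_abs]
    have h1 : ‖{p : ℂ × ℂ | p.2.im < p.1.im}.indicator (fun p => F (yy T p)) p‖ ≤
        K * ((2 * π) ^ 6 * ((1 + |p.1.im - p.2.im|) ^ 6)⁻¹) := by
      refine (norm_indicator_le_norm_self _ _).trans ?_
      rw [Real.norm_eq_abs]
      refine (hb _).trans ?_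
      exact mul_le_mul_of_nonneg_left (yy_lower hL1 p 6) hK
    have he := edge_pt (T := T) (γ := p.1.im) (t := p.2.im)
    have h4 : ∀ e : ℝ, ((1 + |p.2.im - e|) ^ 4)⁻¹ ≤ (1 + (p.2.im - e) ^ 2)⁻¹ := by
      intro e
      apply inv_anti₀ (by positivity)
      have h0 := abs_nonneg (p.2.im - e)
      have h2 : (p.2.im - e) ^ 2 = |p.2.im - e| ^ 2 := (sq_abs _).symm
      rw [h2]
      calc 1 + |p.2.im - e| ^ 2 ≤ (1 + |p.2.im - e|) ^ 2 := by nlinarith
        _ ≤ (1 + |p.2.im - e|) ^ 4 := pow_le_pow_right₀ (by linarith) (by norm_num)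
    rw [abs_sub_comm] at he
    calc _ ≤ |(Ioc 0 T).indicator (fun _ => (1:ℝ)) p.1.im - (Ioc 0 T).indicator (fun _ => (1:ℝ)) p.2.im| *
          (K * ((2 * π) ^ 6 * ((1 + |p.1.im - p.2.im|) ^ 6)⁻¹)) :=
          mul_le_mul_of_nonneg_left h1 (abs_nonneg _)
      _ = (K * (2 * π) ^ 6) * (|(Ioc 0 T).indicator (fun _ => (1:ℝ)) p.1.im -
          (Ioc 0 T).indicator (fun _ => (1:ℝ)) p.2.im| * ((1 + |p.1.im - p.2.im|) ^ 6)⁻¹) := by ring
      _ ≤ (K * (2 * π) ^ 6) * (((1 + |p.2.im - 0|) ^ 4)⁻¹ * (1 + (p.1.im - 0) ^ 2)⁻¹ +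
          ((1 + |p.2.im - T|) ^ 4)⁻¹ * (1 + (p.1.im - T) ^ 2)⁻¹) :=
          mul_le_mul_of_nonneg_left he (by positivity)
      _ ≤ (K * (2 * π) ^ 6) * ((1 + (p.2.im - 0) ^ 2)⁻¹ * (1 + (p.1.im - 0) ^ 2)⁻¹ +
          (1 + (p.2.im - T) ^ 2)⁻¹ * (1 + (p.1.im - T) ^ 2)⁻¹) := by
          have := h4 0
          have := h4 T
          gcongr
      _ = _ := by ring
  have hWi0 : Integrable (fun p : ℂ × ℂ => (1 + (p.1.im - 0) ^ 2)⁻¹ * (1 + (p.2.im - 0) ^ 2)⁻¹ +
      (1 + (p.1.im - T) ^ 2)⁻¹ * (1 + (p.2.im - T) ^ 2)⁻¹) (muZ.prod muZ) := (hE 0).1.add (hE T).1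
  have hWi := hWi0.const_mul (K * (2 * π) ^ 6)
  have hle := norm_integral_le_of_norm_le hWi (Eventually.of_forall hpt)
  rw [Real.norm_eq_abs] at hle
  refine hle.trans ?_
  have hsum : ∫ p : ℂ × ℂ, (K * (2 * π) ^ 6) *
      ((1 + (p.1.im - 0) ^ 2)⁻¹ * (1 + (p.2.im - 0) ^ 2)⁻¹ +
        (1 + (p.1.im - T) ^ 2)⁻¹ * (1 + (p.2.im - T) ^ 2)⁻¹) ∂(muZ.prod muZ) =
      (K * (2 * π) ^ 6) * ((∫ p : ℂ × ℂ, (1 + (p.1.im - 0) ^ 2)⁻¹ * (1 + (p.2.im - 0) ^ 2)⁻¹ ∂(muZ.prod muZ)) +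
        ∫ p : ℂ × ℂ, (1 + (p.1.im - T) ^ 2)⁻¹ * (1 + (p.2.im - T) ^ 2)⁻¹ ∂(muZ.prod muZ)) := by
    rw [integral_const_mul, integral_add (hE 0).1 (hE T).1]
  rw [hsum]
  have g0 := (hE 0).2
  have gT := (hE T).2
  have hlog0 : Real.log (|(0:ℝ)| + 2) ≤ Real.log (T + 2) := by
    rw [abs_zero]
    exact Real.log_le_log (by norm_num) (by linarith)
  have hlog0' : 0 ≤ Real.log (|(0:ℝ)| + 2) := Real.log_nonneg (by rw [abs_zero]; norm_num)
  rw [abs_of_pos hT0] at gT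
  have g0' : CE * Real.log (|(0:ℝ)| + 2) ^ 2 ≤ CE * Real.log (T + 2) ^ 2 := by gcongr
  calc _ ≤ (K * (2 * π) ^ 6) * (CE * Real.log (T + 2) ^ 2 + CE * Real.log (T + 2) ^ 2) := by
        apply mul_le_mul_of_nonneg_left _ (by positivity)
        exact add_le_add (g0.trans g0') gT
    _ = _ := by ring

end Pool.Agent.PairCorr
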