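import Mathlib
import Pool.Agent.PairCorr.PB_Statement
import Pool.Agent.PairCorr.C_Approx
import Pool.Agent.PairCorr.ZetaBasic

/-!
# Replacing complex differences of zeros by differences of ordinates
-/

set_option autoImplicit false

namespace Pool.Agent.PairCorr

open MeasureTheory Filter Topology Set
open scoped ENNReal ComplexConjugate

/-! ### Reflection invariance -/

/-- `z ↦ 1 - conj z`. -/
noncomputable def sg (z : ℂ) : ℂ := 1 - conj z

lemma sg_sg (z : ℂ) : sg (sg z) = z := by simp [sg]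

lemma sg_re (z : ℂ) : (sg z).re = 1 - z.re := by simp [sg]
lemma sg_im (z : ℂ) : (sg z).im = z.im := by simp [sg]

lemma measurable_sg : Measurable sg := by
  unfold sg
  exact measurable_const.sub (Complex.continuous_conj.measurable)

/-- The reflection as an equivalence of the set of nontrivial zeros. -/
noncomputable def sgE : NTZ ≃ NTZ where
  toFun ρ := ⟨sg ρ, refl_mem_NTZ ρ.2⟩
  invFun ρ := ⟨sg ρ, refl_mem_NTZ ρ.2⟩
  left_inv ρ := by ext; simp [sg_sg]
  right_inv ρ := by ext; simp [sg_sg]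

lemma map_sg_muZ : muZ.map sg = muZ := by
  ext s hs
  rw [Measure.map_apply measurable_sg hs, muZ_apply, muZ_apply, ← sgE.tsum_eq]
  refine tsum_congr fun ρ => ?_
  have h1 : ((sgE ρ : NTZ) : ℂ) = sg ρ := rfl
  rw [h1]
  have h2 : mult (sg ρ) = mult (ρ : ℂ) := mult_refl ρ.2
  rw [h2]
  congr 1
  by_cases h : (ρ : ℂ) ∈ s
  · rw [indicator_of_mem h, indicator_of_mem (show sg ρ ∈ sg ⁻¹' s by
      rw [mem_preimage, sg_sg]; exact h)]
    rfl
  · rw [indicator_of_notMem h, indicator_of_notMem (show sg ρ ∉ sg ⁻¹' s by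
      rw [mem_preimage, sg_sg]; exact h)]

lemma mp_sg : MeasurePreserving sg muZ muZ := ⟨measurable_sg, map_sg_muZ⟩

lemma measurableSet_WT_od (T : ℝ) : MeasurableSet (WT T) :=
  (measurableSet_lt measurable_const Complex.measurable_im).inter
    (measurableSet_le Complex.measurable_im measurable_const)

instance (T : ℝ) : SFinite (muW T) := by unfold muW; infer_instance

lemma mp_sg_W (T : ℝ) : MeasurePreserving sg (muW T) (muW T) := by
  unfold muW
  have h := mp_sg.restrict_preimage (measurableSet_WT_od T)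
  have h2 : sg ⁻¹' (WT T) = WT T := by
    ext z
    simp only [WT, mem_preimage, mem_ofPred_eq, sg_im]
  rwa [h2] at h

lemma mp_sg_prod (T : ℝ) :
    MeasurePreserving (Prod.map sg sg) ((muW T).prod muZ) ((muW T).prod muZ) :=
  (mp_sg_W T).prod mp_sg

/-! ### Second differences of the kernel -/

lemma second_diff {φ : ℝ → ℝ} {b : ℝ} (h : TF φ b) (hb : 0 ≤ b) : ∃ C : ℝ, 0 ≤ C ∧ ∀ a y : ℝ,
    ‖Kc φ (a + y * Complex.I) + Kc φ (-a + y * Complex.I) - 2 * Kc φ (y * Complex.I)‖ ≤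
      C * a ^ 2 * Real.exp (b * |a|) * ((1 + |y|) ^ 4)⁻¹ := by
  obtain ⟨C, hC0, hC⟩ := h.mul_id.mul_id.decay_one_add 4
  refine ⟨2 * C, by positivity, fun a y => ?_⟩
  set M := C * Real.exp (b * |a|) * ((1 + |y|) ^ 4)⁻¹ with hM
  have hM0 : 0 ≤ M := by positivity
  set K := Kc φ with hK
  set K1 := Kc (fun v => v * φ v) with hK1
  set K2 := Kc (fun v => v * (v * φ v)) with hK2
  have hbd : ∀ s : ℝ, |s| ≤ |a| → ‖K2 (s + y * Complex.I)‖ ≤ M := by
    intro s hs
    have h1 := hC (s + y * Complex.I)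
    have hre : ((s:ℂ) + y * Complex.I).re = s := by simp
    have him : ((s:ℂ) + y * Complex.I).im = y := by simp
    rw [hre] at h1
    have h2 : 1 + |y| ≤ 1 + ‖(s:ℂ) + y * Complex.I‖ := by
      have := Complex.abs_im_le_norm ((s:ℂ) + y * Complex.I)
      rw [him] at this; linarith
    have h3 : (1 + |y|) ^ 4 * ‖K2 (s + y * Complex.I)‖ ≤ C * Real.exp (b * |a|) := by
      calc (1 + |y|) ^ 4 * ‖K2 (s + y * Complex.I)‖
          ≤ (1 + ‖(s:ℂ) + y * Complex.I‖) ^ 4 * ‖K2 (s + y * Complex.I)‖ := by gcongr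
        _ ≤ C * Real.exp (b * |s|) := h1
        _ ≤ C * Real.exp (b * |a|) := by gcongr
    rw [hM, ← div_eq_mul_inv, le_div_iff₀ (by positivity)]
    linarith
  -- derivatives along horizontal lines
  have hd : ∀ s : ℝ, HasDerivAt (fun s : ℝ => K (s + y * Complex.I)) (K1 (s + y * Complex.I)) s := by
    intro s
    have e1 := h.hasDerivAt_Kc (s + y * Complex.I)
    have e2 : HasDerivAt (fun s : ℝ => (s:ℂ) + y * Complex.I) 1 s := by
      simpa using (Complex.ofRealCLM.hasDerivAt (x := s)).add_const (y * Complex.I)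
    have e3 := e1.comp s e2
    rw [mul_one] at e3
    exact e3
  have hd1 : ∀ s : ℝ, HasDerivAt (fun s : ℝ => K1 (s + y * Complex.I)) (K2 (s + y * Complex.I)) s := by
    intro s
    have e1 := h.mul_id.hasDerivAt_Kc (s + y * Complex.I)
    have e2 : HasDerivAt (fun s : ℝ => (s:ℂ) + y * Complex.I) 1 s := by
      simpa using (Complex.ofRealCLM.hasDerivAt (x := s)).add_const (y * Complex.I)
    have e3 := e1.comp s e2
    rw [mul_one] at e3
    exact e3
  have hg : ∀ s : ℝ, HasDerivAt (fun s : ℝ => K (s + y * Complex.I) + K (((-s : ℝ) : ℂ) + y * Complex.I))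
      (K1 (s + y * Complex.I) - K1 (((-s : ℝ) : ℂ) + y * Complex.I)) s := by
    intro s
    have e1 := (hd (-s)).scomp s (hasDerivAt_neg s)
    have e2 := (hd s).add e1
    refine e2.congr_deriv ?_
    simp [sub_eq_add_neg]
  -- first mean value
  have hmv1 : ∀ s : ℝ, |s| ≤ |a| →
      ‖K1 (s + y * Complex.I) - K1 (((-s : ℝ) : ℂ) + y * Complex.I)‖ ≤ M * (2 * |a|) := by
    intro s hs
    have h1 := Convex.norm_image_sub_le_of_norm_hasDerivWithin_le
      (f := fun s : ℝ => K1 (s + y * Complex.I)) (f' := fun s : ℝ => K2 (s + y * Complex.I))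
      (s := Icc (-|a|) |a|) (C := M) (x := -s) (y := s)
      (fun x _ => (hd1 x).hasDerivWithinAt)
      (fun x hx => hbd x (abs_le.mpr hx)) (convex_Icc _ _)
      (abs_le.mp (by rwa [abs_neg])) (abs_le.mp hs)
    refine h1.trans ?_
    gcongr
    rw [Real.norm_eq_abs]
    have : |s - -s| = 2 * |s| := by
      rw [sub_neg_eq_add, ← two_mul, abs_mul, abs_two]
    rw [this]
    linarith
  have hmv2 := Convex.norm_image_sub_le_of_norm_hasDerivWithin_le
      (f := fun s : ℝ => K (s + y * Complex.I) + K (((-s : ℝ) : ℂ) + y * Complex.I))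
      (f' := fun s : ℝ => K1 (s + y * Complex.I) - K1 (((-s : ℝ) : ℂ) + y * Complex.I))
      (s := Icc (-|a|) |a|) (C := M * (2 * |a|)) (x := 0) (y := a)
      (fun x _ => (hg x).hasDerivWithinAt)
      (fun x hx => hmv1 x (abs_le.mpr hx)) (convex_Icc _ _)
      (abs_le.mp (by simp)) (abs_le.mp le_rfl)
  have e : K (a + y * Complex.I) + K (-a + y * Complex.I) - 2 * K (y * Complex.I) =
      (K (a + y * Complex.I) + K (((-a : ℝ) : ℂ) + y * Complex.I)) -
      (K (((0:ℝ):ℂ) + y * Complex.I) + K (((-0 : ℝ) : ℂ) + y * Complex.I)) := by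
    push_cast
    simp only [neg_zero, zero_add]
    ring
  rw [e]
  refine hmv2.trans ?_
  rw [Real.norm_eq_abs, sub_zero]
  have : a ^ 2 = |a| * |a| := by rw [← sq, sq_abs]
  rw [this, hM]
  apply le_of_eq
  ring

/-! ### Pointwise comparison -/

lemma wgt_mul_ge {c T : ℝ} (hc : 0 ≤ c) (hL : 0 ≤ Real.log T) (z z2 : ℂ) :
    Real.exp (c * (Real.log T * |z.re - z2.re|)) ≤ wgt c T z * wgt c T z2 := by
  unfold wgt
  rw [← Real.exp_add]
  apply Real.exp_le_exp.mpr
  have h1 : |z.re - z2.re| ≤ |z.re - 1/2| + |z2.re - 1/2| := by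
    have : z.re - z2.re = (z.re - 1/2) - (z2.re - 1/2) := by ring
    rw [this]
    exact abs_sub _ _
  have h2 : c * (Real.log T * |z.re - z2.re|) ≤
      c * (Real.log T * (|z.re - 1/2| + |z2.re - 1/2|)) := by gcongr
  linarith

lemma sq_mul_exp_le {b c t : ℝ} (hc : 0 < c) (hbc : b ≤ c / 2) (ht : 0 ≤ t) :
    t ^ 2 * Real.exp (b * t) ≤ 8 / c ^ 2 * Real.exp (c * t) := by
  have h1 : t ^ 2 ≤ 8 / c ^ 2 * Real.exp (c / 2 * t) := by
    have h2 := Real.quadratic_le_exp_of_nonneg (x := c / 2 * t) (by positivity)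
    have h3 : (c / 2 * t) ^ 2 / 2 ≤ Real.exp (c / 2 * t) := by
      have : 0 ≤ c / 2 * t := by positivity
      linarith
    have h4 : t ^ 2 = 8 / c ^ 2 * ((c / 2 * t) ^ 2 / 2) := by field_simp; norm_num
    rw [h4]
    gcongr
  calc t ^ 2 * Real.exp (b * t) ≤ (8 / c ^ 2 * Real.exp (c / 2 * t)) * Real.exp (c / 2 * t) := by
        gcongr
    _ = 8 / c ^ 2 * Real.exp (c * t) := by
        rw [mul_assoc, ← Real.exp_add]; congr 2; ring

section
variable {χ : ℝ → ℝ} {b c : ℝ}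

lemma diff_decomp (δ L : ℝ) (z z2 : ℂ) : (δ : ℂ) * (L * (z - z2)) =
    ((δ * (L * (z.re - z2.re)) : ℝ) : ℂ) + ((δ * (L * (z.im - z2.im)) : ℝ) : ℂ) * Complex.I := by
  apply Complex.ext
  · simp
  · simp

lemma kernel_bound (h : TF χ b) (hb : 0 ≤ b) (hbc : b ≤ c) : ∃ C : ℝ, 0 ≤ C ∧
    ∀ T δ : ℝ, 0 ≤ Real.log T → 0 < δ → δ ≤ 1 → ∀ p : ℂ × ℂ, ∀ w : ℂ,
      |w.re| ≤ δ * (Real.log T * |p.1.re - p.2.re|) →
      |w.im| = δ * (Real.log T * |p.1.im - p.2.im|) →
      ‖Kc χ w‖ ≤ C * pairW c T δ p := by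
  obtain ⟨C, hC0, hC⟩ := h.decay_one_add 4
  refine ⟨C, hC0, fun T δ hL hδ hδ1 p w hre him => ?_⟩
  have hc : 0 ≤ c := hb.trans hbc
  have h1 := hC w
  have h2 : 1 + |w.im| ≤ 1 + ‖w‖ := by linarith [Complex.abs_im_le_norm w]
  have h3 : (1 + δ * Real.log T * |p.1.im - p.2.im|) ^ 4 * ‖Kc χ w‖ ≤
      C * (wgt c T p.1 * wgt c T p.2) := by
    calc (1 + δ * Real.log T * |p.1.im - p.2.im|) ^ 4 * ‖Kc χ w‖
        = (1 + |w.im|) ^ 4 * ‖Kc χ w‖ := by rw [him]; ring
      _ ≤ (1 + ‖w‖) ^ 4 * ‖Kc χ w‖ := by gcongr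
      _ ≤ C * Real.exp (b * |w.re|) := h1
      _ ≤ C * Real.exp (c * (Real.log T * |p.1.re - p.2.re|)) := by
          gcongr
          refine hre.trans ?_
          have : 0 ≤ Real.log T * |p.1.re - p.2.re| := by positivity
          nlinarith
      _ ≤ C * (wgt c T p.1 * wgt c T p.2) := by
          gcongr
          exact wgt_mul_ge hc hL _ _
  have h4 : 0 < (1 + δ * Real.log T * |p.1.im - p.2.im|) ^ 4 := by positivity
  unfold pairW
  rw [← mul_assoc, ← div_eq_mul_inv, le_div_iff₀ h4]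
  linarith

lemma kernel_diff (h : TF χ b) (hb : 0 ≤ b) (hc : 0 < c) (hbc : b ≤ c / 2) : ∃ C : ℝ, 0 ≤ C ∧
    ∀ T δ : ℝ, 0 ≤ Real.log T → 0 < δ → δ ≤ 1 → ∀ p : ℂ × ℂ,
      ‖Kc χ (δ * (Real.log T * (p.1 - p.2))) + Kc χ (δ * (Real.log T * (sg p.1 - sg p.2))) -
        2 * Kc χ (δ * ((Real.log T * (p.1.im - p.2.im) : ℝ) * Complex.I))‖ ≤
      C * δ ^ 2 * ({p : ℂ × ℂ | p.1.re ≠ 1/2 ∨ p.2.re ≠ 1/2}.indicator (pairW c T δ) p) := by
  obtain ⟨C, hC0, hC⟩ := second_diff h hb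
  refine ⟨C * (8 / c ^ 2), by positivity, fun T δ hL hδ hδ1 p => ?_⟩
  set a : ℝ := δ * (Real.log T * (p.1.re - p.2.re)) with ha
  set y : ℝ := δ * (Real.log T * (p.1.im - p.2.im)) with hy
  have e1 : (δ : ℂ) * (Real.log T * (p.1 - p.2)) = a + y * Complex.I := by
    rw [ha, hy]; exact diff_decomp _ _ _ _
  have e2 : (δ : ℂ) * (Real.log T * (sg p.1 - sg p.2)) = -a + y * Complex.I := by
    rw [diff_decomp, sg_re, sg_re, sg_im, sg_im, ha, hy]
    push_cast
    ring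
  have e3 : (δ : ℂ) * ((Real.log T * (p.1.im - p.2.im) : ℝ) * Complex.I) = y * Complex.I := by
    rw [hy]; push_cast; ring
  rw [e1, e2, e3]
  refine (hC a y).trans ?_
  by_cases hp : p ∈ {p : ℂ × ℂ | p.1.re ≠ 1/2 ∨ p.2.re ≠ 1/2}
  · rw [indicator_of_mem hp]
    have hLx : 0 ≤ Real.log T * |p.1.re - p.2.re| := by positivity
    have ha2 : a ^ 2 = δ ^ 2 * (Real.log T * |p.1.re - p.2.re|) ^ 2 := by
      rw [ha, mul_pow, mul_pow, mul_pow, sq_abs]
    have haa : |a| = δ * (Real.log T * |p.1.re - p.2.re|) := by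
      rw [ha, abs_mul, abs_mul, abs_of_pos hδ, abs_of_nonneg hL]
    have hyy : |y| = δ * Real.log T * |p.1.im - p.2.im| := by
      rw [hy, abs_mul, abs_mul, abs_of_pos hδ, abs_of_nonneg hL]; ring
    have h1 : a ^ 2 * Real.exp (b * |a|) ≤ δ ^ 2 * (8 / c ^ 2 * (wgt c T p.1 * wgt c T p.2)) := by
      rw [ha2, haa]
      calc δ ^ 2 * (Real.log T * |p.1.re - p.2.re|) ^ 2 *
            Real.exp (b * (δ * (Real.log T * |p.1.re - p.2.re|)))
          ≤ δ ^ 2 * (Real.log T * |p.1.re - p.2.re|) ^ 2 *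
            Real.exp (b * (Real.log T * |p.1.re - p.2.re|)) := by
            apply mul_le_mul_of_nonneg_left _ (by positivity)
            exact Real.exp_le_exp.mpr
              (mul_le_mul_of_nonneg_left (mul_le_of_le_one_left hLx hδ1) hb)
        _ = δ ^ 2 * ((Real.log T * |p.1.re - p.2.re|) ^ 2 *
            Real.exp (b * (Real.log T * |p.1.re - p.2.re|))) := by ring
        _ ≤ δ ^ 2 * (8 / c ^ 2 * Real.exp (c * (Real.log T * |p.1.re - p.2.re|))) := by
            exact mul_le_mul_of_nonneg_left (sq_mul_exp_le hc hbc hLx) (by positivity)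
        _ ≤ δ ^ 2 * (8 / c ^ 2 * (wgt c T p.1 * wgt c T p.2)) := by
            gcongr
            exact wgt_mul_ge hc.le hL _ _
    unfold pairW
    rw [← hyy]
    calc C * a ^ 2 * Real.exp (b * |a|) * ((1 + |y|) ^ 4)⁻¹
        = C * (a ^ 2 * Real.exp (b * |a|)) * ((1 + |y|) ^ 4)⁻¹ := by ring
      _ ≤ C * (δ ^ 2 * (8 / c ^ 2 * (wgt c T p.1 * wgt c T p.2))) * ((1 + |y|) ^ 4)⁻¹ := by gcongr
      _ = _ := by ring
  · rw [indicator_of_notMem hp]
    have hp' : p.1.re = 1/2 ∧ p.2.re = 1/2 := by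
      simp only [mem_ofPred_eq, not_or, not_not] at hp
      exact hp
    have ha0 : a = 0 := by rw [ha, hp'.1, hp'.2]; ring
    rw [ha0]
    simp

lemma pairW_nonneg (c T δ : ℝ) (p : ℂ × ℂ) (hL : 0 ≤ Real.log T) (hδ : 0 < δ) : 0 ≤ pairW c T δ p := by
  unfold pairW wgt
  positivity

/-- The key estimate. -/
lemma Spair_sub (h : TF χ b) (hb : 0 ≤ b) (hc : 0 < c) (hbc : b ≤ c / 2) : ∃ C : ℝ, 0 ≤ C ∧
    ∀ T δ : ℝ, 0 ≤ Real.log T → 0 < δ → δ ≤ 1 →
      Integrable (pairW c T δ) ((muW T).prod muZ) →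
      ‖Spair (fun v => χ (v / δ) / δ) T - Spair0 (fun v => χ (v / δ) / δ) T‖ ≤
        C * δ ^ 2 * ∫ p in {p : ℂ × ℂ | p.1.re ≠ 1/2 ∨ p.2.re ≠ 1/2},
          pairW c T δ p ∂((muW T).prod muZ) := by
  obtain ⟨C1, hC10, hC1⟩ := kernel_bound (c := c) h hb (by linarith)
  obtain ⟨C2, hC20, hC2⟩ := kernel_diff h hb hc hbc
  refine ⟨C2, hC20, fun T δ hL hδ hδ1 hint => ?_⟩
  set S : Set (ℂ × ℂ) := {p : ℂ × ℂ | p.1.re ≠ 1/2 ∨ p.2.re ≠ 1/2} with hS
  have hSm : MeasurableSet S := by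
    have h1 : MeasurableSet {p : ℂ × ℂ | p.1.re ≠ 1/2} :=
      (measurableSet_eq_fun (Complex.measurable_re.comp measurable_fst) measurable_const).compl
    have h2 : MeasurableSet {p : ℂ × ℂ | p.2.re ≠ 1/2} :=
      (measurableSet_eq_fun (Complex.measurable_re.comp measurable_snd) measurable_const).compl
    exact h1.union h2
  have hKc := h.differentiable_Kc.continuous
  set μ := (muW T).prod muZ with hμ
  have hsgc : Continuous sg := by unfold sg; exact continuous_const.sub Complex.continuous_conj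
  set f1 : ℂ × ℂ → ℂ := fun p => Kc χ (δ * (Real.log T * (p.1 - p.2))) with hf1
  set f2 : ℂ × ℂ → ℂ := fun p => Kc χ (δ * (Real.log T * (sg p.1 - sg p.2))) with hf2
  set f0 : ℂ × ℂ → ℂ := fun p => Kc χ (δ * ((Real.log T * (p.1.im - p.2.im) : ℝ) * Complex.I)) with hf0
  have i1 : Integrable f1 μ := by
    refine Integrable.mono' (hint.const_mul C1) ?_ (Eventually.of_forall fun p => ?_)
    · exact (hKc.comp (by fun_prop)).aestronglyMeasurable
    · apply hC1 T δ hL hδ hδ1 p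
      · rw [diff_decomp]
        simp only [Complex.add_re, Complex.ofReal_re, Complex.mul_re, Complex.I_re, mul_zero,
          Complex.ofReal_im, Complex.I_im, mul_one, sub_self, add_zero]
        rw [abs_mul, abs_mul, abs_of_pos hδ, abs_of_nonneg hL]
      · rw [diff_decomp]
        simp only [Complex.add_im, Complex.ofReal_im, Complex.mul_im, Complex.ofReal_re,
          Complex.I_im, mul_one, Complex.I_re, mul_zero, add_zero, zero_add]
        rw [abs_mul, abs_mul, abs_of_pos hδ, abs_of_nonneg hL]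
  have i0 : Integrable f0 μ := by
    refine Integrable.mono' (hint.const_mul C1) ?_ (Eventually.of_forall fun p => ?_)
    · refine (hKc.comp ?_).aestronglyMeasurable
      fun_prop
    · apply hC1 T δ hL hδ hδ1 p
      · have : ((δ : ℂ) * ((Real.log T * (p.1.im - p.2.im) : ℝ) * Complex.I)).re = 0 := by simp
        rw [this, abs_zero]; positivity
      · have : ((δ : ℂ) * ((Real.log T * (p.1.im - p.2.im) : ℝ) * Complex.I)).im =
            δ * (Real.log T * (p.1.im - p.2.im)) := by simp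
        rw [this, abs_mul, abs_mul, abs_of_pos hδ, abs_of_nonneg hL]
  have hf12 : f2 = f1 ∘ (Prod.map sg sg) := by
    ext p; rfl
  have hmp := mp_sg_prod T
  have i2 : Integrable f2 μ := by
    rw [hf12]
    exact hmp.integrable_comp_of_integrable i1
  have heq : ∫ p, f2 p ∂μ = ∫ p, f1 p ∂μ := by
    have h1 : ∫ p, f1 p ∂μ = ∫ p, f1 p ∂(μ.map (Prod.map sg sg)) := by rw [hmp.map_eq]
    rw [h1, integral_map hmp.measurable.aemeasurable (by
      rw [hmp.map_eq]; exact i1.aestronglyMeasurable)]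
    rfl
  have hSp : Spair (fun v => χ (v / δ) / δ) T = ∫ p, f1 p ∂μ := by
    unfold Spair
    simp_rw [Kc_scale χ hδ]
    rfl
  have hSp0 : Spair0 (fun v => χ (v / δ) / δ) T = ∫ p, f0 p ∂μ := by
    unfold Spair0
    simp_rw [Kc_scale χ hδ]
    rfl
  rw [hSp, hSp0]
  have hmain : (∫ p, f1 p ∂μ) - ∫ p, f0 p ∂μ = (1/2 : ℂ) * ∫ p, (f1 p + f2 p - 2 * f0 p) ∂μ := by
    rw [integral_sub (f := fun p => f1 p + f2 p) (g := fun p => 2 * f0 p) (i1.add i2)
      (i0.const_mul 2), integral_add i1 i2, integral_const_mul, heq]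
    ring
  rw [hmain, norm_mul]
  have h1 : ‖∫ p, (f1 p + f2 p - 2 * f0 p) ∂μ‖ ≤
      ∫ p, C2 * δ ^ 2 * S.indicator (pairW c T δ) p ∂μ := by
    apply norm_integral_le_of_norm_le
    · exact (hint.indicator hSm).const_mul _
    · exact Eventually.of_forall fun p => hC2 T δ hL hδ hδ1 p
  rw [integral_const_mul, integral_indicator hSm] at h1
  have h2 : ‖(1/2 : ℂ)‖ = 1/2 := by norm_num
  rw [h2]
  have h3 := norm_nonneg (∫ p, (f1 p + f2 p - 2 * f0 p) ∂μ)
  linarith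

end

/-- (PB) and (PBoff) with a common constant. -/
def StatementPBall : Prop :=
  ∃ c : ℝ, 0 < c ∧
    (∃ C : ℝ, 0 < C ∧ ∃ T₀ : ℝ, ∀ T : ℝ, T₀ ≤ T → ∀ δ : ℝ,
      T ^ (-(1/2) : ℝ) ≤ δ → δ ≤ 1 →
      Integrable (pairW c T δ) ((muW T).prod muZ) ∧
      ∫ p, pairW c T δ p ∂((muW T).prod muZ) ≤ C * (T * Real.log T) / δ) ∧
    ∀ l : Filter ℝ, l ≤ atTop →
      Tendsto (fun T : ℝ => (muZ {z | z ∈ WT T ∧ z.re ≠ 1/2}).toReal / (T * Real.log T)) l (𝓝 0) →
      Tendsto (fun T : ℝ =>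
        (∫ p in {p : ℂ × ℂ | p.1.re ≠ 1/2 ∨ p.2.re ≠ 1/2}, pairW c T 1 p ∂((muW T).prod muZ)) /
          (T * Real.log T)) l (𝓝 0)

lemma eventually_rpow_le {δ : ℝ} (hδ : 0 < δ) : ∀ᶠ T : ℝ in atTop, T ^ (-(1/2) : ℝ) ≤ δ := by
  have := tendsto_rpow_neg_atTop (show (0:ℝ) < 1/2 by norm_num)
  filter_upwards [this.eventually (gt_mem_nhds hδ)] with T hT
  exact hT.le

theorem statementOD1_of (hPB : StatementPB) : StatementOD1 := by
  obtain ⟨c, hc, C, hC, T₀, hT₀⟩ := hPB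
  refine ⟨c / 2, by positivity, fun χ hχ _ => ?_⟩
  obtain ⟨C2, hC2, h2⟩ := Spair_sub hχ (by positivity) hc le_rfl
  refine ⟨C2 * C + 1, by positivity, fun δ hδ hδ1 => ?_⟩
  obtain ⟨T₁, hT₁⟩ := eventually_atTop.mp (eventually_rpow_le hδ)
  refine ⟨max (max T₀ T₁) 1, fun T hT => ?_⟩
  have hT1 : 1 ≤ T := (le_max_right _ _).trans hT
  have hL : 0 ≤ Real.log T := Real.log_nonneg hT1
  have hTT := (le_max_left _ _).trans hT
  obtain ⟨hi, hI⟩ := hT₀ T ((le_max_left _ _).trans hTT) δ (hT₁ T ((le_max_right _ _).trans hTT)) hδ1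
  have h3 := h2 T δ hL hδ hδ1 hi
  have h4 : ∫ p in {p : ℂ × ℂ | p.1.re ≠ 1/2 ∨ p.2.re ≠ 1/2}, pairW c T δ p ∂((muW T).prod muZ) ≤
      ∫ p, pairW c T δ p ∂((muW T).prod muZ) :=
    setIntegral_le_integral hi (Eventually.of_forall fun p => pairW_nonneg c T δ p hL hδ)
  calc _ ≤ C2 * δ ^ 2 * ∫ p in {p : ℂ × ℂ | p.1.re ≠ 1/2 ∨ p.2.re ≠ 1/2},
          pairW c T δ p ∂((muW T).prod muZ) := h3
    _ ≤ C2 * δ ^ 2 * (C * (T * Real.log T) / δ) := by
        gcongr
        exact h4.trans hI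
    _ = (C2 * C) * δ * (T * Real.log T) := by field_simp
    _ ≤ (C2 * C + 1) * δ * (T * Real.log T) := by
        gcongr
        linarith

theorem statementOD2_of (hPB : StatementPBall) : StatementOD2 := by
  obtain ⟨c, hc, ⟨C, hC, T₀, hT₀⟩, hoff⟩ := hPB
  refine ⟨c / 2, by positivity, fun χ hχ _ l hl hl0 => ?_⟩
  obtain ⟨C2, hC2, h2⟩ := Spair_sub hχ (by positivity) hc le_rfl
  have h3 := (hoff l hl hl0).const_mul C2
  rw [mul_zero] at h3
  refine squeeze_zero' ?_ ?_ h3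
  · filter_upwards [hl (eventually_ge_atTop 1)] with T hT1
    have hL : 0 ≤ Real.log T := Real.log_nonneg hT1
    positivity
  · obtain ⟨T₁, hT₁⟩ := eventually_atTop.mp (eventually_rpow_le one_pos)
    filter_upwards [hl (eventually_ge_atTop (max (max T₀ T₁) 1))] with T hT
    have hT1 : 1 ≤ T := (le_max_right _ _).trans hT
    have hL : 0 ≤ Real.log T := Real.log_nonneg hT1
    have hTT := (le_max_left _ _).trans hT
    obtain ⟨hi, hI⟩ := hT₀ T ((le_max_left _ _).trans hTT) 1 (hT₁ T ((le_max_right _ _).trans hTT)) le_rfl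
    have h4 := h2 T 1 hL one_pos le_rfl hi
    simp only [div_one, one_pow, mul_one] at h4
    rw [← mul_div_assoc]
    gcongr

end Pool.Agent.PairCorr
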