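import Mathlib
import Pool.Agent.PairCorr.S_Edge

set_option autoImplicit false

namespace Pool.Agent.PairCorr

open MeasureTheory Filter Topology Set Real
open scoped ENNReal ArithmeticFunction.vonMangoldt

variable {ψ1 ψ2 : ℝ → ℝ} {b1 b2 : ℝ}

lemma measurableSet_WTs (T : ℝ) : MeasurableSet (WT T) :=
  (measurableSet_lt measurable_const Complex.measurable_im).inter
    (measurableSet_le Complex.measurable_im measurable_const)

lemma kernel_integrable {ψ : ℝ → ℝ} {b : ℝ} (h : TF ψ b) (hb : 0 ≤ b) {L : ℝ} (hL : 1 ≤ L) (t : ℝ) :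
    Integrable (fun z : ℂ => Kc ψ (L * (z - (1/2 + t * Complex.I)))) muZ := by
  obtain ⟨C, hC, hLD⟩ := muZ_logDens
  obtain ⟨C', hC'0, h'⟩ := hLD.integral_le hC.le
  obtain ⟨C2, hC2, h2⟩ := kernel_decay h hb 2
  refine Integrable.mono' ((h' t).1.const_mul (C2 * Real.exp (b * L / 2))) ?_ ?_
  · exact (h.differentiable_Kc.continuous.comp (by fun_prop)).aestronglyMeasurable
  · filter_upwards [muZ_ae_strip] with z hz
    refine (h2 L hL t z hz).trans ?_
    apply mul_le_mul_of_nonneg_left _ (by positivity)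
    apply inv_anti₀ (by positivity)
    have := abs_nonneg (z.im - t)
    have h3 : (z.im - t) ^ 2 = |z.im - t| ^ 2 := (sq_abs _).symm
    rw [h3]; nlinarith

/-- The integral of `Z_ψ1 Z_ψ2` over `[0,T]` is the pair sum up to edge effects. -/
theorem Z_product (h1 : TF ψ1 b1) (h2 : TF ψ2 b2) (hb1 : 0 ≤ b1) (hb2 : 0 ≤ b2) :
    ∃ C : ℝ, 0 ≤ C ∧ ∀ T : ℝ, Real.exp 1 ≤ T →
    ‖(∫ t in (0:ℝ)..T, Zs ψ1 (Real.log T) t * Zs ψ2 (Real.log T) t) -
      (2 * π / Real.log T : ℝ) * Spair (fun v => ψ1 v * ψ2 (-v)) T‖ ≤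
      C * Real.exp ((b1 + b2) * Real.log T / 2) * Real.log (T + 2) ^ 2 := by
  obtain ⟨C1, hC1, d1⟩ := kernel_decay h1 hb1 6
  obtain ⟨C2, hC2, d2⟩ := kernel_decay h2 hb2 2
  obtain ⟨CW, hCW, hW⟩ := W2_int
  refine ⟨C1 * C2 * (2 * CW), by positivity, fun T hT => ?_⟩
  have hT0 : 0 < T := (Real.exp_pos 1).trans_le hT
  set L := Real.log T with hL
  have hL1 : 1 ≤ L := by
    rw [hL, Real.le_log_iff_exp_le hT0]; exact hT
  have hL0 : 0 < L := by linarith
  set K1 : ℂ → ℝ → ℂ := fun z t => Kc ψ1 (L * (z - (1/2 + t * Complex.I))) with hK1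
  set K2 : ℂ → ℝ → ℂ := fun z t => Kc ψ2 (L * (z - (1/2 + t * Complex.I))) with hK2
  set Lm := (muZ.prod muZ).prod (volume : Measure ℝ) with hLm
  set A : ℝ := C1 * C2 * Real.exp ((b1 + b2) * L / 2) with hA
  have hA0 : 0 ≤ A := by positivity
  set F1 : (ℂ × ℂ) × ℝ → ℂ := fun q =>
    (((Ioc 0 T).indicator (fun _ => (1:ℝ)) q.2 : ℝ) : ℂ) * (K1 q.1.1 q.2 * K2 q.1.2 q.2) with hF1
  set F2 : (ℂ × ℂ) × ℝ → ℂ := fun q =>
    (((Ioc 0 T).indicator (fun _ => (1:ℝ)) q.1.1.im : ℝ) : ℂ) * (K1 q.1.1 q.2 * K2 q.1.2 q.2) with hF2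
  have c1 := h1.differentiable_Kc.continuous
  have c2 := h2.differentiable_Kc.continuous
  have hKm : Measurable (fun q : (ℂ × ℂ) × ℝ => K1 q.1.1 q.2 * K2 q.1.2 q.2) := by
    apply Continuous.measurable
    apply Continuous.mul
    · exact c1.comp (by fun_prop)
    · exact c2.comp (by fun_prop)
  have hm1 : AEStronglyMeasurable F1 Lm := by
    apply Measurable.aestronglyMeasurable
    apply Measurable.mul _ hKm
    exact Complex.measurable_ofReal.comp
      ((measurable_const.indicator measurableSet_Ioc).comp measurable_snd)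
  have hm2 : AEStronglyMeasurable F2 Lm := by
    apply Measurable.aestronglyMeasurable
    apply Measurable.mul _ hKm
    exact Complex.measurable_ofReal.comp
      ((measurable_const.indicator measurableSet_Ioc).comp
        (Complex.measurable_im.comp (measurable_fst.comp measurable_fst)))
  -- a.e. in the strip
  have hstrip : ∀ᵐ q ∂Lm, |q.1.1.re - 1/2| ≤ 1/2 ∧ |q.1.2.re - 1/2| ≤ 1/2 := by
    have e1 : ∀ᵐ p ∂(muZ.prod muZ), |p.1.re - 1/2| ≤ 1/2 :=
      Measure.quasiMeasurePreserving_fst.ae muZ_ae_strip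
    have e2 : ∀ᵐ p ∂(muZ.prod muZ), |p.2.re - 1/2| ≤ 1/2 :=
      Measure.quasiMeasurePreserving_snd.ae muZ_ae_strip
    have e3 : ∀ᵐ p ∂(muZ.prod muZ), |p.1.re - 1/2| ≤ 1/2 ∧ |p.2.re - 1/2| ≤ 1/2 := e1.and e2
    exact Measure.quasiMeasurePreserving_fst.ae e3
  have hKb : ∀ᵐ q ∂Lm, ‖K1 q.1.1 q.2 * K2 q.1.2 q.2‖ ≤
      A * (((1 + |q.1.1.im - q.2|) ^ 6)⁻¹ * (1 + (q.1.2.im - q.2) ^ 2)⁻¹) := by
    filter_upwards [hstrip] with q hq
    have a1 := d1 L hL1 q.2 q.1.1 hq.1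
    have a2 := d2 L hL1 q.2 q.1.2 hq.2
    have a3 : ((1 + |q.1.2.im - q.2|) ^ 2)⁻¹ ≤ (1 + (q.1.2.im - q.2) ^ 2)⁻¹ := by
      apply inv_anti₀ (by positivity)
      have := abs_nonneg (q.1.2.im - q.2)
      have h3 : (q.1.2.im - q.2) ^ 2 = |q.1.2.im - q.2| ^ 2 := (sq_abs _).symm
      rw [h3]; nlinarith
    rw [norm_mul]
    calc ‖K1 q.1.1 q.2‖ * ‖K2 q.1.2 q.2‖ ≤ (C1 * Real.exp (b1 * L / 2) * ((1 + |q.1.1.im - q.2|) ^ 6)⁻¹) *
          (C2 * Real.exp (b2 * L / 2) * (1 + (q.1.2.im - q.2) ^ 2)⁻¹) := by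
          apply mul_le_mul a1 _ (norm_nonneg _) (by positivity)
          exact a2.trans (mul_le_mul_of_nonneg_left a3 (by positivity))
      _ = _ := by
          rw [hA, show (b1 + b2) * L / 2 = b1 * L / 2 + b2 * L / 2 by ring, Real.exp_add]
          ring
  have hF1i : Integrable F1 Lm := by
    refine Integrable.mono' ((W1_int T).const_mul A) hm1 ?_
    filter_upwards [hKb] with q hq
    simp only [hF1, W1]
    rw [norm_mul, Complex.norm_real, Real.norm_of_nonneg (indicator_nonneg (fun _ _ => zero_le_one) _)]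
    have hi : 0 ≤ (Ioc 0 T).indicator (fun _ => (1:ℝ)) q.2 := indicator_nonneg (fun _ _ => zero_le_one) _
    have a4 : ((1 + |q.1.1.im - q.2|) ^ 6)⁻¹ ≤ (1 + (q.1.1.im - q.2) ^ 2)⁻¹ := by
      apply inv_anti₀ (by positivity)
      have h0 := abs_nonneg (q.1.1.im - q.2)
      have h3 : (q.1.1.im - q.2) ^ 2 = |q.1.1.im - q.2| ^ 2 := (sq_abs _).symm
      rw [h3]
      calc 1 + |q.1.1.im - q.2| ^ 2 ≤ (1 + |q.1.1.im - q.2|) ^ 2 := by nlinarith
        _ ≤ (1 + |q.1.1.im - q.2|) ^ 6 := pow_le_pow_right₀ (by linarith) (by norm_num)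
    calc (Ioc 0 T).indicator (fun _ => (1:ℝ)) q.2 * ‖K1 q.1.1 q.2 * K2 q.1.2 q.2‖
        ≤ (Ioc 0 T).indicator (fun _ => (1:ℝ)) q.2 *
          (A * ((1 + (q.1.1.im - q.2) ^ 2)⁻¹ * (1 + (q.1.2.im - q.2) ^ 2)⁻¹)) := by
          apply mul_le_mul_of_nonneg_left _ hi
          refine hq.trans ?_
          gcongr
      _ = _ := by ring
  -- the difference
  have hdiff : ∀ᵐ q ∂Lm, ‖F1 q - F2 q‖ ≤ A * (W2 0 q + W2 T q) := by
    filter_upwards [hKb] with q hq
    simp only [hF1, hF2, W2]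
    rw [← sub_mul, norm_mul, ← Complex.ofReal_sub, Complex.norm_real, Real.norm_eq_abs]
    have he := edge_pt (T := T) (γ := q.1.1.im) (t := q.2)
    have hp : 0 ≤ (1 + (q.1.2.im - q.2) ^ 2)⁻¹ := by positivity
    calc _ ≤ |(Ioc 0 T).indicator (fun _ => (1:ℝ)) q.2 - (Ioc 0 T).indicator (fun _ => (1:ℝ)) q.1.1.im| *
          (A * (((1 + |q.1.1.im - q.2|) ^ 6)⁻¹ * (1 + (q.1.2.im - q.2) ^ 2)⁻¹)) :=
          mul_le_mul_of_nonneg_left hq (abs_nonneg _)
      _ = A * ((|(Ioc 0 T).indicator (fun _ => (1:ℝ)) q.2 - (Ioc 0 T).indicator (fun _ => (1:ℝ)) q.1.1.im| *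
          ((1 + |q.1.1.im - q.2|) ^ 6)⁻¹) * (1 + (q.1.2.im - q.2) ^ 2)⁻¹) := by ring
      _ ≤ A * ((((1 + |q.2 - 0|) ^ 4)⁻¹ * (1 + (q.1.1.im - 0) ^ 2)⁻¹ +
        ((1 + |q.2 - T|) ^ 4)⁻¹ * (1 + (q.1.1.im - T) ^ 2)⁻¹) * (1 + (q.1.2.im - q.2) ^ 2)⁻¹) := by
          gcongr
      _ = _ := by ring
  have hDi : Integrable (fun q => F1 q - F2 q) Lm :=
    Integrable.mono' (((hW 0).1.add (hW T).1).const_mul A) (hm1.sub hm2) hdiff
  have hF2i : Integrable F2 Lm := by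
    have := hF1i.sub hDi
    refine this.congr (Eventually.of_forall fun q => ?_)
    simp
  -- evaluate
  have v1 : ∫ q, F1 q ∂Lm = ∫ t in (0:ℝ)..T, Zs ψ1 L t * Zs ψ2 L t := by
    rw [hLm, integral_prod_symm _ hF1i, intervalIntegral.integral_of_le hT0.le,
      ← integral_indicator measurableSet_Ioc]
    congr 1
    ext t
    simp only [hF1]
    rw [integral_const_mul]
    have := integral_prod_mul (μ := muZ) (ν := muZ) (fun z => K1 z t) (fun z => K2 z t)
    rw [this]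
    by_cases ht : t ∈ Ioc 0 T
    · rw [indicator_of_mem ht, indicator_of_mem ht]
      simp [Zs, hK1, hK2]
    · rw [indicator_of_notMem ht, indicator_of_notMem ht]; simp
  have v2 : ∫ q, F2 q ∂Lm = (2 * π / L : ℝ) * Spair (fun v => ψ1 v * ψ2 (-v)) T := by
    rw [hLm, integral_prod _ hF2i]
    unfold Spair muW
    have hrest : (muZ.restrict (WT T)).prod muZ = (muZ.prod muZ).restrict (WT T ×ˢ univ) := by
      rw [← Measure.prod_restrict, Measure.restrict_univ]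
    rw [hrest, ← integral_const_mul, ← integral_indicator ((measurableSet_WTs T).prod MeasurableSet.univ)]
    congr 1
    ext p
    simp only [hF2]
    rw [integral_const_mul]
    simp only [hK1, hK2]
    rw [(parseval h1 h2 hL0 p.1 p.2).2]
    by_cases hp : p.1 ∈ WT T
    · have hp' : p.1.im ∈ Ioc 0 T := hp
      rw [indicator_of_mem hp', indicator_of_mem (by exact ⟨hp, mem_univ _⟩), Complex.ofReal_one, one_mul]
    · have hp' : p.1.im ∉ Ioc 0 T := hp
      rw [indicator_of_notMem hp', indicator_of_notMem (by intro h; exact hp h.1)]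
      simp
  rw [← v1, ← v2, ← integral_sub hF1i hF2i]
  refine (norm_integral_le_integral_norm _).trans ?_
  have hWi : Integrable (fun q => A * (W2 0 q + W2 T q)) Lm := ((hW 0).1.add (hW T).1).const_mul A
  refine (integral_mono_ae hDi.norm hWi hdiff).trans ?_
  rw [integral_const_mul, integral_add (hW 0).1 (hW T).1]
  have g0 := (hW 0).2
  have gT := (hW T).2
  have hlog0 : Real.log (|(0:ℝ)| + 2) ≤ Real.log (T + 2) := by
    rw [abs_zero]
    exact Real.log_le_log (by norm_num) (by linarith)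
  have hlog0' : 0 ≤ Real.log (|(0:ℝ)| + 2) := Real.log_nonneg (by rw [abs_zero]; norm_num)
  rw [abs_of_pos hT0] at gT
  have g0' : CW * Real.log (|(0:ℝ)| + 2) ^ 2 ≤ CW * Real.log (T + 2) ^ 2 := by gcongr
  calc A * ((∫ q, W2 0 q ∂Lm) + ∫ q, W2 T q ∂Lm) ≤ A * (CW * Real.log (T + 2) ^ 2 + CW * Real.log (T + 2) ^ 2) := by
        apply mul_le_mul_of_nonneg_left _ hA0
        linarith
    _ = _ := by rw [hA]; ring

end Pool.Agent.PairCorr
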