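import Mathlib
import Pool.Agent.PairCorr.S_Product

set_option autoImplicit false

namespace Pool.Agent.PairCorr

open MeasureTheory Filter Topology Set Real
open scoped ENNReal ArithmeticFunction.vonMangoldt

variable {ψ : ℝ → ℝ} {b : ℝ}

/-- terms of the prime sum vanish for large `n` -/
lemma TF.eventually_zero (h : TF ψ b) {L : ℝ} (hL : 0 < L) :
    ∀ n : ℕ, n ∉ Finset.range (⌊Real.exp (b * L)⌋₊ + 1) → ψ (Real.log n / L) = 0 := by
  intro n hn
  rw [Finset.mem_range, not_lt] at hn
  apply h.supp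
  have h1 : Real.exp (b * L) < n := (Nat.lt_floor_add_one _).trans_le (by exact_mod_cast hn)
  have h2 : b * L < Real.log n := by
    rw [Real.lt_log_iff_exp_lt ((Real.exp_pos _).trans h1)]; exact h1
  calc b < Real.log n / L := by rw [lt_div_iff₀ hL]; exact h2
    _ ≤ _ := le_abs_self _

lemma PP_eq_sum (h : TF ψ b) {T : ℝ} (hT : 0 < Real.log T) (t : ℝ) :
    PP ψ T t = (2 / Real.log T) * ∑ n ∈ Finset.range (⌊Real.exp (b * Real.log T)⌋₊ + 1),
      Λ n / √n * ψ (Real.log n / Real.log T) * Real.cos (t * Real.log n) := by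
  unfold PP
  congr 1
  apply tsum_eq_sum
  intro n hn
  rw [h.eventually_zero hT n hn]; simp

lemma PP_continuous (h : TF ψ b) {T : ℝ} (hT : 0 < Real.log T) : Continuous (PP ψ T) := by
  have : PP ψ T = fun t => (2 / Real.log T) * ∑ n ∈ Finset.range (⌊Real.exp (b * Real.log T)⌋₊ + 1),
      Λ n / √n * ψ (Real.log n / Real.log T) * Real.cos (t * Real.log n) := by
    funext t; exact PP_eq_sum h hT t
  rw [this]
  fun_prop

lemma PP_add {ψ' : ℝ → ℝ} (h : TF ψ b) (h' : TF ψ' b) {T : ℝ} (hT : 0 < Real.log T) (t : ℝ) :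
    PP (fun v => ψ v + ψ' v) T t = PP ψ T t + PP ψ' T t := by
  rw [PP_eq_sum h hT, PP_eq_sum h' hT, PP_eq_sum (h.add h') hT, ← mul_add, ← Finset.sum_add_distrib]
  congr 1
  apply Finset.sum_congr rfl
  intro n _
  ring

lemma PP_sub {ψ' : ℝ → ℝ} (h : TF ψ b) (h' : TF ψ' b) {T : ℝ} (hT : 0 < Real.log T) (t : ℝ) :
    PP (fun v => ψ v - ψ' v) T t = PP ψ T t - PP ψ' T t := by
  rw [PP_eq_sum h hT, PP_eq_sum h' hT, PP_eq_sum (h.sub h') hT, ← mul_sub, ← Finset.sum_sub_distrib]
  congr 1
  apply Finset.sum_congr rfl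
  intro n _
  ring

/-- for even test functions the complex prime sum is the real one -/
lemma Pc_eq (h : TF ψ b) (heven : ∀ v, ψ (-v) = ψ v) {T : ℝ} (hT : 0 < Real.log T) (t : ℝ) :
    Pc ψ (Real.log T) t = (PP ψ T t : ℂ) := by
  unfold Pc
  rw [tsum_eq_sum (s := Finset.range (⌊Real.exp (b * Real.log T)⌋₊ + 1)),
    tsum_eq_sum (s := Finset.range (⌊Real.exp (b * Real.log T)⌋₊ + 1)), ← Finset.sum_add_distrib,
    PP_eq_sum h hT]
  · rw [Complex.ofReal_mul, Complex.ofReal_sum, Finset.mul_sum]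
    apply Finset.sum_congr rfl
    intro n _
    unfold primeTerm
    rcases Nat.eq_zero_or_pos n with rfl | hn
    · simp
    · simp only
      rw [neg_div, heven]
      have e1 : Complex.exp (-(Real.log n * (1/2 + t * Complex.I))) =
          (Real.exp (-(Real.log n / 2)) : ℂ) * Complex.exp (-((t * Real.log n : ℝ) : ℂ) * Complex.I) := by
        rw [Complex.ofReal_exp, ← Complex.exp_add]; congr 1; push_cast; ring
      have e2 : Complex.exp (-(Real.log n * (1/2 + ((-t : ℝ) : ℂ) * Complex.I))) =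
          (Real.exp (-(Real.log n / 2)) : ℂ) * Complex.exp (((t * Real.log n : ℝ) : ℂ) * Complex.I) := by
        rw [Complex.ofReal_exp, ← Complex.exp_add]; congr 1; push_cast; ring
      have e3 : Real.exp (-(Real.log n / 2)) = (√n)⁻¹ := by
        rw [Real.exp_neg, Real.exp_half, Real.exp_log (by exact_mod_cast hn)]
      rw [e1, e2, e3]
      have e4 : ((Real.cos (t * Real.log n) : ℝ) : ℂ) =
        (Complex.exp (((t * Real.log n : ℝ) : ℂ) * Complex.I) +
          Complex.exp (-((t * Real.log n : ℝ) : ℂ) * Complex.I)) / 2 := by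
        rw [Complex.ofReal_cos]; rfl
      rw [Complex.ofReal_mul, Complex.ofReal_mul, e4]
      push_cast
      ring_nf
  · intro n hn
    unfold primeTerm
    simp only
    rw [neg_div, heven, h.eventually_zero hT n hn]; simp
  · intro n hn
    unfold primeTerm
    simp only
    rw [h.eventually_zero hT n hn]; simp

lemma Zs_meas (h : TF ψ b) (L : ℝ) : AEStronglyMeasurable (fun t : ℝ => Zs ψ L t) volume := by
  unfold Zs
  have : Measurable (fun p : ℝ × ℂ => Kc ψ (L * (p.2 - (1/2 + p.1 * Complex.I)))) :=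
    (h.differentiable_Kc.continuous.comp (by fun_prop)).measurable
  exact (this.stronglyMeasurable.integral_prod_right (ν := muZ)).aestronglyMeasurable

/-- elementary integral: the slowly varying factor -/
lemma log_factor_small : Tendsto (fun T : ℝ => T⁻¹ * ∫ t in (0:ℝ)..T,
    (Real.log ((1 + |t|) / (2 * π)) / Real.log T - 1) ^ 2) atTop (𝓝 0) := by
  have hub : ∀ᶠ T : ℝ in atTop, T⁻¹ * ∫ t in (0:ℝ)..T,
      (Real.log ((1 + |t|) / (2 * π)) / Real.log T - 1) ^ 2 ≤ 200 / (Real.log T) ^ 2 := by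
    filter_upwards [eventually_ge_atTop (Real.exp 1)] with T hT
    have hT0 : 0 < T := (Real.exp_pos 1).trans_le hT
    have hT1 : 1 ≤ T := by
      have := Real.add_one_le_exp 1; linarith
    have hL1 : 1 ≤ Real.log T := by rw [Real.le_log_iff_exp_le hT0]; exact hT
    have hL0 : 0 < Real.log T := by linarith
    have hpi := Real.pi_gt_three
    have hpt : ∀ t ∈ Icc (0:ℝ) T, (Real.log ((1 + |t|) / (2 * π)) / Real.log T - 1) ^ 2 ≤
        (8 + 32 * (T ^ (1/2 : ℝ) * (1 + t) ^ (-(1/2) : ℝ))) / (Real.log T) ^ 2 := by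
      intro t ht
      rw [abs_of_nonneg ht.1]
      have h1t : 0 < 1 + t := by linarith [ht.1]
      rw [div_sub_one hL0.ne', div_pow]
      apply div_le_div_of_nonneg_right _ (by positivity)
      have e : Real.log ((1 + t) / (2 * π)) - Real.log T = -(Real.log (2 * π)) - Real.log (T / (1 + t)) := by
        rw [Real.log_div h1t.ne' (by positivity), Real.log_div hT0.ne' h1t.ne']; ring
      rw [e]
      have a3 : Real.log (2 * π) ≤ 2 := by
        rw [Real.log_le_iff_le_exp (by positivity)]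
        have := Real.exp_one_gt_d9
        have h4 := Real.pi_lt_d2
        have : Real.exp 2 = Real.exp 1 * Real.exp 1 := by rw [← Real.exp_add]; norm_num
        nlinarith
      have a4 : 0 ≤ Real.log (2 * π) := Real.log_nonneg (by linarith)
      -- bound of log (T/(1+t))
      have hx0 : 0 < T / (1 + t) := by positivity
      have a5 : Real.log (T / (1 + t)) ≤ 4 * (T / (1 + t)) ^ (1/4 : ℝ) := by
        have := Real.log_le_rpow_div hx0.le (ε := 1/4) (by norm_num)
        linarith
      have a6 : -(4 * (T / (1 + t)) ^ (1/4 : ℝ)) ≤ Real.log (T / (1 + t)) := by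
        have h7 : T / (1 + t) ≥ 1 / 2 := by
          rw [ge_iff_le, div_le_div_iff₀ (by norm_num) h1t]; linarith [ht.2]
        have h8 : -1 ≤ Real.log (T / (1 + t)) := by
          have h9 : Real.log (1/2) ≤ Real.log (T / (1 + t)) := Real.log_le_log (by norm_num) h7
          have h10 : Real.log (1/2) = - Real.log 2 := by rw [one_div, Real.log_inv]
          have := Real.log_two_lt_d9
          linarith
        have h11 : (1/4 : ℝ) ≤ (T / (1 + t)) ^ (1/4 : ℝ) := by
          calc (1/4 : ℝ) ≤ (1/2 : ℝ) := by norm_num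
            _ = (1/2 : ℝ) ^ (1 : ℝ) := by norm_num
            _ ≤ (1/2 : ℝ) ^ (1/4 : ℝ) := Real.rpow_le_rpow_of_exponent_ge (by norm_num) (by norm_num) (by norm_num)
            _ ≤ (T / (1 + t)) ^ (1/4 : ℝ) := Real.rpow_le_rpow (by norm_num) h7 (by norm_num)
        linarith
      have a7 : Real.log (T / (1 + t)) ^ 2 ≤ 16 * (T ^ (1/2 : ℝ) * (1 + t) ^ (-(1/2) : ℝ)) := by
        have h12 : Real.log (T / (1 + t)) ^ 2 ≤ (4 * (T / (1 + t)) ^ (1/4 : ℝ)) ^ 2 := sq_le_sq' a6 a5
        have h13 : (4 * (T / (1 + t)) ^ (1/4 : ℝ)) ^ 2 = 16 * (T ^ (1/2 : ℝ) * (1 + t) ^ (-(1/2) : ℝ)) := by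
          rw [mul_pow, ← Real.rpow_natCast ((T / (1 + t)) ^ (1/4 : ℝ)), ← Real.rpow_mul hx0.le,
            Real.div_rpow hT0.le h1t.le, Real.rpow_neg h1t.le]
          norm_num
          ring
        linarith
      nlinarith [sq_nonneg (Real.log (2 * π) - Real.log (T / (1 + t)))]
    have hcont1 : ContinuousOn (fun t : ℝ => (1 + t) ^ (-(1/2) : ℝ)) (uIcc 0 T) := by
      rw [uIcc_of_le hT0.le]
      apply ContinuousOn.rpow_const (by fun_prop)
      intro x hx
      left
      have := hx.1
      linarith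
    have hint : ∫ t in (0:ℝ)..T, (Real.log ((1 + |t|) / (2 * π)) / Real.log T - 1) ^ 2 ≤
        ∫ t in (0:ℝ)..T, (8 + 32 * (T ^ (1/2 : ℝ) * (1 + t) ^ (-(1/2) : ℝ))) / (Real.log T) ^ 2 := by
      apply intervalIntegral.integral_mono_on hT0.le
      · apply Continuous.intervalIntegrable
        apply Continuous.pow
        apply Continuous.sub _ continuous_const
        apply Continuous.div_const
        apply Continuous.log (by fun_prop)
        intro t
        have := abs_nonneg t
        positivity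
      · apply ContinuousOn.intervalIntegrable
        apply ContinuousOn.div_const
        apply ContinuousOn.add continuousOn_const
        apply ContinuousOn.mul continuousOn_const
        exact ContinuousOn.mul continuousOn_const hcont1
      · exact hpt
    have hval : ∫ t in (0:ℝ)..T, (1 + t) ^ (-(1/2) : ℝ) = 2 * ((1 + T) ^ (1/2 : ℝ) - 1) := by
      have := intervalIntegral.integral_comp_add_left (fun x : ℝ => x ^ (-(1/2) : ℝ)) (1:ℝ) (a := 0) (b := T)
      rw [this, integral_rpow (Or.inl (by norm_num))]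
      norm_num
      ring
    have hi2 : ∫ t in (0:ℝ)..T, (8 + 32 * (T ^ (1/2 : ℝ) * (1 + t) ^ (-(1/2) : ℝ))) / (Real.log T) ^ 2 =
        (8 * T + 32 * (T ^ (1/2 : ℝ) * (2 * ((1 + T) ^ (1/2 : ℝ) - 1)))) / (Real.log T) ^ 2 := by
      rw [intervalIntegral.integral_div, intervalIntegral.integral_add (by simp)
        ((hcont1.intervalIntegrable.const_mul _).const_mul _), intervalIntegral.integral_const_mul,
        intervalIntegral.integral_const_mul, hval]
      simp
      ring
    have hsq : T ^ (1/2 : ℝ) * ((1 + T) ^ (1/2 : ℝ) - 1) ≤ 2 * T := by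
      have h1 : (1 + T) ^ (1/2 : ℝ) ≤ 2 * T ^ (1/2 : ℝ) := by
        calc (1 + T) ^ (1/2 : ℝ) ≤ (4 * T) ^ (1/2 : ℝ) := Real.rpow_le_rpow (by linarith) (by linarith) (by norm_num)
          _ = 2 * T ^ (1/2 : ℝ) := by
            rw [Real.mul_rpow (by norm_num) hT0.le]
            congr 1
            rw [show (4:ℝ) = 2 ^ (2:ℝ) by norm_num, ← Real.rpow_mul (by norm_num)]; norm_num
      have h2 : T ^ (1/2 : ℝ) * T ^ (1/2 : ℝ) = T := by
        rw [← Real.rpow_add hT0]; norm_num
      have h3 : 0 ≤ T ^ (1/2 : ℝ) := by positivity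
      nlinarith
    rw [hi2] at hint
    calc T⁻¹ * _ ≤ T⁻¹ * ((8 * T + 32 * (T ^ (1/2 : ℝ) * (2 * ((1 + T) ^ (1/2 : ℝ) - 1)))) / (Real.log T) ^ 2) :=
          mul_le_mul_of_nonneg_left hint (by positivity)
      _ ≤ T⁻¹ * ((200 * T) / (Real.log T) ^ 2) := by
          apply mul_le_mul_of_nonneg_left _ (by positivity)
          apply div_le_div_of_nonneg_right _ (by positivity)
          nlinarith
      _ = _ := by field_simp
  have hlb : ∀ᶠ T : ℝ in atTop, 0 ≤ T⁻¹ * ∫ t in (0:ℝ)..T,
      (Real.log ((1 + |t|) / (2 * π)) / Real.log T - 1) ^ 2 := by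
    filter_upwards [eventually_gt_atTop 0] with T hT
    apply mul_nonneg (by positivity)
    exact intervalIntegral.integral_nonneg hT.le fun t _ => sq_nonneg _
  have hz : Tendsto (fun T : ℝ => 200 / (Real.log T) ^ 2) atTop (𝓝 0) := by
    apply Tendsto.div_atTop tendsto_const_nhds
    exact (tendsto_pow_atTop two_ne_zero).comp Real.tendsto_log_atTop
  exact tendsto_of_tendsto_of_tendsto_of_le_of_le' tendsto_const_nhds hz hlb hub

end Pool.Agent.PairCorr
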