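import Mathlib
import Pool.Agent.PairCorr.S_Prime

set_option autoImplicit false

namespace Pool.Agent.PairCorr

open MeasureTheory Filter Topology Set Real
open scoped ENNReal ArithmeticFunction.vonMangoldt

variable {ψ : ℝ → ℝ} {b : ℝ}

/-- the main term of `Zs` -/
noncomputable def RmZ (ψ : ℝ → ℝ) (T t : ℝ) : ℝ := ψ 0 - PP ψ T t

/-- the error -/
noncomputable def Er (ψ : ℝ → ℝ) (T t : ℝ) : ℂ := Zs ψ (Real.log T) t - (RmZ ψ T t : ℂ)

lemma RmZ_continuous (h : TF ψ b) {T : ℝ} (hT : 0 < Real.log T) : Continuous (RmZ ψ T) :=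
  continuous_const.sub (PP_continuous h hT)

lemma Er_bound (h : TF ψ b) (hb : 0 < b) (heven : ∀ v, ψ (-v) = ψ v) : ∃ C : ℝ, 0 ≤ C ∧
    ∀ T : ℝ, Real.exp 1 ≤ T → ∀ t : ℝ, ‖Er ψ T t‖ ^ 2 ≤
      2 * (ψ 0) ^ 2 * (Real.log ((1 + |t|) / (2 * π)) / Real.log T - 1) ^ 2 +
      C * T ^ (4 * b) * (1 + t ^ 2)⁻¹ := by
  obtain ⟨C, hC, hap⟩ := approx_formula h hb
  refine ⟨2 * C ^ 2, by positivity, fun T hT t => ?_⟩
  have hT0 : 0 < T := (Real.exp_pos 1).trans_le hT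
  have hL1 : 1 ≤ Real.log T := by rw [Real.le_log_iff_exp_le hT0]; exact hT
  have hL0 : 0 < Real.log T := by linarith
  have h1 := hap (Real.log T) hL1 t
  rw [Pc_eq h heven hL0] at h1
  set X : ℝ := Real.log ((1 + |t|) / (2 * π)) / Real.log T - 1 with hX
  have e : Er ψ T t = (Zs ψ (Real.log T) t - (((ψ 0 / Real.log T * Real.log ((1 + |t|) / (2 * π)) : ℝ) : ℂ)
      - (PP ψ T t : ℂ))) + ((ψ 0 * X : ℝ) : ℂ) := by
    unfold Er RmZ
    rw [hX]
    push_cast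
    have : ((Real.log T : ℝ) : ℂ) ≠ 0 := by exact_mod_cast hL0.ne'
    field_simp
    ring
  have h2 : ‖Er ψ T t‖ ≤ C * Real.exp (2 * b * Real.log T) / (1 + |t|) + |ψ 0 * X| := by
    rw [e]
    refine (norm_add_le _ _).trans (add_le_add h1 ?_)
    rw [Complex.norm_real, Real.norm_eq_abs]
  have hexp : Real.exp (2 * b * Real.log T) = T ^ (2 * b) := by
    rw [Real.rpow_def_of_pos hT0]; ring_nf
  rw [hexp] at h2
  have ht := abs_nonneg t
  have h3 : (C * T ^ (2 * b) / (1 + |t|)) ^ 2 ≤ C ^ 2 * T ^ (4 * b) * (1 + t ^ 2)⁻¹ := by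
    rw [div_pow, mul_pow, ← Real.rpow_natCast (T ^ (2 * b)), ← Real.rpow_mul hT0.le]
    rw [div_eq_mul_inv]
    have e4 : 2 * b * ((2:ℕ):ℝ) = 4 * b := by push_cast; ring
    rw [e4]
    apply mul_le_mul_of_nonneg_left _ (by positivity)
    apply inv_anti₀ (by positivity)
    have : t ^ 2 = |t| ^ 2 := (sq_abs t).symm
    rw [this]; nlinarith
  have h4 : |ψ 0 * X| ^ 2 = (ψ 0) ^ 2 * X ^ 2 := by rw [sq_abs, mul_pow]
  calc ‖Er ψ T t‖ ^ 2 ≤ (C * T ^ (2 * b) / (1 + |t|) + |ψ 0 * X|) ^ 2 :=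
        pow_le_pow_left₀ (norm_nonneg _) h2 2
    _ ≤ 2 * (C * T ^ (2 * b) / (1 + |t|)) ^ 2 + 2 * |ψ 0 * X| ^ 2 := by
        nlinarith [sq_nonneg (C * T ^ (2 * b) / (1 + |t|) - |ψ 0 * X|)]
    _ ≤ _ := by rw [h4]; linarith

lemma Er_meas (h : TF ψ b) {T : ℝ} (hT : 0 < Real.log T) : AEStronglyMeasurable (Er ψ T) volume :=
  (Zs_meas h _).sub (Complex.continuous_ofReal.comp (RmZ_continuous h hT)).aestronglyMeasurable

lemma Er_bound_integrable (C c T : ℝ) : IntervalIntegrable (fun t : ℝ =>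
      2 * c ^ 2 * (Real.log ((1 + |t|) / (2 * π)) / Real.log T - 1) ^ 2 +
      C * T ^ (4 * b) * (1 + t ^ 2)⁻¹) volume 0 T := by
  apply Continuous.intervalIntegrable
  apply Continuous.add
  · apply Continuous.mul continuous_const
    apply Continuous.pow
    apply Continuous.sub _ continuous_const
    apply Continuous.div_const
    apply Continuous.log (by fun_prop)
    intro t
    have := abs_nonneg t
    positivity
  · apply Continuous.mul continuous_const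
    apply Continuous.inv₀ (by fun_prop)
    intro t; positivity

lemma Er_sq_integrable (h : TF ψ b) (hb : 0 < b) (heven : ∀ v, ψ (-v) = ψ v) {T : ℝ}
    (hT : Real.exp 1 ≤ T) : IntervalIntegrable (fun t => ‖Er ψ T t‖ ^ 2) volume 0 T := by
  obtain ⟨C, hC, hbd⟩ := Er_bound h hb heven
  have hT0 : 0 < T := (Real.exp_pos 1).trans_le hT
  have hL1 : 1 ≤ Real.log T := by rw [Real.le_log_iff_exp_le hT0]; exact hT
  refine (Er_bound_integrable (b := b) C (ψ 0) T).mono_fun' ?_ (Eventually.of_forall fun t => ?_)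
  · exact ((Er_meas h (by linarith)).norm.pow 2).restrict
  · simp only
    rw [Real.norm_of_nonneg (by positivity)]
    exact hbd T hT t

lemma Er_small (h : TF ψ b) (hb : 0 < b) (hb8 : b ≤ 1/8) (heven : ∀ v, ψ (-v) = ψ v) :
    Tendsto (fun T : ℝ => T⁻¹ * ∫ t in (0:ℝ)..T, ‖Er ψ T t‖ ^ 2) atTop (𝓝 0) := by
  obtain ⟨C, hC, hbd⟩ := Er_bound h hb heven
  have hub : ∀ᶠ T : ℝ in atTop, T⁻¹ * ∫ t in (0:ℝ)..T, ‖Er ψ T t‖ ^ 2 ≤
      2 * (ψ 0) ^ 2 * (T⁻¹ * ∫ t in (0:ℝ)..T, (Real.log ((1 + |t|) / (2 * π)) / Real.log T - 1) ^ 2) +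
      C * π * T ^ (-(1/2) : ℝ) := by
    filter_upwards [eventually_ge_atTop (Real.exp 1)] with T hT
    have hT0 : 0 < T := (Real.exp_pos 1).trans_le hT
    have hT1 : 1 ≤ T := by have := Real.add_one_le_exp 1; linarith
    have hm : ∫ t in (0:ℝ)..T, ‖Er ψ T t‖ ^ 2 ≤ ∫ t in (0:ℝ)..T,
        (2 * (ψ 0) ^ 2 * (Real.log ((1 + |t|) / (2 * π)) / Real.log T - 1) ^ 2 +
        C * T ^ (4 * b) * (1 + t ^ 2)⁻¹) := by
      apply intervalIntegral.integral_mono_on hT0.le (Er_sq_integrable h hb heven hT)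
        (Er_bound_integrable C (ψ 0) T)
      intro t _
      exact hbd T hT t
    have hc1 : IntervalIntegrable (fun t : ℝ => (Real.log ((1 + |t|) / (2 * π)) / Real.log T - 1) ^ 2)
        volume 0 T := by
      apply Continuous.intervalIntegrable
      apply Continuous.pow
      apply Continuous.sub _ continuous_const
      apply Continuous.div_const
      apply Continuous.log (by fun_prop)
      intro t
      have := abs_nonneg t
      positivity
    have hc2 : IntervalIntegrable (fun t : ℝ => (1 + t ^ 2)⁻¹) volume 0 T := by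
      apply Continuous.intervalIntegrable
      apply Continuous.inv₀ (by fun_prop)
      intro t; positivity
    rw [intervalIntegral.integral_add (hc1.const_mul _) (hc2.const_mul _),
      intervalIntegral.integral_const_mul, intervalIntegral.integral_const_mul] at hm
    have hpi : ∫ t in (0:ℝ)..T, (1 + t ^ 2)⁻¹ ≤ π := by
      rw [intervalIntegral.integral_of_le hT0.le, ← integral_univ_inv_one_add_sq]
      apply setIntegral_le_integral integrable_inv_one_add_sq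
      exact Eventually.of_forall fun t => by positivity
    have hpow : T⁻¹ * T ^ (4 * b) ≤ T ^ (-(1/2) : ℝ) := by
      rw [← Real.rpow_neg_one, ← Real.rpow_add hT0]
      apply Real.rpow_le_rpow_of_exponent_le hT1
      linarith
    calc T⁻¹ * ∫ t in (0:ℝ)..T, ‖Er ψ T t‖ ^ 2 ≤ T⁻¹ * (2 * (ψ 0) ^ 2 *
          (∫ t in (0:ℝ)..T, (Real.log ((1 + |t|) / (2 * π)) / Real.log T - 1) ^ 2) +
          C * T ^ (4 * b) * ∫ t in (0:ℝ)..T, (1 + t ^ 2)⁻¹) :=
          mul_le_mul_of_nonneg_left hm (by positivity)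
      _ ≤ T⁻¹ * (2 * (ψ 0) ^ 2 *
          (∫ t in (0:ℝ)..T, (Real.log ((1 + |t|) / (2 * π)) / Real.log T - 1) ^ 2) +
          C * T ^ (4 * b) * π) := by gcongr
      _ = 2 * (ψ 0) ^ 2 * (T⁻¹ * ∫ t in (0:ℝ)..T, (Real.log ((1 + |t|) / (2 * π)) / Real.log T - 1) ^ 2) +
          C * π * (T⁻¹ * T ^ (4 * b)) := by ring
      _ ≤ _ := by gcongr
  have hlb : ∀ᶠ T : ℝ in atTop, 0 ≤ T⁻¹ * ∫ t in (0:ℝ)..T, ‖Er ψ T t‖ ^ 2 := by
    filter_upwards [eventually_gt_atTop 0] with T hT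
    apply mul_nonneg (by positivity)
    exact intervalIntegral.integral_nonneg hT.le fun t _ => sq_nonneg _
  have hz : Tendsto (fun T : ℝ => 2 * (ψ 0) ^ 2 *
      (T⁻¹ * ∫ t in (0:ℝ)..T, (Real.log ((1 + |t|) / (2 * π)) / Real.log T - 1) ^ 2) +
      C * π * T ^ (-(1/2) : ℝ)) atTop (𝓝 0) := by
    have h1 := log_factor_small.const_mul (2 * (ψ 0) ^ 2)
    have h2 := (tendsto_rpow_neg_atTop (y := 1/2) (by norm_num)).const_mul (C * π)
    have := h1.add h2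
    simpa using this
  exact tendsto_of_tendsto_of_tendsto_of_le_of_le' tendsto_const_nhds hz hlb hub

lemma tendsto_zero_of_eps {l : Filter ℝ} {f A E : ℝ → ℝ} {a : ℝ} (hf : ∀ᶠ T in l, 0 ≤ f T)
    (hb : ∀ ε : ℝ, 0 < ε → ε ≤ 1 → ∀ᶠ T in l, f T ≤ ε * A T + (2 / ε) * E T)
    (hA : Tendsto A l (𝓝 a)) (hE : Tendsto E l (𝓝 0)) : Tendsto f l (𝓝 0) := by
  rw [Metric.tendsto_nhds]
  intro δ hδ
  set ε : ℝ := min 1 (δ / (4 * (|a| + 1))) with hε
  have ha := abs_nonneg a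
  have hε0 : 0 < ε := lt_min one_pos (by positivity)
  have h1 : ∀ᶠ T in l, A T < |a| + 1 := hA.eventually_lt_const (by linarith [le_abs_self a])
  have h2 : ∀ᶠ T in l, E T < ε * δ / 4 := hE.eventually_lt_const (by positivity)
  filter_upwards [hf, hb ε hε0 (min_le_left _ _), h1, h2] with T g1 g2 g3 g4
  rw [Real.dist_eq, sub_zero, abs_of_nonneg g1]
  have h3 : ε * A T ≤ δ / 4 := by
    calc ε * A T ≤ ε * (|a| + 1) := mul_le_mul_of_nonneg_left g3.le hε0.le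
      _ ≤ (δ / (4 * (|a| + 1))) * (|a| + 1) := mul_le_mul_of_nonneg_right (min_le_right _ _) (by positivity)
      _ = δ / 4 := by field_simp
  have h4 : (2 / ε) * E T ≤ δ / 2 := by
    calc (2 / ε) * E T ≤ (2 / ε) * (ε * δ / 4) := mul_le_mul_of_nonneg_left g4.le (by positivity)
      _ = δ / 2 := by field_simp; ring
  linarith

/-- the quadratic mean, from (D) -/
lemma RmZ_sq (hD : StatementD) (h : TF ψ (1/8)) (heven : ∀ v, ψ (-v) = ψ v) :
    Tendsto (fun T : ℝ => T⁻¹ * ∫ t in (0:ℝ)..T, (RmZ ψ T t) ^ 2) atTop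
      (𝓝 (ψ 0 ^ 2 + ∫ v, |v| * ψ v ^ 2)) := hD ψ h heven

lemma RmZ_mul (hD : StatementD) {χ : ℝ → ℝ} (h : TF ψ (1/8)) (heven : ∀ v, ψ (-v) = ψ v)
    (h' : TF χ (1/8)) (heven' : ∀ v, χ (-v) = χ v) :
    Tendsto (fun T : ℝ => T⁻¹ * ∫ t in (0:ℝ)..T, RmZ χ T t * RmZ ψ T t) atTop
      (𝓝 (χ 0 * ψ 0 + ∫ v, |v| * (χ v * ψ v))) := by
  have hp := RmZ_sq hD (h'.add h) (by intro v; rw [heven, heven'])
  have hm := RmZ_sq hD (h'.sub h) (by intro v; rw [heven, heven'])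
  have h1 := (hp.sub hm).const_mul (1/4)
  have hint : ∀ f g : ℝ → ℝ, TF f (1/8) → TF g (1/8) → Integrable (fun v => |v| * (f v * g v)) := by
    intro f g hf hg
    apply Continuous.integrable_of_hasCompactSupport
    · have := hf.cont
      have := hg.cont
      fun_prop
    · apply HasCompactSupport.mul_left
      exact hf.hasCompactSupport.mul_right
  have hval : (1/4) * ((χ 0 + ψ 0) ^ 2 + (∫ v, |v| * (χ v + ψ v) ^ 2) -
      ((χ 0 - ψ 0) ^ 2 + ∫ v, |v| * (χ v - ψ v) ^ 2)) = χ 0 * ψ 0 + ∫ v, |v| * (χ v * ψ v) := by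
    have i11 : Integrable (fun v => |v| * (χ v * χ v)) := hint χ χ h' h'
    have i12 : Integrable (fun v => 2 * (|v| * (χ v * ψ v))) := (hint χ ψ h' h).const_mul 2
    have i13 : Integrable (fun v => |v| * (χ v * χ v) + 2 * (|v| * (χ v * ψ v))) := i11.add i12
    have i14 : Integrable (fun v => |v| * (χ v * χ v) - 2 * (|v| * (χ v * ψ v))) := i11.sub i12
    have i15 : Integrable (fun v => |v| * (ψ v * ψ v)) := hint ψ ψ h h
    have e1 : ∫ v, |v| * (χ v + ψ v) ^ 2 = (∫ v, |v| * (χ v * χ v)) + 2 * (∫ v, |v| * (χ v * ψ v)) +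
        ∫ v, |v| * (ψ v * ψ v) := by
      rw [← integral_const_mul, ← integral_add i11 i12, ← integral_add i13 i15]
      congr 1
      ext v; ring
    have e2 : ∫ v, |v| * (χ v - ψ v) ^ 2 = (∫ v, |v| * (χ v * χ v)) - 2 * (∫ v, |v| * (χ v * ψ v)) +
        ∫ v, |v| * (ψ v * ψ v) := by
      rw [← integral_const_mul, ← integral_sub i11 i12, ← integral_add i14 i15]
      congr 1
      ext v; ring
    rw [e1, e2]; ring
  rw [hval] at h1
  refine h1.congr' ?_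
  filter_upwards [eventually_gt_atTop 1] with T hT
  have hL : 0 < Real.log T := Real.log_pos hT
  have c1 := RmZ_continuous h hL
  have c2 := RmZ_continuous h' hL
  have e3 : ∀ t, RmZ (fun v => χ v + ψ v) T t = RmZ χ T t + RmZ ψ T t := by
    intro t; unfold RmZ; rw [PP_add h' h hL]; ring
  have e4 : ∀ t, RmZ (fun v => χ v - ψ v) T t = RmZ χ T t - RmZ ψ T t := by
    intro t; unfold RmZ; rw [PP_sub h' h hL]; ring
  simp_rw [e3, e4]
  have j1 : IntervalIntegrable (fun t => (RmZ χ T t + RmZ ψ T t) ^ 2) volume 0 T :=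
    ((c2.add c1).pow 2).intervalIntegrable _ _
  have j2 : IntervalIntegrable (fun t => (RmZ χ T t - RmZ ψ T t) ^ 2) volume 0 T :=
    ((c2.sub c1).pow 2).intervalIntegrable _ _
  rw [← mul_sub, ← intervalIntegral.integral_sub j1 j2, mul_left_comm,
    ← intervalIntegral.integral_const_mul]
  congr 2
  ext t; ring

/-- the product of the zero sums -/
lemma Zs_mul (hD : StatementD) {χ : ℝ → ℝ} (h : TF ψ (1/8)) (heven : ∀ v, ψ (-v) = ψ v)
    (h' : TF χ (1/8)) (heven' : ∀ v, χ (-v) = χ v) :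
    Tendsto (fun T : ℝ => (T⁻¹ : ℂ) * ∫ t in (0:ℝ)..T, Zs χ (Real.log T) t * Zs ψ (Real.log T) t) atTop
      (𝓝 ((χ 0 * ψ 0 + ∫ v, |v| * (χ v * ψ v) : ℝ) : ℂ)) := by
  have hR := RmZ_mul hD h heven h' heven'
  have hR' : Tendsto (fun T : ℝ => ((T⁻¹ * ∫ t in (0:ℝ)..T, RmZ χ T t * RmZ ψ T t : ℝ) : ℂ)) atTop
      (𝓝 ((χ 0 * ψ 0 + ∫ v, |v| * (χ v * ψ v) : ℝ) : ℂ)) :=
    (Complex.continuous_ofReal.tendsto _).comp hR
  have hdiff : Tendsto (fun T : ℝ => (T⁻¹ : ℂ) * (∫ t in (0:ℝ)..T, Zs χ (Real.log T) t * Zs ψ (Real.log T) t) -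
      ((T⁻¹ * ∫ t in (0:ℝ)..T, RmZ χ T t * RmZ ψ T t : ℝ) : ℂ)) atTop (𝓝 0) := by
    rw [tendsto_zero_iff_norm_tendsto_zero]
    have a1 := Er_small h (by norm_num) le_rfl heven
    have a2 := Er_small h' (by norm_num) le_rfl heven'
    have b1 := RmZ_sq hD h heven
    have b2 := RmZ_sq hD h' heven'
    apply tendsto_zero_of_eps (A := fun T => (T⁻¹ * ∫ t in (0:ℝ)..T, (RmZ ψ T t) ^ 2) +
        (T⁻¹ * ∫ t in (0:ℝ)..T, (RmZ χ T t) ^ 2))
      (E := fun T => (T⁻¹ * ∫ t in (0:ℝ)..T, ‖Er ψ T t‖ ^ 2) + (T⁻¹ * ∫ t in (0:ℝ)..T, ‖Er χ T t‖ ^ 2))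
      (Eventually.of_forall fun T => norm_nonneg _) _ (b1.add b2) (by simpa using a1.add a2)
    intro ε hε hε1
    filter_upwards [eventually_ge_atTop (Real.exp 1)] with T hT
    have hT0 : 0 < T := (Real.exp_pos 1).trans_le hT
    have hL1 : 1 ≤ Real.log T := by rw [Real.le_log_iff_exp_le hT0]; exact hT
    have hL : 0 < Real.log T := by linarith
    have c1 := RmZ_continuous h hL
    have c2 := RmZ_continuous h' hL
    have i1 := Er_sq_integrable h (by norm_num) heven hT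
    have i2 := Er_sq_integrable h' (by norm_num) heven' hT
    have ib : IntervalIntegrable (fun t => ε * ((RmZ ψ T t) ^ 2 + (RmZ χ T t) ^ 2) +
        (2 / ε) * (‖Er ψ T t‖ ^ 2 + ‖Er χ T t‖ ^ 2)) volume 0 T :=
      (((c1.pow 2).add (c2.pow 2)).intervalIntegrable _ _ |>.const_mul ε).add ((i1.add i2).const_mul _)
    have hpt : ∀ t, ‖Zs χ (Real.log T) t * Zs ψ (Real.log T) t - ((RmZ χ T t * RmZ ψ T t : ℝ) : ℂ)‖ ≤
        ε * ((RmZ ψ T t) ^ 2 + (RmZ χ T t) ^ 2) + (2 / ε) * (‖Er ψ T t‖ ^ 2 + ‖Er χ T t‖ ^ 2) := by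
      intro t
      have e1 : Zs χ (Real.log T) t * Zs ψ (Real.log T) t - ((RmZ χ T t * RmZ ψ T t : ℝ) : ℂ) =
          (RmZ χ T t : ℂ) * Er ψ T t + Er χ T t * (RmZ ψ T t : ℂ) + Er χ T t * Er ψ T t := by
        unfold Er; push_cast; ring
      rw [e1]
      have n1 : ‖(RmZ χ T t : ℂ) * Er ψ T t + Er χ T t * (RmZ ψ T t : ℂ) + Er χ T t * Er ψ T t‖ ≤
          |RmZ χ T t| * ‖Er ψ T t‖ + ‖Er χ T t‖ * |RmZ ψ T t| + ‖Er χ T t‖ * ‖Er ψ T t‖ := by
        refine (norm_add_le _ _).trans (add_le_add ((norm_add_le _ _).trans (add_le_add ?_ ?_)) ?_)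
        · rw [norm_mul, Complex.norm_real, Real.norm_eq_abs]
        · rw [norm_mul, Complex.norm_real, Real.norm_eq_abs]
        · rw [norm_mul]
      refine n1.trans ?_
      have am : ∀ x y : ℝ, x * y ≤ ε * x ^ 2 + (1 / ε) * y ^ 2 := by
        intro x y
        have h5 : 0 ≤ (ε * x - y / 2) ^ 2 := sq_nonneg _
        have h6 : ε * (ε * x ^ 2 + (1 / ε) * y ^ 2 - x * y) ≥ 0 := by
          have : ε * (ε * x ^ 2 + (1 / ε) * y ^ 2 - x * y) = ε ^ 2 * x ^ 2 + y ^ 2 - ε * x * y := by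
            field_simp
          rw [this]; nlinarith [sq_nonneg y]
        have := (mul_nonneg_iff_of_pos_left hε).1 h6
        linarith
      have m1 := am |RmZ χ T t| ‖Er ψ T t‖
      have m2 := am |RmZ ψ T t| ‖Er χ T t‖
      rw [sq_abs] at m1 m2
      have m3 : ‖Er χ T t‖ * ‖Er ψ T t‖ ≤ (1 / ε) * (‖Er ψ T t‖ ^ 2 + ‖Er χ T t‖ ^ 2) := by
        have h7 : (1:ℝ) ≤ 1 / ε := by rw [le_div_iff₀ hε]; linarith
        have h8 : 0 ≤ ‖Er ψ T t‖ ^ 2 + ‖Er χ T t‖ ^ 2 := by positivity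
        calc ‖Er χ T t‖ * ‖Er ψ T t‖ ≤ 1 * (‖Er ψ T t‖ ^ 2 + ‖Er χ T t‖ ^ 2) := by
              nlinarith [sq_nonneg (‖Er χ T t‖ - ‖Er ψ T t‖), sq_nonneg (‖Er χ T t‖), sq_nonneg (‖Er ψ T t‖)]
          _ ≤ _ := mul_le_mul_of_nonneg_right h7 h8
      have m4 : (2:ℝ) / ε = 1 / ε + 1 / ε := by ring
      rw [m4]
      nlinarith [mul_comm ‖Er χ T t‖ |RmZ ψ T t|]
    have hmeas : AEStronglyMeasurable (fun t => Zs χ (Real.log T) t * Zs ψ (Real.log T) t -
        ((RmZ χ T t * RmZ ψ T t : ℝ) : ℂ)) (volume.restrict (Set.uIoc 0 T)) := by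
      apply AEStronglyMeasurable.sub
      · exact ((Zs_meas h' _).mul (Zs_meas h _)).restrict
      · exact (Complex.continuous_ofReal.comp (c2.mul c1)).aestronglyMeasurable
    have iD : IntervalIntegrable (fun t => Zs χ (Real.log T) t * Zs ψ (Real.log T) t -
        ((RmZ χ T t * RmZ ψ T t : ℝ) : ℂ)) volume 0 T :=
      ib.mono_fun' hmeas (Eventually.of_forall hpt)
    have iR : IntervalIntegrable (fun t => ((RmZ χ T t * RmZ ψ T t : ℝ) : ℂ)) volume 0 T :=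
      (Complex.continuous_ofReal.comp (c2.mul c1)).intervalIntegrable _ _
    have eq1 : (T⁻¹ : ℂ) * (∫ t in (0:ℝ)..T, Zs χ (Real.log T) t * Zs ψ (Real.log T) t) -
        ((T⁻¹ * ∫ t in (0:ℝ)..T, RmZ χ T t * RmZ ψ T t : ℝ) : ℂ) =
        (T⁻¹ : ℂ) * ∫ t in (0:ℝ)..T, (Zs χ (Real.log T) t * Zs ψ (Real.log T) t -
          ((RmZ χ T t * RmZ ψ T t : ℝ) : ℂ)) := by
      have iZ : IntervalIntegrable (fun t => Zs χ (Real.log T) t * Zs ψ (Real.log T) t) volume 0 T := by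
        have := iD.add iR
        refine this.congr (fun t _ => ?_)
        simp
      rw [intervalIntegral.integral_sub iZ iR, intervalIntegral.integral_ofReal]
      push_cast; ring
    rw [eq1, norm_mul, norm_inv, Complex.norm_real, Real.norm_of_nonneg hT0.le]
    have n2 : ‖∫ t in (0:ℝ)..T, (Zs χ (Real.log T) t * Zs ψ (Real.log T) t -
          ((RmZ χ T t * RmZ ψ T t : ℝ) : ℂ))‖ ≤ ∫ t in (0:ℝ)..T, (ε * ((RmZ ψ T t) ^ 2 + (RmZ χ T t) ^ 2) +
        (2 / ε) * (‖Er ψ T t‖ ^ 2 + ‖Er χ T t‖ ^ 2)) :=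
      intervalIntegral.norm_integral_le_of_norm_le hT0.le (Eventually.of_forall fun t _ => hpt t) ib
    have i3 : IntervalIntegrable (fun t => (RmZ ψ T t) ^ 2) volume 0 T :=
      (c1.pow 2).intervalIntegrable (μ := volume) 0 T
    have i4 : IntervalIntegrable (fun t => (RmZ χ T t) ^ 2) volume 0 T :=
      (c2.pow 2).intervalIntegrable (μ := volume) 0 T
    have i5 : IntervalIntegrable (fun t => ε * ((RmZ ψ T t) ^ 2 + (RmZ χ T t) ^ 2)) volume 0 T :=
      (i3.add i4).const_mul ε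
    have i6 : IntervalIntegrable (fun t => (2 / ε) * (‖Er ψ T t‖ ^ 2 + ‖Er χ T t‖ ^ 2)) volume 0 T :=
      (i1.add i2).const_mul (2 / ε)
    rw [intervalIntegral.integral_add i5 i6,
      intervalIntegral.integral_const_mul, intervalIntegral.integral_const_mul,
      intervalIntegral.integral_add i3 i4, intervalIntegral.integral_add i1 i2] at n2
    calc T⁻¹ * _ ≤ T⁻¹ * _ := mul_le_mul_of_nonneg_left n2 (by positivity)
      _ = _ := by ring
  have := hdiff.add hR'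
  simpa using this

end Pool.Agent.PairCorr
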