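import Mathlib
import Pool.Agent.PairCorr.S_MeanSq

set_option autoImplicit false

namespace Pool.Agent.PairCorr

open MeasureTheory Filter Topology Set Real
open scoped ENNReal ArithmeticFunction.vonMangoldt

/-- an even smooth function equal to `1` on `[-1/16,1/16]` and `0` off `[-1/8,1/8]` -/
noncomputable def bump8 (v : ℝ) : ℝ := Real.smoothTransition (((1/8)^2 - v^2) / ((1/8)^2 - (1/16)^2))

lemma bump8_TF : TF bump8 (1/8) where
  smooth := by
    unfold bump8
    exact Real.smoothTransition.contDiff.comp (by fun_prop)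
  supp := by
    intro v hv
    unfold bump8
    apply Real.smoothTransition.zero_of_nonpos
    apply div_nonpos_of_nonpos_of_nonneg _ (by norm_num)
    have : (1/8:ℝ)^2 < v^2 := by
      rw [← sq_abs v]
      exact pow_lt_pow_left₀ hv (by norm_num) (by norm_num)
    linarith

lemma bump8_even (v : ℝ) : bump8 (-v) = bump8 v := by
  unfold bump8; rw [neg_sq]

lemma bump8_one {v : ℝ} (hv : |v| ≤ 1/16) : bump8 v = 1 := by
  unfold bump8
  apply Real.smoothTransition.one_of_one_le
  rw [le_div_iff₀ (by norm_num)]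
  have : v^2 ≤ (1/16:ℝ)^2 := by
    rw [← sq_abs v]
    exact pow_le_pow_left₀ (abs_nonneg _) hv 2
  linarith

theorem statementS_of (hD : StatementD) : StatementS := by
  refine ⟨1/16, by norm_num, fun χ hχ heven => ?_⟩
  have hχ8 : TF χ (1/8) := hχ.mono (by norm_num)
  have h1 := Zs_mul hD bump8_TF bump8_even hχ8 heven
  obtain ⟨C, hC, h2⟩ := Z_product hχ8 bump8_TF (by norm_num) (by norm_num)
  have hprod : ∀ v, χ v * bump8 v = χ v := by
    intro v
    by_cases hv : |v| ≤ 1/16
    · rw [bump8_one hv, mul_one]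
    · push Not at hv
      rw [hχ.supp v hv, zero_mul]
  have hprod' : (fun v => χ v * bump8 (-v)) = χ := by
    funext v
    rw [bump8_even, hprod]
  rw [hprod'] at h2
  have hb0 : bump8 0 = 1 := bump8_one (by norm_num)
  simp only [hprod, hb0, mul_one] at h1
  have hdiff : Tendsto (fun T : ℝ => (T⁻¹ : ℂ) * (∫ t in (0:ℝ)..T, Zs χ (Real.log T) t * Zs bump8 (Real.log T) t) -
      Spair χ T / ((T * Real.log T / (2 * Real.pi) : ℝ) : ℂ)) atTop (𝓝 0) := by
    rw [tendsto_zero_iff_norm_tendsto_zero]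
    have hub : ∀ᶠ T : ℝ in atTop, ‖(T⁻¹ : ℂ) * (∫ t in (0:ℝ)..T, Zs χ (Real.log T) t * Zs bump8 (Real.log T) t) -
      Spair χ T / ((T * Real.log T / (2 * Real.pi) : ℝ) : ℂ)‖ ≤
        C * 256 * T ^ (-(1/4) : ℝ) := by
      filter_upwards [eventually_ge_atTop (Real.exp 1)] with T hT
      have hT0 : 0 < T := (Real.exp_pos 1).trans_le hT
      have hT2 : 2 ≤ T := by have := Real.add_one_le_exp 1; linarith
      have hL1 : 1 ≤ Real.log T := by rw [Real.le_log_iff_exp_le hT0]; exact hT
      have hL : 0 < Real.log T := by linarith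
      have h3 := h2 T hT
      have e : (T⁻¹ : ℂ) * (∫ t in (0:ℝ)..T, Zs χ (Real.log T) t * Zs bump8 (Real.log T) t) -
          Spair χ T / ((T * Real.log T / (2 * Real.pi) : ℝ) : ℂ) =
          (T⁻¹ : ℂ) * ((∫ t in (0:ℝ)..T, Zs χ (Real.log T) t * Zs bump8 (Real.log T) t) -
            (2 * π / Real.log T : ℝ) * Spair χ T) := by
        have c1 : (T : ℂ) ≠ 0 := by exact_mod_cast hT0.ne'
        have c2 : ((Real.log T : ℝ) : ℂ) ≠ 0 := by exact_mod_cast hL.ne'
        have c3 : (π : ℂ) ≠ 0 := by exact_mod_cast Real.pi_ne_zero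
        push_cast
        push_cast at c2
        field_simp
      rw [e, norm_mul, norm_inv, Complex.norm_real, Real.norm_of_nonneg hT0.le]
      have hlog : Real.log (T + 2) ^ 2 ≤ 256 * T ^ (1/4 : ℝ) := by
        have g1 : Real.log (T + 2) ≤ Real.log (T ^ (2:ℝ)) := by
          apply Real.log_le_log (by linarith)
          rw [Real.rpow_two]; nlinarith
        have g2 : Real.log (T ^ (2:ℝ)) = 2 * Real.log T := Real.log_rpow hT0 2
        have g3 : Real.log T ≤ 8 * T ^ (1/8 : ℝ) := by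
          have := Real.log_le_rpow_div hT0.le (ε := 1/8) (by norm_num)
          linarith
        have g4 : Real.log (T + 2) ≤ 16 * T ^ (1/8 : ℝ) := by rw [g2] at g1; linarith
        have g5 : 0 ≤ Real.log (T + 2) := Real.log_nonneg (by linarith)
        calc Real.log (T + 2) ^ 2 ≤ (16 * T ^ (1/8 : ℝ)) ^ 2 := pow_le_pow_left₀ g5 g4 2
          _ = 256 * T ^ (1/4 : ℝ) := by
            rw [mul_pow, ← Real.rpow_natCast (T ^ (1/8 : ℝ)), ← Real.rpow_mul hT0.le]
            norm_num
      have hexp : Real.exp ((1/8 + 1/8) * Real.log T / 2) = T ^ (1/8 : ℝ) := by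
        rw [Real.rpow_def_of_pos hT0]; ring_nf
      rw [hexp] at h3
      have hp : T⁻¹ * (T ^ (1/8 : ℝ) * T ^ (1/4 : ℝ)) ≤ T ^ (-(1/4) : ℝ) := by
        rw [← Real.rpow_neg_one, ← Real.rpow_add hT0, ← Real.rpow_add hT0]
        apply Real.rpow_le_rpow_of_exponent_le (by linarith)
        norm_num
      calc T⁻¹ * ‖(∫ t in (0:ℝ)..T, Zs χ (Real.log T) t * Zs bump8 (Real.log T) t) -
            (2 * π / Real.log T : ℝ) * Spair χ T‖ ≤ T⁻¹ * (C * T ^ (1/8 : ℝ) * Real.log (T + 2) ^ 2) :=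
            mul_le_mul_of_nonneg_left h3 (by positivity)
        _ ≤ T⁻¹ * (C * T ^ (1/8 : ℝ) * (256 * T ^ (1/4 : ℝ))) := by gcongr
        _ = C * 256 * (T⁻¹ * (T ^ (1/8 : ℝ) * T ^ (1/4 : ℝ))) := by ring
        _ ≤ _ := by gcongr
    have hz : Tendsto (fun T : ℝ => C * 256 * T ^ (-(1/4) : ℝ)) atTop (𝓝 0) := by
      have := (tendsto_rpow_neg_atTop (y := 1/4) (by norm_num)).const_mul (C * 256)
      simpa using this
    exact tendsto_of_tendsto_of_tendsto_of_le_of_le' tendsto_const_nhds hz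
      (Eventually.of_forall fun T => norm_nonneg _) hub
  have := h1.sub hdiff
  simpa using this

end Pool.Agent.PairCorr
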