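import Mathlib
import Pool.Agent.PairCorr.A_Count
import Pool.Agent.PairCorr.S_Final
import Pool.Agent.PairCorr.OD

set_option autoImplicit false

namespace Pool.Agent.PairCorr

open MeasureTheory Filter Topology Set Real
open scoped ENNReal

lemma NT_pos {T : ℝ} (hT : 1 ≤ Real.log T) (hT0 : 0 < T) : 0 < NT T := by
  unfold NT; have := Real.pi_pos; positivity

lemma tail_abs_bound {q : ℝ → ℝ} (h : RapidDecay q) :
    ∃ K : ℝ, 0 ≤ K ∧ ∀ y : ℝ, 0 ≤ y → ∫ u in Ici y, |q u| ≤ K * ((1 + |y|) ^ 2)⁻¹ := by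
  obtain ⟨K, hK, hb⟩ := h 4
  refine ⟨K * ∫ t : ℝ, ((1 + |t|) ^ 2)⁻¹, ?_, ?_⟩
  · have : 0 ≤ ∫ t : ℝ, ((1 + |t|) ^ 2)⁻¹ := integral_nonneg fun _ => by positivity
    positivity
  intro y hy
  have h1 : ‖∫ u in Ici y, |q u|‖ ≤ ∫ u in Ici y, (K * ((1 + |y|) ^ 2)⁻¹) * ((1 + |u|) ^ 2)⁻¹ := by
    apply norm_integral_le_of_norm_le (integrable_inv_sq.const_mul _).integrableOn
    filter_upwards [ae_restrict_mem measurableSet_Ici] with s hs
    have hs' : y ≤ s := hs
    rw [Real.norm_eq_abs, abs_abs]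
    refine (hb s).trans ?_
    rw [mul_assoc]
    apply mul_le_mul_of_nonneg_left _ hK
    rw [show (4:ℕ) = 2 + 2 by norm_num, pow_add, mul_inv]
    apply mul_le_mul_of_nonneg_right _ (by positivity)
    apply inv_anti₀ (by positivity)
    apply pow_le_pow_left₀ (by positivity)
    rw [abs_of_nonneg hy, abs_of_nonneg (hy.trans hs')]
    linarith
  rw [integral_const_mul] at h1
  refine (le_abs_self _).trans (h1.trans ?_)
  have h2 : ∫ s in Ici y, ((1 + |s|) ^ 2)⁻¹ ≤ ∫ t : ℝ, ((1 + |t|) ^ 2)⁻¹ :=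
    setIntegral_le_integral integrable_inv_sq (Eventually.of_forall fun _ => by positivity)
  calc K * ((1 + |y|) ^ 2)⁻¹ * ∫ s in Ici y, ((1 + |s|) ^ 2)⁻¹ ≤
      K * ((1 + |y|) ^ 2)⁻¹ * ∫ t : ℝ, ((1 + |t|) ^ 2)⁻¹ := mul_le_mul_of_nonneg_left h2 (by positivity)
    _ = _ := by ring

lemma NSset_eq {T : ℝ} (hT : 1 ≤ Real.log T) (u : ℝ) :
    NSset T u = {p : ℂ × ℂ | p.2.im < p.1.im} ∩ {p | yy T p ≤ u} := by
  have hL : 0 < Real.log T := by linarith
  have hpi := Real.pi_pos
  ext p
  constructor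
  · rintro ⟨h1, h2⟩
    refine ⟨by simpa using h1, ?_⟩
    show Real.log T * (p.1.im - p.2.im) / (2 * π) ≤ u
    rw [div_le_iff₀ (by positivity)]
    rw [le_div_iff₀ hL] at h2
    linarith
  · rintro ⟨h1, h2⟩
    have h1' : p.2.im < p.1.im := h1
    have h2' : Real.log T * (p.1.im - p.2.im) / (2 * π) ≤ u := h2
    refine ⟨by linarith, ?_⟩
    rw [div_le_iff₀ (by positivity)] at h2'
    rw [le_div_iff₀ hL]
    linarith

lemma yy_pos {T : ℝ} (hT : 1 ≤ Real.log T) {p : ℂ × ℂ} (hp : p.2.im < p.1.im) : 0 < yy T p := by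
  have hL : 0 < Real.log T := by linarith
  have hpi := Real.pi_pos
  unfold yy
  have : 0 < p.1.im - p.2.im := by linarith
  positivity

/-- Fubini for the upper pairs. -/
lemma fubini_pos {q : ℝ → ℝ} (hqc : Continuous q) (h : RapidDecay q) {T : ℝ} (hT : 1 ≤ Real.log T) :
    IntegrableOn (fun u => q u * ((nu T) (NSset T u)).toReal) (Ioi 0) ∧
    ∫ p in {p : ℂ × ℂ | p.2.im < p.1.im}, tailF q (yy T p) ∂(nu T) =
      ∫ u in Ioi 0, q u * ((nu T) (NSset T u)).toReal := by
  have hqi := h.integrable hqc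
  obtain ⟨K, hK, hb⟩ := tail_abs_bound h
  set A : Set (ℂ × ℂ) := {p : ℂ × ℂ | p.2.im < p.1.im} with hA
  have hmA : MeasurableSet A := measurableSet_lt (by fun_prop) (by fun_prop)
  set S : Set ((ℂ × ℂ) × ℝ) := {x | yy T x.1 ≤ x.2} with hS
  have hmS : MeasurableSet S := measurableSet_le ((yy_measurable T).comp measurable_fst) measurable_snd
  set f : (ℂ × ℂ) → ℝ → ℝ := fun p u => S.indicator (fun x => q x.2) (p, u) with hf
  have hfm : Measurable (Function.uncurry f) := by
    have : Function.uncurry f = S.indicator (fun x => q x.2) := by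
      ext ⟨p, u⟩; rfl
    rw [this]
    exact (hqc.measurable.comp measurable_snd).indicator hmS
  have hfp : ∀ p u, f p u = (Ici (yy T p)).indicator q u := by
    intro p u
    simp only [hf]
    by_cases hpu : yy T p ≤ u
    · rw [indicator_of_mem (show (p, u) ∈ S from hpu), indicator_of_mem (show u ∈ Ici (yy T p) from hpu)]
    · rw [indicator_of_notMem (show (p, u) ∉ S from hpu), indicator_of_notMem (show u ∉ Ici (yy T p) from hpu)]
  have hset : ∀ p ∈ A, Ici (yy T p) ∩ Ioi 0 = Ici (yy T p) := by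
    intro p hp
    apply inter_eq_left.2
    intro u hu
    exact (yy_pos hT hp).trans_le hu
  have hint : Integrable (Function.uncurry f) (((nu T).restrict A).prod (volume.restrict (Ioi 0))) := by
    rw [integrable_prod_iff hfm.aestronglyMeasurable]
    refine ⟨Eventually.of_forall fun p => ?_, ?_⟩
    · have : (fun u => Function.uncurry f (p, u)) = (Ici (yy T p)).indicator q := by
        ext u; exact hfp p u
      rw [this]
      exact (hqi.indicator measurableSet_Ici).integrableOn
    · have hdom : Integrable (fun p : ℂ × ℂ => K * ((2 * π) ^ 2 * (1 + (p.2.im - p.1.im) ^ 2)⁻¹))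
          ((nu T).restrict A) := ((nu_weight_integrable T).const_mul _).const_mul _ |>.integrableOn
      refine Integrable.mono' hdom hfm.aestronglyMeasurable.norm.integral_prod_right' ?_
      filter_upwards [ae_restrict_mem hmA] with p hp
      rw [Real.norm_of_nonneg (integral_nonneg fun _ => norm_nonneg _)]
      have e : (fun u => ‖Function.uncurry f (p, u)‖) = (Ici (yy T p)).indicator (fun u => |q u|) := by
        ext u
        have : Function.uncurry f (p, u) = (Ici (yy T p)).indicator q u := hfp p u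
        rw [this, norm_indicator_eq_indicator_norm]
        rfl
      rw [e, integral_indicator measurableSet_Ici, Measure.restrict_restrict measurableSet_Ici, hset p hp]
      refine (hb _ (yy_pos hT hp).le).trans ?_
      apply mul_le_mul_of_nonneg_left _ hK
      refine (yy_lower hT p 2).trans ?_
      apply mul_le_mul_of_nonneg_left _ (by positivity)
      apply inv_anti₀ (by positivity)
      have h0 := abs_nonneg (p.1.im - p.2.im)
      have h2 : (p.2.im - p.1.im) ^ 2 = |p.1.im - p.2.im| ^ 2 := by rw [sq_abs]; ring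
      rw [h2]; nlinarith
  have hleft : ∀ p ∈ A, ∫ u in Ioi 0, f p u = tailF q (yy T p) := by
    intro p hp
    simp_rw [hfp p]
    rw [integral_indicator measurableSet_Ici, Measure.restrict_restrict measurableSet_Ici, hset p hp,
      integral_Ici_eq_integral_Ioi]
    rfl
  have hright : ∀ u, ∫ p in A, f p u ∂(nu T) = q u * ((nu T) (NSset T u)).toReal := by
    intro u
    have hmu : MeasurableSet {p : ℂ × ℂ | yy T p ≤ u} := measurableSet_le (yy_measurable T) measurable_const
    have e : ∀ p, f p u = {p : ℂ × ℂ | yy T p ≤ u}.indicator (fun _ => q u) p := by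
      intro p
      simp only [hf]
      by_cases hpu : yy T p ≤ u
      · rw [indicator_of_mem (show (p, u) ∈ S from hpu), indicator_of_mem (show p ∈ {p : ℂ × ℂ | yy T p ≤ u} from hpu)]
      · rw [indicator_of_notMem (show (p, u) ∉ S from hpu), indicator_of_notMem (show p ∉ {p : ℂ × ℂ | yy T p ≤ u} from hpu)]
    simp_rw [e]
    rw [integral_indicator hmu, Measure.restrict_restrict hmu, setIntegral_const, NSset_eq hT, inter_comm]
    rw [smul_eq_mul, mul_comm]
    rfl
  constructor
  · have h3 := hint.integral_prod_right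
    refine h3.congr (Eventually.of_forall fun u => ?_)
    exact hright u
  · have h4 := integral_integral_swap hint
    rw [setIntegral_congr_fun hmA (fun p hp => hleft p hp)] at h4
    rw [h4]
    congr 1
    ext u
    exact hright u


/-- **(AS0)** the ordinate pair sum in terms of the pair counting function. -/
theorem spair0_eq {χ q : ℝ → ℝ} (hqc : Continuous q) (h : RapidDecay q) (hodd : ∀ u, q (-u) = -q u)
    (hF : ∀ u : ℝ, Kc χ ((2 * π * u : ℝ) * Complex.I) = (tailF q u : ℂ)) :
    ∃ C : ℝ, 0 ≤ C ∧ ∀ T : ℝ, Real.exp 1 ≤ T →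
    IntegrableOn (fun u => q u * (Mr T / 2 + Lr T u)) (Ioi 0) ∧
    ‖Spair0 χ T - ((NT T * (2 * ∫ u in Ioi 0, q u * (Mr T / 2 + Lr T u)) : ℝ) : ℂ)‖ ≤
      C * Real.log (T + 2) ^ 2 := by
  have hqi := h.integrable hqc
  have hFd := tailF_decay hqc h hodd
  have hFeven := tailF_even hqc hqi hodd
  have hFc : Continuous (tailF q) :=
    continuous_iff_continuousAt.2 fun x => (tailF_hasDerivAt hqc hqi x).continuousAt
  obtain ⟨C, hC, hsym⟩ := symm_edge hFc.measurable hFd hFeven
  refine ⟨C, hC, fun T hT => ?_⟩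
  have hT0 : 0 < T := (Real.exp_pos 1).trans_le hT
  have hL1 : 1 ≤ Real.log T := by rw [Real.le_log_iff_exp_le hT0]; exact hT
  have hNT := NT_pos hL1 hT0
  have hpi := Real.pi_pos
  have hL0 : 0 < Real.log T := by linarith
  obtain ⟨hfi, hfub⟩ := fubini_pos hqc h hL1
  have hFi := nu_decay_integrable hFc.measurable hFd hL1
  have hs := hsym T hT
  -- integrability
  have hLr : ∀ u, ((nu T) (NSset T u)).toReal = NT T * Lr T u := by
    intro u; unfold Lr; field_simp
  have hint : IntegrableOn (fun u => q u * (Mr T / 2 + Lr T u)) (Ioi 0) := by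
    have h1 : IntegrableOn (fun u => Mr T / 2 * q u + (NT T)⁻¹ * (q u * ((nu T) (NSset T u)).toReal)) (Ioi 0) :=
      (hqi.integrableOn.const_mul _).add (hfi.const_mul _)
    refine h1.congr (Eventually.of_forall fun u => ?_)
    simp only [hLr]
    field_simp
  refine ⟨hint, ?_⟩
  -- Spair0 as a real integral
  have e1 : Spair0 χ T = ((∫ p, tailF q (yy T p) ∂(nu T) : ℝ) : ℂ) := by
    unfold Spair0
    rw [← integral_complex_ofReal]
    unfold nu
    congr 1
    ext p
    rw [← hF]
    congr 2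
    unfold yy
    push_cast
    field_simp
  -- split
  set A : Set (ℂ × ℂ) := {p : ℂ × ℂ | p.2.im < p.1.im} with hA
  set B : Set (ℂ × ℂ) := {p : ℂ × ℂ | p.1.im < p.2.im} with hB
  set E : Set (ℂ × ℂ) := {p : ℂ × ℂ | p.1.im = p.2.im} with hE
  have hmA : MeasurableSet A := measurableSet_lt (by fun_prop) (by fun_prop)
  have hmB : MeasurableSet B := measurableSet_lt (by fun_prop) (by fun_prop)
  have hmE : MeasurableSet E := measurableSet_eq_fun (by fun_prop) (by fun_prop)
  have hAc : Aᶜ = B ∪ E := by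
    ext p
    simp only [hA, hB, hE, mem_compl_iff, mem_ofPred_eq, mem_union, not_lt]
    constructor
    · intro hp
      rcases hp.lt_or_eq with h1 | h1
      · exact Or.inl h1
      · exact Or.inr h1
    · rintro (h1 | h1)
      · exact h1.le
      · exact h1.le
  have hdisj : Disjoint B E := by
    rw [Set.disjoint_left]
    intro p h1 h2
    exact absurd (show p.1.im = p.2.im from h2) (ne_of_lt (show p.1.im < p.2.im from h1))
  have e2 : ∫ p, tailF q (yy T p) ∂(nu T) = (∫ p in A, tailF q (yy T p) ∂(nu T)) +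
      ((∫ p in B, tailF q (yy T p) ∂(nu T)) + ∫ p in E, tailF q (yy T p) ∂(nu T)) := by
    rw [← integral_add_compl hmA hFi, hAc, setIntegral_union hdisj hmE hFi.integrableOn hFi.integrableOn]
  have e3 : ∫ p in E, tailF q (yy T p) ∂(nu T) = NT T * (Mr T * ∫ u in Ioi 0, q u) := by
    have : ∫ p in E, tailF q (yy T p) ∂(nu T) = ∫ p in E, tailF q 0 ∂(nu T) := by
      apply setIntegral_congr_fun hmE
      intro p hp
      have hp' : p.1.im = p.2.im := hp
      simp only [yy, hp']
      simp
    rw [this, setIntegral_const, smul_eq_mul]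
    have hM : (nu T).real E = NT T * Mr T := by
      unfold Mr; rw [mul_div_cancel₀ _ hNT.ne']; rfl
    rw [hM]
    unfold tailF
    ring
  have e4 : ∫ u in Ioi 0, q u * ((nu T) (NSset T u)).toReal = NT T * ∫ u in Ioi 0, q u * Lr T u := by
    rw [← integral_const_mul]
    congr 1
    ext u
    rw [hLr]; ring
  have hi2 : IntegrableOn (fun u => q u * Lr T u) (Ioi 0) := by
    refine (hfi.const_mul (NT T)⁻¹).congr (Eventually.of_forall fun u => ?_)
    simp only [hLr]
    field_simp
  have e5 : ∫ u in Ioi 0, q u * (Mr T / 2 + Lr T u) = Mr T / 2 * (∫ u in Ioi 0, q u) +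
      ∫ u in Ioi 0, q u * Lr T u := by
    rw [← integral_const_mul, ← integral_add (hqi.integrableOn.const_mul _) hi2]
    congr 1
    ext u
    ring
  rw [e1, ← Complex.ofReal_sub, Complex.norm_real, Real.norm_eq_abs]
  have e6 : (∫ p, tailF q (yy T p) ∂(nu T)) - NT T * (2 * ∫ u in Ioi 0, q u * (Mr T / 2 + Lr T u)) =
      -((∫ p in A, tailF q (yy T p) ∂(nu T)) - ∫ p in B, tailF q (yy T p) ∂(nu T)) := by
    rw [e2, e3, e5]
    have h7 : (∫ p in A, tailF q (yy T p) ∂(nu T)) = NT T * ∫ u in Ioi 0, q u * Lr T u := by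
      rw [hfub, e4]
    linear_combination 2 * h7
  rw [e6, abs_neg]
  exact hs

end Pool.Agent.PairCorr
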