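import Mathlib
import Pool.Agent.PairCorr.A_Sum

set_option autoImplicit false

namespace Pool.Agent.PairCorr

open MeasureTheory Filter Topology Set Real
open scoped ENNReal ComplexConjugate

/-- number of zeros off the line with ordinate in `(0,T]`. -/
noncomputable def offm (T : ℝ) : ℝ := (muZ {z | z ∈ WT T ∧ z.re ≠ 1/2}).toReal

lemma muZ_singleton_ge {z : ℂ} (hz : z ∈ NTZ) : 1 ≤ muZ {z} := by
  apply one_le_muZ
  rw [muZ_apply]
  intro h0
  rw [ENNReal.tsum_eq_zero] at h0
  have h1 := h0 ⟨z, hz⟩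
  simp only [mem_singleton_iff, indicator_of_mem, Pi.one_apply, mul_one, Nat.cast_eq_zero] at h1
  have h2 := mult_pos hz
  omega

lemma muZ_line_lower {z : ℂ} (hz : z ∈ NTZ) : 1 ≤ muZ {w | z.im = w.im} :=
  (muZ_singleton_ge hz).trans (measure_mono (by simp))

lemma muZ_line_lower_off {z : ℂ} (hz : z ∈ NTZ) (hre : z.re ≠ 1/2) : 2 ≤ muZ {w | z.im = w.im} := by
  have h1 := muZ_singleton_ge hz
  have h2 := muZ_singleton_ge (refl_mem_NTZ hz)
  have hne : z ≠ 1 - conj z := by
    intro h
    apply hre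
    have := congrArg Complex.re h
    simp at this
    linarith
  have h3 : muZ ({z} ∪ {1 - conj z}) = muZ {z} + muZ {1 - conj z} :=
    measure_union (by simpa using hne) (measurableSet_singleton _)
  calc (2 : ℝ≥0∞) = 1 + 1 := by norm_num
    _ ≤ muZ {z} + muZ {1 - conj z} := add_le_add h1 h2
    _ = muZ ({z} ∪ {1 - conj z}) := h3.symm
    _ ≤ _ := by
        apply measure_mono
        rintro w (hw | hw)
        · have : w = z := hw
          rw [this]; exact rfl
        · have : w = 1 - conj z := hw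
          rw [this]; simp

lemma nu_close_lt_top (T h : ℝ) : (nu T) {p | |p.1.im - p.2.im| ≤ h} < ⊤ := by
  have h1 := (nu_weight_integrable T).measure_ge_lt_top (ε := (1 + h ^ 2)⁻¹) (by positivity)
  refine lt_of_le_of_lt (measure_mono ?_) h1
  intro p hp
  have hp' : |p.1.im - p.2.im| ≤ h := hp
  show (1 + h ^ 2)⁻¹ ≤ (1 + (p.2.im - p.1.im) ^ 2)⁻¹
  apply inv_anti₀ (by positivity)
  have h2 : (p.2.im - p.1.im) ^ 2 = |p.1.im - p.2.im| ^ 2 := by rw [sq_abs]; ring
  rw [h2]
  have := pow_le_pow_left₀ (abs_nonneg _) hp' 2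
  linarith

lemma nu_eq_lt_top (T : ℝ) : (nu T) {p | p.1.im = p.2.im} < ⊤ := by
  refine lt_of_le_of_lt (measure_mono ?_) (nu_close_lt_top T 0)
  intro p hp
  have hp' : p.1.im = p.2.im := hp
  show |p.1.im - p.2.im| ≤ 0
  rw [hp']; simp

lemma offm_lt_top (T : ℝ) : muZ {z | z ∈ WT T ∧ z.re ≠ 1/2} < ⊤ := by
  have h1 : muZ (WT T) < ⊤ := by
    have := measure_lt_top (muW T) univ
    unfold muW at this
    rwa [Measure.restrict_apply_univ] at this
  exact lt_of_le_of_lt (measure_mono fun z hz => hz.1) h1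

/-- the diagonal dominates the number of zeros plus the number of off-line zeros -/
lemma diag_ge (T : ℝ) : NCount T + offm T ≤ ((nu T) {p | p.1.im = p.2.im}).toReal := by
  have hmE : MeasurableSet {p : ℂ × ℂ | p.1.im = p.2.im} := measurableSet_eq_fun (by fun_prop) (by fun_prop)
  have hmo : MeasurableSet {z : ℂ | z.re ≠ 1/2} := (measurableSet_eq_fun (by fun_prop) (by fun_prop)).compl
  have h1 : ENNReal.ofReal (NCount T) + muZ {z | z ∈ WT T ∧ z.re ≠ 1/2} ≤ (nu T) {p | p.1.im = p.2.im} := by
    unfold nu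
    rw [Measure.prod_apply hmE]
    calc ENNReal.ofReal (NCount T) + muZ {z | z ∈ WT T ∧ z.re ≠ 1/2}
        = ∫⁻ z, (1 + {z : ℂ | z.re ≠ 1/2}.indicator 1 z) ∂(muW T) := by
          rw [lintegral_add_left measurable_const, lintegral_const, one_mul, muW_univ, lintegral_indicator_one hmo]
          congr 1
          unfold muW
          rw [Measure.restrict_apply hmo]
          congr 1
          ext z
          exact and_comm
      _ ≤ _ := by
          apply lintegral_mono_ae
          have hae : ∀ᵐ z ∂(muW T), z ∈ NTZ := ae_restrict_of_ae muZ_ae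
          filter_upwards [hae] with z hz
          show 1 + {z : ℂ | z.re ≠ 1/2}.indicator 1 z ≤ muZ {w | z.im = w.im}
          by_cases hre : z.re ≠ 1/2
          · rw [indicator_of_mem (show z ∈ {z : ℂ | z.re ≠ 1/2} from hre)]
            calc (1 : ℝ≥0∞) + 1 = 2 := by norm_num
              _ ≤ _ := muZ_line_lower_off hz hre
          · rw [indicator_of_notMem (show z ∉ {z : ℂ | z.re ≠ 1/2} from hre), add_zero]
            exact muZ_line_lower hz
  have h2 := ENNReal.toReal_mono (nu_eq_lt_top T).ne h1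
  rw [ENNReal.toReal_add ENNReal.ofReal_ne_top (offm_lt_top T).ne, ENNReal.toReal_ofReal (NCount_nonneg T)] at h2
  exact h2

lemma NT_tendsto : Tendsto NT atTop atTop := by
  unfold NT
  have h1 : Tendsto (fun T : ℝ => T * Real.log T) atTop atTop := tendsto_id.atTop_mul_atTop₀ Real.tendsto_log_atTop
  exact h1.atTop_div_const (by positivity)

lemma NCount_NT : Tendsto (fun T => NCount T / NT T) atTop (𝓝 1) := by
  have h := statementE
  unfold StatementE at h
  have h2 := h.const_mul (2 * π)
  have e : 2 * π * (1 / (2 * π)) = 1 := by field_simp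
  rw [e] at h2
  refine h2.congr fun T => ?_
  unfold NT
  field_simp

lemma offm_nonneg (T : ℝ) : 0 ≤ offm T := ENNReal.toReal_nonneg

/-- lower bound for `Mr`. -/
lemma Mr_lower {T : ℝ} (hT : Real.exp 1 ≤ T) : (NCount T + offm T) / NT T ≤ Mr T := by
  have hT0 : 0 < T := (Real.exp_pos 1).trans_le hT
  have hL1 : 1 ≤ Real.log T := by rw [Real.le_log_iff_exp_le hT0]; exact hT
  unfold Mr
  exact div_le_div_of_nonneg_right (diag_ge T) (NT_pos hL1 hT0).le

lemma Mr_ge_ratio {T : ℝ} (hT : Real.exp 1 ≤ T) : NCount T / NT T ≤ Mr T := by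
  have hT0 : 0 < T := (Real.exp_pos 1).trans_le hT
  have hL1 : 1 ≤ Real.log T := by rw [Real.le_log_iff_exp_le hT0]; exact hT
  refine le_trans ?_ (Mr_lower hT)
  apply div_le_div_of_nonneg_right _ (NT_pos hL1 hT0).le
  linarith [offm_nonneg T]

/-- if `Mr → 1` then zeros off the line are negligible. -/
lemma offm_small {l : Filter ℝ} (hl : l ≤ atTop) (hM : Tendsto Mr l (𝓝 1)) :
    Tendsto (fun T : ℝ => (muZ {z | z ∈ WT T ∧ z.re ≠ 1/2}).toReal / (T * Real.log T)) l (𝓝 0) := by
  have h1 : Tendsto (fun T => Mr T - NCount T / NT T) l (𝓝 0) := by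
    have := hM.sub (NCount_NT.mono_left hl)
    simpa using this
  have h2 : Tendsto (fun T => (2 * π)⁻¹ * (Mr T - NCount T / NT T)) l (𝓝 0) := by
    have := h1.const_mul (2 * π)⁻¹
    simpa using this
  have hev : ∀ᶠ T in l, Real.exp 1 ≤ T := (eventually_ge_atTop (Real.exp 1)).filter_mono hl
  refine squeeze_zero' ?_ ?_ h2
  · filter_upwards [hev] with T hT
    have hT0 : 0 < T := (Real.exp_pos 1).trans_le hT
    have hL1 : 1 ≤ Real.log T := by rw [Real.le_log_iff_exp_le hT0]; exact hT
    have := offm_nonneg T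
    unfold offm at this
    positivity
  · filter_upwards [hev] with T hT
    have hT0 : 0 < T := (Real.exp_pos 1).trans_le hT
    have hL1 : 1 ≤ Real.log T := by rw [Real.le_log_iff_exp_le hT0]; exact hT
    have h3 := Mr_lower hT
    have hNT := NT_pos hL1 hT0
    have h4 : offm T / NT T ≤ Mr T - NCount T / NT T := by
      rw [add_div] at h3; linarith
    have h5 : (muZ {z | z ∈ WT T ∧ z.re ≠ 1/2}).toReal / (T * Real.log T) = (2 * π)⁻¹ * (offm T / NT T) := by
      unfold offm NT
      have hpi := Real.pi_pos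
      field_simp
    rw [h5]
    exact mul_le_mul_of_nonneg_left h4 (by positivity)

end Pool.Agent.PairCorr
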