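import Mathlib
import Pool.Agent.PairCorr.PB_Convert

/-!
Near pairs: averaging over cells.
-/

set_option autoImplicit false

namespace Pool.Agent.PairCorr

open MeasureTheory Filter Topology Set Real
open scoped ENNReal

/-- the indicator of `|Im z - t| ≤ 1 / L` -/
noncomputable def cellInd (L : ℝ) (z : ℂ) (t : ℝ) : ℝ≥0∞ := if |z.im - t| ≤ 1 / L then 1 else 0

lemma measurable_cellInd (L : ℝ) : Measurable fun p : ℂ × ℝ => cellInd L p.1 p.2 := by
  unfold cellInd
  refine Measurable.ite ?_ measurable_const measurable_const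
  have h : Measurable fun p : ℂ × ℝ => |p.1.im - p.2| := by
    have : Measurable fun p : ℂ × ℝ => p.1.im - p.2 := by fun_prop
    exact this.norm
  exact measurableSet_le h measurable_const

lemma lintegral_cellInd (L : ℝ) (z : ℂ) {I : Set ℝ} (hI : MeasurableSet I)
    (h : ∀ t, |z.im - t| ≤ 1 / L → t ∈ I) :
    ∫⁻ t in I, cellInd L z t = ENNReal.ofReal (2 / L) := by
  rw [← lintegral_indicator hI]
  have e : ∀ t, I.indicator (cellInd L z) t = (Icc (z.im - 1 / L) (z.im + 1 / L)).indicator 1 t := by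
    intro t
    by_cases ht : |z.im - t| ≤ 1 / L
    · have h1 : t ∈ Icc (z.im - 1 / L) (z.im + 1 / L) := by
        rw [abs_le] at ht
        constructor <;> linarith
      rw [indicator_of_mem (h t ht), indicator_of_mem h1]
      unfold cellInd
      rw [if_pos ht]
      rfl
    · have h1 : t ∉ Icc (z.im - 1 / L) (z.im + 1 / L) := by
        intro h'
        apply ht
        rw [abs_le]
        constructor <;> linarith [h'.1, h'.2]
      rw [indicator_of_notMem h1]
      by_cases htI : t ∈ I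
      · rw [indicator_of_mem htI]
        unfold cellInd
        rw [if_neg ht]
      · rw [indicator_of_notMem htI]
  simp_rw [e]
  rw [lintegral_indicator_one measurableSet_Icc, Real.volume_Icc]
  congr 1
  ring

/-- the pair kernel -/
noncomputable def pk (δ L x : ℝ) : ℝ := ((1 + δ * L * |x|) ^ 4)⁻¹

lemma measurable_pk (δ L : ℝ) : Measurable (pk δ L) := by
  unfold pk
  have : Continuous fun x : ℝ => (1 + δ * L * |x|) ^ 4 := by fun_prop
  exact this.measurable.inv

lemma pk_shift {δ L : ℝ} (hδ : 0 < δ) (hδ1 : δ ≤ 1) (hL : 0 < L) {x y t s : ℝ}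
    (h1 : |x - t| ≤ 1 / L) (h2 : |y - s| ≤ 1 / L) : pk δ L (x - y) ≤ 81 * pk δ L (t - s) := by
  unfold pk
  have h3 : |t - s| ≤ |x - y| + 2 / L := by
    have : t - s = (x - y) - (x - t) + (y - s) := by ring
    rw [this]
    have e1 := abs_add_le ((x - y) - (x - t)) (y - s)
    have e2 := abs_sub (x - y) (x - t)
    have e3 : 2 / L = 1 / L + 1 / L := by ring
    linarith
  have h4 : δ * L * |t - s| ≤ δ * L * |x - y| + 2 := by
    have : δ * L * |t - s| ≤ δ * L * (|x - y| + 2 / L) := by gcongr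
    have e : δ * L * (|x - y| + 2 / L) = δ * L * |x - y| + 2 * δ := by field_simp
    linarith
  have h5 : 0 ≤ δ * L * |x - y| := by positivity
  have h6 : 0 ≤ δ * L * |t - s| := by positivity
  have h7 : 1 + δ * L * |t - s| ≤ 3 * (1 + δ * L * |x - y|) := by linarith
  have h8 : (1 + δ * L * |t - s|) ^ 4 ≤ 81 * (1 + δ * L * |x - y|) ^ 4 := by
    calc (1 + δ * L * |t - s|) ^ 4 ≤ (3 * (1 + δ * L * |x - y|)) ^ 4 := by gcongr
      _ = _ := by ring
  rw [inv_le_iff_one_le_mul₀ (by positivity)]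
  rw [show (81 : ℝ) * ((1 + δ * L * |t - s|) ^ 4)⁻¹ * (1 + δ * L * |x - y|) ^ 4 =
    (81 * (1 + δ * L * |x - y|) ^ 4) / (1 + δ * L * |t - s|) ^ 4 by ring]
  rw [one_le_div (by positivity)]
  exact h8

lemma lintegral_pk {δ L : ℝ} (hδ : 0 < δ) (hL : 0 < L) (t : ℝ) :
    ∫⁻ s, ENNReal.ofReal (pk δ L (t - s)) ≤ ENNReal.ofReal (π / (δ * L)) := by
  have hk : 0 < δ * L := by positivity
  have h1 : ∀ s, ENNReal.ofReal (pk δ L (t - s)) ≤
      ENNReal.ofReal ((1 + ((δ * L) * (t - s)) ^ 2)⁻¹) := by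
    intro s
    apply ENNReal.ofReal_le_ofReal
    unfold pk
    apply inv_anti₀ (by positivity)
    have h2 : 0 ≤ δ * L * |t - s| := by positivity
    have h3 : ((δ * L) * (t - s)) ^ 2 = (δ * L * |t - s|) ^ 2 := by
      rw [mul_pow (δ * L) (t - s), mul_pow (δ * L) |t - s|, sq_abs]
    rw [h3]
    generalize δ * L * |t - s| = y at h2
    have : (1 + y) ^ 4 = 1 + 4 * y + 6 * y ^ 2 + 4 * y ^ 3 + y ^ 4 := by ring
    rw [this]
    nlinarith [pow_nonneg h2 3, pow_nonneg h2 4]
  refine (lintegral_mono h1).trans ?_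
  have h4 : ∫⁻ s, ENNReal.ofReal ((1 + ((δ * L) * (t - s)) ^ 2)⁻¹) =
      ∫⁻ s, ENNReal.ofReal ((1 + ((δ * L) * s) ^ 2)⁻¹) :=
    lintegral_sub_left_eq_self (fun s => ENNReal.ofReal ((1 + ((δ * L) * s) ^ 2)⁻¹)) t
  rw [h4]
  have hint : Integrable (fun s : ℝ => (1 + ((δ * L) * s) ^ 2)⁻¹) :=
    integrable_inv_one_add_sq.comp_mul_left' hk.ne'
  rw [← ofReal_integral_eq_lintegral_ofReal hint (Eventually.of_forall fun s => by positivity)]
  apply ENNReal.ofReal_le_ofReal
  rw [Measure.integral_comp_mul_left (fun s : ℝ => (1 + s ^ 2)⁻¹) (δ * L), integral_univ_inv_one_add_sq,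
    abs_of_pos (by positivity)]
  simp only [smul_eq_mul]
  apply le_of_eq
  ring

/-- weighted local count for a general measure -/
noncomputable def Eg (α : Measure ℂ) (c T t : ℝ) : ℝ≥0∞ :=
  ∫⁻ z, cellInd (Real.log T) z t * ENNReal.ofReal (wgt c T z) ∂α

lemma continuous_wgt (c T : ℝ) : Continuous (wgt c T) := by
  unfold wgt
  have := Complex.continuous_re
  fun_prop

lemma measurable_Eg (α : Measure ℂ) [SFinite α] (c T : ℝ) : Measurable (Eg α c T) := by
  unfold Eg
  apply Measurable.lintegral_prod_left' (f := fun p : ℂ × ℝ =>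
    cellInd (Real.log T) p.1 p.2 * ENNReal.ofReal (wgt c T p.1))
  apply (measurable_cellInd _).mul
  exact ((continuous_wgt c T).measurable.comp measurable_fst).ennreal_ofReal

lemma Eg_mono {α β : Measure ℂ} (h : α ≤ β) (c T t : ℝ) : Eg α c T t ≤ Eg β c T t :=
  lintegral_mono' h le_rfl

lemma Eg_muZ (c T t : ℝ) : Eg muZ c T t = ENNReal.ofReal (Eloc c T t) := by
  rw [← Eloc_eq_lintegral]
  have hmeas : MeasurableSet {z : ℂ | |z.im - t| ≤ 1 / Real.log T} :=
    measurableSet_le (by fun_prop) measurable_const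
  rw [← lintegral_indicator hmeas]
  unfold Eg
  apply lintegral_congr
  intro z
  unfold cellInd
  by_cases h : |z.im - t| ≤ 1 / Real.log T
  · rw [if_pos h, indicator_of_mem (show z ∈ {z : ℂ | |z.im - t| ≤ 1 / Real.log T} from h), one_mul]
  · rw [if_neg h, indicator_of_notMem (show z ∉ {z : ℂ | |z.im - t| ≤ 1 / Real.log T} from h),
      zero_mul]

lemma measurable_pairW (c T δ : ℝ) : Measurable (pairW c T δ) := by
  unfold pairW
  have h1 := (continuous_wgt c T).measurable
  have h2 : Continuous fun p : ℂ × ℂ => (1 + δ * Real.log T * |p.1.im - p.2.im|) ^ 4 := by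
    have := Complex.continuous_im
    fun_prop
  exact ((h1.comp measurable_fst).mul (h1.comp measurable_snd)).mul h2.measurable.inv

/-- Averaging over cells. -/
theorem near_double {α β : Measure ℂ} [SFinite α] [SFinite β] {c T δ : ℝ} (hT : Real.exp 1 ≤ T)
    (hδ : 0 < δ) (hδ1 : δ ≤ 1) :
    (∫⁻ p in {p : ℂ × ℂ | |p.1.im| ≤ 2 * T ∧ |p.2.im| ≤ 2 * T}, ENNReal.ofReal (pairW c T δ p)
      ∂(α.prod β)) * ENNReal.ofReal (2 / Real.log T) ^ 2 ≤
    81 * ∫⁻ t in Icc (-(3 * T)) (3 * T), ∫⁻ s in Icc (-(3 * T)) (3 * T),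
      Eg α c T t * Eg β c T s * ENNReal.ofReal (pk δ (Real.log T) (t - s)) := by
  have hT1 : 1 ≤ T := (Real.one_le_exp (by norm_num)).trans hT
  have hL1 : 1 ≤ Real.log T := by
    rw [← Real.log_exp 1]
    exact Real.log_le_log (Real.exp_pos 1) hT
  have hL : 0 < Real.log T := by linarith
  set L := Real.log T with hLdef
  set I : Set ℝ := Icc (-(3 * T)) (3 * T) with hI
  have hIm : MeasurableSet I := measurableSet_Icc
  set N : Set (ℂ × ℂ) := {p : ℂ × ℂ | |p.1.im| ≤ 2 * T ∧ |p.2.im| ≤ 2 * T} with hN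
  have hNm : MeasurableSet N := by
    have h1 : Measurable fun p : ℂ × ℂ => |p.1.im| := by
      have : Measurable fun p : ℂ × ℂ => p.1.im := by fun_prop
      exact this.norm
    have h2 : Measurable fun p : ℂ × ℂ => |p.2.im| := by
      have : Measurable fun p : ℂ × ℂ => p.2.im := by fun_prop
      exact this.norm
    exact (measurableSet_le h1 measurable_const).inter (measurableSet_le h2 measurable_const)
  -- the 4-variable function
  set G : ℂ × ℂ → ℝ × ℝ → ℝ≥0∞ := fun p q =>
    (cellInd L p.1 q.1 * ENNReal.ofReal (wgt c T p.1)) *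
      (cellInd L p.2 q.2 * ENNReal.ofReal (wgt c T p.2)) *
      (81 * ENNReal.ofReal (pk δ L (q.1 - q.2))) with hG
  have hwm : Measurable fun z : ℂ => ENNReal.ofReal (wgt c T z) :=
    (continuous_wgt c T).measurable.ennreal_ofReal
  have hpkm : Measurable fun x : ℝ => ENNReal.ofReal (pk δ L x) := (measurable_pk δ L).ennreal_ofReal
  have hGm : Measurable (Function.uncurry G) := by
    have e1 : Measurable fun x : (ℂ × ℂ) × (ℝ × ℝ) => cellInd L x.1.1 x.2.1 :=
      (measurable_cellInd L).comp (f := fun x : (ℂ × ℂ) × (ℝ × ℝ) => (x.1.1, x.2.1)) (by fun_prop)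
    have e2 : Measurable fun x : (ℂ × ℂ) × (ℝ × ℝ) => cellInd L x.1.2 x.2.2 :=
      (measurable_cellInd L).comp (f := fun x : (ℂ × ℂ) × (ℝ × ℝ) => (x.1.2, x.2.2)) (by fun_prop)
    have e3 : Measurable fun x : (ℂ × ℂ) × (ℝ × ℝ) => ENNReal.ofReal (wgt c T x.1.1) :=
      hwm.comp (f := fun x : (ℂ × ℂ) × (ℝ × ℝ) => x.1.1) (by fun_prop)
    have e4 : Measurable fun x : (ℂ × ℂ) × (ℝ × ℝ) => ENNReal.ofReal (wgt c T x.1.2) :=
      hwm.comp (f := fun x : (ℂ × ℂ) × (ℝ × ℝ) => x.1.2) (by fun_prop)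
    have e5 : Measurable fun x : (ℂ × ℂ) × (ℝ × ℝ) => ENNReal.ofReal (pk δ L (x.2.1 - x.2.2)) :=
      hpkm.comp (f := fun x : (ℂ × ℂ) × (ℝ × ℝ) => x.2.1 - x.2.2) (by fun_prop)
    exact ((e1.mul e3).mul (e2.mul e4)).mul (e5.const_mul 81)
  set ν : Measure (ℝ × ℝ) := (volume.restrict I).prod (volume.restrict I) with hν
  have hpt : ∀ p ∈ N, ENNReal.ofReal (pairW c T δ p) * ENNReal.ofReal (2 / L) ^ 2 ≤
      ∫⁻ q, G p q ∂ν := by
    intro p hp
    have hr1 : ∀ t, |p.1.im - t| ≤ 1 / L → t ∈ I := by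
      intro t ht
      have h1 : 1 / L ≤ 1 := by rw [div_le_one hL]; exact hL1
      have h2 := abs_le.mp ht
      have h3 := abs_le.mp hp.1
      exact ⟨by linarith, by linarith⟩
    have hr2 : ∀ t, |p.2.im - t| ≤ 1 / L → t ∈ I := by
      intro t ht
      have h1 : 1 / L ≤ 1 := by rw [div_le_one hL]; exact hL1
      have h2 := abs_le.mp ht
      have h3 := abs_le.mp hp.2
      exact ⟨by linarith, by linarith⟩
    have h1 := lintegral_cellInd L p.1 hIm hr1
    have h2 := lintegral_cellInd L p.2 hIm hr2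
    have hc1 : Measurable (cellInd L p.1) :=
      (measurable_cellInd L).comp (f := fun t : ℝ => (p.1, t)) (by fun_prop)
    have hc2 : Measurable (cellInd L p.2) :=
      (measurable_cellInd L).comp (f := fun t : ℝ => (p.2, t)) (by fun_prop)
    have h3 : ∫⁻ q, cellInd L p.1 q.1 * cellInd L p.2 q.2 ∂ν = ENNReal.ofReal (2 / L) ^ 2 := by
      rw [hν, lintegral_prod_mul hc1.aemeasurable hc2.aemeasurable, h1, h2, sq]
    rw [← h3, ← lintegral_const_mul]
    swap
    · exact (hc1.comp measurable_fst).mul (hc2.comp measurable_snd)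
    apply lintegral_mono
    intro q
    simp only [hG]
    by_cases hq1 : |p.1.im - q.1| ≤ 1 / L
    · by_cases hq2 : |p.2.im - q.2| ≤ 1 / L
      · unfold cellInd
        rw [if_pos hq1, if_pos hq2]
        simp only [mul_one, one_mul]
        have e := pk_shift hδ hδ1 hL hq1 hq2
        have hw1 : 0 ≤ wgt c T p.1 := (Real.exp_pos _).le
        have hw2 : 0 ≤ wgt c T p.2 := (Real.exp_pos _).le
        have e81 : (81 : ℝ≥0∞) = ENNReal.ofReal 81 := by simp
        rw [e81, ← ENNReal.ofReal_mul hw1, ← ENNReal.ofReal_mul (by norm_num),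
          ← ENNReal.ofReal_mul (by positivity)]
        apply ENNReal.ofReal_le_ofReal
        unfold pairW
        rw [← hLdef]
        exact mul_le_mul_of_nonneg_left e (by positivity)
      · unfold cellInd
        rw [if_neg hq2]
        simp
    · unfold cellInd
      rw [if_neg hq1]
      simp
  calc (∫⁻ p in N, ENNReal.ofReal (pairW c T δ p) ∂(α.prod β)) * ENNReal.ofReal (2 / L) ^ 2
      = ∫⁻ p in N, ENNReal.ofReal (pairW c T δ p) * ENNReal.ofReal (2 / L) ^ 2 ∂(α.prod β) := by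
        rw [lintegral_mul_const]
        exact (measurable_pairW c T δ).ennreal_ofReal
    _ ≤ ∫⁻ p in N, ∫⁻ q, G p q ∂ν ∂(α.prod β) := setLIntegral_mono' hNm hpt
    _ ≤ ∫⁻ p, ∫⁻ q, G p q ∂ν ∂(α.prod β) := setLIntegral_le_lintegral _ _
    _ = ∫⁻ q, ∫⁻ p, G p q ∂(α.prod β) ∂ν := lintegral_lintegral_swap hGm.aemeasurable
    _ = ∫⁻ q, Eg α c T q.1 * Eg β c T q.2 * (81 * ENNReal.ofReal (pk δ L (q.1 - q.2))) ∂ν := by
        apply lintegral_congr
        intro q
        simp only [hG]
        have hm1 : Measurable fun z : ℂ => cellInd L z q.1 * ENNReal.ofReal (wgt c T z) :=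
          ((measurable_cellInd L).comp (f := fun z : ℂ => (z, q.1)) (by fun_prop)).mul hwm
        have hm2 : Measurable fun z : ℂ => cellInd L z q.2 * ENNReal.ofReal (wgt c T z) :=
          ((measurable_cellInd L).comp (f := fun z : ℂ => (z, q.2)) (by fun_prop)).mul hwm
        rw [lintegral_mul_const]
        swap
        · exact (hm1.comp measurable_fst).mul (hm2.comp measurable_snd)
        rw [lintegral_prod_mul hm1.aemeasurable hm2.aemeasurable]
        rfl
    _ = 81 * ∫⁻ t in I, ∫⁻ s in I, Eg α c T t * Eg β c T s *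
          ENNReal.ofReal (pk δ L (t - s)) := by
        have hfm : Measurable fun q : ℝ × ℝ => Eg α c T q.1 * Eg β c T q.2 *
            ENNReal.ofReal (pk δ L (q.1 - q.2)) :=
          (((measurable_Eg α c T).comp measurable_fst).mul
            ((measurable_Eg β c T).comp measurable_snd)).mul
            (hpkm.comp (f := fun q : ℝ × ℝ => q.1 - q.2) (by fun_prop))
        rw [← lintegral_prod (fun q : ℝ × ℝ => Eg α c T q.1 * Eg β c T q.2 *
            ENNReal.ofReal (pk δ L (q.1 - q.2))) hfm.aemeasurable, ← lintegral_const_mul _ hfm]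
        apply lintegral_congr
        intro q
        ring

end Pool.Agent.PairCorr
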