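import Mathlib
import Pool.Agent.PairCorr.PB_Near

/-!
Near pairs: the bounds from the moments of the local count.
-/

set_option autoImplicit false

namespace Pool.Agent.PairCorr

open MeasureTheory Filter Topology Set Real
open scoped ENNReal

lemma pk_neg (δ L x : ℝ) : pk δ L (-x) = pk δ L x := by
  unfold pk; rw [abs_neg]

lemma schur_left {δ L : ℝ} (hδ : 0 < δ) (hL : 0 < L) (I : Set ℝ) (f : ℝ → ℝ≥0∞) :
    ∫⁻ t in I, ∫⁻ s in I, f t * ENNReal.ofReal (pk δ L (t - s)) ≤
      ENNReal.ofReal (π / (δ * L)) * ∫⁻ t in I, f t := by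
  have hpkm : Measurable fun x : ℝ => ENNReal.ofReal (pk δ L x) := (measurable_pk δ L).ennreal_ofReal
  rw [← lintegral_const_mul']
  swap
  · exact ENNReal.ofReal_ne_top
  apply lintegral_mono
  intro t
  simp only
  rw [lintegral_const_mul]
  swap
  · exact hpkm.comp (f := fun s : ℝ => t - s) (by fun_prop)
  rw [mul_comm]
  gcongr
  exact (setLIntegral_le_lintegral _ _).trans (lintegral_pk hδ hL t)

lemma schur_right {δ L : ℝ} (hδ : 0 < δ) (hL : 0 < L) (I : Set ℝ) {f : ℝ → ℝ≥0∞}
    (hf : Measurable f) :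
    ∫⁻ t in I, ∫⁻ s in I, f s * ENNReal.ofReal (pk δ L (t - s)) ≤
      ENNReal.ofReal (π / (δ * L)) * ∫⁻ t in I, f t := by
  have hpkm : Measurable fun x : ℝ => ENNReal.ofReal (pk δ L x) := (measurable_pk δ L).ennreal_ofReal
  rw [lintegral_lintegral_swap]
  · refine le_trans (le_of_eq ?_) (schur_left hδ hL I f)
    apply lintegral_congr
    intro s
    apply lintegral_congr
    intro t
    rw [← pk_neg, neg_sub]
  · apply Measurable.aemeasurable
    exact (hf.comp measurable_snd).mul (hpkm.comp (f := fun q : ℝ × ℝ => q.1 - q.2) (by fun_prop))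

lemma ennreal_mul_le_sq_add_sq (a b : ℝ≥0∞) : a * b ≤ a ^ 2 + b ^ 2 := by
  rcases le_total a b with h | h
  · calc a * b ≤ b * b := by gcongr
      _ = b ^ 2 := by ring
      _ ≤ _ := le_add_self
  · calc a * b ≤ a * a := by gcongr
      _ = a ^ 2 := by ring
      _ ≤ _ := le_self_add

/-- the moment in `ENNReal` form -/
lemma lintegral_Eg_pow {c T : ℝ} {p : ℕ} {B : ℝ}
    (h1 : IntervalIntegrable (fun t => Eloc c T t ^ p) volume (-(3 * T)) (3 * T)) (hT : 0 ≤ T)
    (h2 : ∫ t in (-(3 * T))..(3 * T), Eloc c T t ^ p ≤ B) :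
    ∫⁻ t in Icc (-(3 * T)) (3 * T), Eg muZ c T t ^ p ≤ ENNReal.ofReal B := by
  have hnn : ∀ t, 0 ≤ Eloc c T t := by
    intro t
    unfold Eloc
    exact finsum_nonneg fun ρ => finsum_nonneg fun _ => by positivity
  have e1 : ∫⁻ t in Icc (-(3 * T)) (3 * T), Eg muZ c T t ^ p =
      ∫⁻ t in Icc (-(3 * T)) (3 * T), ENNReal.ofReal (Eloc c T t ^ p) := by
    apply lintegral_congr
    intro t
    rw [Eg_muZ, ENNReal.ofReal_pow (hnn t)]
  rw [e1]
  have hint : IntegrableOn (fun t => Eloc c T t ^ p) (Icc (-(3 * T)) (3 * T)) :=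
    (intervalIntegrable_iff_integrableOn_Icc_of_le (by linarith)).mp h1
  rw [← ofReal_integral_eq_lintegral_ofReal hint (Eventually.of_forall fun t => pow_nonneg (hnn t) p)]
  apply ENNReal.ofReal_le_ofReal
  rw [integral_Icc_eq_integral_Ioc, ← intervalIntegral.integral_of_le (by linarith)]
  exact h2

lemma pairW_mono {c c' T δ : ℝ} (hc : c' ≤ c) (hT : 1 ≤ T) (hδ : 0 ≤ δ) (p : ℂ × ℂ) :
    pairW c' T δ p ≤ pairW c T δ p := by
  have hL : 0 ≤ Real.log T := Real.log_nonneg hT
  have h1 : ∀ z : ℂ, wgt c' T z ≤ wgt c T z := by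
    intro z
    unfold wgt
    apply Real.exp_le_exp.mpr
    gcongr
  unfold pairW
  have h2 : ∀ z : ℂ, 0 ≤ wgt c' T z := fun z => (Real.exp_pos _).le
  have h3 : 0 ≤ ((1 + δ * Real.log T * |p.1.im - p.2.im|) ^ 4)⁻¹ := by positivity
  exact mul_le_mul_of_nonneg_right (mul_le_mul (h1 _) (h1 _) (h2 _) ((h2 _).trans (h1 _))) h3

/-- near pairs -/
lemma near_bound (hB : StatementB) : ∃ c : ℝ, 0 < c ∧ ∃ C : ℝ, 0 < C ∧ ∃ T₀ : ℝ, Real.exp 1 ≤ T₀ ∧
    ∀ T : ℝ, T₀ ≤ T → ∀ δ : ℝ, 0 < δ → δ ≤ 1 →
    ∫⁻ p in {p : ℂ × ℂ | |p.1.im| ≤ 2 * T ∧ |p.2.im| ≤ 2 * T}, ENNReal.ofReal (pairW c T δ p)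
      ∂(muZ.prod muZ) ≤ ENNReal.ofReal (C * (T * Real.log T) / δ) := by
  obtain ⟨c, hc, C, hC, T₀, h⟩ := hB 2
  refine ⟨c, hc, 81 * π / 2 * C, by positivity, max (Real.exp 1) T₀, le_max_left _ _,
    fun T hT δ hδ hδ1 => ?_⟩
  have hTe : Real.exp 1 ≤ T := (le_max_left _ _).trans hT
  have hT0 : T₀ ≤ T := (le_max_right _ _).trans hT
  have hT1 : 1 ≤ T := (Real.one_le_exp (by norm_num)).trans hTe
  have hL1 : 1 ≤ Real.log T := by
    rw [← Real.log_exp 1]
    exact Real.log_le_log (Real.exp_pos 1) hTe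
  have hL : 0 < Real.log T := by linarith
  obtain ⟨h1, h2⟩ := h T hT0
  have h3 := lintegral_Eg_pow h1 (by linarith) h2
  have h4 := near_double (α := muZ) (β := muZ) (c := c) hTe hδ hδ1
  set L := Real.log T with hLdef
  set I : Set ℝ := Icc (-(3 * T)) (3 * T) with hI
  have hEm : Measurable (Eg muZ c T) := measurable_Eg muZ c T
  have hpkm : Measurable fun x : ℝ => ENNReal.ofReal (pk δ L x) := (measurable_pk δ L).ennreal_ofReal
  have h5 : ∫⁻ t in I, ∫⁻ s in I, Eg muZ c T t * Eg muZ c T s *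
      ENNReal.ofReal (pk δ L (t - s)) ≤ 2 * (ENNReal.ofReal (π / (δ * L)) * ENNReal.ofReal (C * T)) := by
    calc ∫⁻ t in I, ∫⁻ s in I, Eg muZ c T t * Eg muZ c T s * ENNReal.ofReal (pk δ L (t - s))
        ≤ ∫⁻ t in I, ∫⁻ s in I, (Eg muZ c T t ^ 2 * ENNReal.ofReal (pk δ L (t - s)) +
          Eg muZ c T s ^ 2 * ENNReal.ofReal (pk δ L (t - s))) := by
          apply lintegral_mono
          intro t
          apply lintegral_mono
          intro s
          simp only
          rw [← add_mul]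
          gcongr
          exact ennreal_mul_le_sq_add_sq _ _
      _ = (∫⁻ t in I, ∫⁻ s in I, Eg muZ c T t ^ 2 * ENNReal.ofReal (pk δ L (t - s))) +
          ∫⁻ t in I, ∫⁻ s in I, Eg muZ c T s ^ 2 * ENNReal.ofReal (pk δ L (t - s)) := by
          rw [← lintegral_add_left]
          · apply lintegral_congr
            intro t
            rw [← lintegral_add_left]
            exact (hpkm.comp (f := fun s : ℝ => t - s) (by fun_prop)).const_mul _
          · apply Measurable.lintegral_prod_right' (f := fun q : ℝ × ℝ =>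
              Eg muZ c T q.1 ^ 2 * ENNReal.ofReal (pk δ L (q.1 - q.2)))
            exact ((hEm.comp measurable_fst).pow_const 2).mul
              (hpkm.comp (f := fun q : ℝ × ℝ => q.1 - q.2) (by fun_prop))
      _ ≤ ENNReal.ofReal (π / (δ * L)) * ENNReal.ofReal (C * T) +
          ENNReal.ofReal (π / (δ * L)) * ENNReal.ofReal (C * T) := by
          apply add_le_add
          · refine (schur_left hδ hL I (fun t => Eg muZ c T t ^ 2)).trans ?_
            gcongr
          · refine (schur_right hδ hL I (f := fun t => Eg muZ c T t ^ 2) (hEm.pow_const 2)).trans ?_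
            gcongr
      _ = _ := by ring
  have h6 : (∫⁻ p in {p : ℂ × ℂ | |p.1.im| ≤ 2 * T ∧ |p.2.im| ≤ 2 * T},
      ENNReal.ofReal (pairW c T δ p) ∂(muZ.prod muZ)) * ENNReal.ofReal ((2 / L) ^ 2) ≤
      ENNReal.ofReal (162 * (π / (δ * L) * (C * T))) := by
    rw [ENNReal.ofReal_pow (by positivity)]
    refine h4.trans ?_
    refine le_trans (mul_le_mul' le_rfl h5) (le_of_eq ?_)
    rw [← ENNReal.ofReal_mul (by positivity)]
    rw [← mul_assoc, ENNReal.ofReal_mul (p := 162) (by norm_num)]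
    congr 1
    norm_num
  rw [← ENNReal.le_div_iff_mul_le] at h6
  · refine h6.trans (le_of_eq ?_)
    rw [← ENNReal.ofReal_div_of_pos (by positivity)]
    congr 1
    field_simp
    ring
  · left
    simp only [ne_eq, ENNReal.ofReal_eq_zero, not_le]
    positivity
  · left
    exact ENNReal.ofReal_ne_top

/-- Near pairs where the first zero is in a set `S` of zeros. -/
lemma near_off_bound (hB : StatementB) : ∃ c : ℝ, 0 < c ∧ ∃ C : ℝ, 0 < C ∧ ∃ T₀ : ℝ, Real.exp 1 ≤ T₀ ∧
    ∀ T : ℝ, T₀ ≤ T → ∀ S : Set ℂ, MeasurableSet S → ∀ η : ℝ, 0 < η →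
    ∫⁻ p in {p : ℂ × ℂ | |p.1.im| ≤ 2 * T ∧ |p.2.im| ≤ 2 * T}, ENNReal.ofReal (pairW c T 1 p)
      ∂((muZ.restrict S).prod muZ) ≤
      ENNReal.ofReal (C / η) * muZ S + ENNReal.ofReal (C * η * (T * Real.log T)) := by
  obtain ⟨c, hc, C, hC, T₀, h⟩ := hB 4
  refine ⟨c, hc, 81 * π / 2 * (C + 1), by positivity, max (Real.exp 1) T₀, le_max_left _ _,
    fun T hT S hS η hη => ?_⟩
  have hTe : Real.exp 1 ≤ T := (le_max_left _ _).trans hT
  have hT0 : T₀ ≤ T := (le_max_right _ _).trans hT
  have hT1 : 1 ≤ T := (Real.one_le_exp (by norm_num)).trans hTe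
  have hL1 : 1 ≤ Real.log T := by
    rw [← Real.log_exp 1]
    exact Real.log_le_log (Real.exp_pos 1) hTe
  have hL : 0 < Real.log T := by linarith
  obtain ⟨h1, h2⟩ := h T hT0
  have h3 := lintegral_Eg_pow h1 (by linarith) h2
  set α := muZ.restrict S with hα
  have h4 := near_double (α := α) (β := muZ) (c := c) hTe one_pos le_rfl
  set L := Real.log T with hLdef
  set I : Set ℝ := Icc (-(3 * T)) (3 * T) with hI
  have hEm : Measurable (Eg muZ c T) := measurable_Eg muZ c T
  have hpkm : Measurable fun x : ℝ => ENNReal.ofReal (pk 1 L x) := (measurable_pk 1 L).ennreal_ofReal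
  -- local number of zeros in `S`
  set n : ℝ → ℝ≥0∞ := fun t => ∫⁻ z, cellInd L z t ∂α with hn
  have hnm : Measurable n :=
    Measurable.lintegral_prod_left' (f := fun p : ℂ × ℝ => cellInd L p.1 p.2) (measurable_cellInd L)
  have hcellm : ∀ t : ℝ, MeasurableSet {z : ℂ | |z.im - t| ≤ 1 / L} := fun t =>
    measurableSet_le (by fun_prop) measurable_const
  have hcell : ∀ (t : ℝ) (g : ℂ → ℝ≥0∞), ∫⁻ z, cellInd L z t * g z ∂α =
      ∫⁻ z in {z : ℂ | |z.im - t| ≤ 1 / L}, g z ∂α := by
    intro t g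
    rw [← lintegral_indicator (hcellm t)]
    apply lintegral_congr
    intro z
    unfold cellInd
    by_cases h : |z.im - t| ≤ 1 / L
    · rw [if_pos h, indicator_of_mem (show z ∈ {z : ℂ | |z.im - t| ≤ 1 / L} from h), one_mul]
    · rw [if_neg h, indicator_of_notMem (show z ∉ {z : ℂ | |z.im - t| ≤ 1 / L} from h), zero_mul]
  have hn_eq : ∀ t, n t = α {z : ℂ | |z.im - t| ≤ 1 / L} := by
    intro t
    have := hcell t (fun _ => 1)
    simp only [mul_one, lintegral_one, Measure.restrict_apply_univ] at this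
    exact this
  have hn_one : ∀ t, n t ≠ 0 → 1 ≤ n t := by
    intro t ht
    rw [hn_eq, hα, Measure.restrict_apply (hcellm t)] at ht ⊢
    exact one_le_muZ ht
  have hE0 : ∀ t, n t = 0 → Eg α c T t = 0 := by
    intro t ht
    unfold Eg
    rw [hcell t, setLIntegral_measure_zero _ _ (by rw [← hn_eq]; exact ht)]
  have hkey : ∀ t s, Eg α c T t * Eg muZ c T s ≤
      ENNReal.ofReal (1 / η) * n t + ENNReal.ofReal η * (Eg muZ c T t ^ 4 + Eg muZ c T s ^ 4) := by
    intro t s
    by_cases h0 : n t = 0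
    · rw [hE0 t h0, zero_mul]; exact zero_le
    have h1n := hn_one t h0
    have hle : Eg α c T t ≤ Eg muZ c T t := Eg_mono Measure.restrict_le_self c T t
    set x := Eg muZ c T t * Eg muZ c T s with hx
    have hx1 : Eg α c T t * Eg muZ c T s ≤ x := by rw [hx]; gcongr
    refine hx1.trans ?_
    have hx2 : x ^ 2 ≤ Eg muZ c T t ^ 4 + Eg muZ c T s ^ 4 := by
      have := ennreal_mul_le_sq_add_sq (Eg muZ c T t ^ 2) (Eg muZ c T s ^ 2)
      calc x ^ 2 = Eg muZ c T t ^ 2 * Eg muZ c T s ^ 2 := by rw [hx]; ring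
        _ ≤ _ := this
        _ = _ := by ring
    rcases le_total x (ENNReal.ofReal (1 / η)) with h5 | h5
    · calc x ≤ ENNReal.ofReal (1 / η) * 1 := by rw [mul_one]; exact h5
        _ ≤ ENNReal.ofReal (1 / η) * n t := by gcongr
        _ ≤ _ := le_self_add
    · have h6 : 1 ≤ ENNReal.ofReal η * x := by
        calc (1 : ℝ≥0∞) = ENNReal.ofReal η * ENNReal.ofReal (1 / η) := by
              rw [← ENNReal.ofReal_mul hη.le]
              rw [mul_one_div_cancel hη.ne', ENNReal.ofReal_one]
          _ ≤ _ := by gcongr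
      calc x = 1 * x := by rw [one_mul]
        _ ≤ (ENNReal.ofReal η * x) * x := by gcongr
        _ = ENNReal.ofReal η * x ^ 2 := by ring
        _ ≤ ENNReal.ofReal η * (Eg muZ c T t ^ 4 + Eg muZ c T s ^ 4) := by gcongr
        _ ≤ _ := le_add_self
  have hnint : ∫⁻ t in I, n t ≤ ENNReal.ofReal (2 / L) * muZ S := by
    rw [hn]
    simp only
    rw [lintegral_lintegral_swap]
    · calc ∫⁻ z, (∫⁻ t in I, cellInd L z t) ∂α ≤ ∫⁻ z, ENNReal.ofReal (2 / L) ∂α := by
            apply lintegral_mono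
            intro z
            refine (setLIntegral_le_lintegral _ _).trans ?_
            have := lintegral_cellInd L z MeasurableSet.univ (fun t _ => mem_univ t)
            rw [setLIntegral_univ] at this
            exact this.le
        _ = _ := by
            rw [lintegral_const, hα, Measure.restrict_apply_univ]
    · exact ((measurable_cellInd L).comp (f := fun q : ℝ × ℂ => (q.2, q.1)) (by fun_prop)).aemeasurable
  have h5 : ∫⁻ t in I, ∫⁻ s in I, Eg α c T t * Eg muZ c T s *
      ENNReal.ofReal (pk 1 L (t - s)) ≤ ENNReal.ofReal (π / (1 * L)) *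
        (ENNReal.ofReal (1 / η) * (ENNReal.ofReal (2 / L) * muZ S) +
          2 * (ENNReal.ofReal η * ENNReal.ofReal (C * T))) := by
    calc ∫⁻ t in I, ∫⁻ s in I, Eg α c T t * Eg muZ c T s * ENNReal.ofReal (pk 1 L (t - s))
        ≤ ∫⁻ t in I, ∫⁻ s in I, ((ENNReal.ofReal (1 / η) * n t +
            ENNReal.ofReal η * Eg muZ c T t ^ 4) * ENNReal.ofReal (pk 1 L (t - s)) +
          (ENNReal.ofReal η * Eg muZ c T s ^ 4) * ENNReal.ofReal (pk 1 L (t - s))) := by
          apply lintegral_mono
          intro t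
          apply lintegral_mono
          intro s
          simp only
          rw [← add_mul]
          gcongr
          refine (hkey t s).trans (le_of_eq ?_)
          ring
      _ = (∫⁻ t in I, ∫⁻ s in I, (ENNReal.ofReal (1 / η) * n t +
            ENNReal.ofReal η * Eg muZ c T t ^ 4) * ENNReal.ofReal (pk 1 L (t - s))) +
          ∫⁻ t in I, ∫⁻ s in I, (ENNReal.ofReal η * Eg muZ c T s ^ 4) *
            ENNReal.ofReal (pk 1 L (t - s)) := by
          rw [← lintegral_add_left]
          · apply lintegral_congr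
            intro t
            rw [← lintegral_add_left]
            exact (hpkm.comp (f := fun s : ℝ => t - s) (by fun_prop)).const_mul _
          · apply Measurable.lintegral_prod_right' (f := fun q : ℝ × ℝ =>
              (ENNReal.ofReal (1 / η) * n q.1 +
            ENNReal.ofReal η * Eg muZ c T q.1 ^ 4) * ENNReal.ofReal (pk 1 L (q.1 - q.2)))
            exact (((hnm.comp measurable_fst).const_mul _).add
              (((hEm.comp measurable_fst).pow_const 4).const_mul _)).mul
              (hpkm.comp (f := fun q : ℝ × ℝ => q.1 - q.2) (by fun_prop))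
      _ ≤ ENNReal.ofReal (π / (1 * L)) * (ENNReal.ofReal (1 / η) * (ENNReal.ofReal (2 / L) * muZ S) +
            ENNReal.ofReal η * ENNReal.ofReal (C * T)) +
          ENNReal.ofReal (π / (1 * L)) * (ENNReal.ofReal η * ENNReal.ofReal (C * T)) := by
          apply add_le_add
          · refine (schur_left one_pos hL I (fun t => ENNReal.ofReal (1 / η) * n t +
              ENNReal.ofReal η * Eg muZ c T t ^ 4)).trans ?_
            gcongr
            rw [lintegral_add_left (hnm.const_mul _), lintegral_const_mul _ hnm,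
              lintegral_const_mul _ (hEm.pow_const 4)]
            gcongr
          · refine (schur_right one_pos hL I (f := fun t => ENNReal.ofReal η * Eg muZ c T t ^ 4)
              ((hEm.pow_const 4).const_mul _)).trans ?_
            gcongr
            rw [lintegral_const_mul _ (hEm.pow_const 4)]
            gcongr
      _ = _ := by ring
  have h6 : (∫⁻ p in {p : ℂ × ℂ | |p.1.im| ≤ 2 * T ∧ |p.2.im| ≤ 2 * T},
      ENNReal.ofReal (pairW c T 1 p) ∂(α.prod muZ)) * ENNReal.ofReal ((2 / L) ^ 2) ≤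
      81 * (ENNReal.ofReal (π / (1 * L)) *
        (ENNReal.ofReal (1 / η) * (ENNReal.ofReal (2 / L) * muZ S) +
          2 * (ENNReal.ofReal η * ENNReal.ofReal (C * T)))) := by
    rw [ENNReal.ofReal_pow (by positivity)]
    exact h4.trans (mul_le_mul' le_rfl h5)
  have h7 : 81 * (ENNReal.ofReal (π / (1 * L)) *
        (ENNReal.ofReal (1 / η) * (ENNReal.ofReal (2 / L) * muZ S) +
          2 * (ENNReal.ofReal η * ENNReal.ofReal (C * T)))) =
      ENNReal.ofReal (81 * (π / (1 * L)) * (1 / η) * (2 / L)) * muZ S +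
        ENNReal.ofReal (81 * (π / (1 * L)) * 2 * η * (C * T)) := by
    rw [ENNReal.ofReal_mul (p := 81 * (π / (1 * L)) * (1 / η)) (by positivity),
      ENNReal.ofReal_mul (p := 81 * (π / (1 * L))) (by positivity),
      ENNReal.ofReal_mul (p := 81 * (π / (1 * L)) * 2 * η) (by positivity),
      ENNReal.ofReal_mul (p := 81 * (π / (1 * L)) * 2) (by positivity),
      ENNReal.ofReal_mul (p := 81 * (π / (1 * L))) (by positivity),
      ENNReal.ofReal_mul (p := 81) (by positivity)]
    have e81 : ENNReal.ofReal 81 = 81 := by simp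
    have e2 : ENNReal.ofReal 2 = 2 := by simp
    rw [e81, e2]
    ring
  rw [h7, ← ENNReal.le_div_iff_mul_le] at h6
  · refine h6.trans ?_
    rw [ENNReal.add_div]
    apply add_le_add
    · have ediv : ∀ a b c : ℝ≥0∞, a * b / c = a / c * b := by
        intro a b c
        rw [div_eq_mul_inv, div_eq_mul_inv]; ring
      rw [ediv, ← ENNReal.ofReal_div_of_pos (by positivity)]
      gcongr ?_ * _
      apply ENNReal.ofReal_le_ofReal
      rw [div_le_div_iff₀ (by positivity) hη]
      have e : 81 * (π / (1 * L)) * (1 / η) * (2 / L) * η = 162 * π / L ^ 2 := by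
        field_simp; norm_num
      have e' : 81 * π / 2 * (C + 1) * (2 / L) ^ 2 = 162 * π / L ^ 2 * (C + 1) := by
        field_simp; norm_num
      rw [e, e']
      have : 0 ≤ 162 * π / L ^ 2 * C := by positivity
      linarith
    · rw [← ENNReal.ofReal_div_of_pos (by positivity)]
      apply ENNReal.ofReal_le_ofReal
      rw [div_le_iff₀ (by positivity)]
      have e : 81 * (π / (1 * L)) * 2 * η * (C * T) = 162 * π * η * T / L * C := by
        field_simp; norm_num
      have e' : 81 * π / 2 * (C + 1) * η * (T * L) * (2 / L) ^ 2 = 162 * π * η * T / L * (C + 1) := by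
        field_simp; norm_num
      rw [e, e']
      have : 0 ≤ 162 * π * η * T / L := by positivity
      linarith
  · left
    simp only [ne_eq, ENNReal.ofReal_eq_zero, not_le]
    positivity
  · left
    exact ENNReal.ofReal_ne_top

end Pool.Agent.PairCorr
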