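import Mathlib
import Pool.Agent.PairCorr.PB_Moments

/-!
Far pairs and the pair bounds.
-/

set_option autoImplicit false

namespace Pool.Agent.PairCorr

open MeasureTheory Filter Topology Set Real
open scoped ENNReal

lemma wgt_le_of_mem {c T : ℝ} (hc : 0 ≤ c) (hT : 1 ≤ T) {z : ℂ} (hz : z ∈ NTZ) :
    wgt c T z ≤ T ^ (c / 2) := by
  have hL : 0 ≤ Real.log T := Real.log_nonneg hT
  unfold wgt
  rw [Real.rpow_def_of_pos (by linarith), mul_comm (Real.log T)]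
  apply Real.exp_le_exp.mpr
  have : |z.re - 1 / 2| ≤ 1 / 2 := by
    rw [abs_le]
    constructor <;> linarith [hz.2.1, hz.2.2]
  have h2 : c * |z.re - 1 / 2| ≤ c / 2 := by nlinarith
  gcongr

lemma muZ_prod_ae : ∀ᵐ p ∂(muZ.prod muZ), p.1 ∈ NTZ ∧ p.2 ∈ NTZ := by
  have hm : MeasurableSet NTZ := countable_NTZ.measurableSet
  have h1 : ∀ᵐ p ∂(muZ.prod muZ), p.1 ∈ NTZ := by
    rw [ae_iff]
    have : {p : ℂ × ℂ | p.1 ∉ NTZ} = NTZᶜ ×ˢ univ := by ext p; simp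
    rw [this, Measure.prod_prod]
    have : muZ NTZᶜ = 0 := by
      have := muZ_ae
      rw [ae_iff] at this
      exact this
    rw [this, zero_mul]
  have h2 : ∀ᵐ p ∂(muZ.prod muZ), p.2 ∈ NTZ := by
    rw [ae_iff]
    have : {p : ℂ × ℂ | p.2 ∉ NTZ} = univ ×ˢ NTZᶜ := by ext p; simp
    rw [this, Measure.prod_prod]
    have : muZ NTZᶜ = 0 := by
      have := muZ_ae
      rw [ae_iff] at this
      exact this
    rw [this, mul_zero]
  filter_upwards [h1, h2] with p h3 h4 using ⟨h3, h4⟩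

/-- `N(T) ≤ T log T` for large `T`. -/
lemma exists_muW_le : ∃ T₀ : ℝ, Real.exp 1 ≤ T₀ ∧ ∀ T : ℝ, T₀ ≤ T →
    muZ (WT T) ≤ ENNReal.ofReal (T * Real.log T) := by
  have h := statementE
  unfold StatementE at h
  have hlt : 1 / (2 * π) < 1 := by
    rw [div_lt_one (by positivity)]
    have := Real.pi_gt_three
    linarith
  have h1 := h.eventually (gt_mem_nhds hlt)
  obtain ⟨T₁, hT₁⟩ := (h1.and (eventually_ge_atTop (Real.exp 1))).exists_forall_of_atTop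
  refine ⟨max T₁ (Real.exp 1), le_max_right _ _, fun T hT => ?_⟩
  have h2 := hT₁ T ((le_max_left _ _).trans hT)
  have hTe : Real.exp 1 ≤ T := h2.2
  have hT1 : 1 < T := (Real.one_lt_exp_iff.mpr one_pos).trans_le hTe
  have hpos : 0 < T * Real.log T := mul_pos (by linarith) (Real.log_pos hT1)
  have h3 := h2.1
  rw [div_lt_one hpos] at h3
  have h4 : muZ (WT T) = muW T univ := by
    unfold muW; rw [Measure.restrict_apply_univ]
  rw [h4, muW_univ]
  exact ENNReal.ofReal_le_ofReal h3.le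

/-- far pairs -/
lemma far_bound {c : ℝ} (hc : 0 ≤ c) (hc4 : c ≤ 1 / 4) : ∃ C : ℝ, 0 < C ∧ ∃ T₀ : ℝ, Real.exp 1 ≤ T₀ ∧
    ∀ T : ℝ, T₀ ≤ T → ∀ δ : ℝ, T ^ (-(1/2) : ℝ) ≤ δ →
    ∫⁻ p in {p : ℂ × ℂ | p.1 ∈ WT T ∧ ¬ (|p.1.im| ≤ 2 * T ∧ |p.2.im| ≤ 2 * T)},
      ENNReal.ofReal (pairW c T δ p) ∂(muZ.prod muZ) ≤ ENNReal.ofReal (C * (T * Real.log T) / δ) := by
  obtain ⟨D, hD, hLD⟩ := muZ_logDens
  obtain ⟨C', hC', hint⟩ : ∃ C' : ℝ, 0 < C' ∧ ∀ t : ℝ,
      ∫⁻ z, ENNReal.ofReal ((1 + (z.im - t) ^ 2)⁻¹) ∂muZ ≤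
      ENNReal.ofReal (C' * Real.log (|t| + 2)) := by
    refine ⟨(3 * D * ∑' n : ℤ, (1 + (n:ℝ)^2)⁻¹ * (1 + 2 * Real.log (|(n:ℝ)| + 2))) + 1, ?_, ?_⟩
    · have : 0 ≤ ∑' n : ℤ, (1 + (n:ℝ)^2)⁻¹ * (1 + 2 * Real.log (|(n:ℝ)| + 2)) := by
        apply tsum_nonneg
        intro n
        have : 0 ≤ Real.log (|(n:ℝ)| + 2) := Real.log_nonneg (by have := abs_nonneg (n:ℝ); linarith)
        positivity
      positivity
    · intro t
      refine (hLD.lintegral_le hD.le t).trans ?_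
      apply ENNReal.ofReal_le_ofReal
      have : 0 ≤ Real.log (|t| + 2) := Real.log_nonneg (by have := abs_nonneg t; linarith)
      nlinarith
  obtain ⟨T₁, hT₁, hN⟩ := exists_muW_le
  refine ⟨2 * C' * 8, by positivity, max T₁ 2, hT₁.trans (le_max_left _ _), fun T hT δ hδ => ?_⟩
  have hTT₁ : T₁ ≤ T := (le_max_left _ _).trans hT
  have hT2 : 2 ≤ T := (le_max_right _ _).trans hT
  have hTe : Real.exp 1 ≤ T := hT₁.trans hTT₁
  have hT0 : 0 < T := by linarith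
  have hL1 : 1 ≤ Real.log T := by
    rw [← Real.log_exp 1]
    exact Real.log_le_log (Real.exp_pos 1) hTe
  have hδ0 : 0 < δ := lt_of_lt_of_le (by positivity) hδ
  set L := Real.log T with hLdef
  set A : ℝ := 2 * T ^ (-(1/4) : ℝ) / δ with hA
  have hA0 : 0 < A := by positivity
  -- pointwise bound
  have hpt : ∀ p : ℂ × ℂ, p.1 ∈ NTZ → p.2 ∈ NTZ → p.1 ∈ WT T →
      ¬ (|p.1.im| ≤ 2 * T ∧ |p.2.im| ≤ 2 * T) →
      pairW c T δ p ≤ A * (1 + (p.2.im - p.1.im) ^ 2)⁻¹ := by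
    intro p h1 h2 h3 h4
    have h5 : |p.1.im| ≤ T := by rw [abs_of_pos h3.1]; exact h3.2
    have h6 : 2 * T < |p.2.im| := by
      by_contra hcon
      exact h4 ⟨by linarith, not_lt.mp hcon⟩
    set x := |p.1.im - p.2.im| with hx
    have h7 : T ≤ x := by
      have : |p.2.im| - |p.1.im| ≤ |p.2.im - p.1.im| := abs_sub_abs_le_abs_sub _ _
      rw [abs_sub_comm] at this
      linarith
    have hw : wgt c T p.1 * wgt c T p.2 ≤ T ^ (1/4 : ℝ) := by
      have e1 := wgt_le_of_mem hc (by linarith : (1:ℝ) ≤ T) h1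
      have e2 := wgt_le_of_mem hc (by linarith : (1:ℝ) ≤ T) h2
      calc wgt c T p.1 * wgt c T p.2 ≤ T ^ (c / 2) * T ^ (c / 2) := by
            apply mul_le_mul e1 e2 (Real.exp_pos _).le (by positivity)
        _ = T ^ c := by rw [← Real.rpow_add hT0]; ring_nf
        _ ≤ T ^ (1/4 : ℝ) := Real.rpow_le_rpow_of_exponent_le (by linarith) hc4
    have hx0 : 0 < x := by linarith
    have hk : ((1 + δ * L * x) ^ 4)⁻¹ ≤ (δ ^ 4 * (T ^ 2 * x ^ 2))⁻¹ := by
      apply inv_anti₀ (by positivity)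
      calc δ ^ 4 * (T ^ 2 * x ^ 2) ≤ δ ^ 4 * (x ^ 2 * x ^ 2) := by gcongr
        _ = (δ * 1 * x) ^ 4 := by ring
        _ ≤ (δ * L * x) ^ 4 := by gcongr
        _ ≤ (1 + δ * L * x) ^ 4 := by
            gcongr
            linarith
    have hδ3 : T ^ (-(3/2) : ℝ) ≤ δ ^ 3 := by
      calc T ^ (-(3/2) : ℝ) = (T ^ (-(1/2) : ℝ)) ^ 3 := by
            rw [← Real.rpow_natCast, ← Real.rpow_mul hT0.le]; norm_num
        _ ≤ δ ^ 3 := by gcongr
    have hx2 : (x ^ 2)⁻¹ ≤ 2 * (1 + (p.2.im - p.1.im) ^ 2)⁻¹ := by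
      have e : (p.2.im - p.1.im) ^ 2 = x ^ 2 := by rw [hx, sq_abs]; ring
      rw [e]
      rw [inv_le_iff_one_le_mul₀ (by positivity)]
      rw [show 2 * (1 + x ^ 2)⁻¹ * x ^ 2 = (2 * x ^ 2) / (1 + x ^ 2) by ring,
        one_le_div (by positivity)]
      nlinarith
    have hT3 : T ^ (1/4 : ℝ) * (δ ^ 4 * T ^ 2)⁻¹ ≤ T ^ (-(1/4) : ℝ) / δ := by
      have e1 : T ^ (1/4 : ℝ) * (δ ^ 4 * T ^ 2)⁻¹ = T ^ (1/4 : ℝ) * (T ^ 2)⁻¹ * (δ ^ 3)⁻¹ / δ := by
        field_simp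
      rw [e1]
      gcongr
      have e2 : (δ ^ 3)⁻¹ ≤ (T ^ (-(3/2) : ℝ))⁻¹ := inv_anti₀ (by positivity) hδ3
      calc T ^ (1/4 : ℝ) * (T ^ 2)⁻¹ * (δ ^ 3)⁻¹ ≤ T ^ (1/4 : ℝ) * (T ^ 2)⁻¹ * (T ^ (-(3/2) : ℝ))⁻¹ := by
            gcongr
        _ = T ^ (-(1/4) : ℝ) := by
            rw [← Real.rpow_natCast T 2, ← Real.rpow_neg hT0.le, ← Real.rpow_neg hT0.le,
              ← Real.rpow_add hT0, ← Real.rpow_add hT0]
            norm_num
    calc pairW c T δ p = (wgt c T p.1 * wgt c T p.2) * ((1 + δ * L * x) ^ 4)⁻¹ := by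
          unfold pairW; rfl
      _ ≤ T ^ (1/4 : ℝ) * (δ ^ 4 * (T ^ 2 * x ^ 2))⁻¹ := by
          apply mul_le_mul hw hk (by positivity) (by positivity)
      _ = (T ^ (1/4 : ℝ) * (δ ^ 4 * T ^ 2)⁻¹) * (x ^ 2)⁻¹ := by
          rw [mul_inv, mul_inv, mul_inv]; ring
      _ ≤ (T ^ (-(1/4) : ℝ) / δ) * (2 * (1 + (p.2.im - p.1.im) ^ 2)⁻¹) := by
          apply mul_le_mul hT3 hx2 (by positivity) (by positivity)
      _ = _ := by rw [hA]; ring
  set F : Set (ℂ × ℂ) := {p : ℂ × ℂ | p.1 ∈ WT T ∧ ¬ (|p.1.im| ≤ 2 * T ∧ |p.2.im| ≤ 2 * T)} with hF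
  have hNm : MeasurableSet {p : ℂ × ℂ | |p.1.im| ≤ 2 * T ∧ |p.2.im| ≤ 2 * T} := by
    have h1 : Measurable fun p : ℂ × ℂ => |p.1.im| := by
      have : Measurable fun p : ℂ × ℂ => p.1.im := by fun_prop
      exact this.norm
    have h2 : Measurable fun p : ℂ × ℂ => |p.2.im| := by
      have : Measurable fun p : ℂ × ℂ => p.2.im := by fun_prop
      exact this.norm
    exact (measurableSet_le h1 measurable_const).inter (measurableSet_le h2 measurable_const)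
  have hFm : MeasurableSet F := ((measurableSet_WT T).preimage measurable_fst).inter hNm.compl
  have hgm : Measurable fun p : ℂ × ℂ => ENNReal.ofReal (A * (1 + (p.2.im - p.1.im) ^ 2)⁻¹) := by
    have : Measurable fun p : ℂ × ℂ => (1 + (p.2.im - p.1.im) ^ 2) := by fun_prop
    exact (this.inv.const_mul A).ennreal_ofReal
  calc ∫⁻ p in F, ENNReal.ofReal (pairW c T δ p) ∂(muZ.prod muZ)
      ≤ ∫⁻ p in F, ENNReal.ofReal (A * (1 + (p.2.im - p.1.im) ^ 2)⁻¹) ∂(muZ.prod muZ) := by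
        apply setLIntegral_mono_ae hgm.aemeasurable
        filter_upwards [muZ_prod_ae] with p hp hpF
        exact ENNReal.ofReal_le_ofReal (hpt p hp.1 hp.2 hpF.1 hpF.2)
    _ ≤ ∫⁻ p in WT T ×ˢ univ, ENNReal.ofReal (A * (1 + (p.2.im - p.1.im) ^ 2)⁻¹) ∂(muZ.prod muZ) := by
        apply lintegral_mono_set
        intro p hp
        exact ⟨hp.1, mem_univ _⟩
    _ = ∫⁻ z in WT T, (∫⁻ z', ENNReal.ofReal (A * (1 + (z'.im - z.im) ^ 2)⁻¹) ∂muZ) ∂muZ := by
        rw [← Measure.prod_restrict, Measure.restrict_univ, lintegral_prod _ hgm.aemeasurable]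
    _ ≤ ∫⁻ z in WT T, ENNReal.ofReal (A * (C' * Real.log (T + 2))) ∂muZ := by
        apply setLIntegral_mono measurable_const
        intro z hz
        have e : ∀ z' : ℂ, ENNReal.ofReal (A * (1 + (z'.im - z.im) ^ 2)⁻¹) =
            ENNReal.ofReal A * ENNReal.ofReal ((1 + (z'.im - z.im) ^ 2)⁻¹) := fun z' =>
          ENNReal.ofReal_mul hA0.le
        simp_rw [e]
        rw [lintegral_const_mul', ENNReal.ofReal_mul hA0.le]
        · gcongr
          refine (hint z.im).trans ?_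
          apply ENNReal.ofReal_le_ofReal
          have : |z.im| ≤ T := by rw [abs_of_pos hz.1]; exact hz.2
          have : 0 ≤ |z.im| := abs_nonneg _
          gcongr
        · exact ENNReal.ofReal_ne_top
    _ = ENNReal.ofReal (A * (C' * Real.log (T + 2))) * muZ (WT T) := by
        rw [lintegral_const, Measure.restrict_apply_univ]
    _ ≤ ENNReal.ofReal (A * (C' * Real.log (T + 2))) * ENNReal.ofReal (T * L) := by
        gcongr
        exact hN T hTT₁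
    _ ≤ ENNReal.ofReal (2 * C' * 8 * (T * L) / δ) := by
        have hlog0 : 0 ≤ Real.log (T + 2) := Real.log_nonneg (by linarith)
        rw [← ENNReal.ofReal_mul (by positivity)]
        apply ENNReal.ofReal_le_ofReal
        have e1 : Real.log (T + 2) ≤ 2 * L := by
          rw [hLdef, two_mul, ← Real.log_mul hT0.ne' hT0.ne']
          apply Real.log_le_log (by linarith)
          nlinarith
        have e2 : L ≤ 4 * T ^ (1/4 : ℝ) := by
          have := Real.log_le_rpow_div hT0.le (ε := 1/4) (by norm_num)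
          rw [← hLdef] at this
          linarith
        have e3 : T ^ (-(1/4) : ℝ) * T ^ (1/4 : ℝ) = 1 := by
          rw [← Real.rpow_add hT0]; norm_num
        have e4 : T ^ (-(1/4) : ℝ) * Real.log (T + 2) ≤ 8 := by
          calc T ^ (-(1/4) : ℝ) * Real.log (T + 2) ≤ T ^ (-(1/4) : ℝ) * (8 * T ^ (1/4 : ℝ)) := by
                gcongr
                linarith
            _ = 8 * (T ^ (-(1/4) : ℝ) * T ^ (1/4 : ℝ)) := by ring
            _ = 8 := by rw [e3]; norm_num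
        calc A * (C' * Real.log (T + 2)) * (T * L) =
            2 * C' * (T ^ (-(1/4) : ℝ) * Real.log (T + 2)) * (T * L) / δ := by rw [hA]; ring
          _ ≤ 2 * C' * 8 * (T * L) / δ := by gcongr

/-- (PB) in `ENNReal` form. -/
lemma pb_lintegral (hB : StatementB) : ∃ c : ℝ, 0 < c ∧ ∃ C : ℝ, 0 < C ∧ ∃ T₀ : ℝ, Real.exp 1 ≤ T₀ ∧
    ∀ T : ℝ, T₀ ≤ T → ∀ δ : ℝ, T ^ (-(1/2) : ℝ) ≤ δ → δ ≤ 1 →
    ∫⁻ p, ENNReal.ofReal (pairW c T δ p) ∂((muW T).prod muZ) ≤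
      ENNReal.ofReal (C * (T * Real.log T) / δ) := by
  obtain ⟨c₁, hc₁, C₁, hC₁, T₁, hT₁, h1⟩ := near_bound hB
  obtain ⟨C₂, hC₂, T₂, hT₂, h2⟩ := far_bound (c := min c₁ (1/4)) (by positivity) (min_le_right _ _)
  refine ⟨min c₁ (1/4), by positivity, C₁ + C₂, by positivity, max T₁ T₂, hT₁.trans (le_max_left _ _),
    fun T hT δ hδ hδ1 => ?_⟩
  have hTT₁ : T₁ ≤ T := (le_max_left _ _).trans hT
  have hTT₂ : T₂ ≤ T := (le_max_right _ _).trans hT
  have hTe : Real.exp 1 ≤ T := hT₁.trans hTT₁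
  have hT1 : 1 ≤ T := (Real.one_le_exp (by norm_num)).trans hTe
  have hδ0 : 0 < δ := lt_of_lt_of_le (by positivity) hδ
  have hL0 : 0 ≤ Real.log T := Real.log_nonneg hT1
  rw [muW_prod_restrict]
  set N : Set (ℂ × ℂ) := {p : ℂ × ℂ | |p.1.im| ≤ 2 * T ∧ |p.2.im| ≤ 2 * T} with hN
  calc ∫⁻ p in WT T ×ˢ univ, ENNReal.ofReal (pairW (min c₁ (1/4)) T δ p) ∂(muZ.prod muZ)
      ≤ ∫⁻ p in N ∪ {p : ℂ × ℂ | p.1 ∈ WT T ∧ ¬ (|p.1.im| ≤ 2 * T ∧ |p.2.im| ≤ 2 * T)},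
        ENNReal.ofReal (pairW (min c₁ (1/4)) T δ p) ∂(muZ.prod muZ) := by
        apply lintegral_mono_set
        intro p hp
        by_cases h : p ∈ N
        · exact Or.inl h
        · exact Or.inr ⟨hp.1, h⟩
    _ ≤ _ := lintegral_union_le _ _ _
    _ ≤ ENNReal.ofReal (C₁ * (T * Real.log T) / δ) + ENNReal.ofReal (C₂ * (T * Real.log T) / δ) := by
        apply add_le_add
        · refine le_trans ?_ (h1 T hTT₁ δ hδ0 hδ1)
          apply lintegral_mono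
          intro p
          exact ENNReal.ofReal_le_ofReal (pairW_mono (min_le_left _ _) hT1 hδ0.le p)
        · exact h2 T hTT₂ δ hδ
    _ = _ := by
        rw [← ENNReal.ofReal_add (by positivity) (by positivity)]
        congr 1
        ring

/-- (PB) -/
theorem statementPB_of (hB : StatementB) : StatementPB := by
  obtain ⟨c, hc, C, hC, T₀, hT₀, h⟩ := pb_lintegral hB
  refine ⟨c, hc, C, hC, T₀, fun T hT δ hδ hδ1 => ?_⟩
  have hTe : Real.exp 1 ≤ T := hT₀.trans hT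
  have hT1 : 1 ≤ T := (Real.one_le_exp (by norm_num)).trans hTe
  have hδ0 : 0 < δ := lt_of_lt_of_le (by positivity) hδ
  have hL0 : 0 ≤ Real.log T := Real.log_nonneg hT1
  have h1 := h T hT δ hδ hδ1
  have hnn : ∀ p, 0 ≤ pairW c T δ p := by
    intro p
    unfold pairW wgt
    positivity
  constructor
  · refine ⟨(measurable_pairW c T δ).aestronglyMeasurable, ?_⟩
    rw [hasFiniteIntegral_iff_ofReal (Eventually.of_forall hnn)]
    exact h1.trans_lt ENNReal.ofReal_lt_top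
  · rw [integral_eq_lintegral_of_nonneg_ae (Eventually.of_forall hnn)
      (measurable_pairW c T δ).aestronglyMeasurable]
    exact ENNReal.toReal_le_of_le_ofReal (by positivity) h1

end Pool.Agent.PairCorr
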