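import Mathlib
import Pool.Agent.PairCorr.PB_Far

/-!
Upper bounds for `N*(T,a)`.
-/

set_option autoImplicit false

namespace Pool.Agent.PairCorr

open MeasureTheory Filter Topology Set Real
open scoped ENNReal

/-- The symmetric region, diagonal included. -/
def SymSet (T a : ℝ) : Set (ℂ × ℂ) :=
  {p | |p.1.im - p.2.im| ≤ 2 * Real.pi * a / Real.log T}

lemma measurableSet_SymSet (T a : ℝ) : MeasurableSet (SymSet T a) := by
  have h : Measurable fun p : ℂ × ℂ => p.1.im - p.2.im := by fun_prop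
  exact measurableSet_le h.norm measurable_const

lemma NSset_subset_SymSet (T a : ℝ) : NSset T a ⊆ SymSet T a := by
  intro p hp
  have h1 : 0 < p.1.im - p.2.im := hp.1
  show |p.1.im - p.2.im| ≤ _
  rw [abs_of_pos h1]
  exact hp.2

/-- linear bound for the number of close pairs, for `1 + a ≤ √T`. -/
theorem SymSet_le_linear (hB : StatementB) : ∃ C : ℝ, 0 < C ∧ ∃ T₀ : ℝ, Real.exp 1 ≤ T₀ ∧
    ∀ T : ℝ, T₀ ≤ T → ∀ a : ℝ, 0 ≤ a → 1 + a ≤ T ^ (1/2 : ℝ) →
    ((muW T).prod muZ) (SymSet T a) ≤ ENNReal.ofReal (C * (1 + a) * (T * Real.log T)) := by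
  obtain ⟨c, hc, C, hC, T₀, hT₀, h⟩ := pb_lintegral hB
  refine ⟨4096 * C, by positivity, T₀, hT₀, fun T hT a ha ha2 => ?_⟩
  have hTe : Real.exp 1 ≤ T := hT₀.trans hT
  have hT1 : 1 < T := (Real.one_lt_exp_iff.mpr one_pos).trans_le hTe
  have hT0 : 0 < T := by linarith
  have hL0 : 0 < Real.log T := Real.log_pos hT1
  set δ : ℝ := 1 / (1 + a) with hδ
  have hδ0 : 0 < δ := by positivity
  have hδ1 : δ ≤ 1 := by rw [hδ, div_le_one (by linarith)]; linarith
  have hδT : T ^ (-(1/2) : ℝ) ≤ δ := by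
    rw [hδ, Real.rpow_neg hT0.le, ← one_div]
    exact one_div_le_one_div_of_le (by linarith) ha2
  have h1 := h T hT δ hδT hδ1
  have hpt : ∀ p ∈ SymSet T a, (1 : ℝ≥0∞) ≤ 4096 * ENNReal.ofReal (pairW c T δ p) := by
    intro p hp
    have hp' : |p.1.im - p.2.im| ≤ 2 * Real.pi * a / Real.log T := hp
    have e2 : δ * Real.log T * |p.1.im - p.2.im| ≤ 7 := by
      calc δ * Real.log T * |p.1.im - p.2.im| ≤ δ * Real.log T * (2 * Real.pi * a / Real.log T) := by
            gcongr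
        _ = 2 * π * (a * δ) := by field_simp
        _ ≤ 2 * π * 1 := by
            gcongr
            rw [hδ, mul_one_div, div_le_one (by linarith)]
            linarith
        _ ≤ 7 := by have := Real.pi_lt_d2; linarith
    have hk : (1 / 4096 : ℝ) ≤ ((1 + δ * Real.log T * |p.1.im - p.2.im|) ^ 4)⁻¹ := by
      rw [one_div]
      apply inv_anti₀ (by positivity)
      calc (1 + δ * Real.log T * |p.1.im - p.2.im|) ^ 4 ≤ (1 + 7) ^ 4 := by gcongr
        _ = 4096 := by norm_num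
    have hw : ∀ z : ℂ, 1 ≤ wgt c T z := by
      intro z
      unfold wgt
      apply Real.one_le_exp
      positivity
    have hpw : (1 / 4096 : ℝ) ≤ pairW c T δ p := by
      unfold pairW
      have := one_le_mul_of_one_le_of_one_le (hw p.1) (hw p.2)
      calc (1 / 4096 : ℝ) = 1 * (1 / 4096) := by ring
        _ ≤ _ := by
            apply mul_le_mul this hk (by norm_num) (by linarith)
    calc (1 : ℝ≥0∞) = 4096 * ENNReal.ofReal (1 / 4096) := by
          have : (4096 : ℝ≥0∞) = ENNReal.ofReal 4096 := by simp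
          rw [this, ← ENNReal.ofReal_mul (by norm_num)]
          norm_num
      _ ≤ _ := by
          gcongr
  calc ((muW T).prod muZ) (SymSet T a) = ∫⁻ p in SymSet T a, 1 ∂((muW T).prod muZ) := by
        rw [lintegral_one, Measure.restrict_apply_univ]
    _ ≤ ∫⁻ p in SymSet T a, 4096 * ENNReal.ofReal (pairW c T δ p) ∂((muW T).prod muZ) :=
        setLIntegral_mono' (measurableSet_SymSet T a) hpt
    _ ≤ ∫⁻ p, 4096 * ENNReal.ofReal (pairW c T δ p) ∂((muW T).prod muZ) :=
        setLIntegral_le_lintegral _ _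
    _ = 4096 * ∫⁻ p, ENNReal.ofReal (pairW c T δ p) ∂((muW T).prod muZ) := by
        rw [lintegral_const_mul' _ _ (by norm_num)]
    _ ≤ 4096 * ENNReal.ofReal (C * (T * Real.log T) / δ) := by gcongr
    _ = _ := by
        have : (4096 : ℝ≥0∞) = ENNReal.ofReal 4096 := by simp
        rw [this, ← ENNReal.ofReal_mul (by norm_num)]
        congr 1
        rw [hδ]
        field_simp

/-- `N*(T,a) ≤ C (1+a) T log T` for `1 + a ≤ √T`. -/
theorem NStar_le_linear (hB : StatementB) : ∃ C : ℝ, 0 < C ∧ ∃ T₀ : ℝ, ∀ T : ℝ, T₀ ≤ T → ∀ a : ℝ,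
    0 ≤ a → 1 + a ≤ T ^ (1/2 : ℝ) → NStar T a ≤ C * (1 + a) * (T * Real.log T) := by
  obtain ⟨C, hC, T₀, hT₀, h⟩ := SymSet_le_linear hB
  refine ⟨C, hC, T₀, fun T hT a ha ha2 => ?_⟩
  have hTe : Real.exp 1 ≤ T := hT₀.trans hT
  have hT1 : 1 < T := (Real.one_lt_exp_iff.mpr one_pos).trans_le hTe
  have hL0 : 0 < Real.log T := Real.log_pos hT1
  rw [NStar_eq_toReal]
  exact ENNReal.toReal_le_of_le_ofReal (by positivity)
    ((measure_mono (NSset_subset_SymSet T a)).trans (h T hT a ha ha2))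

/-- quadratic bound for the number of close pairs, for all `a ≥ 0`. -/
theorem SymSet_le_quadratic (hB : StatementB) : ∃ C : ℝ, 0 < C ∧ ∃ T₀ : ℝ, Real.exp 1 ≤ T₀ ∧
    ∀ T : ℝ, T₀ ≤ T → ∀ a : ℝ, 0 ≤ a →
    ((muW T).prod muZ) (SymSet T a) ≤ ENNReal.ofReal (C * (1 + a) ^ 2 * (T * Real.log T)) := by
  obtain ⟨C₁, hC₁, T₁, hT₁', h1⟩ := SymSet_le_linear hB
  obtain ⟨T₂, hT₂, hN⟩ := exists_muW_le
  obtain ⟨D, hD, hLD⟩ := muZ_logDens
  obtain ⟨C', hC', hint⟩ : ∃ C' : ℝ, 0 < C' ∧ ∀ t : ℝ,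
      ∫⁻ z, ENNReal.ofReal ((1 + (z.im - t) ^ 2)⁻¹) ∂muZ ≤
      ENNReal.ofReal (C' * Real.log (|t| + 2)) := by
    refine ⟨(3 * D * ∑' n : ℤ, (1 + (n:ℝ)^2)⁻¹ * (1 + 2 * Real.log (|(n:ℝ)| + 2))) + 1, ?_, ?_⟩
    · have : 0 ≤ ∑' n : ℤ, (1 + (n:ℝ)^2)⁻¹ * (1 + 2 * Real.log (|(n:ℝ)| + 2)) := by
        apply tsum_nonneg
        intro n
        have : 0 ≤ Real.log (|(n:ℝ)| + 2) := Real.log_nonneg (by have := abs_nonneg (n:ℝ); linarith)
        positivity
      positivity
    · intro t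
      refine (hLD.lintegral_le hD.le t).trans ?_
      apply ENNReal.ofReal_le_ofReal
      have : 0 ≤ Real.log (|t| + 2) := Real.log_nonneg (by have := abs_nonneg t; linarith)
      nlinarith
  refine ⟨C₁ + 200 * C', by positivity, max (max T₁ T₂) 2,
    (hT₁'.trans (le_max_left _ _)).trans (le_max_left _ _), fun T hT a ha => ?_⟩
  have hTT₁ : T₁ ≤ T := ((le_max_left _ _).trans (le_max_left _ _)).trans hT
  have hTT₂ : T₂ ≤ T := ((le_max_right _ _).trans (le_max_left _ _)).trans hT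
  have hT2 : 2 ≤ T := (le_max_right _ _).trans hT
  have hTe : Real.exp 1 ≤ T := hT₂.trans hTT₂
  have hT0 : 0 < T := by linarith
  have hL1 : 1 ≤ Real.log T := by
    rw [← Real.log_exp 1]
    exact Real.log_le_log (Real.exp_pos 1) hTe
  set L := Real.log T with hLdef
  have hTL : 0 < T * L := by positivity
  rcases le_or_gt (1 + a) (T ^ (1/2 : ℝ)) with h2 | h2
  · refine (h1 T hTT₁ a ha h2).trans ?_
    have : C₁ * (1 + a) ≤ (C₁ + 200 * C') * (1 + a) ^ 2 := by nlinarith [mul_nonneg hC'.le (sq_nonneg (1 + a)), mul_nonneg hC₁.le ha, mul_nonneg (mul_nonneg hC₁.le ha) ha]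
    rw [← hLdef]
    apply ENNReal.ofReal_le_ofReal
    gcongr
  · have hLa : L ≤ 2 * (1 + a) := by
      have := Real.log_le_rpow_div hT0.le (ε := 1/2) (by norm_num)
      rw [← hLdef] at this
      linarith
    set h : ℝ := 2 * Real.pi * a / L with hh
    have hh0 : 0 ≤ h := by positivity
    have hh2 : h ^ 2 * L ≤ 49 * (1 + a) ^ 2 := by
      have e1 : h ^ 2 * L = (2 * π) ^ 2 * a ^ 2 / L := by
        rw [hh]; field_simp
      rw [e1]
      have e2 : (2 * π) ^ 2 * a ^ 2 / L ≤ (2 * π) ^ 2 * a ^ 2 / 1 := by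
        gcongr
      have e3 : (2 * π) ^ 2 ≤ 49 := by
        have := Real.pi_lt_d2
        have := Real.pi_pos
        nlinarith
      have e4 : a ^ 2 ≤ (1 + a) ^ 2 := by gcongr; linarith
      calc (2 * π) ^ 2 * a ^ 2 / L ≤ (2 * π) ^ 2 * a ^ 2 / 1 := e2
        _ = (2 * π) ^ 2 * a ^ 2 := by ring
        _ ≤ 49 * (1 + a) ^ 2 := by gcongr
    have hpt : ∀ p ∈ SymSet T a, (1 : ℝ≥0∞) ≤ ENNReal.ofReal (1 + h ^ 2) *
        ENNReal.ofReal ((1 + (p.2.im - p.1.im) ^ 2)⁻¹) := by
      intro p hp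
      have e1 : (p.2.im - p.1.im) ^ 2 ≤ h ^ 2 := by
        have h4 : |p.1.im - p.2.im| ≤ h := hp
        rw [show (p.2.im - p.1.im) ^ 2 = |p.1.im - p.2.im| ^ 2 by rw [sq_abs]; ring]
        gcongr
      rw [← ENNReal.ofReal_mul (by positivity), ← ENNReal.ofReal_one]
      apply ENNReal.ofReal_le_ofReal
      rw [← div_eq_mul_inv, one_le_div (by positivity)]
      linarith
    have hgm : Measurable fun p : ℂ × ℂ => ENNReal.ofReal (1 + h ^ 2) *
        ENNReal.ofReal ((1 + (p.2.im - p.1.im) ^ 2)⁻¹) := by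
      have : Measurable fun p : ℂ × ℂ => (1 + (p.2.im - p.1.im) ^ 2) := by fun_prop
      exact this.inv.ennreal_ofReal.const_mul _
    have hlog0 : 0 ≤ Real.log (T + 2) := Real.log_nonneg (by linarith)
    have h3 : ((muW T).prod muZ) (SymSet T a) ≤
        ENNReal.ofReal (200 * C' * (1 + a) ^ 2 * (T * L)) := by
      calc ((muW T).prod muZ) (SymSet T a) = ∫⁻ p in SymSet T a, 1 ∂((muW T).prod muZ) := by
            rw [lintegral_one, Measure.restrict_apply_univ]
        _ ≤ ∫⁻ p in SymSet T a, ENNReal.ofReal (1 + h ^ 2) *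
            ENNReal.ofReal ((1 + (p.2.im - p.1.im) ^ 2)⁻¹) ∂((muW T).prod muZ) :=
            setLIntegral_mono' (measurableSet_SymSet T a) hpt
        _ ≤ ∫⁻ p, ENNReal.ofReal (1 + h ^ 2) *
            ENNReal.ofReal ((1 + (p.2.im - p.1.im) ^ 2)⁻¹) ∂((muW T).prod muZ) :=
            setLIntegral_le_lintegral _ _
        _ = ∫⁻ z in WT T, (∫⁻ z', ENNReal.ofReal (1 + h ^ 2) *
            ENNReal.ofReal ((1 + (z'.im - z.im) ^ 2)⁻¹) ∂muZ) ∂muZ := by
            rw [lintegral_prod _ hgm.aemeasurable]; rfl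
        _ ≤ ∫⁻ z in WT T, ENNReal.ofReal (1 + h ^ 2) *
            ENNReal.ofReal (C' * Real.log (T + 2)) ∂muZ := by
            apply setLIntegral_mono measurable_const
            intro z hz
            rw [lintegral_const_mul' _ _ ENNReal.ofReal_ne_top]
            gcongr
            refine (hint z.im).trans ?_
            apply ENNReal.ofReal_le_ofReal
            have : |z.im| ≤ T := by rw [abs_of_pos hz.1]; exact hz.2
            have : 0 ≤ |z.im| := abs_nonneg _
            gcongr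
        _ = ENNReal.ofReal (1 + h ^ 2) * ENNReal.ofReal (C' * Real.log (T + 2)) * muZ (WT T) := by
            rw [lintegral_const, Measure.restrict_apply_univ]
        _ ≤ ENNReal.ofReal (1 + h ^ 2) * ENNReal.ofReal (C' * Real.log (T + 2)) *
            ENNReal.ofReal (T * L) := by
            gcongr
            exact hN T hTT₂
        _ = ENNReal.ofReal ((1 + h ^ 2) * (C' * Real.log (T + 2)) * (T * L)) := by
            rw [← ENNReal.ofReal_mul (by positivity), ← ENNReal.ofReal_mul (by positivity)]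
        _ ≤ _ := by
            apply ENNReal.ofReal_le_ofReal
            have e1 : Real.log (T + 2) ≤ 2 * L := by
              rw [hLdef, two_mul, ← Real.log_mul hT0.ne' hT0.ne']
              apply Real.log_le_log (by linarith)
              nlinarith
            have e2 : (1 + h ^ 2) * Real.log (T + 2) ≤ 200 * (1 + a) ^ 2 := by
              calc (1 + h ^ 2) * Real.log (T + 2) ≤ (1 + h ^ 2) * (2 * L) := by gcongr
                _ = 2 * L + 2 * (h ^ 2 * L) := by ring
                _ ≤ 2 * (2 * (1 + a)) + 2 * (49 * (1 + a) ^ 2) := by gcongr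
                _ ≤ 200 * (1 + a) ^ 2 := by nlinarith
            calc (1 + h ^ 2) * (C' * Real.log (T + 2)) * (T * L) =
                C' * ((1 + h ^ 2) * Real.log (T + 2)) * (T * L) := by ring
              _ ≤ C' * (200 * (1 + a) ^ 2) * (T * L) := by gcongr
              _ = _ := by ring
    refine h3.trans (ENNReal.ofReal_le_ofReal ?_)
    gcongr
    linarith

/-- `N*(T,a) ≤ C (1+a)² T log T` for all `a ≥ 0`. -/
theorem NStar_le_quadratic (hB : StatementB) : ∃ C : ℝ, 0 < C ∧ ∃ T₀ : ℝ, ∀ T : ℝ, T₀ ≤ T →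
    ∀ a : ℝ, 0 ≤ a → NStar T a ≤ C * (1 + a) ^ 2 * (T * Real.log T) := by
  obtain ⟨C, hC, T₀, hT₀, h⟩ := SymSet_le_quadratic hB
  refine ⟨C, hC, T₀, fun T hT a ha => ?_⟩
  have hTe : Real.exp 1 ≤ T := hT₀.trans hT
  have hT1 : 1 < T := (Real.one_lt_exp_iff.mpr one_pos).trans_le hTe
  have hL0 : 0 < Real.log T := Real.log_pos hT1
  rw [NStar_eq_toReal]
  exact ENNReal.toReal_le_of_le_ofReal (by positivity)
    ((measure_mono (NSset_subset_SymSet T a)).trans (h T hT a ha))

end Pool.Agent.PairCorr
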