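import Mathlib
import Pool.Agent.PairCorr.PB_Far

/-!
Off-line zeros are negligible in the pair sums as soon as they are few.
-/

set_option autoImplicit false

namespace Pool.Agent.PairCorr

open MeasureTheory Filter Topology Set Real
open scoped ENNReal

lemma edge_weight {L a b : ℝ} (hL : 1 ≤ L) (ha : 0 ≤ a) (hb : 0 ≤ b) :
    ((1 + 1 * L * (a + b)) ^ 4)⁻¹ ≤ (1 + a ^ 2)⁻¹ * (1 + b ^ 2)⁻¹ := by
  rw [← mul_inv]
  apply inv_anti₀ (by positivity)
  have hab : 0 ≤ a * b := mul_nonneg ha hb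
  calc (1 + a ^ 2) * (1 + b ^ 2) ≤ (1 + a) ^ 2 * (1 + b) ^ 2 := by
        gcongr
        · nlinarith
        · nlinarith
    _ = ((1 + a) * (1 + b)) ^ 2 := by ring
    _ ≤ ((1 + (a + b)) ^ 2) ^ 2 := by
        gcongr
        nlinarith
    _ = (1 + (a + b)) ^ 4 := by ring
    _ ≤ (1 + 1 * L * (a + b)) ^ 4 := by
        gcongr
        nlinarith

/-- pairs across the edge of the window -/
lemma edge_bound {c : ℝ} (hc : 0 ≤ c) : ∃ C : ℝ, 0 < C ∧ ∀ T : ℝ, Real.exp 1 ≤ T →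
    ∫⁻ p in {p : ℂ × ℂ | p.1 ∈ WT T ∧ p.2 ∉ WT T}, ENNReal.ofReal (pairW c T 1 p)
      ∂(muZ.prod muZ) ≤ ENNReal.ofReal (C * (T ^ c * Real.log (T + 2) ^ 2)) := by
  obtain ⟨D, hD, hLD⟩ := muZ_logDens
  obtain ⟨C', hC', hint⟩ : ∃ C' : ℝ, 0 < C' ∧ ∀ t : ℝ,
      ∫⁻ z, ENNReal.ofReal ((1 + (z.im - t) ^ 2)⁻¹) ∂muZ ≤
      ENNReal.ofReal (C' * Real.log (|t| + 2)) := by
    refine ⟨(3 * D * ∑' n : ℤ, (1 + (n:ℝ)^2)⁻¹ * (1 + 2 * Real.log (|(n:ℝ)| + 2))) + 1, ?_, ?_⟩
    · have : 0 ≤ ∑' n : ℤ, (1 + (n:ℝ)^2)⁻¹ * (1 + 2 * Real.log (|(n:ℝ)| + 2)) := by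
        apply tsum_nonneg
        intro n
        have : 0 ≤ Real.log (|(n:ℝ)| + 2) := Real.log_nonneg (by have := abs_nonneg (n:ℝ); linarith)
        positivity
      positivity
    · intro t
      refine (hLD.lintegral_le hD.le t).trans ?_
      apply ENNReal.ofReal_le_ofReal
      have : 0 ≤ Real.log (|t| + 2) := Real.log_nonneg (by have := abs_nonneg t; linarith)
      nlinarith
  refine ⟨2 * C' ^ 2, by positivity, fun T hTe => ?_⟩
  have hT1 : 1 ≤ T := (Real.one_le_exp (by norm_num)).trans hTe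
  have hT0 : 0 < T := by linarith
  have hL1 : 1 ≤ Real.log T := by
    rw [← Real.log_exp 1]
    exact Real.log_le_log (Real.exp_pos 1) hTe
  set u : ℝ → ℂ → ℝ := fun e z => (1 + (z.im - e) ^ 2)⁻¹ with hu
  have hu0 : ∀ e z, 0 ≤ u e z := fun e z => by simp only [hu]; positivity
  have hum : ∀ e, Measurable (u e) := by
    intro e
    have : Measurable fun z : ℂ => (1 + (z.im - e) ^ 2) := by fun_prop
    exact this.inv
  have hpt : ∀ p : ℂ × ℂ, p.1 ∈ NTZ → p.2 ∈ NTZ → p.1 ∈ WT T → p.2 ∉ WT T →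
      ENNReal.ofReal (pairW c T 1 p) ≤ ENNReal.ofReal (T ^ c) *
        (ENNReal.ofReal (u 0 p.1) * ENNReal.ofReal (u 0 p.2) +
          ENNReal.ofReal (u T p.1) * ENNReal.ofReal (u T p.2)) := by
    intro p h1 h2 h3 h4
    have hw : wgt c T p.1 * wgt c T p.2 ≤ T ^ c := by
      have e1 := wgt_le_of_mem hc hT1 h1
      have e2 := wgt_le_of_mem hc hT1 h2
      calc wgt c T p.1 * wgt c T p.2 ≤ T ^ (c / 2) * T ^ (c / 2) := by
            apply mul_le_mul e1 e2 (Real.exp_pos _).le (by positivity)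
        _ = T ^ c := by rw [← Real.rpow_add hT0]; ring_nf
    have hk : ((1 + 1 * Real.log T * |p.1.im - p.2.im|) ^ 4)⁻¹ ≤
        u 0 p.1 * u 0 p.2 + u T p.1 * u T p.2 := by
      have h3' : 0 < p.1.im ∧ p.1.im ≤ T := h3
      have h4' : p.2.im ≤ 0 ∨ T < p.2.im := by
        by_contra hcon
        push Not at hcon
        exact h4 ⟨hcon.1, hcon.2⟩
      rcases h4' with h5 | h5
      · have e : |p.1.im - p.2.im| = p.1.im + (-p.2.im) := by
          rw [abs_of_nonneg (by linarith)]; ring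
        rw [e]
        have := edge_weight hL1 h3'.1.le (neg_nonneg.mpr h5)
        have e2 : u 0 p.1 * u 0 p.2 = (1 + p.1.im ^ 2)⁻¹ * (1 + (-p.2.im) ^ 2)⁻¹ := by
          simp only [hu, sub_zero, neg_sq]
        have e3 := mul_nonneg (hu0 T p.1) (hu0 T p.2)
        linarith
      · have e : |p.1.im - p.2.im| = (T - p.1.im) + (p.2.im - T) := by
          rw [abs_of_nonpos (by linarith)]; ring
        rw [e]
        have := edge_weight hL1 (show 0 ≤ T - p.1.im by linarith) (show 0 ≤ p.2.im - T by linarith)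
        have e2 : u T p.1 * u T p.2 = (1 + (T - p.1.im) ^ 2)⁻¹ * (1 + (p.2.im - T) ^ 2)⁻¹ := by
          simp only [hu]
          rw [show (p.1.im - T) ^ 2 = (T - p.1.im) ^ 2 by ring]
        have e3 := mul_nonneg (hu0 0 p.1) (hu0 0 p.2)
        linarith
    rw [← ENNReal.ofReal_mul (hu0 _ _), ← ENNReal.ofReal_mul (hu0 _ _),
      ← ENNReal.ofReal_add (mul_nonneg (hu0 _ _) (hu0 _ _)) (mul_nonneg (hu0 _ _) (hu0 _ _)),
      ← ENNReal.ofReal_mul (by positivity)]
    apply ENNReal.ofReal_le_ofReal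
    unfold pairW
    apply mul_le_mul hw hk (by positivity) (by positivity)
  set u' : ℝ → ℂ → ℝ≥0∞ := fun e z => ENNReal.ofReal (u e z) with hu'
  have hum' : ∀ e, Measurable (u' e) := fun e => (hum e).ennreal_ofReal
  have hgm : Measurable fun p : ℂ × ℂ => ENNReal.ofReal (T ^ c) *
      (u' 0 p.1 * u' 0 p.2 + u' T p.1 * u' T p.2) := by
    apply Measurable.const_mul
    exact (((hum' 0).comp measurable_fst).mul ((hum' 0).comp measurable_snd)).add
      (((hum' T).comp measurable_fst).mul ((hum' T).comp measurable_snd))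
  have hlog0 : 0 ≤ Real.log (T + 2) := Real.log_nonneg (by linarith)
  have hI : ∀ e : ℝ, |e| ≤ T → ∫⁻ z, u' e z ∂muZ ≤ ENNReal.ofReal (C' * Real.log (T + 2)) := by
    intro e he
    refine (hint e).trans ?_
    apply ENNReal.ofReal_le_ofReal
    have := abs_nonneg e
    gcongr
  calc ∫⁻ p in {p : ℂ × ℂ | p.1 ∈ WT T ∧ p.2 ∉ WT T}, ENNReal.ofReal (pairW c T 1 p)
      ∂(muZ.prod muZ)
      ≤ ∫⁻ p in {p : ℂ × ℂ | p.1 ∈ WT T ∧ p.2 ∉ WT T}, ENNReal.ofReal (T ^ c) *
        (u' 0 p.1 * u' 0 p.2 + u' T p.1 * u' T p.2) ∂(muZ.prod muZ) := by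
        apply setLIntegral_mono_ae hgm.aemeasurable
        filter_upwards [muZ_prod_ae] with p hp hpF
        exact hpt p hp.1 hp.2 hpF.1 hpF.2
    _ ≤ ∫⁻ p, ENNReal.ofReal (T ^ c) *
        (u' 0 p.1 * u' 0 p.2 + u' T p.1 * u' T p.2) ∂(muZ.prod muZ) :=
        setLIntegral_le_lintegral _ _
    _ = ENNReal.ofReal (T ^ c) * ((∫⁻ z, u' 0 z ∂muZ) * (∫⁻ z, u' 0 z ∂muZ) +
          (∫⁻ z, u' T z ∂muZ) * (∫⁻ z, u' T z ∂muZ)) := by
        rw [lintegral_const_mul' _ _ ENNReal.ofReal_ne_top, lintegral_add_left,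
          lintegral_prod_mul (hum' 0).aemeasurable (hum' 0).aemeasurable,
          lintegral_prod_mul (hum' T).aemeasurable (hum' T).aemeasurable]
        exact ((hum' 0).comp measurable_fst).mul ((hum' 0).comp measurable_snd)
    _ ≤ ENNReal.ofReal (T ^ c) * (ENNReal.ofReal (C' * Real.log (T + 2)) *
          ENNReal.ofReal (C' * Real.log (T + 2)) + ENNReal.ofReal (C' * Real.log (T + 2)) *
          ENNReal.ofReal (C' * Real.log (T + 2))) := by
        have e0 := hI 0 (by rw [abs_zero]; exact hT0.le)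
        have eT := hI T (by rw [abs_of_pos hT0])
        gcongr
    _ = _ := by
        rw [← ENNReal.ofReal_mul (by positivity), ← ENNReal.ofReal_add (by positivity) (by positivity),
          ← ENNReal.ofReal_mul (by positivity)]
        congr 1
        ring

lemma pairW_swap (c T δ : ℝ) (p : ℂ × ℂ) : pairW c T δ p.swap = pairW c T δ p := by
  unfold pairW
  simp only [Prod.fst_swap, Prod.snd_swap]
  rw [abs_sub_comm, mul_comm (wgt c T p.2)]

/-- the off-line zeros with ordinate in `(0,T]` -/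
def OffW (T : ℝ) : Set ℂ := {z | z ∈ WT T ∧ z.re ≠ 1 / 2}

lemma measurableSet_OffW (T : ℝ) : MeasurableSet (OffW T) := by
  have h : MeasurableSet {z : ℂ | z.re ≠ 1 / 2} := by
    have : {z : ℂ | z.re ≠ 1 / 2} = Complex.re ⁻¹' {1 / 2}ᶜ := rfl
    rw [this]
    exact Complex.measurable_re (measurableSet_singleton _).compl
  exact (measurableSet_WT T).inter h

lemma measurableSet_near (T : ℝ) :
    MeasurableSet {p : ℂ × ℂ | |p.1.im| ≤ 2 * T ∧ |p.2.im| ≤ 2 * T} := by
  have h1 : Measurable fun p : ℂ × ℂ => |p.1.im| := by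
    have : Measurable fun p : ℂ × ℂ => p.1.im := by fun_prop
    exact this.norm
  have h2 : Measurable fun p : ℂ × ℂ => |p.2.im| := by
    have : Measurable fun p : ℂ × ℂ => p.2.im := by fun_prop
    exact this.norm
  exact (measurableSet_le h1 measurable_const).inter (measurableSet_le h2 measurable_const)

/-- The off-line part in `ENNReal` form. -/
lemma pboff_lintegral (hB : StatementB) : ∃ c : ℝ, 0 < c ∧ ∃ C : ℝ, 0 < C ∧ ∃ T₀ : ℝ,
    Real.exp 1 ≤ T₀ ∧ ∀ T : ℝ, T₀ ≤ T → ∀ η : ℝ, 0 < η →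
    ∫⁻ p in {p : ℂ × ℂ | p.1.re ≠ 1/2 ∨ p.2.re ≠ 1/2}, ENNReal.ofReal (pairW c T 1 p)
      ∂((muW T).prod muZ) ≤
      ENNReal.ofReal (C / η) * muZ (OffW T) + ENNReal.ofReal (C * η * (T * Real.log T)) +
        ENNReal.ofReal (C * (T ^ (1/4 : ℝ) * Real.log (T + 2) ^ 2)) := by
  obtain ⟨c₁, hc₁, C₁, hC₁, T₁, hT₁, h1⟩ := near_off_bound hB
  obtain ⟨C₂, hC₂, h2⟩ := edge_bound (c := min c₁ (1/4)) (by positivity)
  refine ⟨min c₁ (1/4), by positivity, 2 * C₁ + C₂, by positivity, T₁, hT₁, fun T hT η hη => ?_⟩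
  have hTe : Real.exp 1 ≤ T := hT₁.trans hT
  have hT1 : 1 ≤ T := (Real.one_le_exp (by norm_num)).trans hTe
  have hT0 : 0 < T := by linarith
  have hL0 : 0 ≤ Real.log T := Real.log_nonneg hT1
  set c := min c₁ (1/4) with hc
  set N : Set (ℂ × ℂ) := {p : ℂ × ℂ | |p.1.im| ≤ 2 * T ∧ |p.2.im| ≤ 2 * T} with hN
  have hNm : MeasurableSet N := measurableSet_near T
  have hSm := measurableSet_OffW T
  rw [muW_prod_restrict, Measure.restrict_restrict₀]
  swap
  · apply MeasurableSet.nullMeasurableSet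
    have : {p : ℂ × ℂ | p.1.re ≠ 1/2 ∨ p.2.re ≠ 1/2} =
        ((fun p : ℂ × ℂ => p.1.re) ⁻¹' {1/2}ᶜ) ∪ ((fun p : ℂ × ℂ => p.2.re) ⁻¹' {1/2}ᶜ) := rfl
    rw [this]
    have m1 : Measurable fun p : ℂ × ℂ => p.1.re := by fun_prop
    have m2 : Measurable fun p : ℂ × ℂ => p.2.re := by fun_prop
    exact (m1 (measurableSet_singleton _).compl).union (m2 (measurableSet_singleton _).compl)
  have hle : ∀ p : ℂ × ℂ, ENNReal.ofReal (pairW c T 1 p) ≤ ENNReal.ofReal (pairW c₁ T 1 p) :=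
    fun p => ENNReal.ofReal_le_ofReal (pairW_mono (min_le_left _ _) hT1 zero_le_one p)
  have hA : ∫⁻ p in N ∩ (OffW T ×ˢ univ), ENNReal.ofReal (pairW c T 1 p) ∂(muZ.prod muZ) ≤
      ENNReal.ofReal (C₁ / η) * muZ (OffW T) + ENNReal.ofReal (C₁ * η * (T * Real.log T)) := by
    refine le_trans ?_ (h1 T hT (OffW T) hSm η hη)
    have e : (muZ.restrict (OffW T)).prod muZ = (muZ.prod muZ).restrict (OffW T ×ˢ univ) := by
      rw [← Measure.prod_restrict, Measure.restrict_univ]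
    rw [e, Measure.restrict_restrict hNm]
    exact lintegral_mono hle
  have hBB : ∫⁻ p in N ∩ (univ ×ˢ OffW T), ENNReal.ofReal (pairW c T 1 p) ∂(muZ.prod muZ) ≤
      ENNReal.ofReal (C₁ / η) * muZ (OffW T) + ENNReal.ofReal (C₁ * η * (T * Real.log T)) := by
    refine le_trans (le_of_eq ?_) hA
    have hm1 : MeasurableSet (N ∩ (univ ×ˢ OffW T)) := hNm.inter (MeasurableSet.univ.prod hSm)
    have hm2 : MeasurableSet (N ∩ (OffW T ×ˢ univ)) := hNm.inter (hSm.prod MeasurableSet.univ)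
    rw [← lintegral_indicator hm1, ← lintegral_indicator hm2,
      ← lintegral_prod_swap (μ := muZ) (ν := muZ) (fun p => (N ∩ (OffW T ×ˢ univ)).indicator
        (fun p => ENNReal.ofReal (pairW c T 1 p)) p)]
    apply lintegral_congr
    intro p
    by_cases hp : p ∈ N ∩ (univ ×ˢ OffW T)
    · have hp' : p.swap ∈ N ∩ (OffW T ×ˢ univ) := by
        simp only [hN, mem_inter_iff, mem_ofPred_eq, mem_prod, mem_univ, and_true, true_and,
          Prod.fst_swap, Prod.snd_swap] at hp ⊢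
        exact ⟨⟨hp.1.2, hp.1.1⟩, hp.2⟩
      rw [indicator_of_mem hp, indicator_of_mem hp', pairW_swap]
    · have hp' : p.swap ∉ N ∩ (OffW T ×ˢ univ) := by
        intro h'
        apply hp
        simp only [hN, mem_inter_iff, mem_ofPred_eq, mem_prod, mem_univ, and_true, true_and,
          Prod.fst_swap, Prod.snd_swap] at h' ⊢
        exact ⟨⟨h'.1.2, h'.1.1⟩, h'.2⟩
      rw [indicator_of_notMem hp, indicator_of_notMem hp']
  have hE := h2 T hTe
  calc ∫⁻ p in {p : ℂ × ℂ | p.1.re ≠ 1/2 ∨ p.2.re ≠ 1/2} ∩ WT T ×ˢ univ,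
        ENNReal.ofReal (pairW c T 1 p) ∂(muZ.prod muZ)
      ≤ ∫⁻ p in (N ∩ (OffW T ×ˢ univ)) ∪ ((N ∩ (univ ×ˢ OffW T)) ∪
        {p : ℂ × ℂ | p.1 ∈ WT T ∧ p.2 ∉ WT T}), ENNReal.ofReal (pairW c T 1 p) ∂(muZ.prod muZ) := by
        apply lintegral_mono_set
        rintro p ⟨h3, h4⟩
        have h5 : p.1 ∈ WT T := h4.1
        by_cases h6 : p.2 ∈ WT T
        · have hpN : p ∈ N := by
            refine ⟨?_, ?_⟩
            · rw [abs_of_pos h5.1]; linarith [h5.2]
            · rw [abs_of_pos h6.1]; linarith [h6.2]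
          rcases h3 with h3 | h3
          · exact Or.inl ⟨hpN, ⟨h5, h3⟩, mem_univ _⟩
          · exact Or.inr (Or.inl ⟨hpN, mem_univ _, ⟨h6, h3⟩⟩)
        · exact Or.inr (Or.inr ⟨h5, h6⟩)
    _ ≤ _ := (lintegral_union_le _ _ _).trans (add_le_add le_rfl (lintegral_union_le _ _ _))
    _ ≤ (ENNReal.ofReal (C₁ / η) * muZ (OffW T) + ENNReal.ofReal (C₁ * η * (T * Real.log T))) +
        ((ENNReal.ofReal (C₁ / η) * muZ (OffW T) + ENNReal.ofReal (C₁ * η * (T * Real.log T))) +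
          ENNReal.ofReal (C₂ * (T ^ c * Real.log (T + 2) ^ 2))) :=
        add_le_add hA (add_le_add hBB hE)
    _ ≤ _ := by
        have e1 : ENNReal.ofReal (C₁ / η) * muZ (OffW T) + ENNReal.ofReal (C₁ / η) * muZ (OffW T) ≤
            ENNReal.ofReal ((2 * C₁ + C₂) / η) * muZ (OffW T) := by
          rw [← add_mul, ← ENNReal.ofReal_add (by positivity) (by positivity), ← add_div]
          refine mul_le_mul' (ENNReal.ofReal_le_ofReal ?_) le_rfl
          exact div_le_div_of_nonneg_right (by linarith) hη.le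
        have e2 : ENNReal.ofReal (C₁ * η * (T * Real.log T)) +
            ENNReal.ofReal (C₁ * η * (T * Real.log T)) ≤
            ENNReal.ofReal ((2 * C₁ + C₂) * η * (T * Real.log T)) := by
          rw [← ENNReal.ofReal_add (by positivity) (by positivity)]
          apply ENNReal.ofReal_le_ofReal
          have : 0 ≤ C₂ * η * (T * Real.log T) := by positivity
          linarith
        have e3 : ENNReal.ofReal (C₂ * (T ^ c * Real.log (T + 2) ^ 2)) ≤
            ENNReal.ofReal ((2 * C₁ + C₂) * (T ^ (1/4 : ℝ) * Real.log (T + 2) ^ 2)) := by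
          apply ENNReal.ofReal_le_ofReal
          have e4 : T ^ c ≤ T ^ (1/4 : ℝ) :=
            Real.rpow_le_rpow_of_exponent_le hT1 (min_le_right _ _)
          gcongr
          linarith
        calc _ = (ENNReal.ofReal (C₁ / η) * muZ (OffW T) + ENNReal.ofReal (C₁ / η) * muZ (OffW T)) +
            (ENNReal.ofReal (C₁ * η * (T * Real.log T)) +
            ENNReal.ofReal (C₁ * η * (T * Real.log T))) +
            ENNReal.ofReal (C₂ * (T ^ c * Real.log (T + 2) ^ 2)) := by ring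
          _ ≤ _ := add_le_add (add_le_add e1 e2) e3

lemma pboff_tendsto {c C T₀ : ℝ} (hC : 0 < C) (hT₀ : Real.exp 1 ≤ T₀)
    (h : ∀ T : ℝ, T₀ ≤ T → ∀ η : ℝ, 0 < η →
    ∫⁻ p in {p : ℂ × ℂ | p.1.re ≠ 1/2 ∨ p.2.re ≠ 1/2}, ENNReal.ofReal (pairW c T 1 p)
      ∂((muW T).prod muZ) ≤
      ENNReal.ofReal (C / η) * muZ (OffW T) + ENNReal.ofReal (C * η * (T * Real.log T)) +
        ENNReal.ofReal (C * (T ^ (1/4 : ℝ) * Real.log (T + 2) ^ 2)))
    {l : Filter ℝ} (hl : l ≤ atTop)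
    (hx : Tendsto (fun T : ℝ => (muZ {z | z ∈ WT T ∧ z.re ≠ 1/2}).toReal / (T * Real.log T)) l
      (𝓝 0)) :
    Tendsto (fun T : ℝ =>
      (∫ p in {p : ℂ × ℂ | p.1.re ≠ 1/2 ∨ p.2.re ≠ 1/2}, pairW c T 1 p ∂((muW T).prod muZ)) /
        (T * Real.log T)) l (𝓝 0) := by
  obtain ⟨T₁, hT₁, hN⟩ := exists_muW_le
  have hnn : ∀ T p, 0 ≤ pairW c T 1 p ∨ T < 1 := by
    intro T p
    by_cases hT : T < 1
    · exact Or.inr hT
    · left
      have hL0 : 0 ≤ Real.log T := Real.log_nonneg (not_lt.mp hT)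
      unfold pairW wgt
      positivity
  -- the error term
  have herr : Tendsto (fun T : ℝ => T ^ (1/4 : ℝ) * Real.log (T + 2) ^ 2 / (T * Real.log T)) atTop
      (𝓝 0) := by
    have h1 : Tendsto (fun T : ℝ => 4 * (Real.log T / T ^ (3/4 : ℝ))) atTop (𝓝 (4 * 0)) := by
      apply Tendsto.const_mul
      exact (isLittleO_log_rpow_atTop (by norm_num)).tendsto_div_nhds_zero
    rw [mul_zero] at h1
    refine squeeze_zero' ?_ ?_ h1
    · filter_upwards [eventually_gt_atTop 1] with T hT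
      have := Real.log_pos hT
      have : 0 < T := by linarith
      positivity
    · filter_upwards [eventually_ge_atTop 2] with T hT
      have hT0 : 0 < T := by linarith
      have hL := Real.log_pos (show 1 < T by linarith)
      have hlog0 : 0 ≤ Real.log (T + 2) := Real.log_nonneg (by linarith)
      have e1 : Real.log (T + 2) ≤ 2 * Real.log T := by
        rw [two_mul, ← Real.log_mul hT0.ne' hT0.ne']
        apply Real.log_le_log (by linarith)
        nlinarith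
      have e2 : T = T ^ (1/4 : ℝ) * T ^ (3/4 : ℝ) := by
        rw [← Real.rpow_add hT0]; norm_num
      have e3 : T ^ (1/4 : ℝ) * Real.log (T + 2) ^ 2 / (T * Real.log T) =
          Real.log (T + 2) ^ 2 / (T ^ (3/4 : ℝ) * Real.log T) := by
        have : T * Real.log T = T ^ (1/4 : ℝ) * (T ^ (3/4 : ℝ) * Real.log T) := by
          rw [← mul_assoc, ← e2]
        rw [this]
        have h4 : T ^ (1/4 : ℝ) ≠ 0 := by positivity
        field_simp
      rw [e3, div_le_iff₀ (by positivity)]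
      have e4 : 4 * (Real.log T / T ^ (3/4 : ℝ)) * (T ^ (3/4 : ℝ) * Real.log T) =
          (2 * Real.log T) ^ 2 := by
        have h4 : T ^ (3/4 : ℝ) ≠ 0 := by positivity
        field_simp
        norm_num
      rw [e4]
      gcongr
  rw [Metric.tendsto_nhds]
  intro ε hε
  set η : ℝ := ε / (4 * C) with hη
  have hη0 : 0 < η := by positivity
  have h1 : ∀ᶠ T in l, (muZ {z | z ∈ WT T ∧ z.re ≠ 1/2}).toReal / (T * Real.log T) <
      ε / (4 * (C / η)) := hx.eventually (gt_mem_nhds (by positivity))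
  have h2 : ∀ᶠ T in l, T ^ (1/4 : ℝ) * Real.log (T + 2) ^ 2 / (T * Real.log T) < ε / (4 * C) :=
    hl (herr.eventually (gt_mem_nhds (by positivity)))
  have h3 : ∀ᶠ T in l, max T₀ T₁ ≤ T := hl (eventually_ge_atTop _)
  filter_upwards [h1, h2, h3] with T h1 h2 h3
  have hTT₀ : T₀ ≤ T := (le_max_left _ _).trans h3
  have hTT₁ : T₁ ≤ T := (le_max_right _ _).trans h3
  have hTe : Real.exp 1 ≤ T := hT₀.trans hTT₀
  have hT1 : 1 < T := (Real.one_lt_exp_iff.mpr one_pos).trans_le hTe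
  have hT0 : 0 < T := by linarith
  have hL0 : 0 < Real.log T := Real.log_pos hT1
  have hTL : 0 < T * Real.log T := by positivity
  have hnnT : ∀ p, 0 ≤ pairW c T 1 p := by
    intro p
    rcases hnn T p with h | h
    · exact h
    · linarith
  have hfin : muZ (OffW T) ≠ ⊤ := by
    apply ne_top_of_le_ne_top _ (measure_mono (fun z hz => hz.1 : OffW T ⊆ WT T))
    exact ne_top_of_le_ne_top ENNReal.ofReal_ne_top (hN T hTT₁)
  have h4 := h T hTT₀ η hη0
  have hlog0 : 0 ≤ Real.log (T + 2) := Real.log_nonneg (by linarith)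
  set M := (muZ (OffW T)).toReal with hM
  have hM0 : 0 ≤ M := ENNReal.toReal_nonneg
  have hMe : muZ (OffW T) = ENNReal.ofReal M := (ENNReal.ofReal_toReal hfin).symm
  rw [hMe, ← ENNReal.ofReal_mul (by positivity), ← ENNReal.ofReal_add (by positivity) (by positivity),
    ← ENNReal.ofReal_add (by positivity) (by positivity)] at h4
  have h5 : ∫ p in {p : ℂ × ℂ | p.1.re ≠ 1/2 ∨ p.2.re ≠ 1/2}, pairW c T 1 p ∂((muW T).prod muZ) ≤
      C / η * M + C * η * (T * Real.log T) + C * (T ^ (1/4 : ℝ) * Real.log (T + 2) ^ 2) := by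
    rw [integral_eq_lintegral_of_nonneg_ae (Eventually.of_forall hnnT)
      (measurable_pairW c T 1).aestronglyMeasurable]
    exact ENNReal.toReal_le_of_le_ofReal (by positivity) h4
  have h6 : 0 ≤ ∫ p in {p : ℂ × ℂ | p.1.re ≠ 1/2 ∨ p.2.re ≠ 1/2}, pairW c T 1 p
      ∂((muW T).prod muZ) := integral_nonneg hnnT
  rw [Real.dist_eq, sub_zero, abs_of_nonneg (div_nonneg h6 hTL.le), div_lt_iff₀ hTL]
  have h1' : M / (T * Real.log T) < ε / (4 * (C / η)) := h1
  rw [div_lt_iff₀ hTL] at h1' h2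
  have e1 : C / η * M ≤ ε / 4 * (T * Real.log T) := by
    calc C / η * M ≤ C / η * (ε / (4 * (C / η)) * (T * Real.log T)) := by gcongr
      _ = ε / 4 * (T * Real.log T) := by field_simp
  have e2 : C * η * (T * Real.log T) = ε / 4 * (T * Real.log T) := by
    rw [hη]; field_simp
  have e3 : C * (T ^ (1/4 : ℝ) * Real.log (T + 2) ^ 2) ≤ ε / 4 * (T * Real.log T) := by
    calc C * (T ^ (1/4 : ℝ) * Real.log (T + 2) ^ 2) ≤ C * (ε / (4 * C) * (T * Real.log T)) := by
          gcongr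
      _ = _ := by field_simp
  have e4 : 0 < ε * (T * Real.log T) := by positivity
  linarith

/-- (PBoff) -/
theorem statementPBoff_of (hB : StatementB) : StatementPBoff := by
  obtain ⟨c, hc, C, hC, T₀, hT₀, h⟩ := pboff_lintegral hB
  exact ⟨c, hc, fun l hl hx => pboff_tendsto hC hT₀ h hl hx⟩

end Pool.Agent.PairCorr
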