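import Mathlib
import Pool.Agent.PairCorr.PB_Off
import Pool.Agent.PairCorr.OD

/-!
(PB) and (PBoff) with a common constant.
-/

set_option autoImplicit false

namespace Pool.Agent.PairCorr

open MeasureTheory Filter Topology Set Real
open scoped ENNReal

theorem statementPBall_of (hB : StatementB) : StatementPBall := by
  obtain ⟨c₁, hc₁, C, hC, T₀, hT₀, h⟩ := pb_lintegral hB
  obtain ⟨c₂, hc₂, C', hC', T₀', hT₀', h'⟩ := pboff_lintegral hB
  refine ⟨min c₁ c₂, by positivity, ⟨C, hC, T₀, fun T hT δ hδ hδ1 => ?_⟩, ?_⟩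
  · have hTe : Real.exp 1 ≤ T := hT₀.trans hT
    have hT1 : 1 ≤ T := (Real.one_le_exp (by norm_num)).trans hTe
    have hδ0 : 0 < δ := lt_of_lt_of_le (by positivity) hδ
    have hL0 : 0 ≤ Real.log T := Real.log_nonneg hT1
    have h1 : ∫⁻ p, ENNReal.ofReal (pairW (min c₁ c₂) T δ p) ∂((muW T).prod muZ) ≤
        ENNReal.ofReal (C * (T * Real.log T) / δ) := by
      refine le_trans (lintegral_mono fun p => ?_) (h T hT δ hδ hδ1)
      exact ENNReal.ofReal_le_ofReal (pairW_mono (min_le_left _ _) hT1 hδ0.le p)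
    have hnn : ∀ p, 0 ≤ pairW (min c₁ c₂) T δ p := by
      intro p
      unfold pairW wgt
      positivity
    constructor
    · refine ⟨(measurable_pairW _ T δ).aestronglyMeasurable, ?_⟩
      rw [hasFiniteIntegral_iff_ofReal (Eventually.of_forall hnn)]
      exact h1.trans_lt ENNReal.ofReal_lt_top
    · rw [integral_eq_lintegral_of_nonneg_ae (Eventually.of_forall hnn)
        (measurable_pairW _ T δ).aestronglyMeasurable]
      exact ENNReal.toReal_le_of_le_ofReal (by positivity) h1
  · intro l hl hx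
    refine pboff_tendsto hC' hT₀' (fun T hT η hη => ?_) hl hx
    have hTe : Real.exp 1 ≤ T := hT₀'.trans hT
    have hT1 : 1 ≤ T := (Real.one_le_exp (by norm_num)).trans hTe
    refine le_trans (lintegral_mono fun p => ?_) (h' T hT η hη)
    exact ENNReal.ofReal_le_ofReal (pairW_mono (min_le_right _ _) hT1 zero_le_one p)

end Pool.Agent.PairCorr
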