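import Mathlib
import Pool.Agent.PairCorr.A_Diag
import Pool.Agent.PairCorr.PB_All
import Pool.Agent.PairCorr.NStar_Bounds
import Pool.Agent.PC10.Adapter

set_option autoImplicit false

namespace Pool.Agent.PairCorr

open MeasureTheory Filter Topology Set Real
open scoped ENNReal ComplexConjugate

/-- test pairs: an odd rapidly decreasing function `q` and the band-limited kernel `χ` whose transform is the
tail integral of `q`. -/
structure TP (q χ : ℝ → ℝ) (b : ℝ) : Prop where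
  cont : Continuous q
  decay : RapidDecay q
  odd : ∀ u, q (-u) = -q u
  tf : TF χ b
  even : ∀ v, χ (-v) = χ v
  ker : ∀ u : ℝ, Kc χ ((2 * π * u : ℝ) * Complex.I) = (tailF q u : ℂ)

lemma RapidDecay.scale {q : ℝ → ℝ} (h : RapidDecay q) {δ : ℝ} (hδ : 0 < δ) (hδ1 : δ ≤ 1) :
    RapidDecay (fun u => δ * q (δ * u)) := by
  intro N
  obtain ⟨K, hK, hb⟩ := h N
  refine ⟨δ * K * (δ ^ N)⁻¹, by positivity, fun u => ?_⟩
  rw [abs_mul, abs_of_pos hδ]
  have h1 := hb (δ * u)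
  have h2 : ((1 + |δ * u|) ^ N)⁻¹ ≤ (δ ^ N)⁻¹ * ((1 + |u|) ^ N)⁻¹ := by
    rw [← mul_inv, ← mul_pow]
    apply inv_anti₀ (by positivity)
    apply pow_le_pow_left₀ (by positivity)
    rw [abs_mul, abs_of_pos hδ]
    nlinarith [abs_nonneg u]
  calc δ * |q (δ * u)| ≤ δ * (K * ((1 + |δ * u|) ^ N)⁻¹) := by gcongr
    _ ≤ δ * (K * ((δ ^ N)⁻¹ * ((1 + |u|) ^ N)⁻¹)) := by gcongr
    _ = _ := by ring

lemma tailF_scale (q : ℝ → ℝ) {δ : ℝ} (hδ : 0 < δ) (u : ℝ) :
    tailF (fun s => δ * q (δ * s)) u = tailF q (δ * u) := by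
  unfold tailF
  rw [integral_const_mul, integral_comp_mul_left_Ioi (fun s => q s) u hδ, smul_eq_mul]
  field_simp

lemma TP.scale {q χ : ℝ → ℝ} {b : ℝ} (h : TP q χ b) {δ : ℝ} (hδ : 0 < δ) (hδ1 : δ ≤ 1) :
    TP (fun u => δ * q (δ * u)) (fun v => χ (v / δ) / δ) (b * δ) where
  cont := by have := h.cont; fun_prop
  decay := h.decay.scale hδ hδ1
  odd := by intro u; simp only [mul_neg, h.odd]
  tf := h.tf.scale hδ
  even := by intro v; rw [neg_div, h.even]
  ker := by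
    intro u
    rw [Kc_scale χ hδ, tailF_scale q hδ, ← h.ker]
    congr 1
    push_cast; ring

lemma TP.mono {q χ : ℝ → ℝ} {b b' : ℝ} (h : TP q χ b) (hb : b ≤ b') : TP q χ b' :=
  ⟨h.cont, h.decay, h.odd, h.tf.mono hb, h.even, h.ker⟩

lemma TP.integrable {q χ : ℝ → ℝ} {b : ℝ} (h : TP q χ b) : Integrable q := h.decay.integrable h.cont

/-- integrability of `q * H` for `H` measurable with polynomial growth. -/
lemma RapidDecay.int_mul {q : ℝ → ℝ} (h : RapidDecay q) (hqc : Continuous q) {H : ℝ → ℝ}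
    (hHm : Measurable H) {C : ℝ} {k : ℕ} (hHb : ∀ u, 0 ≤ u → |H u| ≤ C * (1 + u) ^ k) :
    IntegrableOn (fun u => q u * H u) (Ioi 0) := by
  obtain ⟨K, hK, hb⟩ := h (k + 2)
  refine Integrable.mono' (g := fun u => K * C * ((1 + |u|) ^ 2)⁻¹)
    ((integrable_inv_sq.const_mul _).integrableOn) (hqc.measurable.mul hHm).aestronglyMeasurable ?_
  filter_upwards [ae_restrict_mem measurableSet_Ioi] with u hu
  have hu' : (0:ℝ) ≤ u := le_of_lt hu
  rw [norm_mul, Real.norm_eq_abs, Real.norm_eq_abs]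
  have h1 := hb u
  have h2 := hHb u hu'
  rw [abs_of_nonneg hu'] at *
  calc |q u| * |H u| ≤ (K * ((1 + u) ^ (k + 2))⁻¹) * (C * (1 + u) ^ k) :=
        mul_le_mul h1 h2 (abs_nonneg _) (by positivity)
    _ = _ := by rw [pow_add]; field_simp

lemma gue_bound (u : ℝ) (hu : 0 ≤ u) : |gue u| ≤ 1 * (1 + u) ^ 1 := by
  rw [abs_of_nonneg (gue_nonneg hu)]
  have := gue_le hu
  rw [pow_one, one_mul]; linarith

/-- The basic error integral. -/
noncomputable def JJ (q : ℝ → ℝ) (T : ℝ) : ℝ :=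
  ∫ u in Ioi 0, q u * ((Mr T / 2 + Lr T u) - (1 / 2 + gue u))

lemma TP.int_gue {q χ : ℝ → ℝ} {b : ℝ} (h : TP q χ b) :
    IntegrableOn (fun u => q u * (1 / 2 + gue u)) (Ioi 0) := by
  refine h.decay.int_mul h.cont (k := 1) (C := 2) (by have := gue_continuous.measurable; fun_prop) ?_
  intro u hu
  have h1 := gue_bound u hu
  rw [pow_one] at h1 ⊢
  refine (abs_add_le _ _).trans ?_
  rw [abs_of_pos (by norm_num : (0:ℝ) < 1/2)]
  linarith

/-- **Main identity**: for test pairs of small band, `JJ` is controlled by the off-line error. -/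
theorem JJ_bound (hS : StatementS) : ∃ b₀ : ℝ, 0 < b₀ ∧ b₀ ≤ 1 ∧ ∀ q χ : ℝ → ℝ, TP q χ b₀ →
    ∃ e : ℝ → ℝ, Tendsto e atTop (𝓝 0) ∧ ∀ T : ℝ, Real.exp 1 ≤ T →
      |JJ q T| ≤ e T + ‖Spair χ T - Spair0 χ T‖ / NT T := by
  obtain ⟨b₁, hb₁, hS⟩ := hS
  refine ⟨min b₁ 1, by positivity, min_le_right _ _, fun q χ hq => ?_⟩
  have hq1 : TP q χ b₁ := hq.mono (min_le_left _ _)
  have hq2 : TP q χ 1 := hq.mono (min_le_right _ _)
  have hlim := hS χ hq1.tf hq1.even
  have hgue := gue_identity hq2.tf le_rfl hq2.even hq2.cont hq2.decay hq2.odd hq2.ker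
  obtain ⟨C, hC, hAS⟩ := spair0_eq hq.cont hq.decay hq.odd hq.ker
  set Lm : ℝ := χ 0 + ∫ v, |v| * χ v with hLm
  set e1 : ℝ → ℝ := fun T => ‖Spair χ T / ((T * Real.log T / (2 * Real.pi) : ℝ) : ℂ) - (Lm : ℂ)‖ with he1
  set e2 : ℝ → ℝ := fun T => C * Real.log (T + 2) ^ 2 / NT T with he2
  have ht1 : Tendsto e1 atTop (𝓝 0) := by
    have := (hlim.sub_const (Lm : ℂ)).norm
    rw [sub_self, norm_zero] at this
    exact this
  have ht2 : Tendsto e2 atTop (𝓝 0) := by
    have h1 : Tendsto (fun T : ℝ => Real.log (T + 2) ^ 2 / (T + 2)) atTop (𝓝 0) := by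
      have h0 : Tendsto (fun x : ℝ => Real.log x ^ 2 / (1 * x + 0)) atTop (𝓝 0) :=
        Real.tendsto_pow_log_div_mul_add_atTop 1 0 2 one_ne_zero
      have h0' : Tendsto (fun x : ℝ => Real.log x ^ 2 / x) atTop (𝓝 0) := by
        refine h0.congr fun x => ?_
        rw [one_mul, add_zero]
      exact h0'.comp (tendsto_atTop_add_const_right atTop (2:ℝ) tendsto_id)
    have h2 : Tendsto (fun T : ℝ => 8 * π * C * (Real.log (T + 2) ^ 2 / (T + 2))) atTop (𝓝 0) := by
      have := h1.const_mul (8 * π * C)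
      simpa using this
    refine squeeze_zero' ?_ ?_ h2
    · filter_upwards [eventually_ge_atTop (Real.exp 1)] with T hT
      have hT0 : 0 < T := (Real.exp_pos 1).trans_le hT
      have hL1 : 1 ≤ Real.log T := by rw [Real.le_log_iff_exp_le hT0]; exact hT
      have := NT_pos hL1 hT0
      positivity
    · filter_upwards [eventually_ge_atTop (Real.exp 1)] with T hT
      have hT0 : 0 < T := (Real.exp_pos 1).trans_le hT
      have hT2 : 2 ≤ T := by
        have := Real.exp_one_gt_d9; linarith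
      have hL1 : 1 ≤ Real.log T := by rw [Real.le_log_iff_exp_le hT0]; exact hT
      have hNT := NT_pos hL1 hT0
      have hpi := Real.pi_pos
      simp only [he2]
      rw [div_le_iff₀ hNT]
      have h3 : 1 ≤ 8 * π / (T + 2) * NT T := by
        unfold NT
        rw [div_mul_div_comm, le_div_iff₀ (by positivity)]
        have h4 : T ≤ T * Real.log T := le_mul_of_one_le_right hT0.le hL1
        nlinarith
      have h5 : 0 ≤ C * Real.log (T + 2) ^ 2 := by positivity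
      calc C * Real.log (T + 2) ^ 2 ≤ (C * Real.log (T + 2) ^ 2) * (8 * π / (T + 2) * NT T) :=
            le_mul_of_one_le_right h5 h3
        _ = _ := by ring
  refine ⟨fun T => e1 T + e2 T, by simpa using ht1.add ht2, fun T hT => ?_⟩
  have hT0 : 0 < T := (Real.exp_pos 1).trans_le hT
  have hL1 : 1 ≤ Real.log T := by rw [Real.le_log_iff_exp_le hT0]; exact hT
  have hNT := NT_pos hL1 hT0
  obtain ⟨hint, hb⟩ := hAS T hT
  set I1 : ℝ := ∫ u in Ioi 0, q u * (Mr T / 2 + Lr T u) with hI1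
  have hJ : JJ q T = I1 - Lm / 2 := by
    unfold JJ
    rw [hI1, hLm, ← hgue, ← integral_sub hint hq.int_gue]
    congr 1
    ext u
    ring
  have hNTc : ((NT T : ℝ) : ℂ) ≠ 0 := by exact_mod_cast hNT.ne'
  have hdec : ((2 * JJ q T : ℝ) : ℂ) = -((Spair0 χ T - ((NT T * (2 * I1) : ℝ) : ℂ)) / (NT T : ℂ)) -
      (Spair χ T - Spair0 χ T) / (NT T : ℂ) +
      (Spair χ T / ((T * Real.log T / (2 * Real.pi) : ℝ) : ℂ) - (Lm : ℂ)) := by
    rw [hJ]
    have e : ((T * Real.log T / (2 * Real.pi) : ℝ) : ℂ) = (NT T : ℂ) := rfl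
    rw [e]
    push_cast
    field_simp
    ring
  have hn : ‖((2 * JJ q T : ℝ) : ℂ)‖ = 2 * |JJ q T| := by
    rw [Complex.norm_real, Real.norm_eq_abs, abs_mul, abs_of_pos (by norm_num : (0:ℝ) < 2)]
  have hNn : ‖(NT T : ℂ)‖ = NT T := by
    rw [Complex.norm_real, Real.norm_eq_abs, abs_of_pos hNT]
  have h1 : 2 * |JJ q T| ≤ e2 T + ‖Spair χ T - Spair0 χ T‖ / NT T + e1 T := by
    rw [← hn, hdec]
    refine (norm_add_le _ _).trans ?_
    apply add_le_add _ le_rfl
    refine (norm_sub_le _ _).trans ?_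
    rw [norm_neg, norm_div, norm_div, hNn]
    apply add_le_add _ le_rfl
    exact div_le_div_of_nonneg_right hb hNT.le
  have h2 : 0 ≤ |JJ q T| := abs_nonneg _
  linarith

end Pool.Agent.PairCorr
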