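import Mathlib

/-!
# Mertens' first theorem for the von Mangoldt function
-/

set_option autoImplicit false

namespace Pool.Agent.PairCorr

open MeasureTheory Filter Topology Set Real
open scoped ENNReal ArithmeticFunction.vonMangoldt

/-- `∑_{n ≤ N} Λ(n)/n`. -/
noncomputable def Rm (N : ℕ) : ℝ := ∑ n ∈ Finset.Ioc 0 N, Λ n / n

lemma sum_vonMangoldt_floor (N : ℕ) :
    ∑ n ∈ Finset.Ioc 0 N, Λ n * ((N / n : ℕ) : ℝ) = Real.log N.factorial := by
  have h := ArithmeticFunction.sum_Ioc_mul_zeta_eq_sum (ArithmeticFunction.vonMangoldt) N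
  rw [ArithmeticFunction.vonMangoldt_mul_zeta] at h
  rw [← h]
  have h2 : ∀ N : ℕ, ∑ n ∈ Finset.Ioc 0 N, ArithmeticFunction.log n = Real.log N.factorial := by
    intro N
    induction N with
    | zero => simp
    | succ N ih =>
      rw [Finset.sum_Ioc_succ_top (by omega), ih, ArithmeticFunction.log_apply, Nat.factorial_succ,
        Nat.cast_mul, Real.log_mul (by positivity) (by positivity)]
      ring
  exact h2 N

lemma sum_vonMangoldt_le (N : ℕ) : ∑ n ∈ Finset.Ioc 0 N, Λ n ≤ 6 * N := by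
  have h := Chebyshev.psi_le_const_mul_self (x := (N:ℝ)) (by positivity)
  have h4 : Real.log 4 ≤ 2 := by
    have : Real.log 4 = 2 * Real.log 2 := by
      rw [show (4:ℝ) = 2 ^ 2 by norm_num, Real.log_pow]; norm_num
    have := Real.log_two_lt_d9
    linarith
  unfold Chebyshev.psi at h
  rw [Nat.floor_natCast] at h
  refine h.trans ?_
  have : (0:ℝ) ≤ N := by positivity
  nlinarith

lemma Rm_bounds {N : ℕ} (hN : 1 ≤ N) : |Rm N - Real.log N| ≤ 6 := by
  have hN0 : (0:ℝ) < N := by exact_mod_cast hN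
  have h1 := sum_vonMangoldt_floor N
  have h2 := sum_vonMangoldt_le N
  have hup : Real.log N.factorial ≤ N * Real.log N := by
    have h3 : (N.factorial : ℝ) ≤ (N:ℝ) ^ N := by exact_mod_cast Nat.factorial_le_pow N
    have h4 := Real.log_le_log (by positivity) h3
    rwa [Real.log_pow] at h4
  have hlow : N * Real.log N - N ≤ Real.log N.factorial := by
    have h3 := Stirling.le_log_factorial_stirling (n := N) (by omega)
    have h4 : 0 ≤ Real.log N := Real.log_natCast_nonneg N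
    have h5 : 0 ≤ Real.log (2 * π) := Real.log_nonneg (by nlinarith [Real.pi_gt_three])
    linarith
  have hA : Real.log N.factorial ≤ N * Rm N := by
    rw [← h1, Rm, Finset.mul_sum]
    refine Finset.sum_le_sum fun n hn => ?_
    simp only [Finset.mem_Ioc] at hn
    have hn0 : (0:ℝ) < n := by exact_mod_cast hn.1
    have h3 : ((N / n : ℕ) : ℝ) ≤ N / n := Nat.cast_div_le
    have h4 : (0:ℝ) ≤ Λ n := ArithmeticFunction.vonMangoldt_nonneg
    calc Λ n * ((N / n : ℕ) : ℝ) ≤ Λ n * (N / n) := by gcongr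
      _ = N * (Λ n / n) := by ring
  have hB : N * Rm N ≤ Real.log N.factorial + 6 * N := by
    rw [← h1, Rm, Finset.mul_sum]
    have h3 : ∑ n ∈ Finset.Ioc 0 N, (N:ℝ) * (Λ n / n) ≤
        ∑ n ∈ Finset.Ioc 0 N, (Λ n * ((N / n : ℕ) : ℝ) + Λ n) := by
      refine Finset.sum_le_sum fun n hn => ?_
      simp only [Finset.mem_Ioc] at hn
      have hn0 : (0:ℝ) < n := by exact_mod_cast hn.1
      have h3 : (N:ℝ) / n ≤ ((N / n : ℕ) : ℝ) + 1 := by
        rw [div_le_iff₀ hn0]
        have := Nat.lt_mul_div_succ N hn.1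
        have h5 : N < n * (N / n + 1) := this
        have h6 : (N:ℝ) < n * ((N / n : ℕ) + 1) := by exact_mod_cast h5
        linarith
      have h4 : (0:ℝ) ≤ Λ n := ArithmeticFunction.vonMangoldt_nonneg
      calc (N:ℝ) * (Λ n / n) = Λ n * (N / n) := by ring
        _ ≤ Λ n * (((N / n : ℕ) : ℝ) + 1) := by gcongr
        _ = _ := by ring
    rw [Finset.sum_add_distrib] at h3
    linarith
  rw [abs_le]
  constructor
  · have : (-6:ℝ) * N ≤ (Rm N - Real.log N) * N := by nlinarith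
    exact le_of_mul_le_mul_right this hN0
  · have : (Rm N - Real.log N) * N ≤ 6 * N := by nlinarith
    exact le_of_mul_le_mul_right this hN0

/-- The contribution of the proper prime powers is bounded. -/
lemma nonprime_bound : ∃ C : ℝ, 0 ≤ C ∧ ∀ N : ℕ,
    ∑ n ∈ (Finset.Ioc 0 N).filter (fun n => ¬ n.Prime), Λ n / n ≤ C := by
  obtain ⟨C0, hC0⟩ := Chebyshev.psi_sub_theta_le_mul_sqrt
  set C := max C0 0 with hC
  have hCn : 0 ≤ C := le_max_right _ _
  set e : ℕ → ℝ := fun n => if n.Prime then 0 else Λ n with he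
  have he0 : ∀ n, 0 ≤ e n := by
    intro n; rw [he]; dsimp only
    split_ifs
    · exact le_rfl
    · exact ArithmeticFunction.vonMangoldt_nonneg
  set E : ℕ → ℝ := fun N => ∑ n ∈ Finset.Ioc 0 N, e n with hE
  have hEb : ∀ N : ℕ, E N ≤ C * √(N:ℝ) := by
    intro N
    have h1 := hC0 N
    rw [Chebyshev.psi_sub_theta_eq_sum_not_prime, Nat.floor_natCast] at h1
    have h2 : E N = ∑ n ∈ (Finset.Ioc 0 N).filter (fun n => ¬ n.Prime), Λ n := by
      rw [hE, Finset.sum_filter]
      refine Finset.sum_congr rfl fun n _ => ?_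
      rw [he]; dsimp only
      by_cases h : n.Prime <;> simp [h]
    rw [h2]
    refine h1.trans ?_
    gcongr
    exact le_max_left _ _
  have habel : ∀ N : ℕ, ∑ n ∈ Finset.Ioc 0 N, e n / n =
      E N / (N + 1) + ∑ n ∈ Finset.Ioc 0 N, E n / (n * (n + 1)) := by
    intro N
    induction N with
    | zero => simp [hE]
    | succ N ih =>
      have hES : E (N + 1) = E N + e (N + 1) := by
        rw [hE]; dsimp only
        rw [Finset.sum_Ioc_succ_top (by omega)]
      rw [Finset.sum_Ioc_succ_top (by omega), Finset.sum_Ioc_succ_top (by omega), ih, hES]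
      push_cast
      field_simp
      ring
  have hsum : Summable (fun n : ℕ => 1 / (n:ℝ) ^ (3/2 : ℝ)) :=
    Real.summable_one_div_nat_rpow.mpr (by norm_num)
  refine ⟨C + C * ∑' n : ℕ, 1 / (n:ℝ) ^ (3/2 : ℝ), ?_, fun N => ?_⟩
  · have : 0 ≤ ∑' n : ℕ, 1 / (n:ℝ) ^ (3/2 : ℝ) := tsum_nonneg fun n => by positivity
    positivity
  have h2 : ∑ n ∈ (Finset.Ioc 0 N).filter (fun n => ¬ n.Prime), Λ n / n =
      ∑ n ∈ Finset.Ioc 0 N, e n / n := by
    rw [Finset.sum_filter]
    refine Finset.sum_congr rfl fun n _ => ?_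
    rw [he]; dsimp only
    by_cases h : n.Prime <;> simp [h]
  rw [h2, habel]
  have h3 : E N / (N + 1) ≤ C := by
    rw [div_le_iff₀ (by positivity)]
    refine (hEb N).trans ?_
    gcongr
    have h0 : (0:ℝ) ≤ N := by positivity
    rw [Real.sqrt_le_left (by positivity)]
    nlinarith
  have h4 : ∑ n ∈ Finset.Ioc 0 N, E n / (n * (n + 1)) ≤ C * ∑' n : ℕ, 1 / (n:ℝ) ^ (3/2 : ℝ) := by
    rw [← tsum_mul_left]
    refine le_trans (Finset.sum_le_sum fun n hn => ?_)
      ((hsum.mul_left C).sum_le_tsum (Finset.Ioc 0 N) fun n _ => by positivity)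
    simp only [Finset.mem_Ioc] at hn
    have hn0 : (0:ℝ) < n := by exact_mod_cast hn.1
    rw [div_le_iff₀ (by positivity)]
    refine (hEb n).trans ?_
    have h5 : √(n:ℝ) ≤ 1 / (n:ℝ) ^ (3/2 : ℝ) * (n * (n + 1)) := by
      rw [Real.sqrt_eq_rpow, one_div ((n:ℝ) ^ (3/2 : ℝ)), ← Real.rpow_neg hn0.le]
      have h6 : (n:ℝ) ^ (1/2 : ℝ) = (n:ℝ) ^ (-(3/2) : ℝ) * (n * n) := by
        have : (n:ℝ) * n = (n:ℝ) ^ (2:ℝ) := by
          rw [show (2:ℝ) = ((2:ℕ):ℝ) by norm_num, Real.rpow_natCast]; ring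
        rw [this, ← Real.rpow_add hn0]; norm_num
      rw [h6]
      gcongr
      linarith
    calc C * √(n:ℝ) ≤ C * (1 / (n:ℝ) ^ (3/2 : ℝ) * (n * (n + 1))) := by gcongr
      _ = _ := by ring
  linarith

end Pool.Agent.PairCorr
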