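import Mathlib
import Pool.Agent.PairCorr.D_Mertens

/-!
# Riemann sums over prime powers
-/

set_option autoImplicit false

namespace Pool.Agent.PairCorr

open MeasureTheory Filter Topology Set Real
open scoped ENNReal ArithmeticFunction.vonMangoldt

/-- The number of integers in `[1, e^{vL})`. -/
noncomputable def Mv (L v : ℝ) : ℕ := ⌈Real.exp (v * L)⌉₊ - 1

lemma Mv_bounds {L v : ℝ} (hL : 0 < L) (hv : 0 < v) :
    1 ≤ Mv L v ∧ |Real.log (Mv L v) - v * L| ≤ 1 := by
  have h1 : 1 < Real.exp (v * L) := by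
    rw [Real.one_lt_exp_iff]; positivity
  have h2 : 2 ≤ ⌈Real.exp (v * L)⌉₊ := by
    have : (1:ℝ) < ⌈Real.exp (v * L)⌉₊ := h1.trans_le (Nat.le_ceil _)
    have : 1 < ⌈Real.exp (v * L)⌉₊ := by exact_mod_cast this
    omega
  have h3 : 1 ≤ Mv L v := by unfold Mv; omega
  have h4 : ((Mv L v : ℕ) : ℝ) = ⌈Real.exp (v * L)⌉₊ - 1 := by
    unfold Mv
    rw [Nat.cast_sub (by omega)]
    simp
  have h5 : ((Mv L v : ℕ) : ℝ) ≤ Real.exp (v * L) := by
    rw [h4]
    have := Nat.ceil_lt_add_one (Real.exp_pos (v * L)).le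
    linarith
  have h6 : Real.exp (v * L) ≤ (Mv L v : ℕ) + 1 := by
    rw [h4]
    have := Nat.le_ceil (Real.exp (v * L))
    linarith
  have h3' : (1:ℝ) ≤ (Mv L v : ℕ) := by exact_mod_cast h3
  refine ⟨h3, ?_⟩
  have h7 : Real.log (Mv L v) ≤ v * L := by
    rw [Real.log_le_iff_le_exp (by linarith)]; exact h5
  have h8 : v * L ≤ Real.log (Mv L v) + Real.log 2 := by
    rw [← Real.log_mul (by linarith) (by norm_num), Real.le_log_iff_exp_le (by linarith)]
    linarith
  have := Real.log_two_lt_d9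
  rw [abs_le]
  constructor <;> linarith

lemma Rm_Mv {L v : ℝ} (hL : 0 < L) (hv : 0 < v) : |Rm (Mv L v) / L - v| ≤ 7 / L := by
  obtain ⟨h1, h2⟩ := Mv_bounds hL hv
  have h3 := Rm_bounds h1
  have h4 : |Rm (Mv L v) - v * L| ≤ 7 := by
    rw [abs_le] at *
    constructor <;> linarith [h2.1, h2.2, h3.1, h3.2]
  have h5 : Rm (Mv L v) / L - v = (Rm (Mv L v) - v * L) / L := by field_simp
  rw [h5, abs_div, abs_of_pos hL]
  gcongr

lemma indicator_sum_eq {T : ℝ} (hT : 1 < T) {v : ℝ} (hv : 0 < v) (hv1 : v ≤ 1) (g : ℝ → ℝ) :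
    ∑ n ∈ Finset.Ioc 0 ⌊T⌋₊, Λ n / n * (Ioi (Real.log n / Real.log T)).indicator g v =
      g v * Rm (Mv (Real.log T) v) := by
  have hL : 0 < Real.log T := Real.log_pos hT
  have h1 : ∀ n : ℕ, Λ n / n * (Ioi (Real.log n / Real.log T)).indicator g v =
      if Real.log n / Real.log T < v then Λ n / n * g v else 0 := by
    intro n
    by_cases h : Real.log n / Real.log T < v
    · rw [if_pos h, indicator_of_mem (show v ∈ Ioi _ from h)]
    · rw [if_neg h, indicator_of_notMem (show v ∉ Ioi _ from h), mul_zero]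
  simp_rw [h1]
  rw [← Finset.sum_filter]
  have h2 : (Finset.Ioc 0 ⌊T⌋₊).filter (fun n : ℕ => Real.log n / Real.log T < v) =
      Finset.Ioc 0 (Mv (Real.log T) v) := by
    ext n
    simp only [Finset.mem_filter, Finset.mem_Ioc]
    unfold Mv
    constructor
    · rintro ⟨⟨h3, _⟩, h4⟩
      refine ⟨h3, ?_⟩
      rw [div_lt_iff₀ hL, Real.log_lt_iff_lt_exp (by exact_mod_cast h3)] at h4
      have h5 := Nat.lt_ceil.mpr h4
      omega
    · rintro ⟨h3, h4⟩
      have h5 : n < ⌈Real.exp (v * Real.log T)⌉₊ := by omega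
      have h6 := Nat.lt_ceil.mp h5
      refine ⟨⟨h3, ?_⟩, ?_⟩
      · apply Nat.le_floor
        have h7 : Real.exp (v * Real.log T) ≤ T := by
          nth_rewrite 2 [← Real.exp_log (by linarith : 0 < T)]
          apply Real.exp_le_exp.mpr
          nlinarith
        linarith
      · rw [div_lt_iff₀ hL, Real.log_lt_iff_lt_exp (by exact_mod_cast h3)]
        exact h6
  rw [h2, ← Finset.sum_mul, mul_comm]
  rfl

/-- Riemann sums with respect to `Λ(n)/n`. -/
lemma riemann_mertens {h : ℝ → ℝ} (hh : ContDiff ℝ 1 h) (h1 : h 1 = 0) {K : ℝ}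
    (hK : ∀ v ∈ Icc (0:ℝ) 1, |deriv h v| ≤ K) {T : ℝ} (hT : 1 < T) :
    |1 / Real.log T * ∑ n ∈ Finset.Ioc 0 ⌊T⌋₊, Λ n / n * h (Real.log n / Real.log T) -
      ∫ v in (0:ℝ)..1, h v| ≤ 7 * K / Real.log T := by
  have hL : 0 < Real.log T := Real.log_pos hT
  have hdc : Continuous (deriv h) := hh.continuous_deriv le_rfl
  have hd : ∀ v, HasDerivAt h (deriv h v) v := fun v =>
    (hh.differentiable (by norm_num) v).hasDerivAt
  have hx : ∀ n ∈ Finset.Ioc 0 ⌊T⌋₊, 0 ≤ Real.log n / Real.log T ∧ Real.log n / Real.log T ≤ 1 := by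
    intro n hn
    simp only [Finset.mem_Ioc] at hn
    have hn0 : (0:ℝ) < n := by exact_mod_cast hn.1
    have hnT : (n:ℝ) ≤ T := (Nat.le_floor_iff (by linarith)).mp hn.2
    refine ⟨div_nonneg (Real.log_natCast_nonneg n) hL.le, ?_⟩
    rw [div_le_one hL]
    exact Real.log_le_log hn0 hnT
  -- integral representation of each term
  have hrep : ∀ n ∈ Finset.Ioc 0 ⌊T⌋₊, h (Real.log n / Real.log T) =
      - ∫ v in (0:ℝ)..1, (Ioi (Real.log n / Real.log T)).indicator (deriv h) v := by
    intro n hn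
    obtain ⟨hx0, hx1⟩ := hx n hn
    set x := Real.log n / Real.log T with hxdef
    rw [intervalIntegral.integral_of_le zero_le_one, setIntegral_indicator measurableSet_Ioi]
    have h2 : Ioc (0:ℝ) 1 ∩ Ioi x = Ioc x 1 := by
      ext v; simp only [mem_inter_iff, mem_Ioc, mem_Ioi]
      constructor
      · rintro ⟨⟨_, h3⟩, h4⟩; exact ⟨h4, h3⟩
      · rintro ⟨h3, h4⟩; exact ⟨⟨lt_of_le_of_lt hx0 h3, h4⟩, h3⟩
    rw [h2, ← intervalIntegral.integral_of_le hx1,
      intervalIntegral.integral_eq_sub_of_hasDerivAt (fun v _ => hd v)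
        (hdc.intervalIntegrable _ _), h1]
    ring
  have hii : ∀ x : ℝ, IntervalIntegrable ((Ioi x).indicator (deriv h)) volume 0 1 := by
    intro x
    rw [intervalIntegrable_iff]
    apply Integrable.indicator _ measurableSet_Ioi
    exact (intervalIntegrable_iff.mp (hdc.intervalIntegrable 0 1))
  have hsum : 1 / Real.log T * ∑ n ∈ Finset.Ioc 0 ⌊T⌋₊, Λ n / n * h (Real.log n / Real.log T) =
      - ∫ v in (0:ℝ)..1, deriv h v * (Rm (Mv (Real.log T) v) / Real.log T) := by
    have h2 : ∑ n ∈ Finset.Ioc 0 ⌊T⌋₊, Λ n / n * h (Real.log n / Real.log T) =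
        - ∫ v in (0:ℝ)..1, ∑ n ∈ Finset.Ioc 0 ⌊T⌋₊,
          Λ n / n * (Ioi (Real.log n / Real.log T)).indicator (deriv h) v := by
      rw [intervalIntegral.integral_finsetSum (fun n _ => (hii _).const_mul _),
        ← Finset.sum_neg_distrib]
      refine Finset.sum_congr rfl fun n hn => ?_
      rw [intervalIntegral.integral_const_mul, hrep n hn]
      ring
    rw [h2]
    have h3 : ∫ v in (0:ℝ)..1, ∑ n ∈ Finset.Ioc 0 ⌊T⌋₊,
          Λ n / n * (Ioi (Real.log n / Real.log T)).indicator (deriv h) v =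
        Real.log T * ∫ v in (0:ℝ)..1, deriv h v * (Rm (Mv (Real.log T) v) / Real.log T) := by
      rw [← intervalIntegral.integral_const_mul, intervalIntegral.integral_of_le zero_le_one,
        intervalIntegral.integral_of_le zero_le_one]
      refine setIntegral_congr_fun measurableSet_Ioc fun v hv => ?_
      show _ = _
      rw [indicator_sum_eq hT hv.1 hv.2]
      field_simp
    rw [h3]
    field_simp
  have hIR : IntervalIntegrable (fun v => deriv h v * (Rm (Mv (Real.log T) v) / Real.log T))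
      volume 0 1 := by
    have h2 : IntervalIntegrable (fun v => 1 / Real.log T * ∑ n ∈ Finset.Ioc 0 ⌊T⌋₊,
          Λ n / n * (Ioi (Real.log n / Real.log T)).indicator (deriv h) v) volume 0 1 := by
      apply IntervalIntegrable.const_mul
      rw [intervalIntegrable_iff]
      apply integrable_finsetSum
      intro n _
      exact (intervalIntegrable_iff.mp (hii _)).const_mul _
    refine h2.congr ?_
    rw [uIoc_of_le zero_le_one]
    intro v hv
    show _ = _
    dsimp only
    rw [indicator_sum_eq hT hv.1 hv.2]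
    field_simp
  have hint : ∫ v in (0:ℝ)..1, h v = - ∫ v in (0:ℝ)..1, deriv h v * v := by
    have h2 := intervalIntegral.integral_mul_deriv_eq_deriv_mul (a := (0:ℝ)) (b := 1)
      (u := fun v => v) (v := h) (u' := fun _ => 1) (v' := deriv h)
      (fun v _ => hasDerivAt_id v) (fun v _ => hd v) (by simp) (hdc.intervalIntegrable _ _)
    simp only [one_mul, h1] at h2
    have h3 : ∫ v in (0:ℝ)..1, deriv h v * v = ∫ v in (0:ℝ)..1, v * deriv h v := by
      congr 1; ext v; ring
    rw [h3, h2]; ring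
  rw [hsum, hint]
  have hIv : IntervalIntegrable (fun v => deriv h v * v) volume 0 1 :=
    (hdc.mul continuous_id).intervalIntegrable _ _
  have h2 : (- ∫ v in (0:ℝ)..1, deriv h v * (Rm (Mv (Real.log T) v) / Real.log T)) -
      (- ∫ v in (0:ℝ)..1, deriv h v * v) =
      - ∫ v in (0:ℝ)..1, deriv h v * (Rm (Mv (Real.log T) v) / Real.log T - v) := by
    rw [← neg_add', neg_inj]
    rw [add_neg_eq_iff_eq_add, ← intervalIntegral.integral_add]
    · congr 1; ext v; ring
    · refine (hIR.sub hIv).congr ?_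
      intro v _
      show _ = _
      ring
    · exact hIv
  rw [h2, abs_neg]
  have hK0 : 0 ≤ K := (abs_nonneg _).trans (hK 0 ⟨le_rfl, zero_le_one⟩)
  have h3 := intervalIntegral.norm_integral_le_of_norm_le_const (a := (0:ℝ)) (b := 1)
    (C := 7 * K / Real.log T)
    (f := fun v => deriv h v * (Rm (Mv (Real.log T) v) / Real.log T - v)) ?_
  · simpa using h3
  · intro v hv
    rw [uIoc_of_le zero_le_one] at hv
    rw [norm_mul, Real.norm_eq_abs, Real.norm_eq_abs]
    have h4 := Rm_Mv hL hv.1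
    calc |deriv h v| * |Rm (Mv (Real.log T) v) / Real.log T - v| ≤ K * (7 / Real.log T) := by
          gcongr
          exact hK v ⟨hv.1.le, hv.2⟩
      _ = _ := by ring

end Pool.Agent.PairCorr
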