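import Mathlib
import Pool.Agent.PairCorr.D_Riemann
import Pool.Agent.PairCorr.PB_Statement

/-!
# Mean square of the prime sum
-/

set_option autoImplicit false

namespace Pool.Agent.PairCorr

open MeasureTheory Filter Topology Set Real
open scoped ENNReal ArithmeticFunction.vonMangoldt

/-- Coefficients. -/
noncomputable def cP (ψ : ℝ → ℝ) (T : ℝ) (n : ℕ) : ℝ :=
  2 / Real.log T * (Λ n / √(n:ℝ) * ψ (Real.log n / Real.log T))

lemma cP_eq_zero {ψ : ℝ → ℝ} (hψ : ∀ v, 1/8 < |v| → ψ v = 0) {T : ℝ} (hT : 1 < T) {n : ℕ}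
    (hn : ⌊T ^ (1/8 : ℝ)⌋₊ < n) : cP ψ T n = 0 := by
  have hL : 0 < Real.log T := Real.log_pos hT
  have hn1 : T ^ (1/8 : ℝ) < n := (Nat.floor_lt (by positivity)).mp hn
  have h1 : 1 / 8 < Real.log n / Real.log T := by
    rw [lt_div_iff₀ hL, ← Real.log_rpow (by linarith)]
    exact Real.log_lt_log (by positivity) hn1
  unfold cP
  rw [hψ _ (h1.trans_le (le_abs_self _))]
  ring

lemma PP_eq {ψ : ℝ → ℝ} (hψ : ∀ v, 1/8 < |v| → ψ v = 0) {T : ℝ} (hT : 1 < T) (t : ℝ) :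
    PP ψ T t = ∑ n ∈ Finset.Icc 2 ⌊T ^ (1/8 : ℝ)⌋₊, cP ψ T n * Real.cos (t * Real.log n) := by
  unfold PP
  rw [← tsum_mul_left, tsum_eq_sum (s := Finset.Icc 2 ⌊T ^ (1/8 : ℝ)⌋₊)]
  · refine Finset.sum_congr rfl fun n _ => ?_
    unfold cP; ring
  · intro n hn
    simp only [Finset.mem_Icc, not_and_or, not_le] at hn
    rcases hn with hn | hn
    · interval_cases n <;> simp
    · have := cP_eq_zero hψ hT hn
      unfold cP at this
      linear_combination Real.cos (t * Real.log n) * this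

lemma integral_cos_bound {a : ℝ} (ha : a ≠ 0) (T : ℝ) :
    |∫ t in (0:ℝ)..T, Real.cos (t * a)| ≤ 1 / |a| := by
  have h1 : ∫ t in (0:ℝ)..T, Real.cos (t * a) = a⁻¹ * Real.sin (T * a) := by
    rw [intervalIntegral.integral_comp_mul_right (fun x => Real.cos x) ha, integral_cos]
    simp
  rw [h1, abs_mul, abs_inv, one_div]
  calc |a|⁻¹ * |Real.sin (T * a)| ≤ |a|⁻¹ * 1 := by
        gcongr; exact Real.abs_sin_le_one _
    _ = |a|⁻¹ := mul_one _

lemma cos_mul_cos' (a b : ℝ) : Real.cos a * Real.cos b =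
    (Real.cos (a - b) + Real.cos (a + b)) / 2 := by
  rw [Real.cos_sub, Real.cos_add]; ring

lemma integral_cos_mul_cos {a b : ℝ} (T : ℝ) :
    ∫ t in (0:ℝ)..T, Real.cos (t * a) * Real.cos (t * b) =
      (∫ t in (0:ℝ)..T, Real.cos (t * (a - b))) / 2 + (∫ t in (0:ℝ)..T, Real.cos (t * (a + b))) / 2 := by
  have h1 : ∀ t : ℝ, Real.cos (t * a) * Real.cos (t * b) =
      Real.cos (t * (a - b)) / 2 + Real.cos (t * (a + b)) / 2 := by
    intro t
    rw [cos_mul_cos', ← mul_sub, ← mul_add]; ring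
  simp_rw [h1]
  rw [intervalIntegral.integral_add, intervalIntegral.integral_div, intervalIntegral.integral_div]
  · apply Continuous.intervalIntegrable; fun_prop
  · apply Continuous.intervalIntegrable; fun_prop

lemma log_ge_half {n : ℕ} (hn : 2 ≤ n) : (1/2:ℝ) ≤ Real.log n := by
  have h1 : Real.log 2 ≤ Real.log n := Real.log_le_log (by norm_num) (by exact_mod_cast hn)
  have := Real.log_two_gt_d9
  linarith

lemma log_sub_ge {n m N : ℕ} (hn : 2 ≤ n) (hnm : n < m) (hm : m ≤ N) :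
    1 / (N:ℝ) ≤ Real.log m - Real.log n := by
  have hn0 : (0:ℝ) < n := by exact_mod_cast (by omega : 0 < n)
  have hm0 : (0:ℝ) < m := by exact_mod_cast (by omega : 0 < m)
  have h1 : Real.log n - Real.log m = Real.log (n / m) := by
    rw [Real.log_div hn0.ne' hm0.ne']
  have h2 := Real.log_le_sub_one_of_pos (show (0:ℝ) < n / m by positivity)
  have h3 : (n:ℝ) / m ≤ 1 - 1 / m := by
    rw [div_le_iff₀ hm0]
    have : (n:ℝ) + 1 ≤ m := by exact_mod_cast hnm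
    field_simp
    linarith
  have h4 : 1 / (N:ℝ) ≤ 1 / m := by
    apply one_div_le_one_div_of_le hm0
    exact_mod_cast hm
  linarith

/-- Off-diagonal and diagonal integrals. -/
lemma integral_pair_bound {n m N : ℕ} (hn : 2 ≤ n) (hm : 2 ≤ m) (hnN : n ≤ N) (hmN : m ≤ N)
    {T : ℝ} :
    |(∫ t in (0:ℝ)..T, Real.cos (t * Real.log n) * Real.cos (t * Real.log m)) -
      (if n = m then T / 2 else 0)| ≤ N := by
  have hN1 : (1:ℝ) ≤ N := by exact_mod_cast (by omega : 1 ≤ N)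
  have hn' := log_ge_half hn
  have hm' := log_ge_half hm
  rw [integral_cos_mul_cos]
  have hplus : |(∫ t in (0:ℝ)..T, Real.cos (t * (Real.log n + Real.log m)))| ≤ 1 := by
    refine (integral_cos_bound (by linarith) T).trans ?_
    rw [abs_of_pos (by linarith), div_le_one (by linarith)]
    linarith
  split_ifs with h
  · subst h
    have h1 : ∫ t in (0:ℝ)..T, Real.cos (t * (Real.log n - Real.log n)) = T := by simp
    rw [h1]
    have h2 : T / 2 + (∫ t in (0:ℝ)..T, Real.cos (t * (Real.log n + Real.log n))) / 2 - T / 2 =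
        (∫ t in (0:ℝ)..T, Real.cos (t * (Real.log n + Real.log n))) / 2 := by ring
    rw [h2, abs_div, abs_of_pos (by norm_num : (0:ℝ) < 2)]
    linarith
  · have hne : Real.log n - Real.log m ≠ 0 ∧ 1 / |Real.log n - Real.log m| ≤ N := by
      rcases lt_or_gt_of_ne h with h1 | h1
      · have h2 := log_sub_ge hn h1 hmN
        have h3 : 0 < 1 / (N:ℝ) := by positivity
        refine ⟨by linarith, ?_⟩
        rw [abs_of_neg (by linarith), div_le_iff₀ (by linarith)]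
        calc (1:ℝ) = N * (1 / N) := by field_simp
          _ ≤ N * (-(Real.log n - Real.log m)) := by gcongr; linarith
      · have h2 := log_sub_ge hm h1 hnN
        have h3 : 0 < 1 / (N:ℝ) := by positivity
        refine ⟨by linarith, ?_⟩
        rw [abs_of_pos (by linarith), div_le_iff₀ (by linarith)]
        calc (1:ℝ) = N * (1 / N) := by field_simp
          _ ≤ N * (Real.log n - Real.log m) := by gcongr
    have h1 := (integral_cos_bound hne.1 T).trans hne.2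
    rw [sub_zero]
    refine (abs_add_le _ _).trans ?_
    rw [abs_div, abs_div, abs_of_pos (by norm_num : (0:ℝ) < 2)]
    linarith

lemma abs_cP_le {ψ : ℝ → ℝ} {K : ℝ} (hK : ∀ v, |ψ v| ≤ K) {T : ℝ} (hT : 1 < T) {n : ℕ}
    (hn : 2 ≤ n) (hnT : (n:ℝ) ≤ T) : |cP ψ T n| ≤ 2 * K := by
  have hL : 0 < Real.log T := Real.log_pos hT
  have hn0 : (2:ℝ) ≤ n := by exact_mod_cast hn
  have hK0 : 0 ≤ K := (abs_nonneg _).trans (hK 0)
  have h1 : (0:ℝ) ≤ Λ n := ArithmeticFunction.vonMangoldt_nonneg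
  have h2 : Λ n ≤ Real.log T := by
    refine ArithmeticFunction.vonMangoldt_le_log.trans ?_
    exact Real.log_le_log (by linarith) hnT
  have h3 : 1 ≤ √(n:ℝ) := by
    rw [Real.one_le_sqrt]; linarith
  unfold cP
  rw [abs_mul, abs_mul, abs_div, abs_div, abs_of_nonneg h1, abs_of_pos hL,
    abs_of_pos (by linarith : 0 < √(n:ℝ)), abs_of_pos (by norm_num : (0:ℝ) < 2)]
  calc 2 / Real.log T * (Λ n / √(n:ℝ) * |ψ (Real.log n / Real.log T)|)
      ≤ 2 / Real.log T * (Real.log T / 1 * K) := by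
        gcongr
        exact hK _
    _ = 2 * K := by field_simp

lemma mean_PP {ψ : ℝ → ℝ} (hψ : ∀ v, 1/8 < |v| → ψ v = 0) {K : ℝ} (hK : ∀ v, |ψ v| ≤ K)
    {T : ℝ} (hT : 1 < T) :
    |∫ t in (0:ℝ)..T, PP ψ T t| ≤ 4 * K * T ^ (1/8 : ℝ) := by
  have hK0 : 0 ≤ K := (abs_nonneg _).trans (hK 0)
  simp_rw [PP_eq hψ hT]
  rw [intervalIntegral.integral_finsetSum]
  swap
  · intro n _
    apply Continuous.intervalIntegrable; fun_prop
  refine (Finset.abs_sum_le_sum_abs _ _).trans ?_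
  have h1 : ∀ n ∈ Finset.Icc 2 ⌊T ^ (1/8 : ℝ)⌋₊,
      |∫ t in (0:ℝ)..T, cP ψ T n * Real.cos (t * Real.log n)| ≤ 4 * K := by
    intro n hn
    simp only [Finset.mem_Icc] at hn
    have hlog := log_ge_half hn.1
    have hnT : (n:ℝ) ≤ T := by
      have h2 : (n:ℝ) ≤ T ^ (1/8 : ℝ) := (Nat.le_floor_iff (by positivity)).mp hn.2
      refine h2.trans ?_
      calc T ^ (1/8 : ℝ) ≤ T ^ (1:ℝ) := Real.rpow_le_rpow_of_exponent_le hT.le (by norm_num)
        _ = T := Real.rpow_one T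
    rw [intervalIntegral.integral_const_mul, abs_mul]
    have h2 := abs_cP_le hK hT hn.1 hnT
    have h3 := integral_cos_bound (a := Real.log n) (by linarith) T
    have h4 : 1 / |Real.log n| ≤ 2 := by
      rw [abs_of_pos (by linarith), div_le_iff₀ (by linarith)]; linarith
    calc |cP ψ T n| * |∫ t in (0:ℝ)..T, Real.cos (t * Real.log n)| ≤ (2 * K) * 2 := by
          gcongr
          exact h3.trans h4
      _ = 4 * K := by ring
  refine (Finset.sum_le_sum h1).trans ?_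
  rw [Finset.sum_const, Nat.card_Icc, nsmul_eq_mul]
  have h5 : ((⌊T ^ (1/8 : ℝ)⌋₊ + 1 - 2 : ℕ) : ℝ) ≤ T ^ (1/8 : ℝ) := by
    calc ((⌊T ^ (1/8 : ℝ)⌋₊ + 1 - 2 : ℕ) : ℝ) ≤ (⌊T ^ (1/8 : ℝ)⌋₊ : ℝ) := by
          exact_mod_cast (by omega : ⌊T ^ (1/8 : ℝ)⌋₊ + 1 - 2 ≤ ⌊T ^ (1/8 : ℝ)⌋₊)
      _ ≤ T ^ (1/8 : ℝ) := Nat.floor_le (by positivity)
  calc ((⌊T ^ (1/8 : ℝ)⌋₊ + 1 - 2 : ℕ) : ℝ) * (4 * K) ≤ T ^ (1/8 : ℝ) * (4 * K) := by gcongr
    _ = _ := by ring

lemma mean_PP_sq {ψ : ℝ → ℝ} (hψ : ∀ v, 1/8 < |v| → ψ v = 0) {K : ℝ} (hK : ∀ v, |ψ v| ≤ K)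
    {T : ℝ} (hT : 1 < T) :
    |(∫ t in (0:ℝ)..T, PP ψ T t ^ 2) -
      T / 2 * ∑ n ∈ Finset.Icc 2 ⌊T ^ (1/8 : ℝ)⌋₊, cP ψ T n ^ 2| ≤ 4 * K ^ 2 * T ^ (3/8 : ℝ) := by
  have hK0 : 0 ≤ K := (abs_nonneg _).trans (hK 0)
  set N := ⌊T ^ (1/8 : ℝ)⌋₊ with hN
  have hNT : (N:ℝ) ≤ T ^ (1/8 : ℝ) := Nat.floor_le (by positivity)
  have hT8 : T ^ (1/8 : ℝ) ≤ T := by
    calc T ^ (1/8 : ℝ) ≤ T ^ (1:ℝ) := Real.rpow_le_rpow_of_exponent_le hT.le (by norm_num)
      _ = T := Real.rpow_one T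
  have h1 : ∀ t : ℝ, PP ψ T t ^ 2 = ∑ n ∈ Finset.Icc 2 N, ∑ m ∈ Finset.Icc 2 N,
      cP ψ T n * cP ψ T m * (Real.cos (t * Real.log n) * Real.cos (t * Real.log m)) := by
    intro t
    rw [PP_eq hψ hT, sq, Finset.sum_mul_sum]
    refine Finset.sum_congr rfl fun n _ => Finset.sum_congr rfl fun m _ => ?_
    ring
  have h2 : ∫ t in (0:ℝ)..T, PP ψ T t ^ 2 = ∑ n ∈ Finset.Icc 2 N, ∑ m ∈ Finset.Icc 2 N,
      cP ψ T n * cP ψ T m *
        ∫ t in (0:ℝ)..T, (Real.cos (t * Real.log n) * Real.cos (t * Real.log m)) := by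
    simp_rw [h1]
    rw [intervalIntegral.integral_finsetSum]
    · refine Finset.sum_congr rfl fun n _ => ?_
      rw [intervalIntegral.integral_finsetSum]
      · refine Finset.sum_congr rfl fun m _ => ?_
        rw [intervalIntegral.integral_const_mul]
      · intro m _
        apply Continuous.intervalIntegrable; fun_prop
    · intro n _
      apply Continuous.intervalIntegrable
      apply continuous_finsetSum
      intro m _
      fun_prop
  have h3 : T / 2 * ∑ n ∈ Finset.Icc 2 N, cP ψ T n ^ 2 =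
      ∑ n ∈ Finset.Icc 2 N, ∑ m ∈ Finset.Icc 2 N,
        cP ψ T n * cP ψ T m * (if n = m then T / 2 else 0) := by
    rw [Finset.mul_sum]
    refine Finset.sum_congr rfl fun n hn => ?_
    rw [Finset.sum_eq_single n]
    · simp; ring
    · intro m _ hmn
      rw [if_neg (Ne.symm hmn)]; ring
    · intro h; exact absurd hn h
  rw [h2, h3, ← Finset.sum_sub_distrib]
  simp_rw [← Finset.sum_sub_distrib, ← mul_sub]
  refine (Finset.abs_sum_le_sum_abs _ _).trans ?_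
  have h4 : ∀ n ∈ Finset.Icc 2 N, |∑ m ∈ Finset.Icc 2 N, cP ψ T n * cP ψ T m *
      ((∫ t in (0:ℝ)..T, (Real.cos (t * Real.log n) * Real.cos (t * Real.log m))) -
        (if n = m then T / 2 else 0))| ≤ N * (4 * K ^ 2 * N) := by
    intro n hn
    refine (Finset.abs_sum_le_sum_abs _ _).trans ?_
    have h5 : ∀ m ∈ Finset.Icc 2 N, |cP ψ T n * cP ψ T m *
        ((∫ t in (0:ℝ)..T, (Real.cos (t * Real.log n) * Real.cos (t * Real.log m))) -
        (if n = m then T / 2 else 0))| ≤ 4 * K ^ 2 * N := by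
      intro m hm
      simp only [Finset.mem_Icc] at hn hm
      have hnT : (n:ℝ) ≤ T := by
        have : (n:ℝ) ≤ N := by exact_mod_cast hn.2
        linarith
      have hmT : (m:ℝ) ≤ T := by
        have : (m:ℝ) ≤ N := by exact_mod_cast hm.2
        linarith
      rw [abs_mul, abs_mul]
      have e1 := abs_cP_le hK hT hn.1 hnT
      have e2 := abs_cP_le hK hT hm.1 hmT
      have e3 := integral_pair_bound hn.1 hm.1 hn.2 hm.2 (T := T)
      calc |cP ψ T n| * |cP ψ T m| * |(∫ t in (0:ℝ)..T, (Real.cos (t * Real.log n) *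
            Real.cos (t * Real.log m))) - (if n = m then T / 2 else 0)|
          ≤ (2 * K) * (2 * K) * N := by gcongr
        _ = _ := by ring
    refine (Finset.sum_le_sum h5).trans ?_
    rw [Finset.sum_const, Nat.card_Icc, nsmul_eq_mul]
    have h6 : ((N + 1 - 2 : ℕ) : ℝ) ≤ N := by exact_mod_cast (by omega : N + 1 - 2 ≤ N)
    gcongr
  refine (Finset.sum_le_sum h4).trans ?_
  rw [Finset.sum_const, Nat.card_Icc, nsmul_eq_mul]
  have h6 : ((N + 1 - 2 : ℕ) : ℝ) ≤ N := by exact_mod_cast (by omega : N + 1 - 2 ≤ N)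
  calc ((N + 1 - 2 : ℕ) : ℝ) * (N * (4 * K ^ 2 * N)) ≤ N * (N * (4 * K ^ 2 * N)) := by gcongr
    _ = 4 * K ^ 2 * N ^ 3 := by ring
    _ ≤ 4 * K ^ 2 * (T ^ (1/8 : ℝ)) ^ 3 := by gcongr
    _ = 4 * K ^ 2 * T ^ (3/8 : ℝ) := by
        rw [← Real.rpow_natCast (T ^ (1/8 : ℝ)) 3, ← Real.rpow_mul (by linarith)]; norm_num

/-- The diagonal. -/
lemma diag_bound {ψ : ℝ → ℝ} (hsm : ContDiff ℝ 1 ψ) (hψ : ∀ v, 1/8 < |v| → ψ v = 0) :
    ∃ C : ℝ, ∀ T : ℝ, 1 < T →
      |1 / 2 * ∑ n ∈ Finset.Icc 2 ⌊T ^ (1/8 : ℝ)⌋₊, cP ψ T n ^ 2 - 2 * ∫ v in (0:ℝ)..1, v * ψ v ^ 2|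
        ≤ C / Real.log T := by
  obtain ⟨Cn, hCn0, hCn⟩ := nonprime_bound
  set h : ℝ → ℝ := fun v => v * ψ v ^ 2 with hh
  have hhs : ContDiff ℝ 1 h := contDiff_id.mul (hsm.pow 2)
  have h1 : h 1 = 0 := by
    rw [hh]; dsimp only
    rw [hψ 1 (by norm_num)]; norm_num
  have hdc : Continuous (deriv h) := hhs.continuous_deriv le_rfl
  obtain ⟨K, hK⟩ := isCompact_Icc.exists_bound_of_continuousOn (hdc.continuousOn (s := Icc (0:ℝ) 1))
  obtain ⟨K2, hK2⟩ := isCompact_Icc.exists_bound_of_continuousOn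
    ((hsm.continuous.pow 2).continuousOn (s := Icc (0:ℝ) 1))
  have hK20 : 0 ≤ K2 := (norm_nonneg _).trans (hK2 0 ⟨le_rfl, zero_le_one⟩)
  refine ⟨14 * K + 2 * (K2 * Cn), fun T hT => ?_⟩
  have hL : 0 < Real.log T := Real.log_pos hT
  set N := ⌊T ^ (1/8 : ℝ)⌋₊ with hN
  have hT8 : T ^ (1/8 : ℝ) ≤ T := by
    calc T ^ (1/8 : ℝ) ≤ T ^ (1:ℝ) := Real.rpow_le_rpow_of_exponent_le hT.le (by norm_num)
      _ = T := Real.rpow_one T
  have hNT : N ≤ ⌊T⌋₊ := Nat.floor_le_floor hT8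
  have hR := riemann_mertens hhs h1 (K := K) (fun v hv => by simpa using hK v hv) hT
  -- rewrite the diagonal as a sum over Ioc 0 ⌊T⌋
  have hd : 1 / 2 * ∑ n ∈ Finset.Icc 2 N, cP ψ T n ^ 2 =
      ∑ n ∈ Finset.Ioc 0 ⌊T⌋₊, 1 / 2 * cP ψ T n ^ 2 := by
    rw [Finset.mul_sum]
    apply Finset.sum_subset
    · intro n hn
      simp only [Finset.mem_Icc, Finset.mem_Ioc] at *
      omega
    · intro n hn hn2
      simp only [Finset.mem_Icc, Finset.mem_Ioc, not_and_or, not_le] at *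
      rcases hn2 with hn2 | hn2
      · have : n = 1 := by omega
        subst this
        simp [cP]
      · rw [cP_eq_zero hψ hT hn2]; ring
  have hterm : ∀ n ∈ Finset.Ioc 0 ⌊T⌋₊, 1 / 2 * cP ψ T n ^ 2 =
      2 * (1 / Real.log T * (Λ n / n * h (Real.log n / Real.log T))) -
      2 / Real.log T ^ 2 * (Λ n * (Real.log n - Λ n) / n * ψ (Real.log n / Real.log T) ^ 2) := by
    intro n hn
    simp only [Finset.mem_Ioc] at hn
    have hn0 : (0:ℝ) < n := by exact_mod_cast hn.1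
    have hs : √(n:ℝ) ^ 2 = n := Real.sq_sqrt hn0.le
    have hs0 : √(n:ℝ) ≠ 0 := (Real.sqrt_pos.mpr hn0).ne'
    unfold cP
    rw [hh]; dsimp only
    rw [mul_pow, mul_pow, div_pow, div_pow, hs]
    field_simp
    ring
  have hsplit : 1 / 2 * ∑ n ∈ Finset.Icc 2 N, cP ψ T n ^ 2 =
      2 * (1 / Real.log T * ∑ n ∈ Finset.Ioc 0 ⌊T⌋₊, Λ n / n * h (Real.log n / Real.log T)) -
      2 / Real.log T ^ 2 * ∑ n ∈ Finset.Ioc 0 ⌊T⌋₊,
        (Λ n * (Real.log n - Λ n) / n * ψ (Real.log n / Real.log T) ^ 2) := by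
    rw [hd, Finset.sum_congr rfl hterm, Finset.sum_sub_distrib, ← Finset.mul_sum, ← Finset.mul_sum,
      ← Finset.mul_sum]
  have herr : |∑ n ∈ Finset.Ioc 0 ⌊T⌋₊,
        (Λ n * (Real.log n - Λ n) / n * ψ (Real.log n / Real.log T) ^ 2)| ≤
      K2 * Cn * Real.log T := by
    have h2 := hCn ⌊T⌋₊
    rw [Finset.sum_filter] at h2
    refine (Finset.abs_sum_le_sum_abs _ _).trans ?_
    have h3 : ∀ n ∈ Finset.Ioc 0 ⌊T⌋₊,
        |Λ n * (Real.log n - Λ n) / n * ψ (Real.log n / Real.log T) ^ 2| ≤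
        (K2 * Real.log T) * (if ¬ n.Prime then Λ n / n else 0) := by
      intro n hn
      simp only [Finset.mem_Ioc] at hn
      have hn0 : (0:ℝ) < n := by exact_mod_cast hn.1
      have hnT : (n:ℝ) ≤ T := (Nat.le_floor_iff (by linarith)).mp hn.2
      have hl0 : (0:ℝ) ≤ Λ n := ArithmeticFunction.vonMangoldt_nonneg
      have hl1 : Λ n ≤ Real.log n := ArithmeticFunction.vonMangoldt_le_log
      have hlT : Real.log n ≤ Real.log T := Real.log_le_log hn0 hnT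
      by_cases hp : n.Prime
      · rw [if_neg (by simpa using hp), ArithmeticFunction.vonMangoldt_apply_prime hp]
        simp
      · rw [if_pos hp]
        have hv : Real.log n / Real.log T ∈ Icc (0:ℝ) 1 :=
          ⟨div_nonneg (Real.log_natCast_nonneg n) hL.le, (div_le_one hL).mpr hlT⟩
        have h4 := hK2 _ hv
        rw [Pi.pow_apply, norm_pow, Real.norm_eq_abs, sq_abs] at h4
        rw [abs_of_nonneg (by
          have : 0 ≤ Real.log n - Λ n := by linarith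
          positivity)]
        calc Λ n * (Real.log n - Λ n) / n * ψ (Real.log n / Real.log T) ^ 2
            ≤ Λ n * (Real.log T) / n * K2 := by
              gcongr
              linarith
          _ = _ := by ring
    refine (Finset.sum_le_sum h3).trans ?_
    rw [← Finset.mul_sum]
    calc K2 * Real.log T * ∑ n ∈ Finset.Ioc 0 ⌊T⌋₊, (if ¬ n.Prime then Λ n / n else 0)
        ≤ K2 * Real.log T * Cn := by gcongr
      _ = _ := by ring
  rw [hsplit]
  set S1 := 1 / Real.log T * ∑ n ∈ Finset.Ioc 0 ⌊T⌋₊, Λ n / n * h (Real.log n / Real.log T) with hS1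
  set S2 := ∑ n ∈ Finset.Ioc 0 ⌊T⌋₊,
        (Λ n * (Real.log n - Λ n) / n * ψ (Real.log n / Real.log T) ^ 2) with hS2
  have h5 : 2 * S1 - 2 / Real.log T ^ 2 * S2 - 2 * ∫ v in (0:ℝ)..1, v * ψ v ^ 2 =
      2 * (S1 - ∫ v in (0:ℝ)..1, h v) - 2 / Real.log T ^ 2 * S2 := by
    rw [hh]; ring
  rw [h5]
  refine (abs_sub _ _).trans ?_
  rw [abs_mul, abs_mul, abs_of_pos (by norm_num : (0:ℝ) < 2),
    abs_of_pos (by positivity : 0 < 2 / Real.log T ^ 2)]
  have h6 : 2 / Real.log T ^ 2 * |S2| ≤ 2 / Real.log T ^ 2 * (K2 * Cn * Real.log T) := by gcongr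
  have h7 : 2 / Real.log T ^ 2 * (K2 * Cn * Real.log T) = 2 * (K2 * Cn) / Real.log T := by
    field_simp
  have h8 : 2 * |S1 - ∫ v in (0:ℝ)..1, h v| ≤ 2 * (7 * K / Real.log T) := by gcongr
  have h9 : 2 * (7 * K / Real.log T) = 14 * K / Real.log T := by ring
  have h10 : (14 * K + 2 * (K2 * Cn)) / Real.log T = 14 * K / Real.log T + 2 * (K2 * Cn) / Real.log T := by
    ring
  linarith

lemma tendsto_rpow_neg {a : ℝ} (ha : 0 < a) (C : ℝ) :
    Tendsto (fun T : ℝ => C * T ^ (-a)) atTop (𝓝 0) := by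
  have := (tendsto_rpow_neg_atTop ha).const_mul C
  simpa using this

/-- The mean square of `ψ(0) - PP`. -/
theorem statementD (ψ : ℝ → ℝ) (hsm : ContDiff ℝ 1 ψ) (heven : ∀ v, ψ (-v) = ψ v)
    (hψ : ∀ v, 1/8 < |v| → ψ v = 0) :
    Tendsto (fun T : ℝ => T⁻¹ * ∫ t in (0:ℝ)..T, (ψ 0 - PP ψ T t) ^ 2) atTop
      (𝓝 (ψ 0 ^ 2 + ∫ v, |v| * ψ v ^ 2)) := by
  obtain ⟨C, hC⟩ := diag_bound hsm hψ
  have hcs : HasCompactSupport ψ := by
    apply HasCompactSupport.intro (isCompact_Icc (a := -(1/8)) (b := 1/8))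
    intro v hv
    apply hψ
    by_contra h
    push Not at h
    exact hv (abs_le.mp h)
  obtain ⟨K, hK⟩ := hsm.continuous.bounded_above_of_compact_support hcs
  have hK' : ∀ v, |ψ v| ≤ K := fun v => by simpa using hK v
  have hK0 : 0 ≤ K := (abs_nonneg _).trans (hK' 0)
  -- the limit
  have hlim : ∫ v, |v| * ψ v ^ 2 = 2 * ∫ v in (0:ℝ)..1, v * ψ v ^ 2 := by
    have hvan : ∀ v : ℝ, 1 ≤ v → v * ψ v ^ 2 = 0 := by
      intro v hv
      rw [hψ v (by rw [abs_of_nonneg (by linarith)]; linarith)]; ring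
    have h1 := integral_comp_abs (f := fun v => v * ψ v ^ 2)
    have h2 : ∀ v : ℝ, |v| * ψ |v| ^ 2 = |v| * ψ v ^ 2 := by
      intro v
      rcases abs_choice v with h | h
      · rw [h]
      · rw [h, heven]
    simp_rw [h2] at h1
    rw [h1, intervalIntegral.integral_of_le zero_le_one]
    congr 1
    apply setIntegral_eq_of_subset_of_forall_sdiff_eq_zero measurableSet_Ioi Ioc_subset_Ioi_self
    intro v hv
    apply hvan
    by_contra h
    push Not at h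
    exact hv.2 ⟨hv.1, h.le⟩
  rw [hlim]
  set I0 := ∫ v in (0:ℝ)..1, v * ψ v ^ 2 with hI0
  -- error bound
  have hmain : ∀ T : ℝ, 1 < T →
      |T⁻¹ * (∫ t in (0:ℝ)..T, (ψ 0 - PP ψ T t) ^ 2) - (ψ 0 ^ 2 + 2 * I0)| ≤
        C / Real.log T + 8 * K ^ 2 * T ^ (-(7/8) : ℝ) + 4 * K ^ 2 * T ^ (-(5/8) : ℝ) := by
    intro T hT
    have hT0 : 0 < T := by linarith
    have hPc : Continuous (fun t => PP ψ T t) := by
      simp_rw [PP_eq hψ hT]
      apply continuous_finsetSum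
      intro n _
      fun_prop
    have h1 : ∫ t in (0:ℝ)..T, (ψ 0 - PP ψ T t) ^ 2 =
        ψ 0 ^ 2 * T - 2 * ψ 0 * (∫ t in (0:ℝ)..T, PP ψ T t) + ∫ t in (0:ℝ)..T, PP ψ T t ^ 2 := by
      have e1 : ∀ t, (ψ 0 - PP ψ T t) ^ 2 = (ψ 0 ^ 2 - 2 * ψ 0 * PP ψ T t) + PP ψ T t ^ 2 := by
        intro t; ring
      simp_rw [e1]
      rw [intervalIntegral.integral_add, intervalIntegral.integral_sub,
        intervalIntegral.integral_const, intervalIntegral.integral_const_mul]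
      · simp; ring
      · exact intervalIntegrable_const
      · exact (hPc.const_mul _).intervalIntegrable _ _
      · exact (continuous_const.sub (hPc.const_mul _)).intervalIntegrable _ _
      · exact (hPc.pow 2).intervalIntegrable _ _
    have h2 := mean_PP hψ hK' hT
    have h3 := mean_PP_sq hψ hK' hT
    have h4 := hC T hT
    set A := ∫ t in (0:ℝ)..T, PP ψ T t with hA
    set B := ∫ t in (0:ℝ)..T, PP ψ T t ^ 2 with hB
    set S := ∑ n ∈ Finset.Icc 2 ⌊T ^ (1/8 : ℝ)⌋₊, cP ψ T n ^ 2 with hS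
    rw [h1]
    have h5 : T⁻¹ * (ψ 0 ^ 2 * T - 2 * ψ 0 * A + B) - (ψ 0 ^ 2 + 2 * I0) =
        (1 / 2 * S - 2 * I0) + (- (T⁻¹ * (2 * ψ 0 * A))) + T⁻¹ * (B - T / 2 * S) := by
      field_simp; ring
    rw [h5]
    refine (abs_add_three _ _ _).trans ?_
    have h6 : |(- (T⁻¹ * (2 * ψ 0 * A)))| ≤ 8 * K ^ 2 * T ^ (-(7/8) : ℝ) := by
      rw [abs_neg, abs_mul, abs_mul, abs_mul, abs_of_pos (inv_pos.mpr hT0),
        abs_of_pos (by norm_num : (0:ℝ) < 2)]
      calc T⁻¹ * (2 * |ψ 0| * |A|) ≤ T⁻¹ * (2 * K * (4 * K * T ^ (1/8 : ℝ))) := by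
            gcongr; exact hK' 0
        _ = 8 * K ^ 2 * (T ^ (1/8 : ℝ) * T⁻¹) := by ring
        _ = 8 * K ^ 2 * T ^ (-(7/8) : ℝ) := by
            rw [← Real.rpow_neg_one T, ← Real.rpow_add hT0]; norm_num
    have h7 : |T⁻¹ * (B - T / 2 * S)| ≤ 4 * K ^ 2 * T ^ (-(5/8) : ℝ) := by
      rw [abs_mul, abs_of_pos (inv_pos.mpr hT0)]
      calc T⁻¹ * |B - T / 2 * S| ≤ T⁻¹ * (4 * K ^ 2 * T ^ (3/8 : ℝ)) := by gcongr
        _ = 4 * K ^ 2 * (T ^ (3/8 : ℝ) * T⁻¹) := by ring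
        _ = 4 * K ^ 2 * T ^ (-(5/8) : ℝ) := by
            rw [← Real.rpow_neg_one T, ← Real.rpow_add hT0]; norm_num
    linarith
  have hlim2 : Tendsto (fun T : ℝ => C / Real.log T + 8 * K ^ 2 * T ^ (-(7/8) : ℝ) +
      4 * K ^ 2 * T ^ (-(5/8) : ℝ)) atTop (𝓝 0) := by
    have e1 : Tendsto (fun T : ℝ => C / Real.log T) atTop (𝓝 0) :=
      Tendsto.div_atTop tendsto_const_nhds Real.tendsto_log_atTop
    have e2 := tendsto_rpow_neg (a := 7/8) (by norm_num) (8 * K ^ 2)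
    have e3 := tendsto_rpow_neg (a := 5/8) (by norm_num) (4 * K ^ 2)
    have := (e1.add e2).add e3
    simpa using this
  rw [tendsto_iff_norm_sub_tendsto_zero]
  refine squeeze_zero' (Eventually.of_forall fun T => norm_nonneg _) ?_ hlim2
  filter_upwards [eventually_gt_atTop 1] with T hT
  rw [Real.norm_eq_abs]
  exact hmain T hT

theorem statementD_smooth (ψ : ℝ → ℝ) (hsm : ContDiff ℝ (⊤ : ℕ∞) ψ) (heven : ∀ v, ψ (-v) = ψ v)
    (hψ : ∀ v, 1/8 < |v| → ψ v = 0) :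
    Tendsto (fun T : ℝ => T⁻¹ * ∫ t in (0:ℝ)..T, (ψ 0 - PP ψ T t) ^ 2) atTop
      (𝓝 (ψ 0 ^ 2 + ∫ v, |v| * ψ v ^ 2)) :=
  statementD ψ (hsm.of_le (by exact_mod_cast le_top)) heven hψ

/-- (D), in the form of `PB_Statement`. -/
theorem statementD_closed : StatementD :=
  fun ψ h heven => statementD_smooth ψ h.smooth heven h.supp

end Pool.Agent.PairCorr
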