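import Mathlib

/-!
# Functions with exponential decay and vanishing odd moments
-/

set_option autoImplicit false

namespace Pool.Agent.PairCorr

open MeasureTheory Filter Topology Set ProbabilityTheory
open scoped ENNReal

/-- The symmetric density. -/
noncomputable def sdens (H : ℝ → ℝ) (x : ℝ) : ℝ := |x| * max (H |x|) 0

lemma sdens_nonneg (H : ℝ → ℝ) (x : ℝ) : 0 ≤ sdens H x := by unfold sdens; positivity

lemma sdens_measurable {H : ℝ → ℝ} (hH : Measurable H) : Measurable (sdens H) := by
  unfold sdens
  have h1 : Measurable (fun x : ℝ => |x|) := by fun_prop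
  exact h1.mul ((hH.comp h1).max measurable_const)

lemma sdens_le (H : ℝ → ℝ) (x : ℝ) : sdens H x ≤ |x| * abs (H |x|) := by
  unfold sdens
  gcongr
  exact max_le (le_abs_self _) (abs_nonneg _)

/-- The symmetric measure. -/
noncomputable def smeas (H : ℝ → ℝ) : Measure ℝ :=
  (volume : Measure ℝ).withDensity (fun x => ENNReal.ofReal (sdens H x))

section
variable {H : ℝ → ℝ} {z : ℝ}

lemma integrable_abs_of_Ioi {f : ℝ → ℝ} (hf : IntegrableOn f (Ioi 0)) :
    Integrable (fun x => f |x|) := by
  have h1 : IntegrableOn (fun x => f |x|) (Ioi 0) := by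
    refine hf.congr_fun (fun x hx => ?_) measurableSet_Ioi
    rw [abs_of_pos (show (0:ℝ) < x from hx)]
  have h2 : IntegrableOn (fun x => f |x|) (Iic 0) := by
    rw [← Measure.map_neg_eq_self (volume : Measure ℝ)]
    let m : MeasurableEmbedding fun x : ℝ => -x := (Homeomorph.neg ℝ).measurableEmbedding
    rw [m.integrableOn_map_iff]
    simp_rw [Function.comp_def, abs_neg, neg_preimage, neg_Iic, neg_zero]
    exact Iff.mpr integrableOn_Ici_iff_integrableOn_Ioi h1
  rw [← integrableOn_univ, ← Iic_union_Ioi (a := (0:ℝ))]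
  exact h2.union h1

lemma integrable_exp_sdens (hHm : Measurable H)
    (hint : IntegrableOn (fun u => u * Real.exp (z * u) * |H u|) (Ioi 0)) {t : ℝ}
    (ht : |t| ≤ z) : Integrable (fun x => Real.exp (t * x) * sdens H x) := by
  have h1 := integrable_abs_of_Ioi hint
  refine Integrable.mono' h1 ?_ (Eventually.of_forall fun x => ?_)
  · have h2 := sdens_measurable hHm
    have h3 : Measurable (fun x => Real.exp (t * x)) := by fun_prop
    exact (h3.mul h2).aestronglyMeasurable
  · rw [Real.norm_of_nonneg (mul_nonneg (Real.exp_pos _).le (sdens_nonneg _ _))]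
    have h3 : Real.exp (t * x) ≤ Real.exp (z * |x|) := by
      apply Real.exp_le_exp.mpr
      calc t * x ≤ |t * x| := le_abs_self _
        _ = |t| * |x| := abs_mul _ _
        _ ≤ z * |x| := by gcongr
    calc Real.exp (t * x) * sdens H x ≤ Real.exp (z * |x|) * (|x| * abs (H |x|)) :=
          mul_le_mul h3 (sdens_le H x) (sdens_nonneg H x) (Real.exp_pos _).le
      _ = _ := by ring

lemma smeas_integrable_exp (hHm : Measurable H)
    (hint : IntegrableOn (fun u => u * Real.exp (z * u) * |H u|) (Ioi 0)) {t : ℝ}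
    (ht : |t| ≤ z) : Integrable (fun x => Real.exp (t * x)) (smeas H) := by
  unfold smeas
  have hm : Measurable (fun x => ENNReal.ofReal (sdens H x)) := (sdens_measurable hHm).ennreal_ofReal
  rw [integrable_withDensity_iff hm (Eventually.of_forall fun x => ENNReal.ofReal_lt_top)]
  refine (integrable_exp_sdens hHm hint ht).congr (Eventually.of_forall fun x => ?_)
  dsimp only
  rw [ENNReal.toReal_ofReal (sdens_nonneg _ _)]

lemma smeas_finite (hz : 0 < z) (hHm : Measurable H)
    (hint : IntegrableOn (fun u => u * Real.exp (z * u) * |H u|) (Ioi 0)) :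
    IsFiniteMeasure (smeas H) := by
  have h := smeas_integrable_exp hHm hint (t := 0) (by simpa using hz.le)
  simp only [zero_mul, Real.exp_zero] at h
  exact (integrable_const_iff_isFiniteMeasure one_ne_zero).mp h

lemma smeas_expSet (hHm : Measurable H)
    (hint : IntegrableOn (fun u => u * Real.exp (z * u) * |H u|) (Ioi 0)) {t : ℝ}
    (ht : t ∈ Ioo (-z) z) : t ∈ interior (integrableExpSet id (smeas H)) := by
  rw [mem_interior]
  refine ⟨Ioo (-z) z, ?_, isOpen_Ioo, ht⟩
  intro s hs
  exact smeas_integrable_exp hHm hint (abs_le.mpr ⟨hs.1.le, hs.2.le⟩)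

lemma smeas_integral (hHm : Measurable H) (f : ℝ → ℂ) :
    ∫ x, f x ∂(smeas H) = ∫ x, (sdens H x : ℂ) * f x := by
  unfold smeas
  have hm : Measurable (fun x => (sdens H x).toNNReal) := (sdens_measurable hHm).real_toNNReal
  have h1 : (fun x => ENNReal.ofReal (sdens H x)) = fun x => (((sdens H x).toNNReal : NNReal) : ℝ≥0∞) := by
    ext x; rfl
  rw [h1, integral_withDensity_eq_integral_smul hm]
  congr 1
  ext x
  rw [NNReal.smul_def, Real.coe_toNNReal _ (sdens_nonneg _ _), Complex.real_smul]

/-- Moments. -/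
lemma moments_eq (hz : 0 < z) (hHm : Measurable H)
    (hint : IntegrableOn (fun u => u * Real.exp (z * u) * |H u|) (Ioi 0))
    (hmom : ∀ n : ℕ, ∫ u in Ioi (0:ℝ), u ^ (2 * n + 1) * H u = 0) (n : ℕ) :
    ∫ x, ((x:ℂ)) ^ n ∂(smeas H) = ∫ x, ((x:ℂ)) ^ n ∂(smeas (fun u => - H u)) := by
  have hint' : IntegrableOn (fun u => u * Real.exp (z * u) * |(fun u => - H u) u|) (Ioi 0) := by
    simpa using hint
  have hHm' : Measurable (fun u => - H u) := hHm.neg
  have key : ∀ K : ℝ → ℝ, Measurable K →
      IntegrableOn (fun u => u * Real.exp (z * u) * |K u|) (Ioi 0) →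
      Integrable (fun x : ℝ => (sdens K x : ℂ) * (x:ℂ) ^ n) := by
    intro K hK hKi
    have h1 := smeas_expSet hK hKi (t := 0) ⟨by linarith, hz⟩
    have h2 := integrable_pow_of_mem_interior_integrableExpSet h1 n
    have h3 : Integrable (fun x : ℝ => ((x ^ n : ℝ) : ℂ)) (smeas K) := h2.ofReal
    unfold smeas at h3
    have hm : Measurable (fun x => ENNReal.ofReal (sdens K x)) := (sdens_measurable hK).ennreal_ofReal
    rw [integrable_withDensity_iff_integrable_smul' hm
      (Eventually.of_forall fun x => ENNReal.ofReal_lt_top)] at h3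
    refine h3.congr (Eventually.of_forall fun x => ?_)
    dsimp only
    rw [ENNReal.toReal_ofReal (sdens_nonneg _ _), Complex.real_smul]
    push_cast; ring
  rw [smeas_integral hHm, smeas_integral hHm', ← sub_eq_zero,
    ← integral_sub (key H hHm hint) (key _ hHm' hint')]
  have h1 : ∀ x : ℝ, (sdens H x : ℂ) * (x:ℂ) ^ n - (sdens (fun u => - H u) x : ℂ) * (x:ℂ) ^ n =
      ((|x| * H |x| * x ^ n : ℝ) : ℂ) := by
    intro x
    have h2 : sdens H x - sdens (fun u => - H u) x = |x| * H |x| := by
      unfold sdens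
      rw [← mul_sub]
      congr 1
      rcases le_total (H |x|) 0 with h | h
      · rw [max_eq_right h, max_eq_left (by linarith)]; ring
      · rw [max_eq_left h, max_eq_right (by linarith)]; ring
    rw [← h2]; push_cast; ring
  simp_rw [h1]
  rw [integral_complex_ofReal, Complex.ofReal_eq_zero]
  rcases Nat.even_or_odd n with hn | hn
  · have h2 : ∀ x : ℝ, |x| * H |x| * x ^ n = (fun u : ℝ => u ^ (n + 1) * H u) |x| := by
      intro x
      dsimp only
      rw [← hn.pow_abs x]; ring
    simp_rw [h2]
    rw [integral_comp_abs (f := fun u : ℝ => u ^ (n + 1) * H u)]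
    obtain ⟨k, hk⟩ := hn
    have h3 := hmom k
    rw [show 2 * k + 1 = n + 1 by omega] at h3
    rw [h3, mul_zero]
  · have h2 : ∫ x : ℝ, |x| * H |x| * x ^ n = - ∫ x : ℝ, |x| * H |x| * x ^ n := by
      rw [← integral_neg]
      rw [← integral_neg_eq_self]
      congr 1
      ext x
      rw [abs_neg, hn.neg_pow]
      ring
    linarith

/-- A function with exponential decay on average and vanishing odd moments is zero. -/
theorem ae_zero_of_odd_moments (hz : 0 < z) (hHm : Measurable H)
    (hint : IntegrableOn (fun u => u * Real.exp (z * u) * |H u|) (Ioi 0))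
    (hmom : ∀ n : ℕ, ∫ u in Ioi (0:ℝ), u ^ (2 * n + 1) * H u = 0) :
    ∀ᵐ u ∂(volume.restrict (Ioi (0:ℝ))), H u = 0 := by
  have hint' : IntegrableOn (fun u => u * Real.exp (z * u) * |(fun u => - H u) u|) (Ioi 0) := by
    simpa using hint
  have hHm' : Measurable (fun u => - H u) := hHm.neg
  have := smeas_finite hz hHm hint
  have := smeas_finite hz hHm' hint'
  set μ := smeas H with hμ
  set ν := smeas (fun u => - H u) with hν
  have hS1 : ∀ w : ℂ, w.re ∈ Ioo (-z) z → w.re ∈ interior (integrableExpSet id μ) :=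
    fun w hw => smeas_expSet hHm hint hw
  have hS2 : ∀ w : ℂ, w.re ∈ Ioo (-z) z → w.re ∈ interior (integrableExpSet id ν) :=
    fun w hw => smeas_expSet hHm' hint' hw
  set S : Set ℂ := {w : ℂ | w.re ∈ Ioo (-z) z} with hS
  have hA1 : AnalyticOnNhd ℂ (complexMGF id μ) S := fun w hw => analyticAt_complexMGF (hS1 w hw)
  have hA2 : AnalyticOnNhd ℂ (complexMGF id ν) S := fun w hw => analyticAt_complexMGF (hS2 w hw)
  have h0 : (0:ℂ) ∈ S := by
    show (0:ℂ).re ∈ Ioo (-z) z
    simp [hz]
  have hconn : IsPreconnected S := by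
    have : S = Complex.reLm ⁻¹' (Ioo (-z) z) := rfl
    rw [this]
    exact ((convex_Ioo (-z) z).linear_preimage Complex.reLm).isPreconnected
  -- iterated derivatives agree
  have hder : ∀ n : ℕ, iteratedDeriv n (complexMGF id μ) 0 = iteratedDeriv n (complexMGF id ν) 0 := by
    intro n
    rw [iteratedDeriv_complexMGF (hS1 0 h0), iteratedDeriv_complexMGF (hS2 0 h0)]
    simp only [id_eq, zero_mul, Complex.exp_zero, mul_one]
    exact moments_eq hz hHm hint hmom n
  have hev : complexMGF id μ =ᶠ[𝓝 0] complexMGF id ν := by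
    have e1 := (hA1 0 h0).hasFPowerSeriesAt
    have e2 := (hA2 0 h0).hasFPowerSeriesAt
    have e3 := e1.sub e2
    have e4 : (FormalMultilinearSeries.ofScalars ℂ (fun n => iteratedDeriv n (complexMGF id μ) 0 / n.factorial) -
        FormalMultilinearSeries.ofScalars ℂ (fun n => iteratedDeriv n (complexMGF id ν) 0 / n.factorial) :
        FormalMultilinearSeries ℂ ℂ ℂ) = 0 := by
      rw [sub_eq_zero]
      congr 1
      ext n
      rw [hder n]
    rw [e4] at e3
    filter_upwards [e3.eventually_eq_zero] with w hw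
    have : complexMGF id μ w - complexMGF id ν w = 0 := hw
    exact sub_eq_zero.mp this
  have hEq : EqOn (complexMGF id μ) (complexMGF id ν) S :=
    hA1.eqOn_of_preconnected_of_eventuallyEq hA2 hconn h0 hev
  have hmeas : μ = ν := by
    apply Measure.ext_of_charFun
    ext t
    rw [← complexMGF_id_mul_I, ← complexMGF_id_mul_I]
    apply hEq
    show ((t:ℂ) * Complex.I).re ∈ Ioo (-z) z
    simp [hz]
  have hfin : ∫⁻ x, ENNReal.ofReal (sdens H x) ≠ ∞ := by
    have h1 : μ univ = ∫⁻ x, ENNReal.ofReal (sdens H x) := by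
      rw [hμ, smeas, withDensity_apply _ MeasurableSet.univ, Measure.restrict_univ]
    rw [← h1]
    exact measure_ne_top μ univ
  have hae := (withDensity_eq_iff (μ := (volume : Measure ℝ))
    (sdens_measurable hHm).ennreal_ofReal.aemeasurable
    (sdens_measurable hHm').ennreal_ofReal.aemeasurable hfin).mp hmeas
  rw [ae_restrict_iff' measurableSet_Ioi]
  filter_upwards [hae] with x hx hx0
  have hx0' : (0:ℝ) < x := hx0
  have h1 : sdens H x = sdens (fun u => - H u) x := by
    have := congrArg ENNReal.toReal hx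
    rwa [ENNReal.toReal_ofReal (sdens_nonneg _ _), ENNReal.toReal_ofReal (sdens_nonneg _ _)] at this
  unfold sdens at h1
  rw [abs_of_pos hx0'] at h1
  have h2 := mul_left_cancel₀ hx0'.ne' h1
  rcases le_total (H x) 0 with h | h
  · rw [max_eq_right h, max_eq_left (by linarith)] at h2
    linarith
  · rw [max_eq_left h, max_eq_right (by linarith)] at h2
    exact h2

end

end Pool.Agent.PairCorr
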