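import Mathlib
import Pool.Agent.PairCorr.F_OddMoments
import Pool.Agent.PairCorr.F_Rigidity

/-!
# Uniqueness for limit functions with a spectral gap and an exponentially small negative part
-/

set_option autoImplicit false

namespace Pool.Agent.PairCorr

open MeasureTheory Filter Topology Set
open scoped ENNReal

/-- `∫_0^∞ u^{2n+1} e^{-cu} du`. -/
noncomputable def EE (c : ℝ) (n : ℕ) : ℝ := ∫ u in Ioi (0:ℝ), u ^ (2 * n + 1) * Real.exp (-(c * u))

lemma EE_integrable {c : ℝ} (hc : 0 < c) (k : ℕ) :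
    IntegrableOn (fun u : ℝ => u ^ k * Real.exp (-(c * u))) (Ioi 0) := by
  have h := integrableOn_rpow_mul_exp_neg_mul_rpow (p := 1) (s := k) (b := c)
    (by have : (0:ℝ) ≤ k := by positivity
        linarith) one_pos hc
  refine h.congr_fun (fun u _ => ?_) measurableSet_Ioi
  dsimp only
  rw [Real.rpow_natCast, Real.rpow_one, neg_mul]

lemma EE_eq {c : ℝ} (hc : 0 < c) (n : ℕ) :
    EE c n = (2 * n + 1).factorial * (1 / c) ^ (2 * n + 2) := by
  unfold EE
  have h := Real.integral_rpow_mul_exp_neg_mul_Ioi (a := ((2 * n + 1 : ℕ) : ℝ) + 1) (r := c)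
    (by positivity) hc
  rw [Real.Gamma_nat_eq_factorial] at h
  rw [add_sub_cancel_right] at h
  have h2 : (1 / c) ^ (2 * n + 2) = (1 / c) ^ (((2 * n + 1 : ℕ) : ℝ) + 1) := by
    rw [← Real.rpow_natCast]
    congr 1
    push_cast; ring
  rw [h2, mul_comm ((2 * n + 1).factorial : ℝ), ← h]
  refine setIntegral_congr_fun measurableSet_Ioi fun u _ => ?_
  rw [Real.rpow_natCast]

lemma EE_nonneg {c : ℝ} (hc : 0 < c) (n : ℕ) : 0 ≤ EE c n := by
  rw [EE_eq hc]; positivity

lemma summable_EE {c z : ℝ} (hc : 0 < c) (hz : 0 < z) (hzc : z < c) :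
    Summable (fun n : ℕ => z ^ (2 * n) / (2 * n).factorial * EE c n) := by
  have hx : |(z / c) ^ 2| < 1 := by
    rw [abs_of_nonneg (by positivity)]
    have : z / c < 1 := by rw [div_lt_one hc]; exact hzc
    have h0 : 0 ≤ z / c := by positivity
    nlinarith
  have h1 := summable_pow_mul_geometric_of_norm_lt_one (R := ℝ) 1 (r := (z / c) ^ 2)
    (by rwa [Real.norm_eq_abs])
  have h0 := summable_pow_mul_geometric_of_norm_lt_one (R := ℝ) 0 (r := (z / c) ^ 2)
    (by rwa [Real.norm_eq_abs])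
  have h2 := ((h1.mul_left (2 / c ^ 2)).add (h0.mul_left (1 / c ^ 2)))
  refine h2.congr fun n => ?_
  rw [EE_eq hc, Nat.factorial_succ]
  have hf : ((2 * n).factorial : ℝ) ≠ 0 := by positivity
  have e : ((z / c) ^ 2) ^ n = z ^ (2 * n) / c ^ (2 * n) := by
    rw [← pow_mul, div_pow]
  rw [e]
  push_cast
  rw [div_pow, one_pow, pow_add c (2 * n) 2]
  field_simp

lemma summable_cosh_coeff (z A : ℝ) :
    Summable (fun n : ℕ => z ^ (2 * n) / (2 * n).factorial * A ^ (2 * n + 1)) := by
  have h := (Real.hasSum_cosh (z * A)).summable.mul_right A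
  refine h.congr fun n => ?_
  rw [mul_pow, pow_succ]; ring

section
variable {g H : ℝ → ℝ} {C A B c η₀ : ℝ}

lemma qw_decay2 (hgdecay : ∀ N : ℕ, ∃ K, ∀ u ≥ 0, u ^ N * g u ≤ K) (n : ℕ) {η : ℝ} (hη : 0 < η) :
    ∃ K, 0 ≤ K ∧ ∀ u ≥ 0, qw g n η u * (1 + u) ^ 2 ≤ K * (1 + u ^ 2)⁻¹ := by
  have key : ∀ N : ℕ, ∃ K, ∀ u ≥ 0, u ^ N * g (η * u) ≤ K := by
    intro N
    obtain ⟨K, hK⟩ := hgdecay N
    refine ⟨K / η ^ N, fun u hu => ?_⟩
    have := hK (η * u) (by positivity)
    rw [le_div_iff₀ (by positivity)]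
    calc u ^ N * g (η * u) * η ^ N = (η * u) ^ N * g (η * u) := by ring
      _ ≤ K := this
  obtain ⟨K1, h1⟩ := key (2 * n + 1)
  obtain ⟨K2, h2⟩ := key (2 * n + 2)
  obtain ⟨K3, h3⟩ := key (2 * n + 3)
  obtain ⟨K4, h4⟩ := key (2 * n + 4)
  obtain ⟨K5, h5⟩ := key (2 * n + 5)
  refine ⟨|K1| + 2 * |K2| + 2 * |K3| + 2 * |K4| + |K5|, by positivity, fun u hu => ?_⟩
  rw [← div_eq_mul_inv, le_div_iff₀ (by positivity)]
  have e : qw g n η u * (1 + u) ^ 2 * (1 + u ^ 2) =
      u ^ (2 * n + 1) * g (η * u) + 2 * (u ^ (2 * n + 2) * g (η * u)) +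
      2 * (u ^ (2 * n + 3) * g (η * u)) + 2 * (u ^ (2 * n + 4) * g (η * u)) +
      u ^ (2 * n + 5) * g (η * u) := by
    unfold qw; ring
  rw [e]
  have := h1 u hu
  have := h2 u hu
  have := h3 u hu
  have := h4 u hu
  have := h5 u hu
  have := le_abs_self K1
  have := le_abs_self K2
  have := le_abs_self K3
  have := le_abs_self K4
  have := le_abs_self K5
  linarith

lemma qw_int2 (hg0 : ∀ u, 0 ≤ g u) (hgc : Continuous g)
    (hgdecay : ∀ N : ℕ, ∃ K, ∀ u ≥ 0, u ^ N * g u ≤ K) (n : ℕ) {η : ℝ} (hη : 0 < η) :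
    IntegrableOn (fun u => qw g n η u * (1 + u) ^ 2) (Ioi 0) := by
  obtain ⟨K, hK0, hK⟩ := qw_decay2 hgdecay n hη
  have hI : IntegrableOn (fun u : ℝ => K * (1 + u ^ 2)⁻¹) (Ioi 0) :=
    (integrable_inv_one_add_sq.const_mul K).integrableOn
  refine Integrable.mono' hI ?_ ?_
  · exact ((qw_cont hgc n η).mul (by fun_prop)).aestronglyMeasurable
  · filter_upwards [ae_restrict_mem measurableSet_Ioi] with u hu
    have hu' : (0:ℝ) ≤ u := le_of_lt hu
    rw [Real.norm_of_nonneg (mul_nonneg (qw_nonneg hg0 n η hu') (by positivity))]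
    exact hK u hu'

lemma qwH_int2 (hg0 : ∀ u, 0 ≤ g u) (hgc : Continuous g)
    (hgdecay : ∀ N : ℕ, ∃ K, ∀ u ≥ 0, u ^ N * g u ≤ K) (n : ℕ) {η : ℝ} (hη : 0 < η)
    {H : ℝ → ℝ} (hHm : Measurable H) {C : ℝ} (hHb : ∀ u ≥ 0, |H u| ≤ C * (1 + u) ^ 2) :
    IntegrableOn (fun u => qw g n η u * H u) (Ioi 0) := by
  refine Integrable.mono' ((qw_int2 hg0 hgc hgdecay n hη).const_mul C) ?_ ?_
  · exact ((qw_cont hgc n η).measurable.mul hHm).aestronglyMeasurable
  · filter_upwards [ae_restrict_mem measurableSet_Ioi] with u hu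
    have hu' : (0:ℝ) ≤ u := le_of_lt hu
    rw [norm_mul, Real.norm_of_nonneg (qw_nonneg hg0 n η hu')]
    have := mul_le_mul_of_nonneg_left (hHb u hu') (qw_nonneg hg0 n η hu')
    rw [Real.norm_eq_abs]
    nlinarith

/-- Fatou step. -/
lemma fatou_step (hHm : Measurable H) (hHb : ∀ u ≥ 0, |H u| ≤ C * (1 + u) ^ 2)
    (hg0 : ∀ u, 0 ≤ g u) (hgc : Continuous g) (hg1 : g 0 = 1)
    (hgdecay : ∀ N : ℕ, ∃ K, ∀ u ≥ 0, u ^ N * g u ≤ K) (hη₀ : 0 < η₀)
    (hii : ∀ n : ℕ, ∀ η ∈ Ioo 0 η₀, ∫ u in Ioi 0, qw g n η u * H u = 0)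
    (hA : 0 ≤ A) (hB : 0 ≤ B) (hc : 0 < c)
    (hi : ∀ u ≥ A, -(B * Real.exp (-(c * u))) ≤ H u) :
    ∃ M : ℝ, 0 ≤ M ∧ (∀ u ≥ 0, g u ≤ M) ∧ ∀ n : ℕ,
      ∫⁻ u in Ioi A, ENNReal.ofReal (u ^ (2 * n + 1) * (H u + B * Real.exp (-(c * u)))) ≤
        ENNReal.ofReal (M * (C * (1 + A) ^ 2 * A * A ^ (2 * n + 1) + B * EE c n)) := by
  obtain ⟨M, hM⟩ := hgdecay 0
  have hM' : ∀ u ≥ 0, g u ≤ M := fun u hu => by simpa using hM u hu
  have hM0 : 0 ≤ M := (hg0 0).trans (hM' 0 le_rfl)
  have hC0 : 0 ≤ C := by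
    have := (abs_nonneg _).trans (hHb 0 le_rfl)
    simpa using this
  refine ⟨M, hM0, hM', fun n => ?_⟩
  set F : ℝ → ℝ := fun u => H u + B * Real.exp (-(c * u)) with hF
  have hFm : Measurable F := hHm.add (by fun_prop)
  have hF0 : ∀ u ≥ A, 0 ≤ F u := fun u hu => by
    have := hi u hu
    rw [hF]; dsimp only; linarith
  -- pointwise limit
  have hlim : ∀ u : ℝ, Tendsto (fun η : ℝ => ENNReal.ofReal (qw g n η u * F u)) (𝓝[>] 0)
      (𝓝 (ENNReal.ofReal (u ^ (2 * n + 1) * F u))) := by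
    intro u
    apply ENNReal.tendsto_ofReal
    apply Tendsto.mul_const
    unfold qw
    have h1 : Tendsto (fun η : ℝ => g (η * u)) (𝓝[>] 0) (𝓝 (g 0)) := by
      have h2 : Continuous (fun η : ℝ => g (η * u)) := by fun_prop
      have h3 := h2.tendsto 0
      rw [zero_mul] at h3
      exact h3.mono_left nhdsWithin_le_nhds
    rw [hg1] at h1
    simpa using h1.const_mul (u ^ (2 * n + 1))
  have hbound : ∀ᶠ η in 𝓝[>] (0:ℝ), ∫⁻ u in Ioi A, ENNReal.ofReal (qw g n η u * F u) ≤
      ENNReal.ofReal (M * (C * (1 + A) ^ 2 * A * A ^ (2 * n + 1) + B * EE c n)) := by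
    have hev : ∀ᶠ η in 𝓝[>] (0:ℝ), η ∈ Ioo 0 η₀ := Ioo_mem_nhdsGT hη₀
    filter_upwards [hev] with η hη
    have hqH := qwH_int2 hg0 hgc hgdecay n hη.1 hHm hHb
    have hqe : IntegrableOn (fun u => qw g n η u * (B * Real.exp (-(c * u)))) (Ioi 0) := by
      refine Integrable.mono' (((EE_integrable hc (2 * n + 1)).const_mul (M * B))) ?_ ?_
      · exact ((qw_cont hgc n η).mul (by fun_prop)).aestronglyMeasurable
      · filter_upwards [ae_restrict_mem measurableSet_Ioi] with u hu
        have hu' : (0:ℝ) ≤ u := le_of_lt hu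
        rw [Real.norm_of_nonneg (mul_nonneg (qw_nonneg hg0 n η hu') (by positivity))]
        unfold qw
        have h1 := hM' (η * u) (mul_nonneg hη.1.le hu')
        calc u ^ (2 * n + 1) * g (η * u) * (B * Real.exp (-(c * u)))
            ≤ u ^ (2 * n + 1) * M * (B * Real.exp (-(c * u))) := by gcongr
          _ = _ := by ring
    have hsub : Ioi A ⊆ Ioi (0:ℝ) := Ioi_subset_Ioi hA
    have hqF : IntegrableOn (fun u => qw g n η u * F u) (Ioi A) := by
      refine ((hqH.mono_set hsub).add (hqe.mono_set hsub)).congr (Eventually.of_forall fun u => ?_)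
      rw [hF]; simp only [Pi.add_apply]; ring
    have hnn : 0 ≤ᵐ[volume.restrict (Ioi A)] fun u => qw g n η u * F u := by
      filter_upwards [ae_restrict_mem measurableSet_Ioi] with u hu
      have hu' : A ≤ u := le_of_lt hu
      exact mul_nonneg (qw_nonneg hg0 n η (hA.trans hu')) (hF0 u hu')
    rw [← ofReal_integral_eq_lintegral_ofReal hqF hnn]
    apply ENNReal.ofReal_le_ofReal
    have h1 : ∫ u in Ioi A, qw g n η u * F u = (∫ u in Ioi A, qw g n η u * H u) +
        ∫ u in Ioi A, qw g n η u * (B * Real.exp (-(c * u))) := by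
      rw [← integral_add (hqH.mono_set hsub) (hqe.mono_set hsub)]
      congr 1; ext u; rw [hF]; ring
    have h2 : ∫ u in Ioi A, qw g n η u * H u = - ∫ u in (0:ℝ)..A, qw g n η u * H u := by
      have h3 := intervalIntegral.integral_interval_add_Ioi (a := 0) (b := A)
        (f := fun u => qw g n η u * H u) hqH (hqH.mono_set hsub)
      rw [hii n η hη] at h3
      linarith
    have h3 : |∫ u in (0:ℝ)..A, qw g n η u * H u| ≤ A ^ (2 * n + 1) * M * (C * (1 + A) ^ 2) * |A - 0| := by
      rw [← Real.norm_eq_abs]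
      apply intervalIntegral.norm_integral_le_of_norm_le_const
      intro u hu
      rw [uIoc_of_le hA] at hu
      rw [norm_mul, Real.norm_of_nonneg (qw_nonneg hg0 n η hu.1.le), Real.norm_eq_abs]
      unfold qw
      have h4 := hM' (η * u) (mul_nonneg hη.1.le hu.1.le)
      have h5 := hHb u hu.1.le
      have h6 : |H u| ≤ C * (1 + A) ^ 2 := h5.trans
        (mul_le_mul_of_nonneg_left (pow_le_pow_left₀ (by linarith [hu.1]) (by linarith [hu.2]) 2) hC0)
      have h7 : u ^ (2 * n + 1) ≤ A ^ (2 * n + 1) := pow_le_pow_left₀ hu.1.le hu.2 _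
      have h8 := hg0 (η * u)
      have hu0 : 0 ≤ u := hu.1.le
      gcongr
    have h4 : ∫ u in Ioi A, qw g n η u * (B * Real.exp (-(c * u))) ≤ M * (B * EE c n) := by
      have h5 : ∫ u in Ioi A, qw g n η u * (B * Real.exp (-(c * u))) ≤
          ∫ u in Ioi (0:ℝ), qw g n η u * (B * Real.exp (-(c * u))) := by
        apply setIntegral_mono_set hqe
        · filter_upwards [ae_restrict_mem measurableSet_Ioi] with u hu
          have hu' : (0:ℝ) ≤ u := le_of_lt hu
          exact mul_nonneg (qw_nonneg hg0 n η hu') (by positivity)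
        · exact (Ioi_subset_Ioi hA).eventuallyLE
      refine h5.trans ?_
      have h6 : ∫ u in Ioi (0:ℝ), qw g n η u * (B * Real.exp (-(c * u))) ≤
          ∫ u in Ioi (0:ℝ), (M * B) * (u ^ (2 * n + 1) * Real.exp (-(c * u))) := by
        apply setIntegral_mono_on hqe ((EE_integrable hc (2 * n + 1)).const_mul (M * B))
          measurableSet_Ioi
        intro u hu
        have hu' : (0:ℝ) ≤ u := le_of_lt hu
        unfold qw
        have h1 := hM' (η * u) (mul_nonneg hη.1.le hu')
        calc u ^ (2 * n + 1) * g (η * u) * (B * Real.exp (-(c * u)))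
            ≤ u ^ (2 * n + 1) * M * (B * Real.exp (-(c * u))) := by gcongr
          _ = _ := by ring
      rw [integral_const_mul] at h6
      refine h6.trans (le_of_eq ?_)
      unfold EE; ring
    rw [h1, h2]
    have h5 := (abs_le.mp h3).1
    rw [sub_zero, abs_of_nonneg hA] at h5
    have h6 : M * (C * (1 + A) ^ 2 * A * A ^ (2 * n + 1) + B * EE c n) =
        A ^ (2 * n + 1) * M * (C * (1 + A) ^ 2) * A + M * (B * EE c n) := by ring
    rw [h6]
    linarith
  have hfat := lintegral_liminf_le (μ := volume.restrict (Ioi A)) (u := 𝓝[>] (0:ℝ))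
    (f := fun η u => ENNReal.ofReal (qw g n η u * F u)) (fun η => by
      apply Measurable.ennreal_ofReal
      exact (qw_cont hgc n η).measurable.mul hFm)
  have h1 : ∀ u, liminf (fun η : ℝ => ENNReal.ofReal (qw g n η u * F u)) (𝓝[>] 0) =
      ENNReal.ofReal (u ^ (2 * n + 1) * F u) := fun u => (hlim u).liminf_eq
  simp_rw [h1] at hfat
  refine hfat.trans ?_
  calc liminf (fun η : ℝ => ∫⁻ u in Ioi A, ENNReal.ofReal (qw g n η u * F u)) (𝓝[>] 0)
      ≤ liminf (fun _ : ℝ => ENNReal.ofReal (M * (C * (1 + A) ^ 2 * A * A ^ (2 * n + 1) + B * EE c n)))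
        (𝓝[>] 0) := liminf_le_liminf hbound
    _ = _ := by
        rw [Filter.liminf_const]

/-- Exponential integrability. -/
lemma exp_int (hHm : Measurable H) (hHb : ∀ u ≥ 0, |H u| ≤ C * (1 + u) ^ 2)
    (hg0 : ∀ u, 0 ≤ g u) (hgc : Continuous g) (hg1 : g 0 = 1)
    (hgdecay : ∀ N : ℕ, ∃ K, ∀ u ≥ 0, u ^ N * g u ≤ K) (hη₀ : 0 < η₀)
    (hii : ∀ n : ℕ, ∀ η ∈ Ioo 0 η₀, ∫ u in Ioi 0, qw g n η u * H u = 0)
    (hA : 0 ≤ A) (hB : 0 ≤ B) (hc : 0 < c)
    (hi : ∀ u ≥ A, -(B * Real.exp (-(c * u))) ≤ H u) {z : ℝ} (hz : 0 < z) (hzc : z < c) :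
    IntegrableOn (fun u => u * Real.exp (z * u) * |H u|) (Ioi 0) := by
  obtain ⟨M, hM0, hM, hfat⟩ := fatou_step hHm hHb hg0 hgc hg1 hgdecay hη₀ hii hA hB hc hi
  have hC0 : 0 ≤ C := by
    have := (abs_nonneg _).trans (hHb 0 le_rfl)
    simpa using this
  set F : ℝ → ℝ := fun u => H u + B * Real.exp (-(c * u)) with hF
  have hFm : Measurable F := hHm.add (by fun_prop)
  have hF0 : ∀ u ≥ A, 0 ≤ F u := fun u hu => by
    have := hi u hu
    rw [hF]; dsimp only; linarith
  -- cosh-weighted integral is finite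
  have hcosh : ∫⁻ u in Ioi A, ENNReal.ofReal (u * Real.cosh (z * u) * F u) < ∞ := by
    have h1 : ∀ u ∈ Ioi A, ENNReal.ofReal (u * Real.cosh (z * u) * F u) =
        ∑' n : ℕ, ENNReal.ofReal (z ^ (2 * n) / (2 * n).factorial * (u ^ (2 * n + 1) * F u)) := by
      intro u hu
      have hu' : A ≤ u := le_of_lt hu
      have hu0 : 0 ≤ u := hA.trans hu'
      have h2 := ((Real.hasSum_cosh (z * u)).mul_left u).mul_right (F u)
      rw [← h2.tsum_eq, ENNReal.ofReal_tsum_of_nonneg]
      · refine tsum_congr fun n => ?_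
        congr 1
        rw [mul_pow, pow_succ]; ring
      · intro n
        have := hF0 u hu'
        have h3 : 0 ≤ (z * u) ^ (2 * n) := by positivity
        positivity
      · exact h2.summable
    rw [setLIntegral_congr_fun measurableSet_Ioi h1, lintegral_tsum]
    · have h2 : ∀ n : ℕ, ∫⁻ u in Ioi A, ENNReal.ofReal (z ^ (2 * n) / (2 * n).factorial *
          (u ^ (2 * n + 1) * F u)) ≤ ENNReal.ofReal (z ^ (2 * n) / (2 * n).factorial *
          (M * (C * (1 + A) ^ 2 * A * A ^ (2 * n + 1) + B * EE c n))) := by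
        intro n
        have h3 : ∀ u, ENNReal.ofReal (z ^ (2 * n) / (2 * n).factorial * (u ^ (2 * n + 1) * F u)) =
            ENNReal.ofReal (z ^ (2 * n) / (2 * n).factorial) *
              ENNReal.ofReal (u ^ (2 * n + 1) * F u) := fun u =>
          ENNReal.ofReal_mul (by positivity)
        simp_rw [h3]
        rw [lintegral_const_mul, ENNReal.ofReal_mul (by positivity)]
        · gcongr
          exact hfat n
        · apply Measurable.ennreal_ofReal
          exact (by fun_prop : Measurable fun u : ℝ => u ^ (2 * n + 1)).mul hFm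
      refine lt_of_le_of_lt (ENNReal.tsum_le_tsum h2) ?_
      have hs : Summable (fun n : ℕ => z ^ (2 * n) / (2 * n).factorial *
          (M * (C * (1 + A) ^ 2 * A * A ^ (2 * n + 1) + B * EE c n))) := by
        have s1 := (summable_cosh_coeff z A).mul_left (M * (C * (1 + A) ^ 2 * A))
        have s2 := (summable_EE hc hz hzc).mul_left (M * B)
        refine (s1.add s2).congr fun n => ?_
        ring
      rw [← ENNReal.ofReal_tsum_of_nonneg _ hs]
      · exact ENNReal.ofReal_lt_top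
      · intro n
        have := EE_nonneg hc n
        positivity
    · intro n
      apply Measurable.aemeasurable
      apply Measurable.ennreal_ofReal
      exact ((by fun_prop : Measurable fun u : ℝ => u ^ (2 * n + 1)).mul hFm).const_mul _
  have hFint : IntegrableOn (fun u => u * Real.cosh (z * u) * F u) (Ioi A) := by
    refine ⟨?_, ?_⟩
    · have : Measurable fun u : ℝ => u * Real.cosh (z * u) := by fun_prop
      exact (this.mul hFm).aestronglyMeasurable
    · rw [hasFiniteIntegral_iff_ofReal]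
      · exact hcosh
      · filter_upwards [ae_restrict_mem measurableSet_Ioi] with u hu
        have hu' : A ≤ u := le_of_lt hu
        have h1 := hF0 u hu'
        have h2 := (Real.cosh_pos (z * u)).le
        have h3 := hA.trans hu'
        show (0:ℝ) ≤ u * Real.cosh (z * u) * F u
        positivity
  have hmeas : AEStronglyMeasurable (fun u => u * Real.exp (z * u) * |H u|) (volume : Measure ℝ) := by
    have : Measurable fun u : ℝ => u * Real.exp (z * u) := by fun_prop
    exact (this.mul hHm.abs).aestronglyMeasurable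
  have h1 : IntegrableOn (fun u => u * Real.exp (z * u) * |H u|) (Ioi A) := by
    have hE := ((EE_integrable (c := c - z) (by linarith) 1).mono_set (Ioi_subset_Ioi hA)).const_mul B
    refine Integrable.mono' ((hFint.const_mul 2).add hE) hmeas.restrict ?_
    filter_upwards [ae_restrict_mem measurableSet_Ioi] with u hu
    have hu' : A ≤ u := le_of_lt hu
    have hu0 : 0 ≤ u := hA.trans hu'
    have hFu := hF0 u hu'
    rw [Real.norm_of_nonneg (by positivity)]
    simp only [Pi.add_apply, pow_one]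
    have h2 : |H u| ≤ F u + B * Real.exp (-(c * u)) := by
      have h3 : H u = F u - B * Real.exp (-(c * u)) := by rw [hF]; ring
      have h4 : 0 ≤ B * Real.exp (-(c * u)) := by positivity
      rw [h3, abs_le]
      constructor <;> linarith
    have h3 : Real.exp (z * u) ≤ 2 * Real.cosh (z * u) := by
      rw [Real.cosh_eq]
      have := Real.exp_pos (-(z * u))
      linarith
    have h4 : Real.exp (z * u) * Real.exp (-(c * u)) = Real.exp (-((c - z) * u)) := by
      rw [← Real.exp_add]; congr 1; ring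
    calc u * Real.exp (z * u) * |H u| ≤ u * Real.exp (z * u) * (F u + B * Real.exp (-(c * u))) := by
          gcongr
      _ = u * Real.exp (z * u) * F u + B * (u * (Real.exp (z * u) * Real.exp (-(c * u)))) := by ring
      _ = u * Real.exp (z * u) * F u + B * (u * Real.exp (-((c - z) * u))) := by rw [h4]
      _ ≤ u * (2 * Real.cosh (z * u)) * F u + B * (u * Real.exp (-((c - z) * u))) := by gcongr
      _ = _ := by ring
  have h2 : IntegrableOn (fun u => u * Real.exp (z * u) * |H u|) (Ioc 0 A) := by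
    refine Integrable.mono' (g := fun _ => A * Real.exp (z * A) * (C * (1 + A) ^ 2)) ?_ hmeas.restrict ?_
    · exact integrableOn_const (by simp)
    · filter_upwards [ae_restrict_mem measurableSet_Ioc] with u hu
      have hu0 : 0 ≤ u := hu.1.le
      rw [Real.norm_of_nonneg (by positivity)]
      have h5 := hHb u hu0
      have h6 : |H u| ≤ C * (1 + A) ^ 2 := h5.trans
        (mul_le_mul_of_nonneg_left (pow_le_pow_left₀ (by linarith [hu.1]) (by linarith [hu.2]) 2) hC0)
      have h7 : Real.exp (z * u) ≤ Real.exp (z * A) := by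
        apply Real.exp_le_exp.mpr; gcongr; exact hu.2
      have h8 := hu.2
      gcongr
  rw [← Ioc_union_Ioi_eq_Ioi hA]
  exact h2.union h1

/-- Uniqueness. -/
theorem limit_unique (hHm : Measurable H) (hHb : ∀ u ≥ 0, |H u| ≤ C * (1 + u) ^ 2)
    (hg0 : ∀ u, 0 ≤ g u) (hgc : Continuous g) (hg1 : g 0 = 1)
    (hgdecay : ∀ N : ℕ, ∃ K, ∀ u ≥ 0, u ^ N * g u ≤ K) (hη₀ : 0 < η₀)
    (hii : ∀ n : ℕ, ∀ η ∈ Ioo 0 η₀, ∫ u in Ioi 0, qw g n η u * H u = 0)
    (hA : 0 ≤ A) (hB : 0 ≤ B) (hc : 0 < c)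
    (hi : ∀ u ≥ A, -(B * Real.exp (-(c * u))) ≤ H u) :
    ∀ᵐ u ∂(volume.restrict (Ioi (0:ℝ))), H u = 0 := by
  have hint := exp_int hHm hHb hg0 hgc hg1 hgdecay hη₀ hii hA hB hc hi (z := c / 2)
    (by positivity) (by linarith)
  obtain ⟨M, hM0, hM, -⟩ := fatou_step hHm hHb hg0 hgc hg1 hgdecay hη₀ hii hA hB hc hi
  apply ae_zero_of_odd_moments (z := c / 2) (by positivity) hHm hint
  intro n
  have hpow : IntegrableOn (fun u => u ^ (2 * n + 1) * |H u|) (Ioi 0) := by
    refine Integrable.mono' (hint.const_mul ((2 * n).factorial / (c / 2) ^ (2 * n))) ?_ ?_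
    · exact ((by fun_prop : Measurable fun u : ℝ => u ^ (2 * n + 1)).mul hHm.abs).aestronglyMeasurable
    · filter_upwards [ae_restrict_mem measurableSet_Ioi] with u hu
      have hu0 : (0:ℝ) ≤ u := le_of_lt hu
      rw [Real.norm_of_nonneg (by positivity)]
      have h1 := Real.pow_div_factorial_le_exp (c / 2 * u) (by positivity) (2 * n)
      have h2 : u ^ (2 * n) ≤ (2 * n).factorial / (c / 2) ^ (2 * n) * Real.exp (c / 2 * u) := by
        rw [div_mul_eq_mul_div, le_div_iff₀ (by positivity)]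
        rw [div_le_iff₀ (by positivity), mul_pow] at h1
        nlinarith
      calc u ^ (2 * n + 1) * |H u| = u ^ (2 * n) * (u * |H u|) := by ring
        _ ≤ ((2 * n).factorial / (c / 2) ^ (2 * n) * Real.exp (c / 2 * u)) * (u * |H u|) := by gcongr
        _ = _ := by ring
  -- dominated convergence along η_k
  set ηk : ℕ → ℝ := fun k => η₀ / (k + 2) with hηk
  have hηk0 : ∀ k, ηk k ∈ Ioo 0 η₀ := by
    intro k
    rw [hηk]; dsimp only
    constructor
    · positivity
    · rw [div_lt_iff₀ (by positivity)]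
      have : (0:ℝ) ≤ k := by positivity
      nlinarith
  have hηlim : Tendsto ηk atTop (𝓝 0) := by
    rw [hηk]
    apply Tendsto.div_atTop tendsto_const_nhds
    exact tendsto_atTop_add_const_right _ _ tendsto_natCast_atTop_atTop
  have hdct := tendsto_integral_of_dominated_convergence (μ := volume.restrict (Ioi (0:ℝ)))
    (F := fun k u => qw g n (ηk k) u * H u) (f := fun u => u ^ (2 * n + 1) * H u)
    (fun u => M * (u ^ (2 * n + 1) * |H u|))
    (fun k => ((qw_cont hgc n (ηk k)).measurable.mul hHm).aestronglyMeasurable)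
    (hpow.const_mul M)
    (fun k => by
      filter_upwards [ae_restrict_mem measurableSet_Ioi] with u hu
      have hu0 : (0:ℝ) ≤ u := le_of_lt hu
      rw [norm_mul, Real.norm_of_nonneg (qw_nonneg hg0 n _ hu0), Real.norm_eq_abs]
      unfold qw
      have h1 := hM (ηk k * u) (mul_nonneg (hηk0 k).1.le hu0)
      calc u ^ (2 * n + 1) * g (ηk k * u) * |H u| ≤ u ^ (2 * n + 1) * M * |H u| := by gcongr
        _ = _ := by ring)
    (Eventually.of_forall fun u => by
      apply Tendsto.mul_const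
      unfold qw
      have h2 : Continuous (fun η : ℝ => g (η * u)) := by fun_prop
      have h3 := (h2.tendsto 0).comp hηlim
      rw [zero_mul, hg1] at h3
      simpa using h3.const_mul (u ^ (2 * n + 1)))
  have h0 : (fun k => ∫ u in Ioi (0:ℝ), qw g n (ηk k) u * H u) = fun _ => 0 := by
    ext k
    exact hii n (ηk k) (hηk0 k)
  rw [h0] at hdct
  exact (tendsto_nhds_unique hdct tendsto_const_nhds)

end

end Pool.Agent.PairCorr
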