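import Mathlib
import Pool.Agent.PairCorr.F_LimitUnique

/-!
# The rigidity theorem with an exponentially small deficit
-/

set_option autoImplicit false

namespace Pool.Agent.PairCorr

open MeasureTheory Filter Topology Set

section
variable {E : ℕ → ℝ → ℝ} {G : ℝ → ℝ} {C : ℝ}

/-- The limiting function. -/
noncomputable def DI (E : ℕ → ℝ → ℝ) (u : ℝ) : ℝ := limsup (fun k => E k (max u 0)) atTop

lemma E_bdd (hC : ∀ k, ∀ u ≥ 0, |E k u - G u| ≤ C * (1 + u) ^ 2) {u : ℝ} (hu : 0 ≤ u) (k : ℕ) :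
    G u - C * (1 + u) ^ 2 ≤ E k u ∧ E k u ≤ G u + C * (1 + u) ^ 2 := by
  have h := abs_le.mp (hC k u hu)
  constructor <;> linarith [h.1, h.2]

lemma E_isBdd (hC : ∀ k, ∀ u ≥ 0, |E k u - G u| ≤ C * (1 + u) ^ 2) {u : ℝ} (hu : 0 ≤ u) :
    IsBoundedUnder (· ≤ ·) atTop (fun k => E k u) ∧
    IsCoboundedUnder (· ≤ ·) atTop (fun k => E k u) := by
  constructor
  · exact isBoundedUnder_of ⟨G u + C * (1 + u) ^ 2, fun k => (E_bdd hC hu k).2⟩
  · apply IsBoundedUnder.isCoboundedUnder_le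
    exact isBoundedUnder_of ⟨G u - C * (1 + u) ^ 2, fun k => (E_bdd hC hu k).1⟩

lemma DI_mono (hE : ∀ k, Monotone (E k)) (hC : ∀ k, ∀ u ≥ 0, |E k u - G u| ≤ C * (1 + u) ^ 2) :
    Monotone (DI E) := by
  intro u v huv
  unfold DI
  apply limsup_le_limsup
  · exact Eventually.of_forall fun k => hE k (max_le_max huv le_rfl)
  · exact (E_isBdd hC (le_max_right _ _)).2
  · exact (E_isBdd hC (le_max_right _ _)).1

lemma DI_of_tendsto {u a : ℝ} (hu : 0 ≤ u) (h : Tendsto (fun k => E k u) atTop (𝓝 a)) :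
    DI E u = a := by
  unfold DI
  rw [max_eq_left hu]
  exact h.limsup_eq

lemma DI_bound (hC : ∀ k, ∀ u ≥ 0, |E k u - G u| ≤ C * (1 + u) ^ 2) {u : ℝ} (hu : 0 ≤ u) :
    |DI E u - G u| ≤ C * (1 + u) ^ 2 := by
  unfold DI
  rw [max_eq_left hu, abs_le]
  obtain ⟨hb1, hb2⟩ := E_isBdd hC hu
  constructor
  · have h1 : G u - C * (1 + u) ^ 2 ≤ limsup (fun k => E k u) atTop :=
      le_limsup_of_frequently_le
        (Eventually.of_forall fun k => (E_bdd hC hu k).1).frequently hb1
    linarith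
  · have h1 : limsup (fun k => E k u) atTop ≤ G u + C * (1 + u) ^ 2 :=
      limsup_le_of_le hb2 (Eventually.of_forall fun k => (E_bdd hC hu k).2)
    linarith

lemma DI_lower {u b : ℝ} (hu : 0 ≤ u) (hC : ∀ k, ∀ u ≥ 0, |E k u - G u| ≤ C * (1 + u) ^ 2)
    (h : ∀ᶠ k in atTop, b ≤ E k u) : b ≤ DI E u := by
  unfold DI
  rw [max_eq_left hu]
  exact le_limsup_of_frequently_le h.frequently (E_isBdd hC hu).1

lemma DI_upper {u b : ℝ} (hu : 0 ≤ u) (hC : ∀ k, ∀ u ≥ 0, |E k u - G u| ≤ C * (1 + u) ^ 2)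
    (h : ∀ᶠ k in atTop, E k u ≤ b) : DI E u ≤ b := by
  unfold DI
  rw [max_eq_left hu]
  exact limsup_le_of_le (E_isBdd hC hu).2 h

lemma tendsto_of_cont (hE : ∀ k, Monotone (E k))
    (hrat : ∀ q : ℚ, 0 ≤ (q:ℝ) → Tendsto (fun k => E k q) atTop (𝓝 (DI E q)))
    {u : ℝ} (hu : 0 < u) (hcont : ContinuousAt (DI E) u) :
    Tendsto (fun k => E k u) atTop (𝓝 (DI E u)) := by
  rw [tendsto_order]
  constructor
  · intro a ha
    have h1 : ∀ᶠ v in 𝓝 u, a < DI E v := hcont.eventually (lt_mem_nhds ha)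
    obtain ⟨δ, hδ, hball⟩ := Metric.eventually_nhds_iff.mp h1
    obtain ⟨q, hq1, hq2⟩ := exists_rat_btwn (show max (u - δ) 0 < u from max_lt (by linarith) hu)
    have hq0 : (0:ℝ) ≤ q := (le_max_right _ _).trans hq1.le
    have hq3 : u - δ < q := lt_of_le_of_lt (le_max_left _ _) hq1
    have h2 : a < DI E q := hball (by rw [Real.dist_eq, abs_lt]; constructor <;> linarith)
    filter_upwards [(hrat q hq0).eventually (lt_mem_nhds h2)] with k hk
    exact lt_of_lt_of_le hk (hE k hq2.le)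
  · intro a ha
    have h1 : ∀ᶠ v in 𝓝 u, DI E v < a := hcont.eventually (gt_mem_nhds ha)
    obtain ⟨δ, hδ, hball⟩ := Metric.eventually_nhds_iff.mp h1
    obtain ⟨q, hq1, hq2⟩ := exists_rat_btwn (show u < u + δ by linarith)
    have hq0 : (0:ℝ) ≤ q := by linarith
    have h2 : DI E q < a := hball (by rw [Real.dist_eq, abs_lt]; constructor <;> linarith)
    filter_upwards [(hrat q hq0).eventually (gt_mem_nhds h2)] with k hk
    exact lt_of_le_of_lt (hE k hq1.le) hk

lemma eq_of_ae (hm : Monotone (DI E)) (hGc : Continuous G)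
    (hae : ∀ᵐ u ∂(volume.restrict (Ioi (0:ℝ))), DI E u - G u = 0) {u : ℝ} (hu : 0 < u) :
    DI E u = G u := by
  rw [ae_restrict_iff' measurableSet_Ioi] at hae
  have key : ∀ a b : ℝ, 0 ≤ a → a < b → ∃ v ∈ Ioo a b, DI E v = G v := by
    intro a b ha hab
    by_contra hcon
    push Not at hcon
    have h1 : Ioo a b ⊆ {v | ¬ (v ∈ Ioi (0:ℝ) → DI E v - G v = 0)} := by
      intro v hv
      simp only [mem_ofPred_eq, Classical.not_imp, mem_Ioi]
      refine ⟨lt_of_le_of_lt ha hv.1, ?_⟩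
      intro h
      exact hcon v hv (sub_eq_zero.mp h)
    have h2 : volume (Ioo a b) = 0 := measure_mono_null h1 (ae_iff.mp hae)
    rw [Real.volume_Ioo, ENNReal.ofReal_eq_zero] at h2
    linarith
  rcases lt_trichotomy (DI E u) (G u) with h | h | h
  · -- look to the left
    exfalso
    have h1 : ∀ᶠ v in 𝓝 u, DI E u < G v := hGc.continuousAt.eventually (lt_mem_nhds h)
    obtain ⟨δ, hδ, hball⟩ := Metric.eventually_nhds_iff.mp h1
    obtain ⟨v, hv, hv2⟩ := key (max (u - δ) 0) u (le_max_right _ _) (max_lt (by linarith) hu)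
    have hv3 : u - δ < v := lt_of_le_of_lt (le_max_left _ _) hv.1
    have h2 : DI E u < G v := hball (by rw [Real.dist_eq, abs_lt]; constructor <;> linarith [hv.2])
    have h3 := hm hv.2.le
    linarith
  · exact h
  · exfalso
    have h1 : ∀ᶠ v in 𝓝 u, G v < DI E u := hGc.continuousAt.eventually (gt_mem_nhds h)
    obtain ⟨δ, hδ, hball⟩ := Metric.eventually_nhds_iff.mp h1
    obtain ⟨v, hv, hv2⟩ := key u (u + δ) hu.le (by linarith)
    have h2 : G v < DI E u := hball (by rw [Real.dist_eq, abs_lt]; constructor <;> linarith [hv.1, hv.2])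
    have h3 := hm hv.1.le
    linarith

end

section
variable {ι : Type*} {l : Filter ι} {D : ι → ℝ → ℝ} {G g : ℝ → ℝ}

/-- Rigidity with an exponentially small deficit (`sgn = 1`) or excess (`sgn = -1`). -/
theorem rigidity_exp [l.IsCountablyGenerated] (hD : ∀ i, Monotone (D i))
    (hG : ∀ u v, |G u - G v| ≤ |u - v|)
    {C : ℝ} (hC : ∀ᶠ i in l, ∀ u ≥ 0, |D i u - G u| ≤ C * (1 + u) ^ 2)
    (hg0 : ∀ u, 0 ≤ g u) (hgc : Continuous g) (hg1 : g 0 = 1)
    (hgdecay : ∀ N : ℕ, ∃ K, ∀ u ≥ 0, u ^ N * g u ≤ K)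
    {η₀ : ℝ} (hη₀ : 0 < η₀)
    (hii : ∀ n : ℕ, ∀ η ∈ Ioo 0 η₀,
      Tendsto (fun i => ∫ u in Ioi 0, qw g n η u * (D i u - G u)) l (𝓝 0))
    {A B c sgn : ℝ} (hB : 0 ≤ B) (hc : 0 < c) (hsgn : sgn = 1 ∨ sgn = -1)
    (hi : ∀ a ≥ A, ∀ ε > 0, ∀ᶠ i in l, -(B * Real.exp (-(c * a))) - ε ≤ sgn * (D i a - G a)) :
    ∀ u > 0, Tendsto (fun i => D i u - G u) l (𝓝 0) := by
  intro u₀ hu₀
  apply Filter.tendsto_of_subseq_tendsto
  intro ns hns
  have hGc : Continuous G := by
    rw [Metric.continuous_iff]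
    intro b e he
    refine ⟨e, he, fun a ha => lt_of_le_of_lt ?_ ha⟩
    rw [Real.dist_eq, Real.dist_eq]; exact hG a b
  obtain ⟨N, hN⟩ := eventually_atTop.mp (hns.eventually hC)
  set x : ℕ → ℚ → ℝ := fun n q => D (ns (n + N)) |(q:ℝ)| with hx
  set R : ℚ → ℝ := fun q => abs (G |(q:ℝ)|) + |C| * (1 + |(q:ℝ)|) ^ 2 with hR
  have hxK : ∀ n, x n ∈ Set.univ.pi (fun q => Icc (-R q) (R q)) := by
    intro n q _
    have h1 := hN (n + N) (by omega) |(q:ℝ)| (abs_nonneg _)
    have h2 := abs_le.mp h1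
    have h3 : C * (1 + |(q:ℝ)|) ^ 2 ≤ |C| * (1 + |(q:ℝ)|) ^ 2 := by
      gcongr; exact le_abs_self C
    have h4 := abs_le.mp (le_refl (abs (G |(q:ℝ)|)))
    constructor
    · show -R q ≤ D (ns (n + N)) |(q:ℝ)|
      rw [hR]; dsimp only; linarith [h2.1, h4.1]
    · show D (ns (n + N)) |(q:ℝ)| ≤ R q
      rw [hR]; dsimp only; linarith [h2.2, h4.2]
  obtain ⟨a, -, φ, hφ, hlim⟩ := (isCompact_univ_pi (fun q : ℚ => isCompact_Icc (a := -R q) (b := R q))).tendsto_subseq hxK
  set E : ℕ → ℝ → ℝ := fun k => D (ns (φ k + N)) with hE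
  have hEm : ∀ k, Monotone (E k) := fun k => hD _
  have hEC : ∀ k, ∀ u ≥ 0, |E k u - G u| ≤ C * (1 + u) ^ 2 := fun k u hu => hN (φ k + N) (by omega) u hu
  have hsub : Tendsto (fun k => ns (φ k + N)) atTop l :=
    hns.comp ((tendsto_add_atTop_nat N).comp hφ.tendsto_atTop)
  have hrat : ∀ q : ℚ, 0 ≤ (q:ℝ) → Tendsto (fun k => E k q) atTop (𝓝 (DI E q)) := by
    intro q hq
    have h1 := (tendsto_pi_nhds.mp hlim) q
    have h2 : Tendsto (fun k => E k q) atTop (𝓝 (a q)) := by
      refine h1.congr fun k => ?_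
      simp only [Function.comp, hx, hE, abs_of_nonneg hq]
    rw [DI_of_tendsto hq h2]
    exact h2
  have hDm := DI_mono hEm hEC
  have hDb : ∀ u ≥ 0, |DI E u - G u| ≤ C * (1 + u) ^ 2 := fun u hu => DI_bound hEC hu
  have hHm : Measurable (fun u => DI E u - G u) := hDm.measurable.sub hGc.measurable
  have hiiH : ∀ n : ℕ, ∀ η ∈ Ioo 0 η₀, ∫ u in Ioi 0, qw g n η u * (DI E u - G u) = 0 := by
    intro n η hη
    have h1 := (hii n η hη).comp hsub
    have h2 := tendsto_integral_of_dominated_convergence (μ := volume.restrict (Ioi (0:ℝ)))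
      (F := fun k u => qw g n η u * (E k u - G u)) (f := fun u => qw g n η u * (DI E u - G u))
      (fun u => C * (qw g n η u * (1 + u) ^ 2))
      (fun k => ((qw_cont hgc n η).measurable.mul
        ((hEm k).measurable.sub hGc.measurable)).aestronglyMeasurable)
      ((qw_int2 hg0 hgc hgdecay n hη.1).const_mul C)
      (fun k => by
        filter_upwards [ae_restrict_mem measurableSet_Ioi] with u hu
        have hu0 : (0:ℝ) ≤ u := le_of_lt hu
        have h3 := qw_nonneg (g := g) hg0 n η hu0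
        rw [norm_mul, Real.norm_of_nonneg h3, Real.norm_eq_abs]
        have h4 := mul_le_mul_of_nonneg_left (hEC k u hu0) h3
        linarith)
      (by
        have hcnt := hDm.countable_not_continuousAt
        have h3 : ∀ᵐ u ∂(volume : Measure ℝ), u ∉ {x | ¬ ContinuousAt (DI E) x} :=
          (Set.Countable.ae_notMem hcnt _)
        filter_upwards [ae_restrict_of_ae h3, ae_restrict_mem measurableSet_Ioi] with u hu hu0
        have hcu : ContinuousAt (DI E) u := by
          by_contra h; exact hu h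
        exact ((tendsto_of_cont hEm hrat hu0 hcu).sub_const _).const_mul _)
    exact tendsto_nhds_unique h2 h1
  have hsabs : |sgn| = 1 := by
    rcases hsgn with h | h
    · rw [h, abs_one]
    · rw [h, abs_neg, abs_one]
  have hae' := limit_unique (A := max A 0) (H := fun u => sgn * (DI E u - G u))
    (hHm.const_mul sgn) (by
      intro u hu
      rw [abs_mul, hsabs, one_mul]
      exact hDb u hu) hg0 hgc hg1 hgdecay hη₀ (by
      intro n η hη
      have h1 : ∀ u, qw g n η u * (sgn * (DI E u - G u)) =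
          sgn * (qw g n η u * (DI E u - G u)) := fun u => by ring
      simp_rw [h1]
      rw [integral_const_mul, hiiH n η hη, mul_zero]) (le_max_right _ _)
    hB hc (by
      intro u hu
      have huA : A ≤ u := (le_max_left _ _).trans hu
      have hu0 : 0 ≤ u := (le_max_right _ _).trans hu
      by_contra hcon
      push Not at hcon
      set ε := (-(B * Real.exp (-(c * u))) - sgn * (DI E u - G u)) / 2 with hε
      have hε0 : 0 < ε := by rw [hε]; linarith
      have h1 := hsub.eventually (hi u huA ε hε0)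
      rcases hsgn with hs | hs
      · have h2 : ∀ᶠ k in atTop, G u - B * Real.exp (-(c * u)) - ε ≤ E k u := by
          filter_upwards [h1] with k hk
          have : E k u = D (ns (φ k + N)) u := rfl
          rw [hs] at hk
          rw [this]; linarith
        have h3 := DI_lower hu0 hEC h2
        rw [hs] at hε
        linarith
      · have h2 : ∀ᶠ k in atTop, E k u ≤ G u + B * Real.exp (-(c * u)) + ε := by
          filter_upwards [h1] with k hk
          have : E k u = D (ns (φ k + N)) u := rfl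
          rw [hs] at hk
          rw [this]; linarith
        have h3 := DI_upper hu0 hEC h2
        rw [hs] at hε
        linarith)
  have hsne : sgn ≠ 0 := by
    intro h; rw [h, abs_zero] at hsabs; norm_num at hsabs
  have hae : ∀ᵐ u ∂(volume.restrict (Ioi (0:ℝ))), DI E u - G u = 0 := by
    filter_upwards [hae'] with u hu
    exact (mul_eq_zero.mp hu).resolve_left hsne
  have heq : ∀ u > 0, DI E u = G u := fun u hu => eq_of_ae hDm hGc hae hu
  have hcont : ContinuousAt (DI E) u₀ := by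
    have h1 : DI E =ᶠ[𝓝 u₀] G := by
      filter_upwards [lt_mem_nhds hu₀] with v hv
      exact heq v hv
    exact hGc.continuousAt.congr h1.symm
  refine ⟨fun k => φ k + N, ?_⟩
  have h1 := tendsto_of_cont hEm hrat hu₀ hcont
  rw [heq u₀ hu₀] at h1
  have h2 := h1.sub_const (G u₀)
  rw [sub_self] at h2
  exact h2

end

end Pool.Agent.PairCorr
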