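import Mathlib
import Pool.Agent.PairCorr.A_Main
import Pool.Agent.PairCorr.D_Primes
import Pool.Agent.PairCorr.F_RigidityExp

set_option autoImplicit false

namespace Pool.Agent.PairCorr

open MeasureTheory Filter Topology Set Real
open scoped ENNReal ComplexConjugate

theorem statementS' : StatementS := statementS_of statementD_closed
theorem statementOD1' : StatementOD1 := statementOD1_of (statementPB_of Pool.Agent.PC10.statementB)
theorem statementOD2' : StatementOD2 := statementOD2_of (statementPBall_of Pool.Agent.PC10.statementB)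

lemma Mr_nonneg {T : ℝ} (hT : Real.exp 1 ≤ T) : 0 ≤ Mr T := by
  have hT0 : 0 < T := (Real.exp_pos 1).trans_le hT
  have hL1 : 1 ≤ Real.log T := by rw [Real.le_log_iff_exp_le hT0]; exact hT
  exact div_nonneg ENNReal.toReal_nonneg (NT_pos hL1 hT0).le

lemma Lr_nonneg {T : ℝ} (hT : Real.exp 1 ≤ T) (u : ℝ) : 0 ≤ Lr T u := by
  have hT0 : 0 < T := (Real.exp_pos 1).trans_le hT
  have hL1 : 1 ≤ Real.log T := by rw [Real.le_log_iff_exp_le hT0]; exact hT
  exact div_nonneg ENNReal.toReal_nonneg (NT_pos hL1 hT0).le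

lemma NSset_lt_top (T u : ℝ) : (nu T) (NSset T u) < ⊤ := by
  refine lt_of_le_of_lt (measure_mono ?_) (nu_close_lt_top T (2 * π * u / Real.log T))
  intro p hp
  show |p.1.im - p.2.im| ≤ _
  rw [abs_of_pos hp.1]
  exact hp.2

lemma Lr_mono {T : ℝ} (hT : Real.exp 1 ≤ T) : Monotone (Lr T) := by
  have hT0 : 0 < T := (Real.exp_pos 1).trans_le hT
  have hL1 : 1 ≤ Real.log T := by rw [Real.le_log_iff_exp_le hT0]; exact hT
  intro u v huv
  unfold Lr
  apply div_le_div_of_nonneg_right _ (NT_pos hL1 hT0).le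
  apply ENNReal.toReal_mono (NSset_lt_top T v).ne
  apply measure_mono
  intro p hp
  refine ⟨hp.1, hp.2.trans ?_⟩
  have hL0 : 0 < Real.log T := by linarith
  have := Real.pi_pos
  gcongr

/-- quadratic bounds -/
lemma quad_bounds : ∃ C : ℝ, 0 < C ∧ ∃ T₀ : ℝ, Real.exp 1 ≤ T₀ ∧ ∀ T : ℝ, T₀ ≤ T →
    Mr T ≤ C ∧ ∀ u : ℝ, 0 ≤ u → Lr T u ≤ C * (1 + u) ^ 2 := by
  obtain ⟨C, hC, T₀, hT₀, h⟩ := SymSet_le_quadratic Pool.Agent.PC10.statementB
  refine ⟨2 * π * C, by positivity, T₀, hT₀, fun T hT => ?_⟩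
  have hTe : Real.exp 1 ≤ T := hT₀.trans hT
  have hT0 : 0 < T := (Real.exp_pos 1).trans_le hTe
  have hL1 : 1 ≤ Real.log T := by rw [Real.le_log_iff_exp_le hT0]; exact hTe
  have hL0 : 0 < Real.log T := by linarith
  have hpi := Real.pi_pos
  have key : ∀ (S : Set (ℂ × ℂ)) (u : ℝ), 0 ≤ u → S ⊆ SymSet T u →
      ((nu T) S).toReal / NT T ≤ 2 * π * C * (1 + u) ^ 2 := by
    intro S u hu hS
    rw [div_le_iff₀ (NT_pos hL1 hT0)]
    have h1 : (nu T) S ≤ ENNReal.ofReal (C * (1 + u) ^ 2 * (T * Real.log T)) :=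
      (measure_mono hS).trans (h T hT u hu)
    have h2 := ENNReal.toReal_mono ENNReal.ofReal_ne_top h1
    rw [ENNReal.toReal_ofReal (by positivity)] at h2
    refine h2.trans (le_of_eq ?_)
    unfold NT
    field_simp
  constructor
  · have := key {p | p.1.im = p.2.im} 0 le_rfl (by
      intro p hp
      have hp' : p.1.im = p.2.im := hp
      show |p.1.im - p.2.im| ≤ 2 * π * 0 / Real.log T
      rw [hp']; simp)
    simpa [Mr] using this
  · intro u hu
    exact key _ u hu (NSset_subset_SymSet T u)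

/-- Lower bound for `JJ`. -/
lemma JJ_lower {q χ : ℝ → ℝ} {b : ℝ} (h : TP q χ b) (hq0 : ∀ u, 0 < u → 0 ≤ q u) {T : ℝ}
    (hT : Real.exp 1 ≤ T) {w : ℝ → ℝ} (hw : IntegrableOn (fun u => q u * w u) (Ioi 0))
    (hlow : ∀ u, 0 < u → -w u ≤ Lr T u - gue u) :
    (Mr T - 1) / 2 * (∫ u in Ioi 0, q u) - ∫ u in Ioi 0, q u * w u ≤ JJ q T := by
  obtain ⟨C, hC, hAS⟩ := spair0_eq h.cont h.decay h.odd h.ker
  obtain ⟨hint, -⟩ := hAS T hT
  have hI : IntegrableOn (fun u => q u * ((Mr T / 2 + Lr T u) - (1 / 2 + gue u))) (Ioi 0) := by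
    refine (hint.sub h.int_gue).congr (Eventually.of_forall fun u => ?_)
    simp only [Pi.sub_apply]
    ring
  have hqI : IntegrableOn (fun u => (Mr T - 1) / 2 * q u) (Ioi 0) := h.integrable.integrableOn.const_mul _
  rw [← integral_const_mul, ← integral_sub hqI hw]
  unfold JJ
  apply setIntegral_mono_on (hqI.sub hw) hI measurableSet_Ioi
  intro u hu
  have h1 := mul_le_mul_of_nonneg_left (hlow u hu) (hq0 u hu)
  show (Mr T - 1) / 2 * q u - q u * w u ≤ _
  nlinarith

lemma unif_lower' {l : Filter ℝ} {D : ℝ → ℝ → ℝ} {G : ℝ → ℝ} (hD : ∀ i, Monotone (D i))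
    (hG : ∀ u v, |G u - G v| ≤ |u - v|)
    {A η : ℝ} (hi : ∀ a ≥ A, ∀ᶠ i in l, -η ≤ D i a - G a) (B : ℝ) {ε : ℝ} (hε : 0 < ε) :
    ∀ᶠ i in l, ∀ u ∈ Icc A B, -(η + ε) ≤ D i u - G u := by
  have h1 : ∀ᶠ i in l, ∀ u ∈ Icc A B, -ε ≤ (fun i u => D i u + η) i u - G u := by
    apply unif_lower (D := fun i u => D i u + η) (fun i => (hD i).add_const η) hG ?_ B hε
    intro a ha ε' hε'
    filter_upwards [hi a ha] with i hi'
    show -ε' ≤ D i a + η - G a
    linarith
  filter_upwards [h1] with i hi' u hu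
  have h2 : -ε ≤ D i u + η - G u := hi' u hu
  linarith


lemma qw_odd {g : ℝ → ℝ} (hge : ∀ u, g (-u) = g u) (n : ℕ) (η u : ℝ) : qw g n η (-u) = -qw g n η u := by
  unfold qw
  rw [mul_neg, hge]
  have : (-u) ^ (2 * n + 1) = -u ^ (2 * n + 1) := by
    rw [Odd.neg_pow ⟨n, rfl⟩]
  rw [this]; ring

/-- asymptotic lower bound at infinity, without rate -/
def LowInf (l : Filter ℝ) : Prop := ∀ η > 0, ∃ A : ℝ, ∀ a ≥ A, ∀ᶠ T in l, gue a - η ≤ Lr T a

/-- **Step 1**: a lower bound for the pair count at infinity forces `Mr → 1`. -/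
theorem Mr_tendsto {l : Filter ℝ} (hl : l ≤ atTop) (hlow : LowInf l) : Tendsto Mr l (𝓝 1) := by
  obtain ⟨b₀, hb₀, hb₀1, hJ⟩ := JJ_bound statementS'
  obtain ⟨b₁, hb₁, hOD⟩ := statementOD1'
  set b := min b₀ b₁ with hb
  have hbpos : 0 < b := lt_min hb₀ hb₁
  obtain ⟨g, hg0, hgc, hg1, hge, hgd, hfam⟩ := exists_g hbpos
  obtain ⟨hrd, χ, hTF, hχe, hker⟩ := hfam 0 1 one_pos le_rfl
  set q : ℝ → ℝ := qw g 0 1 with hq
  have hqeq : ∀ u, q u = u * g u := by
    intro u; simp only [hq, qw]; simp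
  have hTP : TP q χ b := ⟨qw_cont hgc 0 1, hrd, qw_odd hge 0 1, hTF, hχe, hker⟩
  obtain ⟨C, hC, hOD⟩ := hOD χ (hTF.mono (min_le_right _ _)) hχe
  obtain ⟨K₀', hK₀'⟩ := hgd 0
  set K₀ := max K₀' 0 with hK₀
  have hgK : ∀ u, 0 ≤ u → g u ≤ K₀ := by
    intro u hu
    have := hK₀' u hu
    rw [pow_zero, one_mul] at this
    exact this.trans (le_max_left _ _)
  have hK₀0 : 0 ≤ K₀ := le_max_right _ _
  -- the mass
  set m : ℝ := ∫ u in Ioi 0, q u with hm
  have hm0 : 0 < m := by
    rw [hm, setIntegral_pos_iff_support_of_nonneg_ae]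
    · have h1 : ∀ᶠ u in 𝓝 (0:ℝ), 1/2 < g u := by
        apply (hgc.tendsto 0).eventually (lt_mem_nhds _)
        rw [hg1]; norm_num
      obtain ⟨r, hr, hr1⟩ := Metric.eventually_nhds_iff.1 h1
      have h2 : Ioo 0 r ⊆ Function.support q ∩ Ioi 0 := by
        intro u hu
        refine ⟨?_, hu.1⟩
        rw [Function.mem_support, hqeq]
        have h3 : 1/2 < g u := hr1 (by rw [Real.dist_eq, sub_zero, abs_of_pos hu.1]; exact hu.2)
        have := hu.1
        positivity
      refine lt_of_lt_of_le ?_ (measure_mono h2)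
      rw [Real.volume_Ioo]
      simpa using hr
    · filter_upwards [ae_restrict_mem measurableSet_Ioi] with u hu
      have hu' : (0:ℝ) < u := hu
      show 0 ≤ q u
      rw [hqeq]
      exact mul_nonneg hu'.le (hg0 u)
    · exact hTP.integrable.integrableOn
  have hev : ∀ᶠ T in l, Real.exp 1 ≤ T := (eventually_ge_atTop (Real.exp 1)).filter_mono hl
  have hratio := NCount_NT.mono_left hl
  rw [Metric.tendsto_nhds]
  intro θ' hθ'
  set θ := θ' / 2 with hθdef
  have hθ : 0 < θ := by positivity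
  -- the parameters
  set η := θ * m / (8 * (2 * m + 1)) with hη
  have hη0 : 0 < η := by positivity
  obtain ⟨A, hA⟩ := hlow η hη0
  set a₀ := max A 1 with ha₀
  have ha₀1 : 1 ≤ a₀ := le_max_right _ _
  set δ := min 1 (θ * m / (8 * (2 * π * C + K₀ * a₀ ^ 3 + 1))) with hδ
  have hpi := Real.pi_pos
  have hδ0 : 0 < δ := by
    apply lt_min one_pos
    positivity
  have hδ1 : δ ≤ 1 := min_le_left _ _
  have hδ2 : 2 * π * C * δ + δ ^ 2 * K₀ * a₀ ^ 3 ≤ θ * m / 8 := by
    have h1 : δ * (2 * π * C + K₀ * a₀ ^ 3 + 1) ≤ θ * m / 8 := by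
      have h2 : δ ≤ θ * m / (8 * (2 * π * C + K₀ * a₀ ^ 3 + 1)) := min_le_right _ _
      calc δ * (2 * π * C + K₀ * a₀ ^ 3 + 1) ≤
          θ * m / (8 * (2 * π * C + K₀ * a₀ ^ 3 + 1)) * (2 * π * C + K₀ * a₀ ^ 3 + 1) := by gcongr
        _ = θ * m / 8 := by field_simp
    have h3 : δ ^ 2 ≤ δ := by nlinarith
    have h4 : δ ^ 2 * (K₀ * a₀ ^ 3) ≤ δ * (K₀ * a₀ ^ 3) := mul_le_mul_of_nonneg_right h3 (by positivity)
    nlinarith
  -- scaled test pair
  set qδ : ℝ → ℝ := fun u => δ * q (δ * u) with hqδ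
  have hqδeq : ∀ u, qδ u = δ ^ 2 * qw g 0 δ u := by
    intro u
    simp only [hqδ, hqeq, qw]
    ring
  have hTPδ : TP qδ (fun v => χ (v / δ) / δ) b := (hTP.scale hδ0 hδ1).mono (by nlinarith)
  have hqδ0 : ∀ u, 0 < u → 0 ≤ qδ u := by
    intro u hu
    rw [hqδeq]
    exact mul_nonneg (by positivity) (qw_nonneg hg0 0 δ hu.le)
  have hmδ : ∫ u in Ioi 0, qδ u = m := by
    have := tailF_scale q hδ0 0
    unfold tailF at this
    rw [mul_zero] at this
    exact this
  obtain ⟨e, he, hJb⟩ := hJ qδ _ (hTPδ.mono (min_le_left _ _))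
  obtain ⟨T₁, hT₁⟩ := hOD δ hδ0 hδ1
  obtain ⟨R, hRa, hR0, hRt⟩ := qw_tail hg0 hgc hgd 0 hδ0 hη0 a₀
  -- uniform lower bound
  have hunif : ∀ᶠ T in l, ∀ u ∈ Icc a₀ R, -(η + η) ≤ Lr T u - gue u := by
    have h1 := unif_lower' (l := l) (D := fun T u => Lr (max T (Real.exp 1)) u) (G := gue)
      (fun T => Lr_mono (le_max_right _ _)) gue_lipschitz (A := a₀) (η := η) ?_ R hη0
    · filter_upwards [h1, hev] with T h2 hT u hu
      have h3 := h2 u hu
      simp only [max_eq_left hT] at h3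
      exact h3
    · intro a ha
      filter_upwards [hA a ((le_max_left _ _).trans ha), hev] with T h2 hT
      simp only [max_eq_left hT]
      linarith
  have hesm : ∀ᶠ T in l, e T ≤ θ * m / 8 := by
    have : ∀ᶠ T in atTop, e T < θ * m / 8 := he.eventually (gt_mem_nhds (by positivity))
    exact (this.mono fun T h => h.le).filter_mono hl
  have hNCl : ∀ᶠ T in l, |NCount T / NT T - 1| < θ := by
    have := Metric.tendsto_nhds.1 hratio θ hθ
    simpa [Real.dist_eq] using this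
  filter_upwards [hev, hunif, hesm, hNCl, (eventually_ge_atTop T₁).filter_mono hl] with T hT hu1 hes hNC hTT₁
  have hT0 : 0 < T := (Real.exp_pos 1).trans_le hT
  have hL1 : 1 ≤ Real.log T := by rw [Real.le_log_iff_exp_le hT0]; exact hT
  have hNT := NT_pos hL1 hT0
  -- weights
  set w : ℝ → ℝ := fun u => (Iic a₀).indicator (fun _ => a₀) u + 2 * η + (Ioi R).indicator (fun u => 1 + u) u with hw
  have hwlow : ∀ u, 0 < u → -w u ≤ Lr T u - gue u := by
    intro u hu
    have hi1 : 0 ≤ (Iic a₀).indicator (fun _ => a₀) u := indicator_nonneg (fun _ _ => by linarith) _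
    have hi2 : 0 ≤ (Ioi R).indicator (fun u : ℝ => 1 + u) u :=
      indicator_nonneg (fun v hv => by have : R < v := hv; linarith) _
    have hLr := Lr_nonneg hT u
    have hgl := gue_le hu.le
    simp only [hw]
    rcases le_or_gt u a₀ with h1 | h1
    · rw [indicator_of_mem (show u ∈ Iic a₀ from h1)]
      linarith
    · rcases le_or_gt u R with h2 | h2
      · have := hu1 u ⟨h1.le, h2⟩
        linarith
      · rw [indicator_of_mem (show u ∈ Ioi R from h2)]
        linarith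
  -- integrals against the weights
  have hqi := hTPδ.integrable
  have i1 : IntegrableOn (fun u => qδ u * (Iic a₀).indicator (fun _ => a₀) u) (Ioi 0) := by
    have h1 : Integrable ((Iic a₀).indicator (fun u => qδ u * a₀)) :=
      (hqi.mul_const a₀).indicator measurableSet_Iic
    refine h1.integrableOn.congr (Eventually.of_forall fun u => ?_)
    simp only
    by_cases hu : u ∈ Iic a₀
    · rw [indicator_of_mem hu, indicator_of_mem hu]
    · rw [indicator_of_notMem hu, indicator_of_notMem hu, mul_zero]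
  have i2 : IntegrableOn (fun u => qδ u * (2 * η)) (Ioi 0) := (hqi.mul_const _).integrableOn
  have hqt := qw_int hg0 hgc hgd 0 hδ0
  have i3 : IntegrableOn (fun u => qδ u * (Ioi R).indicator (fun u => 1 + u) u) (Ioi 0) := by
    have h1 : IntegrableOn ((Ioi R).indicator (fun u => δ ^ 2 * (qw g 0 δ u * (1 + u)))) (Ioi 0) :=
      (hqt.const_mul _).indicator measurableSet_Ioi
    refine h1.congr (Eventually.of_forall fun u => ?_)
    simp only
    by_cases hu : u ∈ Ioi R
    · rw [indicator_of_mem hu, indicator_of_mem hu, hqδeq]; ring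
    · rw [indicator_of_notMem hu, indicator_of_notMem hu, mul_zero]
  have hwI : IntegrableOn (fun u => qδ u * w u) (Ioi 0) := by
    refine ((i1.add i2).add i3).congr (Eventually.of_forall fun u => ?_)
    simp only [hw, Pi.add_apply]
    ring
  have v1 : ∫ u in Ioi 0, qδ u * (Iic a₀).indicator (fun _ => a₀) u ≤ δ ^ 2 * K₀ * a₀ ^ 3 := by
    have e1 : ∫ u in Ioi 0, qδ u * (Iic a₀).indicator (fun _ => a₀) u = ∫ u in Ioc 0 a₀, qδ u * a₀ := by
      have h1 : (fun u => qδ u * (Iic a₀).indicator (fun _ => a₀) u) = (Iic a₀).indicator (fun u => qδ u * a₀) := by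
        ext u
        by_cases hu : u ∈ Iic a₀
        · rw [indicator_of_mem hu, indicator_of_mem hu]
        · rw [indicator_of_notMem hu, indicator_of_notMem hu, mul_zero]
      rw [h1, setIntegral_indicator measurableSet_Iic, Ioi_inter_Iic]
    rw [e1]
    have h2 : ∫ u in Ioc 0 a₀, qδ u * a₀ ≤ ∫ u in Ioc 0 a₀, δ ^ 2 * K₀ * a₀ * a₀ := by
      apply setIntegral_mono_on
      · exact (hqi.mul_const _).integrableOn
      · exact integrableOn_const (by rw [Real.volume_Ioc]; exact ENNReal.ofReal_ne_top)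
      · exact measurableSet_Ioc
      · intro u hu
        apply mul_le_mul_of_nonneg_right _ (by linarith)
        rw [hqδeq]
        unfold qw
        have h3 := hgK (δ * u) (by have := hu.1; positivity)
        have h4 : u ^ (2 * 0 + 1) * g (δ * u) ≤ a₀ * K₀ := by
          rw [mul_zero, zero_add, pow_one]
          exact mul_le_mul hu.2 h3 (hg0 _) (by linarith)
        calc δ ^ 2 * (u ^ (2 * 0 + 1) * g (δ * u)) ≤ δ ^ 2 * (a₀ * K₀) := by gcongr
          _ = _ := by ring
    refine h2.trans (le_of_eq ?_)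
    rw [setIntegral_const, Real.volume_real_Ioc_of_le (by linarith), smul_eq_mul]
    ring
  have v2 : ∫ u in Ioi 0, qδ u * (2 * η) = m * (2 * η) := by
    rw [integral_mul_const, hmδ]
  have v3 : ∫ u in Ioi 0, qδ u * (Ioi R).indicator (fun u => 1 + u) u ≤ η := by
    have e1 : ∫ u in Ioi 0, qδ u * (Ioi R).indicator (fun u => 1 + u) u =
        δ ^ 2 * ∫ u in Ioi R, qw g 0 δ u * (1 + u) := by
      have h1 : (fun u => qδ u * (Ioi R).indicator (fun u => 1 + u) u) =
          (Ioi R).indicator (fun u => δ ^ 2 * (qw g 0 δ u * (1 + u))) := by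
        ext u
        by_cases hu : u ∈ Ioi R
        · rw [indicator_of_mem hu, indicator_of_mem hu, hqδeq]; ring
        · rw [indicator_of_notMem hu, indicator_of_notMem hu, mul_zero]
      rw [h1, setIntegral_indicator measurableSet_Ioi, Ioi_inter_Ioi, max_eq_right hR0, integral_const_mul]
    rw [e1]
    have hδsq : δ ^ 2 ≤ 1 := by nlinarith
    have h0 : 0 ≤ ∫ u in Ioi R, qw g 0 δ u * (1 + u) := by
      apply setIntegral_nonneg measurableSet_Ioi
      intro u hu
      have hu' : R < u := hu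
      exact mul_nonneg (qw_nonneg hg0 0 δ (by linarith)) (by linarith)
    calc δ ^ 2 * ∫ u in Ioi R, qw g 0 δ u * (1 + u) ≤ 1 * η := by
          apply mul_le_mul hδsq hRt h0 (by norm_num)
      _ = η := one_mul _
  have vtot : ∫ u in Ioi 0, qδ u * w u ≤ δ ^ 2 * K₀ * a₀ ^ 3 + m * (2 * η) + η := by
    have e1 : ∫ u in Ioi 0, qδ u * w u = (∫ u in Ioi 0, qδ u * (Iic a₀).indicator (fun _ => a₀) u) +
        (∫ u in Ioi 0, qδ u * (2 * η)) + ∫ u in Ioi 0, qδ u * (Ioi R).indicator (fun u => 1 + u) u := by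
      have i12 : IntegrableOn (fun u => qδ u * (Iic a₀).indicator (fun _ => a₀) u + qδ u * (2 * η)) (Ioi 0) :=
        i1.add i2
      rw [← integral_add i1 i2, ← integral_add i12 i3]
      congr 1
      ext u
      simp only [hw]
      ring
    rw [e1]
    linarith
  have hJlow := JJ_lower hTPδ hqδ0 hT hwI hwlow
  rw [hmδ] at hJlow
  have hJup := hJb T hT
  have hODT := hT₁ T hTT₁
  have hODN : ‖Spair (fun v => χ (v / δ) / δ) T - Spair0 (fun v => χ (v / δ) / δ) T‖ / NT T ≤ 2 * π * C * δ := by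
    rw [div_le_iff₀ hNT]
    refine hODT.trans (le_of_eq ?_)
    unfold NT
    field_simp
  have hJabs := le_abs_self (JJ qδ T)
  have hηm : m * (2 * η) + η = θ * m / 8 := by
    rw [hη]; field_simp
  -- conclusion
  have hup : (Mr T - 1) / 2 * m ≤ 3 * (θ * m / 8) := by linarith
  have hup2 : Mr T - 1 ≤ 3 * θ / 4 := by
    have h1 : (Mr T - 1) * m ≤ 3 * θ / 4 * m := by linarith
    exact le_of_mul_le_mul_right h1 hm0
  have hlo := Mr_ge_ratio hT
  have hlo2 := (abs_lt.1 hNC).1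
  rw [Real.dist_eq, abs_lt]
  constructor
  · linarith
  · linarith

end Pool.Agent.PairCorr
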