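import Mathlib
import Pool.Agent.PairCorr.A_Step1

set_option autoImplicit false

namespace Pool.Agent.PairCorr

open MeasureTheory Filter Topology Set Real
open scoped ENNReal ComplexConjugate

/-- **Step 2**: if `Mr → 1` then all small band test integrals converge to the GUE value. -/
theorem JJ_tendsto : ∃ b₀ : ℝ, 0 < b₀ ∧ b₀ ≤ 1 ∧ ∀ q χ : ℝ → ℝ, TP q χ b₀ → ∀ l : Filter ℝ, l ≤ atTop →
    Tendsto Mr l (𝓝 1) → Tendsto (JJ q) l (𝓝 0) := by
  obtain ⟨b₀, hb₀, hb₀1, hJ⟩ := JJ_bound statementS'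
  obtain ⟨b₁, hb₁, hOD⟩ := statementOD2'
  refine ⟨min b₀ b₁, lt_min hb₀ hb₁, (min_le_left _ _).trans hb₀1, fun q χ hq l hl hM => ?_⟩
  obtain ⟨e, he, hJb⟩ := hJ q χ (hq.mono (min_le_left _ _))
  have h1 := hOD χ (hq.mono (min_le_right _ _)).tf hq.even l hl (offm_small hl hM)
  have h2 : Tendsto (fun T => e T + 2 * π * (‖Spair χ T - Spair0 χ T‖ / (T * Real.log T))) l (𝓝 0) := by
    have := (he.mono_left hl).add (h1.const_mul (2 * π))
    simpa using this
  have hev : ∀ᶠ T in l, Real.exp 1 ≤ T := (eventually_ge_atTop (Real.exp 1)).filter_mono hl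
  apply squeeze_zero_norm' _ h2
  filter_upwards [hev] with T hT
  rw [Real.norm_eq_abs]
  refine (hJb T hT).trans (le_of_eq ?_)
  congr 1
  unfold NT
  have hT0 : 0 < T := (Real.exp_pos 1).trans_le hT
  have hL1 : 1 ≤ Real.log T := by rw [Real.le_log_iff_exp_le hT0]; exact hT
  have hpi := Real.pi_pos
  field_simp

/-- the abstract conclusion: one-sided exponentially precise bounds at infinity plus `Mr → 1` give
the full asymptotics -/
theorem Lr_tendsto_of {l : Filter ℝ} [l.IsCountablyGenerated] (hl : l ≤ atTop) (hM : Tendsto Mr l (𝓝 1))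
    {A B c sgn : ℝ} (hc : 0 < c) (hsgn : sgn = 1 ∨ sgn = -1)
    (hi : ∀ a ≥ A, ∀ ε > 0, ∀ᶠ T in l, -(B * Real.exp (-(c * a))) - ε ≤ sgn * (Lr T a - gue a)) :
    ∀ a > 0, Tendsto (fun T => Lr T a) l (𝓝 (gue a)) := by
  obtain ⟨b₀, hb₀, hb₀1, hJ⟩ := JJ_tendsto
  obtain ⟨g, hg0, hgc, hg1, hge, hgd, hfam⟩ := exists_g hb₀
  obtain ⟨C, hC, T₀, hT₀, hq⟩ := quad_bounds
  have hev : ∀ᶠ T in l, T₀ ≤ T := (eventually_ge_atTop T₀).filter_mono hl
  set D : ℝ → ℝ → ℝ := fun T u => Mr (max T (Real.exp 1)) / 2 + Lr (max T (Real.exp 1)) u with hD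
  set G : ℝ → ℝ := fun u => 1 / 2 + gue u with hG
  have hDm : ∀ T, Monotone (D T) := fun T => (Lr_mono (le_max_right _ _)).const_add _
  have hGl : ∀ u v, |G u - G v| ≤ |u - v| := by
    intro u v
    simp only [hG]
    rw [add_sub_add_left_eq_sub]
    exact gue_lipschitz u v
  have hDeq : ∀ T, T₀ ≤ T → ∀ u, D T u = Mr T / 2 + Lr T u := by
    intro T hT u
    simp only [hD, max_eq_left (hT₀.trans hT)]
  have hDC : ∀ᶠ T in l, ∀ u ≥ 0, |D T u - G u| ≤ (2 * C + 2) * (1 + u) ^ 2 := by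
    filter_upwards [hev] with T hT u hu
    have hu' : (0:ℝ) ≤ u := hu
    have hTe := hT₀.trans hT
    obtain ⟨h1, h2⟩ := hq T hT
    have h3 := h2 u hu
    have h4 := Mr_nonneg hTe
    have h5 := Lr_nonneg hTe u
    have h6 := gue_nonneg hu'
    have h7 := gue_le hu'
    rw [hDeq T hT]
    simp only [hG]
    rw [abs_le]
    have h8 : (1:ℝ) ≤ (1 + u) ^ 2 := by nlinarith
    have h9 : u ≤ (1 + u) ^ 2 := by nlinarith
    have h10 : C ≤ C * (1 + u) ^ 2 := le_mul_of_one_le_right hC.le h8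
    constructor
    · nlinarith
    · nlinarith
  have hii : ∀ n : ℕ, ∀ η ∈ Ioo (0:ℝ) 1,
      Tendsto (fun T => ∫ u in Ioi 0, qw g n η u * (D T u - G u)) l (𝓝 0) := by
    intro n η hη
    obtain ⟨hrd, χ, hTF, hχe, hker⟩ := hfam n η hη.1 hη.2.le
    have hTP : TP (qw g n η) χ b₀ := ⟨qw_cont hgc n η, hrd, qw_odd hge n η, hTF, hχe, hker⟩
    refine (hJ _ χ hTP l hl hM).congr' ?_
    filter_upwards [hev] with T hT
    unfold JJ
    congr 1
    ext u
    rw [hDeq T hT]
  have hMe : ∀ᶠ T in l, ∀ a, D T a - G a = (Mr T - 1) / 2 + (Lr T a - gue a) := by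
    filter_upwards [hev] with T hT a
    rw [hDeq T hT]
    simp only [hG]; ring
  have hsgn' : |sgn| = 1 := by rcases hsgn with h | h <;> rw [h] <;> simp
  have hiD : ∀ a ≥ A, ∀ ε > 0, ∀ᶠ T in l, -(|B| * Real.exp (-(c * a))) - ε ≤ sgn * (D T a - G a) := by
    intro a ha ε hε
    have h1 : ∀ᶠ T in l, |Mr T - 1| < ε := by
      have := Metric.tendsto_nhds.1 hM ε hε
      simpa [Real.dist_eq] using this
    filter_upwards [hi a ha (ε / 2) (by linarith), h1, hMe] with T h2 h3 h4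
    rw [h4, mul_add]
    have h5 : |sgn * ((Mr T - 1) / 2)| ≤ ε / 2 := by
      rw [abs_mul, hsgn', one_mul, abs_div, abs_of_pos (by norm_num : (0:ℝ) < 2)]
      linarith
    have h6 := (abs_le.1 h5).1
    have h7 : B * Real.exp (-(c * a)) ≤ |B| * Real.exp (-(c * a)) :=
      mul_le_mul_of_nonneg_right (le_abs_self B) (Real.exp_pos _).le
    linarith
  have hmain := rigidity_exp (l := l) (D := D) (G := G) (g := g) hDm hGl hDC hg0 hgc hg1 hgd one_pos hii
    (abs_nonneg B) hc hsgn hiD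
  intro a ha
  have h1 := hmain a ha
  have h2 : Tendsto (fun T => (D T a - G a) - (Mr T - 1) / 2 + gue a) l (𝓝 (gue a)) := by
    have h3 : Tendsto (fun T => (Mr T - 1) / 2) l (𝓝 0) := by
      have := (hM.sub_const 1).div_const 2
      simpa using this
    have := (h1.sub h3).add_const (gue a)
    simpa using this
  refine h2.congr' ?_
  filter_upwards [hMe] with T hT
  rw [hT]; ring

/-- **Rigidity of the pair correlation function**, lower bound form. -/
theorem main_lower {l : Filter ℝ} [l.IsCountablyGenerated] (hl : l ≤ atTop) {A B c : ℝ} (hc : 0 < c)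
    (hi : ∀ a ≥ A, ∀ ε > 0, ∀ᶠ T in l, gue a - B * Real.exp (-(c * a)) - ε ≤ Lr T a) :
    ∀ a > 0, Tendsto (fun T => Lr T a) l (𝓝 (gue a)) := by
  have hlow : LowInf l := by
    intro η hη
    have h1 : Tendsto (fun a : ℝ => B * Real.exp (-(c * a))) atTop (𝓝 0) := by
      have h2 : Tendsto (fun a : ℝ => c * a) atTop atTop := tendsto_id.const_mul_atTop hc
      have := (Real.tendsto_exp_neg_atTop_nhds_zero.comp h2).const_mul B
      simpa using this
    have h3 : ∀ᶠ a in atTop, B * Real.exp (-(c * a)) < η / 2 := h1.eventually (gt_mem_nhds (by linarith))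
    obtain ⟨A', hA'⟩ := eventually_atTop.1 h3
    refine ⟨max A A', fun a ha => ?_⟩
    filter_upwards [hi a ((le_max_left _ _).trans ha) (η / 2) (by linarith)] with T hT
    have := hA' a ((le_max_right _ _).trans ha)
    linarith
  refine Lr_tendsto_of hl (Mr_tendsto hl hlow) (A := A) (B := B) hc (Or.inl rfl) ?_
  intro a ha ε hε
  filter_upwards [hi a ha ε hε] with T hT
  linarith

/-- **Rigidity of the pair correlation function**, upper bound form. -/
theorem main_upper {l : Filter ℝ} [l.IsCountablyGenerated] (hl : l ≤ atTop) (hM : Tendsto Mr l (𝓝 1))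
    {A B c : ℝ} (hc : 0 < c)
    (hi : ∀ a ≥ A, ∀ ε > 0, ∀ᶠ T in l, Lr T a ≤ gue a + B * Real.exp (-(c * a)) + ε) :
    ∀ a > 0, Tendsto (fun T => Lr T a) l (𝓝 (gue a)) := by
  refine Lr_tendsto_of hl hM (A := A) (B := B) hc (Or.inr rfl) ?_
  intro a ha ε hε
  filter_upwards [hi a ha ε hε] with T hT
  linarith

end Pool.Agent.PairCorr
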