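import Mathlib
import Pool.Agent.PairCorr.T_Family

set_option autoImplicit false

namespace Pool.Agent.PairCorr

open MeasureTheory Filter Topology Set Real
open scoped FourierTransform Convolution

/-! ### Algebra of kernels -/

lemma TF.const_mul {φ : ℝ → ℝ} {b : ℝ} (h : TF φ b) (c : ℝ) : TF (fun v => c * φ v) b where
  smooth := contDiff_const.mul h.smooth
  supp := by intro v hv; simp [h.supp v hv]

lemma Kc_const_mul (φ : ℝ → ℝ) (c : ℝ) (w : ℂ) : Kc (fun v => c * φ v) w = (c : ℂ) * Kc φ w := by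
  unfold Kc
  rw [← integral_const_mul]
  congr 1
  ext v
  push_cast; ring

/-- products of kernels are kernels -/
lemma TF.conv {φ ψ : ℝ → ℝ} {a b : ℝ} (h1 : TF φ a) (h2 : TF ψ b) :
    ∃ χ : ℝ → ℝ, TF χ (a + b) ∧ ∀ w, Kc χ w = Kc φ w * Kc ψ w := by
  set χ : ℝ → ℝ := fun x => ∫ t, φ t * ψ (x - t) with hχ
  refine ⟨χ, ⟨?_, ?_⟩, ?_⟩
  · have h := h2.hasCompactSupport.contDiff_convolution_right (n := (⊤ : ℕ∞)) (μ := volume)
      (ContinuousLinearMap.mul ℝ ℝ) h1.integrable.locallyIntegrable h2.smooth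
    exact h
  · intro v hv
    simp only [hχ]
    have hz : ∀ t, φ t * ψ (v - t) = 0 := by
      intro t
      by_cases ht : a < |t|
      · rw [h1.supp t ht, zero_mul]
      · push Not at ht
        have : b < |v - t| := by
          have := abs_sub_abs_le_abs_sub v t
          linarith
        rw [h2.supp _ this, mul_zero]
    simp_rw [hz]
    simp
  · intro w
    have i1 := h1.integrable_exp w
    have i2 := h2.integrable_exp w
    have h := integral_convolution (μ := volume) (ν := volume) (ContinuousLinearMap.mul ℂ ℂ) i1 i2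
    simp only [ContinuousLinearMap.mul_apply'] at h
    unfold Kc
    rw [← h]
    congr 1
    ext x
    rw [convolution_def]
    simp only [ContinuousLinearMap.mul_apply', hχ]
    rw [← integral_complex_ofReal, ← integral_mul_const]
    congr 1
    ext t
    have e : Complex.exp (x * w) = Complex.exp (t * w) * Complex.exp (((x - t : ℝ) : ℂ) * w) := by
      rw [← Complex.exp_add]; congr 1; push_cast; ring
    rw [e]
    push_cast; ring

lemma TF.pow_succ {φ : ℝ → ℝ} {a : ℝ} (h : TF φ a) (n : ℕ) :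
    ∃ χ : ℝ → ℝ, TF χ ((n + 1) * a) ∧ ∀ w, Kc χ w = Kc φ w ^ (n + 1) := by
  induction n with
  | zero => exact ⟨φ, by simpa using h, fun w => by simp⟩
  | succ n ih =>
    obtain ⟨χ, hχ, hK⟩ := ih
    obtain ⟨χ', hχ', hK'⟩ := hχ.conv h
    refine ⟨χ', ?_, fun w => ?_⟩
    · have e : ((n + 1 : ℕ) + 1 : ℝ) * a = (n + 1) * a + a := by push_cast; ring
      rw [e]; exact hχ'
    · rw [hK', hK, ← _root_.pow_succ]

lemma TF.pow_mul {φ : ℝ → ℝ} {b : ℝ} (h : TF φ b) (k : ℕ) :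
    ∃ χ : ℝ → ℝ, TF χ b ∧ ∀ w, Kc χ w = w ^ k * Kc φ w := by
  obtain ⟨h1, h2⟩ := TF_iter h k
  refine ⟨fun v => (-1) ^ k * (_root_.deriv^[k] φ) v, h1.const_mul _, fun w => ?_⟩
  rw [Kc_const_mul, h2]
  push_cast; ring

lemma TF.modulate {φ : ℝ → ℝ} {b : ℝ} (h : TF φ b) (ξ : ℝ) :
    ∃ χ : ℝ → ℝ, TF χ (b + |ξ|) ∧ ∀ w, Kc χ w = Complex.exp (ξ * w) * Kc φ w := by
  refine ⟨fun v => φ (v + -ξ), by simpa using h.shift (-ξ), fun w => ?_⟩
  unfold Kc
  rw [← integral_const_mul, ← integral_add_right_eq_self (fun v : ℝ =>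
    ((φ (v + -ξ) : ℝ) : ℂ) * Complex.exp (v * w)) ξ]
  congr 1
  ext v
  have e : Complex.exp (((v + ξ : ℝ) : ℂ) * w) = Complex.exp (ξ * w) * Complex.exp (v * w) := by
    rw [← Complex.exp_add]; congr 1; push_cast; ring
  rw [e, show v + ξ + -ξ = v by ring]
  ring

/-! ### The basic bump and its transform -/

lemma exists_phi0 : ∃ φ : ℝ → ℝ, TF φ 1 ∧ (∀ v, φ (-v) = φ v) ∧ (∀ v, 0 ≤ φ v) ∧ ∫ v, φ v = 1 := by
  set β : ℝ → ℝ := fun v => Real.smoothTransition (1 ^ 2 - v ^ 2) with hβ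
  have hβTF : TF β 1 := by
    refine ⟨Real.smoothTransition.contDiff.comp (by fun_prop), fun v hv => ?_⟩
    simp only [hβ]
    apply Real.smoothTransition.zero_of_nonpos
    have : 1 ^ 2 < v ^ 2 := by
      rw [← sq_abs v]
      exact pow_lt_pow_left₀ hv zero_le_one (by norm_num)
    linarith
  have hpos : 0 < ∫ v, β v := by
    apply Continuous.integral_pos_of_hasCompactSupport_nonneg_nonzero hβTF.cont hβTF.hasCompactSupport (x := 0)
    · intro v
      exact Real.smoothTransition.nonneg _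
    · have h1 : 0 < Real.smoothTransition (1 ^ 2 - 0 ^ 2) := Real.smoothTransition.pos_of_pos (by norm_num)
      simp only [hβ]
      exact h1.ne'
  refine ⟨fun v => (∫ v, β v)⁻¹ * β v, hβTF.const_mul _, ?_, ?_, ?_⟩
  · intro v
    have : β (-v) = β v := by simp only [hβ]; rw [neg_sq]
    beta_reduce
    rw [this]
  · intro v
    exact mul_nonneg (inv_nonneg.2 hpos.le) (Real.smoothTransition.nonneg _)
  · rw [integral_const_mul, inv_mul_cancel₀ hpos.ne']

/-- a fixed even nonnegative bump on `[-1,1]` of mass one -/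
noncomputable def phi0 : ℝ → ℝ := Classical.choose exists_phi0

lemma phi0_TF : TF phi0 1 := (Classical.choose_spec exists_phi0).1
lemma phi0_even (v : ℝ) : phi0 (-v) = phi0 v := (Classical.choose_spec exists_phi0).2.1 v
lemma phi0_nonneg (v : ℝ) : 0 ≤ phi0 v := (Classical.choose_spec exists_phi0).2.2.1 v
lemma phi0_mass : ∫ v, phi0 v = 1 := (Classical.choose_spec exists_phi0).2.2.2

/-- its transform -/
noncomputable def h0 (x : ℝ) : ℝ := ∫ v, phi0 v * Real.cos (v * (2 * π * x))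

lemma Kc_phi0 (x : ℝ) : Kc phi0 ((2 * π * x : ℝ) * Complex.I) = (h0 x : ℂ) :=
  Kc_even_real phi0_TF phi0_even _

lemma h0_cont : Continuous h0 := by
  have h1 : Continuous (fun u : ℝ => Kc phi0 ((2 * π * u : ℝ) * Complex.I)) :=
    phi0_TF.differentiable_Kc.continuous.comp (by fun_prop)
  have h2 : h0 = fun u => (Kc phi0 ((2 * π * u : ℝ) * Complex.I)).re := by
    funext u; rw [Kc_phi0 u]; simp
  rw [h2]
  exact Complex.continuous_re.comp h1

lemma h0_even (x : ℝ) : h0 (-x) = h0 x := by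
  unfold h0
  congr 1
  ext v
  rw [show v * (2 * π * -x) = -(v * (2 * π * x)) by ring, Real.cos_neg]

lemma h0_zero : h0 0 = 1 := by
  unfold h0
  simp [phi0_mass]

lemma phi0_cos_int (x : ℝ) : Integrable (fun v => phi0 v * Real.cos (v * (2 * π * x))) := by
  refine phi0_TF.integrable.mul_bdd (c := 1) (Continuous.aestronglyMeasurable (by fun_prop)) ?_
  exact Eventually.of_forall fun v => Real.abs_cos_le_one _

lemma abs_h0_le (x : ℝ) : |h0 x| ≤ 1 := by
  unfold h0
  rw [← Real.norm_eq_abs]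
  refine (norm_integral_le_integral_norm _).trans ?_
  rw [← phi0_mass]
  apply integral_mono (phi0_cos_int x).norm phi0_TF.integrable
  intro v
  show ‖phi0 v * Real.cos (v * (2 * π * x))‖ ≤ phi0 v
  rw [norm_mul, Real.norm_of_nonneg (phi0_nonneg v)]
  have := Real.abs_cos_le_one (v * (2 * π * x))
  rw [Real.norm_eq_abs]
  nlinarith [phi0_nonneg v]

lemma one_sub_h0_le (x : ℝ) : 1 - h0 x ≤ 2 * π ^ 2 * x ^ 2 := by
  have h1 : 1 - h0 x = ∫ v, phi0 v * (1 - Real.cos (v * (2 * π * x))) := by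
    have h2 : ∫ v, phi0 v * (1 - Real.cos (v * (2 * π * x))) =
        (∫ v, phi0 v) - ∫ v, phi0 v * Real.cos (v * (2 * π * x)) := by
      rw [← integral_sub phi0_TF.integrable (phi0_cos_int x)]
      congr 1
      ext v; ring
    rw [h2, phi0_mass]
    rfl
  rw [h1]
  have h2 : ∫ v, phi0 v * (1 - Real.cos (v * (2 * π * x))) ≤ ∫ v, phi0 v * (2 * π ^ 2 * x ^ 2) := by
    apply integral_mono
    · refine ((phi0_TF.integrable).sub (phi0_cos_int x)).congr (Eventually.of_forall fun v => ?_)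
      simp only [Pi.sub_apply]; ring
    · exact phi0_TF.integrable.mul_const _
    · intro v
      show phi0 v * (1 - Real.cos (v * (2 * π * x))) ≤ phi0 v * (2 * π ^ 2 * x ^ 2)
      by_cases hv : 1 < |v|
      · rw [phi0_TF.supp v hv]; simp
      · push Not at hv
        apply mul_le_mul_of_nonneg_left _ (phi0_nonneg v)
        have h3 := Real.one_sub_sq_div_two_le_cos (x := v * (2 * π * x))
        have h4 : v ^ 2 ≤ 1 := by
          rw [← sq_abs]; nlinarith [abs_nonneg v]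
        have h5 : (v * (2 * π * x)) ^ 2 / 2 = v ^ 2 * (2 * π ^ 2 * x ^ 2) := by ring
        have h6 : 0 ≤ 2 * π ^ 2 * x ^ 2 := by positivity
        nlinarith
  rwa [integral_mul_const, phi0_mass, one_mul] at h2

lemma exists_K0 : ∃ K : ℝ, 1 ≤ K ∧ ∀ x : ℝ, |x| * |h0 x| ≤ K := by
  obtain ⟨C, hC, hb⟩ := phi0_TF.decay 1
  refine ⟨max C 1, le_max_right _ _, fun x => ?_⟩
  have h := hb ((2 * π * x : ℝ) * Complex.I)
  rw [Kc_phi0 x, Complex.norm_real, Real.norm_eq_abs, pow_one] at h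
  have hre : ((2 * π * x : ℝ) * Complex.I : ℂ).re = 0 := by simp
  rw [hre, abs_zero, mul_zero, Real.exp_zero, mul_one, norm_mul, Complex.norm_real, Complex.norm_I,
    mul_one, Real.norm_eq_abs, abs_mul, abs_of_pos (by positivity : 0 < 2 * π)] at h
  have hpi := Real.pi_gt_three
  have h2 : |x| * |h0 x| ≤ 2 * π * |x| * |h0 x| := by
    have : 0 ≤ |x| * |h0 x| := by positivity
    nlinarith
  exact (h2.trans h).trans (le_max_left _ _)

/-- the decay constant -/
noncomputable def K0 : ℝ := Classical.choose exists_K0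
lemma one_le_K0 : 1 ≤ K0 := (Classical.choose_spec exists_K0).1
lemma K0_pos : 0 < K0 := lt_of_lt_of_le one_pos one_le_K0
lemma h0_decay (x : ℝ) : |x| * |h0 x| ≤ K0 := (Classical.choose_spec exists_K0).2 x

/-! ### The approximate identity `gg` -/

/-- `gg e N u = h0 (e u / N) ^ (2 N)`. -/
noncomputable def gg (e : ℝ) (N : ℕ) (u : ℝ) : ℝ := h0 (e * u / N) ^ (2 * N)

lemma gg_nonneg (e : ℝ) (N : ℕ) (u : ℝ) : 0 ≤ gg e N u := by
  unfold gg; exact Even.pow_nonneg (even_two_mul N) _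

lemma gg_le_one (e : ℝ) (N : ℕ) (u : ℝ) : gg e N u ≤ 1 := by
  unfold gg
  rw [← Even.pow_abs (even_two_mul N)]
  exact pow_le_one₀ (abs_nonneg _) (abs_h0_le _)

lemma gg_cont (e : ℝ) (N : ℕ) : Continuous (gg e N) := by
  unfold gg
  exact (h0_cont.comp (by fun_prop)).pow _

lemma gg_even (e : ℝ) (N : ℕ) (u : ℝ) : gg e N (-u) = gg e N u := by
  unfold gg
  rw [show e * -u / N = -(e * u / N) by ring, h0_even]

lemma gg_decay {e : ℝ} (he : 0 < e) {N : ℕ} (hN : 0 < N) {u : ℝ} (hu : 0 < u) :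
    gg e N u ≤ (K0 * N / (e * u)) ^ (2 * N) := by
  unfold gg
  rw [← Even.pow_abs (even_two_mul N)]
  apply pow_le_pow_left₀ (abs_nonneg _)
  have hN' : (0:ℝ) < N := by exact_mod_cast hN
  have h := h0_decay (e * u / N)
  rw [abs_of_pos (by positivity : 0 < e * u / N)] at h
  rw [le_div_iff₀ (by positivity)]
  have h2 : e * u / N * |h0 (e * u / N)| * N ≤ K0 * N := mul_le_mul_of_nonneg_right h hN'.le
  calc |h0 (e * u / N)| * (e * u) = e * u / N * |h0 (e * u / N)| * N := by field_simp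
    _ ≤ _ := h2

lemma one_sub_gg_le {e : ℝ} {N : ℕ} (hN : 0 < N) (u : ℝ) :
    1 - gg e N u ≤ 4 * π ^ 2 * e ^ 2 * u ^ 2 / N := by
  have hN' : (0:ℝ) < N := by exact_mod_cast hN
  set x := e * u / N with hx
  have h1 := one_sub_h0_le x
  have h2 := abs_le.1 (abs_h0_le x)
  have h3 : gg e N u = (1 + (h0 x ^ 2 - 1)) ^ N := by
    unfold gg
    rw [pow_mul]
    congr 1
    ring
  have h4 := one_add_mul_le_pow (a := h0 x ^ 2 - 1) (by nlinarith [sq_nonneg (h0 x)]) N
  rw [← h3] at h4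
  have h5 : 1 - h0 x ^ 2 ≤ 2 * (1 - h0 x) := by nlinarith [h2.1, h2.2]
  have h6 : 1 - h0 x ^ 2 ≤ 4 * π ^ 2 * x ^ 2 := by linarith
  have h7 : (N:ℝ) * (1 - h0 x ^ 2) ≤ N * (4 * π ^ 2 * x ^ 2) := mul_le_mul_of_nonneg_left h6 hN'.le
  have h8 : (N:ℝ) * (4 * π ^ 2 * x ^ 2) = 4 * π ^ 2 * e ^ 2 * u ^ 2 / N := by
    rw [hx]; field_simp
  linarith

lemma gg_tendsto {e : ℝ} (u : ℝ) {Ns : ℕ → ℕ} (hNs : Tendsto Ns atTop atTop) :
    Tendsto (fun j => gg e (Ns j) u) atTop (𝓝 1) := by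
  have h1 : Tendsto (fun j => 4 * π ^ 2 * e ^ 2 * u ^ 2 / (Ns j : ℝ)) atTop (𝓝 0) :=
    tendsto_const_nhds.div_atTop (tendsto_natCast_atTop_atTop.comp hNs)
  have h2 : Tendsto (fun j => 1 - 4 * π ^ 2 * e ^ 2 * u ^ 2 / (Ns j : ℝ)) atTop (𝓝 1) := by
    have := h1.const_sub 1
    simpa using this
  apply tendsto_of_tendsto_of_tendsto_of_le_of_le' h2 tendsto_const_nhds
  · filter_upwards [hNs.eventually (eventually_gt_atTop 0)] with j hj
    have := one_sub_gg_le (e := e) hj u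
    linarith
  · exact Eventually.of_forall fun j => gg_le_one _ _ _

/-- `gg` is a kernel of band `2e`. -/
lemma gg_kernel {e : ℝ} (he : 0 < e) {N : ℕ} (hN : 0 < N) :
    ∃ ψ : ℝ → ℝ, TF ψ (2 * e) ∧ ∀ u : ℝ, Kc ψ ((2 * π * u : ℝ) * Complex.I) = (gg e N u : ℂ) := by
  have hN' : (0:ℝ) < N := by exact_mod_cast hN
  have hη : 0 < e / N := by positivity
  have h1 := phi0_TF.scale hη
  obtain ⟨χ, hχ, hK⟩ := h1.pow_succ (2 * N - 1)
  have e1 : 2 * N - 1 + 1 = 2 * N := by omega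
  refine ⟨χ, ?_, fun u => ?_⟩
  · have e2 : (((2 * N - 1 : ℕ) : ℝ) + 1) * (1 * (e / N)) = 2 * e := by
      have : (((2 * N - 1 : ℕ) : ℝ) + 1) = 2 * N := by exact_mod_cast e1
      rw [this]; field_simp
    rwa [e2] at hχ
  · rw [hK, e1, Kc_scale phi0 hη]
    have e3 : ((e / N : ℝ) : ℂ) * (((2 * π * u : ℝ) : ℂ) * Complex.I) =
        ((2 * π * (e * u / N) : ℝ) : ℂ) * Complex.I := by
      push_cast; ring
    rw [e3, Kc_phi0]
    unfold gg
    push_cast; rfl

end Pool.Agent.PairCorr
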