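import Mathlib
import Pool.Agent.PairCorr.F_WinKernel
import Pool.Agent.PairCorr.F_RigidityExp
import Pool.Agent.PairCorr.T_Gue

set_option autoImplicit false

namespace Pool.Agent.PairCorr

open MeasureTheory Filter Topology Set Real

/-! ### Taylor expansion of `exp (i y)` -/

lemma taylor_exp (N : ℕ) : ∀ y : ℝ, 0 ≤ y →
    ‖Complex.exp (y * Complex.I) - ∑ k ∈ Finset.range N, (y * Complex.I) ^ k / (k.factorial : ℂ)‖ ≤
      y ^ N / N.factorial := by
  induction N with
  | zero =>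
    intro y _
    rw [Finset.range_zero, Finset.sum_empty, sub_zero, Complex.norm_exp_ofReal_mul_I]
    simp
  | succ N ih =>
    intro y hy
    set f : ℝ → ℂ := fun y => Complex.exp (y * Complex.I) -
      ∑ k ∈ Finset.range (N + 1), (y * Complex.I) ^ k / (k.factorial : ℂ) with hf
    set f' : ℝ → ℂ := fun y => Complex.I * (Complex.exp (y * Complex.I) -
      ∑ k ∈ Finset.range N, (y * Complex.I) ^ k / (k.factorial : ℂ)) with hf'
    have hd : ∀ x : ℝ, HasDerivAt f (f' x) x := by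
      intro x
      have h0 : HasDerivAt (fun y : ℝ => (y : ℂ) * Complex.I) Complex.I x := by
        simpa using (Complex.ofRealCLM.hasDerivAt (x := x)).mul_const Complex.I
      have h1 := h0.cexp
      have h2 : HasDerivAt (fun y : ℝ => ∑ k ∈ Finset.range (N + 1), ((y : ℂ) * Complex.I) ^ k / (k.factorial : ℂ))
          (∑ k ∈ Finset.range (N + 1), ((k : ℂ) * ((x : ℂ) * Complex.I) ^ (k - 1) * Complex.I) / (k.factorial : ℂ)) x := by
        apply HasDerivAt.fun_sum
        intro k _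
        exact (h0.pow k).div_const _
      refine (h1.sub h2).congr_deriv ?_
      simp only [hf']
      rw [Finset.sum_range_succ']
      have e1 : ∀ k ∈ Finset.range N, (((k + 1 : ℕ) : ℂ) * ((x : ℂ) * Complex.I) ^ (k + 1 - 1) * Complex.I) /
          ((k + 1).factorial : ℂ) = Complex.I * (((x : ℂ) * Complex.I) ^ k / (k.factorial : ℂ)) := by
        intro k _
        rw [Nat.factorial_succ, Nat.add_sub_cancel]
        have hk : ((k : ℂ) + 1) ≠ 0 := by exact_mod_cast Nat.succ_ne_zero k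
        have hk' : (k.factorial : ℂ) ≠ 0 := by exact_mod_cast Nat.factorial_ne_zero k
        push_cast
        field_simp
      rw [Finset.sum_congr rfl e1, ← Finset.mul_sum]
      simp
      ring
    have hB : ∀ x : ℝ, HasDerivAt (fun y : ℝ => y ^ (N + 1) / ((N + 1).factorial : ℝ)) (x ^ N / N.factorial) x := by
      intro x
      refine ((hasDerivAt_pow (N + 1) x).div_const _).congr_deriv ?_
      rw [Nat.factorial_succ, Nat.add_sub_cancel]
      have hk' : (N.factorial : ℝ) ≠ 0 := by exact_mod_cast Nat.factorial_ne_zero N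
      push_cast
      field_simp
    have key := image_norm_le_of_norm_deriv_right_le_deriv_boundary' (a := 0) (b := y) (f := f) (f' := f')
      (B := fun y => y ^ (N + 1) / ((N + 1).factorial : ℝ)) (B' := fun x => x ^ N / N.factorial)
      (fun x _ => (hd x).continuousAt.continuousWithinAt)
      (fun x _ => (hd x).hasDerivWithinAt)
      (by
        simp only [hf]
        rw [Finset.sum_range_succ']
        simp)
      (fun x _ => (hB x).continuousAt.continuousWithinAt)
      (fun x _ => (hB x).hasDerivWithinAt)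
      (fun x hx => by
        simp only [hf', norm_mul, Complex.norm_I, one_mul]
        exact ih x hx.1)
    exact key ⟨hy, le_rfl⟩

/-! ### Spectral gaps -/

/-- `H` (extended oddly) has no spectrum in `(-W, W)`. -/
def Gap (H : ℝ → ℝ) (W : ℝ) : Prop := ∀ φ : ℝ → ℝ, TF φ W →
  ∫ u in Ioi (0:ℝ), (Kc φ ((2 * π * u : ℝ) * Complex.I)).im * H u = 0

lemma Gap.mono {H : ℝ → ℝ} {W W' : ℝ} (h : Gap H W) (hW : W' ≤ W) : Gap H W' :=
  fun φ hφ => h φ (hφ.mono hW)

lemma TF.line_bound {φ : ℝ → ℝ} {b : ℝ} (h : TF φ b) (j : ℕ) : ∃ K : ℝ, 0 ≤ K ∧ ∀ u : ℝ, 0 ≤ u →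
    (1 + u) ^ j * ‖Kc φ ((2 * π * u : ℝ) * Complex.I)‖ ≤ K := by
  obtain ⟨C, hC, hb⟩ := h.decay_one_add j
  refine ⟨C, hC, fun u hu => ?_⟩
  have h1 := hb ((2 * π * u : ℝ) * Complex.I)
  have hre : ((2 * π * u : ℝ) * Complex.I : ℂ).re = 0 := by simp
  rw [hre, abs_zero, mul_zero, Real.exp_zero, mul_one] at h1
  refine le_trans ?_ h1
  apply mul_le_mul_of_nonneg_right _ (norm_nonneg _)
  apply pow_le_pow_left₀ (by positivity)
  rw [norm_mul, Complex.norm_real, Complex.norm_I, mul_one, Real.norm_eq_abs, abs_of_nonneg (by positivity)]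
  have := Real.pi_gt_three
  nlinarith

lemma int_inv_sq : IntegrableOn (fun u : ℝ => ((1 + u) ^ 2)⁻¹) (Ioi 0) := by
  have h := integrable_inv_sq.integrableOn (s := Ioi (0:ℝ))
  refine h.congr_fun (fun u hu => ?_) measurableSet_Ioi
  have hu' : (0:ℝ) < u := hu
  simp only [abs_of_pos hu']

section
variable {H : ℝ → ℝ} {C : ℝ}

lemma int_of_bound (hHm : Measurable H) (hHb : ∀ u, 0 ≤ u → |H u| ≤ C) {f : ℝ → ℝ} (hf : Continuous f)
    {K : ℝ} (hfb : ∀ u, 0 ≤ u → (1 + u) ^ 2 * |f u| ≤ K) : IntegrableOn (fun u => f u * H u) (Ioi 0) := by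
  refine Integrable.mono' (int_inv_sq.const_mul (K * C)) (hf.measurable.mul hHm).aestronglyMeasurable ?_
  filter_upwards [ae_restrict_mem measurableSet_Ioi] with u hu
  have hu' : (0:ℝ) ≤ u := le_of_lt hu
  have h1 := hfb u hu'
  have h2 := hHb u hu'
  rw [norm_mul, Real.norm_eq_abs, Real.norm_eq_abs]
  have h3 : |f u| ≤ K * ((1 + u) ^ 2)⁻¹ := by
    rw [← div_eq_mul_inv, le_div_iff₀ (by positivity)]; linarith
  calc |f u| * |H u| ≤ (K * ((1 + u) ^ 2)⁻¹) * C :=
        mul_le_mul h3 h2 (abs_nonneg _) ((abs_nonneg _).trans h3)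
    _ = _ := by ring

lemma gg_pow_bound {e : ℝ} (he : 0 < e) {N : ℕ} (hN : 0 < N) (k : ℕ) : ∃ K : ℝ, 0 ≤ K ∧
    ∀ u : ℝ, 0 ≤ u → (1 + u) ^ 2 * (u ^ k * gg e N u) ≤ K := by
  obtain ⟨ψ, hψ, hK⟩ := gg_kernel he hN
  obtain ⟨K, hK0, hb⟩ := hψ.line_bound (k + 2)
  refine ⟨K, hK0, fun u hu => ?_⟩
  have h1 := hb u hu
  rw [hK, Complex.norm_real, Real.norm_of_nonneg (gg_nonneg _ _ _)] at h1
  refine le_trans ?_ h1
  have h2 : u ^ k ≤ (1 + u) ^ k := pow_le_pow_left₀ hu (by linarith) k
  have h3 := gg_nonneg e N u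
  calc (1 + u) ^ 2 * (u ^ k * gg e N u) ≤ (1 + u) ^ 2 * ((1 + u) ^ k * gg e N u) := by gcongr
    _ = _ := by rw [pow_add]; ring

/-- integrability of `f * gg * H` for `f` continuous of polynomial growth -/
lemma int_gg (hHm : Measurable H) (hHb : ∀ u, 0 ≤ u → |H u| ≤ C) {e : ℝ} (he : 0 < e) {N : ℕ} (hN : 0 < N)
    {f : ℝ → ℝ} (hf : Continuous f) {k : ℕ} {L : ℝ} (hL : 0 ≤ L) (hfb : ∀ u, 0 ≤ u → |f u| ≤ L * u ^ k) :
    IntegrableOn (fun u => f u * gg e N u * H u) (Ioi 0) := by
  obtain ⟨K, hK, hb⟩ := gg_pow_bound he hN k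
  apply int_of_bound hHm hHb (f := fun u => f u * gg e N u) (hf.mul (gg_cont e N)) (K := L * K)
  intro u hu
  rw [abs_mul, abs_of_nonneg (gg_nonneg _ _ _)]
  have h1 := hfb u hu
  have h2 := hb u hu
  have h3 := gg_nonneg e N u
  calc (1 + u) ^ 2 * (|f u| * gg e N u) ≤ (1 + u) ^ 2 * ((L * u ^ k) * gg e N u) := by gcongr
    _ = L * ((1 + u) ^ 2 * (u ^ k * gg e N u)) := by ring
    _ ≤ L * K := by gcongr

/-- the derivatives at a frequency inside the gap -/
lemma Gap.expPow {W : ℝ} (hG : Gap H W) {e : ℝ} (he : 0 < e) {N : ℕ} (hN : 0 < N) {ξ : ℝ}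
    (hξ : |ξ| + 2 * e ≤ W) (k : ℕ) :
    ∫ u in Ioi (0:ℝ), (Complex.exp (ξ * ((2 * π * u : ℝ) * Complex.I)) *
      ((2 * π * u : ℝ) * Complex.I) ^ k).im * gg e N u * H u = 0 := by
  obtain ⟨ψ, hψ, hK⟩ := gg_kernel he hN
  obtain ⟨ψ1, hψ1, hK1⟩ := hψ.pow_mul k
  obtain ⟨ψ2, hψ2, hK2⟩ := hψ1.modulate ξ
  have h := hG ψ2 (hψ2.mono (by linarith))
  refine Eq.trans ?_ h
  apply integral_congr_ae
  refine Eventually.of_forall fun u => ?_
  beta_reduce
  rw [hK2, hK1, hK, show Complex.exp (ξ * ((2 * π * u : ℝ) * Complex.I)) *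
    (((2 * π * u : ℝ) * Complex.I) ^ k * (gg e N u : ℂ)) = (Complex.exp (ξ * ((2 * π * u : ℝ) * Complex.I)) *
    ((2 * π * u : ℝ) * Complex.I) ^ k) * (gg e N u : ℂ) by ring, Complex.im_mul_ofReal]

lemma kernel_abs_le (ξ u : ℝ) (hu : 0 ≤ u) (k : ℕ) :
    |(Complex.exp (ξ * ((2 * π * u : ℝ) * Complex.I)) * ((2 * π * u : ℝ) * Complex.I) ^ k).im| ≤
      (2 * π) ^ k * u ^ k := by
  refine (Complex.abs_im_le_norm _).trans ?_
  have e1 : (ξ : ℂ) * ((2 * π * u : ℝ) * Complex.I) = ((ξ * (2 * π * u) : ℝ) : ℂ) * Complex.I := by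
    push_cast; ring
  rw [norm_mul, e1, Complex.norm_exp_ofReal_mul_I, one_mul, norm_pow, norm_mul, Complex.norm_real,
    Complex.norm_I, mul_one, Real.norm_eq_abs, abs_of_nonneg (by positivity), mul_pow]

/-- Taylor at a frequency in the gap. -/
lemma Gap.taylor {W : ℝ} (hG : Gap H W) (hHm : Measurable H) (hHb : ∀ u, 0 ≤ u → |H u| ≤ C)
    {e : ℝ} (he : 0 < e) {N : ℕ} (hN : 0 < N) {ξ : ℝ}
    (hξ : |ξ| + 2 * e ≤ W) {s : ℝ} (hs : 0 ≤ s) :
    |∫ u in Ioi (0:ℝ), Real.sin ((ξ + s) * (2 * π * u)) * gg e N u * H u| ≤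
      (2 * π * s) ^ N / N.factorial * ∫ u in Ioi (0:ℝ), u ^ N * gg e N u * |H u| := by
  set w : ℝ → ℂ := fun u => (2 * π * u : ℝ) * Complex.I with hw
  set a : ℕ → ℝ → ℝ := fun k u => (Complex.exp (ξ * w u) * (w u) ^ k).im with ha
  set ρ : ℝ → ℂ := fun u => Complex.exp (((s * (2 * π * u) : ℝ) : ℂ) * Complex.I) -
    ∑ k ∈ Finset.range N, (((s * (2 * π * u) : ℝ) : ℂ) * Complex.I) ^ k / (k.factorial : ℂ) with hρ
  set r : ℝ → ℝ := fun u => (Complex.exp (ξ * w u) * ρ u).im with hr
  have hac : ∀ k, Continuous (a k) := by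
    intro k
    simp only [ha, hw]
    exact Complex.continuous_im.comp (by fun_prop)
  have hrc : Continuous r := by
    simp only [hr, hw, hρ]
    exact Complex.continuous_im.comp (by fun_prop)
  have hsplit : ∀ u : ℝ, Real.sin ((ξ + s) * (2 * π * u)) =
      ∑ k ∈ Finset.range N, (s ^ k / k.factorial) * a k u + r u := by
    intro u
    have e1 : Real.sin ((ξ + s) * (2 * π * u)) = (Complex.exp (((ξ + s) * (2 * π * u) : ℝ) * Complex.I)).im := by
      rw [Complex.exp_ofReal_mul_I_im]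
    have e2 : Complex.exp ((((ξ + s) * (2 * π * u) : ℝ) : ℂ) * Complex.I) =
        Complex.exp (ξ * w u) * Complex.exp (((s * (2 * π * u) : ℝ) : ℂ) * Complex.I) := by
      rw [← Complex.exp_add]
      congr 1
      simp only [hw]
      push_cast; ring
    have e3 : Complex.exp (((s * (2 * π * u) : ℝ) : ℂ) * Complex.I) =
        ∑ k ∈ Finset.range N, (((s * (2 * π * u) : ℝ) : ℂ) * Complex.I) ^ k / (k.factorial : ℂ) + ρ u := by
      simp only [hρ]; ring
    rw [e1, e2, e3, mul_add, Complex.add_im, Finset.mul_sum, Complex.im_sum]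
    congr 1
    apply Finset.sum_congr rfl
    intro k _
    simp only [ha]
    have e4 : Complex.exp (ξ * w u) * ((((s * (2 * π * u) : ℝ) : ℂ) * Complex.I) ^ k / (k.factorial : ℂ)) =
        ((s ^ k / k.factorial : ℝ) : ℂ) * (Complex.exp (ξ * w u) * (w u) ^ k) := by
      simp only [hw]
      push_cast
      rw [show (s : ℂ) * (2 * π * u) * Complex.I = s * (2 * π * u * Complex.I) by ring, mul_pow]
      ring
    rw [e4, Complex.im_ofReal_mul]
  have hrb : ∀ u, 0 ≤ u → |r u| ≤ (2 * π * s) ^ N / N.factorial * u ^ N := by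
    intro u hu
    simp only [hr]
    refine (Complex.abs_im_le_norm _).trans ?_
    have e1 : (ξ : ℂ) * w u = ((ξ * (2 * π * u) : ℝ) : ℂ) * Complex.I := by
      simp only [hw]; push_cast; ring
    rw [norm_mul, e1, Complex.norm_exp_ofReal_mul_I, one_mul]
    refine (taylor_exp N (s * (2 * π * u)) (by positivity)).trans (le_of_eq ?_)
    rw [show s * (2 * π * u) = (2 * π * s) * u by ring, mul_pow]
    ring
  have hab : ∀ k, ∀ u, 0 ≤ u → |a k u| ≤ (2 * π) ^ k * u ^ k := fun k u hu => kernel_abs_le ξ u hu k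
  have hai : ∀ k, IntegrableOn (fun u => a k u * gg e N u * H u) (Ioi 0) := fun k =>
    int_gg hHm hHb he hN (hac k) (L := (2 * π) ^ k) (k := k) (by positivity) (hab k)
  have hri : IntegrableOn (fun u => r u * gg e N u * H u) (Ioi 0) :=
    int_gg hHm hHb he hN hrc (L := (2 * π * s) ^ N / N.factorial) (k := N) (by positivity) hrb
  have hsum : ∫ u in Ioi (0:ℝ), Real.sin ((ξ + s) * (2 * π * u)) * gg e N u * H u =
      ∫ u in Ioi (0:ℝ), r u * gg e N u * H u := by
    have e1 : ∀ u : ℝ, Real.sin ((ξ + s) * (2 * π * u)) * gg e N u * H u =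
        ∑ k ∈ Finset.range N, (s ^ k / k.factorial) * (a k u * gg e N u * H u) + r u * gg e N u * H u := by
      intro u
      rw [hsplit u, add_mul, add_mul, Finset.sum_mul, Finset.sum_mul]
      congr 1
      apply Finset.sum_congr rfl
      intro k _; ring
    simp_rw [e1]
    have hi1 : IntegrableOn (fun u => ∑ k ∈ Finset.range N, (s ^ k / k.factorial) * (a k u * gg e N u * H u)) (Ioi 0) := by
      apply integrable_finsetSum
      intro k _
      exact (hai k).const_mul _
    rw [integral_add hi1 hri, integral_finsetSum _ (fun k _ => (hai k).const_mul _)]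
    have hz : ∀ k ∈ Finset.range N, ∫ u in Ioi (0:ℝ), (s ^ k / k.factorial) * (a k u * gg e N u * H u) = 0 := by
      intro k _
      rw [integral_const_mul]
      have := hG.expPow he hN hξ k
      simp only [ha, hw]
      rw [this, mul_zero]
    rw [Finset.sum_eq_zero hz, zero_add]
  rw [hsum, ← integral_const_mul, ← Real.norm_eq_abs]
  refine (norm_integral_le_integral_norm _).trans ?_
  apply setIntegral_mono_on hri.norm _ measurableSet_Ioi
  · intro u hu
    have hu' : (0:ℝ) ≤ u := le_of_lt hu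
    rw [norm_mul, norm_mul, Real.norm_eq_abs, Real.norm_eq_abs, Real.norm_eq_abs,
      abs_of_nonneg (gg_nonneg e N u)]
    have h1 := hrb u hu'
    have h2 := gg_nonneg e N u
    calc |r u| * gg e N u * |H u| ≤ ((2 * π * s) ^ N / N.factorial * u ^ N) * gg e N u * |H u| := by gcongr
      _ = _ := by ring
  · have h1 : IntegrableOn (fun u => u ^ N * gg e N u * |H u|) (Ioi 0) := by
      refine int_gg (H := fun u => |H u|) hHm.abs (C := C) (fun u hu => by rw [abs_abs]; exact hHb u hu) he hN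
        (f := fun u => u ^ N) (by fun_prop) (L := 1) (k := N) zero_le_one ?_
      intro u hu
      rw [abs_of_nonneg (by positivity), one_mul]
    exact h1.const_mul _

/-- For odd `N`, the moment `∫ u^N gg |H|` is twice the moment of the negative part. -/
lemma Gap.moment {W : ℝ} (hG : Gap H W) (hHm : Measurable H) (hHb : ∀ u, 0 ≤ u → |H u| ≤ C)
    {e : ℝ} (he : 0 < e) (hW : 2 * e ≤ W) (m : ℕ) :
    ∫ u in Ioi (0:ℝ), u ^ (2 * m + 1) * gg e (2 * m + 1) u * |H u| =
      2 * ∫ u in Ioi (0:ℝ), u ^ (2 * m + 1) * gg e (2 * m + 1) u * max (-H u) 0 := by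
  set N := 2 * m + 1 with hN
  have hN0 : 0 < N := by omega
  have h0 : ∫ u in Ioi (0:ℝ), u ^ N * gg e N u * H u = 0 := by
    have h := hG.expPow he hN0 (ξ := 0) (by simpa using hW) N
    have e1 : ∀ u : ℝ, (Complex.exp (((0:ℝ):ℂ) * ((2 * π * u : ℝ) * Complex.I)) *
        ((2 * π * u : ℝ) * Complex.I) ^ N).im * gg e N u * H u =
        ((2 * π) ^ N * (-1) ^ m) * (u ^ N * gg e N u * H u) := by
      intro u
      have e2 : (Complex.exp (((0:ℝ):ℂ) * ((2 * π * u : ℝ) * Complex.I)) *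
        ((2 * π * u : ℝ) * Complex.I) ^ N).im = (2 * π * u) ^ N * (-1) ^ m := by
        rw [Complex.ofReal_zero, zero_mul, Complex.exp_zero, one_mul, mul_pow]
        have e3 : Complex.I ^ N = (((-1) ^ m : ℝ) : ℂ) * Complex.I := by
          rw [hN, pow_succ, pow_mul, Complex.I_sq]
          push_cast; rfl
        rw [e3, ← Complex.ofReal_pow, ← mul_assoc, ← Complex.ofReal_mul, Complex.im_ofReal_mul,
          Complex.I_im, mul_one]
      rw [e2, mul_pow]; ring
    simp_rw [e1] at h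
    rw [integral_const_mul] at h
    have h2 : ((2 * π) ^ N * (-1) ^ m : ℝ) ≠ 0 := by
      apply mul_ne_zero
      · positivity
      · exact pow_ne_zero _ (by norm_num)
    exact (mul_eq_zero.1 h).resolve_left h2
  have hC0 : 0 ≤ C := (abs_nonneg _).trans (hHb 0 le_rfl)
  have iH : IntegrableOn (fun u => u ^ N * gg e N u * H u) (Ioi 0) := by
    refine int_gg hHm hHb he hN0 (f := fun u => u ^ N) (by fun_prop) (L := 1) (k := N) zero_le_one ?_
    intro u hu
    rw [abs_of_nonneg (by positivity), one_mul]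
  have iN : IntegrableOn (fun u => u ^ N * gg e N u * max (-H u) 0) (Ioi 0) := by
    refine int_gg (H := fun u => max (-H u) 0) (hHm.neg.max measurable_const) (C := C) ?_ he hN0
      (f := fun u => u ^ N) (by fun_prop) (L := 1) (k := N) zero_le_one ?_
    · intro u hu
      have := hHb u hu
      rw [abs_of_nonneg (le_max_right _ _)]
      exact max_le ((neg_le_abs _).trans this) hC0
    · intro u hu
      rw [abs_of_nonneg (by positivity), one_mul]
  have e4 : ∀ u : ℝ, u ^ N * gg e N u * |H u| = u ^ N * gg e N u * H u + 2 * (u ^ N * gg e N u * max (-H u) 0) := by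
    intro u
    rcases le_total 0 (H u) with h | h
    · rw [abs_of_nonneg h, max_eq_right (by linarith)]; ring
    · rw [abs_of_nonpos h, max_eq_left (by linarith)]; ring
  simp_rw [e4]
  rw [integral_add iH (iN.const_mul 2), h0, integral_const_mul, zero_add]

/-- bound for the moment of the negative part, with a window `[A, B]`. -/
lemma neg_moment (hHm : Measurable H) (hHb : ∀ u, 0 ≤ u → |H u| ≤ C)
    {e : ℝ} (he : 0 < e) {N : ℕ} (hN : 2 ≤ N) {A B B0 c : ℝ} (hA : 0 < A) (hAB : A ≤ B) (hB0 : 0 ≤ B0)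
    (hc : 0 < c) (hw : ∀ u ∈ Icc A B, -(B0 * Real.exp (-(c * u))) ≤ H u) :
    ∫ u in Ioi (0:ℝ), u ^ N * gg e N u * max (-H u) 0 ≤
      C * A ^ (N + 1) + B0 * (N.factorial / c ^ (N + 1)) + C * ((K0 * N / e) ^ (2 * N) / B ^ (N - 1)) := by
  have hC0 : 0 ≤ C := (abs_nonneg _).trans (hHb 0 le_rfl)
  have hB : 0 < B := hA.trans_le hAB
  have hN0 : 0 < N := by omega
  set f1 : ℝ → ℝ := (Iic A).indicator (fun _ => C * A ^ N) with hf1
  set f2 : ℝ → ℝ := fun u => B0 * (u ^ N * Real.exp (-(c * u))) with hf2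
  set f3 : ℝ → ℝ := (Ioi B).indicator (fun u => C * ((K0 * N / e) ^ (2 * N) / B ^ (N - 2)) * u ^ (-2:ℝ)) with hf3
  have hK0 := K0_pos
  have i1 : IntegrableOn f1 (Ioi 0) := by
    rw [hf1, IntegrableOn, integrable_indicator_iff measurableSet_Iic]
    rw [IntegrableOn, Measure.restrict_restrict measurableSet_Iic]
    exact integrableOn_const (by
      rw [Set.inter_comm, Ioi_inter_Iic, Real.volume_Ioc]
      exact ENNReal.ofReal_ne_top)
  have i2 : IntegrableOn f2 (Ioi 0) := (EE_integrable hc N).const_mul _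
  have i3 : IntegrableOn f3 (Ioi 0) := by
    have h1 : IntegrableOn (fun u : ℝ => C * ((K0 * N / e) ^ (2 * N) / B ^ (N - 2)) * u ^ (-2:ℝ)) (Ioi B) :=
      (integrableOn_Ioi_rpow_of_lt (by norm_num) hB).const_mul _
    have h2 : Integrable f3 := by
      rw [hf3, integrable_indicator_iff measurableSet_Ioi]
      exact h1
    exact h2.integrableOn
  have v1 : ∫ u in Ioi (0:ℝ), f1 u = C * A ^ (N + 1) := by
    rw [hf1, setIntegral_indicator measurableSet_Iic, Ioi_inter_Iic, setIntegral_const,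
      Real.volume_real_Ioc_of_le hA.le, smul_eq_mul]
    ring
  have v2 : ∫ u in Ioi (0:ℝ), f2 u = B0 * (N.factorial / c ^ (N + 1)) := by
    rw [hf2, integral_const_mul]
    congr 1
    have h := Real.integral_rpow_mul_exp_neg_mul_Ioi (a := N + 1) (r := c) (by positivity) hc
    rw [show ((N : ℝ) + 1 - 1) = N by ring] at h
    have h2 : ∀ u : ℝ, u ^ N * Real.exp (-(c * u)) = u ^ (N : ℝ) * Real.exp (-(c * u)) := by
      intro u; rw [Real.rpow_natCast]
    simp_rw [h2]
    rw [h, Real.Gamma_nat_eq_factorial, one_div, Real.inv_rpow hc.le]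
    rw [show ((N : ℝ) + 1) = ((N + 1 : ℕ) : ℝ) by push_cast; ring, Real.rpow_natCast]
    field_simp
  have v3 : ∫ u in Ioi (0:ℝ), f3 u = C * ((K0 * N / e) ^ (2 * N) / B ^ (N - 1)) := by
    rw [hf3, setIntegral_indicator measurableSet_Ioi, Ioi_inter_Ioi, max_eq_right hB.le,
      integral_const_mul, integral_Ioi_rpow_of_lt (by norm_num) hB]
    have e1 : N - 1 = N - 2 + 1 := by omega
    rw [e1, pow_succ, show (-2:ℝ) + 1 = -1 by norm_num, Real.rpow_neg_one]
    field_simp
  rw [← v1, ← v2, ← v3, ← integral_add i1 i2]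
  have i12 : IntegrableOn (fun u => f1 u + f2 u) (Ioi 0) := i1.add i2
  rw [← integral_add i12 i3]
  have iN : IntegrableOn (fun u => u ^ N * gg e N u * max (-H u) 0) (Ioi 0) := by
    refine int_gg (H := fun u => max (-H u) 0) (hHm.neg.max measurable_const) (C := C) ?_ he hN0
      (f := fun u => u ^ N) (by fun_prop) (L := 1) (k := N) zero_le_one ?_
    · intro u hu
      have := hHb u hu
      rw [abs_of_nonneg (le_max_right _ _)]
      exact max_le ((neg_le_abs _).trans this) hC0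
    · intro u hu
      rw [abs_of_nonneg (by positivity), one_mul]
  apply setIntegral_mono_on iN (i12.add i3) measurableSet_Ioi
  intro u hu
  have hu' : (0:ℝ) < u := hu
  have hneg : max (-H u) 0 ≤ C := max_le ((neg_le_abs _).trans (hHb u hu'.le)) hC0
  have hneg0 : 0 ≤ max (-H u) 0 := le_max_right _ _
  have hg0 := gg_nonneg e N u
  have hg1 := gg_le_one e N u
  have hf1' : 0 ≤ f1 u := indicator_nonneg (fun _ _ => by positivity) _
  have hf2' : 0 ≤ f2 u := by simp only [hf2]; positivity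
  have hf3' : 0 ≤ f3 u := indicator_nonneg (fun v hv => by
    have : (0:ℝ) < v := hB.trans hv
    positivity) _
  show u ^ N * gg e N u * max (-H u) 0 ≤ f1 u + f2 u + f3 u
  rcases le_or_gt u A with h1 | h1
  · have : u ^ N * gg e N u * max (-H u) 0 ≤ f1 u := by
      simp only [hf1]
      rw [indicator_of_mem (show u ∈ Iic A from h1)]
      calc u ^ N * gg e N u * max (-H u) 0 ≤ A ^ N * 1 * C := by gcongr
        _ = _ := by ring
    linarith
  · rcases le_or_gt u B with h2 | h2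
    · have : u ^ N * gg e N u * max (-H u) 0 ≤ f2 u := by
        simp only [hf2]
        have h3 : max (-H u) 0 ≤ B0 * Real.exp (-(c * u)) := by
          apply max_le _ (by positivity)
          have := hw u ⟨h1.le, h2⟩
          linarith
        calc u ^ N * gg e N u * max (-H u) 0 ≤ u ^ N * 1 * (B0 * Real.exp (-(c * u))) := by gcongr
          _ = _ := by ring
      linarith
    · have : u ^ N * gg e N u * max (-H u) 0 ≤ f3 u := by
        simp only [hf3]
        rw [indicator_of_mem (show u ∈ Ioi B from h2)]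
        have h3 := gg_decay he hN0 hu'
        have h4 : u ^ N * (K0 * N / (e * u)) ^ (2 * N) ≤ (K0 * N / e) ^ (2 * N) / B ^ (N - 2) * u ^ (-2:ℝ) := by
          have e1 : (K0 * N / (e * u)) ^ (2 * N) = (K0 * N / e) ^ (2 * N) / (u ^ N * u ^ N) := by
            rw [← pow_add, ← two_mul, ← div_pow, div_div]
          have e2 : u ^ N * ((K0 * N / e) ^ (2 * N) / (u ^ N * u ^ N)) = (K0 * N / e) ^ (2 * N) / u ^ N := by
            field_simp
          have e3 : u ^ N = u ^ (N - 2) * u ^ 2 := by rw [← pow_add]; congr 1; omega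
          have e4 : u ^ (-2:ℝ) = (u ^ 2)⁻¹ := by
            rw [Real.rpow_neg hu'.le, show (2:ℝ) = ((2:ℕ):ℝ) by norm_num, Real.rpow_natCast]
          rw [e1, e2, e3, e4, ← div_eq_mul_inv, div_div]
          apply div_le_div_of_nonneg_left (by positivity) (by positivity)
          gcongr
        calc u ^ N * gg e N u * max (-H u) 0 ≤ u ^ N * (K0 * N / (e * u)) ^ (2 * N) * C := by gcongr
          _ ≤ ((K0 * N / e) ^ (2 * N) / B ^ (N - 2) * u ^ (-2:ℝ)) * C := by gcongr
          _ = _ := by ring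
      linarith

lemma pow_div_fact_le {x : ℝ} (hx : 0 ≤ x) {N : ℕ} (hN : 0 < N) :
    x ^ N / N.factorial ≤ (x * Real.exp 1 / N) ^ N := by
  have hN' : (0:ℝ) < N := by exact_mod_cast hN
  have h := Real.pow_div_factorial_le_exp (N : ℝ) hN'.le N
  have e1 : x ^ N / N.factorial = (x / N) ^ N * ((N : ℝ) ^ N / N.factorial) := by
    rw [div_pow]; field_simp
  have e2 : Real.exp (N : ℝ) = Real.exp 1 ^ N := by rw [← Real.exp_nat_mul, mul_one]
  rw [e1]
  calc (x / N) ^ N * ((N : ℝ) ^ N / N.factorial) ≤ (x / N) ^ N * Real.exp 1 ^ N := by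
        rw [← e2]; gcongr
    _ = (x * Real.exp 1 / N) ^ N := by rw [← mul_pow]; congr 1; ring

/-- the constant `32 π e`. -/
noncomputable def k32 : ℝ := 32 * π * Real.exp 1

lemma k32_pos : 0 < k32 := by unfold k32; positivity

lemma small_bound {e c C A B B0 : ℝ} (he : 0 < e) (hc : 0 < c) (hC : 0 ≤ C) (hA : 0 < A) (hB : 0 < B)
    (hB0 : 0 ≤ B0) (hec : 16 * π * e ≤ c) {N : ℕ} (hN : 2 ≤ N) (h1 : k32 * e * A ≤ N)
    (h2 : k32 * K0 ^ 2 * N ≤ e * B) :
    (8 * π * e) ^ N / N.factorial * (2 * (C * A ^ (N + 1) + B0 * (N.factorial / c ^ (N + 1)) +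
      C * ((K0 * N / e) ^ (2 * N) / B ^ (N - 1)))) ≤
      2 * ((C * A + C * B) * (1 / 4) ^ N + B0 / c * (1 / 2) ^ N) := by
  have hN0 : 0 < N := by omega
  have hN' : (0:ℝ) < N := by exact_mod_cast hN0
  have hpi := Real.pi_pos
  have hK0 := K0_pos
  have t1 : (8 * π * e) ^ N / N.factorial * A ^ (N + 1) ≤ A * (1 / 4) ^ N := by
    have e1 : (8 * π * e) ^ N / N.factorial * A ^ (N + 1) = A * ((8 * π * e * A) ^ N / N.factorial) := by
      rw [pow_succ, mul_pow (8 * π * e) A]; ring
    rw [e1]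
    apply mul_le_mul_of_nonneg_left _ hA.le
    refine (pow_div_fact_le (by positivity) hN0).trans ?_
    apply pow_le_pow_left₀ (by positivity)
    rw [div_le_iff₀ hN']
    have : 8 * π * e * A * Real.exp 1 = k32 * e * A / 4 := by unfold k32; ring
    rw [this]; linarith
  have t2 : (8 * π * e) ^ N / N.factorial * (N.factorial / c ^ (N + 1)) ≤ (1 / 2) ^ N / c := by
    have hf : (N.factorial : ℝ) ≠ 0 := by exact_mod_cast Nat.factorial_ne_zero N
    have e1 : (8 * π * e) ^ N / N.factorial * (N.factorial / c ^ (N + 1)) = (8 * π * e / c) ^ N / c := by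
      rw [pow_succ, div_pow]; field_simp
    rw [e1]
    apply div_le_div_of_nonneg_right _ hc.le
    apply pow_le_pow_left₀ (by positivity)
    rw [div_le_iff₀ hc]; linarith
  have t3 : (8 * π * e) ^ N / N.factorial * ((K0 * N / e) ^ (2 * N) / B ^ (N - 1)) ≤ B * (1 / 4) ^ N := by
    have e0 : B ^ N = B ^ (N - 1) * B := by rw [← pow_succ]; congr 1; omega
    have e1 : (8 * π * e) ^ N / N.factorial * ((K0 * N / e) ^ (2 * N) / B ^ (N - 1)) =
        B * ((8 * π * e * (K0 * N / e) ^ 2 / B) ^ N / N.factorial) := by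
      have e1a : (8 * π * e * (K0 * N / e) ^ 2 / B) ^ N =
          (8 * π * e) ^ N * (K0 * N / e) ^ (2 * N) / (B ^ (N - 1) * B) := by
        rw [div_pow, mul_pow (8 * π * e), ← pow_mul, e0]
      rw [e1a]
      field_simp
    rw [e1]
    apply mul_le_mul_of_nonneg_left _ hB.le
    refine (pow_div_fact_le (by positivity) hN0).trans ?_
    apply pow_le_pow_left₀ (by positivity)
    have e2 : 8 * π * e * (K0 * N / e) ^ 2 / B * Real.exp 1 / N = k32 * K0 ^ 2 * N / (e * B) / 4 := by
      unfold k32; field_simp; ring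
    rw [e2]
    have : k32 * K0 ^ 2 * N / (e * B) ≤ 1 := by rw [div_le_one (by positivity)]; exact h2
    linarith
  have e3 : (8 * π * e) ^ N / N.factorial * (2 * (C * A ^ (N + 1) + B0 * (N.factorial / c ^ (N + 1)) +
      C * ((K0 * N / e) ^ (2 * N) / B ^ (N - 1)))) =
      2 * (C * ((8 * π * e) ^ N / N.factorial * A ^ (N + 1)) +
        B0 * ((8 * π * e) ^ N / N.factorial * (N.factorial / c ^ (N + 1))) +
        C * ((8 * π * e) ^ N / N.factorial * ((K0 * N / e) ^ (2 * N) / B ^ (N - 1)))) := by ring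
  rw [e3]
  have e4 : 2 * ((C * A + C * B) * (1 / 4) ^ N + B0 / c * (1 / 2) ^ N) =
      2 * (C * (A * (1 / 4) ^ N) + B0 * ((1 / 2) ^ N / c) + C * (B * (1 / 4) ^ N)) := by ring
  rw [e4]
  gcongr

/-- the sine transform of `gg H` is small up to `W + 2 e`. -/
lemma window_bound {W : ℝ} (hG : Gap H W) (hHm : Measurable H) (hHb : ∀ u, 0 ≤ u → |H u| ≤ C)
    {e c A B B0 : ℝ} (he : 0 < e) (hW : 2 * e ≤ W) (hc : 0 < c) (hA : 0 < A) (hAB : A ≤ B)
    (hB0 : 0 ≤ B0) (hec : 16 * π * e ≤ c)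
    (hw : ∀ u ∈ Icc A B, -(B0 * Real.exp (-(c * u))) ≤ H u)
    {m : ℕ} (hm : 1 ≤ m) (h1 : k32 * e * A ≤ (2 * m + 1 : ℕ))
    (h2 : k32 * K0 ^ 2 * (2 * m + 1 : ℕ) ≤ e * B) {v : ℝ} (hv : |v| ≤ W + 2 * e) :
    |∫ u in Ioi (0:ℝ), Real.sin (v * (2 * π * u)) * gg e (2 * m + 1) u * H u| ≤
      2 * ((C * A + C * B) * (1 / 4) ^ (2 * m + 1) + B0 / c * (1 / 2) ^ (2 * m + 1)) := by
  have hC0 : 0 ≤ C := (abs_nonneg _).trans (hHb 0 le_rfl)
  have hB : 0 < B := hA.trans_le hAB
  set N := 2 * m + 1 with hN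
  have hN2 : 2 ≤ N := by omega
  have hN0 : 0 < N := by omega
  set δ := 2 * ((C * A + C * B) * (1 / 4) ^ N + B0 / c * (1 / 2) ^ N) with hδ
  have hδ0 : 0 ≤ δ := by positivity
  have hsm := small_bound he hc hC0 hA hB hB0 hec hN2 h1 h2
  -- nonnegative frequencies
  have key : ∀ v : ℝ, 0 ≤ v → v ≤ W + 2 * e →
      |∫ u in Ioi (0:ℝ), Real.sin (v * (2 * π * u)) * gg e N u * H u| ≤ δ := by
    intro v hv0 hvW
    rcases le_or_gt v (W - 2 * e) with h | h
    · have h3 := hG.expPow he hN0 (ξ := v) (by rw [abs_of_nonneg hv0]; linarith) 0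
      have e1 : ∀ u : ℝ, (Complex.exp (v * ((2 * π * u : ℝ) * Complex.I)) *
        ((2 * π * u : ℝ) * Complex.I) ^ 0).im = Real.sin (v * (2 * π * u)) := by
        intro u
        rw [pow_zero, mul_one, ← mul_assoc, ← Complex.ofReal_mul, Complex.exp_ofReal_mul_I_im]
      simp_rw [e1] at h3
      rw [h3, abs_zero]
      exact hδ0
    · have hξ : |W - 2 * e| + 2 * e ≤ W := by rw [abs_of_nonneg (by linarith)]; linarith
      have h3 := hG.taylor hHm hHb he hN0 hξ (s := v - (W - 2 * e)) (by linarith)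
      rw [show W - 2 * e + (v - (W - 2 * e)) = v by ring] at h3
      refine h3.trans ?_
      have h4 := hG.moment hHm hHb he hW m
      rw [← hN] at h4
      rw [h4]
      have h5 := neg_moment hHm hHb he hN2 hA hAB hB0 hc hw
      refine le_trans ?_ hsm
      have h6 : (2 * π * (v - (W - 2 * e))) ^ N ≤ (8 * π * e) ^ N := by
        have hs0 : 0 ≤ v - (W - 2 * e) := by linarith
        apply pow_le_pow_left₀ (by positivity)
        have hpi := Real.pi_pos
        nlinarith
      have h7 : 0 ≤ ∫ u in Ioi (0:ℝ), u ^ N * gg e N u * max (-H u) 0 := by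
        apply setIntegral_nonneg measurableSet_Ioi
        intro u hu
        have hu' : (0:ℝ) < u := hu
        have := gg_nonneg e N u
        positivity
      gcongr
  rcases le_total 0 v with h | h
  · exact key v h (by rwa [abs_of_nonneg h] at hv)
  · have h3 := key (-v) (by linarith) (by rwa [abs_of_nonpos h] at hv)
    have e1 : ∫ u in Ioi (0:ℝ), Real.sin (-v * (2 * π * u)) * gg e N u * H u =
        -∫ u in Ioi (0:ℝ), Real.sin (v * (2 * π * u)) * gg e N u * H u := by
      rw [← integral_neg]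
      congr 1
      ext u
      rw [neg_mul, Real.sin_neg]; ring
    rwa [e1, abs_neg] at h3

lemma Kc_im {φ : ℝ → ℝ} {b : ℝ} (h : TF φ b) (u : ℝ) :
    (Kc φ ((2 * π * u : ℝ) * Complex.I)).im = ∫ v, φ v * Real.sin (v * (2 * π * u)) := by
  unfold Kc
  have h1 := h.integrable_exp ((2 * π * u : ℝ) * Complex.I)
  have h2 := integral_im h1
  refine h2.symm.trans ?_
  congr 1
  ext v
  show ((φ v : ℂ) * Complex.exp (v * ((2 * π * u : ℝ) * Complex.I))).im = _
  rw [Complex.im_ofReal_mul, ← mul_assoc, ← Complex.ofReal_mul, Complex.exp_ofReal_mul_I_im]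

lemma kernel_fubini (hHm : Measurable H) (hHb : ∀ u, 0 ≤ u → |H u| ≤ C) {e : ℝ} (he : 0 < e)
    {N : ℕ} (hN : 0 < N) {φ : ℝ → ℝ} {b : ℝ} (h : TF φ b) :
    ∫ u in Ioi (0:ℝ), (Kc φ ((2 * π * u : ℝ) * Complex.I)).im * gg e N u * H u =
      ∫ v, φ v * ∫ u in Ioi (0:ℝ), Real.sin (v * (2 * π * u)) * gg e N u * H u := by
  have i1 : IntegrableOn (fun u => gg e N u * H u) (Ioi 0) := by
    have := int_gg hHm hHb he hN (f := fun _ => 1) continuous_const (L := 1) (k := 0) zero_le_one
      (fun u _ => by simp)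
    simpa using this
  have e1 : ∀ u : ℝ, (Kc φ ((2 * π * u : ℝ) * Complex.I)).im * gg e N u * H u =
      ∫ v, φ v * Real.sin (v * (2 * π * u)) * (gg e N u * H u) := by
    intro u
    rw [Kc_im h, integral_mul_const]; ring
  simp_rw [e1]
  have hI : Integrable (fun p : ℝ × ℝ => φ p.2 * Real.sin (p.2 * (2 * π * p.1)) * (gg e N p.1 * H p.1))
      ((volume.restrict (Ioi (0:ℝ))).prod (volume : Measure ℝ)) := by
    have h1 := Integrable.mul_prod (μ := volume.restrict (Ioi (0:ℝ))) (ν := (volume : Measure ℝ)) i1 h.integrable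
    have h2 : Integrable (fun p : ℝ × ℝ => (gg e N p.1 * H p.1 * φ p.2) * Real.sin (p.2 * (2 * π * p.1)))
        ((volume.restrict (Ioi (0:ℝ))).prod (volume : Measure ℝ)) := by
      refine h1.mul_bdd (c := 1) (Continuous.aestronglyMeasurable (by fun_prop)) ?_
      exact Eventually.of_forall fun p => Real.abs_sin_le_one _
    refine h2.congr (Eventually.of_forall fun p => ?_)
    beta_reduce; ring
  rw [integral_integral_swap hI]
  congr 1
  ext v
  rw [← integral_const_mul]
  congr 1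
  ext u; ring

/-- the ratio of the windows -/
noncomputable def R0 : ℝ := 5 * k32 ^ 2 * K0 ^ 2

lemma one_lt_R0 : 1 < R0 := by
  unfold R0
  have h1 := one_le_K0
  have h2 : 1 ≤ k32 := by
    unfold k32
    have := Real.pi_gt_three
    have := Real.exp_one_gt_d9
    nlinarith
  have h3 : 1 ≤ k32 ^ 2 := one_le_pow₀ h2
  have h4 : 1 ≤ K0 ^ 2 := one_le_pow₀ h1
  nlinarith

/-- **Extension of the gap** by `2 e`. -/
theorem Gap.ext {W : ℝ} (hG : Gap H W) (hHm : Measurable H) (hHb : ∀ u, 0 ≤ u → |H u| ≤ C)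
    {e c B0 : ℝ} (he : 0 < e) (hW : 2 * e ≤ W) (hc : 0 < c) (hB0 : 0 ≤ B0) (hec : 16 * π * e ≤ c)
    {A : ℕ → ℝ} (hA : Tendsto A atTop atTop)
    (hw : ∀ j, ∀ u ∈ Icc (A j) (R0 * A j), -(B0 * Real.exp (-(c * u))) ≤ H u) :
    Gap H (W + 2 * e) := by
  intro φ hφ
  have hC0 : 0 ≤ C := (abs_nonneg _).trans (hHb 0 le_rfl)
  have hk := k32_pos
  have hK0 := K0_pos
  have hR0 := one_lt_R0
  set m : ℕ → ℕ := fun j => ⌈k32 * e * A j⌉₊ with hm
  set N : ℕ → ℕ := fun j => 2 * m j + 1 with hN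
  have ha : Tendsto (fun j => k32 * e * A j) atTop atTop := hA.const_mul_atTop (by positivity)
  have hmt : Tendsto m atTop atTop := tendsto_nat_ceil_atTop.comp ha
  have hNt : Tendsto N atTop atTop := by
    apply tendsto_atTop_mono _ hmt
    intro j
    simp only [hN]; omega
  -- the bound
  set δ : ℕ → ℝ := fun j => 2 * ((C * A j + C * (R0 * A j)) * (1 / 4) ^ (2 * m j + 1) +
    B0 / c * (1 / 2) ^ (2 * m j + 1)) with hδ
  have hδlim : Tendsto δ atTop (𝓝 0) := by
    have t1 : Tendsto (fun n : ℕ => (n : ℝ) * (1 / 4 : ℝ) ^ n) atTop (𝓝 0) :=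
      tendsto_self_mul_const_pow_of_lt_one (by norm_num) (by norm_num)
    have t2 : Tendsto (fun n : ℕ => (1 / 2 : ℝ) ^ n) atTop (𝓝 0) :=
      tendsto_pow_atTop_nhds_zero_of_lt_one (by norm_num) (by norm_num)
    have t3 : Tendsto (fun j => 2 * (C * (1 + R0) / (k32 * e) * ((N j : ℝ) * (1 / 4 : ℝ) ^ (N j)) +
        B0 / c * (1 / 2) ^ (N j))) atTop (𝓝 0) := by
      have := (((t1.comp hNt).const_mul (C * (1 + R0) / (k32 * e))).add
        ((t2.comp hNt).const_mul (B0 / c))).const_mul 2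
      simpa using this
    refine squeeze_zero' ?_ ?_ t3
    · filter_upwards [hA.eventually (eventually_ge_atTop 0)] with j hj
      simp only [hδ]
      positivity
    · filter_upwards [hA.eventually (eventually_ge_atTop 0)] with j hj
      simp only [hδ]
      have h1 : k32 * e * A j ≤ (N j : ℝ) := by
        have h2 := Nat.le_ceil (k32 * e * A j)
        have h3 : ((m j : ℕ) : ℝ) ≤ (N j : ℝ) := by exact_mod_cast (by simp only [hN]; omega : m j ≤ N j)
        exact h2.trans h3
      have h2 : A j ≤ (N j : ℝ) / (k32 * e) := by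
        rw [le_div_iff₀ (by positivity)]; linarith
      have h3 : C * A j + C * (R0 * A j) ≤ C * (1 + R0) / (k32 * e) * N j := by
        calc C * A j + C * (R0 * A j) = C * (1 + R0) * A j := by ring
          _ ≤ C * (1 + R0) * ((N j : ℝ) / (k32 * e)) := by gcongr
          _ = _ := by ring
      have h4 : (C * A j + C * (R0 * A j)) * (1 / 4) ^ (2 * m j + 1) ≤
          (C * (1 + R0) / (k32 * e) * N j) * (1 / 4) ^ (N j) := by
        apply mul_le_mul_of_nonneg_right h3 (by positivity)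
      have h5 : (1 / 2 : ℝ) ^ (2 * m j + 1) = (1 / 2) ^ (N j) := rfl
      rw [h5]
      have h6 : (C * (1 + R0) / (k32 * e) * N j) * (1 / 4) ^ (N j) =
        C * (1 + R0) / (k32 * e) * ((N j : ℝ) * (1 / 4 : ℝ) ^ (N j)) := by ring
      linarith
  have hev : ∀ᶠ j in atTop, ∀ v : ℝ, |v| ≤ W + 2 * e →
      |∫ u in Ioi (0:ℝ), Real.sin (v * (2 * π * u)) * gg e (N j) u * H u| ≤ δ j := by
    filter_upwards [ha.eventually (eventually_ge_atTop 1), hA.eventually (eventually_gt_atTop 0)] with j hj hj0 v hv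
    have hceil := Nat.ceil_lt_add_one (a := k32 * e * A j) (by linarith)
    have hle := Nat.le_ceil (k32 * e * A j)
    have hm1 : 1 ≤ m j := by
      have : (1:ℝ) ≤ (m j : ℝ) := hj.trans hle
      exact_mod_cast this
    have hNr : ((2 * m j + 1 : ℕ) : ℝ) = 2 * (m j : ℝ) + 1 := by push_cast; ring
    apply window_bound hG hHm hHb he hW hc hj0 (le_mul_of_one_le_left hj0.le hR0.le) hB0 hec (hw j) hm1
      _ _ hv
    · rw [hNr]
      have : (0:ℝ) ≤ (m j : ℝ) := by positivity
      linarith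
    · rw [hNr]
      have h3 : 2 * (m j : ℝ) + 1 ≤ 5 * (k32 * e * A j) := by linarith
      calc k32 * K0 ^ 2 * (2 * (m j : ℝ) + 1) ≤ k32 * K0 ^ 2 * (5 * (k32 * e * A j)) := by gcongr
        _ = e * (R0 * A j) := by unfold R0; ring
  -- the integrals against `gg H`
  have hSN : Tendsto (fun j => ∫ u in Ioi (0:ℝ), (Kc φ ((2 * π * u : ℝ) * Complex.I)).im * gg e (N j) u * H u)
      atTop (𝓝 0) := by
    have h1 : Tendsto (fun j => (∫ v, |φ v|) * δ j) atTop (𝓝 0) := by
      have := hδlim.const_mul (∫ v, |φ v|)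
      simpa using this
    apply squeeze_zero_norm' _ h1
    filter_upwards [hev] with j hj
    have hN0 : 0 < N j := by simp only [hN]; omega
    rw [kernel_fubini hHm hHb he hN0 hφ]
    refine (norm_integral_le_of_norm_le (g := fun v => |φ v| * δ j) (hφ.integrable.abs.mul_const _) ?_).trans ?_
    · refine Eventually.of_forall fun v => ?_
      rw [norm_mul, Real.norm_eq_abs, Real.norm_eq_abs]
      by_cases hv : W + 2 * e < |v|
      · rw [hφ.supp v hv]; simp
      · push Not at hv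
        exact mul_le_mul_of_nonneg_left (hj v hv) (abs_nonneg _)
    · rw [integral_mul_const]
  have hcont : Continuous (fun u : ℝ => (Kc φ ((2 * π * u : ℝ) * Complex.I)).im) :=
    Complex.continuous_im.comp (hφ.differentiable_Kc.continuous.comp (by fun_prop))
  obtain ⟨K, hK, hKb⟩ := hφ.line_bound 2
  have hint : IntegrableOn (fun u => (Kc φ ((2 * π * u : ℝ) * Complex.I)).im * H u) (Ioi 0) := by
    apply int_of_bound hHm hHb hcont (K := K)
    intro u hu
    refine le_trans ?_ (hKb u hu)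
    exact mul_le_mul_of_nonneg_left (Complex.abs_im_le_norm _) (by positivity)
  have hdct := tendsto_integral_of_dominated_convergence (μ := volume.restrict (Ioi (0:ℝ)))
    (F := fun j u => (Kc φ ((2 * π * u : ℝ) * Complex.I)).im * gg e (N j) u * H u)
    (f := fun u => (Kc φ ((2 * π * u : ℝ) * Complex.I)).im * H u)
    (fun u => |(Kc φ ((2 * π * u : ℝ) * Complex.I)).im * H u|)
    (fun j => ((hcont.mul (gg_cont e (N j))).measurable.mul hHm).aestronglyMeasurable)
    hint.abs
    (fun j => by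
      refine Eventually.of_forall fun u => ?_
      rw [norm_mul, norm_mul, Real.norm_of_nonneg (gg_nonneg _ _ _), abs_mul, Real.norm_eq_abs, Real.norm_eq_abs]
      have h1 := gg_le_one e (N j) u
      have h2 := gg_nonneg e (N j) u
      have h3 := abs_nonneg (Kc φ ((2 * π * u : ℝ) * Complex.I)).im
      have h4 := abs_nonneg (H u)
      calc |(Kc φ ((2 * π * u : ℝ) * Complex.I)).im| * gg e (N j) u * |H u| ≤
          |(Kc φ ((2 * π * u : ℝ) * Complex.I)).im| * 1 * |H u| := by gcongr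
        _ = _ := by ring)
    (Eventually.of_forall fun u => by
      have h1 := gg_tendsto (e := e) u hNt
      have h2 := (h1.const_mul (Kc φ ((2 * π * u : ℝ) * Complex.I)).im).mul_const (H u)
      rwa [mul_one] at h2)
  exact tendsto_nhds_unique hdct hSN

/-- all frequencies -/
theorem Gap.all {W : ℝ} (hG : Gap H W) (hW : 0 < W) (hHm : Measurable H) (hHb : ∀ u, 0 ≤ u → |H u| ≤ C)
    {c B0 : ℝ} (hc : 0 < c) (hB0 : 0 ≤ B0) {A : ℕ → ℝ} (hA : Tendsto A atTop atTop)
    (hw : ∀ j, ∀ u ∈ Icc (A j) (R0 * A j), -(B0 * Real.exp (-(c * u))) ≤ H u) (W' : ℝ) :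
    Gap H W' := by
  have hpi := Real.pi_pos
  set e := min (W / 2) (c / (16 * π)) with he
  have he0 : 0 < e := by positivity
  have he1 : 2 * e ≤ W := by
    have := min_le_left (W / 2) (c / (16 * π))
    linarith
  have he2 : 16 * π * e ≤ c := by
    have h1 : e ≤ c / (16 * π) := min_le_right _ _
    rw [le_div_iff₀ (by positivity)] at h1
    linarith
  have key : ∀ k : ℕ, Gap H (W + 2 * e * k) := by
    intro k
    induction k with
    | zero => simpa using hG
    | succ k ih =>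
      have hk : (0:ℝ) ≤ 2 * e * k := by positivity
      have := ih.ext hHm hHb he0 (by linarith) hc hB0 he2 hA hw
      have e1 : W + 2 * e * k + 2 * e = W + 2 * e * ((k + 1 : ℕ) : ℝ) := by push_cast; ring
      rwa [e1] at this
  obtain ⟨k, hk⟩ := exists_nat_gt ((W' - W) / (2 * e))
  apply (key k).mono
  rw [div_lt_iff₀ (by positivity)] at hk
  linarith

lemma Gap.sine (hG : ∀ W, Gap H W) {N : ℕ} (hN : 0 < N) (v : ℝ) :
    ∫ u in Ioi (0:ℝ), Real.sin (v * (2 * π * u)) * (gg 1 N u * H u) = 0 := by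
  have h3 := (hG (|v| + 2 * 1)).expPow one_pos hN (ξ := v) le_rfl 0
  refine Eq.trans ?_ h3
  congr 1
  ext u
  rw [pow_zero, mul_one, ← mul_assoc (v : ℂ), ← Complex.ofReal_mul, Complex.exp_ofReal_mul_I_im]
  ring

/-- A function without spectrum vanishes. -/
theorem ae_zero_of_gap (hHm : Measurable H) (hHb : ∀ u, 0 ≤ u → |H u| ≤ C) (hG : ∀ W, Gap H W) :
    ∀ᵐ u ∂(volume.restrict (Ioi (0:ℝ))), H u = 0 := by
  have hC0 : 0 ≤ C := (abs_nonneg _).trans (hHb 0 le_rfl)
  -- for each `N`, `gg 1 N * H = 0` a.e.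
  have key : ∀ N : ℕ, 0 < N → ∀ᵐ u ∂(volume : Measure ℝ), u ∈ Ioi (0:ℝ) → gg 1 N u * H u = 0 := by
    intro N hN
    have i1 : IntegrableOn (fun u => gg 1 N u * H u) (Ioi 0) := by
      have := int_gg hHm hHb one_pos hN (f := fun _ => 1) continuous_const (L := 1) (k := 0) zero_le_one
        (fun u _ => by simp)
      simpa using this
    apply isOpen_Ioi.ae_eq_zero_of_integral_contDiff_smul_eq_zero i1.locallyIntegrableOn
    intro g hgs hgc hgt
    -- `g` is a test function
    obtain ⟨b, hb⟩ : ∃ b : ℝ, TF g b := by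
      obtain ⟨b, hb⟩ := hgc.isCompact.isBounded.subset_closedBall 0
      refine ⟨b, hgs, fun v hv => ?_⟩
      by_contra hne
      have h1 : v ∈ tsupport g := subset_tsupport g hne
      have h2 := hb h1
      rw [mem_closedBall_zero_iff, Real.norm_eq_abs] at h2
      linarith
    have hg0 : ∀ u : ℝ, u ≤ 0 → g u = 0 := by
      intro u hu
      by_contra hne
      have h1 : u ∈ tsupport g := subset_tsupport g hne
      have h2 : (0:ℝ) < u := hgt h1
      linarith
    obtain ⟨hKi, -⟩ := inversion_2pi hb 0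
    have hrep : ∀ u : ℝ, 0 < u → (g u : ℂ) = ∫ v : ℝ, (-2 * Complex.I) *
        (Kc g ((2 * π * v : ℝ) * Complex.I) * (Real.sin (v * (2 * π * u)) : ℂ)) := by
      intro u hu
      have h1 := (inversion_2pi hb u).2
      have h2 := (inversion_2pi hb (-u)).2
      rw [hg0 (-u) (by linarith)] at h2
      have j1 : ∀ x : ℝ, Integrable (fun v : ℝ => Kc g ((2 * π * v : ℝ) * Complex.I) *
          Complex.exp (-((2 * π * v * x : ℝ) * Complex.I))) := by
        intro x
        refine hKi.mul_bdd (c := 1) (Continuous.aestronglyMeasurable (by fun_prop)) ?_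
        refine Eventually.of_forall fun u => ?_
        rw [Complex.norm_exp]; simp
      have h3 := integral_sub (j1 u) (j1 (-u))
      rw [h1, h2, Complex.ofReal_zero, sub_zero] at h3
      rw [← h3]
      congr 1
      ext v
      rw [← mul_sub]
      have e1 : Complex.exp (-((2 * π * v * u : ℝ) * Complex.I)) - Complex.exp (-((2 * π * v * (-u) : ℝ) * Complex.I)) =
          -2 * Complex.I * (Real.sin (v * (2 * π * u)) : ℂ) := by
        rw [Complex.ofReal_sin, Complex.sin]
        push_cast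
        have e2 : (-2 * Complex.I * ((Complex.exp (-(↑v * (2 * ↑π * ↑u)) * Complex.I) -
          Complex.exp (↑v * (2 * ↑π * ↑u) * Complex.I)) * Complex.I / 2)) =
          -(Complex.I ^ 2) * (Complex.exp (-(↑v * (2 * ↑π * ↑u)) * Complex.I) -
          Complex.exp (↑v * (2 * ↑π * ↑u) * Complex.I)) := by ring
        rw [e2, Complex.I_sq]
        ring_nf
      rw [e1]; ring
    have hcx : ((∫ u, g u • (gg 1 N u * H u) : ℝ) : ℂ) = 0 := by
      rw [← integral_complex_ofReal]
      have e0 : ∫ u, ((g u • (gg 1 N u * H u) : ℝ) : ℂ) = ∫ u in Ioi (0:ℝ), ((g u • (gg 1 N u * H u) : ℝ) : ℂ) := by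
        rw [setIntegral_eq_integral_of_forall_compl_eq_zero]
        intro x hx
        have : x ≤ 0 := by simpa using hx
        rw [hg0 x this]; simp
      rw [e0]
      have e1 : ∫ u in Ioi (0:ℝ), ((g u • (gg 1 N u * H u) : ℝ) : ℂ) =
          ∫ u in Ioi (0:ℝ), ∫ v : ℝ, (-2 * Complex.I) *
        (Kc g ((2 * π * v : ℝ) * Complex.I) * (Real.sin (v * (2 * π * u)) : ℂ)) * ((gg 1 N u * H u : ℝ) : ℂ) := by
        apply setIntegral_congr_fun measurableSet_Ioi
        intro u hu
        beta_reduce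
        rw [integral_mul_const, ← hrep u hu, smul_eq_mul]
        push_cast; ring
      rw [e1]
      have hI : Integrable (fun p : ℝ × ℝ => (-2 * Complex.I) *
        (Kc g ((2 * π * p.2 : ℝ) * Complex.I) * (Real.sin (p.2 * (2 * π * p.1)) : ℂ)) * ((gg 1 N p.1 * H p.1 : ℝ) : ℂ))
        ((volume.restrict (Ioi (0:ℝ))).prod (volume : Measure ℝ)) := by
        have i1' : Integrable (fun u => ((gg 1 N u * H u : ℝ) : ℂ)) (volume.restrict (Ioi (0:ℝ))) := i1.ofReal
        have h1 := Integrable.mul_prod i1' hKi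
        have h2 : Integrable (fun p : ℝ × ℝ => (((gg 1 N p.1 * H p.1 : ℝ) : ℂ) * Kc g ((2 * π * p.2 : ℝ) * Complex.I)) *
            (-2 * Complex.I * (Real.sin (p.2 * (2 * π * p.1)) : ℂ)))
            ((volume.restrict (Ioi (0:ℝ))).prod (volume : Measure ℝ)) := by
          refine h1.mul_bdd (c := 2) (Continuous.aestronglyMeasurable (by fun_prop)) ?_
          refine Eventually.of_forall fun p => ?_
          rw [norm_mul, Complex.norm_real, Real.norm_eq_abs]
          have h3 := Real.abs_sin_le_one (p.2 * (2 * π * p.1))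
          have h4 : ‖(-2 * Complex.I : ℂ)‖ = 2 := by simp
          rw [h4]; linarith
        refine h2.congr (Eventually.of_forall fun p => ?_)
        beta_reduce; ring
      rw [integral_integral_swap hI]
      have e2 : ∀ v : ℝ, ∫ u in Ioi (0:ℝ), (-2 * Complex.I) *
        (Kc g ((2 * π * v : ℝ) * Complex.I) * (Real.sin (v * (2 * π * u)) : ℂ)) * ((gg 1 N u * H u : ℝ) : ℂ) = 0 := by
        intro v
        have h4 : ∀ u : ℝ, (-2 * Complex.I) *
          (Kc g ((2 * π * v : ℝ) * Complex.I) * (Real.sin (v * (2 * π * u)) : ℂ)) * ((gg 1 N u * H u : ℝ) : ℂ) =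
          ((-2 * Complex.I) * Kc g ((2 * π * v : ℝ) * Complex.I)) *
            ((Real.sin (v * (2 * π * u)) * (gg 1 N u * H u) : ℝ) : ℂ) := by
          intro u; push_cast; ring
        simp_rw [h4]
        rw [integral_const_mul, integral_complex_ofReal, Gap.sine hG hN v]
        simp
      simp_rw [e2]
      simp
    exact_mod_cast hcx
  rw [ae_restrict_iff' measurableSet_Ioi]
  have hall : ∀ᵐ u ∂(volume : Measure ℝ), ∀ N : ℕ, u ∈ Ioi (0:ℝ) → gg 1 (N + 1) u * H u = 0 :=
    ae_all_iff.2 fun N => key (N + 1) (Nat.succ_pos N)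
  filter_upwards [hall] with u hu hu0
  have h1 : Tendsto (fun N : ℕ => gg 1 (N + 1) u * H u) atTop (𝓝 (1 * H u)) :=
    (gg_tendsto (e := 1) u (tendsto_add_atTop_nat 1)).mul_const _
  have h2 : (fun N : ℕ => gg 1 (N + 1) u * H u) = fun _ => 0 := by
    funext N
    exact hu N hu0
  rw [h2, one_mul] at h1
  exact (tendsto_nhds_unique h1 tendsto_const_nhds)

/-- **Uniqueness from windows** (limit form). -/
theorem windows_unique {W : ℝ} (hG : Gap H W) (hW : 0 < W) (hHm : Measurable H) (hHb : ∀ u, 0 ≤ u → |H u| ≤ C)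
    {c B0 : ℝ} (hc : 0 < c) (hB0 : 0 ≤ B0) {A : ℕ → ℝ} (hA : Tendsto A atTop atTop)
    (hw : ∀ j, ∀ u ∈ Icc (A j) (R0 * A j), -(B0 * Real.exp (-(c * u))) ≤ H u) :
    ∀ᵐ u ∂(volume.restrict (Ioi (0:ℝ))), H u = 0 :=
  ae_zero_of_gap hHm hHb (hG.all hW hHm hHb hc hB0 hA hw)

end

end Pool.Agent.PairCorr
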