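import Mathlib
import Pool.Agent.PairCorr.F_Windows

set_option autoImplicit false

namespace Pool.Agent.PairCorr

open MeasureTheory Filter Topology Set Real

/-! ### Extraction of limits -/

lemma extract_limit {E : ℕ → ℝ → ℝ} {G : ℝ → ℝ} {C : ℝ} (hEC : ∀ k, ∀ u ≥ 0, |E k u - G u| ≤ C * (1 + u) ^ 2) :
    ∃ φ : ℕ → ℕ, StrictMono φ ∧
      ∀ q : ℚ, 0 ≤ (q:ℝ) → Tendsto (fun k => E (φ k) q) atTop (𝓝 (DI (fun k => E (φ k)) q)) := by
  set x : ℕ → ℚ → ℝ := fun n q => E n |(q:ℝ)| with hx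
  set R : ℚ → ℝ := fun q => abs (G |(q:ℝ)|) + |C| * (1 + |(q:ℝ)|) ^ 2 with hR
  have hxK : ∀ n, x n ∈ Set.univ.pi (fun q => Icc (-R q) (R q)) := by
    intro n q _
    have h1 := hEC n |(q:ℝ)| (abs_nonneg _)
    have h2 := abs_le.mp h1
    have h3 : C * (1 + |(q:ℝ)|) ^ 2 ≤ |C| * (1 + |(q:ℝ)|) ^ 2 := by
      gcongr; exact le_abs_self C
    have h4 := abs_le.mp (le_refl (abs (G |(q:ℝ)|)))
    constructor
    · show -R q ≤ E n |(q:ℝ)|
      rw [hR]; dsimp only; linarith [h2.1, h4.1]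
    · show E n |(q:ℝ)| ≤ R q
      rw [hR]; dsimp only; linarith [h2.2, h4.2]
  obtain ⟨a, -, φ, hφ, hlim⟩ := (isCompact_univ_pi (fun q : ℚ => isCompact_Icc (a := -R q) (b := R q))).tendsto_subseq hxK
  refine ⟨φ, hφ, fun q hq => ?_⟩
  have h1 := (tendsto_pi_nhds.mp hlim) q
  have h2 : Tendsto (fun k => E (φ k) q) atTop (𝓝 (a q)) := by
    refine h1.congr fun k => ?_
    simp only [Function.comp, hx, abs_of_nonneg hq]
  rw [DI_of_tendsto hq h2]
  exact h2

lemma limit_integral {E : ℕ → ℝ → ℝ} {G : ℝ → ℝ} {C : ℝ} (hEm : ∀ k, Monotone (E k)) (hGc : Continuous G)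
    (hEC : ∀ k, ∀ u ≥ 0, |E k u - G u| ≤ C * (1 + u) ^ 2)
    (hrat : ∀ q : ℚ, 0 ≤ (q:ℝ) → Tendsto (fun k => E k q) atTop (𝓝 (DI E q)))
    {q : ℝ → ℝ} (hqc : Continuous q) {K : ℝ} (hqb : ∀ u, 0 ≤ u → (1 + u) ^ 4 * |q u| ≤ K) :
    Tendsto (fun k => ∫ u in Ioi 0, q u * (E k u - G u)) atTop (𝓝 (∫ u in Ioi 0, q u * (DI E u - G u))) := by
  have hDm := DI_mono hEm hEC
  have hC0 : 0 ≤ C := by
    have := (abs_nonneg _).trans (hEC 0 0 le_rfl)
    simpa using this
  have hK0 : 0 ≤ K := (by positivity : (0:ℝ) ≤ (1 + 0) ^ 4 * |q 0|).trans (hqb 0 le_rfl)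
  apply tendsto_integral_of_dominated_convergence (μ := volume.restrict (Ioi (0:ℝ)))
      (fun u => K * C * ((1 + u) ^ 2)⁻¹)
  · intro k
    exact (hqc.measurable.mul ((hEm k).measurable.sub hGc.measurable)).aestronglyMeasurable
  · exact int_inv_sq.const_mul _
  · intro k
    filter_upwards [ae_restrict_mem measurableSet_Ioi] with u hu
    have hu0 : (0:ℝ) ≤ u := le_of_lt hu
    rw [norm_mul, Real.norm_eq_abs, Real.norm_eq_abs]
    have h1 := hqb u hu0
    have h2 := hEC k u hu0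
    have h3 : |q u| ≤ K * ((1 + u) ^ 4)⁻¹ := by
      rw [← div_eq_mul_inv, le_div_iff₀ (by positivity)]; linarith
    calc |q u| * |E k u - G u| ≤ (K * ((1 + u) ^ 4)⁻¹) * (C * (1 + u) ^ 2) :=
          mul_le_mul h3 h2 (abs_nonneg _) (by positivity)
      _ = _ := by field_simp
  · have hcnt := hDm.countable_not_continuousAt
    have h3 : ∀ᵐ u ∂(volume : Measure ℝ), u ∉ {x | ¬ ContinuousAt (DI E) x} :=
      (Set.Countable.ae_notMem hcnt _)
    filter_upwards [ae_restrict_of_ae h3, ae_restrict_mem measurableSet_Ioi] with u hu hu0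
    have hcu : ContinuousAt (DI E) u := by
      by_contra h; exact hu h
    exact ((tendsto_of_cont hEm hrat hu0 hcu).sub_const _).const_mul _

lemma continuous_of_lip {G : ℝ → ℝ} (hG : ∀ u v, |G u - G v| ≤ |u - v|) : Continuous G := by
  rw [Metric.continuous_iff]
  intro b e he
  refine ⟨e, he, fun a ha => lt_of_le_of_lt ?_ ha⟩
  rw [Real.dist_eq, Real.dist_eq]; exact hG a b

section
variable {ι : Type*} {l : Filter ι} {D : ι → ℝ → ℝ} {G : ℝ → ℝ}

/-- **Rigidity from windows** `[A_j, R0 A_j]`, `A_j → ∞`. -/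
theorem rigidity_windows [l.IsCountablyGenerated] (hD : ∀ i, Monotone (D i))
    (hG : ∀ u v, |G u - G v| ≤ |u - v|)
    {C : ℝ} (hC : ∀ᶠ i in l, ∀ u ≥ 0, |D i u - G u| ≤ C * (1 + u) ^ 2)
    {C' : ℝ} (hC' : ∀ u ≥ 0, ∀ᶠ i in l, |D i u - G u| ≤ C')
    {b : ℝ} (hb : 0 < b) (hgap : ∀ φ : ℝ → ℝ, TF φ b →
      Tendsto (fun i => ∫ u in Ioi (0:ℝ), (Kc φ ((2 * π * u : ℝ) * Complex.I)).im * (D i u - G u)) l (𝓝 0))
    {B c sgn : ℝ} (hB : 0 ≤ B) (hc : 0 < c) (hsgn : sgn = 1 ∨ sgn = -1)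
    {A : ℕ → ℝ} (hA : Tendsto A atTop atTop)
    (hi : ∀ j, ∀ a ∈ Icc (A j) (R0 * A j), ∀ ε > 0, ∀ᶠ i in l, -(B * Real.exp (-(c * a))) - ε ≤ sgn * (D i a - G a)) :
    ∀ u > 0, Tendsto (fun i => D i u - G u) l (𝓝 0) := by
  intro u₀ hu₀
  apply Filter.tendsto_of_subseq_tendsto
  intro ns hns
  have hGc : Continuous G := continuous_of_lip hG
  obtain ⟨N, hN⟩ := eventually_atTop.mp (hns.eventually hC)
  obtain ⟨φ, hφ, hrat⟩ := extract_limit (E := fun n => D (ns (n + N))) (G := G) (C := C)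
    (fun k u hu => hN (k + N) (by omega) u hu)
  set E : ℕ → ℝ → ℝ := fun k => D (ns (φ k + N)) with hE
  have hEm : ∀ k, Monotone (E k) := fun k => hD _
  have hEC : ∀ k, ∀ u ≥ 0, |E k u - G u| ≤ C * (1 + u) ^ 2 := fun k u hu => hN (φ k + N) (by omega) u hu
  have hsub : Tendsto (fun k => ns (φ k + N)) atTop l :=
    hns.comp ((tendsto_add_atTop_nat N).comp hφ.tendsto_atTop)
  have hDm := DI_mono hEm hEC
  have hHm : Measurable (fun u => DI E u - G u) := hDm.measurable.sub hGc.measurable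
  have hDb' : ∀ u, 0 ≤ u → |DI E u - G u| ≤ C' := by
    intro u hu
    have h1 := hsub.eventually (hC' u hu)
    rw [abs_le]
    constructor
    · have h2 : ∀ᶠ k in atTop, G u - C' ≤ E k u := by
        filter_upwards [h1] with k hk
        have := (abs_le.1 hk).1
        show G u - C' ≤ D (ns (φ k + N)) u
        linarith
      have := DI_lower hu hEC h2
      linarith
    · have h2 : ∀ᶠ k in atTop, E k u ≤ G u + C' := by
        filter_upwards [h1] with k hk
        have := (abs_le.1 hk).2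
        show D (ns (φ k + N)) u ≤ G u + C'
        linarith
      have := DI_upper hu hEC h2
      linarith
  have hsabs : |sgn| = 1 := by
    rcases hsgn with h | h
    · rw [h, abs_one]
    · rw [h, abs_neg, abs_one]
  have hsne : sgn ≠ 0 := by
    intro h; rw [h, abs_zero] at hsabs; norm_num at hsabs
  -- the gap
  have hGap : Gap (fun u => sgn * (DI E u - G u)) b := by
    intro φ' hφ'
    obtain ⟨K, hK, hKb⟩ := hφ'.line_bound 4
    have hcont : Continuous (fun u : ℝ => (Kc φ' ((2 * π * u : ℝ) * Complex.I)).im) :=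
      Complex.continuous_im.comp (hφ'.differentiable_Kc.continuous.comp (by fun_prop))
    have h1 := limit_integral hEm hGc hEC hrat hcont (K := K) (by
      intro u hu
      refine le_trans ?_ (hKb u hu)
      exact mul_le_mul_of_nonneg_left (Complex.abs_im_le_norm _) (by positivity))
    have h2 := (hgap φ' hφ').comp hsub
    have h3 := tendsto_nhds_unique h1 h2
    have e1 : ∀ u : ℝ, (Kc φ' ((2 * π * u : ℝ) * Complex.I)).im * (sgn * (DI E u - G u)) =
        sgn * ((Kc φ' ((2 * π * u : ℝ) * Complex.I)).im * (DI E u - G u)) := fun u => by ring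
    simp_rw [e1]
    rw [integral_const_mul, h3, mul_zero]
  -- the windows
  obtain ⟨j₀, hj₀⟩ := eventually_atTop.1 (hA.eventually (eventually_ge_atTop (0:ℝ)))
  have hae' := windows_unique (H := fun u => sgn * (DI E u - G u)) hGap hb (hHm.const_mul sgn) (C := C') (by
      intro u hu
      rw [abs_mul, hsabs, one_mul]
      exact hDb' u hu) hc hB (A := fun j => A (j + j₀)) (hA.comp (tendsto_add_atTop_nat j₀)) (by
      intro j u hu
      have hu0 : 0 ≤ u := (hj₀ (j + j₀) (by omega)).trans hu.1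
      by_contra hcon
      push Not at hcon
      set ε := (-(B * Real.exp (-(c * u))) - sgn * (DI E u - G u)) / 2 with hε
      have hε0 : 0 < ε := by rw [hε]; linarith
      have h1 := hsub.eventually (hi (j + j₀) u hu ε hε0)
      rcases hsgn with hs | hs
      · have h2 : ∀ᶠ k in atTop, G u - B * Real.exp (-(c * u)) - ε ≤ E k u := by
          filter_upwards [h1] with k hk
          have : E k u = D (ns (φ k + N)) u := rfl
          rw [hs] at hk
          rw [this]; linarith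
        have h3 := DI_lower hu0 hEC h2
        rw [hs] at hε
        linarith
      · have h2 : ∀ᶠ k in atTop, E k u ≤ G u + B * Real.exp (-(c * u)) + ε := by
          filter_upwards [h1] with k hk
          have : E k u = D (ns (φ k + N)) u := rfl
          rw [hs] at hk
          rw [this]; linarith
        have h3 := DI_upper hu0 hEC h2
        rw [hs] at hε
        linarith)
  have hae : ∀ᵐ u ∂(volume.restrict (Ioi (0:ℝ))), DI E u - G u = 0 := by
    filter_upwards [hae'] with u hu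
    exact (mul_eq_zero.mp hu).resolve_left hsne
  have heq : ∀ u > 0, DI E u = G u := fun u hu => eq_of_ae hDm hGc hae hu
  have hcont : ContinuousAt (DI E) u₀ := by
    have h1 : DI E =ᶠ[𝓝 u₀] G := by
      filter_upwards [lt_mem_nhds hu₀] with v hv
      exact heq v hv
    exact hGc.continuousAt.congr h1.symm
  refine ⟨fun k => φ k + N, ?_⟩
  have h1 := tendsto_of_cont hEm hrat hu₀ hcont
  rw [heq u₀ hu₀] at h1
  have h2 := h1.sub_const (G u₀)
  rw [sub_self] at h2
  exact h2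

end

end Pool.Agent.PairCorr
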