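import Mathlib
import Pool.Agent.PairCorr.C_Kernel

/-!
Smoothed indicator functions with compactly supported Fourier transform.
-/

set_option autoImplicit false

namespace Pool.Agent.PairCorr.P1

open MeasureTheory Filter Topology Set Real

/-- `sin x / x`, smooth at `0`. -/
noncomputable def snc (x : ℝ) : ℝ := dslope Real.sin 0 x

lemma snc_mul (x : ℝ) : x * snc x = Real.sin x := by
  unfold snc
  have := sub_smul_dslope Real.sin 0 x
  simpa using this

lemma contDiff_snc : ContDiff ℝ (⊤ : ℕ∞) snc := by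
  have hA : AnalyticOnNhd ℝ snc univ := by
    intro x _
    by_cases hx : x = 0
    · subst hx
      obtain ⟨p, hp⟩ := (Real.analyticAt_sin (x := 0))
      exact ⟨p.fslope, hp.has_fpower_series_dslope_fslope⟩
    · have h1 : snc =ᶠ[𝓝 x] fun y => Real.sin y / y := by
        filter_upwards [isOpen_ne.mem_nhds hx] with y hy
        have hy' : y ≠ 0 := hy
        have := snc_mul y
        field_simp
        linarith
      rw [analyticAt_congr h1]
      exact Real.analyticAt_sin.div analyticAt_id hx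
  exact hA.contDiff.of_le (by exact_mod_cast le_top)

lemma abs_snc_le (x : ℝ) : |snc x| ≤ 1 := by
  by_cases hx : x = 0
  · subst hx
    unfold snc
    rw [dslope_same]
    simp
  · have h1 := snc_mul x
    have h2 : snc x = Real.sin x / x := by field_simp; linarith
    rw [h2, abs_div, div_le_one (abs_pos.mpr hx)]
    exact Real.abs_sin_le_abs

lemma snc_zero : snc 0 = 1 := by
  unfold snc
  rw [dslope_same]
  simp

lemma snc_neg (x : ℝ) : snc (-x) = snc x := by
  by_cases hx : x = 0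
  · subst hx; simp
  · have h1 := snc_mul x
    have h2 := snc_mul (-x)
    rw [Real.sin_neg] at h2
    have : x * (snc (-x) - snc x) = 0 := by linarith
    rcases mul_eq_zero.mp this with h | h
    · exact absurd h hx
    · linarith

/-- `sin (s v) / (π v)` -/
noncomputable def kerS (s v : ℝ) : ℝ := s / π * snc (s * v)

lemma mul_kerS (s v : ℝ) : v * kerS s v = Real.sin (s * v) / π := by
  unfold kerS
  rw [← snc_mul]
  ring

lemma contDiff_kerS (s : ℝ) : ContDiff ℝ (⊤ : ℕ∞) (kerS s) := by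
  unfold kerS
  exact contDiff_const.mul (contDiff_snc.comp (contDiff_const.mul contDiff_id))

variable {χ : ℝ → ℝ} {b : ℝ}

/-- the Fourier transform of the smoothed indicator of `[-s,s]` -/
noncomputable def chiS (χ : ℝ → ℝ) (s v : ℝ) : ℝ := kerS s v * χ v

lemma chiS_TF (h : TF χ b) (s : ℝ) : TF (chiS χ s) b := h.mul (contDiff_kerS s)

lemma chiS_even (hev : ∀ v, χ (-v) = χ v) (s v : ℝ) : chiS χ s (-v) = chiS χ s v := by
  unfold chiS kerS
  rw [hev, mul_neg, snc_neg]

/-- derivative of the kernel -/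
lemma hasDerivAt_Ks (h : TF χ b) (s : ℝ) (w : ℂ) :
    HasDerivAt (Kc (chiS χ s)) ((2 * π * Complex.I)⁻¹ *
      (Kc χ (w + s * Complex.I) - Kc χ (w - s * Complex.I))) w := by
  refine ((chiS_TF h s).hasDerivAt_Kc w).congr_deriv ?_
  unfold Kc
  rw [← integral_sub (h.integrable_exp _) (h.integrable_exp _), ← integral_const_mul]
  apply integral_congr_ae
  filter_upwards with v
  have e1 : ((v * chiS χ s v : ℝ) : ℂ) = (Complex.sin (s * v) / π) * χ v := by
    have : v * chiS χ s v = Real.sin (s * v) / π * χ v := by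
      unfold chiS
      rw [← mul_assoc, mul_kerS]
    rw [this]
    push_cast
    rfl
  rw [e1]
  have e2 : Complex.sin (s * v) = (Complex.exp (v * (s * Complex.I)) -
      Complex.exp (-(v * (s * Complex.I)))) / (2 * Complex.I) := by
    rw [Complex.sin]
    have : ((s : ℂ) * v) * Complex.I = v * (s * Complex.I) := by ring
    rw [this, show -((s : ℂ) * v) * Complex.I = -(v * (s * Complex.I)) by ring]
    have hI2 : (2 * Complex.I : ℂ) ≠ 0 := mul_ne_zero two_ne_zero Complex.I_ne_zero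
    rw [eq_div_iff hI2]
    have : Complex.I ^ 2 = -1 := Complex.I_sq
    linear_combination (Complex.exp (-(v * (s * Complex.I))) - Complex.exp (v * (s * Complex.I))) * this
  have e3 : (v : ℂ) * (w + s * Complex.I) = v * w + v * (s * Complex.I) := by ring
  have e4 : (v : ℂ) * (w - s * Complex.I) = v * w + -(v * (s * Complex.I)) := by ring
  rw [e2, e3, e4, Complex.exp_add, Complex.exp_add]
  have hpi : (π : ℂ) ≠ 0 := by exact_mod_cast Real.pi_ne_zero
  field_simp

/-- decay -/
lemma exists_decay5 (h : TF χ b) : ∃ K : ℝ, 0 < K ∧ ∀ w : ℂ,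
    ‖Kc χ w‖ ≤ K * Real.exp (b * |w.re|) * ((1 + |w.im|) ^ 5)⁻¹ := by
  obtain ⟨C, hC0, hC⟩ := h.decay_one_add 5
  refine ⟨C + 1, by positivity, fun w => ?_⟩
  have h1 := hC w
  have h2 : (1 + |w.im|) ^ 5 ≤ (1 + ‖w‖) ^ 5 := by
    have := Complex.abs_im_le_norm w
    gcongr
  rw [← div_eq_mul_inv, le_div_iff₀ (by positivity)]
  calc ‖Kc χ w‖ * (1 + |w.im|) ^ 5 ≤ ‖Kc χ w‖ * (1 + ‖w‖) ^ 5 := by gcongr
    _ = (1 + ‖w‖) ^ 5 * ‖Kc χ w‖ := by ring
    _ ≤ C * Real.exp (b * |w.re|) := h1
    _ ≤ (C + 1) * Real.exp (b * |w.re|) := by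
        gcongr
        linarith

/-- `(1+|x|)^{-4}` -/
noncomputable def q4 (x : ℝ) : ℝ := ((1 + |x|) ^ 4)⁻¹

lemma q4_pos (x : ℝ) : 0 < q4 x := by unfold q4; positivity

lemma q5_le_q4 (x : ℝ) : ((1 + |x|) ^ 5)⁻¹ ≤ q4 x := by
  unfold q4
  apply inv_anti₀ (by positivity)
  exact pow_le_pow_right₀ (by linarith [abs_nonneg x]) (by norm_num)

/-- moving off the line -/
lemma exists_horiz (h : TF χ b) : ∃ K : ℝ, 0 < K ∧ ∀ s r τ : ℝ,
    ‖Kc (chiS χ s) (r + τ * Complex.I) - Kc (chiS χ s) (τ * Complex.I)‖ ≤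
      K * (|r| * Real.exp (|b| * |r|)) * (q4 (τ - s) + q4 (τ + s)) := by
  obtain ⟨K, hK, hdec⟩ := exists_decay5 h
  refine ⟨K, hK, fun s r τ => ?_⟩
  have hconv : Convex ℝ {w : ℂ | |w.re| ≤ |r| ∧ w.im = τ} := by
    intro x hx y hy a c ha hc hac
    refine ⟨?_, ?_⟩
    · have e : (a • x + c • y).re = a * x.re + c * y.re := by simp
      rw [e]
      calc |a * x.re + c * y.re| ≤ |a * x.re| + |c * y.re| := abs_add_le _ _
        _ = a * |x.re| + c * |y.re| := by rw [abs_mul, abs_mul, abs_of_nonneg ha, abs_of_nonneg hc]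
        _ ≤ a * |r| + c * |r| := by
            have h1 := hx.1
            have h2 := hy.1
            gcongr
        _ = |r| := by rw [← add_mul, hac, one_mul]
    · have e : (a • x + c • y).im = a * x.im + c * y.im := by simp
      show (a • x + c • y).im = τ
      rw [e, hx.2, hy.2, ← add_mul, hac, one_mul]
  have hbound : ∀ w ∈ {w : ℂ | |w.re| ≤ |r| ∧ w.im = τ},
      ‖(2 * π * Complex.I)⁻¹ * (Kc χ (w + s * Complex.I) - Kc χ (w - s * Complex.I))‖ ≤
      K * Real.exp (|b| * |r|) * (q4 (τ - s) + q4 (τ + s)) := by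
    intro w hw
    have h1 := hdec (w + s * Complex.I)
    have h2 := hdec (w - s * Complex.I)
    have e1 : (w + s * Complex.I).re = w.re := by simp
    have e2 : (w + s * Complex.I).im = τ + s := by simp [hw.2]
    have e3 : (w - s * Complex.I).re = w.re := by simp
    have e4 : (w - s * Complex.I).im = τ - s := by simp [hw.2]
    rw [e1, e2] at h1
    rw [e3, e4] at h2
    have hexp : Real.exp (b * |w.re|) ≤ Real.exp (|b| * |r|) := by
      apply Real.exp_le_exp.mpr
      exact mul_le_mul (le_abs_self b) hw.1 (abs_nonneg _) (abs_nonneg _)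
    have hpi : ‖(2 * π * Complex.I : ℂ)⁻¹‖ ≤ 1 := by
      rw [norm_inv]
      apply inv_le_one_of_one_le₀
      simp
      rw [abs_of_pos Real.pi_pos]
      have := Real.pi_gt_three
      linarith
    have q1 := q5_le_q4 (τ + s)
    have q2 := q5_le_q4 (τ - s)
    have h1' : ‖Kc χ (w + s * Complex.I)‖ ≤ K * Real.exp (|b| * |r|) * q4 (τ + s) := by
      refine h1.trans ?_
      gcongr
    have h2' : ‖Kc χ (w - s * Complex.I)‖ ≤ K * Real.exp (|b| * |r|) * q4 (τ - s) := by
      refine h2.trans ?_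
      gcongr
    calc ‖(2 * π * Complex.I)⁻¹ * (Kc χ (w + s * Complex.I) - Kc χ (w - s * Complex.I))‖
        = ‖(2 * π * Complex.I : ℂ)⁻¹‖ * ‖Kc χ (w + s * Complex.I) - Kc χ (w - s * Complex.I)‖ :=
          norm_mul _ _
      _ ≤ 1 * (‖Kc χ (w + s * Complex.I)‖ + ‖Kc χ (w - s * Complex.I)‖) := by
          gcongr
          exact norm_sub_le _ _
      _ ≤ _ := by linarith
  have hmv := hconv.norm_image_sub_le_of_norm_hasDerivWithin_le
    (f := Kc (chiS χ s)) (f' := fun w => (2 * π * Complex.I)⁻¹ *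
      (Kc χ (w + s * Complex.I) - Kc χ (w - s * Complex.I)))
    (fun w _ => (hasDerivAt_Ks h s w).hasDerivWithinAt) hbound
    (x := τ * Complex.I) (y := r + τ * Complex.I) (by simp) (by simp)
  refine hmv.trans (le_of_eq ?_)
  have : (r + τ * Complex.I : ℂ) - τ * Complex.I = r := by ring
  rw [this, Complex.norm_real, Real.norm_eq_abs]
  ring

lemma continuous_om (h : TF χ b) : Continuous fun y : ℝ => Kc χ (y * Complex.I) :=
  h.differentiable_Kc.continuous.comp (by fun_prop)

/-- decay in the vertical direction: `W_s(iτ) → 0` -/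
lemma tendsto_Ks_zero (h : TF χ b) (s : ℝ) :
    Tendsto (fun τ : ℝ => Kc (chiS χ s) (τ * Complex.I)) atTop (𝓝 0) := by
  obtain ⟨K, hK, hdec⟩ := exists_decay5 (chiS_TF h s)
  rw [tendsto_zero_iff_norm_tendsto_zero]
  have h1 : Tendsto (fun τ : ℝ => K * τ⁻¹) atTop (𝓝 (K * 0)) := tendsto_inv_atTop_zero.const_mul K
  rw [mul_zero] at h1
  refine squeeze_zero' (Eventually.of_forall fun τ => norm_nonneg _) ?_ h1
  filter_upwards [eventually_gt_atTop 0] with τ hτ
  have h2 := hdec (τ * Complex.I)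
  simp only [Complex.mul_re, Complex.ofReal_re, Complex.I_re, mul_zero, Complex.ofReal_im,
    Complex.I_im, mul_one, sub_self, abs_zero, Real.exp_zero, Complex.mul_im, add_zero] at h2
  refine h2.trans ?_
  gcongr
  rw [abs_of_pos hτ]
  calc τ ≤ 1 + τ := by linarith
    _ ≤ (1 + τ) ^ 5 := le_self_pow₀ (by linarith) (by norm_num)

/-- bound for integrals of the kernel over intervals in a half line -/
lemma exists_tail (h : TF χ b) : ∃ K : ℝ, 0 < K ∧ (∀ α β : ℝ, 0 ≤ α → α ≤ β →
    ‖∫ y in α..β, Kc χ (y * Complex.I)‖ ≤ K * q4 α) ∧ (∀ α β : ℝ, α ≤ β → β ≤ 0 →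
    ‖∫ y in α..β, Kc χ (y * Complex.I)‖ ≤ K * q4 β) := by
  obtain ⟨K, hK, hdec⟩ := exists_decay5 h
  have hd : ∀ y : ℝ, ‖Kc χ (y * Complex.I)‖ ≤ K * ((1 + |y|) ^ 5)⁻¹ := by
    intro y
    have h2 := hdec (y * Complex.I)
    simpa using h2
  have hint5 : ∀ α β : ℝ, 0 ≤ α → α ≤ β → ∫ y in α..β, K * ((1 + |y|) ^ 5)⁻¹ ≤ K * q4 α := by
    intro α β hα hαβ
    have e1 : ∫ y in α..β, K * ((1 + |y|) ^ 5)⁻¹ = ∫ y in α..β, K * ((1 + y) ^ 5)⁻¹ := by
      apply intervalIntegral.integral_congr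
      intro y hy
      rw [uIcc_of_le hαβ] at hy
      simp only
      rw [abs_of_nonneg (hα.trans hy.1)]
    have e2 : ∫ y in α..β, K * ((1 + y) ^ 5)⁻¹ =
        (-(K / 4) * ((1 + β) ^ 4)⁻¹) - (-(K / 4) * ((1 + α) ^ 4)⁻¹) := by
      apply intervalIntegral.integral_eq_sub_of_hasDerivAt
      · intro y hy
        rw [uIcc_of_le hαβ] at hy
        have hy0 : 1 + y ≠ 0 := by have := hα.trans hy.1; positivity
        have h1 : HasDerivAt (fun y : ℝ => 1 + y) 1 y := by simpa using (hasDerivAt_id y).const_add 1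
        have h2 := ((h1.pow 4).inv (pow_ne_zero 4 hy0)).const_mul (-(K / 4))
        refine h2.congr_deriv ?_
        simp only [Pi.pow_apply]
        field_simp
        norm_num
      · apply ContinuousOn.intervalIntegrable
        rw [uIcc_of_le hαβ]
        intro y hy
        have hy0 : 1 + y ≠ 0 := by have := hα.trans hy.1; positivity
        apply ContinuousAt.continuousWithinAt
        exact continuousAt_const.mul ((by fun_prop : ContinuousAt (fun y : ℝ => (1 + y) ^ 5) y).inv₀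
          (pow_ne_zero 5 hy0))
    rw [e1, e2]
    have hβ : 0 ≤ ((1 + β) ^ 4)⁻¹ := by
      have : 0 ≤ 1 + β := by linarith
      positivity
    have hα2 : ((1 + α) ^ 4)⁻¹ = q4 α := by unfold q4; rw [abs_of_nonneg hα]
    rw [hα2]
    have := q4_pos α
    nlinarith [mul_nonneg hK.le hβ, mul_pos hK this]
  have hcont5 : Continuous fun y : ℝ => K * ((1 + |y|) ^ 5)⁻¹ := by
    have : Continuous fun y : ℝ => ((1 + |y|) ^ 5)⁻¹ := by
      apply Continuous.inv₀ (by fun_prop)
      intro y; positivity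
    exact continuous_const.mul this
  refine ⟨K, hK, fun α β hα hαβ => ?_, fun α β hαβ hβ => ?_⟩
  · refine le_trans ?_ (hint5 α β hα hαβ)
    exact intervalIntegral.norm_integral_le_of_norm_le hαβ
      (Eventually.of_forall fun y _ => hd y) (hcont5.intervalIntegrable _ _)
  · have h1 : ‖∫ y in α..β, Kc χ (y * Complex.I)‖ ≤ ∫ y in α..β, K * ((1 + |y|) ^ 5)⁻¹ :=
      intervalIntegral.norm_integral_le_of_norm_le hαβ
        (Eventually.of_forall fun y _ => hd y) (hcont5.intervalIntegrable _ _)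
    have h2 : ∫ y in α..β, K * ((1 + |y|) ^ 5)⁻¹ = ∫ y in (-β)..(-α), K * ((1 + |y|) ^ 5)⁻¹ := by
      rw [← intervalIntegral.integral_comp_neg (fun y => K * ((1 + |y|) ^ 5)⁻¹)]
      simp
    rw [h2] at h1
    have h3 := hint5 (-β) (-α) (by linarith) (by linarith)
    have h4 : q4 (-β) = q4 β := by unfold q4; rw [abs_neg]
    rw [h4] at h3
    exact h1.trans h3

/-- the kernel on the line as an integral of the smooth approximate identity -/
lemma Ks_eq_integral (h : TF χ b) (s τ : ℝ) :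
    Kc (chiS χ s) (τ * Complex.I) = (2 * π : ℂ)⁻¹ * ∫ y in (τ - s)..(τ + s), Kc χ (y * Complex.I) := by
  set ω : ℝ → ℂ := fun y => Kc χ (y * Complex.I) with hω
  have hωc : Continuous ω := continuous_om h
  set P : ℝ → ℂ := fun x => ∫ y in (0 : ℝ)..x, ω y with hP
  have hPd : ∀ x, HasDerivAt P (ω x) x := fun x =>
    intervalIntegral.integral_hasDerivAt_right (hωc.intervalIntegrable _ _)
      (hωc.stronglyMeasurableAtFilter _ _) hωc.continuousAt
  have hsplit : ∀ τ : ℝ, ∫ y in (τ - s)..(τ + s), ω y = P (τ + s) - P (τ - s) := by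
    intro τ
    simp only [hP]
    rw [intervalIntegral.integral_interval_sub_left (hωc.intervalIntegrable _ _)
      (hωc.intervalIntegrable _ _)]
  set F : ℝ → ℂ := fun τ => Kc (chiS χ s) (τ * Complex.I) -
    (2 * π : ℂ)⁻¹ * (P (τ + s) - P (τ - s)) with hF
  have hpi : (π : ℂ) ≠ 0 := by exact_mod_cast Real.pi_ne_zero
  have hFd : ∀ τ, HasDerivAt F 0 τ := by
    intro τ
    have h1 : HasDerivAt (fun τ : ℝ => (τ : ℂ) * Complex.I) Complex.I τ := by
      simpa using (Complex.ofRealCLM.hasDerivAt (x := τ)).mul_const Complex.I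
    have h2 := (hasDerivAt_Ks h s (τ * Complex.I)).comp τ h1
    have h3 : HasDerivAt (fun τ : ℝ => P (τ + s)) (ω (τ + s)) τ := by
      have := (hPd (τ + s)).comp_add_const τ s
      exact this
    have h4 : HasDerivAt (fun τ : ℝ => P (τ - s)) (ω (τ - s)) τ := by
      have := (hPd (τ - s)).comp_sub_const τ s
      exact this
    have h5 := h2.sub ((h3.sub h4).const_mul ((2 * π : ℂ)⁻¹))
    refine h5.congr_deriv ?_
    have e1 : ω (τ + s) = Kc χ (τ * Complex.I + s * Complex.I) := by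
      simp only [hω]; congr 1; push_cast; ring
    have e2 : ω (τ - s) = Kc χ (τ * Complex.I - s * Complex.I) := by
      simp only [hω]; congr 1; push_cast; ring
    rw [e1, e2]
    have hI : Complex.I ≠ 0 := Complex.I_ne_zero
    field_simp
    ring
  have hconst : ∀ x y, F x = F y := by
    intro x y
    apply is_const_of_deriv_eq_zero (fun z => (hFd z).differentiableAt) (fun z => (hFd z).deriv)
  obtain ⟨K, hK, ht1, ht2⟩ := exists_tail h
  have hlim : Tendsto F atTop (𝓝 0) := by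
    have h1 := tendsto_Ks_zero h s
    have h2 : Tendsto (fun τ : ℝ => (2 * π : ℂ)⁻¹ * (P (τ + s) - P (τ - s))) atTop (𝓝 0) := by
      rw [tendsto_zero_iff_norm_tendsto_zero]
      have h3 : Tendsto (fun τ : ℝ => 2 * K * (τ - |s|)⁻¹) atTop (𝓝 (2 * K * 0)) := by
        apply Tendsto.const_mul
        exact tendsto_inv_atTop_zero.comp (tendsto_atTop_add_const_right _ _ tendsto_id)
      rw [mul_zero] at h3
      refine squeeze_zero' (Eventually.of_forall fun τ => norm_nonneg _) ?_ h3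
      filter_upwards [eventually_gt_atTop (|s|)] with τ hτ
      have hs1 := le_abs_self s
      have hs2 := neg_abs_le s
      rw [← hsplit, norm_mul]
      have hpi2 : ‖(2 * π : ℂ)⁻¹‖ ≤ 1 := by
        rw [norm_inv]
        apply inv_le_one_of_one_le₀
        simp
        rw [abs_of_pos Real.pi_pos]
        have := Real.pi_gt_three
        linarith
      have hq : ∀ x : ℝ, τ - |s| ≤ x → q4 x ≤ (τ - |s|)⁻¹ := by
        intro x hx
        unfold q4
        apply inv_anti₀ (by linarith)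
        have hx0 : 0 ≤ x := by linarith
        rw [abs_of_nonneg hx0]
        calc τ - |s| ≤ 1 + x := by linarith
          _ ≤ (1 + x) ^ 4 := le_self_pow₀ (by linarith) (by norm_num)
      have hinv : 0 ≤ (τ - |s|)⁻¹ := by
        apply inv_nonneg.mpr; linarith
      rcases le_total 0 s with h0 | h0
      · have := ht1 (τ - s) (τ + s) (by linarith) (by linarith)
        have hq' := hq (τ - s) (by rw [abs_of_nonneg h0])
        calc ‖(2 * π : ℂ)⁻¹‖ * ‖∫ y in (τ - s)..(τ + s), ω y‖ ≤ 1 * (K * q4 (τ - s)) := by gcongr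
          _ ≤ 1 * (K * (τ - |s|)⁻¹) := by gcongr
          _ ≤ 2 * K * (τ - |s|)⁻¹ := by nlinarith [mul_nonneg hK.le hinv]
      · have := ht1 (τ + s) (τ - s) (by linarith) (by linarith)
        rw [intervalIntegral.integral_symm, norm_neg]
        have hq' := hq (τ + s) (by linarith)
        calc ‖(2 * π : ℂ)⁻¹‖ * ‖∫ y in (τ + s)..(τ - s), ω y‖ ≤ 1 * (K * q4 (τ + s)) := by gcongr
          _ ≤ 1 * (K * (τ - |s|)⁻¹) := by gcongr
          _ ≤ 2 * K * (τ - |s|)⁻¹ := by nlinarith [mul_nonneg hK.le hinv]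
    have := h1.sub h2
    rw [sub_zero] at this
    exact this
  have hF0 : F τ = 0 := by
    have h1 : Tendsto (fun _ : ℝ => F τ) atTop (𝓝 0) := hlim.congr fun x => hconst x τ
    exact tendsto_nhds_unique tendsto_const_nhds h1
  have : Kc (chiS χ s) (τ * Complex.I) - (2 * π : ℂ)⁻¹ * (P (τ + s) - P (τ - s)) = 0 := hF0
  rw [← hsplit] at this
  rw [sub_eq_zero] at this
  exact this

/-- total mass -/
lemma tendsto_total (h : TF χ b) (h0 : χ 0 = 1) :
    Tendsto (fun R : ℝ => ∫ y in (-R)..R, Kc χ (y * Complex.I)) atTop (𝓝 (2 * π)) := by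
  obtain ⟨h1, h2⟩ := h.inversion 0 0
  simp only [Complex.ofReal_zero, zero_add, zero_mul, neg_zero, Complex.exp_zero, mul_one,
    h0, mul_zero, Real.exp_zero, Complex.ofReal_one] at h1 h2
  have := intervalIntegral_tendsto_integral h1 tendsto_neg_atTop_atBot tendsto_id
  rw [h2] at this
  exact this

/-- comparison with the indicator -/
theorem exists_indicator (h : TF χ b) (h0 : χ 0 = 1) : ∃ K : ℝ, 0 < K ∧ ∀ s τ : ℝ, 0 ≤ s →
    ‖Kc (chiS χ s) (τ * Complex.I) - (if |τ| ≤ s then 1 else 0)‖ ≤ K * (q4 (τ - s) + q4 (τ + s)) := by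
  obtain ⟨K, hK, ht1, ht2⟩ := exists_tail h
  refine ⟨K, hK, fun s τ hs => ?_⟩
  have hpi := Real.pi_pos
  have hpi3 := Real.pi_gt_three
  have hpi2 : ‖(2 * π : ℂ)⁻¹‖ ≤ 1 := by
    rw [norm_inv]
    apply inv_le_one_of_one_le₀
    simp
    rw [abs_of_pos Real.pi_pos]
    linarith
  have hωc : Continuous fun y : ℝ => Kc χ (y * Complex.I) := continuous_om h
  rw [Ks_eq_integral h]
  split_ifs with hτ
  · rw [abs_le] at hτ
    have hlim := tendsto_total h h0
    have hpic : (π : ℂ) ≠ 0 := by exact_mod_cast Real.pi_ne_zero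
    have hlim2 : Tendsto (fun R : ℝ => ‖(2 * π : ℂ)⁻¹ * ((∫ y in (τ - s)..(τ + s), Kc χ (y * Complex.I)) -
        ∫ y in (-R)..R, Kc χ (y * Complex.I))‖) atTop
        (𝓝 ‖(2 * π : ℂ)⁻¹ * (∫ y in (τ - s)..(τ + s), Kc χ (y * Complex.I)) - 1‖) := by
      apply Tendsto.norm
      have h1 := (tendsto_const_nhds (x := ∫ y in (τ - s)..(τ + s), Kc χ (y * Complex.I))).sub hlim
      have h2 := h1.const_mul ((2 * π : ℂ)⁻¹)
      have e : (2 * π : ℂ)⁻¹ * ((∫ y in (τ - s)..(τ + s), Kc χ (y * Complex.I)) - 2 * π) =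
          (2 * π : ℂ)⁻¹ * (∫ y in (τ - s)..(τ + s), Kc χ (y * Complex.I)) - 1 := by
        rw [mul_sub, inv_mul_cancel₀ (mul_ne_zero two_ne_zero hpic)]
      rw [e] at h2
      exact h2
    refine le_of_tendsto hlim2 ?_
    filter_upwards [eventually_ge_atTop (|τ| + s)] with R hR
    have hτ1 := le_abs_self τ
    have hτ2 := neg_abs_le τ
    have hii : ∀ a b : ℝ, IntervalIntegrable (fun y : ℝ => Kc χ (y * Complex.I)) volume a b :=
      fun a b => hωc.intervalIntegrable a b
    have hsplit : (∫ y in (τ - s)..(τ + s), Kc χ (y * Complex.I)) -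
        ∫ y in (-R)..R, Kc χ (y * Complex.I) = -((∫ y in (-R)..(τ - s), Kc χ (y * Complex.I)) +
          ∫ y in (τ + s)..R, Kc χ (y * Complex.I)) := by
      rw [← intervalIntegral.integral_add_adjacent_intervals (hii (-R) (τ - s)) (hii (τ - s) R),
        ← intervalIntegral.integral_add_adjacent_intervals (hii (τ - s) (τ + s)) (hii (τ + s) R)]
      ring
    rw [hsplit, norm_mul, norm_neg]
    have e1 := ht2 (-R) (τ - s) (by linarith) (by linarith)
    have e2 := ht1 (τ + s) R (by linarith) (by linarith)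
    calc ‖(2 * π : ℂ)⁻¹‖ * ‖(∫ y in (-R)..(τ - s), Kc χ (y * Complex.I)) +
          ∫ y in (τ + s)..R, Kc χ (y * Complex.I)‖ ≤ 1 * (K * q4 (τ - s) + K * q4 (τ + s)) := by
          gcongr
          exact (norm_add_le _ _).trans (add_le_add e1 e2)
      _ = _ := by ring
  · rw [sub_zero, norm_mul]
    have hq1 := q4_pos (τ - s)
    have hq2 := q4_pos (τ + s)
    rw [abs_le, not_and_or, not_le, not_le] at hτ
    rcases hτ with hτ | hτ
    · have := ht2 (τ - s) (τ + s) (by linarith) (by linarith)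
      calc ‖(2 * π : ℂ)⁻¹‖ * ‖∫ y in (τ - s)..(τ + s), Kc χ (y * Complex.I)‖ ≤ 1 * (K * q4 (τ + s)) := by
            gcongr
        _ ≤ _ := by nlinarith [mul_pos hK hq1]
    · have := ht1 (τ - s) (τ + s) (by linarith) (by linarith)
      calc ‖(2 * π : ℂ)⁻¹‖ * ‖∫ y in (τ - s)..(τ + s), Kc χ (y * Complex.I)‖ ≤ 1 * (K * q4 (τ - s)) := by
            gcongr
        _ ≤ _ := by nlinarith [mul_pos hK hq2]

end Pool.Agent.PairCorr.P1
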