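import Mathlib
import Pool.Agent.PairCorr.PB_Far

/-!
Pair sums with a shifted kernel.
-/

set_option autoImplicit false

namespace Pool.Agent.PairCorr

open MeasureTheory Filter Topology Set Real
open scoped ENNReal

/-- the weight of a pair with a general kernel -/
noncomputable def pairK (c T : ℝ) (k : ℝ → ℝ) (p : ℂ × ℂ) : ℝ :=
  wgt c T p.1 * wgt c T p.2 * k (p.1.im - p.2.im)

lemma measurable_pairK (c T : ℝ) {k : ℝ → ℝ} (hk : Measurable k) : Measurable (pairK c T k) := by
  unfold pairK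
  have h1 := (continuous_wgt c T).measurable
  exact ((h1.comp measurable_fst).mul (h1.comp measurable_snd)).mul
    (hk.comp (f := fun p : ℂ × ℂ => p.1.im - p.2.im) (by fun_prop))

/-- Averaging over cells, general kernel. -/
theorem near_doubleK {α β : Measure ℂ} [SFinite α] [SFinite β] {c T : ℝ} (hT : Real.exp 1 ≤ T)
    {k : ℝ → ℝ} (hk : Measurable k)
    (hsh : ∀ x y t s : ℝ, |x - t| ≤ 1 / Real.log T → |y - s| ≤ 1 / Real.log T →
      k (x - y) ≤ 81 * k (t - s)) :
    (∫⁻ p in {p : ℂ × ℂ | |p.1.im| ≤ 2 * T ∧ |p.2.im| ≤ 2 * T}, ENNReal.ofReal (pairK c T k p)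
      ∂(α.prod β)) * ENNReal.ofReal (2 / Real.log T) ^ 2 ≤
    81 * ∫⁻ t in Icc (-(3 * T)) (3 * T), ∫⁻ s in Icc (-(3 * T)) (3 * T),
      Eg α c T t * Eg β c T s * ENNReal.ofReal (k (t - s)) := by
  have hT1 : 1 ≤ T := (Real.one_le_exp (by norm_num)).trans hT
  have hL1 : 1 ≤ Real.log T := by
    rw [← Real.log_exp 1]
    exact Real.log_le_log (Real.exp_pos 1) hT
  have hL : 0 < Real.log T := by linarith
  set L := Real.log T with hLdef
  set I : Set ℝ := Icc (-(3 * T)) (3 * T) with hI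
  have hIm : MeasurableSet I := measurableSet_Icc
  set N : Set (ℂ × ℂ) := {p : ℂ × ℂ | |p.1.im| ≤ 2 * T ∧ |p.2.im| ≤ 2 * T} with hN
  have hNm : MeasurableSet N := by
    have h1 : Measurable fun p : ℂ × ℂ => |p.1.im| := by
      have : Measurable fun p : ℂ × ℂ => p.1.im := by fun_prop
      exact this.norm
    have h2 : Measurable fun p : ℂ × ℂ => |p.2.im| := by
      have : Measurable fun p : ℂ × ℂ => p.2.im := by fun_prop
      exact this.norm
    exact (measurableSet_le h1 measurable_const).inter (measurableSet_le h2 measurable_const)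
  -- the 4-variable function
  set G : ℂ × ℂ → ℝ × ℝ → ℝ≥0∞ := fun p q =>
    (cellInd L p.1 q.1 * ENNReal.ofReal (wgt c T p.1)) *
      (cellInd L p.2 q.2 * ENNReal.ofReal (wgt c T p.2)) *
      (81 * ENNReal.ofReal (k (q.1 - q.2))) with hG
  have hwm : Measurable fun z : ℂ => ENNReal.ofReal (wgt c T z) :=
    (continuous_wgt c T).measurable.ennreal_ofReal
  have hpkm : Measurable fun x : ℝ => ENNReal.ofReal (k x) := hk.ennreal_ofReal
  have hGm : Measurable (Function.uncurry G) := by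
    have e1 : Measurable fun x : (ℂ × ℂ) × (ℝ × ℝ) => cellInd L x.1.1 x.2.1 :=
      (measurable_cellInd L).comp (f := fun x : (ℂ × ℂ) × (ℝ × ℝ) => (x.1.1, x.2.1)) (by fun_prop)
    have e2 : Measurable fun x : (ℂ × ℂ) × (ℝ × ℝ) => cellInd L x.1.2 x.2.2 :=
      (measurable_cellInd L).comp (f := fun x : (ℂ × ℂ) × (ℝ × ℝ) => (x.1.2, x.2.2)) (by fun_prop)
    have e3 : Measurable fun x : (ℂ × ℂ) × (ℝ × ℝ) => ENNReal.ofReal (wgt c T x.1.1) :=
      hwm.comp (f := fun x : (ℂ × ℂ) × (ℝ × ℝ) => x.1.1) (by fun_prop)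
    have e4 : Measurable fun x : (ℂ × ℂ) × (ℝ × ℝ) => ENNReal.ofReal (wgt c T x.1.2) :=
      hwm.comp (f := fun x : (ℂ × ℂ) × (ℝ × ℝ) => x.1.2) (by fun_prop)
    have e5 : Measurable fun x : (ℂ × ℂ) × (ℝ × ℝ) => ENNReal.ofReal (k (x.2.1 - x.2.2)) :=
      hpkm.comp (f := fun x : (ℂ × ℂ) × (ℝ × ℝ) => x.2.1 - x.2.2) (by fun_prop)
    exact ((e1.mul e3).mul (e2.mul e4)).mul (e5.const_mul 81)
  set ν : Measure (ℝ × ℝ) := (volume.restrict I).prod (volume.restrict I) with hν
  have hpt : ∀ p ∈ N, ENNReal.ofReal (pairK c T k p) * ENNReal.ofReal (2 / L) ^ 2 ≤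
      ∫⁻ q, G p q ∂ν := by
    intro p hp
    have hr1 : ∀ t, |p.1.im - t| ≤ 1 / L → t ∈ I := by
      intro t ht
      have h1 : 1 / L ≤ 1 := by rw [div_le_one hL]; exact hL1
      have h2 := abs_le.mp ht
      have h3 := abs_le.mp hp.1
      exact ⟨by linarith, by linarith⟩
    have hr2 : ∀ t, |p.2.im - t| ≤ 1 / L → t ∈ I := by
      intro t ht
      have h1 : 1 / L ≤ 1 := by rw [div_le_one hL]; exact hL1
      have h2 := abs_le.mp ht
      have h3 := abs_le.mp hp.2
      exact ⟨by linarith, by linarith⟩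
    have h1 := lintegral_cellInd L p.1 hIm hr1
    have h2 := lintegral_cellInd L p.2 hIm hr2
    have hc1 : Measurable (cellInd L p.1) :=
      (measurable_cellInd L).comp (f := fun t : ℝ => (p.1, t)) (by fun_prop)
    have hc2 : Measurable (cellInd L p.2) :=
      (measurable_cellInd L).comp (f := fun t : ℝ => (p.2, t)) (by fun_prop)
    have h3 : ∫⁻ q, cellInd L p.1 q.1 * cellInd L p.2 q.2 ∂ν = ENNReal.ofReal (2 / L) ^ 2 := by
      rw [hν, lintegral_prod_mul hc1.aemeasurable hc2.aemeasurable, h1, h2, sq]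
    rw [← h3, ← lintegral_const_mul]
    swap
    · exact (hc1.comp measurable_fst).mul (hc2.comp measurable_snd)
    apply lintegral_mono
    intro q
    simp only [hG]
    by_cases hq1 : |p.1.im - q.1| ≤ 1 / L
    · by_cases hq2 : |p.2.im - q.2| ≤ 1 / L
      · unfold cellInd
        rw [if_pos hq1, if_pos hq2]
        simp only [mul_one, one_mul]
        have e := hsh _ _ _ _ hq1 hq2
        have hw1 : 0 ≤ wgt c T p.1 := (Real.exp_pos _).le
        have hw2 : 0 ≤ wgt c T p.2 := (Real.exp_pos _).le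
        have e81 : (81 : ℝ≥0∞) = ENNReal.ofReal 81 := by simp
        rw [e81, ← ENNReal.ofReal_mul hw1, ← ENNReal.ofReal_mul (by norm_num),
          ← ENNReal.ofReal_mul (by positivity)]
        apply ENNReal.ofReal_le_ofReal
        unfold pairK
        exact mul_le_mul_of_nonneg_left e (by positivity)
      · unfold cellInd
        rw [if_neg hq2]
        simp
    · unfold cellInd
      rw [if_neg hq1]
      simp
  calc (∫⁻ p in N, ENNReal.ofReal (pairK c T k p) ∂(α.prod β)) * ENNReal.ofReal (2 / L) ^ 2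
      = ∫⁻ p in N, ENNReal.ofReal (pairK c T k p) * ENNReal.ofReal (2 / L) ^ 2 ∂(α.prod β) := by
        rw [lintegral_mul_const]
        exact (measurable_pairK c T hk).ennreal_ofReal
    _ ≤ ∫⁻ p in N, ∫⁻ q, G p q ∂ν ∂(α.prod β) := setLIntegral_mono' hNm hpt
    _ ≤ ∫⁻ p, ∫⁻ q, G p q ∂ν ∂(α.prod β) := setLIntegral_le_lintegral _ _
    _ = ∫⁻ q, ∫⁻ p, G p q ∂(α.prod β) ∂ν := lintegral_lintegral_swap hGm.aemeasurable
    _ = ∫⁻ q, Eg α c T q.1 * Eg β c T q.2 * (81 * ENNReal.ofReal (k (q.1 - q.2))) ∂ν := by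
        apply lintegral_congr
        intro q
        simp only [hG]
        have hm1 : Measurable fun z : ℂ => cellInd L z q.1 * ENNReal.ofReal (wgt c T z) :=
          ((measurable_cellInd L).comp (f := fun z : ℂ => (z, q.1)) (by fun_prop)).mul hwm
        have hm2 : Measurable fun z : ℂ => cellInd L z q.2 * ENNReal.ofReal (wgt c T z) :=
          ((measurable_cellInd L).comp (f := fun z : ℂ => (z, q.2)) (by fun_prop)).mul hwm
        rw [lintegral_mul_const]
        swap
        · exact (hm1.comp measurable_fst).mul (hm2.comp measurable_snd)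
        rw [lintegral_prod_mul hm1.aemeasurable hm2.aemeasurable]
        rfl
    _ = 81 * ∫⁻ t in I, ∫⁻ s in I, Eg α c T t * Eg β c T s *
          ENNReal.ofReal (k (t - s)) := by
        have hfm : Measurable fun q : ℝ × ℝ => Eg α c T q.1 * Eg β c T q.2 *
            ENNReal.ofReal (k (q.1 - q.2)) :=
          (((measurable_Eg α c T).comp measurable_fst).mul
            ((measurable_Eg β c T).comp measurable_snd)).mul
            (hpkm.comp (f := fun q : ℝ × ℝ => q.1 - q.2) (by fun_prop))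
        rw [← lintegral_prod (fun q : ℝ × ℝ => Eg α c T q.1 * Eg β c T q.2 *
            ENNReal.ofReal (k (q.1 - q.2))) hfm.aemeasurable, ← lintegral_const_mul _ hfm]
        apply lintegral_congr
        intro q
        ring


/-- the shifted kernel -/
noncomputable def shK (L s x : ℝ) : ℝ := ((1 + |L * x - s|) ^ 4)⁻¹

lemma shK_pos (L s x : ℝ) : 0 < shK L s x := by unfold shK; positivity

lemma measurable_shK (L s : ℝ) : Measurable (shK L s) := by
  unfold shK
  have : Continuous fun x : ℝ => (1 + |L * x - s|) ^ 4 := by fun_prop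
  exact this.measurable.inv

lemma shK_shift {L σ : ℝ} (hL : 0 < L) {x y t s : ℝ}
    (h1 : |x - t| ≤ 1 / L) (h2 : |y - s| ≤ 1 / L) : shK L σ (x - y) ≤ 81 * shK L σ (t - s) := by
  unfold shK
  have h3 : |L * (t - s) - σ| ≤ |L * (x - y) - σ| + 2 := by
    have : L * (t - s) - σ = (L * (x - y) - σ) - L * (x - t) + L * (y - s) := by ring
    rw [this]
    have e1 := abs_add_le ((L * (x - y) - σ) - L * (x - t)) (L * (y - s))
    have e2 := abs_sub (L * (x - y) - σ) (L * (x - t))
    have e3 : |L * (x - t)| ≤ 1 := by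
      rw [abs_mul, abs_of_pos hL]
      calc L * |x - t| ≤ L * (1 / L) := by gcongr
        _ = 1 := by field_simp
    have e4 : |L * (y - s)| ≤ 1 := by
      rw [abs_mul, abs_of_pos hL]
      calc L * |y - s| ≤ L * (1 / L) := by gcongr
        _ = 1 := by field_simp
    linarith
  have h5 := abs_nonneg (L * (x - y) - σ)
  have h7 : 1 + |L * (t - s) - σ| ≤ 3 * (1 + |L * (x - y) - σ|) := by linarith
  have h8 : (1 + |L * (t - s) - σ|) ^ 4 ≤ 81 * (1 + |L * (x - y) - σ|) ^ 4 := by
    calc (1 + |L * (t - s) - σ|) ^ 4 ≤ (3 * (1 + |L * (x - y) - σ|)) ^ 4 := by gcongr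
      _ = _ := by ring
  rw [inv_le_iff_one_le_mul₀ (by positivity)]
  rw [show (81 : ℝ) * ((1 + |L * (t - s) - σ|) ^ 4)⁻¹ * (1 + |L * (x - y) - σ|) ^ 4 =
    (81 * (1 + |L * (x - y) - σ|) ^ 4) / (1 + |L * (t - s) - σ|) ^ 4 by ring]
  rw [one_le_div (by positivity)]
  exact h8

lemma lintegral_shK {L : ℝ} (hL : 0 < L) (σ : ℝ) :
    ∫⁻ x, ENNReal.ofReal (shK L σ x) ≤ ENNReal.ofReal (π / L) := by
  have h1 : ∀ x, ENNReal.ofReal (shK L σ x) ≤ ENNReal.ofReal ((1 + (L * (x - σ / L)) ^ 2)⁻¹) := by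
    intro x
    apply ENNReal.ofReal_le_ofReal
    unfold shK
    apply inv_anti₀ (by positivity)
    have h2 : 0 ≤ |L * x - σ| := abs_nonneg _
    have h3 : (L * (x - σ / L)) ^ 2 = |L * x - σ| ^ 2 := by
      rw [sq_abs]
      congr 1
      field_simp
    rw [h3]
    generalize |L * x - σ| = y at h2
    have : (1 + y) ^ 4 = 1 + 4 * y + 6 * y ^ 2 + 4 * y ^ 3 + y ^ 4 := by ring
    rw [this]
    nlinarith [pow_nonneg h2 3, pow_nonneg h2 4]
  refine (lintegral_mono h1).trans ?_
  rw [lintegral_sub_right_eq_self (fun x => ENNReal.ofReal ((1 + (L * x) ^ 2)⁻¹)) (σ / L)]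
  have hint : Integrable (fun s : ℝ => (1 + (L * s) ^ 2)⁻¹) :=
    integrable_inv_one_add_sq.comp_mul_left' hL.ne'
  rw [← ofReal_integral_eq_lintegral_ofReal hint (Eventually.of_forall fun s => by positivity)]
  apply ENNReal.ofReal_le_ofReal
  rw [Measure.integral_comp_mul_left (fun s : ℝ => (1 + s ^ 2)⁻¹) L, integral_univ_inv_one_add_sq,
    abs_of_pos (by positivity)]
  simp only [smul_eq_mul]
  apply le_of_eq
  ring

lemma schurK_left {k : ℝ → ℝ} (hk : Measurable k) {κ : ℝ≥0∞} (hκ : κ ≠ ⊤)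
    (hI : ∫⁻ x, ENNReal.ofReal (k x) ≤ κ) (I : Set ℝ) (f : ℝ → ℝ≥0∞) :
    ∫⁻ t in I, ∫⁻ s in I, f t * ENNReal.ofReal (k (t - s)) ≤ κ * ∫⁻ t in I, f t := by
  rw [← lintegral_const_mul' _ _ hκ]
  apply lintegral_mono
  intro t
  simp only
  rw [lintegral_const_mul]
  swap
  · exact hk.ennreal_ofReal.comp (f := fun s : ℝ => t - s) (by fun_prop)
  rw [mul_comm]
  gcongr
  refine (setLIntegral_le_lintegral _ _).trans ?_
  rw [lintegral_sub_left_eq_self (fun x => ENNReal.ofReal (k x)) t]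
  exact hI

lemma schurK_right {k : ℝ → ℝ} (hk : Measurable k) {κ : ℝ≥0∞} (hκ : κ ≠ ⊤)
    (hI : ∫⁻ x, ENNReal.ofReal (k x) ≤ κ) (I : Set ℝ) {f : ℝ → ℝ≥0∞} (hf : Measurable f) :
    ∫⁻ t in I, ∫⁻ s in I, f s * ENNReal.ofReal (k (t - s)) ≤ κ * ∫⁻ t in I, f t := by
  rw [lintegral_lintegral_swap]
  · rw [← lintegral_const_mul' _ _ hκ]
    apply lintegral_mono
    intro s
    simp only
    rw [lintegral_const_mul]
    swap
    · exact hk.ennreal_ofReal.comp (f := fun t : ℝ => t - s) (by fun_prop)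
    rw [mul_comm]
    gcongr
    refine (setLIntegral_le_lintegral _ _).trans ?_
    rw [lintegral_sub_right_eq_self (fun x => ENNReal.ofReal (k x)) s]
    exact hI
  · apply Measurable.aemeasurable
    exact (hf.comp measurable_snd).mul (hk.ennreal_ofReal.comp (f := fun q : ℝ × ℝ => q.1 - q.2)
      (by fun_prop))

lemma near_boundS (hB : StatementB) : ∃ c : ℝ, 0 < c ∧ ∃ C : ℝ, 0 < C ∧ ∃ T₀ : ℝ, Real.exp 1 ≤ T₀ ∧
    ∀ T : ℝ, T₀ ≤ T → ∀ σ : ℝ,
    ∫⁻ p in {p : ℂ × ℂ | |p.1.im| ≤ 2 * T ∧ |p.2.im| ≤ 2 * T},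
      ENNReal.ofReal (pairK c T (shK (Real.log T) σ) p) ∂(muZ.prod muZ) ≤
      ENNReal.ofReal (C * (T * Real.log T)) := by
  obtain ⟨c, hc, C, hC, T₀, h⟩ := hB 2
  refine ⟨c, hc, 81 * π / 2 * C, by positivity, max (Real.exp 1) T₀, le_max_left _ _,
    fun T hT σ => ?_⟩
  have hTe : Real.exp 1 ≤ T := (le_max_left _ _).trans hT
  have hT0 : T₀ ≤ T := (le_max_right _ _).trans hT
  have hT1 : 1 ≤ T := (Real.one_le_exp (by norm_num)).trans hTe
  have hL1 : 1 ≤ Real.log T := by
    rw [← Real.log_exp 1]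
    exact Real.log_le_log (Real.exp_pos 1) hTe
  have hL : 0 < Real.log T := by linarith
  obtain ⟨h1, h2⟩ := h T hT0
  have h3 := lintegral_Eg_pow h1 (by linarith) h2
  set L := Real.log T with hLdef
  have hkm := measurable_shK L σ
  have h4 := near_doubleK (α := muZ) (β := muZ) (c := c) hTe hkm
    (fun x y t s e1 e2 => shK_shift hL e1 e2)
  set I : Set ℝ := Icc (-(3 * T)) (3 * T) with hI
  have hEm : Measurable (Eg muZ c T) := measurable_Eg muZ c T
  have hpkm : Measurable fun x : ℝ => ENNReal.ofReal (shK L σ x) := hkm.ennreal_ofReal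
  have hκ : ENNReal.ofReal (π / L) ≠ ⊤ := ENNReal.ofReal_ne_top
  have hκI := lintegral_shK hL σ
  have h5 : ∫⁻ t in I, ∫⁻ s in I, Eg muZ c T t * Eg muZ c T s *
      ENNReal.ofReal (shK L σ (t - s)) ≤ 2 * (ENNReal.ofReal (π / L) * ENNReal.ofReal (C * T)) := by
    calc ∫⁻ t in I, ∫⁻ s in I, Eg muZ c T t * Eg muZ c T s * ENNReal.ofReal (shK L σ (t - s))
        ≤ ∫⁻ t in I, ∫⁻ s in I, (Eg muZ c T t ^ 2 * ENNReal.ofReal (shK L σ (t - s)) +
          Eg muZ c T s ^ 2 * ENNReal.ofReal (shK L σ (t - s))) := by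
          apply lintegral_mono
          intro t
          apply lintegral_mono
          intro s
          simp only
          rw [← add_mul]
          gcongr
          exact ennreal_mul_le_sq_add_sq _ _
      _ = (∫⁻ t in I, ∫⁻ s in I, Eg muZ c T t ^ 2 * ENNReal.ofReal (shK L σ (t - s))) +
          ∫⁻ t in I, ∫⁻ s in I, Eg muZ c T s ^ 2 * ENNReal.ofReal (shK L σ (t - s)) := by
          rw [← lintegral_add_left]
          · apply lintegral_congr
            intro t
            rw [← lintegral_add_left]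
            exact (hpkm.comp (f := fun s : ℝ => t - s) (by fun_prop)).const_mul _
          · apply Measurable.lintegral_prod_right' (f := fun q : ℝ × ℝ =>
              Eg muZ c T q.1 ^ 2 * ENNReal.ofReal (shK L σ (q.1 - q.2)))
            exact ((hEm.comp measurable_fst).pow_const 2).mul
              (hpkm.comp (f := fun q : ℝ × ℝ => q.1 - q.2) (by fun_prop))
      _ ≤ ENNReal.ofReal (π / L) * ENNReal.ofReal (C * T) +
          ENNReal.ofReal (π / L) * ENNReal.ofReal (C * T) := by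
          apply add_le_add
          · refine (schurK_left hkm hκ hκI I (fun t => Eg muZ c T t ^ 2)).trans ?_
            gcongr
          · refine (schurK_right hkm hκ hκI I (f := fun t => Eg muZ c T t ^ 2)
              (hEm.pow_const 2)).trans ?_
            gcongr
      _ = _ := by ring
  have h6 : (∫⁻ p in {p : ℂ × ℂ | |p.1.im| ≤ 2 * T ∧ |p.2.im| ≤ 2 * T},
      ENNReal.ofReal (pairK c T (shK L σ) p) ∂(muZ.prod muZ)) * ENNReal.ofReal ((2 / L) ^ 2) ≤
      ENNReal.ofReal (162 * (π / L * (C * T))) := by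
    rw [ENNReal.ofReal_pow (by positivity)]
    refine h4.trans ?_
    refine le_trans (mul_le_mul' le_rfl h5) (le_of_eq ?_)
    rw [← ENNReal.ofReal_mul (by positivity)]
    rw [← mul_assoc, ENNReal.ofReal_mul (p := 162) (by norm_num)]
    congr 1
    norm_num
  rw [← ENNReal.le_div_iff_mul_le] at h6
  · refine h6.trans (le_of_eq ?_)
    rw [← ENNReal.ofReal_div_of_pos (by positivity)]
    congr 1
    field_simp
    ring
  · left
    simp only [ne_eq, ENNReal.ofReal_eq_zero, not_le]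
    positivity
  · left
    exact ENNReal.ofReal_ne_top

lemma pairK_mono_c {c c' T : ℝ} (hc : c' ≤ c) (hT : 1 ≤ T) {k : ℝ → ℝ} (hk0 : ∀ x, 0 ≤ k x)
    (p : ℂ × ℂ) : pairK c' T k p ≤ pairK c T k p := by
  have hL : 0 ≤ Real.log T := Real.log_nonneg hT
  have h1 : ∀ z : ℂ, wgt c' T z ≤ wgt c T z := by
    intro z
    unfold wgt
    apply Real.exp_le_exp.mpr
    gcongr
  unfold pairK
  have h2 : ∀ z : ℂ, 0 ≤ wgt c' T z := fun z => (Real.exp_pos _).le
  exact mul_le_mul_of_nonneg_right (mul_le_mul (h1 _) (h1 _) (h2 _) ((h2 _).trans (h1 _))) (hk0 _)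

/-- shifted pair bound, `ENNReal` form -/
lemma pbS_lintegral (hB : StatementB) : ∃ c₀ : ℝ, 0 < c₀ ∧ ∃ C : ℝ, 0 < C ∧ ∃ T₀ : ℝ,
    Real.exp 1 ≤ T₀ ∧ ∀ T : ℝ, T₀ ≤ T → ∀ σ : ℝ, |σ| ≤ T / 2 → ∀ c : ℝ, c ≤ c₀ →
    ∫⁻ p, ENNReal.ofReal (pairK c T (shK (Real.log T) σ) p) ∂((muW T).prod muZ) ≤
      ENNReal.ofReal (C * (T * Real.log T)) := by
  obtain ⟨c₁, hc₁, C₁, hC₁, T₁, hT₁, h1⟩ := near_boundS hB
  obtain ⟨C₂, hC₂, T₂, hT₂, h2⟩ := far_bound (c := min c₁ (1/4)) (by positivity) (min_le_right _ _)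
  refine ⟨min c₁ (1/4), by positivity, C₁ + 16 * C₂, by positivity, max T₁ T₂,
    hT₁.trans (le_max_left _ _), fun T hT σ hσ c hc => ?_⟩
  have hTT₁ : T₁ ≤ T := (le_max_left _ _).trans hT
  have hTT₂ : T₂ ≤ T := (le_max_right _ _).trans hT
  have hTe : Real.exp 1 ≤ T := hT₁.trans hTT₁
  have hT1 : 1 ≤ T := (Real.one_le_exp (by norm_num)).trans hTe
  have hT0 : 0 < T := by linarith
  have hL1 : 1 ≤ Real.log T := by
    rw [← Real.log_exp 1]
    exact Real.log_le_log (Real.exp_pos 1) hTe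
  have hL0 : 0 ≤ Real.log T := Real.log_nonneg hT1
  have hk0 : ∀ x, 0 ≤ shK (Real.log T) σ x := fun x => (shK_pos _ _ _).le
  rw [muW_prod_restrict]
  set N : Set (ℂ × ℂ) := {p : ℂ × ℂ | |p.1.im| ≤ 2 * T ∧ |p.2.im| ≤ 2 * T} with hN
  have hNm : MeasurableSet N := by
    have h1 : Measurable fun p : ℂ × ℂ => |p.1.im| := by
      have : Measurable fun p : ℂ × ℂ => p.1.im := by fun_prop
      exact this.norm
    have h2 : Measurable fun p : ℂ × ℂ => |p.2.im| := by
      have : Measurable fun p : ℂ × ℂ => p.2.im := by fun_prop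
      exact this.norm
    exact (measurableSet_le h1 measurable_const).inter (measurableSet_le h2 measurable_const)
  have hFm : MeasurableSet {p : ℂ × ℂ | p.1 ∈ WT T ∧ ¬ (|p.1.im| ≤ 2 * T ∧ |p.2.im| ≤ 2 * T)} :=
    ((measurableSet_WT T).preimage measurable_fst).inter hNm.compl
  calc ∫⁻ p in WT T ×ˢ univ, ENNReal.ofReal (pairK c T (shK (Real.log T) σ) p) ∂(muZ.prod muZ)
      ≤ ∫⁻ p in N ∪ {p : ℂ × ℂ | p.1 ∈ WT T ∧ ¬ (|p.1.im| ≤ 2 * T ∧ |p.2.im| ≤ 2 * T)},
        ENNReal.ofReal (pairK c T (shK (Real.log T) σ) p) ∂(muZ.prod muZ) := by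
        apply lintegral_mono_set
        intro p hp
        by_cases h : p ∈ N
        · exact Or.inl h
        · exact Or.inr ⟨hp.1, h⟩
    _ ≤ _ := lintegral_union_le _ _ _
    _ ≤ ENNReal.ofReal (C₁ * (T * Real.log T)) + ENNReal.ofReal (16 * (C₂ * (T * Real.log T) / 1)) := by
        apply add_le_add
        · refine le_trans ?_ (h1 T hTT₁ σ)
          apply lintegral_mono
          intro p
          exact ENNReal.ofReal_le_ofReal (pairK_mono_c (hc.trans (min_le_left _ _)) hT1 hk0 p)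
        · rw [ENNReal.ofReal_mul (by norm_num)]
          refine le_trans ?_ (mul_le_mul' le_rfl (h2 T hTT₂ 1 ?_))
          · rw [← lintegral_const_mul' _ _ ENNReal.ofReal_ne_top]
            apply setLIntegral_mono' hFm
            intro p hp
            rw [← ENNReal.ofReal_mul (by norm_num)]
            apply ENNReal.ofReal_le_ofReal
            refine (pairK_mono_c hc hT1 hk0 p).trans ?_
            have h3 : 0 < p.1.im ∧ p.1.im ≤ T := hp.1
            have h5 : |p.1.im| ≤ T := by rw [abs_of_pos h3.1]; exact h3.2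
            have h6 : 2 * T < |p.2.im| := by
              by_contra hcon
              exact hp.2 ⟨by linarith, not_lt.mp hcon⟩
            have h7 : T ≤ |p.1.im - p.2.im| := by
              have : |p.2.im| - |p.1.im| ≤ |p.2.im - p.1.im| := abs_sub_abs_le_abs_sub _ _
              rw [abs_sub_comm] at this
              linarith
            have h8 : shK (Real.log T) σ (p.1.im - p.2.im) ≤
                16 * ((1 + 1 * Real.log T * |p.1.im - p.2.im|) ^ 4)⁻¹ := by
              unfold shK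
              have e1 : Real.log T * |p.1.im - p.2.im| - |σ| ≤
                  |Real.log T * (p.1.im - p.2.im) - σ| := by
                have := abs_sub_abs_le_abs_sub (Real.log T * (p.1.im - p.2.im)) σ
                rwa [abs_mul, abs_of_nonneg hL0] at this
              have e2 : |σ| ≤ Real.log T * |p.1.im - p.2.im| / 2 := by
                have : T ≤ Real.log T * |p.1.im - p.2.im| := by nlinarith
                linarith
              set X := Real.log T * |p.1.im - p.2.im| with hX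
              have hX0 : 0 ≤ X := by positivity
              have e3 : (1 + X) / 2 ≤ 1 + |Real.log T * (p.1.im - p.2.im) - σ| := by linarith
              calc ((1 + |Real.log T * (p.1.im - p.2.im) - σ|) ^ 4)⁻¹ ≤ (((1 + X) / 2) ^ 4)⁻¹ := by
                    apply inv_anti₀ (by positivity)
                    gcongr
                _ = 16 * ((1 + X) ^ 4)⁻¹ := by
                    rw [div_pow, inv_div]
                    rw [div_eq_mul_inv]; norm_num
                _ = _ := by rw [hX, one_mul]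
            unfold pairK pairW
            have hw : 0 ≤ wgt (min c₁ (1/4)) T p.1 * wgt (min c₁ (1/4)) T p.2 := by
              unfold wgt; positivity
            calc _ ≤ wgt (min c₁ (1/4)) T p.1 * wgt (min c₁ (1/4)) T p.2 *
                  (16 * ((1 + 1 * Real.log T * |p.1.im - p.2.im|) ^ 4)⁻¹) := by gcongr
              _ = _ := by ring
          · exact Real.rpow_le_one_of_one_le_of_nonpos hT1 (by norm_num)
    _ = _ := by
        rw [← ENNReal.ofReal_add (by positivity) (by positivity)]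
        congr 1
        ring

/-- shifted pair bound, uniform in the shift `|σ| ≤ T / 2`. -/
theorem statementPBshift_of (hB : StatementB) : ∃ c₀ : ℝ, 0 < c₀ ∧ ∃ C : ℝ, 0 < C ∧ ∃ T₀ : ℝ,
    ∀ T : ℝ, T₀ ≤ T → ∀ σ : ℝ, |σ| ≤ T / 2 → ∀ c : ℝ, c ≤ c₀ →
    Integrable (fun p : ℂ × ℂ => wgt c T p.1 * wgt c T p.2 *
      ((1 + |Real.log T * (p.1.im - p.2.im) - σ|) ^ 4)⁻¹) ((muW T).prod muZ) ∧
    ∫ p, wgt c T p.1 * wgt c T p.2 *
      ((1 + |Real.log T * (p.1.im - p.2.im) - σ|) ^ 4)⁻¹ ∂((muW T).prod muZ) ≤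
      C * (T * Real.log T) := by
  obtain ⟨c₀, hc₀, C, hC, T₀, hT₀, h⟩ := pbS_lintegral hB
  refine ⟨c₀, hc₀, C, hC, T₀, fun T hT σ hσ c hc => ?_⟩
  have hTe : Real.exp 1 ≤ T := hT₀.trans hT
  have hT1 : 1 ≤ T := (Real.one_le_exp (by norm_num)).trans hTe
  have hL0 : 0 ≤ Real.log T := Real.log_nonneg hT1
  have h1 := h T hT σ hσ c hc
  have hm := measurable_pairK c T (measurable_shK (Real.log T) σ)
  have hnn : ∀ p, 0 ≤ pairK c T (shK (Real.log T) σ) p := by
    intro p
    have := (shK_pos (Real.log T) σ (p.1.im - p.2.im)).le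
    unfold pairK wgt
    positivity
  constructor
  · refine ⟨hm.aestronglyMeasurable, ?_⟩
    have : HasFiniteIntegral (pairK c T (shK (Real.log T) σ)) ((muW T).prod muZ) := by
      rw [hasFiniteIntegral_iff_ofReal (Eventually.of_forall hnn)]
      exact h1.trans_lt ENNReal.ofReal_lt_top
    exact this
  · have e : ∫ p, pairK c T (shK (Real.log T) σ) p ∂((muW T).prod muZ) ≤ C * (T * Real.log T) := by
      rw [integral_eq_lintegral_of_nonneg_ae (Eventually.of_forall hnn) hm.aestronglyMeasurable]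
      exact ENNReal.toReal_le_of_le_ofReal (by positivity) h1
    exact e

end Pool.Agent.PairCorr
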