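import Mathlib
import Pool.Agent.PairCorr.P1_Kernel
import Pool.Agent.PairCorr.PB_Shift
import Pool.Agent.PairCorr.PB_Off
import Pool.Agent.PairCorr.NStar_Bounds

/-!
`N*(T,a) = (a + O(1)) N(T)`: the pair sum.
-/

set_option autoImplicit false

namespace Pool.Agent.PairCorr.P1

open MeasureTheory Filter Topology Set Real
open scoped ENNReal

/-- A smooth even bump with value `1` at `0`. -/
lemma exists_bump {b : ℝ} (hb : 0 < b) : ∃ χ : ℝ → ℝ, TF χ b ∧ (∀ v, χ (-v) = χ v) ∧ χ 0 = 1 := by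
  refine ⟨fun v => Real.smoothTransition (1 - v ^ 2 / b ^ 2), ⟨?_, ?_⟩, ?_, ?_⟩
  · exact Real.smoothTransition.contDiff.comp (by fun_prop)
  · intro v hv
    apply Real.smoothTransition.zero_of_nonpos
    have : b ^ 2 < v ^ 2 := by
      rw [← sq_abs v]
      exact pow_lt_pow_left₀ hv hb.le two_ne_zero
    have h2 : 1 < v ^ 2 / b ^ 2 := by rwa [one_lt_div (by positivity)]
    linarith
  · intro v
    simp only [neg_sq]
  · simp only
    apply Real.smoothTransition.one_of_one_le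
    simp

lemma decomp (T : ℝ) (p : ℂ × ℂ) : (Real.log T : ℂ) * (p.1 - p.2) =
    ((Real.log T * (p.1.re - p.2.re) : ℝ) : ℂ) + ((Real.log T * (p.1.im - p.2.im) : ℝ) : ℂ) *
      Complex.I := by
  apply Complex.ext
  · simp
  · simp

lemma exp_le_wgt {c T : ℝ} (hc : 0 ≤ c) (hL : 0 ≤ Real.log T) (p : ℂ × ℂ) :
    Real.exp (c * |Real.log T * (p.1.re - p.2.re)|) ≤ wgt c T p.1 * wgt c T p.2 := by
  unfold wgt
  rw [← Real.exp_add]
  apply Real.exp_le_exp.mpr
  rw [abs_mul, abs_of_nonneg hL]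
  have : |p.1.re - p.2.re| ≤ |p.1.re - 1 / 2| + |p.2.re - 1 / 2| := by
    have e : p.1.re - p.2.re = (p.1.re - 1 / 2) - (p.2.re - 1 / 2) := by ring
    rw [e]
    exact abs_sub _ _
  calc c * (Real.log T * |p.1.re - p.2.re|)
      ≤ c * (Real.log T * (|p.1.re - 1 / 2| + |p.2.re - 1 / 2|)) := by gcongr
    _ = _ := by ring

/-- The weighted kernel `(1+|x|)^{-4}` against pairs. -/
lemma q4_shift (L σ x : ℝ) : ((1 + |L * x - σ|) ^ 4)⁻¹ = q4 (L * x - σ) := rfl

/-- The main estimate: the analytic pair sum with kernel the smoothed indicator. -/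
theorem sym_asymp (hS : StatementS) (hB : StatementB) : ∃ C : ℝ, 0 < C ∧ ∀ u : ℝ, 0 ≤ u →
    ∀ᶠ T in atTop, |(((muW T).prod muZ) (SymSet T u)).toReal -
      2 * u * (T * Real.log T / (2 * π))| ≤ C * (T * Real.log T) := by
  obtain ⟨b₀, hb₀, hS⟩ := hS
  obtain ⟨c₀, hc₀, C₁, hC₁, T₁, hPB⟩ := statementPBshift_of hB
  obtain ⟨C₂, hC₂, T₂, hT₂, hSym⟩ := SymSet_le_quadratic hB
  set b : ℝ := min b₀ (c₀ / 2) with hb
  have hb0 : 0 < b := by positivity
  obtain ⟨χ, hχ, hev, hχ0⟩ := exists_bump hb0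
  obtain ⟨K₁, hK₁, hhor⟩ := exists_horiz hχ
  obtain ⟨K₂, hK₂, hind⟩ := exists_indicator hχ hχ0
  set K : ℝ := K₁ * (2 / c₀) + K₂ with hK
  have hK0 : 0 < K := by positivity
  set A : ℝ := ∫ v, |χ v| with hA
  have hA0 : 0 ≤ A := integral_nonneg fun v => abs_nonneg _
  refine ⟨K * (C₁ + C₁) + A + 1, by positivity, fun u hu => ?_⟩
  set s : ℝ := 2 * π * u with hs
  have hs0 : 0 ≤ s := by positivity
  -- the limit of the analytic pair sum
  have hTF : TF (chiS χ s) b₀ := (chiS_TF hχ s).mono (min_le_left _ _)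
  have hlim := hS (chiS χ s) hTF (chiS_even hev s)
  have hlimval : |(chiS χ s 0 + ∫ v, |v| * chiS χ s v) - 2 * u| ≤ A := by
    have e0 : chiS χ s 0 = 2 * u := by
      unfold chiS kerS
      rw [mul_zero, snc_zero, hχ0, hs]
      field_simp
    rw [e0, add_sub_cancel_left]
    have h1 : |∫ v, |v| * chiS χ s v| ≤ ∫ v, |χ v| := by
      rw [← Real.norm_eq_abs]
      refine norm_integral_le_of_norm_le hχ.integrable.abs (Eventually.of_forall fun v => ?_)
      rw [Real.norm_eq_abs, abs_mul, abs_abs]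
      unfold chiS
      rw [abs_mul, ← mul_assoc, ← abs_mul, mul_kerS, abs_div, abs_of_pos Real.pi_pos]
      have h2 : |Real.sin (s * v)| / π ≤ 1 := by
        rw [div_le_one Real.pi_pos]
        have := Real.abs_sin_le_one (s * v)
        have := Real.pi_gt_three
        linarith
      calc |Real.sin (s * v)| / π * |χ v| ≤ 1 * |χ v| := by gcongr
        _ = |χ v| := one_mul _
    exact h1
  have hlim2 : ∀ᶠ T in atTop, ‖Spair (chiS χ s) T / ((T * Real.log T / (2 * Real.pi) : ℝ) : ℂ) -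
      ((chiS χ s 0 + ∫ v, |v| * chiS χ s v : ℝ) : ℂ)‖ < 1 := by
    have := (Metric.tendsto_nhds.mp hlim) 1 one_pos
    filter_upwards [this] with T hT
    rwa [dist_eq_norm] at hT
  filter_upwards [hlim2, eventually_ge_atTop (max (max T₁ T₂) (2 * s))] with T hT1 hT2
  have hTT₁ : T₁ ≤ T := ((le_max_left _ _).trans (le_max_left _ _)).trans hT2
  have hTT₂ : T₂ ≤ T := ((le_max_right _ _).trans (le_max_left _ _)).trans hT2
  have hTs : s ≤ T / 2 := by linarith [(le_max_right (max T₁ T₂) (2 * s)).trans hT2]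
  have hTe : Real.exp 1 ≤ T := hT₂.trans hTT₂
  have hTgt : 1 < T := (Real.one_lt_exp_iff.mpr one_pos).trans_le hTe
  have hT0 : 0 < T := by linarith
  have hL0 : 0 < Real.log T := Real.log_pos hTgt
  set L := Real.log T with hL
  set μ := (muW T).prod muZ with hμ
  have hTL : 0 < T * L := by positivity
  -- the two shifted bounds
  obtain ⟨i1, I1⟩ := hPB T hTT₁ s (by rw [abs_of_nonneg hs0]; exact hTs) c₀ le_rfl
  obtain ⟨i2, I2⟩ := hPB T hTT₁ (-s) (by rw [abs_neg, abs_of_nonneg hs0]; exact hTs) c₀ le_rfl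
  -- pointwise bound
  have hpt : ∀ p : ℂ × ℂ, ‖Kc (chiS χ s) (L * (p.1 - p.2)) -
      (SymSet T u).indicator (fun _ => (1 : ℂ)) p‖ ≤
      K * (wgt c₀ T p.1 * wgt c₀ T p.2 * ((1 + |L * (p.1.im - p.2.im) - s|) ^ 4)⁻¹ +
        wgt c₀ T p.1 * wgt c₀ T p.2 * ((1 + |L * (p.1.im - p.2.im) - (-s)|) ^ 4)⁻¹) := by
    intro p
    set τ : ℝ := L * (p.1.im - p.2.im) with hτ
    set r : ℝ := L * (p.1.re - p.2.re) with hr
    have e1 : (L : ℂ) * (p.1 - p.2) = r + τ * Complex.I := by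
      rw [hL]; exact decomp T p
    have e2 : (SymSet T u).indicator (fun _ => (1 : ℂ)) p = if |τ| ≤ s then 1 else 0 := by
      by_cases hp : p ∈ SymSet T u
      · rw [indicator_of_mem hp, if_pos]
        have hp' : |p.1.im - p.2.im| ≤ 2 * Real.pi * u / Real.log T := hp
        rw [hτ, abs_mul, abs_of_pos hL0]
        rw [le_div_iff₀ hL0] at hp'
        rw [hs]
        linarith
      · rw [indicator_of_notMem hp, if_neg]
        intro hcon
        apply hp
        show |p.1.im - p.2.im| ≤ 2 * Real.pi * u / Real.log T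
        rw [hτ, abs_mul, abs_of_pos hL0] at hcon
        rw [le_div_iff₀ hL0]
        rw [hs] at hcon
        linarith
    rw [e1, e2]
    have h1 := hhor s r τ
    have h2 := hind s τ hs0
    have hq1 := q4_pos (τ - s)
    have hq2 := q4_pos (τ + s)
    set Q := q4 (τ - s) + q4 (τ + s) with hQ
    have hQ0 : 0 < Q := by positivity
    have hw := exp_le_wgt hc₀.le hL0.le p
    rw [← hr] at hw
    set W := wgt c₀ T p.1 * wgt c₀ T p.2 with hW
    have hW1 : 1 ≤ W := (Real.one_le_exp (by positivity)).trans hw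
    have hre : |r| * Real.exp (|b| * |r|) ≤ 2 / c₀ * W := by
      have e3 : c₀ / 2 * |r| ≤ Real.exp (c₀ / 2 * |r|) := by
        have := Real.add_one_le_exp (c₀ / 2 * |r|)
        linarith
      have e4 : Real.exp (|b| * |r|) ≤ Real.exp (c₀ / 2 * |r|) := by
        apply Real.exp_le_exp.mpr
        rw [abs_of_pos hb0]
        have := min_le_right b₀ (c₀ / 2)
        gcongr
      have e5 : |r| ≤ 2 / c₀ * Real.exp (c₀ / 2 * |r|) := by
        calc |r| = 2 / c₀ * (c₀ / 2 * |r|) := by field_simp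
          _ ≤ _ := by gcongr
      calc |r| * Real.exp (|b| * |r|) ≤ (2 / c₀ * Real.exp (c₀ / 2 * |r|)) *
            Real.exp (c₀ / 2 * |r|) := by gcongr
        _ = 2 / c₀ * Real.exp (c₀ * |r|) := by
            rw [mul_assoc, ← Real.exp_add]
            ring_nf
        _ ≤ 2 / c₀ * W := by gcongr
    have e6 : ((1 + |τ - s|) ^ 4)⁻¹ = q4 (τ - s) := rfl
    have e7 : ((1 + |τ - -s|) ^ 4)⁻¹ = q4 (τ + s) := by rw [sub_neg_eq_add]; rfl
    rw [e6, e7, ← mul_add, ← hQ]
    calc ‖Kc (chiS χ s) (r + τ * Complex.I) - (if |τ| ≤ s then 1 else 0)‖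
        ≤ ‖Kc (chiS χ s) (r + τ * Complex.I) - Kc (chiS χ s) (τ * Complex.I)‖ +
          ‖Kc (chiS χ s) (τ * Complex.I) - (if |τ| ≤ s then 1 else 0)‖ := norm_sub_le_norm_sub_add_norm_sub _ _ _
      _ ≤ K₁ * (|r| * Real.exp (|b| * |r|)) * Q + K₂ * Q := add_le_add h1 h2
      _ ≤ K₁ * (2 / c₀ * W) * Q + K₂ * (W * Q) := by
          gcongr
          nlinarith
      _ = K * (W * Q) := by rw [hK]; ring
  have hcont : Continuous fun p : ℂ × ℂ => Kc (chiS χ s) (L * (p.1 - p.2)) :=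
    (chiS_TF hχ s).differentiable_Kc.continuous.comp (by fun_prop)
  have hSm := measurableSet_SymSet T u
  have hfin : μ (SymSet T u) ≠ ⊤ := ne_top_of_le_ne_top ENNReal.ofReal_ne_top (hSym T hTT₂ u hu)
  have hii : Integrable ((SymSet T u).indicator fun _ => (1 : ℂ)) μ :=
    (integrable_indicator_iff hSm).mpr (integrableOn_const hfin)
  have hbi : Integrable (fun p : ℂ × ℂ => K * (wgt c₀ T p.1 * wgt c₀ T p.2 *
      ((1 + |L * (p.1.im - p.2.im) - s|) ^ 4)⁻¹ +
        wgt c₀ T p.1 * wgt c₀ T p.2 * ((1 + |L * (p.1.im - p.2.im) - (-s)|) ^ 4)⁻¹)) μ :=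
    (i1.add i2).const_mul K
  have hdi : Integrable (fun p : ℂ × ℂ => Kc (chiS χ s) (L * (p.1 - p.2)) -
      (SymSet T u).indicator (fun _ => (1 : ℂ)) p) μ := by
    refine Integrable.mono' hbi ?_ (Eventually.of_forall hpt)
    exact hcont.aestronglyMeasurable.sub hii.aestronglyMeasurable
  have hKi : Integrable (fun p : ℂ × ℂ => Kc (chiS χ s) (L * (p.1 - p.2))) μ := by
    have := hdi.add hii
    refine this.congr (Eventually.of_forall fun p => ?_)
    simp
  have hnorm : ‖Spair (chiS χ s) T - (((μ (SymSet T u)).toReal : ℝ) : ℂ)‖ ≤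
      K * (C₁ + C₁) * (T * L) := by
    have e1 : (((μ (SymSet T u)).toReal : ℝ) : ℂ) =
        ∫ p, (SymSet T u).indicator (fun _ => (1 : ℂ)) p ∂μ := by
      rw [integral_indicator hSm, integral_const]
      simp [Measure.real]
    have e2 : Spair (chiS χ s) T = ∫ p, Kc (chiS χ s) (L * (p.1 - p.2)) ∂μ := rfl
    rw [e1, e2, ← integral_sub hKi hii]
    refine (norm_integral_le_of_norm_le hbi (Eventually.of_forall hpt)).trans ?_
    rw [integral_const_mul, integral_add i1 i2]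
    calc K * (_ + _) ≤ K * (C₁ * (T * L) + C₁ * (T * L)) := by gcongr
      _ = _ := by ring
  -- combine
  set V : ℝ := chiS χ s 0 + ∫ v, |v| * chiS χ s v with hV
  set M : ℝ := T * L / (2 * π) with hM
  have hM0 : 0 < M := by positivity
  have hMle : M ≤ T * L := by
    rw [hM, div_le_iff₀ (by positivity)]
    have := Real.pi_gt_three
    nlinarith
  have h3 : ‖Spair (chiS χ s) T - (V : ℂ) * (M : ℂ)‖ ≤ M := by
    have hMc : (M : ℂ) ≠ 0 := by exact_mod_cast hM0.ne'
    have e : Spair (chiS χ s) T - (V : ℂ) * (M : ℂ) = (Spair (chiS χ s) T / (M : ℂ) - (V : ℂ)) * M := by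
      field_simp
    rw [e, norm_mul, Complex.norm_real, Real.norm_of_nonneg hM0.le]
    calc _ ≤ 1 * M := by gcongr
      _ = M := one_mul _
  have h4 : |(μ (SymSet T u)).toReal - V * M| ≤ K * (C₁ + C₁) * (T * L) + M := by
    have e : (((μ (SymSet T u)).toReal - V * M : ℝ) : ℂ) =
        (Spair (chiS χ s) T - (V : ℂ) * (M : ℂ)) -
          (Spair (chiS χ s) T - (((μ (SymSet T u)).toReal : ℝ) : ℂ)) := by
      push_cast; ring
    rw [← Real.norm_eq_abs, ← Complex.norm_real, e]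
    refine (norm_sub_le _ _).trans ?_
    linarith
  have h5 : |V * M - 2 * u * M| ≤ A * M := by
    rw [← sub_mul, abs_mul, abs_of_pos hM0]
    gcongr
  calc |(μ (SymSet T u)).toReal - 2 * u * M| =
        |((μ (SymSet T u)).toReal - V * M) + (V * M - 2 * u * M)| := by ring_nf
    _ ≤ |(μ (SymSet T u)).toReal - V * M| + |V * M - 2 * u * M| := abs_add_le _ _
    _ ≤ (K * (C₁ + C₁) * (T * L) + M) + A * M := add_le_add h4 h5
    _ ≤ (K * (C₁ + C₁) * (T * L) + T * L) + A * (T * L) := by gcongr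
    _ = _ := by ring

end Pool.Agent.PairCorr.P1
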