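import Mathlib
import Pool.Agent.PairCorr.P1_Sym
import Pool.Agent.PairCorr.S_Final
import Pool.Agent.PC10.Adapter
import Pool.Agent.PairCorr.D_Primes

/-!
`N*(T,a) = (a + O(1)) T log T / 2π`.
-/

set_option autoImplicit false

namespace Pool.Agent.PairCorr.P1

open MeasureTheory Filter Topology Set Real
open scoped ENNReal

/-- pairs with equal ordinates -/
def DgSet : Set (ℂ × ℂ) := {p | p.1.im = p.2.im}

/-- pairs with `0 < γ' - γ ≤ 2πa / log T` -/
def UpSet (T a : ℝ) : Set (ℂ × ℂ) :=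
  {p | 0 < p.2.im - p.1.im ∧ p.2.im - p.1.im ≤ 2 * Real.pi * a / Real.log T}

lemma measurableSet_DgSet : MeasurableSet DgSet := by
  have h1 : Measurable fun p : ℂ × ℂ => p.1.im := by fun_prop
  have h2 : Measurable fun p : ℂ × ℂ => p.2.im := by fun_prop
  exact measurableSet_eq_fun h1 h2

lemma measurableSet_UpSet (T a : ℝ) : MeasurableSet (UpSet T a) := by
  have h : Measurable fun p : ℂ × ℂ => p.2.im - p.1.im := by fun_prop
  exact (measurableSet_lt measurable_const h).inter (measurableSet_le h measurable_const)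

lemma SymSet_eq {T a : ℝ} (ha : 0 ≤ a) (hT : 1 < T) :
    SymSet T a = NSset T a ∪ (DgSet ∪ UpSet T a) := by
  have hL : 0 < Real.log T := Real.log_pos hT
  have hh : 0 ≤ 2 * Real.pi * a / Real.log T := by positivity
  ext p
  simp only [SymSet, NSset, DgSet, UpSet, mem_union, mem_ofPred_eq]
  constructor
  · intro h
    rw [abs_le] at h
    rcases lt_trichotomy p.1.im p.2.im with h1 | h1 | h1
    · exact Or.inr (Or.inr ⟨by linarith, by linarith⟩)
    · exact Or.inr (Or.inl h1)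
    · exact Or.inl ⟨by linarith, by linarith⟩
  · rintro (h | h | h)
    · rw [abs_of_pos h.1]; exact h.2
    · rw [h, sub_self, abs_zero]; exact hh
    · rw [abs_sub_comm, abs_of_pos h.1]; exact h.2

lemma measure_SymSet {T a : ℝ} (ha : 0 ≤ a) (hT : 1 < T) (μ : Measure (ℂ × ℂ)) :
    μ (SymSet T a) = μ (NSset T a) + (μ DgSet + μ (UpSet T a)) := by
  rw [SymSet_eq ha hT, measure_union _ (measurableSet_DgSet.union (measurableSet_UpSet T a)),
    measure_union _ (measurableSet_UpSet T a)]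
  · rw [Set.disjoint_left]
    intro p h1 h2
    have h1' : p.1.im = p.2.im := h1
    have h2' := h2.1
    rw [h1', sub_self] at h2'
    exact lt_irrefl _ h2'
  · rw [Set.disjoint_left]
    intro p h1 h2
    have h1' := h1.1
    rcases h2 with h2 | h2
    · have h2' : p.1.im = p.2.im := h2
      rw [h2', sub_self] at h1'
      exact lt_irrefl _ h1'
    · have h2' := h2.1
      linarith

/-- the pairs across an edge of the window are few -/
lemma edge_count : ∃ C : ℝ, 0 < C ∧ ∀ T : ℝ, Real.exp 1 ≤ T → ∀ a : ℝ, 0 ≤ a →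
    (muZ.prod muZ) (SymSet T a ∩ {p : ℂ × ℂ | p.1 ∈ WT T ∧ p.2 ∉ WT T}) ≤
      ENNReal.ofReal (C * (1 + 2 * π * a) ^ 4 * Real.log (T + 2) ^ 2) := by
  obtain ⟨C, hC, h⟩ := edge_bound (c := 0) le_rfl
  refine ⟨C, hC, fun T hT a ha => ?_⟩
  have hT1 : 1 < T := (Real.one_lt_exp_iff.mpr one_pos).trans_le hT
  have hL : 0 < Real.log T := Real.log_pos hT1
  set E : Set (ℂ × ℂ) := {p : ℂ × ℂ | p.1 ∈ WT T ∧ p.2 ∉ WT T} with hE
  have hEm : MeasurableSet E :=
    ((measurableSet_WT T).preimage measurable_fst).inter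
      ((measurableSet_WT T).preimage measurable_snd).compl
  have hSm := measurableSet_SymSet T a
  have hpt : ∀ p ∈ SymSet T a ∩ E, (1 : ℝ≥0∞) ≤
      ENNReal.ofReal ((1 + 2 * π * a) ^ 4) * ENNReal.ofReal (pairW 0 T 1 p) := by
    intro p hp
    have hp' : |p.1.im - p.2.im| ≤ 2 * Real.pi * a / Real.log T := hp.1
    rw [← ENNReal.ofReal_mul (by positivity), ← ENNReal.ofReal_one]
    apply ENNReal.ofReal_le_ofReal
    unfold pairW wgt
    simp only [zero_mul, Real.exp_zero, one_mul]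
    rw [← div_eq_mul_inv, one_le_div (by positivity)]
    have : Real.log T * |p.1.im - p.2.im| ≤ 2 * π * a := by
      rw [le_div_iff₀ hL] at hp'
      linarith
    gcongr
  calc (muZ.prod muZ) (SymSet T a ∩ E) = ∫⁻ p in SymSet T a ∩ E, 1 ∂(muZ.prod muZ) := by
        rw [lintegral_one, Measure.restrict_apply_univ]
    _ ≤ ∫⁻ p in SymSet T a ∩ E, ENNReal.ofReal ((1 + 2 * π * a) ^ 4) *
        ENNReal.ofReal (pairW 0 T 1 p) ∂(muZ.prod muZ) := setLIntegral_mono' (hSm.inter hEm) hpt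
    _ ≤ ∫⁻ p in E, ENNReal.ofReal ((1 + 2 * π * a) ^ 4) *
        ENNReal.ofReal (pairW 0 T 1 p) ∂(muZ.prod muZ) := lintegral_mono_set inter_subset_right
    _ = ENNReal.ofReal ((1 + 2 * π * a) ^ 4) *
        ∫⁻ p in E, ENNReal.ofReal (pairW 0 T 1 p) ∂(muZ.prod muZ) := by
        rw [lintegral_const_mul' _ _ ENNReal.ofReal_ne_top]
    _ ≤ ENNReal.ofReal ((1 + 2 * π * a) ^ 4) *
        ENNReal.ofReal (C * (T ^ (0 : ℝ) * Real.log (T + 2) ^ 2)) := by
        gcongr
        exact h T hT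
    _ = _ := by
        rw [Real.rpow_zero, one_mul, ← ENNReal.ofReal_mul (by positivity)]
        congr 1
        ring

lemma swap_measure (A : Set (ℂ × ℂ)) (hA : MeasurableSet A) :
    (muZ.prod muZ) (Prod.swap ⁻¹' A) = (muZ.prod muZ) A := by
  rw [← Measure.map_apply measurable_swap hA, Measure.prod_swap]

/-- `Up` and `NS` have nearly the same mass -/
lemma up_le : ∃ C : ℝ, 0 < C ∧ ∀ T : ℝ, Real.exp 1 ≤ T → ∀ a : ℝ, 0 ≤ a →
    ((muW T).prod muZ) (UpSet T a) ≤ ((muW T).prod muZ) (NSset T a) +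
      ENNReal.ofReal (C * (1 + 2 * π * a) ^ 4 * Real.log (T + 2) ^ 2) ∧
    ((muW T).prod muZ) (NSset T a) ≤ ((muW T).prod muZ) (UpSet T a) +
      ENNReal.ofReal (C * (1 + 2 * π * a) ^ 4 * Real.log (T + 2) ^ 2) := by
  obtain ⟨C, hC, h⟩ := edge_count
  refine ⟨C, hC, fun T hT a ha => ?_⟩
  have hT1 : 1 < T := (Real.one_lt_exp_iff.mpr one_pos).trans_le hT
  have hE := h T hT a ha
  set E : Set (ℂ × ℂ) := {p : ℂ × ℂ | p.1 ∈ WT T ∧ p.2 ∉ WT T} with hEdef
  have hEm : MeasurableSet E :=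
    ((measurableSet_WT T).preimage measurable_fst).inter
      ((measurableSet_WT T).preimage measurable_snd).compl
  have hSm := measurableSet_SymSet T a
  have hE2 : (muZ.prod muZ) (Prod.swap ⁻¹' (SymSet T a ∩ E)) ≤
      ENNReal.ofReal (C * (1 + 2 * π * a) ^ 4 * Real.log (T + 2) ^ 2) := by
    rw [swap_measure _ (hSm.inter hEm)]
    exact hE
  rw [muW_prod_restrict, Measure.restrict_apply (measurableSet_UpSet T a),
    Measure.restrict_apply (measurableSet_NSset T a)]
  have hWm : MeasurableSet (WT T ×ˢ (univ : Set ℂ)) := (measurableSet_WT T).prod MeasurableSet.univ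
  have e1 : (muZ.prod muZ) (UpSet T a ∩ WT T ×ˢ univ) =
      (muZ.prod muZ) (NSset T a ∩ univ ×ˢ WT T) := by
    rw [← swap_measure _ ((measurableSet_NSset T a).inter
      (MeasurableSet.univ.prod (measurableSet_WT T)))]
    congr 1
    ext p
    simp only [UpSet, NSset, mem_inter_iff, mem_ofPred_eq, mem_prod, mem_univ, and_true, true_and,
      mem_preimage, Prod.fst_swap, Prod.snd_swap]
  have e2 : (muZ.prod muZ) (NSset T a ∩ WT T ×ˢ univ) =
      (muZ.prod muZ) (UpSet T a ∩ univ ×ˢ WT T) := by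
    rw [← swap_measure _ ((measurableSet_UpSet T a).inter
      (MeasurableSet.univ.prod (measurableSet_WT T)))]
    congr 1
    ext p
    simp only [UpSet, NSset, mem_inter_iff, mem_ofPred_eq, mem_prod, mem_univ, and_true, true_and,
      mem_preimage, Prod.fst_swap, Prod.snd_swap]
  have hUpSym : UpSet T a ⊆ SymSet T a := by
    rw [SymSet_eq ha hT1]
    intro p hp
    exact Or.inr (Or.inr hp)
  have hNSSym : NSset T a ⊆ SymSet T a := NSset_subset_SymSet T a
  constructor
  · rw [e1]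
    calc (muZ.prod muZ) (NSset T a ∩ univ ×ˢ WT T)
        ≤ (muZ.prod muZ) ((NSset T a ∩ WT T ×ˢ univ) ∪ (Prod.swap ⁻¹' (SymSet T a ∩ E))) := by
          apply measure_mono
          rintro p ⟨h1, h2⟩
          by_cases h3 : p.1 ∈ WT T
          · exact Or.inl ⟨h1, h3, mem_univ _⟩
          · refine Or.inr ⟨?_, ?_, ?_⟩
            · have := hNSSym h1
              show |p.2.im - p.1.im| ≤ _
              rw [abs_sub_comm]
              exact this
            · exact h2.2
            · exact h3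
      _ ≤ _ := measure_union_le _ _
      _ ≤ _ := add_le_add le_rfl hE2
  · calc (muZ.prod muZ) (NSset T a ∩ WT T ×ˢ univ)
        = (muZ.prod muZ) (UpSet T a ∩ univ ×ˢ WT T) := e2
      _ ≤ (muZ.prod muZ) ((UpSet T a ∩ WT T ×ˢ univ) ∪ (Prod.swap ⁻¹' (SymSet T a ∩ E))) := by
          apply measure_mono
          rintro p ⟨h1, h2⟩
          by_cases h3 : p.1 ∈ WT T
          · exact Or.inl ⟨h1, h3, mem_univ _⟩
          · refine Or.inr ⟨?_, ?_, ?_⟩
            · have := hUpSym h1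
              show |p.2.im - p.1.im| ≤ _
              rw [abs_sub_comm]
              exact this
            · exact h2.2
            · exact h3
      _ ≤ _ := measure_union_le _ _
      _ ≤ _ := add_le_add le_rfl hE2

/-- (P1): there is `C` such that for each `a ≥ 0`,
`|N*(T,a) - a T log T / 2π| ≤ C T log T` for all large `T`. -/
theorem NStar_asymp_of (hS : StatementS) (hB : StatementB) : ∃ C : ℝ, 0 < C ∧ ∀ a : ℝ, 0 ≤ a →
    ∀ᶠ T in atTop, |NStar T a - a * (T * Real.log T / (2 * π))| ≤ C * (T * Real.log T) := by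
  obtain ⟨C₁, hC₁, h1⟩ := sym_asymp hS hB
  obtain ⟨C₂, hC₂, T₂, hT₂, h2⟩ := SymSet_le_quadratic hB
  obtain ⟨C₃, hC₃, h3⟩ := up_le
  refine ⟨C₁ + C₂ + 1, by positivity, fun a ha => ?_⟩
  have hlog : ∀ᶠ T : ℝ in atTop, C₃ * (1 + 2 * π * a) ^ 4 * Real.log (T + 2) ^ 2 ≤
      T * Real.log T := by
    have e1 : Tendsto (fun T : ℝ => (C₃ * (1 + 2 * π * a) ^ 4 * 4) * (Real.log T / T)) atTop
        (𝓝 ((C₃ * (1 + 2 * π * a) ^ 4 * 4) * 0)) := by
      apply Tendsto.const_mul
      exact Real.isLittleO_log_id_atTop.tendsto_div_nhds_zero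
    rw [mul_zero] at e1
    filter_upwards [e1.eventually (gt_mem_nhds one_pos), eventually_ge_atTop 2] with T hT hT2
    have hT0 : 0 < T := by linarith
    have hL : 0 < Real.log T := Real.log_pos (by linarith)
    have e2 : Real.log (T + 2) ≤ 2 * Real.log T := by
      rw [two_mul, ← Real.log_mul hT0.ne' hT0.ne']
      apply Real.log_le_log (by linarith)
      nlinarith
    have hlog0 : 0 ≤ Real.log (T + 2) := Real.log_nonneg (by linarith)
    have e3 : (C₃ * (1 + 2 * π * a) ^ 4 * 4) * Real.log T ≤ T := by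
      have : (C₃ * (1 + 2 * π * a) ^ 4 * 4) * (Real.log T / T) * T < 1 * T := by gcongr
      have e : (C₃ * (1 + 2 * π * a) ^ 4 * 4) * (Real.log T / T) * T =
          (C₃ * (1 + 2 * π * a) ^ 4 * 4) * Real.log T := by field_simp
      linarith
    calc C₃ * (1 + 2 * π * a) ^ 4 * Real.log (T + 2) ^ 2
        ≤ C₃ * (1 + 2 * π * a) ^ 4 * (2 * Real.log T) ^ 2 := by gcongr
      _ = ((C₃ * (1 + 2 * π * a) ^ 4 * 4) * Real.log T) * Real.log T := by ring
      _ ≤ T * Real.log T := by gcongr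
  filter_upwards [h1 a ha, hlog, eventually_ge_atTop T₂] with T hT1 hT2 hT3
  have hTe : Real.exp 1 ≤ T := hT₂.trans hT3
  have hTgt : 1 < T := (Real.one_lt_exp_iff.mpr one_pos).trans_le hTe
  have hL : 0 < Real.log T := Real.log_pos hTgt
  have hT0 : 0 < T := by linarith
  set μ := (muW T).prod muZ with hμ
  set X := T * Real.log T with hX
  have hX0 : 0 < X := by positivity
  -- finiteness
  have hfin : μ (SymSet T a) ≠ ⊤ := ne_top_of_le_ne_top ENNReal.ofReal_ne_top (h2 T hT3 a ha)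
  have hsum := measure_SymSet ha hTgt μ
  have hf1 : μ (NSset T a) ≠ ⊤ :=
    ne_top_of_le_ne_top hfin (measure_mono (NSset_subset_SymSet T a))
  have hf2 : μ DgSet ≠ ⊤ := by
    apply ne_top_of_le_ne_top hfin
    rw [hsum]
    exact le_add_left le_self_add
  have hf3 : μ (UpSet T a) ≠ ⊤ := by
    apply ne_top_of_le_ne_top hfin
    rw [hsum]
    exact le_add_left le_add_self
  have hsumR : (μ (SymSet T a)).toReal = (μ (NSset T a)).toReal +
      ((μ DgSet).toReal + (μ (UpSet T a)).toReal) := by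
    rw [hsum, ENNReal.toReal_add hf1 (ENNReal.add_ne_top.mpr ⟨hf2, hf3⟩),
      ENNReal.toReal_add hf2 hf3]
  have hdg : (μ DgSet).toReal ≤ C₂ * X := by
    apply ENNReal.toReal_le_of_le_ofReal (by positivity)
    have h4 := h2 T hT3 0 le_rfl
    refine le_trans (measure_mono ?_) (h4.trans (le_of_eq ?_))
    · intro p hp
      have hp' : p.1.im = p.2.im := hp
      show |p.1.im - p.2.im| ≤ _
      rw [hp', sub_self, abs_zero]
      simp
    · congr 1
      ring
  have hdg0 : 0 ≤ (μ DgSet).toReal := ENNReal.toReal_nonneg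
  obtain ⟨h5, h6⟩ := h3 T hTe a ha
  have hE0 : 0 ≤ C₃ * (1 + 2 * π * a) ^ 4 * Real.log (T + 2) ^ 2 := by positivity
  have h5' : (μ (UpSet T a)).toReal ≤ (μ (NSset T a)).toReal + X := by
    have := ENNReal.toReal_mono (ENNReal.add_ne_top.mpr ⟨hf1, ENNReal.ofReal_ne_top⟩) h5
    rw [ENNReal.toReal_add hf1 ENNReal.ofReal_ne_top, ENNReal.toReal_ofReal hE0] at this
    linarith
  have h6' : (μ (NSset T a)).toReal ≤ (μ (UpSet T a)).toReal + X := by
    have := ENNReal.toReal_mono (ENNReal.add_ne_top.mpr ⟨hf3, ENNReal.ofReal_ne_top⟩) h6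
    rw [ENNReal.toReal_add hf3 ENNReal.ofReal_ne_top, ENNReal.toReal_ofReal hE0] at this
    linarith
  rw [← NStar_eq_toReal] at h5' h6' hsumR
  rw [abs_le] at hT1 ⊢
  constructor <;> nlinarith [hT1.1, hT1.2, mul_pos hC₁ hX0, mul_pos hC₂ hX0]

theorem NStar_asymp : ∃ C : ℝ, 0 < C ∧ ∀ a : ℝ, 0 ≤ a →
    ∀ᶠ T in atTop, |NStar T a - a * (T * Real.log T / (2 * π))| ≤ C * (T * Real.log T) :=
  NStar_asymp_of (statementS_of statementD_closed) Pool.Agent.PC10.statementB

end Pool.Agent.PairCorr.P1
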