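import Mathlib
import Pool.Agent.PairCorr.F_WinRigid
import Pool.Agent.PairCorr.A_Rigid
import Pool.Agent.PairCorr.P1_Final

set_option autoImplicit false

namespace Pool.Agent.PairCorr

open MeasureTheory Filter Topology Set Real
open scoped ENNReal ComplexConjugate FourierTransform

/-! ### Test pairs from arbitrary kernels -/

lemma imK_cont {φ : ℝ → ℝ} {b : ℝ} (h : TF φ b) :
    Continuous (fun u : ℝ => (Kc φ ((2 * π * u : ℝ) * Complex.I)).im) :=
  Complex.continuous_im.comp (h.differentiable_Kc.continuous.comp (by fun_prop))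

lemma imK_decay {φ : ℝ → ℝ} {b : ℝ} (h : TF φ b) :
    RapidDecay (fun u : ℝ => (Kc φ ((2 * π * u : ℝ) * Complex.I)).im) := by
  intro N
  obtain ⟨C, hC, hb⟩ := h.decay_one_add N
  refine ⟨C, hC, fun u => ?_⟩
  have h1 := hb ((2 * π * u : ℝ) * Complex.I)
  have hre : ((2 * π * u : ℝ) * Complex.I : ℂ).re = 0 := by simp
  rw [hre, abs_zero, mul_zero, Real.exp_zero, mul_one] at h1
  rw [← div_eq_mul_inv, le_div_iff₀ (by positivity), mul_comm]
  refine le_trans ?_ h1
  apply mul_le_mul _ (Complex.abs_im_le_norm _) (abs_nonneg _) (by positivity)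
  apply pow_le_pow_left₀ (by positivity)
  rw [norm_mul, Complex.norm_real, Complex.norm_I, mul_one, Real.norm_eq_abs, abs_mul,
    abs_of_pos (by positivity : 0 < 2 * π)]
  have := Real.pi_gt_three
  nlinarith [abs_nonneg u]

lemma imK_odd {φ : ℝ → ℝ} {b : ℝ} (h : TF φ b) (u : ℝ) :
    (Kc φ ((2 * π * (-u) : ℝ) * Complex.I)).im = -(Kc φ ((2 * π * u : ℝ) * Complex.I)).im := by
  rw [Kc_im h, Kc_im h, ← integral_neg]
  congr 1
  ext v
  rw [show v * (2 * π * -u) = -(v * (2 * π * u)) by ring, Real.sin_neg]; ring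

lemma Kc_conj_line {φ : ℝ → ℝ} (y : ℝ) :
    (starRingEnd ℂ) (Kc φ (y * Complex.I)) = Kc φ (((-y : ℝ) : ℂ) * Complex.I) := by
  unfold Kc
  rw [← integral_conj]
  congr 1
  ext v
  rw [map_mul, Complex.conj_ofReal, ← Complex.exp_conj]
  congr 2
  simp only [map_mul, Complex.conj_ofReal, Complex.conj_I]
  push_cast; ring

/-- any kernel gives a test pair -/
lemma TP_of_TF {φ : ℝ → ℝ} {b : ℝ} (hb : 0 ≤ b) (h : TF φ b) :
    ∃ χ : ℝ → ℝ, TP (fun u : ℝ => (Kc φ ((2 * π * u : ℝ) * Complex.I)).im) χ b := by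
  have hband : ∀ ξ : ℝ, b < |ξ| → 𝓕 (fun u : ℝ => (((Kc φ ((2 * π * u : ℝ) * Complex.I)).im : ℝ) : ℂ)) ξ = 0 := by
    intro ξ hξ
    rw [fourier_real_eq_integral_exp_smul]
    have hinv := fun v => (inversion_2pi h v).2
    obtain ⟨hKi, -⟩ := inversion_2pi h 0
    have hconj : ∀ u : ℝ, (starRingEnd ℂ) (Kc φ ((2 * π * u : ℝ) * Complex.I)) =
        Kc φ ((2 * π * (-u) : ℝ) * Complex.I) := by
      intro u
      rw [Kc_conj_line]
      congr 3
      ring
    have e1 : ∀ u : ℝ, Complex.exp (((-2 * π * u * ξ : ℝ) : ℂ) * Complex.I) •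
        (((Kc φ ((2 * π * u : ℝ) * Complex.I)).im : ℝ) : ℂ) =
        (2 * Complex.I)⁻¹ * (Kc φ ((2 * π * u : ℝ) * Complex.I) * Complex.exp (-((2 * π * u * ξ : ℝ) * Complex.I)) -
          Kc φ ((2 * π * (-u) : ℝ) * Complex.I) * Complex.exp (-((2 * π * (-u) * (-ξ) : ℝ) * Complex.I))) := by
      intro u
      have e2 : (((Kc φ ((2 * π * u : ℝ) * Complex.I)).im : ℝ) : ℂ) =
          (2 * Complex.I)⁻¹ * (Kc φ ((2 * π * u : ℝ) * Complex.I) - Kc φ ((2 * π * (-u) : ℝ) * Complex.I)) := by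
        rw [← hconj u, Complex.sub_conj]
        have : (2 * Complex.I : ℂ) ≠ 0 := by simp
        field_simp
        push_cast; ring
      rw [e2, smul_eq_mul]
      have e3 : Complex.exp (((-2 * π * u * ξ : ℝ) : ℂ) * Complex.I) = Complex.exp (-((2 * π * u * ξ : ℝ) * Complex.I)) := by
        congr 1; push_cast; ring
      have e4 : Complex.exp (-((2 * π * (-u) * (-ξ) : ℝ) * Complex.I)) = Complex.exp (-((2 * π * u * ξ : ℝ) * Complex.I)) := by
        congr 1; push_cast; ring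
      rw [e3, e4]; ring
    simp_rw [e1]
    have j1 : ∀ x : ℝ, Integrable (fun v : ℝ => Kc φ ((2 * π * v : ℝ) * Complex.I) *
        Complex.exp (-((2 * π * v * x : ℝ) * Complex.I))) := by
      intro x
      refine hKi.mul_bdd (c := 1) (Continuous.aestronglyMeasurable (by fun_prop)) ?_
      refine Eventually.of_forall fun u => ?_
      rw [Complex.norm_exp]; simp
    have j2 := (j1 (-ξ)).comp_neg
    rw [integral_const_mul, integral_sub (j1 ξ) j2]
    have h5 := integral_neg_eq_self (fun v : ℝ => Kc φ ((2 * π * v : ℝ) * Complex.I) *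
        Complex.exp (-((2 * π * v * (-ξ) : ℝ) * Complex.I))) volume
    rw [hinv ξ, h5, hinv (-ξ), h.supp ξ hξ, h.supp (-ξ) (by rwa [abs_neg])]
    simp
  obtain ⟨χ, hχ, hχe, hker⟩ := exists_test hb (imK_cont h) (imK_decay h) (imK_odd h) hband
  exact ⟨χ, imK_cont h, imK_decay h, imK_odd h, hχ, hχe, hker⟩

/-- The odd moments kernel as a test pair. -/
lemma TP_moment {e : ℝ} (he : 0 < e) (m : ℕ) : ∃ χ : ℝ → ℝ,
    TP (fun u : ℝ => u ^ (2 * m + 1) * gg e (2 * m + 1) u) χ (2 * e) := by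
  obtain ⟨ψ, hψ, hK⟩ := gg_kernel he (N := 2 * m + 1) (by omega)
  obtain ⟨ψ1, hψ1, hK1⟩ := hψ.pow_mul (2 * m + 1)
  set a : ℝ := ((2 * π) ^ (2 * m + 1) * (-1) ^ m)⁻¹ with ha
  have ha0 : ((2 * π) ^ (2 * m + 1) * (-1) ^ m : ℝ) ≠ 0 := by
    apply mul_ne_zero
    · positivity
    · exact pow_ne_zero _ (by norm_num)
  obtain ⟨χ, hχ⟩ := TP_of_TF (by positivity) (hψ1.const_mul a)
  have e1 : (fun u : ℝ => (Kc (fun v => a * ψ1 v) ((2 * π * u : ℝ) * Complex.I)).im) =
      fun u : ℝ => u ^ (2 * m + 1) * gg e (2 * m + 1) u := by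
    funext u
    rw [Kc_const_mul, hK1, hK, Complex.im_ofReal_mul, Complex.im_mul_ofReal]
    have e2 : (((2 * π * u : ℝ) * Complex.I) ^ (2 * m + 1) : ℂ).im = (2 * π * u) ^ (2 * m + 1) * (-1) ^ m := by
      rw [mul_pow]
      have e3 : Complex.I ^ (2 * m + 1) = (((-1) ^ m : ℝ) : ℂ) * Complex.I := by
        rw [pow_succ, pow_mul, Complex.I_sq]
        push_cast; rfl
      rw [e3, ← Complex.ofReal_pow, ← mul_assoc, ← Complex.ofReal_mul, Complex.im_ofReal_mul,
        Complex.I_im, mul_one]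
    have e5 : (2 * π * u) ^ (2 * m + 1) = (2 * π) ^ (2 * m + 1) * u ^ (2 * m + 1) := mul_pow _ _ _
    rw [e2, e5]
    calc a * ((2 * π) ^ (2 * m + 1) * u ^ (2 * m + 1) * (-1) ^ m * gg e (2 * m + 1) u) =
        (a * ((2 * π) ^ (2 * m + 1) * (-1) ^ m)) * (u ^ (2 * m + 1) * gg e (2 * m + 1) u) := by ring
      _ = _ := by rw [ha, inv_mul_cancel₀ ha0, one_mul]
  rw [e1] at hχ
  exact ⟨χ, hχ⟩

/-! ### Concentration of the moment kernels -/

lemma mom_int {e : ℝ} (he : 0 < e) {N : ℕ} (hN : 0 < N) :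
    IntegrableOn (fun u => u ^ N * gg e N u) (Ioi 0) := by
  have h := int_gg (H := fun _ => 1) measurable_const (C := 1) (fun u _ => by simp) he hN
    (f := fun u => u ^ N) (by fun_prop) (L := 1) (k := N) zero_le_one (fun u hu => by
      rw [abs_of_nonneg (by positivity), one_mul])
  simpa using h

lemma mass_lower {e : ℝ} (he : 0 < e) {N : ℕ} (hN : 0 < N) :
    (N / (18 * e)) ^ (N + 1) * (1 / 2) ^ N ≤ ∫ u in Ioi (0:ℝ), u ^ N * gg e N u := by
  have hN' : (0:ℝ) < N := by exact_mod_cast hN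
  set V : ℝ := N / (18 * e) with hV
  have hV0 : 0 < V := by positivity
  have h1 : ∫ u in Ioc V (2 * V), V ^ N * (1 / 2) ^ N ≤ ∫ u in Ioc V (2 * V), u ^ N * gg e N u := by
    apply setIntegral_mono_on
    · exact integrableOn_const (by rw [Real.volume_Ioc]; exact ENNReal.ofReal_ne_top)
    · exact (mom_int he hN).mono_set (fun u hu => hV0.trans hu.1)
    · exact measurableSet_Ioc
    · intro u hu
      have hu1 := hu.1
      have hu2 := hu.2
      have hu0 : 0 < u := hV0.trans hu1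
      have h2 : (1 / 2 : ℝ) ^ N ≤ gg e N u := by
        unfold gg
        rw [pow_mul]
        apply pow_le_pow_left₀ (by norm_num)
        have h3 := one_sub_h0_le (e * u / N)
        have h4 : e * u / N ≤ 1 / 9 := by
          rw [div_le_iff₀ hN']
          have : e * (2 * V) = 1 / 9 * N := by rw [hV]; field_simp; ring
          calc e * u ≤ e * (2 * V) := by gcongr
            _ = _ := this
        have h5 : 0 ≤ e * u / N := by positivity
        have h6 : (e * u / N) ^ 2 ≤ 1 / 81 := by nlinarith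
        have h7 : π ^ 2 ≤ 10 := by nlinarith [Real.pi_lt_d2, Real.pi_pos]
        have h8 : 2 * π ^ 2 * (e * u / N) ^ 2 ≤ 20 / 81 := by
          have : 0 ≤ (e * u / N) ^ 2 := by positivity
          have := Real.pi_pos
          nlinarith
        have h9 : 61 / 81 ≤ h0 (e * u / N) := by linarith
        nlinarith
      gcongr
  rw [setIntegral_const, Real.volume_real_Ioc_of_le (by linarith), smul_eq_mul] at h1
  have h2 : ∫ u in Ioc V (2 * V), u ^ N * gg e N u ≤ ∫ u in Ioi (0:ℝ), u ^ N * gg e N u := by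
    apply setIntegral_mono_set (mom_int he hN)
    · filter_upwards [ae_restrict_mem measurableSet_Ioi] with u hu
      have hu' : (0:ℝ) < u := hu
      exact mul_nonneg (by positivity) (gg_nonneg _ _ _)
    · exact (Ioc_subset_Ioi_self.trans (Ioi_subset_Ioi hV0.le)).eventuallyLE
  refine le_trans (le_of_eq ?_) (h1.trans h2)
  rw [pow_succ]; ring

lemma mass_head {e : ℝ} (he : 0 < e) {N : ℕ} (hN : 0 < N) {α : ℝ} (hα : 0 < α) :
    ∫ u in Ioc 0 α, u ^ N * gg e N u ≤ α ^ (N + 1) := by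
  have h1 : ∫ u in Ioc 0 α, u ^ N * gg e N u ≤ ∫ u in Ioc 0 α, α ^ N := by
    apply setIntegral_mono_on
    · exact (mom_int he hN).mono_set (fun u hu => hu.1)
    · exact integrableOn_const (by rw [Real.volume_Ioc]; exact ENNReal.ofReal_ne_top)
    · exact measurableSet_Ioc
    · intro u hu
      have := gg_le_one e N u
      have h2 := gg_nonneg e N u
      have h3 : u ^ N ≤ α ^ N := pow_le_pow_left₀ hu.1.le hu.2 N
      have h4 : 0 ≤ u ^ N := pow_nonneg hu.1.le N
      nlinarith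
  refine h1.trans (le_of_eq ?_)
  rw [setIntegral_const, Real.volume_real_Ioc_of_le hα.le, smul_eq_mul, pow_succ]; ring

lemma mass_tail {e : ℝ} (he : 0 < e) {N : ℕ} (hN : 2 ≤ N) {β : ℝ} (hβ : 0 < β) :
    ∫ u in Ioi β, u ^ N * gg e N u ≤ (K0 * N / e) ^ (2 * N) / β ^ (N - 1) := by
  have hN0 : 0 < N := by omega
  have hK0 := K0_pos
  have hi : IntegrableOn (fun u : ℝ => (K0 * N / e) ^ (2 * N) / β ^ (N - 2) * u ^ (-2:ℝ)) (Ioi β) :=
    (integrableOn_Ioi_rpow_of_lt (by norm_num) hβ).const_mul _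
  have h1 : ∫ u in Ioi β, u ^ N * gg e N u ≤
      ∫ u in Ioi β, (K0 * N / e) ^ (2 * N) / β ^ (N - 2) * u ^ (-2:ℝ) := by
    apply setIntegral_mono_on _ hi measurableSet_Ioi
    · intro u hu
      have hu2 : β < u := hu
      have hu' : 0 < u := hβ.trans hu2
      have h3 := gg_decay he hN0 hu'
      have h4 : u ^ N * (K0 * N / (e * u)) ^ (2 * N) ≤ (K0 * N / e) ^ (2 * N) / β ^ (N - 2) * u ^ (-2:ℝ) := by
        have e1 : (K0 * N / (e * u)) ^ (2 * N) = (K0 * N / e) ^ (2 * N) / (u ^ N * u ^ N) := by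
          rw [← pow_add, ← two_mul, ← div_pow, div_div]
        have e2 : u ^ N * ((K0 * N / e) ^ (2 * N) / (u ^ N * u ^ N)) = (K0 * N / e) ^ (2 * N) / u ^ N := by
          field_simp
        have e3 : u ^ N = u ^ (N - 2) * u ^ 2 := by rw [← pow_add]; congr 1; omega
        have e4 : u ^ (-2:ℝ) = (u ^ 2)⁻¹ := by
          rw [Real.rpow_neg hu'.le, show (2:ℝ) = ((2:ℕ):ℝ) by norm_num, Real.rpow_natCast]
        rw [e1, e2, e3, e4, ← div_eq_mul_inv, div_div]
        apply div_le_div_of_nonneg_left (by positivity) (by positivity)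
        gcongr
      calc u ^ N * gg e N u ≤ u ^ N * (K0 * N / (e * u)) ^ (2 * N) := by gcongr
        _ ≤ _ := h4
    · exact (mom_int he hN0).mono_set (Ioi_subset_Ioi hβ.le)
  refine h1.trans (le_of_eq ?_)
  rw [integral_const_mul, integral_Ioi_rpow_of_lt (by norm_num) hβ]
  have e1 : N - 1 = N - 2 + 1 := by omega
  rw [e1, pow_succ, show (-2:ℝ) + 1 = -1 by norm_num, Real.rpow_neg_one]
  field_simp

/-- the mass of the moment kernel outside `[α, R0 α]`, `α = N / (72 e)`. -/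
lemma mass_outside {e : ℝ} (he : 0 < e) {N : ℕ} (hN : 2 ≤ N) {α : ℝ} (hα : α = N / (72 * e)) :
    (∫ u in Ioc 0 α, u ^ N * gg e N u) + ∫ u in Ioi (R0 * α), u ^ N * gg e N u ≤
      (1 + R0) * (1 / 2) ^ N * ∫ u in Ioi (0:ℝ), u ^ N * gg e N u := by
  have hN0 : 0 < N := by omega
  have hN' : (0:ℝ) < N := by exact_mod_cast hN0
  have hα0 : 0 < α := by rw [hα]; positivity
  have hR0 := one_lt_R0
  have hK0 := K0_pos
  have hm := mass_lower he hN0
  have e0 : (N:ℝ) / (18 * e) = 4 * α := by rw [hα]; field_simp; ring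
  rw [e0] at hm
  have h1 := mass_head he hN0 hα0
  have h2 := mass_tail he hN (β := R0 * α) (by positivity)
  have e1 : K0 * N / e = 72 * K0 * α := by rw [hα]; field_simp
  rw [e1] at h2
  have hR : (72 * K0) ^ 2 ≤ R0 := by
    have h3 : 200 ≤ k32 := by
      unfold k32
      have := Real.pi_gt_three
      have := Real.exp_one_gt_d9
      nlinarith
    have h4 : 40000 ≤ k32 ^ 2 := by nlinarith
    have h5 := pow_pos hK0 2
    unfold R0
    calc (72 * K0) ^ 2 = 5184 * K0 ^ 2 := by ring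
      _ ≤ 5 * k32 ^ 2 * K0 ^ 2 := by gcongr; linarith
  have h3 : (72 * K0 * α) ^ (2 * N) / (R0 * α) ^ (N - 1) ≤ R0 * α * α ^ N := by
    have e2 : (R0 * α) ^ N = (R0 * α) ^ (N - 1) * (R0 * α) := by rw [← pow_succ]; congr 1; omega
    have e3 : (72 * K0 * α) ^ (2 * N) / (R0 * α) ^ (N - 1) = R0 * α * ((72 * K0 * α) ^ (2 * N) / (R0 * α) ^ N) := by
      rw [e2]; field_simp
    rw [e3]
    apply mul_le_mul_of_nonneg_left _ (by positivity)
    rw [pow_mul, ← div_pow]
    apply pow_le_pow_left₀ (by positivity)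
    rw [div_le_iff₀ (by positivity)]
    calc (72 * K0 * α) ^ 2 = (72 * K0) ^ 2 * (α * α) := by ring
      _ ≤ R0 * (α * α) := by gcongr
      _ = _ := by ring
  have h4 : α ^ (N + 1) = (1 / 4) * (1 / 2) ^ N * ((4 * α) ^ (N + 1) * (1 / 2) ^ N) := by
    have e4' : (4:ℝ) ^ N = 2 ^ N * 2 ^ N := by rw [← mul_pow]; norm_num
    have e4 : (4 * α) ^ (N + 1) = 4 * (2 ^ N * 2 ^ N) * α ^ (N + 1) := by
      rw [mul_pow, pow_succ 4 N, e4']; ring
    rw [e4]
    have e5 : (1 / 2 : ℝ) ^ N * 2 ^ N = 1 := by rw [← mul_pow]; norm_num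
    calc α ^ (N + 1) = ((1 / 2 : ℝ) ^ N * 2 ^ N) * ((1 / 2 : ℝ) ^ N * 2 ^ N) * α ^ (N + 1) := by rw [e5]; ring
      _ = _ := by ring
  have hX : 0 ≤ (4 * α) ^ (N + 1) * (1 / 2) ^ N := by positivity
  set X := (4 * α) ^ (N + 1) * (1 / 2) ^ N with hXdef
  have h5 : R0 * α * α ^ N = R0 * α ^ (N + 1) := by rw [pow_succ]; ring
  have h6 : (∫ u in Ioc 0 α, u ^ N * gg e N u) + ∫ u in Ioi (R0 * α), u ^ N * gg e N u ≤
      (1 + R0) * ((1 / 4) * (1 / 2) ^ N * X) := by
    rw [← h4]
    linarith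
  refine h6.trans ?_
  have h7 : (0:ℝ) ≤ (1 / 2) ^ N := by positivity
  calc (1 + R0) * ((1 / 4) * (1 / 2) ^ N * X) ≤ (1 + R0) * (1 * (1 / 2) ^ N * X) := by
        gcongr; norm_num
    _ = (1 + R0) * (1 / 2) ^ N * X := by ring
    _ ≤ _ := by gcongr

/-- lower bound for the integral against a moment kernel adapted to a window. -/
lemma lower_window {H : ℝ → ℝ} {C' : ℝ} (hHm : Measurable H) (hHb : ∀ u, 0 ≤ u → |H u| ≤ C')
    {e : ℝ} (he : 0 < e) {N : ℕ} (hN : 2 ≤ N) {A B c : ℝ} (hA : A = N / (72 * e)) (hB : 0 ≤ B) (hc : 0 < c)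
    (hw : ∀ u ∈ Icc A (R0 * A), -(B * Real.exp (-(c * u))) ≤ H u) :
    -(C' * ((1 + R0) * (1 / 2) ^ N * ∫ u in Ioi (0:ℝ), u ^ N * gg e N u) + B * (N.factorial / c ^ (N + 1))) ≤
      ∫ u in Ioi (0:ℝ), u ^ N * gg e N u * H u := by
  have hN0 : 0 < N := by omega
  have hN' : (0:ℝ) < N := by exact_mod_cast hN0
  have hA0 : 0 < A := by rw [hA]; positivity
  have hR0 := one_lt_R0
  have hC0 : 0 ≤ C' := (abs_nonneg _).trans (hHb 0 le_rfl)
  have hmom := mom_int he hN0
  set k : ℝ → ℝ := fun u => u ^ N * gg e N u with hk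
  set f1 : ℝ → ℝ := (Iic A).indicator (fun u => C' * k u) with hf1
  set f2 : ℝ → ℝ := fun u => B * (u ^ N * Real.exp (-(c * u))) with hf2
  set f3 : ℝ → ℝ := (Ioi (R0 * A)).indicator (fun u => C' * k u) with hf3
  have i0 : IntegrableOn (fun u => C' * k u) (Ioi 0) := hmom.const_mul _
  have i1 : IntegrableOn f1 (Ioi 0) := by
    rw [hf1, IntegrableOn, integrable_indicator_iff measurableSet_Iic]
    exact i0.integrableOn
  have i2 : IntegrableOn f2 (Ioi 0) := (EE_integrable hc N).const_mul _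
  have i3 : IntegrableOn f3 (Ioi 0) := by
    rw [hf3, IntegrableOn, integrable_indicator_iff measurableSet_Ioi]
    exact i0.integrableOn
  have v1 : ∫ u in Ioi (0:ℝ), f1 u = C' * ∫ u in Ioc 0 A, k u := by
    rw [hf1, setIntegral_indicator measurableSet_Iic, Ioi_inter_Iic, integral_const_mul]
  have v2 : ∫ u in Ioi (0:ℝ), f2 u = B * (N.factorial / c ^ (N + 1)) := by
    rw [hf2, integral_const_mul]
    congr 1
    have h := Real.integral_rpow_mul_exp_neg_mul_Ioi (a := N + 1) (r := c) (by positivity) hc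
    rw [show ((N : ℝ) + 1 - 1) = N by ring] at h
    have h2 : ∀ u : ℝ, u ^ N * Real.exp (-(c * u)) = u ^ (N : ℝ) * Real.exp (-(c * u)) := by
      intro u; rw [Real.rpow_natCast]
    simp_rw [h2]
    rw [h, Real.Gamma_nat_eq_factorial, one_div, Real.inv_rpow hc.le]
    rw [show ((N : ℝ) + 1) = ((N + 1 : ℕ) : ℝ) by push_cast; ring, Real.rpow_natCast]
    field_simp
  have v3 : ∫ u in Ioi (0:ℝ), f3 u = C' * ∫ u in Ioi (R0 * A), k u := by
    rw [hf3, setIntegral_indicator measurableSet_Ioi, Ioi_inter_Ioi, max_eq_right (by positivity), integral_const_mul]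
  have i12 : IntegrableOn (fun u => f1 u + f2 u) (Ioi 0) := i1.add i2
  have i123 : IntegrableOn (fun u => f1 u + f2 u + f3 u) (Ioi 0) := i12.add i3
  have vtot : ∫ u in Ioi (0:ℝ), (f1 u + f2 u + f3 u) = C' * (∫ u in Ioc 0 A, k u) +
      B * (N.factorial / c ^ (N + 1)) + C' * ∫ u in Ioi (R0 * A), k u := by
    rw [integral_add i12 i3, integral_add i1 i2, v1, v2, v3]
  have iH : IntegrableOn (fun u => k u * H u) (Ioi 0) := by
    refine int_gg hHm hHb he hN0 (f := fun u => u ^ N) (by fun_prop) (L := 1) (k := N) zero_le_one ?_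
    intro u hu
    rw [abs_of_nonneg (by positivity), one_mul]
  have hpt : ∫ u in Ioi (0:ℝ), -(f1 u + f2 u + f3 u) ≤ ∫ u in Ioi (0:ℝ), k u * H u := by
    apply setIntegral_mono_on i123.neg iH measurableSet_Ioi
    intro u hu
    have hu' : (0:ℝ) < u := hu
    have hk0 : 0 ≤ k u := by
      simp only [hk]
      exact mul_nonneg (by positivity) (gg_nonneg _ _ _)
    have hlow := (abs_le.1 (hHb u hu'.le)).1
    have hf1' : 0 ≤ f1 u := indicator_apply_nonneg (fun _ => by positivity)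
    have hf2' : 0 ≤ f2 u := by simp only [hf2]; positivity
    have hf3' : 0 ≤ f3 u := indicator_apply_nonneg (fun _ => by positivity)
    show -(f1 u + f2 u + f3 u) ≤ k u * H u
    rcases le_or_gt u A with h1 | h1
    · have e1 : f1 u = C' * k u := by
        simp only [hf1]
        rw [indicator_of_mem (show u ∈ Iic A from h1)]
      have := mul_le_mul_of_nonneg_left hlow hk0
      linarith
    · rcases le_or_gt u (R0 * A) with h2 | h2
      · have h3 := mul_le_mul_of_nonneg_left (hw u ⟨h1.le, h2⟩) hk0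
        have h4 : k u * (B * Real.exp (-(c * u))) ≤ f2 u := by
          simp only [hk, hf2]
          have := gg_le_one e N u
          have h5 := gg_nonneg e N u
          calc u ^ N * gg e N u * (B * Real.exp (-(c * u))) ≤ u ^ N * 1 * (B * Real.exp (-(c * u))) := by gcongr
            _ = _ := by ring
        linarith
      · have e1 : f3 u = C' * k u := by
          simp only [hf3]
          rw [indicator_of_mem (show u ∈ Ioi (R0 * A) from h2)]
        have := mul_le_mul_of_nonneg_left hlow hk0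
        linarith
  rw [integral_neg, vtot] at hpt
  have hout := mass_outside he hN hA
  refine le_trans ?_ hpt
  have h5 := mul_le_mul_of_nonneg_left hout hC0
  have h6 : C' * ((∫ u in Ioc 0 A, k u) + ∫ u in Ioi (R0 * A), k u) ≤
      C' * ((1 + R0) * (1 / 2) ^ N * ∫ u in Ioi (0:ℝ), k u) := h5
  rw [mul_add] at h6
  linarith

/-! ### Bounds for the limit -/

lemma gue_lower {u : ℝ} (hu : 0 ≤ u) : u - 2 ≤ gue u := by
  rcases le_total u 1 with h | h
  · have := gue_nonneg hu
    linarith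
  · have hmono : MonotoneOn (fun u => gue u - u - 1 / u) (Ici 1) := by
      apply monotoneOn_of_deriv_nonneg (convex_Ici 1)
      · apply ContinuousOn.sub
        · exact (gue_continuous.sub continuous_id).continuousOn
        · apply continuousOn_const.div continuousOn_id
          intro x hx
          have : (1:ℝ) ≤ x := hx
          show x ≠ 0
          linarith
      · intro x hx
        rw [interior_Ici] at hx
        have hx0 : x ≠ 0 := by have : (1:ℝ) < x := hx; linarith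
        exact (((gue_hasDerivAt hx0).sub (hasDerivAt_id x)).sub
          ((hasDerivAt_const x (1:ℝ)).div (hasDerivAt_id x) hx0)).differentiableAt.differentiableWithinAt
      · intro x hx
        rw [interior_Ici] at hx
        have hx1 : (1:ℝ) < x := hx
        have hx0 : x ≠ 0 := by linarith
        have hd := (((gue_hasDerivAt hx0).sub (hasDerivAt_id x)).sub
          ((hasDerivAt_const x (1:ℝ)).div (hasDerivAt_id x) hx0)).deriv
        have e1 : deriv (fun u => gue u - u - 1 / u) x = (1 - sinc2 x) - 1 - (0 * x - 1 * 1) / x ^ 2 := hd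
        rw [e1]
        have h2 : sinc2 x ≤ 1 / x ^ 2 := by
          unfold sinc2
          rw [div_pow]
          have h3 : Real.sin (π * x) ^ 2 ≤ 1 := Real.sin_sq_le_one _
          have hpi := Real.pi_gt_three
          have h4 : x ^ 2 ≤ (π * x) ^ 2 := by
            rw [mul_pow]
            have : 1 ≤ π ^ 2 := by nlinarith
            have hx2 : 0 < x ^ 2 := by positivity
            nlinarith
          exact div_le_div₀ zero_le_one h3 (by positivity) h4
        have e2 : (1 - sinc2 x) - 1 - (0 * x - 1 * 1) / x ^ 2 = 1 / x ^ 2 - sinc2 x := by ring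
        rw [e2]; linarith
    have h1 := hmono (mem_Ici.2 (le_refl (1:ℝ))) (mem_Ici.2 h) h
    have h2 := gue_nonneg (show (0:ℝ) ≤ 1 by norm_num)
    have h3 : 0 < 1 / u := by positivity
    simp only [div_one] at h1
    linarith

/-- (P1) in the normalisation of `Lr`. -/
lemma Lr_gue_bound : ∃ C : ℝ, 0 < C ∧ ∀ u : ℝ, 0 ≤ u → ∀ᶠ T in atTop, |Lr T u - gue u| ≤ C := by
  obtain ⟨C, hC, h⟩ := P1.NStar_asymp
  have hpi := Real.pi_pos
  refine ⟨2 * π * C + 2, by positivity, fun u hu => ?_⟩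
  filter_upwards [h u hu, eventually_ge_atTop (Real.exp 1)] with T hT hTe
  have hT0 : 0 < T := (Real.exp_pos 1).trans_le hTe
  have hL1 : 1 ≤ Real.log T := by rw [Real.le_log_iff_exp_le hT0]; exact hTe
  have hNT := NT_pos hL1 hT0
  have h1 : |Lr T u - u| ≤ 2 * π * C := by
    rw [Lr_eq]
    have e1 : NStar T u / NT T - u = (NStar T u - u * NT T) / NT T := by field_simp
    rw [e1, abs_div, abs_of_pos hNT, div_le_iff₀ hNT]
    refine hT.trans (le_of_eq ?_)
    unfold NT
    field_simp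
  have h2 := gue_lower hu
  have h3 := gue_le hu
  rw [abs_le] at h1 ⊢
  constructor <;> linarith

/-! ### The diagonal -/

lemma JJ_limit {q χ : ℝ → ℝ} {b : ℝ} (hq : TP q χ b) {x : ℕ → ℝ} (hxe : ∀ k, Real.exp 1 ≤ x k) {C : ℝ}
    (hEC : ∀ k, ∀ u ≥ 0, |Lr (x k) u - gue u| ≤ C * (1 + u) ^ 2)
    (hrat : ∀ r : ℚ, 0 ≤ (r:ℝ) → Tendsto (fun k => Lr (x k) r) atTop (𝓝 (DI (fun k => Lr (x k)) r)))
    {M : ℝ} (hM : Tendsto (fun k => Mr (x k)) atTop (𝓝 M)) :
    Tendsto (fun k => JJ q (x k)) atTop (𝓝 ((M - 1) / 2 * (∫ u in Ioi 0, q u) +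
      ∫ u in Ioi 0, q u * (DI (fun k => Lr (x k)) u - gue u))) := by
  have hEm : ∀ k, Monotone (Lr (x k)) := fun k => Lr_mono (hxe k)
  obtain ⟨K, hK, hKb⟩ := hq.decay 4
  have h1 := limit_integral hEm gue_continuous hEC hrat hq.cont (K := K) (by
    intro u hu
    have := hKb u
    rw [abs_of_nonneg hu] at this
    calc (1 + u) ^ 4 * |q u| ≤ (1 + u) ^ 4 * (K * ((1 + u) ^ 4)⁻¹) := by gcongr
      _ = K := by field_simp)
  have h2 : Tendsto (fun k => (Mr (x k) - 1) / 2 * ∫ u in Ioi 0, q u) atTop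
      (𝓝 ((M - 1) / 2 * ∫ u in Ioi 0, q u)) := ((hM.sub_const 1).div_const 2).mul_const _
  refine (h2.add h1).congr fun k => ?_
  unfold JJ
  have i1 : IntegrableOn (fun u => (Mr (x k) - 1) / 2 * q u) (Ioi 0) := hq.integrable.integrableOn.const_mul _
  have i2 : IntegrableOn (fun u => q u * (Lr (x k) u - gue u)) (Ioi 0) :=
    hq.decay.int_mul hq.cont ((hEm k).measurable.sub gue_continuous.measurable) (hEC k)
  rw [← integral_const_mul, ← integral_add i1 i2]
  congr 1
  ext u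
  ring

lemma moment_scale (e : ℝ) (N : ℕ) (δ u : ℝ) :
    δ * ((δ * u) ^ N * gg e N (δ * u)) = δ ^ (N + 1) * (u ^ N * gg (δ * e) N u) := by
  have e1 : gg e N (δ * u) = gg (δ * e) N u := by
    unfold gg
    congr 2
    ring
  rw [e1, mul_pow, pow_succ]; ring

/-- In the limit the diagonal has the minimal size. -/
theorem M_le_one {x : ℕ → ℝ} (hx : Tendsto x atTop atTop) (hxe : ∀ k, Real.exp 1 ≤ x k) {C : ℝ}
    (hEC : ∀ k, ∀ u ≥ 0, |Lr (x k) u - gue u| ≤ C * (1 + u) ^ 2)
    (hrat : ∀ r : ℚ, 0 ≤ (r:ℝ) → Tendsto (fun k => Lr (x k) r) atTop (𝓝 (DI (fun k => Lr (x k)) r)))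
    {M : ℝ} (hM : Tendsto (fun k => Mr (x k)) atTop (𝓝 M)) {C' : ℝ}
    (hC' : ∀ u, 0 ≤ u → |DI (fun k => Lr (x k)) u - gue u| ≤ C')
    {A : ℕ → ℝ} (hA : Tendsto A atTop atTop) {B c : ℝ} (hB : 0 ≤ B) (hc : 0 < c)
    (hw : ∀ j, ∀ u ∈ Icc (A j) (R0 * A j), -(B * Real.exp (-(c * u))) ≤ DI (fun k => Lr (x k)) u - gue u) :
    M ≤ 1 := by
  obtain ⟨b₀, hb₀, hb₀1, hJ⟩ := JJ_bound statementS'
  obtain ⟨b₁, hb₁, hOD⟩ := statementOD1'
  set b := min b₀ b₁ with hb
  have hbpos : 0 < b := lt_min hb₀ hb₁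
  have hpi := Real.pi_pos
  have hR0 := one_lt_R0
  set H : ℝ → ℝ := fun u => DI (fun k => Lr (x k)) u - gue u with hH
  have hEm : ∀ k, Monotone (Lr (x k)) := fun k => Lr_mono (hxe k)
  have hHm : Measurable H := (DI_mono hEm hEC).measurable.sub gue_continuous.measurable
  have hC0 : 0 ≤ C' := (abs_nonneg _).trans (hC' 0 le_rfl)
  have key : ∀ m : ℕ, 1 ≤ m → (M - 1) / 2 ≤ C' * ((1 + R0) * (1 / 2) ^ (2 * m + 1)) := by
    intro m hm
    obtain ⟨χ, hTP⟩ := TP_moment (e := b / 2) (by positivity) m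
    rw [show 2 * (b / 2) = b by ring] at hTP
    set N := 2 * m + 1 with hN
    have hN2 : 2 ≤ N := by omega
    have hN0 : 0 < N := by omega
    have hN' : (0:ℝ) < N := by exact_mod_cast hN0
    obtain ⟨Cq, hCq, hODq⟩ := hOD χ (hTP.tf.mono (min_le_right _ _)) hTP.even
    set mb : ℝ := ∫ u in Ioi (0:ℝ), u ^ N * gg (b / 2) N u with hmb
    have hmb0 : 0 < mb := by
      refine lt_of_lt_of_le ?_ (mass_lower (by positivity) hN0)
      positivity
    have main : ∀ δ : ℝ, 0 < δ → δ ≤ 1 → (∀ u ∈ Icc (N / (72 * (δ * (b / 2)))) (R0 * (N / (72 * (δ * (b / 2))))),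
        -(B * Real.exp (-(c * u))) ≤ H u) →
        (M - 1) / 2 * mb ≤ C' * ((1 + R0) * (1 / 2) ^ N * mb) + B * (N.factorial / c ^ (N + 1)) * δ ^ (N + 1) +
          2 * π * Cq * δ := by
      intro δ hδ hδ1 hwin
      have hTPδ : TP (fun u => δ * ((δ * u) ^ N * gg (b / 2) N (δ * u))) (fun v => χ (v / δ) / δ) b :=
        (hTP.scale hδ hδ1).mono (by nlinarith)
      obtain ⟨e, he, hJb⟩ := hJ _ _ (hTPδ.mono (min_le_left _ _))
      obtain ⟨T₁, hT₁⟩ := hODq δ hδ hδ1
      have hlim := JJ_limit hTPδ hxe hEC hrat hM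
      have hup : ∀ᶠ k in atTop, JJ (fun u => δ * ((δ * u) ^ N * gg (b / 2) N (δ * u))) (x k) ≤
          e (x k) + 2 * π * Cq * δ := by
        filter_upwards [hx.eventually (eventually_ge_atTop T₁)] with k hk
        have hT0 : 0 < x k := (Real.exp_pos 1).trans_le (hxe k)
        have hL1 : 1 ≤ Real.log (x k) := by rw [Real.le_log_iff_exp_le hT0]; exact hxe k
        have hNT := NT_pos hL1 hT0
        have h1 := hJb (x k) (hxe k)
        have h2 := hT₁ (x k) hk
        have h3 : ‖Spair (fun v => χ (v / δ) / δ) (x k) - Spair0 (fun v => χ (v / δ) / δ) (x k)‖ / NT (x k) ≤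
            2 * π * Cq * δ := by
          rw [div_le_iff₀ hNT]
          refine h2.trans (le_of_eq ?_)
          unfold NT
          field_simp
        have h4 := le_abs_self (JJ (fun u => δ * ((δ * u) ^ N * gg (b / 2) N (δ * u))) (x k))
        linarith
      have hle := le_of_tendsto_of_tendsto hlim ((he.comp hx).add_const (2 * π * Cq * δ)) hup
      rw [zero_add] at hle
      have hmass : ∫ u in Ioi (0:ℝ), δ * ((δ * u) ^ N * gg (b / 2) N (δ * u)) = mb := by
        have := tailF_scale (fun u => u ^ N * gg (b / 2) N u) hδ 0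
        unfold tailF at this
        rw [mul_zero] at this
        exact this
      have e1 : ∀ u : ℝ, δ * ((δ * u) ^ N * gg (b / 2) N (δ * u)) = δ ^ (N + 1) * (u ^ N * gg (δ * (b / 2)) N u) :=
        fun u => moment_scale _ _ _ _
      have hmass2 : δ ^ (N + 1) * ∫ u in Ioi (0:ℝ), u ^ N * gg (δ * (b / 2)) N u = mb := by
        rw [← hmass, ← integral_const_mul]
        simp_rw [e1]
      have hlow := lower_window (H := H) hHm hC' (e := δ * (b / 2)) (by positivity) hN2
        (A := N / (72 * (δ * (b / 2)))) rfl hB hc hwin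
      have hlow2 := mul_le_mul_of_nonneg_left hlow (by positivity : 0 ≤ δ ^ (N + 1))
      have e2 : ∫ u in Ioi (0:ℝ), δ * ((δ * u) ^ N * gg (b / 2) N (δ * u)) * H u =
          δ ^ (N + 1) * ∫ u in Ioi (0:ℝ), u ^ N * gg (δ * (b / 2)) N u * H u := by
        rw [← integral_const_mul]
        congr 1
        ext u
        rw [e1]; ring
      have hle2 : (M - 1) / 2 * mb + δ ^ (N + 1) * ∫ u in Ioi (0:ℝ), u ^ N * gg (δ * (b / 2)) N u * H u ≤
          2 * π * Cq * δ := by
        rw [← e2, ← hmass]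
        exact hle
      have e3 : δ ^ (N + 1) * -(C' * ((1 + R0) * (1 / 2) ^ N * ∫ u in Ioi (0:ℝ), u ^ N * gg (δ * (b / 2)) N u) +
          B * (N.factorial / c ^ (N + 1))) = -(C' * ((1 + R0) * (1 / 2) ^ N * mb) +
          B * (N.factorial / c ^ (N + 1)) * δ ^ (N + 1)) := by
        rw [← hmass2]; ring
      rw [e3] at hlow2
      linarith
    -- the sequence of scales
    set δ : ℕ → ℝ := fun j => N / (72 * (b / 2) * A j) with hδ
    have hAb : Tendsto (fun j => 72 * (b / 2) * A j) atTop atTop := hA.const_mul_atTop (by positivity)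
    have hδ0 : Tendsto δ atTop (𝓝 0) := tendsto_const_nhds.div_atTop hAb
    have hδp : ∀ᶠ j in atTop, 0 < δ j := by
      filter_upwards [hA.eventually (eventually_gt_atTop 0)] with j hj
      simp only [hδ]; positivity
    have hδ1 : ∀ᶠ j in atTop, δ j ≤ 1 := (hδ0.eventually (gt_mem_nhds one_pos)).mono fun j h => h.le
    have hev : ∀ᶠ j in atTop, (M - 1) / 2 * mb ≤ C' * ((1 + R0) * (1 / 2) ^ N * mb) +
        B * (N.factorial / c ^ (N + 1)) * (δ j) ^ (N + 1) + 2 * π * Cq * δ j := by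
      filter_upwards [hδp, hδ1, hA.eventually (eventually_gt_atTop 0)] with j h1 h2 h3
      apply main (δ j) h1 h2
      have e1 : (N:ℝ) / (72 * (δ j * (b / 2))) = A j := by
        simp only [hδ]
        field_simp
      rw [e1]
      exact hw j
    have hlim : Tendsto (fun j => C' * ((1 + R0) * (1 / 2) ^ N * mb) +
        B * (N.factorial / c ^ (N + 1)) * (δ j) ^ (N + 1) + 2 * π * Cq * δ j) atTop
        (𝓝 (C' * ((1 + R0) * (1 / 2) ^ N * mb) + B * (N.factorial / c ^ (N + 1)) * 0 ^ (N + 1) + 2 * π * Cq * 0)) :=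
      ((tendsto_const_nhds).add ((hδ0.pow (N + 1)).const_mul _)).add (hδ0.const_mul _)
    have hfin := ge_of_tendsto hlim hev
    rw [zero_pow (by omega), mul_zero, mul_zero, add_zero, add_zero] at hfin
    have h5 : (M - 1) / 2 * mb ≤ (C' * ((1 + R0) * (1 / 2) ^ N)) * mb := by
      calc (M - 1) / 2 * mb ≤ C' * ((1 + R0) * (1 / 2) ^ N * mb) := hfin
        _ = _ := by ring
    exact le_of_mul_le_mul_right h5 hmb0
  -- let `m → ∞`
  have ht : Tendsto (fun m : ℕ => C' * ((1 + R0) * (1 / 2 : ℝ) ^ (2 * m + 1))) atTop (𝓝 (C' * ((1 + R0) * 0))) := by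
    have h1 : Tendsto (fun n : ℕ => (1 / 2 : ℝ) ^ n) atTop (𝓝 0) :=
      tendsto_pow_atTop_nhds_zero_of_lt_one (by norm_num) (by norm_num)
    have h2 : Tendsto (fun m : ℕ => 2 * m + 1) atTop atTop := by
      apply tendsto_atTop_mono _ tendsto_id
      intro m
      simp only [id]; omega
    exact ((h1.comp h2).const_mul _).const_mul _
  have hfin := ge_of_tendsto ht (by
    filter_upwards [eventually_ge_atTop 1] with m hm
    exact key m hm)
  simp only [mul_zero] at hfin
  linarith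

end Pool.Agent.PairCorr
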