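import Mathlib
import Pool.Agent.PairCorr.A_Windows

set_option autoImplicit false

namespace Pool.Agent.PairCorr

open MeasureTheory Filter Topology Set Real
open scoped ENNReal ComplexConjugate

lemma Mr_le_of_quad : ∃ C : ℝ, 0 < C ∧ ∃ T₀ : ℝ, Real.exp 1 ≤ T₀ ∧ ∀ T : ℝ, T₀ ≤ T →
    |Mr T| ≤ C ∧ ∀ u ≥ 0, |Lr T u - gue u| ≤ C * (1 + u) ^ 2 := by
  obtain ⟨C, hC, T₀, hT₀, hq⟩ := quad_bounds
  refine ⟨C + 1, by positivity, T₀, hT₀, fun T hT => ⟨?_, fun u hu => ?_⟩⟩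
  · rw [abs_of_nonneg (Mr_nonneg (hT₀.trans hT))]
    have := (hq T hT).1
    linarith
  · have h1 := (hq T hT).2 u hu
    have h2 := Lr_nonneg (hT₀.trans hT) u
    have h3 := gue_nonneg hu
    have h4 := gue_le hu
    have hu' : (0:ℝ) ≤ u := hu
    have h5 : u ≤ (1 + u) ^ 2 := by nlinarith
    rw [abs_le]
    constructor
    · nlinarith [sq_nonneg (1 + u)]
    · nlinarith [sq_nonneg (1 + u)]

/-- **Step 1 for windows**: the diagonal has asymptotically the minimal size. -/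
theorem Mr_tendsto_windows {l : Filter ℝ} [l.IsCountablyGenerated] (hl : l ≤ atTop) {A : ℕ → ℝ}
    (hA : Tendsto A atTop atTop) {B c : ℝ} (hB : 0 ≤ B) (hc : 0 < c)
    (hi : ∀ j, ∀ a ∈ Icc (A j) (R0 * A j), ∀ ε > 0, ∀ᶠ T in l, gue a - B * Real.exp (-(c * a)) - ε ≤ Lr T a) :
    Tendsto Mr l (𝓝 1) := by
  apply Filter.tendsto_of_subseq_tendsto
  intro ns hns
  obtain ⟨C, hC, T₀, hT₀, hq⟩ := Mr_le_of_quad
  obtain ⟨C', hC', hP1⟩ := Lr_gue_bound
  have hnsT : Tendsto ns atTop atTop := hns.mono_right hl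
  obtain ⟨N, hN⟩ := eventually_atTop.1 (hnsT.eventually (eventually_ge_atTop T₀))
  obtain ⟨φ, hφ, hrat⟩ := extract_limit (E := fun n => Lr (ns (n + N))) (G := gue) (C := C)
    (fun k u hu => (hq _ (hN (k + N) (by omega))).2 u hu)
  obtain ⟨M, -, ψ, hψ, hM⟩ := tendsto_subseq_of_bounded (x := fun k => Mr (ns (φ k + N)))
    (Metric.isBounded_closedBall (x := (0:ℝ)) (r := C)) (fun k => by
      rw [Metric.mem_closedBall, Real.dist_eq, sub_zero]
      exact (hq _ (hN (φ k + N) (by omega))).1)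
  set x : ℕ → ℝ := fun k => ns (φ (ψ k) + N) with hx
  have hxT₀ : ∀ k, T₀ ≤ x k := fun k => hN (φ (ψ k) + N) (by omega)
  have hxe : ∀ k, Real.exp 1 ≤ x k := fun k => hT₀.trans (hxT₀ k)
  have hsub : Tendsto (fun k => φ (ψ k) + N) atTop atTop :=
    (tendsto_add_atTop_nat N).comp (hφ.tendsto_atTop.comp hψ.tendsto_atTop)
  have hxl : Tendsto x atTop l := hns.comp hsub
  have hxt : Tendsto x atTop atTop := hxl.mono_right hl
  have hEC : ∀ k, ∀ u ≥ 0, |Lr (x k) u - gue u| ≤ C * (1 + u) ^ 2 := fun k u hu => (hq _ (hxT₀ k)).2 u hu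
  have hrat' : ∀ r : ℚ, 0 ≤ (r:ℝ) → Tendsto (fun k => Lr (x k) r) atTop (𝓝 (DI (fun k => Lr (x k)) r)) := by
    intro r hr
    have h1 := (hrat r hr).comp hψ.tendsto_atTop
    have h2 : DI (fun k => Lr (x k)) r = DI (fun k => Lr (ns (φ k + N))) r := DI_of_tendsto hr h1
    rw [h2]
    exact h1
  have hM' : Tendsto (fun k => Mr (x k)) atTop (𝓝 M) := hM
  have hb : ∀ u, 0 ≤ u → |DI (fun k => Lr (x k)) u - gue u| ≤ C' := by
    intro u hu
    have h1 := hxt.eventually (hP1 u hu)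
    rw [abs_le]
    constructor
    · have h2 : ∀ᶠ k in atTop, gue u - C' ≤ Lr (x k) u := by
        filter_upwards [h1] with k hk
        have := (abs_le.1 hk).1
        linarith
      have := DI_lower hu hEC h2
      linarith
    · have h2 : ∀ᶠ k in atTop, Lr (x k) u ≤ gue u + C' := by
        filter_upwards [h1] with k hk
        have := (abs_le.1 hk).2
        linarith
      have := DI_upper hu hEC h2
      linarith
  obtain ⟨j₀, hj₀⟩ := eventually_atTop.1 (hA.eventually (eventually_ge_atTop (0:ℝ)))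
  have hMle := M_le_one hxt hxe hEC hrat' hM' hb (A := fun j => A (j + j₀))
    (hA.comp (tendsto_add_atTop_nat j₀)) hB hc (by
      intro j u hu
      have hu0 : 0 ≤ u := (hj₀ (j + j₀) (by omega)).trans hu.1
      by_contra hcon
      push Not at hcon
      set ε := (-(B * Real.exp (-(c * u))) - (DI (fun k => Lr (x k)) u - gue u)) / 2 with hε
      have hε0 : 0 < ε := by rw [hε]; linarith
      have h1 := hxl.eventually (hi (j + j₀) u hu ε hε0)
      have h3 := DI_lower hu0 hEC h1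
      linarith)
  have hMge : 1 ≤ M := by
    apply le_of_tendsto_of_tendsto (NCount_NT.comp hxt) hM'
    exact Eventually.of_forall fun k => Mr_ge_ratio (hxe k)
  have hM1 : M = 1 := le_antisymm hMle hMge
  refine ⟨fun k => φ (ψ k) + N, ?_⟩
  rw [← hM1]
  exact hM'

/-- **Step 2 for windows**. -/
theorem Lr_tendsto_of_windows {l : Filter ℝ} [l.IsCountablyGenerated] (hl : l ≤ atTop)
    (hM : Tendsto Mr l (𝓝 1)) {A : ℕ → ℝ} (hA : Tendsto A atTop atTop)
    {B c sgn : ℝ} (hB : 0 ≤ B) (hc : 0 < c) (hsgn : sgn = 1 ∨ sgn = -1)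
    (hi : ∀ j, ∀ a ∈ Icc (A j) (R0 * A j), ∀ ε > 0, ∀ᶠ T in l,
      -(B * Real.exp (-(c * a))) - ε ≤ sgn * (Lr T a - gue a)) :
    ∀ a > 0, Tendsto (fun T => Lr T a) l (𝓝 (gue a)) := by
  obtain ⟨b₀, hb₀, hb₀1, hJ⟩ := JJ_tendsto
  obtain ⟨C, hC, T₀, hT₀, hq⟩ := Mr_le_of_quad
  obtain ⟨C', hC', hP1⟩ := Lr_gue_bound
  have hev : ∀ᶠ T in l, T₀ ≤ T := (eventually_ge_atTop T₀).filter_mono hl
  set D : ℝ → ℝ → ℝ := fun T u => Mr (max T (Real.exp 1)) / 2 + Lr (max T (Real.exp 1)) u with hD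
  set G : ℝ → ℝ := fun u => 1 / 2 + gue u with hG
  have hDm : ∀ T, Monotone (D T) := fun T => (Lr_mono (le_max_right _ _)).const_add _
  have hGl : ∀ u v, |G u - G v| ≤ |u - v| := by
    intro u v
    simp only [hG]
    rw [add_sub_add_left_eq_sub]
    exact gue_lipschitz u v
  have hDeq : ∀ T, T₀ ≤ T → ∀ u, D T u = Mr T / 2 + Lr T u := by
    intro T hT u
    simp only [hD, max_eq_left (hT₀.trans hT)]
  have hMe : ∀ᶠ T in l, ∀ a, D T a - G a = (Mr T - 1) / 2 + (Lr T a - gue a) := by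
    filter_upwards [hev] with T hT a
    rw [hDeq T hT]
    simp only [hG]; ring
  have hM1 : ∀ ε > 0, ∀ᶠ T in l, |Mr T - 1| < ε := by
    intro ε hε
    have := Metric.tendsto_nhds.1 hM ε hε
    simpa [Real.dist_eq] using this
  have hDC : ∀ᶠ T in l, ∀ u ≥ 0, |D T u - G u| ≤ (C + 1) * (1 + u) ^ 2 := by
    filter_upwards [hev, hMe, hM1 1 one_pos] with T hT h1 h2 u hu
    have hu' : (0:ℝ) ≤ u := hu
    rw [h1]
    have h3 := (hq T hT).2 u hu
    have h4 : |(Mr T - 1) / 2| ≤ 1 := by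
      rw [abs_div, abs_of_pos (by norm_num : (0:ℝ) < 2)]; linarith
    have h5 : (1:ℝ) ≤ (1 + u) ^ 2 := by nlinarith
    calc |(Mr T - 1) / 2 + (Lr T u - gue u)| ≤ |(Mr T - 1) / 2| + |Lr T u - gue u| := abs_add_le _ _
      _ ≤ 1 + C * (1 + u) ^ 2 := by linarith
      _ ≤ _ := by nlinarith
  have hDC' : ∀ u ≥ 0, ∀ᶠ T in l, |D T u - G u| ≤ C' + 1 := by
    intro u hu
    filter_upwards [hMe, hM1 1 one_pos, (hP1 u hu).filter_mono hl] with T h1 h2 h3
    rw [h1]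
    have h4 : |(Mr T - 1) / 2| ≤ 1 := by
      rw [abs_div, abs_of_pos (by norm_num : (0:ℝ) < 2)]; linarith
    calc |(Mr T - 1) / 2 + (Lr T u - gue u)| ≤ |(Mr T - 1) / 2| + |Lr T u - gue u| := abs_add_le _ _
      _ ≤ _ := by linarith
  have hgap : ∀ φ : ℝ → ℝ, TF φ b₀ →
      Tendsto (fun T => ∫ u in Ioi (0:ℝ), (Kc φ ((2 * π * u : ℝ) * Complex.I)).im * (D T u - G u)) l (𝓝 0) := by
    intro φ hφ
    obtain ⟨χ, hTP⟩ := TP_of_TF hb₀.le hφ
    refine (hJ _ χ hTP l hl hM).congr' ?_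
    filter_upwards [hev] with T hT
    unfold JJ
    congr 1
    ext u
    rw [hDeq T hT]
  have hsgn' : |sgn| = 1 := by rcases hsgn with h | h <;> rw [h] <;> simp
  have hiD : ∀ j, ∀ a ∈ Icc (A j) (R0 * A j), ∀ ε > 0, ∀ᶠ T in l,
      -(B * Real.exp (-(c * a))) - ε ≤ sgn * (D T a - G a) := by
    intro j a ha ε hε
    filter_upwards [hi j a ha (ε / 2) (by linarith), hM1 ε hε, hMe] with T h2 h3 h4
    rw [h4, mul_add]
    have h5 : |sgn * ((Mr T - 1) / 2)| ≤ ε / 2 := by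
      rw [abs_mul, hsgn', one_mul, abs_div, abs_of_pos (by norm_num : (0:ℝ) < 2)]
      linarith
    have h6 := (abs_le.1 h5).1
    linarith
  have hmain := rigidity_windows (l := l) (D := D) (G := G) hDm hGl hDC hDC' hb₀ hgap hB hc hsgn hA hiD
  intro a ha
  have h1 := hmain a ha
  have h2 : Tendsto (fun T => (D T a - G a) - (Mr T - 1) / 2 + gue a) l (𝓝 (gue a)) := by
    have h3 : Tendsto (fun T => (Mr T - 1) / 2) l (𝓝 0) := by
      have := (hM.sub_const 1).div_const 2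
      simpa using this
    have := (h1.sub h3).add_const (gue a)
    simpa using this
  refine h2.congr' ?_
  filter_upwards [hMe] with T hT
  rw [hT]; ring

/-- **Rigidity from sparse windows**, lower bound form. -/
theorem main_lower_windows {l : Filter ℝ} [l.IsCountablyGenerated] (hl : l ≤ atTop) {A : ℕ → ℝ}
    (hA : Tendsto A atTop atTop) {B c : ℝ} (hB : 0 ≤ B) (hc : 0 < c)
    (hi : ∀ j, ∀ a ∈ Icc (A j) (R0 * A j), ∀ ε > 0, ∀ᶠ T in l, gue a - B * Real.exp (-(c * a)) - ε ≤ Lr T a) :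
    Tendsto Mr l (𝓝 1) ∧ ∀ a > 0, Tendsto (fun T => Lr T a) l (𝓝 (gue a)) := by
  have hM := Mr_tendsto_windows hl hA hB hc hi
  refine ⟨hM, Lr_tendsto_of_windows hl hM hA hB hc (Or.inl rfl) ?_⟩
  intro j a ha ε hε
  filter_upwards [hi j a ha ε hε] with T hT
  linarith

end Pool.Agent.PairCorr
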