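import Mathlib
import Pool.Agent.PairCorr.F_Windows

/-!
Spectral gap arguments for functions of polynomial growth (used for `P * H`, `P` a polynomial with
prescribed sign changes).
-/

set_option autoImplicit false

namespace Pool.Agent.PairCorr

open MeasureTheory Filter Topology Set Real

section
variable {H : ℝ → ℝ} {C : ℝ} {p : ℕ}

lemma int_of_boundP (hHm : Measurable H) (hHb : ∀ u, 0 ≤ u → |H u| ≤ C * (1 + u) ^ p) {f : ℝ → ℝ}
    (hf : Continuous f) {K : ℝ} (hfb : ∀ u, 0 ≤ u → (1 + u) ^ (p + 2) * |f u| ≤ K) :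
    IntegrableOn (fun u => f u * H u) (Ioi 0) := by
  refine Integrable.mono' (int_inv_sq.const_mul (K * C)) (hf.measurable.mul hHm).aestronglyMeasurable ?_
  filter_upwards [ae_restrict_mem measurableSet_Ioi] with u hu
  have hu' : (0:ℝ) ≤ u := le_of_lt hu
  have h1 := hfb u hu'
  have h2 := hHb u hu'
  rw [norm_mul, Real.norm_eq_abs, Real.norm_eq_abs]
  have h3 : |f u| ≤ K * ((1 + u) ^ (p + 2))⁻¹ := by
    rw [← div_eq_mul_inv, le_div_iff₀ (by positivity)]; linarith
  calc |f u| * |H u| ≤ (K * ((1 + u) ^ (p + 2))⁻¹) * (C * (1 + u) ^ p) :=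
        mul_le_mul h3 h2 (abs_nonneg _) ((abs_nonneg _).trans h3)
    _ = _ := by rw [pow_add]; field_simp

lemma gg_pow_boundP {e : ℝ} (he : 0 < e) {N : ℕ} (hN : 0 < N) (k p : ℕ) : ∃ K : ℝ, 0 ≤ K ∧
    ∀ u : ℝ, 0 ≤ u → (1 + u) ^ (p + 2) * (u ^ k * gg e N u) ≤ K := by
  obtain ⟨ψ, hψ, hK⟩ := gg_kernel he hN
  obtain ⟨K, hK0, hb⟩ := hψ.line_bound (k + (p + 2))
  refine ⟨K, hK0, fun u hu => ?_⟩
  have h1 := hb u hu
  rw [hK, Complex.norm_real, Real.norm_of_nonneg (gg_nonneg _ _ _)] at h1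
  refine le_trans ?_ h1
  have h2 : u ^ k ≤ (1 + u) ^ k := pow_le_pow_left₀ hu (by linarith) k
  have h3 := gg_nonneg e N u
  calc (1 + u) ^ (p + 2) * (u ^ k * gg e N u) ≤ (1 + u) ^ (p + 2) * ((1 + u) ^ k * gg e N u) := by gcongr
    _ = _ := by rw [pow_add (1 + u) k]; ring

/-- integrability of `f * gg * H` for `f` continuous of polynomial growth -/
lemma int_ggP (hHm : Measurable H) (hHb : ∀ u, 0 ≤ u → |H u| ≤ C * (1 + u) ^ p) {e : ℝ} (he : 0 < e) {N : ℕ}
    (hN : 0 < N) {f : ℝ → ℝ} (hf : Continuous f) {k : ℕ} {L : ℝ} (hL : 0 ≤ L)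
    (hfb : ∀ u, 0 ≤ u → |f u| ≤ L * u ^ k) :
    IntegrableOn (fun u => f u * gg e N u * H u) (Ioi 0) := by
  obtain ⟨K, hK, hb⟩ := gg_pow_boundP he hN k p
  apply int_of_boundP hHm hHb (f := fun u => f u * gg e N u) (hf.mul (gg_cont e N)) (K := L * K)
  intro u hu
  rw [abs_mul, abs_of_nonneg (gg_nonneg _ _ _)]
  have h1 := hfb u hu
  have h2 := hb u hu
  have h3 := gg_nonneg e N u
  calc (1 + u) ^ (p + 2) * (|f u| * gg e N u) ≤ (1 + u) ^ (p + 2) * ((L * u ^ k) * gg e N u) := by gcongr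
    _ = L * ((1 + u) ^ (p + 2) * (u ^ k * gg e N u)) := by ring
    _ ≤ L * K := by gcongr

/-- Taylor at a frequency in the gap. -/
lemma Gap.taylorP {W : ℝ} (hG : Gap H W) (hHm : Measurable H) (hHb : ∀ u, 0 ≤ u → |H u| ≤ C * (1 + u) ^ p)
    {e : ℝ} (he : 0 < e) {N : ℕ} (hN : 0 < N) {ξ : ℝ}
    (hξ : |ξ| + 2 * e ≤ W) {s : ℝ} (hs : 0 ≤ s) :
    |∫ u in Ioi (0:ℝ), Real.sin ((ξ + s) * (2 * π * u)) * gg e N u * H u| ≤
      (2 * π * s) ^ N / N.factorial * ∫ u in Ioi (0:ℝ), u ^ N * gg e N u * |H u| := by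
  set w : ℝ → ℂ := fun u => (2 * π * u : ℝ) * Complex.I with hw
  set a : ℕ → ℝ → ℝ := fun k u => (Complex.exp (ξ * w u) * (w u) ^ k).im with ha
  set ρ : ℝ → ℂ := fun u => Complex.exp (((s * (2 * π * u) : ℝ) : ℂ) * Complex.I) -
    ∑ k ∈ Finset.range N, (((s * (2 * π * u) : ℝ) : ℂ) * Complex.I) ^ k / (k.factorial : ℂ) with hρ
  set r : ℝ → ℝ := fun u => (Complex.exp (ξ * w u) * ρ u).im with hr
  have hac : ∀ k, Continuous (a k) := by
    intro k
    simp only [ha, hw]
    exact Complex.continuous_im.comp (by fun_prop)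
  have hrc : Continuous r := by
    simp only [hr, hw, hρ]
    exact Complex.continuous_im.comp (by fun_prop)
  have hsplit : ∀ u : ℝ, Real.sin ((ξ + s) * (2 * π * u)) =
      ∑ k ∈ Finset.range N, (s ^ k / k.factorial) * a k u + r u := by
    intro u
    have e1 : Real.sin ((ξ + s) * (2 * π * u)) = (Complex.exp (((ξ + s) * (2 * π * u) : ℝ) * Complex.I)).im := by
      rw [Complex.exp_ofReal_mul_I_im]
    have e2 : Complex.exp ((((ξ + s) * (2 * π * u) : ℝ) : ℂ) * Complex.I) =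
        Complex.exp (ξ * w u) * Complex.exp (((s * (2 * π * u) : ℝ) : ℂ) * Complex.I) := by
      rw [← Complex.exp_add]
      congr 1
      simp only [hw]
      push_cast; ring
    have e3 : Complex.exp (((s * (2 * π * u) : ℝ) : ℂ) * Complex.I) =
        ∑ k ∈ Finset.range N, (((s * (2 * π * u) : ℝ) : ℂ) * Complex.I) ^ k / (k.factorial : ℂ) + ρ u := by
      simp only [hρ]; ring
    rw [e1, e2, e3, mul_add, Complex.add_im, Finset.mul_sum, Complex.im_sum]
    congr 1
    apply Finset.sum_congr rfl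
    intro k _
    simp only [ha]
    have e4 : Complex.exp (ξ * w u) * ((((s * (2 * π * u) : ℝ) : ℂ) * Complex.I) ^ k / (k.factorial : ℂ)) =
        ((s ^ k / k.factorial : ℝ) : ℂ) * (Complex.exp (ξ * w u) * (w u) ^ k) := by
      simp only [hw]
      push_cast
      rw [show (s : ℂ) * (2 * π * u) * Complex.I = s * (2 * π * u * Complex.I) by ring, mul_pow]
      ring
    rw [e4, Complex.im_ofReal_mul]
  have hrb : ∀ u, 0 ≤ u → |r u| ≤ (2 * π * s) ^ N / N.factorial * u ^ N := by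
    intro u hu
    simp only [hr]
    refine (Complex.abs_im_le_norm _).trans ?_
    have e1 : (ξ : ℂ) * w u = ((ξ * (2 * π * u) : ℝ) : ℂ) * Complex.I := by
      simp only [hw]; push_cast; ring
    rw [norm_mul, e1, Complex.norm_exp_ofReal_mul_I, one_mul]
    refine (taylor_exp N (s * (2 * π * u)) (by positivity)).trans (le_of_eq ?_)
    rw [show s * (2 * π * u) = (2 * π * s) * u by ring, mul_pow]
    ring
  have hab : ∀ k, ∀ u, 0 ≤ u → |a k u| ≤ (2 * π) ^ k * u ^ k := fun k u hu => kernel_abs_le ξ u hu k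
  have hai : ∀ k, IntegrableOn (fun u => a k u * gg e N u * H u) (Ioi 0) := fun k =>
    int_ggP hHm hHb he hN (hac k) (L := (2 * π) ^ k) (k := k) (by positivity) (hab k)
  have hri : IntegrableOn (fun u => r u * gg e N u * H u) (Ioi 0) :=
    int_ggP hHm hHb he hN hrc (L := (2 * π * s) ^ N / N.factorial) (k := N) (by positivity) hrb
  have hsum : ∫ u in Ioi (0:ℝ), Real.sin ((ξ + s) * (2 * π * u)) * gg e N u * H u =
      ∫ u in Ioi (0:ℝ), r u * gg e N u * H u := by
    have e1 : ∀ u : ℝ, Real.sin ((ξ + s) * (2 * π * u)) * gg e N u * H u =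
        ∑ k ∈ Finset.range N, (s ^ k / k.factorial) * (a k u * gg e N u * H u) + r u * gg e N u * H u := by
      intro u
      rw [hsplit u, add_mul, add_mul, Finset.sum_mul, Finset.sum_mul]
      congr 1
      apply Finset.sum_congr rfl
      intro k _; ring
    simp_rw [e1]
    have hi1 : IntegrableOn (fun u => ∑ k ∈ Finset.range N, (s ^ k / k.factorial) * (a k u * gg e N u * H u)) (Ioi 0) := by
      apply integrable_finsetSum
      intro k _
      exact (hai k).const_mul _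
    rw [integral_add hi1 hri, integral_finsetSum _ (fun k _ => (hai k).const_mul _)]
    have hz : ∀ k ∈ Finset.range N, ∫ u in Ioi (0:ℝ), (s ^ k / k.factorial) * (a k u * gg e N u * H u) = 0 := by
      intro k _
      rw [integral_const_mul]
      have := hG.expPow he hN hξ k
      simp only [ha, hw]
      rw [this, mul_zero]
    rw [Finset.sum_eq_zero hz, zero_add]
  rw [hsum, ← integral_const_mul, ← Real.norm_eq_abs]
  refine (norm_integral_le_integral_norm _).trans ?_
  apply setIntegral_mono_on hri.norm _ measurableSet_Ioi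
  · intro u hu
    have hu' : (0:ℝ) ≤ u := le_of_lt hu
    rw [norm_mul, norm_mul, Real.norm_eq_abs, Real.norm_eq_abs, Real.norm_eq_abs,
      abs_of_nonneg (gg_nonneg e N u)]
    have h1 := hrb u hu'
    have h2 := gg_nonneg e N u
    calc |r u| * gg e N u * |H u| ≤ ((2 * π * s) ^ N / N.factorial * u ^ N) * gg e N u * |H u| := by gcongr
      _ = _ := by ring
  · have h1 : IntegrableOn (fun u => u ^ N * gg e N u * |H u|) (Ioi 0) := by
      refine int_ggP (H := fun u => |H u|) hHm.abs (C := C) (fun u hu => by rw [abs_abs]; exact hHb u hu) he hN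
        (f := fun u => u ^ N) (by fun_prop) (L := 1) (k := N) zero_le_one ?_
      intro u hu
      rw [abs_of_nonneg (by positivity), one_mul]
    exact h1.const_mul _

lemma negPart_boundP (hHb : ∀ u, 0 ≤ u → |H u| ≤ C * (1 + u) ^ p) :
    ∀ u, 0 ≤ u → |max (-H u) 0| ≤ C * (1 + u) ^ p := by
  intro u hu
  have := hHb u hu
  rw [abs_of_nonneg (le_max_right _ _)]
  exact max_le ((neg_le_abs _).trans this) ((abs_nonneg _).trans this)

lemma negPart_intP (hHm : Measurable H) (hHb : ∀ u, 0 ≤ u → |H u| ≤ C * (1 + u) ^ p) {e : ℝ} (he : 0 < e)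
    {N : ℕ} (hN : 0 < N) : IntegrableOn (fun u => u ^ N * gg e N u * max (-H u) 0) (Ioi 0) := by
  refine int_ggP (H := fun u => max (-H u) 0) (hHm.neg.max measurable_const) (C := C) (negPart_boundP hHb) he hN
    (f := fun u => u ^ N) (by fun_prop) (L := 1) (k := N) zero_le_one ?_
  intro u hu
  rw [abs_of_nonneg (by positivity), one_mul]

/-- For odd `N`, the moment `∫ u^N gg |H|` is twice the moment of the negative part. -/
lemma Gap.momentP {W : ℝ} (hG : Gap H W) (hHm : Measurable H) (hHb : ∀ u, 0 ≤ u → |H u| ≤ C * (1 + u) ^ p)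
    {e : ℝ} (he : 0 < e) (hW : 2 * e ≤ W) (m : ℕ) :
    ∫ u in Ioi (0:ℝ), u ^ (2 * m + 1) * gg e (2 * m + 1) u * |H u| =
      2 * ∫ u in Ioi (0:ℝ), u ^ (2 * m + 1) * gg e (2 * m + 1) u * max (-H u) 0 := by
  set N := 2 * m + 1 with hN
  have hN0 : 0 < N := by omega
  have h0 : ∫ u in Ioi (0:ℝ), u ^ N * gg e N u * H u = 0 := by
    have h := hG.expPow he hN0 (ξ := 0) (by simpa using hW) N
    have e1 : ∀ u : ℝ, (Complex.exp (((0:ℝ):ℂ) * ((2 * π * u : ℝ) * Complex.I)) *
        ((2 * π * u : ℝ) * Complex.I) ^ N).im * gg e N u * H u =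
        ((2 * π) ^ N * (-1) ^ m) * (u ^ N * gg e N u * H u) := by
      intro u
      have e2 : (Complex.exp (((0:ℝ):ℂ) * ((2 * π * u : ℝ) * Complex.I)) *
        ((2 * π * u : ℝ) * Complex.I) ^ N).im = (2 * π * u) ^ N * (-1) ^ m := by
        rw [Complex.ofReal_zero, zero_mul, Complex.exp_zero, one_mul, mul_pow]
        have e3 : Complex.I ^ N = (((-1) ^ m : ℝ) : ℂ) * Complex.I := by
          rw [hN, pow_succ, pow_mul, Complex.I_sq]
          push_cast; rfl
        rw [e3, ← Complex.ofReal_pow, ← mul_assoc, ← Complex.ofReal_mul, Complex.im_ofReal_mul,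
          Complex.I_im, mul_one]
      rw [e2, mul_pow]; ring
    simp_rw [e1] at h
    rw [integral_const_mul] at h
    have h2 : ((2 * π) ^ N * (-1) ^ m : ℝ) ≠ 0 := by
      apply mul_ne_zero
      · positivity
      · exact pow_ne_zero _ (by norm_num)
    exact (mul_eq_zero.1 h).resolve_left h2
  have iH : IntegrableOn (fun u => u ^ N * gg e N u * H u) (Ioi 0) := by
    refine int_ggP hHm hHb he hN0 (f := fun u => u ^ N) (by fun_prop) (L := 1) (k := N) zero_le_one ?_
    intro u hu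
    rw [abs_of_nonneg (by positivity), one_mul]
  have iN := negPart_intP hHm hHb he hN0
  have e4 : ∀ u : ℝ, u ^ N * gg e N u * |H u| = u ^ N * gg e N u * H u + 2 * (u ^ N * gg e N u * max (-H u) 0) := by
    intro u
    rcases le_total 0 (H u) with h | h
    · rw [abs_of_nonneg h, max_eq_right (by linarith)]; ring
    · rw [abs_of_nonpos h, max_eq_left (by linarith)]; ring
  simp_rw [e4]
  rw [integral_add iH (iN.const_mul 2), h0, integral_const_mul, zero_add]

/-- bound for the moment of the negative part, with a window `[A, B]`. -/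
lemma neg_momentP (hHm : Measurable H) (hHb : ∀ u, 0 ≤ u → |H u| ≤ C * (1 + u) ^ p)
    {e : ℝ} (he : 0 < e) {N : ℕ} (hN : 2 ≤ N) {A B B0 c C1 : ℝ} (hC1 : 0 ≤ C1) (hA : 0 < A) (hAB : A ≤ B)
    (hB0 : 0 ≤ B0) (hc : 0 < c)
    (h1 : ∀ u, 0 ≤ u → gg e N u * |H u| ≤ C1)
    (hw : ∀ u ∈ Icc A B, gg e N u * max (-H u) 0 ≤ B0 * Real.exp (-(c * u)))
    (ht : ∀ u, B < u → u ^ N * (gg e N u * |H u|) ≤ C1 * 2 ^ N * ((K0 * N / e) ^ (2 * N) / B ^ (N - 2)) * u ^ (-2:ℝ)) :
    ∫ u in Ioi (0:ℝ), u ^ N * gg e N u * max (-H u) 0 ≤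
      C1 * A ^ (N + 1) + B0 * (N.factorial / c ^ (N + 1)) + C1 * 2 ^ N * ((K0 * N / e) ^ (2 * N) / B ^ (N - 1)) := by
  have hB : 0 < B := hA.trans_le hAB
  have hN0 : 0 < N := by omega
  set f1 : ℝ → ℝ := (Iic A).indicator (fun _ => C1 * A ^ N) with hf1
  set f2 : ℝ → ℝ := fun u => B0 * (u ^ N * Real.exp (-(c * u))) with hf2
  set f3 : ℝ → ℝ := (Ioi B).indicator (fun u => C1 * 2 ^ N * ((K0 * N / e) ^ (2 * N) / B ^ (N - 2)) * u ^ (-2:ℝ)) with hf3
  have hK0 := K0_pos
  have i1 : IntegrableOn f1 (Ioi 0) := by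
    rw [hf1, IntegrableOn, integrable_indicator_iff measurableSet_Iic]
    rw [IntegrableOn, Measure.restrict_restrict measurableSet_Iic]
    exact integrableOn_const (by
      rw [Set.inter_comm, Ioi_inter_Iic, Real.volume_Ioc]
      exact ENNReal.ofReal_ne_top)
  have i2 : IntegrableOn f2 (Ioi 0) := (EE_integrable hc N).const_mul _
  have i3 : IntegrableOn f3 (Ioi 0) := by
    have h1 : IntegrableOn (fun u : ℝ => C1 * 2 ^ N * ((K0 * N / e) ^ (2 * N) / B ^ (N - 2)) * u ^ (-2:ℝ)) (Ioi B) :=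
      (integrableOn_Ioi_rpow_of_lt (by norm_num) hB).const_mul _
    have h2 : Integrable f3 := by
      rw [hf3, integrable_indicator_iff measurableSet_Ioi]
      exact h1
    exact h2.integrableOn
  have v1 : ∫ u in Ioi (0:ℝ), f1 u = C1 * A ^ (N + 1) := by
    rw [hf1, setIntegral_indicator measurableSet_Iic, Ioi_inter_Iic, setIntegral_const,
      Real.volume_real_Ioc_of_le hA.le, smul_eq_mul]
    ring
  have v2 : ∫ u in Ioi (0:ℝ), f2 u = B0 * (N.factorial / c ^ (N + 1)) := by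
    rw [hf2, integral_const_mul]
    congr 1
    have h := Real.integral_rpow_mul_exp_neg_mul_Ioi (a := N + 1) (r := c) (by positivity) hc
    rw [show ((N : ℝ) + 1 - 1) = N by ring] at h
    have h2 : ∀ u : ℝ, u ^ N * Real.exp (-(c * u)) = u ^ (N : ℝ) * Real.exp (-(c * u)) := by
      intro u; rw [Real.rpow_natCast]
    simp_rw [h2]
    rw [h, Real.Gamma_nat_eq_factorial, one_div, Real.inv_rpow hc.le]
    rw [show ((N : ℝ) + 1) = ((N + 1 : ℕ) : ℝ) by push_cast; ring, Real.rpow_natCast]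
    field_simp
  have v3 : ∫ u in Ioi (0:ℝ), f3 u = C1 * 2 ^ N * ((K0 * N / e) ^ (2 * N) / B ^ (N - 1)) := by
    rw [hf3, setIntegral_indicator measurableSet_Ioi, Ioi_inter_Ioi, max_eq_right hB.le,
      integral_const_mul, integral_Ioi_rpow_of_lt (by norm_num) hB]
    have e1 : N - 1 = N - 2 + 1 := by omega
    rw [e1, pow_succ, show (-2:ℝ) + 1 = -1 by norm_num, Real.rpow_neg_one]
    field_simp
  rw [← v1, ← v2, ← v3, ← integral_add i1 i2]
  have i12 : IntegrableOn (fun u => f1 u + f2 u) (Ioi 0) := i1.add i2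
  rw [← integral_add i12 i3]
  have iN := negPart_intP hHm hHb he hN0
  apply setIntegral_mono_on iN (i12.add i3) measurableSet_Ioi
  intro u hu
  have hu' : (0:ℝ) < u := hu
  have hneg0 : 0 ≤ max (-H u) 0 := le_max_right _ _
  have hnegH : max (-H u) 0 ≤ |H u| := max_le (neg_le_abs _) (abs_nonneg _)
  have hg0 := gg_nonneg e N u
  have hf1' : 0 ≤ f1 u := indicator_nonneg (fun _ _ => by positivity) _
  have hf2' : 0 ≤ f2 u := by simp only [hf2]; positivity
  have hf3' : 0 ≤ f3 u := indicator_nonneg (fun v hv => by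
    have : (0:ℝ) < v := hB.trans hv
    positivity) _
  have hgneg : gg e N u * max (-H u) 0 ≤ gg e N u * |H u| := by gcongr
  show u ^ N * gg e N u * max (-H u) 0 ≤ f1 u + f2 u + f3 u
  rw [mul_assoc]
  rcases le_or_gt u A with h3 | h3
  · have : u ^ N * (gg e N u * max (-H u) 0) ≤ f1 u := by
      simp only [hf1]
      rw [indicator_of_mem (show u ∈ Iic A from h3)]
      have h4 := hgneg.trans (h1 u hu'.le)
      calc u ^ N * (gg e N u * max (-H u) 0) ≤ A ^ N * C1 := by gcongr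
        _ = _ := by ring
    linarith
  · rcases le_or_gt u B with h2 | h2
    · have : u ^ N * (gg e N u * max (-H u) 0) ≤ f2 u := by
        simp only [hf2]
        have h3 := hw u ⟨h3.le, h2⟩
        calc u ^ N * (gg e N u * max (-H u) 0) ≤ u ^ N * (B0 * Real.exp (-(c * u))) := by gcongr
          _ = _ := by ring
      linarith
    · have : u ^ N * (gg e N u * max (-H u) 0) ≤ f3 u := by
        simp only [hf3]
        rw [indicator_of_mem (show u ∈ Ioi B from h2)]
        refine le_trans ?_ (ht u h2)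
        gcongr
      linarith

lemma small_boundP {e c C A B B0 : ℝ} (he : 0 < e) (hc : 0 < c) (hC : 0 ≤ C) (hA : 0 < A) (hB : 0 < B)
    (hB0 : 0 ≤ B0) (hec : 16 * π * e ≤ c) {N : ℕ} (hN : 2 ≤ N) (h1 : k32 * e * A ≤ N)
    (h2 : k32 * K0 ^ 2 * N ≤ e * B) :
    (8 * π * e) ^ N / N.factorial * (2 * (C * A ^ (N + 1) + B0 * (N.factorial / c ^ (N + 1)) +
      C * 2 ^ N * ((K0 * N / e) ^ (2 * N) / B ^ (N - 1)))) ≤
      2 * ((C * A + C * B + B0 / c) * (1 / 2) ^ N) := by
  have s1 := small_bound (C := C) (B0 := B0) he hc hC hA hB hB0 hec hN h1 h2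
  have s2 := small_bound (C := C * 2 ^ N) (B0 := 0) he hc (by positivity) hA hB le_rfl hec hN h1 h2
  -- extract the three terms separately
  have hN0 : 0 < N := by omega
  have hN' : (0:ℝ) < N := by exact_mod_cast hN0
  have hpi := Real.pi_pos
  have hK0 := K0_pos
  have t1 : (8 * π * e) ^ N / N.factorial * A ^ (N + 1) ≤ A * (1 / 4) ^ N := by
    have e1 : (8 * π * e) ^ N / N.factorial * A ^ (N + 1) = A * ((8 * π * e * A) ^ N / N.factorial) := by
      rw [pow_succ, mul_pow (8 * π * e) A]; ring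
    rw [e1]
    apply mul_le_mul_of_nonneg_left _ hA.le
    refine (pow_div_fact_le (by positivity) hN0).trans ?_
    apply pow_le_pow_left₀ (by positivity)
    rw [div_le_iff₀ hN']
    have : 8 * π * e * A * Real.exp 1 = k32 * e * A / 4 := by unfold k32; ring
    rw [this]; linarith
  have t2 : (8 * π * e) ^ N / N.factorial * (N.factorial / c ^ (N + 1)) ≤ (1 / 2) ^ N / c := by
    have hf : (N.factorial : ℝ) ≠ 0 := by exact_mod_cast Nat.factorial_ne_zero N
    have e1 : (8 * π * e) ^ N / N.factorial * (N.factorial / c ^ (N + 1)) = (8 * π * e / c) ^ N / c := by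
      rw [pow_succ, div_pow]; field_simp
    rw [e1]
    apply div_le_div_of_nonneg_right _ hc.le
    apply pow_le_pow_left₀ (by positivity)
    rw [div_le_iff₀ hc]; linarith
  have t3 : (8 * π * e) ^ N / N.factorial * ((K0 * N / e) ^ (2 * N) / B ^ (N - 1)) ≤ B * (1 / 4) ^ N := by
    have e0 : B ^ N = B ^ (N - 1) * B := by rw [← pow_succ]; congr 1; omega
    have e1 : (8 * π * e) ^ N / N.factorial * ((K0 * N / e) ^ (2 * N) / B ^ (N - 1)) =
        B * ((8 * π * e * (K0 * N / e) ^ 2 / B) ^ N / N.factorial) := by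
      have e1a : (8 * π * e * (K0 * N / e) ^ 2 / B) ^ N =
          (8 * π * e) ^ N * (K0 * N / e) ^ (2 * N) / (B ^ (N - 1) * B) := by
        rw [div_pow, mul_pow (8 * π * e), ← pow_mul, e0]
      rw [e1a]
      field_simp
    rw [e1]
    apply mul_le_mul_of_nonneg_left _ hB.le
    refine (pow_div_fact_le (by positivity) hN0).trans ?_
    apply pow_le_pow_left₀ (by positivity)
    have e2 : 8 * π * e * (K0 * N / e) ^ 2 / B * Real.exp 1 / N = k32 * K0 ^ 2 * N / (e * B) / 4 := by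
      unfold k32; field_simp; ring
    rw [e2]
    have : k32 * K0 ^ 2 * N / (e * B) ≤ 1 := by rw [div_le_one (by positivity)]; exact h2
    linarith
  have e3 : (8 * π * e) ^ N / N.factorial * (2 * (C * A ^ (N + 1) + B0 * (N.factorial / c ^ (N + 1)) +
      C * 2 ^ N * ((K0 * N / e) ^ (2 * N) / B ^ (N - 1)))) =
      2 * (C * ((8 * π * e) ^ N / N.factorial * A ^ (N + 1)) +
        B0 * ((8 * π * e) ^ N / N.factorial * (N.factorial / c ^ (N + 1))) +
        C * 2 ^ N * ((8 * π * e) ^ N / N.factorial * ((K0 * N / e) ^ (2 * N) / B ^ (N - 1)))) := by ring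
  rw [e3]
  have q1 : (1 / 4 : ℝ) ^ N ≤ (1 / 2) ^ N := pow_le_pow_left₀ (by norm_num) (by norm_num) N
  have q2 : (2:ℝ) ^ N * (1 / 4 : ℝ) ^ N = (1 / 2) ^ N := by
    rw [← mul_pow]; norm_num
  have e4 : 2 * ((C * A + C * B + B0 / c) * (1 / 2) ^ N) =
      2 * (C * (A * (1 / 2) ^ N) + B0 * ((1 / 2) ^ N / c) + C * (B * (2 ^ N * (1 / 4) ^ N))) := by
    rw [q2]; ring
  rw [e4]
  have u1 : C * ((8 * π * e) ^ N / N.factorial * A ^ (N + 1)) ≤ C * (A * (1 / 2) ^ N) := by
    apply mul_le_mul_of_nonneg_left _ hC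
    exact t1.trans (mul_le_mul_of_nonneg_left q1 hA.le)
  have u2 : B0 * ((8 * π * e) ^ N / N.factorial * (N.factorial / c ^ (N + 1))) ≤ B0 * ((1 / 2) ^ N / c) :=
    mul_le_mul_of_nonneg_left t2 hB0
  have u3 : C * 2 ^ N * ((8 * π * e) ^ N / N.factorial * ((K0 * N / e) ^ (2 * N) / B ^ (N - 1))) ≤
      C * (B * (2 ^ N * (1 / 4) ^ N)) := by
    calc _ ≤ C * 2 ^ N * (B * (1 / 4) ^ N) := mul_le_mul_of_nonneg_left t3 (by positivity)
      _ = _ := by ring
  linarith

end

end Pool.Agent.PairCorr
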