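import Mathlib
import Pool.Agent.PairCorr.F_Windows

/-!
Gaussian-type bounds for the kernels `gg` and polynomials with prescribed sign changes.
-/

set_option autoImplicit false

namespace Pool.Agent.PairCorr

open MeasureTheory Filter Topology Set Real

/-! ### Upper bounds for `h0` -/

lemma one_sub_h0_eq (x : ℝ) : 1 - h0 x = ∫ v, phi0 v * (1 - Real.cos (v * (2 * π * x))) := by
  have h2 : ∫ v, phi0 v * (1 - Real.cos (v * (2 * π * x))) =
      (∫ v, phi0 v) - ∫ v, phi0 v * Real.cos (v * (2 * π * x)) := by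
    rw [← integral_sub phi0_TF.integrable (phi0_cos_int x)]
    congr 1
    ext v; ring
  rw [h2, phi0_mass]
  rfl

lemma phi0_one_sub_int (x : ℝ) : Integrable (fun v => phi0 v * (1 - Real.cos (v * (2 * π * x)))) := by
  refine ((phi0_TF.integrable).sub (phi0_cos_int x)).congr (Eventually.of_forall fun v => ?_)
  simp only [Pi.sub_apply]; ring

lemma h0_double (x : ℝ) : 1 - h0 (2 * x) ≤ 4 * (1 - h0 x) := by
  rw [one_sub_h0_eq, one_sub_h0_eq, ← integral_const_mul]
  apply integral_mono (phi0_one_sub_int _) ((phi0_one_sub_int _).const_mul _)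
  intro v
  show phi0 v * (1 - Real.cos (v * (2 * π * (2 * x)))) ≤ 4 * (phi0 v * (1 - Real.cos (v * (2 * π * x))))
  have e : v * (2 * π * (2 * x)) = 2 * (v * (2 * π * x)) := by ring
  rw [e, Real.cos_two_mul]
  set y := Real.cos (v * (2 * π * x)) with hy
  have h1 : y ≤ 1 := Real.cos_le_one _
  have h2 : -1 ≤ y := Real.neg_one_le_cos _
  have h3 : 1 - (2 * y ^ 2 - 1) ≤ 4 * (1 - y) := by nlinarith
  calc phi0 v * (1 - (2 * y ^ 2 - 1)) ≤ phi0 v * (4 * (1 - y)) := mul_le_mul_of_nonneg_left h3 (phi0_nonneg v)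
    _ = _ := by ring

lemma h0_double_iter (k : ℕ) (x : ℝ) : 1 - h0 (2 ^ k * x) ≤ 4 ^ k * (1 - h0 x) := by
  induction k with
  | zero => simp
  | succ k ih =>
    have e : (2:ℝ) ^ (k + 1) * x = 2 * (2 ^ k * x) := by rw [pow_succ]; ring
    rw [e]
    refine (h0_double _).trans ?_
    rw [pow_succ]
    nlinarith

lemma h0_sq_le (x : ℝ) : h0 x ^ 2 ≤ (1 + h0 (2 * x)) / 2 := by
  have h1 : 0 ≤ ∫ v, phi0 v * (Real.cos (v * (2 * π * x)) - h0 x) ^ 2 :=
    integral_nonneg fun v => mul_nonneg (phi0_nonneg v) (sq_nonneg _)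
  have h2 : ∫ v, phi0 v * (Real.cos (v * (2 * π * x)) - h0 x) ^ 2 =
      (1 / 2) * (∫ v, phi0 v * Real.cos (v * (2 * π * (2 * x)))) - (2 * h0 x) * (∫ v, phi0 v * Real.cos (v * (2 * π * x))) +
        (1 / 2 + h0 x ^ 2) * ∫ v, phi0 v := by
    rw [← integral_const_mul, ← integral_const_mul, ← integral_const_mul]
    have i1 := (phi0_cos_int (2 * x)).const_mul (1 / 2)
    have i2 := (phi0_cos_int x).const_mul (2 * h0 x)
    have i3 := phi0_TF.integrable.const_mul (1 / 2 + h0 x ^ 2)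
    have i12 : Integrable (fun v => 1 / 2 * (phi0 v * Real.cos (v * (2 * π * (2 * x)))) -
        2 * h0 x * (phi0 v * Real.cos (v * (2 * π * x)))) := i1.sub i2
    rw [← integral_sub i1 i2, ← integral_add i12 i3]
    congr 1
    ext v
    have e : v * (2 * π * (2 * x)) = 2 * (v * (2 * π * x)) := by ring
    rw [e, Real.cos_two_mul]
    ring
  rw [h2, phi0_mass] at h1
  have e1 : ∫ v, phi0 v * Real.cos (v * (2 * π * (2 * x))) = h0 (2 * x) := rfl
  have e2 : ∫ v, phi0 v * Real.cos (v * (2 * π * x)) = h0 x := rfl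
  rw [e1, e2] at h1
  nlinarith

/-- the Gaussian constant -/
noncomputable def c1 : ℝ := 1 / (64 * K0 ^ 2)

lemma c1_pos : 0 < c1 := by unfold c1; have := K0_pos; positivity

lemma one_sub_h0_ge (y : ℝ) : 1 / (32 * K0 ^ 2) * min (y ^ 2) 1 ≤ 1 - h0 y := by
  have hK := one_le_K0
  have hK0 := K0_pos
  have habs := abs_le.1 (abs_h0_le y)
  rcases eq_or_ne y 0 with hy | hy
  · rw [hy, h0_zero]; simp
  have hy0 : 0 < |y| := abs_pos.2 hy
  have hex : ∃ k : ℕ, 2 * K0 ≤ 2 ^ k * |y| := by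
    obtain ⟨k, hk⟩ := pow_unbounded_of_one_lt (2 * K0 / |y|) (by norm_num : (1:ℝ) < 2)
    refine ⟨k, ?_⟩
    rw [div_lt_iff₀ hy0] at hk
    exact hk.le
  classical
  set k := Nat.find hex with hk
  have hk1 : 2 * K0 ≤ 2 ^ k * |y| := Nat.find_spec hex
  have h1 := h0_double_iter k y
  have h2 : h0 (2 ^ k * y) ≤ 1 / 2 := by
    have h3 := h0_decay (2 ^ k * y)
    rw [abs_mul, abs_of_pos (by positivity : (0:ℝ) < 2 ^ k)] at h3
    have h4 : (2 * K0) * |h0 (2 ^ k * y)| ≤ K0 := by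
      refine le_trans ?_ h3
      exact mul_le_mul_of_nonneg_right hk1 (abs_nonneg _)
    have h5 : |h0 (2 ^ k * y)| ≤ 1 / 2 := by
      by_contra hcon
      push Not at hcon
      nlinarith
    exact (le_abs_self _).trans h5
  have h4k : (0:ℝ) < 4 ^ k := by positivity
  have h6 : 1 / 2 / 4 ^ k ≤ 1 - h0 y := by
    rw [div_le_iff₀ h4k]; nlinarith
  refine le_trans ?_ h6
  rcases Nat.eq_zero_or_pos k with hk0 | hkpos
  · rw [hk0, pow_zero, div_one]
    have h7 : min (y ^ 2) 1 ≤ 1 := min_le_right _ _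
    have h8 : 0 ≤ min (y ^ 2) 1 := le_min (sq_nonneg _) zero_le_one
    have h9 : 1 / (32 * K0 ^ 2) ≤ 1 / 2 := by
      apply one_div_le_one_div_of_le (by norm_num)
      nlinarith [one_le_pow₀ hK (n := 2)]
    calc 1 / (32 * K0 ^ 2) * min (y ^ 2) 1 ≤ 1 / 2 * 1 := by gcongr
      _ = _ := by norm_num
  · have h7 : ¬ (2 * K0 ≤ 2 ^ (k - 1) * |y|) := Nat.find_min hex (by omega)
    push Not at h7
    have h8 : (2:ℝ) ^ k = 2 * 2 ^ (k - 1) := by
      rw [← pow_succ']; congr 1; omega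
    have h9 : 2 ^ k * |y| ≤ 4 * K0 := by rw [h8]; linarith
    have h10 : (4:ℝ) ^ k * y ^ 2 ≤ 16 * K0 ^ 2 := by
      have : (4:ℝ) ^ k * y ^ 2 = (2 ^ k * |y|) ^ 2 := by
        rw [mul_pow, sq_abs, ← pow_mul, mul_comm k 2, pow_mul]; norm_num
      rw [this]
      calc (2 ^ k * |y|) ^ 2 ≤ (4 * K0) ^ 2 := by gcongr
        _ = _ := by ring
    have h11 : min (y ^ 2) 1 ≤ y ^ 2 := min_le_left _ _
    calc 1 / (32 * K0 ^ 2) * min (y ^ 2) 1 ≤ 1 / (32 * K0 ^ 2) * y ^ 2 := by gcongr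
      _ ≤ 1 / 2 / 4 ^ k := by
        rw [le_div_iff₀ h4k, div_mul_eq_mul_div, div_mul_eq_mul_div, div_le_iff₀ (by positivity)]
        nlinarith

lemma h0_sq_exp (x : ℝ) : h0 x ^ 2 ≤ Real.exp (-(c1 * min (x ^ 2) 1)) := by
  have h1 := h0_sq_le x
  have h2 := one_sub_h0_ge (2 * x)
  have hK0 := K0_pos
  have h3 : min (x ^ 2) 1 ≤ min ((2 * x) ^ 2) 1 := by
    apply min_le_min _ le_rfl
    nlinarith [sq_nonneg x]
  have h4 : c1 * min (x ^ 2) 1 ≤ 1 / 2 * (1 / (32 * K0 ^ 2) * min ((2 * x) ^ 2) 1) := by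
    have e : 1 / 2 * (1 / (32 * K0 ^ 2) * min ((2 * x) ^ 2) 1) = c1 * min ((2 * x) ^ 2) 1 := by
      unfold c1; field_simp; ring
    rw [e]
    exact mul_le_mul_of_nonneg_left h3 c1_pos.le
  have h5 := Real.add_one_le_exp (-(c1 * min (x ^ 2) 1))
  linarith

lemma gg_exp (e : ℝ) (N : ℕ) (u : ℝ) : gg e N u ≤ Real.exp (-(c1 * N * min ((e * u / N) ^ 2) 1)) := by
  unfold gg
  rw [pow_mul]
  calc (h0 (e * u / N) ^ 2) ^ N ≤ Real.exp (-(c1 * min ((e * u / N) ^ 2) 1)) ^ N :=
        pow_le_pow_left₀ (sq_nonneg _) (h0_sq_exp _) N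
    _ = _ := by rw [← Real.exp_nat_mul]; congr 1; ring

/-! ### Polynomials with prescribed sign changes -/

/-- the even polynomial with sign changes at the points of `E`. -/
noncomputable def PE (E : Finset ℝ) (u : ℝ) : ℝ := ∏ x ∈ E, (1 - u ^ 2 / x ^ 2)

/-- the sign, switching at the points of `E` -/
noncomputable def sgnE (E : Finset ℝ) (u : ℝ) : ℝ := (-1) ^ (E.filter (· < u)).card

lemma sgnE_abs (E : Finset ℝ) (u : ℝ) : |sgnE E u| = 1 := by
  unfold sgnE; rw [abs_pow, abs_neg, abs_one, one_pow]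

lemma PE_cont (E : Finset ℝ) : Continuous (PE E) := by
  unfold PE
  apply continuous_finsetProd
  intro x _
  fun_prop

lemma PE_mul_sgnE_nonneg (E : Finset ℝ) (hE : ∀ x ∈ E, 0 < x) {u : ℝ} (hu : 0 ≤ u) : 0 ≤ PE E u * sgnE E u := by
  classical
  induction E using Finset.induction_on with
  | empty => unfold PE sgnE; simp
  | insert a s ha ih =>
    have ih' := ih (fun x hx => hE x (Finset.mem_insert_of_mem hx))
    have ha0 : 0 < a := hE a (Finset.mem_insert_self _ _)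
    have hP : PE (insert a s) u = (1 - u ^ 2 / a ^ 2) * PE s u := by
      unfold PE; rw [Finset.prod_insert ha]
    rw [hP]
    by_cases h : a < u
    · have hs : sgnE (insert a s) u = - sgnE s u := by
        unfold sgnE
        rw [Finset.filter_insert, if_pos h, Finset.card_insert_of_notMem (fun hmem => ha (Finset.mem_filter.1 hmem).1),
          pow_succ]
        ring
      have h2 : 1 - u ^ 2 / a ^ 2 ≤ 0 := by
        rw [sub_nonpos, one_le_div (by positivity)]
        nlinarith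
      rw [hs]
      nlinarith
    · have hs : sgnE (insert a s) u = sgnE s u := by
        unfold sgnE
        rw [Finset.filter_insert, if_neg h]
      have h2 : 0 ≤ 1 - u ^ 2 / a ^ 2 := by
        rw [sub_nonneg, div_le_one (by positivity)]
        push Not at h
        nlinarith
      rw [hs, mul_assoc]
      exact mul_nonneg h2 ih'

lemma PE_eq (E : Finset ℝ) (hE : ∀ x ∈ E, 0 < x) {u : ℝ} (hu : 0 ≤ u) : PE E u = |PE E u| * sgnE E u := by
  have h1 := PE_mul_sgnE_nonneg E hE hu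
  have h2 := sgnE_abs E u
  have h3 : |PE E u| = PE E u * sgnE E u := by
    rw [← abs_of_nonneg h1, abs_mul, h2, mul_one]
  have h4 : sgnE E u * sgnE E u = 1 := by
    have := abs_mul_abs_self (sgnE E u)
    rw [h2] at this; linarith
  rw [h3, mul_assoc, h4, mul_one]

lemma PE_abs_le (E : Finset ℝ) {A : ℝ} (hA : 0 < A) (hE : ∀ x ∈ E, A ≤ x) (u : ℝ) :
    |PE E u| ≤ (1 + u ^ 2 / A ^ 2) ^ E.card := by
  unfold PE
  rw [Finset.abs_prod]
  have h1 : ∏ x ∈ E, |1 - u ^ 2 / x ^ 2| ≤ ∏ _x ∈ E, (1 + u ^ 2 / A ^ 2) := by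
    apply Finset.prod_le_prod
    · intro x _; exact abs_nonneg _
    · intro x hx
      have hxA := hE x hx
      have h2 : u ^ 2 / x ^ 2 ≤ u ^ 2 / A ^ 2 := by
        apply div_le_div_of_nonneg_left (sq_nonneg _) (by positivity)
        exact pow_le_pow_left₀ hA.le hxA 2
      have h3 : 0 ≤ u ^ 2 / x ^ 2 := by positivity
      rw [abs_le]
      constructor <;> linarith
  refine h1.trans ?_
  rw [Finset.prod_const]

/-- multiplication by `PE` preserves the gap. -/
lemma Gap.mulPE {H : ℝ → ℝ} {W : ℝ} (hG : Gap H W) (E : Finset ℝ) :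
    Gap (fun u => PE E u * H u) W := by
  classical
  induction E using Finset.induction_on with
  | empty =>
    intro φ hφ
    refine Eq.trans ?_ (hG φ hφ)
    congr 1
    ext u
    unfold PE; simp
  | insert a s ha ih =>
    intro φ hφ
    obtain ⟨ψ, hψ, hK⟩ := hφ.pow_mul 2
    have hχ : TF (fun v => φ v + (1 / (4 * π ^ 2 * a ^ 2)) * ψ v) W := hφ.add (hψ.const_mul _)
    refine Eq.trans ?_ (ih _ hχ)
    apply integral_congr_ae
    refine Eventually.of_forall fun u => ?_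
    beta_reduce
    have hP : PE (insert a s) u = (1 - u ^ 2 / a ^ 2) * PE s u := by
      unfold PE; rw [Finset.prod_insert ha]
    have e1 : Kc (fun v => φ v + (1 / (4 * π ^ 2 * a ^ 2)) * ψ v) ((2 * π * u : ℝ) * Complex.I) =
        ((1 - u ^ 2 / a ^ 2 : ℝ) : ℂ) * Kc φ ((2 * π * u : ℝ) * Complex.I) := by
      have e2 : Kc (fun v => φ v + (1 / (4 * π ^ 2 * a ^ 2)) * ψ v) ((2 * π * u : ℝ) * Complex.I) =
          Kc φ ((2 * π * u : ℝ) * Complex.I) + ((1 / (4 * π ^ 2 * a ^ 2) : ℝ) : ℂ) * Kc ψ ((2 * π * u : ℝ) * Complex.I) := by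
        rw [← Kc_const_mul]
        unfold Kc
        rw [← integral_add (hφ.integrable_exp _) ((hψ.const_mul _).integrable_exp _)]
        congr 1
        ext v
        push_cast
        ring
      rw [e2, hK]
      have hI : Complex.I ^ 2 = -1 := Complex.I_sq
      have hpi : (π : ℂ) ≠ 0 := by exact_mod_cast Real.pi_ne_zero
      rcases eq_or_ne a 0 with ha0 | ha0
      · rw [ha0]; simp
      · have ha' : (a : ℂ) ≠ 0 := by exact_mod_cast ha0
        push_cast
        field_simp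
        rw [hI]
        ring
    rw [e1, Complex.im_ofReal_mul, hP]
    ring

end Pool.Agent.PairCorr
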