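import Mathlib
import Pool.Agent.PairCorr.F_SignMoment
import Pool.Agent.PairCorr.F_SignPoly

/-!
Uniqueness for functions with a spectral gap and few sign changes on windows.
-/

set_option autoImplicit false

namespace Pool.Agent.PairCorr

open MeasureTheory Filter Topology Set Real

/-- the exponent with `2 R0² ≤ 2 ^ q0` -/
noncomputable def q0 : ℕ := ⌈2 * R0 ^ 2⌉₊

lemma q0_spec : 2 * R0 ^ 2 ≤ 2 ^ q0 := by
  have h1 : 2 * R0 ^ 2 ≤ (q0 : ℝ) := Nat.le_ceil _
  have h2 : (q0 : ℝ) < 2 ^ q0 := by exact_mod_cast Nat.lt_two_pow_self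
  linarith

lemma one_le_q0 : 1 ≤ q0 := by
  have h1 : 2 * R0 ^ 2 ≤ (q0 : ℝ) := Nat.le_ceil _
  have h2 := one_lt_R0
  have h3 : (1:ℝ) < (q0 : ℝ) := by nlinarith
  have : 1 < q0 := by exact_mod_cast h3
  omega

/-- the numerical conditions linking the number `n` of sign changes and the order `N` -/
structure NCond (e A : ℝ) (N n : ℕ) : Prop where
  c2 : 2 ≤ N
  ca : (n : ℝ) * N ≤ c1 * (e ^ 2 * A ^ 2)
  cb : (n : ℝ) * R0 ^ 2 ≤ c1 * N
  cc : n * q0 ≤ N
  cd : 2 * n + 2 ≤ N
  ce : k32 * K0 ^ 2 * N ≤ e * (R0 * A)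

lemma one_le_k32 : 1 ≤ k32 := by
  unfold k32
  have := Real.pi_gt_three
  have := Real.exp_one_gt_d9
  nlinarith

lemma two_le_k32 : 2 ≤ k32 := by
  unfold k32
  have := Real.pi_gt_three
  have := Real.exp_one_gt_d9
  nlinarith

section
variable {e A : ℝ} {N : ℕ} {E : Finset ℝ}

lemma NCond.ratio (h : NCond e A N E.card) (he : 0 < e) (hA : 0 < A) :
    K0 * N / (e * (R0 * A)) ≤ 1 / 2 := by
  have hk := two_le_k32
  have hK := one_le_K0
  have hR := one_lt_R0
  have hN : (0:ℝ) < N := by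
    have := h.c2
    have : 0 < N := by omega
    exact_mod_cast this
  rw [div_le_iff₀ (by positivity)]
  have h1 := h.ce
  have h2 : 2 * (K0 * N) ≤ k32 * K0 ^ 2 * N := by
    have : 2 * K0 ≤ k32 * K0 ^ 2 := by nlinarith
    calc 2 * (K0 * N) = (2 * K0) * N := by ring
      _ ≤ (k32 * K0 ^ 2) * N := mul_le_mul_of_nonneg_right this hN.le
  linarith

/-- the tail bound -/
lemma NCond.tail (h : NCond e A N E.card) (he : 0 < e) (hA : 0 < A) (hE : ∀ x ∈ E, A ≤ x) {u : ℝ}
    (hu : R0 * A < u) : gg e N u * |PE E u| ≤ 2 ^ N * (K0 * N / (e * u)) ^ (2 * N) * (u / (R0 * A)) ^ (2 * E.card) := by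
  set n := E.card with hn
  have hR := one_lt_R0
  have hB : 0 < R0 * A := by positivity
  have hu0 : 0 < u := hB.trans hu
  have hAu : A ≤ u := by nlinarith
  have hN0 : 0 < N := by have := h.c2; omega
  have h1 := gg_decay he hN0 hu0
  have h2 := PE_abs_le E hA hE u
  have h3 : 1 + u ^ 2 / A ^ 2 ≤ 2 * R0 ^ 2 * (u / (R0 * A)) ^ 2 := by
    have e1 : 2 * R0 ^ 2 * (u / (R0 * A)) ^ 2 = 2 * (u ^ 2 / A ^ 2) := by field_simp
    rw [e1]
    have : 1 ≤ u ^ 2 / A ^ 2 := by
      rw [one_le_div (by positivity)]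
      exact pow_le_pow_left₀ hA.le hAu 2
    linarith
  have h4 : (1 + u ^ 2 / A ^ 2) ^ n ≤ 2 ^ N * (u / (R0 * A)) ^ (2 * n) := by
    calc (1 + u ^ 2 / A ^ 2) ^ n ≤ (2 * R0 ^ 2 * (u / (R0 * A)) ^ 2) ^ n :=
          pow_le_pow_left₀ (by positivity) h3 n
      _ = (2 * R0 ^ 2) ^ n * (u / (R0 * A)) ^ (2 * n) := by rw [mul_pow, ← pow_mul]
      _ ≤ (2 ^ q0) ^ n * (u / (R0 * A)) ^ (2 * n) := by
          have := q0_spec
          gcongr
      _ = 2 ^ (n * q0) * (u / (R0 * A)) ^ (2 * n) := by rw [← pow_mul, mul_comm q0 n]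
      _ ≤ _ := by
          have := h.cc
          gcongr
          norm_num
  calc gg e N u * |PE E u| ≤ (K0 * N / (e * u)) ^ (2 * N) * (2 ^ N * (u / (R0 * A)) ^ (2 * n)) := by
        apply mul_le_mul h1 (h2.trans h4) (abs_nonneg _) (by have := K0_pos; positivity)
    _ = _ := by ring

/-- the kernel times the polynomial is bounded by one. -/
lemma NCond.le_one (h : NCond e A N E.card) (he : 0 < e) (hA : 0 < A) (hE : ∀ x ∈ E, A ≤ x) {u : ℝ}
    (hu0 : 0 ≤ u) : gg e N u * |PE E u| ≤ 1 := by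
  set n := E.card with hn
  have hR := one_lt_R0
  have hB : 0 < R0 * A := by positivity
  have hN0 : 0 < N := by have := h.c2; omega
  have hN' : (0:ℝ) < N := by exact_mod_cast hN0
  have h2 := PE_abs_le E hA hE u
  have hg := gg_exp e N u
  rcases le_or_gt u (R0 * A) with h1 | h1
  · rcases le_or_gt (e * u) N with h3 | h3
    · -- Gaussian range
      have h4 : min ((e * u / N) ^ 2) 1 = (e * u / N) ^ 2 := by
        apply min_eq_left
        apply pow_le_one₀ (by positivity)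
        rw [div_le_one hN']; exact h3
      rw [h4] at hg
      have h5 : (1 + u ^ 2 / A ^ 2) ^ n ≤ Real.exp (n * (u ^ 2 / A ^ 2)) := by
        rw [Real.exp_nat_mul]
        apply pow_le_pow_left₀ (by positivity)
        have := Real.add_one_le_exp (u ^ 2 / A ^ 2)
        linarith
      calc gg e N u * |PE E u| ≤ Real.exp (-(c1 * N * (e * u / N) ^ 2)) * Real.exp (n * (u ^ 2 / A ^ 2)) :=
            mul_le_mul hg (h2.trans h5) (abs_nonneg _) (Real.exp_pos _).le
        _ = Real.exp (n * (u ^ 2 / A ^ 2) - c1 * N * (e * u / N) ^ 2) := by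
            rw [← Real.exp_add]; congr 1; ring
        _ ≤ 1 := by
            rw [Real.exp_le_one_iff, sub_nonpos]
            have e1 : c1 * N * (e * u / N) ^ 2 = (c1 * (e ^ 2 * A ^ 2)) * (u ^ 2 / A ^ 2) / N := by field_simp
            rw [e1, le_div_iff₀ hN']
            have := h.ca
            have h6 : 0 ≤ u ^ 2 / A ^ 2 := by positivity
            calc (n:ℝ) * (u ^ 2 / A ^ 2) * N = (n * N) * (u ^ 2 / A ^ 2) := by ring
              _ ≤ (c1 * (e ^ 2 * A ^ 2)) * (u ^ 2 / A ^ 2) := mul_le_mul_of_nonneg_right this h6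
    · have h4 : min ((e * u / N) ^ 2) 1 = 1 := by
        apply min_eq_right
        apply one_le_pow₀
        rw [le_div_iff₀ hN']; linarith
      rw [h4, mul_one] at hg
      have h5 : (1 + u ^ 2 / A ^ 2) ^ n ≤ Real.exp (n * R0 ^ 2) := by
        rw [Real.exp_nat_mul]
        apply pow_le_pow_left₀ (by positivity)
        have h6 := Real.add_one_le_exp (R0 ^ 2)
        have h7 : u ^ 2 / A ^ 2 ≤ R0 ^ 2 := by
          rw [div_le_iff₀ (by positivity), ← mul_pow]
          exact pow_le_pow_left₀ hu0 h1 2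
        linarith
      calc gg e N u * |PE E u| ≤ Real.exp (-(c1 * N)) * Real.exp (n * R0 ^ 2) :=
            mul_le_mul hg (h2.trans h5) (abs_nonneg _) (Real.exp_pos _).le
        _ = Real.exp (n * R0 ^ 2 - c1 * N) := by rw [← Real.exp_add]; congr 1; ring
        _ ≤ 1 := by
            rw [Real.exp_le_one_iff, sub_nonpos]
            exact h.cb
  · have hu' : 0 < u := hB.trans h1
    refine (h.tail he hA hE h1).trans ?_
    have h3 := h.ratio he hA
    set t := R0 * A / u with ht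
    have ht0 : 0 < t := by positivity
    have ht1 : t ≤ 1 := by rw [ht, div_le_one hu']; exact h1.le
    have e1 : K0 * N / (e * u) = K0 * N / (e * (R0 * A)) * t := by
      rw [ht]; field_simp
    have e2 : u / (R0 * A) = t⁻¹ := by rw [ht, inv_div]
    have hcd := h.cd
    have hsplit : 2 * N = 2 * n + (2 * N - 2 * n) := by omega
    rw [e1, e2]
    have hK := K0_pos
    calc 2 ^ N * (K0 * N / (e * (R0 * A)) * t) ^ (2 * N) * t⁻¹ ^ (2 * n)
        = 2 ^ N * (K0 * N / (e * (R0 * A))) ^ (2 * N) * (t ^ (2 * N) * t⁻¹ ^ (2 * n)) := by rw [mul_pow]; ring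
      _ = 2 ^ N * (K0 * N / (e * (R0 * A))) ^ (2 * N) * t ^ (2 * N - 2 * n) := by
          congr 1
          rw [hsplit, pow_add, inv_pow]
          have : t ^ (2 * n) ≠ 0 := by positivity
          rw [show 2 * n + (2 * N - 2 * n) - 2 * n = 2 * N - 2 * n by omega]
          field_simp
      _ ≤ 2 ^ N * (1 / 2) ^ (2 * N) * 1 := by
          gcongr
          exact pow_le_one₀ ht0.le ht1
      _ = (1 / 2 : ℝ) ^ N := by
          rw [mul_one, two_mul, pow_add, ← mul_assoc, ← mul_pow]; norm_num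
      _ ≤ 1 := pow_le_one₀ (by norm_num) (by norm_num)

end

section
variable {H : ℝ → ℝ} {C : ℝ}

lemma PEH_bound (hHb : ∀ u, 0 ≤ u → |H u| ≤ C) {E : Finset ℝ} {A : ℝ} (hA : 0 < A) (hE : ∀ x ∈ E, A ≤ x)
    {s : ℝ} (hs : |s| = 1) :
    ∀ u, 0 ≤ u → |s * (PE E u * H u)| ≤ C * (1 + 1 / A ^ 2) ^ E.card * (1 + u) ^ (2 * E.card) := by
  intro u hu
  have hC0 : 0 ≤ C := (abs_nonneg _).trans (hHb 0 le_rfl)
  rw [abs_mul, hs, one_mul, abs_mul]
  have h1 := PE_abs_le E hA hE u
  have h2 : 1 + u ^ 2 / A ^ 2 ≤ (1 + 1 / A ^ 2) * (1 + u) ^ 2 := by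
    have h3 : 0 ≤ 1 / A ^ 2 := by positivity
    have e1 : u ^ 2 / A ^ 2 = (1 / A ^ 2) * u ^ 2 := by ring
    rw [e1]
    nlinarith [mul_nonneg h3 hu, sq_nonneg u]
  have h3 : (1 + u ^ 2 / A ^ 2) ^ E.card ≤ (1 + 1 / A ^ 2) ^ E.card * (1 + u) ^ (2 * E.card) := by
    calc (1 + u ^ 2 / A ^ 2) ^ E.card ≤ ((1 + 1 / A ^ 2) * (1 + u) ^ 2) ^ E.card :=
          pow_le_pow_left₀ (by positivity) h2 _
      _ = _ := by rw [mul_pow, ← pow_mul]
  calc |PE E u| * |H u| ≤ ((1 + 1 / A ^ 2) ^ E.card * (1 + u) ^ (2 * E.card)) * C :=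
        mul_le_mul (h1.trans h3) (hHb u hu) (abs_nonneg _) (by positivity)
    _ = _ := by ring

lemma Gap.smul {W : ℝ} (hG : Gap H W) (s : ℝ) : Gap (fun u => s * H u) W := by
  intro φ hφ
  have e : ∀ u : ℝ, (Kc φ ((2 * π * u : ℝ) * Complex.I)).im * (s * H u) =
      s * ((Kc φ ((2 * π * u : ℝ) * Complex.I)).im * H u) := fun u => by ring
  simp_rw [e]
  rw [integral_const_mul, hG φ hφ, mul_zero]

/-- the sine transform of `gg P H` is small up to `W + 2 e`. -/
lemma window_boundP {W : ℝ} (hG : Gap H W) (hHm : Measurable H) (hHb : ∀ u, 0 ≤ u → |H u| ≤ C)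
    {e c A B0 : ℝ} (he : 0 < e) (hW : 2 * e ≤ W) (hc : 0 < c) (hA : 0 < A)
    (hB0 : 0 ≤ B0) (hec : 16 * π * e ≤ c) {E : Finset ℝ} (hE : ∀ x ∈ E, A ≤ x) {s : ℝ} (hs : |s| = 1)
    (hw : ∀ u ∈ Icc A (R0 * A), -(B0 * Real.exp (-(c * u))) ≤ s * (sgnE E u * H u))
    {m : ℕ} (hN : NCond e A (2 * m + 1) E.card) (h1 : k32 * e * A ≤ (2 * m + 1 : ℕ))
    {v : ℝ} (hv : |v| ≤ W + 2 * e) :
    |∫ u in Ioi (0:ℝ), Real.sin (v * (2 * π * u)) * gg e (2 * m + 1) u * (s * (PE E u * H u))| ≤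
      2 * ((C * A + C * (R0 * A) + B0 / c) * (1 / 2) ^ (2 * m + 1)) := by
  have hC0 : 0 ≤ C := (abs_nonneg _).trans (hHb 0 le_rfl)
  have hR := one_lt_R0
  have hB : 0 < R0 * A := by positivity
  have hAB : A ≤ R0 * A := le_mul_of_one_le_left hA.le hR.le
  have hE0 : ∀ x ∈ E, 0 < x := fun x hx => hA.trans_le (hE x hx)
  set N := 2 * m + 1 with hNdef
  have hN2 : 2 ≤ N := hN.c2
  have hN0 : 0 < N := by omega
  set F : ℝ → ℝ := fun u => s * (PE E u * H u) with hF
  have hFG : Gap F W := (hG.mulPE E).smul s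
  have hFm : Measurable F := ((PE_cont E).measurable.mul hHm).const_mul s
  have hFb : ∀ u, 0 ≤ u → |F u| ≤ C * (1 + 1 / A ^ 2) ^ E.card * (1 + u) ^ (2 * E.card) :=
    PEH_bound hHb hA hE hs
  set δ := 2 * ((C * A + C * (R0 * A) + B0 / c) * (1 / 2) ^ N) with hδ
  have hδ0 : 0 ≤ δ := by positivity
  have hsm := small_boundP he hc hC0 hA hB hB0 hec hN2 h1 hN.ce
  have habsF : ∀ u, |F u| = |PE E u| * |H u| := by
    intro u; simp only [hF]; rw [abs_mul, hs, one_mul, abs_mul]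
  have hneg := neg_momentP (H := F) hFm hFb he hN2 (A := A) (B := R0 * A) (B0 := B0) (c := c) (C1 := C) hC0 hA hAB hB0 hc
    (by
      intro u hu
      rw [habsF, ← mul_assoc]
      have h2 := hN.le_one he hA hE hu
      have h3 := gg_nonneg e N u
      calc gg e N u * |PE E u| * |H u| ≤ 1 * C :=
            mul_le_mul h2 (hHb u hu) (abs_nonneg _) zero_le_one
        _ = C := one_mul C)
    (by
      intro u hu
      have hu0 : 0 ≤ u := hA.le.trans hu.1
      have h2 := hN.le_one he hA hE hu0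
      have h3 := gg_nonneg e N u
      have h4 := hw u hu
      have h5 : -(|PE E u| * (B0 * Real.exp (-(c * u)))) ≤ F u := by
        have e7 : s * (PE E u * H u) = |PE E u| * (s * (sgnE E u * H u)) := by
          conv_lhs => rw [PE_eq E hE0 hu0]
          ring
        have h6 := mul_le_mul_of_nonneg_left h4 (abs_nonneg (PE E u))
        simp only [hF]
        rw [e7]
        calc -(|PE E u| * (B0 * Real.exp (-(c * u)))) = |PE E u| * -(B0 * Real.exp (-(c * u))) := by ring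
          _ ≤ |PE E u| * (s * (sgnE E u * H u)) := h6
      have h7 : max (-F u) 0 ≤ |PE E u| * (B0 * Real.exp (-(c * u))) :=
        max_le (by linarith) (by positivity)
      calc gg e N u * max (-F u) 0 ≤ gg e N u * (|PE E u| * (B0 * Real.exp (-(c * u)))) := by gcongr
        _ = (gg e N u * |PE E u|) * (B0 * Real.exp (-(c * u))) := by ring
        _ ≤ 1 * (B0 * Real.exp (-(c * u))) := by gcongr
        _ = _ := one_mul _)
    (by
      intro u hu
      have hu0 : 0 < u := hB.trans hu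
      rw [habsF]
      have h2 := hN.tail he hA hE hu
      have h3 := hHb u hu0.le
      have hK := K0_pos
      have hcd := hN.cd
      set n := E.card with hn
      set t := R0 * A / u with ht
      have ht0 : 0 < t := by positivity
      have ht1 : t ≤ 1 := by rw [ht, div_le_one hu0]; exact hu.le
      have e2 : u / (R0 * A) = t⁻¹ := by rw [ht, inv_div]
      have e4 : u ^ (-2:ℝ) = (u ^ 2)⁻¹ := by
        rw [Real.rpow_neg hu0.le, show (2:ℝ) = ((2:ℕ):ℝ) by norm_num, Real.rpow_natCast]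
      have e5 : u ^ N * (K0 * N / (e * u)) ^ (2 * N) = (K0 * N / e) ^ (2 * N) / u ^ N := by
        have e1 : (K0 * N / (e * u)) ^ (2 * N) = (K0 * N / e) ^ (2 * N) / (u ^ N * u ^ N) := by
          rw [← pow_add, ← two_mul, ← div_pow, div_div]
        rw [e1]; field_simp
      have e6 : (1:ℝ) / u ^ N * t⁻¹ ^ (2 * n) ≤ 1 / (R0 * A) ^ (N - 2) * (u ^ 2)⁻¹ := by
        have e7 : u ^ N = u ^ (N - 2) * u ^ 2 := by rw [← pow_add]; congr 1; omega
        have e8 : (R0 * A) ^ (N - 2) = t ^ (N - 2) * u ^ (N - 2) := by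
          rw [← mul_pow]; congr 1; rw [ht]; field_simp
        have e9 : t ^ (N - 2) = t ^ (N - 2 - 2 * n) * t ^ (2 * n) := by
          rw [← pow_add]; congr 1; omega
        rw [e7, e8, e9, inv_pow]
        have h8 : t ^ (N - 2 - 2 * n) ≤ 1 := pow_le_one₀ ht0.le ht1
        have h9 : 0 < t ^ (N - 2 - 2 * n) := by positivity
        rw [show (1:ℝ) / (u ^ (N - 2) * u ^ 2) * (t ^ (2 * n))⁻¹ = (1 / (u ^ (N - 2) * u ^ 2 * t ^ (2 * n))) by
          field_simp]
        rw [show (1:ℝ) / (t ^ (N - 2 - 2 * n) * t ^ (2 * n) * u ^ (N - 2)) * (u ^ 2)⁻¹ =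
          (1 / (u ^ (N - 2) * u ^ 2 * t ^ (2 * n))) * (1 / t ^ (N - 2 - 2 * n)) by field_simp]
        apply le_mul_of_one_le_right (by positivity)
        rw [le_div_iff₀ h9]; linarith
      calc u ^ N * (gg e N u * (|PE E u| * |H u|)) = u ^ N * (gg e N u * |PE E u|) * |H u| := by ring
        _ ≤ u ^ N * (2 ^ N * (K0 * N / (e * u)) ^ (2 * N) * (u / (R0 * A)) ^ (2 * n)) * C := by gcongr
        _ = C * 2 ^ N * (u ^ N * (K0 * N / (e * u)) ^ (2 * N)) * (u / (R0 * A)) ^ (2 * n) := by ring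
        _ = C * 2 ^ N * (K0 * N / e) ^ (2 * N) * ((1:ℝ) / u ^ N * t⁻¹ ^ (2 * n)) := by
            rw [e5, e2]; ring
        _ ≤ C * 2 ^ N * (K0 * N / e) ^ (2 * N) * (1 / (R0 * A) ^ (N - 2) * (u ^ 2)⁻¹) := by gcongr
        _ = _ := by rw [e4]; ring)
  -- nonnegative frequencies
  have key : ∀ v : ℝ, 0 ≤ v → v ≤ W + 2 * e →
      |∫ u in Ioi (0:ℝ), Real.sin (v * (2 * π * u)) * gg e N u * F u| ≤ δ := by
    intro v hv0 hvW
    rcases le_or_gt v (W - 2 * e) with h | h
    · have h3 := hFG.expPow he hN0 (ξ := v) (by rw [abs_of_nonneg hv0]; linarith) 0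
      have e1 : ∀ u : ℝ, (Complex.exp (v * ((2 * π * u : ℝ) * Complex.I)) *
        ((2 * π * u : ℝ) * Complex.I) ^ 0).im = Real.sin (v * (2 * π * u)) := by
        intro u
        rw [pow_zero, mul_one, ← mul_assoc, ← Complex.ofReal_mul, Complex.exp_ofReal_mul_I_im]
      simp_rw [e1] at h3
      rw [h3, abs_zero]
      exact hδ0
    · have hξ : |W - 2 * e| + 2 * e ≤ W := by rw [abs_of_nonneg (by linarith)]; linarith
      have h3 := hFG.taylorP hFm hFb he hN0 hξ (s := v - (W - 2 * e)) (by linarith)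
      rw [show W - 2 * e + (v - (W - 2 * e)) = v by ring] at h3
      refine h3.trans ?_
      have h4 := hFG.momentP hFm hFb he hW m
      rw [← hNdef] at h4
      rw [h4]
      refine le_trans ?_ hsm
      have h6 : (2 * π * (v - (W - 2 * e))) ^ N ≤ (8 * π * e) ^ N := by
        have hs0 : 0 ≤ v - (W - 2 * e) := by linarith
        apply pow_le_pow_left₀ (by positivity)
        have hpi := Real.pi_pos
        nlinarith
      have h7 : 0 ≤ ∫ u in Ioi (0:ℝ), u ^ N * gg e N u * max (-F u) 0 := by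
        apply setIntegral_nonneg measurableSet_Ioi
        intro u hu
        have hu' : (0:ℝ) < u := hu
        have := gg_nonneg e N u
        positivity
      gcongr
  show |∫ u in Ioi (0:ℝ), Real.sin (v * (2 * π * u)) * gg e N u * F u| ≤ δ
  rcases le_total 0 v with h | h
  · exact key v h (by rwa [abs_of_nonneg h] at hv)
  · have h3 := key (-v) (by linarith) (by rwa [abs_of_nonpos h] at hv)
    have e1 : ∫ u in Ioi (0:ℝ), Real.sin (-v * (2 * π * u)) * gg e N u * F u =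
        -∫ u in Ioi (0:ℝ), Real.sin (v * (2 * π * u)) * gg e N u * F u := by
      rw [← integral_neg]
      congr 1
      ext u
      rw [neg_mul, Real.sin_neg]; ring
    rwa [e1, abs_neg] at h3

end

end Pool.Agent.PairCorr
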