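import Mathlib
import Pool.Agent.PairCorr.F_SignGap

/-!
Extension of the gap and uniqueness for functions with few sign changes on windows.
-/

set_option autoImplicit false

namespace Pool.Agent.PairCorr

open MeasureTheory Filter Topology Set Real

/-- the density constant -/
noncomputable def kap0 : ℝ := min (min (c1 / (5 * k32)) (c1 * k32 / R0 ^ 2)) (min (k32 / q0) (k32 / 2))

lemma kap0_pos : 0 < kap0 := by
  have h1 := c1_pos
  have h2 := k32_pos
  have h3 := one_lt_R0
  have h4 : (0:ℝ) < q0 := by exact_mod_cast one_le_q0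
  unfold kap0
  apply lt_min <;> apply lt_min <;> positivity

lemma ncond_of {e A : ℝ} (he : 0 < e) (hA : 0 < A) {n m : ℕ} (hn : (n : ℝ) ≤ kap0 * e * A)
    (hm : m = ⌈k32 * e * A⌉₊) (h1 : 1 ≤ k32 * e * A) : NCond e A (2 * m + 1) n := by
  have hc1 := c1_pos
  have hk := k32_pos
  have hR := one_lt_R0
  have hK := K0_pos
  have hq : (0:ℝ) < q0 := by exact_mod_cast one_le_q0
  have hle : k32 * e * A ≤ (m : ℝ) := by rw [hm]; exact Nat.le_ceil _
  have hlt : (m : ℝ) < k32 * e * A + 1 := by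
    rw [hm]; exact Nat.ceil_lt_add_one (by linarith)
  have hm1 : 1 ≤ m := by
    have : (1:ℝ) ≤ (m : ℝ) := h1.trans hle
    exact_mod_cast this
  have hNr : ((2 * m + 1 : ℕ) : ℝ) = 2 * (m : ℝ) + 1 := by push_cast; ring
  have hNup : ((2 * m + 1 : ℕ) : ℝ) ≤ 5 * (k32 * e * A) := by rw [hNr]; linarith
  have hNlo : 2 * (k32 * e * A) + 1 ≤ ((2 * m + 1 : ℕ) : ℝ) := by rw [hNr]; linarith
  have k1 : kap0 ≤ c1 / (5 * k32) := (min_le_left _ _).trans (min_le_left _ _)
  have k2 : kap0 ≤ c1 * k32 / R0 ^ 2 := (min_le_left _ _).trans (min_le_right _ _)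
  have k3 : kap0 ≤ k32 / q0 := (min_le_right _ _).trans (min_le_left _ _)
  have k4 : kap0 ≤ k32 / 2 := (min_le_right _ _).trans (min_le_right _ _)
  have heA : 0 < e * A := by positivity
  refine ⟨by omega, ?_, ?_, ?_, ?_, ?_⟩
  · calc (n:ℝ) * ((2 * m + 1 : ℕ) : ℝ) ≤ (kap0 * e * A) * (5 * (k32 * e * A)) := by
          apply mul_le_mul hn hNup (by positivity)
          have := kap0_pos; positivity
      _ ≤ (c1 / (5 * k32) * e * A) * (5 * (k32 * e * A)) := by gcongr
      _ = _ := by field_simp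
  · calc (n:ℝ) * R0 ^ 2 ≤ (kap0 * e * A) * R0 ^ 2 := by gcongr
      _ ≤ (c1 * k32 / R0 ^ 2 * e * A) * R0 ^ 2 := by gcongr
      _ = c1 * (k32 * e * A) := by field_simp
      _ ≤ c1 * ((2 * m + 1 : ℕ) : ℝ) := by
          apply mul_le_mul_of_nonneg_left _ hc1.le
          linarith
  · have h2 : (n:ℝ) * q0 ≤ ((2 * m + 1 : ℕ) : ℝ) := by
      calc (n:ℝ) * q0 ≤ (kap0 * e * A) * q0 := by gcongr
        _ ≤ (k32 / q0 * e * A) * q0 := by gcongr
        _ = k32 * e * A := by field_simp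
        _ ≤ _ := by linarith
    exact_mod_cast h2
  · have h2 : (2:ℝ) * n + 2 ≤ ((2 * m + 1 : ℕ) : ℝ) := by
      calc (2:ℝ) * n + 2 ≤ 2 * (kap0 * e * A) + 2 := by linarith
        _ ≤ 2 * (k32 / 2 * e * A) + 2 := by gcongr
        _ = k32 * e * A + 2 := by ring
        _ ≤ _ := by linarith
    exact_mod_cast h2
  · calc k32 * K0 ^ 2 * ((2 * m + 1 : ℕ) : ℝ) ≤ k32 * K0 ^ 2 * (5 * (k32 * e * A)) := by gcongr
      _ = e * (R0 * A) := by unfold R0; ring

lemma PE_sub_one_le (E : Finset ℝ) {A : ℝ} (hA : 0 < A) (hE : ∀ x ∈ E, A ≤ x) (u : ℝ) :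
    |PE E u - 1| ≤ (1 + u ^ 2 / A ^ 2) ^ E.card - 1 := by
  classical
  induction E using Finset.induction_on with
  | empty => unfold PE; simp
  | insert a s ha ih =>
    have ih' := ih (fun x hx => hE x (Finset.mem_insert_of_mem hx))
    have haA : A ≤ a := hE a (Finset.mem_insert_self _ _)
    have ha0 : 0 < a := hA.trans_le haA
    have hP : PE (insert a s) u = (1 - u ^ 2 / a ^ 2) * PE s u := by
      unfold PE; rw [Finset.prod_insert ha]
    rw [hP, Finset.card_insert_of_notMem ha]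
    set t := u ^ 2 / A ^ 2 with ht
    set x := u ^ 2 / a ^ 2 with hx
    have hx0 : 0 ≤ x := by positivity
    have hxt : x ≤ t := by
      apply div_le_div_of_nonneg_left (sq_nonneg _) (by positivity)
      exact pow_le_pow_left₀ hA.le haA 2
    have ht0 : 0 ≤ t := hx0.trans hxt
    have e1 : (1 - x) * PE s u - 1 = (PE s u - 1) * (1 - x) - x := by ring
    rw [e1]
    refine (abs_sub _ _).trans ?_
    rw [abs_mul, abs_of_nonneg hx0]
    rw [pow_succ]
    have h1 : |1 - x| ≤ 1 + t := by rw [abs_le]; constructor <;> linarith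
    have h2 : 1 ≤ (1 + t) ^ s.card := one_le_pow₀ (by linarith)
    have h3 : 0 ≤ (1 + t) ^ s.card - 1 := by linarith
    calc |PE s u - 1| * |1 - x| + x ≤ ((1 + t) ^ s.card - 1) * (1 + t) + t := by gcongr
      _ = _ := by ring

section
variable {H : ℝ → ℝ} {C : ℝ} {p : ℕ}

lemma kernel_fubiniP (hHm : Measurable H) (hHb : ∀ u, 0 ≤ u → |H u| ≤ C * (1 + u) ^ p) {e : ℝ} (he : 0 < e)
    {N : ℕ} (hN : 0 < N) {φ : ℝ → ℝ} {b : ℝ} (h : TF φ b) :
    ∫ u in Ioi (0:ℝ), (Kc φ ((2 * π * u : ℝ) * Complex.I)).im * gg e N u * H u =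
      ∫ v, φ v * ∫ u in Ioi (0:ℝ), Real.sin (v * (2 * π * u)) * gg e N u * H u := by
  have i1 : IntegrableOn (fun u => gg e N u * H u) (Ioi 0) := by
    have := int_ggP hHm hHb he hN (f := fun _ => 1) continuous_const (L := 1) (k := 0) zero_le_one
      (fun u _ => by simp)
    simpa using this
  have e1 : ∀ u : ℝ, (Kc φ ((2 * π * u : ℝ) * Complex.I)).im * gg e N u * H u =
      ∫ v, φ v * Real.sin (v * (2 * π * u)) * (gg e N u * H u) := by
    intro u
    rw [Kc_im h, integral_mul_const]; ring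
  simp_rw [e1]
  have hI : Integrable (fun p : ℝ × ℝ => φ p.2 * Real.sin (p.2 * (2 * π * p.1)) * (gg e N p.1 * H p.1))
      ((volume.restrict (Ioi (0:ℝ))).prod (volume : Measure ℝ)) := by
    have h1 := Integrable.mul_prod (μ := volume.restrict (Ioi (0:ℝ))) (ν := (volume : Measure ℝ)) i1 h.integrable
    have h2 : Integrable (fun p : ℝ × ℝ => (gg e N p.1 * H p.1 * φ p.2) * Real.sin (p.2 * (2 * π * p.1)))
        ((volume.restrict (Ioi (0:ℝ))).prod (volume : Measure ℝ)) := by
      refine h1.mul_bdd (c := 1) (Continuous.aestronglyMeasurable (by fun_prop)) ?_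
      exact Eventually.of_forall fun p => Real.abs_sin_le_one _
    refine h2.congr (Eventually.of_forall fun p => ?_)
    beta_reduce; ring
  rw [integral_integral_swap hI]
  congr 1
  ext v
  rw [← integral_const_mul]
  congr 1
  ext u; ring

end

section
variable {H : ℝ → ℝ} {C : ℝ}

/-- **Extension of the gap** by `2 e`, with few sign changes on the windows. -/
theorem Gap.extP {W : ℝ} (hG : Gap H W) (hHm : Measurable H) (hHb : ∀ u, 0 ≤ u → |H u| ≤ C)
    {e c B0 : ℝ} (he : 0 < e) (hW : 2 * e ≤ W) (hc : 0 < c) (hB0 : 0 ≤ B0) (hec : 16 * π * e ≤ c)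
    {A : ℕ → ℝ} (hA : Tendsto A atTop atTop) {E : ℕ → Finset ℝ} (hE : ∀ j, ∀ x ∈ E j, A j ≤ x)
    (hcard : ∀ j, ((E j).card : ℝ) ≤ kap0 * e * A j) {s : ℕ → ℝ} (hs : ∀ j, |s j| = 1)
    (hw : ∀ j, ∀ u ∈ Icc (A j) (R0 * A j), -(B0 * Real.exp (-(c * u))) ≤ s j * (sgnE (E j) u * H u)) :
    Gap H (W + 2 * e) := by
  intro φ hφ
  have hC0 : 0 ≤ C := (abs_nonneg _).trans (hHb 0 le_rfl)
  have hk := k32_pos
  have hK0 := K0_pos
  have hR0 := one_lt_R0
  set m : ℕ → ℕ := fun j => ⌈k32 * e * A j⌉₊ with hm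
  set N : ℕ → ℕ := fun j => 2 * m j + 1 with hN
  have ha : Tendsto (fun j => k32 * e * A j) atTop atTop := hA.const_mul_atTop (by positivity)
  have hmt : Tendsto m atTop atTop := tendsto_nat_ceil_atTop.comp ha
  have hNt : Tendsto N atTop atTop := by
    apply tendsto_atTop_mono _ hmt
    intro j
    simp only [hN]; omega
  have hgood : ∀ᶠ j in atTop, 0 < A j ∧ 1 ≤ k32 * e * A j ∧ NCond e (A j) (N j) (E j).card := by
    filter_upwards [ha.eventually (eventually_ge_atTop 1), hA.eventually (eventually_gt_atTop 0)] with j hj hj0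
    exact ⟨hj0, hj, ncond_of he hj0 (hcard j) rfl hj⟩
  -- the bound
  set δ : ℕ → ℝ := fun j => 2 * ((C * A j + C * (R0 * A j) + B0 / c) * (1 / 2) ^ (N j)) with hδ
  have hδlim : Tendsto δ atTop (𝓝 0) := by
    have t1 : Tendsto (fun n : ℕ => (n : ℝ) * (1 / 2 : ℝ) ^ n) atTop (𝓝 0) :=
      tendsto_self_mul_const_pow_of_lt_one (by norm_num) (by norm_num)
    have t2 : Tendsto (fun n : ℕ => (1 / 2 : ℝ) ^ n) atTop (𝓝 0) :=
      tendsto_pow_atTop_nhds_zero_of_lt_one (by norm_num) (by norm_num)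
    have t3 : Tendsto (fun j => 2 * (C * (1 + R0) / (k32 * e) * ((N j : ℝ) * (1 / 2 : ℝ) ^ (N j)) +
        B0 / c * (1 / 2) ^ (N j))) atTop (𝓝 0) := by
      have := (((t1.comp hNt).const_mul (C * (1 + R0) / (k32 * e))).add
        ((t2.comp hNt).const_mul (B0 / c))).const_mul 2
      simpa using this
    refine squeeze_zero' ?_ ?_ t3
    · filter_upwards [hA.eventually (eventually_ge_atTop 0)] with j hj
      simp only [hδ]
      positivity
    · filter_upwards [hA.eventually (eventually_ge_atTop 0)] with j hj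
      simp only [hδ]
      have h1 : k32 * e * A j ≤ (N j : ℝ) := by
        have h2 := Nat.le_ceil (k32 * e * A j)
        have h3 : ((m j : ℕ) : ℝ) ≤ (N j : ℝ) := by exact_mod_cast (by simp only [hN]; omega : m j ≤ N j)
        exact h2.trans h3
      have h2 : A j ≤ (N j : ℝ) / (k32 * e) := by
        rw [le_div_iff₀ (by positivity)]; linarith
      have h3 : C * A j + C * (R0 * A j) ≤ C * (1 + R0) / (k32 * e) * N j := by
        calc C * A j + C * (R0 * A j) = C * (1 + R0) * A j := by ring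
          _ ≤ C * (1 + R0) * ((N j : ℝ) / (k32 * e)) := by gcongr
          _ = _ := by ring
      have hp : (0:ℝ) ≤ (1 / 2) ^ (N j) := by positivity
      have h4 := mul_le_mul_of_nonneg_right h3 hp
      nlinarith
  have hev : ∀ᶠ j in atTop, ∀ v : ℝ, |v| ≤ W + 2 * e →
      |∫ u in Ioi (0:ℝ), Real.sin (v * (2 * π * u)) * gg e (N j) u * (PE (E j) u * H u)| ≤ δ j := by
    filter_upwards [hgood] with j hj v hv
    obtain ⟨hj0, hj1, hjN⟩ := hj
    have hle := Nat.le_ceil (k32 * e * A j)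
    have hNr : ((2 * m j + 1 : ℕ) : ℝ) = 2 * (m j : ℝ) + 1 := by push_cast; ring
    have hb := window_boundP hG hHm hHb he hW hc hj0 hB0 hec (hE j) (hs j) (hw j) (m := m j) hjN (by
      rw [hNr]
      have h3 : k32 * e * A j ≤ (m j : ℝ) := hle
      have : (0:ℝ) ≤ (m j : ℝ) := by positivity
      linarith) hv
    have e1 : ∀ u : ℝ, Real.sin (v * (2 * π * u)) * gg e (2 * m j + 1) u * (s j * (PE (E j) u * H u)) =
        s j * (Real.sin (v * (2 * π * u)) * gg e (N j) u * (PE (E j) u * H u)) := by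
      intro u; simp only [hN]; ring
    simp_rw [e1] at hb
    rw [integral_const_mul, abs_mul, hs j, one_mul] at hb
    exact hb
  -- the integrals
  have hSN : Tendsto (fun j => ∫ u in Ioi (0:ℝ), (Kc φ ((2 * π * u : ℝ) * Complex.I)).im * gg e (N j) u *
      (PE (E j) u * H u)) atTop (𝓝 0) := by
    have h1 : Tendsto (fun j => (∫ v, |φ v|) * δ j) atTop (𝓝 0) := by
      have := hδlim.const_mul (∫ v, |φ v|)
      simpa using this
    apply squeeze_zero_norm' _ h1
    filter_upwards [hev, hgood] with j hj hgj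
    have hN0 : 0 < N j := by simp only [hN]; omega
    have hFb := PEH_bound hHb hgj.1 (hE j) (s := 1) (by simp)
    simp only [one_mul] at hFb
    have hfub := kernel_fubiniP (H := fun u => PE (E j) u * H u) ((PE_cont (E j)).measurable.mul hHm) hFb he hN0 hφ
    beta_reduce at hfub
    rw [hfub]
    refine (norm_integral_le_of_norm_le (g := fun v => |φ v| * δ j) (hφ.integrable.abs.mul_const _) ?_).trans ?_
    · refine Eventually.of_forall fun v => ?_
      rw [norm_mul, Real.norm_eq_abs, Real.norm_eq_abs]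
      by_cases hv : W + 2 * e < |v|
      · rw [hφ.supp v hv]; simp
      · push Not at hv
        exact mul_le_mul_of_nonneg_left (hj v hv) (abs_nonneg _)
    · rw [integral_mul_const]
  have hcont : Continuous (fun u : ℝ => (Kc φ ((2 * π * u : ℝ) * Complex.I)).im) :=
    Complex.continuous_im.comp (hφ.differentiable_Kc.continuous.comp (by fun_prop))
  obtain ⟨K, hK, hKb⟩ := hφ.line_bound 2
  have hint : IntegrableOn (fun u => (Kc φ ((2 * π * u : ℝ) * Complex.I)).im * H u) (Ioi 0) := by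
    apply int_of_bound hHm hHb hcont (K := K)
    intro u hu
    refine le_trans ?_ (hKb u hu)
    exact mul_le_mul_of_nonneg_left (Complex.abs_im_le_norm _) (by positivity)
  have hPE : ∀ u : ℝ, Tendsto (fun j => PE (E j) u) atTop (𝓝 1) := by
    intro u
    have h1 : Tendsto (fun j => Real.exp (kap0 * e * u ^ 2 / A j) - 1) atTop (𝓝 0) := by
      have h2 : Tendsto (fun j => kap0 * e * u ^ 2 / A j) atTop (𝓝 0) := hA.const_div_atTop _
      have h3 := (Real.continuous_exp.tendsto 0).comp h2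
      rw [Real.exp_zero] at h3
      have := h3.sub_const 1
      simpa using this
    rw [tendsto_iff_norm_sub_tendsto_zero]
    apply squeeze_zero' (Eventually.of_forall fun j => norm_nonneg _) _ h1
    filter_upwards [hgood] with j hj
    obtain ⟨hj0, -, -⟩ := hj
    rw [Real.norm_eq_abs]
    refine (PE_sub_one_le (E j) hj0 (hE j) u).trans ?_
    apply sub_le_sub_right
    have h4 : (1 + u ^ 2 / (A j) ^ 2) ^ (E j).card ≤ Real.exp ((E j).card * (u ^ 2 / (A j) ^ 2)) := by
      rw [Real.exp_nat_mul]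
      apply pow_le_pow_left₀ (by positivity)
      have := Real.add_one_le_exp (u ^ 2 / (A j) ^ 2)
      linarith
    refine h4.trans ?_
    apply Real.exp_le_exp.2
    calc ((E j).card : ℝ) * (u ^ 2 / (A j) ^ 2) ≤ (kap0 * e * A j) * (u ^ 2 / (A j) ^ 2) := by
          have := hcard j
          gcongr
      _ = _ := by field_simp
  have hdct := tendsto_integral_filter_of_dominated_convergence (μ := volume.restrict (Ioi (0:ℝ)))
    (F := fun j u => (Kc φ ((2 * π * u : ℝ) * Complex.I)).im * gg e (N j) u * (PE (E j) u * H u))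
    (f := fun u => (Kc φ ((2 * π * u : ℝ) * Complex.I)).im * H u) (l := atTop)
    (fun u => |(Kc φ ((2 * π * u : ℝ) * Complex.I)).im * H u|)
    (Eventually.of_forall fun j => ((hcont.mul (gg_cont e (N j))).measurable.mul
      ((PE_cont (E j)).measurable.mul hHm)).aestronglyMeasurable)
    (by
      filter_upwards [hgood] with j hj
      obtain ⟨hj0, -, hjN⟩ := hj
      filter_upwards [ae_restrict_mem measurableSet_Ioi] with u hu
      have hu' : (0:ℝ) ≤ u := le_of_lt hu
      rw [norm_mul, norm_mul, norm_mul, Real.norm_of_nonneg (gg_nonneg _ _ _), abs_mul, Real.norm_eq_abs,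
        Real.norm_eq_abs, Real.norm_eq_abs]
      have h1 := hjN.le_one he hj0 (hE j) hu'
      have h3 := abs_nonneg (Kc φ ((2 * π * u : ℝ) * Complex.I)).im
      have h4 := abs_nonneg (H u)
      calc |(Kc φ ((2 * π * u : ℝ) * Complex.I)).im| * gg e (N j) u * (|PE (E j) u| * |H u|) =
          (gg e (N j) u * |PE (E j) u|) * (|(Kc φ ((2 * π * u : ℝ) * Complex.I)).im| * |H u|) := by ring
        _ ≤ 1 * (|(Kc φ ((2 * π * u : ℝ) * Complex.I)).im| * |H u|) := by gcongr
        _ = _ := one_mul _)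
    hint.abs
    (Eventually.of_forall fun u => by
      have h1 := gg_tendsto (e := e) u hNt
      have h2 := (h1.const_mul (Kc φ ((2 * π * u : ℝ) * Complex.I)).im).mul ((hPE u).mul_const (H u))
      rwa [mul_one, one_mul] at h2)
  exact tendsto_nhds_unique hdct hSN

/-- all frequencies -/
theorem Gap.allP {W : ℝ} (hG : Gap H W) (hHm : Measurable H) (hHb : ∀ u, 0 ≤ u → |H u| ≤ C)
    {e c B0 : ℝ} (he : 0 < e) (hW : 2 * e ≤ W) (hc : 0 < c) (hB0 : 0 ≤ B0) (hec : 16 * π * e ≤ c)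
    {A : ℕ → ℝ} (hA : Tendsto A atTop atTop) {E : ℕ → Finset ℝ} (hE : ∀ j, ∀ x ∈ E j, A j ≤ x)
    (hcard : ∀ j, ((E j).card : ℝ) ≤ kap0 * e * A j) {s : ℕ → ℝ} (hs : ∀ j, |s j| = 1)
    (hw : ∀ j, ∀ u ∈ Icc (A j) (R0 * A j), -(B0 * Real.exp (-(c * u))) ≤ s j * (sgnE (E j) u * H u)) (W' : ℝ) :
    Gap H W' := by
  have key : ∀ k : ℕ, Gap H (W + 2 * e * k) := by
    intro k
    induction k with
    | zero => simpa using hG
    | succ k ih =>
      have hk : (0:ℝ) ≤ 2 * e * k := by positivity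
      have := ih.extP hHm hHb he (by linarith) hc hB0 hec hA hE hcard hs hw
      have e1 : W + 2 * e * k + 2 * e = W + 2 * e * ((k + 1 : ℕ) : ℝ) := by push_cast; ring
      rwa [e1] at this
  obtain ⟨k, hk⟩ := exists_nat_gt ((W' - W) / (2 * e))
  apply (key k).mono
  rw [div_lt_iff₀ (by positivity)] at hk
  linarith

/-- **Uniqueness from windows with few sign changes** (limit form). -/
theorem sign_unique {W : ℝ} (hG : Gap H W) (hHm : Measurable H) (hHb : ∀ u, 0 ≤ u → |H u| ≤ C)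
    {e c B0 : ℝ} (he : 0 < e) (hW : 2 * e ≤ W) (hc : 0 < c) (hB0 : 0 ≤ B0) (hec : 16 * π * e ≤ c)
    {A : ℕ → ℝ} (hA : Tendsto A atTop atTop) {E : ℕ → Finset ℝ} (hE : ∀ j, ∀ x ∈ E j, A j ≤ x)
    (hcard : ∀ j, ((E j).card : ℝ) ≤ kap0 * e * A j) {s : ℕ → ℝ} (hs : ∀ j, |s j| = 1)
    (hw : ∀ j, ∀ u ∈ Icc (A j) (R0 * A j), -(B0 * Real.exp (-(c * u))) ≤ s j * (sgnE (E j) u * H u)) :
    ∀ᵐ u ∂(volume.restrict (Ioi (0:ℝ))), H u = 0 :=
  ae_zero_of_gap hHm hHb (hG.allP hHm hHb he hW hc hB0 hec hA hE hcard hs hw)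

end

end Pool.Agent.PairCorr
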