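import Mathlib
import Pool.Agent.PairCorr.F_SignExt
import Pool.Agent.PairCorr.A_WinMain

/-!
Rigidity from windows with few sign changes.
-/

set_option autoImplicit false

namespace Pool.Agent.PairCorr

open MeasureTheory Filter Topology Set Real

/-- the density constant attached to the gap `b` and the rate `c` -/
noncomputable def kapS (b c : ℝ) : ℝ := kap0 * min (b / 2) (c / (16 * π))

lemma kapS_pos {b c : ℝ} (hb : 0 < b) (hc : 0 < c) : 0 < kapS b c := by
  unfold kapS; have := kap0_pos; positivity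

lemma sgnE_split (E : Finset ℝ) {A u : ℝ} (hu : A ≤ u) :
    sgnE E u = sgnE E A * sgnE (E.filter (A ≤ ·)) u := by
  classical
  unfold sgnE
  rw [← pow_add]
  congr 1
  rw [Finset.filter_filter]
  have h1 : E.filter (· < u) = E.filter (· < A) ∪ E.filter (fun x => A ≤ x ∧ x < u) := by
    ext x
    simp only [Finset.mem_filter, Finset.mem_union]
    constructor
    · rintro ⟨h1, h2⟩
      rcases lt_or_ge x A with h3 | h3
      · exact Or.inl ⟨h1, h3⟩
      · exact Or.inr ⟨h1, h3, h2⟩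
    · rintro (⟨h1, h2⟩ | ⟨h1, h2, h3⟩)
      · exact ⟨h1, h2.trans_le hu⟩
      · exact ⟨h1, h3⟩
  rw [h1, Finset.card_union_of_disjoint]
  rw [Finset.disjoint_left]
  intro x hx hx'
  exact absurd (Finset.mem_filter.1 hx).2 (not_lt.2 (Finset.mem_filter.1 hx').2.1)

lemma sgnE_sign (E : Finset ℝ) (u : ℝ) : sgnE E u = 1 ∨ sgnE E u = -1 := by
  unfold sgnE
  exact neg_one_pow_eq_or ℝ _

section
variable {ι : Type*} {l : Filter ι} {D : ι → ℝ → ℝ} {G : ℝ → ℝ}

/-- **Rigidity from windows with few sign changes.** -/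
theorem rigidity_sign [l.IsCountablyGenerated] (hD : ∀ i, Monotone (D i))
    (hG : ∀ u v, |G u - G v| ≤ |u - v|)
    {C : ℝ} (hC : ∀ᶠ i in l, ∀ u ≥ 0, |D i u - G u| ≤ C * (1 + u) ^ 2)
    {C' : ℝ} (hC' : ∀ u ≥ 0, ∀ᶠ i in l, |D i u - G u| ≤ C')
    {b : ℝ} (hb : 0 < b) (hgap : ∀ φ : ℝ → ℝ, TF φ b →
      Tendsto (fun i => ∫ u in Ioi (0:ℝ), (Kc φ ((2 * π * u : ℝ) * Complex.I)).im * (D i u - G u)) l (𝓝 0))
    {B c : ℝ} (hB : 0 ≤ B) (hc : 0 < c)
    (hi : ∀ X : ℝ, ∃ A : ℝ, X ≤ A ∧ ∃ E : Finset ℝ, (E.card : ℝ) ≤ kapS b c * A ∧ ∃ s : ℝ, (s = 1 ∨ s = -1) ∧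
      ∀ a ∈ Icc A (R0 * A), ∀ ε > 0, ∀ᶠ i in l,
        -(B * Real.exp (-(c * a))) - ε ≤ s * sgnE E a * (D i a - G a)) :
    ∀ u > 0, Tendsto (fun i => D i u - G u) l (𝓝 0) := by
  intro u₀ hu₀
  apply Filter.tendsto_of_subseq_tendsto
  intro ns hns
  have hGc : Continuous G := continuous_of_lip hG
  obtain ⟨N, hN⟩ := eventually_atTop.mp (hns.eventually hC)
  obtain ⟨φ, hφ, hrat⟩ := extract_limit (E := fun n => D (ns (n + N))) (G := G) (C := C)
    (fun k u hu => hN (k + N) (by omega) u hu)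
  set Es : ℕ → ℝ → ℝ := fun k => D (ns (φ k + N)) with hE
  have hEm : ∀ k, Monotone (Es k) := fun k => hD _
  have hEC : ∀ k, ∀ u ≥ 0, |Es k u - G u| ≤ C * (1 + u) ^ 2 := fun k u hu => hN (φ k + N) (by omega) u hu
  have hsub : Tendsto (fun k => ns (φ k + N)) atTop l :=
    hns.comp ((tendsto_add_atTop_nat N).comp hφ.tendsto_atTop)
  have hDm := DI_mono hEm hEC
  have hHm : Measurable (fun u => DI Es u - G u) := hDm.measurable.sub hGc.measurable
  have hDb' : ∀ u, 0 ≤ u → |DI Es u - G u| ≤ C' := by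
    intro u hu
    have h1 := hsub.eventually (hC' u hu)
    rw [abs_le]
    constructor
    · have h2 : ∀ᶠ k in atTop, G u - C' ≤ Es k u := by
        filter_upwards [h1] with k hk
        have := (abs_le.1 hk).1
        show G u - C' ≤ D (ns (φ k + N)) u
        linarith
      have := DI_lower hu hEC h2
      linarith
    · have h2 : ∀ᶠ k in atTop, Es k u ≤ G u + C' := by
        filter_upwards [h1] with k hk
        have := (abs_le.1 hk).2
        show D (ns (φ k + N)) u ≤ G u + C'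
        linarith
      have := DI_upper hu hEC h2
      linarith
  -- the gap
  have hGap : Gap (fun u => DI Es u - G u) b := by
    intro φ' hφ'
    obtain ⟨K, hK, hKb⟩ := hφ'.line_bound 4
    have hcont : Continuous (fun u : ℝ => (Kc φ' ((2 * π * u : ℝ) * Complex.I)).im) :=
      Complex.continuous_im.comp (hφ'.differentiable_Kc.continuous.comp (by fun_prop))
    have h1 := limit_integral hEm hGc hEC hrat hcont (K := K) (by
      intro u hu
      refine le_trans ?_ (hKb u hu)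
      exact mul_le_mul_of_nonneg_left (Complex.abs_im_le_norm _) (by positivity))
    have h2 := (hgap φ' hφ').comp hsub
    exact tendsto_nhds_unique h1 h2
  -- the windows
  have hi' : ∀ j : ℕ, ∃ A : ℝ, (j : ℝ) ≤ A ∧ ∃ E : Finset ℝ, (E.card : ℝ) ≤ kapS b c * A ∧
      ∃ s : ℝ, (s = 1 ∨ s = -1) ∧ ∀ a ∈ Icc A (R0 * A), ∀ ε > 0, ∀ᶠ i in l,
        -(B * Real.exp (-(c * a))) - ε ≤ s * sgnE E a * (D i a - G a) := fun j => hi j
  choose A hAj E hEcard s hs hwin using hi'
  have hA : Tendsto A atTop atTop := tendsto_atTop_mono hAj tendsto_natCast_atTop_atTop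
  set E' : ℕ → Finset ℝ := fun j => (E j).filter (A j ≤ ·) with hE'
  set s' : ℕ → ℝ := fun j => s j * sgnE (E j) (A j) with hs'
  have hs'1 : ∀ j, s' j = 1 ∨ s' j = -1 := by
    intro j
    simp only [hs']
    rcases hs j with h1 | h1 <;> rcases sgnE_sign (E j) (A j) with h2 | h2 <;> rw [h1, h2] <;> simp
  have hs'abs : ∀ j, |s' j| = 1 := by
    intro j; rcases hs'1 j with h | h <;> rw [h] <;> simp
  set e := min (b / 2) (c / (16 * π)) with he
  have hpi := Real.pi_pos
  have he0 : 0 < e := by positivity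
  have hae : ∀ᵐ u ∂(volume.restrict (Ioi (0:ℝ))), DI Es u - G u = 0 := by
    refine sign_unique (H := fun u => DI Es u - G u) (C := C') hGap hHm hDb' (e := e) (c := c) (B0 := B) he0 ?_ hc hB ?_
      (A := A) hA (E := E') ?_ ?_ (s := s') hs'abs ?_
    · have := min_le_left (b / 2) (c / (16 * π)); linarith
    · have h1 : e ≤ c / (16 * π) := min_le_right _ _
      rw [le_div_iff₀ (by positivity)] at h1
      linarith
    · intro j x hx
      exact (Finset.mem_filter.1 hx).2
    · intro j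
      have h1 : ((E' j).card : ℝ) ≤ ((E j).card : ℝ) := by
        exact_mod_cast Finset.card_filter_le _ _
      exact h1.trans (hEcard j)
    · intro j u hu
      have hA0 : 0 ≤ A j := le_trans (by positivity) (hAj j)
      have hu0 : 0 ≤ u := hA0.trans hu.1
      have hsplit : s j * sgnE (E j) u = s' j * sgnE (E' j) u := by
        rw [sgnE_split (E j) hu.1]
        simp only [hs', hE']
        ring
      show -(B * Real.exp (-(c * u))) ≤ s' j * (sgnE (E' j) u * (DI Es u - G u))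
      rw [← mul_assoc, ← hsplit]
      by_contra hcon
      push Not at hcon
      set ε := (-(B * Real.exp (-(c * u))) - s j * sgnE (E j) u * (DI Es u - G u)) / 2 with hε
      have hε0 : 0 < ε := by rw [hε]; linarith
      have h1 := hsub.eventually (hwin j u hu ε hε0)
      have hsgn : s j * sgnE (E j) u = 1 ∨ s j * sgnE (E j) u = -1 := by
        rcases hs j with h1 | h1 <;> rcases sgnE_sign (E j) u with h2 | h2 <;> rw [h1, h2] <;> simp
      rcases hsgn with hs2 | hs2
      · have h2 : ∀ᶠ k in atTop, G u - B * Real.exp (-(c * u)) - ε ≤ Es k u := by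
          filter_upwards [h1] with k hk
          have : Es k u = D (ns (φ k + N)) u := rfl
          rw [hs2] at hk
          rw [this]; linarith
        have h3 := DI_lower hu0 hEC h2
        rw [hs2] at hε
        linarith
      · have h2 : ∀ᶠ k in atTop, Es k u ≤ G u + B * Real.exp (-(c * u)) + ε := by
          filter_upwards [h1] with k hk
          have : Es k u = D (ns (φ k + N)) u := rfl
          rw [hs2] at hk
          rw [this]; linarith
        have h3 := DI_upper hu0 hEC h2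
        rw [hs2] at hε
        linarith
  have heq : ∀ u > 0, DI Es u = G u := fun u hu => eq_of_ae hDm hGc hae hu
  have hcont : ContinuousAt (DI Es) u₀ := by
    have h1 : DI Es =ᶠ[𝓝 u₀] G := by
      filter_upwards [lt_mem_nhds hu₀] with v hv
      exact heq v hv
    exact hGc.continuousAt.congr h1.symm
  refine ⟨fun k => φ k + N, ?_⟩
  have h1 := tendsto_of_cont hEm hrat hu₀ hcont
  rw [heq u₀ hu₀] at h1
  have h2 := h1.sub_const (G u₀)
  rw [sub_self] at h2
  exact h2

end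

/-- **Sign pattern theorem**: if almost all zeros are simple and critical, and the sign of the deviation
changes rarely on arbitrarily far windows, then the pair correlation conjecture holds. -/
theorem main_sign : ∃ b : ℝ, 0 < b ∧ ∀ c : ℝ, 0 < c → ∀ (l : Filter ℝ) [l.IsCountablyGenerated], l ≤ atTop →
    Tendsto Mr l (𝓝 1) → ∀ B : ℝ, 0 ≤ B →
    (∀ X : ℝ, ∃ A : ℝ, X ≤ A ∧ ∃ E : Finset ℝ, (E.card : ℝ) ≤ kapS b c * A ∧ ∃ s : ℝ, (s = 1 ∨ s = -1) ∧
      ∀ a ∈ Icc A (R0 * A), ∀ ε > 0, ∀ᶠ T in l,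
        -(B * Real.exp (-(c * a))) - ε ≤ s * sgnE E a * (Lr T a - gue a)) →
    ∀ a > 0, Tendsto (fun T => Lr T a) l (𝓝 (gue a)) := by
  obtain ⟨b₀, hb₀, hb₀1, hJ⟩ := JJ_tendsto
  refine ⟨b₀, hb₀, fun c hc l _ hl hM B hB hi => ?_⟩
  obtain ⟨C, hC, T₀, hT₀, hq⟩ := Mr_le_of_quad
  obtain ⟨C', hC', hP1⟩ := Lr_gue_bound
  have hev : ∀ᶠ T in l, T₀ ≤ T := (eventually_ge_atTop T₀).filter_mono hl
  set D : ℝ → ℝ → ℝ := fun T u => Mr (max T (Real.exp 1)) / 2 + Lr (max T (Real.exp 1)) u with hD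
  set G : ℝ → ℝ := fun u => 1 / 2 + gue u with hG
  have hDm : ∀ T, Monotone (D T) := fun T => (Lr_mono (le_max_right _ _)).const_add _
  have hGl : ∀ u v, |G u - G v| ≤ |u - v| := by
    intro u v
    simp only [hG]
    rw [add_sub_add_left_eq_sub]
    exact gue_lipschitz u v
  have hDeq : ∀ T, T₀ ≤ T → ∀ u, D T u = Mr T / 2 + Lr T u := by
    intro T hT u
    simp only [hD, max_eq_left (hT₀.trans hT)]
  have hMe : ∀ᶠ T in l, ∀ a, D T a - G a = (Mr T - 1) / 2 + (Lr T a - gue a) := by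
    filter_upwards [hev] with T hT a
    rw [hDeq T hT]
    simp only [hG]; ring
  have hM1 : ∀ ε > 0, ∀ᶠ T in l, |Mr T - 1| < ε := by
    intro ε hε
    have := Metric.tendsto_nhds.1 hM ε hε
    simpa [Real.dist_eq] using this
  have hDC : ∀ᶠ T in l, ∀ u ≥ 0, |D T u - G u| ≤ (C + 1) * (1 + u) ^ 2 := by
    filter_upwards [hev, hMe, hM1 1 one_pos] with T hT h1 h2 u hu
    have hu' : (0:ℝ) ≤ u := hu
    rw [h1]
    have h3 := (hq T hT).2 u hu
    have h4 : |(Mr T - 1) / 2| ≤ 1 := by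
      rw [abs_div, abs_of_pos (by norm_num : (0:ℝ) < 2)]; linarith
    have h5 : (1:ℝ) ≤ (1 + u) ^ 2 := by nlinarith
    calc |(Mr T - 1) / 2 + (Lr T u - gue u)| ≤ |(Mr T - 1) / 2| + |Lr T u - gue u| := abs_add_le _ _
      _ ≤ 1 + C * (1 + u) ^ 2 := by linarith
      _ ≤ _ := by nlinarith
  have hDC' : ∀ u ≥ 0, ∀ᶠ T in l, |D T u - G u| ≤ C' + 1 := by
    intro u hu
    filter_upwards [hMe, hM1 1 one_pos, (hP1 u hu).filter_mono hl] with T h1 h2 h3
    rw [h1]
    have h4 : |(Mr T - 1) / 2| ≤ 1 := by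
      rw [abs_div, abs_of_pos (by norm_num : (0:ℝ) < 2)]; linarith
    calc |(Mr T - 1) / 2 + (Lr T u - gue u)| ≤ |(Mr T - 1) / 2| + |Lr T u - gue u| := abs_add_le _ _
      _ ≤ _ := by linarith
  have hgap : ∀ φ : ℝ → ℝ, TF φ b₀ →
      Tendsto (fun T => ∫ u in Ioi (0:ℝ), (Kc φ ((2 * π * u : ℝ) * Complex.I)).im * (D T u - G u)) l (𝓝 0) := by
    intro φ hφ
    obtain ⟨χ, hTP⟩ := TP_of_TF hb₀.le hφ
    refine (hJ _ χ hTP l hl hM).congr' ?_
    filter_upwards [hev] with T hT
    unfold JJ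
    congr 1
    ext u
    rw [hDeq T hT]
  have hiD : ∀ X : ℝ, ∃ A : ℝ, X ≤ A ∧ ∃ E : Finset ℝ, (E.card : ℝ) ≤ kapS b₀ c * A ∧ ∃ s : ℝ, (s = 1 ∨ s = -1) ∧
      ∀ a ∈ Icc A (R0 * A), ∀ ε > 0, ∀ᶠ T in l,
        -(B * Real.exp (-(c * a))) - ε ≤ s * sgnE E a * (D T a - G a) := by
    intro X
    obtain ⟨A, hXA, E, hE, s, hs, hw⟩ := hi X
    refine ⟨A, hXA, E, hE, s, hs, fun a ha ε hε => ?_⟩
    filter_upwards [hw a ha (ε / 2) (by linarith), hM1 ε hε, hMe] with T h2 h3 h4
    rw [h4, mul_add]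
    have hsgn : |s * sgnE E a| = 1 := by
      rw [abs_mul, sgnE_abs, mul_one]
      rcases hs with h | h <;> rw [h] <;> simp
    have h5 : |s * sgnE E a * ((Mr T - 1) / 2)| ≤ ε / 2 := by
      rw [abs_mul, hsgn, one_mul, abs_div, abs_of_pos (by norm_num : (0:ℝ) < 2)]
      linarith
    have h6 := (abs_le.1 h5).1
    linarith
  have hmain := rigidity_sign (l := l) (D := D) (G := G) hDm hGl hDC hDC' hb₀ hgap hB hc hiD
  intro a ha
  have h1 := hmain a ha
  have h2 : Tendsto (fun T => (D T a - G a) - (Mr T - 1) / 2 + gue a) l (𝓝 (gue a)) := by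
    have h3 : Tendsto (fun T => (Mr T - 1) / 2) l (𝓝 0) := by
      have := (hM.sub_const 1).div_const 2
      simpa using this
    have := (h1.sub h3).add_const (gue a)
    simpa using this
  refine h2.congr' ?_
  filter_upwards [hMe] with T hT
  rw [hT]; ring

end Pool.Agent.PairCorr
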