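import Mathlib
import Pool.Agent.PairCorr.OD
import Pool.Agent.PairCorr.PB_All

/-!
# Replacing complex differences of zeros by differences of ordinates, when most zeros are
within `o(1/log T)` of the critical line
-/

set_option autoImplicit false

namespace Pool.Agent.PairCorr

open MeasureTheory Filter Topology Set
open scoped ENNReal ComplexConjugate

/-- the zeros with ordinate in `(0,T]` further than `ε/log T` from the critical line -/
def FarW (T ε : ℝ) : Set ℂ := {z | z ∈ WT T ∧ ε / Real.log T < |z.re - 1 / 2|}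

lemma measurableSet_FarW (T ε : ℝ) : MeasurableSet (FarW T ε) := by
  have h : MeasurableSet {z : ℂ | ε / Real.log T < |z.re - 1 / 2|} := by
    have h1 : Measurable fun z : ℂ => z.re - 1 / 2 := by fun_prop
    exact measurableSet_lt measurable_const h1.norm
  exact (measurableSet_WT T).inter h

/-- pairs with a member far from the line -/
def FarP (T ε : ℝ) : Set (ℂ × ℂ) :=
  {p | ε / Real.log T < |p.1.re - 1 / 2| ∨ ε / Real.log T < |p.2.re - 1 / 2|}

lemma measurableSet_FarP (T ε : ℝ) : MeasurableSet (FarP T ε) := by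
  have h1 : Measurable fun p : ℂ × ℂ => p.1.re - 1 / 2 := by fun_prop
  have h2 : Measurable fun p : ℂ × ℂ => p.2.re - 1 / 2 := by fun_prop
  exact (measurableSet_lt measurable_const h1.norm).union (measurableSet_lt measurable_const h2.norm)

/-- The far part in `ENNReal` form. -/
lemma pbfar_lintegral (hB : StatementB) : ∃ c₁ : ℝ, 0 < c₁ ∧ ∀ c : ℝ, 0 < c → c ≤ c₁ →
    ∃ C : ℝ, 0 < C ∧ ∃ T₀ : ℝ,
    Real.exp 1 ≤ T₀ ∧ ∀ T : ℝ, T₀ ≤ T → ∀ ε : ℝ, 0 < ε → ∀ η : ℝ, 0 < η →
    ∫⁻ p in FarP T ε, ENNReal.ofReal (pairW c T 1 p)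
      ∂((muW T).prod muZ) ≤
      ENNReal.ofReal (C / η) * muZ (FarW T ε) + ENNReal.ofReal (C * η * (T * Real.log T)) +
        ENNReal.ofReal (C * (T ^ (1/4 : ℝ) * Real.log (T + 2) ^ 2)) := by
  obtain ⟨c₁, hc₁, C₁, hC₁, T₁, hT₁, h1⟩ := near_off_bound hB
  refine ⟨min c₁ (1/4), by positivity, fun c hc0 hcle => ?_⟩
  obtain ⟨C₂, hC₂, h2⟩ := edge_bound (c := c) hc0.le
  refine ⟨2 * C₁ + C₂, by positivity, T₁, hT₁, fun T hT ε hε η hη => ?_⟩
  have hTe : Real.exp 1 ≤ T := hT₁.trans hT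
  have hT1 : 1 ≤ T := (Real.one_le_exp (by norm_num)).trans hTe
  have hT0 : 0 < T := by linarith
  have hL0 : 0 ≤ Real.log T := Real.log_nonneg hT1
  set N : Set (ℂ × ℂ) := {p : ℂ × ℂ | |p.1.im| ≤ 2 * T ∧ |p.2.im| ≤ 2 * T} with hN
  have hNm : MeasurableSet N := measurableSet_near T
  have hSm := measurableSet_FarW T ε
  rw [muW_prod_restrict, Measure.restrict_restrict (measurableSet_FarP T ε)]
  have hle : ∀ p : ℂ × ℂ, ENNReal.ofReal (pairW c T 1 p) ≤ ENNReal.ofReal (pairW c₁ T 1 p) :=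
    fun p => ENNReal.ofReal_le_ofReal (pairW_mono (hcle.trans (min_le_left _ _)) hT1 zero_le_one p)
  have hA : ∫⁻ p in N ∩ (FarW T ε ×ˢ univ), ENNReal.ofReal (pairW c T 1 p) ∂(muZ.prod muZ) ≤
      ENNReal.ofReal (C₁ / η) * muZ (FarW T ε) + ENNReal.ofReal (C₁ * η * (T * Real.log T)) := by
    refine le_trans ?_ (h1 T hT (FarW T ε) hSm η hη)
    have e : (muZ.restrict (FarW T ε)).prod muZ = (muZ.prod muZ).restrict (FarW T ε ×ˢ univ) := by
      rw [← Measure.prod_restrict, Measure.restrict_univ]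
    rw [e, Measure.restrict_restrict hNm]
    exact lintegral_mono hle
  have hBB : ∫⁻ p in N ∩ (univ ×ˢ FarW T ε), ENNReal.ofReal (pairW c T 1 p) ∂(muZ.prod muZ) ≤
      ENNReal.ofReal (C₁ / η) * muZ (FarW T ε) + ENNReal.ofReal (C₁ * η * (T * Real.log T)) := by
    refine le_trans (le_of_eq ?_) hA
    have hm1 : MeasurableSet (N ∩ (univ ×ˢ FarW T ε)) := hNm.inter (MeasurableSet.univ.prod hSm)
    have hm2 : MeasurableSet (N ∩ (FarW T ε ×ˢ univ)) := hNm.inter (hSm.prod MeasurableSet.univ)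
    rw [← lintegral_indicator hm1, ← lintegral_indicator hm2,
      ← lintegral_prod_swap (μ := muZ) (ν := muZ) (fun p => (N ∩ (FarW T ε ×ˢ univ)).indicator
        (fun p => ENNReal.ofReal (pairW c T 1 p)) p)]
    apply lintegral_congr
    intro p
    by_cases hp : p ∈ N ∩ (univ ×ˢ FarW T ε)
    · have hp' : p.swap ∈ N ∩ (FarW T ε ×ˢ univ) := by
        simp only [hN, mem_inter_iff, mem_ofPred_eq, mem_prod, mem_univ, and_true, true_and,
          Prod.fst_swap, Prod.snd_swap] at hp ⊢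
        exact ⟨⟨hp.1.2, hp.1.1⟩, hp.2⟩
      rw [indicator_of_mem hp, indicator_of_mem hp', pairW_swap]
    · have hp' : p.swap ∉ N ∩ (FarW T ε ×ˢ univ) := by
        intro h'
        apply hp
        simp only [hN, mem_inter_iff, mem_ofPred_eq, mem_prod, mem_univ, and_true, true_and,
          Prod.fst_swap, Prod.snd_swap] at h' ⊢
        exact ⟨⟨h'.1.2, h'.1.1⟩, h'.2⟩
      rw [indicator_of_notMem hp, indicator_of_notMem hp']
  have hE := h2 T hTe
  calc ∫⁻ p in FarP T ε ∩ WT T ×ˢ univ,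
        ENNReal.ofReal (pairW c T 1 p) ∂(muZ.prod muZ)
      ≤ ∫⁻ p in (N ∩ (FarW T ε ×ˢ univ)) ∪ ((N ∩ (univ ×ˢ FarW T ε)) ∪
        {p : ℂ × ℂ | p.1 ∈ WT T ∧ p.2 ∉ WT T}), ENNReal.ofReal (pairW c T 1 p) ∂(muZ.prod muZ) := by
        apply lintegral_mono_set
        rintro p ⟨h3, h4⟩
        have h5 : p.1 ∈ WT T := h4.1
        by_cases h6 : p.2 ∈ WT T
        · have hpN : p ∈ N := by
            refine ⟨?_, ?_⟩
            · rw [abs_of_pos h5.1]; linarith [h5.2]
            · rw [abs_of_pos h6.1]; linarith [h6.2]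
          rcases h3 with h3 | h3
          · exact Or.inl ⟨hpN, ⟨h5, h3⟩, mem_univ _⟩
          · exact Or.inr (Or.inl ⟨hpN, mem_univ _, ⟨h6, h3⟩⟩)
        · exact Or.inr (Or.inr ⟨h5, h6⟩)
    _ ≤ _ := (lintegral_union_le _ _ _).trans (add_le_add le_rfl (lintegral_union_le _ _ _))
    _ ≤ (ENNReal.ofReal (C₁ / η) * muZ (FarW T ε) + ENNReal.ofReal (C₁ * η * (T * Real.log T))) +
        ((ENNReal.ofReal (C₁ / η) * muZ (FarW T ε) + ENNReal.ofReal (C₁ * η * (T * Real.log T))) +
          ENNReal.ofReal (C₂ * (T ^ c * Real.log (T + 2) ^ 2))) :=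
        add_le_add hA (add_le_add hBB hE)
    _ ≤ _ := by
        have e1 : ENNReal.ofReal (C₁ / η) * muZ (FarW T ε) + ENNReal.ofReal (C₁ / η) * muZ (FarW T ε) ≤
            ENNReal.ofReal ((2 * C₁ + C₂) / η) * muZ (FarW T ε) := by
          rw [← add_mul, ← ENNReal.ofReal_add (by positivity) (by positivity), ← add_div]
          refine mul_le_mul' (ENNReal.ofReal_le_ofReal ?_) le_rfl
          exact div_le_div_of_nonneg_right (by linarith) hη.le
        have e2 : ENNReal.ofReal (C₁ * η * (T * Real.log T)) +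
            ENNReal.ofReal (C₁ * η * (T * Real.log T)) ≤
            ENNReal.ofReal ((2 * C₁ + C₂) * η * (T * Real.log T)) := by
          rw [← ENNReal.ofReal_add (by positivity) (by positivity)]
          apply ENNReal.ofReal_le_ofReal
          have : 0 ≤ C₂ * η * (T * Real.log T) := by positivity
          linarith
        have e3 : ENNReal.ofReal (C₂ * (T ^ c * Real.log (T + 2) ^ 2)) ≤
            ENNReal.ofReal ((2 * C₁ + C₂) * (T ^ (1/4 : ℝ) * Real.log (T + 2) ^ 2)) := by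
          apply ENNReal.ofReal_le_ofReal
          have e4 : T ^ c ≤ T ^ (1/4 : ℝ) :=
            Real.rpow_le_rpow_of_exponent_le hT1 (hcle.trans (min_le_right _ _))
          gcongr
          linarith
        calc _ = (ENNReal.ofReal (C₁ / η) * muZ (FarW T ε) + ENNReal.ofReal (C₁ / η) * muZ (FarW T ε)) +
            (ENNReal.ofReal (C₁ * η * (T * Real.log T)) +
            ENNReal.ofReal (C₁ * η * (T * Real.log T))) +
            ENNReal.ofReal (C₂ * (T ^ c * Real.log (T + 2) ^ 2)) := by ring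
          _ ≤ _ := add_le_add (add_le_add e1 e2) e3

section
variable {χ : ℝ → ℝ} {b c : ℝ}

/-- the second difference of the kernel, with a gain for pairs near the line -/
lemma kernel_diff_near (h : TF χ b) (hb : 0 ≤ b) (hc : 0 < c) (hbc : b ≤ c / 2) : ∃ C : ℝ, 0 ≤ C ∧
    ∀ T ε : ℝ, 0 < Real.log T → 0 < ε → ε ≤ 1 → ∀ p : ℂ × ℂ,
      ‖Kc χ (Real.log T * (p.1 - p.2)) + Kc χ (Real.log T * (sg p.1 - sg p.2)) -
        2 * Kc χ ((Real.log T * (p.1.im - p.2.im) : ℝ) * Complex.I)‖ ≤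
      C * ((FarP T ε).indicator (pairW c T 1) p + ε * pairW c T 1 p) := by
  obtain ⟨C, hC0, hC⟩ := second_diff h hb
  set D : ℝ := 8 / c ^ 2 + 4 * Real.exp (2 * b) with hD
  have hD0 : 0 ≤ D := by positivity
  refine ⟨C * D, by positivity, fun T ε hL hε hε1 p => ?_⟩
  set a : ℝ := (Real.log T * (p.1.re - p.2.re)) with ha
  set y : ℝ := (Real.log T * (p.1.im - p.2.im)) with hy
  have e1 : ((Real.log T : ℝ) : ℂ) * (p.1 - p.2) = a + y * Complex.I := by
    rw [ha, hy]
    have := diff_decomp 1 (Real.log T) p.1 p.2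
    simp only [Complex.ofReal_one, one_mul] at this
    exact this
  have e2 : ((Real.log T : ℝ) : ℂ) * (sg p.1 - sg p.2) = -a + y * Complex.I := by
    have := diff_decomp 1 (Real.log T) (sg p.1) (sg p.2)
    simp only [Complex.ofReal_one, one_mul] at this
    rw [this, sg_re, sg_re, sg_im, sg_im, ha, hy]
    push_cast
    ring
  rw [e1, e2]
  have e3 : ((Real.log T * (p.1.im - p.2.im) : ℝ) : ℂ) * Complex.I = y * Complex.I := rfl
  refine (hC a y).trans ?_
  have hLx : 0 ≤ Real.log T * |p.1.re - p.2.re| := by positivity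
  have haa : |a| = Real.log T * |p.1.re - p.2.re| := by
    rw [ha, abs_mul, abs_of_pos hL]
  have ha2 : a ^ 2 = (Real.log T * |p.1.re - p.2.re|) ^ 2 := by
    rw [← haa, sq_abs]
  have hyy : |y| = 1 * Real.log T * |p.1.im - p.2.im| := by
    rw [hy, abs_mul, abs_of_pos hL]; ring
  have hW : 1 ≤ wgt c T p.1 * wgt c T p.2 := by
    unfold wgt
    rw [← Real.exp_add]
    apply Real.one_le_exp
    positivity
  have hpn : 0 ≤ pairW c T 1 p := pairW_nonneg c T 1 p hL.le one_pos
  by_cases hp : p ∈ FarP T ε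
  · rw [indicator_of_mem hp]
    have h1 : a ^ 2 * Real.exp (b * |a|) ≤ (8 / c ^ 2 * (wgt c T p.1 * wgt c T p.2)) := by
      rw [ha2, haa]
      calc _ ≤ (8 / c ^ 2 * Real.exp (c * (Real.log T * |p.1.re - p.2.re|))) :=
            sq_mul_exp_le hc hbc hLx
        _ ≤ (8 / c ^ 2 * (wgt c T p.1 * wgt c T p.2)) := by
            gcongr
            exact wgt_mul_ge hc.le hL.le _ _
    calc C * a ^ 2 * Real.exp (b * |a|) * ((1 + |y|) ^ 4)⁻¹
        = C * (a ^ 2 * Real.exp (b * |a|)) * ((1 + |y|) ^ 4)⁻¹ := by ring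
      _ ≤ C * ((8 / c ^ 2 * (wgt c T p.1 * wgt c T p.2))) * ((1 + |y|) ^ 4)⁻¹ := by gcongr
      _ = C * (8 / c ^ 2) * pairW c T 1 p := by
          unfold pairW
          rw [← hyy]
          ring
      _ ≤ C * D * (pairW c T 1 p + ε * pairW c T 1 p) := by
          have h3 : 8 / c ^ 2 ≤ D := by rw [hD]; linarith [Real.exp_pos (2 * b)]
          have h4 : pairW c T 1 p ≤ pairW c T 1 p + ε * pairW c T 1 p := by
            have : 0 ≤ ε * pairW c T 1 p := by positivity
            linarith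
          gcongr
  · rw [indicator_of_notMem hp]
    have hp' : |p.1.re - 1 / 2| ≤ ε / Real.log T ∧ |p.2.re - 1 / 2| ≤ ε / Real.log T := by
      have h1 : ¬ (ε / Real.log T < |p.1.re - 1 / 2| ∨ ε / Real.log T < |p.2.re - 1 / 2|) := hp
      push Not at h1
      exact h1
    have h1 : |a| ≤ 2 * ε := by
      rw [haa]
      have h2 : |p.1.re - p.2.re| ≤ 2 * (ε / Real.log T) := by
        have : p.1.re - p.2.re = (p.1.re - 1/2) - (p.2.re - 1/2) := by ring
        rw [this]
        refine (abs_sub _ _).trans ?_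
        linarith [hp'.1, hp'.2]
      calc Real.log T * |p.1.re - p.2.re| ≤ Real.log T * (2 * (ε / Real.log T)) := by gcongr
        _ = 2 * ε := by field_simp
    have h2 : a ^ 2 ≤ 4 * ε := by
      rw [← sq_abs]
      have h0 := abs_nonneg a
      nlinarith
    have h3 : Real.exp (b * |a|) ≤ Real.exp (2 * b) := by
      apply Real.exp_le_exp.mpr
      nlinarith
    have h4 : ((1 + |y|) ^ 4)⁻¹ ≤ pairW c T 1 p := by
      unfold pairW
      rw [← hyy]
      have : 0 ≤ ((1 + |y|) ^ 4)⁻¹ := by positivity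
      nlinarith
    calc C * a ^ 2 * Real.exp (b * |a|) * ((1 + |y|) ^ 4)⁻¹
        ≤ C * (4 * ε) * Real.exp (2 * b) * pairW c T 1 p := by gcongr
      _ = C * (4 * Real.exp (2 * b)) * (0 + ε * pairW c T 1 p) := by ring
      _ ≤ C * D * (0 + ε * pairW c T 1 p) := by
          have h5 : 4 * Real.exp (2 * b) ≤ D := by
            rw [hD]
            have : 0 ≤ 8 / c ^ 2 := by positivity
            linarith
          gcongr

/-- The key estimate. -/
lemma Spair_sub_near (h : TF χ b) (hb : 0 ≤ b) (hc : 0 < c) (hbc : b ≤ c / 2) : ∃ C : ℝ, 0 ≤ C ∧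
    ∀ T ε : ℝ, 0 < Real.log T → 0 < ε → ε ≤ 1 →
      Integrable (pairW c T 1) ((muW T).prod muZ) →
      ‖Spair χ T - Spair0 χ T‖ ≤
        C * ((∫ p in FarP T ε, pairW c T 1 p ∂((muW T).prod muZ)) +
          ε * ∫ p, pairW c T 1 p ∂((muW T).prod muZ)) := by
  obtain ⟨C1, hC10, hC1⟩ := kernel_bound (c := c) h hb (by linarith)
  obtain ⟨C2, hC20, hC2⟩ := kernel_diff_near h hb hc hbc
  refine ⟨C2, hC20, fun T ε hL hε hε1 hint => ?_⟩
  have hSm := measurableSet_FarP T ε
  have hKc := h.differentiable_Kc.continuous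
  set μ := (muW T).prod muZ with hμ
  have hsgc : Continuous sg := by unfold sg; exact continuous_const.sub Complex.continuous_conj
  set f1 : ℂ × ℂ → ℂ := fun p => Kc χ ((Real.log T * (p.1 - p.2))) with hf1
  set f2 : ℂ × ℂ → ℂ := fun p => Kc χ ((Real.log T * (sg p.1 - sg p.2))) with hf2
  set f0 : ℂ × ℂ → ℂ := fun p => Kc χ (((Real.log T * (p.1.im - p.2.im) : ℝ) * Complex.I)) with hf0
  have hdd : ∀ z z2 : ℂ, ((Real.log T : ℝ) : ℂ) * (z - z2) =
      ((Real.log T * (z.re - z2.re) : ℝ) : ℂ) + ((Real.log T * (z.im - z2.im) : ℝ) : ℂ) * Complex.I := by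
    intro z z2
    have := diff_decomp 1 (Real.log T) z z2
    simp only [Complex.ofReal_one, one_mul] at this
    exact this
  have i1 : Integrable f1 μ := by
    refine Integrable.mono' (hint.const_mul C1) ?_ (Eventually.of_forall fun p => ?_)
    · exact (hKc.comp (by fun_prop)).aestronglyMeasurable
    · apply hC1 T 1 hL.le one_pos le_rfl p
      · rw [hdd]
        simp only [Complex.add_re, Complex.ofReal_re, Complex.mul_re, Complex.I_re, mul_zero,
          Complex.ofReal_im, Complex.I_im, mul_one, sub_self, add_zero]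
        rw [abs_mul, abs_of_pos hL, one_mul]
      · rw [hdd]
        simp only [Complex.add_im, Complex.ofReal_im, Complex.mul_im, Complex.ofReal_re,
          Complex.I_im, mul_one, Complex.I_re, mul_zero, add_zero, zero_add]
        rw [abs_mul, abs_of_pos hL, one_mul]
  have i0 : Integrable f0 μ := by
    refine Integrable.mono' (hint.const_mul C1) ?_ (Eventually.of_forall fun p => ?_)
    · refine (hKc.comp ?_).aestronglyMeasurable
      fun_prop
    · apply hC1 T 1 hL.le one_pos le_rfl p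
      · have : (((Real.log T * (p.1.im - p.2.im) : ℝ) * Complex.I)).re = 0 := by simp
        rw [this, abs_zero]; positivity
      · have : (((Real.log T * (p.1.im - p.2.im) : ℝ) * Complex.I)).im =
            (Real.log T * (p.1.im - p.2.im)) := by simp
        rw [this, abs_mul, abs_of_pos hL, one_mul]
  have hf12 : f2 = f1 ∘ (Prod.map sg sg) := by
    ext p; rfl
  have hmp := mp_sg_prod T
  have i2 : Integrable f2 μ := by
    rw [hf12]
    exact hmp.integrable_comp_of_integrable i1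
  have heq : ∫ p, f2 p ∂μ = ∫ p, f1 p ∂μ := by
    have h1 : ∫ p, f1 p ∂μ = ∫ p, f1 p ∂(μ.map (Prod.map sg sg)) := by rw [hmp.map_eq]
    rw [h1, integral_map hmp.measurable.aemeasurable (by
      rw [hmp.map_eq]; exact i1.aestronglyMeasurable)]
    rfl
  have hSp : Spair χ T = ∫ p, f1 p ∂μ := rfl
  have hSp0 : Spair0 χ T = ∫ p, f0 p ∂μ := rfl
  rw [hSp, hSp0]
  have hmain : (∫ p, f1 p ∂μ) - ∫ p, f0 p ∂μ = (1/2 : ℂ) * ∫ p, (f1 p + f2 p - 2 * f0 p) ∂μ := by
    rw [integral_sub (f := fun p => f1 p + f2 p) (g := fun p => 2 * f0 p) (i1.add i2)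
      (i0.const_mul 2), integral_add i1 i2, integral_const_mul, heq]
    ring
  rw [hmain, norm_mul]
  have hsum : Integrable (fun p => (FarP T ε).indicator (pairW c T 1) p + ε * pairW c T 1 p) μ :=
    (hint.indicator hSm).add (hint.const_mul ε)
  have h1 : ‖∫ p, (f1 p + f2 p - 2 * f0 p) ∂μ‖ ≤
      ∫ p, C2 * ((FarP T ε).indicator (pairW c T 1) p + ε * pairW c T 1 p) ∂μ := by
    apply norm_integral_le_of_norm_le
    · exact hsum.const_mul _
    · exact Eventually.of_forall fun p => hC2 T ε hL hε hε1 p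
  rw [integral_const_mul, integral_add (hint.indicator hSm) (hint.const_mul ε),
    integral_indicator hSm, integral_const_mul] at h1
  have h2 : ‖(1/2 : ℂ)‖ = 1/2 := by norm_num
  rw [h2]
  have h3 := norm_nonneg (∫ p, (f1 p + f2 p - 2 * f0 p) ∂μ)
  linarith

end

lemma err_tendsto : Tendsto (fun T : ℝ => T ^ (1/4 : ℝ) * Real.log (T + 2) ^ 2 / (T * Real.log T)) atTop
      (𝓝 0) := by
  have h1 : Tendsto (fun T : ℝ => 4 * (Real.log T / T ^ (3/4 : ℝ))) atTop (𝓝 (4 * 0)) := by
    apply Tendsto.const_mul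
    exact (isLittleO_log_rpow_atTop (by norm_num)).tendsto_div_nhds_zero
  rw [mul_zero] at h1
  refine squeeze_zero' ?_ ?_ h1
  · filter_upwards [eventually_gt_atTop 1] with T hT
    have := Real.log_pos hT
    have : 0 < T := by linarith
    positivity
  · filter_upwards [eventually_ge_atTop 2] with T hT
    have hT0 : 0 < T := by linarith
    have hL := Real.log_pos (show 1 < T by linarith)
    have hlog0 : 0 ≤ Real.log (T + 2) := Real.log_nonneg (by linarith)
    have e1 : Real.log (T + 2) ≤ 2 * Real.log T := by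
      rw [two_mul, ← Real.log_mul hT0.ne' hT0.ne']
      apply Real.log_le_log (by linarith)
      nlinarith
    have e2 : T = T ^ (1/4 : ℝ) * T ^ (3/4 : ℝ) := by
      rw [← Real.rpow_add hT0]; norm_num
    have e3 : T ^ (1/4 : ℝ) * Real.log (T + 2) ^ 2 / (T * Real.log T) =
        Real.log (T + 2) ^ 2 / (T ^ (3/4 : ℝ) * Real.log T) := by
      have : T * Real.log T = T ^ (1/4 : ℝ) * (T ^ (3/4 : ℝ) * Real.log T) := by
        rw [← mul_assoc, ← e2]
      rw [this]
      have h4 : T ^ (1/4 : ℝ) ≠ 0 := by positivity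
      field_simp
    rw [e3, div_le_iff₀ (by positivity)]
    have e4 : 4 * (Real.log T / T ^ (3/4 : ℝ)) * (T ^ (3/4 : ℝ) * Real.log T) =
        (2 * Real.log T) ^ 2 := by
      have h4 : T ^ (3/4 : ℝ) ≠ 0 := by positivity
      field_simp
      norm_num
    rw [e4]
    gcongr

lemma pbfar_tendsto {c C T₀ ε : ℝ} (hC : 0 < C) (hT₀ : Real.exp 1 ≤ T₀)
    (h : ∀ T : ℝ, T₀ ≤ T → ∀ η : ℝ, 0 < η →
    ∫⁻ p in FarP T ε, ENNReal.ofReal (pairW c T 1 p)
      ∂((muW T).prod muZ) ≤
      ENNReal.ofReal (C / η) * muZ (FarW T ε) + ENNReal.ofReal (C * η * (T * Real.log T)) +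
        ENNReal.ofReal (C * (T ^ (1/4 : ℝ) * Real.log (T + 2) ^ 2)))
    {l : Filter ℝ} (hl : l ≤ atTop)
    (hx : Tendsto (fun T : ℝ => (muZ (FarW T ε)).toReal / (T * Real.log T)) l (𝓝 0)) :
    Tendsto (fun T : ℝ =>
      (∫ p in FarP T ε, pairW c T 1 p ∂((muW T).prod muZ)) / (T * Real.log T)) l (𝓝 0) := by
  obtain ⟨T₁, hT₁, hN⟩ := exists_muW_le
  rw [Metric.tendsto_nhds]
  intro e he
  set η : ℝ := e / (4 * C) with hη
  have hη0 : 0 < η := by positivity
  have h1 : ∀ᶠ T in l, (muZ (FarW T ε)).toReal / (T * Real.log T) <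
      e / (4 * (C / η)) := hx.eventually (gt_mem_nhds (by positivity))
  have h2 : ∀ᶠ T in l, T ^ (1/4 : ℝ) * Real.log (T + 2) ^ 2 / (T * Real.log T) < e / (4 * C) :=
    hl (err_tendsto.eventually (gt_mem_nhds (by positivity)))
  have h3 : ∀ᶠ T in l, max T₀ T₁ ≤ T := hl (eventually_ge_atTop _)
  filter_upwards [h1, h2, h3] with T h1 h2 h3
  have hTT₀ : T₀ ≤ T := (le_max_left _ _).trans h3
  have hTT₁ : T₁ ≤ T := (le_max_right _ _).trans h3
  have hTe : Real.exp 1 ≤ T := hT₀.trans hTT₀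
  have hT1 : 1 < T := (Real.one_lt_exp_iff.mpr one_pos).trans_le hTe
  have hT0 : 0 < T := by linarith
  have hL0 : 0 < Real.log T := Real.log_pos hT1
  have hTL : 0 < T * Real.log T := by positivity
  have hnnT : ∀ p, 0 ≤ pairW c T 1 p := fun p => pairW_nonneg c T 1 p hL0.le one_pos
  have hfin : muZ (FarW T ε) ≠ ⊤ := by
    apply ne_top_of_le_ne_top _ (measure_mono (fun z hz => hz.1 : FarW T ε ⊆ WT T))
    exact ne_top_of_le_ne_top ENNReal.ofReal_ne_top (hN T hTT₁)
  have h4 := h T hTT₀ η hη0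
  have hlog0 : 0 ≤ Real.log (T + 2) := Real.log_nonneg (by linarith)
  set M := (muZ (FarW T ε)).toReal with hM
  have hM0 : 0 ≤ M := ENNReal.toReal_nonneg
  have hMe : muZ (FarW T ε) = ENNReal.ofReal M := (ENNReal.ofReal_toReal hfin).symm
  rw [hMe, ← ENNReal.ofReal_mul (by positivity), ← ENNReal.ofReal_add (by positivity) (by positivity),
    ← ENNReal.ofReal_add (by positivity) (by positivity)] at h4
  have h5 : ∫ p in FarP T ε, pairW c T 1 p ∂((muW T).prod muZ) ≤
      C / η * M + C * η * (T * Real.log T) + C * (T ^ (1/4 : ℝ) * Real.log (T + 2) ^ 2) := by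
    rw [integral_eq_lintegral_of_nonneg_ae (Eventually.of_forall hnnT)
      (measurable_pairW c T 1).aestronglyMeasurable]
    exact ENNReal.toReal_le_of_le_ofReal (by positivity) h4
  have h6 : 0 ≤ ∫ p in FarP T ε, pairW c T 1 p
      ∂((muW T).prod muZ) := integral_nonneg hnnT
  rw [Real.dist_eq, sub_zero, abs_of_nonneg (div_nonneg h6 hTL.le), div_lt_iff₀ hTL]
  rw [div_lt_iff₀ hTL] at h1 h2
  have e1 : C / η * M ≤ e / 4 * (T * Real.log T) := by
    calc C / η * M ≤ C / η * (e / (4 * (C / η)) * (T * Real.log T)) := by gcongr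
      _ = e / 4 * (T * Real.log T) := by field_simp
  have e2 : C * η * (T * Real.log T) = e / 4 * (T * Real.log T) := by
    rw [hη]; field_simp
  have e3 : C * (T ^ (1/4 : ℝ) * Real.log (T + 2) ^ 2) ≤ e / 4 * (T * Real.log T) := by
    calc C * (T ^ (1/4 : ℝ) * Real.log (T + 2) ^ 2) ≤ C * (e / (4 * C) * (T * Real.log T)) := by
          gcongr
      _ = _ := by field_simp
  have e4 : 0 < e * (T * Real.log T) := by positivity
  linarith

/-- (OD2'): replacing `ρ-ρ'` by `i(γ-γ')` when most zeros are within `o(1/log T)` of the line. -/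
theorem statementOD2_near (hB : StatementB) : ∃ b₀ : ℝ, 0 < b₀ ∧ ∀ χ : ℝ → ℝ, TF χ b₀ →
    ∀ l : Filter ℝ, l ≤ atTop →
    (∀ ε : ℝ, 0 < ε → Tendsto (fun T : ℝ => (muZ (FarW T ε)).toReal / (T * Real.log T)) l (𝓝 0)) →
    Tendsto (fun T : ℝ => ‖Spair χ T - Spair0 χ T‖ / (T * Real.log T)) l (𝓝 0) := by
  obtain ⟨c₁, hc₁, hfar⟩ := pbfar_lintegral hB
  obtain ⟨c₂, hc₂, C₂, hC₂, T₂, hT₂, h2⟩ := pb_lintegral hB
  set c := min c₁ c₂ with hc
  have hc0 : 0 < c := by positivity
  obtain ⟨C₁, hC₁, T₁, hT₁, h1⟩ := hfar c hc0 (min_le_left _ _)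
  have hPB : ∀ T : ℝ, T₂ ≤ T → Integrable (pairW c T 1) ((muW T).prod muZ) ∧
      ∫ p, pairW c T 1 p ∂((muW T).prod muZ) ≤ C₂ * (T * Real.log T) := by
    intro T hT
    have hTe : Real.exp 1 ≤ T := hT₂.trans hT
    have hT1 : 1 ≤ T := (Real.one_le_exp (by norm_num)).trans hTe
    have hL0 : 0 ≤ Real.log T := Real.log_nonneg hT1
    have hδ : T ^ (-(1/2) : ℝ) ≤ 1 := Real.rpow_le_one_of_one_le_of_nonpos hT1 (by norm_num)
    have h3 : ∫⁻ p, ENNReal.ofReal (pairW c T 1 p) ∂((muW T).prod muZ) ≤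
        ENNReal.ofReal (C₂ * (T * Real.log T) / 1) := by
      refine le_trans (lintegral_mono fun p => ?_) (h2 T hT 1 hδ le_rfl)
      exact ENNReal.ofReal_le_ofReal (pairW_mono (min_le_right _ _) hT1 zero_le_one p)
    have hnn : ∀ p, 0 ≤ pairW c T 1 p := fun p => pairW_nonneg c T 1 p hL0 one_pos
    constructor
    · refine ⟨(measurable_pairW _ T 1).aestronglyMeasurable, ?_⟩
      rw [hasFiniteIntegral_iff_ofReal (Eventually.of_forall hnn)]
      exact h3.trans_lt ENNReal.ofReal_lt_top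
    · rw [integral_eq_lintegral_of_nonneg_ae (Eventually.of_forall hnn)
        (measurable_pairW _ T 1).aestronglyMeasurable]
      rw [div_one] at h3
      exact ENNReal.toReal_le_of_le_ofReal (by positivity) h3
  refine ⟨c / 2, by positivity, fun χ hχ l hl hx => ?_⟩
  obtain ⟨C, hC, hS⟩ := Spair_sub_near hχ (by positivity) hc0 le_rfl
  rw [Metric.tendsto_nhds]
  intro e he
  set ε : ℝ := min 1 (e / (2 * (C * C₂ + 1))) with hε
  have hε0 : 0 < ε := by positivity
  have hε1 : ε ≤ 1 := min_le_left _ _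
  have hfar' := (pbfar_tendsto hC₁ hT₁ (fun T hT η hη => h1 T hT ε hε0 η hη) hl (hx ε hε0)).const_mul C
  rw [mul_zero] at hfar'
  filter_upwards [hfar'.eventually (gt_mem_nhds (show (0:ℝ) < e / 2 by positivity)),
    hl (eventually_ge_atTop T₂)] with T h3 hT
  have hTe : Real.exp 1 ≤ T := hT₂.trans hT
  have hT1 : 1 < T := (Real.one_lt_exp_iff.mpr one_pos).trans_le hTe
  have hT0 : 0 < T := by linarith
  have hL0 : 0 < Real.log T := Real.log_pos hT1
  have hTL : 0 < T * Real.log T := by positivity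
  obtain ⟨hi, hI⟩ := hPB T hT
  have h4 := hS T ε hL0 hε0 hε1 hi
  rw [Real.dist_eq, sub_zero, abs_of_nonneg (by positivity), div_lt_iff₀ hTL]
  rw [← mul_div_assoc, div_lt_iff₀ hTL] at h3
  have h5 : C * (ε * ∫ p, pairW c T 1 p ∂((muW T).prod muZ)) ≤ e / 2 * (T * Real.log T) := by
    calc C * (ε * ∫ p, pairW c T 1 p ∂((muW T).prod muZ)) ≤ C * (ε * (C₂ * (T * Real.log T))) := by gcongr
      _ ≤ C * (e / (2 * (C * C₂ + 1)) * (C₂ * (T * Real.log T))) := by
          gcongr
          exact min_le_right _ _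
      _ = e / 2 * (T * Real.log T) * (C * C₂ / (C * C₂ + 1)) := by field_simp
      _ ≤ e / 2 * (T * Real.log T) * 1 := by
          gcongr
          rw [div_le_one (by positivity)]
          linarith
      _ = _ := mul_one _
  calc ‖Spair χ T - Spair0 χ T‖ ≤ C * (∫ p in FarP T ε, pairW c T 1 p ∂((muW T).prod muZ)) +
        C * (ε * ∫ p, pairW c T 1 p ∂((muW T).prod muZ)) := by rw [← mul_add]; exact h4
    _ < e / 2 * (T * Real.log T) + e / 2 * (T * Real.log T) := by linarith
    _ = e * (T * Real.log T) := by ring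

end Pool.Agent.PairCorr
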