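import Mathlib
import Pool.Agent.PairCorr.A_SignMain
import Pool.Agent.PairCorr.OD4

/-!
Rigidity from windows with few sign changes, when most zeros are within `o(1/log T)` of the line.
-/

set_option autoImplicit false

namespace Pool.Agent.PairCorr

open MeasureTheory Filter Topology Set Real
open scoped ENNReal

/-- most zeros are within `o(1/log T)` of the critical line -/
def NearLine (l : Filter ℝ) : Prop :=
  ∀ ε : ℝ, 0 < ε → Tendsto (fun T : ℝ => (muZ (FarW T ε)).toReal / (T * Real.log T)) l (𝓝 0)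

theorem JJ_tendsto_near : ∃ b₀ : ℝ, 0 < b₀ ∧ b₀ ≤ 1 ∧ ∀ q χ : ℝ → ℝ, TP q χ b₀ → ∀ l : Filter ℝ, l ≤ atTop →
    NearLine l → Tendsto (JJ q) l (𝓝 0) := by
  obtain ⟨b₀, hb₀, hb₀1, hJ⟩ := JJ_bound statementS'
  obtain ⟨b₁, hb₁, hOD⟩ := statementOD2_near Pool.Agent.PC10.statementB
  refine ⟨min b₀ b₁, lt_min hb₀ hb₁, (min_le_left _ _).trans hb₀1, fun q χ hq l hl hM => ?_⟩
  obtain ⟨e, he, hJb⟩ := hJ q χ (hq.mono (min_le_left _ _))
  have h1 := hOD χ (hq.mono (min_le_right _ _)).tf l hl hM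
  have h2 : Tendsto (fun T => e T + 2 * π * (‖Spair χ T - Spair0 χ T‖ / (T * Real.log T))) l (𝓝 0) := by
    have := (he.mono_left hl).add (h1.const_mul (2 * π))
    simpa using this
  have hev : ∀ᶠ T in l, Real.exp 1 ≤ T := (eventually_ge_atTop (Real.exp 1)).filter_mono hl
  apply squeeze_zero_norm' _ h2
  filter_upwards [hev] with T hT
  rw [Real.norm_eq_abs]
  refine (hJb T hT).trans (le_of_eq ?_)
  congr 1
  unfold NT
  have hT0 : 0 < T := (Real.exp_pos 1).trans_le hT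
  have hL1 : 1 ≤ Real.log T := by rw [Real.le_log_iff_exp_le hT0]; exact hT
  have hpi := Real.pi_pos
  field_simp

/-- **Sign pattern theorem**: if most zeros are within `o(1/log T)` of the critical line, and the sign of
the deviation of the symmetric count changes rarely on arbitrarily far windows, then the pair
correlation conjecture holds. -/
theorem main_sign2 : ∃ b : ℝ, 0 < b ∧ ∀ c : ℝ, 0 < c → ∀ (l : Filter ℝ) [l.IsCountablyGenerated], l ≤ atTop →
    NearLine l → ∀ B : ℝ, 0 ≤ B →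
    (∀ X : ℝ, ∃ A : ℝ, X ≤ A ∧ ∃ E : Finset ℝ, (E.card : ℝ) ≤ kapS b c * A ∧ ∃ s : ℝ, (s = 1 ∨ s = -1) ∧
      ∀ a ∈ Icc A (R0 * A), ∀ ε > 0, ∀ᶠ T in l,
        -(B * Real.exp (-(c * a))) - ε ≤ s * sgnE E a * ((Mr T - 1) / 2 + (Lr T a - gue a))) →
    Tendsto Mr l (𝓝 1) ∧ ∀ a > 0, Tendsto (fun T => Lr T a) l (𝓝 (gue a)) := by
  obtain ⟨b₀, hb₀, hb₀1, hJ⟩ := JJ_tendsto_near
  refine ⟨b₀, hb₀, fun c hc l _ hl hM B hB hi => ?_⟩
  obtain ⟨C, hC, T₀, hT₀, hq⟩ := Mr_le_of_quad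
  obtain ⟨C', hC', hP1⟩ := Lr_gue_bound
  have hev : ∀ᶠ T in l, T₀ ≤ T := (eventually_ge_atTop T₀).filter_mono hl
  set D : ℝ → ℝ → ℝ := fun T u => Mr (max T (Real.exp 1)) / 2 + Lr (max T (Real.exp 1)) u with hD
  set G : ℝ → ℝ := fun u => 1 / 2 + gue u with hG
  have hDm : ∀ T, Monotone (D T) := fun T => (Lr_mono (le_max_right _ _)).const_add _
  have hGl : ∀ u v, |G u - G v| ≤ |u - v| := by
    intro u v
    simp only [hG]
    rw [add_sub_add_left_eq_sub]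
    exact gue_lipschitz u v
  have hDeq : ∀ T, T₀ ≤ T → ∀ u, D T u = Mr T / 2 + Lr T u := by
    intro T hT u
    simp only [hD, max_eq_left (hT₀.trans hT)]
  have hMe : ∀ᶠ T in l, ∀ a, D T a - G a = (Mr T - 1) / 2 + (Lr T a - gue a) := by
    filter_upwards [hev] with T hT a
    rw [hDeq T hT]
    simp only [hG]; ring
  have hMb : ∀ᶠ T in l, |(Mr T - 1) / 2| ≤ C + 1 := by
    filter_upwards [hev] with T hT
    have h1 := (abs_le.1 (hq T hT).1).2
    have h2 : 0 ≤ Mr T := Mr_nonneg (hT₀.trans hT)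
    rw [abs_le]
    constructor <;> linarith
  have hDC : ∀ᶠ T in l, ∀ u ≥ 0, |D T u - G u| ≤ (2 * C + 1) * (1 + u) ^ 2 := by
    filter_upwards [hev, hMe, hMb] with T hT h1 h2 u hu
    have hu' : (0:ℝ) ≤ u := hu
    rw [h1]
    have h3 := (hq T hT).2 u hu
    have h5 : (1:ℝ) ≤ (1 + u) ^ 2 := by nlinarith
    calc |(Mr T - 1) / 2 + (Lr T u - gue u)| ≤ |(Mr T - 1) / 2| + |Lr T u - gue u| := abs_add_le _ _
      _ ≤ (C + 1) + C * (1 + u) ^ 2 := by linarith
      _ ≤ _ := by nlinarith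
  have hDC' : ∀ u ≥ 0, ∀ᶠ T in l, |D T u - G u| ≤ C' + (C + 1) := by
    intro u hu
    filter_upwards [hMe, hMb, (hP1 u hu).filter_mono hl] with T h1 h2 h3
    rw [h1]
    calc |(Mr T - 1) / 2 + (Lr T u - gue u)| ≤ |(Mr T - 1) / 2| + |Lr T u - gue u| := abs_add_le _ _
      _ ≤ _ := by linarith
  have hgap : ∀ φ : ℝ → ℝ, TF φ b₀ →
      Tendsto (fun T => ∫ u in Ioi (0:ℝ), (Kc φ ((2 * π * u : ℝ) * Complex.I)).im * (D T u - G u)) l (𝓝 0) := by
    intro φ hφ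
    obtain ⟨χ, hTP⟩ := TP_of_TF hb₀.le hφ
    refine (hJ _ χ hTP l hl hM).congr' ?_
    filter_upwards [hev] with T hT
    unfold JJ
    congr 1
    ext u
    rw [hDeq T hT]
  have hiD : ∀ X : ℝ, ∃ A : ℝ, X ≤ A ∧ ∃ E : Finset ℝ, (E.card : ℝ) ≤ kapS b₀ c * A ∧ ∃ s : ℝ, (s = 1 ∨ s = -1) ∧
      ∀ a ∈ Icc A (R0 * A), ∀ ε > 0, ∀ᶠ T in l,
        -(B * Real.exp (-(c * a))) - ε ≤ s * sgnE E a * (D T a - G a) := by
    intro X
    obtain ⟨A, hXA, E, hE, s, hs, hw⟩ := hi X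
    refine ⟨A, hXA, E, hE, s, hs, fun a ha ε hε => ?_⟩
    filter_upwards [hw a ha ε hε, hMe] with T h2 h4
    rw [h4]
    exact h2
  have hmain := rigidity_sign (l := l) (D := D) (G := G) hDm hGl hDC hDC' hb₀ hgap hB hc hiD
  have hMlim : Tendsto Mr l (𝓝 1) := by
    rw [Metric.tendsto_nhds]
    intro ε hε
    have h1 := Metric.tendsto_nhds.1 (hmain (ε / 4) (by positivity)) (ε / 8) (by positivity)
    have hr := Metric.tendsto_nhds.1 (NCount_NT.mono_left hl) ε hε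
    filter_upwards [h1, hr, hMe, hev] with T h1 h2 h3 h4
    rw [h3] at h1
    rw [Real.dist_eq] at h1 h2 ⊢
    rw [sub_zero] at h1
    have h5 := (abs_lt.1 h1).2
    have h6 : 0 ≤ Lr T (ε / 4) := Lr_nonneg (hT₀.trans h4) _
    have h7 : gue (ε / 4) ≤ ε / 4 := gue_le (by positivity)
    have h8 := Mr_ge_ratio (hT₀.trans h4)
    have h9 := (abs_lt.1 h2).1
    rw [abs_lt]
    constructor <;> linarith
  refine ⟨hMlim, fun a ha => ?_⟩
  have h1 := hmain a ha
  have h2 : Tendsto (fun T => (D T a - G a) - (Mr T - 1) / 2 + gue a) l (𝓝 (gue a)) := by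
    have h3 : Tendsto (fun T => (Mr T - 1) / 2) l (𝓝 0) := by
      have := (hMlim.sub_const 1).div_const 2
      simpa using this
    have := (h1.sub h3).add_const (gue a)
    simpa using this
  refine h2.congr' ?_
  filter_upwards [hMe] with T hT
  rw [hT]; ring

end Pool.Agent.PairCorr
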