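import Mathlib
import Pool.Agent.PairCorr.A_SignMain2
import Pool.Agent.PairCorr.P1_Final

/-!
The symmetric pair count, the diagonal included.
-/

set_option autoImplicit false

namespace Pool.Agent.PairCorr

open MeasureTheory Filter Topology Set Real
open scoped ENNReal

/-- the pairs with `0 < γ ≤ T` and `|γ - γ'| ≤ 2πa/log T` -/
def symPairs (T a : ℝ) : Set (ℂ × ℂ) :=
  {p | p.1 ∈ NTZ ∧ p.2 ∈ NTZ ∧ 0 < p.1.im ∧ p.1.im ≤ T ∧ |p.1.im - p.2.im| ≤ 2 * Real.pi * a / Real.log T}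

/-- the symmetric count -/
noncomputable def N2 (T a : ℝ) : ℝ := ∑ᶠ p ∈ symPairs T a, ((mult p.1 : ℝ) * (mult p.2 : ℝ))

lemma symPairs_finite (T a : ℝ) : (symPairs T a).Finite := by
  have h1 := finite_NTZ_window 0 |T|
  have h2 := finite_NTZ_window 0 (|T| + |2 * Real.pi * a / Real.log T|)
  refine (h1.prod h2).subset ?_
  rintro ⟨ρ, ρ'⟩ ⟨h3, h4, h5, h6, h7⟩
  simp only at h3 h4 h5 h6 h7
  have e1 := le_abs_self T
  have e2 := le_abs_self (2 * Real.pi * a / Real.log T)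
  refine ⟨⟨h3, ?_⟩, ⟨h4, ?_⟩⟩
  · rw [sub_zero, abs_of_pos h5]
    exact h6.trans (le_abs_self _)
  · simp only [sub_zero]
    have e3 : |ρ'.im| ≤ |ρ.im| + |ρ.im - ρ'.im| := by
      have : ρ'.im = ρ.im - (ρ.im - ρ'.im) := by ring
      conv_lhs => rw [this]
      exact abs_sub _ _
    rw [abs_of_pos h5] at e3
    linarith

lemma N2_nonneg (T a : ℝ) : 0 ≤ N2 T a := by
  unfold N2
  exact finsum_nonneg fun ρ => finsum_nonneg fun _ => by positivity

lemma N2_measure (T a : ℝ) : (nu T) (SymSet T a) = ENNReal.ofReal (N2 T a) := by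
  unfold nu
  rw [muW_prod_restrict, Measure.restrict_apply (measurableSet_SymSet T a)]
  have hm : MeasurableSet (SymSet T a ∩ WT T ×ˢ univ) :=
    (measurableSet_SymSet T a).inter ((measurableSet_WT T).prod MeasurableSet.univ)
  have hset : {p : ℂ × ℂ | p.1 ∈ NTZ ∧ p.2 ∈ NTZ ∧ p ∈ SymSet T a ∩ WT T ×ˢ univ} = symPairs T a := by
    ext p
    simp only [symPairs, SymSet, WT, mem_inter_iff, mem_ofPred_eq, mem_prod, mem_univ, and_true]
    tauto
  rw [muZ_prod_apply hm (by rw [hset]; exact symPairs_finite T a), hset]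
  rfl

lemma logsq_small (K : ℝ) : Tendsto (fun T : ℝ => K * Real.log (T + 2) ^ 2 / NT T) atTop (𝓝 0) := by
  have h1 := err_tendsto
  have h2 : Tendsto (fun T : ℝ => (2 * π * |K|) * (T ^ (1/4 : ℝ) * Real.log (T + 2) ^ 2 / (T * Real.log T)))
      atTop (𝓝 0) := by
    have := h1.const_mul (2 * π * |K|)
    rwa [mul_zero] at this
  apply squeeze_zero_norm' _ h2
  filter_upwards [eventually_gt_atTop 1] with T hT
  have hL := Real.log_pos hT
  have hT0 : 0 < T := by linarith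
  have hpi := Real.pi_pos
  have hNT : 0 < NT T := by unfold NT; positivity
  rw [norm_div, norm_mul, Real.norm_eq_abs, Real.norm_eq_abs, Real.norm_eq_abs, abs_of_pos hNT,
    abs_of_nonneg (by positivity : 0 ≤ Real.log (T + 2) ^ 2)]
  have e : |K| * Real.log (T + 2) ^ 2 / NT T = 2 * π * |K| * (1 * Real.log (T + 2) ^ 2 / (T * Real.log T)) := by
    unfold NT
    field_simp
  rw [e]
  have h3 : 1 ≤ T ^ (1/4 : ℝ) := Real.one_le_rpow hT.le (by norm_num)
  gcongr

lemma N2_ratio {a : ℝ} (ha : 0 ≤ a) :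
    Tendsto (fun T => N2 T a / NT T - (2 * Lr T a + Mr T)) atTop (𝓝 0) := by
  obtain ⟨C, hC, h⟩ := P1.up_le
  have hs := logsq_small (C * (1 + 2 * π * a) ^ 4)
  apply squeeze_zero_norm' _ hs
  filter_upwards [eventually_ge_atTop (Real.exp 1)] with T hT
  have hT1 : 1 < T := (Real.one_lt_exp_iff.mpr one_pos).trans_le hT
  have hL := Real.log_pos hT1
  have hT0 : 0 < T := by linarith
  have hpi := Real.pi_pos
  have hNT : 0 < NT T := by unfold NT; positivity
  obtain ⟨h1, h2⟩ := h T hT a ha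
  have hfinS : (nu T) (SymSet T a) ≠ ⊤ := by rw [N2_measure]; exact ENNReal.ofReal_ne_top
  have hsum := P1.measure_SymSet ha hT1 (nu T)
  have hf1 : (nu T) (NSset T a) ≠ ⊤ := (NSset_lt_top T a).ne
  have hf2 : (nu T) P1.DgSet ≠ ⊤ := by
    apply ne_top_of_le_ne_top hfinS
    rw [hsum]
    exact le_add_left le_self_add
  have hf3 : (nu T) (P1.UpSet T a) ≠ ⊤ := by
    apply ne_top_of_le_ne_top hfinS
    rw [hsum]
    exact le_add_left le_add_self
  have hsumR : N2 T a = ((nu T) (NSset T a)).toReal +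
      (((nu T) P1.DgSet).toReal + ((nu T) (P1.UpSet T a)).toReal) := by
    have e : N2 T a = ((nu T) (SymSet T a)).toReal := by
      rw [N2_measure, ENNReal.toReal_ofReal (N2_nonneg T a)]
    rw [e, hsum, ENNReal.toReal_add hf1 (ENNReal.add_ne_top.mpr ⟨hf2, hf3⟩),
      ENNReal.toReal_add hf2 hf3]
  have hE0 : 0 ≤ C * (1 + 2 * π * a) ^ 4 * Real.log (T + 2) ^ 2 := by positivity
  have h1' : ((nu T) (P1.UpSet T a)).toReal ≤ ((nu T) (NSset T a)).toReal +
      C * (1 + 2 * π * a) ^ 4 * Real.log (T + 2) ^ 2 := by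
    have := ENNReal.toReal_mono (ENNReal.add_ne_top.2 ⟨hf1, ENNReal.ofReal_ne_top⟩) h1
    rw [ENNReal.toReal_add hf1 ENNReal.ofReal_ne_top, ENNReal.toReal_ofReal hE0] at this
    exact this
  have h2' : ((nu T) (NSset T a)).toReal ≤ ((nu T) (P1.UpSet T a)).toReal +
      C * (1 + 2 * π * a) ^ 4 * Real.log (T + 2) ^ 2 := by
    have := ENNReal.toReal_mono (ENNReal.add_ne_top.2 ⟨hf3, ENNReal.ofReal_ne_top⟩) h2
    rw [ENNReal.toReal_add hf3 ENNReal.ofReal_ne_top, ENNReal.toReal_ofReal hE0] at this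
    exact this
  have e3 : N2 T a / NT T - (2 * Lr T a + Mr T) =
      (((nu T) (P1.UpSet T a)).toReal - ((nu T) (NSset T a)).toReal) / NT T := by
    have eM : Mr T = ((nu T) P1.DgSet).toReal / NT T := rfl
    rw [eM, hsumR]
    unfold Lr
    field_simp
    ring
  rw [e3, Real.norm_eq_abs, abs_div, abs_of_pos hNT]
  apply div_le_div_of_nonneg_right _ hNT.le
  rw [abs_le]
  constructor <;> linarith

/-- the number of zeros further than `ε/log T` from the critical line, with multiplicity -/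
noncomputable def farCount (T ε : ℝ) : ℝ :=
  ∑ᶠ ρ ∈ {ρ : ℂ | ρ ∈ NTZ ∧ 0 < ρ.im ∧ ρ.im ≤ T ∧ ε / Real.log T < |ρ.re - 1 / 2|}, (mult ρ : ℝ)

lemma farSet_finite (T ε : ℝ) :
    ({ρ : ℂ | ρ ∈ NTZ ∧ 0 < ρ.im ∧ ρ.im ≤ T ∧ ε / Real.log T < |ρ.re - 1 / 2|}).Finite := by
  refine (finite_NTZ_window 0 (|T|)).subset ?_
  rintro ρ ⟨h1, h2, h3, _⟩
  refine ⟨h1, ?_⟩
  rw [sub_zero, abs_of_pos h2]
  exact h3.trans (le_abs_self _)

lemma farCount_nonneg (T ε : ℝ) : 0 ≤ farCount T ε := by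
  unfold farCount
  exact finsum_nonneg fun ρ => finsum_nonneg fun _ => by positivity

lemma farCount_measure (T ε : ℝ) : muZ (FarW T ε) = ENNReal.ofReal (farCount T ε) := by
  have hset : {ρ : ℂ | ρ ∈ NTZ ∧ ρ ∈ FarW T ε} =
      {ρ : ℂ | ρ ∈ NTZ ∧ 0 < ρ.im ∧ ρ.im ≤ T ∧ ε / Real.log T < |ρ.re - 1 / 2|} := by
    ext ρ
    simp only [FarW, WT, mem_ofPred_eq]
    tauto
  have hfin : ({ρ : ℂ | ρ ∈ NTZ ∧ ρ ∈ FarW T ε}).Finite := by
    rw [hset]; exact farSet_finite T ε
  have h := muZ_lintegral_set (measurableSet_FarW T ε) hfin (f := fun _ => 1) (fun z => zero_le_one)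
  simp only [ENNReal.ofReal_one, lintegral_one, Measure.restrict_apply_univ, mul_one] at h
  rw [h]
  unfold farCount
  rw [hset]

lemma NearLine_iff (l : Filter ℝ) : NearLine l ↔
    ∀ ε : ℝ, 0 < ε → Tendsto (fun T : ℝ => farCount T ε / (T * Real.log T)) l (𝓝 0) := by
  unfold NearLine
  have e : ∀ T ε : ℝ, (muZ (FarW T ε)).toReal = farCount T ε := by
    intro T ε
    rw [farCount_measure, ENNReal.toReal_ofReal (farCount_nonneg T ε)]
  simp_rw [e]

lemma NearLine_of_Mr {l : Filter ℝ} (hl : l ≤ atTop) (hM : Tendsto Mr l (𝓝 1)) : NearLine l := by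
  intro ε hε
  have h1 := offm_small hl hM
  refine squeeze_zero' ?_ ?_ h1
  · filter_upwards [hl (eventually_ge_atTop 1)] with T hT
    have := Real.log_nonneg hT
    positivity
  · filter_upwards [hl (eventually_gt_atTop 1)] with T hT
    have hL := Real.log_pos hT
    have hT0 : 0 < T := by linarith
    apply div_le_div_of_nonneg_right _ (by positivity)
    have hsub : FarW T ε ⊆ {z | z ∈ WT T ∧ z.re ≠ 1 / 2} := by
      rintro z ⟨h2, h3⟩
      refine ⟨h2, fun h4 => ?_⟩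
      rw [h4, sub_self, abs_zero] at h3
      have : 0 < ε / Real.log T := by positivity
      linarith
    exact ENNReal.toReal_mono (offm_lt_top T).ne (measure_mono hsub)

end Pool.Agent.PairCorr
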