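import Mathlib

set_option autoImplicit false

namespace Pool.Agent.PairCorr.P6

open MeasureTheory Filter Topology Set Real
open scoped ENNReal

section
variable {Ω : Type*} [MeasurableSpace Ω] {m : Measure Ω}

/-- the symmetrised law -/
noncomputable def symLaw (m : Measure Ω) (w X : Ω → ℝ) : Measure ℝ :=
  (ENNReal.ofReal (1 / (2 * ∫ p, w p ∂m))) •
    ((m.withDensity (fun p => ENNReal.ofReal (w p))).map X +
      (m.withDensity (fun p => ENNReal.ofReal (w p))).map (fun p => - X p))

lemma symLaw_int {w X : Ω → ℝ} (hwm : Measurable w) (hw : Integrable w m) (hw0 : ∀ p, 0 ≤ w p) (hX : Measurable X)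
    (hpos : 0 < ∫ p, w p ∂m) {E : Type*} [NormedAddCommGroup E] [NormedSpace ℝ E] [CompleteSpace E]
    {f : ℝ → E} (hf : Continuous f) {C : ℝ} (hC : ∀ x, ‖f x‖ ≤ C) :
    ∫ x, f x ∂(symLaw m w X) = (1 / (2 * ∫ p, w p ∂m)) •
      ((∫ p, w p • f (X p) ∂m) + ∫ p, w p • f (-X p) ∂m) := by
  have hfin : IsFiniteMeasure (m.withDensity (fun p => ENNReal.ofReal (w p))) := by
    apply isFiniteMeasure_withDensity_ofReal hw.2
  have key : ∀ Y : Ω → ℝ, Measurable Y → Integrable f ((m.withDensity (fun p => ENNReal.ofReal (w p))).map Y) ∧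
      ∫ x, f x ∂((m.withDensity (fun p => ENNReal.ofReal (w p))).map Y) = ∫ p, w p • f (Y p) ∂m := by
    intro Y hY
    have hfin2 : IsFiniteMeasure ((m.withDensity (fun p => ENNReal.ofReal (w p))).map Y) :=
      Measure.isFiniteMeasure_map _ _
    refine ⟨?_, ?_⟩
    · exact Integrable.of_bound hf.aestronglyMeasurable C (Eventually.of_forall hC)
    · rw [integral_map hY.aemeasurable hf.aestronglyMeasurable]
      rw [integral_withDensity_eq_integral_toReal_smul (by fun_prop) (Eventually.of_forall fun _ => ENNReal.ofReal_lt_top)]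
      congr 1
      ext p
      rw [ENNReal.toReal_ofReal (hw0 p)]
  have hXn : Measurable (fun p => -X p) := hX.neg
  unfold symLaw
  rw [integral_smul_measure, integral_add_measure (key X hX).1 (key _ hXn).1, (key X hX).2, (key _ hXn).2,
    ENNReal.toReal_ofReal (by positivity)]

lemma symLaw_prob {w X : Ω → ℝ} (hw : Integrable w m) (hw0 : ∀ p, 0 ≤ w p) (hX : Measurable X)
    (hpos : 0 < ∫ p, w p ∂m) : IsProbabilityMeasure (symLaw m w X) := by
  constructor
  have hXn : Measurable (fun p => -X p) := hX.neg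
  unfold symLaw
  rw [Measure.smul_apply, Measure.add_apply, Measure.map_apply hX MeasurableSet.univ,
    Measure.map_apply hXn MeasurableSet.univ]
  simp only [preimage_univ]
  rw [withDensity_apply _ MeasurableSet.univ, Measure.restrict_univ,
    ← ofReal_integral_eq_lintegral_ofReal hw (Eventually.of_forall hw0), ← ENNReal.ofReal_add hpos.le hpos.le,
    smul_eq_mul, ← ENNReal.ofReal_mul (by positivity), ENNReal.ofReal_eq_one]
  field_simp
  ring

/-- Lévy's theorem for cosine transforms (sequences). -/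
lemma levy_seq {w X : ℕ → Ω → ℝ} (hwm : ∀ n, Measurable (w n)) (hw : ∀ n, Integrable (w n) m) (hw0 : ∀ n p, 0 ≤ w n p)
    (hX : ∀ n, Measurable (X n)) (hpos : ∀ n, 0 < ∫ p, w n p ∂m) {ρ : Measure ℝ} [IsFiniteMeasure ρ]
    (hρ0 : 0 < ρ.real univ) (hρ : ρ.map (fun x => -x) = ρ)
    (h : ∀ t : ℝ, Tendsto (fun n => ∫ p, w n p * Real.cos (t * X n p) ∂m) atTop (𝓝 (∫ x, Real.cos (t * x) ∂ρ)))
    {g : ℝ → ℝ} (hg : Continuous g) {C : ℝ} (hC : ∀ x, |g x| ≤ C) (hge : ∀ x, g (-x) = g x) :
    Tendsto (fun n => ∫ p, w n p * g (X n p) ∂m) atTop (𝓝 (∫ x, g x ∂ρ)) := by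
  set M : ℝ := ρ.real univ with hM
  -- the masses
  have hmass : Tendsto (fun n => ∫ p, w n p ∂m) atTop (𝓝 M) := by
    have h0 := h 0
    simp only [zero_mul, Real.cos_zero, mul_one] at h0
    rw [integral_const, smul_eq_mul, mul_one] at h0
    exact h0
  let P : ℕ → ProbabilityMeasure ℝ := fun n => ⟨symLaw m (w n) (X n), symLaw_prob (hw n) (hw0 n) (hX n) (hpos n)⟩
  have hρprob : IsProbabilityMeasure (ENNReal.ofReal (1 / M) • ρ) := by
    constructor
    rw [Measure.smul_apply, smul_eq_mul]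
    have : ρ univ = ENNReal.ofReal M := by
      rw [hM, Measure.real, ENNReal.ofReal_toReal (measure_ne_top _ _)]
    rw [this, ← ENNReal.ofReal_mul (by positivity), ENNReal.ofReal_eq_one]
    field_simp
  let P0 : ProbabilityMeasure ℝ := ⟨ENNReal.ofReal (1 / M) • ρ, hρprob⟩
  have hP0 : ∀ {E : Type} [NormedAddCommGroup E] [NormedSpace ℝ E] (f : ℝ → E),
      ∫ x, f x ∂(P0 : Measure ℝ) = (1 / M) • ∫ x, f x ∂ρ := by
    intro E _ _ f
    show ∫ x, f x ∂(ENNReal.ofReal (1 / M) • ρ) = _
    rw [integral_smul_measure, ENNReal.toReal_ofReal (by positivity)]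
  have hev : ∀ (f : ℝ → ℝ), Continuous f → (∃ C, ∀ x, |f x| ≤ C) → (∀ x, f (-x) = f x) → ∀ n,
      ∫ x, f x ∂(P n : Measure ℝ) = (1 / ∫ p, w n p ∂m) * ∫ p, w n p * f (X n p) ∂m := by
    intro f hf ⟨C, hC⟩ hfe n
    show ∫ x, f x ∂(symLaw m (w n) (X n)) = _
    rw [symLaw_int (hwm n) (hw n) (hw0 n) (hX n) (hpos n) hf (C := C) hC]
    simp_rw [hfe, smul_eq_mul]
    have := hpos n
    field_simp
    ring
  have hcf : ∀ t : ℝ, Tendsto (fun n => charFun (P n : Measure ℝ) t) atTop (𝓝 (charFun (P0 : Measure ℝ) t)) := by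
    intro t
    have e1 : ∀ x : ℝ, Complex.exp (t * x * Complex.I) = (Real.cos (t * x) : ℂ) + (Real.sin (t * x) : ℂ) * Complex.I := by
      intro x
      have := Complex.exp_mul_I ((t * x : ℝ) : ℂ)
      rw [← Complex.ofReal_cos, ← Complex.ofReal_sin] at this
      rw [← this]; push_cast; rfl
    -- general: for a probability (finite) measure with odd integrals vanishing
    have hsymm : ∀ (μ : Measure ℝ) [IsFiniteMeasure μ], (∫ x, Real.sin (t * x) ∂μ = 0) →
        charFun μ t = ((∫ x, Real.cos (t * x) ∂μ : ℝ) : ℂ) := by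
      intro μ _ hs
      rw [charFun_apply_real]
      simp_rw [e1]
      have i1 : Integrable (fun x : ℝ => ((Real.cos (t * x) : ℝ) : ℂ)) μ := by
        refine Integrable.of_bound (by fun_prop) 1 (Eventually.of_forall fun x => ?_)
        rw [Complex.norm_real, Real.norm_eq_abs]; exact Real.abs_cos_le_one _
      have i2 : Integrable (fun x : ℝ => ((Real.sin (t * x) : ℝ) : ℂ) * Complex.I) μ := by
        refine Integrable.of_bound (by fun_prop) 1 (Eventually.of_forall fun x => ?_)
        rw [norm_mul, Complex.norm_I, mul_one, Complex.norm_real, Real.norm_eq_abs]; exact Real.abs_sin_le_one _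
      rw [integral_add i1 i2, integral_mul_const, integral_complex_ofReal, integral_complex_ofReal, hs]
      simp
    have hs1 : ∀ n, ∫ x, Real.sin (t * x) ∂(P n : Measure ℝ) = 0 := by
      intro n
      show ∫ x, Real.sin (t * x) ∂(symLaw m (w n) (X n)) = _
      rw [symLaw_int (hwm n) (hw n) (hw0 n) (hX n) (hpos n) (by fun_prop) (C := 1)
        (fun x => by rw [Real.norm_eq_abs]; exact Real.abs_sin_le_one _)]
      simp only [mul_neg, Real.sin_neg, smul_eq_mul, integral_neg, add_neg_cancel, mul_zero]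
    have hs0 : ∫ x, Real.sin (t * x) ∂(P0 : Measure ℝ) = 0 := by
      rw [hP0]
      have : ∫ x, Real.sin (t * x) ∂ρ = 0 := by
        have h1 : ∫ x, Real.sin (t * x) ∂ρ = ∫ x, Real.sin (t * (-x)) ∂ρ := by
          conv_lhs => rw [← hρ]
          rw [integral_map (by fun_prop) (by fun_prop)]
        have h2 : ∫ x, Real.sin (t * (-x)) ∂ρ = - ∫ x, Real.sin (t * x) ∂ρ := by
          rw [← integral_neg]; congr 1; ext x; rw [mul_neg, Real.sin_neg]
        linarith
      rw [this, smul_zero]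
    rw [hsymm _ hs0]
    simp_rw [fun n => hsymm (P n : Measure ℝ) (hs1 n)]
    apply (Complex.continuous_ofReal.tendsto _).comp
    rw [hP0]
    have hc : ∀ n, ∫ x, Real.cos (t * x) ∂(P n : Measure ℝ) =
        (1 / ∫ p, w n p ∂m) * ∫ p, w n p * Real.cos (t * X n p) ∂m := by
      intro n
      exact hev (fun x => Real.cos (t * x)) (by fun_prop) ⟨1, fun x => Real.abs_cos_le_one _⟩
        (fun x => by rw [mul_neg, Real.cos_neg]) n
    simp_rw [hc]
    exact (tendsto_const_nhds.div hmass hρ0.ne').mul (h t)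
  have hconv := ProbabilityMeasure.tendsto_of_tendsto_charFun hcf
  rw [ProbabilityMeasure.tendsto_iff_forall_integral_tendsto] at hconv
  have h1 := hconv (BoundedContinuousFunction.ofNormedAddCommGroup g hg C hC)
  simp only [BoundedContinuousFunction.coe_ofNormedAddCommGroup] at h1
  rw [hP0] at h1
  simp_rw [hev g hg ⟨C, hC⟩ hge] at h1
  have h2 := hmass.mul h1
  rw [smul_eq_mul, ← mul_assoc, mul_one_div_cancel hρ0.ne', one_mul] at h2
  refine h2.congr fun n => ?_
  rw [← mul_assoc, mul_one_div_cancel (hpos n).ne', one_mul]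

/-- Lévy's theorem for cosine transforms. -/
theorem levy_cos {w X : ℝ → Ω → ℝ} (hwm : ∀ᶠ T in atTop, Measurable (w T))
    (hw : ∀ᶠ T in atTop, Integrable (w T) m)
    (hw0 : ∀ᶠ T in atTop, ∀ p, 0 ≤ w T p) (hX : ∀ᶠ T in atTop, Measurable (X T))
    {ρ : Measure ℝ} [IsFiniteMeasure ρ] (hρ : ρ.map (fun x => -x) = ρ)
    (h : ∀ t : ℝ, 0 ≤ t → Tendsto (fun T => ∫ p, w T p * Real.cos (t * X T p) ∂m) atTop
      (𝓝 (∫ x, Real.cos (t * x) ∂ρ)))
    {g : ℝ → ℝ} (hg : Continuous g) {C : ℝ} (hC : ∀ x, |g x| ≤ C) (hge : ∀ x, g (-x) = g x) :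
    Tendsto (fun T => ∫ p, w T p * g (X T p) ∂m) atTop (𝓝 (∫ x, g x ∂ρ)) := by
  have h' : ∀ t : ℝ, Tendsto (fun T => ∫ p, w T p * Real.cos (t * X T p) ∂m) atTop
      (𝓝 (∫ x, Real.cos (t * x) ∂ρ)) := by
    intro t
    rcases le_total 0 t with ht | ht
    · exact h t ht
    · have := h (-t) (by linarith)
      simpa only [neg_mul, Real.cos_neg] using this
  have hmass : Tendsto (fun T => ∫ p, w T p ∂m) atTop (𝓝 (ρ.real univ)) := by
    have h0 := h 0 le_rfl
    simp only [zero_mul, Real.cos_zero, mul_one] at h0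
    rw [integral_const, smul_eq_mul, mul_one] at h0
    exact h0
  have hC0 : 0 ≤ C := (abs_nonneg _).trans (hC 0)
  rcases (measureReal_nonneg (μ := ρ) (s := univ)).eq_or_lt with h0 | h0
  · -- zero mass
    have hz : ρ = 0 := by
      rw [← Measure.measure_univ_eq_zero]
      exact (measureReal_eq_zero_iff (measure_ne_top _ _)).1 h0.symm
    rw [hz, integral_zero_measure]
    rw [← h0] at hmass
    have h2 := hmass.const_mul C
    rw [mul_zero] at h2
    refine squeeze_zero_norm' ?_ h2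
    filter_upwards [hw, hw0] with T h3 h4
    rw [← integral_const_mul]
    apply norm_integral_le_of_norm_le (h3.const_mul C)
    refine Eventually.of_forall fun p => ?_
    rw [norm_mul, Real.norm_eq_abs, Real.norm_eq_abs, abs_of_nonneg (h4 p), mul_comm]
    gcongr
    · exact h4 p
    · exact hC _
  · apply tendsto_of_seq_tendsto
    intro u hu
    have hall : ∀ᶠ n in atTop, Measurable (w (u n)) ∧ Integrable (w (u n)) m ∧ (∀ p, 0 ≤ w (u n) p) ∧
        Measurable (X (u n)) ∧ 0 < ∫ p, w (u n) p ∂m := by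
      have := hu.eventually ((hwm.and (hw.and (hw0.and (hX.and (hmass.eventually_const_lt h0))))))
      exact this
    obtain ⟨N, hN⟩ := eventually_atTop.1 hall
    rw [← tendsto_add_atTop_iff_nat N]
    have hu' : Tendsto (fun n => u (n + N)) atTop atTop := hu.comp (tendsto_add_atTop_nat N)
    exact levy_seq (w := fun n => w (u (n + N))) (X := fun n => X (u (n + N)))
      (fun n => (hN _ (by omega)).1) (fun n => (hN _ (by omega)).2.1) (fun n => (hN _ (by omega)).2.2.1)
      (fun n => (hN _ (by omega)).2.2.2.1) (fun n => (hN _ (by omega)).2.2.2.2) h0 hρ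
      (fun t => (h' t).comp hu') hg hC hge

end

end Pool.Agent.PairCorr.P6
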