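import Mathlib
import Pool.Agent.PairCorr.A_Main

set_option autoImplicit false

namespace Pool.Agent.PairCorr

open MeasureTheory Filter Topology Set Real
open scoped ENNReal ComplexConjugate

/-- Every even band-limited `χ` gives a test pair. -/
theorem exists_TP {χ : ℝ → ℝ} {b : ℝ} (h : TF χ b) (heven : ∀ v, χ (-v) = χ v) :
    ∃ q : ℝ → ℝ, TP q χ b ∧
      ∀ u : ℝ, HasDerivAt (fun u : ℝ => (Kc χ ((2 * π * u : ℝ) * Complex.I)).re) (-q u) u := by
  have hψ : TF (fun v => v * χ v) b := h.mul_id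
  set W : ℝ → ℂ := fun u => (2 * π * Complex.I) * Kc (fun v => v * χ v) ((2 * π * u : ℝ) * Complex.I) with hW
  have hreal : ∀ u : ℝ, Kc χ ((2 * π * u : ℝ) * Complex.I) =
      (((Kc χ ((2 * π * u : ℝ) * Complex.I)).re : ℝ) : ℂ) := by
    intro u
    rw [Kc_even_real h heven]
    simp
  have hd : ∀ u : ℝ, HasDerivAt (fun u : ℝ => Kc χ ((2 * π * u : ℝ) * Complex.I)) (W u) u := by
    intro u
    have h1 := h.hasDerivAt_Kc ((2 * π * u : ℝ) * Complex.I)
    have h2 : HasDerivAt (fun u : ℝ => ((2 * π * u : ℝ) : ℂ) * Complex.I) ((2 * π : ℝ) * Complex.I) u := by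
      have h3 : HasDerivAt (fun u : ℝ => 2 * π * u) (2 * π) u := by
        simpa using (hasDerivAt_id u).const_mul (2 * π)
      exact (h3.ofReal_comp).mul_const Complex.I
    have h3 := h1.comp_of_eq u h2 rfl
    refine h3.congr_deriv ?_
    simp only [hW]
    push_cast
    ring
  have hWc : Continuous W := by
    have : Continuous (fun u : ℝ => Kc (fun v => v * χ v) ((2 * π * u : ℝ) * Complex.I)) :=
      hψ.differentiable_Kc.continuous.comp (by fun_prop)
    simp only [hW]
    fun_prop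
  have hdre : ∀ u : ℝ, HasDerivAt (fun u : ℝ => (Kc χ ((2 * π * u : ℝ) * Complex.I)).re) ((W u).re) u := by
    intro u
    have h1 := (hd u).hasFDerivAt
    have h2 := Complex.reCLM.hasFDerivAt.comp u h1
    have h3 := h2.hasDerivAt
    refine h3.congr_deriv ?_
    simp
  have hdec : ∀ {φ : ℝ → ℝ}, TF φ b → ∀ N : ℕ, ∃ K : ℝ, 0 ≤ K ∧ ∀ u : ℝ,
      ‖Kc φ ((2 * π * u : ℝ) * Complex.I)‖ ≤ K * ((1 + |u|) ^ N)⁻¹ := by
    intro φ hφ N
    obtain ⟨C, hC, hb⟩ := hφ.decay_one_add N
    refine ⟨C, hC, fun u => ?_⟩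
    have h1 := hb ((2 * π * u : ℝ) * Complex.I)
    have hre : (((2 * π * u : ℝ) : ℂ) * Complex.I).re = 0 := by simp
    rw [hre, abs_zero, mul_zero, Real.exp_zero, mul_one] at h1
    have hn : ‖((2 * π * u : ℝ) : ℂ) * Complex.I‖ = 2 * π * |u| := by
      rw [norm_mul, Complex.norm_I, mul_one, Complex.norm_real, Real.norm_eq_abs, abs_mul,
        abs_of_pos (by positivity : 0 < 2 * π)]
    rw [hn] at h1
    have h2 : (1 + |u|) ^ N ≤ (1 + 2 * π * |u|) ^ N := by
      apply pow_le_pow_left₀ (by positivity)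
      have := Real.pi_gt_three
      nlinarith [abs_nonneg u]
    have hK := norm_nonneg (Kc φ ((2 * π * u : ℝ) * Complex.I))
    rw [← div_eq_mul_inv, le_div_iff₀ (by positivity)]
    calc ‖Kc φ ((2 * π * u : ℝ) * Complex.I)‖ * (1 + |u|) ^ N
        ≤ ‖Kc φ ((2 * π * u : ℝ) * Complex.I)‖ * (1 + 2 * π * |u|) ^ N := by gcongr
      _ = (1 + 2 * π * |u|) ^ N * ‖Kc φ ((2 * π * u : ℝ) * Complex.I)‖ := mul_comm _ _
      _ ≤ C := h1
  set q : ℝ → ℝ := fun u => -(W u).re with hq
  have hqc : Continuous q := (Complex.continuous_re.comp hWc).neg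
  have hqd : RapidDecay q := by
    intro N
    obtain ⟨K, hK, hb⟩ := hdec hψ N
    refine ⟨2 * π * K, by positivity, fun u => ?_⟩
    simp only [hq, abs_neg]
    refine (Complex.abs_re_le_norm _).trans ?_
    simp only [hW]
    rw [norm_mul]
    have : ‖(2 * π * Complex.I : ℂ)‖ = 2 * π := by
      rw [norm_mul, Complex.norm_I, mul_one, norm_mul, Complex.norm_real, Real.norm_eq_abs,
        abs_of_pos Real.pi_pos]
      simp
    rw [this]
    calc 2 * π * ‖Kc (fun v => v * χ v) ((2 * π * u : ℝ) * Complex.I)‖ ≤ 2 * π * (K * ((1 + |u|) ^ N)⁻¹) :=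
          mul_le_mul_of_nonneg_left (hb u) (by positivity)
      _ = _ := by ring
  have hodd : ∀ u, q (-u) = -q u := by
    intro u
    have e1 : ∀ u : ℝ, (Kc χ ((2 * π * (-u) : ℝ) * Complex.I)).re = (Kc χ ((2 * π * u : ℝ) * Complex.I)).re := by
      intro u
      rw [Kc_even_real h heven, Kc_even_real h heven]
      simp only [Complex.ofReal_re]
      congr 1
      ext v
      rw [show v * (2 * π * (-u)) = -(v * (2 * π * u)) by ring, Real.cos_neg]
    have h1 := (hdre (-u)).comp u (hasDerivAt_neg u)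
    have h2 : HasDerivAt (fun u : ℝ => (Kc χ ((2 * π * u : ℝ) * Complex.I)).re) ((W (-u)).re * -1) u := by
      refine h1.congr_of_eventuallyEq (Eventually.of_forall fun x => ?_)
      exact (e1 x).symm
    have h3 := h2.unique (hdre u)
    simp only [hq]
    linarith
  refine ⟨q, ⟨hqc, hqd, hodd, h, heven, ?_⟩, ?_⟩
  · intro u
    have hlim : Tendsto (fun u : ℝ => (Kc χ ((2 * π * u : ℝ) * Complex.I)).re) atTop (𝓝 0) := by
      obtain ⟨K, hK, hb⟩ := hdec h 1
      have hz : Tendsto (fun u : ℝ => K * ((1 + |u|) ^ 1)⁻¹) atTop (𝓝 0) := by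
        have h1 : Tendsto (fun u : ℝ => (1 + |u|) ^ 1) atTop atTop := by
          simp only [pow_one]
          exact tendsto_atTop_add_const_left _ _ tendsto_abs_atTop_atTop
        have := (tendsto_inv_atTop_zero.comp h1).const_mul K
        simpa using this
      exact squeeze_zero_norm (fun u => ((Complex.abs_re_le_norm _).trans (hb u))) hz
    have hI : IntegrableOn q (Ioi u) := (hqd.integrable hqc).integrableOn
    have h2 := integral_Ioi_of_hasDerivAt_of_tendsto' (a := u)
      (f := fun u : ℝ => (Kc χ ((2 * π * u : ℝ) * Complex.I)).re) (f' := fun u => (W u).re) (m := 0)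
      (fun x _ => hdre x) (by
        have := hI.neg
        refine this.congr (Eventually.of_forall fun x => ?_)
        simp [hq]) hlim
    have h3 : tailF q u = (Kc χ ((2 * π * u : ℝ) * Complex.I)).re := by
      unfold tailF
      have : ∫ s in Ioi u, q s = -∫ s in Ioi u, (W s).re := by
        rw [← integral_neg]
      rw [this, h2]
      ring
    rw [h3]
    exact hreal u
  · intro u
    refine (hdre u).congr_deriv ?_
    simp [hq]

end Pool.Agent.PairCorr
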