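import Mathlib

set_option autoImplicit false

namespace Pool.Agent.PairCorr.P6

open MeasureTheory Filter Topology Set Real
open scoped ENNReal

/-- a function with a compactly supported derivative as a superposition of steps -/
lemma step_repr {f f' : ℝ → ℝ} (hf : ∀ x, HasDerivAt f (f' x) x) (hfc : Continuous f') {X : ℝ}
    (hfX : ∀ x, X ≤ x → f x = 0) {y : ℝ} (hy : 0 ≤ y) :
    ∫ x in Ioc 0 X, (Ici y).indicator f' x = -f y := by
  rw [setIntegral_indicator measurableSet_Ici]
  rcases le_or_gt y X with h | h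
  · have e1 : ∫ x in Ioc 0 X ∩ Ici y, f' x = ∫ x in Ioc y X, f' x := by
      rcases hy.eq_or_lt with h0 | h0
      · rw [← h0]
        congr 2
        ext x; simp only [mem_inter_iff, mem_Ioc, mem_Ici]
        constructor
        · rintro ⟨a, b⟩; exact a
        · rintro ⟨a, b⟩; exact ⟨⟨a, b⟩, a.le⟩
      · rw [← integral_Icc_eq_integral_Ioc]
        congr 2
        ext x; simp only [mem_inter_iff, mem_Ioc, mem_Ici, mem_Icc]
        constructor
        · rintro ⟨⟨a, b⟩, c⟩; exact ⟨c, b⟩
        · rintro ⟨a, b⟩; exact ⟨⟨by linarith, b⟩, a⟩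
    rw [e1, ← intervalIntegral.integral_of_le h,
      intervalIntegral.integral_eq_sub_of_hasDerivAt (fun x _ => hf x) (hfc.intervalIntegrable _ _),
      hfX X le_rfl, zero_sub]
  · have e1 : Ioc 0 X ∩ Ici y = ∅ := by
      ext x; simp only [mem_inter_iff, mem_Ioc, mem_Ici, mem_empty_iff_false, iff_false]
      rintro ⟨⟨a, b⟩, c⟩; linarith
    rw [e1, setIntegral_empty, hfX y h.le, neg_zero]

/-- summation by parts for one value of the parameter -/
lemma abel_one {Ω : Type*} [MeasurableSpace Ω] {M : Measure Ω} [SFinite M] {g : Ω → ℝ}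
    (hg : Measurable g) (hg0 : ∀ ω, 0 ≤ g ω) {A : Ω → ℝ} (hA : AEStronglyMeasurable A M) {κ : ℝ}
    (hκ : 0 < κ) {f f' : ℝ → ℝ} (hf : ∀ x, HasDerivAt f (f' x) x) (hfc : Continuous f') {X : ℝ}
    (hX : 0 < X) (hfX : ∀ x, X ≤ x → f x = 0)
    (hi : IntegrableOn A {ω | g ω ≤ X / κ} M) :
    ∫ ω, f (κ * g ω) * A ω ∂M = -∫ x in (0:ℝ)..X, f' x * ∫ ω in {ω | g ω ≤ x / κ}, A ω ∂M := by
  obtain ⟨D, hD⟩ := (isCompact_Icc (a := (0:ℝ)) (b := X)).exists_bound_of_continuousOn hfc.continuousOn
  have hD0 : 0 ≤ D := (norm_nonneg _).trans (hD 0 ⟨le_rfl, hX.le⟩)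
  set F : Ω → ℝ → ℝ := fun ω x => (Ici (κ * g ω)).indicator f' x * A ω with hF
  have hms : MeasurableSet {ω | g ω ≤ X / κ} := measurableSet_le hg measurable_const
  have hFm : AEStronglyMeasurable (Function.uncurry F) (M.prod (volume.restrict (Ioc 0 X))) := by
    have e1 : (Function.uncurry F) = fun p : Ω × ℝ => ({p : Ω × ℝ | κ * g p.1 ≤ p.2}.indicator
        (fun p => f' p.2) p) * A p.1 := by
      funext p
      simp only [hF, Function.uncurry]
      congr 1
    rw [e1]
    apply AEStronglyMeasurable.mul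
    · apply AEStronglyMeasurable.indicator
      · exact (hfc.measurable.comp measurable_snd).aestronglyMeasurable
      · exact measurableSet_le (by fun_prop) (by fun_prop)
    · exact hA.comp_fst
  have hdom : Integrable (fun p : Ω × ℝ => ({ω | g ω ≤ X / κ}.indicator A p.1) * D)
      (M.prod (volume.restrict (Ioc 0 X))) := by
    have h1 : Integrable ({ω | g ω ≤ X / κ}.indicator A) M := (integrable_indicator_iff hms).2 hi
    have hfin : IsFiniteMeasure ((volume : Measure ℝ).restrict (Ioc 0 X)) :=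
      isFiniteMeasure_restrict.2 (by simp)
    exact h1.mul_prod (integrable_const (c := D) (μ := (volume : Measure ℝ).restrict (Ioc 0 X)))
  have hFi : Integrable (Function.uncurry F) (M.prod (volume.restrict (Ioc 0 X))) := by
    refine Integrable.mono hdom hFm ?_
    have hmem : ∀ᵐ p ∂(M.prod ((volume : Measure ℝ).restrict (Ioc 0 X))), p.2 ∈ Ioc 0 X := by
      have : ∀ᵐ s ∂((volume : Measure ℝ).restrict (Ioc 0 X)), s ∈ Ioc 0 X :=
        ae_restrict_mem measurableSet_Ioc
      exact Measure.quasiMeasurePreserving_snd.ae this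
    filter_upwards [hmem] with p hp
    simp only [Function.uncurry, hF]
    rw [norm_mul, norm_mul]
    by_cases h1 : κ * g p.1 ≤ p.2
    · have h2 : p.1 ∈ {ω | g ω ≤ X / κ} := by
        show g p.1 ≤ X / κ
        rw [le_div_iff₀ hκ]; linarith [hp.2]
      rw [indicator_of_mem (show p.2 ∈ Ici (κ * g p.1) from h1), indicator_of_mem h2, mul_comm]
      gcongr
      rw [Real.norm_of_nonneg hD0]
      exact hD _ ⟨hp.1.le, hp.2⟩
    · rw [indicator_of_notMem (show p.2 ∉ Ici (κ * g p.1) from h1)]
      simp only [norm_zero, zero_mul]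
      positivity
  have e1 : ∫ ω, f (κ * g ω) * A ω ∂M = -∫ ω, (∫ x in Ioc 0 X, F ω x) ∂M := by
    rw [← integral_neg]
    congr 1; ext ω
    simp only [hF]
    rw [integral_mul_const, step_repr hf hfc hfX (mul_nonneg hκ.le (hg0 ω))]
    ring
  rw [e1, integral_integral_swap hFi, intervalIntegral.integral_of_le hX.le]
  congr 1
  apply integral_congr_ae
  refine Eventually.of_forall fun x => ?_
  simp only [hF]
  rw [← integral_const_mul, ← integral_indicator (measurableSet_le hg measurable_const)]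
  congr 1; ext ω
  by_cases h : g ω ≤ x / κ
  · have h' : κ * g ω ≤ x := by rw [le_div_iff₀ hκ] at h; linarith
    rw [indicator_of_mem (show ω ∈ {ω | g ω ≤ x / κ} from h), indicator_of_mem (show x ∈ Ici (κ * g ω) from h')]
  · have h' : ¬ κ * g ω ≤ x := by
      intro hc; apply h; rw [le_div_iff₀ hκ]; linarith
    rw [indicator_of_notMem (show ω ∉ {ω | g ω ≤ x / κ} from h),
      indicator_of_notMem (show x ∉ Ici (κ * g ω) from h'), zero_mul]

/-- **Abelian theorem**: passing from sharp to smooth cutoffs. -/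
theorem abel_abs {Ω : Type*} [MeasurableSpace Ω] {M : Measure Ω} [SFinite M] {g : Ω → ℝ}
    (hg : Measurable g) (hg0 : ∀ ω, 0 ≤ g ω) {A : ℝ → Ω → ℝ} (hA : ∀ T, AEStronglyMeasurable (A T) M)
    {κ w : ℝ → ℝ} {α : ℝ} (hκ : ∀ᶠ T : ℝ in atTop, 0 < κ T) (hw : ∀ᶠ T : ℝ in atTop, 0 ≤ w T)
    (h1 : ∀ x > 0, Tendsto (fun T => w T * ∫ ω in {ω | g ω ≤ x / κ T}, A T ω ∂M) atTop (𝓝 (α * x)))
    (h2 : ∀ X > 0, ∃ C : ℝ, ∀ᶠ T : ℝ in atTop, IntegrableOn (A T) {ω | g ω ≤ X / κ T} M ∧
      w T * ∫ ω in {ω | g ω ≤ X / κ T}, |A T ω| ∂M ≤ C)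
    {f f' : ℝ → ℝ} (hf : ∀ x, HasDerivAt f (f' x) x) (hfc : Continuous f') {X : ℝ}
    (hX : 0 < X) (hfX : ∀ x, X ≤ x → f x = 0) :
    Tendsto (fun T => w T * ∫ ω, f (κ T * g ω) * A T ω ∂M) atTop (𝓝 (α * ∫ x in (0:ℝ)..X, f x)) := by
  obtain ⟨C, hC⟩ := h2 X hX
  have hlim : Tendsto (fun T => ∫ x in (0:ℝ)..X, -(f' x * (w T * ∫ ω in {ω | g ω ≤ x / κ T}, A T ω ∂M)))
      atTop (𝓝 (∫ x in (0:ℝ)..X, -(f' x * (α * x)))) := by
    apply intervalIntegral.tendsto_integral_filter_of_dominated_convergence (fun x => |f' x| * C)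
    · -- measurability
      filter_upwards [hκ, hC] with T hT hCT
      rw [uIoc_of_le hX.le]
      apply AEStronglyMeasurable.neg
      apply AEStronglyMeasurable.mul hfc.aestronglyMeasurable
      apply AEStronglyMeasurable.const_mul
      -- integral over sublevel sets is measurable as integral of a jointly measurable function
      have hms : MeasurableSet {p : ℝ × Ω | g p.2 ≤ p.1 / κ T} :=
        measurableSet_le (by fun_prop) (by fun_prop)
      have hj : AEStronglyMeasurable (fun p : ℝ × Ω => {p : ℝ × Ω | g p.2 ≤ p.1 / κ T}.indicator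
          (fun p => A T p.2) p) (((volume : Measure ℝ).restrict (Ioc 0 X)).prod M) :=
        (hA T).comp_snd.indicator hms
      have := hj.integral_prod_right'
      refine this.congr (Eventually.of_forall fun x => ?_)
      simp only
      rw [← integral_indicator (measurableSet_le hg measurable_const)]
      rfl
    · filter_upwards [hκ, hw, hC] with T hT hwT hCT
      refine Eventually.of_forall fun x hx => ?_
      rw [uIoc_of_le hX.le] at hx
      rw [norm_neg, norm_mul, Real.norm_eq_abs, Real.norm_eq_abs]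
      gcongr
      rw [abs_mul, abs_of_nonneg hwT]
      refine le_trans ?_ hCT.2
      gcongr
      have hsub : {ω | g ω ≤ x / κ T} ⊆ {ω | g ω ≤ X / κ T} := by
        intro ω hω
        have h' : g ω ≤ x / κ T := hω
        exact h'.trans (by gcongr; exact hx.2)
      refine (abs_integral_le_integral_abs).trans ?_
      exact setIntegral_mono_set hCT.1.abs (Eventually.of_forall fun _ => abs_nonneg _)
        (Eventually.of_forall hsub)
    · exact (by fun_prop : Continuous fun x => |f' x| * C).intervalIntegrable _ _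
    · refine Eventually.of_forall fun x hx => ?_
      rw [uIoc_of_le hX.le] at hx
      exact ((h1 x hx.1).const_mul (f' x)).neg
  have hval : ∫ x in (0:ℝ)..X, -(f' x * (α * x)) = α * ∫ x in (0:ℝ)..X, f x := by
    have hid : ∀ x, HasDerivAt (fun x : ℝ => x) 1 x := fun x => hasDerivAt_id' x
    have hp := intervalIntegral.integral_mul_deriv_eq_deriv_mul (a := 0) (b := X) (u := fun x : ℝ => x)
      (u' := fun _ => 1) (v := f) (v' := f') (fun x _ => hid x) (fun x _ => hf x)
      (continuous_const.intervalIntegrable _ _) (hfc.intervalIntegrable _ _)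
    rw [hfX X le_rfl, mul_zero, zero_mul, sub_zero, zero_sub] at hp
    simp only [one_mul] at hp
    have e1 : ∫ x in (0:ℝ)..X, -(f' x * (α * x)) = -α * ∫ x in (0:ℝ)..X, x * f' x := by
      rw [← intervalIntegral.integral_const_mul]
      congr 1; ext x; ring
    rw [e1, hp]; ring
  rw [hval] at hlim
  refine hlim.congr' ?_
  filter_upwards [hκ, hC] with T hT hCT
  rw [abel_one hg hg0 (hA T) hT hf hfc hX hfX hCT.1, intervalIntegral.integral_neg, mul_neg,
    ← intervalIntegral.integral_const_mul]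
  congr 2; ext x; ring

end Pool.Agent.PairCorr.P6
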