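import Mathlib
import Pool.Agent.PairCorr.C_Approx

set_option autoImplicit false

namespace Pool.Agent.PairCorr.P6

open MeasureTheory Filter Topology Set Real
open scoped ENNReal ArithmeticFunction.vonMangoldt

variable {η η1 η2 : ℝ → ℝ} {M : ℝ} {φ ψ : ℝ → ℝ} {b L e : ℝ}

/-- the kernel of a test function supported in `[e,b]` decays to the left. -/
lemma decay_left (h : TF ψ b) (_heb : e ≤ b) (hpos : ∀ v, v < e → ψ v = 0) (j : ℕ) :
    ∃ C : ℝ, 0 ≤ C ∧ ∀ w : ℂ, w.re ≤ 0 →
      (1 + ‖w‖) ^ j * ‖Kc ψ w‖ ≤ C * Real.exp (e * w.re) := by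
  set c : ℝ := (e + b) / 2 with hc
  set r : ℝ := (b - e) / 2 with hr
  set ψs : ℝ → ℝ := fun v => ψ (v + c) with hψs
  have hTF : TF ψs r := by
    refine ⟨h.smooth.comp (contDiff_id.add contDiff_const), ?_⟩
    intro v hv
    simp only [hψs]
    rcases lt_abs.1 hv with h1 | h1
    · apply h.supp
      rw [lt_abs]; left; rw [hc]; rw [hr] at h1; linarith
    · apply hpos
      rw [hc]; rw [hr] at h1; linarith
  obtain ⟨C, hC0, hC⟩ := hTF.decay_one_add j
  refine ⟨C, hC0, fun w hw => ?_⟩
  have hK : Kc ψ w = Complex.exp (c * w) * Kc ψs w := by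
    unfold Kc
    rw [← integral_const_mul, ← integral_add_right_eq_self _ c]
    congr 1
    ext v
    simp only [hψs]
    push_cast
    have : Complex.exp ((v + c) * w) = Complex.exp (c * w) * Complex.exp (v * w) := by
      rw [← Complex.exp_add]; congr 1; ring
    rw [this]; ring
  rw [hK, norm_mul, Complex.norm_exp]
  have h1 := hC w
  have hre : ((c : ℂ) * w).re = c * w.re := by simp
  rw [hre]
  have habs : |w.re| = -w.re := abs_of_nonpos hw
  rw [habs] at h1
  calc (1 + ‖w‖) ^ j * (Real.exp (c * w.re) * ‖Kc ψs w‖)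
      = Real.exp (c * w.re) * ((1 + ‖w‖) ^ j * ‖Kc ψs w‖) := by ring
    _ ≤ Real.exp (c * w.re) * (C * Real.exp (r * -w.re)) := by gcongr
    _ = C * (Real.exp (c * w.re) * Real.exp (r * -w.re)) := by ring
    _ = C * Real.exp (e * w.re) := by
        rw [← Real.exp_add]; congr 2; rw [hc, hr]; ring

lemma scaled_left (h : TF ψ b) (heb : e ≤ b) (hpos : ∀ v, v < e → ψ v = 0) : ∃ C : ℝ, 0 ≤ C ∧
    ∀ L : ℝ, 1 ≤ L → ∀ (t : ℝ) (z : ℂ), z.re ≤ 1 / 2 →
    ‖Kc ψ (L * (z - (1/2 + t * Complex.I)))‖ * (1 + |z.im - t|) ^ 4 ≤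
      C * Real.exp (e * (L * (z.re - 1/2))) := by
  obtain ⟨C, hC0, hC⟩ := decay_left h heb hpos 4
  refine ⟨C, hC0, fun L hL t z hz => ?_⟩
  have hre : (L * (z - (1/2 + t * Complex.I)) : ℂ).re = L * (z.re - 1/2) := by simp
  have him : (L * (z - (1/2 + t * Complex.I)) : ℂ).im = L * (z.im - t) := by simp
  have h1 := hC (L * (z - (1/2 + t * Complex.I))) (by rw [hre]; nlinarith)
  rw [hre] at h1
  refine le_trans ?_ h1
  rw [mul_comm]
  apply mul_le_mul_of_nonneg_right _ (norm_nonneg _)
  apply pow_le_pow_left₀ (by positivity)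
  have := Complex.abs_im_le_norm (L * (z - (1/2 + t * Complex.I)) : ℂ)
  rw [him, abs_mul, abs_of_pos (by linarith : 0 < L)] at this
  nlinarith [abs_nonneg (z.im - t)]

/-- The archimedean term for a test function supported in `[e,b]`, `e > 0`. -/
theorem arch_pos (h : TF ψ b) (he : 0 < e) (heb : e ≤ b) (hpos : ∀ v, v < e → ψ v = 0)
    (hc : Cutoff1 η η1 η2 M) : ∃ C : ℝ, 0 ≤ C ∧ ∀ L : ℝ, 1 ≤ L →
    ∀ t : ℝ, ‖Arch (fun v => ψ (v / L) / L) η1 η2 t‖ ≤ C * Real.exp (-(e / 2 * L)) / (1 + |t|) := by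
  obtain ⟨CX, hCX0, hCX⟩ := Xi_uniform
  have hpos' : ∀ v, v < e → (fun v => v * ψ v) v = 0 := by
    intro v hv; simp only; rw [hpos v hv, mul_zero]
  obtain ⟨C1, hC1, h1⟩ := scaled_left h heb hpos
  obtain ⟨C2, hC2, h2⟩ := scaled_left h.mul_id heb hpos'
  have hM := hc.M_nonneg
  refine ⟨CX * (2 * M * C2 * (2 / e) + M * C1) * π, by positivity, fun L hL t => ?_⟩
  have hL0 : 0 < L := by linarith
  have hm2 : MeasurableSet {z : ℂ | z.re < 0} := measurableSet_lt Complex.measurable_re measurable_const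
  have hφ := h.scale hL0
  set φ : ℝ → ℝ := fun v => ψ (v / L) / L with hφdef
  have hφ0 : φ 0 = 0 := by simp [hφdef, hpos 0 he]
  have hmain := arch_main hφ hc t
  set ℓ : ℝ := Real.log ((1 + |t|) / (2 * π)) with hℓ
  have ht := abs_nonneg t
  -- bounds for k and k'
  have hE : ∀ z : ℂ, -1 ≤ z.re → z.re ≤ -1/2 → Real.exp (e * (L * (z.re - 1/2))) ≤ Real.exp (-(e * L)) := by
    intro z hz1 hz2
    apply Real.exp_le_exp.2
    nlinarith [mul_pos he hL0]
  have hk : ∀ z : ℂ, ‖kS φ t z‖ = ‖Kc ψ (L * (z - (1/2 + t * Complex.I)))‖ := by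
    intro z
    unfold kS
    rw [hφdef, Kc_scale ψ hL0]
  have hk' : ∀ z : ℂ, ‖deriv (kS φ t) z‖ = L * ‖Kc (fun v => v * ψ v) (L * (z - (1/2 + t * Complex.I)))‖ := by
    intro z
    rw [kS_deriv hφ]
    unfold kS
    rw [← Kc_scale (fun v => v * ψ v) hL0]
    have : (fun v => v * φ v) = fun v => L * ((fun v => v * ψ v) (v / L) / L) := by
      funext v
      simp only [hφdef]
      field_simp
    rw [this]
    have e : Kc (fun v => L * ((fun v => v * ψ v) (v / L) / L)) (z - (1/2 + t * Complex.I)) =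
        L * Kc (fun v => (fun v => v * ψ v) (v / L) / L) (z - (1/2 + t * Complex.I)) := by
      unfold Kc
      rw [← integral_const_mul]
      congr 1
      ext v
      push_cast; ring
    rw [e, norm_mul, Complex.norm_real, Real.norm_of_nonneg hL0.le]
  -- pointwise bound
  set A : ℝ := CX * (2 * M * C2 * (2 / e) + M * C1) * Real.exp (-(e / 2 * L)) / (1 + |t|) with hA
  have hA0 : 0 ≤ A := by positivity
  have hpt : ∀ z : ℂ, ‖{z : ℂ | z.re < 0}.indicator (fun z => (Xi z - (1/2 - z.re) * ℓ : ℝ) *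
      Lap (kS φ t) η1 η2 z) z‖ ≤
      A * ((Icc (-1:ℝ) 0).indicator (fun _ => (1:ℝ)) z.re * (1 + (z.im - t) ^ 2)⁻¹) := by
    intro z
    by_cases hz : z ∈ {z : ℂ | z.re < 0}
    · rw [indicator_of_mem hz]
      have hz' : z.re < 0 := hz
      by_cases hz1 : z.re < -1
      · rw [Lap_out hc (Or.inl hz1.le), mul_zero, norm_zero]
        rw [indicator_of_notMem (by intro h; linarith [h.1])]
        simp
      · push Not at hz1
        by_cases hz2 : z.re ≤ -1/2
        · rw [indicator_of_mem (by exact ⟨hz1, hz'.le⟩), one_mul, norm_mul, Complex.norm_real, Real.norm_eq_abs]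
          have hx := hCX z.re z.im t hz1 hz2
          have hzz : (z.re : ℂ) + z.im * Complex.I = z := Complex.re_add_im z
          rw [hzz] at hx
          have e1 := h1 L hL t z (by linarith)
          have e2 := h2 L hL t z (by linarith)
          have hEz := hE z hz1 hz2
          set s := |z.im - t| with hs
          have hs0 : 0 ≤ s := abs_nonneg _
          have hLe : L ≤ (2 / e) * Real.exp (e / 2 * L) := by
            have := Real.add_one_le_exp (e / 2 * L)
            have h5 : e / 2 * L ≤ Real.exp (e / 2 * L) := by linarith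
            calc L = (2 / e) * (e / 2 * L) := by field_simp
              _ ≤ _ := mul_le_mul_of_nonneg_left h5 (by positivity)
          have hexp : Real.exp (e / 2 * L) * Real.exp (-(e * L)) = Real.exp (-(e / 2 * L)) := by
            rw [← Real.exp_add]; congr 1; ring
          have hLap : ‖Lap (kS φ t) η1 η2 z‖ * (1 + s) ^ 4 ≤
              (2 * M * C2 * (2 / e) + M * C1) * Real.exp (-(e / 2 * L)) := by
            have l1 : ‖Lap (kS φ t) η1 η2 z‖ ≤ 2 * M * (L * ‖Kc (fun v => v * ψ v) (L * (z - (1/2 + t * Complex.I)))‖) +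
                M * ‖Kc ψ (L * (z - (1/2 + t * Complex.I)))‖ := by
              unfold Lap
              refine (norm_add_le _ _).trans ?_
              rw [norm_mul, norm_mul, norm_mul, Complex.norm_real, Complex.norm_real, Real.norm_eq_abs,
                Real.norm_eq_abs, Complex.norm_ofNat, hk', hk]
              have b1 := hc.b1 z.re
              have b2 := hc.b2 z.re
              apply add_le_add
              · calc 2 * (L * ‖Kc (fun v => v * ψ v) (L * (z - (1/2 + t * Complex.I)))‖) * |η1 z.re|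
                    ≤ 2 * (L * ‖Kc (fun v => v * ψ v) (L * (z - (1/2 + t * Complex.I)))‖) * M :=
                      mul_le_mul_of_nonneg_left b1 (by positivity)
                  _ = _ := by ring
              · rw [mul_comm]
                exact mul_le_mul_of_nonneg_right b2 (norm_nonneg _)
            calc ‖Lap (kS φ t) η1 η2 z‖ * (1 + s) ^ 4 ≤
                (2 * M * (L * ‖Kc (fun v => v * ψ v) (L * (z - (1/2 + t * Complex.I)))‖) +
                M * ‖Kc ψ (L * (z - (1/2 + t * Complex.I)))‖) * (1 + s) ^ 4 :=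
                  mul_le_mul_of_nonneg_right l1 (by positivity)
              _ = 2 * M * L * (‖Kc (fun v => v * ψ v) (L * (z - (1/2 + t * Complex.I)))‖ * (1 + s) ^ 4) +
                M * (‖Kc ψ (L * (z - (1/2 + t * Complex.I)))‖ * (1 + s) ^ 4) := by ring
              _ ≤ 2 * M * L * (C2 * Real.exp (-(e * L))) + M * (C1 * Real.exp (-(e * L))) := by
                  have g1 : ‖Kc (fun v => v * ψ v) (L * (z - (1/2 + t * Complex.I)))‖ * (1 + s) ^ 4 ≤
                      C2 * Real.exp (-(e * L)) := e2.trans (mul_le_mul_of_nonneg_left hEz hC2)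
                  have g2 : ‖Kc ψ (L * (z - (1/2 + t * Complex.I)))‖ * (1 + s) ^ 4 ≤
                      C1 * Real.exp (-(e * L)) := e1.trans (mul_le_mul_of_nonneg_left hEz hC1)
                  gcongr
              _ ≤ 2 * M * ((2 / e) * Real.exp (e / 2 * L)) * (C2 * Real.exp (-(e * L))) +
                  M * (C1 * (Real.exp (e / 2 * L) * Real.exp (-(e * L)))) := by
                  have g3 : 1 ≤ Real.exp (e / 2 * L) := Real.one_le_exp (by positivity)
                  have g4 : Real.exp (-(e * L)) ≤ Real.exp (e / 2 * L) * Real.exp (-(e * L)) :=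
                    le_mul_of_one_le_left (Real.exp_pos _).le g3
                  gcongr
              _ = (2 * M * C2 * (2 / e) + M * C1) * (Real.exp (e / 2 * L) * Real.exp (-(e * L))) := by ring
              _ = _ := by rw [hexp]
          have hD : (1 + s ^ 2) ≤ (1 + s) ^ 2 := by nlinarith
          have hs2 : (z.im - t) ^ 2 = s ^ 2 := by rw [hs, sq_abs]
          rw [hs2, ← div_eq_mul_inv, le_div_iff₀ (by positivity)]
          calc |Xi z - (1/2 - z.re) * ℓ| * ‖Lap (kS φ t) η1 η2 z‖ * (1 + s ^ 2)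
              ≤ (CX * (1 + s) ^ 2 / (1 + |t|)) * ‖Lap (kS φ t) η1 η2 z‖ * (1 + s) ^ 2 := by
                gcongr
            _ = CX / (1 + |t|) * (‖Lap (kS φ t) η1 η2 z‖ * (1 + s) ^ 4) := by ring
            _ ≤ CX / (1 + |t|) * ((2 * M * C2 * (2 / e) + M * C1) * Real.exp (-(e / 2 * L))) := by
                gcongr
            _ = A := by rw [hA]; ring
        · push Not at hz2
          rw [Lap_mid hc hz2.le (by linarith), mul_zero, norm_zero]
          apply mul_nonneg hA0
          apply mul_nonneg _ (by positivity)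
          exact indicator_nonneg (fun _ _ => zero_le_one) _
    · rw [indicator_of_notMem hz, norm_zero]
      apply mul_nonneg hA0
      apply mul_nonneg _ (by positivity)
      exact indicator_nonneg (fun _ _ => zero_le_one) _
  obtain ⟨hsi, hsv⟩ := integral_half_strip t
  have hLc := Lap_continuous (kS_differentiable hφ t) hc.toCutoff
  set S' : Set ℂ := {z : ℂ | -1 ≤ z.re ∧ z.re ≤ -1/2} with hS'
  have hS'm : MeasurableSet S' := (measurableSet_le measurable_const Complex.measurable_re).inter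
    (measurableSet_le Complex.measurable_re measurable_const)
  have hind : (fun z : ℂ => {z : ℂ | z.re < 0}.indicator (fun z => ((Xi z - (1/2 - z.re) * ℓ : ℝ) : ℂ) *
      Lap (kS φ t) η1 η2 z) z) = S'.indicator (fun z => ((Xi z - (1/2 - z.re) * ℓ : ℝ) : ℂ) *
      Lap (kS φ t) η1 η2 z) := by
    funext z
    by_cases hz : z ∈ S'
    · rw [indicator_of_mem hz, indicator_of_mem]
      have := hz.2
      rw [mem_ofPred_eq]; linarith
    · rw [indicator_of_notMem hz]
      by_cases hz0 : z ∈ {z : ℂ | z.re < 0}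
      · rw [indicator_of_mem hz0]
        rw [hS', mem_ofPred_eq, not_and_or, not_le, not_le] at hz
        rcases hz with h | h
        · rw [Lap_out hc (Or.inl h.le), mul_zero]
        · have hz0' : z.re < 0 := hz0
          rw [Lap_mid hc h.le (by linarith), mul_zero]
      · rw [indicator_of_notMem hz0]
  have hint : Integrable (fun z : ℂ => {z : ℂ | z.re < 0}.indicator
      (fun z => ((Xi z - (1/2 - z.re) * ℓ : ℝ) : ℂ) * Lap (kS φ t) η1 η2 z) z) := by
    refine Integrable.mono' (hsi.const_mul A) ?_ (Eventually.of_forall hpt)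
    rw [hind, aestronglyMeasurable_indicator_iff hS'm]
    apply ContinuousOn.aestronglyMeasurable _ hS'm
    apply ContinuousOn.mul _ hLc.continuousOn
    apply Complex.continuous_ofReal.comp_continuousOn
    apply ContinuousOn.sub Xi_continuousOn
    exact Continuous.continuousOn (by fun_prop)
  have hval : ‖∫ z in {z : ℂ | z.re < 0}, ((Xi z - (1/2 - z.re) * ℓ : ℝ) : ℂ) * Lap (kS φ t) η1 η2 z‖ ≤
      A * π := by
    rw [← integral_indicator hm2, ← hsv, ← integral_const_mul]
    refine (norm_integral_le_integral_norm _).trans ?_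
    exact integral_mono hint.norm (hsi.const_mul A) hpt
  have hint' : IntegrableOn (fun z : ℂ => ((Xi z - (1/2 - z.re) * ℓ : ℝ) : ℂ) *
      Lap (kS φ t) η1 η2 z) {z : ℂ | z.re < 0} := (integrable_indicator_iff hm2).1 hint
  have hsplit : Arch φ η1 η2 t = (∫ z in {z : ℂ | z.re < 0}, ((Xi z - (1/2 - z.re) * ℓ : ℝ) : ℂ) *
      Lap (kS φ t) η1 η2 z) + ℓ * (2 * π * φ 0) := by
    rw [← hmain.2, ← integral_const_mul, ← integral_add hint' (hmain.1.const_mul _)]
    unfold Arch
    congr 1
    ext z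
    push_cast; ring
  rw [hsplit, hφ0]
  simp only [Complex.ofReal_zero, mul_zero, add_zero]
  refine hval.trans (le_of_eq ?_)
  rw [hA]; ring

/-- the Mellin transform of the weighted measure `dψ(e^u) - e^u du` -/
noncomputable def D1 (ψ : ℝ → ℝ) (L t : ℝ) : ℂ :=
  ∑' n : ℕ, primeTerm (fun v => ψ (v / L) / L) t n - kS (fun v => ψ (v / L) / L) t 1

/-- explicit formula for test functions supported in `[e,b]`, `e > 0`. -/
theorem explicit_pos (h : TF ψ b) (he : 0 < e) (heb : e ≤ b) (hpos : ∀ v, v < e → ψ v = 0) :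
    ∃ C : ℝ, 0 ≤ C ∧ ∀ L : ℝ, 1 ≤ L → ∀ t : ℝ,
    ‖Zs ψ L t + D1 ψ L t‖ ≤ C * Real.exp (-(e / 2 * L)) / (1 + |t|) := by
  obtain ⟨η, η1, η2, M, hc⟩ := exists_cutoff
  obtain ⟨C1, hC1, h1⟩ := arch_pos h he heb hpos hc
  refine ⟨C1, hC1, fun L hL t => ?_⟩
  have hL0 : 0 < L := by linarith
  have hφ := h.scale hL0
  have hef := explicit_formula hφ hc t
  have hZ : ∫ z, kS (fun v => ψ (v / L) / L) t z ∂muZ = Zs ψ L t := by
    unfold Zs kS
    simp_rw [Kc_scale ψ hL0]
  rw [hZ] at hef
  have hneg : ∑' n : ℕ, primeTerm (fun v => (fun v => ψ (v / L) / L) (-v)) (-t) n = 0 := by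
    have : ∀ n : ℕ, primeTerm (fun v => (fun v => ψ (v / L) / L) (-v)) (-t) n = 0 := by
      intro n
      unfold primeTerm
      have hz : ψ (-Real.log n / L) = 0 := by
        apply hpos
        have h2 : 0 ≤ Real.log n := Real.log_natCast_nonneg n
        have : -Real.log n / L ≤ 0 := div_nonpos_of_nonpos_of_nonneg (by linarith) hL0.le
        linarith
      simp only [hz, zero_div, Complex.ofReal_zero, mul_zero, zero_mul]
    simp_rw [this]
    exact tsum_zero
  rw [hneg, sub_zero] at hef
  have e1 : Zs ψ L t + D1 ψ L t = (2 * π : ℂ)⁻¹ * Arch (fun v => ψ (v / L) / L) η1 η2 t := by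
    rw [hef, D1]
    generalize kS (fun v => ψ (v / L) / L) t 1 = x1
    generalize Arch (fun v => ψ (v / L) / L) η1 η2 t = x2
    generalize ∑' n : ℕ, primeTerm (fun v => ψ (v / L) / L) t n = x3
    push_cast; ring
  rw [e1, norm_mul]
  have h1' := h1 L hL t
  refine le_trans ?_ h1'
  apply mul_le_of_le_one_left (norm_nonneg _)
  rw [norm_inv]
  apply inv_le_one_of_one_le₀
  have hpi0 := Real.pi_gt_three
  rw [norm_mul, Complex.norm_ofNat, Complex.norm_real, Real.norm_of_nonneg (by linarith)]
  linarith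

end Pool.Agent.PairCorr.P6
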