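import Mathlib
import Pool.Agent.PairCorr.Growth
import Pool.Agent.PairCorr.ZetaBasic

set_option autoImplicit false

namespace Pool.Agent.PairCorr.P6

open MeasureTheory Filter Topology Set
open scoped ArithmeticFunction.vonMangoldt

/-- `ψ(e^v) - e^v` -/
noncomputable def MM (v : ℝ) : ℝ := Chebyshev.psi (Real.exp v) - Real.exp v

/-- the normalised increment of `ψ(e^v) - e^v` -/
noncomputable def VV (κ v : ℝ) : ℝ := Real.exp (-(v / 2)) * (MM (v + κ) - MM v)

/-- the logarithmic length of the intervals `(x, x + x/T]`. -/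
noncomputable def kap (T : ℝ) : ℝ := Real.log (1 + 1 / T)

lemma MM_measurable : Measurable MM := by
  unfold MM
  exact (Chebyshev.psi_mono.measurable.comp Real.measurable_exp).sub Real.measurable_exp

lemma VV_measurable (κ : ℝ) : Measurable (VV κ) := by
  unfold VV
  have h1 : Measurable (fun v => MM (v + κ)) := MM_measurable.comp (measurable_id.add_const κ)
  have h2 : Measurable (fun v : ℝ => Real.exp (-(v / 2))) := by fun_prop
  exact h2.mul (h1.sub MM_measurable)

lemma psi_le_seven {x : ℝ} (hx : 0 ≤ x) : Chebyshev.psi x ≤ 7 * x := by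
  have h := Chebyshev.psi_le_const_mul_self hx
  have h4 : Real.log 4 ≤ 3 := by
    have := Real.log_le_sub_one_of_pos (show (0:ℝ) < 4 by norm_num)
    linarith
  nlinarith

lemma abs_MM_le (v : ℝ) : |MM v| ≤ 7 * Real.exp v := by
  unfold MM
  have h0 := (Real.exp_pos v).le
  have h1 := psi_le_seven h0
  have h2 := Chebyshev.psi_nonneg (Real.exp v)
  rw [abs_le]
  constructor <;> linarith

lemma ii_of_bdd {f : ℝ → ℝ} (hm : Measurable f) {a b C : ℝ} (hb : ∀ x ∈ uIoc a b, |f x| ≤ C) :
    IntervalIntegrable f volume a b := by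
  have hc : IntervalIntegrable (fun _ : ℝ => C) volume a b := intervalIntegrable_const
  refine hc.mono_fun hm.aestronglyMeasurable ?_
  filter_upwards [ae_restrict_mem measurableSet_uIoc] with x hx
  rw [Real.norm_eq_abs, Real.norm_eq_abs]
  exact (hb x hx).trans (le_abs_self _)

lemma abs_VV_le {κ : ℝ} (v : ℝ) : |VV κ v| ≤ 7 * (Real.exp κ + 1) * Real.exp (v / 2) := by
  unfold VV
  rw [abs_mul, abs_of_pos (Real.exp_pos _)]
  have h1 : |MM (v + κ) - MM v| ≤ 7 * (Real.exp κ + 1) * Real.exp v := by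
    have e1 := abs_MM_le (v + κ)
    have e2 := abs_MM_le v
    have e3 := abs_sub (MM (v + κ)) (MM v)
    rw [Real.exp_add] at e1
    calc |MM (v + κ) - MM v| ≤ |MM (v + κ)| + |MM v| := e3
      _ ≤ 7 * (Real.exp v * Real.exp κ) + 7 * Real.exp v := add_le_add e1 e2
      _ = _ := by ring
  calc Real.exp (-(v / 2)) * |MM (v + κ) - MM v|
      ≤ Real.exp (-(v / 2)) * (7 * (Real.exp κ + 1) * Real.exp v) :=
        mul_le_mul_of_nonneg_left h1 (Real.exp_pos _).le
    _ = 7 * (Real.exp κ + 1) * (Real.exp (-(v / 2)) * Real.exp v) := by ring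
    _ = _ := by rw [← Real.exp_add]; ring_nf

lemma VV_sq_ii (κ a b : ℝ) : IntervalIntegrable (fun v => VV κ v ^ 2) volume a b := by
  refine ii_of_bdd (C := (7 * (Real.exp κ + 1) * Real.exp ((|a| + |b|) / 2)) ^ 2)
    ((VV_measurable κ).pow_const 2) ?_
  intro x hx
  rw [abs_pow]
  have hx' : x ≤ |a| + |b| := by
    rw [mem_uIoc] at hx
    rcases hx with h | h
    · linarith [le_abs_self b, abs_nonneg a]
    · linarith [le_abs_self a, abs_nonneg b]
  refine pow_le_pow_left₀ (abs_nonneg _) ((abs_VV_le x).trans ?_) 2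
  gcongr

/-- steps of length `1/n` -/
lemma step_bound (n : ℕ) (hn : 0 < n) (y : ℝ) :
    ∫ v in y..(y + 1), (MM (v + 1) - MM v) ^ 2 ≤
      (n : ℝ) ^ 2 * Real.exp (y + 2) * ∫ v in y..(y + 2), VV (1 / n) v ^ 2 := by
  have hn' : (0 : ℝ) < n := by exact_mod_cast hn
  set κ : ℝ := 1 / n with hκ
  have hκn : (n : ℝ) * κ = 1 := by rw [hκ]; field_simp
  have hκ0 : 0 < κ := by rw [hκ]; positivity
  -- telescoping
  have htel : ∀ v, MM (v + 1) - MM v = ∑ j ∈ Finset.range n, (MM (v + (j + 1 : ℕ) * κ) - MM (v + j * κ)) := by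
    intro v
    rw [Finset.sum_range_sub (fun j : ℕ => MM (v + j * κ)) n, hκn]
    simp
  have hpt : ∀ v ∈ Icc y (y + 1), (MM (v + 1) - MM v) ^ 2 ≤
      ∑ j ∈ Finset.range n, (n : ℝ) * (Real.exp (y + 2) * VV κ (v + j * κ) ^ 2) := by
    intro v hv
    rw [htel v, ← Finset.mul_sum]
    refine (sq_sum_le_card_mul_sum_sq (s := Finset.range n)
      (f := fun j : ℕ => MM (v + (j + 1 : ℕ) * κ) - MM (v + j * κ))).trans ?_
    rw [Finset.card_range]
    refine mul_le_mul_of_nonneg_left ?_ hn'.le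
    refine Finset.sum_le_sum fun j hj => ?_
    have hjn : (j : ℝ) * κ ≤ 1 := by
      rw [← hκn]
      have : (j : ℝ) ≤ n := by exact_mod_cast (Finset.mem_range.1 hj).le
      exact mul_le_mul_of_nonneg_right this hκ0.le
    have e1 : v + (j + 1 : ℕ) * κ = v + j * κ + κ := by push_cast; ring
    rw [e1]
    unfold VV
    rw [mul_pow, ← mul_assoc, ← Real.exp_nat_mul]
    have e2 : 1 ≤ Real.exp (y + 2) * Real.exp ((2:ℕ) * -((v + j * κ) / 2)) := by
      rw [← Real.exp_add]
      apply Real.one_le_exp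
      push_cast
      linarith [hv.2]
    nlinarith [sq_nonneg (MM (v + j * κ + κ) - MM (v + j * κ))]
  have hii : ∀ j : ℕ, IntervalIntegrable (fun v => VV κ (v + j * κ) ^ 2) volume y (y + 1) := by
    intro j
    have := (VV_sq_ii κ (y + j * κ) (y + 1 + j * κ)).comp_add_right (c := j * κ)
    simpa using this
  have hii2 : IntervalIntegrable (fun v => (MM (v + 1) - MM v) ^ 2) volume y (y + 1) := by
    have h1 : (fun v => (MM (v + 1) - MM v) ^ 2) = fun v => (Real.exp (v / 2) * VV 1 v) ^ 2 := by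
      funext v
      unfold VV
      rw [← mul_assoc, ← Real.exp_add]
      simp
    rw [h1]
    refine ii_of_bdd (C := (Real.exp ((|y| + |y + 1|) / 2) * (7 * (Real.exp 1 + 1) *
      Real.exp ((|y| + |y + 1|) / 2))) ^ 2) ?_ ?_
    · have := VV_measurable 1
      fun_prop
    · intro x hx
      have hx' : x ≤ |y| + |y + 1| := by
        rw [mem_uIoc] at hx
        rcases hx with h | h
        · linarith [le_abs_self (y + 1), abs_nonneg y]
        · linarith [le_abs_self y, abs_nonneg (y + 1)]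
      rw [abs_pow, abs_mul, abs_of_pos (Real.exp_pos _)]
      have := abs_VV_le (κ := 1) x
      gcongr
      refine this.trans ?_
      gcongr
  calc ∫ v in y..(y + 1), (MM (v + 1) - MM v) ^ 2
      ≤ ∫ v in y..(y + 1), ∑ j ∈ Finset.range n,
          (n : ℝ) * (Real.exp (y + 2) * VV κ (v + j * κ) ^ 2) := by
        apply intervalIntegral.integral_mono_on (by linarith) hii2 _ hpt
        have e : (fun v => ∑ j ∈ Finset.range n,
            (n : ℝ) * (Real.exp (y + 2) * VV κ (v + j * κ) ^ 2)) =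
            ∑ j ∈ Finset.range n, fun v => (n : ℝ) * (Real.exp (y + 2) * VV κ (v + j * κ) ^ 2) := by
          funext v
          rw [Finset.sum_apply]
        rw [e]
        exact IntervalIntegrable.sum (Finset.range n)
          (fun j _ => ((hii j).const_mul _).const_mul _)
    _ = ∑ j ∈ Finset.range n, (n : ℝ) * (Real.exp (y + 2) *
          ∫ v in y..(y + 1), VV κ (v + j * κ) ^ 2) := by
        rw [intervalIntegral.integral_finsetSum (fun j _ => ((hii j).const_mul _).const_mul _)]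
        simp
    _ ≤ ∑ j ∈ Finset.range n, (n : ℝ) * (Real.exp (y + 2) *
          ∫ v in y..(y + 2), VV κ v ^ 2) := by
        refine Finset.sum_le_sum fun j hj => ?_
        have hjn : (j : ℝ) * κ ≤ 1 := by
          rw [← hκn]
          have : (j : ℝ) ≤ n := by exact_mod_cast (Finset.mem_range.1 hj).le
          exact mul_le_mul_of_nonneg_right this hκ0.le
        have hj0 : 0 ≤ (j : ℝ) * κ := by positivity
        have e3 : ∫ v in y..(y + 1), VV κ (v + j * κ) ^ 2 =
            ∫ v in (y + j * κ)..(y + 1 + j * κ), VV κ v ^ 2 :=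
          intervalIntegral.integral_comp_add_right (fun v => VV κ v ^ 2) (j * κ)
        rw [e3]
        have e4 : ∫ v in (y + j * κ)..(y + 1 + j * κ), VV κ v ^ 2 ≤ ∫ v in y..(y + 2), VV κ v ^ 2 := by
          apply intervalIntegral.integral_mono_interval (by linarith) (by linarith) (by linarith)
          · exact Eventually.of_forall fun v => sq_nonneg _
          · exact VV_sq_ii _ _ _
        have := Real.exp_pos (y + 2)
        gcongr
    _ = _ := by
        rw [Finset.sum_const, Finset.card_range, nsmul_eq_mul]; ring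

/-- a weak form of the variance bound. -/
def WinO : Prop := ∀ α β : ℝ, 1 ≤ α → α < β → ∃ C T₀ : ℝ, ∀ T ≥ T₀,
  ∫ v in (α * Real.log T)..(β * Real.log T), VV (kap T) v ^ 2 ≤ C * Real.log T ^ 2 / T

lemma diff_sq_ii (a b : ℝ) : IntervalIntegrable (fun v => (MM (v + 1) - MM v) ^ 2) volume a b := by
  have h1 : (fun v => (MM (v + 1) - MM v) ^ 2) = fun v => (Real.exp (v / 2) * VV 1 v) ^ 2 := by
    funext v
    unfold VV
    rw [← mul_assoc, ← Real.exp_add]
    simp
  rw [h1]
  refine ii_of_bdd (C := (Real.exp ((|a| + |b|) / 2) * (7 * (Real.exp 1 + 1) *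
    Real.exp ((|a| + |b|) / 2))) ^ 2) ?_ ?_
  · have := VV_measurable 1
    fun_prop
  · intro x hx
    have hx' : x ≤ |a| + |b| := by
      rw [mem_uIoc] at hx
      rcases hx with h | h
      · linarith [le_abs_self b, abs_nonneg a]
      · linarith [le_abs_self a, abs_nonneg b]
    rw [abs_pow, abs_mul, abs_of_pos (Real.exp_pos _)]
    have := abs_VV_le (κ := 1) x
    gcongr
    refine this.trans ?_
    gcongr

lemma growth_bound (h : WinO) {A : ℝ} (hA : 1 ≤ A) : ∃ C y₀ : ℝ, 0 ≤ C ∧ ∀ y ≥ y₀,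
    ∫ v in y..(y + 1), (MM (v + 1) - MM v) ^ 2 ≤ C * (y ^ 2 * Real.exp (y * (1 + 1 / (A + 1)))) := by
  obtain ⟨C, T₀, hT⟩ := h A (A + 2) hA (by linarith)
  refine ⟨4 * |C| * Real.exp 2, max 1 (max ((A + 1) * ((A + 2) * Real.log 4 + 2))
    ((A + 1) * (Real.log 4 + |Real.log (|T₀| + 1)|))), by positivity, ?_⟩
  intro y hy
  have hA1 : 0 < A + 1 := by linarith
  have hy1 : 1 ≤ y := (le_max_left _ _).trans hy
  have hy2 : (A + 1) * ((A + 2) * Real.log 4 + 2) ≤ y :=
    ((le_max_left _ _).trans (le_max_right _ _)).trans hy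
  have hy3 : (A + 1) * (Real.log 4 + |Real.log (|T₀| + 1)|) ≤ y :=
    ((le_max_right _ _).trans (le_max_right _ _)).trans hy
  have hl4 : 0 < Real.log 4 := Real.log_pos (by norm_num)
  set E : ℝ := Real.exp (y / (A + 1)) with hE
  have hyA : (A + 2) * Real.log 4 + 2 ≤ y / (A + 1) := by
    rw [le_div_iff₀ hA1]; linarith
  have hyA3 : Real.log 4 + |Real.log (|T₀| + 1)| ≤ y / (A + 1) := by
    rw [le_div_iff₀ hA1]; linarith
  have hE2 : 4 ≤ E := by
    rw [hE, ← Real.exp_log (show (0:ℝ) < 4 by norm_num)]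
    apply Real.exp_le_exp.2
    nlinarith
  set n : ℕ := ⌊E⌋₊ with hn
  have hn1 : (n : ℝ) ≤ E := Nat.floor_le (by positivity)
  have hn2 : E < n + 1 := Nat.lt_floor_add_one E
  have hnE : E / 2 ≤ n := by linarith
  have hn2' : (2 : ℝ) ≤ n := by linarith
  have hn0 : 0 < n := by
    have : (0:ℝ) < n := by linarith
    exact_mod_cast this
  have hn0' : (0:ℝ) < n := by exact_mod_cast hn0
  set T : ℝ := 1 / (Real.exp (1 / n) - 1) with hTd
  have hx0 : (0:ℝ) < 1 / n := by positivity
  have hx1 : (1:ℝ) / n ≤ 1 := by rw [div_le_one hn0']; linarith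
  have he1 : 1 / (n:ℝ) ≤ Real.exp (1 / n) - 1 := by
    have := Real.add_one_le_exp (1 / (n:ℝ)); linarith
  have he2 : Real.exp (1 / n) - 1 ≤ 2 * (1 / n) := by
    have := Real.abs_exp_sub_one_le (x := 1 / (n:ℝ)) (by rw [abs_of_pos hx0]; exact hx1)
    rw [abs_of_pos hx0] at this
    exact (le_abs_self _).trans this
  have hepos : 0 < Real.exp (1 / n) - 1 := lt_of_lt_of_le hx0 he1
  have hTpos : 0 < T := by rw [hTd]; positivity
  have hTn : T ≤ n := by
    rw [hTd, div_le_iff₀ hepos]
    calc (1:ℝ) = n * (1 / n) := by field_simp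
      _ ≤ n * (Real.exp (1 / n) - 1) := by gcongr
  have hnT : n / 2 ≤ T := by
    rw [hTd, le_div_iff₀ hepos]
    calc (n:ℝ) / 2 * (Real.exp (1 / n) - 1) ≤ n / 2 * (2 * (1 / n)) := by gcongr
      _ = 1 := by field_simp
  have hTE : T ≤ E := hTn.trans hn1
  have hET : E / 4 ≤ T := by linarith
  have hkap : kap T = 1 / n := by
    unfold kap
    rw [hTd, one_div_one_div]
    rw [add_sub_cancel, Real.log_exp]
  have hLE : Real.log T ≤ y / (A + 1) := by
    have := Real.log_le_log hTpos hTE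
    rwa [hE, Real.log_exp] at this
  have hEL : y / (A + 1) - Real.log 4 ≤ Real.log T := by
    have := Real.log_le_log (by positivity) hET
    rwa [Real.log_div (by positivity) (by norm_num), hE, Real.log_exp] at this
  have hL1 : 1 ≤ Real.log T := by nlinarith
  have hTT0 : T ≥ T₀ := by
    have h1 : Real.log (|T₀| + 1) ≤ Real.log T := by
      have := le_abs_self (Real.log (|T₀| + 1)); linarith
    have h2 := (Real.log_le_log_iff (by positivity) hTpos).1 h1
    have := le_abs_self T₀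
    linarith
  have hw := hT T hTT0
  rw [hkap] at hw
  have hlow : A * Real.log T ≤ y := by
    calc A * Real.log T ≤ A * (y / (A + 1)) := by gcongr
      _ = y * (A / (A + 1)) := by ring
      _ ≤ y * 1 := by
          apply mul_le_mul_of_nonneg_left _ (by linarith)
          rw [div_le_one hA1]; linarith
      _ = y := mul_one y
  have hupp : y + 2 ≤ (A + 2) * Real.log T := by
    have h1 : (A + 2) * (y / (A + 1) - Real.log 4) ≤ (A + 2) * Real.log T := by gcongr
    have h2 : (A + 2) * (y / (A + 1)) = y + y / (A + 1) := by field_simp; ring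
    nlinarith
  have hsub : ∫ v in y..(y + 2), VV (1 / n) v ^ 2 ≤
      ∫ v in (A * Real.log T)..((A + 2) * Real.log T), VV (1 / n) v ^ 2 := by
    apply intervalIntegral.integral_mono_interval hlow (by linarith) hupp
    · exact Eventually.of_forall fun v => sq_nonneg _
    · exact VV_sq_ii _ _ _
  have hchain : ∫ v in y..(y + 2), VV (1 / n) v ^ 2 ≤ 4 * |C| * y ^ 2 / E := by
    refine (hsub.trans hw).trans ?_
    have hLy : Real.log T ^ 2 ≤ y ^ 2 := by
      apply pow_le_pow_left₀ (by linarith)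
      refine hLE.trans ?_
      rw [div_le_iff₀ hA1]
      nlinarith
    calc C * Real.log T ^ 2 / T ≤ |C| * y ^ 2 / (E / 4) := by
          gcongr
          exact le_abs_self C
      _ = _ := by field_simp
  refine (step_bound n hn0 y).trans ?_
  have hEy : Real.exp (y * (1 + 1 / (A + 1))) = Real.exp y * E := by
    rw [hE, ← Real.exp_add]; congr 1; ring
  rw [hEy, Real.exp_add]
  have hEpos : 0 < E := Real.exp_pos _
  have hint0 : 0 ≤ ∫ v in y..(y + 2), VV (1 / n) v ^ 2 :=
    intervalIntegral.integral_nonneg (by linarith) fun v _ => sq_nonneg _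
  calc (n:ℝ) ^ 2 * (Real.exp y * Real.exp 2) * ∫ v in y..(y + 2), VV (1 / n) v ^ 2
      ≤ E ^ 2 * (Real.exp y * Real.exp 2) * (4 * |C| * y ^ 2 / E) := by
        gcongr
    _ = _ := by field_simp

/-- weighted square integrability of the unit increments -/
lemma sq_integrable (h : WinO) {a : ℝ} (ha : 1 < a) :
    IntegrableOn (fun v => (MM (v + 1) - MM v) ^ 2 * Real.exp (-(a * v))) (Ioi 0) := by
  -- choose A
  obtain ⟨A, hA, hAa⟩ : ∃ A : ℝ, 1 ≤ A ∧ 1 / (A + 1) < a - 1 := by
    refine ⟨max 1 (1 / (a - 1)), le_max_left _ _, ?_⟩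
    have h1 : 0 < a - 1 := by linarith
    have h2 : 1 / (a - 1) < max 1 (1 / (a - 1)) + 1 := by
      have := le_max_right 1 (1 / (a - 1)); linarith
    rw [div_lt_comm₀ (by positivity) h1]
    exact h2
  obtain ⟨C, y₀, hC, hy⟩ := growth_bound h hA
  set f : ℝ → ℝ := fun v => (MM (v + 1) - MM v) ^ 2 * Real.exp (-(a * v)) with hf
  have hf0 : ∀ v, 0 ≤ f v := fun v => mul_nonneg (sq_nonneg _) (Real.exp_pos _).le
  have hfii : ∀ c d : ℝ, IntervalIntegrable f volume c d := by
    intro c d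
    exact (diff_sq_ii c d).mul_continuousOn (by fun_prop)
  set b : ℝ := a - 1 - 1 / (A + 1) with hb
  have hb0 : 0 < b := by rw [hb]; linarith
  -- unit intervals
  have hunit : ∀ n : ℕ, y₀ ≤ n → ∫ v in (n:ℝ)..((n + 1 : ℕ) : ℝ), f v ≤
      C * ((n:ℝ) ^ 2 * Real.exp (-(b * n))) := by
    intro n hn
    have h1 : ∫ v in (n:ℝ)..((n + 1 : ℕ) : ℝ), f v ≤
        ∫ v in (n:ℝ)..((n + 1 : ℕ) : ℝ), (MM (v + 1) - MM v) ^ 2 * Real.exp (-(a * n)) := by
      apply intervalIntegral.integral_mono_on (by push_cast; linarith) (hfii _ _)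
        ((diff_sq_ii _ _).mul_const _)
      intro v hv
      simp only [hf]
      apply mul_le_mul_of_nonneg_left _ (sq_nonneg _)
      apply Real.exp_le_exp.2
      nlinarith [hv.1]
    rw [intervalIntegral.integral_mul_const] at h1
    have h2 := hy n hn
    push_cast at h1 ⊢
    refine h1.trans ?_
    calc (∫ v in (n:ℝ)..(n + 1), (MM (v + 1) - MM v) ^ 2) * Real.exp (-(a * n))
        ≤ (C * ((n:ℝ) ^ 2 * Real.exp (n * (1 + 1 / (A + 1))))) * Real.exp (-(a * n)) := by
          gcongr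
      _ = C * ((n:ℝ) ^ 2 * (Real.exp (n * (1 + 1 / (A + 1))) * Real.exp (-(a * n)))) := by ring
      _ = _ := by rw [← Real.exp_add, hb]; ring_nf
  have hsum : Summable fun n : ℕ => C * ((n:ℝ) ^ 2 * Real.exp (-(b * n))) := by
    apply Summable.mul_left
    have := Real.summable_pow_mul_exp_neg_nat_mul 2 hb0
    simpa [neg_mul] using this
  set N₀ : ℕ := ⌈y₀⌉₊ with hN0
  set I : ℝ := (∫ v in (0:ℝ)..(N₀:ℝ), f v) + ∑' n : ℕ, C * ((n:ℝ) ^ 2 * Real.exp (-(b * n))) with hI
  refine integrableOn_Ioi_of_intervalIntegral_norm_bounded I 0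
    (b := fun i : ℕ => (i : ℝ)) (l := atTop) (fun i => ?_) tendsto_natCast_atTop_atTop ?_
  · have := (intervalIntegrable_iff_integrableOn_Ioc_of_le (Nat.cast_nonneg i)).1 (hfii 0 i)
    exact this
  · filter_upwards [eventually_ge_atTop N₀] with i hi
    have hnorm : ∀ v, ‖f v‖ = f v := fun v => Real.norm_of_nonneg (hf0 v)
    simp only [hnorm]
    have hsplit : ∫ v in (0:ℝ)..(i:ℝ), f v = (∫ v in (0:ℝ)..(N₀:ℝ), f v) +
        ∫ v in (N₀:ℝ)..(i:ℝ), f v :=
      (intervalIntegral.integral_add_adjacent_intervals (hfii _ _) (hfii _ _)).symm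
    rw [hsplit, hI]
    gcongr
    have hadj := intervalIntegral.sum_integral_adjacent_intervals_Ico (f := f) (μ := volume)
      (a := fun k : ℕ => (k : ℝ)) hi (fun k _ => hfii _ _)
    rw [← hadj]
    calc ∑ k ∈ Finset.Ico N₀ i, ∫ v in (k:ℝ)..((k + 1 : ℕ) : ℝ), f v
        ≤ ∑ k ∈ Finset.Ico N₀ i, C * ((k:ℝ) ^ 2 * Real.exp (-(b * k))) := by
          refine Finset.sum_le_sum fun k hk => hunit k ?_
          have h1 := (Finset.mem_Ico.1 hk).1
          calc y₀ ≤ N₀ := Nat.le_ceil y₀
            _ ≤ k := by exact_mod_cast h1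
      _ ≤ _ := hsum.sum_le_tsum _ (fun n _ => by positivity)

lemma abs_integrable (h : WinO) {σ : ℝ} (hσ : 1 / 2 < σ) :
    IntegrableOn (fun v => |MM (v + 1) - MM v| * Real.exp (-(σ * v))) (Ioi 0) := by
  have h1 := sq_integrable h (a := σ + 1 / 2) (by linarith)
  have h2 : IntegrableOn (fun v : ℝ => Real.exp (-((σ - 1 / 2) * v))) (Ioi 0) := by
    have := integrableOn_exp_mul_Ioi (a := -(σ - 1 / 2)) (by linarith) 0
    exact this.congr_fun (fun v _ => by simp only [neg_mul]) measurableSet_Ioi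
  have hm : Measurable (fun v => |MM (v + 1) - MM v| * Real.exp (-(σ * v))) := by
    have e1 := MM_measurable
    have e2 : Measurable (fun v => MM (v + 1)) := MM_measurable.comp (measurable_id.add_const 1)
    have e3 : Measurable (fun v : ℝ => Real.exp (-(σ * v))) := by fun_prop
    exact ((e2.sub e1).abs).mul e3
  refine Integrable.mono' ((h1.add h2).const_mul (1 / 2)) hm.aestronglyMeasurable ?_
  refine Eventually.of_forall fun v => ?_
  rw [Real.norm_of_nonneg (by positivity)]
  simp only [Pi.add_apply]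
  set x := |MM (v + 1) - MM v| with hx
  have hx2 : (MM (v + 1) - MM v) ^ 2 = x ^ 2 := by rw [hx, sq_abs]
  rw [hx2]
  set p := Real.exp (-((σ + 1 / 2) * v) / 2) with hp
  set q := Real.exp (-((σ - 1 / 2) * v) / 2) with hq
  have e1 : Real.exp (-(σ * v)) = p * q := by rw [hp, hq, ← Real.exp_add]; ring_nf
  have e2 : Real.exp (-((σ + 1 / 2) * v)) = p ^ 2 := by rw [hp, sq, ← Real.exp_add]; ring_nf
  have e3 : Real.exp (-((σ - 1 / 2) * v)) = q ^ 2 := by rw [hq, sq, ← Real.exp_add]; ring_nf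
  rw [e1, e2, e3]
  nlinarith [sq_nonneg (x * p - q)]

end Pool.Agent.PairCorr.P6
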