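import Mathlib
import Pool.Agent.PairCorr.P6_Arch
import Pool.Agent.PairCorr.P6_Growth
import Pool.Agent.H51.Maxi.Planch

set_option autoImplicit false

namespace Pool.Agent.PairCorr.P6

open MeasureTheory Filter Topology Set Real FourierTransform
open scoped ENNReal ArithmeticFunction.vonMangoldt

variable {φ : ℝ → ℝ} {B κ : ℝ}

/-- number of terms -/
noncomputable def NB (B : ℝ) : ℕ := ⌈Real.exp B⌉₊ + 1

lemma NB_spec (h : TF φ B) {n : ℕ} (hn : NB B ≤ n) : φ (Real.log n) = 0 := by
  apply h.supp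
  have h1 : Real.exp B < n := by
    have h2 : Real.exp B ≤ ⌈Real.exp B⌉₊ := Nat.le_ceil _
    have h3 : ((NB B : ℕ) : ℝ) ≤ n := by exact_mod_cast hn
    unfold NB at h3
    push_cast at h3
    linarith
  have h4 : B < Real.log n := (Real.lt_log_iff_exp_lt (lt_trans (Real.exp_pos B) h1)).2 h1
  exact lt_of_lt_of_le h4 (le_abs_self _)

/-- the step part -/
noncomputable def stepP (φ : ℝ → ℝ) (B κ v : ℝ) : ℝ :=
  ∑ n ∈ Finset.range (NB B), Λ n * φ (Real.log n) *
    (Ico (Real.log n - κ) (Real.log n)).indicator (fun _ => (1:ℝ)) v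

/-- the continuous part -/
noncomputable def contP (φ : ℝ → ℝ) (κ v : ℝ) : ℝ := ∫ s in (0:ℝ)..κ, φ (v + s) * Real.exp (v + s)

/-- the smoothed increment -/
noncomputable def WW (φ : ℝ → ℝ) (B κ v : ℝ) : ℝ :=
  Real.exp (-(v / 2)) * (stepP φ B κ v - contP φ κ v)

/-- the multiplier -/
noncomputable def aK (κ : ℝ) (s : ℂ) : ℂ := ∫ u in (0:ℝ)..κ, Complex.exp (s * u)

lemma step_ft (c t : ℝ) (hκ : 0 ≤ κ) :
    ∫ v : ℝ, ((Real.exp (-(v / 2)) * (Ico (c - κ) c).indicator (fun _ => (1:ℝ)) v : ℝ) : ℂ) *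
      Complex.exp (-(t * v * Complex.I)) =
    Complex.exp (-(c * (1/2 + t * Complex.I))) * aK κ (1/2 + t * Complex.I) := by
  have e1 : (fun v : ℝ => ((Real.exp (-(v / 2)) * (Ico (c - κ) c).indicator (fun _ => (1:ℝ)) v : ℝ) : ℂ) *
      Complex.exp (-(t * v * Complex.I))) =
      (Ico (c - κ) c).indicator (fun v : ℝ => Complex.exp (-(v * (1/2 + t * Complex.I)))) := by
    funext v
    by_cases hv : v ∈ Ico (c - κ) c
    · rw [indicator_of_mem hv, indicator_of_mem hv, mul_one, Complex.ofReal_exp, ← Complex.exp_add]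
      congr 1; push_cast; ring
    · rw [indicator_of_notMem hv, indicator_of_notMem hv]; simp
  rw [e1, integral_indicator measurableSet_Ico, integral_Ico_eq_integral_Ioc,
    ← intervalIntegral.integral_of_le (by linarith)]
  unfold aK
  have e2 : ∀ u : ℝ, Complex.exp (-(c * (1/2 + t * Complex.I))) * Complex.exp ((1/2 + t * Complex.I) * u) =
      (fun v : ℝ => Complex.exp (-(v * (1/2 + t * Complex.I)))) (c - u) := by
    intro u
    simp only
    rw [← Complex.exp_add]; congr 1; push_cast; ring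
  rw [← intervalIntegral.integral_const_mul]
  simp_rw [e2]
  rw [intervalIntegral.integral_comp_sub_left (fun v : ℝ => Complex.exp (-(v * (1/2 + t * Complex.I)))) c,
    sub_zero]

lemma stepP_measurable : Measurable (stepP φ B κ) := by
  unfold stepP
  apply Finset.measurable_fun_sum
  intro n _
  exact (measurable_const.indicator measurableSet_Ico).const_mul _

lemma contP_continuous (h : TF φ B) : Continuous (contP φ κ) := by
  unfold contP
  apply intervalIntegral.continuous_parametric_intervalIntegral_of_continuous'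
  have := h.cont
  fun_prop

lemma contP_supp (h : TF φ B) (hκ : 0 ≤ κ) {v : ℝ} (hv : v < -B - κ ∨ B < v) : contP φ κ v = 0 := by
  unfold contP
  rw [intervalIntegral.integral_congr (g := fun _ => (0:ℝ))]
  · simp
  · intro s hs
    rw [uIcc_of_le hκ] at hs
    simp only
    rw [h.supp, zero_mul]
    rw [lt_abs]
    rcases hv with hv | hv
    · right; linarith [hs.2]
    · left; linarith [hs.1]

lemma stepP_supp (h : TF φ B) {v : ℝ} (hv : v < -B - κ ∨ B < v) : stepP φ B κ v = 0 := by
  unfold stepP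
  apply Finset.sum_eq_zero
  intro n _
  by_cases hn : B < |Real.log n|
  · rw [h.supp _ hn]; ring
  · push Not at hn
    rw [abs_le] at hn
    rw [indicator_of_notMem, mul_zero]
    rw [mem_Ico, not_and_or, not_le, not_lt]
    rcases hv with hv | hv
    · left; linarith [hn.1]
    · right; linarith [hn.2]

lemma WW_measurable (h : TF φ B) : Measurable (WW φ B κ) := by
  unfold WW
  have h1 : Measurable (contP φ κ) := (contP_continuous h).measurable
  have h2 : Measurable (stepP φ B κ) := stepP_measurable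
  have h3 : Measurable (fun v : ℝ => Real.exp (-(v / 2))) := by fun_prop
  exact h3.mul (h2.sub h1)

lemma WW_supp (h : TF φ B) (hκ : 0 ≤ κ) {v : ℝ} (hv : v ∉ Icc (-B - κ) B) : WW φ B κ v = 0 := by
  have hv' : v < -B - κ ∨ B < v := by
    rw [mem_Icc, not_and_or, not_le, not_le] at hv; exact hv
  unfold WW
  rw [contP_supp h hκ hv', stepP_supp h hv']; ring

lemma WW_bdd (h : TF φ B) (hκ : 0 ≤ κ) : ∃ C : ℝ, ∀ v, |WW φ B κ v| ≤ C := by
  obtain ⟨C1, hC1⟩ := (isCompact_Icc (a := -B - κ) (b := B)).exists_bound_of_continuousOn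
    (contP_continuous (κ := κ) h).continuousOn
  set C2 : ℝ := ∑ n ∈ Finset.range (NB B), |Λ n * φ (Real.log n)| with hC2
  have h2 : ∀ v, |stepP φ B κ v| ≤ C2 := by
    intro v
    unfold stepP
    refine (Finset.abs_sum_le_sum_abs _ _).trans (Finset.sum_le_sum fun n _ => ?_)
    rw [abs_mul]
    apply mul_le_of_le_one_right (abs_nonneg _)
    by_cases hv : v ∈ Ico (Real.log n - κ) (Real.log n)
    · rw [indicator_of_mem hv]; simp
    · rw [indicator_of_notMem hv]; simp
  refine ⟨Real.exp ((|B| + κ) / 2) * (C2 + |C1|), fun v => ?_⟩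
  by_cases hv : v ∈ Icc (-B - κ) B
  · unfold WW
    rw [abs_mul, abs_of_pos (Real.exp_pos _)]
    have e1 := hC1 v hv
    rw [Real.norm_eq_abs] at e1
    have e2 : |stepP φ B κ v - contP φ κ v| ≤ C2 + |C1| := by
      refine (abs_sub _ _).trans ?_
      exact add_le_add (h2 v) (e1.trans (le_abs_self _))
    have e3 : Real.exp (-(v / 2)) ≤ Real.exp ((|B| + κ) / 2) := by
      apply Real.exp_le_exp.2
      have := hv.1
      have := neg_abs_le B
      have := le_abs_self B
      linarith
    gcongr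
  · rw [WW_supp h hκ hv, abs_zero]
    have : 0 ≤ C2 := Finset.sum_nonneg fun _ _ => abs_nonneg _
    positivity

lemma WW_memLp (h : TF φ B) (hκ : 0 ≤ κ) (p : ℝ≥0∞) : MemLp (fun v => (WW φ B κ v : ℂ)) p volume := by
  obtain ⟨C, hC⟩ := WW_bdd h hκ
  have hm : Measurable (fun v => (WW φ B κ v : ℂ)) := Complex.measurable_ofReal.comp (WW_measurable h)
  have h1 : (fun v => (WW φ B κ v : ℂ)) =
      (Icc (-B - κ) B).indicator (fun v => (WW φ B κ v : ℂ)) := by
    funext v
    by_cases hv : v ∈ Icc (-B - κ) B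
    · rw [indicator_of_mem hv]
    · rw [indicator_of_notMem hv, WW_supp h hκ hv]; simp
  rw [h1, memLp_indicator_iff_restrict measurableSet_Icc]
  have hfin : IsFiniteMeasure (volume.restrict (Icc (-B - κ) B)) :=
    isFiniteMeasure_restrict.2 isCompact_Icc.measure_lt_top.ne
  refine MemLp.of_bound hm.aestronglyMeasurable C (Eventually.of_forall fun v => ?_)
  rw [Complex.norm_real, Real.norm_eq_abs]
  exact hC v

lemma cont_ft (h : TF φ B) (hκ : 0 ≤ κ) (t : ℝ) :
    ∫ v : ℝ, ((Real.exp (-(v / 2)) * contP φ κ v : ℝ) : ℂ) * Complex.exp (-(t * v * Complex.I)) =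
    aK κ (1/2 + t * Complex.I) * kS φ t 1 := by
  set s0 : ℂ := 1/2 + t * Complex.I with hs0
  set f : ℝ → ℝ → ℂ := fun v s => ((φ (v + s) * Real.exp (v + s) : ℝ) : ℂ) * Complex.exp (-(v * s0)) with hf
  have e1 : ∀ v : ℝ, ((Real.exp (-(v / 2)) * contP φ κ v : ℝ) : ℂ) * Complex.exp (-(t * v * Complex.I)) =
      ∫ s in Ioc 0 κ, f v s := by
    intro v
    simp only [hf]
    rw [integral_mul_const, integral_complex_ofReal, ← intervalIntegral.integral_of_le hκ]
    unfold contP
    push_cast
    have : Complex.exp (-(v * s0)) = Complex.exp (-(v / 2)) * Complex.exp (-(t * v * Complex.I)) := by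
      rw [← Complex.exp_add]; congr 1; rw [hs0]; ring
    rw [this]; ring
  simp_rw [e1]
  rw [integral_integral_swap]
  · have e2 : ∀ s : ℝ, ∫ v : ℝ, f v s = Complex.exp (s0 * s) * kS φ t 1 := by
      intro s
      rw [← integral_sub_right_eq_self _ s]
      unfold kS Kc
      rw [← integral_const_mul]
      congr 1
      ext v
      simp only [hf, sub_add_cancel]
      push_cast
      have : Complex.exp v * Complex.exp (-((v - s) * s0)) =
          Complex.exp (s0 * s) * Complex.exp (v * (1 - (1/2 + t * Complex.I))) := by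
        rw [← Complex.exp_add, ← Complex.exp_add]; congr 1; rw [hs0]; ring
      linear_combination (φ v : ℂ) * this
    simp_rw [e2]
    rw [integral_mul_const, ← intervalIntegral.integral_of_le hκ]
    rfl
  · -- integrability
    have hcont : Continuous (Function.uncurry f) := by
      have := h.cont
      simp only [hf, Function.uncurry_def]
      fun_prop
    obtain ⟨C, hC⟩ := ((isCompact_Icc (a := -B - κ) (b := B)).prod
      (isCompact_Icc (a := 0) (b := κ))).exists_bound_of_continuousOn hcont.continuousOn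
    have hprod : (volume : Measure ℝ).prod (volume.restrict (Ioc 0 κ)) =
        ((volume : Measure ℝ).prod volume).restrict (univ ×ˢ Ioc 0 κ) := by
      rw [← Measure.prod_restrict, Measure.restrict_univ]
    rw [hprod]
    have hg : IntegrableOn (fun _ : ℝ × ℝ => |C|) (Icc (-B - κ) B ×ˢ Ioc 0 κ)
        ((volume : Measure ℝ).prod volume) := by
      rw [integrableOn_const_iff]
      right
      rw [Measure.prod_prod]
      exact ENNReal.mul_lt_top (by simp) (by simp)
    have hg2 : Integrable ((Icc (-B - κ) B ×ˢ Ioc 0 κ).indicator (fun _ : ℝ × ℝ => |C|))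
        ((volume : Measure ℝ).prod volume) :=
      (integrable_indicator_iff (measurableSet_Icc.prod measurableSet_Ioc)).2 hg
    refine Integrable.mono' hg2.restrict hcont.aestronglyMeasurable ?_
    filter_upwards [ae_restrict_mem (MeasurableSet.univ.prod measurableSet_Ioc)] with p hp
    have hp2 : p.2 ∈ Ioc 0 κ := hp.2
    by_cases hp1 : p.1 ∈ Icc (-B - κ) B
    · rw [indicator_of_mem (by exact ⟨hp1, hp2⟩)]
      exact (hC p ⟨hp1, ⟨hp2.1.le, hp2.2⟩⟩).trans (le_abs_self C)
    · rw [indicator_of_notMem (by intro hc; exact hp1 hc.1)]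
      have hz : φ (p.1 + p.2) = 0 := by
        apply h.supp
        rw [mem_Icc, not_and_or, not_le, not_le] at hp1
        rw [lt_abs]
        rcases hp1 with h1 | h1
        · right; linarith [hp2.2]
        · left; linarith [hp2.1]
      simp [Function.uncurry_def, hf, hz]

/-- The Fourier transform of the smoothed increment. -/
theorem WW_ft (h : TF φ B) (hκ : 0 ≤ κ) (t : ℝ) :
    ∫ v : ℝ, (WW φ B κ v : ℂ) * Complex.exp (-(t * v * Complex.I)) =
    aK κ (1/2 + t * Complex.I) * (∑' n : ℕ, primeTerm φ t n - kS φ t 1) := by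
  have hsum : ∑' n : ℕ, primeTerm φ t n = ∑ n ∈ Finset.range (NB B), primeTerm φ t n := by
    apply tsum_eq_sum
    intro n hn
    rw [Finset.mem_range, not_lt] at hn
    unfold primeTerm
    rw [NB_spec h hn]; simp
  have hmem : ∀ t : ℝ, ∀ v : ℝ, ‖Complex.exp (-(t * v * Complex.I))‖ = 1 := by
    intro t v
    rw [Complex.norm_exp]
    simp
  -- integrability of the pieces
  have hi1 : ∀ n : ℕ, Integrable (fun v : ℝ => ((Λ n * φ (Real.log n) : ℝ) : ℂ) *
      (((Real.exp (-(v / 2)) * (Ico (Real.log n - κ) (Real.log n)).indicator (fun _ => (1:ℝ)) v : ℝ) : ℂ) *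
      Complex.exp (-(t * v * Complex.I)))) := by
    intro n
    apply Integrable.const_mul
    have e1 : (fun v : ℝ => ((Real.exp (-(v / 2)) *
        (Ico (Real.log n - κ) (Real.log n)).indicator (fun _ => (1:ℝ)) v : ℝ) : ℂ) *
        Complex.exp (-(t * v * Complex.I))) =
        (Ico (Real.log n - κ) (Real.log n)).indicator
          (fun v : ℝ => (Real.exp (-(v / 2)) : ℂ) * Complex.exp (-(t * v * Complex.I))) := by
      funext v
      by_cases hv : v ∈ Ico (Real.log n - κ) (Real.log n)
      · rw [indicator_of_mem hv, indicator_of_mem hv, mul_one]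
      · rw [indicator_of_notMem hv, indicator_of_notMem hv]; simp
    rw [e1, integrable_indicator_iff measurableSet_Ico]
    have hc : Continuous (fun v : ℝ => (Real.exp (-(v / 2)) : ℂ) * Complex.exp (-(t * v * Complex.I))) := by
      fun_prop
    exact (hc.integrableOn_Icc (a := Real.log n - κ) (b := Real.log n)).mono_set Ico_subset_Icc_self
  have hi2 : Integrable (fun v : ℝ => ((Real.exp (-(v / 2)) * contP φ κ v : ℝ) : ℂ) *
      Complex.exp (-(t * v * Complex.I))) := by
    apply Continuous.integrable_of_hasCompactSupport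
    · have := contP_continuous (κ := κ) h
      fun_prop
    · apply HasCompactSupport.intro (isCompact_Icc (a := -B - κ) (b := B))
      intro v hv
      have hv' : v < -B - κ ∨ B < v := by
        rw [mem_Icc, not_and_or, not_le, not_le] at hv; exact hv
      rw [contP_supp h hκ hv']; simp
  have hdec : ∀ v : ℝ, (WW φ B κ v : ℂ) * Complex.exp (-(t * v * Complex.I)) =
      (∑ n ∈ Finset.range (NB B), ((Λ n * φ (Real.log n) : ℝ) : ℂ) *
      (((Real.exp (-(v / 2)) * (Ico (Real.log n - κ) (Real.log n)).indicator (fun _ => (1:ℝ)) v : ℝ) : ℂ) *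
      Complex.exp (-(t * v * Complex.I)))) -
      ((Real.exp (-(v / 2)) * contP φ κ v : ℝ) : ℂ) * Complex.exp (-(t * v * Complex.I)) := by
    intro v
    unfold WW stepP
    push_cast
    rw [mul_sub, sub_mul, Finset.mul_sum, Finset.sum_mul]
    congr 1
    apply Finset.sum_congr rfl
    intro n _
    ring
  simp_rw [hdec]
  have hi1s : Integrable (fun v : ℝ => ∑ n ∈ Finset.range (NB B), ((Λ n * φ (Real.log n) : ℝ) : ℂ) *
      (((Real.exp (-(v / 2)) * (Ico (Real.log n - κ) (Real.log n)).indicator (fun _ => (1:ℝ)) v : ℝ) : ℂ) *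
      Complex.exp (-(t * v * Complex.I)))) := integrable_finsetSum _ fun n _ => hi1 n
  rw [integral_sub hi1s hi2, integral_finsetSum _ (fun n _ => hi1 n), cont_ft h hκ, hsum, mul_sub,
    Finset.mul_sum]
  congr 1
  apply Finset.sum_congr rfl
  intro n _
  rw [integral_const_mul, step_ft _ _ hκ]
  unfold primeTerm
  push_cast
  ring

/-- Plancherel for the smoothed increment. -/
theorem WW_plancherel (h : TF φ B) (hκ : 0 ≤ κ) :
    Integrable (fun t : ℝ => ‖aK κ (1/2 + t * Complex.I) *
      (∑' n : ℕ, primeTerm φ t n - kS φ t 1)‖ ^ 2) ∧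
    ∫ t : ℝ, ‖aK κ (1/2 + t * Complex.I) * (∑' n : ℕ, primeTerm φ t n - kS φ t 1)‖ ^ 2 =
      2 * π * ∫ v, WW φ B κ v ^ 2 := by
  have h1 : Integrable (fun v => (WW φ B κ v : ℂ)) := memLp_one_iff_integrable.1 (WW_memLp h hκ 1)
  have h2 : MemLp (fun v => (WW φ B κ v : ℂ)) 2 := WW_memLp h hκ 2
  have hF : ∀ ξ : ℝ, 𝓕 (fun v => (WW φ B κ v : ℂ)) ξ = aK κ (1/2 + ((2 * π * ξ : ℝ) : ℂ) * Complex.I) *
      (∑' n : ℕ, primeTerm φ (2 * π * ξ) n - kS φ (2 * π * ξ) 1) := by
    intro ξ
    rw [← WW_ft h hκ, Real.fourier_real_eq_integral_exp_smul]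
    congr 1
    ext v
    rw [smul_eq_mul, mul_comm]
    congr 2
    push_cast; ring
  have hpl := Pool.Agent.H51.Maxi.integral_fourier_sq h1 h2
  have hmem := Pool.Agent.H51.Maxi.memLp_fourier h1 h2
  have hsq : Integrable (fun ξ : ℝ => ‖𝓕 (fun v => (WW φ B κ v : ℂ)) ξ‖ ^ 2) :=
    hmem.integrable_norm_pow (by norm_num)
  simp_rw [hF] at hpl hsq
  have hpi : (2 * π) ≠ 0 := by positivity
  set g : ℝ → ℝ := fun t => ‖aK κ (1/2 + (t : ℂ) * Complex.I) *
      (∑' n : ℕ, primeTerm φ t n - kS φ t 1)‖ ^ 2 with hg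
  have hgi : Integrable g := (integrable_comp_mul_left_iff g hpi).1 hsq
  refine ⟨hgi, ?_⟩
  have h3 : ∫ ξ : ℝ, g (2 * π * ξ) = |(2 * π)⁻¹| • ∫ t, g t :=
    Measure.integral_comp_mul_left g (2 * π)
  have h4 : ∫ ξ : ℝ, g (2 * π * ξ) = ∫ v, WW φ B κ v ^ 2 := by
    rw [hg]
    rw [hpl]
    congr 1
    ext v
    rw [Complex.norm_real, Real.norm_eq_abs, sq_abs]
  rw [h4, smul_eq_mul, abs_of_pos (by positivity)] at h3
  rw [h3]
  field_simp

end Pool.Agent.PairCorr.P6
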