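import Mathlib
import Pool.Agent.PairCorr.P6_FT

set_option autoImplicit false

namespace Pool.Agent.PairCorr.P6

open MeasureTheory Filter Topology Set Real
open scoped ENNReal ArithmeticFunction.vonMangoldt

variable {φ : ℝ → ℝ} {B κ : ℝ}

lemma psi_eq_range {x : ℝ} (hx : 0 ≤ x) {N : ℕ} (hN : x < N) :
    Chebyshev.psi x = ∑ n ∈ Finset.range N, Λ n * (if (n:ℝ) ≤ x then 1 else 0) := by
  rw [Chebyshev.psi]
  have h1 : ∑ n ∈ Finset.range N, Λ n * (if (n:ℝ) ≤ x then (1:ℝ) else 0) =
      ∑ n ∈ (Finset.range N).filter (fun n : ℕ => (n:ℝ) ≤ x), Λ n := by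
    rw [Finset.sum_filter]
    apply Finset.sum_congr rfl
    intro n _
    split_ifs <;> simp
  rw [h1]
  have h2 : (Finset.range N).filter (fun n : ℕ => (n:ℝ) ≤ x) = Finset.range (⌊x⌋₊ + 1) := by
    ext n
    simp only [Finset.mem_filter, Finset.mem_range]
    constructor
    · rintro ⟨_, h⟩
      exact Nat.lt_succ_of_le (Nat.le_floor h)
    · intro h
      have h3 : (n:ℝ) ≤ x := (Nat.le_floor_iff hx).1 (Nat.lt_succ_iff.1 h)
      refine ⟨?_, h3⟩
      have : (n:ℝ) < N := lt_of_le_of_lt h3 hN
      exact_mod_cast this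
  rw [h2]
  apply Finset.sum_subset
  · intro n hn
    rw [Finset.mem_Ioc] at hn
    rw [Finset.mem_range]; omega
  · intro n hn hn2
    rw [Finset.mem_range] at hn
    rw [Finset.mem_Ioc] at hn2
    have : n = 0 := by omega
    rw [this]; simp


lemma psi_diff {w w' : ℝ} (hw : w ≤ w') {N : ℕ} (hN : Real.exp w' < N) :
    Chebyshev.psi (Real.exp w') - Chebyshev.psi (Real.exp w) =
      ∑ n ∈ Finset.range N, Λ n * (Ico (Real.log n - (w' - w)) (Real.log n)).indicator (fun _ => (1:ℝ)) w := by
  have hN2 : Real.exp w < N := lt_of_le_of_lt (Real.exp_le_exp.2 hw) hN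
  rw [psi_eq_range (Real.exp_pos _).le hN, psi_eq_range (Real.exp_pos _).le hN2,
    ← Finset.sum_sub_distrib]
  apply Finset.sum_congr rfl
  intro n _
  rcases Nat.eq_zero_or_pos n with rfl | hn
  · simp
  have hn' : (0:ℝ) < n := by exact_mod_cast hn
  rw [← mul_sub]
  congr 1
  have h1 : ∀ y : ℝ, (n:ℝ) ≤ Real.exp y ↔ Real.log n ≤ y := fun y =>
    (Real.log_le_iff_le_exp hn').symm
  simp only [h1]
  by_cases ha : Real.log n ≤ w
  · rw [if_pos (ha.trans hw), if_pos ha, indicator_of_notMem]
    · ring
    · rw [mem_Ico, not_and_or, not_lt]; right; exact ha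
  · rw [if_neg ha]
    push Not at ha
    by_cases hb : Real.log n ≤ w'
    · rw [if_pos hb, indicator_of_mem]
      · ring
      · rw [mem_Ico]; constructor <;> linarith
    · rw [if_neg hb, indicator_of_notMem]
      · ring
      · push Not at hb
        rw [mem_Ico, not_and_or, not_le]; left; linarith

lemma stepP_eq (h : TF φ B) (v : ℝ) {N : ℕ} (hN : NB B ≤ N) :
    stepP φ B κ v = ∑ n ∈ Finset.range N, Λ n * φ (Real.log n) *
    (Ico (Real.log n - κ) (Real.log n)).indicator (fun _ => (1:ℝ)) v := by
  unfold stepP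
  apply Finset.sum_subset
  · intro n hn
    rw [Finset.mem_range] at hn ⊢; omega
  · intro n _ hn
    rw [Finset.mem_range, not_lt] at hn
    rw [NB_spec h hn]; ring

lemma step_one (h : TF φ B) (hκ : 0 ≤ κ) (c v : ℝ) :
    φ c * (Ico (c - κ) c).indicator (fun _ => (1:ℝ)) v =
      φ v * (Ico (c - κ) c).indicator (fun _ => (1:ℝ)) v +
      ∫ s in (0:ℝ)..κ, deriv φ (v + s) * (Ico (c - (κ - s)) c).indicator (fun _ => (1:ℝ)) (v + s) := by
  by_cases hv : v ∈ Ico (c - κ) c
  · rw [indicator_of_mem hv, mul_one, mul_one]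
    have hv1 := hv.1
    have hv2 := hv.2
    have hcv : 0 ≤ c - v := by linarith
    have hcv2 : c - v ≤ κ := by linarith
    have e1 : ∫ s in (0:ℝ)..κ, deriv φ (v + s) *
        (Ico (c - (κ - s)) c).indicator (fun _ => (1:ℝ)) (v + s) =
        ∫ s in (0:ℝ)..(c - v), deriv φ (v + s) := by
      rw [intervalIntegral.integral_of_le hκ, intervalIntegral.integral_of_le hcv,
        integral_Ioc_eq_integral_Ioo, integral_Ioc_eq_integral_Ioo,
        ← integral_indicator measurableSet_Ioo, ← integral_indicator measurableSet_Ioo]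
      congr 1
      ext s
      by_cases hs : s ∈ Ioo 0 (c - v)
      · rw [indicator_of_mem hs]
        have hs' : v + s ∈ Ico (c - (κ - s)) c := by
          rw [mem_Ico]; constructor <;> linarith [hs.1, hs.2]
        by_cases hs2 : s ∈ Ioo 0 κ
        · rw [indicator_of_mem hs2, indicator_of_mem hs', mul_one]
        · exfalso; exact hs2 ⟨hs.1, by linarith [hs.2]⟩
      · rw [indicator_of_notMem hs]
        by_cases hs2 : s ∈ Ioo 0 κ
        · rw [indicator_of_mem hs2, indicator_of_notMem, mul_zero]
          rw [mem_Ico, not_and_or, not_lt]; right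
          rw [mem_Ioo, not_and_or, not_lt, not_lt] at hs
          rcases hs with hs | hs
          · linarith [hs2.1]
          · linarith
        · rw [indicator_of_notMem hs2]
    rw [e1]
    have e2 : ∫ s in (0:ℝ)..(c - v), deriv φ (v + s) = φ (v + (c - v)) - φ (v + 0) := by
      apply intervalIntegral.integral_eq_sub_of_hasDerivAt (f := fun s => φ (v + s))
      · intro s _
        have := (h.hasDerivAt (v + s)).comp_const_add v s
        exact this
      · have := h.deriv.cont
        apply Continuous.intervalIntegrable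
        fun_prop
    rw [e2]
    simp
  · rw [indicator_of_notMem hv, mul_zero, mul_zero, zero_add]
    symm
    rw [intervalIntegral.integral_congr (g := fun _ => (0:ℝ))]
    · simp
    · intro s hs
      rw [uIcc_of_le hκ] at hs
      simp only
      rw [indicator_of_notMem, mul_zero]
      rw [mem_Ico, not_and_or, not_le, not_lt] at hv ⊢
      rcases hv with hv | hv
      · left; linarith
      · right; linarith [hs.1]

/-- summation by parts -/
theorem abelW (h : TF φ B) (hκ : 0 ≤ κ) (v : ℝ) :
    WW φ B κ v = φ v * VV κ v + Real.exp (-(v / 2)) *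
      ∫ s in (0:ℝ)..κ, deriv φ (v + s) * (MM (v + κ) - MM (v + s)) := by
  obtain ⟨N, hN1, hN2⟩ : ∃ N : ℕ, NB B ≤ N ∧ Real.exp (v + κ) < N := by
    refine ⟨max (NB B) (⌊Real.exp (v + κ)⌋₊ + 1), le_max_left _ _, ?_⟩
    have h1 : Real.exp (v + κ) < ⌊Real.exp (v + κ)⌋₊ + 1 := Nat.lt_floor_add_one _
    refine lt_of_lt_of_le h1 ?_
    have := le_max_right (NB B) (⌊Real.exp (v + κ)⌋₊ + 1)
    exact_mod_cast this
  have hii : ∀ n : ℕ, IntervalIntegrable (fun s => Λ n * (deriv φ (v + s) *
      (Ico (Real.log n - (κ - s)) (Real.log n)).indicator (fun _ => (1:ℝ)) (v + s))) volume 0 κ := by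
    intro n
    obtain ⟨C, hC⟩ := (isCompact_Icc (a := v) (b := v + κ)).exists_bound_of_continuousOn
      h.deriv.cont.continuousOn
    have he : (fun s => (Ico (Real.log n - (κ - s)) (Real.log n)).indicator (fun _ => (1:ℝ)) (v + s)) =
        fun s => if Real.log n - κ ≤ v ∧ v + s < Real.log n then (1:ℝ) else 0 := by
      funext s
      by_cases hs : v + s ∈ Ico (Real.log n - (κ - s)) (Real.log n)
      · rw [indicator_of_mem hs, if_pos]
        exact ⟨by linarith [hs.1], hs.2⟩
      · rw [indicator_of_notMem hs, if_neg]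
        rintro ⟨h1, h2⟩
        exact hs ⟨by linarith, h2⟩
    refine IntervalIntegrable.const_mul ?_ _
    refine ii_of_bdd (C := |C|) ?_ ?_
    · apply Measurable.mul
      · exact h.deriv.cont.measurable.comp (measurable_const.add measurable_id)
      · rw [he]
        apply Measurable.ite _ measurable_const measurable_const
        have hms : MeasurableSet {s : ℝ | v + s < Real.log n} :=
          measurableSet_lt (by fun_prop) measurable_const
        exact (MeasurableSet.const _).inter hms
    · intro s hs
      rw [uIoc_of_le hκ] at hs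
      rw [abs_mul]
      have e1 := hC (v + s) ⟨by linarith [hs.1], by linarith [hs.2]⟩
      rw [Real.norm_eq_abs] at e1
      refine (mul_le_of_le_one_right (abs_nonneg _) ?_).trans (e1.trans (le_abs_self C))
      rw [congrFun he s]
      split_ifs <;> simp
  have hiE : IntervalIntegrable (fun s => deriv φ (v + s) *
      (Real.exp (v + κ) - Real.exp (v + s))) volume 0 κ := by
    have := h.deriv.cont
    apply Continuous.intervalIntegrable
    fun_prop
  -- step part
  have hstep : stepP φ B κ v = φ v * (Chebyshev.psi (Real.exp (v + κ)) - Chebyshev.psi (Real.exp v)) +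
      ∫ s in (0:ℝ)..κ, deriv φ (v + s) *
        (Chebyshev.psi (Real.exp (v + κ)) - Chebyshev.psi (Real.exp (v + s))) := by
    rw [stepP_eq h v hN1, psi_diff (by linarith) hN2]
    have e1 : ∀ s ∈ uIcc 0 κ, deriv φ (v + s) *
        (Chebyshev.psi (Real.exp (v + κ)) - Chebyshev.psi (Real.exp (v + s))) =
        ∑ n ∈ Finset.range N, Λ n * (deriv φ (v + s) *
      (Ico (Real.log n - (κ - s)) (Real.log n)).indicator (fun _ => (1:ℝ)) (v + s)) := by
      intro s hs
      rw [uIcc_of_le hκ] at hs
      rw [psi_diff (by linarith [hs.2]) hN2, Finset.mul_sum]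
      apply Finset.sum_congr rfl
      intro n _
      rw [show v + κ - (v + s) = κ - s by ring]
      ring
    rw [intervalIntegral.integral_congr e1, intervalIntegral.integral_finsetSum (fun n _ => hii n),
      Finset.mul_sum, ← Finset.sum_add_distrib]
    apply Finset.sum_congr rfl
    intro n _
    have e2 := step_one h hκ (Real.log n) v
    rw [intervalIntegral.integral_const_mul, mul_assoc, e2, show v + κ - v = κ by ring]
    ring
  -- continuous part
  have hcont : contP φ κ v = φ v * (Real.exp (v + κ) - Real.exp v) +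
      ∫ s in (0:ℝ)..κ, deriv φ (v + s) * (Real.exp (v + κ) - Real.exp (v + s)) := by
    have e3 : ∫ s in (0:ℝ)..κ, (deriv φ (v + s) * (Real.exp (v + κ) - Real.exp (v + s)) -
        φ (v + s) * Real.exp (v + s)) =
        φ (v + κ) * (Real.exp (v + κ) - Real.exp (v + κ)) - φ (v + 0) * (Real.exp (v + κ) - Real.exp (v + 0)) := by
      apply intervalIntegral.integral_eq_sub_of_hasDerivAt
        (f := fun s => φ (v + s) * (Real.exp (v + κ) - Real.exp (v + s)))
      · intro s _
        have d1 : HasDerivAt (fun s => φ (v + s)) (deriv φ (v + s)) s :=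
          (h.hasDerivAt (v + s)).comp_const_add v s
        have d2 : HasDerivAt (fun s => Real.exp (v + κ) - Real.exp (v + s)) (-Real.exp (v + s)) s :=
          ((Real.hasDerivAt_exp (v + s)).comp_const_add v s).const_sub _
        exact (d1.mul d2).congr_deriv (by ring)
      · have h1 := h.deriv.cont
        have h2 := h.cont
        apply Continuous.intervalIntegrable
        fun_prop
    have hiφ : IntervalIntegrable (fun s => φ (v + s) * Real.exp (v + s)) volume 0 κ := by
      have h2 := h.cont
      apply Continuous.intervalIntegrable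
      fun_prop
    rw [intervalIntegral.integral_sub hiE hiφ] at e3
    unfold contP
    simp only [add_zero] at e3
    linarith
  have hcomb : ∫ s in (0:ℝ)..κ, deriv φ (v + s) * (MM (v + κ) - MM (v + s)) =
      (∫ s in (0:ℝ)..κ, deriv φ (v + s) *
        (Chebyshev.psi (Real.exp (v + κ)) - Chebyshev.psi (Real.exp (v + s)))) -
      ∫ s in (0:ℝ)..κ, deriv φ (v + s) * (Real.exp (v + κ) - Real.exp (v + s)) := by
    rw [← intervalIntegral.integral_sub _ hiE]
    · congr 1
      ext s
      unfold MM
      ring
    · have e1 : ∀ s ∈ uIoc 0 κ, (∑ n ∈ Finset.range N, Λ n * (deriv φ (v + s) *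
          (Ico (Real.log n - (κ - s)) (Real.log n)).indicator (fun _ => (1:ℝ)) (v + s))) =
          deriv φ (v + s) *
        (Chebyshev.psi (Real.exp (v + κ)) - Chebyshev.psi (Real.exp (v + s))) := by
        intro s hs
        rw [uIoc_of_le hκ] at hs
        rw [psi_diff (by linarith [hs.2]) hN2, Finset.mul_sum]
        apply Finset.sum_congr rfl
        intro n _
        rw [show v + κ - (v + s) = κ - s by ring]
        ring
      have e2 : IntervalIntegrable (fun s => ∑ n ∈ Finset.range N, Λ n * (deriv φ (v + s) *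
          (Ico (Real.log n - (κ - s)) (Real.log n)).indicator (fun _ => (1:ℝ)) (v + s))) volume 0 κ := by
        have e : (fun s => ∑ n ∈ Finset.range N, Λ n * (deriv φ (v + s) *
          (Ico (Real.log n - (κ - s)) (Real.log n)).indicator (fun _ => (1:ℝ)) (v + s))) =
          ∑ n ∈ Finset.range N, fun s => Λ n * (deriv φ (v + s) *
          (Ico (Real.log n - (κ - s)) (Real.log n)).indicator (fun _ => (1:ℝ)) (v + s)) := by
          funext s; rw [Finset.sum_apply]
        rw [e]
        exact IntervalIntegrable.sum _ (fun n _ => hii n)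
      exact e2.congr e1
  unfold WW VV
  rw [hstep, hcont, hcomb]
  unfold MM
  ring

end Pool.Agent.PairCorr.P6
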