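import Mathlib
import Pool.Agent.PairCorr.P6_Abel
import Pool.Agent.PairCorr.P1_Kernel

set_option autoImplicit false

namespace Pool.Agent.PairCorr.P6

open MeasureTheory Filter Topology Set Real
open scoped ENNReal ArithmeticFunction.vonMangoldt
open Pool.Agent.PairCorr.P1 (snc snc_mul snc_zero snc_neg abs_snc_le contDiff_snc)

/-- the weight `(1+|t|)^{-3/2}` -/
noncomputable def wq (t : ℝ) : ℝ := (1 + |t|) ^ (-(3/2) : ℝ)

lemma wq_pos (t : ℝ) : 0 < wq t := by unfold wq; positivity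

lemma wq_cont : Continuous wq := by
  unfold wq
  apply Continuous.rpow_const
  · fun_prop
  · intro t; left
    have := abs_nonneg t
    positivity

lemma log_le_rpow (t : ℝ) : Real.log (|t| + 2) ≤ 16 * (1 + |t|) ^ ((1/8 : ℝ)) := by
  have ht := abs_nonneg t
  have h1 := Real.log_le_rpow_div (x := |t| + 2) (by positivity) (show (0:ℝ) < 1/8 by norm_num)
  have h2 : (|t| + 2) ^ ((1/8 : ℝ)) ≤ (2 * (1 + |t|)) ^ ((1/8 : ℝ)) :=
    Real.rpow_le_rpow (by positivity) (by linarith) (by norm_num)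
  rw [Real.mul_rpow (by norm_num) (by positivity)] at h2
  have h3 : (2:ℝ) ^ ((1/8 : ℝ)) ≤ 2 := by
    calc (2:ℝ) ^ ((1/8 : ℝ)) ≤ 2 ^ (1:ℝ) := Real.rpow_le_rpow_of_exponent_le (by norm_num) (by norm_num)
      _ = 2 := Real.rpow_one 2
  have h4 : 0 ≤ (1 + |t|) ^ ((1/8 : ℝ)) := by positivity
  calc Real.log (|t| + 2) ≤ (|t| + 2) ^ ((1/8 : ℝ)) / (1/8) := h1
    _ = 8 * (|t| + 2) ^ ((1/8 : ℝ)) := by ring
    _ ≤ 8 * (2 ^ ((1/8 : ℝ)) * (1 + |t|) ^ ((1/8 : ℝ))) := by gcongr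
    _ ≤ 8 * (2 * (1 + |t|) ^ ((1/8 : ℝ))) := by gcongr
    _ = _ := by ring

lemma log_nonneg' (t : ℝ) : 0 ≤ Real.log (|t| + 2) :=
  Real.log_nonneg (by have := abs_nonneg t; linarith)

lemma wq_log_int : Integrable (fun t => wq t * Real.log (|t| + 2) ^ 2) := by
  have h1 : Integrable (fun t : ℝ => (1 + ‖t‖) ^ (-(5/4) : ℝ)) :=
    integrable_one_add_norm (by rw [Module.finrank_self]; norm_num)
  refine Integrable.mono' (h1.const_mul 256) ?_ (Eventually.of_forall fun t => ?_)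
  · apply Continuous.aestronglyMeasurable
    have := wq_cont
    have h2 : Continuous fun t : ℝ => Real.log (|t| + 2) := by
      apply Continuous.log (by fun_prop)
      intro t; have := abs_nonneg t; positivity
    fun_prop
  · have h2 := log_le_rpow t
    have h3 := log_nonneg' t
    have ht := abs_nonneg t
    rw [Real.norm_of_nonneg (by have := wq_pos t; positivity)]
    have h4 : Real.log (|t| + 2) ^ 2 ≤ (16 * (1 + |t|) ^ ((1/8 : ℝ))) ^ 2 :=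
      pow_le_pow_left₀ h3 h2 2
    calc wq t * Real.log (|t| + 2) ^ 2 ≤ wq t * (16 * (1 + |t|) ^ ((1/8 : ℝ))) ^ 2 := by
          have := wq_pos t
          gcongr
      _ = 256 * (1 + ‖t‖) ^ (-(5/4) : ℝ) := by
          unfold wq
          rw [mul_pow, ← Real.rpow_natCast ((1 + |t|) ^ ((1/8 : ℝ))) 2,
            ← Real.rpow_mul (by positivity), Real.norm_eq_abs]
          have : (1 + |t|) ^ (-(5/4) : ℝ) = (1 + |t|) ^ (-(3/2) : ℝ) * (1 + |t|) ^ ((1/8 : ℝ) * ((2:ℕ) : ℝ)) := by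
            rw [← Real.rpow_add (by positivity)]; norm_num
          rw [this]; ring

lemma wq_int_le : ∃ C : ℝ, 0 ≤ C ∧ ∫ t, wq t * Real.log (|t| + 2) ^ 2 ≤ C :=
  ⟨_, integral_nonneg fun t => mul_nonneg (wq_pos t).le (sq_nonneg _), le_rfl⟩

/-! ### the multiplier -/

lemma half_add_ne (t : ℝ) : (1/2 + t * Complex.I : ℂ) ≠ 0 := by
  intro h
  have := congrArg Complex.re h
  simp at this

lemma aK_eq (κ t : ℝ) : aK κ (1/2 + t * Complex.I) =
    (Complex.exp ((1/2 + t * Complex.I) * κ) - 1) / (1/2 + t * Complex.I) := by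
  unfold aK
  rw [integral_exp_mul_complex (half_add_ne t)]
  simp

lemma normSq_half (t : ℝ) : ‖(1/2 + t * Complex.I : ℂ)‖ ^ 2 = 1/4 + t ^ 2 := by
  rw [← Complex.normSq_eq_norm_sq, Complex.normSq_apply]
  simp
  ring

lemma aK_sq (κ t : ℝ) : ‖aK κ (1/2 + t * Complex.I)‖ ^ 2 * (1/4 + t ^ 2) =
    (Real.exp (κ / 2) - 1) ^ 2 + 4 * Real.exp (κ / 2) * Real.sin (κ * t / 2) ^ 2 := by
  rw [aK_eq, norm_div, div_pow, normSq_half]
  have h0 : (1/4 + t ^ 2) ≠ 0 := by positivity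
  rw [div_mul_cancel₀ _ h0]
  have e1 : Complex.exp ((1/2 + t * Complex.I) * κ) =
      ((Real.exp (κ / 2) * Real.cos (κ * t) : ℝ) : ℂ) +
      ((Real.exp (κ / 2) * Real.sin (κ * t) : ℝ) : ℂ) * Complex.I := by
    have : (1/2 + t * Complex.I : ℂ) * κ = ((κ / 2 : ℝ) : ℂ) + ((κ * t : ℝ) : ℂ) * Complex.I := by
      push_cast; ring
    rw [this, Complex.exp_add, Complex.exp_mul_I, ← Complex.ofReal_exp, ← Complex.ofReal_cos,
      ← Complex.ofReal_sin]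
    push_cast; ring
  rw [e1, ← Complex.normSq_eq_norm_sq, Complex.normSq_apply]
  simp only [Complex.sub_re, Complex.sub_im, Complex.add_re, Complex.add_im, Complex.mul_re,
    Complex.mul_im, Complex.ofReal_re, Complex.ofReal_im, Complex.I_re, Complex.I_im, Complex.one_re,
    Complex.one_im]
  have h1 : Real.sin (κ * t) ^ 2 + Real.cos (κ * t) ^ 2 = 1 := Real.sin_sq_add_cos_sq _
  have h2 : Real.cos (κ * t) = 1 - 2 * Real.sin (κ * t / 2) ^ 2 := by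
    have := Real.cos_two_mul (κ * t / 2)
    rw [show 2 * (κ * t / 2) = κ * t by ring] at this
    have h3 := Real.sin_sq_add_cos_sq (κ * t / 2)
    linarith
  generalize Real.exp (κ / 2) = E at *
  linear_combination E ^ 2 * h1 - 2 * E * h2

lemma exp_half_bound {κ : ℝ} (hκ : 0 ≤ κ) (hκ1 : κ ≤ 1) : 0 ≤ Real.exp (κ / 2) - 1 ∧
    Real.exp (κ / 2) - 1 ≤ κ := by
  constructor
  · have := Real.add_one_le_exp (κ / 2); linarith
  · have := Real.abs_exp_sub_one_le (x := κ / 2) (by rw [abs_of_nonneg (by linarith)]; linarith)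
    rw [abs_of_nonneg (show (0:ℝ) ≤ κ / 2 by linarith)] at this
    have h2 := le_abs_self (Real.exp (κ / 2) - 1)
    linarith

lemma eight_bound (t : ℝ) : (1 + |t|) ^ 2 ≤ 8 * (1/4 + t ^ 2) := by
  have : t ^ 2 = |t| ^ 2 := (sq_abs t).symm
  rw [this]
  nlinarith [sq_nonneg (|t| - 1), abs_nonneg t]

/-- the crude bound for the multiplier -/
lemma aK_sq_le {κ : ℝ} (hκ : 0 ≤ κ) (hκ1 : κ ≤ 1) (t : ℝ) :
    ‖aK κ (1/2 + t * Complex.I)‖ ^ 2 ≤ 100 * wq t := by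
  have h1 := aK_sq κ t
  obtain ⟨e1, e2⟩ := exp_half_bound hκ hκ1
  have hs := Real.sin_sq_le_one (κ * t / 2)
  have hs0 := sq_nonneg (Real.sin (κ * t / 2))
  have h3 := eight_bound t
  have ht := abs_nonneg t
  have h4 : ‖aK κ (1/2 + t * Complex.I)‖ ^ 2 * (1/4 + t ^ 2) ≤ 9 := by
    rw [h1]
    nlinarith
  have h5 : ‖aK κ (1/2 + t * Complex.I)‖ ^ 2 * (1 + |t|) ^ 2 ≤ 72 := by
    calc ‖aK κ (1/2 + t * Complex.I)‖ ^ 2 * (1 + |t|) ^ 2
        ≤ ‖aK κ (1/2 + t * Complex.I)‖ ^ 2 * (8 * (1/4 + t ^ 2)) := by gcongr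
      _ = 8 * (‖aK κ (1/2 + t * Complex.I)‖ ^ 2 * (1/4 + t ^ 2)) := by ring
      _ ≤ _ := by linarith
  have h6 : ((1 + |t|) ^ 2)⁻¹ ≤ wq t := by
    unfold wq
    rw [← Real.rpow_natCast, ← Real.rpow_neg (by positivity)]
    apply Real.rpow_le_rpow_of_exponent_le (by linarith)
    push_cast; norm_num
  calc ‖aK κ (1/2 + t * Complex.I)‖ ^ 2
      = (‖aK κ (1/2 + t * Complex.I)‖ ^ 2 * (1 + |t|) ^ 2) * ((1 + |t|) ^ 2)⁻¹ := by
        field_simp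
    _ ≤ 72 * ((1 + |t|) ^ 2)⁻¹ := by gcongr
    _ ≤ 100 * wq t := by
        have := wq_pos t
        calc 72 * ((1 + |t|) ^ 2)⁻¹ ≤ 72 * wq t := by gcongr
          _ ≤ _ := by linarith

/-- the clean weight `(2 sin(κt/2)/t)²` -/
noncomputable def Gk (κ t : ℝ) : ℝ := κ ^ 2 * snc (κ * t / 2) ^ 2

lemma Gk_nonneg (κ t : ℝ) : 0 ≤ Gk κ t := by unfold Gk; positivity

lemma Gk_le (κ t : ℝ) : Gk κ t ≤ κ ^ 2 := by
  unfold Gk
  have h := abs_snc_le (κ * t / 2)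
  have : snc (κ * t / 2) ^ 2 ≤ 1 := by
    rw [← sq_abs]
    exact pow_le_one₀ (abs_nonneg _) h
  nlinarith [sq_nonneg κ]

lemma Gk_mul (κ t : ℝ) : Gk κ t * t ^ 2 = 4 * Real.sin (κ * t / 2) ^ 2 := by
  unfold Gk
  have h := snc_mul (κ * t / 2)
  rw [← h]; ring

lemma Gk_even (κ t : ℝ) : Gk κ (-t) = Gk κ t := by
  unfold Gk
  rw [show κ * -t / 2 = -(κ * t / 2) by ring, snc_neg]

lemma Gk_cont (κ : ℝ) : Continuous (Gk κ) := by
  unfold Gk
  have := contDiff_snc.continuous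
  fun_prop

/-- `min(1,x²) ≤ √x` in the form needed -/
lemma sin_sq_le_sqrt {κ : ℝ} (hκ : 0 ≤ κ) (t : ℝ) :
    Real.sin (κ * t / 2) ^ 2 ≤ κ ^ (1/2 : ℝ) * (1 + |t|) ^ (1/2 : ℝ) := by
  have ht := abs_nonneg t
  set x : ℝ := |κ * t / 2| with hx
  have hx0 : 0 ≤ x := abs_nonneg _
  have h1 : Real.sin (κ * t / 2) ^ 2 ≤ x ^ (1/2 : ℝ) := by
    rcases le_total x 1 with h | h
    · have h2 : |Real.sin (κ * t / 2)| ≤ x := Real.abs_sin_le_abs
      calc Real.sin (κ * t / 2) ^ 2 = |Real.sin (κ * t / 2)| ^ 2 := (sq_abs _).symm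
        _ ≤ x ^ 2 := pow_le_pow_left₀ (abs_nonneg _) h2 2
        _ = x ^ (2:ℝ) := by norm_cast
        _ ≤ x ^ (1/2 : ℝ) := Real.rpow_le_rpow_of_exponent_ge' hx0 h (by norm_num) (by norm_num)
    · calc Real.sin (κ * t / 2) ^ 2 ≤ 1 := Real.sin_sq_le_one _
        _ ≤ x ^ (1/2 : ℝ) := Real.one_le_rpow h (by norm_num)
  refine h1.trans ?_
  rw [← Real.mul_rpow hκ (by positivity)]
  apply Real.rpow_le_rpow hx0 _ (by norm_num)
  rw [hx, abs_div, abs_mul, abs_of_nonneg hκ]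
  have : κ * |t| ≤ κ * (1 + |t|) := by gcongr; linarith
  have h3 : 0 ≤ κ * |t| := by positivity
  rw [abs_of_pos (show (0:ℝ) < 2 by norm_num)]
  linarith

lemma wq_eq (t : ℝ) : (1 + |t|) ^ (1/2 : ℝ) * ((1 + |t|) ^ 2)⁻¹ = wq t := by
  have ht := abs_nonneg t
  unfold wq
  rw [← Real.rpow_natCast (1 + |t|) 2, ← Real.rpow_neg (by positivity), ← Real.rpow_add (by positivity)]
  norm_num

/-- comparison of the two multipliers -/
lemma aK_sub_Gk {κ : ℝ} (hκ : 0 ≤ κ) (hκ1 : κ ≤ 1) (t : ℝ) :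
    |‖aK κ (1/2 + t * Complex.I)‖ ^ 2 - Gk κ t| ≤ 50 * κ ^ (3/2 : ℝ) * wq t := by
  have ht := abs_nonneg t
  obtain ⟨e1, e2⟩ := exp_half_bound hκ hκ1
  have h1 := aK_sq κ t
  have h2 := Gk_mul κ t
  have h3 := eight_bound t
  have hG0 := Gk_nonneg κ t
  have hG1 := Gk_le κ t
  have hs := sin_sq_le_sqrt hκ t
  have hs0 := sq_nonneg (Real.sin (κ * t / 2))
  have hid : (‖aK κ (1/2 + t * Complex.I)‖ ^ 2 - Gk κ t) * (1/4 + t ^ 2) =
      (Real.exp (κ / 2) - 1) ^ 2 + 4 * (Real.exp (κ / 2) - 1) * Real.sin (κ * t / 2) ^ 2 -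
        Gk κ t / 4 := by
    rw [sub_mul, h1, mul_add, h2]; ring
  have hk32 : κ ^ (3/2 : ℝ) = κ * κ ^ (1/2 : ℝ) := by
    rcases hκ.eq_or_lt with h | h
    · rw [← h]
      rw [Real.zero_rpow (by norm_num), zero_mul]
    · have : κ ^ (3/2 : ℝ) = κ ^ (1 + 1/2 : ℝ) := by norm_num
      rw [this, Real.rpow_add h, Real.rpow_one]
  have hk2 : κ ^ 2 ≤ κ ^ (3/2 : ℝ) := by
    calc κ ^ 2 = κ ^ (2:ℝ) := by norm_cast
      _ ≤ κ ^ (3/2 : ℝ) := Real.rpow_le_rpow_of_exponent_ge' hκ hκ1 (by norm_num) (by norm_num)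
  have hone : 1 ≤ (1 + |t|) ^ (1/2 : ℝ) := Real.one_le_rpow (by linarith) (by norm_num)
  have hnum : |(‖aK κ (1/2 + t * Complex.I)‖ ^ 2 - Gk κ t)| * (1/4 + t ^ 2) ≤
      6 * κ ^ (3/2 : ℝ) * (1 + |t|) ^ (1/2 : ℝ) := by
    have hpos : 0 < 1/4 + t ^ 2 := by positivity
    have habs : |(‖aK κ (1/2 + t * Complex.I)‖ ^ 2 - Gk κ t)| * (1/4 + t ^ 2) =
        |(‖aK κ (1/2 + t * Complex.I)‖ ^ 2 - Gk κ t) * (1/4 + t ^ 2)| := by
      rw [abs_mul, abs_of_pos hpos]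
    rw [habs, hid]
    have b1 : (Real.exp (κ / 2) - 1) ^ 2 ≤ κ ^ 2 := pow_le_pow_left₀ e1 e2 2
    have b2 : 4 * (Real.exp (κ / 2) - 1) * Real.sin (κ * t / 2) ^ 2 ≤
        4 * κ * (κ ^ (1/2 : ℝ) * (1 + |t|) ^ (1/2 : ℝ)) := by gcongr
    have b3 : 0 ≤ 4 * (Real.exp (κ / 2) - 1) * Real.sin (κ * t / 2) ^ 2 := by positivity
    have b4 : 0 ≤ κ ^ (3/2 : ℝ) := Real.rpow_nonneg hκ _
    have b5 : κ ^ (3/2 : ℝ) ≤ κ ^ (3/2 : ℝ) * (1 + |t|) ^ (1/2 : ℝ) := le_mul_of_one_le_right b4 hone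
    have b6 : 4 * κ * (κ ^ (1/2 : ℝ) * (1 + |t|) ^ (1/2 : ℝ)) =
        4 * (κ ^ (3/2 : ℝ) * (1 + |t|) ^ (1/2 : ℝ)) := by rw [hk32]; ring
    rw [abs_le]
    constructor
    · nlinarith [sq_nonneg (Real.exp (κ / 2) - 1)]
    · nlinarith
  have hsq : 0 < (1 + |t|) ^ 2 := by positivity
  calc |‖aK κ (1/2 + t * Complex.I)‖ ^ 2 - Gk κ t|
      = (|‖aK κ (1/2 + t * Complex.I)‖ ^ 2 - Gk κ t| * (1 + |t|) ^ 2) * ((1 + |t|) ^ 2)⁻¹ := by
        field_simp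
    _ ≤ (|‖aK κ (1/2 + t * Complex.I)‖ ^ 2 - Gk κ t| * (8 * (1/4 + t ^ 2))) * ((1 + |t|) ^ 2)⁻¹ := by
        gcongr
    _ = 8 * (|‖aK κ (1/2 + t * Complex.I)‖ ^ 2 - Gk κ t| * (1/4 + t ^ 2)) * ((1 + |t|) ^ 2)⁻¹ := by ring
    _ ≤ 8 * (6 * κ ^ (3/2 : ℝ) * (1 + |t|) ^ (1/2 : ℝ)) * ((1 + |t|) ^ 2)⁻¹ := by gcongr
    _ = 48 * κ ^ (3/2 : ℝ) * ((1 + |t|) ^ (1/2 : ℝ) * ((1 + |t|) ^ 2)⁻¹) := by ring
    _ = 48 * κ ^ (3/2 : ℝ) * wq t := by rw [wq_eq]
    _ ≤ _ := by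
        have := wq_pos t
        have := Real.rpow_nonneg hκ (3/2)
        gcongr
        norm_num

/-! ### Lipschitz bound for the clean weight -/

lemma snc_eq_integral (x : ℝ) : snc x = ∫ s in (0:ℝ)..1, Real.cos (x * s) := by
  by_cases hx : x = 0
  · rw [hx, snc_zero]; simp
  · have h1 : ∫ s in (0:ℝ)..1, Real.cos (x * s) = x⁻¹ * Real.sin x := by
      rw [intervalIntegral.integral_comp_mul_left (fun s => Real.cos s) hx]
      simp
    rw [h1, ← snc_mul x]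
    field_simp

lemma snc_lip (x y : ℝ) : |snc x - snc y| ≤ |x - y| := by
  rw [snc_eq_integral, snc_eq_integral, ← intervalIntegral.integral_sub
    ((by fun_prop : Continuous fun s => Real.cos (x * s)).intervalIntegrable _ _)
    ((by fun_prop : Continuous fun s => Real.cos (y * s)).intervalIntegrable _ _)]
  have := intervalIntegral.norm_integral_le_of_norm_le_const (a := (0:ℝ)) (b := 1) (C := |x - y|)
    (f := fun s => Real.cos (x * s) - Real.cos (y * s)) ?_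
  · simpa using this
  · intro s hs
    rw [uIoc_of_le zero_le_one] at hs
    rw [Real.norm_eq_abs]
    have h1 : |Real.cos (x * s) - Real.cos (y * s)| ≤ |x * s - y * s| := by
      have := Real.lipschitzWith_cos.dist_le_mul (x * s) (y * s)
      simpa [Real.dist_eq] using this
    refine h1.trans ?_
    rw [← sub_mul, abs_mul, abs_of_pos hs.1]
    exact mul_le_of_le_one_right (abs_nonneg _) hs.2

lemma snc_hasDeriv (x : ℝ) : HasDerivAt snc (deriv snc x) x :=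
  ((contDiff_snc.differentiable (by norm_num)) x).hasDerivAt

lemma deriv_snc_le (x : ℝ) : |deriv snc x| ≤ 1 := by
  have := norm_deriv_le_of_lip' (f := snc) (x₀ := x) zero_le_one
    (Eventually.of_forall fun y => by
      rw [Real.norm_eq_abs, Real.norm_eq_abs, one_mul]; exact snc_lip y x)
  simpa using this

lemma mul_deriv_snc (x : ℝ) : |x * deriv snc x| ≤ 2 := by
  have h1 : HasDerivAt (fun x => x * snc x) (1 * snc x + x * deriv snc x) x :=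
    (hasDerivAt_id' x).mul (snc_hasDeriv x)
  have h2 : HasDerivAt (fun x => x * snc x) (Real.cos x) x := by
    have : (fun x => x * snc x) = Real.sin := by funext x; exact snc_mul x
    rw [this]; exact Real.hasDerivAt_sin x
  have h3 := h1.unique h2
  have h4 : x * deriv snc x = Real.cos x - snc x := by linarith
  rw [h4]
  have h5 := Real.abs_cos_le_one x
  have h6 := abs_snc_le x
  calc |Real.cos x - snc x| ≤ |Real.cos x| + |snc x| := abs_sub _ _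
    _ ≤ 2 := by linarith

lemma mul_snc_le (x : ℝ) : |x * snc x| ≤ 1 := by
  rw [snc_mul]; exact Real.abs_sin_le_one x

lemma sncsq_deriv_bound (x : ℝ) : |2 * snc x * deriv snc x| ≤ 6 / (1 + x ^ 2) := by
  rw [le_div_iff₀ (by positivity)]
  have h1 := abs_snc_le x
  have h2 := deriv_snc_le x
  have h3 := mul_snc_le x
  have h4 := mul_deriv_snc x
  have e1 : |2 * snc x * deriv snc x| = 2 * (|snc x| * |deriv snc x|) := by
    rw [abs_mul, abs_mul, abs_of_pos (show (0:ℝ) < 2 by norm_num)]; ring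
  have e2 : |2 * snc x * deriv snc x| * x ^ 2 = 2 * (|x * snc x| * |x * deriv snc x|) := by
    rw [e1, abs_mul, abs_mul, ← sq_abs x]; ring
  rw [mul_add, mul_one, e2, e1]
  have h5 : |snc x| * |deriv snc x| ≤ 1 * 1 := by gcongr
  have h6 : |x * snc x| * |x * deriv snc x| ≤ 1 * 2 := by gcongr
  linarith

lemma sncsq_lip (x y : ℝ) : |snc x ^ 2 - snc y ^ 2| ≤
    12 * |x - y| * (1 + (x - y) ^ 2) / (1 + x ^ 2) := by
  set C : ℝ := 12 * (1 + (x - y) ^ 2) / (1 + x ^ 2) with hC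
  have hder : ∀ z ∈ uIcc x y, HasDerivWithinAt (fun x => snc x ^ 2) (2 * snc z * deriv snc z) (uIcc x y) z := by
    intro z _
    have := (snc_hasDeriv z).pow 2
    exact (this.congr_deriv (by push_cast; ring)).hasDerivWithinAt
  have hb : ∀ z ∈ uIcc x y, ‖2 * snc z * deriv snc z‖ ≤ C := by
    intro z hz
    rw [Real.norm_eq_abs]
    refine (sncsq_deriv_bound z).trans ?_
    rw [hC, div_le_div_iff₀ (by positivity) (by positivity)]
    have hzx : (x - z) ^ 2 ≤ (x - y) ^ 2 := by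
      rw [sq_le_sq]
      have := abs_sub_left_of_mem_uIcc hz
      rw [abs_sub_comm x z, abs_sub_comm x y]; exact this
    have h1 : 1 + x ^ 2 ≤ 2 * (1 + z ^ 2) * (1 + (x - z) ^ 2) := by
      nlinarith [sq_nonneg (z + (z - x)), sq_nonneg (z * (x - z)), sq_nonneg z, sq_nonneg (x - z), sq_nonneg (z - (x - z))]
    nlinarith [sq_nonneg z]
  have := (convex_uIcc x y).norm_image_sub_le_of_norm_hasDerivWithin_le hder hb right_mem_uIcc
    left_mem_uIcc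
  rw [Real.norm_eq_abs, Real.norm_eq_abs] at this
  refine this.trans (le_of_eq ?_)
  rw [hC]; ring

lemma Gk_lip {κ : ℝ} (hκ : 0 ≤ κ) (hκ1 : κ ≤ 1) (t γ : ℝ) :
    |Gk κ t - Gk κ γ| ≤ 48 * κ ^ (3/2 : ℝ) * wq t * (|t - γ| * (1 + (t - γ) ^ 2)) := by
  have ht := abs_nonneg t
  have h1 := sncsq_lip (κ * t / 2) (κ * γ / 2)
  have e0 : κ * t / 2 - κ * γ / 2 = κ * (t - γ) / 2 := by ring
  rw [e0] at h1
  have e1 : |κ * (t - γ) / 2| = κ * |t - γ| / 2 := by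
    rw [abs_div, abs_mul, abs_of_nonneg hκ, abs_of_pos (show (0:ℝ) < 2 by norm_num)]
  rw [e1] at h1
  have h2 : |Gk κ t - Gk κ γ| = κ ^ 2 * |snc (κ * t / 2) ^ 2 - snc (κ * γ / 2) ^ 2| := by
    unfold Gk
    rw [← mul_sub, abs_mul, abs_of_nonneg (sq_nonneg κ)]
  rw [h2]
  have h3 : 1 + (κ * (t - γ) / 2) ^ 2 ≤ 1 + (t - γ) ^ 2 := by
    have : κ ^ 2 ≤ 1 := pow_le_one₀ hκ hκ1
    nlinarith [sq_nonneg (t - γ)]
  -- κ³/(1+κ²t²/4) ≤ 8 κ^{3/2} (1+|t|)^{-3/2}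
  have h4 : κ ^ 3 / (1 + (κ * t / 2) ^ 2) ≤ 8 * κ ^ (3/2 : ℝ) * wq t := by
    rcases hκ.eq_or_lt with h0 | h0
    · rw [← h0, Real.zero_rpow (by norm_num)]; simp
    set y : ℝ := κ * (1 + |t|) with hy
    have hy0 : 0 < y := by positivity
    have hy1 : y ≤ 1 + κ * |t| := by rw [hy]; linarith
    have hy2 : y ^ (3/2 : ℝ) ≤ 8 * (1 + (κ * t / 2) ^ 2) := by
      have hz : (κ * t) ^ 2 = (κ * |t|) ^ 2 := by rw [mul_pow, mul_pow, sq_abs]
      have h5 : y ^ (3/2 : ℝ) ≤ 1 + y ^ 2 := by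
        rcases le_total y 1 with h | h
        · have := Real.rpow_le_one hy0.le h (show (0:ℝ) ≤ 3/2 by norm_num)
          nlinarith [sq_nonneg y]
        · have : y ^ (3/2 : ℝ) ≤ y ^ (2:ℝ) := Real.rpow_le_rpow_of_exponent_le h (by norm_num)
          rw [Real.rpow_two] at this
          linarith
      have h7 : y ^ 2 ≤ (1 + κ * |t|) ^ 2 := pow_le_pow_left₀ hy0.le hy1 2
      nlinarith [sq_nonneg (κ * |t| - 1)]
    have hwq : wq t = κ ^ (3/2 : ℝ) * (y ^ (3/2 : ℝ))⁻¹ := by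
      unfold wq
      rw [hy, Real.mul_rpow hκ (by positivity), mul_inv, ← mul_assoc, mul_inv_cancel₀
        (Real.rpow_pos_of_pos h0 _).ne', one_mul, Real.rpow_neg (by positivity)]
    have hk3 : κ ^ (3/2 : ℝ) * κ ^ (3/2 : ℝ) = κ ^ 3 := by
      rw [← Real.rpow_add h0]; norm_num
    rw [hwq, div_le_iff₀ (by positivity)]
    have hyp := Real.rpow_pos_of_pos hy0 (3/2)
    calc κ ^ 3 = κ ^ 3 * (y ^ (3/2 : ℝ) * (y ^ (3/2 : ℝ))⁻¹) := by
          rw [mul_inv_cancel₀ hyp.ne', mul_one]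
      _ ≤ κ ^ 3 * ((8 * (1 + (κ * t / 2) ^ 2)) * (y ^ (3/2 : ℝ))⁻¹) := by gcongr
      _ = _ := by rw [← hk3]; ring
  calc κ ^ 2 * |snc (κ * t / 2) ^ 2 - snc (κ * γ / 2) ^ 2|
      ≤ κ ^ 2 * (12 * (κ * |t - γ| / 2) * (1 + (κ * (t - γ) / 2) ^ 2) / (1 + (κ * t / 2) ^ 2)) := by
        gcongr
    _ ≤ κ ^ 2 * (12 * (κ * |t - γ| / 2) * (1 + (t - γ) ^ 2) / (1 + (κ * t / 2) ^ 2)) := by
        gcongr
    _ = 6 * (|t - γ| * (1 + (t - γ) ^ 2)) * (κ ^ 3 / (1 + (κ * t / 2) ^ 2)) := by ring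
    _ ≤ 6 * (|t - γ| * (1 + (t - γ) ^ 2)) * (8 * κ ^ (3/2 : ℝ) * wq t) := by gcongr
    _ = _ := by ring

end Pool.Agent.PairCorr.P6
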