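import Mathlib
import Pool.Agent.PairCorr.P6_Weights

set_option autoImplicit false

namespace Pool.Agent.PairCorr.P6

open MeasureTheory Filter Topology Set Real
open scoped ENNReal ArithmeticFunction.vonMangoldt

variable {h ψ : ℝ → ℝ} {b e : ℝ}

/-- all nontrivial zeros are on the critical line -/
def RHz : Prop := ∀ ρ ∈ NTZ, ρ.re = 1 / 2

lemma RHz_ae (hR : RHz) : ∀ᵐ z ∂muZ, z.re = 1 / 2 := by
  filter_upwards [muZ_ae] with z hz using hR z hz

lemma Kc_line_bound (hR : RHz) (hψ : TF ψ b) : ∃ C : ℝ, 0 ≤ C ∧ ∀ L : ℝ, 1 ≤ L → ∀ t : ℝ,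
    ∀ᵐ z ∂muZ, ‖Kc ψ (L * (z - (1/2 + t * Complex.I)))‖ ≤ C * ((1 + |z.im - t|) ^ 4)⁻¹ := by
  obtain ⟨C, hC, h1⟩ := kS_scaled_bound hψ
  refine ⟨C, hC, fun L hL t => ?_⟩
  filter_upwards [RHz_ae hR] with z hz
  have h2 := h1 L hL t z
  rw [hz] at h2
  simp only [sub_self, abs_zero, mul_zero, Real.exp_zero, mul_one] at h2
  rw [← div_eq_mul_inv, le_div_iff₀ (by positivity)]
  exact h2

lemma inv4_le (x : ℝ) : ((1 + |x|) ^ 4)⁻¹ ≤ (1 + x ^ 2)⁻¹ := by
  apply inv_anti₀ (by positivity)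
  rw [← sq_abs x]
  nlinarith [abs_nonneg x, pow_nonneg (abs_nonneg x) 3, pow_nonneg (abs_nonneg x) 4, sq_nonneg |x|]

lemma Kc_meas (hψ : TF ψ b) (L t : ℝ) :
    AEStronglyMeasurable (fun z : ℂ => Kc ψ (L * (z - (1/2 + t * Complex.I)))) muZ :=
  (hψ.differentiable_Kc.continuous.comp (by fun_prop)).aestronglyMeasurable

lemma Zs_bound (hR : RHz) (hψ : TF ψ b) : ∃ C : ℝ, 0 ≤ C ∧ ∀ L : ℝ, 1 ≤ L → ∀ t : ℝ,
    ‖Zs ψ L t‖ ≤ C * Real.log (|t| + 2) := by
  obtain ⟨C1, hC1, h1⟩ := Kc_line_bound hR hψ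
  obtain ⟨C0, hC0, hd⟩ := muZ_logDens
  obtain ⟨C2, hC2, h2⟩ := hd.integral_le hC0.le
  refine ⟨C1 * C2, by positivity, fun L hL t => ?_⟩
  obtain ⟨hi, hv⟩ := h2 t
  unfold Zs
  calc ‖∫ z, Kc ψ (L * (z - (1/2 + t * Complex.I))) ∂muZ‖
      ≤ ∫ z, C1 * (1 + (z.im - t) ^ 2)⁻¹ ∂muZ := by
        apply norm_integral_le_of_norm_le (hi.const_mul C1)
        filter_upwards [h1 L hL t] with z hz
        exact hz.trans (mul_le_mul_of_nonneg_left (inv4_le _) hC1)
    _ = C1 * ∫ z, (1 + (z.im - t) ^ 2)⁻¹ ∂muZ := integral_const_mul _ _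
    _ ≤ C1 * (C2 * Real.log (|t| + 2)) := by gcongr
    _ = _ := by ring

/-- bound for the prime side -/
lemma D1_bound (hR : RHz) (hψ : TF ψ b) (he : 0 < e) (heb : e ≤ b) (hpos : ∀ v, v < e → ψ v = 0) :
    ∃ C : ℝ, 0 ≤ C ∧ ∀ L : ℝ, 1 ≤ L → ∀ t : ℝ, ‖D1 ψ L t‖ ≤ C * Real.log (|t| + 2) := by
  obtain ⟨C1, hC1, h1⟩ := Zs_bound hR hψ
  obtain ⟨C2, hC2, h2⟩ := explicit_pos hψ he heb hpos
  refine ⟨C1 + 2 * C2, by positivity, fun L hL t => ?_⟩
  have ht := abs_nonneg t
  have hlog : 1/2 ≤ Real.log (|t| + 2) := by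
    have : Real.log 2 ≤ Real.log (|t| + 2) := Real.log_le_log (by norm_num) (by linarith)
    have := Real.log_two_gt_d9
    linarith
  have e1 : D1 ψ L t = (Zs ψ L t + D1 ψ L t) - Zs ψ L t := by ring
  rw [e1]
  refine (norm_sub_le _ _).trans ?_
  have b1 := h1 L hL t
  have b2 := h2 L hL t
  have b3 : C2 * Real.exp (-(e / 2 * L)) / (1 + |t|) ≤ C2 := by
    rw [div_le_iff₀ (by positivity)]
    have : Real.exp (-(e / 2 * L)) ≤ 1 := by
      rw [Real.exp_le_one_iff]
      have : 0 < e / 2 * L := by positivity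
      linarith
    nlinarith
  nlinarith

lemma wq_log_sq_bound {f : ℝ → ℝ} {C : ℝ} (_hC : 0 ≤ C) (hf : ∀ t, 0 ≤ f t)
    (hb : ∀ t, f t ≤ C * (wq t * Real.log (|t| + 2) ^ 2)) :
    ∫ t, f t ≤ C * ∫ t, wq t * Real.log (|t| + 2) ^ 2 := by
  rw [← integral_const_mul]
  apply integral_mono_of_nonneg (Eventually.of_forall hf) (wq_log_int.const_mul C)
    (Eventually.of_forall hb)

/-- a smooth cutoff -/
lemma exists_cut {e b : ℝ} (he : 0 < e) (heb : e ≤ b) : ∃ χ : ℝ → ℝ, TF χ (b + 3) ∧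
    (∀ v, v < e / 2 → χ v = 0) ∧ (∀ v, 0 ≤ χ v) ∧ (∀ v, χ v ≤ 1) ∧
    (∀ v, 3 * e / 4 ≤ v → v ≤ b + 2 → χ v = 1) := by
  refine ⟨fun v => Real.smoothTransition ((v - e / 2) / (e / 4)) * Real.smoothTransition (b + 3 - v),
    ⟨?_, ?_⟩, ?_, ?_, ?_, ?_⟩
  · apply ContDiff.mul
    · exact Real.smoothTransition.contDiff.comp (by fun_prop)
    · exact Real.smoothTransition.contDiff.comp (by fun_prop)
  · intro v hv
    rcases lt_abs.1 hv with h1 | h1
    · rw [Real.smoothTransition.zero_of_nonpos (by linarith : b + 3 - v ≤ 0), mul_zero]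
    · rw [Real.smoothTransition.zero_of_nonpos, zero_mul]
      apply div_nonpos_of_nonpos_of_nonneg _ (by positivity)
      linarith
  · intro v hv
    beta_reduce
    rw [Real.smoothTransition.zero_of_nonpos, zero_mul]
    apply div_nonpos_of_nonpos_of_nonneg _ (by positivity)
    linarith
  · intro v
    exact mul_nonneg (Real.smoothTransition.nonneg _) (Real.smoothTransition.nonneg _)
  · intro v
    exact mul_le_one₀ (Real.smoothTransition.le_one _) (Real.smoothTransition.nonneg _)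
      (Real.smoothTransition.le_one _)
  · intro v h1 h2
    beta_reduce
    rw [Real.smoothTransition.one_of_one_le, Real.smoothTransition.one_of_one_le (by linarith), mul_one]
    rw [le_div_iff₀ (by positivity)]; linarith

lemma deriv_scaled {ψ : ℝ → ℝ} {b : ℝ} (hψ : TF ψ b) (L v : ℝ) :
    deriv (fun v => ψ (v / L) / L) v = deriv ψ (v / L) / L / L := by
  have h1 : HasDerivAt (fun v => ψ (v / L) / L) (deriv ψ (v / L) * (1 / L) / L) v := by
    have h2 : HasDerivAt (fun v : ℝ => v / L) (1 / L) v := (hasDerivAt_id' v).div_const L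
    exact ((hψ.hasDerivAt (v / L)).comp v h2).div_const L
  rw [h1.deriv]; ring

/-- crude bound for the mean square of the increments, uniformly in the length -/
lemma VV_crude (hR : RHz) (he : 0 < e) (heb : e ≤ b) : ∃ C : ℝ, 0 ≤ C ∧ ∀ L : ℝ, 1 ≤ L →
    ∀ κ : ℝ, 0 ≤ κ → κ ≤ 1 → ∫ v in (e * L)..(b * L), VV κ v ^ 2 ≤ C * L ^ 2 := by
  obtain ⟨χ, hχ, hχ0, -, -, hχ1⟩ := exists_cut he heb
  obtain ⟨C1, hC1, h1⟩ := D1_bound hR hχ (show 0 < e / 2 by linarith) (by linarith) hχ0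
  set K : ℝ := ∫ t, wq t * Real.log (|t| + 2) ^ 2 with hK
  have hK0 : 0 ≤ K := integral_nonneg fun t => mul_nonneg (wq_pos t).le (sq_nonneg _)
  refine ⟨100 * C1 ^ 2 * K, by positivity, fun L hL κ hκ hκ1 => ?_⟩
  have hL0 : 0 < L := by linarith
  have hφ := hχ.scale hL0
  set φ : ℝ → ℝ := fun v => χ (v / L) / L with hφd
  set B : ℝ := (b + 3) * L with hB
  obtain ⟨hi, hpl⟩ := WW_plancherel hφ hκ
  -- upper bound of the Plancherel integral
  have hup : ∫ t : ℝ, ‖aK κ (1/2 + t * Complex.I) * (∑' n : ℕ, primeTerm φ t n - kS φ t 1)‖ ^ 2 ≤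
      (100 * C1 ^ 2) * K := by
    apply wq_log_sq_bound (by positivity) (fun t => by positivity)
    intro t
    rw [norm_mul, mul_pow]
    have e1 := aK_sq_le hκ hκ1 t
    have e2 : ‖∑' n : ℕ, primeTerm φ t n - kS φ t 1‖ ^ 2 ≤ (C1 * Real.log (|t| + 2)) ^ 2 :=
      pow_le_pow_left₀ (norm_nonneg _) (h1 L hL t) 2
    have := wq_pos t
    calc _ ≤ (100 * wq t) * (C1 * Real.log (|t| + 2)) ^ 2 := by gcongr
      _ = _ := by ring
  have hpi := Real.pi_gt_three
  have hWW : ∫ v, WW φ B κ v ^ 2 ≤ (100 * C1 ^ 2) * K := by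
    have h0 : 0 ≤ ∫ v, WW φ B κ v ^ 2 := integral_nonneg fun v => sq_nonneg _
    rw [hpl] at hup
    nlinarith
  -- on the window WW = VV / L
  have heq : ∀ v ∈ Icc (e * L) (b * L), VV κ v ^ 2 = L ^ 2 * WW φ B κ v ^ 2 := by
    intro v hv
    rw [abelW hφ hκ v]
    have hz : ∀ s ∈ uIcc 0 κ, deriv φ (v + s) * (MM (v + κ) - MM (v + s)) = 0 := by
      intro s hs
      rw [uIcc_of_le hκ] at hs
      have hd : deriv χ ((v + s) / L) = 0 := by
        have hev : χ =ᶠ[𝓝 ((v + s) / L)] fun _ => 1 := by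
          have h3 : 3 * e / 4 < (v + s) / L := by
            rw [lt_div_iff₀ hL0]
            nlinarith [hv.1, hs.1, mul_pos he hL0]
          have h4 : (v + s) / L < b + 2 := by
            rw [div_lt_iff₀ hL0]
            nlinarith [hv.2, hs.2]
          filter_upwards [Ioo_mem_nhds h3 h4] with x hx
          exact hχ1 x hx.1.le hx.2.le
        rw [hev.deriv_eq]; simp
      rw [hφd, deriv_scaled hχ, hd]; ring
    rw [intervalIntegral.integral_congr (g := fun _ => (0:ℝ)) hz]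
    have hχv : χ (v / L) = 1 := by
      apply hχ1
      · rw [le_div_iff₀ hL0]
        nlinarith [hv.1, mul_pos he hL0]
      · rw [div_le_iff₀ hL0]
        nlinarith [hv.2]
    simp only [hφd, hχv]
    simp only [intervalIntegral.integral_zero, mul_zero, add_zero]
    field_simp
  have hle : e * L ≤ b * L := by gcongr
  rw [intervalIntegral.integral_of_le hle]
  have h5 : ∫ v in Ioc (e * L) (b * L), VV κ v ^ 2 = ∫ v in Ioc (e * L) (b * L), L ^ 2 * WW φ B κ v ^ 2 :=
    setIntegral_congr_fun measurableSet_Ioc fun v hv => heq v ⟨hv.1.le, hv.2⟩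
  rw [h5, integral_const_mul]
  have hWi : Integrable (fun v => WW φ B κ v ^ 2) := by
    have := (WW_memLp hφ hκ 2).integrable_norm_pow (by norm_num)
    refine this.congr (Eventually.of_forall fun v => ?_)
    simp only [Complex.norm_real, Real.norm_eq_abs, sq_abs]
  have h6 : ∫ v in Ioc (e * L) (b * L), WW φ B κ v ^ 2 ≤ ∫ v, WW φ B κ v ^ 2 :=
    setIntegral_le_integral hWi (Eventually.of_forall fun v => sq_nonneg _)
  calc L ^ 2 * ∫ v in Ioc (e * L) (b * L), WW φ B κ v ^ 2 ≤ L ^ 2 * ((100 * C1 ^ 2) * K) := by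
        gcongr
        exact h6.trans hWW
    _ = _ := by ring


/-- Cauchy–Schwarz on `[0,κ]`. -/
lemma sq_integral_le {f : ℝ → ℝ} {κ : ℝ} (hκ : 0 ≤ κ) (hi : IntervalIntegrable f volume 0 κ)
    (hi2 : IntervalIntegrable (fun s => f s ^ 2) volume 0 κ) :
    (∫ s in (0:ℝ)..κ, f s) ^ 2 ≤ κ * ∫ s in (0:ℝ)..κ, f s ^ 2 := by
  rcases hκ.eq_or_lt with h0 | h0
  · rw [← h0]; simp
  set m : ℝ := (∫ s in (0:ℝ)..κ, f s) / κ with hm
  have hmκ : m * κ = ∫ s in (0:ℝ)..κ, f s := by rw [hm]; field_simp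
  have h1 : 0 ≤ ∫ s in (0:ℝ)..κ, (f s - m) ^ 2 :=
    intervalIntegral.integral_nonneg hκ fun s _ => sq_nonneg _
  have h2 : ∫ s in (0:ℝ)..κ, (f s - m) ^ 2 =
      (∫ s in (0:ℝ)..κ, f s ^ 2) - 2 * m * (∫ s in (0:ℝ)..κ, f s) + m ^ 2 * κ := by
    have e1 : (fun s => (f s - m) ^ 2) = fun s => f s ^ 2 - 2 * m * f s + m ^ 2 := by
      funext s; ring
    rw [e1, intervalIntegral.integral_add (hi2.sub (hi.const_mul _)) (by simp),
      intervalIntegral.integral_sub hi2 (hi.const_mul _), intervalIntegral.integral_const_mul]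
    simp
    ring
  rw [h2, ← hmκ] at h1
  rw [← hmκ]
  nlinarith

/-- The smoothed increment is close to the weighted increment. -/
lemma cmp_bound (hR : RHz) (hψ : TF ψ b) (he : 0 < e) (heb : e ≤ b) (hpos : ∀ v, v < e → ψ v = 0) :
    ∃ C : ℝ, 0 ≤ C ∧ ∀ L : ℝ, 1 ≤ L → ∀ κ : ℝ, 0 ≤ κ → κ ≤ 1 →
      Integrable (fun v => (WW (fun v => ψ (v / L) / L) (b * L) κ v - ψ (v / L) / L * VV κ v) ^ 2) ∧
      ∫ v, (WW (fun v => ψ (v / L) / L) (b * L) κ v - ψ (v / L) / L * VV κ v) ^ 2 ≤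
        C * κ ^ 2 / L ^ 2 := by
  obtain ⟨C1, hC1, h1⟩ := VV_crude hR he heb
  obtain ⟨K, hK⟩ := (isCompact_Icc (a := e) (b := b)).exists_bound_of_continuousOn
    hψ.deriv.cont.continuousOn
  have hK0 : 0 ≤ K := (norm_nonneg _).trans (hK e ⟨le_rfl, heb⟩)
  refine ⟨3 * K ^ 2 * C1, by positivity, fun L hL κ hκ hκ1 => ?_⟩
  have hL0 : 0 < L := by linarith
  have hφ := hψ.scale hL0
  set φ : ℝ → ℝ := fun v => ψ (v / L) / L with hφd
  set B : ℝ := b * L with hB
  have hd : ∀ v, deriv φ v = deriv ψ (v / L) / L / L := fun v => deriv_scaled hψ L v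
  -- derivative vanishes outside the window
  have hd0 : ∀ v, v ∉ Icc (e * L) (b * L) → deriv φ v = 0 := by
    intro v hv
    rw [hd]
    rw [mem_Icc, not_and_or, not_le, not_le] at hv
    have : deriv ψ (v / L) = 0 := by
      rcases hv with hv | hv
      · have h2 : v / L < e := by rw [div_lt_iff₀ hL0]; exact hv
        have hev : ψ =ᶠ[𝓝 (v / L)] fun _ => 0 := by
          filter_upwards [Iio_mem_nhds h2] with x hx using hpos x hx
        rw [hev.deriv_eq]; simp
      · have h2 : b < v / L := by rw [lt_div_iff₀ hL0]; exact hv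
        exact hψ.deriv.supp _ (lt_of_lt_of_le h2 (le_abs_self _))
    rw [this]; simp
  have hdK : ∀ v, |deriv φ v| ≤ K / L ^ 2 := by
    intro v
    by_cases hv : v ∈ Icc (e * L) (b * L)
    · rw [hd, abs_div, abs_div, abs_of_pos hL0]
      have h2 := hK (v / L) ⟨by rw [le_div_iff₀ hL0]; exact hv.1, by rw [div_le_iff₀ hL0]; exact hv.2⟩
      rw [Real.norm_eq_abs] at h2
      calc |deriv ψ (v / L)| / L / L = |deriv ψ (v / L)| / L ^ 2 := by field_simp
        _ ≤ _ := by gcongr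
    · rw [hd0 v hv, abs_zero]; positivity
  set H : ℝ → ℝ → ℝ := fun v s => Real.exp (-(v / 2)) * (deriv φ (v + s) * (MM (v + κ) - MM (v + s)))
    with hH
  have hR' : ∀ v, WW φ B κ v - φ v * VV κ v = ∫ s in (0:ℝ)..κ, H v s := by
    intro v
    rw [abelW hφ hκ v, hH]
    simp only
    rw [intervalIntegral.integral_const_mul]; ring
  have hHm : Measurable (Function.uncurry H) := by
    have e1 := MM_measurable
    have e2 := hφ.deriv.cont.measurable
    have e3 : Measurable fun p : ℝ × ℝ => MM (p.1 + κ) := e1.comp (by fun_prop)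
    have e4 : Measurable fun p : ℝ × ℝ => MM (p.1 + p.2) := e1.comp (by fun_prop)
    have e5 : Measurable fun p : ℝ × ℝ => deriv φ (p.1 + p.2) := e2.comp (by fun_prop)
    have e6 : Measurable fun p : ℝ × ℝ => Real.exp (-(p.1 / 2)) := by fun_prop
    exact e6.mul (e5.mul (e3.sub e4))
  -- bound of H
  obtain ⟨CH, hCH0, hCH⟩ : ∃ CH : ℝ, 0 ≤ CH ∧ ∀ v s, s ∈ Icc 0 κ → |H v s| ≤
      CH * (Icc (e * L - 1) (b * L)).indicator (fun _ => (1:ℝ)) v := by
    refine ⟨Real.exp (1/2) * (K / L ^ 2 * (14 * Real.exp (b * L + 1))), by positivity, ?_⟩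
    intro v s hs
    by_cases hv : v ∈ Icc (e * L - 1) (b * L)
    · rw [indicator_of_mem hv, mul_one]
      simp only [hH]
      rw [abs_mul, abs_mul, abs_of_pos (Real.exp_pos _)]
      have e1 : Real.exp (-(v / 2)) ≤ Real.exp (1/2) := by
        apply Real.exp_le_exp.2
        have : 0 < e * L := by positivity
        linarith [hv.1]
      have e2 : |MM (v + κ) - MM (v + s)| ≤ 14 * Real.exp (b * L + 1) := by
        have f1 := abs_MM_le (v + κ)
        have f2 := abs_MM_le (v + s)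
        have f3 : Real.exp (v + κ) ≤ Real.exp (b * L + 1) := Real.exp_le_exp.2 (by linarith [hv.2])
        have f4 : Real.exp (v + s) ≤ Real.exp (b * L + 1) := Real.exp_le_exp.2 (by linarith [hv.2, hs.2])
        have := abs_sub (MM (v + κ)) (MM (v + s))
        linarith
      have e3 := hdK (v + s)
      gcongr
    · rw [indicator_of_notMem hv, mul_zero]
      simp only [hH]
      rw [hd0 (v + s)]
      · simp
      · rw [mem_Icc, not_and_or, not_le, not_le] at hv ⊢
        rcases hv with hv | hv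
        · left; linarith [hs.2]
        · right; linarith [hs.1]
  have hHii : ∀ v, IntervalIntegrable (fun s => H v s) volume 0 κ := by
    intro v
    refine ii_of_bdd (C := CH) (hHm.comp (measurable_const.prodMk measurable_id)) ?_
    intro s hs
    rw [uIoc_of_le hκ] at hs
    refine (hCH v s ⟨hs.1.le, hs.2⟩).trans ?_
    apply mul_le_of_le_one_right hCH0
    by_cases hv : v ∈ Icc (e * L - 1) (b * L)
    · rw [indicator_of_mem hv]
    · rw [indicator_of_notMem hv]; exact zero_le_one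
  have hH2 : ∀ v s, s ∈ Icc 0 κ → H v s ^ 2 ≤
      CH ^ 2 * (Icc (e * L - 1) (b * L)).indicator (fun _ => (1:ℝ)) v := by
    intro v s hs
    have h3 := hCH v s hs
    rw [← sq_abs]
    by_cases hv : v ∈ Icc (e * L - 1) (b * L)
    · rw [indicator_of_mem hv] at h3 ⊢
      rw [mul_one] at h3 ⊢
      exact pow_le_pow_left₀ (abs_nonneg _) h3 2
    · rw [indicator_of_notMem hv] at h3 ⊢
      rw [mul_zero] at h3 ⊢
      have : |H v s| = 0 := le_antisymm h3 (abs_nonneg _)
      rw [this]; simp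
  have hHii2 : ∀ v, IntervalIntegrable (fun s => H v s ^ 2) volume 0 κ := by
    intro v
    refine ii_of_bdd (C := CH ^ 2) ((hHm.comp (measurable_const.prodMk measurable_id)).pow_const 2) ?_
    intro s hs
    rw [uIoc_of_le hκ] at hs
    rw [abs_of_nonneg (sq_nonneg _)]
    refine (hH2 v s ⟨hs.1.le, hs.2⟩).trans ?_
    apply mul_le_of_le_one_right (sq_nonneg _)
    by_cases hv : v ∈ Icc (e * L - 1) (b * L)
    · rw [indicator_of_mem hv]
    · rw [indicator_of_notMem hv]; exact zero_le_one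
  -- product integrability
  have hprod : Integrable (fun p : ℝ × ℝ => H p.1 p.2 ^ 2)
      ((volume : Measure ℝ).prod (volume.restrict (Ioc 0 κ))) := by
    have hg : Integrable (fun v : ℝ => (Icc (e * L - 1) (b * L)).indicator (fun _ => (1:ℝ)) v) := by
      rw [integrable_indicator_iff measurableSet_Icc]
      rw [integrableOn_const_iff]; right; simp
    have hfin : IsFiniteMeasure ((volume : Measure ℝ).restrict (Ioc 0 κ)) :=
      isFiniteMeasure_restrict.2 (by simp)
    have hc : Integrable (fun _ : ℝ => (CH ^ 2 : ℝ)) ((volume : Measure ℝ).restrict (Ioc 0 κ)) :=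
      integrable_const _
    have hg2 := hg.mul_prod hc
    refine Integrable.mono' hg2 ((hHm.pow_const 2).aestronglyMeasurable) ?_
    have hmem : ∀ᵐ p ∂((volume : Measure ℝ).prod (volume.restrict (Ioc 0 κ))), p.2 ∈ Ioc 0 κ := by
      have : ∀ᵐ s ∂((volume : Measure ℝ).restrict (Ioc 0 κ)), s ∈ Ioc 0 κ :=
        ae_restrict_mem measurableSet_Ioc
      exact Measure.quasiMeasurePreserving_snd.ae this
    filter_upwards [hmem] with p hp
    rw [Real.norm_of_nonneg (sq_nonneg _)]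
    refine (hH2 p.1 p.2 ⟨hp.1.le, hp.2⟩).trans (le_of_eq (mul_comm _ _))
  have hinner : Integrable (fun v : ℝ => ∫ s in Ioc 0 κ, H v s ^ 2) := hprod.integral_prod_left
  have hptw : ∀ v, (WW φ B κ v - φ v * VV κ v) ^ 2 ≤ κ * ∫ s in Ioc 0 κ, H v s ^ 2 := by
    intro v
    rw [hR', ← intervalIntegral.integral_of_le hκ]
    exact sq_integral_le hκ (hHii v) (hHii2 v)
  have hmeas : AEStronglyMeasurable (fun v => (WW φ B κ v - φ v * VV κ v) ^ 2) volume := by
    have e1 := WW_measurable (κ := κ) hφ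
    have e2 := VV_measurable κ
    have e3 := hφ.cont.measurable
    exact ((e1.sub (e3.mul e2)).pow_const 2).aestronglyMeasurable
  have hint : Integrable (fun v => (WW φ B κ v - φ v * VV κ v) ^ 2) :=
    Integrable.mono' (hinner.const_mul κ) hmeas (Eventually.of_forall fun v => by
      rw [Real.norm_of_nonneg (sq_nonneg _)]; exact hptw v)
  refine ⟨hint, ?_⟩
  have hswap : ∫ v, ∫ s in Ioc 0 κ, H v s ^ 2 = ∫ s in Ioc 0 κ, ∫ v, H v s ^ 2 :=
    integral_integral_swap hprod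
  have hs_bound : ∀ s ∈ Ioc 0 κ, ∫ v, H v s ^ 2 ≤ 3 * (K / L ^ 2) ^ 2 * (C1 * L ^ 2) := by
    intro s hs
    have hκs : 0 ≤ κ - s := by linarith [hs.2]
    have hκs1 : κ - s ≤ 1 := by linarith [hs.1]
    rw [← integral_sub_right_eq_self _ s]
    have e1 : ∀ v, H (v - s) s ^ 2 ≤ (Icc (e * L) (b * L)).indicator
        (fun v => 3 * (K / L ^ 2) ^ 2 * VV (κ - s) v ^ 2) v := by
      intro v
      by_cases hv : v ∈ Icc (e * L) (b * L)
      · rw [indicator_of_mem hv]
        simp only [hH, VV]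
        rw [sub_add_cancel, show v - s + κ = v + (κ - s) by ring]
        rw [mul_pow, mul_pow, mul_pow]
        have f1 : Real.exp (-((v - s) / 2)) ^ 2 ≤ 3 * Real.exp (-(v / 2)) ^ 2 := by
          rw [← Real.exp_nat_mul, ← Real.exp_nat_mul]
          have : ((2:ℕ):ℝ) * -((v - s) / 2) = s + ((2:ℕ):ℝ) * -(v / 2) := by push_cast; ring
          rw [this, Real.exp_add]
          have hs1 : Real.exp s ≤ 3 := by
            have : Real.exp s ≤ Real.exp 1 := Real.exp_le_exp.2 (by linarith [hs.2])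
            have := Real.exp_one_lt_d9
            linarith
          gcongr
        have f2 : deriv φ v ^ 2 ≤ (K / L ^ 2) ^ 2 := by
          rw [← sq_abs]
          exact pow_le_pow_left₀ (abs_nonneg _) (hdK v) 2
        calc Real.exp (-((v - s) / 2)) ^ 2 * (deriv φ v ^ 2 * (MM (v + (κ - s)) - MM v) ^ 2)
            ≤ (3 * Real.exp (-(v / 2)) ^ 2) * ((K / L ^ 2) ^ 2 * (MM (v + (κ - s)) - MM v) ^ 2) := by
              gcongr
          _ = _ := by ring
      · rw [indicator_of_notMem hv]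
        simp only [hH]
        rw [sub_add_cancel, hd0 v hv]; simp
    have hVi : IntegrableOn (fun v => 3 * (K / L ^ 2) ^ 2 * VV (κ - s) v ^ 2) (Icc (e * L) (b * L)) := by
      have := (intervalIntegrable_iff_integrableOn_Icc_of_le (by gcongr : e * L ≤ b * L)).1
        (VV_sq_ii (κ - s) (e * L) (b * L))
      exact this.const_mul _
    calc ∫ v, H (v - s) s ^ 2
        ≤ ∫ v, (Icc (e * L) (b * L)).indicator (fun v => 3 * (K / L ^ 2) ^ 2 * VV (κ - s) v ^ 2) v :=
          integral_mono_of_nonneg (Eventually.of_forall fun v => sq_nonneg _)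
            ((integrable_indicator_iff measurableSet_Icc).2 hVi) (Eventually.of_forall e1)
      _ = 3 * (K / L ^ 2) ^ 2 * ∫ v in (e * L)..(b * L), VV (κ - s) v ^ 2 := by
          rw [integral_indicator measurableSet_Icc, integral_const_mul,
            intervalIntegral.integral_of_le (by gcongr), integral_Icc_eq_integral_Ioc]
      _ ≤ _ := by
          gcongr
          exact h1 L hL (κ - s) hκs hκs1
  calc ∫ v, (WW φ B κ v - φ v * VV κ v) ^ 2 ≤ ∫ v, κ * ∫ s in Ioc 0 κ, H v s ^ 2 :=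
        integral_mono hint (hinner.const_mul κ) hptw
    _ = κ * ∫ s in Ioc 0 κ, ∫ v, H v s ^ 2 := by rw [integral_const_mul, hswap]
    _ ≤ κ * ∫ s in Ioc 0 κ, 3 * (K / L ^ 2) ^ 2 * (C1 * L ^ 2) := by
        have hm1 : ∫ s in Ioc 0 κ, ∫ v, H v s ^ 2 ≤
            ∫ s in Ioc 0 κ, 3 * (K / L ^ 2) ^ 2 * (C1 * L ^ 2) :=
          setIntegral_mono_on hprod.integral_prod_right
            (by rw [integrableOn_const_iff]; right; simp) measurableSet_Ioc hs_bound
        exact mul_le_mul_of_nonneg_left hm1 hκ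
    _ = 3 * K ^ 2 * C1 * κ ^ 2 / L ^ 2 := by
        rw [setIntegral_const]
        simp only [Measure.real, Real.volume_Ioc, sub_zero, ENNReal.toReal_ofReal hκ, smul_eq_mul]
        field_simp

end Pool.Agent.PairCorr.P6
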