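import Mathlib
import Pool.Agent.PairCorr.P6_Cmp
import Pool.Agent.PairCorr.S_Product
import Pool.Agent.PairCorr.A_Windows

set_option autoImplicit false

namespace Pool.Agent.PairCorr.P6

open MeasureTheory Filter Topology Set Real
open scoped ENNReal ArithmeticFunction.vonMangoldt

variable {ψ : ℝ → ℝ} {b e : ℝ}

/-- the real kernel on the line -/
noncomputable def rr (k : ℝ → ℝ) (y : ℝ) : ℝ := (Kc k (y * Complex.I)).re

/-- the smoothed pair sum `∑_{γ,γ'} Gk(γ) r(L(γ-γ'))` -/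
noncomputable def PF (κ L : ℝ) (k : ℝ → ℝ) : ℝ :=
  ∫ p : ℂ × ℂ, Gk κ p.1.im * rr k (L * (p.1.im - p.2.im)) ∂(muZ.prod muZ)

lemma rr_cont (h : TF ψ b) : Continuous (rr ψ) := by
  unfold rr
  exact Complex.continuous_re.comp (h.differentiable_Kc.continuous.comp (by fun_prop))

lemma line_decay (h : TF ψ b) (j : ℕ) : ∃ C : ℝ, 0 ≤ C ∧ ∀ y : ℝ,
    ‖Kc ψ (y * Complex.I)‖ ≤ C * ((1 + |y|) ^ j)⁻¹ := by
  obtain ⟨C, hC, h1⟩ := h.decay_one_add j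
  refine ⟨C, hC, fun y => ?_⟩
  have h2 := h1 (y * Complex.I)
  have e1 : ‖(y * Complex.I : ℂ)‖ = |y| := by
    rw [norm_mul, Complex.norm_I, mul_one, Complex.norm_real, Real.norm_eq_abs]
  have e2 : (y * Complex.I : ℂ).re = 0 := by simp
  rw [e1, e2, abs_zero, mul_zero, Real.exp_zero, mul_one] at h2
  rw [← div_eq_mul_inv, le_div_iff₀ (by positivity), mul_comm]
  exact h2

lemma rr_decay (h : TF ψ b) (j : ℕ) : ∃ C : ℝ, 0 ≤ C ∧ ∀ y : ℝ, |rr ψ y| ≤ C * ((1 + |y|) ^ j)⁻¹ := by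
  obtain ⟨C, hC, h1⟩ := line_decay h j
  exact ⟨C, hC, fun y => (Complex.abs_re_le_norm _).trans (h1 y)⟩

/-- on the line the argument is purely imaginary -/
lemma line_arg {z : ℂ} (hz : z.re = 1/2) (L t : ℝ) :
    (L * (z - (1/2 + t * Complex.I)) : ℂ) = ((L * (z.im - t) : ℝ) : ℂ) * Complex.I := by
  apply Complex.ext <;> simp [hz]

lemma line_arg2 {z w : ℂ} (hz : z.re = 1/2) (hw : w.re = 1/2) (L : ℝ) :
    (L * (z - w) : ℂ) = ((L * (z.im - w.im) : ℝ) : ℂ) * Complex.I := by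
  apply Complex.ext <;> simp [hz, hw]

lemma Kc_bound_j (h : TF ψ b) (j : ℕ) : ∃ C : ℝ, 0 ≤ C ∧ ∀ L : ℝ, 1 ≤ L → ∀ t : ℝ, ∀ z : ℂ,
    z.re = 1/2 → ‖Kc ψ (L * (z - (1/2 + t * Complex.I)))‖ ≤ C * ((1 + |z.im - t|) ^ j)⁻¹ := by
  obtain ⟨C, hC, h1⟩ := line_decay h j
  refine ⟨C, hC, fun L hL t z hz => ?_⟩
  rw [line_arg hz]
  refine (h1 _).trans ?_
  apply mul_le_mul_of_nonneg_left _ hC
  apply inv_anti₀ (by positivity)
  apply pow_le_pow_left₀ (by positivity)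
  rw [abs_mul, abs_of_pos (by linarith : 0 < L)]
  nlinarith [abs_nonneg (z.im - t)]

/-- reflection of a test function -/
lemma TF.reflect (h : TF ψ b) : TF (fun v => ψ (-v)) b where
  smooth := h.smooth.comp contDiff_neg
  supp := by
    intro v hv
    exact h.supp (-v) (by rwa [abs_neg])

lemma Kc_reflect (ψ : ℝ → ℝ) (w : ℂ) : Kc (fun v => ψ (-v)) w = Kc ψ (-w) := by
  unfold Kc
  rw [← integral_neg_eq_self]
  congr 1
  ext v
  simp only [neg_neg]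
  congr 2
  push_cast; ring

/-- conjugation of the kernel on the line -/
lemma Kc_conj_line' (ψ : ℝ → ℝ) (y : ℝ) :
    (starRingEnd ℂ) (Kc ψ (y * Complex.I)) = Kc (fun v => ψ (-v)) (y * Complex.I) := by
  rw [Kc_conj_line, Kc_reflect]
  congr 1
  push_cast; ring

lemma Zs_conj (hR : RHz) (ψ : ℝ → ℝ) (L t : ℝ) :
    (starRingEnd ℂ) (Zs ψ L t) = Zs (fun v => ψ (-v)) L t := by
  unfold Zs
  rw [← integral_conj]
  apply integral_congr_ae
  filter_upwards [RHz_ae hR] with z hz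
  rw [line_arg hz, Kc_conj_line']

lemma aK_cont (κ : ℝ) : Continuous fun t : ℝ => ‖aK κ (1/2 + t * Complex.I)‖ ^ 2 := by
  have h : (fun t : ℝ => ‖aK κ (1/2 + t * Complex.I)‖ ^ 2) = fun t : ℝ =>
      ((Real.exp (κ / 2) - 1) ^ 2 + 4 * Real.exp (κ / 2) * Real.sin (κ * t / 2) ^ 2) / (1/4 + t ^ 2) := by
    funext t
    rw [← aK_sq κ t, mul_div_assoc, div_self (by positivity), mul_one]
  rw [h]
  apply Continuous.div (by fun_prop) (by fun_prop)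
  intro t; positivity

/-- the dominating weight -/
lemma dom_int : ∃ C : ℝ, 0 ≤ C ∧
    Integrable (fun q : (ℂ × ℂ) × ℝ => wq q.2 * (1 + (q.1.1.im - q.2) ^ 2)⁻¹ *
      (1 + (q.1.2.im - q.2) ^ 2)⁻¹) ((muZ.prod muZ).prod volume) ∧
    ∫ q : (ℂ × ℂ) × ℝ, wq q.2 * (1 + (q.1.1.im - q.2) ^ 2)⁻¹ * (1 + (q.1.2.im - q.2) ^ 2)⁻¹
      ∂((muZ.prod muZ).prod volume) ≤ C := by
  obtain ⟨C, hC, hLD⟩ := muZ_logDens
  obtain ⟨C', hC'0, h'⟩ := hLD.integral_le hC.le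
  have hg := fub_lemma (h := wq) (a := fun z t => (1 + (z.im - t) ^ 2)⁻¹)
    (B := fun t => C' ^ 2 * (wq t * Real.log (|t| + 2) ^ 2)) ?_
    (fun t => (wq_pos t).le)
    (fun z t => by positivity) (fun t => (h' t).1) (fun t => (h' t).1) ?_
    (wq_log_int.const_mul _)
  · exact ⟨_, integral_nonneg fun t => mul_nonneg (sq_nonneg _)
      (mul_nonneg (wq_pos t).le (sq_nonneg _)), hg.1, hg.2⟩
  · apply Measurable.mul _ (by fun_prop)
    apply Measurable.mul _ (by fun_prop)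
    exact wq_cont.measurable.comp measurable_snd
  · intro t
    have h0 : 0 ≤ ∫ z : ℂ, (1 + (z.im - t) ^ 2)⁻¹ ∂muZ := integral_nonneg fun _ => by positivity
    have h1 := (h' t).2
    have := wq_pos t
    have hlg := log_nonneg' t
    calc wq t * (∫ z : ℂ, (1 + (z.im - t) ^ 2)⁻¹ ∂muZ) * (∫ z : ℂ, (1 + (z.im - t) ^ 2)⁻¹ ∂muZ)
        ≤ wq t * (C' * Real.log (|t| + 2)) * (C' * Real.log (|t| + 2)) := by gcongr
      _ = _ := by ring

/-- the weighted mean square of the zero sum is the smoothed pair sum -/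
theorem zero_pair (hR : RHz) (hψ : TF ψ b) : ∃ C : ℝ, 0 ≤ C ∧ ∀ L : ℝ, 1 ≤ L → ∀ κ : ℝ, 0 ≤ κ → κ ≤ 1 →
    Integrable (fun p : ℂ × ℂ => Gk κ p.1.im * rr (fun v => ψ v ^ 2) (L * (p.1.im - p.2.im)))
      (muZ.prod muZ) ∧
    Integrable (fun t : ℝ => ‖aK κ (1/2 + t * Complex.I)‖ ^ 2 * ‖Zs ψ L t‖ ^ 2) ∧
    |(∫ t : ℝ, ‖aK κ (1/2 + t * Complex.I)‖ ^ 2 * ‖Zs ψ L t‖ ^ 2) -
      (2 * π / L) * PF κ L (fun v => ψ v ^ 2)| ≤ C * κ ^ (3/2 : ℝ) := by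
  obtain ⟨C1, hC1, d1⟩ := Kc_bound_j hψ 6
  obtain ⟨C2, hC2, d2⟩ := Kc_bound_j hψ.reflect 2
  obtain ⟨CW, hCW, hWi, hWv⟩ := dom_int
  refine ⟨98 * (C1 * C2) * CW, by positivity, fun L hL κ hκ hκ1 => ?_⟩
  have hL0 : 0 < L := by linarith
  set K1 : ℂ → ℝ → ℂ := fun z t => Kc ψ (L * (z - (1/2 + t * Complex.I))) with hK1
  set K2 : ℂ → ℝ → ℂ := fun z t => Kc (fun v => ψ (-v)) (L * (z - (1/2 + t * Complex.I))) with hK2
  set Lm := (muZ.prod muZ).prod (volume : Measure ℝ) with hLm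
  set F1 : (ℂ × ℂ) × ℝ → ℂ := fun q =>
    ((‖aK κ (1/2 + q.2 * Complex.I)‖ ^ 2 : ℝ) : ℂ) * (K1 q.1.1 q.2 * K2 q.1.2 q.2) with hF1
  set F2 : (ℂ × ℂ) × ℝ → ℂ := fun q =>
    ((Gk κ q.1.1.im : ℝ) : ℂ) * (K1 q.1.1 q.2 * K2 q.1.2 q.2) with hF2
  have c1 := hψ.differentiable_Kc.continuous
  have c2 := hψ.reflect.differentiable_Kc.continuous
  have hKm : Continuous (fun q : (ℂ × ℂ) × ℝ => K1 q.1.1 q.2 * K2 q.1.2 q.2) := by
    apply Continuous.mul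
    · exact c1.comp (by fun_prop)
    · exact c2.comp (by fun_prop)
  have hm1 : AEStronglyMeasurable F1 Lm := by
    apply Continuous.aestronglyMeasurable
    apply Continuous.mul _ hKm
    exact Complex.continuous_ofReal.comp ((aK_cont κ).comp continuous_snd)
  have hm2 : AEStronglyMeasurable F2 Lm := by
    apply Continuous.aestronglyMeasurable
    apply Continuous.mul _ hKm
    exact Complex.continuous_ofReal.comp ((Gk_cont κ).comp (by fun_prop))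
  have hline2 : ∀ᵐ p ∂(muZ.prod muZ), p.1.re = 1/2 ∧ p.2.re = 1/2 := by
    have e1 : ∀ᵐ p ∂(muZ.prod muZ), p.1.re = 1/2 :=
      Measure.quasiMeasurePreserving_fst.ae (RHz_ae hR)
    have e2 : ∀ᵐ p ∂(muZ.prod muZ), p.2.re = 1/2 :=
      Measure.quasiMeasurePreserving_snd.ae (RHz_ae hR)
    exact e1.and e2
  have hline : ∀ᵐ q ∂Lm, q.1.1.re = 1/2 ∧ q.1.2.re = 1/2 :=
    Measure.quasiMeasurePreserving_fst.ae hline2
  have hKb : ∀ᵐ q ∂Lm, ‖K1 q.1.1 q.2 * K2 q.1.2 q.2‖ ≤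
      (C1 * C2) * (((1 + |q.1.1.im - q.2|) ^ 6)⁻¹ * (1 + (q.1.2.im - q.2) ^ 2)⁻¹) := by
    filter_upwards [hline] with q hq
    have a1 := d1 L hL q.2 q.1.1 hq.1
    have a2 := d2 L hL q.2 q.1.2 hq.2
    have a3 : ((1 + |q.1.2.im - q.2|) ^ 2)⁻¹ ≤ (1 + (q.1.2.im - q.2) ^ 2)⁻¹ := by
      apply inv_anti₀ (by positivity)
      have := abs_nonneg (q.1.2.im - q.2)
      have h3 : (q.1.2.im - q.2) ^ 2 = |q.1.2.im - q.2| ^ 2 := (sq_abs _).symm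
      rw [h3]; nlinarith
    rw [norm_mul]
    calc ‖K1 q.1.1 q.2‖ * ‖K2 q.1.2 q.2‖ ≤ (C1 * ((1 + |q.1.1.im - q.2|) ^ 6)⁻¹) *
          (C2 * (1 + (q.1.2.im - q.2) ^ 2)⁻¹) := by
          apply mul_le_mul a1 _ (norm_nonneg _) (by positivity)
          exact a2.trans (mul_le_mul_of_nonneg_left a3 (by positivity))
      _ = _ := by ring
  have a6 : ∀ x : ℝ, ((1 + |x|) ^ 6)⁻¹ ≤ (1 + x ^ 2)⁻¹ := by
    intro x
    apply inv_anti₀ (by positivity)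
    have h0 := abs_nonneg x
    rw [← sq_abs x]
    calc 1 + |x| ^ 2 ≤ (1 + |x|) ^ 2 := by nlinarith
      _ ≤ (1 + |x|) ^ 6 := pow_le_pow_right₀ (by linarith) (by norm_num)
  have hF1i : Integrable F1 Lm := by
    refine Integrable.mono' (hWi.const_mul (100 * (C1 * C2))) hm1 ?_
    filter_upwards [hKb] with q hq
    simp only [hF1]
    rw [norm_mul, Complex.norm_real, Real.norm_of_nonneg (sq_nonneg _)]
    have hw := wq_pos q.2
    calc ‖aK κ (1/2 + q.2 * Complex.I)‖ ^ 2 * ‖K1 q.1.1 q.2 * K2 q.1.2 q.2‖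
        ≤ (100 * wq q.2) * ((C1 * C2) * ((1 + (q.1.1.im - q.2) ^ 2)⁻¹ * (1 + (q.1.2.im - q.2) ^ 2)⁻¹)) := by
          apply mul_le_mul (aK_sq_le hκ hκ1 _) _ (norm_nonneg _) (by positivity)
          refine hq.trans ?_
          have := a6 (q.1.1.im - q.2)
          gcongr
      _ = _ := by ring
  -- the difference
  have hk32 : 0 ≤ κ ^ (3/2 : ℝ) := Real.rpow_nonneg hκ _
  have hdiff : ∀ᵐ q ∂Lm, ‖F1 q - F2 q‖ ≤ (98 * (C1 * C2) * κ ^ (3/2 : ℝ)) *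
      (wq q.2 * (1 + (q.1.1.im - q.2) ^ 2)⁻¹ * (1 + (q.1.2.im - q.2) ^ 2)⁻¹) := by
    filter_upwards [hKb] with q hq
    simp only [hF1, hF2]
    rw [← sub_mul, norm_mul, ← Complex.ofReal_sub, Complex.norm_real, Real.norm_eq_abs]
    have hw := wq_pos q.2
    set x : ℝ := q.1.1.im - q.2 with hx
    have b1 := aK_sub_Gk hκ hκ1 q.2
    have b2 := Gk_lip hκ hκ1 q.2 q.1.1.im
    have hxa : |q.2 - q.1.1.im| = |x| := by rw [hx, abs_sub_comm]
    have hxs : (q.2 - q.1.1.im) ^ 2 = x ^ 2 := by rw [hx]; ring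
    rw [hxa, hxs] at b2
    have b3 : |‖aK κ (1/2 + q.2 * Complex.I)‖ ^ 2 - Gk κ q.1.1.im| ≤
        98 * κ ^ (3/2 : ℝ) * wq q.2 * (1 + |x|) ^ 3 := by
      have b4 : |‖aK κ (1/2 + q.2 * Complex.I)‖ ^ 2 - Gk κ q.1.1.im| ≤
          |‖aK κ (1/2 + q.2 * Complex.I)‖ ^ 2 - Gk κ q.2| + |Gk κ q.2 - Gk κ q.1.1.im| :=
        abs_sub_le _ _ _
      have hx0 := abs_nonneg x
      have b5 : 1 ≤ (1 + |x|) ^ 3 := one_le_pow₀ (by linarith)
      have b6 : |x| * (1 + x ^ 2) ≤ (1 + |x|) ^ 3 := by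
        rw [← sq_abs x]
        nlinarith [pow_nonneg hx0 3, pow_nonneg hx0 2]
      have b7 : 50 * κ ^ (3/2 : ℝ) * wq q.2 ≤ 50 * κ ^ (3/2 : ℝ) * wq q.2 * (1 + |x|) ^ 3 :=
        le_mul_of_one_le_right (by positivity) b5
      have b8 : 48 * κ ^ (3/2 : ℝ) * wq q.2 * (|x| * (1 + x ^ 2)) ≤
          48 * κ ^ (3/2 : ℝ) * wq q.2 * (1 + |x|) ^ 3 := by gcongr
      linarith
    have b9 : (1 + |x|) ^ 3 * ((1 + |x|) ^ 6)⁻¹ ≤ (1 + x ^ 2)⁻¹ := by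
      have hx0 := abs_nonneg x
      have : (1 + |x|) ^ 3 * ((1 + |x|) ^ 6)⁻¹ = ((1 + |x|) ^ 3)⁻¹ := by
        field_simp
      rw [this]
      apply inv_anti₀ (by positivity)
      rw [← sq_abs x]
      nlinarith [pow_nonneg hx0 3, pow_nonneg hx0 2]
    calc _ ≤ (98 * κ ^ (3/2 : ℝ) * wq q.2 * (1 + |x|) ^ 3) *
          ((C1 * C2) * (((1 + |x|) ^ 6)⁻¹ * (1 + (q.1.2.im - q.2) ^ 2)⁻¹)) := by
          apply mul_le_mul b3 hq (norm_nonneg _) (by positivity)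
      _ = (98 * (C1 * C2) * κ ^ (3/2 : ℝ)) * (wq q.2 * ((1 + |x|) ^ 3 * ((1 + |x|) ^ 6)⁻¹) *
          (1 + (q.1.2.im - q.2) ^ 2)⁻¹) := by ring
      _ ≤ (98 * (C1 * C2) * κ ^ (3/2 : ℝ)) * (wq q.2 * (1 + x ^ 2)⁻¹ *
          (1 + (q.1.2.im - q.2) ^ 2)⁻¹) := by gcongr
  have hDi : Integrable (fun q => F1 q - F2 q) Lm :=
    Integrable.mono' (hWi.const_mul _) (hm1.sub hm2) hdiff
  have hF2i : Integrable F2 Lm := by
    have := hF1i.sub hDi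
    refine this.congr (Eventually.of_forall fun q => ?_)
    simp
  -- evaluate
  have hF1t : ∀ t : ℝ, ∫ p : ℂ × ℂ, F1 (p, t) ∂(muZ.prod muZ) =
      ((‖aK κ (1/2 + t * Complex.I)‖ ^ 2 * ‖Zs ψ L t‖ ^ 2 : ℝ) : ℂ) := by
    intro t
    simp only [hF1]
    rw [integral_const_mul]
    have := integral_prod_mul (μ := muZ) (ν := muZ) (fun z => K1 z t) (fun z => K2 z t)
    rw [this]
    have e1 : ∫ z, K1 z t ∂muZ = Zs ψ L t := rfl
    have e2 : ∫ z, K2 z t ∂muZ = (starRingEnd ℂ) (Zs ψ L t) := by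
      rw [Zs_conj hR]; rfl
    rw [e1, e2, Complex.mul_conj, Complex.normSq_eq_norm_sq]
    push_cast; ring
  have v1 : ∫ q, F1 q ∂Lm = ((∫ t : ℝ, ‖aK κ (1/2 + t * Complex.I)‖ ^ 2 * ‖Zs ψ L t‖ ^ 2 : ℝ) : ℂ) := by
    rw [hLm, integral_prod_symm _ hF1i, ← integral_complex_ofReal]
    congr 1
    ext t
    exact hF1t t
  have hZi : Integrable (fun t : ℝ => ‖aK κ (1/2 + t * Complex.I)‖ ^ 2 * ‖Zs ψ L t‖ ^ 2) := by
    have h3 := hF1i.integral_prod_right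
    have h4 : Integrable (fun t : ℝ => ((‖aK κ (1/2 + t * Complex.I)‖ ^ 2 * ‖Zs ψ L t‖ ^ 2 : ℝ) : ℂ)) := by
      refine h3.congr (Eventually.of_forall fun t => ?_)
      exact hF1t t
    have h5 := h4.re
    refine h5.congr (Eventually.of_forall fun t => ?_)
    simp only [RCLike.re_eq_complex_re, Complex.ofReal_re]
  have hinner : ∀ᵐ p ∂(muZ.prod muZ), ∫ t : ℝ, F2 (p, t) =
      ((2 * π / L : ℝ) : ℂ) * ((Gk κ p.1.im : ℂ) *
        Kc (fun v => ψ v ^ 2) (((L * (p.1.im - p.2.im) : ℝ) : ℂ) * Complex.I)) := by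
    filter_upwards [hline2] with p hp
    simp only [hF2]
    rw [integral_const_mul]
    simp only [hK1, hK2]
    rw [(parseval hψ hψ.reflect hL0 p.1 p.2).2, line_arg2 hp.1 hp.2]
    have e3 : (fun v => ψ v * ψ (- -v)) = fun v => ψ v ^ 2 := by
      funext v; rw [neg_neg]; ring
    simp only [e3]
    ring
  have hG2 : Integrable (fun p : ℂ × ℂ => ((2 * π / L : ℝ) : ℂ) * ((Gk κ p.1.im : ℂ) *
        Kc (fun v => ψ v ^ 2) (((L * (p.1.im - p.2.im) : ℝ) : ℂ) * Complex.I))) (muZ.prod muZ) :=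
    hF2i.integral_prod_left.congr hinner
  have hG3 : Integrable (fun p : ℂ × ℂ => ((Gk κ p.1.im : ℂ) *
        Kc (fun v => ψ v ^ 2) (((L * (p.1.im - p.2.im) : ℝ) : ℂ) * Complex.I))) (muZ.prod muZ) := by
    have := hG2.const_mul (((2 * π / L : ℝ) : ℂ)⁻¹)
    refine this.congr (Eventually.of_forall fun p => ?_)
    have h0 : ((2 * π / L : ℝ) : ℂ) ≠ 0 := by
      have : (2 * π / L : ℝ) ≠ 0 := by positivity
      exact_mod_cast this
    simp only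
    rw [← mul_assoc, inv_mul_cancel₀ h0, one_mul]
  have hPi : Integrable (fun p : ℂ × ℂ => Gk κ p.1.im * rr (fun v => ψ v ^ 2) (L * (p.1.im - p.2.im)))
      (muZ.prod muZ) := by
    refine hG3.re.congr (Eventually.of_forall fun p => ?_)
    simp only [RCLike.re_eq_complex_re, Complex.re_ofReal_mul]
    rfl
  refine ⟨hPi, hZi, ?_⟩
  have v2 : (∫ q, F2 q ∂Lm).re = (2 * π / L) * PF κ L (fun v => ψ v ^ 2) := by
    rw [hLm, integral_prod _ hF2i, integral_congr_ae hinner, integral_const_mul,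
      Complex.re_ofReal_mul]
    congr 1
    unfold PF
    have h6 := integral_re hG3
    simp only [RCLike.re_eq_complex_re] at h6
    rw [← h6]
    congr 1
    ext p
    rw [Complex.re_ofReal_mul]
    rfl
  have v3 : (∫ t : ℝ, ‖aK κ (1/2 + t * Complex.I)‖ ^ 2 * ‖Zs ψ L t‖ ^ 2) -
      (2 * π / L) * PF κ L (fun v => ψ v ^ 2) = (∫ q, (F1 q - F2 q) ∂Lm).re := by
    rw [integral_sub hF1i hF2i, Complex.sub_re, v1, v2, Complex.ofReal_re]
  rw [v3]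
  refine (Complex.abs_re_le_norm _).trans ((norm_integral_le_integral_norm _).trans ?_)
  refine (integral_mono_ae hDi.norm (hWi.const_mul _) hdiff).trans ?_
  rw [integral_const_mul]
  calc (98 * (C1 * C2) * κ ^ (3/2 : ℝ)) * _ ≤ (98 * (C1 * C2) * κ ^ (3/2 : ℝ)) * CW := by gcongr
    _ = _ := by ring

end Pool.Agent.PairCorr.P6
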