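import Mathlib
import Pool.Agent.PairCorr.P6_Pair

set_option autoImplicit false

namespace Pool.Agent.PairCorr.P6

open MeasureTheory Filter Topology Set Real
open scoped ENNReal ArithmeticFunction.vonMangoldt

variable {ψ k : ℝ → ℝ} {b e : ℝ}

lemma aK_sq_le' {κ : ℝ} (hκ : 0 ≤ κ) (hκ1 : κ ≤ 1) (t : ℝ) :
    ‖aK κ (1/2 + t * Complex.I)‖ ^ 2 ≤ 100 * κ ^ (3/2 : ℝ) * (wq t * (1 + |t|)) := by
  have ht := abs_nonneg t
  have h1 := aK_sq κ t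
  obtain ⟨e1, e2⟩ := exp_half_bound hκ hκ1
  have h3 := eight_bound t
  set x : ℝ := κ * (1 + |t|) with hx
  have hx0 : 0 ≤ x := by positivity
  have hs : Real.sin (κ * t / 2) ^ 2 ≤ x ^ (3/2 : ℝ) := by
    rcases le_total x 1 with h | h
    · have h2 : |Real.sin (κ * t / 2)| ≤ x := by
        refine (Real.abs_sin_le_abs).trans ?_
        rw [abs_div, abs_mul, abs_of_nonneg hκ, abs_of_pos (show (0:ℝ) < 2 by norm_num), hx]
        have : 0 ≤ κ * |t| := by positivity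
        nlinarith
      calc Real.sin (κ * t / 2) ^ 2 = |Real.sin (κ * t / 2)| ^ 2 := (sq_abs _).symm
        _ ≤ x ^ 2 := pow_le_pow_left₀ (abs_nonneg _) h2 2
        _ = x ^ (2:ℝ) := by norm_cast
        _ ≤ x ^ (3/2 : ℝ) := Real.rpow_le_rpow_of_exponent_ge' hx0 h (by norm_num) (by norm_num)
    · calc Real.sin (κ * t / 2) ^ 2 ≤ 1 := Real.sin_sq_le_one _
        _ ≤ x ^ (3/2 : ℝ) := Real.one_le_rpow h (by norm_num)
  have hxs : x ^ (3/2 : ℝ) = κ ^ (3/2 : ℝ) * (1 + |t|) ^ (3/2 : ℝ) := by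
    rw [hx, Real.mul_rpow hκ (by positivity)]
  have hone : 1 ≤ (1 + |t|) ^ (3/2 : ℝ) := Real.one_le_rpow (by linarith) (by norm_num)
  have hk2 : κ ^ 2 ≤ κ ^ (3/2 : ℝ) := by
    calc κ ^ 2 = κ ^ (2:ℝ) := by norm_cast
      _ ≤ κ ^ (3/2 : ℝ) := Real.rpow_le_rpow_of_exponent_ge' hκ hκ1 (by norm_num) (by norm_num)
  have b4 : 0 ≤ κ ^ (3/2 : ℝ) := Real.rpow_nonneg hκ _
  have h4 : ‖aK κ (1/2 + t * Complex.I)‖ ^ 2 * (1/4 + t ^ 2) ≤
      9 * (κ ^ (3/2 : ℝ) * (1 + |t|) ^ (3/2 : ℝ)) := by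
    rw [h1]
    have b1 : (Real.exp (κ / 2) - 1) ^ 2 ≤ κ ^ 2 := pow_le_pow_left₀ e1 e2 2
    have b2 : Real.exp (κ / 2) ≤ 2 := by linarith
    have b3 : 4 * Real.exp (κ / 2) * Real.sin (κ * t / 2) ^ 2 ≤ 8 * x ^ (3/2 : ℝ) := by
      have := sq_nonneg (Real.sin (κ * t / 2))
      calc 4 * Real.exp (κ / 2) * Real.sin (κ * t / 2) ^ 2 ≤ 4 * 2 * x ^ (3/2 : ℝ) := by gcongr
        _ = _ := by ring
    have b5 : κ ^ (3/2 : ℝ) ≤ κ ^ (3/2 : ℝ) * (1 + |t|) ^ (3/2 : ℝ) := le_mul_of_one_le_right b4 hone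
    rw [← hxs] at b5 ⊢
    linarith
  have h6 : (1 + |t|) ^ (3/2 : ℝ) * ((1 + |t|) ^ 2)⁻¹ = wq t * (1 + |t|) := by
    unfold wq
    have e3 : wq t * (1 + |t|) = (1 + |t|) ^ (-(3/2) : ℝ) * (1 + |t|) ^ (1:ℝ) := by
      unfold wq; rw [Real.rpow_one]
    rw [show (1 + |t|) ^ (-(3/2) : ℝ) * (1 + |t|) = (1 + |t|) ^ (-(3/2) : ℝ) * (1 + |t|) ^ (1:ℝ) by
      rw [Real.rpow_one], ← Real.rpow_natCast (1 + |t|) 2, ← Real.rpow_neg (by positivity),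
      ← Real.rpow_add (by positivity), ← Real.rpow_add (by positivity)]
    norm_num
  calc ‖aK κ (1/2 + t * Complex.I)‖ ^ 2
      = (‖aK κ (1/2 + t * Complex.I)‖ ^ 2 * (1 + |t|) ^ 2) * ((1 + |t|) ^ 2)⁻¹ := by
        field_simp
    _ ≤ (‖aK κ (1/2 + t * Complex.I)‖ ^ 2 * (8 * (1/4 + t ^ 2))) * ((1 + |t|) ^ 2)⁻¹ := by gcongr
    _ = 8 * (‖aK κ (1/2 + t * Complex.I)‖ ^ 2 * (1/4 + t ^ 2)) * ((1 + |t|) ^ 2)⁻¹ := by ring
    _ ≤ 8 * (9 * (κ ^ (3/2 : ℝ) * (1 + |t|) ^ (3/2 : ℝ))) * ((1 + |t|) ^ 2)⁻¹ := by gcongr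
    _ = 72 * κ ^ (3/2 : ℝ) * ((1 + |t|) ^ (3/2 : ℝ) * ((1 + |t|) ^ 2)⁻¹) := by ring
    _ = 72 * κ ^ (3/2 : ℝ) * (wq t * (1 + |t|)) := by rw [h6]
    _ ≤ _ := by
        have := wq_pos t
        gcongr
        norm_num

/-- the mean square of the smoothed increments and the pair sum -/
theorem WW_pair (hR : RHz) (hψ : TF ψ b) (he : 0 < e) (heb : e ≤ b) (hpos : ∀ v, v < e → ψ v = 0) :
    ∃ C : ℝ, 0 ≤ C ∧ ∀ L : ℝ, 1 ≤ L → ∀ κ : ℝ, 0 ≤ κ → κ ≤ 1 →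
    |(∫ v, WW (fun v => ψ (v / L) / L) (b * L) κ v ^ 2) - L⁻¹ * PF κ L (fun v => ψ v ^ 2)| ≤
      C * κ ^ (3/2 : ℝ) ∧ ∫ v, WW (fun v => ψ (v / L) / L) (b * L) κ v ^ 2 ≤ C := by
  obtain ⟨C1, hC1, h1⟩ := zero_pair hR hψ
  obtain ⟨C2, hC2, h2⟩ := explicit_pos hψ he heb hpos
  obtain ⟨C3, hC3, h3⟩ := Zs_bound hR hψ
  obtain ⟨C4, hC4, h4⟩ := D1_bound hR hψ he heb hpos
  set K : ℝ := ∫ t, wq t * Real.log (|t| + 2) ^ 2 with hK
  have hK0 : 0 ≤ K := integral_nonneg fun t => mul_nonneg (wq_pos t).le (sq_nonneg _)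
  have hpi := Real.pi_gt_three
  refine ⟨C1 + 200 * C2 * (C3 + C4) * K + 100 * C4 ^ 2 * K, by positivity, fun L hL κ hκ hκ1 => ?_⟩
  have hL0 : 0 < L := by linarith
  have hφ := hψ.scale hL0
  set φ : ℝ → ℝ := fun v => ψ (v / L) / L with hφd
  obtain ⟨hPi, hZi, hZ⟩ := h1 L hL κ hκ hκ1
  obtain ⟨hWi, hWv⟩ := WW_plancherel hφ hκ
  have hD : ∀ t : ℝ, (∑' n : ℕ, primeTerm φ t n - kS φ t 1) = D1 ψ L t := fun t => rfl
  simp_rw [hD, norm_mul, mul_pow] at hWi hWv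
  have hk32 : 0 ≤ κ ^ (3/2 : ℝ) := Real.rpow_nonneg hκ _
  have hlog : ∀ t : ℝ, 1/2 ≤ Real.log (|t| + 2) := by
    intro t
    have ht := abs_nonneg t
    have h5 : Real.log 2 ≤ Real.log (|t| + 2) := Real.log_le_log (by norm_num) (by linarith)
    have := Real.log_two_gt_d9
    linarith
  have hpt : ∀ t : ℝ, |‖aK κ (1/2 + t * Complex.I)‖ ^ 2 * ‖D1 ψ L t‖ ^ 2 -
      ‖aK κ (1/2 + t * Complex.I)‖ ^ 2 * ‖Zs ψ L t‖ ^ 2| ≤
      (200 * C2 * (C3 + C4) * κ ^ (3/2 : ℝ)) * (wq t * Real.log (|t| + 2) ^ 2) := by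
    intro t
    have ht := abs_nonneg t
    have hw := wq_pos t
    have g1 := h2 L hL t
    have g2 := h3 L hL t
    have g3 := h4 L hL t
    have hl := hlog t
    have g4 : |‖D1 ψ L t‖ - ‖Zs ψ L t‖| ≤ C2 / (1 + |t|) := by
      have g5 : |‖D1 ψ L t‖ - ‖-Zs ψ L t‖| ≤ ‖D1 ψ L t - -Zs ψ L t‖ := abs_norm_sub_norm_le _ _
      rw [norm_neg, sub_neg_eq_add, add_comm (D1 ψ L t)] at g5
      refine g5.trans (g1.trans ?_)
      apply div_le_div_of_nonneg_right _ (by positivity)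
      have : Real.exp (-(e / 2 * L)) ≤ 1 := by
        rw [Real.exp_le_one_iff]
        have : 0 < e / 2 * L := by positivity
        linarith
      nlinarith
    rw [← mul_sub, abs_mul, abs_of_nonneg (sq_nonneg _)]
    have g6 : |‖D1 ψ L t‖ ^ 2 - ‖Zs ψ L t‖ ^ 2| ≤
        C2 / (1 + |t|) * ((C3 + C4) * Real.log (|t| + 2)) := by
      have : ‖D1 ψ L t‖ ^ 2 - ‖Zs ψ L t‖ ^ 2 = (‖D1 ψ L t‖ - ‖Zs ψ L t‖) * (‖D1 ψ L t‖ + ‖Zs ψ L t‖) := by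
        ring
      rw [this, abs_mul, abs_of_nonneg (show 0 ≤ ‖D1 ψ L t‖ + ‖Zs ψ L t‖ by positivity)]
      apply mul_le_mul g4 _ (by positivity) (by positivity)
      linarith
    calc ‖aK κ (1/2 + t * Complex.I)‖ ^ 2 * |‖D1 ψ L t‖ ^ 2 - ‖Zs ψ L t‖ ^ 2|
        ≤ (100 * κ ^ (3/2 : ℝ) * (wq t * (1 + |t|))) *
          (C2 / (1 + |t|) * ((C3 + C4) * Real.log (|t| + 2))) := by
          apply mul_le_mul (aK_sq_le' hκ hκ1 t) g6 (abs_nonneg _) (by positivity)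
      _ = 100 * C2 * (C3 + C4) * κ ^ (3/2 : ℝ) * (wq t * Real.log (|t| + 2)) := by
          field_simp
      _ ≤ 100 * C2 * (C3 + C4) * κ ^ (3/2 : ℝ) * (wq t * (2 * Real.log (|t| + 2) ^ 2)) := by
          have : Real.log (|t| + 2) ≤ 2 * Real.log (|t| + 2) ^ 2 := by nlinarith
          gcongr
      _ = _ := by ring
  have hdiff : |(∫ t : ℝ, ‖aK κ (1/2 + t * Complex.I)‖ ^ 2 * ‖D1 ψ L t‖ ^ 2) -
      ∫ t : ℝ, ‖aK κ (1/2 + t * Complex.I)‖ ^ 2 * ‖Zs ψ L t‖ ^ 2| ≤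
      (200 * C2 * (C3 + C4) * κ ^ (3/2 : ℝ)) * K := by
    rw [← integral_sub hWi hZi]
    refine (abs_integral_le_integral_abs).trans ?_
    rw [hK, ← integral_const_mul]
    exact integral_mono (hWi.sub hZi).abs (wq_log_int.const_mul _) hpt
  constructor
  · have e1 : (∫ v, WW φ (b * L) κ v ^ 2) - L⁻¹ * PF κ L (fun v => ψ v ^ 2) =
        (2 * π)⁻¹ * ((∫ t : ℝ, ‖aK κ (1/2 + t * Complex.I)‖ ^ 2 * ‖D1 ψ L t‖ ^ 2) -
          (2 * π / L) * PF κ L (fun v => ψ v ^ 2)) := by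
      rw [hWv]; field_simp
    rw [e1, abs_mul, abs_of_pos (by positivity)]
    have e2 : |(∫ t : ℝ, ‖aK κ (1/2 + t * Complex.I)‖ ^ 2 * ‖D1 ψ L t‖ ^ 2) -
          (2 * π / L) * PF κ L (fun v => ψ v ^ 2)| ≤ (C1 + 200 * C2 * (C3 + C4) * K) * κ ^ (3/2 : ℝ) := by
      refine (abs_sub_le _ (∫ t : ℝ, ‖aK κ (1/2 + t * Complex.I)‖ ^ 2 * ‖Zs ψ L t‖ ^ 2) _).trans ?_
      linarith
    have e3 : (2 * π)⁻¹ ≤ 1 := inv_le_one_of_one_le₀ (by linarith)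
    calc (2 * π)⁻¹ * _ ≤ 1 * ((C1 + 200 * C2 * (C3 + C4) * K) * κ ^ (3/2 : ℝ)) := by gcongr
      _ ≤ _ := by
          rw [one_mul]
          apply mul_le_mul_of_nonneg_right _ hk32
          have : 0 ≤ 100 * C4 ^ 2 * K := by positivity
          linarith
  · have hup : ∫ t : ℝ, ‖aK κ (1/2 + t * Complex.I)‖ ^ 2 * ‖D1 ψ L t‖ ^ 2 ≤ (100 * C4 ^ 2) * K := by
      apply wq_log_sq_bound (by positivity) (fun t => by positivity)
      intro t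
      have e1 := aK_sq_le hκ hκ1 t
      have e2 : ‖D1 ψ L t‖ ^ 2 ≤ (C4 * Real.log (|t| + 2)) ^ 2 :=
        pow_le_pow_left₀ (norm_nonneg _) (h4 L hL t) 2
      have := wq_pos t
      calc _ ≤ (100 * wq t) * (C4 * Real.log (|t| + 2)) ^ 2 := by gcongr
        _ = _ := by ring
    rw [hWv] at hup
    have h0 : 0 ≤ ∫ v, WW φ (b * L) κ v ^ 2 := integral_nonneg fun v => sq_nonneg _
    have : 0 ≤ C1 + 200 * C2 * (C3 + C4) * K := by positivity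
    nlinarith

lemma WW_sq_int (hφ : TF ψ b) {κ : ℝ} (hκ : 0 ≤ κ) : Integrable (fun v => WW ψ b κ v ^ 2) := by
  have := (WW_memLp hφ hκ 2).integrable_norm_pow (by norm_num)
  refine this.congr (Eventually.of_forall fun v => ?_)
  simp only [Complex.norm_real, Real.norm_eq_abs, sq_abs]

/-- comparing squares in `L²` -/
lemma sq_int_diff {f g : ℝ → ℝ} (hf : Integrable fun v => f v ^ 2) (hg : Integrable fun v => g v ^ 2)
    (hfg : Integrable fun v => (f v - g v) ^ 2) {A D : ℝ} (hA : ∫ v, f v ^ 2 ≤ A)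
    (hD : ∫ v, (f v - g v) ^ 2 ≤ D) {s : ℝ} (hs : 0 < s) :
    |(∫ v, f v ^ 2) - ∫ v, g v ^ 2| ≤ s * A + (1 + 1 / s) * D := by
  rw [← integral_sub hf hg]
  have hpt : ∀ v, |f v ^ 2 - g v ^ 2| ≤ s * f v ^ 2 + (1 + 1 / s) * (f v - g v) ^ 2 := by
    intro v
    have h1 : f v ^ 2 - g v ^ 2 = 2 * f v * (f v - g v) - (f v - g v) ^ 2 := by ring
    rw [h1]
    have h2 : |2 * f v * (f v - g v)| ≤ s * f v ^ 2 + 1 / s * (f v - g v) ^ 2 := by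
      rw [abs_le]
      have e1 : s * f v ^ 2 + 1 / s * (f v - g v) ^ 2 - 2 * f v * (f v - g v) =
          s * (f v - (f v - g v) / s) ^ 2 := by field_simp; ring
      have e2 : s * f v ^ 2 + 1 / s * (f v - g v) ^ 2 + 2 * f v * (f v - g v) =
          s * (f v + (f v - g v) / s) ^ 2 := by field_simp; ring
      constructor <;> nlinarith [sq_nonneg (f v - (f v - g v) / s), sq_nonneg (f v + (f v - g v) / s)]
    calc |2 * f v * (f v - g v) - (f v - g v) ^ 2| ≤ |2 * f v * (f v - g v)| + |(f v - g v) ^ 2| := abs_sub _ _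
      _ ≤ _ := by rw [abs_of_nonneg (sq_nonneg (f v - g v))]; linarith
  refine (abs_integral_le_integral_abs).trans ?_
  calc ∫ v, |f v ^ 2 - g v ^ 2| ≤ ∫ v, (s * f v ^ 2 + (1 + 1 / s) * (f v - g v) ^ 2) :=
        integral_mono (hf.sub hg).abs ((hf.const_mul _).add (hfg.const_mul _)) hpt
    _ = s * (∫ v, f v ^ 2) + (1 + 1 / s) * ∫ v, (f v - g v) ^ 2 := by
        rw [integral_add (hf.const_mul _) (hfg.const_mul _), integral_const_mul, integral_const_mul]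
    _ ≤ _ := by
        have : 0 ≤ 1 + 1 / s := by positivity
        gcongr

/-- the weighted window integral -/
noncomputable def Vf (κ L : ℝ) (k : ℝ → ℝ) : ℝ := ∫ v, k (v / L) * VV κ v ^ 2

lemma Vf_int (hk : TF k b) {L : ℝ} (hL : 0 < L) (κ : ℝ) :
    Integrable (fun v => k (v / L) * VV κ v ^ 2) := by
  obtain ⟨C, hC⟩ : ∃ C, ∀ v, ‖k v‖ ≤ C := hk.hasCompactSupport.exists_bound_of_continuous hk.cont
  have h1 : IntegrableOn (fun v => VV κ v ^ 2) (Icc (-(|b| * L)) (|b| * L)) :=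
    (intervalIntegrable_iff_integrableOn_Icc_of_le (by
      have := abs_nonneg b
      nlinarith [mul_nonneg this hL.le])).1 (VV_sq_ii κ _ _)
  have h2 : Integrable ((Icc (-(|b| * L)) (|b| * L)).indicator (fun v => VV κ v ^ 2)) :=
    (integrable_indicator_iff measurableSet_Icc).2 h1
  have h3 := h2.bdd_mul (c := C) (f := fun v => k (v / L))
    (hk.cont.comp (by fun_prop)).aestronglyMeasurable (Eventually.of_forall fun v => hC _)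
  refine h3.congr (Eventually.of_forall fun v => ?_)
  beta_reduce
  by_cases hv : v ∈ Icc (-(|b| * L)) (|b| * L)
  · rw [indicator_of_mem hv]
  · rw [indicator_of_notMem hv]
    have : k (v / L) = 0 := by
      apply hk.supp
      rw [mem_Icc, ← abs_le, not_le] at hv
      rw [abs_div, abs_of_pos hL, lt_div_iff₀ hL]
      have := le_abs_self b
      nlinarith
    rw [this]; simp

/-- squares of test functions -/
theorem V_sq (hR : RHz) (hψ : TF ψ b) (he : 0 < e) (heb : e ≤ b) (hpos : ∀ v, v < e → ψ v = 0) :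
    ∃ C : ℝ, 0 ≤ C ∧ ∀ L : ℝ, 1 ≤ L → ∀ κ : ℝ, 0 < κ → κ ≤ 1 →
    |(L ^ 2)⁻¹ * Vf κ L (fun v => ψ v ^ 2) - L⁻¹ * PF κ L (fun v => ψ v ^ 2)| ≤
      C * (κ ^ (3/2 : ℝ) + κ / L) := by
  obtain ⟨C1, hC1, h1⟩ := WW_pair hR hψ he heb hpos
  obtain ⟨C2, hC2, h2⟩ := cmp_bound hR hψ he heb hpos
  refine ⟨C1 + 2 * C2, by positivity, fun L hL κ hκ hκ1 => ?_⟩
  have hL0 : 0 < L := by linarith
  obtain ⟨g1, g2⟩ := h1 L hL κ hκ.le hκ1
  obtain ⟨g3, g4⟩ := h2 L hL κ hκ.le hκ1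
  have hφ := hψ.scale hL0
  set φ : ℝ → ℝ := fun v => ψ (v / L) / L with hφd
  have hψ2 : TF (fun v => ψ v ^ 2) b := by
    have := hψ.mul hψ.smooth
    refine ⟨?_, ?_⟩
    · exact hψ.smooth.pow 2
    · intro v hv; rw [hψ.supp v hv]; ring
  have hg : Integrable (fun v => (φ v * VV κ v) ^ 2) := by
    have := (Vf_int hψ2 hL0 κ).const_mul ((L ^ 2)⁻¹)
    refine this.congr (Eventually.of_forall fun v => ?_)
    simp only [hφd]
    field_simp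
  have hgv : ∫ v, (φ v * VV κ v) ^ 2 = (L ^ 2)⁻¹ * Vf κ L (fun v => ψ v ^ 2) := by
    unfold Vf
    rw [← integral_const_mul]
    congr 1
    ext v
    simp only [hφd]
    field_simp
  have hs : 0 < κ / L := by positivity
  have g5 := sq_int_diff (WW_sq_int hφ hκ.le) hg g3 g2 g4 hs
  rw [hgv] at g5
  have e1 : κ / L * C1 + (1 + 1 / (κ / L)) * (C2 * κ ^ 2 / L ^ 2) =
      κ / L * C1 + C2 * (κ / L) ^ 2 + C2 * (κ / L) := by
    field_simp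
    ring
  rw [e1] at g5
  have hsl : κ / L ≤ 1 := by rw [div_le_one hL0]; linarith
  have e2 : (κ / L) ^ 2 ≤ κ / L := by nlinarith
  have hk32 : 0 ≤ κ ^ (3/2 : ℝ) := Real.rpow_nonneg hκ.le _
  have e3 := abs_sub_comm (∫ v, WW φ (b * L) κ v ^ 2) ((L ^ 2)⁻¹ * Vf κ L (fun v => ψ v ^ 2))
  rw [e3] at g5
  refine (abs_sub_le _ (∫ v, WW φ (b * L) κ v ^ 2) _).trans ?_
  have e4 : C2 * (κ / L) ^ 2 ≤ C2 * (κ / L) := by gcongr
  have e5 : 0 ≤ 2 * C2 * κ ^ (3/2 : ℝ) := by positivity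
  nlinarith

end Pool.Agent.PairCorr.P6
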