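import Mathlib
import Pool.Agent.PairCorr.P6_V
import Pool.Agent.PairCorr.A_Step1
import Pool.Agent.PairCorr.PB_Convert

set_option autoImplicit false

namespace Pool.Agent.PairCorr.P6

open MeasureTheory Filter Topology Set Real
open scoped ENNReal ComplexConjugate
open Pool.Agent.PairCorr.P1 (q4 q4_pos)

variable {ψ k : ℝ → ℝ} {b e : ℝ}

/-! ### conjugation invariance -/

/-- conjugation as an equivalence of the set of nontrivial zeros. -/
noncomputable def cjE : NTZ ≃ NTZ where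
  toFun ρ := ⟨conj (ρ : ℂ), conj_mem_NTZ ρ.2⟩
  invFun ρ := ⟨conj (ρ : ℂ), conj_mem_NTZ ρ.2⟩
  left_inv ρ := by ext; simp
  right_inv ρ := by ext; simp

lemma map_conj_muZ : muZ.map (fun z => conj z) = muZ := by
  have hm : Measurable fun z : ℂ => conj z := Complex.continuous_conj.measurable
  ext s hs
  rw [Measure.map_apply hm hs, muZ_apply, muZ_apply, ← cjE.tsum_eq]
  refine tsum_congr fun ρ => ?_
  have h1 : ((cjE ρ : NTZ) : ℂ) = conj (ρ : ℂ) := rfl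
  rw [h1]
  have h2 : mult (conj (ρ : ℂ)) = mult (ρ : ℂ) := mult_conj ρ.2
  rw [h2]
  congr 1
  by_cases h : (ρ : ℂ) ∈ s
  · rw [indicator_of_mem h, indicator_of_mem (show conj (ρ : ℂ) ∈ (fun z : ℂ => conj z) ⁻¹' s by
      rw [mem_preimage, Complex.conj_conj]; exact h)]
    rfl
  · rw [indicator_of_notMem h, indicator_of_notMem (show conj (ρ : ℂ) ∉ (fun z : ℂ => conj z) ⁻¹' s by
      rw [mem_preimage, Complex.conj_conj]; exact h)]

lemma mp_conj : MeasurePreserving (fun z : ℂ => conj z) muZ muZ :=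
  ⟨Complex.continuous_conj.measurable, map_conj_muZ⟩

lemma mp_conj2 : MeasurePreserving (Prod.map (fun z : ℂ => conj z) (fun z : ℂ => conj z))
    (muZ.prod muZ) (muZ.prod muZ) := mp_conj.prod mp_conj

/-! ### pair bounds -/

lemma q4_cont : Continuous q4 := by
  unfold q4
  apply Continuous.inv₀ (by fun_prop)
  intro x; positivity

lemma q4_le_one (x : ℝ) : q4 x ≤ 1 := by
  unfold q4
  apply inv_le_one_of_one_le₀
  apply one_le_pow₀
  have := abs_nonneg x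
  linarith

lemma q4_neg (x : ℝ) : q4 (-x) = q4 x := by unfold q4; rw [abs_neg]

lemma q4_scale {ℓ ℓ' m : ℝ} (hℓ : 0 ≤ ℓ) (hℓ' : 0 ≤ ℓ') (hm : 1 ≤ m) (h : ℓ' ≤ m * ℓ) (x : ℝ) :
    q4 (ℓ * x) ≤ m ^ 4 * q4 (ℓ' * x) := by
  unfold q4
  rw [← div_eq_mul_inv, le_div_iff₀ (by positivity), inv_mul_le_iff₀ (by positivity), ← mul_pow]
  apply pow_le_pow_left₀ (by positivity)
  rw [abs_mul, abs_mul, abs_of_nonneg hℓ, abs_of_nonneg hℓ']
  have := abs_nonneg x
  nlinarith [mul_le_mul_of_nonneg_right h this]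

lemma PB_pos : ∃ C : ℝ, 0 < C ∧ ∃ U₀ : ℝ, Real.exp 1 ≤ U₀ ∧ ∀ U : ℝ, U₀ ≤ U →
    ∫⁻ p in {p : ℂ × ℂ | 0 < p.1.im ∧ p.1.im ≤ U},
      ENNReal.ofReal (q4 (Real.log U * (p.1.im - p.2.im))) ∂(muZ.prod muZ) ≤
      ENNReal.ofReal (C * (U * Real.log U)) := by
  obtain ⟨c, hc, C, hC, T₀, h⟩ := statementPB_of Pool.Agent.PC10.statementB
  refine ⟨C, hC, max T₀ (Real.exp 1), le_max_right _ _, fun U hU => ?_⟩
  have hUe : Real.exp 1 ≤ U := (le_max_right _ _).trans hU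
  have hU0 : 0 < U := (Real.exp_pos 1).trans_le hUe
  have hU1 : 1 ≤ U := by have := Real.add_one_le_exp 1; linarith
  have hL1 : 1 ≤ Real.log U := by rw [Real.le_log_iff_exp_le hU0]; exact hUe
  obtain ⟨hi, hv⟩ := h U ((le_max_left _ _).trans hU) 1
    (Real.rpow_le_one_of_one_le_of_nonpos hU1 (by norm_num)) le_rfl
  have hset : {p : ℂ × ℂ | 0 < p.1.im ∧ p.1.im ≤ U} = WT U ×ˢ univ := by
    ext p; simp [WT]
  rw [hset, ← muW_prod_restrict]
  calc ∫⁻ p, ENNReal.ofReal (q4 (Real.log U * (p.1.im - p.2.im))) ∂((muW U).prod muZ)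
      ≤ ∫⁻ p, ENNReal.ofReal (pairW c U 1 p) ∂((muW U).prod muZ) := by
        apply lintegral_mono
        intro p
        apply ENNReal.ofReal_le_ofReal
        unfold pairW wgt q4
        rw [one_mul, abs_mul, abs_of_pos (by linarith : 0 < Real.log U)]
        have e1 : 1 ≤ Real.exp (c * |p.1.re - 1/2| * Real.log U) := Real.one_le_exp (by positivity)
        have e2 : 1 ≤ Real.exp (c * |p.2.re - 1/2| * Real.log U) := Real.one_le_exp (by positivity)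
        have e3 : 1 ≤ Real.exp (c * |p.1.re - 1/2| * Real.log U) *
          Real.exp (c * |p.2.re - 1/2| * Real.log U) := one_le_mul_of_one_le_of_one_le e1 e2
        exact le_mul_of_one_le_left (by positivity) e3
    _ = ENNReal.ofReal (∫ p, pairW c U 1 p ∂((muW U).prod muZ)) := by
        rw [ofReal_integral_eq_lintegral_ofReal hi]
        refine Eventually.of_forall fun p => ?_
        show 0 ≤ pairW c U 1 p
        unfold pairW wgt
        positivity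
    _ ≤ _ := by
        apply ENNReal.ofReal_le_ofReal
        rw [div_one] at hv
        exact hv

lemma meas_q4 (ℓ : ℝ) : Measurable fun p : ℂ × ℂ => ENNReal.ofReal (q4 (ℓ * (p.1.im - p.2.im))) := by
  apply ENNReal.measurable_ofReal.comp
  exact (q4_cont.comp (by fun_prop)).measurable

lemma PB_zero : ∃ C : ℝ, 0 < C ∧ ∀ ℓ : ℝ, 1 ≤ ℓ →
    ∫⁻ p in {p : ℂ × ℂ | p.1.im = 0},
      ENNReal.ofReal (q4 (ℓ * (p.1.im - p.2.im))) ∂(muZ.prod muZ) ≤ ENNReal.ofReal C := by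
  obtain ⟨C0, hC0, hw⟩ := muZ_window
  obtain ⟨C, hC, hLD⟩ := muZ_logDens
  have h2 := hLD.lintegral_le hC.le 0
  set D : ℝ := (3 * C * ∑' n : ℤ, (1 + (n:ℝ)^2)⁻¹ * (1 + 2 * Real.log (|(n:ℝ)| + 2))) *
        Real.log (|(0:ℝ)| + 2) with hD
  have hw0 := hw 0
  refine ⟨(C0 * Real.log (|(0:ℝ)| + 2)) * (|D| + 1), ?_, fun ℓ hℓ => ?_⟩
  · have : 0 < Real.log (|(0:ℝ)| + 2) := Real.log_pos (by simp)
    positivity
  have hset : {p : ℂ × ℂ | p.1.im = 0} = {z : ℂ | z.im = 0} ×ˢ univ := by ext p; simp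
  have hsm : MeasurableSet {z : ℂ | z.im = 0} := Complex.measurable_im (measurableSet_singleton 0)
  rw [hset, ← Measure.prod_restrict, Measure.restrict_univ]
  calc ∫⁻ p, ENNReal.ofReal (q4 (ℓ * (p.1.im - p.2.im))) ∂((muZ.restrict {z : ℂ | z.im = 0}).prod muZ)
      = ∫⁻ z in {z : ℂ | z.im = 0}, ∫⁻ w, ENNReal.ofReal (q4 (ℓ * (z.im - w.im))) ∂muZ ∂muZ :=
        lintegral_prod _ (meas_q4 ℓ).aemeasurable
    _ ≤ ∫⁻ z in {z : ℂ | z.im = 0}, ENNReal.ofReal (|D| + 1) ∂muZ := by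
        apply setLIntegral_mono (by fun_prop)
        intro z hz
        have hz' : z.im = 0 := hz
        calc ∫⁻ w, ENNReal.ofReal (q4 (ℓ * (z.im - w.im))) ∂muZ
            ≤ ∫⁻ w, ENNReal.ofReal ((1 + (w.im - 0) ^ 2)⁻¹) ∂muZ := by
              apply lintegral_mono
              intro w
              apply ENNReal.ofReal_le_ofReal
              unfold q4
              apply inv_anti₀ (by positivity)
              rw [hz', zero_sub, mul_neg, abs_neg, sub_zero, abs_mul, abs_of_pos (by linarith : 0 < ℓ),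
                ← sq_abs w.im]
              have h0 := abs_nonneg w.im
              have h3 : |w.im| ≤ ℓ * |w.im| := by nlinarith
              calc 1 + |w.im| ^ 2 ≤ (1 + |w.im|) ^ 2 := by nlinarith
                _ ≤ (1 + |w.im|) ^ 4 := pow_le_pow_right₀ (by linarith) (by norm_num)
                _ ≤ (1 + ℓ * |w.im|) ^ 4 := pow_le_pow_left₀ (by positivity) (by linarith) 4
          _ ≤ ENNReal.ofReal D := h2
          _ ≤ ENNReal.ofReal (|D| + 1) := ENNReal.ofReal_le_ofReal (by linarith [le_abs_self D])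
    _ = ENNReal.ofReal (|D| + 1) * muZ {z : ℂ | z.im = 0} := by
        rw [setLIntegral_const]
    _ ≤ ENNReal.ofReal (|D| + 1) * ENNReal.ofReal (C0 * Real.log (|(0:ℝ)| + 2)) := by
        gcongr
        refine le_trans (measure_mono ?_) hw0
        intro z hz
        have hz' : z.im = 0 := hz
        show |z.im - 0| ≤ 1
        rw [hz']; simp
    _ = _ := by
        rw [← ENNReal.ofReal_mul (by positivity), mul_comm]

/-- bound for all pairs with first ordinate in `[-U,U]` -/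
lemma PB_abs : ∃ C : ℝ, 0 < C ∧ ∃ U₀ : ℝ, Real.exp 1 ≤ U₀ ∧ ∀ U : ℝ, U₀ ≤ U → ∀ ℓ m : ℝ, 1 ≤ ℓ →
    1 ≤ m → Real.log U ≤ m * ℓ →
    ∫⁻ p in {p : ℂ × ℂ | |p.1.im| ≤ U},
      ENNReal.ofReal (q4 (ℓ * (p.1.im - p.2.im))) ∂(muZ.prod muZ) ≤
      ENNReal.ofReal (C * m ^ 4 * (U * Real.log U)) := by
  obtain ⟨C1, hC1, U₀, hU₀, h1⟩ := PB_pos
  obtain ⟨C2, hC2, h2⟩ := PB_zero
  refine ⟨2 * C1 + C2, by positivity, U₀, hU₀, fun U hU ℓ m hℓ hm hlog => ?_⟩
  have hUe : Real.exp 1 ≤ U := hU₀.trans hU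
  have hU0 : 0 < U := (Real.exp_pos 1).trans_le hUe
  have hU1 : 1 ≤ U := by have := Real.add_one_le_exp 1; linarith
  have hL1 : 1 ≤ Real.log U := by rw [Real.le_log_iff_exp_le hU0]; exact hUe
  have hA : ∫⁻ p in {p : ℂ × ℂ | 0 < p.1.im ∧ p.1.im ≤ U},
      ENNReal.ofReal (q4 (ℓ * (p.1.im - p.2.im))) ∂(muZ.prod muZ) ≤
      ENNReal.ofReal (C1 * m ^ 4 * (U * Real.log U)) := by
    calc ∫⁻ p in {p : ℂ × ℂ | 0 < p.1.im ∧ p.1.im ≤ U},
        ENNReal.ofReal (q4 (ℓ * (p.1.im - p.2.im))) ∂(muZ.prod muZ)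
        ≤ ∫⁻ p in {p : ℂ × ℂ | 0 < p.1.im ∧ p.1.im ≤ U}, ENNReal.ofReal (m ^ 4) *
          ENNReal.ofReal (q4 (Real.log U * (p.1.im - p.2.im))) ∂(muZ.prod muZ) := by
          apply lintegral_mono
          intro p
          beta_reduce
          rw [← ENNReal.ofReal_mul (by positivity)]
          exact ENNReal.ofReal_le_ofReal (q4_scale (by linarith) (by linarith) hm hlog _)
      _ = ENNReal.ofReal (m ^ 4) * ∫⁻ p in {p : ℂ × ℂ | 0 < p.1.im ∧ p.1.im ≤ U},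
          ENNReal.ofReal (q4 (Real.log U * (p.1.im - p.2.im))) ∂(muZ.prod muZ) :=
          lintegral_const_mul _ (meas_q4 _)
      _ ≤ ENNReal.ofReal (m ^ 4) * ENNReal.ofReal (C1 * (U * Real.log U)) := by
          gcongr
          exact h1 U hU
      _ = _ := by rw [← ENNReal.ofReal_mul (by positivity)]; congr 1; ring
  have hm1 : Measurable fun p : ℂ × ℂ => p.1.im := by fun_prop
  have hS1 : MeasurableSet {p : ℂ × ℂ | 0 < p.1.im ∧ p.1.im ≤ U} :=
    (measurableSet_lt measurable_const hm1).inter (measurableSet_le hm1 measurable_const)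
  have hB : ∫⁻ p in {p : ℂ × ℂ | p.1.im < 0 ∧ -U ≤ p.1.im},
      ENNReal.ofReal (q4 (ℓ * (p.1.im - p.2.im))) ∂(muZ.prod muZ) =
      ∫⁻ p in {p : ℂ × ℂ | 0 < p.1.im ∧ p.1.im ≤ U},
      ENNReal.ofReal (q4 (ℓ * (p.1.im - p.2.im))) ∂(muZ.prod muZ) := by
    have h3 := mp_conj2.setLIntegral_comp_preimage hS1 (meas_q4 ℓ)
    rw [← h3]
    have e1 : (Prod.map (fun z : ℂ => conj z) (fun z : ℂ => conj z)) ⁻¹'
        {p : ℂ × ℂ | 0 < p.1.im ∧ p.1.im ≤ U} = {p : ℂ × ℂ | p.1.im < 0 ∧ -U ≤ p.1.im} := by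
      ext p
      simp only [mem_preimage, Prod.map_fst, mem_ofPred_eq, Complex.conj_im]
      constructor
      · rintro ⟨a, b⟩; exact ⟨by linarith, by linarith⟩
      · rintro ⟨a, b⟩; exact ⟨by linarith, by linarith⟩
    rw [e1]
    apply lintegral_congr
    intro p
    simp only [Prod.map_fst, Prod.map_snd, Complex.conj_im]
    congr 1
    rw [show ℓ * (-p.1.im - -p.2.im) = -(ℓ * (p.1.im - p.2.im)) by ring, q4_neg]
  have hsub : {p : ℂ × ℂ | |p.1.im| ≤ U} ⊆ ({p : ℂ × ℂ | 0 < p.1.im ∧ p.1.im ≤ U} ∪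
      {p : ℂ × ℂ | p.1.im < 0 ∧ -U ≤ p.1.im}) ∪ {p : ℂ × ℂ | p.1.im = 0} := by
    intro p hp
    have hp' : |p.1.im| ≤ U := hp
    rw [abs_le] at hp'
    rcases lt_trichotomy p.1.im 0 with h | h | h
    · left; right; exact ⟨h, hp'.1⟩
    · right; exact h
    · left; left; exact ⟨h, hp'.2⟩
  calc ∫⁻ p in {p : ℂ × ℂ | |p.1.im| ≤ U}, ENNReal.ofReal (q4 (ℓ * (p.1.im - p.2.im))) ∂(muZ.prod muZ)
      ≤ ∫⁻ p in ({p : ℂ × ℂ | 0 < p.1.im ∧ p.1.im ≤ U} ∪
      {p : ℂ × ℂ | p.1.im < 0 ∧ -U ≤ p.1.im}) ∪ {p : ℂ × ℂ | p.1.im = 0},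
      ENNReal.ofReal (q4 (ℓ * (p.1.im - p.2.im))) ∂(muZ.prod muZ) := lintegral_mono_set hsub
    _ ≤ ((∫⁻ p in {p : ℂ × ℂ | 0 < p.1.im ∧ p.1.im ≤ U},
      ENNReal.ofReal (q4 (ℓ * (p.1.im - p.2.im))) ∂(muZ.prod muZ)) +
      ∫⁻ p in {p : ℂ × ℂ | p.1.im < 0 ∧ -U ≤ p.1.im},
      ENNReal.ofReal (q4 (ℓ * (p.1.im - p.2.im))) ∂(muZ.prod muZ)) +
      ∫⁻ p in {p : ℂ × ℂ | p.1.im = 0}, ENNReal.ofReal (q4 (ℓ * (p.1.im - p.2.im))) ∂(muZ.prod muZ) := by
        refine (lintegral_union_le _ _ _).trans ?_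
        gcongr
        exact lintegral_union_le _ _ _
    _ ≤ (ENNReal.ofReal (C1 * m ^ 4 * (U * Real.log U)) + ENNReal.ofReal (C1 * m ^ 4 * (U * Real.log U))) +
        ENNReal.ofReal C2 := by
        gcongr
        · rw [hB]; exact hA
        · exact h2 ℓ hℓ
    _ ≤ _ := by
        rw [← ENNReal.ofReal_add (by positivity) (by positivity), ← ENNReal.ofReal_add (by positivity) hC2.le]
        apply ENNReal.ofReal_le_ofReal
        have e1 : 1 ≤ m ^ 4 := one_le_pow₀ hm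
        have e2 : 1 ≤ U * Real.log U := one_le_mul_of_one_le_of_one_le hU1 hL1
        have e3 : 1 ≤ m ^ 4 * (U * Real.log U) := one_le_mul_of_one_le_of_one_le e1 e2
        nlinarith

/-- the smooth weight -/
noncomputable def hw (κ t : ℝ) : ℝ := κ ^ 2 / (1 + (κ * t) ^ 2)

lemma hw_nonneg (κ t : ℝ) : 0 ≤ hw κ t := by unfold hw; positivity

lemma hw_cont (κ : ℝ) : Continuous (hw κ) := by
  unfold hw
  apply Continuous.div (by fun_prop) (by fun_prop)
  intro x; positivity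

lemma Gk_le_hw (κ t : ℝ) : Gk κ t ≤ 5 * hw κ t := by
  unfold hw
  rw [← mul_div_assoc, le_div_iff₀ (by positivity)]
  have h1 := Gk_le κ t
  have h2 := Gk_mul κ t
  have h3 := Real.sin_sq_le_one (κ * t / 2)
  calc Gk κ t * (1 + (κ * t) ^ 2) = Gk κ t + κ ^ 2 * (Gk κ t * t ^ 2) := by ring
    _ = Gk κ t + κ ^ 2 * (4 * Real.sin (κ * t / 2) ^ 2) := by rw [h2]
    _ ≤ κ ^ 2 + κ ^ 2 * (4 * 1) := by gcongr
    _ = _ := by ring

/-- dyadic majorant -/
lemma hw_dyadic {κ : ℝ} (hκ : 0 < κ) (t : ℝ) : ENNReal.ofReal (hw κ t) ≤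
    ∑' j : ℕ, ENNReal.ofReal (4 * κ ^ 2 / 4 ^ j) *
      ({t : ℝ | |t| ≤ 2 ^ j / κ}.indicator (fun _ => (1:ℝ≥0∞)) t) := by
  have hex : ∃ j : ℕ, |t| ≤ 2 ^ j / κ := by
    obtain ⟨j, hj⟩ := pow_unbounded_of_one_lt (|t| * κ) (one_lt_two)
    exact ⟨j, by rw [le_div_iff₀ hκ]; exact hj.le⟩
  classical
  set j := Nat.find hex with hj
  have hj1 : |t| ≤ 2 ^ j / κ := Nat.find_spec hex
  have hle : hw κ t ≤ 4 * κ ^ 2 / 4 ^ j := by
    rcases Nat.eq_zero_or_pos j with h0 | h0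
    · rw [h0, pow_zero, div_one]
      unfold hw
      rw [div_le_iff₀ (by positivity)]
      nlinarith [sq_nonneg κ, sq_nonneg (κ * t), mul_nonneg (sq_nonneg κ) (sq_nonneg (κ * t))]
    · have h1 : ¬ |t| ≤ 2 ^ (j - 1) / κ := Nat.find_min hex (by omega)
      rw [not_le, div_lt_iff₀ hκ] at h1
      have h2 : (2:ℝ) ^ j = 2 * 2 ^ (j - 1) := by
        rw [← pow_succ']; congr 1; omega
      have h3 : (4:ℝ) ^ j = (2 ^ j) ^ 2 := by
        rw [← pow_mul, mul_comm, pow_mul]; norm_num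
      unfold hw
      rw [div_le_div_iff₀ (by positivity) (by positivity), h3, h2]
      have h4 : (2 ^ (j - 1) : ℝ) ^ 2 ≤ (κ * t) ^ 2 := by
        rw [← sq_abs (κ * t), abs_mul, abs_of_pos hκ]
        apply pow_le_pow_left₀ (by positivity)
        linarith
      nlinarith [sq_nonneg κ, mul_le_mul_of_nonneg_left h4 (sq_nonneg κ)]
  calc ENNReal.ofReal (hw κ t) ≤ ENNReal.ofReal (4 * κ ^ 2 / 4 ^ j) *
      ({t : ℝ | |t| ≤ 2 ^ j / κ}.indicator (fun _ => (1:ℝ≥0∞)) t) := by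
        rw [indicator_of_mem (show t ∈ {t : ℝ | |t| ≤ 2 ^ j / κ} from hj1), mul_one]
        exact ENNReal.ofReal_le_ofReal hle
    _ ≤ _ := ENNReal.le_tsum j

/-- the weighted pair bound -/
theorem PBw : ∃ C : ℝ, 0 < C ∧ ∃ κ₀ : ℝ, 0 < κ₀ ∧ ∀ κ : ℝ, 0 < κ → κ ≤ κ₀ → ∀ ℓ : ℝ, 1 ≤ ℓ →
    Real.log (1 / κ) ≤ 2 * ℓ →
    ∫⁻ p : ℂ × ℂ, ENNReal.ofReal (hw κ p.1.im * q4 (ℓ * (p.1.im - p.2.im))) ∂(muZ.prod muZ) ≤
      ENNReal.ofReal (C * (κ * ℓ)) := by
  obtain ⟨C, hC, U₀, hU₀, h⟩ := PB_abs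
  have hU0 : 0 < U₀ := (Real.exp_pos 1).trans_le hU₀
  have hsum : Summable (fun j : ℕ => ((j:ℝ) + 2) ^ 5 / 2 ^ j) := by
    have h1 : Summable (fun j : ℕ => ((j:ℝ)) ^ 5 * (1/2 : ℝ) ^ j) :=
      summable_pow_mul_geometric_of_norm_lt_one 5 (by norm_num)
    have h2 := ((summable_nat_add_iff 2).2 h1).mul_left 4
    refine h2.congr fun j => ?_
    push_cast
    rw [pow_add, one_div, inv_pow, div_eq_mul_inv]
    ring
  set S : ℝ := ∑' j : ℕ, ((j:ℝ) + 2) ^ 5 / 2 ^ j with hS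
  have hS0 : 0 ≤ S := tsum_nonneg fun j => by positivity
  refine ⟨4 * C * S + 1, by positivity, 1 / U₀, by positivity, fun κ hκ hκ0 ℓ hℓ hlog => ?_⟩
  have hκU : U₀ ≤ 1 / κ := by
    rw [le_div_iff₀ hκ]
    rw [le_div_iff₀ hU0] at hκ0
    linarith
  have hj : ∀ j : ℕ, ∫⁻ p in {p : ℂ × ℂ | |p.1.im| ≤ 2 ^ j / κ},
      ENNReal.ofReal (q4 (ℓ * (p.1.im - p.2.im))) ∂(muZ.prod muZ) ≤
      ENNReal.ofReal (C * (j + 2) ^ 4 * ((2 ^ j / κ) * ((j + 2) * ℓ))) := by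
    intro j
    have e1 : (1:ℝ) ≤ 2 ^ j := one_le_pow₀ (by norm_num)
    have hU : U₀ ≤ 2 ^ j / κ := by
      refine hκU.trans ?_
      gcongr
    have hUe : Real.exp 1 ≤ 2 ^ j / κ := hU₀.trans hU
    have hp : 0 < 2 ^ j / κ := by positivity
    have e2 : Real.log (2 ^ j / κ) ≤ (j + 2) * ℓ := by
      have : (2:ℝ) ^ j / κ = 2 ^ j * (1 / κ) := by ring
      rw [this, Real.log_mul (by positivity) (by positivity), Real.log_pow]
      have h2 : Real.log 2 ≤ 1 := by have := Real.log_two_lt_d9; linarith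
      have h3 : (j:ℝ) * Real.log 2 ≤ j * 1 := by gcongr
      have h4 : (j:ℝ) * 1 ≤ j * ℓ := by gcongr
      nlinarith
    refine (h (2 ^ j / κ) hU ℓ (j + 2) hℓ (by have : (0:ℝ) ≤ j := Nat.cast_nonneg j; linarith) e2).trans ?_
    apply ENNReal.ofReal_le_ofReal
    gcongr
  have hmeas : ∀ j : ℕ, Measurable fun p : ℂ × ℂ => ENNReal.ofReal (4 * κ ^ 2 / 4 ^ j) *
      ({p : ℂ × ℂ | |p.1.im| ≤ 2 ^ j / κ}.indicator
        (fun p => ENNReal.ofReal (q4 (ℓ * (p.1.im - p.2.im)))) p) := by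
    intro j
    apply Measurable.const_mul
    exact (meas_q4 ℓ).indicator (measurableSet_le (by fun_prop) measurable_const)
  calc ∫⁻ p : ℂ × ℂ, ENNReal.ofReal (hw κ p.1.im * q4 (ℓ * (p.1.im - p.2.im))) ∂(muZ.prod muZ)
      ≤ ∫⁻ p : ℂ × ℂ, ∑' j : ℕ, ENNReal.ofReal (4 * κ ^ 2 / 4 ^ j) *
      ({p : ℂ × ℂ | |p.1.im| ≤ 2 ^ j / κ}.indicator
        (fun p => ENNReal.ofReal (q4 (ℓ * (p.1.im - p.2.im)))) p) ∂(muZ.prod muZ) := by
        apply lintegral_mono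
        intro p
        beta_reduce
        rw [ENNReal.ofReal_mul (hw_nonneg _ _)]
        calc ENNReal.ofReal (hw κ p.1.im) * ENNReal.ofReal (q4 (ℓ * (p.1.im - p.2.im)))
            ≤ (∑' j : ℕ, ENNReal.ofReal (4 * κ ^ 2 / 4 ^ j) *
            ({t : ℝ | |t| ≤ 2 ^ j / κ}.indicator (fun _ => (1:ℝ≥0∞)) p.1.im)) *
              ENNReal.ofReal (q4 (ℓ * (p.1.im - p.2.im))) := by
              gcongr
              exact hw_dyadic hκ _
          _ = _ := by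
              rw [← ENNReal.tsum_mul_right]
              apply tsum_congr
              intro j
              by_cases hp : |p.1.im| ≤ 2 ^ j / κ
              · rw [indicator_of_mem (show p.1.im ∈ {t : ℝ | |t| ≤ 2 ^ j / κ} from hp),
                  indicator_of_mem (show p ∈ {p : ℂ × ℂ | |p.1.im| ≤ 2 ^ j / κ} from hp), mul_one]
              · rw [indicator_of_notMem (show p.1.im ∉ {t : ℝ | |t| ≤ 2 ^ j / κ} from hp),
                  indicator_of_notMem (show p ∉ {p : ℂ × ℂ | |p.1.im| ≤ 2 ^ j / κ} from hp)]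
                simp
    _ = ∑' j : ℕ, ENNReal.ofReal (4 * κ ^ 2 / 4 ^ j) * ∫⁻ p in {p : ℂ × ℂ | |p.1.im| ≤ 2 ^ j / κ},
      ENNReal.ofReal (q4 (ℓ * (p.1.im - p.2.im))) ∂(muZ.prod muZ) := by
        rw [lintegral_tsum (fun j => (hmeas j).aemeasurable)]
        apply tsum_congr
        intro j
        rw [lintegral_const_mul _ ((meas_q4 ℓ).indicator (measurableSet_le (by fun_prop) measurable_const)),
          lintegral_indicator (measurableSet_le (by fun_prop) measurable_const)]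
    _ ≤ ∑' j : ℕ, ENNReal.ofReal ((4 * C * (κ * ℓ)) * (((j:ℝ) + 2) ^ 5 / 2 ^ j)) := by
        apply ENNReal.tsum_le_tsum
        intro j
        calc ENNReal.ofReal (4 * κ ^ 2 / 4 ^ j) * ∫⁻ p in {p : ℂ × ℂ | |p.1.im| ≤ 2 ^ j / κ},
            ENNReal.ofReal (q4 (ℓ * (p.1.im - p.2.im))) ∂(muZ.prod muZ)
            ≤ ENNReal.ofReal (4 * κ ^ 2 / 4 ^ j) *
              ENNReal.ofReal (C * (j + 2) ^ 4 * ((2 ^ j / κ) * ((j + 2) * ℓ))) := by
              gcongr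
              exact hj j
          _ = _ := by
              rw [← ENNReal.ofReal_mul (by positivity)]
              congr 1
              have h3 : (4:ℝ) ^ j = 2 ^ j * 2 ^ j := by
                rw [← mul_pow]; norm_num
              rw [h3]
              field_simp
    _ = ENNReal.ofReal ((4 * C * (κ * ℓ)) * S) := by
        rw [hS, ← tsum_mul_left, ENNReal.ofReal_tsum_of_nonneg (fun j => by positivity)
          (hsum.mul_left _)]
    _ ≤ _ := by
        apply ENNReal.ofReal_le_ofReal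
        have : 0 ≤ κ * ℓ := by positivity
        nlinarith

end Pool.Agent.PairCorr.P6
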