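import Mathlib
import Pool.Agent.PairCorr.P6_PB

set_option autoImplicit false

namespace Pool.Agent.PairCorr.P6

open MeasureTheory Filter Topology Set Real
open scoped ENNReal ComplexConjugate
open Pool.Agent.PairCorr.P1 (q4 q4_pos)

variable {ψ k k' : ℝ → ℝ} {b e : ℝ}

lemma hq_meas (κ ℓ : ℝ) : Continuous fun p : ℂ × ℂ => hw κ p.1.im * q4 (ℓ * (p.1.im - p.2.im)) := by
  have h1 := hw_cont κ
  have h2 := q4_cont
  apply Continuous.mul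
  · exact h1.comp (by fun_prop)
  · exact h2.comp (by fun_prop)

/-- the real form of the weighted pair bound -/
theorem PBr : ∃ C : ℝ, 0 < C ∧ ∃ κ₀ : ℝ, 0 < κ₀ ∧ ∀ κ : ℝ, 0 < κ → κ ≤ κ₀ → ∀ ℓ : ℝ, 1 ≤ ℓ →
    Real.log (1 / κ) ≤ 2 * ℓ →
    Integrable (fun p : ℂ × ℂ => hw κ p.1.im * q4 (ℓ * (p.1.im - p.2.im))) (muZ.prod muZ) ∧
    ∫ p : ℂ × ℂ, hw κ p.1.im * q4 (ℓ * (p.1.im - p.2.im)) ∂(muZ.prod muZ) ≤ C * (κ * ℓ) := by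
  obtain ⟨C, hC, κ₀, hκ₀, h⟩ := PBw
  refine ⟨C, hC, κ₀, hκ₀, fun κ hκ hκ0 ℓ hℓ hlog => ?_⟩
  have h1 := h κ hκ hκ0 ℓ hℓ hlog
  have hnn : ∀ p : ℂ × ℂ, 0 ≤ hw κ p.1.im * q4 (ℓ * (p.1.im - p.2.im)) := fun p =>
    mul_nonneg (hw_nonneg _ _) (q4_pos _).le
  have hi : Integrable (fun p : ℂ × ℂ => hw κ p.1.im * q4 (ℓ * (p.1.im - p.2.im))) (muZ.prod muZ) := by
    refine ⟨(hq_meas κ ℓ).aestronglyMeasurable, ?_⟩
    rw [hasFiniteIntegral_iff_ofReal (Eventually.of_forall hnn)]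
    exact h1.trans_lt ENNReal.ofReal_lt_top
  refine ⟨hi, ?_⟩
  rw [← ENNReal.ofReal_le_ofReal_iff (by positivity),
    ofReal_integral_eq_lintegral_ofReal hi (Eventually.of_forall hnn)]
  exact h1

/-- pair integrals against rapidly decreasing kernels -/
theorem pair_bound : ∃ C : ℝ, 0 < C ∧ ∃ κ₀ : ℝ, 0 < κ₀ ∧ ∀ κ : ℝ, 0 < κ → κ ≤ κ₀ → ∀ ℓ : ℝ, 1 ≤ ℓ →
    Real.log (1 / κ) ≤ 2 * ℓ → ∀ (F : ℂ × ℂ → ℝ) (M : ℝ), AEStronglyMeasurable F (muZ.prod muZ) →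
    0 ≤ M → (∀ p : ℂ × ℂ, |F p| ≤ M * (hw κ p.1.im * q4 (ℓ * (p.1.im - p.2.im)))) →
    Integrable F (muZ.prod muZ) ∧ |∫ p, F p ∂(muZ.prod muZ)| ≤ C * M * (κ * ℓ) := by
  obtain ⟨C, hC, κ₀, hκ₀, h⟩ := PBr
  refine ⟨C, hC, κ₀, hκ₀, fun κ hκ hκ0 ℓ hℓ hlog F M hF hM hb => ?_⟩
  obtain ⟨h1, h2⟩ := h κ hκ hκ0 ℓ hℓ hlog
  have hi : Integrable F (muZ.prod muZ) :=
    Integrable.mono' (h1.const_mul M) hF (Eventually.of_forall hb)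
  refine ⟨hi, (abs_integral_le_integral_abs).trans ?_⟩
  calc ∫ p, |F p| ∂(muZ.prod muZ) ≤ ∫ p, M * (hw κ p.1.im * q4 (ℓ * (p.1.im - p.2.im))) ∂(muZ.prod muZ) :=
        integral_mono hi.abs (h1.const_mul M) hb
    _ = M * ∫ p, (hw κ p.1.im * q4 (ℓ * (p.1.im - p.2.im))) ∂(muZ.prod muZ) := integral_const_mul _ _
    _ ≤ M * (C * (κ * ℓ)) := by gcongr
    _ = _ := by ring

lemma PFi_meas (hk : TF k b) (κ ℓ : ℝ) :
    Continuous fun p : ℂ × ℂ => Gk κ p.1.im * rr k (ℓ * (p.1.im - p.2.im)) := by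
  have h1 := Gk_cont κ
  have h2 := rr_cont hk
  apply Continuous.mul
  · exact h1.comp (by fun_prop)
  · exact h2.comp (by fun_prop)

lemma rr_q4 (hk : TF k b) : ∃ C : ℝ, 0 ≤ C ∧ ∀ y : ℝ, |rr k y| ≤ C * q4 y := rr_decay hk 4

/-- integrability and bound of the pair sum -/
theorem PF_bound (hk : TF k b) : ∃ C : ℝ, 0 ≤ C ∧ ∃ κ₀ : ℝ, 0 < κ₀ ∧ ∀ κ : ℝ, 0 < κ → κ ≤ κ₀ → ∀ ℓ : ℝ, 1 ≤ ℓ →
    Real.log (1 / κ) ≤ 2 * ℓ →
    Integrable (fun p : ℂ × ℂ => Gk κ p.1.im * rr k (ℓ * (p.1.im - p.2.im))) (muZ.prod muZ) ∧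
    |PF κ ℓ k| ≤ C * (κ * ℓ) := by
  obtain ⟨C, hC, κ₀, hκ₀, h⟩ := pair_bound
  obtain ⟨C1, hC1, h1⟩ := rr_q4 hk
  refine ⟨C * (5 * C1), by positivity, κ₀, hκ₀, fun κ hκ hκ0 ℓ hℓ hlog => ?_⟩
  refine h κ hκ hκ0 ℓ hℓ hlog _ (5 * C1) (PFi_meas hk κ ℓ).aestronglyMeasurable (by positivity) ?_
  intro p
  rw [abs_mul, abs_of_nonneg (Gk_nonneg _ _)]
  have := q4_pos (ℓ * (p.1.im - p.2.im))
  have := hw_nonneg κ p.1.im
  calc Gk κ p.1.im * |rr k (ℓ * (p.1.im - p.2.im))| ≤ (5 * hw κ p.1.im) * (C1 * q4 (ℓ * (p.1.im - p.2.im))) := by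
        apply mul_le_mul (Gk_le_hw _ _) (h1 _) (abs_nonneg _) (by positivity)
    _ = _ := by ring

lemma rr_hasDeriv (hk : TF k b) (y : ℝ) :
    HasDerivAt (rr k) (Complex.I * Kc (fun v => v * k v) (y * Complex.I)).re y := by
  have h1 : HasDerivAt (fun y : ℝ => Kc k (y * Complex.I))
      (Kc (fun v => v * k v) (y * Complex.I) * Complex.I) y := by
    have h2 : HasDerivAt (fun y : ℝ => (y : ℂ) * Complex.I) Complex.I y := by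
      simpa using (Complex.ofRealCLM.hasDerivAt (x := y)).mul_const Complex.I
    exact (hk.hasDerivAt_Kc _).comp y h2
  have h3 := (Complex.reCLM.hasFDerivAt.comp_hasDerivAt y h1)
  refine h3.congr_deriv ?_
  simp [mul_comm]

lemma rr_lip (hk : TF k b) : ∃ C : ℝ, 0 ≤ C ∧ ∀ ℓ₁ ℓ₂ m : ℝ, 0 < m → m ≤ ℓ₁ → m ≤ ℓ₂ → ∀ y : ℝ,
    |rr k (ℓ₁ * y) - rr k (ℓ₂ * y)| ≤ C * (|ℓ₁ - ℓ₂| / m * q4 (m * y)) := by
  obtain ⟨C, hC, h1⟩ := line_decay hk.mul_id 5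
  refine ⟨C, hC, fun ℓ₁ ℓ₂ m hm h₁ h₂ y => ?_⟩
  have hder : ∀ s ∈ uIcc ℓ₂ ℓ₁, HasDerivWithinAt (fun s : ℝ => rr k (s * y))
      ((Complex.I * Kc (fun v => v * k v) ((s * y : ℝ) * Complex.I)).re * y) (uIcc ℓ₂ ℓ₁) s := by
    intro s _
    have h2 : HasDerivAt (fun s : ℝ => s * y) y s := by
      simpa using (hasDerivAt_id' s).mul_const y
    exact ((rr_hasDeriv hk (s * y)).comp s h2).hasDerivWithinAt
  have hb : ∀ s ∈ uIcc ℓ₂ ℓ₁, ‖(Complex.I * Kc (fun v => v * k v) ((s * y : ℝ) * Complex.I)).re * y‖ ≤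
      C * (1 / m * q4 (m * y)) := by
    intro s hs
    have hms : m ≤ s := by
      rcases mem_uIcc.1 hs with h | h <;> linarith [h.1, h.2]
    have hs0 : 0 < s := by linarith
    rw [norm_mul, Real.norm_eq_abs, Real.norm_eq_abs]
    have h3 : |(Complex.I * Kc (fun v => v * k v) ((s * y : ℝ) * Complex.I)).re| ≤
        C * ((1 + |s * y|) ^ 5)⁻¹ := by
      refine (Complex.abs_re_le_norm _).trans ?_
      rw [norm_mul, Complex.norm_I, one_mul]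
      exact h1 _
    have h4 : |y| = |s * y| / s := by
      rw [abs_mul, abs_of_pos hs0]; field_simp
    have hx := abs_nonneg (s * y)
    calc |(Complex.I * Kc (fun v => v * k v) ((s * y : ℝ) * Complex.I)).re| * |y|
        ≤ (C * ((1 + |s * y|) ^ 5)⁻¹) * (|s * y| / s) := by
          rw [← h4]; gcongr
      _ ≤ (C * ((1 + |s * y|) ^ 5)⁻¹) * ((1 + |s * y|) / s) := by
          gcongr
          linarith
      _ = C * (1 / s * ((1 + |s * y|) ^ 4)⁻¹) := by field_simp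
      _ ≤ C * (1 / m * q4 (m * y)) := by
          unfold q4
          have h5 : |m * y| ≤ |s * y| := by
            rw [abs_mul, abs_mul, abs_of_pos hs0, abs_of_pos hm]
            gcongr
          have := abs_nonneg (m * y)
          gcongr
  have := (convex_uIcc ℓ₂ ℓ₁).norm_image_sub_le_of_norm_hasDerivWithin_le hder hb left_mem_uIcc
    right_mem_uIcc
  rw [Real.norm_eq_abs, Real.norm_eq_abs] at this
  refine this.trans (le_of_eq ?_)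
  ring

/-- change of scale in the pair sum -/
theorem PF_scale (hk : TF k b) : ∃ C : ℝ, 0 ≤ C ∧ ∃ κ₀ : ℝ, 0 < κ₀ ∧ ∀ κ : ℝ, 0 < κ → κ ≤ κ₀ →
    ∀ ℓ₁ ℓ₂ : ℝ, 1 ≤ ℓ₁ → 1 ≤ ℓ₂ → Real.log (1 / κ) ≤ 2 * ℓ₁ → Real.log (1 / κ) ≤ 2 * ℓ₂ →
    |PF κ ℓ₁ k - PF κ ℓ₂ k| ≤ C * (κ * |ℓ₁ - ℓ₂|) := by
  obtain ⟨C, hC, κ₀, hκ₀, h⟩ := pair_bound
  obtain ⟨C1, hC1, κ₁, hκ₁, h1⟩ := PF_bound hk
  obtain ⟨C2, hC2, h2⟩ := rr_lip hk
  refine ⟨C * (5 * C2), by positivity, min κ₀ κ₁, lt_min hκ₀ hκ₁, fun κ hκ hκ0 ℓ₁ ℓ₂ g1 g2 g3 g4 => ?_⟩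
  set m := min ℓ₁ ℓ₂ with hm
  have hm1 : 1 ≤ m := le_min g1 g2
  have hm0 : 0 < m := by linarith
  have hlog : Real.log (1 / κ) ≤ 2 * m := by
    rcases min_choice ℓ₁ ℓ₂ with h' | h' <;> rw [hm, h'] <;> assumption
  have i1 := (h1 κ hκ (hκ0.trans (min_le_right _ _)) ℓ₁ g1 g3).1
  have i2 := (h1 κ hκ (hκ0.trans (min_le_right _ _)) ℓ₂ g2 g4).1
  unfold PF
  rw [← integral_sub i1 i2]
  have h3 := (h κ hκ (hκ0.trans (min_le_left _ _)) m hm1 hlog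
    (fun p : ℂ × ℂ => Gk κ p.1.im * rr k (ℓ₁ * (p.1.im - p.2.im)) -
      Gk κ p.1.im * rr k (ℓ₂ * (p.1.im - p.2.im))) (5 * C2 * (|ℓ₁ - ℓ₂| / m))
    (i1.aestronglyMeasurable.sub i2.aestronglyMeasurable) (by positivity) ?_).2
  · refine h3.trans (le_of_eq ?_)
    field_simp
  · intro p
    rw [← mul_sub, abs_mul, abs_of_nonneg (Gk_nonneg _ _)]
    have := q4_pos (m * (p.1.im - p.2.im))
    have := hw_nonneg κ p.1.im
    calc Gk κ p.1.im * |rr k (ℓ₁ * (p.1.im - p.2.im)) - rr k (ℓ₂ * (p.1.im - p.2.im))|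
        ≤ (5 * hw κ p.1.im) * (C2 * (|ℓ₁ - ℓ₂| / m * q4 (m * (p.1.im - p.2.im)))) := by
          apply mul_le_mul (Gk_le_hw _ _) (h2 ℓ₁ ℓ₂ m hm0 (min_le_left _ _) (min_le_right _ _) _)
            (abs_nonneg _) (by positivity)
      _ = _ := by ring

/-! ### linearity -/

lemma Kc_add (h : TF k b) (h' : TF k' b) (w : ℂ) : Kc (fun v => k v + k' v) w = Kc k w + Kc k' w := by
  unfold Kc
  rw [← integral_add (h.integrable_exp w) (h'.integrable_exp w)]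
  congr 1; ext v; push_cast; ring

lemma Kc_smul (c : ℝ) (k : ℝ → ℝ) (w : ℂ) : Kc (fun v => c * k v) w = c * Kc k w := by
  unfold Kc
  rw [← integral_const_mul]
  congr 1; ext v; push_cast; ring

lemma rr_add (h : TF k b) (h' : TF k' b) (y : ℝ) : rr (fun v => k v + k' v) y = rr k y + rr k' y := by
  unfold rr; rw [Kc_add h h', Complex.add_re]

lemma rr_smul (c : ℝ) (k : ℝ → ℝ) (y : ℝ) : rr (fun v => c * k v) y = c * rr k y := by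
  unfold rr; rw [Kc_smul, Complex.re_ofReal_mul]

lemma rr_reflect (k : ℝ → ℝ) (y : ℝ) : rr (fun v => k (-v)) y = rr k y := by
  unfold rr
  rw [← Kc_conj_line', Complex.conj_re]

lemma rr_neg (k : ℝ → ℝ) (y : ℝ) : rr k (-y) = rr k y := by
  unfold rr
  rw [← Kc_conj_line, Complex.conj_re]

lemma PF_add (h : TF k b) (h' : TF k' b) : ∃ κ₀ : ℝ, 0 < κ₀ ∧ ∀ κ : ℝ, 0 < κ → κ ≤ κ₀ → ∀ ℓ : ℝ, 1 ≤ ℓ →
    Real.log (1 / κ) ≤ 2 * ℓ → PF κ ℓ (fun v => k v + k' v) = PF κ ℓ k + PF κ ℓ k' := by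
  obtain ⟨C1, hC1, κ₁, hκ₁, h1⟩ := PF_bound h
  obtain ⟨C2, hC2, κ₂, hκ₂, h2⟩ := PF_bound h'
  refine ⟨min κ₁ κ₂, lt_min hκ₁ hκ₂, fun κ hκ hκ0 ℓ hℓ hlog => ?_⟩
  have i1 := (h1 κ hκ (hκ0.trans (min_le_left _ _)) ℓ hℓ hlog).1
  have i2 := (h2 κ hκ (hκ0.trans (min_le_right _ _)) ℓ hℓ hlog).1
  unfold PF
  rw [← integral_add i1 i2]
  congr 1; ext p
  rw [rr_add h h']; ring

lemma PF_smul (c κ ℓ : ℝ) (k : ℝ → ℝ) : PF κ ℓ (fun v => c * k v) = c * PF κ ℓ k := by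
  unfold PF
  rw [← integral_const_mul]
  congr 1; ext p
  rw [rr_smul]; ring

lemma PF_reflect (κ ℓ : ℝ) (k : ℝ → ℝ) : PF κ ℓ (fun v => k (-v)) = PF κ ℓ k := by
  unfold PF
  simp_rw [rr_reflect]

end Pool.Agent.PairCorr.P6
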