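import Mathlib
import Pool.Agent.PairCorr.P6_Tools

set_option autoImplicit false

namespace Pool.Agent.PairCorr.P6

open MeasureTheory Filter Topology Set Real
open scoped ENNReal ComplexConjugate

variable {ψ k k' : ℝ → ℝ} {b e : ℝ}

/-! ### the step `log (1 + 1/T)` -/

lemma kap_pos {T : ℝ} (hT : 0 < T) : 0 < kap T := by
  unfold kap
  apply Real.log_pos
  have : 0 < 1 / T := by positivity
  linarith

lemma kap_le {T : ℝ} (hT : 0 < T) : kap T ≤ 1 / T := by
  unfold kap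
  have h := Real.log_le_sub_one_of_pos (x := 1 + 1 / T) (by positivity)
  linarith

lemma kap_ge {T : ℝ} (hT : 0 < T) : 1 / (T + 1) ≤ kap T := by
  unfold kap
  have h := Real.one_sub_inv_le_log_of_pos (x := 1 + 1 / T) (by positivity)
  refine le_trans (le_of_eq ?_) h
  field_simp
  ring

lemma exp_kap {T : ℝ} (hT : 0 < T) : Real.exp (kap T) = 1 + 1 / T := by
  unfold kap
  rw [Real.exp_log (by positivity)]

lemma T_kap : Tendsto (fun T => T * kap T) atTop (𝓝 1) := by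
  have h1 : Tendsto (fun T : ℝ => T / (T + 1)) atTop (𝓝 1) := by
    have h2 : Tendsto (fun T : ℝ => 1 - (T + 1)⁻¹) atTop (𝓝 (1 - 0)) :=
      tendsto_const_nhds.sub (tendsto_inv_atTop_zero.comp (tendsto_atTop_add_const_right _ 1 tendsto_id))
    rw [sub_zero] at h2
    refine h2.congr' ?_
    filter_upwards [eventually_gt_atTop 0] with T hT
    field_simp
    ring
  refine tendsto_of_tendsto_of_tendsto_of_le_of_le' h1 tendsto_const_nhds ?_ ?_
  · filter_upwards [eventually_gt_atTop 0] with T hT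
    have := kap_ge hT
    calc T / (T + 1) = T * (1 / (T + 1)) := by ring
      _ ≤ _ := by gcongr
  · filter_upwards [eventually_gt_atTop 0] with T hT
    have := kap_le hT
    calc T * kap T ≤ T * (1 / T) := by gcongr
      _ = 1 := by field_simp

/-- `κ(T)` is of the order `1/T` -/
def Near (κ : ℝ → ℝ) : Prop := ∃ c C : ℝ, 0 < c ∧ ∀ᶠ T : ℝ in atTop, c / T ≤ κ T ∧ κ T ≤ C / T

lemma near_kap : Near kap := by
  refine ⟨1/2, 1, by norm_num, ?_⟩
  filter_upwards [eventually_ge_atTop 1] with T hT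
  have hT0 : 0 < T := by linarith
  refine ⟨?_, kap_le hT0⟩
  refine le_trans ?_ (kap_ge hT0)
  rw [div_le_div_iff₀ (by positivity) (by positivity)]
  linarith

lemma near_const {c : ℝ} (hc : 0 < c) : Near (fun T => c / T) :=
  ⟨c, c, hc, Eventually.of_forall fun T => ⟨le_rfl, le_rfl⟩⟩

lemma near_mul_kap {c : ℝ} (hc : 0 < c) : Near (fun T => c * kap T) := by
  obtain ⟨c', C', hc', h⟩ := near_kap
  refine ⟨c * c', c * C', by positivity, ?_⟩
  filter_upwards [h] with T hT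
  constructor
  · calc c * c' / T = c * (c' / T) := by ring
      _ ≤ _ := by gcongr; exact hT.1
  · calc c * kap T ≤ c * (C' / T) := by gcongr; exact hT.2
      _ = _ := by ring

lemma Near.ev {κ : ℝ → ℝ} (h : Near κ) {κ₀ : ℝ} (hκ₀ : 0 < κ₀) : ∀ᶠ T : ℝ in atTop,
    0 < κ T ∧ κ T ≤ κ₀ ∧ Real.log (1 / κ T) ≤ 2 * Real.log T := by
  obtain ⟨c, C, hc, h⟩ := h
  have h1 : Tendsto (fun T : ℝ => C / T) atTop (𝓝 0) := tendsto_const_nhds.div_atTop tendsto_id
  filter_upwards [h, h1.eventually_le_const hκ₀, eventually_ge_atTop (1/c), eventually_gt_atTop 0]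
    with T hT h2 h3 h4
  have hpos : 0 < κ T := (by positivity : 0 < c / T).trans_le hT.1
  refine ⟨hpos, hT.2.trans h2, ?_⟩
  have h5 : 1 / κ T ≤ T ^ 2 := by
    rw [div_le_iff₀ hpos]
    have h6 : T ^ 2 * (c / T) ≤ T ^ 2 * κ T := by gcongr; exact hT.1
    have h7 : T ^ 2 * (c / T) = T * c := by field_simp
    rw [div_le_iff₀ hc] at h3
    linarith
  calc Real.log (1 / κ T) ≤ Real.log (T ^ 2) := Real.log_le_log (by positivity) h5
    _ = 2 * Real.log T := by rw [Real.log_pow]; norm_num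

lemma log_ev (M : ℝ) : ∀ᶠ T : ℝ in atTop, M ≤ Real.log T := Real.tendsto_log_atTop.eventually_ge_atTop M

/-! ### passing from squares to all test functions -/

lemma sqrt_kap_small : Tendsto (fun T : ℝ => T * (kap T ^ (3/2 : ℝ) + kap T / Real.log T)) atTop (𝓝 0) := by
  have h1 : Tendsto (fun T : ℝ => (1 / T) ^ (1/2 : ℝ) + 1 / Real.log T) atTop (𝓝 (0 + 0)) := by
    apply Tendsto.add
    · have h2 : Tendsto (fun T : ℝ => 1 / T) atTop (𝓝 0) := tendsto_const_nhds.div_atTop tendsto_id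
      have := h2.rpow_const (p := 1/2) (Or.inr (by norm_num))
      rwa [Real.zero_rpow (by norm_num)] at this
    · exact tendsto_const_nhds.div_atTop Real.tendsto_log_atTop
  rw [add_zero] at h1
  refine squeeze_zero' ?_ ?_ h1
  · filter_upwards [eventually_ge_atTop 1, log_ev 1] with T hT hL
    have h2 := kap_pos (by linarith : 0 < T)
    have := Real.rpow_nonneg h2.le (3/2)
    positivity
  · filter_upwards [eventually_ge_atTop 1, log_ev 1] with T hT hL
    have hT0 : 0 < T := by linarith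
    have h2 := kap_pos hT0
    have h3 := kap_le hT0
    have h4 : T * kap T ≤ 1 := by
      calc T * kap T ≤ T * (1 / T) := by gcongr
        _ = 1 := by field_simp
    have h5 : kap T ^ (3/2 : ℝ) = kap T * kap T ^ (1/2 : ℝ) := by
      have : kap T ^ (3/2 : ℝ) = kap T ^ (1 + 1/2 : ℝ) := by norm_num
      rw [this, Real.rpow_add h2, Real.rpow_one]
    have h6 : kap T ^ (1/2 : ℝ) ≤ (1 / T) ^ (1/2 : ℝ) := Real.rpow_le_rpow h2.le h3 (by norm_num)
    have h7 := Real.rpow_nonneg h2.le (1/2)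
    calc T * (kap T ^ (3/2 : ℝ) + kap T / Real.log T)
        = (T * kap T) * kap T ^ (1/2 : ℝ) + (T * kap T) / Real.log T := by rw [h5]; ring
      _ ≤ 1 * (1 / T) ^ (1/2 : ℝ) + 1 / Real.log T := by gcongr
      _ = _ := by ring

/-- **(V)**: the weighted window integrals and the pair sums have the same asymptotics. -/
theorem V_lim (hR : RHz) (hk : TF k b) (he : 0 < e) (heb : e ≤ b) (hpos : ∀ v, v < e → k v = 0) :
    Tendsto (fun T : ℝ => T / Real.log T ^ 2 * Vf (kap T) (Real.log T) k -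
      T / Real.log T * PF (kap T) (Real.log T) k) atTop (𝓝 0) := by
  obtain ⟨χ, hχ, hχ0, -, -, hχ1⟩ := exists_cut he heb
  have hk' : TF k (b + 3) := hk.mono (by linarith)
  set ψ1 : ℝ → ℝ := fun v => (1/2) * (χ v + k v) with hψ1
  set ψ2 : ℝ → ℝ := fun v => (1/2) * (χ v - k v) with hψ2
  have t1 : TF ψ1 (b + 3) := by
    refine ⟨contDiff_const.mul (hχ.smooth.add hk'.smooth), fun v hv => ?_⟩
    simp [hψ1, hχ.supp v hv, hk'.supp v hv]
  have t2 : TF ψ2 (b + 3) := by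
    refine ⟨contDiff_const.mul (hχ.smooth.sub hk'.smooth), fun v hv => ?_⟩
    simp [hψ2, hχ.supp v hv, hk'.supp v hv]
  have p1 : ∀ v, v < e / 2 → ψ1 v = 0 := by
    intro v hv; simp [hψ1, hχ0 v hv, hpos v (by linarith)]
  have p2 : ∀ v, v < e / 2 → ψ2 v = 0 := by
    intro v hv; simp [hψ2, hχ0 v hv, hpos v (by linarith)]
  have hkeq : ∀ v, k v = ψ1 v ^ 2 - ψ2 v ^ 2 := by
    intro v
    have h1 : ψ1 v ^ 2 - ψ2 v ^ 2 = χ v * k v := by simp only [hψ1, hψ2]; ring
    rw [h1]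
    by_cases hv1 : v < e
    · rw [hpos v hv1, mul_zero]
    · by_cases hv2 : v ≤ b
      · rw [hχ1 v (by linarith) (by linarith), one_mul]
      · rw [hk.supp v (lt_of_lt_of_le (not_le.1 hv2) (le_abs_self v)), mul_zero]
  have s1 : TF (fun v => ψ1 v ^ 2) (b + 3) := ⟨t1.smooth.pow 2, fun v hv => by rw [t1.supp v hv]; ring⟩
  have s2 : TF (fun v => ψ2 v ^ 2) (b + 3) := ⟨t2.smooth.pow 2, fun v hv => by rw [t2.supp v hv]; ring⟩
  have s2' : TF (fun v => (-1) * ψ2 v ^ 2) (b + 3) :=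
    ⟨contDiff_const.mul (t2.smooth.pow 2), fun v hv => by rw [t2.supp v hv]; ring⟩
  obtain ⟨C1, hC1, g1⟩ := V_sq hR t1 (by linarith : 0 < e / 2) (by linarith) p1
  obtain ⟨C2, hC2, g2⟩ := V_sq hR t2 (by linarith : 0 < e / 2) (by linarith) p2
  obtain ⟨κ₀, hκ₀, g3⟩ := PF_add s1 s2'
  have hz := sqrt_kap_small.const_mul (C1 + C2)
  rw [mul_zero] at hz
  refine squeeze_zero_norm' ?_ hz
  filter_upwards [near_kap.ev hκ₀, near_kap.ev one_pos, eventually_ge_atTop 1, log_ev 1] with T hT hT' hT1 hL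
  obtain ⟨a1, a2, a3⟩ := hT
  have a4 := hT'.2.1
  have hT0 : 0 < T := by linarith
  set L := Real.log T with hLdef
  have hL0 : 0 < L := by linarith
  set κ := kap T with hκdef
  have e1 : PF κ L k = PF κ L (fun v => ψ1 v ^ 2) - PF κ L (fun v => ψ2 v ^ 2) := by
    have h1 := g3 κ a1 a2 L hL a3
    have h2 : (fun v => ψ1 v ^ 2 + -1 * ψ2 v ^ 2) = k := by
      funext v; rw [hkeq v]; ring
    rw [h2, PF_smul] at h1
    rw [h1]; ring
  have e2 : Vf κ L k = Vf κ L (fun v => ψ1 v ^ 2) - Vf κ L (fun v => ψ2 v ^ 2) := by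
    unfold Vf
    rw [← integral_sub (Vf_int s1 hL0 κ) (Vf_int s2 hL0 κ)]
    congr 1; ext v
    rw [hkeq (v / L)]; ring
  have b1 := g1 L hL κ a1 a4
  have b2 := g2 L hL κ a1 a4
  have e3 : T / L ^ 2 * Vf κ L k - T / L * PF κ L k =
      T * (((L ^ 2)⁻¹ * Vf κ L (fun v => ψ1 v ^ 2) - L⁻¹ * PF κ L (fun v => ψ1 v ^ 2)) -
        ((L ^ 2)⁻¹ * Vf κ L (fun v => ψ2 v ^ 2) - L⁻¹ * PF κ L (fun v => ψ2 v ^ 2))) := by
    rw [e1, e2]; ring
  rw [Real.norm_eq_abs, e3, abs_mul, abs_of_pos hT0]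
  calc T * |_| ≤ T * (C1 * (κ ^ (3/2 : ℝ) + κ / L) + C2 * (κ ^ (3/2 : ℝ) + κ / L)) := by
        gcongr
        exact (abs_sub _ _).trans (add_le_add b1 b2)
    _ = _ := by ring

end Pool.Agent.PairCorr.P6
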