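import Mathlib
import Pool.Agent.PairCorr.T_Gue

/-!
`∫_0^A gue = A²/2 - A/2 + log A/(2π²) + O(1)`.
-/

set_option autoImplicit false

namespace Pool.Agent.PairCorr.R3

open MeasureTheory Filter Topology Set Real
open scoped FourierTransform

lemma sinc2_le_sq {u : ℝ} (hu : u ≠ 0) : sinc2 u ≤ 1 / u ^ 2 := by
  unfold sinc2
  rw [div_pow]
  have h3 : Real.sin (π * u) ^ 2 ≤ 1 := Real.sin_sq_le_one _
  have hpi := Real.pi_gt_three
  have hx2 : 0 < u ^ 2 := by positivity
  have h4 : u ^ 2 ≤ (π * u) ^ 2 := by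
    rw [mul_pow]
    have : 1 ≤ π ^ 2 := by nlinarith
    nlinarith
  exact div_le_div₀ zero_le_one h3 (by positivity) h4

lemma sinc2_le_cauchy (u : ℝ) : sinc2 u ≤ 2 * (1 + u ^ 2)⁻¹ := by
  rw [← div_eq_mul_inv, le_div_iff₀ (by positivity)]
  by_cases hu : u = 0
  · subst hu; unfold sinc2; simp
  have h1 := sinc2_le_sq hu
  have h2 := sinc2_le_one u
  have hx2 : 0 < u ^ 2 := by positivity
  rw [le_div_iff₀ hx2] at h1
  linarith

lemma sinc2_even (u : ℝ) : sinc2 (-u) = sinc2 u := by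
  unfold sinc2; rw [mul_neg, Real.sin_neg, neg_div_neg_eq]

lemma sinc2_integrable : Integrable sinc2 := by
  apply Integrable.mono' (integrable_inv_one_add_sq.const_mul 2) sinc2_meas.aestronglyMeasurable
  refine Eventually.of_forall fun u => ?_
  rw [Real.norm_eq_abs, abs_of_nonneg (sinc2_nonneg u)]
  exact sinc2_le_cauchy u

lemma fourier_tri {u : ℝ} (hu : u ≠ 0) : 𝓕 (fun v : ℝ => (tri v : ℂ)) u = (sinc2 u : ℂ) := by
  rw [Real.fourier_real_eq_integral_exp_smul]
  have hint : Integrable fun v : ℝ => (tri v : ℂ) := tri_integrable.ofReal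
  have h1 : ∀ v : ℝ, Complex.exp (((-2 * π * v * u : ℝ) : ℂ) * Complex.I) • (tri v : ℂ) =
      ((tri v * Real.cos (2 * π * u * v) : ℝ) : ℂ) - ((tri v * Real.sin (2 * π * u * v) : ℝ) : ℂ) * Complex.I := by
    intro v
    rw [Complex.exp_mul_I, ← Complex.ofReal_cos, ← Complex.ofReal_sin,
      show -2 * π * v * u = -(2 * π * u * v) by ring, Real.cos_neg, Real.sin_neg, smul_eq_mul]
    push_cast
    ring
  have hc : Integrable fun v : ℝ => tri v * Real.cos (2 * π * u * v) := by
    apply (tri_cont.mul (by fun_prop)).integrable_of_hasCompactSupport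
    exact tri_compact.mul_right
  have hs : Integrable fun v : ℝ => tri v * Real.sin (2 * π * u * v) := by
    apply (tri_cont.mul (by fun_prop)).integrable_of_hasCompactSupport
    exact tri_compact.mul_right
  have hodd : ∫ v, tri v * Real.sin (2 * π * u * v) = 0 := by
    have := integral_neg_eq_self (fun v : ℝ => tri v * Real.sin (2 * π * u * v)) volume
    have h2 : ∫ v, tri (-v) * Real.sin (2 * π * u * (-v)) = - ∫ v, tri v * Real.sin (2 * π * u * v) := by
      rw [← integral_neg]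
      congr 1
      ext v
      rw [tri_even, mul_neg, Real.sin_neg]
      ring
    rw [h2] at this
    linarith
  calc ∫ v : ℝ, Complex.exp (((-2 * π * v * u : ℝ) : ℂ) * Complex.I) • (tri v : ℂ)
      = ∫ v : ℝ, (((tri v * Real.cos (2 * π * u * v) : ℝ) : ℂ) -
          ((tri v * Real.sin (2 * π * u * v) : ℝ) : ℂ) * Complex.I) := by
        congr 1; ext v; exact h1 v
    _ = ((∫ v, tri v * Real.cos (2 * π * u * v) : ℝ) : ℂ) - ((∫ v, tri v * Real.sin (2 * π * u * v) : ℝ) : ℂ) * Complex.I := by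
        rw [integral_sub hc.ofReal (hs.ofReal.mul_const _), integral_mul_const, integral_complex_ofReal, integral_complex_ofReal]
    _ = (sinc2 u : ℂ) := by rw [hodd, tri_cos hu]; simp

lemma integral_sinc2 : ∫ u, sinc2 u = 1 := by
  have hint : Integrable fun v : ℝ => (tri v : ℂ) := tri_integrable.ofReal
  have hae : 𝓕 (fun v : ℝ => (tri v : ℂ)) =ᵐ[volume] fun u => (sinc2 u : ℂ) := by
    have h0 : ∀ᵐ u : ℝ, u ≠ 0 := by
      rw [ae_iff]
      simp only [not_not, ne_eq]
      exact measure_singleton 0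
    filter_upwards [h0] with u hu
    exact fourier_tri hu
  have hint' : Integrable (𝓕 (fun v : ℝ => (tri v : ℂ))) := sinc2_integrable.ofReal.congr hae.symm
  have h := hint.fourierInv_fourier_eq hint' (v := 0) (by
    have : Continuous fun v : ℝ => (tri v : ℂ) := Complex.continuous_ofReal.comp tri_cont
    exact this.continuousAt)
  rw [Real.fourierInv_eq'] at h
  have e : ∫ v : ℝ, Complex.exp (((2 * π * (inner ℝ v (0:ℝ)) : ℝ) : ℂ) * Complex.I) •
      𝓕 (fun v : ℝ => (tri v : ℂ)) v = ∫ v : ℝ, (sinc2 v : ℂ) := by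
    apply integral_congr_ae
    filter_upwards [hae] with v hv
    rw [hv]
    simp
  rw [e, integral_complex_ofReal] at h
  have h2 : tri 0 = 1 := by unfold tri; simp
  rw [h2] at h
  exact_mod_cast h

lemma integral_sinc2_Ioi : ∫ u in Ioi (0:ℝ), sinc2 u = 1 / 2 := by
  have h := integral_comp_abs (f := sinc2)
  have e : ∫ x, sinc2 |x| = ∫ x, sinc2 x := by
    congr 1; ext x
    rcases abs_choice x with h | h
    · rw [h]
    · rw [h, sinc2_even]
  rw [e, integral_sinc2] at h
  linarith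

lemma gue_eq_sub {A : ℝ} (hA : 0 ≤ A) : gue A = A - 1 / 2 + ∫ u in Ioi A, sinc2 u := by
  rw [gue_eq, intervalIntegral.integral_sub intervalIntegrable_const
    (sinc2_integrable.intervalIntegrable), intervalIntegral.integral_const,
    intervalIntegral.integral_of_le hA]
  have h := setIntegral_union (f := sinc2) (μ := volume) (Ioc_disjoint_Ioi le_rfl : Disjoint (Ioc 0 A) (Ioi A))
    measurableSet_Ioi sinc2_integrable.integrableOn sinc2_integrable.integrableOn
  rw [Ioc_union_Ioi_eq_Ioi hA, integral_sinc2_Ioi] at h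
  simp only [sub_zero, smul_eq_mul, mul_one]
  linarith

lemma tail_nonneg (A : ℝ) : 0 ≤ ∫ u in Ioi A, sinc2 u := integral_nonneg fun u => sinc2_nonneg u

lemma tail_le {A : ℝ} (hA : 1 ≤ A) : ∫ u in Ioi A, sinc2 u ≤ 1 / A := by
  have hA0 : 0 < A := by linarith
  have h2 := integral_Ioi_rpow_of_lt (show (-2:ℝ) < -1 by norm_num) hA0
  have hi := integrableOn_Ioi_rpow_of_lt (show (-2:ℝ) < -1 by norm_num) hA0
  have h3 : ∫ u in Ioi A, sinc2 u ≤ ∫ u in Ioi A, u ^ (-2:ℝ) := by
    apply setIntegral_mono_on sinc2_integrable.integrableOn hi measurableSet_Ioi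
    intro u hu
    have hu0 : 0 < u := lt_trans hA0 hu
    have := sinc2_le_sq hu0.ne'
    rw [Real.rpow_neg hu0.le, one_div] at *
    exact_mod_cast this
  rw [h2] at h3
  refine h3.trans (le_of_eq ?_)
  norm_num
  rw [Real.rpow_neg_one]

/-- the function `D(x) = gue x - x + 1/2 - 1/(2π²x) - sin(2πx)/(4π³x²)` is small -/
lemma gue_expansion : ∀ A : ℝ, 1 ≤ A → |gue A - (A - 1 / 2 + 1 / (2 * π ^ 2 * A))| ≤ 1 / A ^ 2 := by
  have hpi := Real.pi_gt_three
  -- derivative
  set D : ℝ → ℝ := fun x => gue x - x - 1 / (2 * π ^ 2) * x⁻¹ - 1 / (4 * π ^ 3) * (Real.sin (2 * π * x) * (x ^ 2)⁻¹) with hD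
  have hD' : ∀ x : ℝ, 0 < x → HasDerivAt D (1 / (2 * π ^ 3) * (Real.sin (2 * π * x) * (x ^ 3)⁻¹)) x := by
    intro x hx
    have h1 := gue_hasDerivAt hx.ne'
    have h2 := (hasDerivAt_inv hx.ne').const_mul (1 / (2 * π ^ 2))
    have h3 : HasDerivAt (fun x : ℝ => 2 * π * x) (2 * π) x := by simpa using (hasDerivAt_id x).const_mul (2 * π)
    have h4 : HasDerivAt (fun x : ℝ => (x ^ 2)⁻¹) (-(2 * x) / (x ^ 2) ^ 2) x := by
      have := (hasDerivAt_pow 2 x).inv (by positivity)
      refine this.congr_deriv ?_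
      norm_num
    have h5 := (h3.sin.mul h4).const_mul (1 / (4 * π ^ 3))
    refine (((h1.sub (hasDerivAt_id x)).sub h2).sub h5).congr_deriv ?_
    unfold sinc2
    have e1 : Real.sin (π * x) ^ 2 = (1 - Real.cos (2 * π * x)) / 2 := by
      rw [show 2 * π * x = 2 * (π * x) by ring, Real.cos_two_mul, Real.sin_sq]; ring
    rw [div_pow, e1]
    field_simp
    ring
  -- limit at infinity
  have hlim : Tendsto D atTop (𝓝 (-(1 / 2))) := by
    have hg : Tendsto (fun x => gue x - x) atTop (𝓝 (-(1 / 2))) := by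
      have h1 : Tendsto (fun x => -(1 / 2 : ℝ) + ∫ u in Ioi x, sinc2 u) atTop (𝓝 (-(1 / 2) + 0)) := by
        apply Tendsto.const_add
        apply tendsto_of_tendsto_of_tendsto_of_le_of_le' tendsto_const_nhds
          (tendsto_inv_atTop_zero (𝕜 := ℝ))
        · exact Eventually.of_forall tail_nonneg
        · filter_upwards [eventually_ge_atTop 1] with x hx
          rw [← one_div]; exact tail_le hx
      rw [add_zero] at h1
      refine h1.congr' ?_
      filter_upwards [eventually_ge_atTop 0] with x hx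
      rw [gue_eq_sub hx]; ring
    have h2 : Tendsto (fun x : ℝ => 1 / (2 * π ^ 2) * x⁻¹) atTop (𝓝 0) := by
      have := (tendsto_inv_atTop_zero (𝕜 := ℝ)).const_mul (1 / (2 * π ^ 2))
      rwa [mul_zero] at this
    have h3 : Tendsto (fun x : ℝ => 1 / (4 * π ^ 3) * (Real.sin (2 * π * x) * (x ^ 2)⁻¹)) atTop (𝓝 0) := by
      have hb : Tendsto (fun x : ℝ => Real.sin (2 * π * x) * (x ^ 2)⁻¹) atTop (𝓝 0) := by
        apply squeeze_zero_norm' (a := fun x : ℝ => (x ^ 2)⁻¹)
        · refine Eventually.of_forall fun x => ?_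
          rw [norm_mul, Real.norm_eq_abs, Real.norm_eq_abs, abs_of_nonneg (by positivity : 0 ≤ (x ^ 2)⁻¹)]
          have := Real.abs_sin_le_one (2 * π * x)
          have h0 : 0 ≤ (x ^ 2)⁻¹ := by positivity
          nlinarith
        · exact (tendsto_pow_atTop two_ne_zero).inv_tendsto_atTop
      have := hb.const_mul (1 / (4 * π ^ 3))
      rwa [mul_zero] at this
    have := (hg.sub h2).sub h3
    rw [sub_zero, sub_zero] at this
    exact this
  -- monotonicity of `ε D - C/x²`
  have hbd : ∀ x : ℝ, 1 ≤ x → |D x - (-(1 / 2))| ≤ (1 / 2) * (x ^ 2)⁻¹ := by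
    intro x hx
    have hx0 : 0 < x := by linarith
    have key : ∀ ε : ℝ, (ε = 1 ∨ ε = -1) → ε * (D x - (-(1 / 2))) ≤ (1 / 2) * (x ^ 2)⁻¹ := by
      intro ε hε
      have hε1 : |ε| = 1 := by rcases hε with rfl | rfl <;> simp
      have hinv : ∀ y : ℝ, 0 < y → HasDerivAt (fun y : ℝ => (y ^ 2)⁻¹) (-(2 * y) / (y ^ 2) ^ 2) y := by
        intro y hy
        have := (hasDerivAt_pow 2 y).inv (by positivity)
        refine this.congr_deriv ?_
        norm_num
      have hU : ∀ y : ℝ, 0 < y → HasDerivAt (fun y => ε * D y - (1 / 2) * (y ^ 2)⁻¹)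
          (ε * (1 / (2 * π ^ 3) * (Real.sin (2 * π * y) * (y ^ 3)⁻¹)) - (1 / 2) * (-(2 * y) / (y ^ 2) ^ 2)) y := by
        intro y hy
        exact ((hD' y hy).const_mul ε).sub ((hinv y hy).const_mul (1 / 2))
      have hmono : MonotoneOn (fun y => ε * D y - (1 / 2) * (y ^ 2)⁻¹) (Ici 1) := by
        apply monotoneOn_of_deriv_nonneg (convex_Ici 1)
        · intro y hy
          exact (hU y (by have : (1:ℝ) ≤ y := hy; linarith)).continuousAt.continuousWithinAt
        · intro y hy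
          rw [interior_Ici] at hy
          exact (hU y (by have : (1:ℝ) < y := hy; linarith)).differentiableAt.differentiableWithinAt
        · intro y hy
          rw [interior_Ici] at hy
          have hy0 : 0 < y := by have : (1:ℝ) < y := hy; linarith
          rw [(hU y hy0).deriv]
          have h1 : |ε * (1 / (2 * π ^ 3) * (Real.sin (2 * π * y) * (y ^ 3)⁻¹))| ≤ (y ^ 3)⁻¹ := by
            rw [abs_mul, hε1, one_mul, abs_mul, abs_mul, abs_of_pos (by positivity : 0 < (y ^ 3)⁻¹),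
              abs_of_pos (by positivity : 0 < 1 / (2 * π ^ 3))]
            have h2 := Real.abs_sin_le_one (2 * π * y)
            have h3 : 1 / (2 * π ^ 3) ≤ 1 := by
              rw [div_le_one (by positivity)]
              have : 1 ≤ π ^ 3 := one_le_pow₀ (by linarith)
              linarith
            have h4 : 0 < (y ^ 3)⁻¹ := by positivity
            calc 1 / (2 * π ^ 3) * (|Real.sin (2 * π * y)| * (y ^ 3)⁻¹) ≤ 1 * (1 * (y ^ 3)⁻¹) := by gcongr
              _ = (y ^ 3)⁻¹ := by ring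
          have e : (1 / 2) * (-(2 * y) / (y ^ 2) ^ 2) = -(y ^ 3)⁻¹ := by field_simp
          rw [e]
          have := neg_abs_le (ε * (1 / (2 * π ^ 3) * (Real.sin (2 * π * y) * (y ^ 3)⁻¹)))
          linarith
      have hl2 : Tendsto (fun y => ε * D y - (1 / 2) * (y ^ 2)⁻¹) atTop (𝓝 (ε * (-(1 / 2)) - (1 / 2) * 0)) :=
        (hlim.const_mul ε).sub (((tendsto_pow_atTop two_ne_zero).inv_tendsto_atTop).const_mul (1 / 2))
      have h5 : ε * D x - (1 / 2) * (x ^ 2)⁻¹ ≤ ε * (-(1 / 2)) - (1 / 2) * 0 := by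
        apply ge_of_tendsto hl2
        filter_upwards [eventually_ge_atTop x] with y hy
        exact hmono (mem_Ici.2 hx) (mem_Ici.2 (hx.trans hy)) hy
      linarith
    rw [abs_le]
    have k1 := key 1 (Or.inl rfl)
    have k2 := key (-1) (Or.inr rfl)
    constructor <;> linarith
  intro A hA
  have hA0 : 0 < A := by linarith
  have h := hbd A hA
  have h6 : gue A - (A - 1 / 2 + 1 / (2 * π ^ 2 * A)) = (D A - (-(1 / 2))) + 1 / (4 * π ^ 3) * (Real.sin (2 * π * A) * (A ^ 2)⁻¹) := by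
    rw [hD]
    field_simp
    ring
  rw [h6]
  refine (abs_add_le _ _).trans ?_
  have h7 : |1 / (4 * π ^ 3) * (Real.sin (2 * π * A) * (A ^ 2)⁻¹)| ≤ (1 / 2) * (A ^ 2)⁻¹ := by
    rw [abs_mul, abs_mul, abs_of_pos (by positivity : 0 < (A ^ 2)⁻¹),
      abs_of_pos (by positivity : 0 < 1 / (4 * π ^ 3))]
    have h2 := Real.abs_sin_le_one (2 * π * A)
    have h3 : 1 / (4 * π ^ 3) ≤ 1 / 2 := by
      apply one_div_le_one_div_of_le (by norm_num)
      have : 1 ≤ π ^ 3 := one_le_pow₀ (by linarith)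
      linarith
    calc 1 / (4 * π ^ 3) * (|Real.sin (2 * π * A)| * (A ^ 2)⁻¹) ≤ (1 / 2) * (1 * (A ^ 2)⁻¹) := by gcongr
      _ = (1 / 2) * (A ^ 2)⁻¹ := by ring
  have e9 : 1 / A ^ 2 = (A ^ 2)⁻¹ := one_div _
  rw [e9]
  linarith

/-- `∫_0^A gue` -/
theorem gue_integral : ∃ C : ℝ, 0 < C ∧ ∀ A : ℝ, 1 ≤ A →
    |(∫ u in (0 : ℝ)..A, gue u) - (A ^ 2 / 2 - A / 2 + Real.log A / (2 * π ^ 2))| ≤ C := by
  have hpi := Real.pi_gt_three
  refine ⟨2, by norm_num, fun A hA => ?_⟩
  have hA0 : 0 < A := by linarith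
  have hgi : ∀ x y : ℝ, IntervalIntegrable gue volume x y := fun x y => gue_continuous.intervalIntegrable x y
  have hinv : ∀ x ∈ uIcc (1:ℝ) A, x ≠ 0 := by
    intro x hx
    rw [uIcc_of_le hA] at hx
    have := hx.1
    intro h; rw [h] at this; linarith
  have i1 : IntervalIntegrable (fun u : ℝ => u - 1 / 2 + 1 / (2 * π ^ 2 * u)) volume 1 A := by
    apply ContinuousOn.intervalIntegrable
    apply ContinuousOn.add (by fun_prop)
    apply ContinuousOn.div continuousOn_const (by fun_prop)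
    intro x hx
    have := hinv x hx
    positivity
  have i2 : IntervalIntegrable (fun u : ℝ => (u ^ 2)⁻¹) volume 1 A := by
    apply ContinuousOn.intervalIntegrable
    apply ContinuousOn.inv₀ (by fun_prop)
    intro x hx
    have := hinv x hx
    positivity
  have e1 : ∫ u in (1:ℝ)..A, (u - 1 / 2 + 1 / (2 * π ^ 2 * u)) = (A ^ 2 / 2 - A / 2 + Real.log A / (2 * π ^ 2)) := by
    have hd : ∀ x ∈ uIcc (1:ℝ) A, HasDerivAt (fun u => u ^ 2 / 2 - u / 2 + Real.log u / (2 * π ^ 2))
        (x - 1 / 2 + 1 / (2 * π ^ 2 * x)) x := by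
      intro x hx
      have hx0 := hinv x hx
      have h1 := (((hasDerivAt_pow 2 x).div_const 2).sub ((hasDerivAt_id x).div_const 2)).add
        ((Real.hasDerivAt_log hx0).div_const (2 * π ^ 2))
      refine h1.congr_deriv ?_
      field_simp
      ring
    rw [intervalIntegral.integral_eq_sub_of_hasDerivAt hd i1]
    simp
  have e2 : ∫ u in (1:ℝ)..A, (u ^ 2)⁻¹ = 1 - A⁻¹ := by
    have hd : ∀ x ∈ uIcc (1:ℝ) A, HasDerivAt (fun u : ℝ => -u⁻¹) ((x ^ 2)⁻¹) x := by
      intro x hx
      have hx0 := hinv x hx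
      refine (hasDerivAt_inv hx0).neg.congr_deriv ?_
      ring
    rw [intervalIntegral.integral_eq_sub_of_hasDerivAt hd i2]
    simp
    ring
  have h0 : |∫ u in (0:ℝ)..1, gue u| ≤ 1 := by
    have := intervalIntegral.norm_integral_le_of_norm_le_const (a := (0:ℝ)) (b := 1) (C := 1)
      (f := gue) (fun x hx => by
        rw [uIoc_of_le zero_le_one] at hx
        rw [Real.norm_eq_abs, abs_of_nonneg (gue_nonneg hx.1.le)]
        exact (gue_le hx.1.le).trans hx.2)
    simpa using this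
  have h1 : |(∫ u in (1:ℝ)..A, gue u) - (A ^ 2 / 2 - A / 2 + Real.log A / (2 * π ^ 2))| ≤ 1 := by
    rw [← e1, ← intervalIntegral.integral_sub (hgi _ _) i1, ← Real.norm_eq_abs]
    refine (intervalIntegral.norm_integral_le_of_norm_le hA (Eventually.of_forall fun u hu => ?_) i2).trans ?_
    · rw [Real.norm_eq_abs, ← one_div]
      exact gue_expansion u hu.1.le
    · rw [e2]
      have : 0 < A⁻¹ := by positivity
      linarith
  have h2 := intervalIntegral.integral_add_adjacent_intervals (hgi 0 1) (hgi 1 A)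
  rw [← h2]
  have e3 : (∫ u in (0:ℝ)..1, gue u) + (∫ u in (1:ℝ)..A, gue u) - (A ^ 2 / 2 - A / 2 + Real.log A / (2 * π ^ 2)) =
      (∫ u in (0:ℝ)..1, gue u) + ((∫ u in (1:ℝ)..A, gue u) - (A ^ 2 / 2 - A / 2 + Real.log A / (2 * π ^ 2))) := by ring
  rw [e3]
  exact (abs_add_le _ _).trans (by linarith)

end Pool.Agent.PairCorr.R3
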