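import Mathlib
import Pool.Agent.PairCorr.P6_VLim
import Pool.Agent.PairCorr.P6_AbelAbs
import Pool.Agent.PairCorr.R3_Gue

set_option autoImplicit false

namespace Pool.Agent.PairCorr.P6

open MeasureTheory Filter Topology Set Real
open scoped ENNReal ComplexConjugate
open Pool.Agent.PairCorr.P1 (q4 q4_pos snc snc_mul snc_zero snc_neg abs_snc_le contDiff_snc)
open Pool.Agent.PairCorr.R3 (sinc2_integrable integral_sinc2_Ioi tail_le)

variable {ψ k k' : ℝ → ℝ} {b e : ℝ}

/-- approximation of limits -/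
lemma tendsto_of_approx {l : Filter ℝ} {f : ℝ → ℝ} {c : ℝ}
    (h : ∀ ε > 0, ∃ (g : ℝ → ℝ) (c' : ℝ), Tendsto g l (𝓝 c') ∧ |c' - c| ≤ ε ∧ ∀ᶠ T in l, |f T - g T| ≤ ε) :
    Tendsto f l (𝓝 c) := by
  rw [Metric.tendsto_nhds]
  intro ε hε
  obtain ⟨g, c', h1, h2, h3⟩ := h (ε / 4) (by positivity)
  have h4 := (Metric.tendsto_nhds.1 h1) (ε / 4) (by positivity)
  filter_upwards [h3, h4] with T a1 a2
  rw [Real.dist_eq] at a2 ⊢
  have e1 : f T - c = (f T - g T) + (g T - c') + (c' - c) := by ring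
  rw [e1]
  refine (abs_add_three _ _ _).trans_lt ?_
  linarith

/-! ### heights `x / κ(T)` -/

lemma Near.log_diff {κ : ℝ → ℝ} (h : Near κ) {x : ℝ} (hx : 0 < x) :
    ∃ D : ℝ, 0 ≤ D ∧ ∀ᶠ T : ℝ in atTop, 0 < κ T ∧ |Real.log (x / κ T) - Real.log T| ≤ D := by
  obtain ⟨c, C, hc, h⟩ := h
  refine ⟨|Real.log (x / C)| + |Real.log (x / c)|, by positivity, ?_⟩
  filter_upwards [h, eventually_gt_atTop 0] with T hT hT0
  have hpos : 0 < κ T := (by positivity : 0 < c / T).trans_le hT.1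
  have hC : 0 < C := by
    have h1 : 0 < C / T := hpos.trans_le hT.2
    by_contra hc'
    push Not at hc'
    have := div_nonpos_of_nonpos_of_nonneg hc' hT0.le
    linarith
  refine ⟨hpos, ?_⟩
  have e1 : Real.log (x / κ T) - Real.log T = Real.log (x / κ T / T) :=
    (Real.log_div (by positivity) (by positivity)).symm
  rw [e1]
  have h1 : x / C ≤ x / κ T / T := by
    rw [div_div]
    apply div_le_div_of_nonneg_left hx.le (by positivity)
    have := hT.2
    rw [le_div_iff₀ hT0] at this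
    exact this
  have h2 : x / κ T / T ≤ x / c := by
    rw [div_div]
    apply div_le_div_of_nonneg_left hx.le hc
    have := hT.1
    rw [div_le_iff₀ hT0] at this
    exact this
  have h3 := Real.log_le_log (by positivity) h1
  have h4 := Real.log_le_log (by positivity) h2
  have h5 := neg_abs_le (Real.log (x / C))
  have h6 := le_abs_self (Real.log (x / c))
  have h7 := abs_nonneg (Real.log (x / C))
  have h8 := abs_nonneg (Real.log (x / c))
  rw [abs_le]
  constructor <;> linarith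

lemma Near.u_tendsto {κ : ℝ → ℝ} (h : Near κ) {x : ℝ} (hx : 0 < x) :
    Tendsto (fun T => x / κ T) atTop atTop := by
  obtain ⟨D, hD, h1⟩ := h.log_diff hx
  have h2 : Tendsto (fun T : ℝ => Real.exp (-D) * T) atTop atTop :=
    Tendsto.const_mul_atTop (Real.exp_pos _) tendsto_id
  refine tendsto_atTop_mono' _ ?_ h2
  filter_upwards [h1, eventually_gt_atTop 0] with T hT hT0
  have h3 := (abs_le.1 hT.2).1
  have h4 : -D + Real.log T ≤ Real.log (x / κ T) := by linarith
  have hκ := hT.1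
  have h5 := Real.exp_le_exp.2 h4
  rw [Real.exp_add, Real.exp_log hT0, Real.exp_log (by positivity)] at h5
  exact h5

lemma Near.log_ratio {κ : ℝ → ℝ} (h : Near κ) {x : ℝ} (hx : 0 < x) :
    Tendsto (fun T => Real.log (x / κ T) / Real.log T) atTop (𝓝 1) := by
  obtain ⟨D, hD, h1⟩ := h.log_diff hx
  have h2 : Tendsto (fun T : ℝ => (Real.log (x / κ T) - Real.log T) / Real.log T) atTop (𝓝 0) := by
    have h3 : Tendsto (fun T : ℝ => D / Real.log T) atTop (𝓝 0) :=
      tendsto_const_nhds.div_atTop Real.tendsto_log_atTop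
    refine squeeze_zero_norm' ?_ h3
    filter_upwards [h1, log_ev 1] with T hT hL
    rw [norm_div, Real.norm_eq_abs, Real.norm_eq_abs, abs_of_pos (by linarith : 0 < Real.log T)]
    have : 0 < Real.log T := by linarith
    gcongr
    exact hT.2
  have h3 := h2.add_const 1
  rw [zero_add] at h3
  refine h3.congr' ?_
  filter_upwards [log_ev 1] with T hL
  have : Real.log T ≠ 0 := by linarith
  field_simp
  ring

/-- the pair integrand -/
noncomputable def Ap (k : ℝ → ℝ) (T : ℝ) (p : ℂ × ℂ) : ℝ := rr k (Real.log T * (p.1.im - p.2.im))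

lemma Ap_cont (hk : TF k b) (T : ℝ) : Continuous (Ap k T) := by
  unfold Ap
  exact (rr_cont hk).comp (by fun_prop)

/-- real form of the pair bound on `|γ| ≤ U` -/
lemma PB_real : ∃ C : ℝ, 0 < C ∧ ∃ U₀ : ℝ, Real.exp 1 ≤ U₀ ∧ ∀ U : ℝ, U₀ ≤ U → ∀ ℓ : ℝ, 1 ≤ ℓ →
    Real.log U ≤ 2 * ℓ →
    IntegrableOn (fun p : ℂ × ℂ => q4 (ℓ * (p.1.im - p.2.im))) {p | |p.1.im| ≤ U} (muZ.prod muZ) ∧
    ∫ p in {p : ℂ × ℂ | |p.1.im| ≤ U}, q4 (ℓ * (p.1.im - p.2.im)) ∂(muZ.prod muZ) ≤
      C * (U * Real.log U) := by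
  obtain ⟨C, hC, U₀, hU₀, h⟩ := PB_abs
  refine ⟨C * 2 ^ 4, by positivity, U₀, hU₀, fun U hU ℓ hℓ hlog => ?_⟩
  have h1 := h U hU ℓ 2 hℓ (by norm_num) hlog
  have hUe : Real.exp 1 ≤ U := hU₀.trans hU
  have hU0 : 0 < U := (Real.exp_pos 1).trans_le hUe
  have hL1 : 1 ≤ Real.log U := by rw [Real.le_log_iff_exp_le hU0]; exact hUe
  have hi : IntegrableOn (fun p : ℂ × ℂ => q4 (ℓ * (p.1.im - p.2.im))) {p | |p.1.im| ≤ U} (muZ.prod muZ) := by
    refine ⟨(q4_cont.comp (by fun_prop)).aestronglyMeasurable, ?_⟩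
    rw [hasFiniteIntegral_iff_ofReal (Eventually.of_forall fun p => (q4_pos _).le)]
    exact h1.trans_lt ENNReal.ofReal_lt_top
  refine ⟨hi, ?_⟩
  rw [← ENNReal.ofReal_le_ofReal_iff (by positivity),
    ofReal_integral_eq_lintegral_ofReal hi (Eventually.of_forall fun p => (q4_pos _).le)]
  exact h1

lemma hm_im1 : Measurable fun p : ℂ × ℂ => p.1.im := by fun_prop

lemma meas_abs_le (U : ℝ) : MeasurableSet {p : ℂ × ℂ | |p.1.im| ≤ U} :=
  measurableSet_le (by fun_prop) measurable_const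

/-- splitting the symmetric range -/
lemma split_sym {F : ℂ × ℂ → ℝ} (hF : Measurable F) (hsym : ∀ p : ℂ × ℂ, F (conj p.1, conj p.2) = F p)
    {U : ℝ} (hU : 0 ≤ U) (hi : IntegrableOn F {p | |p.1.im| ≤ U} (muZ.prod muZ)) :
    ∫ p in {p : ℂ × ℂ | |p.1.im| ≤ U}, F p ∂(muZ.prod muZ) =
      2 * (∫ p in {p : ℂ × ℂ | 0 < p.1.im ∧ p.1.im ≤ U}, F p ∂(muZ.prod muZ)) +
      ∫ p in {p : ℂ × ℂ | p.1.im = 0}, F p ∂(muZ.prod muZ) := by
  have hS1 : MeasurableSet {p : ℂ × ℂ | 0 < p.1.im ∧ p.1.im ≤ U} :=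
    (measurableSet_lt measurable_const hm_im1).inter (measurableSet_le hm_im1 measurable_const)
  have hS2 : MeasurableSet {p : ℂ × ℂ | p.1.im < 0 ∧ -U ≤ p.1.im} :=
    (measurableSet_lt hm_im1 measurable_const).inter (measurableSet_le measurable_const hm_im1)
  have hS3 : MeasurableSet {p : ℂ × ℂ | p.1.im = 0} := hm_im1 (measurableSet_singleton 0)
  have hset : {p : ℂ × ℂ | |p.1.im| ≤ U} = ({p : ℂ × ℂ | 0 < p.1.im ∧ p.1.im ≤ U} ∪
      {p : ℂ × ℂ | p.1.im < 0 ∧ -U ≤ p.1.im}) ∪ {p : ℂ × ℂ | p.1.im = 0} := by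
    ext p
    simp only [mem_ofPred_eq, mem_union, abs_le]
    constructor
    · rintro ⟨h1, h2⟩
      rcases lt_trichotomy p.1.im 0 with h | h | h
      · left; right; exact ⟨h, h1⟩
      · right; exact h
      · left; left; exact ⟨h, h2⟩
    · rintro ((⟨h1, h2⟩ | ⟨h1, h2⟩) | h)
      · exact ⟨by linarith, h2⟩
      · exact ⟨h2, by linarith⟩
      · exact ⟨by linarith, by linarith⟩
  have i1 : IntegrableOn F {p : ℂ × ℂ | 0 < p.1.im ∧ p.1.im ≤ U} (muZ.prod muZ) := hi.mono_set (by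
    rw [hset]; exact subset_union_left.trans subset_union_left)
  have i2 : IntegrableOn F {p : ℂ × ℂ | p.1.im < 0 ∧ -U ≤ p.1.im} (muZ.prod muZ) := hi.mono_set (by
    rw [hset]; exact subset_union_right.trans subset_union_left)
  have i3 : IntegrableOn F {p : ℂ × ℂ | p.1.im = 0} (muZ.prod muZ) := hi.mono_set (by
    rw [hset]; exact subset_union_right)
  have hB : ∫ p in {p : ℂ × ℂ | p.1.im < 0 ∧ -U ≤ p.1.im}, F p ∂(muZ.prod muZ) =
      ∫ p in {p : ℂ × ℂ | 0 < p.1.im ∧ p.1.im ≤ U}, F p ∂(muZ.prod muZ) := by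
    have e1 : (Prod.map (fun z : ℂ => conj z) (fun z : ℂ => conj z)) ⁻¹'
        {p : ℂ × ℂ | 0 < p.1.im ∧ p.1.im ≤ U} = {p : ℂ × ℂ | p.1.im < 0 ∧ -U ≤ p.1.im} := by
      ext p
      simp only [mem_preimage, Prod.map_fst, mem_ofPred_eq, Complex.conj_im]
      constructor
      · rintro ⟨a, b⟩; exact ⟨by linarith, by linarith⟩
      · rintro ⟨a, b⟩; exact ⟨by linarith, by linarith⟩
    have hmp := mp_conj2.restrict_preimage hS1
    rw [e1] at hmp
    have h3 := hmp.map_eq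
    rw [← h3, integral_map hmp.measurable.aemeasurable hF.aestronglyMeasurable]
    apply integral_congr_ae
    exact Eventually.of_forall fun p => (hsym p).symm
  rw [hset, setIntegral_union _ hS3 (i1.union i2) i3, setIntegral_union _ hS2 i1 i2, hB]
  · ring
  · rw [Set.disjoint_left]
    rintro p ⟨h1, h2⟩ ⟨h3, h4⟩
    linarith
  · rw [Set.disjoint_left]
    rintro p (⟨h1, h2⟩ | ⟨h1, h2⟩) h3
    · have h3' : p.1.im = 0 := h3
      linarith
    · have h3' : p.1.im = 0 := h3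
      linarith

lemma Ap_sym (k : ℝ → ℝ) (T : ℝ) (p : ℂ × ℂ) : Ap k T (conj p.1, conj p.2) = Ap k T p := by
  unfold Ap
  simp only [Complex.conj_im]
  rw [show Real.log T * (-p.1.im - -p.2.im) = -(Real.log T * (p.1.im - p.2.im)) by ring, rr_neg]

lemma Spair0_re (hk : TF k b) : ∃ U₀ : ℝ, ∀ U : ℝ, U₀ ≤ U → (Spair0 k U).re =
    ∫ p in {p : ℂ × ℂ | 0 < p.1.im ∧ p.1.im ≤ U}, Ap k U p ∂(muZ.prod muZ) := by
  obtain ⟨C, hC, U₀, hU₀, h⟩ := PB_real
  obtain ⟨C1, hC1, h1⟩ := line_decay hk 4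
  refine ⟨U₀, fun U hU => ?_⟩
  have hUe : Real.exp 1 ≤ U := hU₀.trans hU
  have hU0 : 0 < U := (Real.exp_pos 1).trans_le hUe
  have hL1 : 1 ≤ Real.log U := by rw [Real.le_log_iff_exp_le hU0]; exact hUe
  have h2 := (h U hU (Real.log U) hL1 (by linarith)).1
  have hset : {p : ℂ × ℂ | 0 < p.1.im ∧ p.1.im ≤ U} = WT U ×ˢ univ := by
    ext p; simp [WT]
  unfold Spair0
  rw [muW_prod_restrict, ← hset]
  have hi : Integrable (fun p : ℂ × ℂ => Kc k (((Real.log U * (p.1.im - p.2.im) : ℝ) : ℂ) * Complex.I))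
      ((muZ.prod muZ).restrict {p : ℂ × ℂ | 0 < p.1.im ∧ p.1.im ≤ U}) := by
    have h3 : IntegrableOn (fun p : ℂ × ℂ => C1 * q4 (Real.log U * (p.1.im - p.2.im)))
        {p : ℂ × ℂ | 0 < p.1.im ∧ p.1.im ≤ U} (muZ.prod muZ) := by
      apply IntegrableOn.mono_set (h2.const_mul C1)
      rintro p ⟨a, b⟩
      show |p.1.im| ≤ U
      rw [abs_of_pos a]; exact b
    refine Integrable.mono' h3 ?_ (Eventually.of_forall fun p => h1 _)
    exact (hk.differentiable_Kc.continuous.comp (by fun_prop)).aestronglyMeasurable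
  have h4 := integral_re hi
  simp only [RCLike.re_eq_complex_re] at h4
  rw [← h4]
  rfl

/-- the counting function of pairs in the scale of `T` -/
lemma S2_lim (hk : TF k b) {c : ℝ} (hS : Tendsto (fun U => (Spair0 k U).re / NT U) atTop (𝓝 c))
    {κ : ℝ → ℝ} (hκ : Near κ) {x : ℝ} (hx : 0 < x) :
    Tendsto (fun T => κ T / Real.log T * ∫ p in {p : ℂ × ℂ | |p.1.im| ≤ x / κ T}, Ap k T p ∂(muZ.prod muZ))
      atTop (𝓝 (c / π * x)) := by
  obtain ⟨C, hC, U₀, hU₀, hPB⟩ := PB_real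
  obtain ⟨C0, hC0, hZ⟩ := PB_zero
  obtain ⟨C1, hC1, hq⟩ := rr_q4 hk
  obtain ⟨C2, hC2, hlip⟩ := rr_lip hk
  obtain ⟨U₁, hsp⟩ := Spair0_re hk
  obtain ⟨D, hD, hld⟩ := hκ.log_diff hx
  have hu := hκ.u_tendsto hx
  have hr := hκ.log_ratio hx
  have hpi := Real.pi_pos
  -- main term
  have hmain : Tendsto (fun T => 2 * (x * (Real.log (x / κ T) / Real.log T) / (2 * π)) *
      ((Spair0 k (x / κ T)).re / NT (x / κ T))) atTop (𝓝 (2 * (x * 1 / (2 * π)) * c)) := by
    apply Tendsto.mul _ (hS.comp hu)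
    exact ((hr.const_mul x).div_const _).const_mul 2
  have e0 : 2 * (x * 1 / (2 * π)) * c = c / π * x := by field_simp
  rw [e0] at hmain
  -- error terms
  have herr : Tendsto (fun T => κ T / Real.log T * (C1 * C0) +
      4 * C2 * (C * (x * (Real.log (x / κ T) / Real.log T))) * (D / (Real.log T - D))) atTop (𝓝 0) := by
    have h1 : Tendsto (fun T => κ T / Real.log T * (C1 * C0)) atTop (𝓝 (0 * (C1 * C0))) := by
      apply Tendsto.mul_const
      have h2 : Tendsto κ atTop (𝓝 0) := by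
        obtain ⟨c', C', hc', h⟩ := hκ
        have h3 : Tendsto (fun T : ℝ => C' / T) atTop (𝓝 0) := tendsto_const_nhds.div_atTop tendsto_id
        refine squeeze_zero' ?_ ?_ h3
        · filter_upwards [h, eventually_gt_atTop 0] with T hT hT0
          exact (by positivity : 0 ≤ c' / T).trans hT.1
        · filter_upwards [h] with T hT using hT.2
      exact h2.div_atTop Real.tendsto_log_atTop
    have h2 : Tendsto (fun T => 4 * C2 * (C * (x * (Real.log (x / κ T) / Real.log T))) *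
        (D / (Real.log T - D))) atTop (𝓝 (4 * C2 * (C * (x * 1)) * 0)) := by
      apply Tendsto.mul
      · exact ((hr.const_mul x).const_mul C).const_mul _
      · apply tendsto_const_nhds.div_atTop
        exact tendsto_atTop_add_const_right _ (-D) Real.tendsto_log_atTop
    have h3 := h1.add h2
    rw [zero_mul, mul_zero, add_zero] at h3
    exact h3
  have hdiff : Tendsto (fun T => κ T / Real.log T * (∫ p in {p : ℂ × ℂ | |p.1.im| ≤ x / κ T}, Ap k T p ∂(muZ.prod muZ)) -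
      2 * (x * (Real.log (x / κ T) / Real.log T) / (2 * π)) *
      ((Spair0 k (x / κ T)).re / NT (x / κ T))) atTop (𝓝 0) := by
    refine squeeze_zero_norm' ?_ herr
    filter_upwards [hld, hu.eventually_ge_atTop U₀, hu.eventually_ge_atTop U₁, log_ev (3 * D + 1),
      eventually_gt_atTop 0] with T h1 h2 h3 h4 hT0
    obtain ⟨hκ0, hlog⟩ := h1
    set L := Real.log T with hL
    set U := x / κ T with hU
    have hL0 : 0 < L := by linarith
    have hL1 : 1 ≤ L := by linarith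
    have hUe : Real.exp 1 ≤ U := hU₀.trans h2
    have hU0 : 0 < U := (Real.exp_pos 1).trans_le hUe
    have hlU1 : 1 ≤ Real.log U := by rw [Real.le_log_iff_exp_le hU0]; exact hUe
    obtain ⟨l1, l2⟩ := abs_le.1 hlog
    have hlU : Real.log U ≤ 2 * L := by linarith
    obtain ⟨i1, -⟩ := hPB U h2 L hL1 hlU
    have hAi : IntegrableOn (Ap k T) {p : ℂ × ℂ | |p.1.im| ≤ U} (muZ.prod muZ) := by
      refine Integrable.mono' (i1.const_mul C1) (Ap_cont hk T).aestronglyMeasurable
        (Eventually.of_forall fun p => hq _)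
    have hsplit := split_sym (Ap_cont hk T).measurable (Ap_sym k T) hU0.le hAi
    -- the zero part
    have hzero : |∫ p in {p : ℂ × ℂ | p.1.im = 0}, Ap k T p ∂(muZ.prod muZ)| ≤ C1 * C0 := by
      have h5 : IntegrableOn (fun p : ℂ × ℂ => q4 (L * (p.1.im - p.2.im))) {p | p.1.im = 0} (muZ.prod muZ) :=
        i1.mono_set (by
          intro p hp
          have hp' : p.1.im = 0 := hp
          show |p.1.im| ≤ U
          rw [hp', abs_zero]; exact hU0.le)
      have h6 : ∫ p in {p : ℂ × ℂ | p.1.im = 0}, q4 (L * (p.1.im - p.2.im)) ∂(muZ.prod muZ) ≤ C0 := by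
        rw [← ENNReal.ofReal_le_ofReal_iff hC0.le,
          ofReal_integral_eq_lintegral_ofReal h5 (Eventually.of_forall fun p => (q4_pos _).le)]
        exact hZ L hL1
      rw [← Real.norm_eq_abs]
      calc ‖∫ p in {p : ℂ × ℂ | p.1.im = 0}, Ap k T p ∂(muZ.prod muZ)‖
          ≤ ∫ p in {p : ℂ × ℂ | p.1.im = 0}, C1 * q4 (L * (p.1.im - p.2.im)) ∂(muZ.prod muZ) :=
            norm_integral_le_of_norm_le (h5.const_mul C1) (Eventually.of_forall fun p => hq _)
        _ = C1 * ∫ p in {p : ℂ × ℂ | p.1.im = 0}, q4 (L * (p.1.im - p.2.im)) ∂(muZ.prod muZ) :=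
            integral_const_mul _ _
        _ ≤ _ := by gcongr
    -- the change of scale
    have hsub : {p : ℂ × ℂ | 0 < p.1.im ∧ p.1.im ≤ U} ⊆ {p : ℂ × ℂ | |p.1.im| ≤ U} := by
      rintro p ⟨a, b⟩
      show |p.1.im| ≤ U
      rw [abs_of_pos a]; exact b
    have hm0 : 0 < L - D := by linarith
    have hm1 : 1 ≤ L - D := by linarith
    obtain ⟨i2, v2⟩ := hPB U h2 (L - D) hm1 (by linarith)
    obtain ⟨i3, -⟩ := hPB U h2 (Real.log U) hlU1 (by linarith)
    have hAi' : IntegrableOn (Ap k U) {p : ℂ × ℂ | |p.1.im| ≤ U} (muZ.prod muZ) := by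
      refine Integrable.mono' (i3.const_mul C1) (Ap_cont hk U).aestronglyMeasurable
        (Eventually.of_forall fun p => hq _)
    have hscale : |(∫ p in {p : ℂ × ℂ | 0 < p.1.im ∧ p.1.im ≤ U}, Ap k T p ∂(muZ.prod muZ)) -
        ∫ p in {p : ℂ × ℂ | 0 < p.1.im ∧ p.1.im ≤ U}, Ap k U p ∂(muZ.prod muZ)| ≤
        C2 * (D / (L - D)) * (C * (U * Real.log U)) := by
      rw [← integral_sub (hAi.mono_set hsub) (hAi'.mono_set hsub), ← Real.norm_eq_abs]
      calc ‖∫ p in {p : ℂ × ℂ | 0 < p.1.im ∧ p.1.im ≤ U}, (Ap k T p - Ap k U p) ∂(muZ.prod muZ)‖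
          ≤ ∫ p in {p : ℂ × ℂ | 0 < p.1.im ∧ p.1.im ≤ U}, C2 * (D / (L - D)) * q4 ((L - D) * (p.1.im - p.2.im)) ∂(muZ.prod muZ) := by
            apply norm_integral_le_of_norm_le ((i2.mono_set hsub).const_mul _)
            refine Eventually.of_forall fun p => ?_
            rw [Real.norm_eq_abs]
            unfold Ap
            refine (hlip L (Real.log U) (L - D) hm0 (by linarith) (by linarith) _).trans ?_
            rw [mul_assoc]
            have : |L - Real.log U| ≤ D := by rw [abs_sub_comm]; exact hlog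
            have := q4_pos ((L - D) * (p.1.im - p.2.im))
            gcongr
        _ = C2 * (D / (L - D)) * ∫ p in {p : ℂ × ℂ | 0 < p.1.im ∧ p.1.im ≤ U}, q4 ((L - D) * (p.1.im - p.2.im)) ∂(muZ.prod muZ) :=
            integral_const_mul _ _
        _ ≤ C2 * (D / (L - D)) * (C * (U * Real.log U)) := by
            gcongr
            refine le_trans ?_ v2
            exact setIntegral_mono_set i2 (Eventually.of_forall fun _ => (q4_pos _).le)
              (Eventually.of_forall hsub)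
    rw [hsplit, hsp U h3]
    have hNT : NT U = U * Real.log U / (2 * π) := rfl
    set S1 := ∫ p in {p : ℂ × ℂ | 0 < p.1.im ∧ p.1.im ≤ U}, Ap k T p ∂(muZ.prod muZ) with hS1
    set S2 := ∫ p in {p : ℂ × ℂ | 0 < p.1.im ∧ p.1.im ≤ U}, Ap k U p ∂(muZ.prod muZ) with hS2
    set Z0 := ∫ p in {p : ℂ × ℂ | p.1.im = 0}, Ap k T p ∂(muZ.prod muZ) with hZ0
    have hUx : U * κ T = x := by rw [hU]; field_simp
    have e1 : 2 * (x * (Real.log U / L) / (2 * π)) * (S2 / NT U) = κ T / L * (2 * S2) := by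
      rw [hNT, ← hUx]
      have hlU0 : Real.log U ≠ 0 := by linarith
      field_simp
    rw [e1]
    have e2 : κ T / L * (2 * S1 + Z0) - κ T / L * (2 * S2) = κ T / L * (2 * (S1 - S2) + Z0) := by ring
    rw [e2, Real.norm_eq_abs, abs_mul, abs_of_pos (by positivity : 0 < κ T / L)]
    have e3 : |2 * (S1 - S2) + Z0| ≤ 2 * (C2 * (D / (L - D)) * (C * (U * Real.log U))) + C1 * C0 := by
      refine (abs_add_le _ _).trans ?_
      rw [abs_mul, abs_of_pos (show (0:ℝ) < 2 by norm_num)]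
      linarith
    have hnn : 0 ≤ C2 * (D / (L - D)) * (C * (x * (Real.log U / L))) := by positivity
    calc κ T / L * |2 * (S1 - S2) + Z0| ≤ κ T / L *
          (2 * (C2 * (D / (L - D)) * (C * (U * Real.log U))) + C1 * C0) := by gcongr
      _ = κ T / L * (C1 * C0) + 2 * (C2 * (D / (L - D)) * (C * (U * κ T * (Real.log U / L)))) := by
          field_simp
          ring
      _ = κ T / L * (C1 * C0) + 2 * (C2 * (D / (L - D)) * (C * (x * (Real.log U / L)))) := by
          rw [hUx]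
      _ ≤ _ := by
          have : 4 * C2 * (C * (x * (Real.log U / L))) * (D / (L - D)) =
            4 * (C2 * (D / (L - D)) * (C * (x * (Real.log U / L)))) := by ring
          rw [this]
          linarith
  have := hmain.add hdiff
  rw [add_zero] at this
  refine this.congr fun T => ?_
  ring

end Pool.Agent.PairCorr.P6
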