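import Mathlib
import Pool.Agent.PairCorr.P6_S2

set_option autoImplicit false

namespace Pool.Agent.PairCorr.P6

open MeasureTheory Filter Topology Set Real
open scoped ENNReal ComplexConjugate
open Pool.Agent.PairCorr.P1 (q4 q4_pos snc snc_mul snc_zero snc_neg abs_snc_le contDiff_snc)
open Pool.Agent.PairCorr.R3 (sinc2_integrable integral_sinc2_Ioi tail_le)

variable {ψ k k' : ℝ → ℝ} {b e : ℝ}

/-! ### the Fejér weight -/

lemma sinc2_eq {u : ℝ} (hu : u ≠ 0) : sinc2 u = snc (π * u) ^ 2 := by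
  unfold sinc2
  congr 1
  have h := snc_mul (π * u)
  have : π * u ≠ 0 := mul_ne_zero Real.pi_ne_zero hu
  rw [← h]; field_simp

lemma snc2_le_one (x : ℝ) : snc x ^ 2 ≤ 1 := by
  rw [← sq_abs]; exact pow_le_one₀ (abs_nonneg _) (abs_snc_le x)

lemma snc2_tail {x : ℝ} (hx : 0 < x) : snc (x / 2) ^ 2 ≤ 4 * (x ^ 2)⁻¹ := by
  have h := snc_mul (x / 2)
  have h2 : (x / 2) ^ 2 * snc (x / 2) ^ 2 ≤ 1 := by
    rw [← mul_pow, h]; exact Real.sin_sq_le_one _
  rw [← div_eq_mul_inv, le_div_iff₀ (by positivity)]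
  nlinarith

lemma snc2_cont : Continuous fun x : ℝ => snc (x / 2) ^ 2 := by
  have := contDiff_snc.continuous
  fun_prop

lemma snc2_int_Ioi : IntegrableOn (fun x : ℝ => snc (x / 2) ^ 2) (Ioi 0) ∧
    ∫ x in Ioi (0:ℝ), snc (x / 2) ^ 2 = π := by
  have hpi := Real.pi_pos
  have h1 : ∫ u in Ioi (0:ℝ), snc (π * u) ^ 2 = 1 / 2 := by
    rw [← integral_sinc2_Ioi]
    apply setIntegral_congr_fun measurableSet_Ioi
    intro u hu
    exact (sinc2_eq (ne_of_gt hu)).symm
  have h2 : IntegrableOn (fun u : ℝ => snc (π * u) ^ 2) (Ioi 0) := by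
    refine sinc2_integrable.integrableOn.congr_fun ?_ measurableSet_Ioi
    intro u hu
    exact sinc2_eq (ne_of_gt hu)
  have e1 : (fun u : ℝ => snc (π * u) ^ 2) = fun u => (fun x : ℝ => snc (x / 2) ^ 2) ((2 * π) * u) := by
    funext u; simp only; congr 2; ring
  constructor
  · have h3 := (integrableOn_Ioi_comp_mul_left_iff (fun x : ℝ => snc (x / 2) ^ 2) 0
      (show 0 < 2 * π by positivity)).1 (by rw [← e1]; exact h2)
    rwa [mul_zero] at h3
  · have h3 := integral_comp_mul_left_Ioi (fun x : ℝ => snc (x / 2) ^ 2) 0 (show 0 < 2 * π by positivity)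
    rw [← e1, h1, mul_zero, smul_eq_mul] at h3
    field_simp at h3
    linarith

/-- the truncated Fejér weight -/
noncomputable def fX (X x : ℝ) : ℝ := snc (x / 2) ^ 2 * Real.smoothTransition (2 - x / X)

lemma fX_smooth (X : ℝ) : ContDiff ℝ (⊤ : ℕ∞) (fX X) := by
  unfold fX
  apply ContDiff.mul
  · exact (contDiff_snc.comp (by fun_prop)).pow 2
  · exact Real.smoothTransition.contDiff.comp (by fun_prop)

lemma fX_zero {X x : ℝ} (hX : 0 < X) (hx : 2 * X ≤ x) : fX X x = 0 := by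
  unfold fX
  rw [Real.smoothTransition.zero_of_nonpos, mul_zero]
  have : 2 ≤ x / X := by rw [le_div_iff₀ hX]; exact hx
  linarith

lemma fX_eq {X x : ℝ} (hX : 0 < X) (hx : x ≤ X) : fX X x = snc (x / 2) ^ 2 := by
  unfold fX
  rw [Real.smoothTransition.one_of_one_le, mul_one]
  have : x / X ≤ 1 := by rw [div_le_one hX]; exact hx
  linarith

lemma fX_nonneg (X x : ℝ) : 0 ≤ fX X x := mul_nonneg (sq_nonneg _) (Real.smoothTransition.nonneg _)

lemma fX_le (X x : ℝ) : fX X x ≤ snc (x / 2) ^ 2 :=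
  mul_le_of_le_one_right (sq_nonneg _) (Real.smoothTransition.le_one _)

lemma fX_integral {X : ℝ} (hX : 0 < X) : |(∫ x in (0:ℝ)..(2 * X), fX X x) - π| ≤ 4 / X := by
  obtain ⟨hi, hv⟩ := snc2_int_Ioi
  have h2X : (0:ℝ) ≤ 2 * X := by positivity
  have hc := (fX_smooth X).continuous
  have hup : ∫ x in (0:ℝ)..(2 * X), fX X x ≤ π := by
    rw [intervalIntegral.integral_of_le h2X, ← hv]
    calc ∫ x in Ioc 0 (2 * X), fX X x ≤ ∫ x in Ioc 0 (2 * X), snc (x / 2) ^ 2 :=
          setIntegral_mono (hc.integrableOn_Ioc) (snc2_cont.integrableOn_Ioc) (fun x => fX_le X x)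
      _ ≤ _ := setIntegral_mono_set hi (Eventually.of_forall fun _ => sq_nonneg _)
          (Eventually.of_forall fun x hx => hx.1)
  have hlo : π - 4 / X ≤ ∫ x in (0:ℝ)..(2 * X), fX X x := by
    have h1 : ∫ x in Ioc 0 X, snc (x / 2) ^ 2 ≤ ∫ x in (0:ℝ)..(2 * X), fX X x := by
      rw [intervalIntegral.integral_of_le h2X]
      have e1 : ∫ x in Ioc 0 X, snc (x / 2) ^ 2 = ∫ x in Ioc 0 X, fX X x :=
        setIntegral_congr_fun measurableSet_Ioc fun x hx => (fX_eq hX hx.2).symm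
      rw [e1]
      exact setIntegral_mono_set (hc.integrableOn_Ioc) (Eventually.of_forall fun _ => fX_nonneg _ _)
        (Eventually.of_forall fun x (hx : x ∈ Ioc 0 X) => ⟨hx.1, by linarith [hx.2]⟩)
    have h2 : ∫ x in Ioi X, snc (x / 2) ^ 2 ≤ 4 / X := by
      have h3 : ∫ x in Ioi X, 4 * (x ^ 2)⁻¹ = 4 / X := by
        rw [integral_const_mul]
        have h4 := integral_Ioi_rpow_of_lt (show (-2:ℝ) < -1 by norm_num) hX
        have h5 : ∫ x in Ioi X, (x ^ 2)⁻¹ = ∫ x in Ioi X, x ^ (-2:ℝ) := by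
          apply setIntegral_congr_fun measurableSet_Ioi
          intro x hx
          have hx0 : 0 < x := hX.trans hx
          simp only
          rw [Real.rpow_neg hx0.le, Real.rpow_two]
        rw [h5, h4]
        norm_num
        rw [Real.rpow_neg_one]
        field_simp
      rw [← h3]
      apply setIntegral_mono_on (hi.mono_set (Ioi_subset_Ioi hX.le)) _ measurableSet_Ioi
      · intro x hx
        exact snc2_tail (hX.trans hx)
      · have h4 := integrableOn_Ioi_rpow_of_lt (show (-2:ℝ) < -1 by norm_num) hX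
        have h5 : IntegrableOn (fun x : ℝ => 4 * x ^ (-2:ℝ)) (Ioi X) := h4.const_mul 4
        refine h5.congr_fun ?_ measurableSet_Ioi
        intro x hx
        have hx0 : 0 < x := hX.trans hx
        simp only
        rw [Real.rpow_neg hx0.le, Real.rpow_two]
    have h3 : ∫ x in Ioi (0:ℝ), snc (x / 2) ^ 2 = (∫ x in Ioc 0 X, snc (x / 2) ^ 2) +
        ∫ x in Ioi X, snc (x / 2) ^ 2 := by
      rw [← setIntegral_union (Ioc_disjoint_Ioi le_rfl) measurableSet_Ioi
        (hi.mono_set (fun x hx => hx.1)) (hi.mono_set (Ioi_subset_Ioi hX.le)), Ioc_union_Ioi_eq_Ioi hX.le]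
    rw [hv] at h3
    linarith
  rw [abs_le]
  have : 0 < 4 / X := by positivity
  constructor <;> linarith

lemma Gk_abs (κ γ : ℝ) : Gk κ γ = κ ^ 2 * snc (κ * |γ| / 2) ^ 2 := by
  rcases abs_choice γ with h | h <;> rw [h]
  · rfl
  · rw [← Gk_even]; rfl

/-- the cut-off part of the weight -/
lemma cut_tail {κ X : ℝ} (hκ : 0 < κ) (hX : 0 < X) (γ : ℝ) :
    |Gk κ γ - κ ^ 2 * fX X (κ * |γ|)| ≤ 8 * hw (κ / X) γ := by
  rw [Gk_abs, ← mul_sub, abs_mul, abs_of_nonneg (sq_nonneg κ)]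
  have h0 : 0 ≤ snc (κ * |γ| / 2) ^ 2 - fX X (κ * |γ|) := by linarith [fX_le X (κ * |γ|)]
  rw [abs_of_nonneg h0]
  rcases le_or_gt (κ * |γ|) X with h | h
  · rw [fX_eq hX h, sub_self, mul_zero]
    exact mul_nonneg (by norm_num) (hw_nonneg _ _)
  · have hpos : 0 < κ * |γ| := hX.trans h
    have h1 := snc2_tail hpos
    have h2 := fX_nonneg X (κ * |γ|)
    have hγ : 0 < |γ| := by
      by_contra hc
      push Not at hc
      have := mul_nonpos_of_nonneg_of_nonpos hκ.le hc
      linarith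
    have hγ2 : γ ^ 2 = |γ| ^ 2 := (sq_abs γ).symm
    have h3 : κ ^ 2 * (snc (κ * |γ| / 2) ^ 2 - fX X (κ * |γ|)) ≤ 4 * (|γ| ^ 2)⁻¹ := by
      calc κ ^ 2 * (snc (κ * |γ| / 2) ^ 2 - fX X (κ * |γ|)) ≤ κ ^ 2 * (4 * ((κ * |γ|) ^ 2)⁻¹) := by
            gcongr; linarith
        _ = _ := by field_simp
    refine h3.trans ?_
    unfold hw
    have h4 : 1 ≤ (κ / X * γ) ^ 2 := by
      rw [← sq_abs (κ / X * γ), abs_mul, abs_of_pos (by positivity : 0 < κ / X)]
      apply one_le_pow₀
      rw [div_mul_eq_mul_div, le_div_iff₀ hX]; linarith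
    rw [← mul_div_assoc, le_div_iff₀ (by positivity), ← div_eq_mul_inv, div_mul_eq_mul_div,
      div_le_iff₀ (by positivity), ← hγ2]
    have h5 : (κ / X * γ) ^ 2 = (κ / X) ^ 2 * γ ^ 2 := by ring
    nlinarith

/-- **Abelian theorem for the pair sums.** -/
theorem PF_of_Spair0 (hk : TF k b) {c : ℝ} (hS : Tendsto (fun U => (Spair0 k U).re / NT U) atTop (𝓝 c))
    {κ : ℝ → ℝ} (hκ : Near κ) {lam : ℝ} (hlam : Tendsto (fun T => T * κ T) atTop (𝓝 lam)) :
    Tendsto (fun T => T / Real.log T * PF (κ T) (Real.log T) k) atTop (𝓝 (lam * c)) := by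
  obtain ⟨C, hC, U₀, hU₀, hPB⟩ := PB_real
  obtain ⟨C1, hC1, hq⟩ := rr_q4 hk
  obtain ⟨C3, hC3, κ₀, hκ₀, hpb⟩ := pair_bound
  obtain ⟨C4, hC4, κ₁, hκ₁, hpf⟩ := PF_bound hk
  have hpi := Real.pi_pos
  apply tendsto_of_approx
  intro ε hε
  -- choice of the truncation
  obtain ⟨X, hX1, hXe1, hXe2⟩ : ∃ X : ℝ, 1 ≤ X ∧ C3 * (8 * C1) * (|lam| + 1) / X ≤ ε ∧
      |lam| * |c / π| * (4 / X) ≤ ε := by
    set K := C3 * (8 * C1) * (|lam| + 1) + |lam| * |c / π| * 4 with hK
    have hK0 : 0 ≤ K := by positivity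
    refine ⟨K / ε + 1, by have : 0 ≤ K / ε := by positivity
                          linarith, ?_, ?_⟩
    · rw [div_le_iff₀ (by positivity)]
      have : ε * (K / ε + 1) = K + ε := by field_simp
      rw [this, hK]
      have : 0 ≤ |lam| * |c / π| * 4 := by positivity
      linarith
    · rw [← mul_div_assoc, div_le_iff₀ (by positivity)]
      have : ε * (K / ε + 1) = K + ε := by field_simp
      rw [this, hK]
      have : 0 ≤ C3 * (8 * C1) * (|lam| + 1) := by positivity
      linarith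
  have hX0 : 0 < X := by linarith
  have hab : Tendsto (fun T => κ T / Real.log T * ∫ p, fX X (κ T * |p.1.im|) * Ap k T p ∂(muZ.prod muZ))
      atTop (𝓝 (c / π * ∫ x in (0:ℝ)..(2 * X), fX X x)) := by
    have hsm := fX_smooth X
    refine abel_abs (M := muZ.prod muZ) (g := fun p : ℂ × ℂ => |p.1.im|) (by fun_prop)
      (fun p => abs_nonneg _) (A := fun T p => Ap k T p)
      (fun T => (Ap_cont hk T).aestronglyMeasurable) ?_ ?_ (fun x hx => S2_lim hk hS hκ hx) ?_
      (f' := deriv (fX X)) (fun x => (hsm.differentiable (by norm_num) x).hasDerivAt)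
      (hsm.continuous_deriv (by norm_num)) (by positivity) (fun x hx => fX_zero hX0 hx)
    · filter_upwards [hκ.ev one_pos] with T hT using hT.1
    · filter_upwards [hκ.ev one_pos, log_ev 1] with T hT hL
      have := hT.1
      positivity
    · intro Y hY
      obtain ⟨D, hD, hld⟩ := hκ.log_diff hY
      refine ⟨C1 * (C * (Y * 2)), ?_⟩
      filter_upwards [hld, (hκ.u_tendsto hY).eventually_ge_atTop U₀, log_ev (D + 1)] with T h1 h2 h3
      obtain ⟨hκ0, hlog⟩ := h1
      obtain ⟨l1, l2⟩ := abs_le.1 hlog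
      have hL1 : 1 ≤ Real.log T := by linarith
      have hL0 : 0 < Real.log T := by linarith
      obtain ⟨i1, v1⟩ := hPB (Y / κ T) h2 (Real.log T) hL1 (by linarith)
      have hUe : Real.exp 1 ≤ Y / κ T := hU₀.trans h2
      have hU0 : 0 < Y / κ T := (Real.exp_pos 1).trans_le hUe
      have hlU1 : 1 ≤ Real.log (Y / κ T) := by rw [Real.le_log_iff_exp_le hU0]; exact hUe
      have hAi : IntegrableOn (Ap k T) {p : ℂ × ℂ | |p.1.im| ≤ Y / κ T} (muZ.prod muZ) := by
        refine Integrable.mono' (i1.const_mul C1) (Ap_cont hk T).aestronglyMeasurable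
          (Eventually.of_forall fun p => hq _)
      refine ⟨hAi, ?_⟩
      have h4 : ∫ p in {p : ℂ × ℂ | |p.1.im| ≤ Y / κ T}, |Ap k T p| ∂(muZ.prod muZ) ≤
          C1 * (C * (Y / κ T * Real.log (Y / κ T))) := by
        calc ∫ p in {p : ℂ × ℂ | |p.1.im| ≤ Y / κ T}, |Ap k T p| ∂(muZ.prod muZ)
            ≤ ∫ p in {p : ℂ × ℂ | |p.1.im| ≤ Y / κ T}, C1 * q4 (Real.log T * (p.1.im - p.2.im)) ∂(muZ.prod muZ) :=
              integral_mono hAi.abs (i1.const_mul C1) (fun p => hq _)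
          _ = C1 * ∫ p in {p : ℂ × ℂ | |p.1.im| ≤ Y / κ T}, q4 (Real.log T * (p.1.im - p.2.im)) ∂(muZ.prod muZ) :=
              integral_const_mul _ _
          _ ≤ _ := by gcongr
      calc κ T / Real.log T * ∫ p in {p : ℂ × ℂ | |p.1.im| ≤ Y / κ T}, |Ap k T p| ∂(muZ.prod muZ)
          ≤ κ T / Real.log T * (C1 * (C * (Y / κ T * Real.log (Y / κ T)))) := by gcongr
        _ = C1 * (C * (Y * (Real.log (Y / κ T) / Real.log T))) := by field_simp
        _ ≤ C1 * (C * (Y * 2)) := by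
            gcongr
            rw [div_le_iff₀ hL0]; linarith
  refine ⟨fun T => (T * κ T) * (κ T / Real.log T * ∫ p, fX X (κ T * |p.1.im|) * Ap k T p ∂(muZ.prod muZ)),
    lam * (c / π * ∫ x in (0:ℝ)..(2 * X), fX X x), hlam.mul hab, ?_, ?_⟩
  · have e1 : lam * (c / π * ∫ x in (0:ℝ)..(2 * X), fX X x) - lam * c =
        lam * (c / π) * ((∫ x in (0:ℝ)..(2 * X), fX X x) - π) := by field_simp
    rw [e1, abs_mul, abs_mul]
    refine le_trans ?_ hXe2
    gcongr
    exact fX_integral hX0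
  · have hlog : ∀ᶠ T : ℝ in atTop, Real.log X + Real.log (1 / κ T) ≤ 2 * Real.log T := by
      obtain ⟨D, hD, hld⟩ := hκ.log_diff one_pos
      filter_upwards [hld, log_ev (D + Real.log X)] with T h1 h2
      have := (abs_le.1 h1.2).2
      linarith
    filter_upwards [hκ.ev (lt_min hκ₀ hκ₁), hlog, log_ev 1, eventually_gt_atTop 0,
      hlam.abs.eventually_lt_const (show |lam| < |lam| + 1 by linarith)] with T h1 h2 h3 hT0 h5
    obtain ⟨a1, a2, a3⟩ := h1
    have hL0 : 0 < Real.log T := by linarith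
    obtain ⟨i1, -⟩ := hpf (κ T) a1 (a2.trans (min_le_right _ _)) (Real.log T) h3 a3
    have hκX : 0 < κ T / X := by positivity
    have hκX' : κ T / X ≤ κ₀ := by
      refine (div_le_self a1.le hX1).trans (a2.trans (min_le_left _ _))
    have hlogX : Real.log (1 / (κ T / X)) ≤ 2 * Real.log T := by
      have : 1 / (κ T / X) = X * (1 / κ T) := by field_simp
      rw [this, Real.log_mul (by positivity) (by positivity)]
      exact h2
    set F : ℂ × ℂ → ℝ := fun p => Gk (κ T) p.1.im * Ap k T p - κ T ^ 2 * (fX X (κ T * |p.1.im|) * Ap k T p)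
      with hF
    have hfm : AEStronglyMeasurable (fun p : ℂ × ℂ => fX X (κ T * |p.1.im|) * Ap k T p) (muZ.prod muZ) := by
      apply Continuous.aestronglyMeasurable
      have h6 := (fX_smooth X).continuous
      have h7 := Ap_cont hk T
      apply Continuous.mul _ h7
      exact h6.comp (by fun_prop)
    have hFb : ∀ p : ℂ × ℂ, |F p| ≤ (8 * C1) * (hw (κ T / X) p.1.im * q4 (Real.log T * (p.1.im - p.2.im))) := by
      intro p
      simp only [hF]
      rw [← mul_assoc, ← sub_mul, abs_mul]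
      have := q4_pos (Real.log T * (p.1.im - p.2.im))
      have := hw_nonneg (κ T / X) p.1.im
      calc |Gk (κ T) p.1.im - κ T ^ 2 * fX X (κ T * |p.1.im|)| * |Ap k T p|
          ≤ (8 * hw (κ T / X) p.1.im) * (C1 * q4 (Real.log T * (p.1.im - p.2.im))) := by
            apply mul_le_mul (cut_tail a1 hX0 _) (hq _) (abs_nonneg _) (by positivity)
        _ = _ := by ring
    obtain ⟨hFi, hFv⟩ := hpb (κ T / X) hκX hκX' (Real.log T) h3 hlogX F (8 * C1)
      ((PFi_meas hk _ _).aestronglyMeasurable.sub (hfm.const_mul _)) (by positivity) hFb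
    have hgi : Integrable (fun p : ℂ × ℂ => κ T ^ 2 * (fX X (κ T * |p.1.im|) * Ap k T p)) (muZ.prod muZ) := by
      have := i1.sub hFi
      refine this.congr (Eventually.of_forall fun p => ?_)
      simp only [hF, Pi.sub_apply, Ap]
      ring
    have e1 : ∫ p, F p ∂(muZ.prod muZ) = PF (κ T) (Real.log T) k -
        κ T ^ 2 * ∫ p, fX X (κ T * |p.1.im|) * Ap k T p ∂(muZ.prod muZ) := by
      rw [← integral_const_mul]
      exact integral_sub i1 hgi
    rw [e1] at hFv
    have e2 : T / Real.log T * PF (κ T) (Real.log T) k - (T * κ T) *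
        (κ T / Real.log T * ∫ p, fX X (κ T * |p.1.im|) * Ap k T p ∂(muZ.prod muZ)) =
        T / Real.log T * (PF (κ T) (Real.log T) k -
        κ T ^ 2 * ∫ p, fX X (κ T * |p.1.im|) * Ap k T p ∂(muZ.prod muZ)) := by
      field_simp
    rw [e2, abs_mul, abs_of_pos (by positivity : 0 < T / Real.log T)]
    refine le_trans ?_ hXe1
    have h6 : T * κ T ≤ |lam| + 1 := by
      have := le_abs_self (T * κ T)
      linarith
    calc T / Real.log T * |_| ≤ T / Real.log T * (C3 * (8 * C1) * (κ T / X * Real.log T)) := by gcongr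
      _ = C3 * (8 * C1) * (T * κ T) / X := by field_simp
      _ ≤ _ := by gcongr

end Pool.Agent.PairCorr.P6
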