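import Mathlib
import Pool.Agent.PairCorr.P6_AbelPF

set_option autoImplicit false

namespace Pool.Agent.PairCorr.P6

open MeasureTheory Filter Topology Set Real
open scoped ENNReal ComplexConjugate
open Pool.Agent.PairCorr.P1 (q4 q4_pos snc snc_mul snc_zero snc_neg abs_snc_le contDiff_snc)

variable {ψ k k' : ℝ → ℝ} {b e : ℝ}

lemma muZ_im_zero_lt_top : muZ {z : ℂ | z.im = 0} < ⊤ := by
  obtain ⟨C0, hC0, hw⟩ := muZ_window
  refine lt_of_le_of_lt (measure_mono ?_) ((hw 0).trans_lt ENNReal.ofReal_lt_top)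
  intro z hz
  have hz' : z.im = 0 := hz
  show |z.im - 0| ≤ 1
  rw [hz']; simp

lemma muZ_neg (U : ℝ) : muZ {z : ℂ | z.im < 0 ∧ -U ≤ z.im} = muZ (WT U) := by
  have h := mp_conj.measure_preimage (measurableSet_WT U).nullMeasurableSet
  rw [← h]
  congr 1
  ext z
  simp only [WT, mem_preimage, mem_ofPred_eq, Complex.conj_im]
  constructor
  · rintro ⟨a, b⟩; exact ⟨by linarith, by linarith⟩
  · rintro ⟨a, b⟩; exact ⟨by linarith, by linarith⟩

/-- the number of zeros with `|γ| ≤ U` -/
lemma muZ_abs {U : ℝ} (hU : 0 ≤ U) : muZ {z : ℂ | |z.im| ≤ U} =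
    2 * ENNReal.ofReal (NCount U) + muZ {z : ℂ | z.im = 0} := by
  have hm : Measurable fun z : ℂ => z.im := by fun_prop
  have hS2 : MeasurableSet {z : ℂ | z.im < 0 ∧ -U ≤ z.im} :=
    (measurableSet_lt hm measurable_const).inter (measurableSet_le measurable_const hm)
  have hS3 : MeasurableSet {z : ℂ | z.im = 0} := hm (measurableSet_singleton 0)
  have hset : {z : ℂ | |z.im| ≤ U} = (WT U ∪ {z : ℂ | z.im < 0 ∧ -U ≤ z.im}) ∪ {z : ℂ | z.im = 0} := by
    ext p
    simp only [WT, mem_ofPred_eq, mem_union, abs_le]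
    constructor
    · rintro ⟨h1, h2⟩
      rcases lt_trichotomy p.im 0 with h | h | h
      · left; right; exact ⟨h, h1⟩
      · right; exact h
      · left; left; exact ⟨h, h2⟩
    · rintro ((⟨h1, h2⟩ | ⟨h1, h2⟩) | h)
      · exact ⟨by linarith, h2⟩
      · exact ⟨h2, by linarith⟩
      · exact ⟨by linarith, by linarith⟩
  have hN : muZ (WT U) = ENNReal.ofReal (NCount U) := by
    rw [← muW_univ]; unfold muW; rw [Measure.restrict_apply_univ]
  rw [hset, measure_union _ hS3, measure_union _ hS2, muZ_neg, hN]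
  · ring
  · rw [Set.disjoint_left]
    rintro p ⟨h1, h2⟩ ⟨h3, h4⟩
    linarith
  · rw [Set.disjoint_left]
    rintro p (⟨h1, h2⟩ | ⟨h1, h2⟩) h3
    · have h3' : p.im = 0 := h3
      linarith
    · have h3' : p.im = 0 := h3
      linarith

lemma muZ_abs_toReal {U : ℝ} (hU : 0 ≤ U) : (muZ {z : ℂ | |z.im| ≤ U}).toReal =
    2 * NCount U + (muZ {z : ℂ | z.im = 0}).toReal := by
  rw [muZ_abs hU, ENNReal.toReal_add (by finiteness) muZ_im_zero_lt_top.ne, ENNReal.toReal_mul,
    ENNReal.toReal_ofReal (NCount_nonneg U)]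
  rfl

lemma muZ_abs_lt_top {U : ℝ} (hU : 0 ≤ U) : muZ {z : ℂ | |z.im| ≤ U} < ⊤ := by
  rw [muZ_abs hU]
  exact ENNReal.add_lt_top.2 ⟨by finiteness, muZ_im_zero_lt_top⟩

lemma S1_lim {κ : ℝ → ℝ} (hκ : Near κ) {x : ℝ} (hx : 0 < x) :
    Tendsto (fun T => κ T / Real.log T * ∫ _z in {z : ℂ | |z.im| ≤ x / κ T}, (1:ℝ) ∂muZ)
      atTop (𝓝 (1 / π * x)) := by
  have hu := hκ.u_tendsto hx
  have hr := hκ.log_ratio hx
  have hpi := Real.pi_pos
  have hmain : Tendsto (fun T => 2 * (x * (Real.log (x / κ T) / Real.log T) / (2 * π)) *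
      (NCount (x / κ T) / NT (x / κ T)) + κ T / Real.log T * (muZ {z : ℂ | z.im = 0}).toReal) atTop
      (𝓝 (2 * (x * 1 / (2 * π)) * 1 + 0 * (muZ {z : ℂ | z.im = 0}).toReal)) := by
    apply Tendsto.add
    · exact (((hr.const_mul x).div_const _).const_mul 2).mul (NCount_NT.comp hu)
    · apply Tendsto.mul_const
      have h2 : Tendsto κ atTop (𝓝 0) := by
        obtain ⟨c', C', hc', h⟩ := hκ
        have h3 : Tendsto (fun T : ℝ => C' / T) atTop (𝓝 0) := tendsto_const_nhds.div_atTop tendsto_id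
        refine squeeze_zero' ?_ ?_ h3
        · filter_upwards [h, eventually_gt_atTop 0] with T hT hT0
          exact (by positivity : 0 ≤ c' / T).trans hT.1
        · filter_upwards [h] with T hT using hT.2
      exact h2.div_atTop Real.tendsto_log_atTop
  have e0 : 2 * (x * 1 / (2 * π)) * 1 + 0 * (muZ {z : ℂ | z.im = 0}).toReal = 1 / π * x := by
    field_simp; ring
  rw [e0] at hmain
  refine hmain.congr' ?_
  filter_upwards [hκ.ev one_pos, hu.eventually_ge_atTop (Real.exp 1), log_ev 1] with T h1 h2 hL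
  have hU0 : 0 < x / κ T := (Real.exp_pos 1).trans_le h2
  have hlU1 : 1 ≤ Real.log (x / κ T) := by rw [Real.le_log_iff_exp_le hU0]; exact h2
  have hκ0 := h1.1
  rw [setIntegral_const, smul_eq_mul, mul_one, measureReal_def, muZ_abs_toReal hU0.le]
  have hNT : NT (x / κ T) = x / κ T * Real.log (x / κ T) / (2 * π) := rfl
  rw [hNT]
  have h3 : Real.log (x / κ T) ≠ 0 := by linarith
  have h4 : Real.log T ≠ 0 := by linarith
  generalize Real.log (x / κ T) = ℓ at *
  field_simp

/-- the smoothed number of zeros -/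
lemma fX_count {κ : ℝ → ℝ} (hκ : Near κ) {X : ℝ} (hX : 0 < X) :
    Tendsto (fun T => κ T / Real.log T * ∫ z, fX X (κ T * |z.im|) ∂muZ) atTop
      (𝓝 (1 / π * ∫ x in (0:ℝ)..(2 * X), fX X x)) := by
  have hsm := fX_smooth X
  have h := abel_abs (M := muZ) (g := fun z : ℂ => |z.im|) (by fun_prop)
      (fun p => abs_nonneg _) (A := fun _ _ => (1:ℝ)) (κ := κ) (w := fun T => κ T / Real.log T) (α := 1 / π)
      (fun T => aestronglyMeasurable_const) ?_ ?_ (fun x hx => S1_lim hκ hx) ?_
      (f' := deriv (fX X)) (fun x => (hsm.differentiable (by norm_num) x).hasDerivAt)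
      (hsm.continuous_deriv (by norm_num)) (X := 2 * X) (by positivity) (fun x hx => fX_zero hX hx)
  · simpa using h
  · filter_upwards [hκ.ev one_pos] with T hT using hT.1
  · filter_upwards [hκ.ev one_pos, log_ev 1] with T hT hL
    have := hT.1
    positivity
  · intro Y hY
    refine ⟨1 / π * Y + 1, ?_⟩
    have h1 := (S1_lim hκ hY).eventually_le_const (show 1 / π * Y < 1 / π * Y + 1 by linarith)
    filter_upwards [h1, (hκ.u_tendsto hY).eventually_ge_atTop 0] with T h2 h3
    refine ⟨?_, ?_⟩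
    · exact (integrableOn_const_iff (by norm_num)).2 (Or.inr (muZ_abs_lt_top h3))
    · simpa using h2

/-- lower bound of the pair sum by the diagonal -/
theorem PF_diag_lower {K : ℝ → ℝ} (hK : TF K b) (hpos : ∀ y, 0 ≤ rr K y) {ε : ℝ} (hε : 0 < ε) :
    ∀ᶠ T : ℝ in atTop, rr K 0 * (1 - ε) ≤ T / Real.log T * PF (kap T) (Real.log T) K := by
  have hpi := Real.pi_gt_three
  obtain ⟨C4, hC4, κ₁, hκ₁, hpf⟩ := PF_bound hK
  set X : ℝ := 4 / ε with hXdef
  have hX : 0 < X := by positivity
  have h1 := T_kap.mul (fX_count near_kap hX)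
  have hJ := fX_integral hX
  have h2 : 1 - ε < 1 * (1 / π * ∫ x in (0:ℝ)..(2 * X), fX X x) := by
    have h3 := (abs_le.1 hJ).1
    have h4 : 4 / X = ε := by rw [hXdef]; field_simp
    rw [h4] at h3
    have h5 : π - ε ≤ ∫ x in (0:ℝ)..(2 * X), fX X x := by linarith
    have h6 : 1 / π * (π - ε) ≤ 1 / π * ∫ x in (0:ℝ)..(2 * X), fX X x := by gcongr
    have h7 : 1 / π * (π - ε) = 1 - ε / π := by field_simp
    have h8 : ε / π < ε := div_lt_self hε (by linarith)
    linarith
  have h3 := h1.eventually_const_lt h2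
  filter_upwards [h3, near_kap.ev hκ₁, log_ev 1, eventually_gt_atTop 0] with T g1 g2 g3 hT0
  obtain ⟨a1, a2, a3⟩ := g2
  set κ := kap T with hκ
  set L := Real.log T with hL
  have hL0 : 0 < L := by linarith
  obtain ⟨i1, -⟩ := hpf κ a1 a2 L g3 a3
  have hK0 := hpos 0
  -- the diagonal part
  have hDm : MeasurableSet {p : ℂ × ℂ | p.1.im = p.2.im} :=
    measurableSet_eq_fun (by fun_prop) (by fun_prop)
  set G : ℂ × ℂ → ℝ := {p : ℂ × ℂ | p.1.im = p.2.im}.indicator
    (fun p => κ ^ 2 * fX X (κ * |p.1.im|) * rr K 0) with hG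
  have hGm : Measurable G := by
    apply Measurable.indicator _ hDm
    have := (fX_smooth X).continuous
    have h5 : Continuous fun p : ℂ × ℂ => fX X (κ * |p.1.im|) := this.comp (by fun_prop)
    exact ((continuous_const.mul h5).mul continuous_const).measurable
  have hG0 : ∀ p, 0 ≤ G p := fun p => indicator_nonneg (fun p _ => by
    have := fX_nonneg X (κ * |p.1.im|)
    positivity) p
  have hGle : ∀ p, G p ≤ Gk κ p.1.im * rr K (L * (p.1.im - p.2.im)) := by
    intro p
    by_cases hp : p ∈ {p : ℂ × ℂ | p.1.im = p.2.im}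
    · rw [hG, indicator_of_mem hp]
      have hp' : p.1.im = p.2.im := hp
      rw [hp', sub_self, mul_zero]
      gcongr
      rw [Gk_abs]
      gcongr
      exact fX_le _ _
    · rw [hG, indicator_of_notMem hp]
      exact mul_nonneg (Gk_nonneg _ _) (hpos _)
  have hGi : Integrable G (muZ.prod muZ) :=
    Integrable.mono' i1 hGm.aestronglyMeasurable (Eventually.of_forall fun p => by
      rw [Real.norm_of_nonneg (hG0 p)]; exact hGle p)
  have hPF : ∫ p, G p ∂(muZ.prod muZ) ≤ PF κ L K := integral_mono hGi i1 hGle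
  have hinner : ∀ᵐ z ∂muZ, κ ^ 2 * fX X (κ * |z.im|) * rr K 0 ≤ ∫ w, G (z, w) ∂muZ := by
    filter_upwards [muZ_ae] with z hz
    have hms : MeasurableSet {w : ℂ | z.im = w.im} := measurableSet_eq_fun (by fun_prop) (by fun_prop)
    have e1 : ∀ w, G (z, w) = {w : ℂ | z.im = w.im}.indicator
        (fun _ => κ ^ 2 * fX X (κ * |z.im|) * rr K 0) w := by
      intro w
      by_cases hw : z.im = w.im
      · rw [hG, indicator_of_mem (show (z, w) ∈ {p : ℂ × ℂ | p.1.im = p.2.im} from hw),
          indicator_of_mem (show w ∈ {w : ℂ | z.im = w.im} from hw)]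
      · rw [hG, indicator_of_notMem (show (z, w) ∉ {p : ℂ × ℂ | p.1.im = p.2.im} from hw),
          indicator_of_notMem (show w ∉ {w : ℂ | z.im = w.im} from hw)]
    simp_rw [e1]
    rw [integral_indicator hms, setIntegral_const, smul_eq_mul, measureReal_def]
    have hlow := muZ_line_lower hz
    have hfin : muZ {w : ℂ | z.im = w.im} < ⊤ := by
      obtain ⟨C0, hC0, hw⟩ := muZ_window
      refine lt_of_le_of_lt (measure_mono ?_) ((hw z.im).trans_lt ENNReal.ofReal_lt_top)
      intro w hw'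
      have hw'' : z.im = w.im := hw'
      show |w.im - z.im| ≤ 1
      rw [hw'', sub_self, abs_zero]; exact zero_le_one
    have h6 : 1 ≤ (muZ {w : ℂ | z.im = w.im}).toReal := by
      rw [← ENNReal.toReal_one]
      exact ENNReal.toReal_mono hfin.ne hlow
    have := fX_nonneg X (κ * |z.im|)
    exact le_mul_of_one_le_left (by positivity) h6
  have hfi : Integrable (fun z : ℂ => κ ^ 2 * fX X (κ * |z.im|) * rr K 0) muZ := by
    have hbd : IntegrableOn (fun _ : ℂ => κ ^ 2 * 1 * rr K 0) {z : ℂ | |z.im| ≤ 2 * X / κ} muZ := by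
      rw [IntegrableOn]
      have : IsFiniteMeasure (muZ.restrict {z : ℂ | |z.im| ≤ 2 * X / κ}) :=
        isFiniteMeasure_restrict.2 (muZ_abs_lt_top (by positivity)).ne
      exact integrable_const _
    have hms : MeasurableSet {z : ℂ | |z.im| ≤ 2 * X / κ} := measurableSet_le (by fun_prop) measurable_const
    have h7 := (integrable_indicator_iff hms).2 hbd
    refine Integrable.mono' h7 ?_ (Eventually.of_forall fun z => ?_)
    · have := (fX_smooth X).continuous
      have h5 : Continuous fun z : ℂ => fX X (κ * |z.im|) := this.comp (by fun_prop)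
      exact ((continuous_const.mul h5).mul continuous_const).aestronglyMeasurable
    · have h8 := fX_nonneg X (κ * |z.im|)
      rw [Real.norm_of_nonneg (by positivity)]
      by_cases hz : z ∈ {z : ℂ | |z.im| ≤ 2 * X / κ}
      · rw [indicator_of_mem hz]
        gcongr
        exact (fX_le _ _).trans (snc2_le_one _)
      · rw [indicator_of_notMem hz]
        have hz' : ¬ |z.im| ≤ 2 * X / κ := hz
        rw [not_le, div_lt_iff₀ a1] at hz'
        rw [fX_zero hX (by linarith)]; simp
  have h9 : ∫ z, κ ^ 2 * fX X (κ * |z.im|) * rr K 0 ∂muZ ≤ ∫ p, G p ∂(muZ.prod muZ) := by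
    rw [integral_prod _ hGi]
    exact integral_mono_ae hfi hGi.integral_prod_left hinner
  rw [integral_mul_const, integral_const_mul] at h9
  set J := ∫ z, fX X (κ * |z.im|) ∂muZ with hJdef
  calc rr K 0 * (1 - ε) ≤ rr K 0 * (T * κ * (κ / L * J)) := by gcongr
    _ = T / L * (κ ^ 2 * J * rr K 0) := by field_simp
    _ ≤ T / L * PF κ L K := by
        gcongr
        exact h9.trans hPF

end Pool.Agent.PairCorr.P6
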