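import Mathlib
import Pool.Agent.PairCorr.P6_VLim
import Pool.Agent.PairCorr.D_Primes

set_option autoImplicit false

namespace Pool.Agent.PairCorr.P6

open MeasureTheory Filter Topology Set Real
open scoped ENNReal ArithmeticFunction.vonMangoldt

/-- `∑_{n ≤ X} Λ(n)²/n` -/
noncomputable def GLm (X : ℝ) : ℝ := ∑ n ∈ Finset.Ioc 0 ⌊X⌋₊, Λ n ^ 2 / n

lemma GLm_asymp : ∃ C : ℝ, 0 ≤ C ∧ ∀ X : ℝ, Real.exp 1 ≤ X →
    |GLm X - Real.log X ^ 2 / 2| ≤ C * Real.log X := by
  obtain ⟨C, hC, hnp⟩ := nonprime_bound
  refine ⟨C + 21, by positivity, fun X hX => ?_⟩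
  have hX0 : 0 < X := (Real.exp_pos 1).trans_le hX
  have hX2 : 2 < X := by have := Real.exp_one_gt_d9; linarith
  have hL1 : 1 ≤ Real.log X := by rw [Real.le_log_iff_exp_le hX0]; exact hX
  have hL0 : 0 < Real.log X := by linarith
  set L := Real.log X with hL
  set N := ⌊X⌋₊ with hN
  have hN1 : 1 ≤ N := by rw [hN, Nat.one_le_floor_iff]; linarith
  have hNX : (N:ℝ) ≤ X := Nat.floor_le hX0.le
  have hNX' : X < N + 1 := Nat.lt_floor_add_one X
  have hN0 : (0:ℝ) < N := by exact_mod_cast hN1
  -- log N versus log X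
  have hlogN : |Real.log N - L| ≤ 1 := by
    have h1 : Real.log N ≤ L := Real.log_le_log hN0 hNX
    have h2 : L ≤ Real.log N + 1 := by
      have h3 : X ≤ N * Real.exp 1 := by
        have := Real.exp_one_gt_d9
        have h4 : (1:ℝ) ≤ N := by exact_mod_cast hN1
        nlinarith
      have h5 := Real.log_le_log hX0 h3
      rwa [Real.log_mul hN0.ne' (Real.exp_pos 1).ne', Real.log_exp] at h5
    rw [abs_le]; constructor <;> linarith
  have hRm := Rm_bounds hN1
  -- Riemann sum with `h v = v - 1`
  have hr := riemann_mertens (h := fun v => v - 1) (by fun_prop) (by ring) (K := 1) (fun v _ => by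
    have : deriv (fun v : ℝ => v - 1) v = 1 := by simp
    rw [this]; simp) (show 1 < X by linarith)
  have hint : ∫ v in (0:ℝ)..1, (v - 1) = -(1/2) := by
    rw [intervalIntegral.integral_sub (by simp) (by simp)]
    simp; norm_num
  rw [hint] at hr
  have hsum : 1 / L * ∑ n ∈ Finset.Ioc 0 N, Λ n / n * (Real.log n / L - 1) =
      (∑ n ∈ Finset.Ioc 0 N, Λ n / n * Real.log n) / L ^ 2 - Rm N / L := by
    unfold Rm
    rw [Finset.mul_sum, Finset.sum_div, Finset.sum_div, ← Finset.sum_sub_distrib]
    apply Finset.sum_congr rfl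
    intro n _
    field_simp
  rw [hsum] at hr
  -- comparison of `Λ² ` and `Λ log`
  have hcmp : |GLm X - ∑ n ∈ Finset.Ioc 0 N, Λ n / n * Real.log n| ≤ C * L := by
    unfold GLm
    rw [← Finset.sum_sub_distrib]
    calc |∑ n ∈ Finset.Ioc 0 N, (Λ n ^ 2 / n - Λ n / n * Real.log n)|
        ≤ ∑ n ∈ Finset.Ioc 0 N, |Λ n ^ 2 / n - Λ n / n * Real.log n| := Finset.abs_sum_le_sum_abs _ _
      _ ≤ ∑ n ∈ Finset.Ioc 0 N, (if n.Prime then 0 else Λ n / n * L) := by
          apply Finset.sum_le_sum
          intro n hn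
          rw [Finset.mem_Ioc] at hn
          have hn0 : (0:ℝ) < n := by exact_mod_cast hn.1
          split_ifs with hp
          · rw [ArithmeticFunction.vonMangoldt_apply_prime hp]
            have : Real.log n ^ 2 / n - Real.log n / n * Real.log n = 0 := by ring
            rw [this, abs_zero]
          · have h1 := ArithmeticFunction.vonMangoldt_nonneg (n := n)
            have h2 := ArithmeticFunction.vonMangoldt_le_log (n := n)
            have h3 : Real.log n ≤ L := by
              apply Real.log_le_log hn0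
              calc (n:ℝ) ≤ N := by exact_mod_cast hn.2
                _ ≤ X := hNX
            have e1 : Λ n ^ 2 / n - Λ n / n * Real.log n = -(Λ n / n * (Real.log n - Λ n)) := by
              ring
            rw [e1, abs_neg, abs_of_nonneg (by
              have : 0 ≤ Real.log n - Λ n := by linarith
              positivity)]
            gcongr
            linarith
      _ = (∑ n ∈ (Finset.Ioc 0 N).filter (fun n => ¬ n.Prime), Λ n / n) * L := by
          rw [Finset.sum_mul, Finset.sum_filter]
          apply Finset.sum_congr rfl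
          intro n _
          by_cases hp : n.Prime <;> simp [hp]
      _ ≤ C * L := by gcongr; exact hnp N
  set S := ∑ n ∈ Finset.Ioc 0 N, Λ n / n * Real.log n with hS
  have h1 : |S - L ^ 2 / 2| ≤ 21 * L := by
    have e1 : S - L ^ 2 / 2 = L ^ 2 * ((S / L ^ 2 - Rm N / L) - -(1/2)) + L * (Rm N - Real.log N) +
        L * (Real.log N - L) := by
      field_simp; ring
    rw [e1]
    have b1 : |L ^ 2 * ((S / L ^ 2 - Rm N / L) - -(1/2))| ≤ L ^ 2 * (7 * 1 / L) := by
      rw [abs_mul, abs_of_nonneg (sq_nonneg L)]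
      gcongr
    have b2 : |L * (Rm N - Real.log N)| ≤ L * 6 := by
      rw [abs_mul, abs_of_pos hL0]; gcongr
    have b3 : |L * (Real.log N - L)| ≤ L * 1 := by
      rw [abs_mul, abs_of_pos hL0]; gcongr
    have b4 : L ^ 2 * (7 * 1 / L) = 7 * L := by field_simp
    rw [b4] at b1
    refine (abs_add_three _ _ _).trans ?_
    linarith
  calc |GLm X - L ^ 2 / 2| ≤ |GLm X - S| + |S - L ^ 2 / 2| := abs_sub_le _ _ _
    _ ≤ _ := by linarith

lemma GLm_lim {b : ℝ} (hb : 0 < b) (s : ℝ) :
    Tendsto (fun T : ℝ => GLm (Real.exp (b * Real.log T + s)) / Real.log T ^ 2) atTop (𝓝 (b ^ 2 / 2)) := by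
  obtain ⟨C, hC, h⟩ := GLm_asymp
  have h1 : Tendsto (fun T : ℝ => (b * Real.log T + s) ^ 2 / 2 / Real.log T ^ 2) atTop (𝓝 (b ^ 2 / 2)) := by
    have h2 : Tendsto (fun T : ℝ => (b + s / Real.log T) ^ 2 / 2) atTop (𝓝 ((b + 0) ^ 2 / 2)) :=
      ((tendsto_const_nhds.add (tendsto_const_nhds.div_atTop Real.tendsto_log_atTop)).pow 2).div_const 2
    rw [add_zero] at h2
    refine h2.congr' ?_
    filter_upwards [log_ev 1] with T hT
    have : Real.log T ≠ 0 := by linarith
    field_simp
  have h2 : Tendsto (fun T : ℝ => C * ((b * Real.log T + s) / Real.log T ^ 2)) atTop (𝓝 0) := by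
    have h3 : Tendsto (fun T : ℝ => C * ((b + s / Real.log T) / Real.log T)) atTop (𝓝 (C * 0)) := by
      apply Tendsto.const_mul
      exact (tendsto_const_nhds.add (tendsto_const_nhds.div_atTop Real.tendsto_log_atTop)).div_atTop
        Real.tendsto_log_atTop
    rw [mul_zero] at h3
    refine h3.congr' ?_
    filter_upwards [log_ev 1] with T hT
    have : Real.log T ≠ 0 := by linarith
    field_simp
  have h3 : Tendsto (fun T : ℝ => GLm (Real.exp (b * Real.log T + s)) / Real.log T ^ 2 -
      (b * Real.log T + s) ^ 2 / 2 / Real.log T ^ 2) atTop (𝓝 0) := by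
    refine squeeze_zero_norm' ?_ h2
    filter_upwards [log_ev 1, log_ev ((1 + |s|) / b)] with T hT hT2
    have hL0 : 0 < Real.log T := by linarith
    rw [div_le_iff₀ hb] at hT2
    have h4 : 1 ≤ b * Real.log T + s := by
      have := neg_abs_le s
      linarith
    have h5 := h (Real.exp (b * Real.log T + s)) (Real.exp_le_exp.2 h4)
    rw [Real.log_exp] at h5
    rw [← sub_div, norm_div, Real.norm_eq_abs, Real.norm_of_nonneg (by positivity), ← mul_div_assoc]
    gcongr
  have h4 := h3.add h1
  rw [zero_add] at h4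
  refine h4.congr fun T => ?_
  ring

/-- increments of `ψ(e^v)` -/
noncomputable def Dl (κ v : ℝ) : ℝ := Chebyshev.psi (Real.exp (v + κ)) - Chebyshev.psi (Real.exp v)

lemma Dl_nonneg {κ : ℝ} (hκ : 0 ≤ κ) (v : ℝ) : 0 ≤ Dl κ v := by
  unfold Dl
  have := Chebyshev.psi_mono (Real.exp_le_exp.2 (by linarith : v ≤ v + κ))
  linarith

lemma psi_exp_ii (a b : ℝ) : IntervalIntegrable (fun v => Chebyshev.psi (Real.exp v)) volume a b := by
  refine ii_of_bdd (C := 7 * Real.exp (|a| + |b|))
    (Chebyshev.psi_mono.measurable.comp Real.measurable_exp) ?_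
  intro x hx
  have hx' : x ≤ |a| + |b| := by
    rw [mem_uIoc] at hx
    rcases hx with h | h
    · linarith [le_abs_self b, abs_nonneg a]
    · linarith [le_abs_self a, abs_nonneg b]
  show |Chebyshev.psi (Real.exp x)| ≤ _
  rw [abs_of_nonneg (Chebyshev.psi_nonneg _)]
  refine (psi_le_seven (Real.exp_pos _).le).trans ?_
  gcongr

lemma Dl_ii (κ a b : ℝ) : IntervalIntegrable (fun v => Dl κ v) volume a b := by
  unfold Dl
  apply IntervalIntegrable.sub _ (psi_exp_ii a b)
  have := (psi_exp_ii (a + κ) (b + κ)).comp_add_right κ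
  simpa using this

lemma Dl_meas (κ : ℝ) : Measurable (Dl κ) := by
  unfold Dl
  apply Measurable.sub
  · exact Chebyshev.psi_mono.measurable.comp (by fun_prop)
  · exact Chebyshev.psi_mono.measurable.comp Real.measurable_exp

lemma Dl_int_le {κ a b : ℝ} (hκ : 0 ≤ κ) :
    ∫ v in a..b, Dl κ v ≤ κ * (7 * Real.exp (b + κ)) := by
  have h1 : ∫ v in a..b, Dl κ v = (∫ v in b..(b + κ), Chebyshev.psi (Real.exp v)) -
      ∫ v in a..(a + κ), Chebyshev.psi (Real.exp v) := by
    unfold Dl
    rw [intervalIntegral.integral_sub _ (psi_exp_ii a b),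
      intervalIntegral.integral_comp_add_right (fun v => Chebyshev.psi (Real.exp v)) κ]
    · have e1 := intervalIntegral.integral_add_adjacent_intervals (psi_exp_ii a b) (psi_exp_ii b (b + κ))
      have e2 := intervalIntegral.integral_add_adjacent_intervals (psi_exp_ii a (a + κ)) (psi_exp_ii (a + κ) (b + κ))
      linarith
    · have := (psi_exp_ii (a + κ) (b + κ)).comp_add_right κ
      simpa using this
  have h2 : 0 ≤ ∫ v in a..(a + κ), Chebyshev.psi (Real.exp v) :=
    intervalIntegral.integral_nonneg (by linarith) fun v _ => Chebyshev.psi_nonneg _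
  have h3 : ∫ v in b..(b + κ), Chebyshev.psi (Real.exp v) ≤ ∫ v in b..(b + κ), 7 * Real.exp (b + κ) := by
    apply intervalIntegral.integral_mono_on (by linarith) (psi_exp_ii _ _) (by simp)
    intro v hv
    refine (psi_le_seven (Real.exp_pos _).le).trans ?_
    have := hv.2
    gcongr
  rw [intervalIntegral.integral_const] at h3
  simp only [add_sub_cancel_left, smul_eq_mul] at h3
  linarith

/-- at most one integer in each interval -/
lemma Dl_sq {T v : ℝ} (hT : 0 < T) (hv : Real.exp v ≤ T) {N : ℕ} (hN : Real.exp (v + kap T) < N) :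
    Dl (kap T) v ^ 2 = ∑ n ∈ Finset.range N, Λ n ^ 2 *
      (Ico (Real.log n - kap T) (Real.log n)).indicator (fun _ => (1:ℝ)) v := by
  have hκ := (kap_pos hT).le
  unfold Dl
  have h1 := psi_diff (w := v) (w' := v + kap T) (by linarith) hN
  rw [add_sub_cancel_left] at h1
  rw [h1]
  -- the indicators are mutually exclusive
  have hexc : ∀ n m : ℕ, n ≠ m → 0 < n → 0 < m →
      v ∈ Ico (Real.log n - kap T) (Real.log n) → v ∉ Ico (Real.log m - kap T) (Real.log m) := by
    have key : ∀ n m : ℕ, n < m → 0 < n → v ∈ Ico (Real.log n - kap T) (Real.log n) →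
        v ∈ Ico (Real.log m - kap T) (Real.log m) → False := by
      intro n m hnm hn h2 h3
      have hn0 : (0:ℝ) < n := by exact_mod_cast hn
      have hm0 : (0:ℝ) < m := by exact_mod_cast (hn.trans hnm)
      have h4 : Real.exp v < n := by
        have := Real.exp_lt_exp.2 h2.2
        rwa [Real.exp_log hn0] at this
      have h5 : (m:ℝ) ≤ Real.exp (v + kap T) := by
        have : Real.log m ≤ v + kap T := by linarith [h3.1]
        have := Real.exp_le_exp.2 this
        rwa [Real.exp_log hm0] at this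
      rw [Real.exp_add, exp_kap hT] at h5
      have h6 : Real.exp v * (1 / T) ≤ 1 := by
        rw [mul_one_div, div_le_one hT]; exact hv
      have h7 : (n:ℝ) + 1 ≤ m := by exact_mod_cast hnm
      nlinarith
    intro n m hnm hn hm h2 h3
    rcases lt_or_gt_of_ne hnm with h | h
    · exact key n m h hn h2 h3
    · exact key m n h hm h3 h2
  by_cases hex : ∃ n ∈ Finset.range N, 0 < n ∧ v ∈ Ico (Real.log n - kap T) (Real.log n)
  · obtain ⟨n, hnN, hn0, hn⟩ := hex
    have hz : ∀ m ∈ Finset.range N, m ≠ n → Λ m * (Ico (Real.log m - kap T) (Real.log m)).indicator (fun _ => (1:ℝ)) v = 0 := by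
      intro m _ hmn
      rcases Nat.eq_zero_or_pos m with rfl | hm0
      · simp
      · rw [indicator_of_notMem (hexc n m hmn.symm hn0 hm0 hn), mul_zero]
    have hz' : ∀ m ∈ Finset.range N, m ≠ n → Λ m ^ 2 * (Ico (Real.log m - kap T) (Real.log m)).indicator (fun _ => (1:ℝ)) v = 0 := by
      intro m _ hmn
      rcases Nat.eq_zero_or_pos m with rfl | hm0
      · simp
      · rw [indicator_of_notMem (hexc n m hmn.symm hn0 hm0 hn), mul_zero]
    rw [Finset.sum_eq_single_of_mem n hnN hz, Finset.sum_eq_single_of_mem n hnN hz',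
      indicator_of_mem hn]
    ring
  · push Not at hex
    have hz : ∀ m ∈ Finset.range N, Λ m * (Ico (Real.log m - kap T) (Real.log m)).indicator (fun _ => (1:ℝ)) v = 0 := by
      intro m hm
      rcases Nat.eq_zero_or_pos m with rfl | hm0
      · simp
      · rw [indicator_of_notMem (hex m hm hm0), mul_zero]
    have hz' : ∀ m ∈ Finset.range N, Λ m ^ 2 * (Ico (Real.log m - kap T) (Real.log m)).indicator (fun _ => (1:ℝ)) v = 0 := by
      intro m hm
      rcases Nat.eq_zero_or_pos m with rfl | hm0
      · simp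
      · rw [indicator_of_notMem (hex m hm hm0), mul_zero]
    rw [Finset.sum_eq_zero hz, Finset.sum_eq_zero hz']
    simp

/-- the integral over one step -/
lemma step_int {T : ℝ} (hT : 0 < T) {n : ℕ} (hn : 0 < n) :
    ∫ v in (Real.log n - kap T)..(Real.log n), Real.exp (-v) = 1 / (T * n) := by
  have hn0 : (0:ℝ) < n := by exact_mod_cast hn
  have h1 : ∫ v in (Real.log n - kap T)..(Real.log n), Real.exp (-v) =
      -Real.exp (-Real.log n) - -Real.exp (-(Real.log n - kap T)) := by
    apply intervalIntegral.integral_eq_sub_of_hasDerivAt (f := fun v => -Real.exp (-v))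
    · intro x _
      have := ((hasDerivAt_neg x).exp).neg
      exact this.congr_deriv (by simp)
    · exact (by fun_prop : Continuous fun v : ℝ => Real.exp (-v)).intervalIntegrable _ _
  rw [h1, Real.exp_neg, Real.exp_log hn0, neg_sub, Real.exp_sub, exp_kap hT, Real.exp_log hn0]
  field_simp
  ring

lemma step_set (T : ℝ) (n : ℕ) {a b : ℝ} (hab : a ≤ b) :
    ∫ v in a..b, Real.exp (-v) * (Ico (Real.log n - kap T) (Real.log n)).indicator (fun _ => (1:ℝ)) v =
      ∫ v in Ioc a b ∩ Ico (Real.log n - kap T) (Real.log n), Real.exp (-v) := by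
  rw [intervalIntegral.integral_of_le hab, ← setIntegral_indicator measurableSet_Ico]
  congr 1; ext v
  by_cases hv : v ∈ Ico (Real.log n - kap T) (Real.log n)
  · rw [indicator_of_mem hv, indicator_of_mem hv, mul_one]
  · rw [indicator_of_notMem hv, indicator_of_notMem hv, mul_zero]

lemma step_bounds {T : ℝ} (hT : 0 < T) {n : ℕ} (hn : 0 < n) {a b : ℝ} (hab : a ≤ b) :
    0 ≤ (∫ v in a..b, Real.exp (-v) * (Ico (Real.log n - kap T) (Real.log n)).indicator (fun _ => (1:ℝ)) v) ∧
    ∫ v in a..b, Real.exp (-v) * (Ico (Real.log n - kap T) (Real.log n)).indicator (fun _ => (1:ℝ)) v ≤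
      1 / (T * n) ∧
    (Real.log n ≤ a → ∫ v in a..b, Real.exp (-v) *
      (Ico (Real.log n - kap T) (Real.log n)).indicator (fun _ => (1:ℝ)) v = 0) ∧
    (a + kap T < Real.log n → Real.log n ≤ b → ∫ v in a..b, Real.exp (-v) *
      (Ico (Real.log n - kap T) (Real.log n)).indicator (fun _ => (1:ℝ)) v = 1 / (T * n)) := by
  have hκ := (kap_pos hT).le
  have hle : Real.log n - kap T ≤ Real.log n := by linarith
  have hfull : ∫ v in Ico (Real.log n - kap T) (Real.log n), Real.exp (-v) = 1 / (T * n) := by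
    rw [← step_int hT hn, intervalIntegral.integral_of_le hle, integral_Ico_eq_integral_Ioc]
  have hci : IntegrableOn (fun v : ℝ => Real.exp (-v)) (Ico (Real.log n - kap T) (Real.log n)) :=
    ((by fun_prop : Continuous fun v : ℝ => Real.exp (-v)).integrableOn_Icc).mono_set Ico_subset_Icc_self
  rw [step_set T n hab]
  refine ⟨integral_nonneg fun v => (Real.exp_pos _).le, ?_, ?_, ?_⟩
  · rw [← hfull]
    exact setIntegral_mono_set hci (Eventually.of_forall fun _ => (Real.exp_pos _).le)
      (Eventually.of_forall fun x hx => hx.2)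
  · intro h
    have : Ioc a b ∩ Ico (Real.log n - kap T) (Real.log n) = ∅ := by
      ext x; simp only [mem_inter_iff, mem_Ioc, mem_Ico, mem_empty_iff_false, iff_false]
      rintro ⟨⟨h1, _⟩, _, h2⟩; linarith
    rw [this, setIntegral_empty]
  · intro h1 h2
    have : Ioc a b ∩ Ico (Real.log n - kap T) (Real.log n) = Ico (Real.log n - kap T) (Real.log n) := by
      apply inter_eq_right.2
      intro x hx
      exact ⟨by linarith [hx.1], by linarith [hx.2]⟩
    rw [this, hfull]

/-- the square of the increments as a quadratic polynomial -/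
lemma VV_sq {T : ℝ} (hT : 0 < T) (v : ℝ) : VV (kap T) v ^ 2 =
    Real.exp (-v) * Dl (kap T) v ^ 2 - 2 / T * Dl (kap T) v + Real.exp v / T ^ 2 := by
  unfold VV MM
  have h1 : Chebyshev.psi (Real.exp (v + kap T)) - Real.exp (v + kap T) -
      (Chebyshev.psi (Real.exp v) - Real.exp v) = Dl (kap T) v - Real.exp v / T := by
    unfold Dl
    rw [Real.exp_add, exp_kap hT]
    field_simp
    ring
  have h2 : Real.exp (-(v / 2)) ^ 2 = Real.exp (-v) := by
    rw [← Real.exp_nat_mul]; congr 1; push_cast; ring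
  have h3 : Real.exp (-v) * Real.exp v = 1 := by rw [← Real.exp_add]; simp
  rw [h1, mul_pow, h2]
  generalize Dl (kap T) v = D at *
  have e1 : Real.exp (-v) * (D - Real.exp v / T) ^ 2 = Real.exp (-v) * D ^ 2 -
      2 / T * D * (Real.exp (-v) * Real.exp v) + (Real.exp (-v) * Real.exp v) * Real.exp v / T ^ 2 := by
    field_simp
    ring
  rw [e1, h3]; ring

lemma Dlsq_ii {T : ℝ} (a b : ℝ) :
    IntervalIntegrable (fun v => Real.exp (-v) * Dl (kap T) v ^ 2) volume a b := by
  apply IntervalIntegrable.continuousOn_mul _ (by fun_prop)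
  refine ii_of_bdd (C := (7 * Real.exp (|a| + |b| + |kap T|) + 7 * Real.exp (|a| + |b|)) ^ 2)
    ((Dl_meas _).pow_const 2) ?_
  intro x hx
  have hx' : x ≤ |a| + |b| := by
    rw [mem_uIoc] at hx
    rcases hx with h | h
    · linarith [le_abs_self b, abs_nonneg a]
    · linarith [le_abs_self a, abs_nonneg b]
  rw [abs_pow]
  apply pow_le_pow_left₀ (abs_nonneg _)
  unfold Dl
  refine (abs_sub _ _).trans ?_
  rw [abs_of_nonneg (Chebyshev.psi_nonneg _), abs_of_nonneg (Chebyshev.psi_nonneg _)]
  have h1 := psi_le_seven (Real.exp_pos (x + kap T)).le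
  have h2 := psi_le_seven (Real.exp_pos x).le
  have h3 : Real.exp (x + kap T) ≤ Real.exp (|a| + |b| + |kap T|) :=
    Real.exp_le_exp.2 (by linarith [le_abs_self (kap T)])
  have h4 : Real.exp x ≤ Real.exp (|a| + |b|) := Real.exp_le_exp.2 hx'
  linarith

/-- the main term between two partial sums of `∑ Λ(n)²/n` -/
lemma main_bounds {T : ℝ} (hT : 0 < T) {a b : ℝ} (hab : a ≤ b) (hb : Real.exp b ≤ T) :
    GLm (Real.exp b) - GLm (Real.exp (a + kap T)) ≤ T * ∫ v in a..b, Real.exp (-v) * Dl (kap T) v ^ 2 ∧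
    T * ∫ v in a..b, Real.exp (-v) * Dl (kap T) v ^ 2 ≤ GLm (Real.exp (b + kap T)) - GLm (Real.exp a) := by
  have hκ := (kap_pos hT).le
  set N : ℕ := ⌊Real.exp (b + kap T)⌋₊ + 1 with hN
  have hNgt : Real.exp (b + kap T) < N := by rw [hN]; push_cast; exact Nat.lt_floor_add_one _
  set I : ℕ → ℝ := fun n => ∫ v in a..b, Real.exp (-v) *
    (Ico (Real.log n - kap T) (Real.log n)).indicator (fun _ => (1:ℝ)) v with hI
  have hsum : ∫ v in a..b, Real.exp (-v) * Dl (kap T) v ^ 2 = ∑ n ∈ Finset.range N, Λ n ^ 2 * I n := by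
    have e1 : ∀ v ∈ uIcc a b, Real.exp (-v) * Dl (kap T) v ^ 2 = ∑ n ∈ Finset.range N, Λ n ^ 2 *
        (Real.exp (-v) * (Ico (Real.log n - kap T) (Real.log n)).indicator (fun _ => (1:ℝ)) v) := by
      intro v hv
      rw [uIcc_of_le hab] at hv
      have h1 : Real.exp v ≤ T := (Real.exp_le_exp.2 hv.2).trans hb
      have h2 : Real.exp (v + kap T) < N := lt_of_le_of_lt (Real.exp_le_exp.2 (by linarith [hv.2])) hNgt
      rw [Dl_sq hT h1 h2, Finset.mul_sum]
      apply Finset.sum_congr rfl
      intro n _; ring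
    rw [intervalIntegral.integral_congr e1, intervalIntegral.integral_finsetSum]
    · apply Finset.sum_congr rfl
      intro n _
      rw [intervalIntegral.integral_const_mul]
    · intro n _
      apply IntervalIntegrable.const_mul
      apply IntervalIntegrable.continuousOn_mul _ (by fun_prop)
      refine ii_of_bdd (C := 1) (measurable_const.indicator measurableSet_Ico) ?_
      intro x _
      by_cases h : x ∈ Ico (Real.log n - kap T) (Real.log n)
      · rw [indicator_of_mem h]; simp
      · rw [indicator_of_notMem h]; simp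
  have hIb : ∀ n : ℕ, 0 < n → 0 ≤ I n ∧ I n ≤ 1 / (T * n) ∧ (Real.log n ≤ a → I n = 0) ∧
      (a + kap T < Real.log n → Real.log n ≤ b → I n = 1 / (T * n)) := fun n hn => step_bounds hT hn hab
  rw [hsum, Finset.mul_sum]
  -- differences of partial sums
  have hdiff : ∀ X Y : ℝ, 0 < X → X ≤ Y → GLm Y - GLm X =
      ∑ n ∈ (Finset.Ioc 0 ⌊Y⌋₊).filter (fun n : ℕ => X < n), Λ n ^ 2 / n := by
    intro X Y hX hXY
    unfold GLm
    have h1 : (Finset.Ioc 0 ⌊Y⌋₊).filter (fun n : ℕ => ¬ X < n) = Finset.Ioc 0 ⌊X⌋₊ := by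
      ext n
      simp only [Finset.mem_filter, Finset.mem_Ioc, not_lt]
      constructor
      · rintro ⟨⟨h1, h2⟩, h3⟩; exact ⟨h1, Nat.le_floor h3⟩
      · rintro ⟨h1, h2⟩
        exact ⟨⟨h1, h2.trans (Nat.floor_mono hXY)⟩, (Nat.le_floor_iff hX.le).1 h2⟩
    have h2 := Finset.sum_filter_add_sum_filter_not (Finset.Ioc 0 ⌊Y⌋₊) (fun n : ℕ => X < n)
      (fun n => Λ n ^ 2 / (n:ℝ))
    rw [h1] at h2
    linarith
  constructor
  · -- lower bound
    rcases le_or_gt (a + kap T) b with hc | hc
    · rw [hdiff _ _ (Real.exp_pos _) (Real.exp_le_exp.2 hc)]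
      have hsub : (Finset.Ioc 0 ⌊Real.exp b⌋₊).filter (fun n : ℕ => Real.exp (a + kap T) < n) ⊆
          Finset.range N := by
        intro n hn
        rw [Finset.mem_filter, Finset.mem_Ioc] at hn
        rw [Finset.mem_range, hN]
        have : ⌊Real.exp b⌋₊ ≤ ⌊Real.exp (b + kap T)⌋₊ :=
          Nat.floor_mono (Real.exp_le_exp.2 (by linarith))
        omega
      refine le_trans (le_of_eq ?_) (Finset.sum_le_sum_of_subset_of_nonneg hsub ?_)
      · apply Finset.sum_congr rfl
        intro n hn
        rw [Finset.mem_filter, Finset.mem_Ioc] at hn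
        have hn0 : (0:ℝ) < n := by exact_mod_cast hn.1.1
        have h1 : a + kap T < Real.log n := by rw [Real.lt_log_iff_exp_lt hn0]; exact hn.2
        have h2 : Real.log n ≤ b := by
          rw [Real.log_le_iff_le_exp hn0]
          exact (Nat.le_floor_iff (Real.exp_pos _).le).1 hn.1.2
        rw [(hIb n hn.1.1).2.2.2 h1 h2]
        field_simp
      · intro n _ _
        rcases Nat.eq_zero_or_pos n with rfl | hn
        · simp
        · have := (hIb n hn).1
          positivity
    · have h1 : GLm (Real.exp b) ≤ GLm (Real.exp (a + kap T)) := by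
        have := hdiff _ _ (Real.exp_pos _) (Real.exp_le_exp.2 hc.le)
        have h2 : 0 ≤ ∑ n ∈ (Finset.Ioc 0 ⌊Real.exp (a + kap T)⌋₊).filter (fun n : ℕ => Real.exp b < n),
          Λ n ^ 2 / (n:ℝ) := Finset.sum_nonneg fun n _ => by positivity
        linarith
      have h2 : 0 ≤ ∑ n ∈ Finset.range N, T * (Λ n ^ 2 * I n) := by
        apply Finset.sum_nonneg
        intro n _
        rcases Nat.eq_zero_or_pos n with rfl | hn
        · simp
        · have := (hIb n hn).1
          positivity
      linarith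
  · -- upper bound
    rw [hdiff _ _ (Real.exp_pos _) (Real.exp_le_exp.2 (by linarith : a ≤ b + kap T))]
    have hsub : (Finset.Ioc 0 ⌊Real.exp (b + kap T)⌋₊).filter (fun n : ℕ => Real.exp a < n) ⊆
        Finset.range N := by
      intro n hn
      rw [Finset.mem_filter, Finset.mem_Ioc] at hn
      rw [Finset.mem_range, hN]; omega
    have h1 : ∑ n ∈ Finset.range N, T * (Λ n ^ 2 * I n) =
        ∑ n ∈ (Finset.Ioc 0 ⌊Real.exp (b + kap T)⌋₊).filter (fun n : ℕ => Real.exp a < n),
          T * (Λ n ^ 2 * I n) := by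
      symm
      apply Finset.sum_subset hsub
      intro n hn hn2
      rcases Nat.eq_zero_or_pos n with rfl | hn0
      · simp
      · have hn0' : (0:ℝ) < n := by exact_mod_cast hn0
        rw [Finset.mem_filter, Finset.mem_Ioc, not_and_or] at hn2
        rcases hn2 with h | h
        · rw [Finset.mem_range, hN] at hn; omega
        · rw [not_lt] at h
          have : Real.log n ≤ a := by rw [Real.log_le_iff_le_exp hn0']; exact h
          rw [(hIb n hn0).2.2.1 this]; ring
    rw [h1]
    apply Finset.sum_le_sum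
    intro n hn
    rw [Finset.mem_filter, Finset.mem_Ioc] at hn
    have hn0 : (0:ℝ) < n := by exact_mod_cast hn.1.1
    have h2 := (hIb n hn.1.1).2.1
    calc T * (Λ n ^ 2 * I n) ≤ T * (Λ n ^ 2 * (1 / (T * n))) := by gcongr
      _ = _ := by field_simp

lemma GLm_mono {X Y : ℝ} (h : X ≤ Y) : GLm X ≤ GLm Y := by
  unfold GLm
  apply Finset.sum_le_sum_of_subset_of_nonneg
  · apply Finset.Ioc_subset_Ioc_right (Nat.floor_mono h)
  · intro n _ _; positivity

/-- **(V1)**: the mean square of the increments for `x ≤ T`. -/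
theorem V1 {a b : ℝ} (ha : 0 < a) (hab : a ≤ b) (hb : b ≤ 1) :
    Tendsto (fun T : ℝ => T / Real.log T ^ 2 * ∫ v in (a * Real.log T)..(b * Real.log T), VV (kap T) v ^ 2)
      atTop (𝓝 ((b ^ 2 - a ^ 2) / 2)) := by
  have hb0 : 0 < b := by linarith
  -- the main term
  have hlow : Tendsto (fun T : ℝ => GLm (Real.exp (b * Real.log T + 0)) / Real.log T ^ 2 -
      GLm (Real.exp (a * Real.log T + 1)) / Real.log T ^ 2) atTop (𝓝 (b ^ 2 / 2 - a ^ 2 / 2)) :=
    (GLm_lim hb0 0).sub (GLm_lim ha 1)
  have hupp : Tendsto (fun T : ℝ => GLm (Real.exp (b * Real.log T + 1)) / Real.log T ^ 2 -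
      GLm (Real.exp (a * Real.log T + 0)) / Real.log T ^ 2) atTop (𝓝 (b ^ 2 / 2 - a ^ 2 / 2)) :=
    (GLm_lim hb0 1).sub (GLm_lim ha 0)
  have hmain : Tendsto (fun T : ℝ => T / Real.log T ^ 2 * ∫ v in (a * Real.log T)..(b * Real.log T),
      Real.exp (-v) * Dl (kap T) v ^ 2) atTop (𝓝 (b ^ 2 / 2 - a ^ 2 / 2)) := by
    refine tendsto_of_tendsto_of_tendsto_of_le_of_le' hlow hupp ?_ ?_
    · filter_upwards [eventually_ge_atTop 1, log_ev 1] with T hT hL
      have hT0 : 0 < T := by linarith
      have hL0 : 0 < Real.log T := by linarith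
      have hbT : Real.exp (b * Real.log T) ≤ T := by
        calc Real.exp (b * Real.log T) ≤ Real.exp (1 * Real.log T) := by gcongr
          _ = T := by rw [one_mul, Real.exp_log hT0]
      have h1 := (main_bounds hT0 (by gcongr : a * Real.log T ≤ b * Real.log T) hbT).1
      have h2 : kap T ≤ 1 := (kap_le hT0).trans (by rw [div_le_one hT0]; exact hT)
      have h3 : GLm (Real.exp (a * Real.log T + kap T)) ≤ GLm (Real.exp (a * Real.log T + 1)) :=
        GLm_mono (Real.exp_le_exp.2 (by linarith))
      rw [add_zero, ← sub_div, div_mul_eq_mul_div]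
      gcongr
      linarith
    · filter_upwards [eventually_ge_atTop 1, log_ev 1] with T hT hL
      have hT0 : 0 < T := by linarith
      have hL0 : 0 < Real.log T := by linarith
      have hbT : Real.exp (b * Real.log T) ≤ T := by
        calc Real.exp (b * Real.log T) ≤ Real.exp (1 * Real.log T) := by gcongr
          _ = T := by rw [one_mul, Real.exp_log hT0]
      have h1 := (main_bounds hT0 (by gcongr : a * Real.log T ≤ b * Real.log T) hbT).2
      have h2 : kap T ≤ 1 := (kap_le hT0).trans (by rw [div_le_one hT0]; exact hT)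
      have h3 : GLm (Real.exp (b * Real.log T + kap T)) ≤ GLm (Real.exp (b * Real.log T + 1)) :=
        GLm_mono (Real.exp_le_exp.2 (by linarith))
      rw [add_zero, ← sub_div, div_mul_eq_mul_div]
      gcongr
      linarith
  -- the other terms
  have hlog2 : Tendsto (fun T : ℝ => 50 / Real.log T ^ 2) atTop (𝓝 0) :=
    tendsto_const_nhds.div_atTop ((tendsto_pow_atTop (by norm_num)).comp Real.tendsto_log_atTop)
  have hdiff : Tendsto (fun T : ℝ => T / Real.log T ^ 2 * (∫ v in (a * Real.log T)..(b * Real.log T), VV (kap T) v ^ 2) -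
      T / Real.log T ^ 2 * ∫ v in (a * Real.log T)..(b * Real.log T),
      Real.exp (-v) * Dl (kap T) v ^ 2) atTop (𝓝 0) := by
    refine squeeze_zero_norm' ?_ hlog2
    filter_upwards [eventually_ge_atTop 1, log_ev 1] with T hT hL
    have hT0 : 0 < T := by linarith
    have hL0 : 0 < Real.log T := by linarith
    have hle : a * Real.log T ≤ b * Real.log T := by gcongr
    have hbT : Real.exp (b * Real.log T) ≤ T := by
      calc Real.exp (b * Real.log T) ≤ Real.exp (1 * Real.log T) := by gcongr
        _ = T := by rw [one_mul, Real.exp_log hT0]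
    have hκ := (kap_pos hT0).le
    have hκ1 := kap_le hT0
    have hκ2 : kap T ≤ 1 := hκ1.trans (by rw [div_le_one hT0]; exact hT)
    have e1 : ∫ v in (a * Real.log T)..(b * Real.log T), VV (kap T) v ^ 2 =
        (∫ v in (a * Real.log T)..(b * Real.log T), Real.exp (-v) * Dl (kap T) v ^ 2) -
        2 / T * (∫ v in (a * Real.log T)..(b * Real.log T), Dl (kap T) v) +
        (∫ v in (a * Real.log T)..(b * Real.log T), Real.exp v) / T ^ 2 := by
      have h1 : (fun v => VV (kap T) v ^ 2) = fun v => Real.exp (-v) * Dl (kap T) v ^ 2 -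
          2 / T * Dl (kap T) v + Real.exp v / T ^ 2 := by
        funext v; exact VV_sq hT0 v
      rw [h1, intervalIntegral.integral_add ((Dlsq_ii _ _).sub ((Dl_ii _ _ _).const_mul _))
        ((Real.continuous_exp.intervalIntegrable _ _).div_const _),
        intervalIntegral.integral_sub (Dlsq_ii _ _) ((Dl_ii _ _ _).const_mul _),
        intervalIntegral.integral_const_mul, intervalIntegral.integral_div]
    have h1 := Dl_int_le (a := a * Real.log T) (b := b * Real.log T) hκ
    have h2 : 0 ≤ ∫ v in (a * Real.log T)..(b * Real.log T), Dl (kap T) v :=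
      intervalIntegral.integral_nonneg hle fun v _ => Dl_nonneg hκ v
    have h3 : ∫ v in (a * Real.log T)..(b * Real.log T), Real.exp v ≤ T := by
      rw [integral_exp]
      have := Real.exp_pos (a * Real.log T)
      linarith
    have h4 : 0 ≤ ∫ v in (a * Real.log T)..(b * Real.log T), Real.exp v :=
      intervalIntegral.integral_nonneg hle fun v _ => (Real.exp_pos v).le
    have h5 : ∫ v in (a * Real.log T)..(b * Real.log T), Dl (kap T) v ≤ 21 := by
      refine h1.trans ?_
      rw [Real.exp_add]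
      have h6 : Real.exp (kap T) ≤ 3 := by
        have : Real.exp (kap T) ≤ Real.exp 1 := Real.exp_le_exp.2 hκ2
        have := Real.exp_one_lt_d9
        linarith
      calc kap T * (7 * (Real.exp (b * Real.log T) * Real.exp (kap T)))
          ≤ 1 / T * (7 * (T * 3)) := by gcongr
        _ = 21 := by field_simp; norm_num
    rw [e1]
    have e2 : T / Real.log T ^ 2 * ((∫ v in (a * Real.log T)..(b * Real.log T), Real.exp (-v) * Dl (kap T) v ^ 2) -
        2 / T * (∫ v in (a * Real.log T)..(b * Real.log T), Dl (kap T) v) +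
        (∫ v in (a * Real.log T)..(b * Real.log T), Real.exp v) / T ^ 2) -
        T / Real.log T ^ 2 * (∫ v in (a * Real.log T)..(b * Real.log T), Real.exp (-v) * Dl (kap T) v ^ 2) =
        ((∫ v in (a * Real.log T)..(b * Real.log T), Real.exp v) / T -
        2 * (∫ v in (a * Real.log T)..(b * Real.log T), Dl (kap T) v)) / Real.log T ^ 2 := by
      field_simp
      ring
    rw [e2, norm_div, Real.norm_eq_abs, Real.norm_of_nonneg (by positivity)]
    gcongr
    have h7 : (∫ v in (a * Real.log T)..(b * Real.log T), Real.exp v) / T ≤ 1 := by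
      rw [div_le_one hT0]; exact h3
    have h8 : 0 ≤ (∫ v in (a * Real.log T)..(b * Real.log T), Real.exp v) / T := by positivity
    rw [abs_le]
    constructor <;> linarith
  have := hdiff.add hmain
  rw [zero_add] at this
  have e : (b ^ 2 - a ^ 2) / 2 = b ^ 2 / 2 - a ^ 2 / 2 := by ring
  rw [e]
  refine this.congr fun T => ?_
  ring

end Pool.Agent.PairCorr.P6
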