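import Mathlib
import Pool.Agent.PairCorr.P6_V1

set_option autoImplicit false

namespace Pool.Agent.PairCorr.P6

open MeasureTheory Filter Topology Set Real
open scoped ENNReal

/-- Riemann sums: passing from windows to continuous weights, upper bounds. -/
theorem step_ub {l : Filter ℝ} {w : ℝ → ℝ → ℝ} (hw0 : ∀ᶠ T in l, ∀ x, 0 ≤ w T x)
    (hwi : ∀ T a b, IntervalIntegrable (w T) volume a b) {ρ : ℝ → ℝ} (hρ0 : ∀ x, 0 ≤ ρ x)
    (hρ : Continuous ρ) {e B : ℝ} (heB : e ≤ B)
    (h : ∀ a b, e ≤ a → a ≤ b → b ≤ B → ∀ ε > 0, ∀ᶠ T in l, ∫ x in a..b, w T x ≤ (∫ x in a..b, ρ x) + ε)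
    {k : ℝ → ℝ} (hk : Continuous k) (hk0 : ∀ x, 0 ≤ k x) {ε : ℝ} (hε : 0 < ε) :
    ∀ᶠ T in l, ∫ x in e..B, k x * w T x ≤ (∫ x in e..B, k x * ρ x) + ε := by
  set P : ℝ := ∫ x in e..B, ρ x with hP
  have hP0 : 0 ≤ P := intervalIntegral.integral_nonneg heB fun x _ => hρ0 x
  obtain ⟨M, hM⟩ := (isCompact_Icc (a := e) (b := B)).exists_bound_of_continuousOn hk.continuousOn
  have hM0 : 0 ≤ M := (norm_nonneg _).trans (hM e ⟨le_rfl, heB⟩)
  set η : ℝ := ε / (4 * (P + 1)) with hη
  have hη0 : 0 < η := by positivity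
  have hηP : 2 * η * P ≤ ε / 2 := by
    rw [hη]
    have : 2 * (ε / (4 * (P + 1))) * P = ε / 2 * (P / (P + 1)) := by field_simp; ring
    rw [this]
    have h1 : P / (P + 1) ≤ 1 := by rw [div_le_one (by positivity)]; linarith
    nlinarith
  -- uniform continuity
  have huc : UniformContinuousOn k (Icc e B) := isCompact_Icc.uniformContinuousOn_of_continuous hk.continuousOn
  rw [Metric.uniformContinuousOn_iff] at huc
  obtain ⟨δ, hδ, hδ'⟩ := huc η hη0
  obtain ⟨N, hN⟩ := exists_nat_gt ((B - e) / δ)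
  have hN' : 0 < (N:ℝ) + 1 := by positivity
  set s : ℝ := (B - e) / (N + 1) with hs
  have hs0 : 0 ≤ s := div_nonneg (by linarith) hN'.le
  have hsδ : s < δ := by
    rw [hs, div_lt_iff₀ hN']
    rw [div_lt_iff₀ hδ] at hN
    nlinarith
  set x : ℕ → ℝ := fun j => e + j * s with hx
  have hx0 : x 0 = e := by simp [hx]
  have hxN : x (N + 1) = B := by simp only [hx, hs]; push_cast; field_simp; ring
  have hxs : ∀ j, x (j + 1) = x j + s := by intro j; simp only [hx]; push_cast; ring
  have hxe : ∀ j, e ≤ x j := by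
    intro j; simp only [hx]
    have : 0 ≤ (j:ℝ) * s := by positivity
    linarith
  have hxB : ∀ j, j ≤ N + 1 → x j ≤ B := by
    intro j hj
    rw [← hxN]; simp only [hx]
    have : (j:ℝ) ≤ ((N + 1 : ℕ) : ℝ) := by exact_mod_cast hj
    gcongr
  set ε' : ℝ := ε / (2 * (N + 1) * (M + η)) with hε'
  have hMη : 0 < M + η := by positivity
  have hε'0 : 0 < ε' := by positivity
  have hev : ∀ᶠ T in l, ∀ j ∈ Finset.range (N + 1), ∫ y in (x j)..(x (j + 1)), w T y ≤
      (∫ y in (x j)..(x (j + 1)), ρ y) + ε' := by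
    rw [Filter.eventually_all_finset]
    intro j hj
    rw [Finset.mem_range] at hj
    exact h (x j) (x (j + 1)) (hxe j) (by rw [hxs]; linarith) (hxB (j + 1) (by omega)) ε' hε'0
  filter_upwards [hev, hw0] with T hT hw0
  have hkw : ∀ a b, IntervalIntegrable (fun y => k y * w T y) volume a b := fun a b =>
    (hwi T a b).continuousOn_mul hk.continuousOn
  have hkρ : ∀ a b, IntervalIntegrable (fun y => k y * ρ y) volume a b := fun a b =>
    (by fun_prop : Continuous fun y => k y * ρ y).intervalIntegrable a b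
  have hstep : ∀ j ∈ Finset.range (N + 1), ∫ y in (x j)..(x (j + 1)), k y * w T y ≤
      (∫ y in (x j)..(x (j + 1)), k y * ρ y) + 2 * η * (∫ y in (x j)..(x (j + 1)), ρ y) + (M + η) * ε' := by
    intro j hj
    have hj' := Finset.mem_range.1 hj
    have hle : x j ≤ x (j + 1) := by rw [hxs]; linarith
    have hmem : x j ∈ Icc e B := ⟨hxe j, hxB j (by omega)⟩
    have hclose : ∀ y ∈ Icc (x j) (x (j + 1)), |k y - k (x j)| ≤ η := by
      intro y hy
      have hy' : y ∈ Icc e B := ⟨(hxe j).trans hy.1, hy.2.trans (hxB (j + 1) (by omega))⟩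
      have hd : dist y (x j) < δ := by
        rw [Real.dist_eq, abs_of_nonneg (by linarith [hy.1])]
        have := hy.2
        rw [hxs] at this
        linarith
      have := hδ' y hy' (x j) hmem hd
      rw [Real.dist_eq] at this
      exact this.le
    have hkj : k (x j) ≤ M := (le_abs_self _).trans (hM _ hmem)
    have h1 : ∫ y in (x j)..(x (j + 1)), k y * w T y ≤ ∫ y in (x j)..(x (j + 1)), (k (x j) + η) * w T y := by
      apply intervalIntegral.integral_mono_on hle (hkw _ _) ((hwi T _ _).const_mul _)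
      intro y hy
      have := (abs_le.1 (hclose y hy)).2
      exact mul_le_mul_of_nonneg_right (by linarith) (hw0 y)
    rw [intervalIntegral.integral_const_mul] at h1
    have hkη : 0 ≤ k (x j) + η := by have := hk0 (x j); linarith
    have h2 : (k (x j) + η) * ∫ y in (x j)..(x (j + 1)), w T y ≤
        (k (x j) + η) * ((∫ y in (x j)..(x (j + 1)), ρ y) + ε') := by
      gcongr
      exact hT j hj
    have h3 : (k (x j) + η) * (∫ y in (x j)..(x (j + 1)), ρ y) ≤
        (∫ y in (x j)..(x (j + 1)), k y * ρ y) + 2 * η * (∫ y in (x j)..(x (j + 1)), ρ y) := by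
      rw [← intervalIntegral.integral_const_mul, ← intervalIntegral.integral_const_mul,
        ← intervalIntegral.integral_add (hkρ _ _) ((hρ.intervalIntegrable _ _).const_mul _)]
      apply intervalIntegral.integral_mono_on hle ((hρ.intervalIntegrable _ _).const_mul _)
        ((hkρ _ _).add ((hρ.intervalIntegrable _ _).const_mul _))
      intro y hy
      have h4 := (abs_le.1 (hclose y hy)).1
      have h5 := hρ0 y
      nlinarith
    have h6 : (k (x j) + η) * ε' ≤ (M + η) * ε' := by gcongr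
    rw [mul_add] at h2
    linarith
  have hsumw := intervalIntegral.sum_integral_adjacent_intervals (f := fun y => k y * w T y) (μ := volume)
    (a := x) (n := N + 1) (fun j _ => hkw _ _)
  have hsumk := intervalIntegral.sum_integral_adjacent_intervals (f := fun y => k y * ρ y) (μ := volume)
    (a := x) (n := N + 1) (fun j _ => hkρ _ _)
  have hsumρ := intervalIntegral.sum_integral_adjacent_intervals (f := ρ) (μ := volume)
    (a := x) (n := N + 1) (fun j _ => hρ.intervalIntegrable _ _)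
  rw [hx0, hxN] at hsumw hsumk hsumρ
  rw [← hsumw]
  refine (Finset.sum_le_sum hstep).trans ?_
  rw [Finset.sum_add_distrib, Finset.sum_add_distrib, ← Finset.mul_sum, hsumk, hsumρ, Finset.sum_const,
    Finset.card_range, nsmul_eq_mul]
  have h7 : ((N + 1 : ℕ) : ℝ) * ((M + η) * ε') = ε / 2 := by
    rw [hε']; push_cast; field_simp
  rw [h7]
  linarith

/-- Riemann sums: passing from windows to continuous weights, limits. -/
theorem step_lim {l : Filter ℝ} {w : ℝ → ℝ → ℝ} (hw0 : ∀ᶠ T in l, ∀ x, 0 ≤ w T x)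
    (hwi : ∀ T a b, IntervalIntegrable (w T) volume a b) {ρ : ℝ → ℝ} (hρ0 : ∀ x, 0 ≤ ρ x)
    (hρ : Continuous ρ) {e B : ℝ} (heB : e ≤ B)
    (h : ∀ a b, e ≤ a → a ≤ b → b ≤ B → Tendsto (fun T => ∫ x in a..b, w T x) l (𝓝 (∫ x in a..b, ρ x)))
    {k : ℝ → ℝ} (hk : Continuous k) {M : ℝ} (hM : ∀ x, |k x| ≤ M) :
    Tendsto (fun T => ∫ x in e..B, k x * w T x) l (𝓝 (∫ x in e..B, k x * ρ x)) := by
  have hub : ∀ a b, e ≤ a → a ≤ b → b ≤ B → ∀ ε > 0, ∀ᶠ T in l,
      ∫ x in a..b, w T x ≤ (∫ x in a..b, ρ x) + ε := by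
    intro a b h1 h2 h3 ε hε
    exact (h a b h1 h2 h3).eventually_le_const (by linarith)
  have hkw : ∀ T a b, IntervalIntegrable (fun y => k y * w T y) volume a b := fun T a b =>
    (hwi T a b).continuousOn_mul hk.continuousOn
  have hkρ : ∀ a b, IntervalIntegrable (fun y => k y * ρ y) volume a b := fun a b =>
    (by fun_prop : Continuous fun y => k y * ρ y).intervalIntegrable a b
  have hMρ : ∀ a b, IntervalIntegrable (fun y => M * ρ y) volume a b := fun a b =>
    (by fun_prop : Continuous fun y => M * ρ y).intervalIntegrable a b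
  rw [Metric.tendsto_nhds]
  intro ε hε
  have h1 := step_ub hw0 hwi hρ0 hρ heB hub (k := fun x => M + k x) (by fun_prop)
    (fun x => by linarith [(abs_le.1 (hM x)).1]) (show 0 < ε / 3 by positivity)
  have h2 := step_ub hw0 hwi hρ0 hρ heB hub (k := fun x => M - k x) (by fun_prop)
    (fun x => by linarith [(abs_le.1 (hM x)).2]) (show 0 < ε / 3 by positivity)
  have h3 : Tendsto (fun T => M * ∫ x in e..B, w T x) l (𝓝 (M * ∫ x in e..B, ρ x)) :=
    (h e B le_rfl heB le_rfl).const_mul M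
  have h4 := (Metric.tendsto_nhds.1 h3) (ε / 3) (by positivity)
  filter_upwards [h1, h2, h4] with T g1 g2 g3
  have e1 : ∫ x in e..B, (M + k x) * w T x = M * (∫ x in e..B, w T x) + ∫ x in e..B, k x * w T x := by
    rw [← intervalIntegral.integral_const_mul, ← intervalIntegral.integral_add ((hwi T _ _).const_mul _) (hkw T _ _)]
    congr 1; ext x; ring
  have e2 : ∫ x in e..B, (M - k x) * w T x = M * (∫ x in e..B, w T x) - ∫ x in e..B, k x * w T x := by
    rw [← intervalIntegral.integral_const_mul, ← intervalIntegral.integral_sub ((hwi T _ _).const_mul _) (hkw T _ _)]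
    congr 1; ext x; ring
  have e3 : ∫ x in e..B, (M + k x) * ρ x = M * (∫ x in e..B, ρ x) + ∫ x in e..B, k x * ρ x := by
    rw [← intervalIntegral.integral_const_mul, ← intervalIntegral.integral_add (hMρ _ _) (hkρ _ _)]
    congr 1; ext x; ring
  have e4 : ∫ x in e..B, (M - k x) * ρ x = M * (∫ x in e..B, ρ x) - ∫ x in e..B, k x * ρ x := by
    rw [← intervalIntegral.integral_const_mul, ← intervalIntegral.integral_sub (hMρ _ _) (hkρ _ _)]
    congr 1; ext x; ring
  rw [e1, e3] at g1
  rw [e2, e4] at g2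
  rw [Real.dist_eq] at g3 ⊢
  obtain ⟨g4, g5⟩ := abs_lt.1 g3
  rw [abs_lt]
  constructor <;> linarith

/-! ### the window density -/

/-- the density of the windows in the logarithmic scale -/
noncomputable def wd (T x : ℝ) : ℝ := T / Real.log T * VV (kap T) (Real.log T * x) ^ 2

/-- the normalised variance in the window `[T^a, T^b]` -/
noncomputable def Win (T a b : ℝ) : ℝ :=
  T / Real.log T ^ 2 * ∫ v in (a * Real.log T)..(b * Real.log T), VV (kap T) v ^ 2

lemma Win_eq {T : ℝ} (hL : 0 < Real.log T) (a b : ℝ) : ∫ x in a..b, wd T x = Win T a b := by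
  unfold wd Win
  rw [intervalIntegral.integral_const_mul, intervalIntegral.integral_comp_mul_left
    (fun v => VV (kap T) v ^ 2) hL.ne', smul_eq_mul, mul_comm (Real.log T) a, mul_comm (Real.log T) b]
  field_simp

lemma wd_ii (T a b : ℝ) : IntervalIntegrable (wd T) volume a b := by
  unfold wd
  apply IntervalIntegrable.const_mul
  rcases eq_or_ne (Real.log T) 0 with h | h
  · simp only [h, zero_mul]
    exact intervalIntegrable_const
  · have := (VV_sq_ii (kap T) (Real.log T * a) (Real.log T * b)).comp_mul_left (c := Real.log T)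
    simpa [h] using this

lemma Vf_eq {k : ℝ → ℝ} {T : ℝ} (hL : 0 < Real.log T) :
    T / Real.log T ^ 2 * Vf (kap T) (Real.log T) k = ∫ x, k x * wd T x := by
  unfold Vf wd
  have h := Measure.integral_comp_mul_left (fun v => k (v / Real.log T) * VV (kap T) v ^ 2) (Real.log T)
  rw [abs_of_pos (inv_pos.2 hL), smul_eq_mul] at h
  have e1 : ∀ x, k x * (T / Real.log T * VV (kap T) (Real.log T * x) ^ 2) =
      T / Real.log T * (k (Real.log T * x / Real.log T) * VV (kap T) (Real.log T * x) ^ 2) := by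
    intro x
    rw [mul_div_cancel_left₀ _ hL.ne']; ring
  simp_rw [e1]
  rw [integral_const_mul, h]
  field_simp

lemma Vf_eq' {k : ℝ → ℝ} {b e : ℝ} (hk : TF k b) (heb : e ≤ b) (hpos : ∀ v, v < e → k v = 0) {T : ℝ}
    (hL : 0 < Real.log T) :
    T / Real.log T ^ 2 * Vf (kap T) (Real.log T) k = ∫ x in e..b, k x * wd T x := by
  rw [Vf_eq hL, intervalIntegral.integral_of_le heb, ← integral_Icc_eq_integral_Ioc,
    ← integral_indicator measurableSet_Icc]
  congr 1; ext x
  by_cases hx : x ∈ Icc e b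
  · rw [indicator_of_mem hx]
  · rw [indicator_of_notMem hx]
    have : k x = 0 := by
      rw [mem_Icc, not_and_or, not_le, not_le] at hx
      rcases hx with h | h
      · exact hpos x h
      · exact hk.supp x (lt_of_lt_of_le h (le_abs_self x))
    rw [this, zero_mul]

/-- the limiting density -/
noncomputable def ρ1 (x : ℝ) : ℝ := min |x| 1

lemma ρ1_cont : Continuous ρ1 := by unfold ρ1; fun_prop
lemma ρ1_nonneg (x : ℝ) : 0 ≤ ρ1 x := le_min (abs_nonneg x) zero_le_one

lemma ρ1_small {a b : ℝ} (ha : 0 ≤ a) (hab : a ≤ b) (hb : b ≤ 1) :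
    ∫ x in a..b, ρ1 x = (b ^ 2 - a ^ 2) / 2 := by
  have h1 : ∫ x in a..b, ρ1 x = ∫ x in a..b, x := by
    apply intervalIntegral.integral_congr
    intro x hx
    rw [uIcc_of_le hab] at hx
    simp only [ρ1]
    rw [abs_of_nonneg (by linarith [hx.1]), min_eq_left (by linarith [hx.2])]
  rw [h1, integral_id]

lemma ρ1_large {a b : ℝ} (ha : 1 ≤ a) (hab : a ≤ b) : ∫ x in a..b, ρ1 x = b - a := by
  have h1 : ∫ x in a..b, ρ1 x = ∫ x in a..b, (1:ℝ) := by
    apply intervalIntegral.integral_congr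
    intro x hx
    rw [uIcc_of_le hab] at hx
    simp only [ρ1]
    rw [abs_of_nonneg (by linarith [hx.1]), min_eq_right (by linarith [hx.1])]
  rw [h1]; simp

lemma wd_lim_small {a b : ℝ} (ha : 0 < a) (hab : a ≤ b) (hb : b ≤ 1) :
    Tendsto (fun T => ∫ x in a..b, wd T x) atTop (𝓝 (∫ x in a..b, ρ1 x)) := by
  rw [ρ1_small ha.le hab hb]
  refine (V1 ha hab hb).congr' ?_
  filter_upwards [log_ev 1] with T hT
  rw [Win_eq (by linarith)]; rfl

/-- the one-sided hypothesis -/
def WinUB : Prop := ∀ α β : ℝ, 1 ≤ α → α < β → ∀ ε > 0, ∀ᶠ T : ℝ in atTop, Win T α β ≤ β - α + ε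

/-- the two-sided asymptotics -/
def WinLim : Prop := ∀ α β : ℝ, 1 ≤ α → α < β → Tendsto (fun T => Win T α β) atTop (𝓝 (β - α))

lemma wd_split (T a b c : ℝ) : ∫ x in a..c, wd T x = (∫ x in a..b, wd T x) + ∫ x in b..c, wd T x :=
  (intervalIntegral.integral_add_adjacent_intervals (wd_ii T a b) (wd_ii T b c)).symm

lemma ρ1_split (a b c : ℝ) : ∫ x in a..c, ρ1 x = (∫ x in a..b, ρ1 x) + ∫ x in b..c, ρ1 x :=
  (intervalIntegral.integral_add_adjacent_intervals (ρ1_cont.intervalIntegrable a b)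
    (ρ1_cont.intervalIntegrable b c)).symm

lemma WinUB.all (h : WinUB) {a b : ℝ} (ha : 0 < a) (hab : a ≤ b) {ε : ℝ} (hε : 0 < ε) :
    ∀ᶠ T : ℝ in atTop, ∫ x in a..b, wd T x ≤ (∫ x in a..b, ρ1 x) + ε := by
  have hbig : ∀ α β : ℝ, 1 ≤ α → α ≤ β → ∀ ε > 0, ∀ᶠ T : ℝ in atTop, ∫ x in α..β, wd T x ≤
      (∫ x in α..β, ρ1 x) + ε := by
    intro α β h1 h2 ε hε
    rcases h2.eq_or_lt with h3 | h3
    · filter_upwards with T
      rw [h3]; simp [hε.le]
    · filter_upwards [h α β h1 h3 ε hε, log_ev 1] with T hT hL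
      rw [Win_eq (by linarith), ρ1_large h1 h2]; exact hT
  rcases le_or_gt b 1 with hb | hb
  · exact (wd_lim_small ha hab hb).eventually_le_const (by linarith)
  · rcases le_or_gt 1 a with ha1 | ha1
    · exact hbig a b ha1 hab ε hε
    · filter_upwards [hbig 1 b le_rfl hb.le (ε / 2) (by positivity),
        (wd_lim_small ha ha1.le le_rfl).eventually_le_const
          (show (∫ x in a..1, ρ1 x) < (∫ x in a..1, ρ1 x) + ε / 2 by linarith)] with T h1 h2
      rw [wd_split T a 1 b, ρ1_split a 1 b]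
      linarith

lemma WinLim.all (h : WinLim) {a b : ℝ} (ha : 0 < a) (hab : a ≤ b) :
    Tendsto (fun T => ∫ x in a..b, wd T x) atTop (𝓝 (∫ x in a..b, ρ1 x)) := by
  have hbig : ∀ α β : ℝ, 1 ≤ α → α ≤ β →
      Tendsto (fun T => ∫ x in α..β, wd T x) atTop (𝓝 (∫ x in α..β, ρ1 x)) := by
    intro α β h1 h2
    rcases h2.eq_or_lt with h3 | h3
    · rw [h3]; simp
    · rw [ρ1_large h1 h2]
      refine (h α β h1 h3).congr' ?_
      filter_upwards [log_ev 1] with T hL
      rw [Win_eq (by linarith)]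
  rcases le_or_gt b 1 with hb | hb
  · exact wd_lim_small ha hab hb
  · rcases le_or_gt 1 a with ha1 | ha1
    · exact hbig a b ha1 hab
    · rw [ρ1_split a 1 b]
      refine ((wd_lim_small ha ha1.le le_rfl).add (hbig 1 b le_rfl hb.le)).congr fun T => ?_
      rw [wd_split T a 1 b]

lemma wd_nonneg_ev : ∀ᶠ T : ℝ in atTop, ∀ x, 0 ≤ wd T x := by
  filter_upwards [log_ev 1, eventually_gt_atTop 0] with T hT hT0 x
  unfold wd
  have : 0 < Real.log T := by linarith
  positivity

end Pool.Agent.PairCorr.P6
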