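import Mathlib
import Pool.Agent.PairCorr.P6_Win
import Pool.Agent.PairCorr.P6_Diag

set_option autoImplicit false

namespace Pool.Agent.PairCorr.P6

open MeasureTheory Filter Topology Set Real
open scoped ENNReal ComplexConjugate

variable {k : ℝ → ℝ} {b e : ℝ}

lemma Spair_eq (hR : RHz) (k : ℝ → ℝ) (T : ℝ) : Spair k T = Spair0 k T := by
  unfold Spair Spair0
  apply integral_congr_ae
  have h1 : ∀ᵐ z ∂(muW T), z.re = 1/2 := ae_restrict_of_ae (RHz_ae hR)
  have e1 : ∀ᵐ p ∂((muW T).prod muZ), p.1.re = 1/2 := Measure.quasiMeasurePreserving_fst.ae h1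
  have e2 : ∀ᵐ p ∂((muW T).prod muZ), p.2.re = 1/2 :=
    Measure.quasiMeasurePreserving_snd.ae (RHz_ae hR)
  filter_upwards [e1, e2] with p h1 h2
  rw [line_arg2 h1 h2]

/-- the limit functional -/
noncomputable def ck (k : ℝ → ℝ) : ℝ := k 0 + ∫ v, ρ1 v * k v

/-- Montgomery's theorem near `0` for the smoothed pair sums -/
theorem near_lim (hR : RHz) : ∃ b₀ : ℝ, 0 < b₀ ∧ b₀ ≤ 1 ∧ ∀ k : ℝ → ℝ, TF k b₀ → (∀ v, k (-v) = k v) →
    Tendsto (fun U => (Spair0 k U).re / NT U) atTop (𝓝 (ck k)) := by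
  obtain ⟨b₀, hb₀, h⟩ := statementS'
  refine ⟨min b₀ 1, lt_min hb₀ one_pos, min_le_right _ _, fun k hk hev => ?_⟩
  have h1 := h k (hk.mono (min_le_left _ _)) hev
  have h2 := (Complex.continuous_re.tendsto _).comp h1
  have h3 : k 0 + ∫ v, |v| * k v = ck k := by
    unfold ck
    congr 2
    ext v
    by_cases hv : 1 < |v|
    · rw [hk.supp v (lt_of_le_of_lt (min_le_right _ _) hv)]; ring
    · rw [ρ1, min_eq_left (not_lt.1 hv)]
  rw [Complex.ofReal_re, h3] at h2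
  refine h2.congr fun T => ?_
  simp only [Function.comp]
  rw [Spair_eq hR, Complex.div_ofReal_re]
  rfl

/-- even smooth cutoff near zero -/
lemma exists_cut0 {b₀ : ℝ} (hb₀ : 0 < b₀) : ∃ χ : ℝ → ℝ, TF χ b₀ ∧ (∀ v, χ (-v) = χ v) ∧ (∀ v, 0 ≤ χ v) ∧
    (∀ v, χ v ≤ 1) ∧ (∀ v, |v| ≤ b₀ / 2 → χ v = 1) := by
  refine ⟨fun v => Real.smoothTransition ((b₀ ^ 2 - v ^ 2) / (3 / 4 * b₀ ^ 2)), ⟨?_, ?_⟩, ?_, ?_, ?_, ?_⟩
  · exact Real.smoothTransition.contDiff.comp (by fun_prop)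
  · intro v hv
    apply Real.smoothTransition.zero_of_nonpos
    apply div_nonpos_of_nonpos_of_nonneg _ (by positivity)
    have : b₀ ^ 2 < v ^ 2 := by
      rw [← sq_abs v]; exact pow_lt_pow_left₀ hv hb₀.le (by norm_num)
    linarith
  · intro v; beta_reduce; rw [neg_sq]
  · intro v; exact Real.smoothTransition.nonneg _
  · intro v; exact Real.smoothTransition.le_one _
  · intro v hv
    beta_reduce
    apply Real.smoothTransition.one_of_one_le
    rw [le_div_iff₀ (by positivity)]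
    have : v ^ 2 ≤ (b₀ / 2) ^ 2 := by
      rw [← sq_abs v]; exact pow_le_pow_left₀ (abs_nonneg _) hv 2
    nlinarith

/-- splitting a test function -/
lemma decomp {b₀ : ℝ} (hb₀ : 0 < b₀) (hk : TF k b) (hev : ∀ v, k (-v) = k v) :
    ∃ (kn kf : ℝ → ℝ) (B : ℝ), b₀ / 2 ≤ B ∧ TF kn b₀ ∧ (∀ v, kn (-v) = kn v) ∧
      TF kf B ∧ (∀ v, v < b₀ / 2 → kf v = 0) ∧ (∀ v, k v = kn v + (kf v + kf (-v))) ∧
      ((∀ v, 0 ≤ k v) → ∀ v, 0 ≤ kf v) ∧ (∀ v, b₀ < v → kf v = k v) := by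
  obtain ⟨χ, hχ, hχe, hχ0, hχ1, hχ2⟩ := exists_cut0 hb₀
  set H : ℝ → ℝ := fun v => Real.smoothTransition (v / (b₀ / 2)) with hH
  have hHs : ContDiff ℝ (⊤ : ℕ∞) H := Real.smoothTransition.contDiff.comp (by fun_prop)
  have hH0 : ∀ v, v ≤ 0 → H v = 0 := by
    intro v hv
    exact Real.smoothTransition.zero_of_nonpos (div_nonpos_of_nonpos_of_nonneg hv (by positivity))
  have hH1 : ∀ v, b₀ / 2 ≤ v → H v = 1 := by
    intro v hv
    apply Real.smoothTransition.one_of_one_le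
    rw [le_div_iff₀ (by positivity)]; linarith
  refine ⟨fun v => χ v * k v, fun v => ((1 - χ v) * H v) * k v, max b (b₀ / 2), le_max_right _ _,
    ⟨hχ.smooth.mul hk.smooth, ?_⟩, ?_, ⟨?_, ?_⟩, ?_, ?_, ?_, ?_⟩
  · intro v hv; rw [hχ.supp v hv]; ring
  · intro v; beta_reduce; rw [hχe, hev]
  · exact ((contDiff_const.sub hχ.smooth).mul hHs).mul hk.smooth
  · intro v hv; rw [hk.supp v (lt_of_le_of_lt (le_max_left _ _) hv)]; ring
  · intro v hv
    beta_reduce
    rcases le_or_gt v 0 with h | h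
    · rw [hH0 v h]; ring
    · rw [hχ2 v (by rw [abs_of_pos h]; linarith)]; ring
  · intro v
    beta_reduce
    rw [hχe, hev]
    rcases lt_trichotomy v 0 with h | h | h
    · rw [hH0 v h.le]
      rcases le_or_gt (b₀ / 2) (-v) with h2 | h2
      · rw [hH1 _ h2]; ring
      · rw [hχ2 v (by rw [abs_of_neg h]; linarith)]; ring
    · rw [h, hχ2 0 (by rw [abs_zero]; positivity)]; ring
    · rw [hH0 (-v) (by linarith)]
      rcases le_or_gt (b₀ / 2) v with h2 | h2
      · rw [hH1 _ h2]; ring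
      · rw [hχ2 v (by rw [abs_of_pos h]; linarith)]; ring
  · intro hk0 v
    have h1 := hχ1 v
    have h2 := Real.smoothTransition.nonneg (v / (b₀ / 2))
    exact mul_nonneg (mul_nonneg (by linarith) h2) (hk0 v)
  · intro v hv
    beta_reduce
    rw [hχ.supp v (by rw [abs_of_pos (by linarith)]; exact hv), hH1 v (by linarith)]
    ring

lemma ρ1_even (v : ℝ) : ρ1 (-v) = ρ1 v := by unfold ρ1; rw [abs_neg]

lemma ρ1k_int (hk : TF k b) : Integrable (fun v => ρ1 v * k v) := by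
  apply Continuous.integrable_of_hasCompactSupport
  · have := hk.cont
    have := ρ1_cont
    fun_prop
  · exact hk.hasCompactSupport.mul_left

lemma half_int (hk : TF k b) (heb : e ≤ b) (hpos : ∀ v, v < e → k v = 0) (f : ℝ → ℝ) :
    ∫ v, k v * f v = ∫ v in e..b, k v * f v := by
  rw [intervalIntegral.integral_of_le heb, ← integral_Icc_eq_integral_Ioc,
    ← integral_indicator measurableSet_Icc]
  congr 1; ext x
  by_cases hx : x ∈ Icc e b
  · rw [indicator_of_mem hx]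
  · rw [indicator_of_notMem hx]
    have : k x = 0 := by
      rw [mem_Icc, not_and_or, not_le, not_le] at hx
      rcases hx with h | h
      · exact hpos x h
      · exact hk.supp x (lt_of_lt_of_le h (le_abs_self x))
    rw [this, zero_mul]

/-- **Reduction to the windows**: the smoothed pair sum for an even test function. -/
theorem PF_near (hR : RHz) (hk : TF k b) (hev : ∀ v, k (-v) = k v) :
    ∃ (kf : ℝ → ℝ) (e B : ℝ), 0 < e ∧ e ≤ 1 ∧ e ≤ B ∧ TF kf B ∧ (∀ v, v < e → kf v = 0) ∧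
      ((∀ v, 0 ≤ k v) → ∀ v, 0 ≤ kf v) ∧ (∀ v, 1 < v → kf v = k v) ∧
      Tendsto (fun T => T / Real.log T * PF (kap T) (Real.log T) k - 2 * ∫ x in e..B, kf x * wd T x) atTop
        (𝓝 (ck k - 2 * ∫ x in e..B, kf x * ρ1 x)) := by
  obtain ⟨b₀, hb₀, hb₁, hnear⟩ := near_lim hR
  obtain ⟨kn, kf, B, hB, t1, ev1, t2, hpos, hsum, hnn, hfar⟩ := decomp hb₀ hk hev
  refine ⟨kf, b₀ / 2, B, by positivity, by linarith, hB, t2, hpos, hnn, fun v hv => hfar v (by linarith), ?_⟩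
  have h1 := PF_of_Spair0 t1 (hnear kn t1 ev1) near_kap T_kap
  rw [one_mul] at h1
  have h2 := (V_lim hR t2 (by positivity : 0 < b₀ / 2) hB hpos).const_mul 2
  rw [mul_zero] at h2
  have h3 := h1.sub h2
  rw [sub_zero] at h3
  -- the constant
  have hc : ck kn = ck k - 2 * ∫ x in (b₀ / 2)..B, kf x * ρ1 x := by
    have e0 : kf 0 = 0 := hpos 0 (by positivity)
    have e1 : k 0 = kn 0 := by have := hsum 0; rw [neg_zero, e0] at this; linarith
    have e2 : ∫ v, ρ1 v * k v = (∫ v, ρ1 v * kn v) + 2 * ∫ v, kf v * ρ1 v := by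
      have e3 : ∫ v, ρ1 v * kf (-v) = ∫ v, ρ1 v * kf v := by
        rw [← integral_neg_eq_self]
        congr 1; ext v
        rw [neg_neg, ρ1_even]
      have e4 : ∫ v, ρ1 v * k v = ∫ v, (ρ1 v * kn v + (ρ1 v * kf v + ρ1 v * kf (-v))) := by
        congr 1; ext v; rw [hsum v]; ring
      have t3 : TF (fun v => kf (-v)) B := t2.reflect
      have i2 : Integrable (fun v => ρ1 v * kf v + ρ1 v * kf (-v)) := (ρ1k_int t2).add (ρ1k_int t3)
      rw [e4, integral_add (ρ1k_int t1) i2, integral_add (ρ1k_int t2) (ρ1k_int t3), e3]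
      have e5 : ∫ v, kf v * ρ1 v = ∫ v, ρ1 v * kf v := by congr 1; ext v; ring
      rw [e5]; ring
    unfold ck
    rw [e1, e2, half_int t2 hB hpos]
    ring
  rw [hc] at h3
  refine h3.congr' ?_
  -- linearity of the pair sum
  have tn : TF kn (max b₀ B) := t1.mono (le_max_left _ _)
  have tf : TF kf (max b₀ B) := t2.mono (le_max_right _ _)
  have tr : TF (fun v => kf (-v)) (max b₀ B) := tf.reflect
  obtain ⟨κ₁, hκ₁, g1⟩ := PF_add tn (tf.add tr)
  obtain ⟨κ₂, hκ₂, g2⟩ := PF_add tf tr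
  filter_upwards [near_kap.ev (lt_min hκ₁ hκ₂), log_ev 1] with T hT hL
  obtain ⟨a1, a2, a3⟩ := hT
  have hL0 : 0 < Real.log T := by linarith
  have e1 : PF (kap T) (Real.log T) k = PF (kap T) (Real.log T) kn + 2 * PF (kap T) (Real.log T) kf := by
    have h4 : k = fun v => kn v + (kf v + kf (-v)) := funext hsum
    conv_lhs => rw [h4]
    rw [g1 _ a1 (a2.trans (min_le_left _ _)) _ hL a3, g2 _ a1 (a2.trans (min_le_right _ _)) _ hL a3,
      PF_reflect]
    ring
  rw [e1, ← Vf_eq' t2 hB hpos hL0]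
  ring

/-- if the windows have the expected size, so have the pair sums -/
theorem PF_of_WinLim (hR : RHz) (hW : WinLim) (hk : TF k b) (hev : ∀ v, k (-v) = k v) :
    Tendsto (fun T => T / Real.log T * PF (kap T) (Real.log T) k) atTop (𝓝 (ck k)) := by
  obtain ⟨kf, e, B, he, he1, heB, t2, hpos, -, -, hlim⟩ := PF_near hR hk hev
  obtain ⟨M, hM⟩ : ∃ C, ∀ v, ‖kf v‖ ≤ C := t2.hasCompactSupport.exists_bound_of_continuous t2.cont
  have h1 := step_lim (l := atTop) (w := wd) wd_nonneg_ev wd_ii ρ1_nonneg ρ1_cont heB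
    (fun a b ha hab hb => hW.all (he.trans_le ha) hab) t2.cont (M := M) hM
  have h2 := hlim.add (h1.const_mul 2)
  have e1 : ck k - 2 * (∫ x in e..B, kf x * ρ1 x) + 2 * (∫ x in e..B, kf x * ρ1 x) = ck k := by ring
  rw [e1] at h2
  refine h2.congr fun T => ?_
  ring

end Pool.Agent.PairCorr.P6
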