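import Mathlib
import Pool.Agent.PairCorr.P6_Near
import Pool.Agent.PairCorr.F_WinKernel

set_option autoImplicit false

namespace Pool.Agent.PairCorr.P6

open MeasureTheory Filter Topology Set Real
open scoped ENNReal ComplexConjugate Convolution

variable {k : ℝ → ℝ} {b e : ℝ}

/-- the positive definite test function -/
noncomputable def kK (x : ℝ) : ℝ := ∫ t, phi0 t * phi0 (x - t)

lemma kK_TF : TF kK 2 := by
  refine ⟨?_, ?_⟩
  · exact phi0_TF.hasCompactSupport.contDiff_convolution_right (n := (⊤ : ℕ∞)) (μ := volume)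
      (ContinuousLinearMap.mul ℝ ℝ) phi0_TF.integrable.locallyIntegrable phi0_TF.smooth
  · intro v hv
    unfold kK
    have hz : ∀ t, phi0 t * phi0 (v - t) = 0 := by
      intro t
      by_cases ht : 1 < |t|
      · rw [phi0_TF.supp t ht, zero_mul]
      · push Not at ht
        have : 1 < |v - t| := by
          have := abs_sub_abs_le_abs_sub v t
          linarith
        rw [phi0_TF.supp _ this, mul_zero]
    simp_rw [hz]
    simp

lemma Kc_kK (w : ℂ) : Kc kK w = Kc phi0 w ^ 2 := by
  have i1 := phi0_TF.integrable_exp w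
  have h := integral_convolution (μ := volume) (ν := volume) (ContinuousLinearMap.mul ℂ ℂ) i1 i1
  simp only [ContinuousLinearMap.mul_apply'] at h
  rw [sq]
  unfold Kc
  rw [← h]
  congr 1
  ext x
  rw [convolution_def]
  simp only [ContinuousLinearMap.mul_apply', kK]
  rw [← integral_complex_ofReal, ← integral_mul_const]
  congr 1
  ext t
  have e : Complex.exp (x * w) = Complex.exp (t * w) * Complex.exp (((x - t : ℝ) : ℂ) * w) := by
    rw [← Complex.exp_add]; congr 1; push_cast; ring
  rw [e]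
  push_cast; ring

lemma kK_even (v : ℝ) : kK (-v) = kK v := by
  unfold kK
  rw [← integral_neg_eq_self]
  congr 1; ext t
  rw [phi0_even, show -v - -t = -(v - t) by ring, phi0_even]

lemma kK_nonneg (v : ℝ) : 0 ≤ kK v := integral_nonneg fun _ => mul_nonneg (phi0_nonneg _) (phi0_nonneg _)

lemma phi0_zero_pos_somewhere : ∃ x, phi0 x ≠ 0 := by
  by_contra h
  push Not at h
  have := phi0_mass
  simp_rw [h] at this
  simp at this

lemma kK_zero : 0 < kK 0 := by
  unfold kK
  obtain ⟨x, hx⟩ := phi0_zero_pos_somewhere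
  have hc : Continuous fun t => phi0 t * phi0 (0 - t) := by
    have := phi0_TF.cont
    fun_prop
  apply Continuous.integral_pos_of_hasCompactSupport_nonneg_nonzero hc
    phi0_TF.hasCompactSupport.mul_right (x := x)
  · intro t; exact mul_nonneg (phi0_nonneg _) (phi0_nonneg _)
  · simp only [zero_sub, phi0_even]
    exact mul_ne_zero hx hx

lemma rr_kK (y : ℝ) : rr kK y = rr phi0 y ^ 2 := by
  unfold rr
  rw [Kc_kK, Kc_even_real phi0_TF phi0_even, ← Complex.ofReal_pow, Complex.ofReal_re, Complex.ofReal_re]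

lemma rr_kK_nonneg (y : ℝ) : 0 ≤ rr kK y := by rw [rr_kK]; exact sq_nonneg _

lemma rr_zero (k : ℝ → ℝ) : rr k 0 = ∫ v, k v := by
  unfold rr Kc
  simp only [Complex.ofReal_zero, zero_mul, mul_zero, Complex.exp_zero, mul_one]
  rw [integral_complex_ofReal, Complex.ofReal_re]

lemma rr_kK_zero : rr kK 0 = 1 := by rw [rr_kK, rr_zero, phi0_mass]; norm_num

lemma int_kK : ∫ v, kK v = 1 := by rw [← rr_zero, rr_kK_zero]

/-- the dilated test function -/
noncomputable def kA (A v : ℝ) : ℝ := kK (v / A)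

lemma kA_TF {A : ℝ} (hA : 0 < A) : TF (kA A) (2 * A) := by
  refine ⟨?_, ?_⟩
  · exact kK_TF.smooth.comp (by fun_prop)
  · intro v hv
    apply kK_TF.supp
    rw [abs_div, abs_of_pos hA, lt_div_iff₀ hA]; exact hv

lemma kA_even (A v : ℝ) : kA A (-v) = kA A v := by unfold kA; rw [neg_div, kK_even]

lemma kA_nonneg (A v : ℝ) : 0 ≤ kA A v := kK_nonneg _

lemma rr_kA {A : ℝ} (hA : 0 < A) (y : ℝ) : rr (kA A) y = A * rr kK (A * y) := by
  have h1 : kA A = fun v => A * (kK (v / A) / A) := by
    funext v; unfold kA; field_simp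
  rw [h1, rr_smul]
  unfold rr
  rw [Kc_scale kK hA]
  congr 3
  push_cast; ring

lemma rr_kA_nonneg {A : ℝ} (hA : 0 < A) (y : ℝ) : 0 ≤ rr (kA A) y := by
  rw [rr_kA hA]; exact mul_nonneg hA.le (rr_kK_nonneg _)

lemma rr_kA_zero {A : ℝ} (hA : 0 < A) : rr (kA A) 0 = A := by
  rw [rr_kA hA, mul_zero, rr_kK_zero, mul_one]

lemma int_kA {A : ℝ} (hA : 0 < A) : ∫ v, kA A v = A := by rw [← rr_zero, rr_kA_zero hA]

/-- Lipschitz bound -/
lemma kK_lip : ∃ C : ℝ, 0 ≤ C ∧ ∀ v, |kK v - kK 0| ≤ C * |v| := by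
  obtain ⟨C, hC⟩ : ∃ C, ∀ v, ‖deriv kK v‖ ≤ C :=
    kK_TF.deriv.hasCompactSupport.exists_bound_of_continuous kK_TF.deriv.cont
  have hC0 : 0 ≤ C := (norm_nonneg _).trans (hC 0)
  refine ⟨C, hC0, fun v => ?_⟩
  have := (convex_univ (𝕜 := ℝ) (E := ℝ)).norm_image_sub_le_of_norm_deriv_le (f := kK) (C := C)
    (fun x _ => (kK_TF.hasDerivAt x).differentiableAt) (fun x _ => hC x) (mem_univ 0) (mem_univ v)
  simpa [Real.norm_eq_abs] using this

/-- the deficit of the dilated test function -/
lemma deficit : ∃ C : ℝ, 0 ≤ C ∧ ∀ A : ℝ, 1 ≤ A → ck (kA A) ≤ A + C / A := by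
  obtain ⟨C, hC, h⟩ := kK_lip
  refine ⟨2 * C, by positivity, fun A hA => ?_⟩
  have hA0 : 0 < A := by linarith
  have hT := kA_TF hA0
  have hk0 : kA A 0 = kK 0 := by unfold kA; rw [zero_div]
  -- the tent
  have htent : ∫ v in (-1:ℝ)..1, (1 - |v|) = 1 := by
    have h1 : ∫ v in (-1:ℝ)..0, (1 - |v|) = 1/2 := by
      have : ∫ v in (-1:ℝ)..0, (1 - |v|) = ∫ v in (-1:ℝ)..0, (1 + v) := by
        apply intervalIntegral.integral_congr
        intro v hv
        rw [uIcc_of_le (by norm_num)] at hv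
        simp only
        rw [abs_of_nonpos hv.2]; ring
      rw [this, intervalIntegral.integral_add (by simp) (by simp)]
      simp; norm_num
    have h2 : ∫ v in (0:ℝ)..1, (1 - |v|) = 1/2 := by
      have : ∫ v in (0:ℝ)..1, (1 - |v|) = ∫ v in (0:ℝ)..1, (1 - v) := by
        apply intervalIntegral.integral_congr
        intro v hv
        rw [uIcc_of_le (by norm_num)] at hv
        simp only
        rw [abs_of_nonneg hv.1]
      rw [this, intervalIntegral.integral_sub (by simp) (by simp)]
      simp; norm_num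
    have hc : Continuous fun v : ℝ => 1 - |v| := by fun_prop
    rw [← intervalIntegral.integral_add_adjacent_intervals (b := 0) (hc.intervalIntegrable _ _)
      (hc.intervalIntegrable _ _), h1, h2]
    norm_num
  have hsplit : ∫ v, ρ1 v * kA A v = A - ∫ v in (-1:ℝ)..1, (1 - |v|) * kA A v := by
    have e1 : ∫ v in (-1:ℝ)..1, (1 - |v|) * kA A v = ∫ v, (1 - ρ1 v) * kA A v := by
      rw [intervalIntegral.integral_of_le (by norm_num), ← integral_Icc_eq_integral_Ioc,
        ← integral_indicator measurableSet_Icc]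
      congr 1; ext v
      by_cases hv : v ∈ Icc (-1:ℝ) 1
      · rw [indicator_of_mem hv]
        have : |v| ≤ 1 := abs_le.2 hv
        unfold ρ1
        rw [min_eq_left this]
      · rw [indicator_of_notMem hv]
        have : 1 < |v| := by
          by_contra hc
          exact hv (abs_le.1 (not_lt.1 hc))
        unfold ρ1
        rw [min_eq_right this.le]; ring
    have e2 : ∫ v, (1 - ρ1 v) * kA A v = (∫ v, kA A v) - ∫ v, ρ1 v * kA A v := by
      rw [← integral_sub hT.integrable (ρ1k_int hT)]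
      congr 1; ext v; ring
    rw [e1, e2, int_kA hA0]; ring
  have hlow : kK 0 - 2 * C / A ≤ ∫ v in (-1:ℝ)..1, (1 - |v|) * kA A v := by
    have e1 : kK 0 - C / A = ∫ v in (-1:ℝ)..1, (1 - |v|) * (kK 0 - C / A) := by
      rw [intervalIntegral.integral_mul_const, htent, one_mul]
    have e2 : ∫ v in (-1:ℝ)..1, (1 - |v|) * (kK 0 - C / A) ≤ ∫ v in (-1:ℝ)..1, (1 - |v|) * kA A v := by
      have := hT.cont
      apply intervalIntegral.integral_mono_on (by norm_num)
      · exact (by fun_prop : Continuous fun v : ℝ => (1 - |v|) * (kK 0 - C / A)).intervalIntegrable _ _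
      · exact (by fun_prop : Continuous fun v : ℝ => (1 - |v|) * kA A v).intervalIntegrable _ _
      · intro v hv
        have hv' : |v| ≤ 1 := abs_le.2 hv
        apply mul_le_mul_of_nonneg_left _ (by linarith)
        have h1 := (abs_le.1 (h (v / A))).1
        have h2 : C * |v / A| ≤ C / A := by
          rw [abs_div, abs_of_pos hA0, ← mul_div_assoc]
          gcongr
          nlinarith
        unfold kA
        linarith
    have : 0 ≤ C / A := by positivity
    have e3 : 2 * C / A = 2 * (C / A) := by ring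
    rw [e3]
    linarith
  unfold ck
  rw [hk0, hsplit]
  linarith

/-- the quantitative lower bound for a window -/
lemma win_lower (hR : RHz) (hW : WinUB) {α β A : ℝ} (hα : 1 ≤ α) (hαβ : α < β) (hA : β ≤ A) {ε : ℝ} (hε : 0 < ε)
    {C : ℝ} (hdef : ck (kA A) ≤ A + C / A) {m M : ℝ} (_hM0 : 0 ≤ M) (hm : ∀ v ∈ Icc α β, m ≤ kA A v)
    (hM : ∀ v ∈ Icc α β, kA A v ≤ M) :
    ∀ᶠ T : ℝ in atTop, 2 * m * (β - α) - C / A - ε ≤ 2 * M * ∫ x in α..β, wd T x := by
  have hA0 : 0 < A := by linarith
  have hT := kA_TF hA0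
  obtain ⟨kf, e, B, he, he1, heB, t2, hpos, hnn, hfar, hlim⟩ := PF_near hR hT (kA_even A)
  have hkf0 := hnn (kA_nonneg A)
  -- enlarge B
  set B' := max B β with hB'
  have hBB : B ≤ B' := le_max_left _ _
  have hβB : β ≤ B' := le_max_right _ _
  have heα : e ≤ α := he1.trans hα
  -- tail integrals vanish
  have hsupp : ∀ f : ℝ → ℝ, ∫ x in e..B', kf x * f x = ∫ x in e..B, kf x * f x := by
    intro f
    rw [← half_int t2 heB hpos f, ← half_int (t2.mono hBB) (heB.trans hBB) hpos f]
  have hkw : ∀ T a b, IntervalIntegrable (fun y => kf y * wd T y) volume a b := fun T a b =>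
    (wd_ii T a b).continuousOn_mul t2.cont.continuousOn
  have hkρ : ∀ a b, IntervalIntegrable (fun y => kf y * ρ1 y) volume a b := fun a b => by
    have h1 := t2.cont
    have h2 := ρ1_cont
    exact (by fun_prop : Continuous fun y => kf y * ρ1 y).intervalIntegrable a b
  have hub1 := step_ub (l := atTop) (w := wd) wd_nonneg_ev wd_ii ρ1_nonneg ρ1_cont heα
    (fun a b ha hab hb ε hε => hW.all (he.trans_le ha) hab hε) t2.cont hkf0 (show 0 < ε / 8 by positivity)
  have hub2 := step_ub (l := atTop) (w := wd) wd_nonneg_ev wd_ii ρ1_nonneg ρ1_cont hβB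
    (fun a b ha hab hb ε hε => hW.all (by linarith) hab hε) t2.cont hkf0 (show 0 < ε / 8 by positivity)
  have hlow := PF_diag_lower hT (rr_kA_nonneg hA0) (show 0 < ε / (4 * A) by positivity)
  rw [rr_kA_zero hA0] at hlow
  have hl := hlim.eventually_le_const (show ck (kA A) - 2 * (∫ x in e..B, kf x * ρ1 x) <
    ck (kA A) - 2 * (∫ x in e..B, kf x * ρ1 x) + ε / 4 by linarith)
  filter_upwards [hub1, hub2, hlow, hl, wd_nonneg_ev] with T g1 g2 g3 g4 hw0
  -- splitting
  have s1 : ∫ x in e..B', kf x * wd T x = (∫ x in e..α, kf x * wd T x) + (∫ x in α..β, kf x * wd T x) +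
      ∫ x in β..B', kf x * wd T x := by
    rw [intervalIntegral.integral_add_adjacent_intervals (hkw T _ _) (hkw T _ _),
      intervalIntegral.integral_add_adjacent_intervals (hkw T _ _) (hkw T _ _)]
  have s2 : ∫ x in e..B', kf x * ρ1 x = (∫ x in e..α, kf x * ρ1 x) + (∫ x in α..β, kf x * ρ1 x) +
      ∫ x in β..B', kf x * ρ1 x := by
    rw [intervalIntegral.integral_add_adjacent_intervals (hkρ _ _) (hkρ _ _),
      intervalIntegral.integral_add_adjacent_intervals (hkρ _ _) (hkρ _ _)]
  rw [hsupp] at s1 s2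
  have hae : ∀ᵐ x : ℝ ∂volume, x ≠ 1 := by
    have : ({1} : Set ℝ)ᶜ ∈ ae (volume : Measure ℝ) := compl_mem_ae_iff.2 (by simp)
    exact this
  have u1 : ∫ x in α..β, kf x * wd T x ≤ M * ∫ x in α..β, wd T x := by
    rw [← intervalIntegral.integral_const_mul]
    apply intervalIntegral.integral_mono_on_of_le_Ioo hαβ.le (hkw T _ _) ((wd_ii T _ _).const_mul _)
    intro x hx
    have h1 : kf x = kA A x := hfar x (by linarith [hx.1])
    rw [h1]
    exact mul_le_mul_of_nonneg_right (hM x ⟨hx.1.le, hx.2.le⟩) (hw0 x)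
  have u2 : m * (β - α) ≤ ∫ x in α..β, kf x * ρ1 x := by
    rw [← ρ1_large hα hαβ.le, ← intervalIntegral.integral_const_mul]
    apply intervalIntegral.integral_mono_on_of_le_Ioo hαβ.le
      ((ρ1_cont.intervalIntegrable _ _).const_mul _) (hkρ _ _)
    intro x hx
    have h1 : kf x = kA A x := hfar x (by linarith [hx.1])
    rw [h1]
    exact mul_le_mul_of_nonneg_right (hm x ⟨hx.1.le, hx.2.le⟩) (ρ1_nonneg x)
  have g5 : A * (1 - ε / (4 * A)) = A - ε / 4 := by field_simp
  rw [g5] at g3
  linarith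

/-- **Rigidity**: the one-sided bound forces the asymptotics. -/
theorem WinLim_of_UB (hR : RHz) (hW : WinUB) : WinLim := by
  intro α β hα hαβ
  obtain ⟨C, hC, hdef⟩ := deficit
  obtain ⟨D, hD, hlip⟩ := kK_lip
  have hk0 := kK_zero
  have hb0 : 0 < β - α := by linarith
  rw [Metric.tendsto_nhds]
  intro ε hε
  have hup := hW α β hα hαβ (ε / 2) (by positivity)
  -- lower bound
  have hlow : ∀ᶠ T : ℝ in atTop, β - α - ε / 2 ≤ ∫ x in α..β, wd T x := by
    -- choose A
    have hlim1 : Tendsto (fun A : ℝ => (2 * (kK 0 - D * β / A) * (β - α) - C / A - ε / 2 * kK 0) /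
        (2 * (kK 0 + D * β / A))) atTop (𝓝 ((2 * (kK 0 - 0) * (β - α) - 0 - ε / 2 * kK 0) /
        (2 * (kK 0 + 0)))) := by
      have h1 : Tendsto (fun A : ℝ => D * β / A) atTop (𝓝 0) := tendsto_const_nhds.div_atTop tendsto_id
      have h2 : Tendsto (fun A : ℝ => C / A) atTop (𝓝 0) := tendsto_const_nhds.div_atTop tendsto_id
      apply Tendsto.div
      · exact ((((tendsto_const_nhds.sub h1).const_mul 2).mul_const _).sub h2).sub_const _
      · exact (tendsto_const_nhds.add h1).const_mul 2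
      · simp; exact hk0.ne'
    have e1 : (2 * (kK 0 - 0) * (β - α) - 0 - ε / 2 * kK 0) / (2 * (kK 0 + 0)) = β - α - ε / 4 := by
      field_simp; ring
    rw [e1] at hlim1
    have h3 := (hlim1.eventually_const_lt (show β - α - ε / 2 < β - α - ε / 4 by linarith)).and
      ((eventually_ge_atTop (max β 1)))
    obtain ⟨A, h4, h5⟩ := h3.exists
    have hAβ : β ≤ A := (le_max_left _ _).trans h5
    have hA1 : 1 ≤ A := (le_max_right _ _).trans h5
    have hA0 : 0 < A := by linarith
    have hβ0 : 0 < β := by linarith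
    have hcl : ∀ v ∈ Icc α β, |kA A v - kK 0| ≤ D * β / A := by
      intro v hv
      have h6 := hlip (v / A)
      have h7 : |v / A| ≤ β / A := by
        rw [abs_div, abs_of_pos hA0, abs_of_nonneg (by linarith [hv.1])]
        gcongr
        exact hv.2
      calc |kA A v - kK 0| ≤ D * |v / A| := h6
        _ ≤ D * (β / A) := by gcongr
        _ = _ := by ring
    have hMpos : 0 < kK 0 + D * β / A := by positivity
    have h8 := win_lower hR hW hα hαβ hAβ (show 0 < ε / 2 * kK 0 by positivity) (hdef A hA1)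
      (m := kK 0 - D * β / A) (M := kK 0 + D * β / A) hMpos.le
      (fun v hv => by have := (abs_le.1 (hcl v hv)).1; linarith)
      (fun v hv => by have := (abs_le.1 (hcl v hv)).2; linarith)
    filter_upwards [h8] with T hT
    rw [lt_div_iff₀ (by positivity)] at h4
    have h9 : (β - α - ε / 2) * (2 * (kK 0 + D * β / A)) ≤ 2 * (kK 0 + D * β / A) * ∫ x in α..β, wd T x :=
      h4.le.trans hT
    have h10 : 0 < 2 * (kK 0 + D * β / A) := by positivity
    rw [mul_comm (2 * (kK 0 + D * β / A))] at h9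
    exact le_of_mul_le_mul_right h9 h10
  filter_upwards [hup, hlow, log_ev 1] with T h1 h2 hL
  rw [Win_eq (by linarith)] at h2
  rw [Real.dist_eq, abs_lt]
  constructor <;> linarith

end Pool.Agent.PairCorr.P6
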