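import Mathlib
import Pool.Agent.PairCorr.P6_Rig
import Pool.Agent.PairCorr.A_WinMain
import Pool.Agent.PairCorr.A_TPof
import Pool.Agent.PairCorr.A_Sym

set_option autoImplicit false

namespace Pool.Agent.PairCorr.P6

open MeasureTheory Filter Topology Set Real
open scoped ENNReal ComplexConjugate FourierTransform

lemma tri_ρ1 (v : ℝ) : tri v = 1 - ρ1 v := by
  unfold tri ρ1
  rcases le_total |v| 1 with h | h
  · rw [min_eq_left h, max_eq_right (by linarith)]
  · rw [min_eq_right h, max_eq_left (by linarith)]; ring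

/-- `∫ F sinc² = ∫ χ(v)(1-min(|v|,1))` -/
lemma integral_F_sinc2_gen {χ F : ℝ → ℝ} {b : ℝ} (h : TF χ b) (heven : ∀ v, χ (-v) = χ v)
    (hF : ∀ u : ℝ, Kc χ ((2 * π * u : ℝ) * Complex.I) = (F u : ℂ)) :
    Integrable F ∧ ∫ u, F u = χ 0 ∧ ∫ u, F u * sinc2 u = ∫ v, χ v * (1 - ρ1 v) := by
  have hFi : Integrable (fun u => (F u : ℂ)) := by
    have := (inversion_2pi h 0).1
    simpa only [hF] using this
  have hFi' : Integrable F := by
    have := hFi.re
    simpa using this
  refine ⟨hFi', ?_, ?_⟩
  · have h0 := (inversion_2pi h 0).2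
    simp only [hF, mul_zero, Complex.ofReal_zero, zero_mul, neg_zero, Complex.exp_zero, mul_one] at h0
    rw [integral_complex_ofReal] at h0
    exact_mod_cast h0
  · have hcos : ∀ v, ∫ u, F u * Real.cos (2 * π * u * v) = χ v := by
      intro v
      have h1 := (inversion_2pi h v).2
      have h2 := (inversion_2pi h (-v)).2
      simp only [hF] at h1 h2
      have i1 : Integrable (fun u : ℝ => (F u : ℂ) * Complex.exp (-((2 * π * u * v : ℝ) * Complex.I))) := by
        refine hFi.mul_bdd (c := 1) (Continuous.aestronglyMeasurable (by fun_prop)) ?_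
        refine Eventually.of_forall fun u => ?_
        rw [Complex.norm_exp]; simp
      have i2 : Integrable (fun u : ℝ => (F u : ℂ) * Complex.exp (-((2 * π * u * (-v) : ℝ) * Complex.I))) := by
        refine hFi.mul_bdd (c := 1) (Continuous.aestronglyMeasurable (by fun_prop)) ?_
        refine Eventually.of_forall fun u => ?_
        rw [Complex.norm_exp]; simp
      have h3 := integral_add i1 i2
      rw [h1, h2, heven] at h3
      have h4 : ∫ u, ((F u * Real.cos (2 * π * u * v) : ℝ) : ℂ) = (χ v : ℂ) := by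
        have e : ∀ u : ℝ, ((F u * Real.cos (2 * π * u * v) : ℝ) : ℂ) =
            ((F u : ℂ) * Complex.exp (-((2 * π * u * v : ℝ) * Complex.I)) +
            (F u : ℂ) * Complex.exp (-((2 * π * u * (-v) : ℝ) * Complex.I))) / 2 := by
          intro u
          rw [Complex.ofReal_mul, Complex.ofReal_cos, Complex.cos]
          push_cast
          ring_nf
        simp_rw [e]
        rw [integral_div, h3]
        ring
      rw [integral_complex_ofReal] at h4
      exact_mod_cast h4
    have hfub : Integrable (fun p : ℝ × ℝ => F p.1 * (tri p.2 * Real.cos (2 * π * p.1 * p.2)))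
        ((volume : Measure ℝ).prod (volume : Measure ℝ)) := by
      have h1 := hFi'.mul_prod tri_integrable
      have h2 : Integrable (fun p : ℝ × ℝ => (F p.1 * tri p.2) * Real.cos (2 * π * p.1 * p.2))
          ((volume : Measure ℝ).prod (volume : Measure ℝ)) := by
        refine h1.mul_bdd (c := 1) (Continuous.aestronglyMeasurable (by fun_prop)) ?_
        exact Eventually.of_forall fun p => Real.abs_cos_le_one _
      refine h2.congr (Eventually.of_forall fun p => ?_)
      simp only; ring
    have h5 : ∫ u, F u * sinc2 u = ∫ u, ∫ v, F u * (tri v * Real.cos (2 * π * u * v)) := by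
      apply integral_congr_ae
      have : ∀ᵐ u : ℝ, u ≠ 0 := by
        rw [ae_iff]; simp
      filter_upwards [this] with u hu
      rw [integral_const_mul, tri_cos hu]
    rw [h5, integral_integral_swap hfub]
    congr 1
    ext v
    have : ∀ u, F u * (tri v * Real.cos (2 * π * u * v)) = tri v * (F u * Real.cos (2 * π * u * v)) := by
      intro u; ring
    simp_rw [this]
    rw [integral_const_mul, hcos, tri_ρ1]; ring

theorem gue_identity_gen {χ q : ℝ → ℝ} {b : ℝ} (h : TF χ b) (heven : ∀ v, χ (-v) = χ v)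
    (hqc : Continuous q) (hq : RapidDecay q) (hodd : ∀ u, q (-u) = -q u)
    (hF : ∀ u : ℝ, Kc χ ((2 * π * u : ℝ) * Complex.I) = (tailF q u : ℂ)) :
    ∫ u in Ioi (0:ℝ), q u * (1 / 2 + gue u) = ck χ / 2 := by
  have hqi := hq.integrable hqc
  obtain ⟨hFi, hF0, hFs⟩ := integral_F_sinc2_gen h heven hF
  have hFhas := tailF_hasDerivAt hqc hqi
  have hFc : Continuous (tailF q) := continuous_iff_continuousAt.2 fun x => (hFhas x).continuousAt
  have hFe := tailF_even hqc hqi hodd
  -- half-line integrals
  have e1 : ∫ u, tailF q u = 2 * ∫ u in Ioi (0:ℝ), tailF q u := by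
    have := integral_comp_abs (f := tailF q)
    rw [← this]
    congr 1
    ext u
    rcases abs_cases u with ⟨h, _⟩ | ⟨h, _⟩
    · rw [h]
    · rw [h, hFe]
  have e2 : ∫ u, tailF q u * sinc2 u = 2 * ∫ u in Ioi (0:ℝ), tailF q u * sinc2 u := by
    have := integral_comp_abs (f := fun u => tailF q u * sinc2 u)
    rw [← this]
    congr 1
    ext u
    have hs : sinc2 (-u) = sinc2 u := by
      unfold sinc2; rw [mul_neg, Real.sin_neg, neg_div_neg_eq]
    rcases abs_cases u with ⟨h, _⟩ | ⟨h, _⟩
    · rw [h]
    · rw [h, hFe, hs]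
  -- value of ∫ χ
  have e3 : tailF q 0 = ∫ v, χ v := by
    have := hF 0
    simp only [mul_zero, Complex.ofReal_zero, zero_mul] at this
    unfold Kc at this
    simp only [mul_zero, Complex.exp_zero, mul_one] at this
    rw [integral_complex_ofReal] at this
    exact_mod_cast this.symm
  -- integration by parts
  have hqu : Integrable (fun u => q u * gue u) := by
    have h1 := hq.integrable_mul hqc 1
    refine Integrable.mono' h1 ((hqc.mul gue_continuous).aestronglyMeasurable)
      (Eventually.of_forall fun u => ?_)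
    rw [Real.norm_eq_abs, abs_mul, pow_one, mul_comm]
    apply mul_le_mul_of_nonneg_right _ (abs_nonneg _)
    have := gue_lipschitz u 0
    rwa [gue_zero, sub_zero, sub_zero] at this
  have hFs' : Integrable (fun u => tailF q u * (1 - sinc2 u)) := by
    refine hFi.mul_bdd (c := 1) (measurable_const.sub sinc2_meas).aestronglyMeasurable ?_
    refine Eventually.of_forall fun u => ?_
    rw [Real.norm_eq_abs, abs_le]
    constructor <;> linarith [sinc2_nonneg u, sinc2_le_one u]
  have hFs'' : Integrable (fun u => tailF q u * sinc2 u) := by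
    refine hFi.mul_bdd (c := 1) sinc2_meas.aestronglyMeasurable ?_
    refine Eventually.of_forall fun u => ?_
    rw [Real.norm_eq_abs, abs_of_nonneg (sinc2_nonneg u)]
    exact sinc2_le_one u
  have hlim : Tendsto (fun u => tailF q u * gue u) atTop (𝓝 0) := by
    obtain ⟨K, hK, hb2⟩ := tailF_decay hqc hq hodd 2
    apply squeeze_zero_norm' (a := fun u => K * (1 + u)⁻¹)
    · filter_upwards [eventually_ge_atTop 0] with u hu
      rw [Real.norm_eq_abs, abs_mul, abs_of_nonneg (gue_nonneg hu)]
      have h1 := hb2 u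
      rw [abs_of_nonneg hu] at h1
      calc |tailF q u| * gue u ≤ (K * ((1 + u) ^ 2)⁻¹) * (1 + u) := by
            apply mul_le_mul h1 ((gue_le hu).trans (by linarith)) (gue_nonneg hu) (by positivity)
        _ = K * (1 + u)⁻¹ := by field_simp
    · have : Tendsto (fun u : ℝ => (1 + u)⁻¹) atTop (𝓝 0) :=
        (tendsto_atTop_add_const_left atTop 1 tendsto_id).inv_tendsto_atTop
      simpa using this.const_mul K
  have hparts : ∫ u in Ioi (0:ℝ), (-(q u * gue u) + tailF q u * (1 - sinc2 u)) = 0 - tailF q 0 * gue 0 := by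
    apply integral_Ioi_of_hasDerivAt_of_tendsto (hFc.mul gue_continuous).continuousWithinAt
    · intro u hu
      have hu' : u ≠ 0 := (mem_Ioi.1 hu).ne'
      exact ((hFhas u).mul (gue_hasDerivAt hu')).congr_deriv (by ring)
    · exact (hqu.neg.add hFs').integrableOn
    · exact hlim
  have hqn : Integrable (fun u => -(q u * gue u)) := hqu.neg
  rw [integral_add hqn.integrableOn hFs'.integrableOn, integral_neg, gue_zero, mul_zero, sub_zero] at hparts
  have e4 : ∫ u in Ioi (0:ℝ), tailF q u * (1 - sinc2 u) =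
      (∫ u in Ioi (0:ℝ), tailF q u) - ∫ u in Ioi (0:ℝ), tailF q u * sinc2 u := by
    rw [← integral_sub hFi.integrableOn hFs''.integrableOn]
    congr 1
    ext u; ring
  have e5 : ∫ u in Ioi (0:ℝ), q u * (1 / 2 + gue u) = (1/2) * tailF q 0 + ∫ u in Ioi (0:ℝ), q u * gue u := by
    have : tailF q 0 = ∫ u in Ioi (0:ℝ), q u := rfl
    rw [this, ← integral_const_mul, ← integral_add (hqi.const_mul _).integrableOn hqu.integrableOn]
    congr 1
    ext u; ring
  have e6 : ∫ v, χ v * (1 - ρ1 v) = (∫ v, χ v) - ∫ v, ρ1 v * χ v := by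
    rw [← integral_sub h.integrable (ρ1k_int h)]
    congr 1
    ext v; ring
  unfold ck
  rw [e5, e3]
  rw [e1] at hF0
  rw [e2, e6] at hFs
  linarith


/-- the ordinate pair sums from the pair counts -/
theorem Spair0_of_counts (hM : Tendsto Mr atTop (𝓝 1)) (hL : ∀ a > 0, Tendsto (fun T => Lr T a) atTop (𝓝 (gue a)))
    {k : ℝ → ℝ} {b : ℝ} (hk : TF k b) (hev : ∀ v, k (-v) = k v) :
    Tendsto (fun U => (Spair0 k U).re / NT U) atTop (𝓝 (ck k)) := by
  obtain ⟨q, hq, -⟩ := exists_TP hk hev
  obtain ⟨C, hC, hAS⟩ := spair0_eq hq.cont hq.decay hq.odd hq.ker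
  obtain ⟨C1, hC1, T₀, hT₀, hquad⟩ := Mr_le_of_quad
  have hgue := gue_identity_gen hq.tf hq.even hq.cont hq.decay hq.odd hq.ker
  -- convergence of the integral
  have hconv : Tendsto (fun T => ∫ u in Ioi 0, q u * (Lr T u - gue u)) atTop (𝓝 (∫ u in Ioi (0:ℝ), 0)) := by
    have hdom := hq.decay.int_mul hq.cont (H := fun u => C1 * (1 + |u|) ^ 2) (by fun_prop) (C := C1) (k := 2)
      (fun u hu => by rw [abs_of_nonneg hu, abs_of_nonneg (by positivity)])
    apply tendsto_integral_filter_of_dominated_convergence (fun u => |q u * (C1 * (1 + |u|) ^ 2)|)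
    · filter_upwards [eventually_ge_atTop (Real.exp 1)] with T hT
      exact (hq.cont.measurable.mul ((Lr_mono hT).measurable.sub gue_continuous.measurable)).aestronglyMeasurable
    · filter_upwards [eventually_ge_atTop T₀] with T hT
      filter_upwards [ae_restrict_mem measurableSet_Ioi] with u hu
      have hu0 : (0:ℝ) ≤ u := le_of_lt hu
      rw [norm_mul, Real.norm_eq_abs, Real.norm_eq_abs, abs_mul, abs_of_nonneg (show 0 ≤ C1 * (1 + |u|) ^ 2 by positivity)]
      gcongr
      rw [abs_of_nonneg hu0]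
      exact (hquad T hT).2 u hu0
    · exact hdom.abs
    · filter_upwards [ae_restrict_mem measurableSet_Ioi] with u hu
      have h1 := ((hL u hu).sub_const (gue u)).const_mul (q u)
      rw [sub_self, mul_zero] at h1
      exact h1
  simp only [integral_zero] at hconv
  have hmain : Tendsto (fun T => 2 * ((Mr T - 1) / 2 * (∫ u in Ioi 0, q u) + (∫ u in Ioi 0, q u * (Lr T u - gue u)) +
      ck k / 2)) atTop (𝓝 (2 * ((1 - 1) / 2 * (∫ u in Ioi 0, q u) + 0 + ck k / 2))) :=
    ((((hM.sub_const 1).div_const 2).mul_const _).add hconv |>.add_const _).const_mul 2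
  have e0 : 2 * ((1 - 1) / 2 * (∫ u in Ioi 0, q u) + 0 + ck k / 2) = ck k := by ring
  rw [e0] at hmain
  have herr := logsq_small C
  have hdiff : Tendsto (fun T => (Spair0 k T).re / NT T - 2 * ((Mr T - 1) / 2 * (∫ u in Ioi 0, q u) +
      (∫ u in Ioi 0, q u * (Lr T u - gue u)) + ck k / 2)) atTop (𝓝 0) := by
    refine squeeze_zero_norm' ?_ herr
    filter_upwards [eventually_ge_atTop (Real.exp 1), eventually_ge_atTop T₀] with T hT hTT
    have hT0 : 0 < T := (Real.exp_pos 1).trans_le hT
    have hL1 : 1 ≤ Real.log T := by rw [Real.le_log_iff_exp_le hT0]; exact hT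
    have hNT := NT_pos hL1 hT0
    obtain ⟨hint, hb⟩ := hAS T hT
    have hiq : IntegrableOn (fun u => q u * (Lr T u - gue u)) (Ioi 0) := by
      apply hq.decay.int_mul hq.cont ((Lr_mono hT).measurable.sub gue_continuous.measurable) (C := C1) (k := 2)
      exact fun u hu => (hquad T hTT).2 u hu
    have e1 : ∫ u in Ioi 0, q u * (Mr T / 2 + Lr T u) = (Mr T - 1) / 2 * (∫ u in Ioi 0, q u) +
        (∫ u in Ioi 0, q u * (Lr T u - gue u)) + ck k / 2 := by
      rw [← hgue, ← integral_const_mul]
      have i1 : IntegrableOn (fun u => (Mr T - 1) / 2 * q u) (Ioi 0) := (hq.integrable.const_mul _).integrableOn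
      have i2 : IntegrableOn (fun u => (Mr T - 1) / 2 * q u + q u * (Lr T u - gue u)) (Ioi 0) := i1.add hiq
      rw [← integral_add i1 hiq, ← integral_add i2 hq.int_gue]
      congr 1; ext u; ring
    rw [← e1]
    have e2 : (Spair0 k T).re / NT T - 2 * ∫ u in Ioi 0, q u * (Mr T / 2 + Lr T u) =
        (Spair0 k T - ((NT T * (2 * ∫ u in Ioi 0, q u * (Mr T / 2 + Lr T u)) : ℝ) : ℂ)).re / NT T := by
      rw [Complex.sub_re, Complex.ofReal_re]
      field_simp
    rw [e2, norm_div, Real.norm_eq_abs, Real.norm_of_nonneg hNT.le]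
    gcongr
    exact (Complex.abs_re_le_norm _).trans hb
  have := hdiff.add hmain
  rw [zero_add] at this
  refine this.congr fun T => ?_
  ring

end Pool.Agent.PairCorr.P6
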