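import Mathlib
import Pool.Agent.PairCorr.P6_Q

set_option autoImplicit false

namespace Pool.Agent.PairCorr.P6

open MeasureTheory Filter Topology Set Real
open scoped ENNReal ComplexConjugate

/-- the asymptotics of the smoothed pair sums -/
def PFLim : Prop := ∀ (k : ℝ → ℝ) (b : ℝ), TF k b → (∀ v, k (-v) = k v) →
  Tendsto (fun T => T / Real.log T * PF (kap T) (Real.log T) k) atTop (𝓝 (ck k))

/-- one-sided test functions -/
lemma wd_test (hR : RHz) (hP : PFLim) {k : ℝ → ℝ} {b e : ℝ} (hk : TF k b) (he : 0 < e) (heb : e ≤ b)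
    (hpos : ∀ v, v < e → k v = 0) :
    Tendsto (fun T => ∫ x in e..b, k x * wd T x) atTop (𝓝 (∫ x in e..b, k x * ρ1 x)) := by
  have hkr := hk.reflect
  have hk2 := hk.add hkr
  have h1 := hP _ b hk2 (fun v => by rw [neg_neg]; ring)
  have h2 := V_lim hR hk he heb hpos
  obtain ⟨κ₀, hκ₀, g⟩ := PF_add hk hkr
  have hc : ck (fun v => k v + k (-v)) = 2 * ∫ x in e..b, k x * ρ1 x := by
    unfold ck
    have e0 : k 0 = 0 := hpos 0 he
    simp only [neg_zero, e0, add_zero, zero_add]
    have e1 : ∫ v, ρ1 v * k (-v) = ∫ v, ρ1 v * k v := by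
      rw [← integral_neg_eq_self]
      congr 1; ext v
      rw [neg_neg, ρ1_even]
    have e2 : ∫ v, ρ1 v * (k v + k (-v)) = ∫ v, (ρ1 v * k v + ρ1 v * k (-v)) := by
      congr 1; ext v; ring
    have e3 : ∫ v, ρ1 v * k v = ∫ v, k v * ρ1 v := by congr 1; ext v; ring
    rw [e2, integral_add (ρ1k_int hk) (ρ1k_int hkr), e1, e3, half_int hk heb hpos]
    ring
  rw [hc] at h1
  have h3 := h2.add (h1.div_const 2)
  have e4 : 0 + 2 * (∫ x in e..b, k x * ρ1 x) / 2 = ∫ x in e..b, k x * ρ1 x := by ring
  rw [e4] at h3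
  refine h3.congr' ?_
  filter_upwards [near_kap.ev hκ₀, log_ev 1] with T hT hL
  obtain ⟨a1, a2, a3⟩ := hT
  have hL0 : 0 < Real.log T := by linarith
  rw [g _ a1 a2 _ hL a3, PF_reflect, ← Vf_eq' hk heb hpos hL0]
  ring

/-- smooth plateau -/
lemma exists_plateau {a a' b' b : ℝ} (h1 : a < a') (h3 : b' < b) : ∃ p : ℝ → ℝ,
    TF p (max |a| |b|) ∧ (∀ v, 0 ≤ p v) ∧ (∀ v, p v ≤ 1) ∧ (∀ v, v ≤ a → p v = 0) ∧ (∀ v, b ≤ v → p v = 0) ∧
    (∀ v, a' ≤ v → v ≤ b' → p v = 1) := by
  have ha : ∀ v, v ≤ a → Real.smoothTransition ((v - a) / (a' - a)) = 0 := fun v hv =>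
    Real.smoothTransition.zero_of_nonpos (div_nonpos_of_nonpos_of_nonneg (by linarith) (by linarith))
  have hb : ∀ v, b ≤ v → Real.smoothTransition ((b - v) / (b - b')) = 0 := fun v hv =>
    Real.smoothTransition.zero_of_nonpos (div_nonpos_of_nonpos_of_nonneg (by linarith) (by linarith))
  refine ⟨fun v => Real.smoothTransition ((v - a) / (a' - a)) * Real.smoothTransition ((b - v) / (b - b')),
    ⟨?_, ?_⟩, ?_, ?_, ?_, ?_, ?_⟩
  · apply ContDiff.mul
    · exact Real.smoothTransition.contDiff.comp (by fun_prop)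
    · exact Real.smoothTransition.contDiff.comp (by fun_prop)
  · intro v hv
    rcases le_or_gt v a with h | h
    · rw [ha v h, zero_mul]
    rcases le_or_gt b v with h' | h'
    · rw [hb v h', mul_zero]
    · exfalso
      have : |v| ≤ max |a| |b| := by
        rw [abs_le]
        constructor
        · have := neg_abs_le a
          have := le_max_left |a| |b|
          linarith
        · have := le_abs_self b
          have := le_max_right |a| |b|
          linarith
      linarith
  · intro v; exact mul_nonneg (Real.smoothTransition.nonneg _) (Real.smoothTransition.nonneg _)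
  · intro v
    exact mul_le_one₀ (Real.smoothTransition.le_one _) (Real.smoothTransition.nonneg _)
      (Real.smoothTransition.le_one _)
  · intro v hv; beta_reduce; rw [ha v hv, zero_mul]
  · intro v hv; beta_reduce; rw [hb v hv, mul_zero]
  · intro v hv1 hv2
    beta_reduce
    rw [Real.smoothTransition.one_of_one_le, Real.smoothTransition.one_of_one_le, one_mul]
    · rw [le_div_iff₀ (by linarith)]; linarith
    · rw [le_div_iff₀ (by linarith)]; linarith

lemma pw_ii {p : ℝ → ℝ} (hp : Continuous p) (T a b : ℝ) :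
    IntervalIntegrable (fun y => p y * wd T y) volume a b :=
  (wd_ii T a b).continuousOn_mul hp.continuousOn

lemma pρ_ii {p : ℝ → ℝ} (hp : Continuous p) (a b : ℝ) :
    IntervalIntegrable (fun y => p y * ρ1 y) volume a b := by
  have := ρ1_cont
  exact (by fun_prop : Continuous fun y => p y * ρ1 y).intervalIntegrable a b

lemma ρ1_le_one (x : ℝ) : ρ1 x ≤ 1 := min_le_right _ _

/-- from the pair sums to the windows -/
theorem WinLim_of_PF (hR : RHz) (hP : PFLim) : WinLim := by
  intro α β hα hαβ
  rw [Metric.tendsto_nhds]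
  intro ε hε
  set δ : ℝ := min (1/2) (min (ε / 8) ((β - α) / 4)) with hδ
  have hδ0 : 0 < δ := lt_min (by norm_num) (lt_min (by positivity) (by linarith))
  have hδ1 : δ ≤ 1/2 := min_le_left _ _
  have hδ2 : δ ≤ ε / 8 := (min_le_right _ _).trans (min_le_left _ _)
  have hδ3 : δ ≤ (β - α) / 4 := (min_le_right _ _).trans (min_le_right _ _)
  -- upper
  obtain ⟨p, hp, hp0, hp1, hpa, hpb, hpp⟩ := exists_plateau (a := α - δ) (a' := α) (b' := β) (b := β + δ)
    (by linarith) (by linarith)
  have hmaxp : max |α - δ| |β + δ| = β + δ := by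
    rw [abs_of_pos (by linarith), abs_of_pos (by linarith)]
    exact max_eq_right (by linarith)
  rw [hmaxp] at hp
  have hup := wd_test hR hP hp (e := α - δ) (by linarith) (by linarith) (fun v hv => hpa v hv.le)
  have hupv : ∫ x in (α - δ)..(β + δ), p x * ρ1 x ≤ β - α + 2 * δ := by
    have h1 : ∫ x in (α - δ)..(β + δ), p x * ρ1 x ≤ ∫ x in (α - δ)..(β + δ), (1:ℝ) := by
      apply intervalIntegral.integral_mono_on (by linarith) (pρ_ii hp.cont _ _) (by simp)
      intro x _
      exact mul_le_one₀ (hp1 x) (ρ1_nonneg x) (ρ1_le_one x)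
    simp at h1
    linarith
  -- lower
  obtain ⟨s, hs, hs0, hs1, hsa, hsb, hss⟩ := exists_plateau (a := α) (a' := α + δ) (b' := β - δ) (b := β)
    (by linarith) (by linarith)
  have hmaxs : max |α| |β| = β := by
    rw [abs_of_pos (by linarith), abs_of_pos (by linarith)]
    exact max_eq_right (by linarith)
  rw [hmaxs] at hs
  have hlo := wd_test hR hP hs (e := α) (by linarith) hαβ.le (fun v hv => hsa v hv.le)
  have hlov : β - α - 2 * δ ≤ ∫ x in α..β, s x * ρ1 x := by
    have h1 : ∫ x in (α + δ)..(β - δ), (1:ℝ) ≤ ∫ x in α..β, s x * ρ1 x := by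
      have h2 : ∫ x in (α + δ)..(β - δ), (1:ℝ) = ∫ x in (α + δ)..(β - δ), s x * ρ1 x := by
        apply intervalIntegral.integral_congr
        intro x hx
        rw [uIcc_of_le (by linarith)] at hx
        simp only
        rw [hss x hx.1 hx.2, one_mul, ρ1, min_eq_right]
        rw [abs_of_nonneg (by linarith [hx.1])]; linarith [hx.1]
      rw [h2]
      apply intervalIntegral.integral_mono_interval (by linarith) (by linarith) (by linarith) _ (pρ_ii hs.cont _ _)
      exact Eventually.of_forall fun x => mul_nonneg (hs0 x) (ρ1_nonneg x)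
    simp at h1
    linarith
  filter_upwards [hup.eventually_le_const (show _ < β - α + 4 * δ by linarith),
    hlo.eventually_const_le (show β - α - 4 * δ < _ by linarith), wd_nonneg_ev, log_ev 1] with T h1 h2 hw0 hL
  have hL0 : 0 < Real.log T := by linarith
  have h3 : ∫ x in α..β, wd T x ≤ ∫ x in (α - δ)..(β + δ), p x * wd T x := by
    have h4 : ∫ x in α..β, wd T x = ∫ x in α..β, p x * wd T x := by
      apply intervalIntegral.integral_congr
      intro x hx
      rw [uIcc_of_le hαβ.le] at hx
      simp only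
      rw [hpp x hx.1 hx.2, one_mul]
    rw [h4]
    apply intervalIntegral.integral_mono_interval (by linarith) hαβ.le (by linarith) _ (pw_ii hp.cont T _ _)
    exact Eventually.of_forall fun x => mul_nonneg (hp0 x) (hw0 x)
  have h5 : ∫ x in α..β, s x * wd T x ≤ ∫ x in α..β, wd T x := by
    apply intervalIntegral.integral_mono_on hαβ.le (pw_ii hs.cont T _ _) (wd_ii T _ _)
    intro x _
    exact mul_le_of_le_one_left (hw0 x) (hs1 x)
  rw [Win_eq hL0] at h3 h5
  rw [Real.dist_eq, abs_lt]
  constructor <;> linarith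

end Pool.Agent.PairCorr.P6
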