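import Mathlib
import Pool.Agent.PairCorr.P6_Levy
import Pool.Agent.PairCorr.P6_WinOf

set_option autoImplicit false

namespace Pool.Agent.PairCorr.P6

open MeasureTheory Filter Topology Set Real
open scoped ENNReal ComplexConjugate
open Pool.Agent.PairCorr.P1 (q4 q4_pos snc snc_mul snc_zero snc_neg abs_snc_le contDiff_snc)

variable {k k' : ℝ → ℝ} {b : ℝ}

/-! ### rescaling -/

/-- the height `T'` with `kap T' = lam / T` -/
noncomputable def Tp (lam T : ℝ) : ℝ := 1 / (Real.exp (lam / T) - 1)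

lemma Tp_pos {lam T : ℝ} (hl : 0 < lam) (hT : 0 < T) : 0 < Tp lam T := by
  have : 1 < Real.exp (lam / T) := Real.one_lt_exp_iff.2 (by positivity)
  unfold Tp
  have : 0 < Real.exp (lam / T) - 1 := by linarith
  positivity

lemma kap_Tp {lam T : ℝ} (hl : 0 < lam) (hT : 0 < T) : kap (Tp lam T) = lam / T := by
  unfold kap Tp
  have : 1 < Real.exp (lam / T) := Real.one_lt_exp_iff.2 (by positivity)
  rw [one_div_one_div, add_sub_cancel, Real.log_exp]

lemma Tp_tendsto {lam : ℝ} (hl : 0 < lam) : Tendsto (Tp lam) atTop atTop := by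
  have h1 : Tendsto (fun T : ℝ => Real.exp (lam / T) - 1) atTop (𝓝[>] 0) := by
    rw [tendsto_nhdsWithin_iff]
    constructor
    · have h2 : Tendsto (fun T : ℝ => lam / T) atTop (𝓝 0) := tendsto_const_nhds.div_atTop tendsto_id
      have h3 := ((Real.continuous_exp.tendsto 0).comp h2).sub_const 1
      simpa using h3
    · filter_upwards [eventually_gt_atTop 0] with T hT
      have : 1 < Real.exp (lam / T) := Real.one_lt_exp_iff.2 (by positivity)
      exact mem_Ioi.2 (by linarith)
  have h4 := tendsto_inv_nhdsGT_zero.comp h1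
  refine h4.congr fun T => ?_
  simp [Tp]

lemma Tp_ratio {lam : ℝ} (hl : 0 < lam) : Tendsto (fun T => Tp lam T / T) atTop (𝓝 (1 / lam)) := by
  have h1 := (T_kap.comp (Tp_tendsto hl)).div_const lam
  refine h1.congr' ?_
  filter_upwards [eventually_gt_atTop 0] with T hT
  simp only [Function.comp]
  rw [kap_Tp hl hT]
  field_simp

/-- asymptotics of the pair sums at `lam / T` -/
theorem PF_lam (hP : PFLim) (hk : TF k b) (hev : ∀ v, k (-v) = k v) {lam : ℝ} (hl : 0 < lam) :
    Tendsto (fun T => T / Real.log T * PF (lam / T) (Real.log T) k) atTop (𝓝 (lam * ck k)) := by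
  obtain ⟨C, hC, κ₀, hκ₀, hsc⟩ := PF_scale hk
  have hT' := Tp_tendsto hl
  have h0 := (hP k b hk hev).comp hT'
  have hr := Tp_ratio hl
  -- log T' - log T
  have hlog : Tendsto (fun T => Real.log (Tp lam T) - Real.log T) atTop (𝓝 (Real.log (1 / lam))) := by
    have h1 := (Real.continuousAt_log (show (1 / lam) ≠ 0 by positivity)).tendsto.comp hr
    refine h1.congr' ?_
    filter_upwards [eventually_gt_atTop 0] with T hT
    simp only [Function.comp]
    rw [Real.log_div (Tp_pos hl hT).ne' hT.ne']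
  have hlr : Tendsto (fun T => Real.log (Tp lam T) / Real.log T) atTop (𝓝 1) := by
    have h1 : Tendsto (fun T => (Real.log (Tp lam T) - Real.log T) / Real.log T) atTop (𝓝 0) :=
      hlog.div_atTop Real.tendsto_log_atTop
    have h2 := h1.add_const 1
    rw [zero_add] at h2
    refine h2.congr' ?_
    filter_upwards [log_ev 1] with T hL
    have : Real.log T ≠ 0 := by linarith
    field_simp
    ring
  have hmain : Tendsto (fun T => (Tp lam T / T)⁻¹ * (Real.log (Tp lam T) / Real.log T) *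
      (Tp lam T / Real.log (Tp lam T) * PF (kap (Tp lam T)) (Real.log (Tp lam T)) k)) atTop
      (𝓝 ((1 / lam)⁻¹ * 1 * ck k)) := ((hr.inv₀ (by positivity)).mul hlr).mul h0
  have e0 : (1 / lam)⁻¹ * 1 * ck k = lam * ck k := by rw [one_div, inv_inv]; ring
  rw [e0] at hmain
  have herr : Tendsto (fun T => C * lam * (|Real.log (Tp lam T) - Real.log T| / Real.log T)) atTop (𝓝 0) := by
    have h1 := (hlog.abs.div_atTop Real.tendsto_log_atTop).const_mul (C * lam)
    rw [mul_zero] at h1
    exact h1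
  have hdiff : Tendsto (fun T => T / Real.log T * PF (lam / T) (Real.log T) k -
      (Tp lam T / T)⁻¹ * (Real.log (Tp lam T) / Real.log T) *
      (Tp lam T / Real.log (Tp lam T) * PF (kap (Tp lam T)) (Real.log (Tp lam T)) k)) atTop (𝓝 0) := by
    refine squeeze_zero_norm' ?_ herr
    filter_upwards [(near_const hl).ev hκ₀, hT'.eventually (near_kap.ev hκ₀), log_ev 1, hT'.eventually (log_ev 1),
      eventually_gt_atTop 0] with T h1 h2 h3 h4 hT0
    rw [kap_Tp hl hT0] at h2 ⊢
    obtain ⟨a1, a2, a3⟩ := h1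
    obtain ⟨-, -, b3⟩ := h2
    have hT'0 := Tp_pos hl hT0
    have h5 := hsc (lam / T) a1 a2 _ _ h3 h4 a3 b3
    set L := Real.log T with hL
    set L' := Real.log (Tp lam T) with hL'
    have hL0 : 0 < L := by linarith
    have hL'0 : 0 < L' := by linarith
    have e1 : (Tp lam T / T)⁻¹ * (L' / L) * (Tp lam T / L' * PF (lam / T) L' k) = T / L * PF (lam / T) L' k := by
      field_simp
    rw [e1, ← mul_sub, norm_mul, Real.norm_eq_abs, Real.norm_eq_abs, abs_of_pos (by positivity : 0 < T / L)]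
    calc T / L * |PF (lam / T) L k - PF (lam / T) L' k| ≤ T / L * (C * (lam / T * |L - L'|)) := by gcongr
      _ = C * lam * (|L' - L| / L) := by
        rw [abs_sub_comm]
        field_simp
  have := hmain.add hdiff
  rw [add_zero] at this
  refine this.congr fun T => ?_
  ring

/-! ### the Fejér weight -/

lemma Gk_zero_left (t : ℝ) : Gk 0 t = 0 := by unfold Gk; simp

lemma Gk_neg_left (κ t : ℝ) : Gk (-κ) t = Gk κ t := by
  unfold Gk
  rw [show -κ * t / 2 = -(κ * t / 2) by ring, snc_neg]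
  ring

lemma Gk_cos (κ ξ t : ℝ) : Gk κ t * Real.cos (ξ * t) =
    1 / 2 * Gk (κ + ξ) t + 1 / 2 * Gk (κ - ξ) t - Gk ξ t := by
  by_cases ht : t = 0
  · subst ht
    unfold Gk
    simp only [mul_zero, zero_div, snc_zero, Real.cos_zero]
    ring
  · have h2 : ∀ κ' : ℝ, Gk κ' t * t ^ 2 = 2 * (1 - Real.cos (κ' * t)) := by
      intro κ'
      rw [Gk_mul]
      have := Real.cos_sq' (κ' * t / 2)
      have h3 := Real.cos_two_mul (κ' * t / 2)
      rw [show 2 * (κ' * t / 2) = κ' * t by ring] at h3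
      nlinarith
    have ht2 : t ^ 2 ≠ 0 := pow_ne_zero _ ht
    apply mul_right_cancel₀ ht2
    have e1 : Gk κ t * Real.cos (ξ * t) * t ^ 2 = (Gk κ t * t ^ 2) * Real.cos (ξ * t) := by ring
    have e2 : (1 / 2 * Gk (κ + ξ) t + 1 / 2 * Gk (κ - ξ) t - Gk ξ t) * t ^ 2 =
      1 / 2 * (Gk (κ + ξ) t * t ^ 2) + 1 / 2 * (Gk (κ - ξ) t * t ^ 2) - Gk ξ t * t ^ 2 := by ring
    rw [e1, e2, h2, h2, h2, h2, add_mul, sub_mul, Real.cos_add, Real.cos_sub]
    ring

lemma Gk1_int : Integrable (Gk 1) ∧ ∫ x, Gk 1 x = 2 * π := by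
  obtain ⟨h1, h2⟩ := snc2_int_Ioi
  have e1 : (fun x => Gk 1 x) = fun x : ℝ => (fun y => snc (y / 2) ^ 2) |x| := by
    funext x
    rw [Gk_abs]
    simp
  have h3 := integral_comp_abs (f := fun y : ℝ => snc (y / 2) ^ 2)
  rw [h2] at h3
  refine ⟨?_, ?_⟩
  · show Integrable (fun x => Gk 1 x)
    rw [e1]
    by_contra hni
    rw [integral_undef hni] at h3
    have := Real.pi_pos
    linarith
  · rw [e1, h3]

lemma Gk_scale (κ t : ℝ) : Gk κ t = κ ^ 2 * Gk 1 (κ * t) := by
  unfold Gk; rw [one_mul]; ring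

lemma Gk_int (κ : ℝ) : Integrable (Gk κ) ∧ ∫ x, Gk κ x = 2 * π * |κ| := by
  by_cases hκ : κ = 0
  · subst hκ
    have : Gk 0 = fun _ => 0 := funext fun t => Gk_zero_left t
    rw [this]
    simp
  · obtain ⟨h1, h2⟩ := Gk1_int
    have e1 : Gk κ = fun t => κ ^ 2 * Gk 1 (κ * t) := funext fun t => Gk_scale κ t
    refine ⟨?_, ?_⟩
    · rw [e1]
      exact (h1.comp_mul_left' hκ).const_mul _
    · rw [e1, integral_const_mul]
      have := Measure.integral_comp_mul_left (Gk 1) κ
      rw [this, h2, smul_eq_mul, abs_inv, ← sq_abs κ]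
      have : |κ| ≠ 0 := abs_ne_zero.2 hκ
      field_simp

/-- the limit law of the heights -/
noncomputable def rhoX (c : ℝ) : Measure ℝ :=
  volume.withDensity (fun x => ENNReal.ofReal (c / (2 * π) * Gk 1 x))

lemma Gk1_cont : Continuous (Gk 1) := Gk_cont 1

lemma rhoX_int {c : ℝ} (hc : 0 ≤ c) (f : ℝ → ℝ) : ∫ x, f x ∂(rhoX c) = c / (2 * π) * ∫ x, Gk 1 x * f x := by
  have hpi := Real.pi_pos
  unfold rhoX
  have h1 := Gk1_cont
  rw [integral_withDensity_eq_integral_toReal_smul (by fun_prop) (Eventually.of_forall fun _ => ENNReal.ofReal_lt_top),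
    ← integral_const_mul]
  congr 1
  ext x
  have := Gk_nonneg 1 x
  rw [ENNReal.toReal_ofReal (by positivity), smul_eq_mul]
  ring

lemma rhoX_fin (c : ℝ) : IsFiniteMeasure (rhoX c) := by
  unfold rhoX
  apply isFiniteMeasure_withDensity_ofReal
  exact (Gk1_int.1.const_mul _).2

lemma withDensity_even {f : ℝ → ℝ≥0∞} (_hf : Measurable f) (he : ∀ x, f (-x) = f x) :
    (volume.withDensity f).map (fun x : ℝ => -x) = volume.withDensity f := by
  ext s hs
  rw [Measure.map_apply measurable_neg hs, withDensity_apply _ (measurable_neg hs), withDensity_apply _ hs,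
    ← lintegral_indicator (measurable_neg hs), ← lintegral_indicator hs]
  have h1 := lintegral_neg_eq_self (μ := (volume : Measure ℝ)) (fun x => (s.indicator f x))
  rw [← h1]
  congr 1
  ext x
  by_cases hx : -x ∈ s
  · rw [indicator_of_mem hx, indicator_of_mem (show x ∈ (fun x : ℝ => -x) ⁻¹' s from hx), he]
  · rw [indicator_of_notMem hx, indicator_of_notMem (show x ∉ (fun x : ℝ => -x) ⁻¹' s from hx)]

lemma rhoX_even (c : ℝ) : (rhoX c).map (fun x => -x) = rhoX c := by
  unfold rhoX
  have h1 := Gk1_cont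
  exact withDensity_even (by fun_prop) (fun x => by rw [Gk_even])

lemma rhoX_cos {c : ℝ} (hc : 0 ≤ c) (t : ℝ) : ∫ x, Real.cos (t * x) ∂(rhoX c) =
    c * (1 / 2 * |1 + t| + 1 / 2 * |1 - t| - |t|) := by
  rw [rhoX_int hc]
  simp_rw [Gk_cos]
  have i1 := ((Gk_int (1 + t)).1.const_mul (1/2))
  have i2 := ((Gk_int (1 - t)).1.const_mul (1/2))
  have i3 := (Gk_int t).1
  have hpi := Real.pi_pos
  have e : ∫ x, (1 / 2 * Gk (1 + t) x + 1 / 2 * Gk (1 - t) x - Gk t x) =
      1 / 2 * (2 * π * |1 + t|) + 1 / 2 * (2 * π * |1 - t|) - 2 * π * |t| := by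
    have i12 : Integrable (fun x => 1 / 2 * Gk (1 + t) x + 1 / 2 * Gk (1 - t) x) := i1.add i2
    rw [← (Gk_int (1 + t)).2, ← (Gk_int (1 - t)).2, ← (Gk_int t).2, ← integral_const_mul, ← integral_const_mul,
      ← integral_add i1 i2, ← integral_sub i12 i3]
  rw [e]
  field_simp

lemma Gk1_lower {x : ℝ} (hx : |x| ≤ 2) : (2 / π) ^ 2 ≤ Gk 1 x := by
  have hpi := Real.pi_pos
  rw [Gk_abs]
  have h0 := abs_nonneg x
  rcases h0.eq_or_lt with h | h
  · rw [← h]
    simp only [mul_zero, zero_div, snc_zero]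
    have : 2 / π ≤ 1 := by rw [div_le_one hpi]; exact Real.two_le_pi
    have : 0 ≤ 2 / π := by positivity
    nlinarith
  · have h1 : 0 ≤ |x| / 2 := by positivity
    have h2 : |x| / 2 ≤ π / 2 := by
      have := Real.two_le_pi
      linarith
    have h3 := Real.mul_le_sin h1 h2
    rw [← snc_mul] at h3
    have h4 : 2 / π ≤ snc (|x| / 2) := by
      have h5 : |x| / 2 * (2 / π) ≤ |x| / 2 * snc (|x| / 2) := by linarith
      exact le_of_mul_le_mul_left h5 (by positivity)
    rw [one_mul, one_pow, one_mul]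
    have : 0 ≤ 2 / π := by positivity
    gcongr

/-- the limit of the height-smoothed pair sums -/
theorem step1 (hP : PFLim) (hk : TF k b) (hev : ∀ v, k (-v) = k v) (hpos : ∀ y, 0 ≤ rr k y) {h : ℝ → ℝ}
    (hh : Continuous h) (hhe : ∀ x, h (-x) = h x) (hsupp : ∀ x, 2 ≤ |x| → h x = 0) {B : ℝ} (hB : ∀ x, |h x| ≤ B) :
    Tendsto (fun T => 1 / (T * Real.log T) * ∫ p : ℂ × ℂ, h (p.1.im / T) * rr k (Real.log T * (p.1.im - p.2.im))
      ∂(muZ.prod muZ)) atTop (𝓝 (ck k / (2 * π) * ∫ x, h x)) := by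
  have hpi := Real.pi_pos
  have hGc := Gk1_cont
  obtain ⟨C1, hC1, κ₀, hκ₀, hbd⟩ := PF_bound hk
  have hPl : ∀ lam : ℝ, Tendsto (fun T => T / Real.log T * PF (lam / T) (Real.log T) k) atTop (𝓝 (|lam| * ck k)) := by
    intro lam
    rcases lt_trichotomy lam 0 with h0 | h0 | h0
    · have h1 := PF_lam hP hk hev (show 0 < -lam by linarith)
      rw [abs_of_neg h0]
      refine h1.congr fun T => ?_
      congr 1
      unfold PF
      simp_rw [neg_div, Gk_neg_left]
    · subst h0
      simp only [zero_div, abs_zero, zero_mul]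
      unfold PF
      simp_rw [Gk_zero_left]
      simp
    · rw [abs_of_pos h0]
      exact PF_lam hP hk hev h0
  have hck : 0 ≤ ck k := by
    have h1 := hPl 1
    rw [abs_one, one_mul] at h1
    refine ge_of_tendsto h1 ?_
    filter_upwards [log_ev 1, eventually_gt_atTop 0] with T hL hT
    have : 0 < Real.log T := by linarith
    apply mul_nonneg (by positivity)
    unfold PF
    exact integral_nonneg fun p => mul_nonneg (Gk_nonneg _ _) (hpos _)
  -- integrability at all parameters
  have hint : ∀ lam : ℝ, ∀ᶠ T : ℝ in atTop, Integrable (fun p : ℂ × ℂ => Gk (lam / T) p.1.im *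
      rr k (Real.log T * (p.1.im - p.2.im))) (muZ.prod muZ) := by
    intro lam
    rcases lt_trichotomy lam 0 with h0 | h0 | h0
    · filter_upwards [(near_const (show 0 < -lam by linarith)).ev hκ₀, log_ev 1] with T h1 h2
      have h3 := (hbd _ h1.1 h1.2.1 _ h2 h1.2.2).1
      refine h3.congr (Eventually.of_forall fun p => ?_)
      simp only [neg_div, Gk_neg_left]
    · refine Eventually.of_forall fun T => ?_
      subst h0
      simp_rw [zero_div, Gk_zero_left, zero_mul]
      exact integrable_zero _ _ _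
    · filter_upwards [(near_const h0).ev hκ₀, log_ev 1] with T h1 h2
      exact (hbd _ h1.1 h1.2.1 _ h2 h1.2.2).1
  set w : ℝ → ℂ × ℂ → ℝ := fun T p => T / Real.log T * (Gk (1 / T) p.1.im *
    rr k (Real.log T * (p.1.im - p.2.im))) with hw
  set X : ℝ → ℂ × ℂ → ℝ := fun T p => p.1.im / T with hX
  have hfin := rhoX_fin (ck k)
  set g : ℝ → ℝ := fun x => h x / max (Gk 1 x) ((2 / π) ^ 2) with hg
  have hmpos : ∀ x, 0 < max (Gk 1 x) ((2 / π) ^ 2) := fun x => lt_max_of_lt_right (by positivity)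
  have hgc : Continuous g := hh.div (hGc.max continuous_const) (fun x => (hmpos x).ne')
  have hgB : ∀ x, |g x| ≤ B / (2 / π) ^ 2 := by
    intro x
    rw [hg]
    simp only
    rw [abs_div, abs_of_pos (hmpos x)]
    have := hB x
    have h0 := (abs_nonneg _).trans this
    have : (2 / π) ^ 2 ≤ max (Gk 1 x) ((2 / π) ^ 2) := le_max_right _ _
    gcongr
  have hge : ∀ x, g (-x) = g x := by
    intro x
    simp only [hg]
    rw [hhe, Gk_even]
  have hgG : ∀ x, Gk 1 x * g x = h x := by
    intro x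
    rcases le_or_gt 2 |x| with h1 | h1
    · simp only [hg]
      rw [hsupp x h1, zero_div, mul_zero]
    · have h2 := Gk1_lower h1.le
      simp only [hg]
      rw [max_eq_left h2]
      have : Gk 1 x ≠ 0 := by
        have : 0 < (2 / π) ^ 2 := by positivity
        linarith
      field_simp
  have hlevy := levy_cos (m := muZ.prod muZ) (w := w) (X := X) (ρ := rhoX (ck k)) (g := g)
    (C := B / (2 / π) ^ 2) ?_ ?_ ?_ ?_ (rhoX_even _) ?_ hgc hgB hge
  · rw [rhoX_int hck] at hlevy
    simp_rw [hgG] at hlevy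
    refine hlevy.congr' ?_
    filter_upwards [eventually_gt_atTop 0, log_ev 1] with T hT hL
    have hL0 : 0 < Real.log T := by linarith
    rw [← integral_const_mul]
    congr 1
    ext p
    simp only [hw, hX]
    have e1 : Gk (1 / T) p.1.im = 1 / T ^ 2 * Gk 1 (p.1.im / T) := by
      rw [Gk_scale (1 / T)]
      congr 1
      · field_simp
      · congr 1; ring
    rw [e1, ← hgG (p.1.im / T)]
    field_simp
  · refine Eventually.of_forall fun T => ?_
    exact ((PFi_meas hk (1 / T) (Real.log T)).measurable).const_mul _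
  · filter_upwards [hint 1] with T h1
    exact h1.const_mul _
  · filter_upwards [log_ev 1, eventually_gt_atTop 0] with T hL hT p
    have : 0 < Real.log T := by linarith
    exact mul_nonneg (by positivity) (mul_nonneg (Gk_nonneg _ _) (hpos _))
  · refine Eventually.of_forall fun T => ?_
    simp only [hX]
    fun_prop
  · intro t ht
    rw [rhoX_cos hck]
    have h1 := ((hPl (1 + t)).const_mul (1/2)).add ((hPl (1 - t)).const_mul (1/2)) |>.sub (hPl t)
    have e1 : 1 / 2 * (|1 + t| * ck k) + 1 / 2 * (|1 - t| * ck k) - |t| * ck k =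
      ck k * (1 / 2 * |1 + t| + 1 / 2 * |1 - t| - |t|) := by ring
    rw [e1] at h1
    refine h1.congr' ?_
    filter_upwards [hint (1 + t), hint (1 - t), hint t, eventually_gt_atTop 0] with T i1 i2 i3 hT
    simp only [hw, hX]
    have e2 : ∀ p : ℂ × ℂ, T / Real.log T * (Gk (1 / T) p.1.im * rr k (Real.log T * (p.1.im - p.2.im))) *
        Real.cos (t * (p.1.im / T)) =
        T / Real.log T * (1 / 2 * (Gk ((1 + t) / T) p.1.im * rr k (Real.log T * (p.1.im - p.2.im))) +
          1 / 2 * (Gk ((1 - t) / T) p.1.im * rr k (Real.log T * (p.1.im - p.2.im))) -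
          (Gk (t / T) p.1.im * rr k (Real.log T * (p.1.im - p.2.im)))) := by
      intro p
      have h2 := Gk_cos (1 / T) (t / T) p.1.im
      rw [show t / T * p.1.im = t * (p.1.im / T) by ring, ← add_div, ← sub_div] at h2
      linear_combination (T / Real.log T * rr k (Real.log T * (p.1.im - p.2.im))) * h2
    simp_rw [e2]
    rw [integral_const_mul]
    have j1 := i1.const_mul (1/2)
    have j2 := i2.const_mul (1/2)
    have j12 : Integrable (fun p : ℂ × ℂ => 1 / 2 * (Gk ((1 + t) / T) p.1.im * rr k (Real.log T * (p.1.im - p.2.im))) +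
          1 / 2 * (Gk ((1 - t) / T) p.1.im * rr k (Real.log T * (p.1.im - p.2.im)))) (muZ.prod muZ) := j1.add j2
    rw [integral_sub j12 i3, integral_add j1 j2, integral_const_mul, integral_const_mul]
    unfold PF
    ring

end Pool.Agent.PairCorr.P6
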