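import Mathlib
import Pool.Agent.PairCorr.P6_Levy1

set_option autoImplicit false

namespace Pool.Agent.PairCorr.P6

open MeasureTheory Filter Topology Set Real
open scoped ENNReal ComplexConjugate
open Pool.Agent.PairCorr.P1 (q4 q4_pos snc snc_mul snc_zero snc_neg abs_snc_le contDiff_snc)

variable {k k' : ℝ → ℝ} {b : ℝ}

/-- trapezoid: `1` on `|x| ≤ r`, `0` on `|x| ≥ r + δ` -/
noncomputable def trap (r δ x : ℝ) : ℝ := max 0 (min 1 ((r + δ - |x|) / δ))

lemma trap_cont (r δ : ℝ) : Continuous (trap r δ) := by unfold trap; fun_prop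
lemma trap_even (r δ x : ℝ) : trap r δ (-x) = trap r δ x := by unfold trap; rw [abs_neg]
lemma trap_nonneg (r δ x : ℝ) : 0 ≤ trap r δ x := le_max_left _ _
lemma trap_le_one (r δ x : ℝ) : trap r δ x ≤ 1 := max_le zero_le_one (min_le_left _ _)
lemma trap_abs_le (r δ x : ℝ) : |trap r δ x| ≤ 1 := by
  rw [abs_of_nonneg (trap_nonneg _ _ _)]; exact trap_le_one _ _ _
lemma trap_one {r δ x : ℝ} (hδ : 0 < δ) (hx : |x| ≤ r) : trap r δ x = 1 := by
  unfold trap
  have : 1 ≤ (r + δ - |x|) / δ := by rw [le_div_iff₀ hδ]; linarith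
  rw [min_eq_left this, max_eq_right zero_le_one]
lemma trap_zero {r δ x : ℝ} (hδ : 0 < δ) (hx : r + δ ≤ |x|) : trap r δ x = 0 := by
  unfold trap
  have : (r + δ - |x|) / δ ≤ 0 := div_nonpos_of_nonpos_of_nonneg (by linarith) hδ.le
  rw [max_eq_left]
  exact (min_le_right _ _).trans this

lemma trap_ge_ind {r δ : ℝ} (hδ : 0 < δ) (x : ℝ) : {x : ℝ | |x| ≤ r}.indicator (fun _ => (1:ℝ)) x ≤ trap r δ x := by
  by_cases hx : |x| ≤ r
  · rw [indicator_of_mem (show x ∈ {x : ℝ | |x| ≤ r} from hx), trap_one hδ hx]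
  · rw [indicator_of_notMem (show x ∉ {x : ℝ | |x| ≤ r} from hx)]
    exact trap_nonneg _ _ _

lemma trap_le_ind {r δ : ℝ} (hδ : 0 < δ) (x : ℝ) :
    trap (r - δ) δ x ≤ {x : ℝ | |x| ≤ r}.indicator (fun _ => (1:ℝ)) x := by
  by_cases hx : |x| ≤ r
  · rw [indicator_of_mem (show x ∈ {x : ℝ | |x| ≤ r} from hx)]
    exact trap_le_one _ _ _
  · rw [indicator_of_notMem (show x ∉ {x : ℝ | |x| ≤ r} from hx), trap_zero hδ (by push Not at hx; linarith)]

lemma trap_weight {r δ : ℝ} (hδ : 0 < δ) (hr : 0 ≤ r) {f : ℝ → ℝ} (hf : Continuous f)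
    (hf0 : ∀ x, 0 ≤ f x) (hf1 : ∀ x, f x ≤ 1) :
    ∫ x, trap r δ x * f x ≤ (∫ x in (-r)..r, f x) + 2 * δ := by
  have hset : ∫ x, trap r δ x * f x = ∫ x in (-(r + δ))..(r + δ), trap r δ x * f x := by
    rw [intervalIntegral.integral_of_le (by linarith), ← integral_indicator measurableSet_Ioc]
    congr 1
    ext x
    by_cases hx : x ∈ Ioc (-(r + δ)) (r + δ)
    · rw [indicator_of_mem hx]
    · rw [indicator_of_notMem hx, trap_zero hδ, zero_mul]
      rw [mem_Ioc, not_and_or, not_lt, not_le] at hx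
      rw [le_abs]
      rcases hx with hx | hx
      · right; linarith
      · left; linarith
  have hc : Continuous fun x => trap r δ x * f x := (trap_cont r δ).mul hf
  have ii : ∀ a b : ℝ, IntervalIntegrable (fun x => trap r δ x * f x) volume a b := fun a b =>
    hc.intervalIntegrable a b
  rw [hset, ← intervalIntegral.integral_add_adjacent_intervals (ii (-(r + δ)) (-r)) (ii (-r) (r + δ)),
    ← intervalIntegral.integral_add_adjacent_intervals (ii (-r) r) (ii r (r + δ))]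
  have hle : ∀ x, trap r δ x * f x ≤ 1 := fun x => mul_le_one₀ (trap_le_one _ _ _) (hf0 x) (hf1 x)
  have h1 : ∫ x in (-(r + δ))..(-r), trap r δ x * f x ≤ δ := by
    have := intervalIntegral.integral_mono_on (a := -(r + δ)) (b := -r) (by linarith) (ii _ _)
      (by simp : IntervalIntegrable (fun _ => (1:ℝ)) volume _ _) (fun x _ => hle x)
    rw [intervalIntegral.integral_const, smul_eq_mul, mul_one] at this
    linarith
  have h2 : ∫ x in r..(r + δ), trap r δ x * f x ≤ δ := by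
    have := intervalIntegral.integral_mono_on (a := r) (b := r + δ) (by linarith) (ii _ _)
      (by simp : IntervalIntegrable (fun _ => (1:ℝ)) volume _ _) (fun x _ => hle x)
    rw [intervalIntegral.integral_const, smul_eq_mul, mul_one] at this
    linarith
  have h3 : ∫ x in (-r)..r, trap r δ x * f x ≤ ∫ x in (-r)..r, f x := by
    apply intervalIntegral.integral_mono_on (by linarith) (ii _ _) (hf.intervalIntegrable _ _)
    intro x _
    exact mul_le_of_le_one_left (hf0 x) (trap_le_one _ _ _)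
  linarith

lemma trap_integrable {r δ : ℝ} (hδ : 0 < δ) {f : ℝ → ℝ} (hf : Continuous f) :
    Integrable (fun x => trap r δ x * f x) := by
  apply Continuous.integrable_of_hasCompactSupport ((trap_cont r δ).mul hf)
  apply HasCompactSupport.of_support_subset_isCompact (isCompact_Icc (a := -(r + δ)) (b := r + δ))
  intro x hx
  by_contra hc
  apply hx
  rw [mem_Icc, not_and_or, not_le, not_le] at hc
  show trap r δ x * f x = 0
  rw [trap_zero hδ, zero_mul]
  rw [le_abs]
  rcases hc with hc | hc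
  · right; linarith
  · left; linarith

lemma trap_weight_lower {r δ : ℝ} (hδ : 0 < δ) (hδr : δ ≤ r) {f : ℝ → ℝ} (hf : Continuous f)
    (hf0 : ∀ x, 0 ≤ f x) (hf1 : ∀ x, f x ≤ 1) :
    (∫ x in (-r)..r, f x) - 2 * δ ≤ ∫ x, trap (r - δ) δ x * f x := by
  have ii : ∀ a b : ℝ, IntervalIntegrable f volume a b := fun a b => hf.intervalIntegrable a b
  have h1 : ∫ x in (-(r - δ))..(r - δ), f x ≤ ∫ x, trap (r - δ) δ x * f x := by
    rw [intervalIntegral.integral_of_le (by linarith)]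
    have h2 : ∫ x in Ioc (-(r - δ)) (r - δ), f x = ∫ x in Ioc (-(r - δ)) (r - δ), trap (r - δ) δ x * f x := by
      apply setIntegral_congr_fun measurableSet_Ioc
      intro x hx
      simp only
      rw [trap_one hδ (abs_le.2 ⟨by linarith [hx.1], by linarith [hx.2]⟩), one_mul]
    rw [h2]
    exact setIntegral_le_integral (trap_integrable hδ hf)
      (Eventually.of_forall fun x => mul_nonneg (trap_nonneg _ _ _) (hf0 x))
  have h2 : ∫ x in (-r)..r, f x = (∫ x in (-r)..(-(r - δ)), f x) + (∫ x in (-(r - δ))..(r - δ), f x) +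
      ∫ x in (r - δ)..r, f x := by
    rw [intervalIntegral.integral_add_adjacent_intervals (ii _ _) (ii _ _),
      intervalIntegral.integral_add_adjacent_intervals (ii _ _) (ii _ _)]
  have h3 : ∫ x in (-r)..(-(r - δ)), f x ≤ δ := by
    have := intervalIntegral.integral_mono_on (a := -r) (b := -(r - δ)) (by linarith) (ii _ _)
      (by simp : IntervalIntegrable (fun _ => (1:ℝ)) volume _ _) (fun x _ => hf1 x)
    rw [intervalIntegral.integral_const, smul_eq_mul, mul_one] at this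
    linarith
  have h4 : ∫ x in (r - δ)..r, f x ≤ δ := by
    have := intervalIntegral.integral_mono_on (a := r - δ) (b := r) (by linarith) (ii _ _)
      (by simp : IntervalIntegrable (fun _ => (1:ℝ)) volume _ _) (fun x _ => hf1 x)
    rw [intervalIntegral.integral_const, smul_eq_mul, mul_one] at this
    linarith
  linarith

/-- squeezing between converging families -/
lemma tendsto_of_sandwich {l : Filter ℝ} {f : ℝ → ℝ} {c : ℝ}
    (hup : ∀ ε > 0, ∃ (g : ℝ → ℝ) (c' : ℝ), Tendsto g l (𝓝 c') ∧ c' ≤ c + ε ∧ ∀ᶠ T in l, f T ≤ g T)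
    (hlo : ∀ ε > 0, ∃ (g : ℝ → ℝ) (c' : ℝ), Tendsto g l (𝓝 c') ∧ c - ε ≤ c' ∧ ∀ᶠ T in l, g T ≤ f T) :
    Tendsto f l (𝓝 c) := by
  rw [Metric.tendsto_nhds]
  intro ε hε
  obtain ⟨g, c1, h1, h2, h3⟩ := hup (ε / 4) (by positivity)
  obtain ⟨g', c2, h1', h2', h3'⟩ := hlo (ε / 4) (by positivity)
  filter_upwards [h3, h3', h1.eventually_lt_const (show c1 < c1 + ε / 4 by linarith),
    h1'.eventually_const_lt (show c2 - ε / 4 < c2 by linarith)] with T a1 a2 a3 a4
  rw [Real.dist_eq, abs_lt]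
  constructor <;> linarith

/-- integrability of pair functions on `|γ| ≤ T` -/
lemma box_int : ∃ C : ℝ, 0 < C ∧ ∃ T₀ : ℝ, Real.exp 1 ≤ T₀ ∧ ∀ T : ℝ, T₀ ≤ T → ∀ (F : ℂ × ℂ → ℝ) (M : ℝ),
    AEStronglyMeasurable F (muZ.prod muZ) → 0 ≤ M →
    (∀ p : ℂ × ℂ, |F p| ≤ M * q4 (Real.log T * (p.1.im - p.2.im))) →
    IntegrableOn F {p | |p.1.im| ≤ 2 * T} (muZ.prod muZ) ∧ IntegrableOn F {p | |p.1.im| ≤ T} (muZ.prod muZ) := by
  obtain ⟨C, hC, U₀, hU₀, h⟩ := PB_real
  refine ⟨C, hC, max U₀ 2, hU₀.trans (le_max_left _ _), fun T hT F M hF hM hb => ?_⟩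
  have hT0 : U₀ ≤ T := (le_max_left _ _).trans hT
  have hT2 : 2 ≤ T := (le_max_right _ _).trans hT
  have hTe : Real.exp 1 ≤ T := hU₀.trans hT0
  have hTp : 0 < T := by linarith
  have hL1 : 1 ≤ Real.log T := by rw [Real.le_log_iff_exp_le hTp]; exact hTe
  have hlog : Real.log (2 * T) ≤ 2 * Real.log T := by
    rw [Real.log_mul (by norm_num) hTp.ne']
    have := Real.log_le_log (by norm_num) hT2
    linarith
  have h1 := (h (2 * T) (by linarith) (Real.log T) hL1 hlog).1
  have h2 : IntegrableOn F {p | |p.1.im| ≤ 2 * T} (muZ.prod muZ) :=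
    Integrable.mono' (h1.const_mul M) hF.restrict (Eventually.of_forall hb)
  refine ⟨h2, h2.mono_set ?_⟩
  intro p hp
  have : |p.1.im| ≤ T := hp
  show |p.1.im| ≤ 2 * T
  linarith

/-- the pair sums over `|γ| ≤ T`, positive kernels -/
theorem step1b (hP : PFLim) (hk : TF k b) (hev : ∀ v, k (-v) = k v) (hpos : ∀ y, 0 ≤ rr k y) :
    0 ≤ ck k ∧
    Tendsto (fun T => 1 / (T * Real.log T) * ∫ p in {p : ℂ × ℂ | |p.1.im| ≤ T}, rr k (Real.log T * (p.1.im - p.2.im))
      ∂(muZ.prod muZ)) atTop (𝓝 (ck k / π)) := by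
  have hpi := Real.pi_pos
  have hs1 := fun (r δ : ℝ) (hδ : 0 < δ) (hrd : r + δ ≤ 2) => step1 hP hk hev hpos (trap_cont r δ) (trap_even r δ)
    (fun x hx => trap_zero hδ (hrd.trans hx)) (trap_abs_le r δ)
  obtain ⟨C1, hC1, hq⟩ := rr_q4 hk
  obtain ⟨-, -, T₀, hT₀, hbi⟩ := box_int
  -- the integrals of trapezoids
  have hI1 : ∀ δ : ℝ, 0 < δ → 0 ≤ ∫ x, trap 1 δ x ∧ ∫ x, trap 1 δ x ≤ 2 + 2 * δ := by
    intro δ hδ
    refine ⟨integral_nonneg fun x => trap_nonneg _ _ _, ?_⟩
    have := trap_weight (r := 1) hδ zero_le_one (continuous_const (y := (1:ℝ))) (fun _ => zero_le_one) (fun _ => le_rfl)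
    simp only [mul_one, intervalIntegral.integral_const, smul_eq_mul] at this
    linarith
  have hI2 : ∀ δ : ℝ, 0 < δ → δ ≤ 1 → 2 - 2 * δ ≤ ∫ x, trap (1 - δ) δ x := by
    intro δ hδ hδ1
    have := trap_weight_lower (r := 1) hδ hδ1 (continuous_const (y := (1:ℝ))) (fun _ => zero_le_one) (fun _ => le_rfl)
    simp only [mul_one, intervalIntegral.integral_const, smul_eq_mul] at this
    linarith
  have hck : 0 ≤ ck k := by
    have h1 := hs1 1 1 one_pos (by norm_num)
    have h2 : 0 ≤ ck k / (2 * π) * ∫ x, trap 1 1 x := by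
      refine ge_of_tendsto h1 ?_
      filter_upwards [log_ev 1, eventually_gt_atTop 0] with T hL hT
      have : 0 < Real.log T := by linarith
      apply mul_nonneg (by positivity)
      exact integral_nonneg fun p => mul_nonneg (trap_nonneg _ _ _) (hpos _)
    by_contra hneg
    push Not at hneg
    have h3 := hI2 (1/2) (by norm_num) (by norm_num)
    have h4 : ∫ x, trap (1 - 1/2) (1/2) x ≤ ∫ x, trap 1 1 x := by
      apply integral_mono
      · simpa using trap_integrable (r := 1 - 1/2) (δ := 1/2) (by norm_num) (continuous_const (y := (1:ℝ)))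
      · simpa using trap_integrable (r := 1) (δ := 1) (by norm_num) (continuous_const (y := (1:ℝ)))
      · intro x
        show trap (1 - 1/2) (1/2) x ≤ trap 1 1 x
        refine (trap_le_ind (r := 1) (δ := 1/2) (by norm_num) x).trans (trap_ge_ind one_pos x)
    have h5 : ck k / (2 * π) * ∫ x, trap 1 1 x < 0 := by
      apply mul_neg_of_neg_of_pos
      · exact div_neg_of_neg_of_pos hneg (by positivity)
      · linarith
    linarith
  refine ⟨hck, ?_⟩
  -- comparison
  have hset : ∀ T : ℝ, MeasurableSet {p : ℂ × ℂ | |p.1.im| ≤ T} := meas_abs_le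
  have hsplit : ∀ T : ℝ, 0 < T → ∀ r δ : ℝ, 0 < δ → r + δ ≤ 2 →
      ∫ p : ℂ × ℂ, trap r δ (p.1.im / T) * rr k (Real.log T * (p.1.im - p.2.im)) ∂(muZ.prod muZ) =
      ∫ p in {p : ℂ × ℂ | |p.1.im| ≤ 2 * T}, trap r δ (p.1.im / T) * rr k (Real.log T * (p.1.im - p.2.im)) ∂(muZ.prod muZ) := by
    intro T hT r δ hδ hrd
    rw [← integral_indicator (hset _)]
    congr 1
    ext p
    by_cases hp : |p.1.im| ≤ 2 * T
    · rw [indicator_of_mem (show p ∈ {p : ℂ × ℂ | |p.1.im| ≤ 2 * T} from hp)]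
    · rw [indicator_of_notMem (show p ∉ {p : ℂ × ℂ | |p.1.im| ≤ 2 * T} from hp), trap_zero hδ, zero_mul]
      push Not at hp
      rw [abs_div, abs_of_pos hT, le_div_iff₀ hT]
      have : (r + δ) * T ≤ 2 * T := by gcongr
      linarith
  have hInt : ∀ T : ℝ, T₀ ≤ T → IntegrableOn (fun p : ℂ × ℂ => rr k (Real.log T * (p.1.im - p.2.im)))
      {p | |p.1.im| ≤ 2 * T} (muZ.prod muZ) ∧ IntegrableOn (fun p : ℂ × ℂ => rr k (Real.log T * (p.1.im - p.2.im)))
      {p | |p.1.im| ≤ T} (muZ.prod muZ) := by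
    intro T hT
    exact hbi T hT _ C1 (Ap_cont hk T).aestronglyMeasurable hC1 (fun p => hq _)
  have hIntT : ∀ T : ℝ, T₀ ≤ T → ∀ r δ : ℝ, IntegrableOn (fun p : ℂ × ℂ => trap r δ (p.1.im / T) *
      rr k (Real.log T * (p.1.im - p.2.im))) {p | |p.1.im| ≤ 2 * T} (muZ.prod muZ) := by
    intro T hT r δ
    refine (hInt T hT).1.bdd_mul (c := 1) ?_ (Eventually.of_forall fun p => ?_)
    · have := trap_cont r δ
      exact (by fun_prop : Continuous fun p : ℂ × ℂ => trap r δ (p.1.im / T)).aestronglyMeasurable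
    · rw [Real.norm_eq_abs]; exact trap_abs_le _ _ _
  have hsub : ∀ T : ℝ, 0 < T → {p : ℂ × ℂ | |p.1.im| ≤ T} ⊆ {p : ℂ × ℂ | |p.1.im| ≤ 2 * T} := by
    intro T hT p hp
    have : |p.1.im| ≤ T := hp
    show |p.1.im| ≤ 2 * T
    linarith
  have hbox : ∀ T : ℝ, 0 < T → ∀ p : ℂ × ℂ, {p : ℂ × ℂ | |p.1.im| ≤ T}.indicator
      (fun p : ℂ × ℂ => rr k (Real.log T * (p.1.im - p.2.im))) p =
      {x : ℝ | |x| ≤ 1}.indicator (fun _ => (1:ℝ)) (p.1.im / T) * rr k (Real.log T * (p.1.im - p.2.im)) := by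
    intro T hT p
    have hiff : |p.1.im / T| ≤ 1 ↔ |p.1.im| ≤ T := by
      rw [abs_div, abs_of_pos hT, div_le_one hT]
    by_cases hp : |p.1.im| ≤ T
    · rw [indicator_of_mem (show p ∈ {p : ℂ × ℂ | |p.1.im| ≤ T} from hp),
        indicator_of_mem (show p.1.im / T ∈ {x : ℝ | |x| ≤ 1} from hiff.2 hp), one_mul]
    · rw [indicator_of_notMem (show p ∉ {p : ℂ × ℂ | |p.1.im| ≤ T} from hp),
        indicator_of_notMem (show p.1.im / T ∉ {x : ℝ | |x| ≤ 1} from fun h => hp (hiff.1 h)), zero_mul]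
  have hboxI : ∀ T : ℝ, 0 < T → ∫ p in {p : ℂ × ℂ | |p.1.im| ≤ T}, rr k (Real.log T * (p.1.im - p.2.im)) ∂(muZ.prod muZ) =
      ∫ p in {p : ℂ × ℂ | |p.1.im| ≤ 2 * T}, {p : ℂ × ℂ | |p.1.im| ≤ T}.indicator
      (fun p : ℂ × ℂ => rr k (Real.log T * (p.1.im - p.2.im))) p ∂(muZ.prod muZ) := by
    intro T hT
    rw [setIntegral_indicator (hset T), inter_eq_right.2 (hsub T hT)]
  have hIntB : ∀ T : ℝ, T₀ ≤ T → IntegrableOn ({p : ℂ × ℂ | |p.1.im| ≤ T}.indicator
      (fun p : ℂ × ℂ => rr k (Real.log T * (p.1.im - p.2.im)))) {p | |p.1.im| ≤ 2 * T} (muZ.prod muZ) := by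
    intro T hT
    exact ((hInt T hT).1).indicator (hset T)
  apply tendsto_of_sandwich
  · intro ε hε
    -- upper
    set δ : ℝ := min 1 (ε * π / (ck k + 1)) with hδ
    have hδ0 : 0 < δ := lt_min one_pos (by positivity)
    have hδ1 : δ ≤ 1 := min_le_left _ _
    have hδ2 : δ ≤ ε * π / (ck k + 1) := min_le_right _ _
    refine ⟨_, _, hs1 1 δ hδ0 (by linarith), ?_, ?_⟩
    · have h1 := (hI1 δ hδ0).2
      calc ck k / (2 * π) * ∫ x, trap 1 δ x ≤ ck k / (2 * π) * (2 + 2 * δ) := by gcongr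
        _ = ck k / π + ck k / π * δ := by field_simp
        _ ≤ ck k / π + ck k / π * (ε * π / (ck k + 1)) := by gcongr
        _ = ck k / π + ε * (ck k / (ck k + 1)) := by field_simp
        _ ≤ ck k / π + ε * 1 := by
            gcongr
            rw [div_le_one (by linarith)]; linarith
        _ = ck k / π + ε := by ring
    · filter_upwards [eventually_ge_atTop T₀, eventually_gt_atTop 0, log_ev 1] with T h1 h2 h3
      have : 0 < Real.log T := by linarith
      rw [hsplit T h2 1 δ hδ0 (by linarith), hboxI T h2]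
      apply mul_le_mul_of_nonneg_left _ (by positivity)
      apply setIntegral_mono (hIntB T h1) (hIntT T h1 1 δ)
      intro p
      show {p : ℂ × ℂ | |p.1.im| ≤ T}.indicator (fun p : ℂ × ℂ => rr k (Real.log T * (p.1.im - p.2.im))) p ≤
        trap 1 δ (p.1.im / T) * rr k (Real.log T * (p.1.im - p.2.im))
      rw [hbox T h2]
      exact mul_le_mul_of_nonneg_right (trap_ge_ind hδ0 _) (hpos _)
  · intro ε hε
    -- lower
    set δ : ℝ := min 1 (ε * π / (ck k + 1)) with hδ
    have hδ0 : 0 < δ := lt_min one_pos (by positivity)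
    have hδ1 : δ ≤ 1 := min_le_left _ _
    have hδ2 : δ ≤ ε * π / (ck k + 1) := min_le_right _ _
    refine ⟨_, _, hs1 (1 - δ) δ hδ0 (by linarith), ?_, ?_⟩
    · have h1 := hI2 δ hδ0 hδ1
      have h2 : ck k / π * δ ≤ ε := by
        calc ck k / π * δ ≤ ck k / π * (ε * π / (ck k + 1)) := by gcongr
          _ = ε * (ck k / (ck k + 1)) := by field_simp
          _ ≤ ε * 1 := by
            gcongr
            rw [div_le_one (by linarith)]; linarith
          _ = ε := by ring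
      calc ck k / π - ε ≤ ck k / π - ck k / π * δ := by linarith
        _ = ck k / (2 * π) * (2 - 2 * δ) := by field_simp
        _ ≤ ck k / (2 * π) * ∫ x, trap (1 - δ) δ x := by gcongr
    · filter_upwards [eventually_ge_atTop T₀, eventually_gt_atTop 0, log_ev 1] with T h1 h2 h3
      have : 0 < Real.log T := by linarith
      rw [hsplit T h2 (1 - δ) δ hδ0 (by linarith), hboxI T h2]
      apply mul_le_mul_of_nonneg_left _ (by positivity)
      apply setIntegral_mono (hIntT T h1 (1 - δ) δ) (hIntB T h1)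
      intro p
      show trap (1 - δ) δ (p.1.im / T) * rr k (Real.log T * (p.1.im - p.2.im)) ≤
        {p : ℂ × ℂ | |p.1.im| ≤ T}.indicator (fun p : ℂ × ℂ => rr k (Real.log T * (p.1.im - p.2.im))) p
      rw [hbox T h2]
      exact mul_le_mul_of_nonneg_right (trap_le_ind hδ0 _) (hpos _)

end Pool.Agent.PairCorr.P6
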