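import Mathlib
import Pool.Agent.PairCorr.P6_Levy1b
import Pool.Agent.PairCorr.P6_Q

set_option autoImplicit false

namespace Pool.Agent.PairCorr.P6

open MeasureTheory Filter Topology Set Real
open scoped ENNReal ComplexConjugate
open Pool.Agent.PairCorr.P1 (q4 q4_pos snc snc_mul snc_zero snc_neg abs_snc_le contDiff_snc)

variable {k k' : ℝ → ℝ} {b : ℝ}

/-- `½ (k(v-η) + k(v+η))` -/
noncomputable def kmod (k : ℝ → ℝ) (η v : ℝ) : ℝ := 1 / 2 * (k (v - η) + k (v + η))

lemma TF_shift (hk : TF k b) (η : ℝ) : TF (fun v => k (v - η)) (b + |η|) where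
  smooth := hk.smooth.comp (by fun_prop)
  supp := fun v hv => by
    apply hk.supp
    have h1 : |v| ≤ |v - η| + |η| := by
      have := abs_add_le (v - η) η
      rwa [sub_add_cancel] at this
    linarith

lemma kmod_TF (hk : TF k b) (η : ℝ) : TF (kmod k η) (b + |η|) := by
  have h1 := TF_shift hk η
  have h2 := TF_shift hk (-η)
  rw [abs_neg] at h2
  have h3 := (h1.add h2).const_mul (1/2)
  simp only [sub_neg_eq_add] at h3
  exact h3

lemma kmod_even (hev : ∀ v, k (-v) = k v) (η v : ℝ) : kmod k η (-v) = kmod k η v := by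
  unfold kmod
  rw [show -v - η = -(v + η) by ring, show -v + η = -(v - η) by ring, hev, hev]
  ring

lemma Kc_shift (k : ℝ → ℝ) (η : ℝ) (w : ℂ) : Kc (fun v => k (v - η)) w = Complex.exp (η * w) * Kc k w := by
  unfold Kc
  rw [← integral_const_mul, ← integral_add_right_eq_self _ η]
  congr 1
  ext v
  simp only [add_sub_cancel_right]
  push_cast
  rw [add_mul, Complex.exp_add]
  ring

lemma Kc_line_real (hev : ∀ v, k (-v) = k v) (y : ℝ) : Kc k (y * Complex.I) = (rr k y : ℂ) := by
  have h1 := Kc_conj_line' k y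
  have h2 : (fun v => k (-v)) = k := funext hev
  rw [h2] at h1
  unfold rr
  exact (Complex.conj_eq_iff_re.1 h1).symm

lemma kmod_Kc (hk : TF k b) (hev : ∀ v, k (-v) = k v) (η y : ℝ) :
    Kc (kmod k η) (y * Complex.I) = ((rr k y * Real.cos (η * y) : ℝ) : ℂ) := by
  have h1 := TF_shift hk η
  have h2 := TF_shift hk (-η)
  rw [abs_neg] at h2
  have e1 : kmod k η = fun v => 1 / 2 * ((fun v => k (v - η)) v + (fun v => k (v - -η)) v) := by
    funext v; simp only [kmod, sub_neg_eq_add]
  rw [e1, Kc_smul, Kc_add h1 h2, Kc_shift, Kc_shift, Kc_line_real hev]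
  have h3 : Complex.exp (η * (y * Complex.I)) = (Real.cos (η * y) : ℂ) + (Real.sin (η * y) : ℂ) * Complex.I := by
    have := Complex.exp_mul_I ((η * y : ℝ) : ℂ)
    rw [← Complex.ofReal_cos, ← Complex.ofReal_sin] at this
    rw [← this]; push_cast; ring_nf
  have h4 : Complex.exp (((-η : ℝ) : ℂ) * (y * Complex.I)) = (Real.cos (η * y) : ℂ) - (Real.sin (η * y) : ℂ) * Complex.I := by
    have := Complex.exp_mul_I ((-(η * y) : ℝ) : ℂ)
    rw [← Complex.ofReal_cos, ← Complex.ofReal_sin, Real.cos_neg, Real.sin_neg] at this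
    have e : ((-η : ℝ) : ℂ) * (y * Complex.I) = ((-(η * y) : ℝ) : ℂ) * Complex.I := by push_cast; ring
    rw [e, this]; push_cast; ring
  rw [h3, h4]
  push_cast
  ring

lemma kmod_rr (hk : TF k b) (hev : ∀ v, k (-v) = k v) (η y : ℝ) : rr (kmod k η) y = rr k y * Real.cos (η * y) := by
  have h1 : rr (kmod k η) y = (Kc (kmod k η) (y * Complex.I)).re := rfl
  rw [h1, kmod_Kc hk hev, Complex.ofReal_re]

lemma ck_add (hk : TF k b) (hk' : TF k' b) : ck (fun v => k v + k' v) = ck k + ck k' := by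
  unfold ck
  have : ∫ v, ρ1 v * (k v + k' v) = (∫ v, ρ1 v * k v) + ∫ v, ρ1 v * k' v := by
    rw [← integral_add (ρ1k_int hk) (ρ1k_int hk')]
    congr 1; ext v; ring
  rw [this]; ring

lemma TF_mono {b b' : ℝ} (hk : TF k b) (h : b ≤ b') : TF k b' where
  smooth := hk.smooth
  supp := fun v hv => hk.supp v (h.trans_lt hv)

/-- the pair sums over `|γ| ≤ T`, modulated kernels -/
theorem step2a (hP : PFLim) (hk : TF k b) (hev : ∀ v, k (-v) = k v) (hpos : ∀ y, 0 ≤ rr k y) (η : ℝ) :
    Tendsto (fun T => 1 / (T * Real.log T) * ∫ p in {p : ℂ × ℂ | |p.1.im| ≤ T},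
      rr k (Real.log T * (p.1.im - p.2.im)) * Real.cos (η * (Real.log T * (p.1.im - p.2.im)))
      ∂(muZ.prod muZ)) atTop (𝓝 (ck (kmod k η) / π)) := by
  obtain ⟨C1, hC1, hq⟩ := rr_q4 hk
  obtain ⟨-, -, T₀, hT₀, hbi⟩ := box_int
  have hk2 : TF k (b + |η|) := TF_mono hk (by have := abs_nonneg η; linarith)
  have hm := kmod_TF hk η
  have hs := hk2.add hm
  have h1 := (step1b hP hk hev hpos).2
  have h2 := (step1b hP hs (fun v => by rw [hev, kmod_even hev]) (fun y => by
    rw [rr_add hk2 hm, kmod_rr hk hev]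
    have := Real.neg_one_le_cos (η * y)
    have := hpos y
    nlinarith)).2
  rw [ck_add hk2 hm] at h2
  have h3 := h2.sub h1
  have e1 : (ck k + ck (kmod k η)) / π - ck k / π = ck (kmod k η) / π := by ring
  rw [e1] at h3
  refine h3.congr' ?_
  filter_upwards [eventually_ge_atTop T₀] with T hT
  rw [← mul_sub]
  congr 1
  have i1 := (hbi T hT (fun p : ℂ × ℂ => rr k (Real.log T * (p.1.im - p.2.im))) C1
    (Ap_cont hk T).aestronglyMeasurable hC1 (fun p => hq _)).2
  have i2 := (hbi T hT (fun p : ℂ × ℂ => rr k (Real.log T * (p.1.im - p.2.im)) *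
      Real.cos (η * (Real.log T * (p.1.im - p.2.im)))) C1
    (((Ap_cont hk T).mul (by fun_prop)).aestronglyMeasurable) hC1 (fun p => by
      rw [abs_mul]
      refine (mul_le_of_le_one_right (abs_nonneg _) (Real.abs_cos_le_one _)).trans (hq _))).2
  have e2 : ∀ y, rr (fun v => k v + kmod k η v) y = rr k y + rr k y * Real.cos (η * y) := by
    intro y
    rw [rr_add hk2 hm, kmod_rr hk hev]
  simp_rw [e2]
  rw [integral_add i1 i2]
  ring

/-- the limit law of the scaled differences -/
noncomputable def rhoY (k : ℝ → ℝ) : Measure ℝ :=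
  ENNReal.ofReal (rr k 0 / π) • Measure.dirac 0 +
    volume.withDensity (fun y => ENNReal.ofReal (1 / (2 * π ^ 2) * (rr k y * (1 - Gk 1 y))))

lemma Gk1_le_one (y : ℝ) : Gk 1 y ≤ 1 := by have := Gk_le 1 y; rwa [one_pow] at this

lemma rr_integrable (hk : TF k b) : Integrable (rr k) := by
  obtain ⟨C1, hC1, hq⟩ := rr_decay hk 2
  have h2 : Integrable (fun y : ℝ => (2 * C1) * (1 + y ^ 2)⁻¹) := integrable_inv_one_add_sq.const_mul _
  refine Integrable.mono' h2 (rr_cont hk).aestronglyMeasurable (Eventually.of_forall fun y => ?_)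
  rw [Real.norm_eq_abs]
  refine (hq y).trans ?_
  rw [mul_assoc, mul_left_comm]
  gcongr
  rw [← div_eq_mul_inv, ← one_div, div_le_div_iff₀ (by positivity) (by positivity), one_mul, ← sq_abs y]
  have := abs_nonneg y
  nlinarith

lemma rhoY_dens_int (hk : TF k b) : Integrable (fun y => rr k y * (1 - Gk 1 y)) := by
  have h1 := Gk1_cont
  refine (rr_integrable hk).mul_bdd (c := 1) (by fun_prop) (Eventually.of_forall fun y => ?_)
  rw [Real.norm_eq_abs, abs_le]
  have := Gk1_le_one y
  have := Gk_nonneg 1 y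
  constructor <;> linarith

lemma rhoY_fin (hk : TF k b) : IsFiniteMeasure (rhoY k) := by
  unfold rhoY
  have h1 : IsFiniteMeasure (volume.withDensity (fun y => ENNReal.ofReal (1 / (2 * π ^ 2) * (rr k y * (1 - Gk 1 y))))) := by
    apply isFiniteMeasure_withDensity_ofReal
    exact ((rhoY_dens_int hk).const_mul _).2
  have h2 : IsFiniteMeasure (ENNReal.ofReal (rr k 0 / π) • Measure.dirac (0:ℝ)) :=
    Measure.smul_finite _ ENNReal.ofReal_ne_top
  infer_instance

lemma rhoY_int (hk : TF k b) (hpos : ∀ y, 0 ≤ rr k y) {f : ℝ → ℝ} (hf : Continuous f) {C : ℝ} (hC : ∀ x, |f x| ≤ C) :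
    ∫ x, f x ∂(rhoY k) = 1 / π * (rr k 0 * f 0 + 1 / (2 * π) * ∫ y, rr k y * (1 - Gk 1 y) * f y) := by
  have hpi := Real.pi_pos
  have hG := Gk1_cont
  have hr := rr_cont hk
  have h1 : IsFiniteMeasure (volume.withDensity (fun y => ENNReal.ofReal (1 / (2 * π ^ 2) * (rr k y * (1 - Gk 1 y))))) := by
    apply isFiniteMeasure_withDensity_ofReal
    exact ((rhoY_dens_int hk).const_mul _).2
  have h2 : IsFiniteMeasure (ENNReal.ofReal (rr k 0 / π) • Measure.dirac (0:ℝ)) :=
    Measure.smul_finite _ ENNReal.ofReal_ne_top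
  unfold rhoY
  rw [integral_add_measure (Integrable.of_bound hf.aestronglyMeasurable C (Eventually.of_forall hC))
    (Integrable.of_bound hf.aestronglyMeasurable C (Eventually.of_forall hC)),
    integral_smul_measure, integral_dirac,
    integral_withDensity_eq_integral_toReal_smul (by fun_prop) (Eventually.of_forall fun _ => ENNReal.ofReal_lt_top),
    ENNReal.toReal_ofReal (div_nonneg (hpos 0) hpi.le), mul_add, ← integral_const_mul, ← integral_const_mul]
  congr 1
  · rw [smul_eq_mul]; ring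
  · congr 1
    ext y
    have h3 := hpos y
    have h4 := Gk1_le_one y
    rw [ENNReal.toReal_ofReal (mul_nonneg (by positivity) (mul_nonneg h3 (by linarith))), smul_eq_mul]
    field_simp

lemma rhoY_even (hk : TF k b) : (rhoY k).map (fun x => -x) = rhoY k := by
  have hG := Gk1_cont
  have hr := rr_cont hk
  unfold rhoY
  rw [Measure.map_add _ _ measurable_neg, withDensity_even (by fun_prop) (fun x => by rw [Gk_even, rr_neg]),
    Measure.map_smul, Measure.map_dirac' measurable_neg, neg_zero]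

lemma rhoY_cos (hk : TF k b) (hev : ∀ v, k (-v) = k v) (hpos : ∀ y, 0 ≤ rr k y) (η : ℝ) :
    ∫ y, Real.cos (η * y) ∂(rhoY k) = ck (kmod k η) / π := by
  have hpi := Real.pi_pos
  have hG := Gk1_cont
  have hm := kmod_TF hk η
  rw [rhoY_int hk hpos (by fun_prop) (C := 1) (fun x => Real.abs_cos_le_one _), mul_zero, Real.cos_zero, mul_one]
  obtain ⟨i1, i2, i3⟩ := integral_F_sinc2_gen (F := fun u => rr k (2 * π * u) * Real.cos (η * (2 * π * u))) hm
    (kmod_even hev η) (fun u => by
      have := kmod_Kc hk hev η (2 * π * u)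
      exact this)
  -- change of variables
  have e1 : ∫ y, rr k y * (1 - Gk 1 y) * Real.cos (η * y) = 2 * π *
      ∫ u, (rr k (2 * π * u) * Real.cos (η * (2 * π * u))) * (1 - Gk 1 (2 * π * u)) := by
    have h1 := Measure.integral_comp_mul_left (fun y => rr k y * (1 - Gk 1 y) * Real.cos (η * y)) (2 * π)
    rw [abs_of_pos (by positivity), smul_eq_mul] at h1
    have h2 : ∫ y, rr k y * (1 - Gk 1 y) * Real.cos (η * y) = 2 * π * ((2 * π)⁻¹ * ∫ y, rr k y * (1 - Gk 1 y) * Real.cos (η * y)) := by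
      field_simp
    rw [h2, ← h1]
    congr 2
    ext u; ring
  have e2 : ∫ u, (rr k (2 * π * u) * Real.cos (η * (2 * π * u))) * (1 - Gk 1 (2 * π * u)) =
      kmod k η 0 - ∫ v, kmod k η v * (1 - ρ1 v) := by
    rw [← i2, ← i3]
    have i4 : Integrable (fun u => (rr k (2 * π * u) * Real.cos (η * (2 * π * u))) * sinc2 u) := by
      by_contra hni
      exact hni (by
        have hb : ∀ᵐ u : ℝ, sinc2 u = Gk 1 (2 * π * u) := by
          have : ∀ᵐ u : ℝ, u ≠ 0 := by
            rw [ae_iff]; simp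
          filter_upwards [this] with u hu
          rw [sinc2_eq hu]
          unfold Gk
          rw [one_pow, one_mul, one_mul]
          congr 2; ring
        have h5 : Integrable (fun u => (rr k (2 * π * u) * Real.cos (η * (2 * π * u))) * Gk 1 (2 * π * u)) := by
          refine i1.mul_bdd (c := 1) (by fun_prop) (Eventually.of_forall fun y => ?_)
          rw [Real.norm_eq_abs, abs_of_nonneg (Gk_nonneg _ _)]
          exact Gk1_le_one _
        refine h5.congr ?_
        filter_upwards [hb] with u hu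
        rw [hu])
    rw [← integral_sub i1 i4]
    apply integral_congr_ae
    have : ∀ᵐ u : ℝ, u ≠ 0 := by
      rw [ae_iff]; simp
    filter_upwards [this] with u hu
    rw [sinc2_eq hu]
    have : Gk 1 (2 * π * u) = snc (π * u) ^ 2 := by
      unfold Gk
      rw [one_pow, one_mul, one_mul]
      congr 2; ring
    rw [this]; ring
  have e3 : ∫ v, kmod k η v * (1 - ρ1 v) = rr k 0 - ∫ v, ρ1 v * kmod k η v := by
    have h0 : rr k 0 = ∫ v, kmod k η v := by
      rw [← rr_zero, kmod_rr hk hev, mul_zero, Real.cos_zero, mul_one]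
    rw [h0, ← integral_sub hm.integrable (ρ1k_int hm)]
    congr 1; ext v; ring
  rw [e1, e2, e3]
  unfold ck
  field_simp
  ring

/-- the law of the scaled differences -/
theorem step2 (hP : PFLim) (hk : TF k b) (hev : ∀ v, k (-v) = k v) (hpos : ∀ y, 0 ≤ rr k y) {g : ℝ → ℝ}
    (hg : Continuous g) {C : ℝ} (hC : ∀ x, |g x| ≤ C) (hge : ∀ x, g (-x) = g x) :
    Tendsto (fun T => 1 / (T * Real.log T) * ∫ p in {p : ℂ × ℂ | |p.1.im| ≤ T},
      rr k (Real.log T * (p.1.im - p.2.im)) * g (Real.log T * (p.1.im - p.2.im))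
      ∂(muZ.prod muZ)) atTop (𝓝 (1 / π * (rr k 0 * g 0 + 1 / (2 * π) * ∫ y, rr k y * (1 - Gk 1 y) * g y))) := by
  obtain ⟨C1, hC1, hq⟩ := rr_q4 hk
  obtain ⟨-, -, T₀, hT₀, hbi⟩ := box_int
  have hfin := rhoY_fin hk
  rw [← rhoY_int hk hpos hg hC]
  set w : ℝ → ℂ × ℂ → ℝ := fun T p => 1 / (T * Real.log T) * {p : ℂ × ℂ | |p.1.im| ≤ T}.indicator
    (fun p : ℂ × ℂ => rr k (Real.log T * (p.1.im - p.2.im))) p with hw
  set X : ℝ → ℂ × ℂ → ℝ := fun T p => Real.log T * (p.1.im - p.2.im) with hX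
  have hwf : ∀ (T : ℝ) (f : ℝ → ℝ), ∫ p, w T p * f (X T p) ∂(muZ.prod muZ) =
      1 / (T * Real.log T) * ∫ p in {p : ℂ × ℂ | |p.1.im| ≤ T},
      rr k (Real.log T * (p.1.im - p.2.im)) * f (Real.log T * (p.1.im - p.2.im)) ∂(muZ.prod muZ) := by
    intro T f
    rw [← integral_indicator (meas_abs_le T), ← integral_const_mul]
    congr 1
    ext p
    simp only [hw, hX]
    by_cases hp : p ∈ {p : ℂ × ℂ | |p.1.im| ≤ T}
    · rw [indicator_of_mem hp, indicator_of_mem hp]; ring
    · rw [indicator_of_notMem hp, indicator_of_notMem hp]; ring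
  have hlevy := levy_cos (m := muZ.prod muZ) (w := w) (X := X) (ρ := rhoY k) (g := g)
    (C := C) ?_ ?_ ?_ ?_ (rhoY_even hk) ?_ hg hC hge
  · exact hlevy.congr fun T => hwf T g
  · refine Eventually.of_forall fun T => ?_
    exact ((Ap_cont hk T).measurable.indicator (meas_abs_le T)).const_mul _
  · filter_upwards [eventually_ge_atTop T₀] with T hT
    have i1 := (hbi T hT (fun p : ℂ × ℂ => rr k (Real.log T * (p.1.im - p.2.im))) C1
      (Ap_cont hk T).aestronglyMeasurable hC1 (fun p => hq _)).2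
    exact (i1.integrable_indicator (meas_abs_le T)).const_mul _
  · filter_upwards [log_ev 1, eventually_gt_atTop 0] with T hL hT p
    have : 0 < Real.log T := by linarith
    exact mul_nonneg (by positivity) (indicator_nonneg (fun _ _ => hpos _) _)
  · refine Eventually.of_forall fun T => ?_
    simp only [hX]
    fun_prop
  · intro t ht
    rw [rhoY_cos hk hev hpos]
    refine (step2a hP hk hev hpos t).congr fun T => ?_
    exact (hwf T (fun y => Real.cos (t * y))).symm

end Pool.Agent.PairCorr.P6
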