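import Mathlib
import Pool.Agent.PairCorr.P6_Levy2

set_option autoImplicit false

namespace Pool.Agent.PairCorr.P6

open MeasureTheory Filter Topology Set Real
open scoped ENNReal ComplexConjugate
open Pool.Agent.PairCorr.P1 (q4 q4_pos snc snc_mul snc_zero snc_neg abs_snc_le contDiff_snc)

/-- a positive kernel adapted to a range -/
lemma exists_kernel {R : ℝ} (hR : 0 < R) : ∃ (k : ℝ → ℝ) (b c : ℝ), TF k b ∧ (∀ v, k (-v) = k v) ∧
    (∀ y, 0 ≤ rr k y) ∧ 0 < c ∧ ∀ y, |y| ≤ R → c ≤ rr k y := by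
  have hc := rr_cont kK_TF
  have h1 : ∀ᶠ z in 𝓝 (0:ℝ), 1 / 2 < rr kK z := by
    apply hc.continuousAt.eventually
    rw [rr_kK_zero]
    exact lt_mem_nhds (by norm_num)
  obtain ⟨δ, hδ, h2⟩ := Metric.eventually_nhds_iff.1 h1
  set A : ℝ := δ / (2 * R) with hA
  have hA0 : 0 < A := by positivity
  refine ⟨kA A, 2 * A, A / 2, kA_TF hA0, kA_even A, rr_kA_nonneg hA0, by positivity, fun y hy => ?_⟩
  rw [rr_kA hA0]
  have h3 : |A * y| < δ := by
    rw [abs_mul, abs_of_pos hA0, hA]
    calc δ / (2 * R) * |y| ≤ δ / (2 * R) * R := by gcongr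
      _ = δ / 2 := by field_simp
      _ < δ := by linarith
  have h4 := h2 (y := A * y) (by rw [Real.dist_eq, sub_zero]; exact h3)
  nlinarith

lemma gue_Gk (a : ℝ) : ∫ y in (-(2 * π * a))..(2 * π * a), (1 - Gk 1 y) = 2 * π * (2 * gue a) := by
  have hpi := Real.pi_pos
  have hG := Gk1_cont
  have hc : Continuous fun y => 1 - Gk 1 y := by fun_prop
  have ii : ∀ x y : ℝ, IntervalIntegrable (fun y => 1 - Gk 1 y) volume x y := fun x y => hc.intervalIntegrable x y
  have h1 : ∫ y in (-(2 * π * a))..0, (1 - Gk 1 y) = ∫ y in (0:ℝ)..(2 * π * a), (1 - Gk 1 y) := by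
    have := intervalIntegral.integral_comp_neg (a := 0) (b := 2 * π * a) (fun y => 1 - Gk 1 y)
    rw [neg_zero] at this
    rw [← this]
    simp_rw [Gk_even]
  have h2 : ∫ y in (0:ℝ)..(2 * π * a), (1 - Gk 1 y) = 2 * π * gue a := by
    have h3 := intervalIntegral.integral_comp_mul_left (a := 0) (b := a) (fun y => 1 - Gk 1 y)
      (show 2 * π ≠ 0 by positivity)
    rw [mul_zero, smul_eq_mul] at h3
    have h4 : gue a = ∫ u in (0:ℝ)..a, (1 - Gk 1 (2 * π * u)) := by
      unfold gue
      apply intervalIntegral.integral_congr_ae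
      have : ∀ᵐ u : ℝ, u ≠ 0 := by rw [ae_iff]; simp
      filter_upwards [this] with u hu _
      have h5 := sinc2_eq hu
      unfold sinc2 at h5
      rw [h5]
      unfold Gk
      rw [one_pow, one_mul, one_mul]
      congr 3; ring
    rw [h4, h3]
    field_simp
  rw [← intervalIntegral.integral_add_adjacent_intervals (ii _ 0) (ii 0 _), h1, h2]
  ring

/-- indicator of the box -/
noncomputable def bx (r y : ℝ) : ℝ := {x : ℝ | |x| ≤ r}.indicator (fun _ => (1:ℝ)) y

lemma bx_nonneg (r y : ℝ) : 0 ≤ bx r y := indicator_nonneg (fun _ _ => zero_le_one) _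

lemma bx_meas (r : ℝ) : Measurable (bx r) := by
  unfold bx
  exact measurable_const.indicator (measurableSet_le (by fun_prop) measurable_const)

lemma bx_le_q4 {r : ℝ} (hr : 0 ≤ r) (y : ℝ) : bx r y ≤ (1 + r) ^ 4 * q4 y := by
  unfold bx
  by_cases hy : |y| ≤ r
  · rw [indicator_of_mem (show y ∈ {x : ℝ | |x| ≤ r} from hy)]
    unfold q4
    have := abs_nonneg y
    rw [← div_eq_mul_inv, le_div_iff₀ (by positivity), one_mul]
    gcongr
  · rw [indicator_of_notMem (show y ∉ {x : ℝ | |x| ≤ r} from hy)]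
    have := q4_pos y
    positivity

lemma trap_le_q4 {r δ : ℝ} (hr : 0 ≤ r) (hδ : 0 < δ) (y : ℝ) : trap r δ y ≤ (1 + (r + δ)) ^ 4 * q4 y := by
  have h1 : trap r δ y ≤ bx (r + δ) y := by
    unfold bx
    by_cases hy : |y| ≤ r + δ
    · rw [indicator_of_mem (show y ∈ {x : ℝ | |x| ≤ r + δ} from hy)]
      exact trap_le_one _ _ _
    · rw [indicator_of_notMem (show y ∉ {x : ℝ | |x| ≤ r + δ} from hy), trap_zero hδ (by push Not at hy; exact hy.le)]
  exact h1.trans (bx_le_q4 (by linarith) y)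

theorem step3a (hP : PFLim) {r δ : ℝ} (hr : 0 ≤ r) (hδ : 0 < δ) :
    Tendsto (fun T => 1 / (T * Real.log T) * ∫ p in {p : ℂ × ℂ | |p.1.im| ≤ T},
      trap r δ (Real.log T * (p.1.im - p.2.im)) ∂(muZ.prod muZ)) atTop
      (𝓝 (1 / π * (1 + 1 / (2 * π) * ∫ y, trap r δ y * (1 - Gk 1 y)))) := by
  obtain ⟨k, b, c, hk, hev, hpos, hc, hlow⟩ := exists_kernel (show 0 < r + δ by linarith)
  have hkc := rr_cont hk
  set g : ℝ → ℝ := fun y => trap r δ y / max (rr k y) c with hg
  have hmpos : ∀ y, 0 < max (rr k y) c := fun y => lt_max_of_lt_right hc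
  have hgc : Continuous g := (trap_cont r δ).div (hkc.max continuous_const) (fun x => (hmpos x).ne')
  have hgB : ∀ x, |g x| ≤ 1 / c := by
    intro x
    rw [hg]
    simp only
    rw [abs_div, abs_of_pos (hmpos x)]
    have := trap_abs_le r δ x
    have : c ≤ max (rr k x) c := le_max_right _ _
    gcongr
  have hge : ∀ x, g (-x) = g x := by
    intro x
    simp only [hg]
    rw [trap_even, rr_neg]
  have hrg : ∀ y, rr k y * g y = trap r δ y := by
    intro y
    simp only [hg]
    rcases le_or_gt |y| (r + δ) with h | h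
    · have h1 := hlow y h
      rw [max_eq_left h1]
      have : rr k y ≠ 0 := by linarith
      field_simp
    · rw [trap_zero hδ h.le, zero_div, mul_zero]
  have h1 := step2 hP hk hev hpos hgc hgB hge
  simp_rw [hrg] at h1
  rw [trap_one hδ (by rw [abs_zero]; exact hr)] at h1
  have e1 : ∀ y, rr k y * (1 - Gk 1 y) * g y = trap r δ y * (1 - Gk 1 y) := by
    intro y
    rw [← hrg y]; ring
  simp_rw [e1] at h1
  exact h1

/-- the box count -/
theorem step3 (hP : PFLim) {a : ℝ} (ha : 0 < a) :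
    Tendsto (fun T => 1 / (T * Real.log T) * ∫ p in {p : ℂ × ℂ | |p.1.im| ≤ T},
      bx (2 * π * a) (Real.log T * (p.1.im - p.2.im)) ∂(muZ.prod muZ)) atTop
      (𝓝 (1 / π * (1 + 2 * gue a))) := by
  have hpi := Real.pi_pos
  obtain ⟨-, -, T₀, hT₀, hbi⟩ := box_int
  have hr0 : 0 < 2 * π * a := by positivity
  have hG := Gk1_cont
  have hf : Continuous fun y => 1 - Gk 1 y := by fun_prop
  have hf0 : ∀ y, 0 ≤ 1 - Gk 1 y := fun y => by have := Gk1_le_one y; linarith
  have hf1 : ∀ y, 1 - Gk 1 y ≤ 1 := fun y => by have := Gk_nonneg 1 y; linarith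
  have hIB : ∀ T, T₀ ≤ T → IntegrableOn (fun p : ℂ × ℂ => bx (2 * π * a) (Real.log T * (p.1.im - p.2.im)))
      {p | |p.1.im| ≤ T} (muZ.prod muZ) := by
    intro T hT
    refine (hbi T hT _ ((1 + 2 * π * a) ^ 4) ?_ (by positivity) (fun p => ?_)).2
    · exact ((bx_meas _).comp (by fun_prop)).aestronglyMeasurable
    · rw [abs_of_nonneg (bx_nonneg _ _)]
      exact bx_le_q4 hr0.le _
  have hIT : ∀ T, T₀ ≤ T → ∀ r δ : ℝ, 0 ≤ r → 0 < δ → IntegrableOn (fun p : ℂ × ℂ => trap r δ (Real.log T * (p.1.im - p.2.im)))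
      {p | |p.1.im| ≤ T} (muZ.prod muZ) := by
    intro T hT r δ hr hδ
    refine (hbi T hT _ ((1 + (r + δ)) ^ 4) ?_ (by positivity) (fun p => ?_)).2
    · exact ((trap_cont r δ).measurable.comp (by fun_prop)).aestronglyMeasurable
    · rw [abs_of_nonneg (trap_nonneg _ _ _)]
      exact trap_le_q4 hr hδ _
  apply tendsto_of_sandwich
  · intro ε hε
    set δ : ℝ := ε * π ^ 2 with hδ
    have hδ0 : 0 < δ := by positivity
    refine ⟨_, _, step3a hP hr0.le hδ0, ?_, ?_⟩
    · have h1 := trap_weight hδ0 hr0.le hf hf0 hf1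
      rw [gue_Gk] at h1
      calc 1 / π * (1 + 1 / (2 * π) * ∫ y, trap (2 * π * a) δ y * (1 - Gk 1 y))
          ≤ 1 / π * (1 + 1 / (2 * π) * (2 * π * (2 * gue a) + 2 * δ)) := by gcongr
        _ = 1 / π * (1 + 2 * gue a) + δ / π ^ 2 := by field_simp; ring
        _ = _ := by rw [hδ]; field_simp
    · filter_upwards [eventually_ge_atTop T₀, eventually_gt_atTop 0, log_ev 1] with T h1 h2 h3
      have : 0 < Real.log T := by linarith
      apply mul_le_mul_of_nonneg_left _ (by positivity)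
      apply setIntegral_mono (hIB T h1) (hIT T h1 _ _ hr0.le hδ0)
      intro p
      exact trap_ge_ind hδ0 _
  · intro ε hε
    set δ : ℝ := min (2 * π * a) (ε * π ^ 2) with hδ
    have hδ0 : 0 < δ := lt_min hr0 (by positivity)
    have hδ1 : δ ≤ 2 * π * a := min_le_left _ _
    have hδ2 : δ ≤ ε * π ^ 2 := min_le_right _ _
    refine ⟨_, _, step3a hP (show 0 ≤ 2 * π * a - δ by linarith) hδ0, ?_, ?_⟩
    · have h1 := trap_weight_lower hδ0 hδ1 hf hf0 hf1
      rw [gue_Gk] at h1
      calc 1 / π * (1 + 2 * gue a) - ε = 1 / π * (1 + 2 * gue a) - (ε * π ^ 2) / π ^ 2 := by field_simp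
        _ ≤ 1 / π * (1 + 2 * gue a) - δ / π ^ 2 := by gcongr
        _ = 1 / π * (1 + 1 / (2 * π) * (2 * π * (2 * gue a) - 2 * δ)) := by field_simp; ring
        _ ≤ _ := by gcongr
    · filter_upwards [eventually_ge_atTop T₀, eventually_gt_atTop 0, log_ev 1] with T h1 h2 h3
      have : 0 < Real.log T := by linarith
      apply mul_le_mul_of_nonneg_left _ (by positivity)
      apply setIntegral_mono (hIT T h1 _ _ (by linarith) hδ0) (hIB T h1)
      intro p
      exact trap_le_ind hδ0 _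

/-- the symmetric pair count -/
theorem N2_lim (hP : PFLim) {a : ℝ} (ha : 0 < a) :
    Tendsto (fun T => N2 T a / NT T) atTop (𝓝 (1 + 2 * gue a)) := by
  have hpi := Real.pi_pos
  obtain ⟨-, -, T₀, hT₀, hbi⟩ := box_int
  obtain ⟨C0, hC0, hZ⟩ := PB_zero
  have hr0 : 0 < 2 * π * a := by positivity
  have h1 := (step3 hP ha).const_mul π
  have e0 : π * (1 / π * (1 + 2 * gue a)) = 1 + 2 * gue a := by field_simp
  rw [e0] at h1
  have herr : Tendsto (fun T => π * ((1 + 2 * π * a) ^ 4 * C0) / (T * Real.log T)) atTop (𝓝 0) := by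
    apply tendsto_const_nhds.div_atTop
    exact tendsto_id.atTop_mul_atTop₀ Real.tendsto_log_atTop
  have hdiff : Tendsto (fun T => N2 T a / NT T - π * (1 / (T * Real.log T) * ∫ p in {p : ℂ × ℂ | |p.1.im| ≤ T},
      bx (2 * π * a) (Real.log T * (p.1.im - p.2.im)) ∂(muZ.prod muZ))) atTop (𝓝 0) := by
    refine squeeze_zero_norm' ?_ herr
    filter_upwards [eventually_ge_atTop T₀, eventually_gt_atTop 0, log_ev 1] with T hT hT0 hL
    have hL0 : 0 < Real.log T := by linarith
    set F : ℂ × ℂ → ℝ := fun p => bx (2 * π * a) (Real.log T * (p.1.im - p.2.im)) with hF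
    have hFm : Measurable F := (bx_meas _).comp (by fun_prop)
    have hIB : IntegrableOn F {p | |p.1.im| ≤ T} (muZ.prod muZ) := by
      refine (hbi T hT _ ((1 + 2 * π * a) ^ 4) hFm.aestronglyMeasurable (by positivity) (fun p => ?_)).2
      rw [abs_of_nonneg (bx_nonneg _ _)]
      exact bx_le_q4 hr0.le _
    have hsym : ∀ p : ℂ × ℂ, F (conj p.1, conj p.2) = F p := by
      intro p
      simp only [hF, Complex.conj_im]
      rw [show Real.log T * (-p.1.im - -p.2.im) = -(Real.log T * (p.1.im - p.2.im)) by ring]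
      unfold bx
      by_cases hy : |Real.log T * (p.1.im - p.2.im)| ≤ 2 * π * a
      · rw [indicator_of_mem (show _ ∈ {x : ℝ | |x| ≤ 2 * π * a} from hy),
          indicator_of_mem (show -(Real.log T * (p.1.im - p.2.im)) ∈ {x : ℝ | |x| ≤ 2 * π * a} by
            show |-(Real.log T * (p.1.im - p.2.im))| ≤ 2 * π * a
            rw [abs_neg]; exact hy)]
      · rw [indicator_of_notMem (show _ ∉ {x : ℝ | |x| ≤ 2 * π * a} from hy),
          indicator_of_notMem (show -(Real.log T * (p.1.im - p.2.im)) ∉ {x : ℝ | |x| ≤ 2 * π * a} by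
            intro h
            apply hy
            have h' : |-(Real.log T * (p.1.im - p.2.im))| ≤ 2 * π * a := h
            rwa [abs_neg] at h')]
    have hsplit := split_sym hFm hsym hT0.le hIB
    -- the count
    have hN2 : N2 T a = ∫ p in {p : ℂ × ℂ | 0 < p.1.im ∧ p.1.im ≤ T}, F p ∂(muZ.prod muZ) := by
      have hset : {p : ℂ × ℂ | 0 < p.1.im ∧ p.1.im ≤ T} = WT T ×ˢ univ := by
        ext p; simp [WT]
      have e1 : N2 T a = ((nu T) (SymSet T a)).toReal := by
        rw [N2_measure, ENNReal.toReal_ofReal (N2_nonneg T a)]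
      have e2 : F = (SymSet T a).indicator (fun _ => (1:ℝ)) := by
        funext p
        simp only [hF, bx]
        have hiff : |Real.log T * (p.1.im - p.2.im)| ≤ 2 * π * a ↔ p ∈ SymSet T a := by
          show _ ↔ |p.1.im - p.2.im| ≤ 2 * π * a / Real.log T
          rw [abs_mul, abs_of_pos hL0, le_div_iff₀ hL0, mul_comm]
        by_cases hp : p ∈ SymSet T a
        · rw [indicator_of_mem hp, indicator_of_mem (show _ ∈ {x : ℝ | |x| ≤ 2 * π * a} from hiff.2 hp)]
        · rw [indicator_of_notMem hp, indicator_of_notMem (show _ ∉ {x : ℝ | |x| ≤ 2 * π * a} from fun h => hp (hiff.1 h))]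
      rw [e1, e2, integral_indicator (measurableSet_SymSet T a), setIntegral_const, smul_eq_mul, mul_one,
        hset, ← muW_prod_restrict]
      rfl
    -- the zero part
    have h6 : |∫ p in {p : ℂ × ℂ | p.1.im = 0}, F p ∂(muZ.prod muZ)| ≤ (1 + 2 * π * a) ^ 4 * C0 := by
      have h7 := hZ (Real.log T) hL
      have hfin : ∫⁻ p in {p : ℂ × ℂ | p.1.im = 0}, ENNReal.ofReal (q4 (Real.log T * (p.1.im - p.2.im))) ∂(muZ.prod muZ) < ⊤ :=
        h7.trans_lt ENNReal.ofReal_lt_top
      have h5 : IntegrableOn (fun p : ℂ × ℂ => q4 (Real.log T * (p.1.im - p.2.im))) {p | p.1.im = 0} (muZ.prod muZ) := by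
        refine ⟨(q4_cont.comp (by fun_prop)).aestronglyMeasurable, ?_⟩
        rw [hasFiniteIntegral_iff_ofReal (Eventually.of_forall fun p => (q4_pos _).le)]
        exact hfin
      have h8 : ∫ p in {p : ℂ × ℂ | p.1.im = 0}, q4 (Real.log T * (p.1.im - p.2.im)) ∂(muZ.prod muZ) ≤ C0 := by
        rw [← ENNReal.ofReal_le_ofReal_iff hC0.le,
          ofReal_integral_eq_lintegral_ofReal h5 (Eventually.of_forall fun p => (q4_pos _).le)]
        exact h7
      rw [← Real.norm_eq_abs]
      calc ‖∫ p in {p : ℂ × ℂ | p.1.im = 0}, F p ∂(muZ.prod muZ)‖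
          ≤ ∫ p in {p : ℂ × ℂ | p.1.im = 0}, (1 + 2 * π * a) ^ 4 * q4 (Real.log T * (p.1.im - p.2.im)) ∂(muZ.prod muZ) := by
            apply norm_integral_le_of_norm_le (h5.const_mul _) (Eventually.of_forall fun p => ?_)
            rw [Real.norm_eq_abs, abs_of_nonneg (bx_nonneg _ _)]
            exact bx_le_q4 hr0.le _
        _ = (1 + 2 * π * a) ^ 4 * ∫ p in {p : ℂ × ℂ | p.1.im = 0}, q4 (Real.log T * (p.1.im - p.2.im)) ∂(muZ.prod muZ) :=
            integral_const_mul _ _
        _ ≤ _ := by gcongr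
    rw [hsplit, ← hN2]
    have e3 : N2 T a / NT T - π * (1 / (T * Real.log T) * (2 * N2 T a +
        ∫ p in {p : ℂ × ℂ | p.1.im = 0}, F p ∂(muZ.prod muZ))) =
        - (π / (T * Real.log T) * ∫ p in {p : ℂ × ℂ | p.1.im = 0}, F p ∂(muZ.prod muZ)) := by
      unfold NT
      field_simp
      ring
    rw [e3, norm_neg, norm_mul, Real.norm_eq_abs, Real.norm_eq_abs, abs_of_pos (by positivity)]
    calc π / (T * Real.log T) * |∫ p in {p : ℂ × ℂ | p.1.im = 0}, F p ∂(muZ.prod muZ)|
        ≤ π / (T * Real.log T) * ((1 + 2 * π * a) ^ 4 * C0) := by gcongr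
      _ = _ := by ring
  have := h1.add hdiff
  rw [add_zero] at this
  refine this.congr fun T => ?_
  ring

lemma gue_small {a : ℝ} (ha : 0 ≤ a) : 0 ≤ gue a ∧ gue a ≤ a := by
  have h := gue_Gk a
  have hpi := Real.pi_pos
  have hG := Gk1_cont
  have hf : Continuous fun y => 1 - Gk 1 y := by fun_prop
  have hle : -(2 * π * a) ≤ 2 * π * a := by
    have : 0 ≤ 2 * π * a := by positivity
    linarith
  have h0 : 0 ≤ ∫ y in (-(2 * π * a))..(2 * π * a), (1 - Gk 1 y) :=
    intervalIntegral.integral_nonneg hle (fun y _ => by have := Gk1_le_one y; linarith)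
  have h1 : ∫ y in (-(2 * π * a))..(2 * π * a), (1 - Gk 1 y) ≤ ∫ y in (-(2 * π * a))..(2 * π * a), (1:ℝ) :=
    intervalIntegral.integral_mono_on hle (hf.intervalIntegrable _ _) (by simp)
      (fun y _ => by have := Gk_nonneg 1 y; linarith)
  rw [intervalIntegral.integral_const, smul_eq_mul, mul_one] at h1
  rw [h] at h0 h1
  constructor
  · by_contra hc
    push Not at hc
    nlinarith
  · have : 2 * π * (2 * gue a) ≤ 2 * π * (2 * a) := by linarith
    have := le_of_mul_le_mul_left this (by positivity)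
    linarith

/-- **From the smoothed pair sums to the pair correlation.** -/
theorem counts_of_PFLim (hP : PFLim) : Tendsto Mr atTop (𝓝 1) ∧
    ∀ a > 0, Tendsto (fun T => Lr T a) atTop (𝓝 (gue a)) := by
  have hS : ∀ a > 0, Tendsto (fun T => 2 * Lr T a + Mr T) atTop (𝓝 (1 + 2 * gue a)) := by
    intro a ha
    have h1 := (N2_lim hP ha).sub (N2_ratio ha.le)
    rw [sub_zero] at h1
    refine h1.congr fun T => ?_
    ring
  have hM : Tendsto Mr atTop (𝓝 1) := by
    apply tendsto_of_sandwich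
    · intro ε hε
      refine ⟨_, _, hS (ε / 2) (by positivity), ?_, ?_⟩
      · have := (gue_small (show 0 ≤ ε / 2 by positivity)).2
        linarith
      · filter_upwards [eventually_ge_atTop (Real.exp 1)] with T hT
        have := Lr_nonneg hT (ε / 2)
        linarith
    · intro ε hε
      refine ⟨_, _, NCount_NT, by linarith, ?_⟩
      filter_upwards [eventually_ge_atTop (Real.exp 1)] with T hT
      exact Mr_ge_ratio hT
  refine ⟨hM, fun a ha => ?_⟩
  have h1 := ((hS a ha).sub hM).div_const 2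
  have e : (1 + 2 * gue a - 1) / 2 = gue a := by ring
  rw [e] at h1
  refine h1.congr fun T => ?_
  ring

end Pool.Agent.PairCorr.P6
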