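import Mathlib
import Pool.Agent.PairCorr.P6_Growth
import Pool.Agent.PairCorr.E_Xi

set_option autoImplicit false

namespace Pool.Agent.PairCorr.P6

open MeasureTheory Filter Topology Set
open scoped ArithmeticFunction.vonMangoldt

/-- the Laplace transform on `(0,∞)`. -/
noncomputable def Lpl (f : ℝ → ℝ) (s : ℂ) : ℂ :=
  ∫ v in Ioi (0:ℝ), (f v : ℂ) * Complex.exp (-(s * v))

lemma norm_Lpl_integrand (f : ℝ → ℝ) (s : ℂ) (v : ℝ) :
    ‖(f v : ℂ) * Complex.exp (-(s * v))‖ = |f v| * Real.exp (-(s.re * v)) := by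
  rw [norm_mul, Complex.norm_real, Real.norm_eq_abs, Complex.norm_exp]
  simp

lemma Lpl_integrable {f : ℝ → ℝ} (hm : Measurable f) {s : ℂ}
    (hi : IntegrableOn (fun v => |f v| * Real.exp (-(s.re * v))) (Ioi 0)) :
    IntegrableOn (fun v => (f v : ℂ) * Complex.exp (-(s * v))) (Ioi 0) := by
  refine Integrable.mono' hi ?_ ?_
  · have : Measurable fun v : ℝ => (f v : ℂ) * Complex.exp (-(s * v)) := by fun_prop
    exact this.aestronglyMeasurable
  · exact Eventually.of_forall fun v => (norm_Lpl_integrand f s v).le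

lemma Lpl_differentiable {f : ℝ → ℝ} (hm : Measurable f) {σ₀ : ℝ}
    (hi : ∀ σ > σ₀, IntegrableOn (fun v => |f v| * Real.exp (-(σ * v))) (Ioi 0)) {s : ℂ}
    (hs : σ₀ < s.re) : DifferentiableAt ℂ (Lpl f) s := by
  set η : ℝ := (s.re - σ₀) / 4 with hη
  have hη0 : 0 < η := by rw [hη]; linarith
  set σ : ℝ := s.re - 2 * η with hσ
  have hσ1 : σ₀ < σ := by rw [hσ, hη]; linarith
  have hd := hasDerivAt_integral_of_dominated_loc_of_deriv_le (𝕜 := ℂ)
    (μ := volume.restrict (Ioi (0:ℝ))) (s := Metric.ball s η) (x₀ := s)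
    (F := fun (s : ℂ) (v : ℝ) => (f v : ℂ) * Complex.exp (-(s * v)))
    (F' := fun (s : ℂ) (v : ℝ) => (f v : ℂ) * (Complex.exp (-(s * v)) * -(v : ℂ)))
    (bound := fun v => η⁻¹ * (|f v| * Real.exp (-(σ * v))))
    (Metric.ball_mem_nhds s hη0) ?_ ?_ ?_ ?_ ?_ ?_
  · exact hd.2.differentiableAt
  · refine Eventually.of_forall fun z => ?_
    have : Measurable fun v : ℝ => (f v : ℂ) * Complex.exp (-(z * v)) := by fun_prop
    exact this.aestronglyMeasurable
  · exact Lpl_integrable hm (hi s.re hs)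
  · have : Measurable fun v : ℝ => (f v : ℂ) * (Complex.exp (-(s * v)) * -(v : ℂ)) := by fun_prop
    exact this.aestronglyMeasurable
  · filter_upwards [ae_restrict_mem measurableSet_Ioi] with v hv z hz
    have hv0 : 0 < v := hv
    rw [norm_mul, norm_mul, Complex.norm_real, Real.norm_eq_abs, Complex.norm_exp, norm_neg,
      Complex.norm_real, Real.norm_of_nonneg hv0.le]
    have hre : (-(z * (v:ℂ))).re = -(z.re * v) := by simp
    rw [hre]
    have hz1 : s.re - η ≤ z.re := by
      have := Complex.abs_re_le_norm (z - s)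
      rw [Metric.mem_ball, dist_eq_norm] at hz
      have h2 := abs_le.1 (this.trans hz.le)
      simp only [Complex.sub_re] at h2
      linarith [h2.1]
    have hve : v ≤ η⁻¹ * Real.exp (η * v) := by
      have := Real.add_one_le_exp (η * v)
      rw [← div_eq_inv_mul, le_div_iff₀ hη0]
      linarith
    calc |f v| * (Real.exp (-(z.re * v)) * v)
        ≤ |f v| * (Real.exp (-((s.re - η) * v)) * (η⁻¹ * Real.exp (η * v))) := by
          gcongr
      _ = η⁻¹ * (|f v| * (Real.exp (-((s.re - η) * v)) * Real.exp (η * v))) := by ring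
      _ = η⁻¹ * (|f v| * Real.exp (-(σ * v))) := by
          rw [← Real.exp_add, hσ]; ring_nf
  · exact (hi σ hσ1).const_mul _
  · refine Eventually.of_forall fun v z _ => ?_
    have h1 : HasDerivAt (fun z : ℂ => -(z * (v:ℂ))) (-(v:ℂ)) z := by
      simpa using ((hasDerivAt_id' z).mul_const (v:ℂ)).fun_neg
    exact (h1.cexp).const_mul _

lemma exp_int {σ : ℝ} (hσ : 1 < σ) : IntegrableOn (fun v : ℝ => 7 * Real.exp v * Real.exp (-(σ * v))) (Ioi 0) := by
  have h : IntegrableOn (fun v : ℝ => 7 * Real.exp (-(σ - 1) * v)) (Ioi 0) :=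
    (integrableOn_exp_mul_Ioi (a := -(σ - 1)) (by linarith) 0).const_mul 7
  refine h.congr_fun (fun v _ => ?_) measurableSet_Ioi
  simp only
  rw [mul_assoc, ← Real.exp_add]
  ring_nf

lemma MM_integrable {σ : ℝ} (hσ : 1 < σ) :
    IntegrableOn (fun v => |MM v| * Real.exp (-(σ * v))) (Ioi 0) := by
  refine Integrable.mono' (exp_int hσ) ?_ ?_
  · exact ((MM_measurable.abs).mul (by fun_prop)).aestronglyMeasurable
  · refine Eventually.of_forall fun v => ?_
    rw [Real.norm_of_nonneg (by positivity)]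
    have := abs_MM_le v
    gcongr

/-- change of variables `x = e^v`. -/
lemma integral_Ioi_one_exp (g : ℝ → ℂ) :
    ∫ x in Ioi (1:ℝ), g x = ∫ v in Ioi (0:ℝ), (Real.exp v : ℂ) * g (Real.exp v) := by
  have himg : Real.exp '' (Ioi 0) = Ioi 1 := by
    ext x
    constructor
    · rintro ⟨v, hv, rfl⟩
      exact Real.one_lt_exp_iff.2 hv
    · intro hx
      have hx1 : (1:ℝ) < x := hx
      exact ⟨Real.log x, Real.log_pos hx1, Real.exp_log (by linarith)⟩
  rw [← himg, integral_image_eq_integral_abs_deriv_smul measurableSet_Ioi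
    (fun x _ => (Real.hasDerivAt_exp x).hasDerivWithinAt) (Real.exp_injective.injOn)]
  refine setIntegral_congr_fun measurableSet_Ioi fun v _ => ?_
  rw [abs_of_pos (Real.exp_pos v), Complex.real_smul]

lemma Lpl_MM {s : ℂ} (hs : 1 < s.re) :
    s * Lpl MM s * riemannZeta₁ s = - deriv riemannZeta₁ s - riemannZeta₁ s := by
  have hs1 : s ≠ 1 := by rintro rfl; simp at hs
  have hs0 : s ≠ 0 := by rintro rfl; simp at hs; linarith
  have hs1' : s - 1 ≠ 0 := sub_ne_zero.2 hs1
  -- Dirichlet series
  have hO : (fun n : ℕ => ∑ k ∈ Finset.Icc 1 n, Λ k) =O[atTop] fun n : ℕ => (n : ℝ) ^ (1:ℝ) := by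
    refine Asymptotics.IsBigO.of_bound 7 (Eventually.of_forall fun n => ?_)
    have h1 : ∑ k ∈ Finset.Icc 1 n, Λ k = Chebyshev.psi n := by
      rw [Chebyshev.psi, Nat.floor_natCast]
      congr 1
    rw [h1, Real.norm_of_nonneg (Chebyshev.psi_nonneg _), Real.rpow_one,
      Real.norm_of_nonneg (Nat.cast_nonneg n)]
    exact psi_le_seven (Nat.cast_nonneg n)
  have hL := LSeries_eq_mul_integral_of_nonneg (fun n : ℕ => Λ n) (r := 1) zero_le_one hs hO
    (fun n => ArithmeticFunction.vonMangoldt_nonneg)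
  have hLz := ArithmeticFunction.LSeries_vonMangoldt_eq_deriv_riemannZeta_div hs
  have hint : ∫ t in Ioi (1 : ℝ), (∑ k ∈ Finset.Icc 1 ⌊t⌋₊, ((Λ k : ℝ) : ℂ)) * (t:ℂ) ^ (-(s + 1)) =
      Lpl (fun v => Chebyshev.psi (Real.exp v)) s := by
    rw [integral_Ioi_one_exp]
    unfold Lpl
    refine setIntegral_congr_fun measurableSet_Ioi fun v _ => ?_
    simp only
    have h1 : (∑ k ∈ Finset.Icc 1 ⌊Real.exp v⌋₊, ((Λ k : ℝ) : ℂ)) =
        ((Chebyshev.psi (Real.exp v) : ℝ) : ℂ) := by
      rw [Chebyshev.psi, ← Complex.ofReal_sum]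
      congr 1
    rw [h1]
    have h2 : ((Real.exp v : ℝ) : ℂ) ^ (-(s + 1)) = Complex.exp (-(s * v)) * Complex.exp (-v) := by
      rw [Complex.cpow_def_of_ne_zero (by exact_mod_cast (Real.exp_pos v).ne'), ← Complex.ofReal_log
        (Real.exp_pos v).le, Real.log_exp, ← Complex.exp_add]
      congr 1; ring
    rw [h2, Complex.ofReal_exp]
    have h3 : Complex.exp (v:ℂ) * Complex.exp (-(v:ℂ)) = 1 := by
      rw [← Complex.exp_add]; simp
    linear_combination ((Chebyshev.psi (Real.exp v) : ℝ) : ℂ) * Complex.exp (-(s * v)) * h3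
  have hpsi : s * Lpl (fun v => Chebyshev.psi (Real.exp v)) s = - deriv riemannZeta s / riemannZeta s := by
    rw [← hLz, ← hint]
    exact hL.symm
  -- the exponential
  have hexp : ∫ v in Ioi (0:ℝ), ((Real.exp v : ℝ) : ℂ) * Complex.exp (-(s * v)) = 1 / (s - 1) := by
    have h1 := integral_exp_mul_complex_Ioi (a := -(s - 1)) (by simp; linarith) 0
    rw [Complex.ofReal_zero, mul_zero, Complex.exp_zero] at h1
    have h2 : ∀ v ∈ Ioi (0:ℝ), ((Real.exp v : ℝ) : ℂ) * Complex.exp (-(s * v)) =
        Complex.exp (-(s - 1) * v) := by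
      intro v _
      rw [Complex.ofReal_exp, ← Complex.exp_add]; congr 1; ring
    rw [setIntegral_congr_fun measurableSet_Ioi h2, h1]
    field_simp
  have hsub : Lpl MM s = Lpl (fun v => Chebyshev.psi (Real.exp v)) s - 1 / (s - 1) := by
    rw [← hexp]
    unfold Lpl
    rw [← integral_sub]
    · refine setIntegral_congr_fun measurableSet_Ioi fun v _ => ?_
      simp only [MM]
      push_cast; ring
    · have hm : Measurable fun v => Chebyshev.psi (Real.exp v) :=
        Chebyshev.psi_mono.measurable.comp Real.measurable_exp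
      refine Lpl_integrable hm ?_
      refine Integrable.mono' (exp_int hs) ((hm.abs.mul (by fun_prop)).aestronglyMeasurable) ?_
      refine Eventually.of_forall fun v => ?_
      rw [Real.norm_of_nonneg (by positivity), abs_of_nonneg (Chebyshev.psi_nonneg _)]
      have := psi_le_seven (Real.exp_pos v).le
      gcongr
    · refine Lpl_integrable (f := Real.exp) Real.measurable_exp ?_
      refine Integrable.mono' (exp_int hs) (by fun_prop) ?_
      refine Eventually.of_forall fun v => ?_
      rw [Real.norm_of_nonneg (by positivity), abs_of_pos (Real.exp_pos v)]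
      have := Real.exp_pos v
      gcongr
      linarith
  -- zeta in terms of zeta1
  have hz : riemannZeta s ≠ 0 := riemannZeta_ne_zero_of_one_lt_re hs
  have hz1 : riemannZeta₁ s ≠ 0 := by
    rw [zeta1_eq_mul hs1]; exact mul_ne_zero hs1' hz
  have hder : deriv riemannZeta s = deriv riemannZeta₁ s / (s - 1) - riemannZeta₁ s / (s - 1) ^ 2 := by
    have he : riemannZeta =ᶠ[𝓝 s] fun z => riemannZeta₁ z / (z - 1) := by
      filter_upwards [isOpen_ne.mem_nhds hs1] with z hz
      have hz' : z - 1 ≠ 0 := sub_ne_zero.2 hz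
      rw [zeta1_eq_mul hz]
      field_simp
    rw [he.deriv_eq]
    have h1 : HasDerivAt riemannZeta₁ (deriv riemannZeta₁ s) s :=
      (differentiable_riemannZeta₁ s).hasDerivAt
    have h2 : HasDerivAt (fun z : ℂ => z - 1) 1 s := (hasDerivAt_id s).sub_const 1
    have h3 := h1.fun_div h2 hs1'
    rw [h3.deriv]
    field_simp
  have hzz : riemannZeta s = riemannZeta₁ s / (s - 1) := by
    rw [zeta1_eq_mul hs1]; field_simp
  rw [hder, hzz] at hpsi
  rw [hsub, mul_sub, hpsi]
  field_simp
  ring

/-- the unit increment -/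
noncomputable def DM (v : ℝ) : ℝ := MM (v + 1) - MM v

lemma DM_measurable : Measurable DM :=
  (MM_measurable.comp (measurable_id.add_const 1)).sub MM_measurable

/-- `MM` restricted to `(0,1]` -/
noncomputable def M01 (v : ℝ) : ℝ := (Ioc (0:ℝ) 1).indicator MM v

lemma M01_measurable : Measurable M01 := MM_measurable.indicator measurableSet_Ioc

lemma M01_integrable (σ : ℝ) : IntegrableOn (fun v => |M01 v| * Real.exp (-(σ * v))) (Ioi 0) := by
  have h1 : IntegrableOn (fun v => |MM v| * Real.exp (-(σ * v))) (Ioc 0 1) := by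
    have := ii_of_bdd (f := fun v => |MM v| * Real.exp (-(σ * v))) (a := 0) (b := 1)
      (C := 7 * Real.exp 1 * Real.exp |σ|) ((MM_measurable.abs).mul (by fun_prop)) ?_
    · exact (intervalIntegrable_iff_integrableOn_Ioc_of_le zero_le_one).1 this
    · intro x hx
      rw [uIoc_of_le zero_le_one] at hx
      rw [abs_mul, abs_abs, abs_of_pos (Real.exp_pos _)]
      have h2 := abs_MM_le x
      have h3 : Real.exp x ≤ Real.exp 1 := Real.exp_le_exp.2 hx.2
      have h4 : Real.exp (-(σ * x)) ≤ Real.exp |σ| := by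
        apply Real.exp_le_exp.2
        have h5 : -(σ * x) ≤ |σ * x| := neg_le_abs _
        rw [abs_mul, abs_of_pos hx.1] at h5
        nlinarith [abs_nonneg σ, hx.2]
      have h6 : |MM x| ≤ 7 * Real.exp 1 := by linarith
      gcongr
  have h2 : (fun v => |M01 v| * Real.exp (-(σ * v))) =
      (Ioc (0:ℝ) 1).indicator (fun v => |MM v| * Real.exp (-(σ * v))) := by
    funext v
    unfold M01
    by_cases hv : v ∈ Ioc (0:ℝ) 1
    · rw [indicator_of_mem hv, indicator_of_mem hv]
    · rw [indicator_of_notMem hv, indicator_of_notMem hv]; simp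
  rw [h2]
  exact ((integrable_indicator_iff measurableSet_Ioc).2 h1).integrableOn

lemma Lpl_DM {s : ℂ} (hs : 1 < s.re) :
    Lpl DM s = (Complex.exp s - 1) * Lpl MM s - Complex.exp s * Lpl M01 s := by
  have hi := Lpl_integrable MM_measurable (s := s) (MM_integrable hs)
  have e1 : ∫ v in Ioi (0:ℝ), ((MM (v + 1) : ℝ) : ℂ) * Complex.exp (-(s * v)) =
      Complex.exp s * ∫ v in Ioi (1:ℝ), ((MM v : ℝ) : ℂ) * Complex.exp (-(s * v)) := by
    rw [← integral_const_mul, ← integral_indicator measurableSet_Ioi,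
      ← integral_indicator measurableSet_Ioi]
    conv_rhs => rw [← integral_add_right_eq_self _ (1:ℝ)]
    refine integral_congr_ae (Eventually.of_forall fun v => ?_)
    simp only [indicator, mem_Ioi]
    by_cases hv : 0 < v
    · rw [if_pos hv, if_pos (by linarith)]
      push_cast
      have : Complex.exp s * Complex.exp (-(s * (v + 1))) = Complex.exp (-(s * v)) := by
        rw [← Complex.exp_add]; congr 1; ring
      linear_combination (-((MM (v + 1) : ℝ) : ℂ)) * this
    · rw [if_neg hv, if_neg (by linarith)]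
  have hi1 : IntegrableOn (fun v => ((MM v : ℝ) : ℂ) * Complex.exp (-(s * v))) (Ioi 1) :=
    hi.mono_set (Ioi_subset_Ioi zero_le_one)
  have hi0 : IntegrableOn (fun v => ((MM v : ℝ) : ℂ) * Complex.exp (-(s * v))) (Ioc 0 1) :=
    hi.mono_set Ioc_subset_Ioi_self
  have e2 : ∫ v in Ioi (0:ℝ), ((MM v : ℝ) : ℂ) * Complex.exp (-(s * v)) =
      (∫ v in Ioc (0:ℝ) 1, ((MM v : ℝ) : ℂ) * Complex.exp (-(s * v))) +
      ∫ v in Ioi (1:ℝ), ((MM v : ℝ) : ℂ) * Complex.exp (-(s * v)) := by
    rw [← setIntegral_union (Set.Ioc_disjoint_Ioi le_rfl) measurableSet_Ioi hi0 hi1,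
      Ioc_union_Ioi_eq_Ioi zero_le_one]
  have e3 : Lpl M01 s = ∫ v in Ioc (0:ℝ) 1, ((MM v : ℝ) : ℂ) * Complex.exp (-(s * v)) := by
    unfold Lpl
    rw [← integral_indicator measurableSet_Ioi, ← integral_indicator measurableSet_Ioc]
    refine integral_congr_ae (Eventually.of_forall fun v => ?_)
    simp only [indicator, mem_Ioi, mem_Ioc, M01]
    by_cases hv : 0 < v ∧ v ≤ 1
    · rw [if_pos hv.1, if_pos hv, if_pos hv]
    · rw [if_neg hv, if_neg hv]; simp
  have hi2 : IntegrableOn (fun v => ((MM (v + 1) : ℝ) : ℂ) * Complex.exp (-(s * v))) (Ioi 0) := by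
    have hm : Measurable fun v => MM (v + 1) := MM_measurable.comp (measurable_id.add_const 1)
    refine Lpl_integrable hm ?_
    refine Integrable.mono' ((exp_int hs).const_mul (Real.exp 1))
      ((hm.abs.mul (by fun_prop)).aestronglyMeasurable) ?_
    refine Eventually.of_forall fun v => ?_
    rw [Real.norm_of_nonneg (by positivity)]
    have h1 := abs_MM_le (v + 1)
    rw [Real.exp_add] at h1
    calc |MM (v + 1)| * Real.exp (-(s.re * v))
        ≤ 7 * (Real.exp v * Real.exp 1) * Real.exp (-(s.re * v)) := by gcongr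
      _ = _ := by ring
  have e4 : Lpl DM s = (∫ v in Ioi (0:ℝ), ((MM (v + 1) : ℝ) : ℂ) * Complex.exp (-(s * v))) -
      Lpl MM s := by
    unfold Lpl
    rw [← integral_sub hi2 hi]
    refine setIntegral_congr_fun measurableSet_Ioi fun v _ => ?_
    simp only [DM]
    push_cast; ring
  rw [e4, e1]
  have e5 : Lpl MM s = Lpl M01 s +
      ∫ v in Ioi (1:ℝ), ((MM v : ℝ) : ℂ) * Complex.exp (-(s * v)) := by
    rw [e3]; exact e2
  linear_combination (-Complex.exp s) * e5

/-- the analytic relation -/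
lemma relation (h : WinO) : ∀ s : ℂ, 1 / 2 < s.re →
    deriv riemannZeta₁ s * (Complex.exp s - 1) + riemannZeta₁ s *
      (s * (Lpl DM s + Complex.exp s * Lpl M01 s) + (Complex.exp s - 1)) = 0 := by
  set H : Set ℂ := {s : ℂ | 1 / 2 < s.re} with hH
  have hHo : IsOpen H := isOpen_lt continuous_const Complex.continuous_re
  have hHc : IsPreconnected H := (convex_halfSpace_re_gt (1 / 2)).isPreconnected
  set B : ℂ → ℂ := fun s => deriv riemannZeta₁ s * (Complex.exp s - 1) + riemannZeta₁ s *
      (s * (Lpl DM s + Complex.exp s * Lpl M01 s) + (Complex.exp s - 1)) with hB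
  have hz1 := differentiable_riemannZeta₁
  have hz1' : Differentiable ℂ (deriv riemannZeta₁) := by
    intro s
    exact ((hz1.analyticAt s).deriv).differentiableAt
  have hBd : DifferentiableOn ℂ B H := by
    intro s hs
    apply DifferentiableAt.differentiableWithinAt
    have d1 : DifferentiableAt ℂ (Lpl DM) s :=
      Lpl_differentiable DM_measurable (fun σ hσ => abs_integrable h hσ) hs
    have d2 : DifferentiableAt ℂ (Lpl M01) s :=
      Lpl_differentiable M01_measurable (σ₀ := 1 / 2) (fun σ _ => M01_integrable σ) hs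
    have d3 := hz1 s
    have d4 := hz1' s
    have d5 : DifferentiableAt ℂ Complex.exp s := Complex.differentiable_exp s
    exact (d4.mul (d5.sub_const 1)).add (d3.mul ((differentiableAt_id.mul
      (d1.add (d5.mul d2))).add (d5.sub_const 1)))
  have hBa : AnalyticOnNhd ℂ B H := hBd.analyticOnNhd hHo
  have h2 : B =ᶠ[𝓝 (2:ℂ)] 0 := by
    have ho : IsOpen {s : ℂ | 1 < s.re} := isOpen_lt continuous_const Complex.continuous_re
    filter_upwards [ho.mem_nhds (show (1:ℝ) < (2:ℂ).re by norm_num)] with s hs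
    have hs' : 1 < s.re := hs
    simp only [hB, Pi.zero_apply]
    have e1 := Lpl_DM hs'
    have e2 := Lpl_MM hs'
    rw [e1]
    linear_combination (Complex.exp s - 1) * e2
  have := hBa.eqOn_zero_of_preconnected_of_eventuallyEq_zero hHc
    (show (2:ℂ) ∈ H by simp only [hH, mem_ofPred_eq]; norm_num) h2
  intro s hs
  exact this hs

/-- no zeros to the right of the critical line -/
theorem no_zero (h : WinO) {ρ : ℂ} (hρ : 1 / 2 < ρ.re) : riemannZeta₁ ρ ≠ 0 := by
  intro h0
  have hz1 := differentiable_riemannZeta₁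
  have ha : AnalyticAt ℂ riemannZeta₁ ρ := hz1.analyticAt ρ
  -- finite order
  have hne : analyticOrderAt riemannZeta₁ ρ ≠ ⊤ := by
    intro htop
    rw [analyticOrderAt_eq_top] at htop
    have h1 : AnalyticOnNhd ℂ riemannZeta₁ univ := fun z _ => hz1.analyticAt z
    have h2 := h1.eqOn_zero_of_preconnected_of_eventuallyEq_zero isPreconnected_univ
      (mem_univ ρ) htop
    have h3 := h2 (mem_univ 1)
    rw [riemannZeta₁_one] at h3
    simp at h3
  set H : ℂ → ℂ := fun s => s * (Lpl DM s + Complex.exp s * Lpl M01 s) + (Complex.exp s - 1) with hH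
  have hHo : IsOpen {s : ℂ | 1 / 2 < s.re} := isOpen_lt continuous_const Complex.continuous_re
  have hHa : AnalyticAt ℂ H ρ := by
    have hd : DifferentiableOn ℂ H {s : ℂ | 1 / 2 < s.re} := by
      intro s hs
      apply DifferentiableAt.differentiableWithinAt
      have d1 : DifferentiableAt ℂ (Lpl DM) s :=
        Lpl_differentiable DM_measurable (fun σ hσ => abs_integrable h hσ) hs
      have d2 : DifferentiableAt ℂ (Lpl M01) s :=
        Lpl_differentiable M01_measurable (σ₀ := 1 / 2) (fun σ _ => M01_integrable σ) hs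
      have d5 : DifferentiableAt ℂ Complex.exp s := Complex.differentiable_exp s
      exact (differentiableAt_id.mul (d1.add (d5.mul d2))).add (d5.sub_const 1)
    exact hd.analyticAt (hHo.mem_nhds hρ)
  have hE : AnalyticAt ℂ (fun s => Complex.exp s - 1) ρ := by
    have : Differentiable ℂ (fun s : ℂ => Complex.exp s - 1) := by fun_prop
    exact this.analyticAt ρ
  have hEne : Complex.exp ρ - 1 ≠ 0 := by
    intro he
    have h1 : ‖Complex.exp ρ‖ = 1 := by
      rw [sub_eq_zero.1 he]; simp
    rw [Complex.norm_exp, Real.exp_eq_one_iff] at h1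
    linarith
  have hrel : (fun s => deriv riemannZeta₁ s * (Complex.exp s - 1)) =ᶠ[𝓝 ρ]
      fun s => - (riemannZeta₁ s * H s) := by
    filter_upwards [hHo.mem_nhds hρ] with s hs
    have := relation h s hs
    simp only [hH]
    linear_combination this
  have ho := analyticOrderAt_congr hrel
  have e1 : analyticOrderAt (fun s => deriv riemannZeta₁ s * (Complex.exp s - 1)) ρ =
      analyticOrderAt (deriv riemannZeta₁) ρ := by
    have := analyticOrderAt_mul ha.deriv hE
    have h3 : analyticOrderAt (fun s => Complex.exp s - 1) ρ = 0 := by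
      rw [hE.analyticOrderAt_eq_zero]; exact hEne
    rw [h3, add_zero] at this
    exact this
  have e2 : analyticOrderAt riemannZeta₁ ρ ≤ analyticOrderAt (fun s => - (riemannZeta₁ s * H s)) ρ := by
    have h4 : (fun s => - (riemannZeta₁ s * H s)) = riemannZeta₁ * (fun s => - H s) := by
      funext s; simp
    have hHn : AnalyticAt ℂ (fun s => - H s) ρ := hHa.neg
    rw [h4, analyticOrderAt_mul ha hHn]
    exact le_self_add
  have e3 := ha.analyticOrderAt_deriv_add_one
  rw [h0] at e3
  simp only [sub_zero] at e3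
  rw [← ho, e1] at e2
  -- order + 1 = order' ≤ order
  obtain ⟨n, hn⟩ := ENat.ne_top_iff_exists.1 hne
  have hn' : analyticOrderAt riemannZeta₁ ρ = n := hn.symm
  have hd : analyticOrderAt (deriv riemannZeta₁) ρ ≠ ⊤ := by
    intro ht
    rw [ht] at e3
    rw [← e3] at hn'
    simp at hn'
  obtain ⟨m, hm⟩ := ENat.ne_top_iff_exists.1 hd
  rw [← hm, hn'] at e3 e2
  have h5 : m + 1 = n := by exact_mod_cast e3
  have h6 : n ≤ m := by exact_mod_cast e2
  omega

/-- all nontrivial zeros are on the critical line -/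
theorem re_half (h : WinO) {ρ : ℂ} (hρ : ρ ∈ NTZ) : ρ.re = 1 / 2 := by
  have key : ∀ z ∈ NTZ, ¬ 1 / 2 < z.re := by
    intro z hz hz2
    apply no_zero h hz2
    rw [zeta1_eq_mul (ne_one_of_mem_NTZ hz), hz.1, mul_zero]
  have h1 := key ρ hρ
  have h2 := key (1 - ρ) (one_sub_mem_NTZ hρ)
  simp only [Complex.sub_re, Complex.one_re] at h2
  linarith

end Pool.Agent.PairCorr.P6
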