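import Mathlib
import Pool.Agent.PairCorr.P6_Levy3
import Pool.Agent.PairCorr.P6_RH

set_option autoImplicit false

namespace Pool.Agent.PairCorr.P6

open MeasureTheory Filter Topology Set Real
open scoped ENNReal ComplexConjugate

/-- from the counts to the windows -/
theorem WinLim_of_counts (hR : RHz) (hL : ∀ a > 0, Tendsto (fun T => Lr T a) atTop (𝓝 (gue a))) : WinLim := by
  have hM : Tendsto Mr atTop (𝓝 1) := by
    apply Mr_tendsto le_rfl
    intro η hη
    refine ⟨1, fun a ha => ?_⟩
    exact ((hL a (by linarith)).eventually_const_lt (show gue a - η < gue a by linarith)).mono fun _ h => h.le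
  apply WinLim_of_PF hR
  intro k b hk hev
  have h1 := PF_of_Spair0 hk (Spair0_of_counts hM hL hk hev) near_kap T_kap
  rwa [one_mul] at h1

/-- the one-sided bound implies the Riemann Hypothesis -/
theorem WinO_of_UB (hW : WinUB) : WinO := by
  intro α β hα hαβ
  obtain ⟨T₀, hT₀⟩ := eventually_atTop.1 (hW α β hα hαβ 1 one_pos)
  refine ⟨β - α + 1, max T₀ (Real.exp 1), fun T hT => ?_⟩
  have h1 := hT₀ T ((le_max_left _ _).trans hT)
  have hTe : Real.exp 1 ≤ T := (le_max_right _ _).trans hT
  have hT0 : 0 < T := (Real.exp_pos 1).trans_le hTe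
  have hL1 : 1 ≤ Real.log T := by rw [Real.le_log_iff_exp_le hT0]; exact hTe
  have hL0 : 0 < Real.log T := by linarith
  unfold Win at h1
  rw [← le_div_iff₀' (by positivity)] at h1
  refine h1.trans (le_of_eq ?_)
  field_simp

theorem main_tfae : [RHz ∧ ∀ a > 0, Tendsto (fun T => Lr T a) atTop (𝓝 (gue a)), WinUB, WinLim].TFAE := by
  tfae_have 1 → 3 := fun h => WinLim_of_counts h.1 h.2
  tfae_have 3 → 2 := fun h => by
    intro α β hα hαβ ε hε
    exact ((h α β hα hαβ).eventually_lt_const (show β - α < β - α + ε by linarith)).mono fun _ h => h.le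
  tfae_have 2 → 1 := fun h => by
    have hR : RHz := fun ρ hρ => re_half (WinO_of_UB h) hρ
    have hW := WinLim_of_UB hR h
    have hP : PFLim := fun k b hk hev => PF_of_WinLim hR hW hk hev
    exact ⟨hR, (counts_of_PFLim hP).2⟩
  tfae_finish

end Pool.Agent.PairCorr.P6
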