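import Mathlib
import Pool.Agent.PairCorr.A_Rigid
import Pool.Agent.PairCorr.PB_Moments

set_option autoImplicit false

namespace Pool.Agent.PairCorr

open MeasureTheory Filter Topology Set Real
open scoped ENNReal ComplexConjugate

/-- number of zeros (with multiplicity) at the height of `z` -/
noncomputable def mH (z : ℂ) : ℝ≥0∞ := muZ {w | z.im = w.im}

lemma measurable_mH : Measurable mH := by
  have hm : MeasurableSet {p : ℂ × ℂ | p.1.im = p.2.im} := measurableSet_eq_fun (by fun_prop) (by fun_prop)
  exact measurable_measure_prodMk_left hm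

lemma mH_le_Eg {c T t : ℝ} (hc : 0 ≤ c) (hL : 0 < Real.log T) {z : ℂ} (h : |z.im - t| ≤ 1 / Real.log T) :
    mH z ≤ Eg muZ c T t := by
  have hm : MeasurableSet {w : ℂ | z.im = w.im} := measurableSet_eq_fun (by fun_prop) (by fun_prop)
  unfold mH Eg
  rw [← lintegral_indicator_one hm]
  apply lintegral_mono
  intro w
  by_cases hw : z.im = w.im
  · rw [indicator_of_mem (show w ∈ {w : ℂ | z.im = w.im} from hw)]
    have h1 : cellInd (Real.log T) w t = 1 := by
      unfold cellInd
      rw [← hw, if_pos h]
    show (1 : ℝ≥0∞) ≤ cellInd (Real.log T) w t * ENNReal.ofReal (wgt c T w)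
    rw [h1, one_mul, ← ENNReal.ofReal_one]
    apply ENNReal.ofReal_le_ofReal
    unfold wgt
    apply Real.one_le_exp
    positivity
  · rw [indicator_of_notMem (show w ∉ {w : ℂ | z.im = w.im} from hw)]
    exact zero_le

/-- second moment of the height multiplicity -/
lemma lintegral_mH_sq : ∃ C : ℝ, 0 < C ∧ ∃ T₀ : ℝ, Real.exp 1 ≤ T₀ ∧ ∀ T : ℝ, T₀ ≤ T →
    ∫⁻ z, mH z ^ 2 ∂(muW T) ≤ ENNReal.ofReal (C * (T * Real.log T)) := by
  obtain ⟨c, hc, C, hC, T₀, hB⟩ := Pool.Agent.PC10.statementB 3
  refine ⟨C, hC, max T₀ (Real.exp 1), le_max_right _ _, fun T hT => ?_⟩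
  have hTe : Real.exp 1 ≤ T := (le_max_right _ _).trans hT
  have hT0 : 0 < T := (Real.exp_pos 1).trans_le hTe
  have hL1 : 1 ≤ Real.log T := by rw [Real.le_log_iff_exp_le hT0]; exact hTe
  have hL0 : 0 < Real.log T := by linarith
  obtain ⟨h1, h2⟩ := hB T ((le_max_left _ _).trans hT)
  have h3 := lintegral_Eg_pow h1 hT0.le h2
  set I : Set ℝ := Icc (-(3 * T)) (3 * T) with hI
  have hT1 : 1 ≤ T := by have := Real.add_one_le_exp (1:ℝ); linarith
  have key : ENNReal.ofReal (2 / Real.log T) * ∫⁻ z, mH z ^ 2 ∂(muW T) ≤ ENNReal.ofReal (C * T) := by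
    calc ENNReal.ofReal (2 / Real.log T) * ∫⁻ z, mH z ^ 2 ∂(muW T)
        = ∫⁻ z, ENNReal.ofReal (2 / Real.log T) * mH z ^ 2 ∂(muW T) := by
          rw [lintegral_const_mul' _ _ ENNReal.ofReal_ne_top]
      _ = ∫⁻ z in WT T, (∫⁻ t in I, cellInd (Real.log T) z t) * mH z ^ 2 ∂muZ := by
          unfold muW
          apply setLIntegral_congr_fun (measurableSet_WT T)
          intro z hz
          simp only
          rw [lintegral_cellInd (Real.log T) z measurableSet_Icc]
          intro t ht
          have h0 : 0 < z.im := hz.1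
          have h1 : z.im ≤ T := hz.2
          have h2 : 1 / Real.log T ≤ 1 := by rw [div_le_one hL0]; exact hL1
          rw [abs_le] at ht
          constructor <;> linarith [ht.1, ht.2]
      _ = ∫⁻ z in WT T, (∫⁻ t in I, cellInd (Real.log T) z t * mH z ^ 2) ∂muZ := by
          apply lintegral_congr
          intro z
          rw [lintegral_mul_const]
          exact (measurable_cellInd _).comp (measurable_const.prodMk measurable_id)
      _ ≤ ∫⁻ z in WT T, (∫⁻ t in I, cellInd (Real.log T) z t * Eg muZ c T t ^ 2) ∂muZ := by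
          apply lintegral_mono
          intro z
          apply lintegral_mono
          intro t
          show cellInd (Real.log T) z t * mH z ^ 2 ≤ cellInd (Real.log T) z t * Eg muZ c T t ^ 2
          by_cases h : |z.im - t| ≤ 1 / Real.log T
          · have := mH_le_Eg hc.le hL0 h
            gcongr
          · unfold cellInd
            rw [if_neg h, zero_mul, zero_mul]
      _ = ∫⁻ t in I, (∫⁻ z in WT T, cellInd (Real.log T) z t * Eg muZ c T t ^ 2 ∂muZ) := by
          apply lintegral_lintegral_swap
          apply Measurable.aemeasurable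
          exact (measurable_cellInd _).mul (((measurable_Eg muZ c T).pow_const 2).comp measurable_snd)
      _ ≤ ∫⁻ t in I, Eg muZ c T t ^ 3 := by
          apply lintegral_mono
          intro t
          have hm : Measurable (fun z => cellInd (Real.log T) z t) :=
            (measurable_cellInd _).comp (measurable_id.prodMk measurable_const)
          show ∫⁻ z in WT T, cellInd (Real.log T) z t * Eg muZ c T t ^ 2 ∂muZ ≤ _
          rw [lintegral_mul_const _ hm]
          have h4 : ∫⁻ z in WT T, cellInd (Real.log T) z t ∂muZ ≤ Eg muZ c T t := by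
            refine (setLIntegral_le_lintegral _ _).trans ?_
            unfold Eg
            apply lintegral_mono
            intro z
            have h5 : (1 : ℝ≥0∞) ≤ ENNReal.ofReal (wgt c T z) := by
              rw [← ENNReal.ofReal_one]
              apply ENNReal.ofReal_le_ofReal
              unfold wgt
              apply Real.one_le_exp
              positivity
            show cellInd (Real.log T) z t ≤ cellInd (Real.log T) z t * ENNReal.ofReal (wgt c T z)
            calc cellInd (Real.log T) z t = cellInd (Real.log T) z t * 1 := (mul_one _).symm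
              _ ≤ _ := by gcongr
          calc _ ≤ Eg muZ c T t * Eg muZ c T t ^ 2 := by gcongr
            _ = _ := by ring
      _ ≤ ENNReal.ofReal (C * T) := h3
  have h5 : ∫⁻ z, mH z ^ 2 ∂(muW T) = ENNReal.ofReal (Real.log T / 2) *
      (ENNReal.ofReal (2 / Real.log T) * ∫⁻ z, mH z ^ 2 ∂(muW T)) := by
    rw [← mul_assoc, ← ENNReal.ofReal_mul (by positivity)]
    have : Real.log T / 2 * (2 / Real.log T) = 1 := by field_simp
    rw [this, ENNReal.ofReal_one, one_mul]
  rw [h5]
  calc _ ≤ ENNReal.ofReal (Real.log T / 2) * ENNReal.ofReal (C * T) := by gcongr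
    _ = ENNReal.ofReal (Real.log T / 2 * (C * T)) := by rw [← ENNReal.ofReal_mul (by positivity)]
    _ ≤ _ := by
        apply ENNReal.ofReal_le_ofReal
        have : 0 ≤ C * T * Real.log T := by positivity
        nlinarith


/-- zeros that are multiple or off the critical line -/
def badS : Set ℂ := {z | z ∈ NTZ ∧ (z.re ≠ 1 / 2 ∨ mult z ≠ 1)}

/-- simple zeros on the critical line -/
def goodS : Set ℂ := {z | z ∈ NTZ ∧ z.re = 1 / 2 ∧ mult z = 1}

lemma badS_countable : badS.Countable := countable_NTZ.mono fun _ h => h.1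
lemma goodS_countable : goodS.Countable := countable_NTZ.mono fun _ h => h.1

/-- number of bad zeros, with multiplicity -/
noncomputable def badm (T : ℝ) : ℝ := ((muW T) badS).toReal

lemma nu_E_eq (T : ℝ) : (nu T) {p | p.1.im = p.2.im} = ∫⁻ z, mH z ∂(muW T) := by
  have hmE : MeasurableSet {p : ℂ × ℂ | p.1.im = p.2.im} := measurableSet_eq_fun (by fun_prop) (by fun_prop)
  unfold nu
  rw [Measure.prod_apply hmE]
  rfl

lemma good_union_bad_ae (T : ℝ) : ∀ᵐ z ∂(muW T), z ∈ goodS ∪ badS := by
  have hae : ∀ᵐ z ∂(muW T), z ∈ NTZ := ae_restrict_of_ae muZ_ae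
  filter_upwards [hae] with z hz
  by_cases h : z.re = 1/2 ∧ mult z = 1
  · exact Or.inl ⟨hz, h⟩
  · refine Or.inr ⟨hz, ?_⟩
    by_contra hcon
    push Not at hcon
    exact h hcon

lemma good_disjoint_bad : Disjoint goodS badS := by
  rw [Set.disjoint_left]
  rintro z ⟨_, h1, h2⟩ ⟨_, h3⟩
  rcases h3 with h3 | h3
  · exact h3 h1
  · exact h3 h2

lemma muW_split (T : ℝ) (f : ℂ → ℝ≥0∞) :
    ∫⁻ z, f z ∂(muW T) = (∫⁻ z in goodS, f z ∂(muW T)) + ∫⁻ z in badS, f z ∂(muW T) := by
  rw [← lintegral_union badS_countable.measurableSet good_disjoint_bad]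
  symm
  rw [← lintegral_indicator (goodS_countable.measurableSet.union badS_countable.measurableSet)]
  apply lintegral_congr_ae
  filter_upwards [good_union_bad_ae T] with z hz
  rw [indicator_of_mem hz]

lemma muZ_singleton {z : ℂ} (hz : z ∈ NTZ) : muZ {z} = mult z := by
  rw [muZ_apply, tsum_eq_single ⟨z, hz⟩]
  · simp
  · intro ρ hρ
    have : (ρ : ℂ) ≠ z := fun h => hρ (Subtype.ext h)
    rw [indicator_of_notMem (by simpa using this), mul_zero]

lemma mH_good_le {z : ℂ} (hz : z ∈ goodS) : mH z ≤ 1 + muZ ({w | z.im = w.im} ∩ badS) := by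
  have h1 : mH z ≤ muZ ({z} ∪ ({w | z.im = w.im} ∩ badS)) := by
    unfold mH
    apply measure_mono_ae
    filter_upwards [muZ_ae] with w hw hwz
    have hwz' : z.im = w.im := hwz
    by_cases hb : w ∈ badS
    · exact Or.inr ⟨hwz', hb⟩
    · left
      have h2 : w.re = 1/2 := by
        by_contra h3
        exact hb ⟨hw, Or.inl h3⟩
      show w = z
      apply Complex.ext
      · rw [h2, hz.2.1]
      · exact hwz'.symm
  refine h1.trans ((measure_union_le _ _).trans ?_)
  rw [muZ_singleton hz.1, hz.2.2]
  simp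

lemma lintegral_good_le (T : ℝ) : ∫⁻ z in goodS, mH z ∂(muW T) ≤
    (muW T) goodS + ∫⁻ z in badS, mH z ∂(muW T) := by
  have hmg := goodS_countable.measurableSet
  have hmb := badS_countable.measurableSet
  have hmW := measurableSet_WT T
  calc ∫⁻ z in goodS, mH z ∂(muW T) ≤ ∫⁻ z in goodS, (1 + muZ ({w | z.im = w.im} ∩ badS)) ∂(muW T) :=
        setLIntegral_mono' hmg fun z hz => mH_good_le hz
    _ = (muW T) goodS + ∫⁻ z in goodS, muZ ({w | z.im = w.im} ∩ badS) ∂(muW T) := by
        rw [lintegral_add_left measurable_const, lintegral_const, one_mul, Measure.restrict_apply_univ]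
    _ ≤ (muW T) goodS + ∫⁻ z, muZ ({w | z.im = w.im} ∩ badS) ∂(muW T) :=
        add_le_add le_rfl (setLIntegral_le_lintegral _ _)
    _ ≤ (muW T) goodS + ∫⁻ z in badS, mH z ∂(muW T) := by
        refine add_le_add le_rfl ?_
        -- swap
        set A : Set (ℂ × ℂ) := {p | p.1 ∈ WT T ∧ p.2 ∈ badS ∧ p.1.im = p.2.im} with hA
        have hmA : MeasurableSet A := by
          have h1 : MeasurableSet {p : ℂ × ℂ | p.1.im = p.2.im} := measurableSet_eq_fun (by fun_prop) (by fun_prop)
          exact (measurable_fst hmW).inter ((measurable_snd hmb).inter h1)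
        have e1 : ∫⁻ z, muZ ({w | z.im = w.im} ∩ badS) ∂(muW T) = (muZ.prod muZ) A := by
          rw [Measure.prod_apply hmA]
          unfold muW
          rw [← lintegral_indicator hmW]
          apply lintegral_congr
          intro z
          by_cases hz : z ∈ WT T
          · rw [indicator_of_mem hz]
            congr 1
            ext w
            constructor
            · rintro ⟨h1, h2⟩; exact ⟨hz, h2, h1⟩
            · rintro ⟨_, h2, h3⟩; exact ⟨h3, h2⟩
          · rw [indicator_of_notMem hz]
            symm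
            have : Prod.mk z ⁻¹' A = ∅ := by
              ext w
              constructor
              · rintro ⟨h1, _⟩; exact absurd h1 hz
              · intro h; exact absurd h (notMem_empty _)
            rw [this, measure_empty]
        have e2 : ∫⁻ z in badS, mH z ∂(muW T) = ∫⁻ z, (badS ∩ WT T).indicator mH z ∂muZ := by
          unfold muW
          rw [Measure.restrict_restrict hmb, ← lintegral_indicator (hmb.inter hmW)]
        rw [e1, e2, Measure.prod_apply_symm hmA]
        apply lintegral_mono
        intro w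
        by_cases hw : w ∈ badS ∩ WT T
        · rw [indicator_of_mem hw]
          unfold mH
          apply measure_mono
          rintro z ⟨_, _, h3⟩
          exact (show z.im = w.im from h3).symm
        · rw [indicator_of_notMem hw]
          show muZ ((fun z => (z, w)) ⁻¹' A) ≤ 0
          have : (fun z => (z, w)) ⁻¹' A = ∅ := by
            ext z
            constructor
            · rintro ⟨h1, h2, h3⟩
              exfalso
              apply hw
              refine ⟨h2, ?_⟩
              have h3' : z.im = w.im := h3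
              exact ⟨by rw [← h3']; exact h1.1, by rw [← h3']; exact h1.2⟩
            · intro h; exact absurd h (notMem_empty _)
          rw [this, measure_empty]

lemma diag_le : ∃ C : ℝ, 0 < C ∧ ∃ T₀ : ℝ, Real.exp 1 ≤ T₀ ∧ ∀ T : ℝ, T₀ ≤ T → ∀ K : ℝ, 0 < K →
    ((nu T) {p | p.1.im = p.2.im}).toReal ≤ NCount T + 2 * (K * badm T + C / K * (T * Real.log T)) := by
  obtain ⟨C, hC, T₀, hT₀, h⟩ := lintegral_mH_sq
  refine ⟨C, hC, T₀, hT₀, fun T hT K hK => ?_⟩
  have hTe : Real.exp 1 ≤ T := hT₀.trans hT
  have hT0 : 0 < T := (Real.exp_pos 1).trans_le hTe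
  have hL1 : 1 ≤ Real.log T := by rw [Real.le_log_iff_exp_le hT0]; exact hTe
  have hmb := badS_countable.measurableSet
  have hK' : ENNReal.ofReal K * ENNReal.ofReal (1 / K) = 1 := by
    rw [← ENNReal.ofReal_mul hK.le, mul_one_div_cancel hK.ne', ENNReal.ofReal_one]
  have h1 : ∫⁻ z in badS, mH z ∂(muW T) ≤ ENNReal.ofReal K * (muW T) badS +
      ENNReal.ofReal (1 / K) * ENNReal.ofReal (C * (T * Real.log T)) := by
    calc ∫⁻ z in badS, mH z ∂(muW T) ≤ ∫⁻ z in badS, (ENNReal.ofReal K + ENNReal.ofReal (1 / K) * mH z ^ 2) ∂(muW T) := by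
          apply lintegral_mono
          intro z
          show mH z ≤ ENNReal.ofReal K + ENNReal.ofReal (1 / K) * mH z ^ 2
          rcases le_total (mH z) (ENNReal.ofReal K) with h2 | h2
          · exact h2.trans le_self_add
          · refine le_trans ?_ le_add_self
            calc mH z = (ENNReal.ofReal K * ENNReal.ofReal (1 / K)) * mH z := by rw [hK', one_mul]
              _ = ENNReal.ofReal (1 / K) * (ENNReal.ofReal K * mH z) := by ring
              _ ≤ ENNReal.ofReal (1 / K) * (mH z * mH z) := by gcongr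
              _ = _ := by rw [sq]
      _ = ENNReal.ofReal K * (muW T) badS + ENNReal.ofReal (1 / K) * ∫⁻ z in badS, mH z ^ 2 ∂(muW T) := by
          rw [lintegral_add_left measurable_const, lintegral_const, Measure.restrict_apply_univ,
            lintegral_const_mul' _ _ ENNReal.ofReal_ne_top]
      _ ≤ _ := by
          gcongr
          exact (setLIntegral_le_lintegral _ _).trans (h T hT)
  have h2 : (nu T) {p | p.1.im = p.2.im} ≤ (muW T) univ +
      2 * (ENNReal.ofReal K * (muW T) badS + ENNReal.ofReal (1 / K) * ENNReal.ofReal (C * (T * Real.log T))) := by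
    rw [nu_E_eq, muW_split]
    calc (∫⁻ z in goodS, mH z ∂(muW T)) + ∫⁻ z in badS, mH z ∂(muW T)
        ≤ ((muW T) goodS + ∫⁻ z in badS, mH z ∂(muW T)) + ∫⁻ z in badS, mH z ∂(muW T) := by
          gcongr
          exact lintegral_good_le T
      _ = (muW T) goodS + 2 * ∫⁻ z in badS, mH z ∂(muW T) := by ring
      _ ≤ _ := by
          gcongr
          exact subset_univ _
  have hb : (muW T) badS ≠ ⊤ := (measure_lt_top _ _).ne
  have hfin : (muW T) univ +
      2 * (ENNReal.ofReal K * (muW T) badS + ENNReal.ofReal (1 / K) * ENNReal.ofReal (C * (T * Real.log T))) ≠ ⊤ := by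
    apply ENNReal.add_ne_top.2 ⟨(measure_lt_top _ _).ne, ?_⟩
    apply ENNReal.mul_ne_top (by norm_num)
    apply ENNReal.add_ne_top.2
    exact ⟨ENNReal.mul_ne_top ENNReal.ofReal_ne_top hb, ENNReal.mul_ne_top ENNReal.ofReal_ne_top ENNReal.ofReal_ne_top⟩
  have h3 := ENNReal.toReal_mono hfin h2
  rw [ENNReal.toReal_add (measure_lt_top _ _).ne (by
      apply ENNReal.mul_ne_top (by norm_num)
      apply ENNReal.add_ne_top.2
      exact ⟨ENNReal.mul_ne_top ENNReal.ofReal_ne_top hb, ENNReal.mul_ne_top ENNReal.ofReal_ne_top ENNReal.ofReal_ne_top⟩),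
    ENNReal.toReal_mul, ENNReal.toReal_add (ENNReal.mul_ne_top ENNReal.ofReal_ne_top hb)
      (ENNReal.mul_ne_top ENNReal.ofReal_ne_top ENNReal.ofReal_ne_top),
    ENNReal.toReal_mul, ENNReal.toReal_mul, ENNReal.toReal_ofReal hK.le, ENNReal.toReal_ofReal (by positivity),
    ENNReal.toReal_ofReal (by positivity), ← NCount_eq_toReal] at h3
  have e4 : (2 : ℝ≥0∞).toReal = 2 := by simp
  rw [e4] at h3
  refine h3.trans (le_of_eq ?_)
  unfold badm
  ring

lemma muZ_line_lower_bad {z : ℂ} (hz : z ∈ badS) : 2 ≤ mH z := by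
  by_cases hre : z.re ≠ 1/2
  · exact muZ_line_lower_off hz.1 hre
  · push Not at hre
    have h1 : mult z ≠ 1 := by
      rcases hz.2 with h | h
      · exact absurd hre h
      · exact h
    have h2 := mult_pos hz.1
    have h3 : 2 ≤ mult z := by omega
    calc (2 : ℝ≥0∞) ≤ (mult z : ℝ≥0∞) := by exact_mod_cast h3
      _ = muZ {z} := (muZ_singleton hz.1).symm
      _ ≤ mH z := measure_mono (by simp)

lemma diag_ge' (T : ℝ) : NCount T + badm T ≤ ((nu T) {p | p.1.im = p.2.im}).toReal := by
  have hmb := badS_countable.measurableSet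
  have h1 : (muW T) univ + (muW T) badS ≤ (nu T) {p | p.1.im = p.2.im} := by
    rw [nu_E_eq]
    calc (muW T) univ + (muW T) badS = ∫⁻ z, (1 + badS.indicator 1 z) ∂(muW T) := by
          rw [lintegral_add_left measurable_const, lintegral_const, one_mul, lintegral_indicator_one hmb]
      _ ≤ _ := by
          apply lintegral_mono_ae
          have hae : ∀ᵐ z ∂(muW T), z ∈ NTZ := ae_restrict_of_ae muZ_ae
          filter_upwards [hae] with z hz
          by_cases hb : z ∈ badS
          · rw [indicator_of_mem hb]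
            calc (1 : ℝ≥0∞) + 1 = 2 := by norm_num
              _ ≤ _ := muZ_line_lower_bad hb
          · rw [indicator_of_notMem hb, add_zero]
            exact muZ_line_lower hz
  have h2 := ENNReal.toReal_mono (nu_eq_lt_top T).ne h1
  rw [ENNReal.toReal_add (measure_lt_top _ _).ne (measure_lt_top _ _).ne, ← NCount_eq_toReal] at h2
  exact h2

lemma badm_nonneg (T : ℝ) : 0 ≤ badm T := ENNReal.toReal_nonneg

/-- `Mr → 1` if and only if bad zeros have density zero. -/
theorem Mr_tendsto_iff {l : Filter ℝ} (hl : l ≤ atTop) :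
    Tendsto Mr l (𝓝 1) ↔ Tendsto (fun T => badm T / NT T) l (𝓝 0) := by
  have hratio := NCount_NT.mono_left hl
  have hev : ∀ᶠ T in l, Real.exp 1 ≤ T := (eventually_ge_atTop (Real.exp 1)).filter_mono hl
  have hNTp : ∀ T : ℝ, Real.exp 1 ≤ T → 0 < NT T := by
    intro T hT
    have hT0 : 0 < T := (Real.exp_pos 1).trans_le hT
    have hL1 : 1 ≤ Real.log T := by rw [Real.le_log_iff_exp_le hT0]; exact hT
    exact NT_pos hL1 hT0
  have hlow : ∀ T : ℝ, Real.exp 1 ≤ T → NCount T / NT T + badm T / NT T ≤ Mr T := by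
    intro T hT
    unfold Mr
    rw [← add_div]
    exact div_le_div_of_nonneg_right (diag_ge' T) (hNTp T hT).le
  constructor
  · intro hM
    have h1 : Tendsto (fun T => Mr T - NCount T / NT T) l (𝓝 0) := by
      have := hM.sub hratio
      simpa using this
    refine squeeze_zero' ?_ ?_ h1
    · filter_upwards [hev] with T hT
      exact div_nonneg (badm_nonneg T) (hNTp T hT).le
    · filter_upwards [hev] with T hT
      have := hlow T hT
      linarith
  · intro hb
    obtain ⟨C, hC, T₀, hT₀, hd⟩ := diag_le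
    rw [Metric.tendsto_nhds]
    intro ε hε
    set K := 16 * π * C / ε with hK
    have hpi := Real.pi_pos
    have hK0 : 0 < K := by positivity
    have e1 : ∀ᶠ T in l, |NCount T / NT T - 1| < ε / 4 := by
      have := Metric.tendsto_nhds.1 hratio (ε / 4) (by linarith)
      simpa [Real.dist_eq] using this
    have e2 : ∀ᶠ T in l, badm T / NT T < ε / (8 * K) := hb.eventually (gt_mem_nhds (by positivity))
    filter_upwards [hev, e1, e2, (eventually_ge_atTop T₀).filter_mono hl] with T hT h1 h2 h3
    have hN := hNTp T hT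
    have h4 := hd T h3 K hK0
    have h5 : Mr T ≤ NCount T / NT T + 2 * K * (badm T / NT T) + 4 * π * C / K := by
      unfold Mr
      rw [div_le_iff₀ hN]
      refine h4.trans (le_of_eq ?_)
      unfold NT
      have hT0 : 0 < T := (Real.exp_pos 1).trans_le hT
      have hL1 : 1 ≤ Real.log T := by rw [Real.le_log_iff_exp_le hT0]; exact hT
      have hL0 : 0 < Real.log T := by linarith
      field_simp
      ring
    have h6 : 4 * π * C / K = ε / 4 := by
      rw [hK]; field_simp; ring
    have h7 : 2 * K * (badm T / NT T) < ε / 4 := by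
      calc 2 * K * (badm T / NT T) < 2 * K * (ε / (8 * K)) := by gcongr
        _ = ε / 4 := by field_simp; ring
    have h8 := hlow T hT
    have h9 : 0 ≤ badm T / NT T := div_nonneg (badm_nonneg T) hN.le
    rw [Real.dist_eq, abs_lt]
    rw [abs_lt] at h1
    constructor <;> linarith [h1.1, h1.2]

/-- the number of simple zeros on the critical line up to height `T` -/
noncomputable def Nsc (T : ℝ) : ℝ := (({ρ : ℂ | ρ ∈ NTZ ∧ ρ.re = 1 / 2 ∧ mult ρ = 1 ∧ 0 < ρ.im ∧ ρ.im ≤ T}).ncard : ℝ)

lemma Nsc_eq (T : ℝ) : Nsc T = NCount T - badm T := by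
  have h1 : (muW T) univ = (muW T) goodS + (muW T) badS := by
    have := muW_split T (fun _ => 1)
    simpa using this
  have h2 : NCount T = ((muW T) goodS).toReal + badm T := by
    rw [NCount_eq_toReal, h1, ENNReal.toReal_add (measure_lt_top _ _).ne (measure_lt_top _ _).ne]
    rfl
  have hfin : ({ρ : ℂ | ρ ∈ NTZ ∧ ρ.re = 1 / 2 ∧ mult ρ = 1 ∧ 0 < ρ.im ∧ ρ.im ≤ T}).Finite := by
    refine (finite_NTZ_window 0 |T|).subset ?_
    rintro ρ ⟨h1, _, _, h4, h5⟩
    refine ⟨h1, ?_⟩
    rw [sub_zero, abs_of_pos h4]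
    exact h5.trans (le_abs_self T)
  have h3 : ((muW T) goodS).toReal = Nsc T := by
    unfold muW Nsc
    rw [Measure.restrict_apply goodS_countable.measurableSet]
    set S : Set ℂ := {ρ : ℂ | ρ ∈ NTZ ∧ ρ.re = 1 / 2 ∧ mult ρ = 1 ∧ 0 < ρ.im ∧ ρ.im ≤ T} with hS
    have e1 : goodS ∩ WT T = S := by
      ext z
      constructor
      · rintro ⟨⟨a, b, c⟩, d, e⟩; exact ⟨a, b, c, d, e⟩
      · rintro ⟨a, b, c, d, e⟩; exact ⟨⟨a, b, c⟩, d, e⟩
    rw [e1]
    have e2 : muZ S = (hfin.toFinset.card : ℝ≥0∞) := by
      have e3 : muZ S = ∑ z ∈ hfin.toFinset, muZ {z} := by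
        have : S = (hfin.toFinset : Set ℂ) := hfin.coe_toFinset.symm
        rw [← measure_biUnion_finset]
        · congr 1
          ext z
          simp
        · intro x _ y _ hxy
          simpa using hxy
        · intro z _
          exact measurableSet_singleton z
      rw [e3, Finset.sum_congr rfl (g := fun _ => (1 : ℝ≥0∞))]
      · simp
      · intro z hz
        have hz' : z ∈ S := hfin.mem_toFinset.1 hz
        rw [muZ_singleton hz'.1, hz'.2.2.1]
        simp
    rw [e2, ncard_eq_toFinset_card S hfin]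
    simp
  rw [← h3]; linarith

/-- `Mr → 1` if and only if almost all zeros are simple and on the critical line. -/
theorem Mr_tendsto_iff_Nsc {l : Filter ℝ} (hl : l ≤ atTop) :
    Tendsto Mr l (𝓝 1) ↔ Tendsto (fun T => Nsc T / NT T) l (𝓝 1) := by
  rw [Mr_tendsto_iff hl]
  have hratio := NCount_NT.mono_left hl
  constructor
  · intro h
    have h1 := hratio.sub h
    rw [sub_zero] at h1
    refine h1.congr fun T => ?_
    rw [Nsc_eq, sub_div]
  · intro h
    have h1 := hratio.sub h
    rw [sub_self] at h1
    refine h1.congr fun T => ?_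
    rw [Nsc_eq, sub_div]
    ring

end Pool.Agent.PairCorr
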