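import Mathlib
import Pool.Agent.PairCorr.A_SimpleCrit

/-!
Pairs of simple critical zeros: if almost all zeros are simple and critical, the pairs with a
zero which is multiple or off the line are negligible.
-/

set_option autoImplicit false

namespace Pool.Agent.PairCorr

open MeasureTheory Filter Topology Set Real
open scoped ENNReal ComplexConjugate

/-- number of zeros within `2πu/log T` of the height of `z` -/
noncomputable def nW (T u : ℝ) (z : ℂ) : ℝ≥0∞ := muZ {w | |z.im - w.im| ≤ 2 * π * u / Real.log T}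

lemma measurable_nW (T u : ℝ) : Measurable (nW T u) := by
  have hm : MeasurableSet {p : ℂ × ℂ | |p.1.im - p.2.im| ≤ 2 * π * u / Real.log T} := measurableSet_SymSet T u
  exact measurable_measure_prodMk_left hm

lemma window_le_Eg {c T s : ℝ} (hc : 0 ≤ c) (hL : 0 < Real.log T) :
    muZ {w : ℂ | |w.im - s| ≤ 1 / Real.log T} ≤ Eg muZ c T s := by
  have hm : MeasurableSet {w : ℂ | |w.im - s| ≤ 1 / Real.log T} := by
    have h : Measurable fun w : ℂ => w.im - s := by fun_prop
    exact measurableSet_le h.norm measurable_const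
  unfold Eg
  rw [← lintegral_indicator_one hm]
  apply lintegral_mono
  intro w
  by_cases hw : |w.im - s| ≤ 1 / Real.log T
  · rw [indicator_of_mem (show w ∈ {w : ℂ | |w.im - s| ≤ 1 / Real.log T} from hw)]
    have h1 : cellInd (Real.log T) w s = 1 := by
      unfold cellInd
      rw [if_pos hw]
    show (1 : ℝ≥0∞) ≤ cellInd (Real.log T) w s * ENNReal.ofReal (wgt c T w)
    rw [h1, one_mul, ← ENNReal.ofReal_one]
    apply ENNReal.ofReal_le_ofReal
    unfold wgt
    apply Real.one_le_exp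
    positivity
  · rw [indicator_of_notMem (show w ∉ {w : ℂ | |w.im - s| ≤ 1 / Real.log T} from hw)]
    exact zero_le

lemma nW_le_Eg {c T t u : ℝ} (hc : 0 ≤ c) (hL : 0 < Real.log T) {K : ℕ} (hK : π * u + 1 ≤ K) {z : ℂ}
    (h : |z.im - t| ≤ 1 / Real.log T) :
    nW T u z ≤ ∑ k ∈ Finset.Icc (-(K : ℤ)) K, Eg muZ c T (t + 2 * k / Real.log T) := by
  have h1 : nW T u z ≤ ∑ k ∈ Finset.Icc (-(K : ℤ)) K,
      muZ {w : ℂ | |w.im - (t + 2 * k / Real.log T)| ≤ 1 / Real.log T} := by
    refine le_trans (measure_mono ?_) (measure_biUnion_finset_le _ _)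
    intro w hw
    have hw' : |z.im - w.im| ≤ 2 * π * u / Real.log T := hw
    set L := Real.log T with hLdef
    set x : ℝ := L * (w.im - t) with hx
    have hx1 : |x| ≤ 2 * π * u + 1 := by
      rw [hx, abs_mul, abs_of_pos hL]
      have h2 : |w.im - t| ≤ 2 * π * u / L + 1 / L := by
        have : w.im - t = -(z.im - w.im) + (z.im - t) := by ring
        rw [this]
        refine (abs_add_le _ _).trans ?_
        rw [abs_neg]
        exact add_le_add hw' h
      calc L * |w.im - t| ≤ L * (2 * π * u / L + 1 / L) := by gcongr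
        _ = _ := by field_simp
    have h3 : |x / 2 - round (x / 2)| ≤ 1 / 2 := abs_sub_round _
    have h4 : |(round (x / 2) : ℝ)| ≤ K := by
      have h5 : |(round (x / 2) : ℝ)| ≤ |x / 2| + 1 / 2 := by
        have e : (round (x / 2) : ℝ) = x / 2 - (x / 2 - round (x / 2)) := by ring
        rw [e]
        exact (abs_sub _ _).trans (by linarith)
      rw [abs_div, abs_of_pos (by norm_num : (0:ℝ) < 2)] at h5
      linarith
    rw [mem_iUnion₂]
    refine ⟨round (x / 2), ?_, ?_⟩
    · rw [Finset.mem_Icc]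
      rw [abs_le] at h4
      constructor
      · have := h4.1
        exact_mod_cast this
      · have := h4.2
        exact_mod_cast this
    · show |w.im - (t + 2 * (round (x / 2) : ℝ) / L)| ≤ 1 / L
      have e : w.im - (t + 2 * (round (x / 2) : ℝ) / L) = 2 * (x / 2 - round (x / 2)) / L := by
        rw [hx]
        field_simp
        ring
      rw [e, abs_div, abs_of_pos hL, abs_mul, abs_of_pos (by norm_num : (0:ℝ) < 2)]
      gcongr
      linarith
  refine h1.trans (Finset.sum_le_sum fun k _ => window_le_Eg hc hL)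

lemma sum_pow_three_le {ι : Type*} (F : Finset ι) (x : ι → ℝ≥0∞) :
    (∑ k ∈ F, x k) ^ 3 ≤ (F.card : ℝ≥0∞) ^ 3 * ∑ k ∈ F, x k ^ 3 := by
  rcases F.eq_empty_or_nonempty with h | h
  · subst h; simp
  obtain ⟨k, hk, hmax⟩ := F.exists_max_image x h
  calc (∑ k ∈ F, x k) ^ 3 ≤ ((F.card : ℝ≥0∞) * x k) ^ 3 := by
        gcongr
        calc ∑ k ∈ F, x k ≤ ∑ _k ∈ F, x k := Finset.sum_le_sum hmax
          _ = _ := by rw [Finset.sum_const, nsmul_eq_mul]
    _ = (F.card : ℝ≥0∞) ^ 3 * x k ^ 3 := by rw [mul_pow]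
    _ ≤ _ := by
        gcongr
        exact Finset.single_le_sum (f := fun k => x k ^ 3) (fun _ _ => zero_le) hk

lemma scale_back {L D T : ℝ} {X : ℝ≥0∞} (hL : 0 < L) (hT : 0 ≤ T) (hD : 0 ≤ D)
    (h : ENNReal.ofReal (2 / L) * X ≤ ENNReal.ofReal (D * T)) : X ≤ ENNReal.ofReal (D * (T * L)) := by
  have h5 : X = ENNReal.ofReal (L / 2) * (ENNReal.ofReal (2 / L) * X) := by
    rw [← mul_assoc, ← ENNReal.ofReal_mul (half_pos hL).le]
    have : L / 2 * (2 / L) = 1 := by field_simp
    rw [this, ENNReal.ofReal_one, one_mul]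
  rw [h5]
  calc _ ≤ ENNReal.ofReal (L / 2) * ENNReal.ofReal (D * T) := by gcongr
    _ = ENNReal.ofReal (L / 2 * (D * T)) := by rw [← ENNReal.ofReal_mul (half_pos hL).le]
    _ ≤ _ := by
        apply ENNReal.ofReal_le_ofReal
        have : 0 ≤ D * T * L := by positivity
        nlinarith

lemma lintegral_nW_sq (u : ℝ) : ∃ C : ℝ, 0 < C ∧ ∃ T₀ : ℝ, Real.exp 1 ≤ T₀ ∧ ∀ T : ℝ, T₀ ≤ T →
    ∫⁻ z, nW T u z ^ 2 ∂(muW T) ≤ ENNReal.ofReal (C * (T * Real.log T)) := by
  obtain ⟨c, hc, C, hC, T₀, hB⟩ := Pool.Agent.PC10.statementB 3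
  obtain ⟨K, hK⟩ := exists_nat_ge (π * u + 1)
  set F : Finset ℤ := Finset.Icc (-(K : ℤ)) K with hF
  have h0F : (0 : ℤ) ∈ F := by rw [hF, Finset.mem_Icc]; omega
  refine ⟨(F.card : ℝ) ^ 4 * C, by
    have : 0 < F.card := Finset.card_pos.2 ⟨0, h0F⟩
    positivity, max T₀ (max (Real.exp 1) (2 * K)), (le_max_left _ _).trans (le_max_right _ _), fun T hT => ?_⟩
  have hTe : Real.exp 1 ≤ T := ((le_max_left _ _).trans (le_max_right _ _)).trans hT
  have hTK : 2 * K ≤ T := ((le_max_right _ _).trans (le_max_right _ _)).trans hT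
  have hT0 : 0 < T := (Real.exp_pos 1).trans_le hTe
  have hL1 : 1 ≤ Real.log T := by rw [Real.le_log_iff_exp_le hT0]; exact hTe
  have hL0 : 0 < Real.log T := by linarith
  obtain ⟨h1, h2⟩ := hB T ((le_max_left _ _).trans hT)
  have h3 := lintegral_Eg_pow h1 hT0.le h2
  have hT1 : 1 ≤ T := by have := Real.add_one_le_exp (1:ℝ); linarith
  set I : Set ℝ := Icc (-(3 * T)) (3 * T) with hI
  set I' : Set ℝ := Icc (-(2 * T)) (2 * T) with hI'
  set S : ℝ → ℝ≥0∞ := fun t => ∑ k ∈ F, Eg muZ c T (t + 2 * k / Real.log T) with hS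
  have hSm : Measurable S := by
    rw [hS]
    apply Finset.measurable_fun_sum
    intro k _
    exact (measurable_Eg muZ c T).comp (by fun_prop)
  have hES : ∀ t, Eg muZ c T t ≤ S t := by
    intro t
    have := Finset.single_le_sum (f := fun k : ℤ => Eg muZ c T (t + 2 * k / Real.log T)) (fun _ _ => zero_le) h0F
    simpa using this
  have hshift : ∀ k ∈ F, ∫⁻ t in I', Eg muZ c T (t + 2 * k / Real.log T) ^ 3 ≤ ENNReal.ofReal (C * T) := by
    intro k hk
    refine le_trans ?_ h3
    rw [← lintegral_indicator measurableSet_Icc, ← lintegral_indicator measurableSet_Icc,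
      ← lintegral_add_right_eq_self (fun t => I.indicator (fun t => Eg muZ c T t ^ 3) t) (2 * k / Real.log T)]
    apply lintegral_mono
    intro t
    show I'.indicator (fun t => Eg muZ c T (t + 2 * k / Real.log T) ^ 3) t ≤
      I.indicator (fun t => Eg muZ c T t ^ 3) (t + 2 * k / Real.log T)
    by_cases ht : t ∈ I'
    · rw [indicator_of_mem ht, indicator_of_mem]
      have hk2 : |(k : ℝ)| ≤ K := by
        rw [hF, Finset.mem_Icc] at hk
        rw [abs_le]
        constructor
        · exact_mod_cast hk.1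
        · exact_mod_cast hk.2
      have h5 : |2 * k / Real.log T| ≤ T := by
        rw [abs_div, abs_of_pos hL0, abs_mul, abs_of_pos (by norm_num : (0:ℝ) < 2), div_le_iff₀ hL0]
        nlinarith
      rw [abs_le] at h5
      constructor <;> linarith [ht.1, ht.2, h5.1, h5.2]
    · rw [indicator_of_notMem ht]
      exact zero_le
  have hS3 : ∫⁻ t in I', S t ^ 3 ≤ ENNReal.ofReal ((F.card : ℝ) ^ 4 * C * T) := by
    calc ∫⁻ t in I', S t ^ 3 ≤ ∫⁻ t in I', (F.card : ℝ≥0∞) ^ 3 * ∑ k ∈ F, Eg muZ c T (t + 2 * k / Real.log T) ^ 3 := by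
          apply lintegral_mono
          intro t
          exact sum_pow_three_le F _
      _ = (F.card : ℝ≥0∞) ^ 3 * ∑ k ∈ F, ∫⁻ t in I', Eg muZ c T (t + 2 * k / Real.log T) ^ 3 := by
          rw [lintegral_const_mul' _ _ (by simp), lintegral_finsetSum]
          intro k _
          exact ((measurable_Eg muZ c T).comp (by fun_prop)).pow_const 3
      _ ≤ (F.card : ℝ≥0∞) ^ 3 * ∑ _k ∈ F, ENNReal.ofReal (C * T) := by
          gcongr with k hk
          exact hshift k hk
      _ = ENNReal.ofReal ((F.card : ℝ) ^ 4 * C * T) := by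
          rw [Finset.sum_const, nsmul_eq_mul, ← ENNReal.ofReal_natCast, ← ENNReal.ofReal_pow (by positivity),
            ← ENNReal.ofReal_mul (by positivity), ← ENNReal.ofReal_mul (by positivity)]
          congr 1
          ring
  have key : ENNReal.ofReal (2 / Real.log T) * ∫⁻ z, nW T u z ^ 2 ∂(muW T) ≤
      ENNReal.ofReal ((F.card : ℝ) ^ 4 * C * T) := by
    calc ENNReal.ofReal (2 / Real.log T) * ∫⁻ z, nW T u z ^ 2 ∂(muW T)
        = ∫⁻ z, ENNReal.ofReal (2 / Real.log T) * nW T u z ^ 2 ∂(muW T) := by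
          rw [lintegral_const_mul' _ _ ENNReal.ofReal_ne_top]
      _ = ∫⁻ z in WT T, (∫⁻ t in I', cellInd (Real.log T) z t) * nW T u z ^ 2 ∂muZ := by
          unfold muW
          apply setLIntegral_congr_fun (measurableSet_WT T)
          intro z hz
          simp only
          rw [lintegral_cellInd (Real.log T) z measurableSet_Icc]
          intro t ht
          have h0 : 0 < z.im := hz.1
          have h1 : z.im ≤ T := hz.2
          have h2 : 1 / Real.log T ≤ 1 := by rw [div_le_one hL0]; exact hL1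
          rw [abs_le] at ht
          constructor <;> linarith [ht.1, ht.2]
      _ = ∫⁻ z in WT T, (∫⁻ t in I', cellInd (Real.log T) z t * nW T u z ^ 2) ∂muZ := by
          apply lintegral_congr
          intro z
          rw [lintegral_mul_const]
          exact (measurable_cellInd _).comp (measurable_const.prodMk measurable_id)
      _ ≤ ∫⁻ z in WT T, (∫⁻ t in I', cellInd (Real.log T) z t * S t ^ 2) ∂muZ := by
          apply lintegral_mono
          intro z
          apply lintegral_mono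
          intro t
          show cellInd (Real.log T) z t * nW T u z ^ 2 ≤ cellInd (Real.log T) z t * S t ^ 2
          by_cases h : |z.im - t| ≤ 1 / Real.log T
          · have : nW T u z ≤ S t := nW_le_Eg hc.le hL0 hK h
            gcongr
          · unfold cellInd
            rw [if_neg h, zero_mul, zero_mul]
      _ = ∫⁻ t in I', (∫⁻ z in WT T, cellInd (Real.log T) z t * S t ^ 2 ∂muZ) := by
          apply lintegral_lintegral_swap
          apply Measurable.aemeasurable
          exact (measurable_cellInd _).mul ((hSm.pow_const 2).comp measurable_snd)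
      _ ≤ ∫⁻ t in I', S t ^ 3 := by
          apply lintegral_mono
          intro t
          have hm : Measurable (fun z => cellInd (Real.log T) z t) :=
            (measurable_cellInd _).comp (measurable_id.prodMk measurable_const)
          show ∫⁻ z in WT T, cellInd (Real.log T) z t * S t ^ 2 ∂muZ ≤ _
          rw [lintegral_mul_const _ hm]
          have h4 : ∫⁻ z in WT T, cellInd (Real.log T) z t ∂muZ ≤ Eg muZ c T t := by
            refine (setLIntegral_le_lintegral _ _).trans ?_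
            unfold Eg
            apply lintegral_mono
            intro z
            have h5 : (1 : ℝ≥0∞) ≤ ENNReal.ofReal (wgt c T z) := by
              rw [← ENNReal.ofReal_one]
              apply ENNReal.ofReal_le_ofReal
              unfold wgt
              apply Real.one_le_exp
              positivity
            show cellInd (Real.log T) z t ≤ cellInd (Real.log T) z t * ENNReal.ofReal (wgt c T z)
            calc cellInd (Real.log T) z t = cellInd (Real.log T) z t * 1 := (mul_one _).symm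
              _ ≤ _ := by gcongr
          calc _ ≤ S t * S t ^ 2 := by
                gcongr
                exact h4.trans (hES t)
            _ = _ := by ring
      _ ≤ _ := hS3
  exact scale_back hL0 hT0.le (by positivity) key

/-- the pairs of simple critical zeros counted by `N*` -/
def scPairs (T a : ℝ) : Set (ℂ × ℂ) :=
  {p | p.1 ∈ goodS ∧ p.2 ∈ goodS ∧ 0 < p.1.im ∧ p.1.im ≤ T ∧
    0 < p.1.im - p.2.im ∧ p.1.im - p.2.im ≤ 2 * π * a / Real.log T}

/-- the number of pairs of simple critical zeros -/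
noncomputable def NSC (T a : ℝ) : ℝ := ((scPairs T a).ncard : ℝ)

lemma NSC_nonneg (T a : ℝ) : 0 ≤ NSC T a := Nat.cast_nonneg _

lemma scPairs_finite (T a : ℝ) : (scPairs T a).Finite :=
  (pairSet_finite T a).subset fun _ ⟨h1, h2, h3, h4, h5, h6⟩ => ⟨h1.1, h2.1, h3, h4, h5, h6⟩

lemma nu_scPairs (T a : ℝ) : (nu T) (scPairs T a) = ENNReal.ofReal (NSC T a) := by
  have hfin := scPairs_finite T a
  have e3 : (nu T) (scPairs T a) = ∑ p ∈ hfin.toFinset, (nu T) {p} := by
    have : scPairs T a = (hfin.toFinset : Set (ℂ × ℂ)) := hfin.coe_toFinset.symm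
    rw [← measure_biUnion_finset]
    · congr 1
      ext z
      simp
    · intro x _ y _ hxy
      simpa using hxy
    · intro z _
      exact measurableSet_singleton z
  rw [e3, Finset.sum_congr rfl (g := fun _ => (1 : ℝ≥0∞))]
  · rw [Finset.sum_const, nsmul_eq_mul, mul_one]
    unfold NSC
    rw [ncard_eq_toFinset_card _ hfin, ENNReal.ofReal_natCast]
  · intro p hp
    have hp' : p ∈ scPairs T a := hfin.mem_toFinset.1 hp
    obtain ⟨h1, h2, h3, h4, _, _⟩ := hp'
    have e : ({p} : Set (ℂ × ℂ)) = {p.1} ×ˢ {p.2} := by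
      rw [singleton_prod_singleton]
    unfold nu
    rw [e, Measure.prod_prod, muZ_singleton h2.1, h2.2.2]
    unfold muW
    rw [Measure.restrict_apply (measurableSet_singleton _),
      inter_eq_left.2 (singleton_subset_iff.2 (show p.1 ∈ WT T from ⟨h3, h4⟩)), muZ_singleton h1.1, h1.2.2]
    simp

lemma nu_ae (T : ℝ) : ∀ᵐ p ∂(nu T), p.1 ∈ NTZ ∧ p.1 ∈ WT T ∧ p.2 ∈ NTZ := by
  have h1 : ∀ᵐ z ∂(muW T), z ∈ NTZ ∧ z ∈ WT T := by
    have h2 : ∀ᵐ z ∂(muW T), z ∈ NTZ := ae_restrict_of_ae muZ_ae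
    have h3 : ∀ᵐ z ∂(muW T), z ∈ WT T := ae_restrict_mem (measurableSet_WT T)
    filter_upwards [h2, h3] with z a b using ⟨a, b⟩
  have h4 : ∀ᵐ p ∂(nu T), p.1 ∈ NTZ ∧ p.1 ∈ WT T :=
    (Measure.quasiMeasurePreserving_fst (μ := muW T) (ν := muZ)).ae h1
  have h5 : ∀ᵐ p ∂(nu T), p.2 ∈ NTZ :=
    (Measure.quasiMeasurePreserving_snd (μ := muW T) (ν := muZ)).ae muZ_ae
  filter_upwards [h4, h5] with p a b using ⟨a.1, a.2, b⟩

lemma nu_left_le (T u : ℝ) : (nu T) (NSset T u ∩ {p | p.1 ∈ badS}) ≤ ∫⁻ z in badS, nW T u z ∂(muW T) := by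
  have hmb := badS_countable.measurableSet
  have hm : MeasurableSet (NSset T u ∩ {p | p.1 ∈ badS}) :=
    (measurableSet_NSset T u).inter (measurable_fst hmb)
  unfold nu
  rw [Measure.prod_apply hm, ← lintegral_indicator hmb]
  apply lintegral_mono
  intro z
  by_cases hz : z ∈ badS
  · rw [indicator_of_mem hz]
    apply measure_mono
    rintro w ⟨h1, _⟩
    have h2 := NSset_subset_SymSet T u h1
    exact h2
  · rw [indicator_of_notMem hz]
    show muZ (Prod.mk z ⁻¹' (NSset T u ∩ {p | p.1 ∈ badS})) ≤ 0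
    have : Prod.mk z ⁻¹' (NSset T u ∩ {p | p.1 ∈ badS}) = ∅ := by
      ext w
      constructor
      · rintro ⟨_, h2⟩; exact absurd h2 hz
      · intro h; exact absurd h (notMem_empty _)
    rw [this, measure_empty]

lemma nu_right_le {T u : ℝ} (hT : 1 ≤ Real.log T) (hu : 0 ≤ u) :
    (nu T) (NSset T u ∩ {p | p.2 ∈ badS}) ≤ (∫⁻ z in badS, nW T u z ∂(muW T)) +
      muZ {w | |w.im| ≤ 2 * π * u} ^ 2 := by
  have hmb := badS_countable.measurableSet
  have hmW := measurableSet_WT T
  have hL0 : 0 < Real.log T := by linarith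
  have hpi := Real.pi_pos
  have hh : 2 * π * u / Real.log T ≤ 2 * π * u := div_le_self (by positivity) hT
  set A : Set (ℂ × ℂ) := {p | p.1 ∈ WT T ∧ p.2 ∈ badS ∧ p.2 ∈ WT T ∧ |p.1.im - p.2.im| ≤ 2 * π * u / Real.log T} with hA
  set B : Set (ℂ × ℂ) := {p | |p.1.im| ≤ 2 * π * u ∧ |p.2.im| ≤ 2 * π * u} with hB
  have hmA : MeasurableSet A :=
    (measurable_fst hmW).inter ((measurable_snd hmb).inter ((measurable_snd hmW).inter (measurableSet_SymSet T u)))
  have h1 : (nu T) (NSset T u ∩ {p | p.2 ∈ badS}) ≤ (muZ.prod muZ) (A ∪ B) := by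
    unfold nu
    have hmS : MeasurableSet (NSset T u ∩ {p : ℂ × ℂ | p.2 ∈ badS}) :=
      (measurableSet_NSset T u).inter (measurable_snd hmb)
    rw [muW_prod_restrict, Measure.restrict_apply hmS]
    apply measure_mono
    rintro p ⟨⟨h1, h2⟩, h3⟩
    have h3' : p.1 ∈ WT T := h3.1
    have h4 : 0 < p.1.im := h3'.1
    have h5 : p.1.im ≤ T := h3'.2
    have h6 : 0 < p.1.im - p.2.im := h1.1
    have h7 : p.1.im - p.2.im ≤ 2 * π * u / Real.log T := h1.2
    by_cases h8 : p.2 ∈ WT T
    · left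
      exact ⟨h3', h2, h8, NSset_subset_SymSet T u h1⟩
    · right
      have h9 : p.2.im ≤ 0 := by
        by_contra hcon
        push Not at hcon
        exact h8 ⟨hcon, by linarith⟩
      refine ⟨?_, ?_⟩
      · rw [abs_of_pos h4]; linarith
      · rw [abs_of_nonpos h9]; linarith
  refine h1.trans ((measure_union_le _ _).trans (add_le_add ?_ ?_))
  · rw [Measure.prod_apply_symm hmA]
    have e2 : ∫⁻ z in badS, nW T u z ∂(muW T) = ∫⁻ z, (badS ∩ WT T).indicator (nW T u) z ∂muZ := by
      unfold muW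
      rw [Measure.restrict_restrict hmb, ← lintegral_indicator (hmb.inter hmW)]
    rw [e2]
    apply lintegral_mono
    intro w
    by_cases hw : w ∈ badS ∩ WT T
    · rw [indicator_of_mem hw]
      unfold nW
      apply measure_mono
      rintro z ⟨_, _, _, h3⟩
      show |w.im - z.im| ≤ _
      rw [abs_sub_comm]
      exact h3
    · rw [indicator_of_notMem hw]
      show muZ ((fun z => (z, w)) ⁻¹' A) ≤ 0
      have : (fun z => (z, w)) ⁻¹' A = ∅ := by
        ext z
        constructor
        · rintro ⟨_, h2, h3, _⟩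
          exact absurd ⟨h2, h3⟩ hw
        · intro h; exact absurd h (notMem_empty _)
      rw [this, measure_empty]
  · have e : B = {w : ℂ | |w.im| ≤ 2 * π * u} ×ˢ {w : ℂ | |w.im| ≤ 2 * π * u} := by
      ext p
      exact Iff.rfl
    rw [e, Measure.prod_prod, sq]

lemma muZ_strip_lt_top (R : ℝ) : muZ {w : ℂ | |w.im| ≤ R} < ⊤ := by
  have hfin := finite_NTZ_window 0 R
  have h1 : muZ {w : ℂ | |w.im| ≤ R} ≤ muZ ({ρ : ℂ | ρ ∈ NTZ ∧ |ρ.im - 0| ≤ R}) := by
    apply measure_mono_ae
    filter_upwards [muZ_ae] with w hw h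
    exact ⟨hw, by rw [sub_zero]; exact h⟩
  refine lt_of_le_of_lt h1 ?_
  have h2 : muZ ({ρ : ℂ | ρ ∈ NTZ ∧ |ρ.im - 0| ≤ R}) ≤ ∑ z ∈ hfin.toFinset, muZ {z} := by
    calc muZ ({ρ : ℂ | ρ ∈ NTZ ∧ |ρ.im - 0| ≤ R}) ≤ muZ (⋃ z ∈ hfin.toFinset, {z}) := by
          apply measure_mono
          intro z hz
          rw [mem_iUnion₂]
          exact ⟨z, hfin.mem_toFinset.2 hz, rfl⟩
      _ ≤ _ := measure_biUnion_finset_le _ _
  refine lt_of_le_of_lt h2 ?_
  rw [ENNReal.sum_lt_top]
  intro z hz
  have hz' := (hfin.mem_toFinset.1 hz).1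
  rw [muZ_singleton hz']
  exact ENNReal.natCast_lt_top _

/-- the pairs with a bad member -/
lemma NStar_sub_NSC (u : ℝ) (hu : 0 ≤ u) : ∃ C D : ℝ, 0 < C ∧ 0 ≤ D ∧ ∃ T₀ : ℝ, Real.exp 1 ≤ T₀ ∧
    ∀ T : ℝ, T₀ ≤ T → NSC T u ≤ NT T * Lr T u ∧ ∀ K : ℝ, 0 < K →
    NT T * Lr T u ≤ NSC T u + 2 * (K * badm T + C / K * (T * Real.log T)) + D := by
  obtain ⟨C, hC, T₀, hT₀, h⟩ := lintegral_nW_sq u
  refine ⟨C, (muZ {w | |w.im| ≤ 2 * π * u} ^ 2).toReal, hC, ENNReal.toReal_nonneg, T₀, hT₀, fun T hT => ?_⟩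
  have hTe : Real.exp 1 ≤ T := hT₀.trans hT
  have hT0 : 0 < T := (Real.exp_pos 1).trans_le hTe
  have hL1 : 1 ≤ Real.log T := by rw [Real.le_log_iff_exp_le hT0]; exact hTe
  have hNT := NT_pos hL1 hT0
  have hmb := badS_countable.measurableSet
  have e0 : NT T * Lr T u = ((nu T) (NSset T u)).toReal := by
    unfold Lr
    field_simp
  have hNSC : NSC T u = ((nu T) (scPairs T u)).toReal := by
    rw [nu_scPairs, ENNReal.toReal_ofReal (NSC_nonneg T u)]
  rw [e0, hNSC]
  have hsub : scPairs T u ⊆ NSset T u := by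
    rintro p ⟨_, _, _, _, h5, h6⟩
    exact ⟨h5, h6⟩
  refine ⟨ENNReal.toReal_mono (NSset_lt_top T u).ne (measure_mono hsub), fun K hK => ?_⟩
  have hK' : ENNReal.ofReal K * ENNReal.ofReal (1 / K) = 1 := by
    rw [← ENNReal.ofReal_mul hK.le, mul_one_div_cancel hK.ne', ENNReal.ofReal_one]
  have h1 : ∫⁻ z in badS, nW T u z ∂(muW T) ≤ ENNReal.ofReal K * (muW T) badS +
      ENNReal.ofReal (1 / K) * ENNReal.ofReal (C * (T * Real.log T)) := by
    calc ∫⁻ z in badS, nW T u z ∂(muW T) ≤ ∫⁻ z in badS, (ENNReal.ofReal K + ENNReal.ofReal (1 / K) * nW T u z ^ 2) ∂(muW T) := by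
          apply lintegral_mono
          intro z
          show nW T u z ≤ ENNReal.ofReal K + ENNReal.ofReal (1 / K) * nW T u z ^ 2
          rcases le_total (nW T u z) (ENNReal.ofReal K) with h2 | h2
          · exact h2.trans le_self_add
          · refine le_trans ?_ le_add_self
            calc nW T u z = (ENNReal.ofReal K * ENNReal.ofReal (1 / K)) * nW T u z := by rw [hK', one_mul]
              _ = ENNReal.ofReal (1 / K) * (ENNReal.ofReal K * nW T u z) := by ring
              _ ≤ ENNReal.ofReal (1 / K) * (nW T u z * nW T u z) := by gcongr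
              _ = _ := by rw [sq]
      _ = ENNReal.ofReal K * (muW T) badS + ENNReal.ofReal (1 / K) * ∫⁻ z in badS, nW T u z ^ 2 ∂(muW T) := by
          rw [lintegral_add_left measurable_const, lintegral_const, Measure.restrict_apply_univ,
            lintegral_const_mul' _ _ ENNReal.ofReal_ne_top]
      _ ≤ _ := by
          gcongr
          exact (setLIntegral_le_lintegral _ _).trans (h T hT)
  have hb : (muW T) badS ≠ ⊤ := (measure_lt_top _ _).ne
  set P : ℝ≥0∞ := ENNReal.ofReal K * (muW T) badS + ENNReal.ofReal (1 / K) * ENNReal.ofReal (C * (T * Real.log T)) with hP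
  have hPtop : P ≠ ⊤ := ENNReal.add_ne_top.2
    ⟨ENNReal.mul_ne_top ENNReal.ofReal_ne_top hb, ENNReal.mul_ne_top ENNReal.ofReal_ne_top ENNReal.ofReal_ne_top⟩
  have hPr : P.toReal = K * badm T + C / K * (T * Real.log T) := by
    rw [hP, ENNReal.toReal_add (ENNReal.mul_ne_top ENNReal.ofReal_ne_top hb)
      (ENNReal.mul_ne_top ENNReal.ofReal_ne_top ENNReal.ofReal_ne_top), ENNReal.toReal_mul, ENNReal.toReal_mul,
      ENNReal.toReal_ofReal hK.le, ENNReal.toReal_ofReal (by positivity), ENNReal.toReal_ofReal (by positivity)]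
    unfold badm
    ring
  set Q : ℝ≥0∞ := muZ {w | |w.im| ≤ 2 * π * u} ^ 2 with hQ
  have hQtop : Q ≠ ⊤ := ENNReal.pow_ne_top (muZ_strip_lt_top _).ne
  have h2 : (nu T) (NSset T u) ≤ (nu T) (scPairs T u) + (P + (P + Q)) := by
    calc (nu T) (NSset T u) ≤ (nu T) (scPairs T u ∪ ((NSset T u ∩ {p | p.1 ∈ badS}) ∪ (NSset T u ∩ {p | p.2 ∈ badS}))) := by
          apply measure_mono_ae
          filter_upwards [nu_ae T] with p hp hps
          have hps' : p ∈ NSset T u := hps
          by_cases hb1 : p.1 ∈ badS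
          · exact Or.inr (Or.inl ⟨hps', hb1⟩)
          by_cases hb2 : p.2 ∈ badS
          · exact Or.inr (Or.inr ⟨hps', hb2⟩)
          left
          have good : ∀ z : ℂ, z ∈ NTZ → z ∉ badS → z ∈ goodS := by
            intro z hz hzb
            by_contra hcon
            apply hzb
            refine ⟨hz, ?_⟩
            by_contra h3
            push Not at h3
            exact hcon ⟨hz, h3⟩
          exact ⟨good _ hp.1 hb1, good _ hp.2.2 hb2, hp.2.1.1, hp.2.1.2, hps'.1, hps'.2⟩
      _ ≤ (nu T) (scPairs T u) + ((nu T) (NSset T u ∩ {p | p.1 ∈ badS}) + (nu T) (NSset T u ∩ {p | p.2 ∈ badS})) :=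
          (measure_union_le _ _).trans (add_le_add le_rfl (measure_union_le _ _))
      _ ≤ _ := by
          refine add_le_add le_rfl (add_le_add ?_ ?_)
          · exact (nu_left_le T u).trans h1
          · exact (nu_right_le hL1 hu).trans (add_le_add h1 le_rfl)
  have hsc : (nu T) (scPairs T u) ≠ ⊤ := ne_top_of_le_ne_top (NSset_lt_top T u).ne (measure_mono hsub)
  have hPQ : P + Q ≠ ⊤ := ENNReal.add_ne_top.2 ⟨hPtop, hQtop⟩
  have h3 := ENNReal.toReal_mono (ENNReal.add_ne_top.2 ⟨hsc, ENNReal.add_ne_top.2 ⟨hPtop, hPQ⟩⟩) h2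
  rw [ENNReal.toReal_add hsc (ENNReal.add_ne_top.2 ⟨hPtop, hPQ⟩), ENNReal.toReal_add hPtop hPQ,
    ENNReal.toReal_add hPtop hQtop, hPr] at h3
  refine h3.trans (le_of_eq ?_)
  ring

/-- if almost all zeros are simple and critical, then `N*` may be replaced by the number of pairs of
simple critical zeros. -/
theorem Lr_sub_NSC {l : Filter ℝ} (hl : l ≤ atTop) (hM : Tendsto Mr l (𝓝 1)) {u : ℝ} (hu : 0 ≤ u) :
    Tendsto (fun T => Lr T u - NSC T u / NT T) l (𝓝 0) := by
  have hb := (Mr_tendsto_iff hl).1 hM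
  obtain ⟨C, D, hC, hD, T₀, hT₀, h⟩ := NStar_sub_NSC u hu
  have hpi := Real.pi_pos
  have hinv : Tendsto (fun T => D / NT T) l (𝓝 0) :=
    (NT_tendsto.mono_left hl).const_div_atTop D
  rw [Metric.tendsto_nhds]
  intro ε hε
  set K := 16 * π * C / ε with hK
  have hK0 : 0 < K := by positivity
  have e2 : ∀ᶠ T in l, badm T / NT T < ε / (8 * K) := hb.eventually (gt_mem_nhds (by positivity))
  have e3 : ∀ᶠ T in l, D / NT T < ε / 4 := hinv.eventually (gt_mem_nhds (by positivity))
  filter_upwards [e2, e3, hl (eventually_ge_atTop T₀)] with T h2 h3 hT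
  obtain ⟨h4, h5⟩ := h T hT
  have h6 := h5 K hK0
  have hTe : Real.exp 1 ≤ T := hT₀.trans hT
  have hT0 : 0 < T := (Real.exp_pos 1).trans_le hTe
  have hL1 : 1 ≤ Real.log T := by rw [Real.le_log_iff_exp_le hT0]; exact hTe
  have hL0 : 0 < Real.log T := by linarith
  have hN := NT_pos hL1 hT0
  have h7 : NSC T u / NT T ≤ Lr T u := by
    rw [div_le_iff₀ hN]; linarith
  have h8 : Lr T u ≤ NSC T u / NT T + 2 * K * (badm T / NT T) + 4 * π * C / K + D / NT T := by
    have e : NSC T u / NT T + 2 * K * (badm T / NT T) + 4 * π * C / K + D / NT T =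
        (NSC T u + 2 * (K * badm T + C / K * (T * Real.log T)) + D) / NT T := by
      unfold NT
      field_simp
      ring
    rw [e, le_div_iff₀ hN]
    linarith
  have h9 : 4 * π * C / K = ε / 4 := by
    rw [hK]; field_simp; ring
  have h10 : 2 * K * (badm T / NT T) < ε / 4 := by
    calc 2 * K * (badm T / NT T) < 2 * K * (ε / (8 * K)) := by gcongr
      _ = ε / 4 := by field_simp; ring
  rw [Real.dist_eq, sub_zero, abs_lt]
  constructor <;> linarith

/-- the number of pairs of simple critical zeros is at most `N*` -/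
lemma NSC_le {T u : ℝ} (hT : Real.exp 1 ≤ T) : NSC T u / NT T ≤ Lr T u := by
  have hT0 : 0 < T := (Real.exp_pos 1).trans_le hT
  have hL1 : 1 ≤ Real.log T := by rw [Real.le_log_iff_exp_le hT0]; exact hT
  have hNT := NT_pos hL1 hT0
  have hNSC : NSC T u = ((nu T) (scPairs T u)).toReal := by
    rw [nu_scPairs, ENNReal.toReal_ofReal (NSC_nonneg T u)]
  unfold Lr
  rw [hNSC]
  apply div_le_div_of_nonneg_right _ hNT.le
  apply ENNReal.toReal_mono (NSset_lt_top T u).ne (measure_mono ?_)
  rintro p ⟨_, _, _, _, h5, h6⟩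
  exact ⟨h5, h6⟩

end Pool.Agent.PairCorr
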