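import Mathlib
import Pool.Agent.PairCorr.F_Windows

set_option autoImplicit false

namespace Pool.Agent.PairCorr

open MeasureTheory Filter Topology Set Real

/-! ### The odd extension and the gap on the whole line -/

/-- odd extension -/
noncomputable def hodd (H : ℝ → ℝ) (t : ℝ) : ℝ := if 0 ≤ t then H t else -H (-t)

section
variable {H : ℝ → ℝ} {C : ℝ}

lemma hodd_meas (hHm : Measurable H) : Measurable (hodd H) := by
  unfold hodd
  exact Measurable.ite measurableSet_Ici hHm (hHm.comp measurable_neg).neg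

lemma hodd_bd (hHb : ∀ u, 0 ≤ u → |H u| ≤ C) (t : ℝ) : |hodd H t| ≤ C := by
  unfold hodd
  split_ifs with h
  · exact hHb t h
  · rw [abs_neg]; exact hHb (-t) (by linarith)

lemma hodd_pos {t : ℝ} (ht : 0 ≤ t) : hodd H t = H t := by
  unfold hodd; rw [if_pos ht]

lemma hodd_neg {t : ℝ} (ht : 0 < t) : hodd H (-t) = -H t := by
  unfold hodd; rw [if_neg (by linarith), neg_neg]

/-- decay of kernels in horizontal strips -/
lemma TF.strip {φ : ℝ → ℝ} {b : ℝ} (h : TF φ b) (j : ℕ) : ∃ K : ℝ, 0 ≤ K ∧ ∀ z : ℂ,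
    ‖Kc φ (2 * π * Complex.I * z)‖ ≤ K * Real.exp (b * (2 * π * |z.im|)) * ((1 + ‖z‖) ^ j)⁻¹ := by
  obtain ⟨C, hC, hb⟩ := h.decay_one_add j
  refine ⟨C, hC, fun z => ?_⟩
  have h1 := hb (2 * π * Complex.I * z)
  have hpi := Real.pi_gt_three
  have hre : (2 * π * Complex.I * z : ℂ).re = -(2 * π * z.im) := by simp
  have hnorm : ‖(2 * π * Complex.I * z : ℂ)‖ = 2 * π * ‖z‖ := by
    rw [norm_mul, norm_mul, norm_mul, Complex.norm_I, Complex.norm_real, Real.norm_of_nonneg Real.pi_pos.le]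
    simp
  rw [hre, abs_neg, abs_mul, abs_of_pos (by positivity : 0 < 2 * π), hnorm] at h1
  rw [← div_eq_mul_inv, le_div_iff₀ (by positivity), mul_comm]
  refine le_trans ?_ h1
  apply mul_le_mul_of_nonneg_right _ (norm_nonneg _)
  apply pow_le_pow_left₀ (by positivity)
  nlinarith [norm_nonneg z]

lemma Kc_meas {φ : ℝ → ℝ} {b : ℝ} (h : TF φ b) : Continuous (Kc φ) := h.differentiable_Kc.continuous

lemma line_dom {φ : ℝ → ℝ} {b : ℝ} (h : TF φ b) (z : ℂ) : ∃ K : ℝ, 0 ≤ K ∧ ∀ t : ℝ,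
    ‖Kc φ (2 * π * Complex.I * ((t : ℂ) - z))‖ ≤ K * ((1 + |t - z.re|) ^ 2)⁻¹ := by
  obtain ⟨K, hK, hb⟩ := h.strip 2
  refine ⟨K * Real.exp (b * (2 * π * |z.im|)), by positivity, fun t => ?_⟩
  have h1 := hb ((t : ℂ) - z)
  have him : ((t : ℂ) - z).im = -z.im := by simp
  rw [him, abs_neg] at h1
  refine h1.trans ?_
  apply mul_le_mul_of_nonneg_left _ (by positivity)
  apply inv_anti₀ (by positivity)
  apply pow_le_pow_left₀ (by positivity)
  have h2 := Complex.abs_re_le_norm ((t : ℂ) - z)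
  simp only [Complex.sub_re, Complex.ofReal_re] at h2
  linarith

lemma line_int (hHm : Measurable H) (hHb : ∀ u, 0 ≤ u → |H u| ≤ C) {φ : ℝ → ℝ} {b : ℝ} (h : TF φ b) (z : ℂ) :
    Integrable (fun t : ℝ => (hodd H t : ℂ) * Kc φ (2 * π * Complex.I * ((t : ℂ) - z))) := by
  obtain ⟨K, hK, hb⟩ := line_dom h z
  have h1 : Integrable (fun t : ℝ => Kc φ (2 * π * Complex.I * ((t : ℂ) - z))) := by
    refine Integrable.mono' (g := fun t => K * ((1 + |t - z.re|) ^ 2)⁻¹)
      ((integrable_inv_sq.comp_sub_right z.re).const_mul K) ?_ (Eventually.of_forall hb)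
    exact ((Kc_meas h).comp (by fun_prop)).aestronglyMeasurable
  refine (h1.bdd_mul (c := C) ?_ ?_)
  · exact (Complex.measurable_ofReal.comp (hodd_meas hHm)).aestronglyMeasurable
  · exact Eventually.of_forall fun t => by
      rw [Complex.norm_real, Real.norm_eq_abs]; exact hodd_bd hHb t

lemma Kc_neg_line {φ : ℝ → ℝ} (y : ℝ) :
    Kc φ (((-y : ℝ) : ℂ) * Complex.I) = (starRingEnd ℂ) (Kc φ (y * Complex.I)) := by
  unfold Kc
  rw [← integral_conj]
  congr 1
  ext v
  rw [map_mul, Complex.conj_ofReal, ← Complex.exp_conj]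
  congr 2
  simp only [map_mul, Complex.conj_ofReal, Complex.conj_I]
  push_cast; ring

lemma Gap.line0 {W : ℝ} (hG : Gap H W) (hHm : Measurable H) (hHb : ∀ u, 0 ≤ u → |H u| ≤ C)
    {φ : ℝ → ℝ} (hφ : TF φ W) :
    ∫ t : ℝ, (hodd H t : ℂ) * Kc φ ((2 * π * t : ℝ) * Complex.I) = 0 := by
  set f : ℝ → ℂ := fun t => (hodd H t : ℂ) * Kc φ ((2 * π * t : ℝ) * Complex.I) with hf
  have hfi : Integrable f := by
    have := line_int hHm hHb hφ 0
    refine this.congr (Eventually.of_forall fun t => ?_)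
    simp only [hf, sub_zero]
    congr 2
    push_cast; ring
  have h1 : ∫ t, f t = (∫ t in Iic (0:ℝ), f t) + ∫ t in Ioi (0:ℝ), f t := by
    rw [intervalIntegral.integral_Iic_add_Ioi hfi.integrableOn hfi.integrableOn]
  have h2 : ∫ t in Iic (0:ℝ), f t = ∫ t in Ioi (0:ℝ), f (-t) := by
    rw [integral_comp_neg_Ioi, neg_zero]
  have hfn : IntegrableOn (fun t => f (-t)) (Ioi 0) := hfi.comp_neg.integrableOn
  rw [h1, h2, ← integral_add hfn hfi.integrableOn]
  have h3 : ∫ t in Ioi (0:ℝ), (f (-t) + f t) = ∫ t in Ioi (0:ℝ),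
      (2 * Complex.I) * (((Kc φ ((2 * π * t : ℝ) * Complex.I)).im * H t : ℝ) : ℂ) := by
    apply setIntegral_congr_fun measurableSet_Ioi
    intro t ht
    have ht' : (0:ℝ) < t := ht
    simp only [hf]
    rw [hodd_neg ht', hodd_pos ht'.le, show (2 * π * -t : ℝ) = -(2 * π * t) by ring, Kc_neg_line]
    have h4 : Kc φ ((2 * π * t : ℝ) * Complex.I) - (starRingEnd ℂ) (Kc φ ((2 * π * t : ℝ) * Complex.I)) =
        (2 * (Kc φ ((2 * π * t : ℝ) * Complex.I)).im : ℝ) * Complex.I := Complex.sub_conj _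
    push_cast at h4 ⊢
    linear_combination (H t : ℂ) * h4
  rw [h3, integral_const_mul, integral_complex_ofReal, hG φ hφ]
  simp

lemma Gap.line {W : ℝ} (hG : Gap H W) (hHm : Measurable H) (hHb : ∀ u, 0 ≤ u → |H u| ≤ C)
    {ψ : ℝ → ℝ} (hψ : TF ψ W) (z : ℂ) :
    ∫ t : ℝ, (hodd H t : ℂ) * Kc ψ (2 * π * Complex.I * ((t : ℂ) - z)) = 0 := by
  -- real and imaginary parts of the modulation
  set E : ℝ → ℂ := fun v => Complex.exp (-(2 * π * Complex.I * v * z)) with hE
  have hEs : ContDiff ℝ (⊤ : ℕ∞) E := by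
    simp only [hE]
    apply ContDiff.cexp
    apply ContDiff.neg
    apply ContDiff.mul _ contDiff_const
    exact contDiff_const.mul Complex.ofRealCLM.contDiff
  have hφr : TF (fun v => (E v).re * ψ v) W := hψ.mul (Complex.reCLM.contDiff.comp hEs)
  have hφi : TF (fun v => (E v).im * ψ v) W := hψ.mul (Complex.imCLM.contDiff.comp hEs)
  have h1 := hG.line0 hHm hHb hφr
  have h2 := hG.line0 hHm hHb hφi
  have i1 : ∀ {φ : ℝ → ℝ}, TF φ W → Integrable (fun t : ℝ => (hodd H t : ℂ) * Kc φ ((2 * π * t : ℝ) * Complex.I)) := by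
    intro φ hφ
    have := line_int hHm hHb hφ 0
    refine this.congr (Eventually.of_forall fun t => ?_)
    simp only [sub_zero]
    congr 2
    push_cast; ring
  have h3 : ∀ t : ℝ, (hodd H t : ℂ) * Kc ψ (2 * π * Complex.I * ((t : ℂ) - z)) =
      (hodd H t : ℂ) * Kc (fun v => (E v).re * ψ v) ((2 * π * t : ℝ) * Complex.I) +
        Complex.I * ((hodd H t : ℂ) * Kc (fun v => (E v).im * ψ v) ((2 * π * t : ℝ) * Complex.I)) := by
    intro t
    have h4 : Kc ψ (2 * π * Complex.I * ((t : ℂ) - z)) = Kc (fun v => (E v).re * ψ v) ((2 * π * t : ℝ) * Complex.I) +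
        Complex.I * Kc (fun v => (E v).im * ψ v) ((2 * π * t : ℝ) * Complex.I) := by
      have j1 := hφr.integrable_exp ((2 * π * t : ℝ) * Complex.I)
      have j2 := (hφi.integrable_exp ((2 * π * t : ℝ) * Complex.I)).const_mul Complex.I
      unfold Kc
      rw [← integral_const_mul, ← integral_add j1 j2]
      congr 1
      ext v
      have e1 : Complex.exp (v * (2 * π * Complex.I * ((t : ℂ) - z))) =
          E v * Complex.exp (v * ((2 * π * t : ℝ) * Complex.I)) := by
        simp only [hE]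
        rw [← Complex.exp_add]; congr 1; push_cast; ring
      have e2 : (((E v).re : ℂ)) + Complex.I * ((E v).im : ℂ) = E v := by
        rw [mul_comm]; exact Complex.re_add_im (E v)
      rw [e1]
      push_cast
      linear_combination -(ψ v : ℂ) * Complex.exp (v * (2 * π * t * Complex.I)) * e2
    rw [h4]; ring
  simp_rw [h3]
  rw [integral_add (i1 hφr) ((i1 hφi).const_mul Complex.I), integral_const_mul, h1, h2]
  simp

end

end Pool.Agent.PairCorr
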