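import Mathlib
import Pool.Agent.PairCorr.G_Line

set_option autoImplicit false

namespace Pool.Agent.PairCorr

open MeasureTheory Filter Topology Set Real

/-! ### Real kernels -/

/-- `f` is the (real) transform of a test function of band `b`. -/
def IsK (f : ℝ → ℝ) (b : ℝ) : Prop := ∃ ψ : ℝ → ℝ, TF ψ b ∧ ∀ u : ℝ, Kc ψ ((2 * π * u : ℝ) * Complex.I) = (f u : ℂ)

lemma Kc_add {φ ψ : ℝ → ℝ} {b : ℝ} (h1 : TF φ b) (h2 : TF ψ b) (w : ℂ) :
    Kc (fun v => φ v + ψ v) w = Kc φ w + Kc ψ w := by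
  unfold Kc
  rw [← integral_add (h1.integrable_exp w) (h2.integrable_exp w)]
  congr 1
  ext v
  push_cast; ring

lemma IsK.mono {f : ℝ → ℝ} {b b' : ℝ} (h : IsK f b) (hb : b ≤ b') : IsK f b' := by
  obtain ⟨ψ, h1, h2⟩ := h
  exact ⟨ψ, h1.mono hb, h2⟩

lemma IsK.add {f g : ℝ → ℝ} {b : ℝ} (h : IsK f b) (h' : IsK g b) : IsK (fun u => f u + g u) b := by
  obtain ⟨ψ, h1, h2⟩ := h
  obtain ⟨φ, h3, h4⟩ := h'
  refine ⟨fun v => ψ v + φ v, h1.add h3, fun u => ?_⟩
  rw [Kc_add h1 h3, h2, h4]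
  push_cast; rfl

lemma IsK.const_mul {f : ℝ → ℝ} {b : ℝ} (h : IsK f b) (c : ℝ) : IsK (fun u => c * f u) b := by
  obtain ⟨ψ, h1, h2⟩ := h
  refine ⟨fun v => c * ψ v, h1.const_mul c, fun u => ?_⟩
  rw [Kc_const_mul, h2]
  push_cast; rfl

lemma IsK.mul {f g : ℝ → ℝ} {b b' : ℝ} (h : IsK f b) (h' : IsK g b') : IsK (fun u => f u * g u) (b + b') := by
  obtain ⟨ψ, h1, h2⟩ := h
  obtain ⟨φ, h3, h4⟩ := h'
  obtain ⟨χ, h5, h6⟩ := h1.conv h3
  refine ⟨χ, h5, fun u => ?_⟩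
  rw [h6, h2, h4]
  push_cast; rfl

lemma IsK.sq_mul {f : ℝ → ℝ} {b : ℝ} (h : IsK f b) : IsK (fun u => u ^ 2 * f u) b := by
  obtain ⟨ψ, h1, h2⟩ := h
  obtain ⟨χ, h5, h6⟩ := h1.pow_mul 2
  refine ⟨fun v => -(4 * π ^ 2)⁻¹ * χ v, h5.const_mul _, fun u => ?_⟩
  rw [Kc_const_mul, h6, h2]
  have hpi : (π : ℂ) ≠ 0 := by exact_mod_cast Real.pi_ne_zero
  push_cast
  rw [mul_pow, Complex.I_sq]
  field_simp
  ring

lemma IsK.cont {f : ℝ → ℝ} {b : ℝ} (h : IsK f b) : Continuous f := by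
  obtain ⟨ψ, h1, h2⟩ := h
  have h3 : Continuous (fun u : ℝ => Kc ψ ((2 * π * u : ℝ) * Complex.I)) :=
    h1.differentiable_Kc.continuous.comp (by fun_prop)
  have h4 : f = fun u => (Kc ψ ((2 * π * u : ℝ) * Complex.I)).re := by
    funext u; rw [h2 u]; simp
  rw [h4]
  exact Complex.continuous_re.comp h3

lemma IsK.gg1 {e : ℝ} (he : 0 < e) : IsK (gg e 1) (2 * e) := gg_kernel he one_pos

section
variable {H : ℝ → ℝ} {C : ℝ}

lemma Gap.isK {W : ℝ} (hG : Gap H W) (hHm : Measurable H) (hHb : ∀ u, 0 ≤ u → |H u| ≤ C)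
    {f : ℝ → ℝ} (hf : IsK f W) (x : ℝ) :
    Integrable (fun t => hodd H t * f (t - x)) ∧ ∫ t, hodd H t * f (t - x) = 0 := by
  obtain ⟨ψ, h1, h2⟩ := hf
  have h3 := hG.line hHm hHb h1 (x : ℂ)
  have h4 := line_int hHm hHb h1 (x : ℂ)
  have e1 : ∀ t : ℝ, (hodd H t : ℂ) * Kc ψ (2 * π * Complex.I * ((t : ℂ) - x)) = ((hodd H t * f (t - x) : ℝ) : ℂ) := by
    intro t
    have : (2 * π * Complex.I * ((t : ℂ) - x) : ℂ) = (2 * π * (t - x) : ℝ) * Complex.I := by push_cast; ring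
    rw [this, h2]
    push_cast; rfl
  simp_rw [e1] at h3 h4
  constructor
  · have := h4.re
    simpa using this
  · rw [integral_complex_ofReal] at h3
    exact_mod_cast h3

/-! ### The test function of a window -/

/-- the growth factor -/
noncomputable def growP (ℓ s : ℝ) : ℝ := 1 + (9 * K0 ^ 2)⁻¹ * (1 / 4 - (s / ℓ) ^ 2) * gg (1 / (3 * ℓ)) 1 s

/-- the test function -/
noncomputable def thw (e ℓ : ℝ) (n : ℕ) (s : ℝ) : ℝ := growP ℓ s ^ n * gg e 1 s

lemma thw_isK {e ℓ : ℝ} (he : 0 < e) (hℓ : 0 < ℓ) (n : ℕ) : IsK (thw e ℓ n) (n * (2 / (3 * ℓ)) + 2 * e) := by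
  induction n with
  | zero =>
    have := IsK.gg1 he
    have e1 : thw e ℓ 0 = gg e 1 := by funext s; simp [thw]
    rw [e1]
    simpa using this
  | succ n ih =>
    have h1 : IsK (gg (1 / (3 * ℓ)) 1) (2 / (3 * ℓ)) := by
      have := IsK.gg1 (e := 1 / (3 * ℓ)) (by positivity)
      have e1 : 2 * (1 / (3 * ℓ)) = 2 / (3 * ℓ) := by ring
      rwa [e1] at this
    have h2 := h1.mul ih
    have e2 : ((n + 1 : ℕ) : ℝ) * (2 / (3 * ℓ)) + 2 * e = 2 / (3 * ℓ) + (n * (2 / (3 * ℓ)) + 2 * e) := by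
      push_cast; ring
    rw [e2]
    have h3 := ih.mono (b' := 2 / (3 * ℓ) + (n * (2 / (3 * ℓ)) + 2 * e)) (by
      have : 0 < 2 / (3 * ℓ) := by positivity
      linarith)
    have h4 := (h3.add (h2.const_mul ((9 * K0 ^ 2)⁻¹ * (1 / 4)))).add
      (h2.sq_mul.const_mul (-((9 * K0 ^ 2)⁻¹ * (ℓ ^ 2)⁻¹)))
    have e3 : thw e ℓ (n + 1) = fun u => (thw e ℓ n u + (9 * K0 ^ 2)⁻¹ * (1 / 4) * (gg (1 / (3 * ℓ)) 1 u * thw e ℓ n u)) +
        -((9 * K0 ^ 2)⁻¹ * (ℓ ^ 2)⁻¹) * (u ^ 2 * (gg (1 / (3 * ℓ)) 1 u * thw e ℓ n u)) := by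
      funext u
      unfold thw growP
      rw [_root_.pow_succ]
      field_simp
      ring
    rw [e3]
    exact h4

lemma K0sq : 1 ≤ K0 ^ 2 := one_le_pow₀ one_le_K0

lemma gg1_lower {e s : ℝ} (h : |e * s| ≤ 1 / 9) : 1 / 2 ≤ gg e 1 s := by
  unfold gg
  have h3 := one_sub_h0_le (e * s / (1 : ℕ))
  rw [Nat.cast_one, div_one] at h3 ⊢
  have h6 : (e * s) ^ 2 ≤ 1 / 81 := by
    rw [← sq_abs]; nlinarith [abs_nonneg (e * s)]
  have h7 : π ^ 2 ≤ 10 := by nlinarith [Real.pi_lt_d2, Real.pi_pos]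
  have h8 : 2 * π ^ 2 * (e * s) ^ 2 ≤ 20 / 81 := by
    have : 0 ≤ (e * s) ^ 2 := by positivity
    have := Real.pi_pos
    nlinarith
  have h9 : 61 / 81 ≤ h0 (e * s) := by linarith
  have : h0 (e * s) ^ (2 * 1) = h0 (e * s) ^ 2 := by norm_num
  rw [this]
  nlinarith

lemma growP_outside {ℓ s : ℝ} (hℓ : 0 < ℓ) (hs : ℓ / 2 ≤ |s|) : 0 ≤ growP ℓ s ∧ growP ℓ s ≤ 1 := by
  have hK := K0_pos
  have hg := gg_nonneg (1 / (3 * ℓ)) 1 s
  have hα : 0 < (9 * K0 ^ 2)⁻¹ := by positivity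
  have h1 : 1 / 4 ≤ (s / ℓ) ^ 2 := by
    rw [div_pow, le_div_iff₀ (by positivity), ← sq_abs s]
    nlinarith
  unfold growP
  constructor
  · -- `y² h₀² ≤ 9 K0²`
    have h2 : (s / ℓ) ^ 2 * gg (1 / (3 * ℓ)) 1 s ≤ 9 * K0 ^ 2 := by
      unfold gg
      rw [Nat.cast_one, div_one, mul_one]
      have h3 := h0_decay (1 / (3 * ℓ) * s)
      have h4 : (s / ℓ) ^ 2 * h0 (1 / (3 * ℓ) * s) ^ 2 = 9 * (|1 / (3 * ℓ) * s| * |h0 (1 / (3 * ℓ) * s)|) ^ 2 := by
        rw [mul_pow, sq_abs, sq_abs]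
        field_simp
        ring
      rw [h4]
      have h5 : 0 ≤ |1 / (3 * ℓ) * s| * |h0 (1 / (3 * ℓ) * s)| := by positivity
      have := pow_le_pow_left₀ h5 h3 2
      linarith
    have h3 : (9 * K0 ^ 2)⁻¹ * ((s / ℓ) ^ 2 * gg (1 / (3 * ℓ)) 1 s) ≤ 1 := by
      rw [inv_mul_le_iff₀ (by positivity)]
      linarith
    have h4 : 0 ≤ (9 * K0 ^ 2)⁻¹ * (1 / 4) * gg (1 / (3 * ℓ)) 1 s := by positivity
    nlinarith
  · have : (9 * K0 ^ 2)⁻¹ * (1 / 4 - (s / ℓ) ^ 2) * gg (1 / (3 * ℓ)) 1 s ≤ 0 := by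
      apply mul_nonpos_of_nonpos_of_nonneg _ hg
      apply mul_nonpos_of_nonneg_of_nonpos hα.le
      linarith
    linarith

lemma growP_inside {ℓ s : ℝ} (hℓ : 0 < ℓ) (hs : |s| ≤ ℓ / 2) : 1 ≤ growP ℓ s ∧ growP ℓ s ≤ 1 + (36 * K0 ^ 2)⁻¹ := by
  have hK := K0_pos
  have hg := gg_nonneg (1 / (3 * ℓ)) 1 s
  have hg1 := gg_le_one (1 / (3 * ℓ)) 1 s
  have hα : 0 < (9 * K0 ^ 2)⁻¹ := by positivity
  have h1 : (s / ℓ) ^ 2 ≤ 1 / 4 := by
    rw [div_pow, div_le_iff₀ (by positivity), ← sq_abs s]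
    nlinarith [abs_nonneg s]
  have h2 : 0 ≤ (s / ℓ) ^ 2 := by positivity
  unfold growP
  constructor
  · have : 0 ≤ (9 * K0 ^ 2)⁻¹ * (1 / 4 - (s / ℓ) ^ 2) * gg (1 / (3 * ℓ)) 1 s := by
      apply mul_nonneg (mul_nonneg hα.le (by linarith)) hg
    linarith
  · have e1 : (36 * K0 ^ 2)⁻¹ = (9 * K0 ^ 2)⁻¹ * (1 / 4) * 1 := by
      field_simp; norm_num
    rw [e1]
    gcongr
    linarith

lemma growP_middle {ℓ s : ℝ} (hℓ : 0 < ℓ) (hs : |s| ≤ ℓ / 4) : 1 + (96 * K0 ^ 2)⁻¹ ≤ growP ℓ s := by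
  have hK := K0_pos
  have hα : 0 < (9 * K0 ^ 2)⁻¹ := by positivity
  have h1 : (s / ℓ) ^ 2 ≤ 1 / 16 := by
    rw [div_pow, div_le_iff₀ (by positivity), ← sq_abs s]
    nlinarith [abs_nonneg s]
  have hg : 1 / 2 ≤ gg (1 / (3 * ℓ)) 1 s := by
    apply gg1_lower
    rw [abs_mul, abs_of_pos (by positivity : 0 < 1 / (3 * ℓ))]
    calc 1 / (3 * ℓ) * |s| ≤ 1 / (3 * ℓ) * (ℓ / 4) := by gcongr
      _ = 1 / 12 := by field_simp; norm_num
      _ ≤ 1 / 9 := by norm_num
  unfold growP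
  have e1 : (96 * K0 ^ 2)⁻¹ = (9 * K0 ^ 2)⁻¹ * (3 / 16) * (1 / 2) := by
    field_simp; norm_num
  have h5 : 3 / 16 ≤ 1 / 4 - (s / ℓ) ^ 2 := by linarith
  have h6 : 0 ≤ (9 * K0 ^ 2)⁻¹ * (1 / 4 - (s / ℓ) ^ 2) := mul_nonneg hα.le (by linarith)
  rw [e1]
  apply add_le_add le_rfl
  apply mul_le_mul _ hg (by norm_num) h6
  exact mul_le_mul_of_nonneg_left h5 hα.le

/-- **Smallness inside windows.** -/
theorem win_small {W : ℝ} (hG : Gap H W) (hW : 0 < W) (hHm : Measurable H) (hHb : ∀ u, 0 ≤ u → |H u| ≤ C) :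
    ∃ K₁ κ : ℝ, 0 < K₁ ∧ 0 < κ ∧ κ ≤ 1 ∧ ∀ x ℓ m : ℝ, 0 ≤ ℓ → 0 ≤ m →
      (∀ t ∈ Icc (x - ℓ / 2) (x + ℓ / 2), -Real.exp (-m) ≤ hodd H t) →
      ∫ t in Icc (x - 1) (x + 1), |hodd H t| ≤ K₁ * Real.exp (-(κ * min ℓ m)) := by
  have hC0 : 0 ≤ C := (abs_nonneg _).trans (hHb 0 le_rfl)
  have hK := K0_pos
  have hKs := K0sq
  set β : ℝ := (96 * K0 ^ 2)⁻¹ with hβ
  have hβ0 : 0 < β := by positivity
  have hβ1 : β ≤ 1 := by
    rw [hβ]; apply inv_le_one_of_one_le₀; linarith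
  set e : ℝ := min (W / 8) (1 / 9) with he
  have he0 : 0 < e := by positivity
  have he1 : 2 * e ≤ W / 4 := by have := min_le_left (W / 8) (1 / 9 : ℝ); linarith
  have he2 : e ≤ 1 / 9 := min_le_right _ _
  set ν : ℝ := min (3 * W / 4) 1 with hν
  have hν0 : 0 < ν := by positivity
  have hν1 : ν ≤ 1 := min_le_right _ _
  have hν2 : ν ≤ 3 * W / 4 := min_le_left _ _
  -- `κ`
  set κ : ℝ := ν * Real.log (1 + β) with hκ
  have hlog0 : 0 < Real.log (1 + β) := Real.log_pos (by linarith)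
  have hlog1 : Real.log (1 + β) ≤ 1 := by
    have := Real.log_le_sub_one_of_pos (show 0 < 1 + β by linarith)
    linarith
  have hκ0 : 0 < κ := by positivity
  have hκ1 : κ ≤ 1 := by
    calc κ ≤ 1 * 1 := by rw [hκ]; gcongr
      _ = 1 := one_mul 1
  -- mass of `g`
  have hgi : Integrable (fun s : ℝ => gg e 1 s) := by
    obtain ⟨ψ, h1, h2⟩ := IsK.gg1 he0
    have := (inversion_2pi h1 0).1
    simp only [h2] at this
    have h3 := this.re
    simpa using h3
  set G : ℝ := ∫ s, gg e 1 s with hGdef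
  have hG0 : 0 ≤ G := integral_nonneg fun s => gg_nonneg _ _ _
  refine ⟨(4 * (1 + C) * G * 2 + 2 * C * Real.exp 4 + 1), κ, by positivity, hκ0, hκ1, ?_⟩
  intro x ℓ m hℓ hm hwin
  set μ : ℝ := min ℓ m with hμ
  have hμ0 : 0 ≤ μ := le_min hℓ hm
  have habs : Measurable (fun t => |hodd H t|) := (hodd_meas hHm).abs
  rcases lt_or_ge ℓ 4 with hℓ4 | hℓ4
  · -- trivial bound
    have h1 : ∫ t in Icc (x - 1) (x + 1), |hodd H t| ≤ ∫ t in Icc (x - 1) (x + 1), C := by
      apply integral_mono_of_nonneg (Eventually.of_forall fun t => abs_nonneg _)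
      · exact integrableOn_const (by rw [Real.volume_Icc]; exact ENNReal.ofReal_ne_top)
      · exact Eventually.of_forall fun t => hodd_bd hHb t
    rw [setIntegral_const, Real.volume_real_Icc_of_le (by linarith), smul_eq_mul] at h1
    refine h1.trans ?_
    have h2 : 1 ≤ Real.exp 4 * Real.exp (-(κ * μ)) := by
      rw [← Real.exp_add]
      apply Real.one_le_exp
      have h3 : μ ≤ 4 := (min_le_left _ _).trans hℓ4.le
      have h4 : κ * μ ≤ 1 * 4 := by gcongr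
      linarith
    have h5 : 0 ≤ (4 * (1 + C) * G * 2 + 1) * Real.exp (-(κ * μ)) := by positivity
    calc (x + 1 - (x - 1)) * C = 2 * C * 1 := by ring
      _ ≤ 2 * C * (Real.exp 4 * Real.exp (-(κ * μ))) := by gcongr
      _ ≤ 2 * C * (Real.exp 4 * Real.exp (-(κ * μ))) + (4 * (1 + C) * G * 2 + 1) * Real.exp (-(κ * μ)) := by linarith
      _ = _ := by ring
  · have hℓ0 : 0 < ℓ := by linarith
    set n : ℕ := ⌊ν * μ⌋₊ with hn
    have hnle : (n : ℝ) ≤ ν * μ := Nat.floor_le (by positivity)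
    have hnge : ν * μ < n + 1 := Nat.lt_floor_add_one _
    -- the kernel
    have hTK : IsK (thw e ℓ n) W := by
      apply (thw_isK he0 hℓ0 n).mono
      have h1 : (n : ℝ) ≤ 3 * W / 4 * ℓ := by
        calc (n:ℝ) ≤ ν * μ := hnle
          _ ≤ 3 * W / 4 * ℓ := by gcongr; exact min_le_left _ _
      have h2 : (n:ℝ) * (2 / (3 * ℓ)) ≤ W / 2 := by
        calc (n:ℝ) * (2 / (3 * ℓ)) ≤ (3 * W / 4 * ℓ) * (2 / (3 * ℓ)) := by gcongr
          _ = W / 2 := by field_simp; norm_num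
      linarith
    obtain ⟨hint, hzero⟩ := hG.isK hHm hHb hTK x
    have hgP0 : ∀ s, 0 ≤ growP ℓ s := by
      intro s
      rcases le_total (|s|) (ℓ / 2) with h | h
      · exact zero_le_one.trans (growP_inside hℓ0 h).1
      · exact (growP_outside hℓ0 h).1
    have hth0 : ∀ s, 0 ≤ thw e ℓ n s := fun s => mul_nonneg (pow_nonneg (hgP0 s) _) (gg_nonneg _ _ _)
    have hexpn : (1 + (36 * K0 ^ 2)⁻¹) ^ n ≤ Real.exp m := by
      have h1 : (1 + (36 * K0 ^ 2)⁻¹) ≤ Real.exp 1 := by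
        have h2 : (36 * K0 ^ 2)⁻¹ ≤ 1 := by apply inv_le_one_of_one_le₀; linarith
        have := Real.exp_one_gt_d9
        linarith
      calc (1 + (36 * K0 ^ 2)⁻¹) ^ n ≤ Real.exp 1 ^ n := by gcongr
        _ = Real.exp n := by rw [← Real.exp_nat_mul, mul_one]
        _ ≤ Real.exp m := by
          apply Real.exp_le_exp.2
          calc (n:ℝ) ≤ ν * μ := hnle
            _ ≤ 1 * m := by gcongr; exact min_le_right _ _
            _ = m := one_mul m
    -- pointwise bound of the negative part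
    have hneg : ∀ t : ℝ, thw e ℓ n (t - x) * max (-hodd H t) 0 ≤ (1 + C) * gg e 1 (t - x) := by
      intro t
      have hg := gg_nonneg e 1 (t - x)
      rcases le_total (|t - x|) (ℓ / 2) with h | h
      · have h1 := (growP_inside hℓ0 h).2
        have h2 : max (-hodd H t) 0 ≤ Real.exp (-m) := by
          apply max_le _ (Real.exp_pos _).le
          have h3 := abs_le.1 h
          have := hwin t ⟨by linarith [h3.1], by linarith [h3.2]⟩
          linarith
        unfold thw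
        calc growP ℓ (t - x) ^ n * gg e 1 (t - x) * max (-hodd H t) 0 ≤
            (1 + (36 * K0 ^ 2)⁻¹) ^ n * gg e 1 (t - x) * Real.exp (-m) := by
              have := hgP0 (t - x)
              gcongr
          _ ≤ Real.exp m * gg e 1 (t - x) * Real.exp (-m) := by gcongr
          _ = gg e 1 (t - x) * (Real.exp m * Real.exp (-m)) := by ring
          _ = gg e 1 (t - x) := by rw [← Real.exp_add, add_neg_cancel, Real.exp_zero, mul_one]
          _ ≤ (1 + C) * gg e 1 (t - x) := by nlinarith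
      · obtain ⟨h1, h2⟩ := growP_outside hℓ0 h
        have h3 : max (-hodd H t) 0 ≤ C := max_le ((neg_le_abs _).trans (hodd_bd hHb t)) hC0
        unfold thw
        calc growP ℓ (t - x) ^ n * gg e 1 (t - x) * max (-hodd H t) 0 ≤ 1 * gg e 1 (t - x) * C := by
              have h4 := pow_le_one₀ (n := n) h1 h2
              gcongr
          _ ≤ (1 + C) * gg e 1 (t - x) := by nlinarith
    have hthc : Continuous (thw e ℓ n) := hTK.cont
    have hnegi : Integrable (fun t => thw e ℓ n (t - x) * max (-hodd H t) 0) := by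
      refine Integrable.mono' ((hgi.comp_sub_right x).const_mul (1 + C)) ?_ (Eventually.of_forall fun t => ?_)
      · have h1 : Measurable (fun t => thw e ℓ n (t - x)) := (hthc.comp (by fun_prop)).measurable
        exact (h1.mul ((hodd_meas hHm).neg.max measurable_const)).aestronglyMeasurable
      · rw [Real.norm_of_nonneg (mul_nonneg (hth0 _) (le_max_right _ _))]
        exact hneg t
    have habsi : Integrable (fun t => thw e ℓ n (t - x) * |hodd H t|) := by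
      refine hint.abs.congr (Eventually.of_forall fun t => ?_)
      simp only
      rw [abs_mul, abs_of_nonneg (hth0 _), mul_comm]
    have htot : ∫ t, thw e ℓ n (t - x) * |hodd H t| ≤ 2 * ((1 + C) * G) := by
      have e1 : ∀ t, thw e ℓ n (t - x) * |hodd H t| = hodd H t * thw e ℓ n (t - x) +
          2 * (thw e ℓ n (t - x) * max (-hodd H t) 0) := by
        intro t
        rcases le_total 0 (hodd H t) with h | h
        · rw [abs_of_nonneg h, max_eq_right (by linarith)]; ring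
        · rw [abs_of_nonpos h, max_eq_left (by linarith)]; ring
      simp_rw [e1]
      rw [integral_add hint (hnegi.const_mul 2), hzero, zero_add, integral_const_mul]
      have h1 : ∫ t, thw e ℓ n (t - x) * max (-hodd H t) 0 ≤ ∫ t, (1 + C) * gg e 1 (t - x) :=
        integral_mono hnegi ((hgi.comp_sub_right x).const_mul (1 + C)) hneg
      rw [integral_const_mul, integral_sub_right_eq_self (fun s => gg e 1 s) x] at h1
      linarith
    -- lower bound near `x`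
    have hlow : (1 + β) ^ n * (1 / 2) * ∫ t in Icc (x - 1) (x + 1), |hodd H t| ≤
        ∫ t, thw e ℓ n (t - x) * |hodd H t| := by
      rw [← integral_const_mul]
      refine le_trans ?_ (setIntegral_le_integral (s := Icc (x - 1) (x + 1)) habsi
        (Eventually.of_forall fun t => mul_nonneg (hth0 _) (abs_nonneg _)))
      apply setIntegral_mono_on _ habsi.integrableOn measurableSet_Icc
      · intro t ht
        apply mul_le_mul_of_nonneg_right _ (abs_nonneg _)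
        have h1 : |t - x| ≤ 1 := by rw [abs_le]; constructor <;> linarith [ht.1, ht.2]
        have h2 := growP_middle hℓ0 (s := t - x) (by linarith)
        have h3 : 1 / 2 ≤ gg e 1 (t - x) := by
          apply gg1_lower
          rw [abs_mul, abs_of_pos he0]
          calc e * |t - x| ≤ 1 / 9 * 1 := by gcongr
            _ = 1 / 9 := mul_one _
        have h4 := hgP0 (t - x)
        unfold thw
        gcongr
      · apply Integrable.const_mul
        refine Integrable.mono' (g := fun _ => C) ?_ habs.aestronglyMeasurable ?_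
        · exact integrableOn_const (by rw [Real.volume_Icc]; exact ENNReal.ofReal_ne_top)
        · exact Eventually.of_forall fun t => by
            rw [Real.norm_eq_abs, abs_abs]; exact hodd_bd hHb t
    have hfin : (1 + β) ^ n * ∫ t in Icc (x - 1) (x + 1), |hodd H t| ≤ 4 * ((1 + C) * G) := by linarith
    -- conclusion
    have hpow : Real.exp (κ * μ) ≤ (1 + β) ^ n * 2 := by
      have h1 : Real.exp (κ * μ) = (1 + β) ^ (ν * μ) := by
        rw [Real.rpow_def_of_pos (by linarith), hκ]; congr 1; ring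
      rw [h1]
      calc (1 + β) ^ (ν * μ) ≤ (1 + β) ^ ((n:ℝ) + 1) :=
            Real.rpow_le_rpow_of_exponent_le (by linarith) hnge.le
        _ = (1 + β) ^ n * (1 + β) := by
            rw [Real.rpow_add (by linarith), Real.rpow_natCast, Real.rpow_one]
        _ ≤ _ := by gcongr; linarith
    have hI0 : 0 ≤ ∫ t in Icc (x - 1) (x + 1), |hodd H t| := integral_nonneg fun t => abs_nonneg _
    have h6 : Real.exp (κ * μ) * ∫ t in Icc (x - 1) (x + 1), |hodd H t| ≤ 4 * (1 + C) * G * 2 := by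
      calc Real.exp (κ * μ) * ∫ t in Icc (x - 1) (x + 1), |hodd H t| ≤
          ((1 + β) ^ n * 2) * ∫ t in Icc (x - 1) (x + 1), |hodd H t| := by gcongr
        _ = 2 * ((1 + β) ^ n * ∫ t in Icc (x - 1) (x + 1), |hodd H t|) := by ring
        _ ≤ 2 * (4 * ((1 + C) * G)) := by gcongr
        _ = _ := by ring
    have h7 : ∫ t in Icc (x - 1) (x + 1), |hodd H t| ≤ 4 * (1 + C) * G * 2 * Real.exp (-(κ * μ)) := by
      rw [Real.exp_neg, ← div_eq_mul_inv, le_div_iff₀ (Real.exp_pos _), mul_comm]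
      exact h6
    refine h7.trans ?_
    have h8 : 0 ≤ (2 * C * Real.exp 4 + 1) * Real.exp (-(κ * μ)) := by positivity
    linarith

end

end Pool.Agent.PairCorr
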