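import Mathlib
import Pool.Agent.PairCorr.G_Theta

set_option autoImplicit false

namespace Pool.Agent.PairCorr

open MeasureTheory Filter Topology Set Real

/-! ### Primitives of test functions -/

lemma TF.primitive {φ : ℝ → ℝ} {b : ℝ} (hb : 0 ≤ b) (h : TF φ b) (h0 : ∫ v, φ v = 0) :
    ∃ χ : ℝ → ℝ, TF χ b ∧ ∀ w, Kc φ w = w * Kc χ w := by
  set χ : ℝ → ℝ := fun x => -∫ t in (-b)..x, φ t with hχ
  have hd : ∀ x, HasDerivAt χ (-φ x) x := by
    intro x
    exact (intervalIntegral.integral_hasDerivAt_right (h.cont.intervalIntegrable _ _)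
      (h.cont.stronglyMeasurableAtFilter _ _) h.cont.continuousAt).neg
  have hderiv : _root_.deriv χ = fun x => -φ x := funext fun x => (hd x).deriv
  have hTF : TF χ b := by
    refine ⟨?_, ?_⟩
    · rw [contDiff_infty_iff_deriv]
      refine ⟨fun x => (hd x).differentiableAt, ?_⟩
      rw [hderiv]
      exact h.smooth.neg
    · intro v hv
      simp only [hχ]
      rcases le_total 0 v with h1 | h1
      · rw [abs_of_nonneg h1] at hv
        -- the integral over `[-b, v]` is the total integral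
        have e1 : ∫ t in (-b)..v, φ t = ∫ t, φ t := by
          rw [intervalIntegral.integral_of_le (by linarith)]
          apply setIntegral_eq_integral_of_ae_compl_eq_zero
          have hne : ∀ᵐ t : ℝ, t ≠ -b := by
            rw [ae_iff]; simp
          filter_upwards [hne] with t ht ht2
          apply h.supp
          rcases lt_or_ge t (-b) with h3 | h3
          · rw [lt_abs]; right; linarith
          · have h4 : v < t := by
              by_contra hc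
              push Not at hc
              exact ht2 ⟨lt_of_le_of_ne h3 (Ne.symm ht), hc⟩
            rw [lt_abs]; left; linarith
        rw [e1, h0, neg_zero]
      · rw [abs_of_nonpos h1] at hv
        have e1 : ∫ t in (-b)..v, φ t = 0 := by
          rw [intervalIntegral.integral_symm, intervalIntegral.integral_of_le (by linarith)]
          rw [neg_eq_zero]
          apply setIntegral_eq_zero_of_ae_eq_zero
          have hne : ∀ᵐ t : ℝ, t ≠ -b := by
            rw [ae_iff]; simp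
          filter_upwards [hne] with t ht ht2
          apply h.supp
          rw [lt_abs]; right
          have := lt_of_le_of_ne ht2.2 ht
          linarith
        rw [e1, neg_zero]
  refine ⟨χ, hTF, fun w => ?_⟩
  rw [hTF.mul_Kc, hderiv]
  have e2 : Kc (fun x => -φ x) w = -Kc φ w := by
    have := Kc_const_mul φ (-1) w
    simpa using this
  rw [e2, neg_neg]

/-! ### The Cauchy-type kernel -/

/-- the scaled bump of band `W/4` -/
noncomputable def psW (W : ℝ) (v : ℝ) : ℝ := phi0 (v / (W / 4)) / (W / 4)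

lemma psW_TF {W : ℝ} (hW : 0 < W) : TF (psW W) (W / 4) := by
  have := phi0_TF.scale (L := W / 4) (by positivity)
  rwa [one_mul] at this

lemma Kc_psW_zero {W : ℝ} (hW : 0 < W) : Kc (psW W) 0 = 1 := by
  have h1 : Kc (psW W) 0 = Kc phi0 (((W / 4 : ℝ) : ℂ) * 0) := Kc_scale phi0 (by positivity) 0
  have h2 := Kc_phi0 0
  rw [h1, mul_zero]
  rw [mul_zero, Complex.ofReal_zero, zero_mul, h0_zero] at h2
  rw [h2]; simp

/-- the kernel -/
noncomputable def qk (W s : ℝ) (z : ℂ) : ℂ :=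
  Complex.I / (2 * π) * (Complex.exp ((s * (3 * W / 4) : ℝ) * (2 * π * Complex.I * z)) *
    Kc (psW W) (2 * π * Complex.I * z)) / z

lemma shifted_TF {W s : ℝ} (hW : 0 < W) (hs : |s| = 1) : ∃ χ : ℝ → ℝ, TF χ W ∧
    ∀ w, Kc χ w = Complex.exp ((s * (3 * W / 4) : ℝ) * w) * Kc (psW W) w := by
  obtain ⟨χ, h1, h2⟩ := (psW_TF hW).modulate (s * (3 * W / 4))
  refine ⟨χ, h1.mono ?_, h2⟩
  rw [abs_mul, hs, one_mul, abs_of_pos (by positivity)]
  linarith

lemma qk_bound {W : ℝ} (hW : 0 < W) : ∃ K : ℝ, 0 ≤ K ∧ ∀ s : ℝ, |s| = 1 → ∀ z : ℂ, z ≠ 0 →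
    ‖qk W s z‖ ≤ K * Real.exp (-(2 * π * (3 * W / 4) * (s * z.im)) + 2 * π * (W / 4) * |z.im|) *
      ((1 + ‖z‖) ^ 2)⁻¹ * ‖z‖⁻¹ := by
  obtain ⟨K, hK, hb⟩ := (psW_TF hW).strip 2
  refine ⟨K, hK, fun s hs z hz => ?_⟩
  have hpi := Real.pi_gt_three
  unfold qk
  rw [norm_div, norm_mul, norm_mul, norm_div, Complex.norm_I]
  have e1 : ‖(2 * π : ℂ)‖ = 2 * π := by
    rw [norm_mul, Complex.norm_real, Real.norm_of_nonneg Real.pi_pos.le]; simp
  have e2 : ‖Complex.exp ((s * (3 * W / 4) : ℝ) * (2 * π * Complex.I * z))‖ =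
      Real.exp (-(2 * π * (3 * W / 4) * (s * z.im))) := by
    rw [Complex.norm_exp]
    congr 1
    rw [Complex.re_ofReal_mul]
    have : (2 * π * Complex.I * z : ℂ).re = -(2 * π * z.im) := by simp
    rw [this]; ring
  rw [e1, e2, div_eq_mul_inv _ ‖z‖]
  apply mul_le_mul_of_nonneg_right _ (by positivity)
  have h1 := hb z
  rw [Real.exp_add]
  have h2 : 1 / (2 * π) ≤ 1 := by rw [div_le_one (by positivity)]; linarith
  calc 1 / (2 * π) * (Real.exp (-(2 * π * (3 * W / 4) * (s * z.im))) * ‖Kc (psW W) (2 * π * Complex.I * z)‖) ≤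
      1 * (Real.exp (-(2 * π * (3 * W / 4) * (s * z.im))) *
        (K * Real.exp (W / 4 * (2 * π * |z.im|)) * ((1 + ‖z‖) ^ 2)⁻¹)) := by gcongr
    _ = _ := by
      rw [show W / 4 * (2 * π * |z.im|) = 2 * π * (W / 4) * |z.im| by ring]; ring

/-- bound on the good side -/
lemma qk_good {W : ℝ} (hW : 0 < W) : ∃ K : ℝ, 0 ≤ K ∧ ∀ s : ℝ, |s| = 1 → ∀ z : ℂ, z ≠ 0 → s * z.im = |z.im| →
    ‖qk W s z‖ ≤ K * Real.exp (-(π * W * |z.im|)) * ((1 + ‖z‖) ^ 2)⁻¹ * ‖z‖⁻¹ := by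
  obtain ⟨K, hK, hb⟩ := qk_bound hW
  refine ⟨K, hK, fun s hs z hz hsz => ?_⟩
  have h1 := hb s hs z hz
  rw [hsz] at h1
  rwa [show -(2 * π * (3 * W / 4) * |z.im|) + 2 * π * (W / 4) * |z.im| = -(π * W * |z.im|) by ring] at h1

/-- bound in general -/
lemma qk_any {W : ℝ} (hW : 0 < W) : ∃ K : ℝ, 0 ≤ K ∧ ∀ s : ℝ, |s| = 1 → ∀ z : ℂ, z ≠ 0 →
    ‖qk W s z‖ ≤ K * Real.exp (2 * π * W * |z.im|) * ((1 + ‖z‖) ^ 2)⁻¹ * ‖z‖⁻¹ := by
  obtain ⟨K, hK, hb⟩ := qk_bound hW
  refine ⟨K, hK, fun s hs z hz => ?_⟩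
  refine (hb s hs z hz).trans ?_
  have h2 : -(s * z.im) ≤ |z.im| := by
    have := neg_abs_le (s * z.im)
    rw [abs_mul, hs, one_mul] at this
    linarith
  have hpi := Real.pi_pos
  have h3 : -(2 * π * (3 * W / 4) * (s * z.im)) + 2 * π * (W / 4) * |z.im| ≤ 2 * π * W * |z.im| := by
    have : 2 * π * (3 * W / 4) * -(s * z.im) ≤ 2 * π * (3 * W / 4) * |z.im| := by gcongr
    nlinarith
  gcongr

lemma qk_sub {W : ℝ} (hW : 0 < W) : ∃ χ : ℝ → ℝ, TF χ W ∧ ∀ z : ℂ, z ≠ 0 →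
    qk W 1 z - qk W (-1) z = -Kc χ (2 * π * Complex.I * z) := by
  obtain ⟨χ1, h1, h2⟩ := shifted_TF hW (s := 1) (by simp)
  obtain ⟨χ2, h3, h4⟩ := shifted_TF hW (s := -1) (by simp)
  have hm : ∫ v, (χ1 v - χ2 v) = 0 := by
    rw [integral_sub h1.integrable h3.integrable]
    have e1 : ∀ {χ : ℝ → ℝ}, Kc χ 0 = ((∫ v, χ v : ℝ) : ℂ) := by
      intro χ
      unfold Kc
      simp only [mul_zero, Complex.exp_zero, mul_one]
      rw [integral_complex_ofReal]
    have e2 : ((∫ v, χ1 v : ℝ) : ℂ) = 1 := by rw [← e1, h2, Kc_psW_zero hW]; simp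
    have e3 : ((∫ v, χ2 v : ℝ) : ℂ) = 1 := by rw [← e1, h4, Kc_psW_zero hW]; simp
    have e4 : ∫ v, χ1 v = 1 := by exact_mod_cast e2
    have e5 : ∫ v, χ2 v = 1 := by exact_mod_cast e3
    rw [e4, e5, sub_self]
  obtain ⟨χ, h5, h6⟩ := (h1.sub h3).primitive hW.le hm
  refine ⟨χ, h5, fun z hz => ?_⟩
  have h7 := h6 (2 * π * Complex.I * z)
  have e6 : Kc (fun v => χ1 v - χ2 v) (2 * π * Complex.I * z) =
      Kc χ1 (2 * π * Complex.I * z) - Kc χ2 (2 * π * Complex.I * z) := by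
    unfold Kc
    rw [← integral_sub (h1.integrable_exp _) (h3.integrable_exp _)]
    congr 1
    ext v
    push_cast; ring
  rw [e6] at h7
  unfold qk
  rw [← h2, ← h4]
  have hpi : (π : ℂ) ≠ 0 := by exact_mod_cast Real.pi_ne_zero
  have e7 : Complex.I / (2 * π) * Kc χ1 (2 * π * Complex.I * z) / z -
      Complex.I / (2 * π) * Kc χ2 (2 * π * Complex.I * z) / z =
      Complex.I / (2 * π) * (Kc χ1 (2 * π * Complex.I * z) - Kc χ2 (2 * π * Complex.I * z)) / z := by ring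
  rw [e7, h7]
  generalize Kc χ (2 * π * Complex.I * z) = X
  have e8 : Complex.I / (2 * π) * (2 * π * Complex.I * z * X) / z = Complex.I ^ 2 * X := by
    field_simp
  rw [e8, Complex.I_sq]
  ring

/-- derivative of the kernel, with a bound away from zero -/
lemma qk_deriv {W s : ℝ} (hW : 0 < W) (hs : |s| = 1) : ∃ q' : ℂ → ℂ, Measurable q' ∧
    (∀ z : ℂ, z ≠ 0 → HasDerivAt (qk W s) (q' z) z) ∧
    ∀ Y δ : ℝ, 0 < δ → ∃ K : ℝ, 0 ≤ K ∧ ∀ z : ℂ, δ ≤ ‖z‖ → |z.im| ≤ Y →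
      ‖q' z‖ ≤ K * ((1 + ‖z‖) ^ 2)⁻¹ := by
  obtain ⟨χ, h1, h2⟩ := shifted_TF hW hs
  have hq : ∀ z, qk W s z = Complex.I / (2 * π) * Kc χ (2 * π * Complex.I * z) / z := by
    intro z
    unfold qk
    rw [← h2]
  set χ' : ℝ → ℝ := fun v => v * χ v with hχ'
  have h3 : TF χ' W := h1.mul_id
  refine ⟨fun z => Complex.I / (2 * π) * (Kc χ' (2 * π * Complex.I * z) * (2 * π * Complex.I)) / z -
    Complex.I / (2 * π) * Kc χ (2 * π * Complex.I * z) / z ^ 2, ?_, ?_, ?_⟩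
  · have m1 := (Kc_meas h1).measurable
    have m2 := (Kc_meas h3).measurable
    fun_prop
  · intro z hz
    have d1 : HasDerivAt (fun z : ℂ => 2 * π * Complex.I * z) (2 * π * Complex.I) z := by
      simpa using (hasDerivAt_id z).const_mul (2 * π * Complex.I : ℂ)
    have d2 := (h1.hasDerivAt_Kc (2 * π * Complex.I * z)).comp z d1
    have d3 := (d2.const_mul (Complex.I / (2 * π))).div (hasDerivAt_id z) hz
    have e1 : qk W s = fun z => Complex.I / (2 * π) * (Kc χ ∘ fun z : ℂ => 2 * π * Complex.I * z) z / id z := by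
      funext z; exact hq z
    rw [e1]
    refine d3.congr_deriv ?_
    simp only [id]
    field_simp
    simp only [hχ', Function.comp]
  · intro Y δ hδ
    obtain ⟨K1, hK1, hb1⟩ := h1.strip 2
    obtain ⟨K2, hK2, hb2⟩ := h3.strip 2
    have hpi := Real.pi_gt_three
    refine ⟨K2 * Real.exp (W * (2 * π * Y)) * δ⁻¹ + K1 * Real.exp (W * (2 * π * Y)) * (δ ^ 2)⁻¹,
      by positivity, fun z hz hY => ?_⟩
    have hz0 : 0 < ‖z‖ := hδ.trans_le hz
    have e2 : ‖(2 * π : ℂ)‖ = 2 * π := by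
      rw [norm_mul, Complex.norm_real, Real.norm_of_nonneg Real.pi_pos.le]; simp
    have hexp : Real.exp (W * (2 * π * |z.im|)) ≤ Real.exp (W * (2 * π * Y)) := by gcongr
    have n1 : ‖Complex.I / (2 * π) * (Kc χ' (2 * π * Complex.I * z) * (2 * π * Complex.I)) / z‖ ≤
        K2 * Real.exp (W * (2 * π * Y)) * δ⁻¹ * ((1 + ‖z‖) ^ 2)⁻¹ := by
      have e3 : Complex.I / (2 * π) * (Kc χ' (2 * π * Complex.I * z) * (2 * π * Complex.I)) / z =
          Complex.I * Complex.I * Kc χ' (2 * π * Complex.I * z) / z := by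
        have hpi' : (π : ℂ) ≠ 0 := by exact_mod_cast Real.pi_ne_zero
        field_simp
      rw [e3, norm_div, norm_mul, norm_mul, Complex.norm_I, one_mul, one_mul, div_eq_mul_inv]
      calc ‖Kc χ' (2 * π * Complex.I * z)‖ * ‖z‖⁻¹ ≤
          (K2 * Real.exp (W * (2 * π * |z.im|)) * ((1 + ‖z‖) ^ 2)⁻¹) * δ⁻¹ := by
            gcongr
            exact hb2 z
        _ ≤ (K2 * Real.exp (W * (2 * π * Y)) * ((1 + ‖z‖) ^ 2)⁻¹) * δ⁻¹ := by gcongr
        _ = _ := by ring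
    have n2 : ‖Complex.I / (2 * π) * Kc χ (2 * π * Complex.I * z) / z ^ 2‖ ≤
        K1 * Real.exp (W * (2 * π * Y)) * (δ ^ 2)⁻¹ * ((1 + ‖z‖) ^ 2)⁻¹ := by
      rw [norm_div, norm_mul, norm_div, Complex.norm_I, e2, norm_pow, div_eq_mul_inv _ (‖z‖ ^ 2)]
      have h2 : 1 / (2 * π) ≤ 1 := by rw [div_le_one (by positivity)]; linarith
      calc 1 / (2 * π) * ‖Kc χ (2 * π * Complex.I * z)‖ * (‖z‖ ^ 2)⁻¹ ≤
          1 * (K1 * Real.exp (W * (2 * π * |z.im|)) * ((1 + ‖z‖) ^ 2)⁻¹) * (δ ^ 2)⁻¹ := by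
            gcongr
            exact hb1 z
        _ ≤ 1 * (K1 * Real.exp (W * (2 * π * Y)) * ((1 + ‖z‖) ^ 2)⁻¹) * (δ ^ 2)⁻¹ := by gcongr
        _ = _ := by ring
    refine (norm_sub_le _ _).trans ((add_le_add n1 n2).trans (le_of_eq ?_))
    ring

section
variable {H : ℝ → ℝ} {C : ℝ}

/-- the Cauchy-type transform over a set `J` -/
noncomputable def FJ (H : ℝ → ℝ) (W s : ℝ) (J : Set ℝ) (z : ℂ) : ℂ :=
  ∫ t in J, (hodd H t : ℂ) * qk W s (z - t)

lemma FJ_meas (hHm : Measurable H) {W s : ℝ} (hW : 0 < W) (z : ℂ) :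
    Measurable (fun t : ℝ => (hodd H t : ℂ) * qk W s (z - t)) := by
  have h1 := hodd_meas hHm
  have h2 : Measurable (fun t : ℝ => qk W s (z - t)) := by
    unfold qk
    have h3 := (Kc_meas (psW_TF hW)).measurable
    fun_prop
  fun_prop

lemma FJ_int (hHm : Measurable H) (hHb : ∀ u, 0 ≤ u → |H u| ≤ C) {W s : ℝ} (hW : 0 < W) (hs : |s| = 1)
    {J : Set ℝ} (hJ : MeasurableSet J) {z : ℂ} {δ : ℝ} (hδ : 0 < δ) (hz : ∀ t ∈ J, δ ≤ ‖z - t‖) :
    IntegrableOn (fun t : ℝ => (hodd H t : ℂ) * qk W s (z - t)) J := by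
  obtain ⟨K, hK, hb⟩ := qk_any hW
  have hC0 : 0 ≤ C := (abs_nonneg _).trans (hHb 0 le_rfl)
  have hdom : Integrable (fun t : ℝ => C * (K * Real.exp (2 * π * W * |z.im|) * δ⁻¹) * ((1 + |t - z.re|) ^ 2)⁻¹) :=
    (integrable_inv_sq.comp_sub_right z.re).const_mul _
  refine Integrable.mono' hdom.integrableOn (FJ_meas hHm hW z).aestronglyMeasurable ?_
  filter_upwards [ae_restrict_mem hJ] with t ht
  have h1 := hz t ht
  have hne : z - t ≠ 0 := by
    intro h0; rw [h0, norm_zero] at h1; linarith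
  have h2 := hb s hs (z - t) hne
  have him : (z - t : ℂ).im = z.im := by simp
  rw [him] at h2
  have h3 : |t - z.re| ≤ ‖z - t‖ := by
    have := Complex.abs_re_le_norm (z - t)
    simp only [Complex.sub_re, Complex.ofReal_re] at this
    rwa [abs_sub_comm] at this
  rw [norm_mul, Complex.norm_real, Real.norm_eq_abs]
  calc |hodd H t| * ‖qk W s (z - t)‖ ≤ C * (K * Real.exp (2 * π * W * |z.im|) * ((1 + ‖z - t‖) ^ 2)⁻¹ * ‖z - t‖⁻¹) := by
        gcongr
        exact hodd_bd hHb t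
    _ ≤ C * (K * Real.exp (2 * π * W * |z.im|) * ((1 + |t - z.re|) ^ 2)⁻¹ * δ⁻¹) := by gcongr
    _ = _ := by ring

/-- analyticity away from `J` -/
lemma FJ_diff (hHm : Measurable H) (hHb : ∀ u, 0 ≤ u → |H u| ≤ C) {W s : ℝ} (hW : 0 < W) (hs : |s| = 1)
    {J : Set ℝ} (hJ : MeasurableSet J) {z₀ : ℂ} {δ : ℝ} (hδ : 0 < δ) (hz : ∀ t ∈ J, δ ≤ ‖z₀ - t‖) :
    DifferentiableAt ℂ (FJ H W s J) z₀ := by
  obtain ⟨q', hqm', hq', hqb⟩ := qk_deriv hW hs
  obtain ⟨K, hK, hKb⟩ := hqb (|z₀.im| + δ / 2) (δ / 2) (by positivity)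
  have hC0 : 0 ≤ C := (abs_nonneg _).trans (hHb 0 le_rfl)
  have hball : ∀ z ∈ Metric.ball z₀ (δ / 2), ∀ t ∈ J, δ / 2 ≤ ‖z - t‖ := by
    intro z hz' t ht
    rw [Metric.mem_ball, dist_eq_norm] at hz'
    have h1 := hz t ht
    have h2 : ‖z₀ - t‖ ≤ ‖z - t‖ + ‖z - z₀‖ := by
      have : z₀ - t = (z - t) - (z - z₀) := by ring
      rw [this]; exact norm_sub_le _ _
    linarith
  have hqm : ∀ z ∈ Metric.ball z₀ (δ / 2), ∀ t ∈ J, z - (t : ℂ) ≠ 0 := by
    intro z hz' t ht h0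
    have := hball z hz' t ht
    rw [h0, norm_zero] at this
    linarith
  have key := hasDerivAt_integral_of_dominated_loc_of_deriv_le (μ := volume.restrict J)
    (F := fun (z : ℂ) (t : ℝ) => (hodd H t : ℂ) * qk W s (z - t))
    (F' := fun (z : ℂ) (t : ℝ) => (hodd H t : ℂ) * q' (z - t))
    (s := Metric.ball z₀ (δ / 2)) (x₀ := z₀)
    (bound := fun t => C * (K * (1 + δ / 2) ^ 2) * ((1 + |t - z₀.re|) ^ 2)⁻¹)
    (Metric.ball_mem_nhds z₀ (by positivity)) ?_ ?_ ?_ ?_ ?_ ?_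
  · exact key.2.differentiableAt
  · exact Eventually.of_forall fun z => (FJ_meas hHm hW z).aestronglyMeasurable
  · exact FJ_int hHm hHb hW hs hJ hδ hz
  · have h1 := hodd_meas hHm
    exact Measurable.aestronglyMeasurable (by fun_prop)
  · filter_upwards [ae_restrict_mem hJ] with t ht z hz'
    have h1 := hball z hz' t ht
    have him : |(z - t : ℂ).im| ≤ |z₀.im| + δ / 2 := by
      rw [Metric.mem_ball, dist_eq_norm] at hz'
      have h2 := Complex.abs_im_le_norm (z - z₀)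
      have e1 : (z - t : ℂ).im = z₀.im + (z - z₀).im := by simp
      rw [e1]
      exact (abs_add_le _ _).trans (by linarith)
    have h2 := hKb (z - t) h1 him
    have h3 : 1 + |t - z₀.re| ≤ (1 + δ / 2) * (1 + ‖z - t‖) := by
      have h4 := Complex.abs_re_le_norm (z - t)
      have h5 := Complex.abs_re_le_norm (z - z₀)
      rw [Metric.mem_ball, dist_eq_norm] at hz'
      have h6 : |t - z₀.re| ≤ |(z - t : ℂ).re| + |(z - z₀).re| := by
        have e1 : t - z₀.re = -(z - t : ℂ).re + (z - z₀).re := by simp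
        rw [e1]
        refine (abs_add_le _ _).trans ?_
        rw [abs_neg]
      nlinarith [norm_nonneg (z - t)]
    rw [norm_mul, Complex.norm_real, Real.norm_eq_abs]
    have h7 : ((1 + ‖z - t‖) ^ 2)⁻¹ ≤ (1 + δ / 2) ^ 2 * ((1 + |t - z₀.re|) ^ 2)⁻¹ := by
      rw [← div_eq_mul_inv, le_div_iff₀ (by positivity), inv_mul_le_iff₀ (by positivity), ← mul_pow]
      apply pow_le_pow_left₀ (by positivity)
      rw [mul_comm]; exact h3
    calc |hodd H t| * ‖q' (z - t)‖ ≤ C * (K * ((1 + ‖z - t‖) ^ 2)⁻¹) := by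
          gcongr
          exact hodd_bd hHb t
      _ ≤ C * (K * ((1 + δ / 2) ^ 2 * ((1 + |t - z₀.re|) ^ 2)⁻¹)) := by gcongr
      _ = _ := by ring
  · exact ((integrable_inv_sq.comp_sub_right z₀.re).const_mul _).integrableOn
  · filter_upwards [ae_restrict_mem hJ] with t ht z hz'
    have h1 := hq' (z - t) (hqm z hz' t ht)
    have h2 : HasDerivAt (fun z : ℂ => z - (t : ℂ)) 1 z := (hasDerivAt_id z).sub_const _
    have h3 := (h1.comp z h2).const_mul (hodd H t : ℂ)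
    simpa using h3

/-- the full transform -/
noncomputable def FCau (H : ℝ → ℝ) (W s : ℝ) (z : ℂ) : ℂ := ∫ t, (hodd H t : ℂ) * qk W s (z - t)

lemma FJ_univ (H : ℝ → ℝ) (W s : ℝ) (z : ℂ) : FJ H W s univ z = FCau H W s z := by
  unfold FJ FCau; rw [Measure.restrict_univ]

lemma im_le_norm_sub (z : ℂ) (t : ℝ) : |z.im| ≤ ‖z - t‖ := by
  have := Complex.abs_im_le_norm (z - t)
  simpa using this

/-- the two transforms agree off the real line -/
lemma FCau_eq {W : ℝ} (hW : 0 < W) (hG : Gap H W) (hHm : Measurable H) (hHb : ∀ u, 0 ≤ u → |H u| ≤ C)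
    {z : ℂ} (hz : z.im ≠ 0) : FCau H W 1 z = FCau H W (-1) z := by
  obtain ⟨χ, h1, h2⟩ := qk_sub hW
  have hpos : 0 < |z.im| := abs_pos.2 hz
  have i1 := FJ_int hHm hHb hW (s := 1) (by simp) MeasurableSet.univ hpos (fun t _ => im_le_norm_sub z t)
  have i2 := FJ_int hHm hHb hW (s := -1) (by simp) MeasurableSet.univ hpos (fun t _ => im_le_norm_sub z t)
  rw [integrableOn_univ] at i1 i2
  have h3 : FCau H W 1 z - FCau H W (-1) z = 0 := by
    unfold FCau
    rw [← integral_sub i1 i2]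
    -- reflected kernel
    have hχr : TF (fun v => χ (-v)) W := ⟨h1.smooth.comp contDiff_neg, fun v hv => h1.supp _ (by rwa [abs_neg])⟩
    have h4 := hG.line hHm hHb hχr z
    have h5 : ∫ t : ℝ, ((hodd H t : ℂ) * qk W 1 (z - t) - (hodd H t : ℂ) * qk W (-1) (z - t)) =
        -∫ t : ℝ, (hodd H t : ℂ) * Kc (fun v => χ (-v)) (2 * π * Complex.I * ((t : ℂ) - z)) := by
      rw [← integral_neg]
      congr 1
      ext t
      have hne : z - (t : ℂ) ≠ 0 := by
        intro h0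
        have := im_le_norm_sub z t
        rw [h0, norm_zero] at this
        linarith
      rw [← mul_sub, h2 _ hne, Kc_reflect]
      have e1 : -(2 * π * Complex.I * ((t : ℂ) - z)) = 2 * π * Complex.I * (z - t) := by ring
      rw [e1]; ring
    rw [h5, h4, neg_zero]
  exact sub_eq_zero.1 h3

/-- exponential decay away from the real line -/
lemma FCau_bound {W : ℝ} (hW : 0 < W) (hG : Gap H W) (hHm : Measurable H) (hHb : ∀ u, 0 ≤ u → |H u| ≤ C) :
    ∃ K : ℝ, 0 ≤ K ∧ ∀ z : ℂ, 1 / 2 ≤ |z.im| → ‖FCau H W 1 z‖ ≤ K * Real.exp (-(π * W * |z.im|)) := by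
  obtain ⟨K, hK, hb⟩ := qk_good hW
  have hC0 : 0 ≤ C := (abs_nonneg _).trans (hHb 0 le_rfl)
  set M : ℝ := ∫ t : ℝ, ((1 + |t|) ^ 2)⁻¹ with hM
  have hM0 : 0 ≤ M := integral_nonneg fun t => by positivity
  -- the bound for the good sign
  have key : ∀ s : ℝ, |s| = 1 → ∀ z : ℂ, 1 / 2 ≤ |z.im| → s * z.im = |z.im| →
      ‖FCau H W s z‖ ≤ C * (K * 2) * M * Real.exp (-(π * W * |z.im|)) := by
    intro s hs z hz hsz
    unfold FCau
    have h1 : ∫ t : ℝ, C * (K * Real.exp (-(π * W * |z.im|)) * 2) * ((1 + |t - z.re|) ^ 2)⁻¹ =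
        C * (K * 2) * M * Real.exp (-(π * W * |z.im|)) := by
      rw [integral_const_mul, integral_sub_right_eq_self (fun t : ℝ => ((1 + |t|) ^ 2)⁻¹) z.re]
      ring
    rw [← h1]
    apply norm_integral_le_of_norm_le ((integrable_inv_sq.comp_sub_right z.re).const_mul _)
    refine Eventually.of_forall fun t => ?_
    have h2 := im_le_norm_sub z t
    have hne : z - (t : ℂ) ≠ 0 := by
      intro h0
      rw [h0, norm_zero] at h2
      linarith
    have him : (z - t : ℂ).im = z.im := by simp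
    have h3 := hb s hs (z - t) hne (by rw [him]; exact hsz)
    rw [him] at h3
    have h4 : |t - z.re| ≤ ‖z - t‖ := by
      have := Complex.abs_re_le_norm (z - t)
      simp only [Complex.sub_re, Complex.ofReal_re] at this
      rwa [abs_sub_comm] at this
    have h5 : ‖z - t‖⁻¹ ≤ 2 := by
      rw [inv_le_comm₀ (by linarith) (by norm_num)]
      linarith
    rw [norm_mul, Complex.norm_real, Real.norm_eq_abs]
    calc |hodd H t| * ‖qk W s (z - t)‖ ≤ C * (K * Real.exp (-(π * W * |z.im|)) * ((1 + ‖z - t‖) ^ 2)⁻¹ * ‖z - t‖⁻¹) := by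
          gcongr
          exact hodd_bd hHb t
      _ ≤ C * (K * Real.exp (-(π * W * |z.im|)) * ((1 + |t - z.re|) ^ 2)⁻¹ * 2) := by gcongr
      _ = _ := by ring
  refine ⟨C * (K * 2) * M, by positivity, fun z hz => ?_⟩
  have hz0 : z.im ≠ 0 := by
    intro h0; rw [h0, abs_zero] at hz; linarith
  rcases lt_or_gt_of_ne hz0 with h | h
  · rw [FCau_eq hW hG hHm hHb hz0]
    exact key (-1) (by simp) z hz (by rw [abs_of_neg h]; ring)
  · exact key 1 (by simp) z hz (by rw [abs_of_pos h]; ring)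

lemma FCau_diff {W : ℝ} (hW : 0 < W) (hHm : Measurable H) (hHb : ∀ u, 0 ≤ u → |H u| ≤ C) {z : ℂ} (hz : z.im ≠ 0) :
    DifferentiableAt ℂ (FCau H W 1) z := by
  have h1 := FJ_diff hHm hHb hW (s := 1) (by simp) MeasurableSet.univ (abs_pos.2 hz)
    (fun t _ => im_le_norm_sub z t)
  have e1 : FJ H W 1 univ = FCau H W 1 := funext fun z => FJ_univ H W 1 z
  rwa [e1] at h1

end

end Pool.Agent.PairCorr
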