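import Mathlib
import Pool.Agent.PairCorr.G_Cauchy

set_option autoImplicit false

namespace Pool.Agent.PairCorr

open MeasureTheory Filter Topology Set Real
open scoped ENNReal

/-- local smallness implies weighted smallness -/
lemma local_to_weighted {h : ℝ → ℝ} (hm : Measurable h) {C : ℝ} (hC : ∀ t, |h t| ≤ C) {p q ε : ℝ} (hpq : p ≤ q)
    (hε : ∀ u ∈ Icc p q, ∫ t in Icc (u - 1) (u + 1), |h t| ≤ ε) (x₀ : ℝ) :
    ∫ t in Icc p q, |h t| * ((1 + |t - x₀|) ^ 2)⁻¹ ≤ 4 * ε * ∫ t : ℝ, ((1 + |t|) ^ 2)⁻¹ := by
  have hC0 : 0 ≤ C := (abs_nonneg _).trans (hC 0)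
  have hε0 : 0 ≤ ε := (integral_nonneg fun t => abs_nonneg _).trans (hε p ⟨le_rfl, hpq⟩)
  set w : ℝ → ℝ := fun t => ((1 + |t - x₀|) ^ 2)⁻¹ with hw
  have hw0 : ∀ t, 0 ≤ w t := fun t => by simp only [hw]; positivity
  have hwm : Measurable w := by simp only [hw]; fun_prop
  have hwi : Integrable w := integrable_inv_sq.comp_sub_right x₀
  set g : ℝ → ℝ≥0∞ := fun t => ENNReal.ofReal (|h t| * w t) with hg
  have hgm : Measurable g := by
    simp only [hg]
    have := hm.abs
    fun_prop
  -- local `L¹` norms as lintegrals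
  have hloc : ∀ u ∈ Icc p q, ∫⁻ t in Icc (u - 1) (u + 1), ENNReal.ofReal |h t| ≤ ENNReal.ofReal ε := by
    intro u hu
    rw [← ofReal_integral_eq_lintegral_ofReal]
    · exact ENNReal.ofReal_le_ofReal (hε u hu)
    · refine Integrable.mono' (g := fun _ => C) ?_ hm.abs.aestronglyMeasurable ?_
      · exact integrableOn_const (by rw [Real.volume_Icc]; exact ENNReal.ofReal_ne_top)
      · exact Eventually.of_forall fun t => by rw [Real.norm_eq_abs, abs_abs]; exact hC t
    · exact Eventually.of_forall fun t => abs_nonneg _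
  -- the double integral
  have hswap : ∫⁻ t in Icc p q, ∫⁻ u, (Icc (t - 1) (t + 1)).indicator (fun _ => g t) u =
      ∫⁻ u, ∫⁻ t in Icc p q, (Icc (t - 1) (t + 1)).indicator (fun _ => g t) u := by
    apply lintegral_lintegral_swap
    have hset : MeasurableSet {z : ℝ × ℝ | z.2 ∈ Icc (z.1 - 1) (z.1 + 1)} := by
      have h1 : MeasurableSet {z : ℝ × ℝ | z.1 - 1 ≤ z.2} := measurableSet_le (by fun_prop) (by fun_prop)
      have h2 : MeasurableSet {z : ℝ × ℝ | z.2 ≤ z.1 + 1} := measurableSet_le (by fun_prop) (by fun_prop)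
      exact h1.inter h2
    have h3 : Measurable (fun z : ℝ × ℝ => {z : ℝ × ℝ | z.2 ∈ Icc (z.1 - 1) (z.1 + 1)}.indicator (fun z => g z.1) z) :=
      (hgm.comp measurable_fst).indicator hset
    exact h3.aemeasurable
  have hleft : ∫⁻ t in Icc p q, ∫⁻ u, (Icc (t - 1) (t + 1)).indicator (fun _ => g t) u =
      2 * ∫⁻ t in Icc p q, g t := by
    rw [← lintegral_const_mul _ hgm]
    congr 1
    ext t
    rw [lintegral_indicator measurableSet_Icc, setLIntegral_const, Real.volume_Icc,
      show t + 1 - (t - 1) = 2 by ring, mul_comm]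
    congr 1
    simp
  have hright : ∫⁻ u, ∫⁻ t in Icc p q, (Icc (t - 1) (t + 1)).indicator (fun _ => g t) u ≤
      ∫⁻ u, ENNReal.ofReal (4 * w u * ε) := by
    apply lintegral_mono
    intro u
    set u' : ℝ := max p (min q u) with hu'
    have hu'mem : u' ∈ Icc p q := by
      constructor
      · exact le_max_left _ _
      · exact max_le hpq (min_le_left _ _)
    have hproj : ∀ t ∈ Icc p q, |u - t| ≤ 1 → |t - u'| ≤ 1 := by
      intro t ht hut
      rw [abs_le] at hut ⊢
      have h1 : u' = max p (min q u) := rfl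
      rcases le_total q u with h | h
      · rw [min_eq_left h, max_eq_right hpq] at h1
        rw [h1]
        constructor <;> linarith [ht.1, ht.2, hut.1, hut.2]
      · rw [min_eq_right h] at h1
        rcases le_total p u with h2 | h2
        · rw [max_eq_right h2] at h1
          rw [h1]; constructor <;> linarith [hut.1, hut.2]
        · rw [max_eq_left h2] at h1
          rw [h1]
          constructor <;> linarith [ht.1, ht.2, hut.1, hut.2]
    calc ∫⁻ t in Icc p q, (Icc (t - 1) (t + 1)).indicator (fun _ => g t) u ≤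
        ∫⁻ t in Icc p q, (Icc (u' - 1) (u' + 1)).indicator (fun t => ENNReal.ofReal (4 * w u) * ENNReal.ofReal |h t|) t := by
          apply setLIntegral_mono' measurableSet_Icc
          intro t ht
          by_cases hut : u ∈ Icc (t - 1) (t + 1)
          · have h1 : |u - t| ≤ 1 := by rw [abs_le]; constructor <;> linarith [hut.1, hut.2]
            have h2 := abs_le.1 (hproj t ht h1)
            have h3 : t ∈ Icc (u' - 1) (u' + 1) := ⟨by linarith [h2.1], by linarith [h2.2]⟩
            rw [indicator_of_mem hut, indicator_of_mem h3, ← ENNReal.ofReal_mul (by have := hw0 u; positivity)]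
            apply ENNReal.ofReal_le_ofReal
            have h4 : w t ≤ 4 * w u := by
              simp only [hw]
              rw [← div_eq_mul_inv, le_div_iff₀ (by positivity), inv_mul_le_iff₀ (by positivity)]
              have h5 : 1 + |u - x₀| ≤ 2 * (1 + |t - x₀|) := by
                have : |u - x₀| ≤ |u - t| + |t - x₀| := by
                  have e1 : u - x₀ = (u - t) + (t - x₀) := by ring
                  rw [e1]; exact abs_add_le _ _
                linarith [abs_nonneg (t - x₀)]
              calc (1 + |u - x₀|) ^ 2 ≤ (2 * (1 + |t - x₀|)) ^ 2 := by gcongr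
                _ = _ := by ring
            calc |h t| * w t ≤ |h t| * (4 * w u) := by gcongr
              _ = _ := by ring
          · rw [indicator_of_notMem hut]
            exact zero_le
      _ ≤ ∫⁻ t, (Icc (u' - 1) (u' + 1)).indicator (fun t => ENNReal.ofReal (4 * w u) * ENNReal.ofReal |h t|) t :=
          setLIntegral_le_lintegral _ _
      _ = ENNReal.ofReal (4 * w u) * ∫⁻ t in Icc (u' - 1) (u' + 1), ENNReal.ofReal |h t| := by
          rw [lintegral_indicator measurableSet_Icc, lintegral_const_mul _ (by have := hm.abs; fun_prop)]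
      _ ≤ ENNReal.ofReal (4 * w u) * ENNReal.ofReal ε := by
          gcongr
          exact hloc u' hu'mem
      _ = ENNReal.ofReal (4 * w u * ε) := by
          rw [← ENNReal.ofReal_mul (by have := hw0 u; positivity)]
  have htot : 2 * ∫⁻ t in Icc p q, g t ≤ ENNReal.ofReal (4 * ε * ∫ t : ℝ, ((1 + |t|) ^ 2)⁻¹) := by
    rw [← hleft, hswap]
    refine hright.trans (le_of_eq ?_)
    rw [← ofReal_integral_eq_lintegral_ofReal]
    · congr 1
      have e1 : ∀ u, 4 * w u * ε = (4 * ε) * w u := fun u => by ring
      simp_rw [e1]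
      rw [integral_const_mul]
      simp only [hw]
      rw [integral_sub_right_eq_self (fun t : ℝ => ((1 + |t|) ^ 2)⁻¹) x₀]
    · exact (hwi.const_mul 4).mul_const ε
    · exact Eventually.of_forall fun u => by have := hw0 u; positivity
  have hmain : ∫⁻ t in Icc p q, g t ≤ ENNReal.ofReal (4 * ε * ∫ t : ℝ, ((1 + |t|) ^ 2)⁻¹) := by
    refine le_trans ?_ htot
    calc ∫⁻ t in Icc p q, g t = 1 * ∫⁻ t in Icc p q, g t := (one_mul _).symm
      _ ≤ 2 * ∫⁻ t in Icc p q, g t := by gcongr; norm_num
  have hM0 : 0 ≤ ∫ t : ℝ, ((1 + |t|) ^ 2)⁻¹ := integral_nonneg fun t => by positivity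
  rw [← ENNReal.ofReal_le_ofReal_iff (by positivity)]
  rw [ofReal_integral_eq_lintegral_ofReal]
  · exact hmain
  · have h1 : Integrable (fun t => C * w t) := hwi.const_mul C
    refine (h1.mono' ?_ ?_).integrableOn
    · have := hm.abs
      exact Measurable.aestronglyMeasurable (by fun_prop)
    · refine Eventually.of_forall fun t => ?_
      rw [Real.norm_of_nonneg (mul_nonneg (abs_nonneg _) (by positivity))]
      exact mul_le_mul_of_nonneg_right (hC t) (hw0 t)
  · exact Eventually.of_forall fun t => mul_nonneg (abs_nonneg _) (hw0 t)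

section
variable {H : ℝ → ℝ} {C : ℝ}

set_option maxHeartbeats 4000000 in
/-- **The transform is exponentially small above the middle of a window.** -/
theorem disc_bound {W : ℝ} (hG : Gap H W) (hW : 0 < W) (hHm : Measurable H) (hHb : ∀ u, 0 ≤ u → |H u| ≤ C) :
    ∃ K c : ℝ, 0 < K ∧ 0 < c ∧ ∀ a b m : ℝ, 0 ≤ a → a ≤ b → 0 ≤ m →
      (∀ t ∈ Icc a b, -Real.exp (-m) ≤ H t) → ∀ x : ℝ, a + 3 * (b - a) / 8 ≤ x → x ≤ b - 3 * (b - a) / 8 →
      ‖FCau H W 1 (x + Complex.I)‖ ≤ K * Real.exp (-(c * min (b - a) m)) := by
  have hC0 : 0 ≤ C := (abs_nonneg _).trans (hHb 0 le_rfl)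
  obtain ⟨K₁, κ, hK₁, hκ, hκ1, hws⟩ := win_small hG hW hHm hHb
  obtain ⟨KF, hKF, hFb⟩ := FCau_bound hW hG hHm hHb
  obtain ⟨Kq, hKq, hqb⟩ := qk_any hW
  have hpi := Real.pi_pos
  set M : ℝ := ∫ t : ℝ, ((1 + |t|) ^ 2)⁻¹ with hM
  have hM0 : 0 ≤ M := integral_nonneg fun t => by positivity
  set c : ℝ := min (κ / 16) (min (π * W / 32) (κ / 32)) with hc
  have hc0 : 0 < c := by positivity
  have hc1 : c ≤ κ / 16 := min_le_left _ _
  have hc2 : c ≤ π * W / 32 := (min_le_right _ _).trans (min_le_left _ _)
  have hc3 : c ≤ κ / 32 := (min_le_right _ _).trans (min_le_right _ _)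
  -- constants
  set K₃ : ℝ := KF + Kq * (4 * K₁ * M) + C * Kq * Real.exp (3 * π * W) * M with hK₃
  have hK₃0 : 0 ≤ K₃ := by positivity
  set K₄ : ℝ := K₃ + Kq * Real.exp (2 * π * W) * (4 * K₁ * M) + KF * Real.exp (2 * π * W) + 1 with hK₄
  have hK₄0 : 0 < K₄ := by positivity
  refine ⟨K₄ * Real.exp (16 * c), c, by positivity, hc0, ?_⟩
  intro a b m ha hab hm hwin x hx1 hx2
  set L : ℝ := b - a with hL
  have hL0 : 0 ≤ L := by rw [hL]; linarith
  set S : ℝ := κ * min (L / 2) m with hS
  have hS0 : 0 ≤ S := mul_nonneg hκ.le (le_min (by linarith) hm)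
  set ρ : ℝ := min (S / (8 * π * W)) (L / 16) with hρ
  have hρ0 : 0 ≤ ρ := le_min (by positivity) (by linarith)
  have hρS : 8 * π * W * ρ ≤ S := by
    have h1 : ρ ≤ S / (8 * π * W) := min_le_left _ _
    rw [le_div_iff₀ (by positivity)] at h1
    linarith
  have hρL : ρ ≤ L / 16 := min_le_right _ _
  -- relation between `min L m`, `S`, `ρ`
  have hminS : κ / 2 * min L m ≤ S := by
    rw [hS]
    have h1 : min L m / 2 ≤ min (L / 2) m := by
      apply le_min
      · have := min_le_left L m; linarith
      · have := min_le_right L m; linarith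
    nlinarith
  have hcS : c * min L m ≤ S := by
    have h0 : 0 ≤ min L m := le_min hL0 hm
    nlinarith
  have hcρ : c * min L m ≤ π * W * ρ / 2 := by
    have h0 : 0 ≤ min L m := le_min hL0 hm
    rcases le_total (S / (8 * π * W)) (L / 16) with h | h
    · have e1 : ρ = S / (8 * π * W) := min_eq_left h
      have e2 : π * W * ρ / 2 = S / 16 := by
        rw [e1]
        field_simp
        ring
      rw [e2]
      nlinarith
    · have e1 : ρ = L / 16 := min_eq_right h
      rw [e1]
      have h2 : min L m ≤ L := min_le_left _ _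
      calc c * min L m ≤ (π * W / 32) * L := by gcongr
        _ = _ := by ring
  have hz1 : (x + Complex.I : ℂ).im = 1 := by simp
  -- trivial bound
  have htriv : ‖FCau H W 1 (x + Complex.I)‖ ≤ KF := by
    have h1 := hFb (x + Complex.I) (by rw [hz1]; norm_num)
    refine h1.trans ?_
    apply mul_le_of_le_one_right hKF
    apply Real.exp_le_one_iff.2
    rw [hz1]
    have : 0 < π * W := by positivity
    simp
    positivity
  rcases lt_or_ge ρ 2 with hρ2 | hρ2
  · -- trivial case
    have hpW : 0 < π * W := mul_pos hpi hW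
    have h1 : c * min L m ≤ π * W := by
      have h0 : π * W * ρ ≤ π * W * 2 := mul_le_mul_of_nonneg_left hρ2.le hpW.le
      linarith
    have h2 : 1 ≤ Real.exp (2 * π * W) * Real.exp (-(c * min L m)) := by
      rw [← Real.exp_add]
      apply Real.one_le_exp
      linarith
    have h3 : KF ≤ K₄ * Real.exp (-(c * min L m)) := by
      calc KF = KF * 1 := (mul_one _).symm
        _ ≤ KF * (Real.exp (2 * π * W) * Real.exp (-(c * min L m))) := by gcongr
        _ = (KF * Real.exp (2 * π * W)) * Real.exp (-(c * min L m)) := by ring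
        _ ≤ K₄ * Real.exp (-(c * min L m)) := by
          gcongr
          rw [hK₄]
          have : 0 ≤ Kq * Real.exp (2 * π * W) * (4 * K₁ * M) := by positivity
          linarith
    have h4 : 1 ≤ Real.exp (16 * c) := Real.one_le_exp (by positivity)
    calc ‖FCau H W 1 (x + Complex.I)‖ ≤ K₄ * Real.exp (-(c * min L m)) := htriv.trans h3
      _ = K₄ * 1 * Real.exp (-(c * min L m)) := by ring
      _ ≤ K₄ * Real.exp (16 * c) * Real.exp (-(c * min L m)) := by gcongr
  · -- main case
    have hL32 : 32 ≤ L := by linarith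
    set p : ℝ := a + L / 4 with hp
    set q : ℝ := b - L / 4 with hq
    have hpq : p ≤ q := by rw [hp, hq, hL]; linarith
    set J : Set ℝ := (Icc p q)ᶜ with hJ
    have hJm : MeasurableSet J := measurableSet_Icc.compl
    set ε : ℝ := K₁ * Real.exp (-S) with hε
    have hloc : ∀ u ∈ Icc p q, ∫ t in Icc (u - 1) (u + 1), |hodd H t| ≤ ε := by
      intro u hu
      have h1 := hws u (L / 2) m (by linarith) hm (by
        intro t ht
        have h2 : t ∈ Icc a b := by
          constructor
          · have := ht.1; have := hu.1; rw [hp] at this; linarith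
          · have := ht.2; have := hu.2; rw [hq] at this; linarith
        rw [hodd_pos (ha.trans h2.1)]
        exact hwin t h2)
      exact h1
    -- the two parts
    have hsplit : ∀ z : ℂ, z.im ≠ 0 → FCau H W 1 z = FJ H W 1 J z + FJ H W 1 (Icc p q) z := by
      intro z hz
      have hi := FJ_int hHm hHb hW (s := 1) (by simp) MeasurableSet.univ (abs_pos.2 hz)
        (fun t _ => im_le_norm_sub z t)
      rw [integrableOn_univ] at hi
      unfold FCau FJ
      rw [hJ, add_comm, integral_add_compl measurableSet_Icc hi]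
    have hF1 : ∀ z : ℂ, 1 ≤ |z.im| → ‖FJ H W 1 (Icc p q) z‖ ≤ Kq * Real.exp (2 * π * W * |z.im|) * (4 * ε * M) := by
      intro z hz
      have hdom := local_to_weighted (hodd_meas hHm) (hodd_bd hHb) hpq hloc z.re
      have hint : IntegrableOn (fun t : ℝ => Kq * Real.exp (2 * π * W * |z.im|) * (|hodd H t| * ((1 + |t - z.re|) ^ 2)⁻¹)) (Icc p q) := by
        apply Integrable.const_mul
        have h1 : Integrable (fun t : ℝ => C * ((1 + |t - z.re|) ^ 2)⁻¹) :=
          (integrable_inv_sq.comp_sub_right z.re).const_mul C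
        refine (h1.mono' ?_ ?_).integrableOn
        · have := (hodd_meas hHm).abs
          exact Measurable.aestronglyMeasurable (by fun_prop)
        · refine Eventually.of_forall fun t => ?_
          rw [Real.norm_of_nonneg (mul_nonneg (abs_nonneg _) (by positivity))]
          exact mul_le_mul_of_nonneg_right (hodd_bd hHb t) (by positivity)
      have h1 : ‖FJ H W 1 (Icc p q) z‖ ≤ ∫ t in Icc p q, Kq * Real.exp (2 * π * W * |z.im|) * (|hodd H t| * ((1 + |t - z.re|) ^ 2)⁻¹) := by
        unfold FJ
        apply norm_integral_le_of_norm_le hint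
        refine Eventually.of_forall fun t => ?_
        have h2 := im_le_norm_sub z t
        have hne : z - (t : ℂ) ≠ 0 := by
          intro h0
          rw [h0, norm_zero] at h2
          linarith
        have him : (z - t : ℂ).im = z.im := by simp
        have h3 := hqb 1 (by simp) (z - t) hne
        rw [him] at h3
        have h4 : |t - z.re| ≤ ‖z - t‖ := by
          have := Complex.abs_re_le_norm (z - t)
          simp only [Complex.sub_re, Complex.ofReal_re] at this
          rwa [abs_sub_comm] at this
        have h5 : ‖z - t‖⁻¹ ≤ 1 := inv_le_one_of_one_le₀ (by linarith)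
        rw [norm_mul, Complex.norm_real, Real.norm_eq_abs]
        calc |hodd H t| * ‖qk W 1 (z - t)‖ ≤ |hodd H t| * (Kq * Real.exp (2 * π * W * |z.im|) * ((1 + ‖z - t‖) ^ 2)⁻¹ * ‖z - t‖⁻¹) := by
              gcongr
          _ ≤ |hodd H t| * (Kq * Real.exp (2 * π * W * |z.im|) * ((1 + |t - z.re|) ^ 2)⁻¹ * 1) := by gcongr
          _ = _ := by ring
      rw [integral_const_mul] at h1
      refine h1.trans ?_
      gcongr
    -- distance from the disc to `J`
    have hdist : ∀ z : ℂ, ‖z - x‖ ≤ ρ → ∀ t ∈ J, 1 ≤ ‖z - t‖ := by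
      intro z hz t ht
      have h1 : L / 8 ≤ |x - t| := by
        rw [hJ, mem_compl_iff, mem_Icc, not_and_or, not_le, not_le] at ht
        rcases ht with h | h
        · rw [le_abs]; left
          rw [hp] at h; linarith
        · rw [le_abs]; right
          rw [hq] at h; linarith
      have h2 : |x - t| ≤ ‖z - x‖ + ‖z - t‖ := by
        have h3 : ((x - t : ℝ) : ℂ) = (z - t) - (z - x) := by push_cast; ring
        have h4 : |x - t| = ‖((x - t : ℝ) : ℂ)‖ := by rw [Complex.norm_real, Real.norm_eq_abs]
        rw [h4, h3]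
        refine (norm_sub_le _ _).trans (by linarith)
      linarith
    have hdist' : ∀ z : ℂ, ‖z - x‖ ≤ ρ + 1 → ∀ t ∈ J, 1 / 2 ≤ ‖z - t‖ := by
      intro z hz t ht
      have h1 : L / 8 ≤ |x - t| := by
        rw [hJ, mem_compl_iff, mem_Icc, not_and_or, not_le, not_le] at ht
        rcases ht with h | h
        · rw [le_abs]; left
          rw [hp] at h; linarith
        · rw [le_abs]; right
          rw [hq] at h; linarith
      have h2 : |x - t| ≤ ‖z - x‖ + ‖z - t‖ := by
        have h3 : ((x - t : ℝ) : ℂ) = (z - t) - (z - x) := by push_cast; ring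
        have h4 : |x - t| = ‖((x - t : ℝ) : ℂ)‖ := by rw [Complex.norm_real, Real.norm_eq_abs]
        rw [h4, h3]
        refine (norm_sub_le _ _).trans (by linarith)
      linarith
    -- bound for the analytic part on the closed disc
    have hF2 : ∀ z : ℂ, ‖z - x‖ ≤ ρ → ‖FJ H W 1 J z‖ ≤ K₃ * Real.exp (-(π * W * |z.im|)) := by
      intro z hz
      have hyρ : |z.im| ≤ ρ := by
        have := Complex.abs_im_le_norm (z - x)
        simp only [Complex.sub_im, Complex.ofReal_im, sub_zero] at this
        linarith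
      rcases le_or_gt 1 |z.im| with hy | hy
      · have hz0 : z.im ≠ 0 := by
          intro h0; rw [h0, abs_zero] at hy; linarith
        have h1 : FJ H W 1 J z = FCau H W 1 z - FJ H W 1 (Icc p q) z := by
          rw [hsplit z hz0]; ring
        rw [h1]
        have h2 := hFb z (by linarith)
        have h3 := hF1 z hy
        have h4 : Real.exp (2 * π * W * |z.im|) * Real.exp (-S) ≤ Real.exp (-(π * W * |z.im|)) := by
          rw [← Real.exp_add]
          apply Real.exp_le_exp.2
          have h5 : π * W * |z.im| ≤ π * W * ρ := by gcongr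
          nlinarith
        have h5 : Kq * Real.exp (2 * π * W * |z.im|) * (4 * ε * M) ≤ Kq * (4 * K₁ * M) * Real.exp (-(π * W * |z.im|)) := by
          calc Kq * Real.exp (2 * π * W * |z.im|) * (4 * ε * M) =
              Kq * (4 * K₁ * M) * (Real.exp (2 * π * W * |z.im|) * Real.exp (-S)) := by rw [hε]; ring
            _ ≤ _ := by gcongr
        refine (norm_sub_le _ _).trans ((add_le_add h2 (h3.trans h5)).trans ?_)
        rw [← add_mul]
        apply mul_le_mul_of_nonneg_right _ (Real.exp_pos _).le
        rw [hK₃]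
        have : 0 ≤ C * Kq * Real.exp (3 * π * W) * M := by positivity
        linarith
      · -- near the real line
        have h1 : ‖FJ H W 1 J z‖ ≤ ∫ t in J, C * (Kq * Real.exp (2 * π * W)) * ((1 + |t - z.re|) ^ 2)⁻¹ := by
          unfold FJ
          apply norm_integral_le_of_norm_le
          · exact ((integrable_inv_sq.comp_sub_right z.re).const_mul _).integrableOn
          · filter_upwards [ae_restrict_mem hJm] with t ht
            have h2 := hdist z hz t ht
            have hne : z - (t : ℂ) ≠ 0 := by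
              intro h0
              rw [h0, norm_zero] at h2
              linarith
            have him : (z - t : ℂ).im = z.im := by simp
            have h3 := hqb 1 (by simp) (z - t) hne
            rw [him] at h3
            have h4 : |t - z.re| ≤ ‖z - t‖ := by
              have := Complex.abs_re_le_norm (z - t)
              simp only [Complex.sub_re, Complex.ofReal_re] at this
              rwa [abs_sub_comm] at this
            have h5 : ‖z - t‖⁻¹ ≤ 1 := inv_le_one_of_one_le₀ h2
            have h6 : Real.exp (2 * π * W * |z.im|) ≤ Real.exp (2 * π * W) := by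
              apply Real.exp_le_exp.2
              have : 0 < 2 * π * W := by positivity
              nlinarith
            rw [norm_mul, Complex.norm_real, Real.norm_eq_abs]
            calc |hodd H t| * ‖qk W 1 (z - t)‖ ≤ C * (Kq * Real.exp (2 * π * W * |z.im|) * ((1 + ‖z - t‖) ^ 2)⁻¹ * ‖z - t‖⁻¹) := by
                  gcongr
                  exact hodd_bd hHb t
              _ ≤ C * (Kq * Real.exp (2 * π * W) * ((1 + |t - z.re|) ^ 2)⁻¹ * 1) := by gcongr
              _ = _ := by ring
        have h2 : ∫ t in J, C * (Kq * Real.exp (2 * π * W)) * ((1 + |t - z.re|) ^ 2)⁻¹ ≤ C * (Kq * Real.exp (2 * π * W)) * M := by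
          refine (setIntegral_le_integral ((integrable_inv_sq.comp_sub_right z.re).const_mul _)
            (Eventually.of_forall fun t => by positivity)).trans (le_of_eq ?_)
          rw [integral_const_mul, integral_sub_right_eq_self (fun t : ℝ => ((1 + |t|) ^ 2)⁻¹) z.re]
        refine (h1.trans h2).trans ?_
        have h3 : Real.exp (2 * π * W) ≤ Real.exp (3 * π * W) * Real.exp (-(π * W * |z.im|)) := by
          rw [← Real.exp_add]
          apply Real.exp_le_exp.2
          have : 0 < π * W := by positivity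
          nlinarith
        calc C * (Kq * Real.exp (2 * π * W)) * M ≤ C * (Kq * (Real.exp (3 * π * W) * Real.exp (-(π * W * |z.im|)))) * M := by gcongr
          _ = (C * Kq * Real.exp (3 * π * W) * M) * Real.exp (-(π * W * |z.im|)) := by ring
          _ ≤ K₃ * Real.exp (-(π * W * |z.im|)) := by
            gcongr
            rw [hK₃]
            have : 0 ≤ Kq * (4 * K₁ * M) := by positivity
            linarith
    -- the maximum principle
    have hρ0' : 0 < ρ := by linarith
    set G : ℂ → ℂ := fun z => FJ H W 1 J z * Complex.exp ((π * W * ρ / 2 : ℝ) * (1 - ((z - x) / ρ) ^ 2)) with hGdef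
    have hGd : DiffContOnCl ℂ G (Metric.ball (x : ℂ) ρ) := by
      apply DifferentiableOn.diffContOnCl
      intro z hz
      rw [closure_ball _ hρ0'.ne', Metric.mem_closedBall, dist_eq_norm] at hz
      have h1 := FJ_diff hHm hHb hW (s := 1) (by simp) hJm one_pos (hdist z hz)
      have h2 : DifferentiableAt ℂ (fun z : ℂ => Complex.exp ((π * W * ρ / 2 : ℝ) * (1 - ((z - x) / ρ) ^ 2))) z := by
        fun_prop
      exact (h1.mul h2).differentiableWithinAt
    have hGb : ∀ z ∈ frontier (Metric.ball (x : ℂ) ρ), ‖G z‖ ≤ K₃ := by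
      intro z hz
      rw [frontier_ball _ hρ0'.ne', mem_sphere_iff_norm] at hz
      have h1 := hF2 z hz.le
      simp only [hGdef]
      rw [norm_mul, Complex.norm_exp, Complex.re_ofReal_mul]
      -- real part on the circle
      have h2 : (1 - ((z - x) / ρ) ^ 2 : ℂ).re = 2 * (z.im / ρ) ^ 2 := by
        have h3 : (z.re - x) ^ 2 + z.im ^ 2 = ρ ^ 2 := by
          have h4 : ‖z - x‖ ^ 2 = ρ ^ 2 := by rw [hz]
          rw [← Complex.normSq_eq_norm_sq, Complex.normSq_apply] at h4
          simp only [Complex.sub_re, Complex.ofReal_re, Complex.sub_im, Complex.ofReal_im, sub_zero] at h4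
          nlinarith
        have h5 : (1 - ((z - x) / ρ) ^ 2 : ℂ).re = 1 - ((z.re - x) ^ 2 - z.im ^ 2) / ρ ^ 2 := by
          rw [div_pow, Complex.sub_re, Complex.one_re]
          congr 1
          have : ((ρ : ℂ)) ^ 2 = ((ρ ^ 2 : ℝ) : ℂ) := by push_cast; rfl
          rw [this, Complex.div_ofReal_re, sq, Complex.mul_re]
          simp only [Complex.sub_re, Complex.ofReal_re, Complex.sub_im, Complex.ofReal_im, sub_zero]
          congr 1; ring
        rw [h5]
        have h6 : (z.re - x) ^ 2 = ρ ^ 2 - z.im ^ 2 := by linarith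
        rw [h6]
        field_simp
        ring
      rw [h2]
      have hyρ : |z.im| ≤ ρ := by
        have := Complex.abs_im_le_norm (z - x)
        simp only [Complex.sub_im, Complex.ofReal_im, sub_zero] at this
        linarith
      have h3 : π * W * ρ / 2 * (2 * (z.im / ρ) ^ 2) ≤ π * W * |z.im| := by
        have e1 : π * W * ρ / 2 * (2 * (z.im / ρ) ^ 2) = π * W * (|z.im| * (|z.im| / ρ)) := by
          rw [div_pow, ← sq_abs z.im]; field_simp
        rw [e1]
        have h4 : |z.im| / ρ ≤ 1 := by rw [div_le_one hρ0']; exact hyρ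
        have : 0 < π * W := by positivity
        have h5 : |z.im| * (|z.im| / ρ) ≤ |z.im| * 1 := by gcongr
        rw [mul_one] at h5
        gcongr
      calc ‖FJ H W 1 J z‖ * Real.exp (π * W * ρ / 2 * (2 * (z.im / ρ) ^ 2)) ≤
          (K₃ * Real.exp (-(π * W * |z.im|))) * Real.exp (π * W * |z.im|) := by gcongr
        _ = K₃ * (Real.exp (-(π * W * |z.im|)) * Real.exp (π * W * |z.im|)) := by ring
        _ = K₃ := by rw [← Real.exp_add, neg_add_cancel, Real.exp_zero, mul_one]
    have hmax := Complex.norm_le_of_forall_mem_frontier_norm_le Metric.isBounded_ball hGd hGb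
      (z := (x : ℂ) + Complex.I) (by
        rw [closure_ball _ hρ0'.ne', Metric.mem_closedBall, dist_eq_norm]
        simp only [add_sub_cancel_left, Complex.norm_I]
        linarith)
    have hF2x : ‖FJ H W 1 J (x + Complex.I)‖ ≤ K₃ * Real.exp (-(π * W * ρ / 2)) := by
      simp only [hGdef] at hmax
      rw [norm_mul, Complex.norm_exp, Complex.re_ofReal_mul] at hmax
      have h2 : (1 - (((x : ℂ) + Complex.I - x) / ρ) ^ 2 : ℂ).re = 1 + 1 / ρ ^ 2 := by
        rw [add_sub_cancel_left, div_pow, Complex.I_sq]
        have : (1 - -1 / (ρ : ℂ) ^ 2 : ℂ) = ((1 + 1 / ρ ^ 2 : ℝ) : ℂ) := by push_cast; ring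
        rw [this, Complex.ofReal_re]
      rw [h2] at hmax
      have h3 : Real.exp (π * W * ρ / 2) ≤ Real.exp (π * W * ρ / 2 * (1 + 1 / ρ ^ 2)) := by
        apply Real.exp_le_exp.2
        have : 0 < π * W * ρ / 2 := by positivity
        have : 0 < 1 / ρ ^ 2 := by positivity
        nlinarith
      rw [Real.exp_neg, ← div_eq_mul_inv, le_div_iff₀ (Real.exp_pos _)]
      refine le_trans ?_ hmax
      gcongr
    have hF1x := hF1 (x + Complex.I) (by rw [hz1]; simp)
    rw [hz1, abs_one, mul_one] at hF1x
    have hfin : ‖FCau H W 1 (x + Complex.I)‖ ≤ K₃ * Real.exp (-(π * W * ρ / 2)) + Kq * Real.exp (2 * π * W) * (4 * ε * M) := by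
      rw [hsplit (x + Complex.I) (by rw [hz1]; norm_num)]
      exact (norm_add_le _ _).trans (add_le_add hF2x hF1x)
    have h1 : Real.exp (-(π * W * ρ / 2)) ≤ Real.exp (-(c * min L m)) := by
      apply Real.exp_le_exp.2; linarith
    have h2 : Real.exp (-S) ≤ Real.exp (-(c * min L m)) := by
      apply Real.exp_le_exp.2; linarith
    have h3 : K₃ * Real.exp (-(π * W * ρ / 2)) + Kq * Real.exp (2 * π * W) * (4 * ε * M) ≤
        K₄ * Real.exp (-(c * min L m)) := by
      calc K₃ * Real.exp (-(π * W * ρ / 2)) + Kq * Real.exp (2 * π * W) * (4 * ε * M) =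
          K₃ * Real.exp (-(π * W * ρ / 2)) + Kq * Real.exp (2 * π * W) * (4 * K₁ * M) * Real.exp (-S) := by
            rw [hε]; ring
        _ ≤ K₃ * Real.exp (-(c * min L m)) + Kq * Real.exp (2 * π * W) * (4 * K₁ * M) * Real.exp (-(c * min L m)) := by
            gcongr
        _ = (K₃ + Kq * Real.exp (2 * π * W) * (4 * K₁ * M)) * Real.exp (-(c * min L m)) := by ring
        _ ≤ _ := by
            gcongr
            rw [hK₄]
            have : 0 ≤ KF * Real.exp (2 * π * W) := by positivity
            linarith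
    have h4 : 1 ≤ Real.exp (16 * c) := Real.one_le_exp (by positivity)
    calc ‖FCau H W 1 (x + Complex.I)‖ ≤ K₄ * Real.exp (-(c * min L m)) := hfin.trans h3
      _ = K₄ * 1 * Real.exp (-(c * min L m)) := by ring
      _ ≤ K₄ * Real.exp (16 * c) * Real.exp (-(c * min L m)) := by gcongr

end

end Pool.Agent.PairCorr
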