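import Mathlib
import Pool.Agent.PairCorr.G_Disc

set_option autoImplicit false

namespace Pool.Agent.PairCorr

open MeasureTheory Filter Topology Set Real

/-! ### Harmonic measure in a half-plane -/

/-- analytic completion of the harmonic measure of `[p, q]` in the upper half-plane -/
noncomputable def Phi (p q : ℝ) (w : ℂ) : ℂ :=
  -(Complex.I / π) * (Complex.log (w - q) - Complex.log (w - p))

lemma Phi_re (p q : ℝ) (w : ℂ) : (Phi p q w).re = (Complex.arg (w - q) - Complex.arg (w - p)) / π := by
  unfold Phi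
  have h1 : -(Complex.I / π) * (Complex.log (w - q) - Complex.log (w - p)) =
      ((1 / π : ℝ) : ℂ) * (-(Complex.I * (Complex.log (w - q) - Complex.log (w - p)))) := by
    push_cast; ring
  rw [h1, Complex.re_ofReal_mul]
  simp only [Complex.neg_re, Complex.mul_re, Complex.I_re, Complex.I_im, Complex.sub_re, Complex.sub_im,
    Complex.log_im, zero_mul, one_mul, zero_sub, neg_neg]
  ring

lemma Phi_le_one {p q : ℝ} {w : ℂ} (hw : 0 < w.im) : (Phi p q w).re ≤ 1 := by
  rw [Phi_re, div_le_one Real.pi_pos]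
  have h1 : (w - q : ℂ).arg ≤ π := Complex.arg_le_pi _
  have h2 : 0 ≤ (w - p : ℂ).arg := by
    rw [Complex.arg_nonneg_iff]; simp [hw.le]
  linarith

lemma slit_of_im {w : ℂ} (hw : 0 < w.im) (t : ℝ) : w - t ∈ Complex.slitPlane := by
  rw [Complex.mem_slitPlane_iff]; right
  simp [hw.ne']

lemma Phi_diff {p q : ℝ} {w : ℂ} (hw : 0 < w.im) : DifferentiableAt ℂ (Phi p q) w := by
  unfold Phi
  have h1 := slit_of_im hw q
  have h2 := slit_of_im hw p
  have d1 : DifferentiableAt ℂ (fun w : ℂ => Complex.log (w - q)) w :=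
    (differentiableAt_id.sub_const _).clog h1
  have d2 : DifferentiableAt ℂ (fun w : ℂ => Complex.log (w - p)) w :=
    (differentiableAt_id.sub_const _).clog h2
  exact (d1.sub d2).const_mul _

lemma Phi_mvt {p q : ℝ} (hpq : p < q) {w : ℂ} (hw : 0 < w.im) :
    ∃ τ ∈ Ioo p q, (Phi p q w).re = (q - p) * (w.im / (π * ‖w - τ‖ ^ 2)) := by
  have hd : ∀ t : ℝ, HasDerivAt (fun t : ℝ => (Complex.log (w - t)).im) (w.im / ‖w - t‖ ^ 2) t := by
    intro t
    have h1 : HasDerivAt (fun t : ℝ => w - (t : ℂ)) (-1) t := by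
      simpa using (Complex.ofRealCLM.hasDerivAt (x := t)).const_sub w
    have h2 := (Complex.hasStrictDerivAt_log (slit_of_im hw t)).hasDerivAt.comp t h1
    have h3 := Complex.imCLM.hasFDerivAt.comp_hasDerivAt t h2
    refine h3.congr_deriv ?_
    simp only [Complex.imCLM_apply]
    rw [← Complex.normSq_eq_norm_sq]
    have h4 : ((w - t : ℂ)⁻¹ * -1).im = -(w - t : ℂ)⁻¹.im := by simp
    rw [h4, Complex.inv_im]
    simp
    ring
  obtain ⟨τ, hτ, h⟩ := exists_hasDerivAt_eq_slope (fun t : ℝ => (Complex.log (w - t)).im) (fun t => w.im / ‖w - t‖ ^ 2) hpq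
    (fun t _ => (hd t).continuousAt.continuousWithinAt) (fun t _ => hd t)
  refine ⟨τ, hτ, ?_⟩
  rw [Phi_re]
  simp only [Complex.log_im] at h
  have hqp : 0 < q - p := by linarith
  rw [eq_div_iff hqp.ne'] at h
  rw [← h]
  have hne : ‖w - τ‖ ≠ 0 := by
    rw [norm_ne_zero_iff]
    intro h0
    have : (w - τ : ℂ).im = 0 := by rw [h0]; simp
    simp at this
    exact hw.ne' this
  field_simp

/-- **Two constants theorem for finitely many intervals.** -/
theorem harm_bound {ι : Type*} [DecidableEq ι] {G : ℂ → ℂ} {C₂ θ : ℝ} (hC₂ : 0 ≤ C₂) (hθ : 0 < θ)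
    (hd : ∀ z : ℂ, 0 < z.im → DifferentiableAt ℂ G z) (hb : ∀ z : ℂ, 1 ≤ z.im → ‖G z‖ ≤ C₂)
    (s : Finset ι) (p q μ : ι → ℝ) (hpq : ∀ j ∈ s, p j < q j) (hμ : ∀ j ∈ s, 0 ≤ μ j)
    (hsep : ∀ x : ℝ, ∀ j ∈ s, ∀ k ∈ s, p j - θ ≤ x → x ≤ q j + θ → p k - θ ≤ x → x ≤ q k + θ → j = k)
    (hs : ∀ j ∈ s, ∀ x : ℝ, p j - θ ≤ x → x ≤ q j + θ → ‖G (x + Complex.I)‖ ≤ C₂ * Real.exp (-μ j))
    {z₀ : ℂ} (hz₀ : 1 < z₀.im) (ω : ι → ℝ)
    (hω : ∀ j ∈ s, ∀ τ ∈ Ioo (p j) (q j), ∀ η ∈ Ioc (0:ℝ) 1,
      ω j ≤ (q j - p j) * ((z₀.im - 1 + η) / (π * ‖z₀ - Complex.I + η * Complex.I - τ‖ ^ 2))) :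
    ‖G z₀‖ ≤ C₂ * Real.exp (-∑ j ∈ s, μ j * ω j) := by
  have hpi := Real.pi_pos
  set S : ℝ := ∑ j ∈ s, μ j * ((q j - p j) / (π * θ ^ 2)) with hS
  set Ω : ℝ := ∑ j ∈ s, μ j * ω j with hΩ
  have key : ∀ η ∈ Ioc (0:ℝ) 1, ‖G z₀‖ ≤ C₂ * Real.exp (η * S - Ω) := by
    intro η hη
    set E : ℂ → ℂ := fun w => Complex.exp (∑ j ∈ s, (μ j : ℂ) * Phi (p j) (q j) (Complex.I * w + η * Complex.I)) with hE
    set f : ℂ → ℂ := fun w => G (Complex.I + Complex.I * w) * E w with hf
    have him1 : ∀ w : ℂ, (Complex.I + Complex.I * w).im = 1 + w.re := by intro w; simp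
    have him2 : ∀ w : ℂ, (Complex.I * w + η * Complex.I).im = w.re + η := by intro w; simp
    have hEn : ∀ w : ℂ, ‖E w‖ = Real.exp (∑ j ∈ s, μ j * (Phi (p j) (q j) (Complex.I * w + η * Complex.I)).re) := by
      intro w
      simp only [hE]
      rw [Complex.norm_exp]
      congr 1
      rw [Complex.re_sum]
      apply Finset.sum_congr rfl
      intro j _
      rw [Complex.re_ofReal_mul]
    have hEb : ∀ w : ℂ, 0 ≤ w.re → ‖E w‖ ≤ Real.exp (∑ j ∈ s, μ j) := by
      intro w hw
      rw [hEn]
      apply Real.exp_le_exp.2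
      apply Finset.sum_le_sum
      intro j hj
      have := Phi_le_one (p := p j) (q := q j) (w := Complex.I * w + η * Complex.I) (by rw [him2]; linarith [hη.1])
      exact mul_le_of_le_one_right (hμ j hj) this
    have hfb : ∀ w : ℂ, 0 ≤ w.re → ‖f w‖ ≤ C₂ * Real.exp (∑ j ∈ s, μ j) := by
      intro w hw
      simp only [hf]
      rw [norm_mul]
      have h1 := hb (Complex.I + Complex.I * w) (by rw [him1]; linarith)
      have h2 := hEb w hw
      gcongr
    have hfd : DiffContOnCl ℂ f {z | 0 < z.re} := by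
      apply DifferentiableOn.diffContOnCl
      rw [Complex.closure_setOfPred_lt_re]
      intro w hw
      simp only [Set.mem_ofPred_eq] at hw
      have d1 : DifferentiableAt ℂ (fun w => G (Complex.I + Complex.I * w)) w := by
        have h1 := hd (Complex.I + Complex.I * w) (by rw [him1]; linarith)
        exact h1.comp w (by fun_prop)
      have d2 : DifferentiableAt ℂ E w := by
        simp only [hE]
        apply DifferentiableAt.cexp
        apply DifferentiableAt.fun_sum
        intro j _
        have h1 : DifferentiableAt ℂ (Phi (p j) (q j)) (Complex.I * w + η * Complex.I) :=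
          Phi_diff (by rw [him2]; linarith [hη.1])
        have h2 : DifferentiableAt ℂ (fun w => Phi (p j) (q j) (Complex.I * w + η * Complex.I)) w :=
          DifferentiableAt.comp (g := Phi (p j) (q j)) w h1 (by fun_prop)
        exact h2.const_mul _
      exact (d1.mul d2).differentiableWithinAt
    have hmain := PhragmenLindelof.right_half_plane_of_bounded_on_real (C := C₂ * Real.exp (η * S)) hfd
      ⟨0, by norm_num, 0, ?_⟩ ?_ ?_ (z := -Complex.I * z₀ - 1) (by simp; linarith)
    · -- conclusion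
      simp only [hf] at hmain
      have e1 : Complex.I + Complex.I * (-Complex.I * z₀ - 1) = z₀ := by
        have := Complex.I_sq
        linear_combination (-z₀) * this
      have e2 : Complex.I * (-Complex.I * z₀ - 1) + η * Complex.I = z₀ - Complex.I + η * Complex.I := by
        have := Complex.I_sq
        linear_combination (-z₀) * this
      rw [e1, norm_mul, hEn, e2] at hmain
      have h1 : Ω ≤ ∑ j ∈ s, μ j * (Phi (p j) (q j) (z₀ - Complex.I + η * Complex.I)).re := by
        rw [hΩ]
        apply Finset.sum_le_sum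
        intro j hj
        apply mul_le_mul_of_nonneg_left _ (hμ j hj)
        have him3 : (z₀ - Complex.I + η * Complex.I).im = z₀.im - 1 + η := by simp
        obtain ⟨τ, hτ, h2⟩ := Phi_mvt (hpq j hj) (w := z₀ - Complex.I + η * Complex.I) (by rw [him3]; linarith [hη.1])
        rw [h2, him3]
        exact hω j hj τ hτ η hη
      have h2 : ‖G z₀‖ * Real.exp Ω ≤ C₂ * Real.exp (η * S) := by
        refine le_trans ?_ hmain
        gcongr
      rw [Real.exp_sub, ← mul_div_assoc, le_div_iff₀ (Real.exp_pos _)]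
      exact h2
    · -- growth
      apply Asymptotics.IsBigO.of_bound (C₂ * Real.exp (∑ j ∈ s, μ j))
      rw [eventually_inf_principal]
      refine Eventually.of_forall fun w hw => ?_
      simp only [zero_mul, Real.exp_zero, norm_one, mul_one]
      exact hfb w (le_of_lt hw)
    · refine ⟨C₂ * Real.exp (∑ j ∈ s, μ j), ?_⟩
      rw [eventually_map]
      filter_upwards [eventually_ge_atTop 0] with x hx
      exact hfb x (by simpa using hx)
    · -- the boundary
      intro x
      simp only [hf]
      have e1 : Complex.I + Complex.I * (x * Complex.I) = ((-x : ℝ) : ℂ) + Complex.I := by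
        have := Complex.I_sq
        push_cast
        linear_combination (x : ℂ) * this
      have e2 : Complex.I * (x * Complex.I) + η * Complex.I = ((-x : ℝ) : ℂ) + η * Complex.I := by
        have := Complex.I_sq
        push_cast
        linear_combination (x : ℂ) * this
      rw [norm_mul, hEn, e1, e2]
      set u : ℝ := -x with hu
      have him4 : ((u : ℂ) + η * Complex.I).im = η := by simp
      have hfar : ∀ j ∈ s, ¬(p j - θ ≤ u ∧ u ≤ q j + θ) →
          (Phi (p j) (q j) ((u : ℂ) + η * Complex.I)).re ≤ η * ((q j - p j) / (π * θ ^ 2)) := by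
        intro j hj hn
        obtain ⟨τ, hτ, h2⟩ := Phi_mvt (hpq j hj) (w := (u : ℂ) + η * Complex.I) (by rw [him4]; exact hη.1)
        rw [h2, him4]
        have h3 : θ ≤ ‖(u : ℂ) + η * Complex.I - τ‖ := by
          have h4 := Complex.abs_re_le_norm ((u : ℂ) + η * Complex.I - τ)
          have h5 : ((u : ℂ) + η * Complex.I - τ).re = u - τ := by simp
          rw [h5] at h4
          refine le_trans ?_ h4
          rw [not_and_or, not_le, not_le] at hn
          rcases hn with h | h
          · rw [le_abs]; right; linarith [hτ.1]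
          · rw [le_abs]; left; linarith [hτ.2]
        have hqp : 0 < q j - p j := by linarith [hpq j hj]
        calc (q j - p j) * (η / (π * ‖(u : ℂ) + η * Complex.I - τ‖ ^ 2)) ≤ (q j - p j) * (η / (π * θ ^ 2)) := by
              have := hη.1.le
              gcongr
          _ = _ := by ring
      have hnn : ∀ j ∈ s, 0 ≤ μ j * (η * ((q j - p j) / (π * θ ^ 2))) := by
        intro j hj
        have hqp : 0 < q j - p j := by linarith [hpq j hj]
        have h1 := hμ j hj
        have h2 := hη.1.le
        positivity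
      have hSe : ∑ j ∈ s, μ j * (η * ((q j - p j) / (π * θ ^ 2))) = η * S := by
        rw [hS, Finset.mul_sum]
        apply Finset.sum_congr rfl
        intro j _; ring
      by_cases hex : ∃ k ∈ s, p k - θ ≤ u ∧ u ≤ q k + θ
      · obtain ⟨k, hk, hk1, hk2⟩ := hex
        have h1 := hs k hk u hk1 hk2
        have h2 : ∑ j ∈ s, μ j * (Phi (p j) (q j) ((u : ℂ) + η * Complex.I)).re ≤ μ k + η * S := by
          have h3 : ∀ j ∈ s, μ j * (Phi (p j) (q j) ((u : ℂ) + η * Complex.I)).re ≤
              (if k = j then μ j else 0) + μ j * (η * ((q j - p j) / (π * θ ^ 2))) := by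
            intro j hj
            by_cases hjk : k = j
            · rw [if_pos hjk]
              have h4 := Phi_le_one (p := p j) (q := q j) (w := (u : ℂ) + η * Complex.I) (by rw [him4]; exact hη.1)
              have h5 := mul_le_of_le_one_right (hμ j hj) h4
              linarith [hnn j hj]
            · rw [if_neg hjk, zero_add]
              apply mul_le_mul_of_nonneg_left _ (hμ j hj)
              apply hfar j hj
              rintro ⟨h4, h5⟩
              exact hjk (hsep u k hk j hj hk1 hk2 h4 h5)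
          refine (Finset.sum_le_sum h3).trans ?_
          rw [Finset.sum_add_distrib, hSe, Finset.sum_ite_eq s k μ, if_pos hk]
        calc ‖G ((u : ℂ) + Complex.I)‖ * Real.exp (∑ j ∈ s, μ j * (Phi (p j) (q j) ((u : ℂ) + η * Complex.I)).re) ≤
            (C₂ * Real.exp (-μ k)) * Real.exp (μ k + η * S) := by gcongr
          _ = C₂ * (Real.exp (-μ k) * Real.exp (μ k + η * S)) := by ring
          _ = C₂ * Real.exp (η * S) := by
            rw [← Real.exp_add]; congr 2; ring
      · push Not at hex
        have h1 := hb ((u : ℂ) + Complex.I) (by simp)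
        have h2 : ∑ j ∈ s, μ j * (Phi (p j) (q j) ((u : ℂ) + η * Complex.I)).re ≤ η * S := by
          rw [← hSe]
          apply Finset.sum_le_sum
          intro j hj
          apply mul_le_mul_of_nonneg_left _ (hμ j hj)
          apply hfar j hj
          rintro ⟨h4, h5⟩
          linarith [hex j hj h4]
        gcongr
  have hlim : Tendsto (fun η : ℝ => C₂ * Real.exp (η * S - Ω)) (𝓝[>] 0) (𝓝 (C₂ * Real.exp (0 * S - Ω))) := by
    apply Tendsto.mono_left _ nhdsWithin_le_nhds
    apply Continuous.tendsto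
    fun_prop
  have h1 := ge_of_tendsto hlim (b := ‖G z₀‖) (by
    filter_upwards [Ioc_mem_nhdsGT (zero_lt_one' ℝ)] with η hη
    exact key η hη)
  rwa [zero_mul, zero_sub] at h1

lemma exists_pos_le_finset (s : Finset ℕ) (f : ℕ → ℝ) (hf : ∀ j, 0 < f j) : ∃ θ : ℝ, 0 < θ ∧ ∀ j ∈ s, θ ≤ f j := by
  induction s using Finset.induction_on with
  | empty => exact ⟨1, one_pos, by simp⟩
  | insert a s _ ih =>
    obtain ⟨θ, h1, h2⟩ := ih
    refine ⟨min θ (f a), lt_min h1 (hf a), ?_⟩
    intro j hj
    rw [Finset.mem_insert] at hj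
    rcases hj with rfl | hj
    · exact min_le_right _ _
    · exact (min_le_left _ _).trans (h2 j hj)

section
variable {H : ℝ → ℝ} {C : ℝ}

/-- **The transform vanishes if the windows are long enough.** -/
theorem FCau_zero {W : ℝ} (hG : Gap H W) (hW : 0 < W) (hHm : Measurable H) (hHb : ∀ u, 0 ≤ u → |H u| ≤ C)
    {a b m : ℕ → ℝ} (ha : ∀ j, 0 ≤ a j) (hab : ∀ j, a j < b j) (hm : ∀ j, 0 ≤ m j)
    (hdisj : Pairwise (Function.onFun Disjoint fun j => Ioo (a j) (b j)))
    (hwin : ∀ j, ∀ t ∈ Icc (a j) (b j), -Real.exp (-m j) ≤ H t)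
    (hns : ¬ Summable fun j => (b j - a j) * min (b j - a j) (m j) / (1 + b j) ^ 2)
    {z : ℂ} (hz : 1 < z.im) : FCau H W 1 z = 0 := by
  have hpi := Real.pi_pos
  obtain ⟨K, c, hK, hc, hdisc⟩ := disc_bound hG hW hHm hHb
  obtain ⟨KF, hKF, hFb⟩ := FCau_bound hW hG hHm hHb
  set C₂ : ℝ := max K KF with hC₂
  have hC₂0 : 0 ≤ C₂ := hK.le.trans (le_max_left _ _)
  set f : ℕ → ℝ := fun j => (b j - a j) * min (b j - a j) (m j) / (1 + b j) ^ 2 with hf
  have hf0 : ∀ j, 0 ≤ f j := by
    intro j
    have h1 : 0 < b j - a j := by linarith [hab j]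
    have h2 : 0 ≤ min (b j - a j) (m j) := le_min h1.le (hm j)
    simp only [hf]; positivity
  set c₀ : ℝ := (z.im - 1) / (π * (‖z‖ + 2) ^ 2) with hc₀
  have hc₀0 : 0 < c₀ := by
    have : 0 < z.im - 1 := by linarith
    positivity
  have hFb' : ∀ w : ℂ, 1 ≤ w.im → ‖FCau H W 1 w‖ ≤ C₂ := by
    intro w hw
    have h1 := hFb w (by rw [abs_of_pos (by linarith)]; linarith)
    refine h1.trans ((mul_le_of_le_one_right hKF ?_).trans (le_max_right _ _))
    apply Real.exp_le_one_iff.2
    have : 0 ≤ π * W * |w.im| := by positivity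
    linarith
  have key : ∀ s : Finset ℕ, ‖FCau H W 1 z‖ ≤ C₂ * Real.exp (-(c * c₀ / 8 * ∑ j ∈ s, f j)) := by
    intro s
    obtain ⟨θ, hθ, hθs⟩ := exists_pos_le_finset s (fun j => (b j - a j) / 16) (fun j => by
      have := hab j
      have : 0 < b j - a j := by linarith
      positivity)
    have h1 := harm_bound (G := FCau H W 1) hC₂0 hθ (fun w hw => FCau_diff hW hHm hHb hw.ne') hFb' s
      (fun j => a j + 7 * (b j - a j) / 16) (fun j => b j - 7 * (b j - a j) / 16)
      (fun j => c * min (b j - a j) (m j)) ?_ ?_ ?_ ?_ hz (fun j => (b j - a j) / 8 * (c₀ / (1 + b j) ^ 2)) ?_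
    · refine h1.trans (le_of_eq ?_)
      congr 3
      rw [Finset.mul_sum]
      apply Finset.sum_congr rfl
      intro j _
      simp only [hf]; ring
    · intro j _
      have := hab j
      linarith
    · intro j _
      exact mul_nonneg hc.le (le_min (by linarith [hab j]) (hm j))
    · intro x j hj k hk h2 h3 h4 h5
      by_contra hjk
      have h6 := hdisj hjk
      rw [Function.onFun, Set.disjoint_left] at h6
      have h7 := hθs j hj
      have h8 := hθs k hk
      have := hab j
      have := hab k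
      exact h6 (a := x) ⟨by linarith, by linarith⟩ ⟨by linarith, by linarith⟩
    · intro j hj x h2 h3
      have h7 := hθs j hj
      have := hab j
      refine (hdisc (a j) (b j) (m j) (ha j) this.le (hm j) (hwin j) x (by linarith) (by linarith)).trans ?_
      gcongr
      exact le_max_left _ _
    · intro j hj τ hτ η hη
      have h2 := hab j
      have h3 := ha j
      have hτ1 : 0 ≤ τ := by have := hτ.1; linarith
      have hτ2 : τ ≤ b j := by have := hτ.2; linarith
      have e1 : b j - 7 * (b j - a j) / 16 - (a j + 7 * (b j - a j) / 16) = (b j - a j) / 8 := by ring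
      rw [e1]
      apply mul_le_mul_of_nonneg_left _ (by linarith)
      have hne : 0 < ‖z - Complex.I + η * Complex.I - τ‖ := by
        rw [norm_pos_iff]
        intro h0
        have h4 : (z - Complex.I + η * Complex.I - τ : ℂ).im = 0 := by rw [h0]; simp
        simp at h4
        linarith [hη.1]
      have hn : ‖z - Complex.I + η * Complex.I - τ‖ ≤ (‖z‖ + 2) * (1 + b j) := by
        have h4 : ‖z - Complex.I + η * Complex.I - τ‖ ≤ ‖z‖ + 1 + 1 + b j := by
          refine (norm_sub_le _ _).trans (add_le_add ((norm_add_le _ _).trans (add_le_add ((norm_sub_le _ _).trans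
            (add_le_add le_rfl ?_)) ?_)) ?_)
          · rw [Complex.norm_I]
          · rw [norm_mul, Complex.norm_I, mul_one, Complex.norm_real, Real.norm_of_nonneg hη.1.le]
            exact hη.2
          · rw [Complex.norm_real, Real.norm_of_nonneg hτ1]; exact hτ2
        nlinarith [norm_nonneg z]
      have h5 : (1:ℝ) + b j > 0 := by linarith
      rw [hc₀, div_div, div_le_div_iff₀ (by positivity) (by positivity)]
      have h6 : π * ‖z - Complex.I + η * Complex.I - τ‖ ^ 2 ≤ π * (‖z‖ + 2) ^ 2 * (1 + b j) ^ 2 := by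
        calc π * ‖z - Complex.I + η * Complex.I - τ‖ ^ 2 ≤ π * ((‖z‖ + 2) * (1 + b j)) ^ 2 := by gcongr
          _ = _ := by ring
      have h7 : z.im - 1 ≤ z.im - 1 + η := by linarith [hη.1]
      apply mul_le_mul h7 h6 (by positivity) (by linarith [hη.1])
  -- the sums are unbounded
  have hdiv := (not_summable_iff_tendsto_nat_atTop_of_nonneg hf0).1 hns
  have hlim : Tendsto (fun n => C₂ * Real.exp (-(c * c₀ / 8 * ∑ j ∈ Finset.range n, f j))) atTop (𝓝 (C₂ * 0)) := by
    apply Tendsto.const_mul
    apply Real.tendsto_exp_neg_atTop_nhds_zero.comp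
    exact hdiv.const_mul_atTop (by positivity)
  rw [mul_zero] at hlim
  have h2 := ge_of_tendsto' hlim (fun n => key (Finset.range n))
  exact norm_le_zero_iff.1 h2

end

end Pool.Agent.PairCorr
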