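import Mathlib
import Pool.Agent.PairCorr.G_PL

set_option autoImplicit false

namespace Pool.Agent.PairCorr

open MeasureTheory Filter Topology Set Real

/-! ### Reproducing identity for the Cauchy-type kernel -/

/-- the Laplace representation of the kernel -/
lemma qv_int {z : ℂ} (hz : 0 < z.im) (v : ℝ) :
    ∫ s in Ioi v, Complex.exp ((2 * π * Complex.I * z) * s) =
      Complex.I / (2 * π) * Complex.exp (v * (2 * π * Complex.I * z)) / z := by
  have hpi := Real.pi_pos
  have hre : (2 * π * Complex.I * z).re < 0 := by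
    have : (2 * π * Complex.I * z).re = -(2 * π * z.im) := by simp
    rw [this]
    have : 0 < 2 * π * z.im := by positivity
    linarith
  rw [integral_exp_mul_complex_Ioi hre]
  have hz0 : z ≠ 0 := by intro h; rw [h] at hz; simp at hz
  have hpi' : (π : ℂ) ≠ 0 := by exact_mod_cast Real.pi_ne_zero
  have e1 : (2 * π * Complex.I * z) * v = v * (2 * π * Complex.I * z) := by ring
  rw [e1]
  generalize Complex.exp (v * (2 * π * Complex.I * z)) = X
  have hI := Complex.I_sq
  field_simp
  linear_combination (-X) * hI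

/-- the dual function on a horizontal line -/
noncomputable def nuf (γ : ℝ → ℝ) (y x : ℝ) : ℂ := Kc γ ((2 * π * y : ℝ) + ((-2 * π) * x : ℝ) * Complex.I)

lemma nuf_inv {γ : ℝ → ℝ} {M : ℝ} (hγ : TF γ M) (y s : ℝ) :
    Integrable (nuf γ y) ∧
    ∫ x : ℝ, Complex.exp (2 * π * Complex.I * s * x) * nuf γ y x = (γ s : ℂ) * Real.exp (s * (2 * π * y)) := by
  have hpi := Real.pi_pos
  constructor
  · have h1 := (hγ.inversion (2 * π * y) 0).1
    have h2 := h1.comp_mul_left' (R := -2 * π) (by simp)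
    refine h2.congr (Eventually.of_forall fun x => ?_)
    simp [nuf]
  · have h1 := (hγ.inversion (2 * π * y) s).2
    have h2 := Measure.integral_comp_mul_left (fun τ : ℝ => Kc γ ((2 * π * y : ℝ) + τ * Complex.I) *
      Complex.exp (-(s * τ * Complex.I))) (-2 * π)
    rw [h1] at h2
    have e1 : ∫ x : ℝ, Complex.exp (2 * π * Complex.I * s * x) * nuf γ y x =
        ∫ x : ℝ, Kc γ ((2 * π * y : ℝ) + ((-2 * π * x : ℝ) : ℂ) * Complex.I) *
          Complex.exp (-(s * ((-2 * π * x : ℝ) : ℂ) * Complex.I)) := by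
      congr 1
      ext x
      rw [mul_comm]
      unfold nuf
      congr 2
      push_cast; ring
    rw [e1, h2]
    have e2 : |(-2 * π)⁻¹| = (2 * π)⁻¹ := by
      rw [abs_inv, abs_mul, abs_neg, abs_of_pos hpi]; norm_num
    rw [e2, Complex.real_smul]
    have hpi' : (π : ℂ) ≠ 0 := by exact_mod_cast Real.pi_ne_zero
    push_cast
    field_simp

lemma nuf_meas {γ : ℝ → ℝ} {M : ℝ} (hγ : TF γ M) (y : ℝ) : Measurable (nuf γ y) := by
  unfold nuf
  exact (Kc_meas hγ).measurable.comp (by fun_prop)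

/-- reproducing identity for a single exponential -/
lemma repro_v {γ : ℝ → ℝ} {M : ℝ} (hγ : TF γ M) {v y : ℝ} (t : ℝ) (hy : 0 < y) (hv : ∀ s, s ≤ v → γ s = 0) :
    ∫ x : ℝ, (Complex.I / (2 * π) * Complex.exp (v * (2 * π * Complex.I * (x + y * Complex.I - t))) /
      (x + y * Complex.I - t)) * nuf γ y x = Kc γ (-((2 * π * t : ℝ) * Complex.I)) := by
  have hpi := Real.pi_pos
  have him : ∀ x : ℝ, (x + y * Complex.I - t : ℂ).im = y := by intro x; simp
  have h1 : ∀ x : ℝ, (Complex.I / (2 * π) * Complex.exp (v * (2 * π * Complex.I * (x + y * Complex.I - t))) /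
      (x + y * Complex.I - t)) * nuf γ y x =
      ∫ s in Ioi v, nuf γ y x * ((Real.exp ((-2 * π * y) * s) : ℂ)) * Complex.exp ((2 * π * s * (x - t) : ℝ) * Complex.I) := by
    intro x
    rw [← qv_int (by rw [him]; exact hy), ← integral_mul_const]
    apply setIntegral_congr_fun measurableSet_Ioi
    intro s _
    simp only
    have e1 : Complex.exp ((2 * π * Complex.I * (x + y * Complex.I - t)) * s) =
        (Real.exp ((-2 * π * y) * s) : ℂ) * Complex.exp ((2 * π * s * (x - t) : ℝ) * Complex.I) := by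
      rw [Complex.ofReal_exp, ← Complex.exp_add]
      congr 1
      have := Complex.I_sq
      push_cast
      linear_combination (2 * π * y * s : ℂ) * this
    rw [e1]; ring
  simp_rw [h1]
  have hint : Integrable (Function.uncurry fun (x s : ℝ) => nuf γ y x * ((Real.exp ((-2 * π * y) * s) : ℂ)) *
      Complex.exp ((2 * π * s * (x - t) : ℝ) * Complex.I)) (volume.prod (volume.restrict (Ioi v))) := by
    have i1 := (nuf_inv hγ y 0).1
    have i2 : IntegrableOn (fun s : ℝ => ((Real.exp ((-2 * π * y) * s) : ℝ) : ℂ)) (Ioi v) := by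
      have : -2 * π * y < 0 := by
        have : 0 < 2 * π * y := by positivity
        linarith
      exact (integrableOn_exp_mul_Ioi this v).ofReal
    have i3 := i1.mul_prod i2
    refine i3.mul_bdd (c := 1) (Measurable.aestronglyMeasurable (by fun_prop)) ?_
    refine Eventually.of_forall fun p => ?_
    rw [Complex.norm_exp_ofReal_mul_I]
  rw [integral_integral_swap hint]
  have h2 : ∀ s : ℝ, ∫ x : ℝ, nuf γ y x * ((Real.exp ((-2 * π * y) * s) : ℂ)) *
      Complex.exp ((2 * π * s * (x - t) : ℝ) * Complex.I) = (γ s : ℂ) * Complex.exp (s * (-((2 * π * t : ℝ) * Complex.I))) := by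
    intro s
    have h3 := (nuf_inv hγ y s).2
    have h4 : ∀ x : ℝ, nuf γ y x * ((Real.exp ((-2 * π * y) * s) : ℂ)) *
      Complex.exp ((2 * π * s * (x - t) : ℝ) * Complex.I) =
      ((Real.exp ((-2 * π * y) * s) : ℂ) * Complex.exp (s * (-((2 * π * t : ℝ) * Complex.I)))) *
        (Complex.exp (2 * π * Complex.I * s * x) * nuf γ y x) := by
      intro x
      have : Complex.exp ((2 * π * s * (x - t) : ℝ) * Complex.I) =
          Complex.exp (s * (-((2 * π * t : ℝ) * Complex.I))) * Complex.exp (2 * π * Complex.I * s * x) := by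
        rw [← Complex.exp_add]; congr 1; push_cast; ring
      rw [this]; ring
    simp_rw [h4]
    rw [integral_const_mul, h3]
    have h5 : (Real.exp ((-2 * π * y) * s) : ℂ) * (Real.exp (s * (2 * π * y)) : ℂ) = 1 := by
      rw [← Complex.ofReal_mul, ← Real.exp_add]
      rw [show (-2 * π * y) * s + s * (2 * π * y) = 0 by ring]
      simp
    linear_combination ((γ s : ℂ) * Complex.exp (s * (-((2 * π * t : ℝ) * Complex.I)))) * h5
  simp_rw [h2]
  unfold Kc
  apply setIntegral_eq_integral_of_forall_compl_eq_zero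
  intro s hs
  rw [mem_Ioi, not_lt] at hs
  rw [hv s hs]; simp

/-- reproducing identity for the kernel -/
lemma repro {γ : ℝ → ℝ} {M W : ℝ} (hγ : TF γ M) (hW : 0 < W) {y : ℝ} (t : ℝ) (hy : 0 < y)
    (hv : ∀ s, s ≤ W → γ s = 0) :
    ∫ x : ℝ, qk W 1 (x + y * Complex.I - t) * nuf γ y x = Kc γ (-((2 * π * t : ℝ) * Complex.I)) := by
  have hpi := Real.pi_gt_three
  obtain ⟨χ, h1, h2⟩ := shifted_TF hW (s := 1) (by simp)
  have him : ∀ x : ℝ, (x + y * Complex.I - t : ℂ).im = y := by intro x; simp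
  have hne : ∀ x : ℝ, y ≤ ‖(x + y * Complex.I - t : ℂ)‖ := by
    intro x
    have := Complex.abs_im_le_norm (x + y * Complex.I - t : ℂ)
    rw [him, abs_of_pos hy] at this
    exact this
  have h3 : ∀ x : ℝ, qk W 1 (x + y * Complex.I - t) * nuf γ y x =
      ∫ v : ℝ, (χ v : ℂ) * ((Complex.I / (2 * π) * Complex.exp (v * (2 * π * Complex.I * (x + y * Complex.I - t))) /
      (x + y * Complex.I - t)) * nuf γ y x) := by
    intro x
    unfold qk
    rw [← h2]
    unfold Kc
    have e1 : Complex.I / (2 * π) * (∫ v : ℝ, (χ v : ℂ) * Complex.exp (v * (2 * π * Complex.I * (x + y * Complex.I - t)))) /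
        (x + y * Complex.I - t) * nuf γ y x = (Complex.I / (2 * π) / (x + y * Complex.I - t) * nuf γ y x) *
        ∫ v : ℝ, (χ v : ℂ) * Complex.exp (v * (2 * π * Complex.I * (x + y * Complex.I - t))) := by ring
    rw [e1, ← integral_const_mul]
    congr 1
    ext v; ring
  simp_rw [h3]
  have hint : Integrable (Function.uncurry fun (x v : ℝ) => (χ v : ℂ) *
      ((Complex.I / (2 * π) * Complex.exp (v * (2 * π * Complex.I * (x + y * Complex.I - t))) /
      (x + y * Complex.I - t)) * nuf γ y x)) (volume.prod volume) := by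
    have i1 := (nuf_inv hγ y 0).1
    have i2 : Integrable (fun v : ℝ => (χ v : ℂ) * Complex.exp (v * ((-(2 * π * y) : ℝ) : ℂ))) := h1.integrable_exp _
    have i3 := i1.mul_prod i2
    have i4 := i3.mul_bdd (g := fun p : ℝ × ℝ => Complex.I / (2 * π) *
      Complex.exp ((2 * π * p.2 * (p.1 - t) : ℝ) * Complex.I) / (p.1 + y * Complex.I - t)) (c := y⁻¹)
      (Measurable.aestronglyMeasurable (by fun_prop)) (by
        refine Eventually.of_forall fun p => ?_
        rw [norm_div, norm_mul, Complex.norm_exp_ofReal_mul_I, mul_one, norm_div, Complex.norm_I]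
        have e1 : ‖(2 * π : ℂ)‖ = 2 * π := by
          rw [norm_mul, Complex.norm_real, Real.norm_of_nonneg Real.pi_pos.le]; simp
        rw [e1]
        have h4 : 1 / (2 * π) ≤ 1 := by rw [div_le_one (by positivity)]; linarith
        rw [div_eq_mul_inv]
        calc 1 / (2 * π) * ‖(p.1 + y * Complex.I - t : ℂ)‖⁻¹ ≤ 1 * y⁻¹ := by
              gcongr
              exact hne p.1
          _ = _ := one_mul _)
    refine i4.congr (Eventually.of_forall fun p => ?_)
    simp only [Function.uncurry]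
    have e2 : Complex.exp (p.2 * (2 * π * Complex.I * (p.1 + y * Complex.I - t))) =
        Complex.exp (p.2 * ((-(2 * π * y) : ℝ) : ℂ)) * Complex.exp ((2 * π * p.2 * (p.1 - t) : ℝ) * Complex.I) := by
      rw [← Complex.exp_add]
      congr 1
      have := Complex.I_sq
      push_cast
      linear_combination (2 * π * y * p.2 : ℂ) * this
    rw [e2]; ring
  rw [integral_integral_swap hint]
  have h4 : ∀ v : ℝ, ∫ x : ℝ, (χ v : ℂ) * ((Complex.I / (2 * π) * Complex.exp (v * (2 * π * Complex.I * (x + y * Complex.I - t))) /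
      (x + y * Complex.I - t)) * nuf γ y x) = (χ v : ℂ) * Kc γ (-((2 * π * t : ℝ) * Complex.I)) := by
    intro v
    rw [integral_const_mul]
    by_cases hvW : v ≤ W
    · rw [repro_v hγ t hy (fun s hs => hv s (hs.trans hvW))]
    · have : χ v = 0 := h1.supp v (lt_of_lt_of_le (not_le.1 hvW) (le_abs_self v))
      rw [this]; simp
  simp_rw [h4]
  rw [integral_mul_const]
  have h5 : ∫ v, (χ v : ℂ) = Kc χ 0 := by
    unfold Kc; simp
  rw [h5, h2, Kc_psW_zero hW]
  simp

section
variable {H : ℝ → ℝ} {C : ℝ}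

lemma line_eq (hHm : Measurable H) (hHb : ∀ u, 0 ≤ u → |H u| ≤ C)
    {φ : ℝ → ℝ} {W : ℝ} (hφ : TF φ W) :
    ∫ t : ℝ, (hodd H t : ℂ) * Kc φ ((2 * π * t : ℝ) * Complex.I) =
      (2 * Complex.I) * ((∫ t in Ioi (0:ℝ), (Kc φ ((2 * π * t : ℝ) * Complex.I)).im * H t : ℝ) : ℂ) := by
  set f : ℝ → ℂ := fun t => (hodd H t : ℂ) * Kc φ ((2 * π * t : ℝ) * Complex.I) with hf
  have hfi : Integrable f := by
    have := line_int hHm hHb hφ 0
    refine this.congr (Eventually.of_forall fun t => ?_)
    simp only [hf, sub_zero]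
    congr 2
    push_cast; ring
  have h1 : ∫ t, f t = (∫ t in Iic (0:ℝ), f t) + ∫ t in Ioi (0:ℝ), f t := by
    rw [intervalIntegral.integral_Iic_add_Ioi hfi.integrableOn hfi.integrableOn]
  have h2 : ∫ t in Iic (0:ℝ), f t = ∫ t in Ioi (0:ℝ), f (-t) := by
    rw [integral_comp_neg_Ioi, neg_zero]
  have hfn : IntegrableOn (fun t => f (-t)) (Ioi 0) := hfi.comp_neg.integrableOn
  rw [h1, h2, ← integral_add hfn hfi.integrableOn]
  have h3 : ∫ t in Ioi (0:ℝ), (f (-t) + f t) = ∫ t in Ioi (0:ℝ),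
      (2 * Complex.I) * (((Kc φ ((2 * π * t : ℝ) * Complex.I)).im * H t : ℝ) : ℂ) := by
    apply setIntegral_congr_fun measurableSet_Ioi
    intro t ht
    have ht' : (0:ℝ) < t := ht
    simp only [hf]
    rw [hodd_neg ht', hodd_pos ht'.le, show (2 * π * -t : ℝ) = -(2 * π * t) by ring, Kc_neg_line]
    have h4 : Kc φ ((2 * π * t : ℝ) * Complex.I) - (starRingEnd ℂ) (Kc φ ((2 * π * t : ℝ) * Complex.I)) =
        (2 * (Kc φ ((2 * π * t : ℝ) * Complex.I)).im : ℝ) * Complex.I := Complex.sub_conj _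
    push_cast at h4 ⊢
    linear_combination (H t : ℂ) * h4
  rw [h3, integral_const_mul, integral_complex_ofReal]

lemma int_add3 {f g h : ℝ → ℂ} (hf : Integrable f) (hg : Integrable g) (hh : Integrable h) :
    ∫ t, (f t + g t + h t) = (∫ t, f t) + (∫ t, g t) + ∫ t, h t := by
  rw [integral_add (f := fun t => f t + g t) (hf.add hg) hh, integral_add hf hg]

/-- if the transform vanishes on one horizontal line, the spectrum above the kernel's band vanishes -/
lemma FCau_ortho {W : ℝ} (hW : 0 < W) (hHm : Measurable H) (hHb : ∀ u, 0 ≤ u → |H u| ≤ C) {y : ℝ} (hy : 0 < y)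
    (hF : ∀ x : ℝ, FCau H W 1 (x + y * Complex.I) = 0) {γ : ℝ → ℝ} {M : ℝ} (hγ : TF γ M)
    (hv : ∀ s, s ≤ W → γ s = 0) :
    ∫ t : ℝ, (hodd H t : ℂ) * Kc γ (-((2 * π * t : ℝ) * Complex.I)) = 0 := by
  obtain ⟨K, hK, hqb⟩ := qk_any hW
  have hC0 : 0 ≤ C := (abs_nonneg _).trans (hHb 0 le_rfl)
  have him : ∀ x : ℝ, (x + y * Complex.I : ℂ).im = y := by intro x; simp
  -- the double integral
  have hqi : Integrable (fun u : ℝ => qk W 1 (y * Complex.I - u)) := by
    have hdom : Integrable (fun u : ℝ => (K * Real.exp (2 * π * W * y) * y⁻¹) * ((1 + |u|) ^ 2)⁻¹) :=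
      integrable_inv_sq.const_mul _
    refine hdom.mono' ?_ (Eventually.of_forall fun u => ?_)
    · have h3 := (Kc_meas (psW_TF hW)).measurable
      unfold qk
      exact Measurable.aestronglyMeasurable (by fun_prop)
    · have e1 : (y * Complex.I - u : ℂ).im = y := by simp
      have e2 : y ≤ ‖(y * Complex.I - u : ℂ)‖ := by
        have := Complex.abs_im_le_norm (y * Complex.I - u : ℂ)
        rwa [e1, abs_of_pos hy] at this
      have e3 : |u| ≤ ‖(y * Complex.I - u : ℂ)‖ := by
        have := Complex.abs_re_le_norm (y * Complex.I - u : ℂ)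
        simpa using this
      have hne : (y * Complex.I - u : ℂ) ≠ 0 := by
        intro h0; rw [h0, norm_zero] at e2; linarith
      have h1 := hqb 1 (by simp) _ hne
      rw [e1, abs_of_pos hy] at h1
      refine h1.trans ?_
      calc K * Real.exp (2 * π * W * y) * ((1 + ‖(y * Complex.I - u : ℂ)‖) ^ 2)⁻¹ * ‖(y * Complex.I - u : ℂ)‖⁻¹ ≤
          K * Real.exp (2 * π * W * y) * ((1 + |u|) ^ 2)⁻¹ * y⁻¹ := by gcongr
        _ = _ := by ring
  have hint0 := Integrable.convolution_integrand (ContinuousLinearMap.mul ℝ ℂ) (μ := volume) (ν := volume)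
    (nuf_inv hγ y 0).1 hqi
  have hint : Integrable (Function.uncurry fun (t x : ℝ) => (hodd H t : ℂ) * (qk W 1 (x + y * Complex.I - t) * nuf γ y x))
      (volume.prod volume) := by
    have h1 := hint0.bdd_mul (f := fun p : ℝ × ℝ => (hodd H p.1 : ℂ)) (c := C) (by
      have := hodd_meas hHm
      exact Measurable.aestronglyMeasurable (by fun_prop)) (by
      refine Eventually.of_forall fun p => ?_
      rw [Complex.norm_real, Real.norm_eq_abs]; exact hodd_bd hHb _)
    refine h1.congr (Eventually.of_forall fun p => ?_)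
    simp only [Function.uncurry, ContinuousLinearMap.mul_apply']
    have e1 : (y * Complex.I - ((p.1 - p.2 : ℝ) : ℂ)) = p.2 + y * Complex.I - p.1 := by push_cast; ring
    rw [e1]; ring
  have h1 : ∫ t : ℝ, (hodd H t : ℂ) * Kc γ (-((2 * π * t : ℝ) * Complex.I)) =
      ∫ t : ℝ, ∫ x : ℝ, (hodd H t : ℂ) * (qk W 1 (x + y * Complex.I - t) * nuf γ y x) := by
    congr 1
    ext t
    rw [integral_const_mul, repro hγ hW t hy hv]
  rw [h1, integral_integral_swap hint]
  have h2 : ∀ x : ℝ, ∫ t : ℝ, (hodd H t : ℂ) * (qk W 1 (x + y * Complex.I - t) * nuf γ y x) = 0 := by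
    intro x
    have h3 := hF x
    unfold FCau at h3
    have e1 : ∀ t : ℝ, (hodd H t : ℂ) * (qk W 1 (x + y * Complex.I - t) * nuf γ y x) =
        ((hodd H t : ℂ) * qk W 1 (x + y * Complex.I - t)) * nuf γ y x := fun t => by ring
    simp_rw [e1]
    rw [integral_mul_const, h3, zero_mul]
  simp_rw [h2]
  simp

/-- **Uniqueness from the vanishing of the transform on a line.** -/
theorem gap_all_of_FCau {W : ℝ} (hG : Gap H W) (hW : 0 < W) (hHm : Measurable H) (hHb : ∀ u, 0 ≤ u → |H u| ≤ C)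
    {y : ℝ} (hy : 0 < y) (hF : ∀ x : ℝ, FCau H (W / 2) 1 (x + y * Complex.I) = 0) : ∀ M, Gap H M := by
  intro M φ hφ
  -- cut-off functions
  set σ : ℝ → ℝ := fun v => Real.smoothTransition ((v - 5 * W / 8) / (W / 4)) with hσ
  have hσs : ContDiff ℝ (⊤ : ℕ∞) σ := by
    simp only [hσ]
    exact Real.smoothTransition.contDiff.comp ((contDiff_id.sub contDiff_const).div_const _)
  have hσ0 : ∀ v, v ≤ 5 * W / 8 → σ v = 0 := by
    intro v hv
    apply Real.smoothTransition.zero_of_nonpos
    apply div_nonpos_of_nonpos_of_nonneg <;> linarith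
  have hσ1 : ∀ v, 7 * W / 8 ≤ v → σ v = 1 := by
    intro v hv
    apply Real.smoothTransition.one_of_one_le
    rw [le_div_iff₀ (by positivity)]; linarith
  have hp : TF (fun v => σ v * φ v) M := hφ.mul hσs
  have hn : TF (fun v => σ (-v) * φ v) M := hφ.mul (hσs.comp contDiff_neg)
  have h0 : TF (fun v => (1 - σ v - σ (-v)) * φ v) W := by
    constructor
    · exact ((contDiff_const.sub hσs).sub (hσs.comp contDiff_neg)).mul hφ.smooth
    · intro v hv
      rcases le_total 0 v with h | h
      · rw [abs_of_nonneg h] at hv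
        rw [hσ1 v (by linarith), hσ0 (-v) (by linarith)]; ring
      · rw [abs_of_nonpos h] at hv
        rw [hσ1 (-v) (by linarith), hσ0 v (by linarith)]; ring
  have hn' : TF (fun v => σ v * φ (-v)) M := by
    constructor
    · exact hσs.mul (hφ.smooth.comp contDiff_neg)
    · intro v hv
      rw [hφ.supp (-v) (by rwa [abs_neg]), mul_zero]
  -- the three pieces
  have e0 := hG.line0 hHm hHb h0
  have hW2 : 0 < W / 2 := by positivity
  have ep := FCau_ortho hW2 hHm hHb hy hF hp (fun s hs => by rw [hσ0 s (by linarith), zero_mul])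
  have en := FCau_ortho hW2 hHm hHb hy hF hn' (fun s hs => by rw [hσ0 s (by linarith), zero_mul])
  have hodd_neg' : ∀ t : ℝ, t ≠ 0 → hodd H (-t) = -hodd H t := by
    intro t ht
    rcases lt_or_gt_of_ne ht with h | h
    · have h1 := hodd_neg (H := H) (t := -t) (by linarith)
      rw [neg_neg] at h1
      rw [h1, neg_neg, hodd_pos (by linarith)]
    · rw [hodd_neg h, hodd_pos h.le]
  have ep' : ∫ t : ℝ, (hodd H t : ℂ) * Kc (fun v => σ v * φ v) ((2 * π * t : ℝ) * Complex.I) = 0 := by
    rw [← integral_neg_eq_self] at ep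
    have h1 : ∫ t : ℝ, (hodd H (-t) : ℂ) * Kc (fun v => σ v * φ v) (-((2 * π * (-t) : ℝ) * Complex.I)) =
        ∫ t : ℝ, -((hodd H t : ℂ) * Kc (fun v => σ v * φ v) ((2 * π * t : ℝ) * Complex.I)) := by
      apply integral_congr_ae
      have hne : ∀ᵐ t : ℝ, t ≠ 0 := by
        rw [ae_iff]; simp
      filter_upwards [hne] with t ht
      rw [hodd_neg' t ht]
      have e1 : -(((2 * π * (-t) : ℝ) : ℂ) * Complex.I) = (2 * π * t : ℝ) * Complex.I := by push_cast; ring
      rw [e1]; push_cast; ring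
    rw [h1, integral_neg, neg_eq_zero] at ep
    exact ep
  have en' : ∫ t : ℝ, (hodd H t : ℂ) * Kc (fun v => σ (-v) * φ v) ((2 * π * t : ℝ) * Complex.I) = 0 := by
    rw [← en]
    congr 1
    ext t
    congr 1
    have := Kc_reflect (fun v => σ (-v) * φ v) (-((2 * π * t : ℝ) * Complex.I))
    simp only [neg_neg] at this
    rw [← this]
  have hsum : ∫ t : ℝ, (hodd H t : ℂ) * Kc φ ((2 * π * t : ℝ) * Complex.I) = 0 := by
    have i1 : ∀ {φ : ℝ → ℝ} {b : ℝ}, TF φ b → Integrable (fun t : ℝ => (hodd H t : ℂ) * Kc φ ((2 * π * t : ℝ) * Complex.I)) := by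
      intro φ b hφ
      have := line_int hHm hHb hφ 0
      refine this.congr (Eventually.of_forall fun t => ?_)
      simp only [sub_zero]
      congr 2
      push_cast; ring
    have h1 : ∀ t : ℝ, (hodd H t : ℂ) * Kc φ ((2 * π * t : ℝ) * Complex.I) =
        (hodd H t : ℂ) * Kc (fun v => (1 - σ v - σ (-v)) * φ v) ((2 * π * t : ℝ) * Complex.I) +
        (hodd H t : ℂ) * Kc (fun v => σ v * φ v) ((2 * π * t : ℝ) * Complex.I) +
        (hodd H t : ℂ) * Kc (fun v => σ (-v) * φ v) ((2 * π * t : ℝ) * Complex.I) := by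
      intro t
      rw [← mul_add, ← mul_add]
      congr 1
      unfold Kc
      rw [← int_add3 (h0.integrable_exp _) (hp.integrable_exp _) (hn.integrable_exp _)]
      congr 1
      ext v
      push_cast; ring
    simp_rw [h1]
    rw [int_add3 (i1 h0) (i1 hp) (i1 hn), e0, ep', en']
    simp
  rw [line_eq hHm hHb hφ] at hsum
  have h2 : (2 * Complex.I) ≠ 0 := by simp
  have h3 := (mul_eq_zero.1 hsum).resolve_left h2
  exact_mod_cast h3

/-- **Uniqueness theorem (Beurling–Malliavin type).** -/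
theorem long_unique {W : ℝ} (hG : Gap H W) (hW : 0 < W) (hHm : Measurable H) (hHb : ∀ u, 0 ≤ u → |H u| ≤ C)
    {a b m : ℕ → ℝ} (ha : ∀ j, 0 ≤ a j) (hab : ∀ j, a j < b j) (hm : ∀ j, 0 ≤ m j)
    (hdisj : Pairwise (Function.onFun Disjoint fun j => Ioo (a j) (b j)))
    (hwin : ∀ j, ∀ t ∈ Icc (a j) (b j), -Real.exp (-m j) ≤ H t)
    (hns : ¬ Summable fun j => (b j - a j) * min (b j - a j) (m j) / (1 + b j) ^ 2) :
    ∀ᵐ u ∂(volume.restrict (Ioi (0:ℝ))), H u = 0 := by
  have hW2 : 0 < W / 2 := by positivity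
  have hG2 : Gap H (W / 2) := hG.mono (by linarith)
  apply ae_zero_of_gap hHm hHb
  apply gap_all_of_FCau hG hW hHm hHb (y := 2) two_pos
  intro x
  exact FCau_zero hG2 hW2 hHm hHb ha hab hm hdisj hwin hns (by simp)

end

end Pool.Agent.PairCorr
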