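import Mathlib
import Pool.Agent.PairCorr.PB_Shift

/-!
Pair sums with a shifted and scaled kernel.
-/

set_option autoImplicit false

namespace Pool.Agent.PairCorr.OD3

open MeasureTheory Filter Topology Set Real
open scoped ENNReal

/-- the shifted kernel of width `1/δ` -/
noncomputable def shW (L s δ x : ℝ) : ℝ := ((1 + δ * |L * x - s|) ^ 4)⁻¹

lemma shW_pos (L s x : ℝ) {δ : ℝ} (hδ : 0 ≤ δ) : 0 < shW L s δ x := by unfold shW; positivity

lemma measurable_shW (L s δ : ℝ) : Measurable (shW L s δ) := by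
  unfold shW
  have : Continuous fun x : ℝ => (1 + δ * |L * x - s|) ^ 4 := by fun_prop
  exact this.measurable.inv

lemma shW_shift {L σ δ : ℝ} (hL : 0 < L) (hδ : 0 ≤ δ) (hδ1 : δ ≤ 1) {x y t s : ℝ}
    (h1 : |x - t| ≤ 1 / L) (h2 : |y - s| ≤ 1 / L) : shW L σ δ (x - y) ≤ 81 * shW L σ δ (t - s) := by
  unfold shW
  have h3 : |L * (t - s) - σ| ≤ |L * (x - y) - σ| + 2 := by
    have : L * (t - s) - σ = (L * (x - y) - σ) - L * (x - t) + L * (y - s) := by ring
    rw [this]
    have e1 := abs_add_le ((L * (x - y) - σ) - L * (x - t)) (L * (y - s))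
    have e2 := abs_sub (L * (x - y) - σ) (L * (x - t))
    have e3 : |L * (x - t)| ≤ 1 := by
      rw [abs_mul, abs_of_pos hL]
      calc L * |x - t| ≤ L * (1 / L) := by gcongr
        _ = 1 := by field_simp
    have e4 : |L * (y - s)| ≤ 1 := by
      rw [abs_mul, abs_of_pos hL]
      calc L * |y - s| ≤ L * (1 / L) := by gcongr
        _ = 1 := by field_simp
    linarith
  have h5 := abs_nonneg (L * (x - y) - σ)
  have h7 : 1 + δ * |L * (t - s) - σ| ≤ 3 * (1 + δ * |L * (x - y) - σ|) := by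
    have : δ * |L * (t - s) - σ| ≤ δ * |L * (x - y) - σ| + 2 * δ := by
      calc δ * |L * (t - s) - σ| ≤ δ * (|L * (x - y) - σ| + 2) := by gcongr
        _ = _ := by ring
    have h0 : 0 ≤ δ * |L * (x - y) - σ| := by positivity
    linarith
  have h8 : (1 + δ * |L * (t - s) - σ|) ^ 4 ≤ 81 * (1 + δ * |L * (x - y) - σ|) ^ 4 := by
    calc (1 + δ * |L * (t - s) - σ|) ^ 4 ≤ (3 * (1 + δ * |L * (x - y) - σ|)) ^ 4 := by gcongr
      _ = _ := by ring
  rw [inv_le_iff_one_le_mul₀ (by positivity)]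
  rw [show (81 : ℝ) * ((1 + δ * |L * (t - s) - σ|) ^ 4)⁻¹ * (1 + δ * |L * (x - y) - σ|) ^ 4 =
    (81 * (1 + δ * |L * (x - y) - σ|) ^ 4) / (1 + δ * |L * (t - s) - σ|) ^ 4 by ring]
  rw [one_le_div (by positivity)]
  exact h8

lemma lintegral_shW {L δ : ℝ} (hL : 0 < L) (hδ : 0 < δ) (σ : ℝ) :
    ∫⁻ x, ENNReal.ofReal (shW L σ δ x) ≤ ENNReal.ofReal (π / (δ * L)) := by
  have h1 : ∀ x, ENNReal.ofReal (shW L σ δ x) ≤
      ENNReal.ofReal ((1 + ((δ * L) * (x - σ / L)) ^ 2)⁻¹) := by
    intro x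
    apply ENNReal.ofReal_le_ofReal
    unfold shW
    apply inv_anti₀ (by positivity)
    have h2 : 0 ≤ δ * |L * x - σ| := by positivity
    have h3 : ((δ * L) * (x - σ / L)) ^ 2 = (δ * |L * x - σ|) ^ 2 := by
      rw [mul_pow δ, sq_abs, mul_assoc, mul_pow]
      congr 2
      field_simp
    rw [h3]
    generalize δ * |L * x - σ| = y at h2
    have : (1 + y) ^ 4 = 1 + 4 * y + 6 * y ^ 2 + 4 * y ^ 3 + y ^ 4 := by ring
    rw [this]
    nlinarith [pow_nonneg h2 3, pow_nonneg h2 4]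
  refine (lintegral_mono h1).trans ?_
  have hL' : 0 < δ * L := by positivity
  rw [lintegral_sub_right_eq_self (fun x => ENNReal.ofReal ((1 + ((δ * L) * x) ^ 2)⁻¹)) (σ / L)]
  have hint : Integrable (fun s : ℝ => (1 + ((δ * L) * s) ^ 2)⁻¹) :=
    integrable_inv_one_add_sq.comp_mul_left' hL'.ne'
  rw [← ofReal_integral_eq_lintegral_ofReal hint (Eventually.of_forall fun s => by positivity)]
  apply ENNReal.ofReal_le_ofReal
  rw [Measure.integral_comp_mul_left (fun s : ℝ => (1 + s ^ 2)⁻¹) (δ * L), integral_univ_inv_one_add_sq,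
    abs_of_pos (by positivity)]
  simp only [smul_eq_mul]
  apply le_of_eq
  ring

lemma near_boundW (hB : StatementB) : ∃ c : ℝ, 0 < c ∧ ∃ C : ℝ, 0 < C ∧ ∃ T₀ : ℝ, Real.exp 1 ≤ T₀ ∧
    ∀ T : ℝ, T₀ ≤ T → ∀ σ δ : ℝ, 0 < δ → δ ≤ 1 →
    ∫⁻ p in {p : ℂ × ℂ | |p.1.im| ≤ 2 * T ∧ |p.2.im| ≤ 2 * T},
      ENNReal.ofReal (pairK c T (shW (Real.log T) σ δ) p) ∂(muZ.prod muZ) ≤
      ENNReal.ofReal (C * (T * Real.log T) / δ) := by
  obtain ⟨c, hc, C, hC, T₀, h⟩ := hB 2
  refine ⟨c, hc, 81 * π / 2 * C, by positivity, max (Real.exp 1) T₀, le_max_left _ _,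
    fun T hT σ δ hδ hδ1 => ?_⟩
  have hTe : Real.exp 1 ≤ T := (le_max_left _ _).trans hT
  have hT0 : T₀ ≤ T := (le_max_right _ _).trans hT
  have hT1 : 1 ≤ T := (Real.one_le_exp (by norm_num)).trans hTe
  have hL1 : 1 ≤ Real.log T := by
    rw [← Real.log_exp 1]
    exact Real.log_le_log (Real.exp_pos 1) hTe
  have hL : 0 < Real.log T := by linarith
  obtain ⟨h1, h2⟩ := h T hT0
  have h3 := lintegral_Eg_pow h1 (by linarith) h2
  set L := Real.log T with hLdef
  have hkm := measurable_shW L σ δ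
  have h4 := near_doubleK (α := muZ) (β := muZ) (c := c) hTe hkm
    (fun x y t s e1 e2 => shW_shift hL hδ.le hδ1 e1 e2)
  set I : Set ℝ := Icc (-(3 * T)) (3 * T) with hI
  have hEm : Measurable (Eg muZ c T) := measurable_Eg muZ c T
  have hpkm : Measurable fun x : ℝ => ENNReal.ofReal (shW L σ δ x) := hkm.ennreal_ofReal
  have hκ : ENNReal.ofReal (π / (δ * L)) ≠ ⊤ := ENNReal.ofReal_ne_top
  have hκI := lintegral_shW hL hδ σ
  have h5 : ∫⁻ t in I, ∫⁻ s in I, Eg muZ c T t * Eg muZ c T s *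
      ENNReal.ofReal (shW L σ δ (t - s)) ≤ 2 * (ENNReal.ofReal (π / (δ * L)) * ENNReal.ofReal (C * T)) := by
    calc ∫⁻ t in I, ∫⁻ s in I, Eg muZ c T t * Eg muZ c T s * ENNReal.ofReal (shW L σ δ (t - s))
        ≤ ∫⁻ t in I, ∫⁻ s in I, (Eg muZ c T t ^ 2 * ENNReal.ofReal (shW L σ δ (t - s)) +
          Eg muZ c T s ^ 2 * ENNReal.ofReal (shW L σ δ (t - s))) := by
          apply lintegral_mono
          intro t
          apply lintegral_mono
          intro s
          simp only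
          rw [← add_mul]
          gcongr
          exact ennreal_mul_le_sq_add_sq _ _
      _ = (∫⁻ t in I, ∫⁻ s in I, Eg muZ c T t ^ 2 * ENNReal.ofReal (shW L σ δ (t - s))) +
          ∫⁻ t in I, ∫⁻ s in I, Eg muZ c T s ^ 2 * ENNReal.ofReal (shW L σ δ (t - s)) := by
          rw [← lintegral_add_left]
          · apply lintegral_congr
            intro t
            rw [← lintegral_add_left]
            exact (hpkm.comp (f := fun s : ℝ => t - s) (by fun_prop)).const_mul _
          · apply Measurable.lintegral_prod_right' (f := fun q : ℝ × ℝ =>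
              Eg muZ c T q.1 ^ 2 * ENNReal.ofReal (shW L σ δ (q.1 - q.2)))
            exact ((hEm.comp measurable_fst).pow_const 2).mul
              (hpkm.comp (f := fun q : ℝ × ℝ => q.1 - q.2) (by fun_prop))
      _ ≤ ENNReal.ofReal (π / (δ * L)) * ENNReal.ofReal (C * T) +
          ENNReal.ofReal (π / (δ * L)) * ENNReal.ofReal (C * T) := by
          apply add_le_add
          · refine (schurK_left hkm hκ hκI I (fun t => Eg muZ c T t ^ 2)).trans ?_
            gcongr
          · refine (schurK_right hkm hκ hκI I (f := fun t => Eg muZ c T t ^ 2)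
              (hEm.pow_const 2)).trans ?_
            gcongr
      _ = _ := by ring
  have h6 : (∫⁻ p in {p : ℂ × ℂ | |p.1.im| ≤ 2 * T ∧ |p.2.im| ≤ 2 * T},
      ENNReal.ofReal (pairK c T (shW L σ δ) p) ∂(muZ.prod muZ)) * ENNReal.ofReal ((2 / L) ^ 2) ≤
      ENNReal.ofReal (162 * (π / (δ * L) * (C * T))) := by
    rw [ENNReal.ofReal_pow (by positivity)]
    refine h4.trans ?_
    refine le_trans (mul_le_mul' le_rfl h5) (le_of_eq ?_)
    rw [← ENNReal.ofReal_mul (by positivity)]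
    rw [← mul_assoc, ENNReal.ofReal_mul (p := 162) (by norm_num)]
    congr 1
    norm_num
  rw [← ENNReal.le_div_iff_mul_le] at h6
  · refine h6.trans (le_of_eq ?_)
    rw [← ENNReal.ofReal_div_of_pos (by positivity)]
    congr 1
    field_simp
    ring
  · left
    simp only [ne_eq, ENNReal.ofReal_eq_zero, not_le]
    positivity
  · left
    exact ENNReal.ofReal_ne_top

/-- shifted and scaled pair bound, `ENNReal` form -/
lemma pbW_lintegral (hB : StatementB) : ∃ c₀ : ℝ, 0 < c₀ ∧ ∃ C : ℝ, 0 < C ∧ ∃ T₀ : ℝ,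
    Real.exp 1 ≤ T₀ ∧ ∀ T : ℝ, T₀ ≤ T → ∀ σ : ℝ, |σ| ≤ T / 2 → ∀ δ : ℝ, T ^ (-(1/2) : ℝ) ≤ δ → δ ≤ 1 →
    ∀ c : ℝ, c ≤ c₀ →
    ∫⁻ p, ENNReal.ofReal (pairK c T (shW (Real.log T) σ δ) p) ∂((muW T).prod muZ) ≤
      ENNReal.ofReal (C * (T * Real.log T) / δ) := by
  obtain ⟨c₁, hc₁, C₁, hC₁, T₁, hT₁, h1⟩ := near_boundW hB
  obtain ⟨C₂, hC₂, T₂, hT₂, h2⟩ := far_bound (c := min c₁ (1/4)) (by positivity) (min_le_right _ _)
  refine ⟨min c₁ (1/4), by positivity, C₁ + 16 * C₂, by positivity, max T₁ T₂,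
    hT₁.trans (le_max_left _ _), fun T hT σ hσ δ hδT hδ1 c hc => ?_⟩
  have hTT₁ : T₁ ≤ T := (le_max_left _ _).trans hT
  have hTT₂ : T₂ ≤ T := (le_max_right _ _).trans hT
  have hTe : Real.exp 1 ≤ T := hT₁.trans hTT₁
  have hT1 : 1 ≤ T := (Real.one_le_exp (by norm_num)).trans hTe
  have hT0 : 0 < T := by linarith
  have hδ : 0 < δ := lt_of_lt_of_le (by positivity) hδT
  have hL1 : 1 ≤ Real.log T := by
    rw [← Real.log_exp 1]
    exact Real.log_le_log (Real.exp_pos 1) hTe
  have hL0 : 0 ≤ Real.log T := Real.log_nonneg hT1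
  have hk0 : ∀ x, 0 ≤ shW (Real.log T) σ δ x := fun x => (shW_pos _ _ _ hδ.le).le
  rw [muW_prod_restrict]
  set N : Set (ℂ × ℂ) := {p : ℂ × ℂ | |p.1.im| ≤ 2 * T ∧ |p.2.im| ≤ 2 * T} with hN
  have hNm : MeasurableSet N := by
    have h1 : Measurable fun p : ℂ × ℂ => |p.1.im| := by
      have : Measurable fun p : ℂ × ℂ => p.1.im := by fun_prop
      exact this.norm
    have h2 : Measurable fun p : ℂ × ℂ => |p.2.im| := by
      have : Measurable fun p : ℂ × ℂ => p.2.im := by fun_prop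
      exact this.norm
    exact (measurableSet_le h1 measurable_const).inter (measurableSet_le h2 measurable_const)
  have hFm : MeasurableSet {p : ℂ × ℂ | p.1 ∈ WT T ∧ ¬ (|p.1.im| ≤ 2 * T ∧ |p.2.im| ≤ 2 * T)} :=
    ((measurableSet_WT T).preimage measurable_fst).inter hNm.compl
  calc ∫⁻ p in WT T ×ˢ univ, ENNReal.ofReal (pairK c T (shW (Real.log T) σ δ) p) ∂(muZ.prod muZ)
      ≤ ∫⁻ p in N ∪ {p : ℂ × ℂ | p.1 ∈ WT T ∧ ¬ (|p.1.im| ≤ 2 * T ∧ |p.2.im| ≤ 2 * T)},
        ENNReal.ofReal (pairK c T (shW (Real.log T) σ δ) p) ∂(muZ.prod muZ) := by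
        apply lintegral_mono_set
        intro p hp
        by_cases h : p ∈ N
        · exact Or.inl h
        · exact Or.inr ⟨hp.1, h⟩
    _ ≤ _ := lintegral_union_le _ _ _
    _ ≤ ENNReal.ofReal (C₁ * (T * Real.log T) / δ) +
        ENNReal.ofReal (16 * (C₂ * (T * Real.log T) / δ)) := by
        apply add_le_add
        · refine le_trans ?_ (h1 T hTT₁ σ δ hδ hδ1)
          apply lintegral_mono
          intro p
          exact ENNReal.ofReal_le_ofReal (pairK_mono_c (hc.trans (min_le_left _ _)) hT1 hk0 p)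
        · rw [ENNReal.ofReal_mul (by norm_num)]
          refine le_trans ?_ (mul_le_mul' le_rfl (h2 T hTT₂ δ hδT))
          rw [← lintegral_const_mul' _ _ ENNReal.ofReal_ne_top]
          apply setLIntegral_mono' hFm
          intro p hp
          rw [← ENNReal.ofReal_mul (by norm_num)]
          apply ENNReal.ofReal_le_ofReal
          refine (pairK_mono_c hc hT1 hk0 p).trans ?_
          have h3 : 0 < p.1.im ∧ p.1.im ≤ T := hp.1
          have h5 : |p.1.im| ≤ T := by rw [abs_of_pos h3.1]; exact h3.2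
          have h6 : 2 * T < |p.2.im| := by
            by_contra hcon
            exact hp.2 ⟨by linarith, not_lt.mp hcon⟩
          have h7 : T ≤ |p.1.im - p.2.im| := by
            have : |p.2.im| - |p.1.im| ≤ |p.2.im - p.1.im| := abs_sub_abs_le_abs_sub _ _
            rw [abs_sub_comm] at this
            linarith
          have h8 : shW (Real.log T) σ δ (p.1.im - p.2.im) ≤
              16 * ((1 + δ * Real.log T * |p.1.im - p.2.im|) ^ 4)⁻¹ := by
            unfold shW
            have e1 : Real.log T * |p.1.im - p.2.im| - |σ| ≤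
                |Real.log T * (p.1.im - p.2.im) - σ| := by
              have := abs_sub_abs_le_abs_sub (Real.log T * (p.1.im - p.2.im)) σ
              rwa [abs_mul, abs_of_nonneg hL0] at this
            have e2 : |σ| ≤ Real.log T * |p.1.im - p.2.im| / 2 := by
              have : T ≤ Real.log T * |p.1.im - p.2.im| := by nlinarith
              linarith
            have e4 : δ * Real.log T * |p.1.im - p.2.im| = δ * (Real.log T * |p.1.im - p.2.im|) := by ring
            rw [e4]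
            set X := Real.log T * |p.1.im - p.2.im| with hX
            have hX0 : 0 ≤ X := by positivity
            have e5 : δ * (X / 2) ≤ δ * |Real.log T * (p.1.im - p.2.im) - σ| := by
              apply mul_le_mul_of_nonneg_left _ hδ.le
              linarith
            have e3 : (1 + δ * X) / 2 ≤ 1 + δ * |Real.log T * (p.1.im - p.2.im) - σ| := by
              have : 0 ≤ δ * X := by positivity
              linarith
            calc ((1 + δ * |Real.log T * (p.1.im - p.2.im) - σ|) ^ 4)⁻¹ ≤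
                  (((1 + δ * X) / 2) ^ 4)⁻¹ := by
                  apply inv_anti₀ (by positivity)
                  gcongr
              _ = 16 * ((1 + δ * X) ^ 4)⁻¹ := by
                  rw [div_pow, inv_div]
                  rw [div_eq_mul_inv]; norm_num
          unfold pairK pairW
          have hw : 0 ≤ wgt (min c₁ (1/4)) T p.1 * wgt (min c₁ (1/4)) T p.2 := by
            unfold wgt; positivity
          calc _ ≤ wgt (min c₁ (1/4)) T p.1 * wgt (min c₁ (1/4)) T p.2 *
                (16 * ((1 + δ * Real.log T * |p.1.im - p.2.im|) ^ 4)⁻¹) := by gcongr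
            _ = _ := by ring
    _ = _ := by
        rw [← ENNReal.ofReal_add (by positivity) (by positivity)]
        congr 1
        ring

/-- shifted and scaled pair bound, uniform in the shift `|σ| ≤ T / 2` and the width. -/
theorem statementPBW_of (hB : StatementB) : ∃ c₀ : ℝ, 0 < c₀ ∧ ∃ C : ℝ, 0 < C ∧ ∃ T₀ : ℝ,
    Real.exp 1 ≤ T₀ ∧
    ∀ T : ℝ, T₀ ≤ T → ∀ σ : ℝ, |σ| ≤ T / 2 → ∀ δ : ℝ, T ^ (-(1/2) : ℝ) ≤ δ → δ ≤ 1 →
    ∀ c : ℝ, c ≤ c₀ →
    Integrable (fun p : ℂ × ℂ => wgt c T p.1 * wgt c T p.2 *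
      ((1 + δ * |Real.log T * (p.1.im - p.2.im) - σ|) ^ 4)⁻¹) ((muW T).prod muZ) ∧
    ∫ p, wgt c T p.1 * wgt c T p.2 *
      ((1 + δ * |Real.log T * (p.1.im - p.2.im) - σ|) ^ 4)⁻¹ ∂((muW T).prod muZ) ≤
      C * (T * Real.log T) / δ := by
  obtain ⟨c₀, hc₀, C, hC, T₀, hT₀, h⟩ := pbW_lintegral hB
  refine ⟨c₀, hc₀, C, hC, T₀, hT₀, fun T hT σ hσ δ hδT hδ1 c hc => ?_⟩
  have hTe : Real.exp 1 ≤ T := hT₀.trans hT
  have hT1 : 1 ≤ T := (Real.one_le_exp (by norm_num)).trans hTe
  have hL0 : 0 ≤ Real.log T := Real.log_nonneg hT1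
  have hδ : 0 < δ := lt_of_lt_of_le (by positivity) hδT
  have h1 := h T hT σ hσ δ hδT hδ1 c hc
  have hm := measurable_pairK c T (measurable_shW (Real.log T) σ δ)
  have hnn : ∀ p, 0 ≤ pairK c T (shW (Real.log T) σ δ) p := by
    intro p
    have := (shW_pos (Real.log T) σ (p.1.im - p.2.im) hδ.le).le
    unfold pairK wgt
    positivity
  constructor
  · refine ⟨hm.aestronglyMeasurable, ?_⟩
    have : HasFiniteIntegral (pairK c T (shW (Real.log T) σ δ)) ((muW T).prod muZ) := by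
      rw [hasFiniteIntegral_iff_ofReal (Eventually.of_forall hnn)]
      exact h1.trans_lt ENNReal.ofReal_lt_top
    exact this
  · have e : ∫ p, pairK c T (shW (Real.log T) σ δ) p ∂((muW T).prod muZ) ≤ C * (T * Real.log T) / δ := by
      rw [integral_eq_lintegral_of_nonneg_ae (Eventually.of_forall hnn) hm.aestronglyMeasurable]
      exact ENNReal.toReal_le_of_le_ofReal (by positivity) h1
    exact e

end Pool.Agent.PairCorr.OD3
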