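import Mathlib
import Pool.Agent.PairCorr.OD3_Shift
import Pool.Agent.PairCorr.P1_Sym
import Pool.Agent.PairCorr.OD
import Pool.Agent.PC10.Adapter

/-!
(OD3): off-line zeros and smoothed indicators of width `1/δ`.
-/

set_option autoImplicit false

namespace Pool.Agent.PairCorr.OD3

open MeasureTheory Filter Topology Set Real
open Pool.Agent.PairCorr.P1
open scoped ENNReal

/-- abstract symmetric second difference -/
lemma second_diff_abs {W W1 W2 : ℂ → ℂ} (hW : ∀ z, HasDerivAt W (W1 z) z)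
    (hW1 : ∀ z, HasDerivAt W1 (W2 z) z) {r τ M : ℝ} (hbd : ∀ s : ℝ, |s| ≤ |r| → ‖W2 (s + τ * Complex.I)‖ ≤ M) :
    ‖W (r + τ * Complex.I) + W (((-r : ℝ) : ℂ) + τ * Complex.I) - 2 * W (τ * Complex.I)‖ ≤ 2 * M * r ^ 2 := by
  have hd : ∀ s : ℝ, HasDerivAt (fun s : ℝ => W (s + τ * Complex.I)) (W1 (s + τ * Complex.I)) s := by
    intro s
    have e2 : HasDerivAt (fun s : ℝ => (s:ℂ) + τ * Complex.I) 1 s := by
      simpa using (Complex.ofRealCLM.hasDerivAt (x := s)).add_const (τ * Complex.I)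
    have e3 := (hW (s + τ * Complex.I)).comp s e2
    rw [mul_one] at e3
    exact e3
  have hd1 : ∀ s : ℝ, HasDerivAt (fun s : ℝ => W1 (s + τ * Complex.I)) (W2 (s + τ * Complex.I)) s := by
    intro s
    have e2 : HasDerivAt (fun s : ℝ => (s:ℂ) + τ * Complex.I) 1 s := by
      simpa using (Complex.ofRealCLM.hasDerivAt (x := s)).add_const (τ * Complex.I)
    have e3 := (hW1 (s + τ * Complex.I)).comp s e2
    rw [mul_one] at e3
    exact e3
  have hg : ∀ s : ℝ, HasDerivAt (fun s : ℝ => W (s + τ * Complex.I) + W (((-s : ℝ) : ℂ) + τ * Complex.I))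
      (W1 (s + τ * Complex.I) - W1 (((-s : ℝ) : ℂ) + τ * Complex.I)) s := by
    intro s
    have e1 := (hd (-s)).scomp s (hasDerivAt_neg s)
    have e2 := (hd s).add e1
    refine e2.congr_deriv ?_
    simp [sub_eq_add_neg]
  have hcv : Convex ℝ {x : ℝ | |x| ≤ |r|} := by
    have : {x : ℝ | |x| ≤ |r|} = Icc (-|r|) (|r|) := by
      ext x; simp [abs_le]
    rw [this]; exact convex_Icc _ _
  have hmv1 : ∀ s : ℝ, |s| ≤ |r| →
      ‖W1 (s + τ * Complex.I) - W1 (((-s : ℝ) : ℂ) + τ * Complex.I)‖ ≤ M * (2 * |r|) := by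
    intro s hs
    have h1 := Convex.norm_image_sub_le_of_norm_hasDerivWithin_le
      (f := fun x : ℝ => W1 (x + τ * Complex.I)) (f' := fun x : ℝ => W2 (x + τ * Complex.I))
      (s := {x : ℝ | |x| ≤ |r|}) (x := -s) (y := s) (C := M)
      (fun x _ => (hd1 x).hasDerivWithinAt) (fun x hx => hbd x hx) hcv ?_ ?_
    · have hM0 : 0 ≤ M := (norm_nonneg _).trans (hbd 0 (by simp))
      refine h1.trans ?_
      gcongr
      rw [Real.norm_eq_abs, sub_neg_eq_add, ← two_mul, abs_mul, abs_two]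
      linarith
    · show |-s| ≤ |r|
      rw [abs_neg]; exact hs
    · exact hs
  have hmv2 := Convex.norm_image_sub_le_of_norm_hasDerivWithin_le
      (f := fun x : ℝ => W (x + τ * Complex.I) + W (((-x : ℝ) : ℂ) + τ * Complex.I))
      (f' := fun x : ℝ => W1 (x + τ * Complex.I) - W1 (((-x : ℝ) : ℂ) + τ * Complex.I))
      (s := {x : ℝ | |x| ≤ |r|}) (x := 0) (y := r) (C := M * (2 * |r|))
      (fun x _ => (hg x).hasDerivWithinAt) (fun x hx => hmv1 x hx) hcv (by simp) (by simp)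
  simp only [Complex.ofReal_zero, zero_add, neg_zero, sub_zero, Real.norm_eq_abs] at hmv2
  have e1 : W (r + τ * Complex.I) + W (((-r : ℝ) : ℂ) + τ * Complex.I) -
      (W (τ * Complex.I) + W (τ * Complex.I)) = W (r + τ * Complex.I) +
      W (((-r : ℝ) : ℂ) + τ * Complex.I) - 2 * W (τ * Complex.I) := by ring
  rw [e1] at hmv2
  refine hmv2.trans (le_of_eq ?_)
  rw [← sq_abs r]
  ring

variable {ψ : ℝ → ℝ} {b : ℝ}

/-- the dilated bump is a test function -/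
lemma TF_dil (h : TF ψ b) {δ : ℝ} (hδ : 0 < δ) (hδ1 : δ ≤ 1) : TF (fun v => ψ (v / δ)) b := by
  refine ⟨h.smooth.comp (by fun_prop), fun v hv => ?_⟩
  apply h.supp
  rw [abs_div, abs_of_pos hδ, lt_div_iff₀ hδ]
  rcases le_total 0 b with hb | hb
  · nlinarith
  · have := abs_nonneg v
    nlinarith

/-- the width-`1/δ` weight at the two edges -/
noncomputable def eW (s δ τ : ℝ) : ℝ := ((1 + δ * |τ - s|) ^ 4)⁻¹ + ((1 + δ * |τ - -s|) ^ 4)⁻¹

lemma eW_pos (s τ : ℝ) {δ : ℝ} (hδ : 0 ≤ δ) : 0 < eW s δ τ := by unfold eW; positivity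

/-- moving symmetrically off the line: width `1/δ` -/
lemma exists_second_diff (h : TF ψ b) (hb : 0 ≤ b) : ∃ K : ℝ, 0 < K ∧ ∀ δ : ℝ, 0 < δ → δ ≤ 1 →
    ∀ s r τ : ℝ,
    ‖Kc (chiS (fun v => ψ (v / δ)) s) (r + τ * Complex.I) +
      Kc (chiS (fun v => ψ (v / δ)) s) (((-r : ℝ) : ℂ) + τ * Complex.I) -
      2 * Kc (chiS (fun v => ψ (v / δ)) s) (τ * Complex.I)‖ ≤
      K * δ ^ 2 * (r ^ 2 * Real.exp (b * |r|)) * eW s δ τ := by
  obtain ⟨K, hK, hdec⟩ := exists_decay5 h.mul_id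
  refine ⟨2 * K, by positivity, fun δ hδ hδ1 s r τ => ?_⟩
  have hT := TF_dil h hδ hδ1
  set W := Kc (chiS (fun v => ψ (v / δ)) s) with hWdef
  set W1 : ℂ → ℂ := fun z => (2 * π * Complex.I)⁻¹ *
      (Kc (fun v => ψ (v / δ)) (z + s * Complex.I) - Kc (fun v => ψ (v / δ)) (z - s * Complex.I)) with hW1def
  set W2 : ℂ → ℂ := fun z => (2 * π * Complex.I)⁻¹ *
      (Kc (fun v => v * ψ (v / δ)) (z + s * Complex.I) - Kc (fun v => v * ψ (v / δ)) (z - s * Complex.I))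
      with hW2def
  have hW : ∀ z, HasDerivAt W (W1 z) z := fun z => hasDerivAt_Ks hT s z
  have hW1 : ∀ z, HasDerivAt W1 (W2 z) z := by
    intro z
    have h1 : HasDerivAt (fun z : ℂ => Kc (fun v => ψ (v / δ)) (z + s * Complex.I))
        (Kc (fun v => v * ψ (v / δ)) (z + s * Complex.I)) z :=
      (hT.hasDerivAt_Kc (z + s * Complex.I)).comp_add_const z (s * Complex.I)
    have h2 : HasDerivAt (fun z : ℂ => Kc (fun v => ψ (v / δ)) (z - s * Complex.I))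
        (Kc (fun v => v * ψ (v / δ)) (z - s * Complex.I)) z :=
      (hT.hasDerivAt_Kc (z - s * Complex.I)).comp_sub_const z (s * Complex.I)
    exact (h1.sub h2).const_mul _
  have hscale : ∀ z : ℂ, Kc (fun v => v * ψ (v / δ)) z = (δ ^ 2 : ℂ) * Kc (fun v => v * ψ v) (δ * z) := by
    intro z
    have h1 := Kc_scale (fun v => v * ψ v) hδ z
    rw [← h1]
    unfold Kc
    rw [← integral_const_mul]
    apply integral_congr_ae
    filter_upwards with v
    have hδ' : (δ : ℂ) ≠ 0 := by exact_mod_cast hδ.ne'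
    push_cast
    field_simp
  have hd2 : ∀ z : ℂ, ‖Kc (fun v => v * ψ (v / δ)) z‖ ≤
      K * δ ^ 2 * Real.exp (b * |z.re|) * ((1 + δ * |z.im|) ^ 4)⁻¹ := by
    intro z
    rw [hscale, norm_mul]
    have h1 := hdec (δ * z)
    have e1 : ((δ : ℂ) * z).re = δ * z.re := by simp
    have e2 : ((δ : ℂ) * z).im = δ * z.im := by simp
    rw [e1, e2, abs_mul, abs_mul, abs_of_pos hδ] at h1
    have e3 : ‖((δ : ℂ) ^ 2)‖ = δ ^ 2 := by
      rw [norm_pow, Complex.norm_real, Real.norm_of_nonneg hδ.le]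
    rw [e3]
    have h2 : Real.exp (b * (δ * |z.re|)) ≤ Real.exp (b * |z.re|) := by
      apply Real.exp_le_exp.mpr
      have := abs_nonneg z.re
      gcongr
      nlinarith
    have h3 : ((1 + δ * |z.im|) ^ 5)⁻¹ ≤ ((1 + δ * |z.im|) ^ 4)⁻¹ := by
      apply inv_anti₀ (by positivity)
      apply pow_le_pow_right₀ _ (by norm_num)
      have : 0 ≤ δ * |z.im| := by positivity
      linarith
    calc δ ^ 2 * ‖Kc (fun v => v * ψ v) (δ * z)‖ ≤
          δ ^ 2 * (K * Real.exp (b * (δ * |z.re|)) * ((1 + δ * |z.im|) ^ 5)⁻¹) := by gcongr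
      _ ≤ δ ^ 2 * (K * Real.exp (b * |z.re|) * ((1 + δ * |z.im|) ^ 4)⁻¹) := by gcongr
      _ = _ := by ring
  have hpi : ‖(2 * π * Complex.I : ℂ)⁻¹‖ ≤ 1 := by
    rw [norm_inv]
    apply inv_le_one_of_one_le₀
    simp
    rw [abs_of_pos Real.pi_pos]
    have := Real.pi_gt_three
    linarith
  have hbd : ∀ x : ℝ, |x| ≤ |r| → ‖W2 (x + τ * Complex.I)‖ ≤
      K * δ ^ 2 * Real.exp (b * |r|) * eW s δ τ := by
    intro x hx
    have h1 := hd2 (x + τ * Complex.I + s * Complex.I)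
    have h2 := hd2 (x + τ * Complex.I - s * Complex.I)
    have r1 : ((x : ℂ) + τ * Complex.I + s * Complex.I).re = x := by simp
    have i1 : ((x : ℂ) + τ * Complex.I + s * Complex.I).im = τ - -s := by simp
    have r2 : ((x : ℂ) + τ * Complex.I - s * Complex.I).re = x := by simp
    have i2 : ((x : ℂ) + τ * Complex.I - s * Complex.I).im = τ - s := by simp
    rw [r1, i1] at h1
    rw [r2, i2] at h2
    have hexp : Real.exp (b * |x|) ≤ Real.exp (b * |r|) := by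
      apply Real.exp_le_exp.mpr
      gcongr
    simp only [hW2def]
    rw [norm_mul]
    calc _ ≤ 1 * (‖Kc (fun v => v * ψ (v / δ)) (x + τ * Complex.I + s * Complex.I)‖ +
          ‖Kc (fun v => v * ψ (v / δ)) (x + τ * Complex.I - s * Complex.I)‖) := by
          gcongr
          exact norm_sub_le _ _
      _ ≤ 1 * (K * δ ^ 2 * Real.exp (b * |r|) * ((1 + δ * |τ - -s|) ^ 4)⁻¹ +
          K * δ ^ 2 * Real.exp (b * |r|) * ((1 + δ * |τ - s|) ^ 4)⁻¹) := by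
          gcongr
          · refine h1.trans ?_
            gcongr
          · refine h2.trans ?_
            gcongr
      _ = _ := by unfold eW; ring
  refine (second_diff_abs hW hW1 hbd).trans (le_of_eq ?_)
  ring

lemma sg_diff' (p : ℂ × ℂ) (L : ℝ) : (L : ℂ) * (sg p.1 - sg p.2) =
    ((-(L * (p.1.re - p.2.re)) : ℝ) : ℂ) + ((L * (p.1.im - p.2.im) : ℝ) : ℂ) * Complex.I := by
  apply Complex.ext
  · simp [sg_re]
    ring
  · simp [sg_im]

/-- (OD3) replacing zeros by their ordinates costs `O(δ T log T)` for indicators smoothed at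
scale `1/δ`, uniformly in `s` and `δ`. -/
theorem statementOD3_of (hB : StatementB) : ∃ b₀ : ℝ, 0 < b₀ ∧ ∀ ψ : ℝ → ℝ, TF ψ b₀ →
    ∃ C : ℝ, 0 < C ∧ ∃ T₀ : ℝ, Real.exp 1 ≤ T₀ ∧ ∀ T : ℝ, T₀ ≤ T → ∀ s : ℝ, |s| ≤ T / 2 →
    ∀ δ : ℝ, T ^ (-(1/2) : ℝ) ≤ δ → δ ≤ 1 →
    ‖Spair (chiS (fun v => ψ (v / δ)) s) T - Spair0 (chiS (fun v => ψ (v / δ)) s) T‖ ≤
      C * δ * (T * Real.log T) := by
  obtain ⟨c₀, hc₀, C₁, hC₁, T₁, hT₁, hPB⟩ := statementPBW_of hB
  refine ⟨c₀ / 2, by positivity, fun ψ hψ => ?_⟩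
  set b : ℝ := c₀ / 2 with hb
  have hb0 : 0 < b := by positivity
  obtain ⟨K₁, hK₁, hsec⟩ := exists_second_diff hψ hb0.le
  refine ⟨K₁ * (8 / c₀ ^ 2) * (C₁ + C₁), by positivity, T₁, hT₁,
    fun T hTT₁ s hs δ hδT hδ1 => ?_⟩
  have hTe : Real.exp 1 ≤ T := hT₁.trans hTT₁
  have hTgt : 1 < T := (Real.one_lt_exp_iff.mpr one_pos).trans_le hTe
  have hT0 : 0 < T := by linarith
  have hδ : 0 < δ := lt_of_lt_of_le (by positivity) hδT
  have hL0 : 0 < Real.log T := Real.log_pos hTgt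
  have hTF := TF_dil hψ hδ hδ1
  obtain ⟨K₄, hK₄, hdec⟩ := exists_decay5 (chiS_TF hTF s)
  set L := Real.log T with hL
  set μ := (muW T).prod muZ with hμ
  have hTL : 0 < T * L := by positivity
  have hT12 : T ^ (-(1/2) : ℝ) ≤ 1 := hδT.trans hδ1
  obtain ⟨i0, -⟩ := hPB T hTT₁ 0 (by rw [abs_zero]; positivity) 1 hT12 le_rfl c₀ le_rfl
  obtain ⟨i1, I1⟩ := hPB T hTT₁ s hs δ hδT hδ1 c₀ le_rfl
  obtain ⟨i2, I2⟩ := hPB T hTT₁ (-s) (by rwa [abs_neg]) δ hδT hδ1 c₀ le_rfl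
  set W : ℂ → ℂ := Kc (chiS (fun v => ψ (v / δ)) s) with hW
  set f1 : ℂ × ℂ → ℂ := fun p => W (L * (p.1 - p.2)) with hf1
  set f2 : ℂ × ℂ → ℂ := fun p => W (L * (sg p.1 - sg p.2)) with hf2
  set f0 : ℂ × ℂ → ℂ := fun p => W ((L * (p.1.im - p.2.im) : ℝ) * Complex.I) with hf0
  set E : ℂ × ℂ → ℝ := fun p => wgt c₀ T p.1 * wgt c₀ T p.2 *
      ((1 + δ * |L * (p.1.im - p.2.im) - s|) ^ 4)⁻¹ +
        wgt c₀ T p.1 * wgt c₀ T p.2 * ((1 + δ * |L * (p.1.im - p.2.im) - -s|) ^ 4)⁻¹ with hE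
  have hpt : ∀ p : ℂ × ℂ, ‖f1 p + f2 p - 2 * f0 p‖ ≤ K₁ * (8 / c₀ ^ 2) * δ ^ 2 * E p := by
    intro p
    set τ : ℝ := L * (p.1.im - p.2.im) with hτ
    set r : ℝ := L * (p.1.re - p.2.re) with hr
    have e1 : f1 p = W (r + τ * Complex.I) := by
      simp only [hf1]
      congr 1
      exact decomp T p
    have e2 : f2 p = W (((-r : ℝ) : ℂ) + τ * Complex.I) := by
      simp only [hf2]
      congr 1
      exact sg_diff' p L
    have e0 : f0 p = W (τ * Complex.I) := rfl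
    have h1 := hsec δ hδ hδ1 s r τ
    rw [← hW] at h1
    rw [← e1, ← e2, ← e0] at h1
    have hw := exp_le_wgt hc₀.le hL0.le p
    rw [← hr] at hw
    set w := wgt c₀ T p.1 * wgt c₀ T p.2 with hw'
    have hre : r ^ 2 * Real.exp (b * |r|) ≤ 8 / c₀ ^ 2 * w := by
      have h2 := sq_mul_exp_le (b := b) hc₀ le_rfl (abs_nonneg r)
      rw [sq_abs] at h2
      refine h2.trans ?_
      gcongr
    have e6 : E p = w * eW s δ τ := by
      simp only [hE]
      unfold eW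
      rw [← hτ]
      ring
    have he0 := eW_pos s τ hδ.le
    rw [e6]
    calc ‖f1 p + f2 p - 2 * f0 p‖ ≤ K₁ * δ ^ 2 * (r ^ 2 * Real.exp (b * |r|)) * eW s δ τ := h1
      _ ≤ K₁ * δ ^ 2 * (8 / c₀ ^ 2 * w) * eW s δ τ := by gcongr
      _ = _ := by ring
  have hcont1 : Continuous f1 :=
    (chiS_TF hTF s).differentiable_Kc.continuous.comp (by fun_prop)
  have hcont0 : Continuous f0 := by
    refine (chiS_TF hTF s).differentiable_Kc.continuous.comp ?_
    fun_prop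
  have hgen : ∀ z : ℂ, ∀ p : ℂ × ℂ, |z.re| ≤ |L * (p.1.re - p.2.re)| → |z.im| = |L * (p.1.im - p.2.im)| →
      ‖W z‖ ≤ K₄ * (wgt c₀ T p.1 * wgt c₀ T p.2 * ((1 + 1 * |L * (p.1.im - p.2.im) - 0|) ^ 4)⁻¹) := by
    intro z p hzr hzi
    have h1 := hdec z
    rw [hzi] at h1
    refine h1.trans ?_
    have hw := exp_le_wgt hc₀.le hL0.le p
    have h5 := q5_le_q4 (L * (p.1.im - p.2.im))
    have h6 : Real.exp (b * |z.re|) ≤ wgt c₀ T p.1 * wgt c₀ T p.2 := by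
      refine le_trans ?_ hw
      apply Real.exp_le_exp.mpr
      have : b ≤ c₀ := by rw [hb]; linarith
      gcongr
    rw [sub_zero, one_mul]
    have h7 : 0 ≤ wgt c₀ T p.1 * wgt c₀ T p.2 := (Real.exp_pos _).le.trans h6
    calc K₄ * Real.exp (b * |z.re|) * ((1 + |L * (p.1.im - p.2.im)|) ^ 5)⁻¹
        ≤ K₄ * (wgt c₀ T p.1 * wgt c₀ T p.2) * q4 (L * (p.1.im - p.2.im)) := by gcongr
      _ = _ := by unfold q4; ring
  have hi1 : Integrable f1 μ := by
    refine Integrable.mono' (i0.const_mul K₄) hcont1.aestronglyMeasurable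
      (Eventually.of_forall fun p => ?_)
    apply hgen
    · have e2 : ((L : ℂ) * (p.1 - p.2)).re = L * (p.1.re - p.2.re) := by simp
      rw [e2]
    · have e3 : ((L : ℂ) * (p.1 - p.2)).im = L * (p.1.im - p.2.im) := by simp
      rw [e3]
  have hi0 : Integrable f0 μ := by
    refine Integrable.mono' (i0.const_mul K₄) hcont0.aestronglyMeasurable
      (Eventually.of_forall fun p => ?_)
    apply hgen
    · have e2 : (((L * (p.1.im - p.2.im) : ℝ) : ℂ) * Complex.I).re = 0 := by simp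
      rw [e2, abs_zero]
      exact abs_nonneg _
    · have e3 : (((L * (p.1.im - p.2.im) : ℝ) : ℂ) * Complex.I).im = L * (p.1.im - p.2.im) := by simp
      rw [e3]
  have hmp := mp_sg_prod T
  have hf12 : f2 = f1 ∘ Prod.map sg sg := rfl
  have hi2 : Integrable f2 μ := by
    rw [hf12]
    exact hmp.integrable_comp_of_integrable hi1
  have heq : ∫ p, f2 p ∂μ = ∫ p, f1 p ∂μ := by
    have h1 : ∫ p, f1 p ∂μ = ∫ p, f1 p ∂(μ.map (Prod.map sg sg)) := by rw [hmp.map_eq]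
    rw [h1, integral_map hmp.measurable.aemeasurable (by
      rw [hmp.map_eq]; exact hi1.aestronglyMeasurable)]
    rfl
  have hSp : Spair (chiS (fun v => ψ (v / δ)) s) T = ∫ p, f1 p ∂μ := rfl
  have hSp0 : Spair0 (chiS (fun v => ψ (v / δ)) s) T = ∫ p, f0 p ∂μ := rfl
  rw [hSp, hSp0]
  have hmain : (∫ p, f1 p ∂μ) - ∫ p, f0 p ∂μ = (1/2 : ℂ) * ∫ p, (f1 p + f2 p - 2 * f0 p) ∂μ := by
    rw [integral_sub (f := fun p => f1 p + f2 p) (g := fun p => 2 * f0 p) (hi1.add hi2)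
      (hi0.const_mul 2), integral_add hi1 hi2, integral_const_mul, heq]
    ring
  rw [hmain, norm_mul]
  have h1 : ‖∫ p, (f1 p + f2 p - 2 * f0 p) ∂μ‖ ≤ ∫ p, K₁ * (8 / c₀ ^ 2) * δ ^ 2 * E p ∂μ :=
    norm_integral_le_of_norm_le ((i1.add i2).const_mul _) (Eventually.of_forall hpt)
  rw [integral_const_mul] at h1
  have h2 : ∫ p, E p ∂μ ≤ C₁ * (T * L) / δ + C₁ * (T * L) / δ := by
    simp only [hE]
    rw [integral_add i1 i2]
    exact add_le_add I1 I2
  have h3 : ‖(1/2 : ℂ)‖ = 1/2 := by norm_num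
  rw [h3]
  calc 1 / 2 * ‖∫ p, (f1 p + f2 p - 2 * f0 p) ∂μ‖ ≤ 1 * ‖∫ p, (f1 p + f2 p - 2 * f0 p) ∂μ‖ := by
        gcongr; norm_num
    _ ≤ 1 * (K₁ * (8 / c₀ ^ 2) * δ ^ 2 * (C₁ * (T * L) / δ + C₁ * (T * L) / δ)) := by
        gcongr
        exact h1.trans (by gcongr)
    _ = _ := by field_simp

/-- (OD3) in the form with widths `w ≥ 1`. -/
theorem statementOD3 : ∃ b₀ : ℝ, 0 < b₀ ∧ ∀ ψ : ℝ → ℝ, TF ψ b₀ →
    ∃ C : ℝ, 0 < C ∧ ∀ w : ℝ, 1 ≤ w → ∀ s : ℝ, ∀ᶠ T in atTop,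
    ‖Spair (chiS (fun v => ψ (w * v)) s) T - Spair0 (chiS (fun v => ψ (w * v)) s) T‖ ≤
      C / w * (T * Real.log T) := by
  obtain ⟨b₀, hb₀, h⟩ := statementOD3_of Pool.Agent.PC10.statementB
  refine ⟨b₀, hb₀, fun ψ hψ => ?_⟩
  obtain ⟨C, hC, T₀, hT₀, h⟩ := h ψ hψ
  refine ⟨C, hC, fun w hw s => ?_⟩
  have hw0 : 0 < w := by linarith
  have hlim : Tendsto (fun T : ℝ => T ^ (-(1/2) : ℝ)) atTop (𝓝 0) :=
    tendsto_rpow_neg_atTop (by norm_num)
  filter_upwards [eventually_ge_atTop T₀, eventually_ge_atTop (2 * |s|),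
    hlim.eventually (gt_mem_nhds (show (0:ℝ) < 1 / w by positivity))] with T h1 h2 h3
  have h4 := h T h1 s (by linarith) (1 / w) h3.le (by rw [div_le_one hw0]; exact hw)
  have e : (fun v : ℝ => ψ (v / (1 / w))) = fun v => ψ (w * v) := by
    funext v
    congr 1
    field_simp
  rw [e] at h4
  refine h4.trans (le_of_eq ?_)
  ring

end Pool.Agent.PairCorr.OD3
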