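import Mathlib
import Pool.Agent.PairCorr.G_Unique
import Pool.Agent.PairCorr.OD3_Main
import Pool.Agent.PairCorr.A_WinMain

set_option autoImplicit false

namespace Pool.Agent.PairCorr

open MeasureTheory Filter Topology Set Real
open scoped ENNReal ComplexConjugate

/-! ### Long systems of windows -/

/-- A long system of disjoint windows `(a_j, b_j)` with exponents `m_j`. -/
structure LongSys (a b m : ℕ → ℝ) : Prop where
  nonneg : ∀ j, 0 ≤ a j
  lt : ∀ j, a j < b j
  m_nonneg : ∀ j, 0 ≤ m j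
  disj : Pairwise (Function.onFun Disjoint fun j => Ioo (a j) (b j))
  nonsum : ¬ Summable fun j => (b j - a j) * min (b j - a j) (m j) / (1 + b j) ^ 2

/-- the total length of a disjoint system, in logarithmic measure near infinity, is finite -/
lemma summable_len {a b : ℕ → ℝ} (ha : ∀ j, 0 ≤ a j) (hab : ∀ j, a j < b j)
    (hdisj : Pairwise (Function.onFun Disjoint fun j => Ioo (a j) (b j))) :
    Summable fun j => (b j - a j) / (1 + b j) ^ 2 := by
  have hnn : ∀ j, 0 ≤ (b j - a j) / (1 + b j) ^ 2 := by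
    intro j
    have h1 : 0 < b j - a j := by linarith [hab j]
    positivity
  refine summable_of_sum_le hnn (c := ∫ u in Ioi (0:ℝ), ((1 + u) ^ 2)⁻¹) ?_
  intro s
  have h1 : ∀ j ∈ s, (b j - a j) / (1 + b j) ^ 2 ≤ ∫ u in Ioo (a j) (b j), ((1 + u) ^ 2)⁻¹ := by
    intro j _
    have hb : 0 ≤ b j := (ha j).trans (hab j).le
    have h2 : (b j - a j) / (1 + b j) ^ 2 = ∫ u in Ioo (a j) (b j), ((1 + b j) ^ 2)⁻¹ := by
      rw [setIntegral_const, Measure.real, Real.volume_Ioo, ENNReal.toReal_ofReal (by linarith [hab j]), smul_eq_mul]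
      rfl
    rw [h2]
    apply setIntegral_mono_on
    · exact integrableOn_const (by rw [Real.volume_Ioo]; exact ENNReal.ofReal_ne_top)
    · exact int_inv_sq.mono_set (fun u hu => (ha j).trans_lt hu.1)
    · exact measurableSet_Ioo
    · intro u hu
      have hu0 : 0 < u := (ha j).trans_lt hu.1
      apply inv_anti₀ (by positivity)
      have := hu.2
      gcongr
  refine (Finset.sum_le_sum h1).trans ?_
  rw [← integral_biUnion_finset s (fun j _ => measurableSet_Ioo) (fun i _ j _ hij => hdisj hij)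
    (fun j _ => int_inv_sq.mono_set (fun u hu => (ha j).trans_lt hu.1))]
  apply setIntegral_mono_set int_inv_sq
  · filter_upwards [ae_restrict_mem measurableSet_Ioi] with u hu
    have hu0 : (0:ℝ) < u := hu
    positivity
  · refine Eventually.of_forall fun u hu => ?_
    have hu' : u ∈ ⋃ j ∈ s, Ioo (a j) (b j) := hu
    simp only [mem_iUnion] at hu'
    obtain ⟨j, _, h⟩ := hu'
    exact (ha j).trans_lt h.1

lemma LongSys.exists_long {a b m : ℕ → ℝ} (h : LongSys a b m) (K : ℝ) : ∃ j, K ≤ b j - a j ∧ K ≤ m j := by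
  by_contra hcon
  push Not at hcon
  apply h.nonsum
  have h1 := summable_len h.nonneg h.lt h.disj
  have h2 := h1.mul_left |K|
  refine Summable.of_nonneg_of_le ?_ ?_ h2
  · intro j
    have h3 : 0 < b j - a j := by linarith [h.lt j]
    have h4 : 0 ≤ min (b j - a j) (m j) := le_min h3.le (h.m_nonneg j)
    positivity
  · intro j
    have h3 : 0 < b j - a j := by linarith [h.lt j]
    have hb : 0 ≤ b j := (h.nonneg j).trans (h.lt j).le
    have h4 : min (b j - a j) (m j) ≤ |K| := by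
      refine le_trans ?_ (le_abs_self K)
      rcases le_or_gt K (b j - a j) with h5 | h5
      · exact (min_le_right _ _).trans (hcon j h5).le
      · exact (min_le_left _ _).trans h5.le
    calc (b j - a j) * min (b j - a j) (m j) / (1 + b j) ^ 2 ≤ (b j - a j) * |K| / (1 + b j) ^ 2 := by gcongr
      _ = _ := by ring

/-! ### Bumps -/

/-- a nonnegative even bump with band-limited transform -/
lemma exists_bumpK {b : ℝ} (hb : 0 < b) : ∃ g ψ : ℝ → ℝ, TF ψ b ∧ (∀ v, ψ (-v) = ψ v) ∧ Continuous g ∧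
    (∀ u, 0 ≤ g u) ∧ (∀ u, g (-u) = g u) ∧ RapidDecay g ∧ 0 < ∫ u, g u ∧
    ∀ u : ℝ, Kc ψ ((2 * π * u : ℝ) * Complex.I) = (g u : ℂ) := by
  have he : 0 < b / 2 := by positivity
  obtain ⟨φ, hφ, hK⟩ := gg_kernel he one_pos
  rw [show 2 * (b / 2) = b by ring] at hφ
  have hφr : TF (fun v => φ (-v)) b := ⟨hφ.smooth.comp contDiff_neg, fun v hv => hφ.supp _ (by rwa [abs_neg])⟩
  set ψ : ℝ → ℝ := fun v => (1/2) * (φ v + φ (-v)) with hψ
  have hψT : TF ψ b := (hφ.add hφr).const_mul (1/2)
  have hKψ : ∀ u : ℝ, Kc ψ ((2 * π * u : ℝ) * Complex.I) = (gg (b / 2) 1 u : ℂ) := by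
    intro u
    have h1 : Kc ψ ((2 * π * u : ℝ) * Complex.I) = (1/2 : ℂ) * (Kc φ ((2 * π * u : ℝ) * Complex.I) +
        Kc (fun v => φ (-v)) ((2 * π * u : ℝ) * Complex.I)) := by
      unfold Kc
      rw [← integral_add (hφ.integrable_exp _) (hφr.integrable_exp _), ← integral_const_mul]
      congr 1
      ext v
      simp only [hψ]
      push_cast; ring
    have h2 : Kc φ (-((2 * π * u : ℝ) * Complex.I)) = (gg (b / 2) 1 (-u) : ℂ) := by
      rw [← hK]
      congr 1
      push_cast; ring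
    rw [h1, hK, Kc_reflect, h2, gg_even]
    ring
  have hdecay : RapidDecay (gg (b / 2) 1) := by
    intro N
    obtain ⟨C, hC, hbd⟩ := hψT.decay_one_add N
    refine ⟨C, hC, fun u => ?_⟩
    have h1 := hbd ((2 * π * u : ℝ) * Complex.I)
    have hre : ((2 * π * u : ℝ) * Complex.I : ℂ).re = 0 := by simp
    rw [hre, abs_zero, mul_zero, Real.exp_zero, mul_one, hKψ, Complex.norm_real, Real.norm_eq_abs] at h1
    rw [← div_eq_mul_inv, le_div_iff₀ (by positivity), mul_comm]
    refine le_trans ?_ h1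
    apply mul_le_mul_of_nonneg_right _ (abs_nonneg _)
    apply pow_le_pow_left₀ (by positivity)
    rw [norm_mul, Complex.norm_real, Complex.norm_I, mul_one, Real.norm_eq_abs, abs_mul,
      abs_of_pos (by positivity : 0 < 2 * π)]
    have := Real.pi_gt_three
    nlinarith [abs_nonneg u]
  have hcont := gg_cont (b / 2) 1
  refine ⟨gg (b / 2) 1, ψ, hψT, fun v => ?_, hcont, gg_nonneg _ _, gg_even _ _, hdecay, ?_, hKψ⟩
  · simp only [hψ, neg_neg]; ring
  · rw [integral_pos_iff_support_of_nonneg (gg_nonneg _ _) (hdecay.integrable hcont)]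
    apply IsOpen.measure_pos volume (hcont.isOpen_support)
    refine ⟨0, ?_⟩
    rw [Function.mem_support]
    unfold gg
    rw [mul_zero, zero_div, h0_zero]
    simp

/-- the bump centred at `c` of width `w`, made odd -/
noncomputable def bmp (g : ℝ → ℝ) (w c u : ℝ) : ℝ := w⁻¹ * (g ((u - c) / w) - g ((u + c) / w))

lemma decay_shift {g : ℝ → ℝ} {w c : ℝ} (hw : 1 ≤ w) {K : ℝ} {N : ℕ} (hK : 0 ≤ K)
    (h : ∀ u, |g u| ≤ K * ((1 + |u|) ^ N)⁻¹) (u : ℝ) :
    |g ((u - c) / w)| ≤ K * (w * (1 + |c|)) ^ N * ((1 + |u|) ^ N)⁻¹ := by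
  have hw0 : 0 < w := by linarith
  refine (h _).trans ?_
  rw [mul_assoc]
  apply mul_le_mul_of_nonneg_left _ hK
  rw [← div_eq_mul_inv, le_div_iff₀ (by positivity), inv_mul_le_iff₀ (by positivity), ← mul_pow]
  apply pow_le_pow_left₀ (by positivity)
  rw [abs_div, abs_of_pos hw0]
  have h1 : |u| ≤ |u - c| + |c| := by
    have : u = (u - c) + c := by ring
    calc |u| = |(u - c) + c| := by rw [← this]
      _ ≤ _ := abs_add_le _ _
  have e1 : (1 + |u - c| / w) * (w * (1 + |c|)) = (w + |u - c|) * (1 + |c|) := by field_simp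
  rw [e1]
  have h2 : 1 + |u - c| ≤ w + |u - c| := by linarith
  have h3 : (1 + |u - c|) * (1 + |c|) ≤ (w + |u - c|) * (1 + |c|) := by gcongr
  nlinarith [abs_nonneg (u - c), abs_nonneg c, mul_nonneg (abs_nonneg (u - c)) (abs_nonneg c)]

lemma bmp_decay {g : ℝ → ℝ} (h : RapidDecay g) {w : ℝ} (c : ℝ) (hw : 1 ≤ w) : RapidDecay (bmp g w c) := by
  intro N
  obtain ⟨K, hK, hb⟩ := h N
  have hw0 : 0 < w := by linarith
  refine ⟨w⁻¹ * (K * (w * (1 + |c|)) ^ N + K * (w * (1 + |c|)) ^ N), by positivity, fun u => ?_⟩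
  unfold bmp
  rw [abs_mul, abs_of_pos (by positivity : 0 < w⁻¹), mul_assoc, add_mul]
  apply mul_le_mul_of_nonneg_left _ (by positivity)
  have h1 := decay_shift (c := c) hw hK hb u
  have h2 := decay_shift (c := -c) hw hK hb u
  rw [abs_neg, sub_neg_eq_add] at h2
  exact (abs_sub _ _).trans (add_le_add h1 h2)

/-- the bump is a test function, with kernel a smoothed indicator -/
lemma bmp_TP {b : ℝ} {g ψ : ℝ → ℝ} (hψ : TF ψ b) (hψe : ∀ v, ψ (-v) = ψ v) (hgc : Continuous g)
    (hge : ∀ u, g (-u) = g u) (hgd : RapidDecay g)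
    (hker : ∀ u : ℝ, Kc ψ ((2 * π * u : ℝ) * Complex.I) = (g u : ℂ)) {w : ℝ} (c : ℝ) (hw : 1 ≤ w) :
    TP (bmp g w c) (P1.chiS (fun v => ψ (w * v)) (2 * π * c)) b := by
  have hw0 : 0 < w := by linarith
  have hpi := Real.pi_pos
  have hψw : TF (fun v => ψ (w * v)) b := by
    have h1 := OD3.TF_dil hψ (δ := w⁻¹) (by positivity) (inv_le_one_of_one_le₀ hw)
    have e1 : (fun v => ψ (v / w⁻¹)) = fun v => ψ (w * v) := by
      funext v; congr 1; field_simp
    rwa [e1] at h1
  have hcont : Continuous (bmp g w c) := by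
    unfold bmp
    exact continuous_const.mul ((hgc.comp (by fun_prop)).sub (hgc.comp (by fun_prop)))
  have hdec := bmp_decay hgd c hw
  -- the kernel of the dilated function
  have hKw : ∀ x : ℝ, Kc (fun v => ψ (w * v)) ((2 * π * x : ℝ) * Complex.I) = ((w⁻¹ * g (x / w) : ℝ) : ℂ) := by
    intro x
    have h1 := Kc_scale ψ (L := w⁻¹) (by positivity) ((2 * π * x : ℝ) * Complex.I)
    have h2 : (fun v => ψ (w * v)) = fun v => w⁻¹ * (ψ (v / w⁻¹) / w⁻¹) := by
      funext v
      have : v / w⁻¹ = w * v := by field_simp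
      rw [this]; field_simp
    rw [h2, Kc_const_mul, h1]
    have h3 : ((w⁻¹ : ℝ) : ℂ) * ((2 * π * x : ℝ) * Complex.I) = (2 * π * (x / w) : ℝ) * Complex.I := by
      push_cast
      field_simp
    rw [h3, hker]
    push_cast; ring
  set F : ℝ → ℂ := fun u => Kc (P1.chiS (fun v => ψ (w * v)) (2 * π * c)) ((2 * π * u : ℝ) * Complex.I) with hF
  have hd : ∀ u : ℝ, HasDerivAt F ((-bmp g w c u : ℝ) : ℂ) u := by
    intro u
    have h1 := P1.hasDerivAt_Ks hψw (2 * π * c) ((2 * π * u : ℝ) * Complex.I)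
    have h2 : HasDerivAt (fun u : ℝ => ((2 * π * u : ℝ) : ℂ) * Complex.I) (2 * π * Complex.I) u := by
      have h3 : HasDerivAt (fun u : ℝ => (2 * π * u : ℝ)) (2 * π) u := by
        simpa using (hasDerivAt_id u).const_mul (2 * π)
      have h4 := h3.ofReal_comp.mul_const Complex.I
      simpa using h4
    have h3 := h1.comp u h2
    refine h3.congr_deriv ?_
    have e1 : ((2 * π * u : ℝ) : ℂ) * Complex.I + ((2 * π * c : ℝ) : ℂ) * Complex.I = (2 * π * (u + c) : ℝ) * Complex.I := by
      push_cast; ring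
    have e2 : ((2 * π * u : ℝ) : ℂ) * Complex.I - ((2 * π * c : ℝ) : ℂ) * Complex.I = (2 * π * (u - c) : ℝ) * Complex.I := by
      push_cast; ring
    rw [e1, e2, hKw, hKw]
    unfold bmp
    have hpi' : (π : ℂ) ≠ 0 := by exact_mod_cast Real.pi_ne_zero
    push_cast
    field_simp
    ring
  have hlim : Tendsto F atTop (𝓝 0) := by
    have h1 := P1.tendsto_Ks_zero hψw (2 * π * c)
    exact h1.comp (tendsto_id.const_mul_atTop (by positivity : (0:ℝ) < 2 * π))
  refine ⟨hcont, hdec, ?_, P1.chiS_TF hψw _, P1.chiS_even (fun v => by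
    show ψ (w * -v) = ψ (w * v)
    rw [mul_neg, hψe]) _, ?_⟩
  · intro u
    unfold bmp
    have e1 : (-u - c) / w = -((u + c) / w) := by ring
    have e2 : (-u + c) / w = -((u - c) / w) := by ring
    rw [e1, e2, hge, hge]; ring
  · intro u
    have hint : Integrable (fun s : ℝ => ((-bmp g w c s : ℝ) : ℂ)) := (hdec.integrable hcont).neg.ofReal
    have h1 := integral_Ioi_of_hasDerivAt_of_tendsto (a := u) (hd u).continuousAt.continuousWithinAt (fun x _ => hd x)
      hint.integrableOn hlim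
    rw [integral_complex_ofReal, integral_neg] at h1
    have h2 : (F u) = ((∫ s in Ioi u, bmp g w c s : ℝ) : ℂ) := by
      push_cast at h1
      linear_combination h1
    exact h2

end Pool.Agent.PairCorr
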