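import Mathlib
import Pool.Agent.PairCorr.G_Limit

set_option autoImplicit false

namespace Pool.Agent.PairCorr

open MeasureTheory Filter Topology Set Real
open scoped ENNReal ComplexConjugate

lemma int_shift_scale (f : ℝ → ℝ) {w : ℝ} (hw : 0 < w) (c : ℝ) : ∫ u, w⁻¹ * f ((u - c) / w) = ∫ u, f u := by
  rw [integral_const_mul, integral_sub_right_eq_self (fun u => f (u / w)) c, Measure.integral_comp_div,
    abs_of_pos hw, smul_eq_mul]
  field_simp

lemma integrable_shift_scale {f : ℝ → ℝ} (hf : Integrable f) {w : ℝ} (hw : 0 < w) (c : ℝ) :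
    Integrable (fun u => w⁻¹ * f ((u - c) / w)) :=
  ((hf.comp_div hw.ne').comp_sub_right c).const_mul _

section
variable {g : ℝ → ℝ} {K : ℝ}

lemma bump_far (hK : 0 ≤ K) (hgK : ∀ u, |g u| ≤ K * ((1 + |u|) ^ 3)⁻¹) {n x : ℝ} (hn : 1 ≤ n) (hx : n / 2 ≤ |x|) :
    g x ≤ K * (1 + n / 2)⁻¹ * ((1 + |x|) ^ 2)⁻¹ := by
  refine (le_abs_self _).trans ((hgK x).trans ?_)
  rw [mul_assoc]
  apply mul_le_mul_of_nonneg_left _ hK
  rw [pow_succ, mul_inv, mul_comm]
  gcongr

/-- lower bound for the bump integral over a window -/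
lemma bmp_lower (hgc : Continuous g) (hg0 : ∀ u, 0 ≤ g u) (hK : 0 ≤ K)
    (hgK : ∀ u, |g u| ≤ K * ((1 + |u|) ^ 3)⁻¹) (hgi : Integrable g) {H : ℝ → ℝ} {C' : ℝ} (hHm : Measurable H)
    (hHb : ∀ u, 0 ≤ u → |H u| ≤ C') {n a ε : ℝ} (hn : 1 ≤ n) (ha : 0 ≤ a) (hε : 0 ≤ ε)
    (hw : ∀ u ∈ Icc a (a + n ^ 2), -ε ≤ H u) :
    -(ε * ∫ u, g u) - 2 * (C' * (K * (1 + n / 2)⁻¹ * ∫ t : ℝ, ((1 + |t|) ^ 2)⁻¹)) ≤
      ∫ u in Ioi (0:ℝ), bmp g n (a + n ^ 2 / 2) u * H u := by
  have hn0 : 0 < n := by linarith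
  have hC0 : 0 ≤ C' := (abs_nonneg _).trans (hHb 0 le_rfl)
  set c : ℝ := a + n ^ 2 / 2 with hc
  have hc0 : 0 ≤ c := by positivity
  set τ : ℝ := K * (1 + n / 2)⁻¹ with hτ
  have hτ0 : 0 ≤ τ := by positivity
  set f : ℝ → ℝ := fun u => ((1 + |u|) ^ 2)⁻¹ with hf
  have hfi : Integrable f := integrable_inv_sq
  have hf0 : ∀ u, 0 ≤ f u := fun u => by simp only [hf]; positivity
  have hdom : Integrable (fun u => ε * (n⁻¹ * g ((u - c) / n)) + C' * τ * (n⁻¹ * f ((u - c) / n)) +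
      C' * τ * (n⁻¹ * f ((u - -c) / n))) :=
    (((integrable_shift_scale hgi hn0 c).const_mul ε).add ((integrable_shift_scale hfi hn0 c).const_mul _)).add
      ((integrable_shift_scale hfi hn0 (-c)).const_mul _)
  have hpt : ∀ u ∈ Ioi (0:ℝ), -(ε * (n⁻¹ * g ((u - c) / n)) + C' * τ * (n⁻¹ * f ((u - c) / n)) +
      C' * τ * (n⁻¹ * f ((u - -c) / n))) ≤ bmp g n c u * H u := by
    intro u hu
    have hu0 : (0:ℝ) < u := hu
    have hH := abs_le.1 (hHb u hu0.le)
    have h1 : g ((u + c) / n) ≤ τ * f ((u - -c) / n) := by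
      rw [sub_neg_eq_add]
      apply bump_far hK hgK hn
      rw [abs_of_nonneg (by positivity), div_le_div_iff₀ (by norm_num) hn0]
      have : n ^ 2 / 2 ≤ c := by rw [hc]; linarith
      nlinarith
    have h2 : -(ε * g ((u - c) / n) + C' * (τ * f ((u - c) / n))) ≤ g ((u - c) / n) * H u := by
      by_cases hmem : u ∈ Icc a (a + n ^ 2)
      · have h3 := hw u hmem
        have h4 := mul_le_mul_of_nonneg_left h3 (hg0 ((u - c) / n))
        have h5 : 0 ≤ C' * (τ * f ((u - c) / n)) := mul_nonneg hC0 (mul_nonneg hτ0 (hf0 _))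
        linarith
      · have h3 : g ((u - c) / n) ≤ τ * f ((u - c) / n) := by
          apply bump_far hK hgK hn
          rw [abs_div, abs_of_pos hn0, div_le_div_iff₀ (by norm_num) hn0]
          have h4 : n ^ 2 / 2 ≤ |u - c| := by
            rw [mem_Icc, not_and_or, not_le, not_le] at hmem
            rcases hmem with h | h
            · rw [le_abs]; right; rw [hc]; linarith
            · rw [le_abs]; left; rw [hc]; linarith
          nlinarith
        have h4 := mul_le_mul_of_nonneg_left hH.1 (hg0 ((u - c) / n))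
        have h5 := mul_le_mul_of_nonneg_left h3 hC0
        have h6 := mul_nonneg hε (hg0 ((u - c) / n))
        linarith
    have h3 : -(C' * (τ * f ((u - -c) / n))) ≤ -(g ((u + c) / n) * H u) := by
      have h4 := mul_le_mul_of_nonneg_left hH.2 (hg0 ((u + c) / n))
      have h5 := mul_le_mul_of_nonneg_left h1 hC0
      linarith
    have hn1 : 0 ≤ n⁻¹ := by positivity
    have h4 := mul_le_mul_of_nonneg_left (add_le_add h2 h3) hn1
    unfold bmp
    linarith
  have hbi : IntegrableOn (fun u => bmp g n c u * H u) (Ioi 0) := by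
    have h1 : Integrable (bmp g n c) := by
      have := ((integrable_shift_scale hgi hn0 c).sub (integrable_shift_scale hgi hn0 (-c)))
      refine this.congr (Eventually.of_forall fun u => ?_)
      simp only [bmp, Pi.sub_apply, sub_neg_eq_add]; ring
    refine (h1.integrableOn).mul_bdd (c := C') hHm.aestronglyMeasurable ?_
    filter_upwards [ae_restrict_mem measurableSet_Ioi] with u hu
    exact hHb u (le_of_lt hu)
  have hmono := setIntegral_mono_on hdom.neg.integrableOn hbi measurableSet_Ioi hpt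
  refine le_trans ?_ hmono
  simp only [Pi.neg_apply]
  rw [integral_neg]
  have h1 : ∫ u in Ioi (0:ℝ), (ε * (n⁻¹ * g ((u - c) / n)) + C' * τ * (n⁻¹ * f ((u - c) / n)) +
      C' * τ * (n⁻¹ * f ((u - -c) / n))) ≤ ∫ u, (ε * (n⁻¹ * g ((u - c) / n)) + C' * τ * (n⁻¹ * f ((u - c) / n)) +
      C' * τ * (n⁻¹ * f ((u - -c) / n))) := by
    apply setIntegral_le_integral hdom
    refine Eventually.of_forall fun u => ?_
    have h2 := hg0 ((u - c) / n)
    have h3 := hf0 ((u - c) / n)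
    have h4 := hf0 ((u - -c) / n)
    simp only [Pi.zero_apply]
    positivity
  have h2 : ∫ u, (ε * (n⁻¹ * g ((u - c) / n)) + C' * τ * (n⁻¹ * f ((u - c) / n)) +
      C' * τ * (n⁻¹ * f ((u - -c) / n))) = ε * (∫ u, g u) + C' * τ * (∫ u, f u) + C' * τ * (∫ u, f u) := by
    have i1 := (integrable_shift_scale hgi hn0 c).const_mul ε
    have i2 := (integrable_shift_scale hfi hn0 c).const_mul (C' * τ)
    have i3 := (integrable_shift_scale hfi hn0 (-c)).const_mul (C' * τ)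
    rw [integral_add (f := fun u => ε * (n⁻¹ * g ((u - c) / n)) + C' * τ * (n⁻¹ * f ((u - c) / n))) (i1.add i2) i3,
      integral_add i1 i2]
    rw [integral_const_mul ε, integral_const_mul (C' * τ), integral_const_mul (C' * τ), int_shift_scale g hn0,
      int_shift_scale f hn0, int_shift_scale f hn0]
  rw [h2] at h1
  linarith

/-- lower bound for the mass of the bump on the positive half-line -/
lemma bmp_mass (hg0 : ∀ u, 0 ≤ g u) (hK : 0 ≤ K)
    (hgK : ∀ u, |g u| ≤ K * ((1 + |u|) ^ 3)⁻¹) (hgi : Integrable g) {n a : ℝ} (hn : 1 ≤ n) (ha : 0 ≤ a) :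
    (∫ u, g u) - 2 * (K * (1 + n / 2)⁻¹ * ∫ t : ℝ, ((1 + |t|) ^ 2)⁻¹) ≤
      ∫ u in Ioi (0:ℝ), bmp g n (a + n ^ 2 / 2) u := by
  have hn0 : 0 < n := by linarith
  set c : ℝ := a + n ^ 2 / 2 with hc
  have hc0 : 0 ≤ c := by positivity
  set τ : ℝ := K * (1 + n / 2)⁻¹ with hτ
  have hτ0 : 0 ≤ τ := by positivity
  set f : ℝ → ℝ := fun u => ((1 + |u|) ^ 2)⁻¹ with hf
  have hfi : Integrable f := integrable_inv_sq
  have hf0 : ∀ u, 0 ≤ f u := fun u => by simp only [hf]; positivity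
  have hfar : ∀ x : ℝ, n ^ 2 / 2 ≤ |x| → g (x / n) ≤ τ * f (x / n) := by
    intro x hx
    apply bump_far hK hgK hn
    rw [abs_div, abs_of_pos hn0, div_le_div_iff₀ (by norm_num) hn0]
    nlinarith
  have i1 := integrable_shift_scale hgi hn0 c
  have i2 := integrable_shift_scale hgi hn0 (-c)
  have j1 := (integrable_shift_scale hfi hn0 c).const_mul τ
  have j2 := (integrable_shift_scale hfi hn0 (-c)).const_mul τ
  have e1 : ∫ u in Ioi (0:ℝ), bmp g n c u = (∫ u in Ioi (0:ℝ), n⁻¹ * g ((u - c) / n)) -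
      ∫ u in Ioi (0:ℝ), n⁻¹ * g ((u - -c) / n) := by
    rw [← integral_sub i1.integrableOn i2.integrableOn]
    congr 1
    ext u
    unfold bmp
    rw [sub_neg_eq_add]; ring
  have e2 : (∫ u in Iic (0:ℝ), n⁻¹ * g ((u - c) / n)) + (∫ u in Ioi (0:ℝ), n⁻¹ * g ((u - c) / n)) = ∫ u, g u := by
    rw [intervalIntegral.integral_Iic_add_Ioi i1.integrableOn i1.integrableOn, int_shift_scale g hn0]
  have h1 : ∫ u in Iic (0:ℝ), n⁻¹ * g ((u - c) / n) ≤ τ * ∫ u, f u := by
    calc ∫ u in Iic (0:ℝ), n⁻¹ * g ((u - c) / n) ≤ ∫ u in Iic (0:ℝ), τ * (n⁻¹ * f ((u - c) / n)) := by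
          apply setIntegral_mono_on i1.integrableOn j1.integrableOn measurableSet_Iic
          intro u hu
          have hu0 : u ≤ 0 := hu
          have h2 := hfar (u - c) (by
            rw [le_abs]; right; rw [hc]; linarith)
          have hn1 : 0 ≤ n⁻¹ := by positivity
          have := mul_le_mul_of_nonneg_left h2 hn1
          linarith
      _ ≤ ∫ u, τ * (n⁻¹ * f ((u - c) / n)) := by
          apply setIntegral_le_integral j1
          refine Eventually.of_forall fun u => ?_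
          have h3 := hf0 ((u - c) / n)
          simp only [Pi.zero_apply]
          positivity
      _ = _ := by rw [integral_const_mul, int_shift_scale f hn0]
  have h2 : ∫ u in Ioi (0:ℝ), n⁻¹ * g ((u - -c) / n) ≤ τ * ∫ u, f u := by
    calc ∫ u in Ioi (0:ℝ), n⁻¹ * g ((u - -c) / n) ≤ ∫ u in Ioi (0:ℝ), τ * (n⁻¹ * f ((u - -c) / n)) := by
          apply setIntegral_mono_on i2.integrableOn j2.integrableOn measurableSet_Ioi
          intro u hu
          have hu0 : (0:ℝ) < u := hu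
          have h2 := hfar (u - -c) (by
            rw [le_abs]; left; rw [hc]; linarith)
          have hn1 : 0 ≤ n⁻¹ := by positivity
          have := mul_le_mul_of_nonneg_left h2 hn1
          linarith
      _ ≤ ∫ u, τ * (n⁻¹ * f ((u - -c) / n)) := by
          apply setIntegral_le_integral j2
          refine Eventually.of_forall fun u => ?_
          have h3 := hf0 ((u - -c) / n)
          simp only [Pi.zero_apply]
          positivity
      _ = _ := by rw [integral_const_mul, int_shift_scale f hn0]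
  rw [e1]
  linarith

end

/-- **The diagonal from long windows.** -/
theorem M_le_one_long {x : ℕ → ℝ} (hx : Tendsto x atTop atTop) (hxe : ∀ k, Real.exp 1 ≤ x k) {C : ℝ}
    (hEC : ∀ k, ∀ u ≥ 0, |Lr (x k) u - gue u| ≤ C * (1 + u) ^ 2)
    (hrat : ∀ r : ℚ, 0 ≤ (r:ℝ) → Tendsto (fun k => Lr (x k) r) atTop (𝓝 (DI (fun k => Lr (x k)) r)))
    {M : ℝ} (hM : Tendsto (fun k => Mr (x k)) atTop (𝓝 M)) {C' : ℝ}
    (hC' : ∀ u, 0 ≤ u → |DI (fun k => Lr (x k)) u - gue u| ≤ C')
    (hlong : ∀ n : ℕ, ∃ a : ℝ, 0 ≤ a ∧ ∀ u ∈ Icc a (a + (n:ℝ) ^ 2),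
      -(1 / ((n:ℝ) + 1)) ≤ DI (fun k => Lr (x k)) u - gue u) :
    M ≤ 1 := by
  obtain ⟨b₀, hb₀, hb₀1, hJ⟩ := JJ_bound statementS'
  obtain ⟨b₁, hb₁, hOD⟩ := OD3.statementOD3
  set b := min b₀ b₁ with hb
  have hbpos : 0 < b := lt_min hb₀ hb₁
  have hpi := Real.pi_pos
  set H : ℝ → ℝ := fun u => DI (fun k => Lr (x k)) u - gue u with hH
  have hEm : ∀ k, Monotone (Lr (x k)) := fun k => Lr_mono (hxe k)
  have hHm : Measurable H := (DI_mono hEm hEC).measurable.sub gue_continuous.measurable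
  have hC0 : 0 ≤ C' := (abs_nonneg _).trans (hC' 0 le_rfl)
  obtain ⟨g, ψ, hψ, hψe, hgc, hg0, hge, hgd, hgpos, hker⟩ := exists_bumpK hbpos
  obtain ⟨K, hK, hgK⟩ := hgd 3
  have hgi := hgd.integrable hgc
  obtain ⟨Cq, hCq, hODq⟩ := hOD ψ (hψ.mono (min_le_right _ _))
  set Mq : ℝ := ∫ t : ℝ, ((1 + |t|) ^ 2)⁻¹ with hMq
  by_contra hM1
  push Not at hM1
  have hκ : 0 < (M - 1) / 2 := by linarith
  have key : ∀ n : ℕ, 1 ≤ n → (M - 1) / 2 * ((∫ u, g u) - 2 * (K * (1 + (n:ℝ) / 2)⁻¹ * Mq)) +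
      (-(1 / ((n:ℝ) + 1) * ∫ u, g u) - 2 * (C' * (K * (1 + (n:ℝ) / 2)⁻¹ * Mq))) ≤ 2 * π * (Cq / n) := by
    intro n hn
    have hn' : (1:ℝ) ≤ n := by exact_mod_cast hn
    obtain ⟨a, ha, hwin⟩ := hlong n
    set c : ℝ := a + (n:ℝ) ^ 2 / 2 with hc
    have hTP := bmp_TP hψ hψe hgc hge hgd hker (w := n) c hn'
    obtain ⟨e, he, hJb⟩ := hJ _ _ (hTP.mono (min_le_left _ _))
    have hODn := hODq n hn' (2 * π * c)
    have hlim := JJ_limit hTP hxe hEC hrat hM
    have hup : ∀ᶠ k in atTop, JJ (bmp g n c) (x k) ≤ e (x k) + 2 * π * (Cq / n) := by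
      filter_upwards [hx.eventually hODn] with k hk
      have hT0 : 0 < x k := (Real.exp_pos 1).trans_le (hxe k)
      have hL1 : 1 ≤ Real.log (x k) := by rw [Real.le_log_iff_exp_le hT0]; exact hxe k
      have hNT := NT_pos hL1 hT0
      have h1 := hJb (x k) (hxe k)
      have h3 : ‖Spair (P1.chiS (fun v => ψ (n * v)) (2 * π * c)) (x k) -
          Spair0 (P1.chiS (fun v => ψ (n * v)) (2 * π * c)) (x k)‖ / NT (x k) ≤ 2 * π * (Cq / n) := by
        rw [div_le_iff₀ hNT]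
        refine hk.trans (le_of_eq ?_)
        unfold NT
        field_simp
      have h4 := le_abs_self (JJ (bmp g n c) (x k))
      linarith
    have hle := le_of_tendsto_of_tendsto hlim ((he.comp hx).add_const (2 * π * (Cq / n))) hup
    rw [zero_add] at hle
    have h1 := bmp_lower hgc hg0 hK hgK hgi hHm hC' hn' ha (ε := 1 / ((n:ℝ) + 1)) (by positivity) hwin
    have h2 := bmp_mass hg0 hK hgK hgi hn' ha
    have h3 := mul_le_mul_of_nonneg_left h2 hκ.le
    rw [← hc] at h1 h3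
    linarith
  have ht : Tendsto (fun n : ℕ => (1 + (n:ℝ) / 2)⁻¹) atTop (𝓝 0) := by
    apply tendsto_inv_atTop_zero.comp
    apply tendsto_atTop_add_const_left
    exact tendsto_natCast_atTop_atTop.atTop_div_const (by norm_num)
  have ht1 : Tendsto (fun n : ℕ => 1 / ((n:ℝ) + 1)) atTop (𝓝 0) := tendsto_one_div_add_atTop_nhds_zero_nat
  have ht2 : Tendsto (fun n : ℕ => Cq / (n:ℝ)) atTop (𝓝 0) := tendsto_const_div_atTop_nhds_zero_nat Cq
  have hlimL : Tendsto (fun n : ℕ => (M - 1) / 2 * ((∫ u, g u) - 2 * (K * (1 + (n:ℝ) / 2)⁻¹ * Mq)) +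
      (-(1 / ((n:ℝ) + 1) * ∫ u, g u) - 2 * (C' * (K * (1 + (n:ℝ) / 2)⁻¹ * Mq)))) atTop
      (𝓝 ((M - 1) / 2 * ((∫ u, g u) - 2 * (K * 0 * Mq)) + (-(0 * ∫ u, g u) - 2 * (C' * (K * 0 * Mq))))) := by
    apply Tendsto.add
    · apply Tendsto.const_mul
      exact (((ht.const_mul K).mul_const Mq).const_mul 2).const_sub _
    · apply Tendsto.sub
      · exact (ht1.mul_const _).neg
      · exact (((ht.const_mul K).mul_const Mq).const_mul C').const_mul 2
  have hlimR : Tendsto (fun n : ℕ => 2 * π * (Cq / (n:ℝ))) atTop (𝓝 (2 * π * 0)) := ht2.const_mul _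
  have hfin := le_of_tendsto_of_tendsto hlimL hlimR (by
    filter_upwards [eventually_ge_atTop 1] with n hn
    exact key n hn)
  have : 0 < (M - 1) / 2 * ∫ u, g u := mul_pos hκ hgpos
  simp only [mul_zero, zero_mul, sub_zero, neg_zero, add_zero] at hfin
  linarith

end Pool.Agent.PairCorr
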