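import Mathlib
import Pool.Agent.PairCorr.G_Main

set_option autoImplicit false

namespace Pool.Agent.PairCorr

open MeasureTheory Filter Topology Set Real
open scoped ENNReal ComplexConjugate

lemma Gap.const_mul {H : ℝ → ℝ} {W : ℝ} (h : Gap H W) (c : ℝ) : Gap (fun u => c * H u) W := by
  intro φ hφ
  have h1 := h φ hφ
  have e1 : ∀ u : ℝ, (Kc φ ((2 * π * u : ℝ) * Complex.I)).im * (c * H u) =
      c * ((Kc φ ((2 * π * u : ℝ) * Complex.I)).im * H u) := fun u => by ring
  simp_rw [e1]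
  rw [integral_const_mul, h1, mul_zero]

/-- uniqueness with a constant in front of the exponentials -/
theorem long_unique_B {H : ℝ → ℝ} {C W : ℝ} (hG : Gap H W) (hW : 0 < W) (hHm : Measurable H)
    (hHb : ∀ u, 0 ≤ u → |H u| ≤ C) {p q m : ℕ → ℝ} (hL : LongSys p q m) (B : ℝ)
    (hwin : ∀ j, ∀ t ∈ Icc (p j) (q j), -(B * Real.exp (-m j)) ≤ H t) :
    ∀ᵐ u ∂(volume.restrict (Ioi (0:ℝ))), H u = 0 := by
  set B' : ℝ := max B 1 with hB'
  have hB1 : 1 ≤ B' := le_max_right _ _
  have hB0 : 0 < B' := by linarith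
  have h1 := long_unique (H := fun u => B'⁻¹ * H u) (hG.const_mul _) hW (hHm.const_mul _) (C := C) (by
    intro u hu
    rw [abs_mul, abs_of_pos (by positivity : 0 < B'⁻¹)]
    have h2 := hHb u hu
    have h3 : B'⁻¹ ≤ 1 := inv_le_one_of_one_le₀ hB1
    calc B'⁻¹ * |H u| ≤ 1 * |H u| := by gcongr
      _ ≤ C := by rw [one_mul]; exact h2) hL.nonneg hL.lt hL.m_nonneg hL.disj (by
    intro j t ht
    have h2 := hwin j t ht
    have h3 : B * Real.exp (-m j) ≤ B' * Real.exp (-m j) := by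
      gcongr; exact le_max_left _ _
    have h4 : -(B' * Real.exp (-m j)) ≤ H t := by linarith
    rw [inv_mul_eq_div, le_div_iff₀ hB0]
    linarith) hL.nonsum
  filter_upwards [h1] with u hu
  exact (mul_eq_zero.mp hu).resolve_left (by positivity)

section
variable {ι : Type*} {l : Filter ι} {D : ι → ℝ → ℝ} {G : ℝ → ℝ}

/-- **Rigidity from a long system of windows**. -/
theorem rigidity_long [l.IsCountablyGenerated] (hD : ∀ i, Monotone (D i))
    (hG : ∀ u v, |G u - G v| ≤ |u - v|)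
    {C : ℝ} (hC : ∀ᶠ i in l, ∀ u ≥ 0, |D i u - G u| ≤ C * (1 + u) ^ 2)
    {C' : ℝ} (hC' : ∀ u ≥ 0, ∀ᶠ i in l, |D i u - G u| ≤ C')
    {b : ℝ} (hb : 0 < b) (hgap : ∀ φ : ℝ → ℝ, TF φ b →
      Tendsto (fun i => ∫ u in Ioi (0:ℝ), (Kc φ ((2 * π * u : ℝ) * Complex.I)).im * (D i u - G u)) l (𝓝 0))
    {sgn : ℝ} (hsgn : sgn = 1 ∨ sgn = -1) {p q m : ℕ → ℝ} (hL : LongSys p q m) {B : ℝ}
    (hi : ∀ j, ∀ a ∈ Icc (p j) (q j), ∀ ε > 0, ∀ᶠ i in l, -(B * Real.exp (-m j)) - ε ≤ sgn * (D i a - G a)) :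
    ∀ u > 0, Tendsto (fun i => D i u - G u) l (𝓝 0) := by
  intro u₀ hu₀
  apply Filter.tendsto_of_subseq_tendsto
  intro ns hns
  have hGc : Continuous G := continuous_of_lip hG
  obtain ⟨N, hN⟩ := eventually_atTop.mp (hns.eventually hC)
  obtain ⟨φ, hφ, hrat⟩ := extract_limit (E := fun n => D (ns (n + N))) (G := G) (C := C)
    (fun k u hu => hN (k + N) (by omega) u hu)
  set E : ℕ → ℝ → ℝ := fun k => D (ns (φ k + N)) with hE
  have hEm : ∀ k, Monotone (E k) := fun k => hD _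
  have hEC : ∀ k, ∀ u ≥ 0, |E k u - G u| ≤ C * (1 + u) ^ 2 := fun k u hu => hN (φ k + N) (by omega) u hu
  have hsub : Tendsto (fun k => ns (φ k + N)) atTop l :=
    hns.comp ((tendsto_add_atTop_nat N).comp hφ.tendsto_atTop)
  have hDm := DI_mono hEm hEC
  have hHm : Measurable (fun u => DI E u - G u) := hDm.measurable.sub hGc.measurable
  have hDb' : ∀ u, 0 ≤ u → |DI E u - G u| ≤ C' := by
    intro u hu
    have h1 := hsub.eventually (hC' u hu)
    rw [abs_le]
    constructor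
    · have h2 : ∀ᶠ k in atTop, G u - C' ≤ E k u := by
        filter_upwards [h1] with k hk
        have := (abs_le.1 hk).1
        show G u - C' ≤ D (ns (φ k + N)) u
        linarith
      have := DI_lower hu hEC h2
      linarith
    · have h2 : ∀ᶠ k in atTop, E k u ≤ G u + C' := by
        filter_upwards [h1] with k hk
        have := (abs_le.1 hk).2
        show D (ns (φ k + N)) u ≤ G u + C'
        linarith
      have := DI_upper hu hEC h2
      linarith
  have hsabs : |sgn| = 1 := by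
    rcases hsgn with h | h
    · rw [h, abs_one]
    · rw [h, abs_neg, abs_one]
  have hsne : sgn ≠ 0 := by
    intro h; rw [h, abs_zero] at hsabs; norm_num at hsabs
  -- the gap
  have hGap : Gap (fun u => sgn * (DI E u - G u)) b := by
    intro φ' hφ'
    obtain ⟨K, hK, hKb⟩ := hφ'.line_bound 4
    have hcont : Continuous (fun u : ℝ => (Kc φ' ((2 * π * u : ℝ) * Complex.I)).im) :=
      Complex.continuous_im.comp (hφ'.differentiable_Kc.continuous.comp (by fun_prop))
    have h1 := limit_integral hEm hGc hEC hrat hcont (K := K) (by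
      intro u hu
      refine le_trans ?_ (hKb u hu)
      exact mul_le_mul_of_nonneg_left (Complex.abs_im_le_norm _) (by positivity))
    have h2 := (hgap φ' hφ').comp hsub
    have h3 := tendsto_nhds_unique h1 h2
    have e1 : ∀ u : ℝ, (Kc φ' ((2 * π * u : ℝ) * Complex.I)).im * (sgn * (DI E u - G u)) =
        sgn * ((Kc φ' ((2 * π * u : ℝ) * Complex.I)).im * (DI E u - G u)) := fun u => by ring
    simp_rw [e1]
    rw [integral_const_mul, h3, mul_zero]
  -- the windows
  have hae' := long_unique_B (H := fun u => sgn * (DI E u - G u)) hGap hb (hHm.const_mul sgn) (C := C') (by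
      intro u hu
      rw [abs_mul, hsabs, one_mul]
      exact hDb' u hu) hL B (by
      intro j u hu
      have hu0 : 0 ≤ u := (hL.nonneg j).trans hu.1
      by_contra hcon
      push Not at hcon
      set ε := (-(B * Real.exp (-m j)) - sgn * (DI E u - G u)) / 2 with hε
      have hε0 : 0 < ε := by rw [hε]; linarith
      have h1 := hsub.eventually (hi j u hu ε hε0)
      rcases hsgn with hs | hs
      · have h2 : ∀ᶠ k in atTop, G u - B * Real.exp (-m j) - ε ≤ E k u := by
          filter_upwards [h1] with k hk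
          have : E k u = D (ns (φ k + N)) u := rfl
          rw [hs] at hk
          rw [this]; linarith
        have h3 := DI_lower hu0 hEC h2
        rw [hs] at hε
        linarith
      · have h2 : ∀ᶠ k in atTop, E k u ≤ G u + B * Real.exp (-m j) + ε := by
          filter_upwards [h1] with k hk
          have : E k u = D (ns (φ k + N)) u := rfl
          rw [hs] at hk
          rw [this]; linarith
        have h3 := DI_upper hu0 hEC h2
        rw [hs] at hε
        linarith)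
  have hae : ∀ᵐ u ∂(volume.restrict (Ioi (0:ℝ))), DI E u - G u = 0 := by
    filter_upwards [hae'] with u hu
    exact (mul_eq_zero.mp hu).resolve_left hsne
  have heq : ∀ u > 0, DI E u = G u := fun u hu => eq_of_ae hDm hGc hae hu
  have hcont : ContinuousAt (DI E) u₀ := by
    have h1 : DI E =ᶠ[𝓝 u₀] G := by
      filter_upwards [lt_mem_nhds hu₀] with v hv
      exact heq v hv
    exact hGc.continuousAt.congr h1.symm
  refine ⟨fun k => φ k + N, ?_⟩
  have h1 := tendsto_of_cont hEm hrat hu₀ hcont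
  rw [heq u₀ hu₀] at h1
  have h2 := h1.sub_const (G u₀)
  rw [sub_self] at h2
  exact h2

end

/-- **Step 1 for long windows**: the diagonal has asymptotically the minimal size. -/
theorem Mr_tendsto_long {l : Filter ℝ} [l.IsCountablyGenerated] (hl : l ≤ atTop)
    (hi : ∀ n : ℕ, ∃ p : ℝ, 0 ≤ p ∧ ∀ a ∈ Icc p (p + (n:ℝ) ^ 2), ∀ ε > 0, ∀ᶠ T in l,
      gue a - 1 / ((n:ℝ) + 1) - ε ≤ Lr T a) :
    Tendsto Mr l (𝓝 1) := by
  apply Filter.tendsto_of_subseq_tendsto
  intro ns hns
  obtain ⟨C, hC, T₀, hT₀, hq⟩ := Mr_le_of_quad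
  obtain ⟨C', hC', hP1⟩ := Lr_gue_bound
  have hnsT : Tendsto ns atTop atTop := hns.mono_right hl
  obtain ⟨N, hN⟩ := eventually_atTop.1 (hnsT.eventually (eventually_ge_atTop T₀))
  obtain ⟨φ, hφ, hrat⟩ := extract_limit (E := fun n => Lr (ns (n + N))) (G := gue) (C := C)
    (fun k u hu => (hq _ (hN (k + N) (by omega))).2 u hu)
  obtain ⟨M, -, ψ, hψ, hM⟩ := tendsto_subseq_of_bounded (x := fun k => Mr (ns (φ k + N)))
    (Metric.isBounded_closedBall (x := (0:ℝ)) (r := C)) (fun k => by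
      rw [Metric.mem_closedBall, Real.dist_eq, sub_zero]
      exact (hq _ (hN (φ k + N) (by omega))).1)
  set x : ℕ → ℝ := fun k => ns (φ (ψ k) + N) with hx
  have hxT₀ : ∀ k, T₀ ≤ x k := fun k => hN (φ (ψ k) + N) (by omega)
  have hxe : ∀ k, Real.exp 1 ≤ x k := fun k => hT₀.trans (hxT₀ k)
  have hsub : Tendsto (fun k => φ (ψ k) + N) atTop atTop :=
    (tendsto_add_atTop_nat N).comp (hφ.tendsto_atTop.comp hψ.tendsto_atTop)
  have hxl : Tendsto x atTop l := hns.comp hsub
  have hxt : Tendsto x atTop atTop := hxl.mono_right hl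
  have hEC : ∀ k, ∀ u ≥ 0, |Lr (x k) u - gue u| ≤ C * (1 + u) ^ 2 := fun k u hu => (hq _ (hxT₀ k)).2 u hu
  have hrat' : ∀ r : ℚ, 0 ≤ (r:ℝ) → Tendsto (fun k => Lr (x k) r) atTop (𝓝 (DI (fun k => Lr (x k)) r)) := by
    intro r hr
    have h1 := (hrat r hr).comp hψ.tendsto_atTop
    have h2 : DI (fun k => Lr (x k)) r = DI (fun k => Lr (ns (φ k + N))) r := DI_of_tendsto hr h1
    rw [h2]
    exact h1
  have hM' : Tendsto (fun k => Mr (x k)) atTop (𝓝 M) := hM
  have hb : ∀ u, 0 ≤ u → |DI (fun k => Lr (x k)) u - gue u| ≤ C' := by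
    intro u hu
    have h1 := hxt.eventually (hP1 u hu)
    rw [abs_le]
    constructor
    · have h2 : ∀ᶠ k in atTop, gue u - C' ≤ Lr (x k) u := by
        filter_upwards [h1] with k hk
        have := (abs_le.1 hk).1
        linarith
      have := DI_lower hu hEC h2
      linarith
    · have h2 : ∀ᶠ k in atTop, Lr (x k) u ≤ gue u + C' := by
        filter_upwards [h1] with k hk
        have := (abs_le.1 hk).2
        linarith
      have := DI_upper hu hEC h2
      linarith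
  have hMle := M_le_one_long hxt hxe hEC hrat' hM' hb (by
      intro n
      obtain ⟨p, hp, hwin⟩ := hi n
      refine ⟨p, hp, fun u hu => ?_⟩
      have hu0 : 0 ≤ u := hp.trans hu.1
      by_contra hcon
      push Not at hcon
      set ε := (-(1 / ((n:ℝ) + 1)) - (DI (fun k => Lr (x k)) u - gue u)) / 2 with hε
      have hε0 : 0 < ε := by rw [hε]; linarith
      have h1 := hxl.eventually (hwin u hu ε hε0)
      have h3 := DI_lower hu0 hEC h1
      linarith)
  have hMge : 1 ≤ M := by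
    apply le_of_tendsto_of_tendsto (NCount_NT.comp hxt) hM'
    exact Eventually.of_forall fun k => Mr_ge_ratio (hxe k)
  have hM1 : M = 1 := le_antisymm hMle hMge
  refine ⟨fun k => φ (ψ k) + N, ?_⟩
  rw [← hM1]
  exact hM'

/-- **Step 2 for long windows**. -/
theorem Lr_tendsto_of_long {l : Filter ℝ} [l.IsCountablyGenerated] (hl : l ≤ atTop)
    (hM : Tendsto Mr l (𝓝 1)) {sgn : ℝ} (hsgn : sgn = 1 ∨ sgn = -1) {p q m : ℕ → ℝ} (hL : LongSys p q m) {B : ℝ}
    (hi : ∀ j, ∀ a ∈ Icc (p j) (q j), ∀ ε > 0, ∀ᶠ T in l, -(B * Real.exp (-m j)) - ε ≤ sgn * (Lr T a - gue a)) :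
    ∀ a > 0, Tendsto (fun T => Lr T a) l (𝓝 (gue a)) := by
  obtain ⟨b₀, hb₀, hb₀1, hJ⟩ := JJ_tendsto
  obtain ⟨C, hC, T₀, hT₀, hq⟩ := Mr_le_of_quad
  obtain ⟨C', hC', hP1⟩ := Lr_gue_bound
  have hev : ∀ᶠ T in l, T₀ ≤ T := (eventually_ge_atTop T₀).filter_mono hl
  set D : ℝ → ℝ → ℝ := fun T u => Mr (max T (Real.exp 1)) / 2 + Lr (max T (Real.exp 1)) u with hD
  set G : ℝ → ℝ := fun u => 1 / 2 + gue u with hG
  have hDm : ∀ T, Monotone (D T) := fun T => (Lr_mono (le_max_right _ _)).const_add _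
  have hGl : ∀ u v, |G u - G v| ≤ |u - v| := by
    intro u v
    simp only [hG]
    rw [add_sub_add_left_eq_sub]
    exact gue_lipschitz u v
  have hDeq : ∀ T, T₀ ≤ T → ∀ u, D T u = Mr T / 2 + Lr T u := by
    intro T hT u
    simp only [hD, max_eq_left (hT₀.trans hT)]
  have hMe : ∀ᶠ T in l, ∀ a, D T a - G a = (Mr T - 1) / 2 + (Lr T a - gue a) := by
    filter_upwards [hev] with T hT a
    rw [hDeq T hT]
    simp only [hG]; ring
  have hM1 : ∀ ε > 0, ∀ᶠ T in l, |Mr T - 1| < ε := by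
    intro ε hε
    have := Metric.tendsto_nhds.1 hM ε hε
    simpa [Real.dist_eq] using this
  have hDC : ∀ᶠ T in l, ∀ u ≥ 0, |D T u - G u| ≤ (C + 1) * (1 + u) ^ 2 := by
    filter_upwards [hev, hMe, hM1 1 one_pos] with T hT h1 h2 u hu
    have hu' : (0:ℝ) ≤ u := hu
    rw [h1]
    have h3 := (hq T hT).2 u hu
    have h4 : |(Mr T - 1) / 2| ≤ 1 := by
      rw [abs_div, abs_of_pos (by norm_num : (0:ℝ) < 2)]; linarith
    have h5 : (1:ℝ) ≤ (1 + u) ^ 2 := by nlinarith
    calc |(Mr T - 1) / 2 + (Lr T u - gue u)| ≤ |(Mr T - 1) / 2| + |Lr T u - gue u| := abs_add_le _ _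
      _ ≤ 1 + C * (1 + u) ^ 2 := by linarith
      _ ≤ _ := by nlinarith
  have hDC' : ∀ u ≥ 0, ∀ᶠ T in l, |D T u - G u| ≤ C' + 1 := by
    intro u hu
    filter_upwards [hMe, hM1 1 one_pos, (hP1 u hu).filter_mono hl] with T h1 h2 h3
    rw [h1]
    have h4 : |(Mr T - 1) / 2| ≤ 1 := by
      rw [abs_div, abs_of_pos (by norm_num : (0:ℝ) < 2)]; linarith
    calc |(Mr T - 1) / 2 + (Lr T u - gue u)| ≤ |(Mr T - 1) / 2| + |Lr T u - gue u| := abs_add_le _ _
      _ ≤ _ := by linarith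
  have hgap : ∀ φ : ℝ → ℝ, TF φ b₀ →
      Tendsto (fun T => ∫ u in Ioi (0:ℝ), (Kc φ ((2 * π * u : ℝ) * Complex.I)).im * (D T u - G u)) l (𝓝 0) := by
    intro φ hφ
    obtain ⟨χ, hTP⟩ := TP_of_TF hb₀.le hφ
    refine (hJ _ χ hTP l hl hM).congr' ?_
    filter_upwards [hev] with T hT
    unfold JJ
    congr 1
    ext u
    rw [hDeq T hT]
  have hsgn' : |sgn| = 1 := by rcases hsgn with h | h <;> rw [h] <;> simp
  have hiD : ∀ j, ∀ a ∈ Icc (p j) (q j), ∀ ε > 0, ∀ᶠ T in l,
      -(B * Real.exp (-m j)) - ε ≤ sgn * (D T a - G a) := by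
    intro j a ha ε hε
    filter_upwards [hi j a ha (ε / 2) (by linarith), hM1 ε hε, hMe] with T h2 h3 h4
    rw [h4, mul_add]
    have h5 : |sgn * ((Mr T - 1) / 2)| ≤ ε / 2 := by
      rw [abs_mul, hsgn', one_mul, abs_div, abs_of_pos (by norm_num : (0:ℝ) < 2)]
      linarith
    have h6 := (abs_le.1 h5).1
    linarith
  have hmain := rigidity_long (l := l) (D := D) (G := G) hDm hGl hDC hDC' hb₀ hgap hsgn hL hiD
  intro a ha
  have h1 := hmain a ha
  have h2 : Tendsto (fun T => (D T a - G a) - (Mr T - 1) / 2 + gue a) l (𝓝 (gue a)) := by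
    have h3 : Tendsto (fun T => (Mr T - 1) / 2) l (𝓝 0) := by
      have := (hM.sub_const 1).div_const 2
      simpa using this
    have := (h1.sub h3).add_const (gue a)
    simpa using this
  refine h2.congr' ?_
  filter_upwards [hMe] with T hT
  rw [hT]; ring

/-- **Rigidity from a long system of windows**, lower bound form. -/
theorem main_lower_long {l : Filter ℝ} [l.IsCountablyGenerated] (hl : l ≤ atTop) {p q m : ℕ → ℝ}
    (hL : LongSys p q m) {B : ℝ} (hi : ∀ j, ∀ a ∈ Icc (p j) (q j), ∀ ε > 0, ∀ᶠ T in l,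
      gue a - B * Real.exp (-m j) - ε ≤ Lr T a) :
    Tendsto Mr l (𝓝 1) ∧ ∀ a > 0, Tendsto (fun T => Lr T a) l (𝓝 (gue a)) := by
  have hM := Mr_tendsto_long hl (by
    intro n
    obtain ⟨j, hj1, hj2⟩ := hL.exists_long (max ((n:ℝ) ^ 2) (Real.log ((|B| + 1) * ((n:ℝ) + 1))))
    refine ⟨p j, hL.nonneg j, fun a ha ε hε => ?_⟩
    have h1 : a ∈ Icc (p j) (q j) := ⟨ha.1, ha.2.trans (by
      have := (le_max_left _ _).trans hj1
      linarith)⟩
    filter_upwards [hi j a h1 ε hε] with T hT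
    have h2 : B * Real.exp (-m j) ≤ 1 / ((n:ℝ) + 1) := by
      have h3 : Real.log ((|B| + 1) * ((n:ℝ) + 1)) ≤ m j := (le_max_right _ _).trans hj2
      have h4 : Real.exp (-m j) ≤ ((|B| + 1) * ((n:ℝ) + 1))⁻¹ := by
        rw [← Real.exp_log (show 0 < (|B| + 1) * ((n:ℝ) + 1) by positivity), ← Real.exp_neg]
        apply Real.exp_le_exp.2; linarith
      calc B * Real.exp (-m j) ≤ (|B| + 1) * Real.exp (-m j) := by
            gcongr
            linarith [le_abs_self B]
        _ ≤ (|B| + 1) * ((|B| + 1) * ((n:ℝ) + 1))⁻¹ := by gcongr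
        _ = 1 / ((n:ℝ) + 1) := by
            have : |B| + 1 ≠ 0 := by positivity
            field_simp
    linarith)
  refine ⟨hM, Lr_tendsto_of_long hl hM (Or.inl rfl) hL (B := B) ?_⟩
  intro j a ha ε hε
  filter_upwards [hi j a ha ε hε] with T hT
  linarith

end Pool.Agent.PairCorr
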