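import Mathlib
import Pool.Agent.PairCorr.PB_Off
import Pool.Agent.PC10.Adapter

/-!
Moments of the number of zeros on a horizontal line.
-/

set_option autoImplicit false

namespace Pool.Agent.PairCorr

open MeasureTheory Filter Topology Set Real
open scoped ENNReal

/-- the number of zeros with the same ordinate as `z` -/
noncomputable def lineCount (z : ℂ) : ℝ≥0∞ := muZ {w : ℂ | w.im = z.im}

lemma measurable_lineCount : Measurable lineCount := by
  have hm : MeasurableSet {p : ℂ × ℂ | p.2.im = p.1.im} := by
    have h1 : Measurable fun p : ℂ × ℂ => p.1.im := by fun_prop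
    have h2 : Measurable fun p : ℂ × ℂ => p.2.im := by fun_prop
    exact measurableSet_eq_fun h2 h1
  have := measurable_measure_prodMk_left (ν := muZ) hm
  exact this

/-- the number of zeros on a line is at most the local count nearby -/
lemma lineCount_le {c T : ℝ} (hc : 0 ≤ c) (hT : 1 ≤ T) {z : ℂ} {t : ℝ}
    (h : |z.im - t| ≤ 1 / Real.log T) : lineCount z ≤ Eg muZ c T t := by
  have hL : 0 ≤ Real.log T := Real.log_nonneg hT
  unfold lineCount Eg
  have hm : MeasurableSet {w : ℂ | w.im = z.im} := by
    have h1 : Measurable fun w : ℂ => w.im := Complex.measurable_im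
    exact measurableSet_eq_fun h1 measurable_const
  rw [← lintegral_indicator_one hm]
  apply lintegral_mono
  intro w
  by_cases hw : w ∈ {w : ℂ | w.im = z.im}
  · rw [indicator_of_mem hw]
    have hw' : w.im = z.im := hw
    have e0 : cellInd (Real.log T) w t = 1 := by
      unfold cellInd
      rw [if_pos (by rw [hw']; exact h)]
    simp only [Pi.one_apply]
    rw [e0, one_mul]
    rw [← ENNReal.ofReal_one]
    apply ENNReal.ofReal_le_ofReal
    unfold wgt
    apply Real.one_le_exp
    positivity
  · rw [indicator_of_notMem hw]
    exact zero_le

/-- `p`-th moment over the zeros of the number of zeros on the same line. -/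
theorem line_moment (p : ℕ) : ∃ C : ℝ, 0 < C ∧ ∃ T₀ : ℝ, Real.exp 1 ≤ T₀ ∧ ∀ T : ℝ, T₀ ≤ T →
    ∫⁻ z, muZ {w : ℂ | w.im = z.im} ^ p ∂(muW T) ≤ ENNReal.ofReal (C * (T * Real.log T)) := by
  obtain ⟨c, hc, C, hC, T₀, h⟩ := Pool.Agent.PC10.statementB (p + 1)
  refine ⟨C, hC, max (Real.exp 1) T₀, le_max_left _ _, fun T hT => ?_⟩
  have hTe : Real.exp 1 ≤ T := (le_max_left _ _).trans hT
  have hT0 : T₀ ≤ T := (le_max_right _ _).trans hT
  have hT1 : 1 ≤ T := (Real.one_le_exp (by norm_num)).trans hTe
  have hL1 : 1 ≤ Real.log T := by
    rw [← Real.log_exp 1]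
    exact Real.log_le_log (Real.exp_pos 1) hTe
  have hL : 0 < Real.log T := by linarith
  obtain ⟨h1, h2⟩ := h T hT0
  have h3 := lintegral_Eg_pow h1 (by linarith) h2
  set L := Real.log T with hLdef
  set I : Set ℝ := Icc (-(3 * T)) (3 * T) with hI
  have hIm : MeasurableSet I := measurableSet_Icc
  have hmL := measurable_lineCount
  have key : (∫⁻ z, lineCount z ^ p ∂(muW T)) * ENNReal.ofReal (2 / L) ≤ ENNReal.ofReal (C * T) := by
    calc (∫⁻ z, lineCount z ^ p ∂(muW T)) * ENNReal.ofReal (2 / L)
        = ∫⁻ z, lineCount z ^ p * ENNReal.ofReal (2 / L) ∂(muW T) := by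
          rw [lintegral_mul_const _ (hmL.pow_const p)]
      _ = ∫⁻ z, (∫⁻ t in I, cellInd L z t * lineCount z ^ p) ∂(muW T) := by
          unfold muW
          apply setLIntegral_congr_fun (measurableSet_WT T)
          intro z hz
          simp only
          have hr : ∀ t, |z.im - t| ≤ 1 / L → t ∈ I := by
            intro t ht
            have e1 : 1 / L ≤ 1 := by rw [div_le_one hL]; exact hL1
            have e2 := abs_le.mp ht
            have e3 : 0 < z.im := hz.1
            have e4 : z.im ≤ T := hz.2
            exact ⟨by linarith, by linarith⟩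
          have hc1 : Measurable (cellInd L z) :=
            (measurable_cellInd L).comp (f := fun t : ℝ => (z, t)) (by fun_prop)
          rw [lintegral_mul_const _ hc1, lintegral_cellInd L z hIm hr, mul_comm]
      _ = ∫⁻ t in I, (∫⁻ z, cellInd L z t * lineCount z ^ p ∂(muW T)) := by
          have : SFinite (muW T) := by unfold muW; infer_instance
          rw [lintegral_lintegral_swap]
          apply Measurable.aemeasurable
          have e1 : Measurable fun q : ℂ × ℝ => cellInd L q.1 q.2 := measurable_cellInd L
          exact e1.mul ((hmL.comp measurable_fst).pow_const p)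
      _ ≤ ∫⁻ t in I, Eg muZ c T t ^ (p + 1) := by
          apply lintegral_mono
          intro t
          simp only
          have hcm : Measurable fun z : ℂ => cellInd L z t :=
            (measurable_cellInd L).comp (f := fun z : ℂ => (z, t)) (by fun_prop)
          calc ∫⁻ z, cellInd L z t * lineCount z ^ p ∂(muW T)
              ≤ ∫⁻ z, cellInd L z t * ENNReal.ofReal (wgt c T z) * Eg muZ c T t ^ p ∂muZ := by
                unfold muW
                refine (setLIntegral_le_lintegral _ _).trans (lintegral_mono fun z => ?_)
                unfold cellInd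
                split_ifs with hz
                · rw [one_mul, one_mul]
                  have e1 := lineCount_le hc.le hT1 hz
                  have e2 : (1 : ℝ≥0∞) ≤ ENNReal.ofReal (wgt c T z) := by
                    rw [← ENNReal.ofReal_one]
                    apply ENNReal.ofReal_le_ofReal
                    unfold wgt
                    apply Real.one_le_exp
                    positivity
                  calc lineCount z ^ p = 1 * lineCount z ^ p := (one_mul _).symm
                    _ ≤ _ := by gcongr
                · simp
            _ = Eg muZ c T t * Eg muZ c T t ^ p := by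
                rw [lintegral_mul_const]
                · rfl
                · exact hcm.mul (continuous_wgt c T).measurable.ennreal_ofReal
            _ = Eg muZ c T t ^ (p + 1) := by ring
      _ ≤ _ := h3
  rw [← ENNReal.le_div_iff_mul_le] at key
  · refine key.trans ?_
    rw [← ENNReal.ofReal_div_of_pos (by positivity)]
    apply ENNReal.ofReal_le_ofReal
    rw [div_le_iff₀ (by positivity)]
    have e : C * (T * L) * (2 / L) = 2 * (C * T) := by field_simp
    rw [e]
    have : 0 < C * T := by positivity
    linarith
  · left
    simp only [ne_eq, ENNReal.ofReal_eq_zero, not_le]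
    positivity
  · left
    exact ENNReal.ofReal_ne_top

end Pool.Agent.PairCorr
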