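import Mathlib
import Pool.Agent.PairCorr.P1_Final
import Pool.Agent.PairCorr.A_Count

/-!
(P1) in terms of `Lr`.
-/

set_option autoImplicit false

namespace Pool.Agent.PairCorr

open MeasureTheory Filter Topology Set Real
open scoped ENNReal

/-- (P1) for the normalised count: `|Lr T a - a| ≤ C` for large `T`, with `C` absolute. -/
theorem Lr_asymp : ∃ C : ℝ, 0 < C ∧ ∀ a : ℝ, 0 ≤ a → ∀ᶠ T in atTop, |Lr T a - a| ≤ C := by
  obtain ⟨C, hC, h⟩ := P1.NStar_asymp
  refine ⟨C * (2 * π), by positivity, fun a ha => ?_⟩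
  filter_upwards [h a ha, eventually_gt_atTop 1] with T hT hT1
  have hL : 0 < Real.log T := Real.log_pos hT1
  have hT0 : 0 < T := by linarith
  have hNT : 0 < NT T := by unfold NT; positivity
  rw [Lr_eq]
  have e : NStar T a / NT T - a = (NStar T a - a * NT T) / NT T := by field_simp
  rw [e, abs_div, abs_of_pos hNT, div_le_iff₀ hNT]
  have e2 : C * (2 * π) * NT T = C * (T * Real.log T) := by
    unfold NT
    field_simp
  rw [e2]
  exact hT

end Pool.Agent.PairCorr
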