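import Mathlib
import Pool.Agent.PairCorr.P1_Kernel

/-!
Smoothed tent functions with compactly supported Fourier transform.
-/

set_option autoImplicit false

namespace Pool.Agent.PairCorr.P4

open MeasureTheory Filter Topology Set Real
open Pool.Agent.PairCorr.P1

variable {χ : ℝ → ℝ} {b : ℝ}

/-- the Fourier transform of the smoothed tent function of width `S` -/
noncomputable def chiT (χ : ℝ → ℝ) (S v : ℝ) : ℝ := kerS (S / 2) v * (kerS (S / 2) v * χ v)

lemma chiT_TF (h : TF χ b) (S : ℝ) : TF (chiT χ S) b :=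
  (h.mul (contDiff_kerS (S / 2))).mul (contDiff_kerS (S / 2))

lemma chiT_even (hev : ∀ v, χ (-v) = χ v) (S v : ℝ) : chiT χ S (-v) = chiT χ S v := by
  unfold chiT kerS
  rw [hev, mul_neg, snc_neg]

/-- `v² chiT = (1 - cos (S v)) / (2 π²) χ` -/
lemma sq_mul_chiT (S v : ℝ) : v * (v * chiT χ S v) = (1 - Real.cos (S * v)) / (2 * π ^ 2) * χ v := by
  unfold chiT
  have h1 := mul_kerS (S / 2) v
  have h2 : Real.sin (S / 2 * v) ^ 2 = (1 - Real.cos (S * v)) / 2 := by
    have e : S * v = 2 * (S / 2 * v) := by ring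
    rw [e, Real.cos_two_mul]
    have := Real.sin_sq_add_cos_sq (S / 2 * v)
    linarith
  calc v * (v * (kerS (S / 2) v * (kerS (S / 2) v * χ v)))
      = (v * kerS (S / 2) v) * (v * kerS (S / 2) v) * χ v := by ring
    _ = Real.sin (S / 2 * v) ^ 2 / π ^ 2 * χ v := by rw [h1]; ring
    _ = _ := by rw [h2]; ring

/-- the second derivative of the kernel is localised at the three corners -/
lemma Kc_second (h : TF χ b) (S : ℝ) (w : ℂ) :
    Kc (fun v => v * (v * chiT χ S v)) w = (2 * π ^ 2 : ℂ)⁻¹ * (Kc χ w -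
      (Kc χ (w + S * Complex.I) + Kc χ (w - S * Complex.I)) / 2) := by
  unfold Kc
  have hi : Integrable (fun v : ℝ => ((χ v : ℂ) * Complex.exp (v * (w + S * Complex.I)) +
      (χ v : ℂ) * Complex.exp (v * (w - S * Complex.I))) / 2) :=
    ((h.integrable_exp _).add (h.integrable_exp _)).div_const 2
  rw [← integral_add (h.integrable_exp _) (h.integrable_exp _), ← integral_div,
    ← integral_sub (h.integrable_exp _) hi, ← integral_const_mul]
  apply integral_congr_ae
  filter_upwards with v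
  rw [sq_mul_chiT]
  have e2 : Complex.cos (S * v) = (Complex.exp (v * (S * Complex.I)) +
      Complex.exp (-(v * (S * Complex.I)))) / 2 := by
    rw [Complex.cos]
    have : ((S : ℂ) * v) * Complex.I = v * (S * Complex.I) := by ring
    rw [this, show -((S : ℂ) * v) * Complex.I = -(v * (S * Complex.I)) by ring]
  have e3 : (v : ℂ) * (w + S * Complex.I) = v * w + v * (S * Complex.I) := by ring
  have e4 : (v : ℂ) * (w - S * Complex.I) = v * w + -(v * (S * Complex.I)) := by ring
  push_cast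
  rw [e2, e3, e4, Complex.exp_add, Complex.exp_add]
  have hpi : (π : ℂ) ≠ 0 := by exact_mod_cast Real.pi_ne_zero
  field_simp

/-- the three-corner weight -/
noncomputable def cw (S τ : ℝ) : ℝ := q4 τ + q4 (τ - S) + q4 (τ + S)

lemma cw_pos (S τ : ℝ) : 0 < cw S τ := by
  unfold cw
  have := q4_pos τ
  have := q4_pos (τ - S)
  have := q4_pos (τ + S)
  positivity

/-- moving symmetrically off the line -/
lemma exists_second_diff (h : TF χ b) : ∃ K : ℝ, 0 < K ∧ ∀ S r τ : ℝ,
    ‖Kc (chiT χ S) (r + τ * Complex.I) + Kc (chiT χ S) (((-r : ℝ) : ℂ) + τ * Complex.I) -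
      2 * Kc (chiT χ S) (τ * Complex.I)‖ ≤
      K * (r ^ 2 * Real.exp (|b| * |r|)) * cw S τ := by
  obtain ⟨K, hK, hdec⟩ := exists_decay5 h
  refine ⟨4 * K, by positivity, fun S r τ => ?_⟩
  set M : ℝ := 2 * K * Real.exp (|b| * |r|) * cw S τ with hM
  have hM0 : 0 ≤ M := by
    have := cw_pos S τ
    positivity
  have hφ := chiT_TF h S
  set W := Kc (chiT χ S) with hW
  set W1 := Kc (fun v => v * chiT χ S v) with hW1
  set W2 := Kc (fun v => v * (v * chiT χ S v)) with hW2
  have hbd : ∀ s : ℝ, |s| ≤ |r| → ‖W2 (s + τ * Complex.I)‖ ≤ M := by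
    intro s hs
    rw [hW2, Kc_second h]
    have h0 := hdec (s + τ * Complex.I)
    have h1 := hdec (s + τ * Complex.I + S * Complex.I)
    have h2 := hdec (s + τ * Complex.I - S * Complex.I)
    have r0 : ((s : ℂ) + τ * Complex.I).re = s := by simp
    have i0 : ((s : ℂ) + τ * Complex.I).im = τ := by simp
    have r1 : ((s : ℂ) + τ * Complex.I + S * Complex.I).re = s := by simp
    have i1 : ((s : ℂ) + τ * Complex.I + S * Complex.I).im = τ + S := by simp
    have r2 : ((s : ℂ) + τ * Complex.I - S * Complex.I).re = s := by simp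
    have i2 : ((s : ℂ) + τ * Complex.I - S * Complex.I).im = τ - S := by simp
    rw [r0, i0] at h0
    rw [r1, i1] at h1
    rw [r2, i2] at h2
    have hexp : Real.exp (b * |s|) ≤ Real.exp (|b| * |r|) := by
      apply Real.exp_le_exp.mpr
      exact mul_le_mul (le_abs_self b) hs (abs_nonneg _) (abs_nonneg _)
    have hb : ∀ x : ℝ, K * Real.exp (b * |s|) * ((1 + |x|) ^ 5)⁻¹ ≤
        K * Real.exp (|b| * |r|) * q4 x := by
      intro x
      have := q5_le_q4 x
      gcongr
    have h0' := h0.trans (hb τ)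
    have h1' := h1.trans (hb (τ + S))
    have h2' := h2.trans (hb (τ - S))
    have hpi : ‖(2 * π ^ 2 : ℂ)⁻¹‖ ≤ 1 := by
      rw [norm_inv]
      apply inv_le_one_of_one_le₀
      simp
      have := Real.pi_gt_three
      nlinarith
    have hE : 0 ≤ K * Real.exp (|b| * |r|) := by positivity
    have q0 := (q4_pos τ).le
    have q1 := (q4_pos (τ + S)).le
    have q2 := (q4_pos (τ - S)).le
    calc ‖(2 * π ^ 2 : ℂ)⁻¹ * (Kc χ (s + τ * Complex.I) -
          (Kc χ (s + τ * Complex.I + S * Complex.I) + Kc χ (s + τ * Complex.I - S * Complex.I)) / 2)‖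
        ≤ 1 * (‖Kc χ (s + τ * Complex.I)‖ + (‖Kc χ (s + τ * Complex.I + S * Complex.I)‖ +
          ‖Kc χ (s + τ * Complex.I - S * Complex.I)‖) / 2) := by
          rw [norm_mul]
          gcongr
          refine (norm_sub_le _ _).trans ?_
          gcongr
          rw [norm_div]
          simp only [Complex.norm_ofNat]
          gcongr
          exact norm_add_le _ _
      _ ≤ 1 * (K * Real.exp (|b| * |r|) * q4 τ + (K * Real.exp (|b| * |r|) * q4 (τ + S) +
          K * Real.exp (|b| * |r|) * q4 (τ - S)) / 2) := by gcongr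
      _ ≤ M := by
          rw [hM]
          unfold cw
          nlinarith [mul_nonneg hE q0, mul_nonneg hE q1, mul_nonneg hE q2]
  have hd : ∀ s : ℝ, HasDerivAt (fun s : ℝ => W (s + τ * Complex.I)) (W1 (s + τ * Complex.I)) s := by
    intro s
    have e1 := hφ.hasDerivAt_Kc (s + τ * Complex.I)
    have e2 : HasDerivAt (fun s : ℝ => (s:ℂ) + τ * Complex.I) 1 s := by
      simpa using (Complex.ofRealCLM.hasDerivAt (x := s)).add_const (τ * Complex.I)
    have e3 := e1.comp s e2
    rw [mul_one] at e3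
    exact e3
  have hd1 : ∀ s : ℝ, HasDerivAt (fun s : ℝ => W1 (s + τ * Complex.I)) (W2 (s + τ * Complex.I)) s := by
    intro s
    have e1 := hφ.mul_id.hasDerivAt_Kc (s + τ * Complex.I)
    have e2 : HasDerivAt (fun s : ℝ => (s:ℂ) + τ * Complex.I) 1 s := by
      simpa using (Complex.ofRealCLM.hasDerivAt (x := s)).add_const (τ * Complex.I)
    have e3 := e1.comp s e2
    rw [mul_one] at e3
    exact e3
  have hg : ∀ s : ℝ, HasDerivAt (fun s : ℝ => W (s + τ * Complex.I) + W (((-s : ℝ) : ℂ) + τ * Complex.I))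
      (W1 (s + τ * Complex.I) - W1 (((-s : ℝ) : ℂ) + τ * Complex.I)) s := by
    intro s
    have e1 := (hd (-s)).scomp s (hasDerivAt_neg s)
    have e2 := (hd s).add e1
    refine e2.congr_deriv ?_
    simp [sub_eq_add_neg]
  have hmv1 : ∀ s : ℝ, |s| ≤ |r| →
      ‖W1 (s + τ * Complex.I) - W1 (((-s : ℝ) : ℂ) + τ * Complex.I)‖ ≤ M * (2 * |r|) := by
    intro s hs
    have h1 := Convex.norm_image_sub_le_of_norm_hasDerivWithin_le
      (f := fun x : ℝ => W1 (x + τ * Complex.I)) (f' := fun x : ℝ => W2 (x + τ * Complex.I))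
      (s := {x : ℝ | |x| ≤ |r|}) (x := -s) (y := s) (C := M)
      (fun x _ => (hd1 x).hasDerivWithinAt) (fun x hx => hbd x hx) ?_ ?_ ?_
    · refine h1.trans ?_
      gcongr
      rw [Real.norm_eq_abs, sub_neg_eq_add, ← two_mul, abs_mul, abs_two]
      linarith
    · have : {x : ℝ | |x| ≤ |r|} = Icc (-|r|) (|r|) := by
        ext x; simp [abs_le]
      rw [this]; exact convex_Icc _ _
    · show |-s| ≤ |r|
      rw [abs_neg]; exact hs
    · exact hs
  have hmv2 := Convex.norm_image_sub_le_of_norm_hasDerivWithin_le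
      (f := fun x : ℝ => W (x + τ * Complex.I) + W (((-x : ℝ) : ℂ) + τ * Complex.I))
      (f' := fun x : ℝ => W1 (x + τ * Complex.I) - W1 (((-x : ℝ) : ℂ) + τ * Complex.I))
      (s := {x : ℝ | |x| ≤ |r|}) (x := 0) (y := r) (C := M * (2 * |r|))
      (fun x _ => (hg x).hasDerivWithinAt) (fun x hx => hmv1 x hx) (by
        have : {x : ℝ | |x| ≤ |r|} = Icc (-|r|) (|r|) := by
          ext x; simp [abs_le]
        rw [this]; exact convex_Icc _ _) (by simp) (by simp)
  simp only [Complex.ofReal_zero, zero_add, neg_zero, sub_zero, Real.norm_eq_abs] at hmv2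
  have e1 : W (r + τ * Complex.I) + W (((-r : ℝ) : ℂ) + τ * Complex.I) -
      (W (τ * Complex.I) + W (τ * Complex.I)) = W (r + τ * Complex.I) +
      W (((-r : ℝ) : ℂ) + τ * Complex.I) - 2 * W (τ * Complex.I) := by ring
  rw [e1] at hmv2
  refine hmv2.trans (le_of_eq ?_)
  rw [hM, ← sq_abs r]
  ring

/-! ### The kernel on the line -/

/-- the tent function -/
noncomputable def tent (S τ : ℝ) : ℝ := max (S - |τ|) 0

lemma tent_eq {S : ℝ} (hS : 0 ≤ S) (τ : ℝ) : |τ + S| - 2 * |τ| + |τ - S| = 2 * tent S τ := by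
  unfold tent
  rcases le_total |τ| S with h | h
  · rw [max_eq_left (by linarith)]
    have h1 := abs_le.mp h
    rw [abs_of_nonneg (by linarith : 0 ≤ τ + S), abs_of_nonpos (by linarith : τ - S ≤ 0)]
    ring
  · rw [max_eq_right (by linarith)]
    rcases le_total 0 τ with h0 | h0
    · rw [abs_of_nonneg h0] at h ⊢
      rw [abs_of_nonneg (by linarith : 0 ≤ τ + S), abs_of_nonneg (by linarith : 0 ≤ τ - S)]
      ring
    · rw [abs_of_nonpos h0] at h ⊢
      rw [abs_of_nonpos (by linarith : τ + S ≤ 0), abs_of_nonpos (by linarith : τ - S ≤ 0)]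
      ring

lemma int_pow_le {K : ℝ} (hK : 0 ≤ K) {n : ℕ} (hn : 1 ≤ n) {α β : ℝ} (hα : 0 ≤ α) (hαβ : α ≤ β) :
    ∫ y in α..β, K * ((1 + |y|) ^ (n + 1))⁻¹ ≤ K * ((1 + α) ^ n)⁻¹ := by
  have e1 : ∫ y in α..β, K * ((1 + |y|) ^ (n + 1))⁻¹ = ∫ y in α..β, K * ((1 + y) ^ (n + 1))⁻¹ := by
    apply intervalIntegral.integral_congr
    intro y hy
    rw [uIcc_of_le hαβ] at hy
    simp only
    rw [abs_of_nonneg (hα.trans hy.1)]
  have hn0 : (n : ℝ) ≠ 0 := by positivity
  have e2 : ∫ y in α..β, K * ((1 + y) ^ (n + 1))⁻¹ =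
      (-(K / n) * ((1 + β) ^ n)⁻¹) - (-(K / n) * ((1 + α) ^ n)⁻¹) := by
    apply intervalIntegral.integral_eq_sub_of_hasDerivAt
    · intro y hy
      rw [uIcc_of_le hαβ] at hy
      have hy0 : 0 < 1 + y := by have := hα.trans hy.1; positivity
      have h1 : HasDerivAt (fun y : ℝ => 1 + y) 1 y := by simpa using (hasDerivAt_id y).const_add 1
      have h2 := ((h1.pow n).inv (pow_ne_zero n hy0.ne')).const_mul (-(K / n))
      refine h2.congr_deriv ?_
      simp only [Pi.pow_apply]
      obtain ⟨m, rfl⟩ : ∃ m, n = m + 1 := ⟨n - 1, by omega⟩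
      have hm0 : ((m + 1 : ℕ) : ℝ) ≠ 0 := hn0
      simp only [Nat.add_sub_cancel]
      field_simp
      ring
    · apply ContinuousOn.intervalIntegrable
      rw [uIcc_of_le hαβ]
      intro y hy
      have hy0 : 0 < 1 + y := by have := hα.trans hy.1; positivity
      apply ContinuousAt.continuousWithinAt
      exact continuousAt_const.mul ((by fun_prop : ContinuousAt (fun y : ℝ => (1 + y) ^ (n + 1)) y).inv₀
        (pow_ne_zero _ hy0.ne'))
  rw [e1, e2]
  have hβ : 0 ≤ ((1 + β) ^ n)⁻¹ := by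
    have : 0 ≤ 1 + β := by linarith
    positivity
  have hα' : 0 ≤ ((1 + α) ^ n)⁻¹ := by positivity
  have hKn : K / n ≤ K := div_le_self hK (by exact_mod_cast hn)
  have hKn0 : 0 ≤ K / n := by positivity
  nlinarith [mul_nonneg hKn0 hβ, mul_le_mul_of_nonneg_right hKn hα']

/-- decay of the sixth order -/
lemma exists_decay6 (h : TF χ b) : ∃ K : ℝ, 0 < K ∧ ∀ y : ℝ,
    ‖Kc χ (y * Complex.I)‖ ≤ K * ((1 + |y|) ^ 6)⁻¹ := by
  obtain ⟨C, hC0, hC⟩ := h.decay_one_add 6
  refine ⟨C + 1, by positivity, fun y => ?_⟩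
  have h1 := hC (y * Complex.I)
  have e1 : ‖(y : ℂ) * Complex.I‖ = |y| := by simp
  have e2 : ((y : ℂ) * Complex.I).re = 0 := by simp
  rw [e1, e2, abs_zero, mul_zero, Real.exp_zero, mul_one] at h1
  rw [← div_eq_mul_inv, le_div_iff₀ (by positivity)]
  linarith

lemma om_even (hev : ∀ v, χ (-v) = χ v) (y : ℝ) :
    Kc χ (((-y : ℝ) : ℂ) * Complex.I) = Kc χ (y * Complex.I) := by
  unfold Kc
  rw [← integral_neg_eq_self]
  apply integral_congr_ae
  filter_upwards with v
  rw [hev]
  congr 2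
  push_cast
  ring

/-- the second primitive of the approximate identity -/
theorem exists_primitive (h : TF χ b) (hev : ∀ v, χ (-v) = χ v) (h0 : χ 0 = 1) :
    ∃ P Q : ℝ → ℂ, ∃ κ : ℂ, ∃ K : ℝ, 0 < K ∧
      (∀ x : ℝ, HasDerivAt P (Kc χ ((x : ℂ) * Complex.I)) x) ∧
      (∀ x : ℝ, HasDerivAt Q (P x) x) ∧ ∀ x : ℝ, ‖Q x - π * |x| + κ‖ ≤ K * q4 x := by
  obtain ⟨K, hK, hdec⟩ := exists_decay6 h
  set ω : ℝ → ℂ := fun y => Kc χ (y * Complex.I) with hω
  have hωc : Continuous ω := continuous_om h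
  have hωe : ∀ y, ω (-y) = ω y := om_even hev
  set P : ℝ → ℂ := fun x => ∫ y in (0 : ℝ)..x, ω y with hP
  have hPd : ∀ x, HasDerivAt P (ω x) x := fun x =>
    intervalIntegral.integral_hasDerivAt_right (hωc.intervalIntegrable _ _)
      (hωc.stronglyMeasurableAtFilter _ _) hωc.continuousAt
  have hPc : Continuous P := continuous_iff_continuousAt.mpr fun x => (hPd x).continuousAt
  have hPo : ∀ x, P (-x) = -P x := by
    intro x
    simp only [hP]
    have := intervalIntegral.integral_comp_neg (a := 0) (b := x) ω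
    simp only [neg_zero] at this
    rw [intervalIntegral.integral_symm, ← this]
    congr 1
    apply intervalIntegral.integral_congr
    intro y _
    exact hωe y
  set Q : ℝ → ℂ := fun x => ∫ y in (0 : ℝ)..x, P y with hQ
  have hQd : ∀ x, HasDerivAt Q (P x) x := fun x =>
    intervalIntegral.integral_hasDerivAt_right (hPc.intervalIntegrable _ _)
      (hPc.stronglyMeasurableAtFilter _ _) hPc.continuousAt
  have hQe : ∀ x, Q (-x) = Q x := by
    intro x
    simp only [hQ]
    have := intervalIntegral.integral_comp_neg (a := 0) (b := x) P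
    simp only [neg_zero] at this
    rw [intervalIntegral.integral_symm, ← this, ← intervalIntegral.integral_neg]
    apply intervalIntegral.integral_congr
    intro y _
    simp only
    rw [hPo, neg_neg]
  have hcont6 : Continuous fun y : ℝ => K * ((1 + |y|) ^ (5 + 1))⁻¹ := by
    have : Continuous fun y : ℝ => ((1 + |y|) ^ (5 + 1))⁻¹ := by
      apply Continuous.inv₀ (by fun_prop)
      intro y; positivity
    exact continuous_const.mul this
  have hcont5 : Continuous fun y : ℝ => K * ((1 + |y|) ^ (4 + 1))⁻¹ := by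
    have : Continuous fun y : ℝ => ((1 + |y|) ^ (4 + 1))⁻¹ := by
      apply Continuous.inv₀ (by fun_prop)
      intro y; positivity
    exact continuous_const.mul this
  -- the limit of `P`
  have hPlim : Tendsto P atTop (𝓝 (π : ℂ)) := by
    have h1 := tendsto_total h h0
    have h2 : ∀ R : ℝ, ∫ y in (-R)..R, Kc χ (y * Complex.I) = 2 * P R := by
      intro R
      have e : ∫ y in (-R)..R, ω y = (∫ y in (-R)..0, ω y) + ∫ y in (0 : ℝ)..R, ω y :=
        (intervalIntegral.integral_add_adjacent_intervals (hωc.intervalIntegrable _ _)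
          (hωc.intervalIntegrable _ _)).symm
      have e2 : ∫ y in (-R)..0, ω y = P R := by
        have := hPo R
        simp only [hP] at this ⊢
        rw [intervalIntegral.integral_symm, this, neg_neg]
      show ∫ y in (-R)..R, ω y = 2 * P R
      rw [e, e2]
      simp only [hP]
      ring
    simp_rw [h2] at h1
    have h3 := h1.const_mul ((2 : ℂ)⁻¹)
    have e : (2 : ℂ)⁻¹ * (2 * π) = π := by field_simp
    rw [e] at h3
    refine h3.congr fun R => ?_
    field_simp
  have hPtail : ∀ x : ℝ, 0 ≤ x → ‖P x - π‖ ≤ K * ((1 + |x|) ^ (4 + 1))⁻¹ := by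
    intro x hx
    have hl : Tendsto (fun y => ‖P x - P y‖) atTop (𝓝 ‖P x - π‖) :=
      (tendsto_const_nhds.sub hPlim).norm
    refine le_of_tendsto hl ?_
    filter_upwards [eventually_ge_atTop x] with y hy
    have e : P x - P y = -∫ t in x..y, ω t := by
      simp only [hP]
      rw [← intervalIntegral.integral_add_adjacent_intervals (hωc.intervalIntegrable 0 x)
        (hωc.intervalIntegrable x y)]
      ring
    rw [e, norm_neg]
    refine (intervalIntegral.norm_integral_le_of_norm_le hy (Eventually.of_forall fun t _ => hdec t)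
      (hcont6.intervalIntegrable _ _)).trans ?_
    have := int_pow_le hK.le (n := 5) (by norm_num) hx hy
    rw [abs_of_nonneg hx]
    exact this
  -- the limit of `Q x - π x`
  have hPi : IntegrableOn (fun x => P x - π) (Ioi 0) := by
    have hdom : IntegrableOn (fun x : ℝ => K * (1 + x ^ 2)⁻¹) (Ioi 0) :=
      (integrable_inv_one_add_sq.const_mul K).integrableOn
    refine Integrable.mono' hdom (hPc.sub continuous_const).aestronglyMeasurable ?_
    refine (ae_restrict_mem measurableSet_Ioi).mono fun x hx => ?_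
    have hx0 : (0 : ℝ) < x := hx
    refine (hPtail x hx0.le).trans ?_
    gcongr
    rw [abs_of_pos hx0]
    calc 1 + x ^ 2 ≤ (1 + x) ^ 2 := by nlinarith
      _ ≤ (1 + x) ^ (4 + 1) := pow_le_pow_right₀ (by linarith) (by norm_num)
  have hQlim : Tendsto (fun y : ℝ => Q y - π * y) atTop (𝓝 (∫ x in Ioi (0 : ℝ), (P x - π))) := by
    have := intervalIntegral_tendsto_integral_Ioi (a := (0 : ℝ)) (b := fun x : ℝ => x) hPi tendsto_id
    refine this.congr fun y => ?_
    rw [intervalIntegral.integral_sub (hPc.intervalIntegrable _ _) intervalIntegrable_const]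
    simp [hQ]
    ring
  refine ⟨P, Q, -(∫ x in Ioi (0 : ℝ), (P x - π)), K, hK, hPd, hQd, ?_⟩
  have hpos : ∀ x : ℝ, 0 ≤ x → ‖Q x - π * x + -(∫ x in Ioi (0 : ℝ), (P x - π))‖ ≤ K * q4 x := by
    intro x hx
    have hl : Tendsto (fun y : ℝ => ‖Q x - π * x + -(Q y - π * y)‖) atTop
        (𝓝 ‖Q x - π * x + -(∫ x in Ioi (0 : ℝ), (P x - π))‖) :=
      (tendsto_const_nhds.add hQlim.neg).norm
    refine le_of_tendsto hl ?_
    filter_upwards [eventually_ge_atTop x] with y hy
    have e : Q x - π * x + -(Q y - π * y) = -∫ t in x..y, (P t - π) := by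
      rw [intervalIntegral.integral_sub (hPc.intervalIntegrable _ _) intervalIntegrable_const]
      simp only [hQ]
      rw [← intervalIntegral.integral_add_adjacent_intervals (hPc.intervalIntegrable 0 x)
        (hPc.intervalIntegrable x y)]
      simp
      ring
    rw [e, norm_neg]
    refine (intervalIntegral.norm_integral_le_of_norm_le hy ?_
      (hcont5.intervalIntegrable _ _)).trans ?_
    · exact Eventually.of_forall fun t ht => hPtail t (hx.trans ht.1.le)
    · have := int_pow_le hK.le (n := 4) (by norm_num) hx hy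
      unfold q4
      rw [abs_of_nonneg hx]
      exact this
  intro x
  rcases le_total 0 x with hx | hx
  · rw [abs_of_nonneg hx]
    exact hpos x hx
  · have h1 := hpos (-x) (by linarith)
    rw [hQe] at h1
    rw [abs_of_nonpos hx]
    have e : q4 (-x) = q4 x := by unfold q4; rw [abs_neg]
    rw [e] at h1
    exact h1

/-- decay in the vertical direction -/
lemma tendsto_Kt_zero (h : TF χ b) (S : ℝ) :
    Tendsto (fun τ : ℝ => Kc (chiT χ S) (τ * Complex.I)) atTop (𝓝 0) := by
  obtain ⟨K, hK, hdec⟩ := exists_decay5 (chiT_TF h S)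
  rw [tendsto_zero_iff_norm_tendsto_zero]
  have h1 : Tendsto (fun τ : ℝ => K * τ⁻¹) atTop (𝓝 (K * 0)) := tendsto_inv_atTop_zero.const_mul K
  rw [mul_zero] at h1
  refine squeeze_zero' (Eventually.of_forall fun τ => norm_nonneg _) ?_ h1
  filter_upwards [eventually_gt_atTop 0] with τ hτ
  have h2 := hdec (τ * Complex.I)
  simp only [Complex.mul_re, Complex.ofReal_re, Complex.I_re, mul_zero, Complex.ofReal_im,
    Complex.I_im, mul_one, sub_self, abs_zero, Real.exp_zero, Complex.mul_im, add_zero] at h2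
  refine h2.trans ?_
  gcongr
  rw [abs_of_pos hτ]
  calc τ ≤ 1 + τ := by linarith
    _ ≤ (1 + τ) ^ 5 := le_self_pow₀ (by linarith) (by norm_num)

lemma affine_zero {G G' : ℝ → ℂ} (h1 : ∀ x, HasDerivAt G (G' x) x) (h2 : ∀ x, HasDerivAt G' 0 x)
    (hlim : Tendsto G atTop (𝓝 0)) (x : ℝ) : G x = 0 := by
  have hc : ∀ x y, G' x = G' y := fun x y =>
    is_const_of_deriv_eq_zero (fun z => (h2 z).differentiableAt) (fun z => (h2 z).deriv) x y
  have hA : ∀ y, G y = G 0 + y * G' 0 := by
    intro y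
    have hd : ∀ z, HasDerivAt (fun z : ℝ => G z - z * G' 0) 0 z := by
      intro z
      have e1 : HasDerivAt (fun z : ℝ => (z : ℂ) * G' 0) (G' 0) z := by
        simpa using (Complex.ofRealCLM.hasDerivAt (x := z)).mul_const (G' 0)
      have := (h1 z).sub e1
      refine this.congr_deriv ?_
      rw [hc z 0, sub_self]
    have := is_const_of_deriv_eq_zero (fun z => (hd z).differentiableAt) (fun z => (hd z).deriv) y 0
    simp only [Complex.ofReal_zero, zero_mul, sub_zero] at this
    rw [← this]; ring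
  -- `G y - G (y - 1) = G' 0 → 0`
  have hG0 : G' 0 = 0 := by
    have e1 : Tendsto (fun y : ℝ => G (y + 1) - G y) atTop (𝓝 (0 - 0)) :=
      (hlim.comp (tendsto_atTop_add_const_right _ 1 tendsto_id)).sub hlim
    rw [sub_zero] at e1
    have e2 : Tendsto (fun _ : ℝ => G' 0) atTop (𝓝 0) := by
      refine e1.congr fun y => ?_
      rw [hA (y + 1), hA y]
      push_cast
      ring
    exact tendsto_nhds_unique tendsto_const_nhds e2
  have hconst : ∀ y, G y = G 0 := by
    intro y; rw [hA y, hG0, mul_zero, add_zero]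
  have : Tendsto (fun _ : ℝ => G x) atTop (𝓝 0) := hlim.congr fun y => by rw [hconst y, hconst x]
  exact tendsto_nhds_unique tendsto_const_nhds this

/-- comparison with the tent function -/
theorem exists_tent (h : TF χ b) (hev : ∀ v, χ (-v) = χ v) (h0 : χ 0 = 1) :
    ∃ K : ℝ, 0 < K ∧ ∀ S τ : ℝ, 0 ≤ S →
    ‖Kc (chiT χ S) (τ * Complex.I) - ((tent S τ / (2 * π) : ℝ) : ℂ)‖ ≤ K * cw S τ := by
  obtain ⟨P, Q, κ, K, hK, hPd, hQd, hR⟩ := exists_primitive h hev h0
  refine ⟨2 * K, by positivity, fun S τ hS => ?_⟩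
  have hpi : (π : ℂ) ≠ 0 := by exact_mod_cast Real.pi_ne_zero
  set ω : ℝ → ℂ := fun y => Kc χ (y * Complex.I) with hω
  set W := Kc (chiT χ S) with hW
  set W1 := Kc (fun v => v * chiT χ S v) with hW1
  have hφ := chiT_TF h S
  set G : ℝ → ℂ := fun τ => W (τ * Complex.I) - (4 * π ^ 2 : ℂ)⁻¹ * (Q (τ + S) - 2 * Q τ + Q (τ - S))
    with hG
  set G' : ℝ → ℂ := fun τ => Complex.I * W1 (τ * Complex.I) -
    (4 * π ^ 2 : ℂ)⁻¹ * (P (τ + S) - 2 * P τ + P (τ - S)) with hG'
  have hI : ∀ τ : ℝ, HasDerivAt (fun τ : ℝ => (τ : ℂ) * Complex.I) Complex.I τ := by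
    intro τ
    simpa using (Complex.ofRealCLM.hasDerivAt (x := τ)).mul_const Complex.I
  have hGd : ∀ τ, HasDerivAt G (G' τ) τ := by
    intro τ
    have h1 := (hφ.hasDerivAt_Kc (τ * Complex.I)).comp τ (hI τ)
    have h3 : HasDerivAt (fun τ : ℝ => Q (τ + S)) (P (τ + S)) τ := (hQd (τ + S)).comp_add_const τ S
    have h4 : HasDerivAt (fun τ : ℝ => Q (τ - S)) (P (τ - S)) τ := (hQd (τ - S)).comp_sub_const τ S
    have h5 := h1.sub (((h3.sub ((hQd τ).const_mul 2)).add h4).const_mul ((4 * π ^ 2 : ℂ)⁻¹))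
    refine h5.congr_deriv ?_
    simp only [hG', hW1]
    ring
  have hGd' : ∀ τ, HasDerivAt G' 0 τ := by
    intro τ
    have h1 := ((hφ.mul_id.hasDerivAt_Kc (τ * Complex.I)).comp τ (hI τ)).const_mul Complex.I
    have h3 : HasDerivAt (fun τ : ℝ => P (τ + S)) (ω (τ + S)) τ := (hPd (τ + S)).comp_add_const τ S
    have h4 : HasDerivAt (fun τ : ℝ => P (τ - S)) (ω (τ - S)) τ := (hPd (τ - S)).comp_sub_const τ S
    have h5 := h1.sub (((h3.sub ((hPd τ).const_mul 2)).add h4).const_mul ((4 * π ^ 2 : ℂ)⁻¹))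
    refine h5.congr_deriv ?_
    rw [Kc_second h]
    have e1 : ω (τ + S) = Kc χ (τ * Complex.I + S * Complex.I) := by
      simp only [hω]; congr 1; push_cast; ring
    have e2 : ω (τ - S) = Kc χ (τ * Complex.I - S * Complex.I) := by
      simp only [hω]; congr 1; push_cast; ring
    rw [e1, e2]
    have hII : Complex.I * Complex.I = -1 := Complex.I_mul_I
    generalize Kc χ (τ * Complex.I + S * Complex.I) = a
    generalize Kc χ (τ * Complex.I - S * Complex.I) = c
    generalize Kc χ (τ * Complex.I) = d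
    have e3 : Complex.I * ((2 * (π : ℂ) ^ 2)⁻¹ * (d - (a + c) / 2) * Complex.I) =
        (Complex.I * Complex.I) * ((2 * (π : ℂ) ^ 2)⁻¹ * (d - (a + c) / 2)) := by ring
    rw [e3, hII]
    field_simp
    ring
  set R : ℝ → ℂ := fun x => Q x - π * |x| + κ with hRdef
  have hQR : ∀ τ : ℝ, Q (τ + S) - 2 * Q τ + Q (τ - S) =
      ((2 * π * tent S τ : ℝ) : ℂ) + (R (τ + S) - 2 * R τ + R (τ - S)) := by
    intro τ
    have e := tent_eq hS τ
    simp only [hRdef]
    have e' : ((2 * π * tent S τ : ℝ) : ℂ) = π * ((|τ + S| : ℝ) - 2 * (|τ| : ℝ) + (|τ - S| : ℝ)) := by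
      rw [show 2 * π * tent S τ = π * (2 * tent S τ) by ring, ← e]
      push_cast
      ring
    rw [e']
    ring
  have hlim : Tendsto G atTop (𝓝 0) := by
    have h1 := tendsto_Kt_zero h S
    have hRlim : Tendsto R atTop (𝓝 0) := by
      rw [tendsto_zero_iff_norm_tendsto_zero]
      have h3 : Tendsto (fun τ : ℝ => K * τ⁻¹) atTop (𝓝 (K * 0)) := tendsto_inv_atTop_zero.const_mul K
      rw [mul_zero] at h3
      refine squeeze_zero' (Eventually.of_forall fun τ => norm_nonneg _) ?_ h3
      filter_upwards [eventually_gt_atTop 0] with τ hτ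
      refine (hR τ).trans ?_
      unfold q4
      gcongr
      rw [abs_of_pos hτ]
      calc τ ≤ 1 + τ := by linarith
        _ ≤ (1 + τ) ^ 4 := le_self_pow₀ (by linarith) (by norm_num)
    have h2 : Tendsto (fun τ : ℝ => (4 * π ^ 2 : ℂ)⁻¹ * (R (τ + S) - 2 * R τ + R (τ - S))) atTop
        (𝓝 ((4 * π ^ 2 : ℂ)⁻¹ * (0 - 2 * 0 + 0))) := by
      apply Tendsto.const_mul
      apply Tendsto.add
      · apply Tendsto.sub
        · exact hRlim.comp (tendsto_atTop_add_const_right _ _ tendsto_id)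
        · exact hRlim.const_mul 2
      · exact hRlim.comp (tendsto_atTop_add_const_right _ (-S) tendsto_id)
    have h3 := h1.sub h2
    simp only [mul_zero, sub_zero, add_zero] at h3
    refine h3.congr' ?_
    filter_upwards [eventually_gt_atTop S] with τ hτ
    simp only [hG]
    rw [hQR τ]
    have : tent S τ = 0 := by
      unfold tent
      apply max_eq_right
      rw [abs_of_nonneg (by linarith)]
      linarith
    rw [this]
    simp
    rfl
  have hG0 := affine_zero hGd hGd' hlim τ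
  have hWτ : W (τ * Complex.I) = (4 * π ^ 2 : ℂ)⁻¹ * (((2 * π * tent S τ : ℝ) : ℂ) +
      (R (τ + S) - 2 * R τ + R (τ - S))) := by
    rw [← hQR]
    simp only [hG] at hG0
    exact sub_eq_zero.mp hG0
  have hfin : W (τ * Complex.I) - ((tent S τ / (2 * π) : ℝ) : ℂ) =
      (4 * π ^ 2 : ℂ)⁻¹ * (R (τ + S) - 2 * R τ + R (τ - S)) := by
    rw [hWτ]
    push_cast
    field_simp
    ring
  rw [hfin, norm_mul]
  have hpi1 : ‖(4 * π ^ 2 : ℂ)⁻¹‖ ≤ 1 := by
    rw [norm_inv]
    apply inv_le_one_of_one_le₀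
    simp
    have := Real.pi_gt_three
    nlinarith
  have n1 := hR (τ + S)
  have n2 := hR τ
  have n3 := hR (τ - S)
  have q0 := (q4_pos τ).le
  have q1 := (q4_pos (τ + S)).le
  have q2 := (q4_pos (τ - S)).le
  calc ‖(4 * π ^ 2 : ℂ)⁻¹‖ * ‖R (τ + S) - 2 * R τ + R (τ - S)‖
      ≤ 1 * (‖R (τ + S)‖ + 2 * ‖R τ‖ + ‖R (τ - S)‖) := by
        gcongr
        refine (norm_add_le _ _).trans ?_
        gcongr
        refine (norm_sub_le _ _).trans ?_
        gcongr
        rw [norm_mul]
        simp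
    _ ≤ 1 * (K * q4 (τ + S) + 2 * (K * q4 τ) + K * q4 (τ - S)) := by gcongr
    _ ≤ 2 * K * cw S τ := by
        unfold cw
        nlinarith [mul_nonneg hK.le q0, mul_nonneg hK.le q1, mul_nonneg hK.le q2]

end Pool.Agent.PairCorr.P4
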