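import Mathlib
import Pool.Agent.PairCorr.P4_Kernel

/-!
The main term for the smoothed tent function.
-/

set_option autoImplicit false

namespace Pool.Agent.PairCorr.P4

open MeasureTheory Filter Topology Set Real
open Pool.Agent.PairCorr.P1

variable {χ : ℝ → ℝ} {b : ℝ}

/-- `∫_0^B (1 - cos S v)/v χ v dv` -/
noncomputable def FS (χ : ℝ → ℝ) (B S : ℝ) : ℝ := ∫ v in (0 : ℝ)..B, (1 - Real.cos (S * v)) / v * χ v

lemma integrand_eq (S v : ℝ) : (1 - Real.cos (S * v)) / v * χ v = 2 * π ^ 2 * (v * chiT χ S v) := by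
  by_cases hv : v = 0
  · simp [hv]
  · have h := sq_mul_chiT (χ := χ) S v
    have e : v * chiT χ S v = (1 - Real.cos (S * v)) / (2 * π ^ 2) * χ v / v := by
      rw [← h]; field_simp
    rw [e]
    have := Real.pi_pos
    field_simp

lemma FS_hasDerivAt (hc : Continuous χ) (hT : ∀ S, Continuous (chiT χ S)) (B S : ℝ) :
    HasDerivAt (FS χ B) (∫ v in (0 : ℝ)..B, Real.sin (S * v) * χ v) S := by
  have hm : ∀ x : ℝ, Measurable fun v : ℝ => (1 - Real.cos (x * v)) / v * χ v := by
    intro x
    have := hc.measurable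
    fun_prop
  refine (intervalIntegral.hasDerivAt_integral_of_dominated_loc_of_deriv_le
    (F := fun x v => (1 - Real.cos (x * v)) / v * χ v) (F' := fun x v => Real.sin (x * v) * χ v)
    (x₀ := S) (s := univ) (bound := fun v => |χ v|) univ_mem ?_ ?_ ?_ ?_ ?_ ?_).2
  · exact Eventually.of_forall fun x => (hm x).aestronglyMeasurable
  · have : (fun v => (1 - Real.cos (S * v)) / v * χ v) = fun v => 2 * π ^ 2 * (v * chiT χ S v) := by
      funext v; exact integrand_eq S v
    rw [this]
    apply Continuous.intervalIntegrable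
    exact continuous_const.mul (continuous_id.mul (hT S))
  · have := hc.measurable
    exact (by fun_prop : Measurable fun v : ℝ => Real.sin (S * v) * χ v).aestronglyMeasurable
  · refine Eventually.of_forall fun v _ x _ => ?_
    rw [Real.norm_eq_abs, abs_mul]
    have := Real.abs_sin_le_one (x * v)
    calc |Real.sin (x * v)| * |χ v| ≤ 1 * |χ v| := by gcongr
      _ = _ := one_mul _
  · exact hc.abs.intervalIntegrable _ _
  · refine Eventually.of_forall fun v _ x _ => ?_
    by_cases hv : v = 0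
    · simp only [hv, mul_zero, Real.cos_zero, sub_self, zero_div, zero_mul, Real.sin_zero]
      exact hasDerivAt_const _ _
    · have h1 : HasDerivAt (fun x : ℝ => x * v) v x := by simpa using (hasDerivAt_id x).mul_const v
      have h2 := ((h1.cos.const_sub 1).div_const v).mul_const (χ v)
      refine h2.congr_deriv ?_
      field_simp

/-- two integrations by parts -/
lemma FS_deriv_bound (h : TF χ b) (hχ0 : χ 0 = 1) {B : ℝ} (hB : b < B) (hB0 : 0 < B) : ∃ C : ℝ, 0 < C ∧ ∀ S : ℝ, 0 < S →
    |(∫ v in (0 : ℝ)..B, Real.sin (S * v) * χ v) - 1 / S| ≤ C / S ^ 2 := by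
  have hsm := h.smooth
  have hd1 : ∀ v, HasDerivAt χ (deriv χ v) v := fun v =>
    (hsm.differentiable (by simp) v).hasDerivAt
  have hsm1 : ContDiff ℝ (⊤ : ℕ∞) (deriv χ) := by
    have := (contDiff_infty_iff_deriv (𝕜 := ℝ) (f := χ)).mp hsm
    exact this.2
  have hd2 : ∀ v, HasDerivAt (deriv χ) (deriv (deriv χ) v) v := fun v =>
    (hsm1.differentiable (by simp) v).hasDerivAt
  have hsm2 : ContDiff ℝ (⊤ : ℕ∞) (deriv (deriv χ)) := by
    have := (contDiff_infty_iff_deriv (𝕜 := ℝ) (f := deriv χ)).mp hsm1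
    exact this.2
  have hc2 : Continuous (deriv (deriv χ)) := hsm2.continuous
  have hBz : χ B = 0 := h.supp B (by rw [abs_of_pos hB0]; exact hB)
  have hBz' : deriv χ B = 0 := by
    have : χ =ᶠ[𝓝 B] fun _ => 0 := by
      filter_upwards [lt_mem_nhds hB, lt_mem_nhds hB0] with v hv hv0
      exact h.supp v (by rw [abs_of_pos hv0]; exact hv)
    rw [this.deriv_eq]
    simp
  refine ⟨(∫ v in (0 : ℝ)..B, |deriv (deriv χ) v|) + 1, ?_, fun S hS => ?_⟩
  · have : 0 ≤ ∫ v in (0 : ℝ)..B, |deriv (deriv χ) v| :=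
      intervalIntegral.integral_nonneg hB0.le fun _ _ => abs_nonneg _
    linarith
  have hG : ∀ v : ℝ, HasDerivAt (fun v : ℝ => -(Real.cos (S * v) / S * χ v) +
      Real.sin (S * v) / S ^ 2 * deriv χ v)
      (Real.sin (S * v) * χ v + Real.sin (S * v) / S ^ 2 * deriv (deriv χ) v) v := by
    intro v
    have h1 : HasDerivAt (fun v : ℝ => S * v) S v := by simpa using (hasDerivAt_id v).const_mul S
    have h2 := (((h1.cos.div_const S).mul (hd1 v)).neg).add
      ((h1.sin.div_const (S ^ 2)).mul (hd2 v))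
    refine h2.congr_deriv ?_
    field_simp
    ring
  have hint : ∫ v in (0 : ℝ)..B, (Real.sin (S * v) * χ v +
      Real.sin (S * v) / S ^ 2 * deriv (deriv χ) v) = 1 / S := by
    rw [intervalIntegral.integral_eq_sub_of_hasDerivAt (fun v _ => hG v)]
    · simp only [hBz, hBz', mul_zero, neg_zero, add_zero, Real.cos_zero, hχ0, Real.sin_zero, zero_div,
        zero_mul, mul_one]
      ring
    · apply Continuous.intervalIntegrable
      have := h.cont
      fun_prop
  have i1 : IntervalIntegrable (fun v : ℝ => Real.sin (S * v) * χ v) volume 0 B := by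
    apply Continuous.intervalIntegrable
    have := h.cont
    fun_prop
  have i2 : IntervalIntegrable (fun v : ℝ => Real.sin (S * v) / S ^ 2 * deriv (deriv χ) v) volume 0 B := by
    apply Continuous.intervalIntegrable
    fun_prop
  rw [intervalIntegral.integral_add i1 i2] at hint
  have e : (∫ v in (0 : ℝ)..B, Real.sin (S * v) * χ v) - 1 / S =
      -∫ v in (0 : ℝ)..B, Real.sin (S * v) / S ^ 2 * deriv (deriv χ) v := by linarith
  rw [e, abs_neg, ← Real.norm_eq_abs]
  have hb : ∀ v, ‖Real.sin (S * v) / S ^ 2 * deriv (deriv χ) v‖ ≤ 1 / S ^ 2 * |deriv (deriv χ) v| := by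
    intro v
    rw [Real.norm_eq_abs, abs_mul, abs_div, abs_of_pos (by positivity : 0 < S ^ 2)]
    have := Real.abs_sin_le_one (S * v)
    gcongr
  refine (intervalIntegral.norm_integral_le_of_norm_le hB0.le (Eventually.of_forall fun v _ => hb v)
    ?_).trans ?_
  · apply Continuous.intervalIntegrable
    fun_prop
  · rw [intervalIntegral.integral_const_mul]
    rw [one_div, mul_comm, ← div_eq_mul_inv]
    gcongr
    linarith

/-- `FS = log S + O(1)` -/
lemma FS_bound (h : TF χ b) (hχ0 : χ 0 = 1) {B : ℝ} (hB : b < B) (hB0 : 0 < B) : ∃ C : ℝ, 0 < C ∧ ∀ S : ℝ, 1 ≤ S → |FS χ B S - Real.log S| ≤ C := by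
  obtain ⟨C, hC, hd⟩ := FS_deriv_bound h hχ0 hB hB0
  have hF := fun S => FS_hasDerivAt h.cont (fun S => (chiT_TF h S).cont) B S
  refine ⟨C + |FS χ B 1|, by positivity, fun S hS => ?_⟩
  have key : ∀ ε : ℝ, (ε = 1 ∨ ε = -1) → ε * (FS χ B S - Real.log S) ≤ C + |FS χ B 1| := by
    intro ε hε
    have hε1 : |ε| = 1 := by rcases hε with rfl | rfl <;> simp
    have hU : ∀ x : ℝ, 0 < x → HasDerivAt (fun x => ε * (FS χ B x - Real.log x) + C * x⁻¹)
        (ε * ((∫ v in (0 : ℝ)..B, Real.sin (x * v) * χ v) - x⁻¹) + C * (-(x ^ 2)⁻¹)) x := by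
      intro x hx
      exact (((hF x).sub (Real.hasDerivAt_log hx.ne')).const_mul ε).add
        ((hasDerivAt_inv hx.ne').const_mul C)
    have hanti : AntitoneOn (fun x => ε * (FS χ B x - Real.log x) + C * x⁻¹) (Ici 1) := by
      apply antitoneOn_of_deriv_nonpos (convex_Ici 1)
      · intro x hx
        exact (hU x (by have : (1:ℝ) ≤ x := hx; linarith)).continuousAt.continuousWithinAt
      · intro x hx
        rw [interior_Ici] at hx
        exact (hU x (by have : (1:ℝ) < x := hx; linarith)).differentiableAt.differentiableWithinAt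
      · intro x hx
        rw [interior_Ici] at hx
        have hx0 : 0 < x := by have : (1:ℝ) < x := hx; linarith
        rw [(hU x hx0).deriv]
        have h1 := hd x hx0
        have h2 : ε * ((∫ v in (0 : ℝ)..B, Real.sin (x * v) * χ v) - x⁻¹) ≤ C / x ^ 2 := by
          refine (le_abs_self _).trans ?_
          rw [abs_mul, hε1, one_mul, ← one_div]
          exact h1
        rw [div_eq_mul_inv] at h2
        linarith
    have h3 := hanti (show (1 : ℝ) ∈ Ici 1 from mem_Ici.mpr le_rfl) (show S ∈ Ici 1 from hS) hS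
    simp only [Real.log_one, sub_zero, inv_one, mul_one] at h3
    have h4 : ε * FS χ B 1 ≤ |FS χ B 1| := by
      refine (le_abs_self _).trans ?_
      rw [abs_mul, hε1, one_mul]
    have h5 : 0 ≤ C * S⁻¹ := by positivity
    linarith
  rw [abs_le]
  constructor
  · have := key (-1) (Or.inr rfl)
    linarith
  · have := key 1 (Or.inl rfl)
    linarith

/-- the main term -/
theorem main_term (h : TF χ b) (hb : 0 < b) (hev : ∀ v, χ (-v) = χ v) (hχ0 : χ 0 = 1) :
    ∃ C : ℝ, 0 < C ∧ ∀ S : ℝ, 1 ≤ S →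
    |(chiT χ S 0 + ∫ v, |v| * chiT χ S v) - ((S / (2 * π)) ^ 2 + Real.log S / π ^ 2)| ≤ C := by
  obtain ⟨C, hC, hF⟩ := FS_bound h hχ0 (B := b + 1) (by linarith) (by linarith)
  refine ⟨C, hC, fun S hS => ?_⟩
  have e0 : chiT χ S 0 = (S / (2 * π)) ^ 2 := by
    unfold chiT kerS
    rw [mul_zero, snc_zero, hχ0]
    ring
  have e1 : ∫ v, |v| * chiT χ S v = FS χ (b + 1) S / π ^ 2 := by
    have e2 : (fun v : ℝ => |v| * chiT χ S v) = fun v => (fun x => x * chiT χ S x) |v| := by
      funext v
      simp only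
      rcases abs_choice v with hv | hv
      · rw [hv]
      · rw [hv, chiT_even hev]
    rw [e2, integral_comp_abs (f := fun x => x * chiT χ S x)]
    have e3 : ∫ v in Ioi (0 : ℝ), v * chiT χ S v = ∫ v in (0 : ℝ)..(b + 1), v * chiT χ S v := by
      rw [intervalIntegral.integral_of_le (by linarith)]
      apply setIntegral_eq_of_subset_of_forall_sdiff_eq_zero measurableSet_Ioi
      · exact Ioc_subset_Ioi_self
      · intro v hv
        have hv0 : (0:ℝ) < v := hv.1
        have hvb : b + 1 < v := by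
          by_contra hcon
          exact hv.2 ⟨hv0, not_lt.mp hcon⟩
        rw [(chiT_TF h S).supp v (by rw [abs_of_pos hv0]; linarith), mul_zero]
    rw [e3]
    unfold FS
    have e4 : ∀ v : ℝ, (1 - Real.cos (S * v)) / v * χ v = 2 * π ^ 2 * (v * chiT χ S v) := fun v =>
      integrand_eq S v
    simp_rw [e4]
    rw [intervalIntegral.integral_const_mul]
    have := Real.pi_pos
    field_simp
  rw [e0, e1]
  have e5 : (S / (2 * π)) ^ 2 + FS χ (b + 1) S / π ^ 2 - ((S / (2 * π)) ^ 2 + Real.log S / π ^ 2) =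
      (FS χ (b + 1) S - Real.log S) / π ^ 2 := by ring
  rw [e5, abs_div, abs_of_pos (by positivity : 0 < π ^ 2)]
  refine le_trans ?_ (hF S hS)
  apply div_le_self (abs_nonneg _)
  have := Real.pi_gt_three
  nlinarith

end Pool.Agent.PairCorr.P4
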