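import Mathlib
import Pool.Agent.PairCorr.P4_Main
import Pool.Agent.PairCorr.P1_Sym
import Pool.Agent.PairCorr.OD

/-!
The pair sum with the tent function.
-/

set_option autoImplicit false

namespace Pool.Agent.PairCorr.P4

open MeasureTheory Filter Topology Set Real
open Pool.Agent.PairCorr.P1
open scoped ENNReal

lemma sg_diff (p : ℂ × ℂ) (L : ℝ) : (L : ℂ) * (sg p.1 - sg p.2) =
    ((-(L * (p.1.re - p.2.re)) : ℝ) : ℂ) + ((L * (p.1.im - p.2.im) : ℝ) : ℂ) * Complex.I := by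
  apply Complex.ext
  · simp [sg_re]
    ring
  · simp [sg_im]

/-- The main estimate: the pair sum with the tent function. -/
theorem tent_asymp (hS : StatementS) (hB : StatementB) : ∃ C : ℝ, 0 < C ∧ ∀ S : ℝ, 1 ≤ S →
    ∀ᶠ T in atTop, Integrable (fun p : ℂ × ℂ => tent S (Real.log T * (p.1.im - p.2.im)) / (2 * π))
        ((muW T).prod muZ) ∧
      |(∫ p, tent S (Real.log T * (p.1.im - p.2.im)) / (2 * π) ∂((muW T).prod muZ)) -
      ((S / (2 * π)) ^ 2 + Real.log S / π ^ 2) * (T * Real.log T / (2 * π))| ≤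
        C * (T * Real.log T) := by
  obtain ⟨b₀, hb₀, hS⟩ := hS
  obtain ⟨c₀, hc₀, C₁, hC₁, T₁, hPB⟩ := statementPBshift_of hB
  set b : ℝ := min b₀ (c₀ / 2) with hb
  have hb0 : 0 < b := by positivity
  obtain ⟨χ, hχ, hev, hχ0⟩ := exists_bump hb0
  obtain ⟨K₁, hK₁, hsec⟩ := exists_second_diff hχ
  obtain ⟨K₂, hK₂, htent⟩ := exists_tent hχ hev hχ0
  obtain ⟨K₃, hK₃, hmain⟩ := main_term hχ hb0 hev hχ0
  set K : ℝ := K₁ * (4 * (2 / c₀) ^ 2) + K₂ with hK
  have hK0 : 0 < K := by positivity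
  refine ⟨K * (C₁ + C₁ + C₁) + K₃ + 1, by positivity, fun S hS1 => ?_⟩
  have hS0 : 0 ≤ S := by linarith
  -- the limit of the analytic pair sum
  have hTF : TF (chiT χ S) b₀ := (chiT_TF hχ S).mono (min_le_left _ _)
  have hlim := hS (chiT χ S) hTF (chiT_even hev S)
  have hlim2 : ∀ᶠ T in atTop, ‖Spair (chiT χ S) T / ((T * Real.log T / (2 * Real.pi) : ℝ) : ℂ) -
      ((chiT χ S 0 + ∫ v, |v| * chiT χ S v : ℝ) : ℂ)‖ < 1 := by
    have := (Metric.tendsto_nhds.mp hlim) 1 one_pos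
    filter_upwards [this] with T hT
    rwa [dist_eq_norm] at hT
  obtain ⟨K₄, hK₄, hdec⟩ := exists_decay5 (chiT_TF hχ S)
  filter_upwards [hlim2, eventually_ge_atTop (max T₁ (max (Real.exp 1) (2 * S)))] with T hT1 hT2
  have hTT₁ : T₁ ≤ T := (le_max_left _ _).trans hT2
  have hTe : Real.exp 1 ≤ T := ((le_max_left _ _).trans (le_max_right _ _)).trans hT2
  have hTs : S ≤ T / 2 := by
    have := ((le_max_right _ _).trans (le_max_right _ _)).trans hT2
    linarith
  have hTgt : 1 < T := (Real.one_lt_exp_iff.mpr one_pos).trans_le hTe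
  have hT0 : 0 < T := by linarith
  have hL0 : 0 < Real.log T := Real.log_pos hTgt
  set L := Real.log T with hL
  set μ := (muW T).prod muZ with hμ
  have hTL : 0 < T * L := by positivity
  -- the three shifted bounds
  obtain ⟨i0, I0⟩ := hPB T hTT₁ 0 (by rw [abs_zero]; positivity) c₀ le_rfl
  obtain ⟨i1, I1⟩ := hPB T hTT₁ S (by rw [abs_of_nonneg hS0]; exact hTs) c₀ le_rfl
  obtain ⟨i2, I2⟩ := hPB T hTT₁ (-S) (by rw [abs_neg, abs_of_nonneg hS0]; exact hTs) c₀ le_rfl
  set W : ℂ → ℂ := Kc (chiT χ S) with hW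
  set f1 : ℂ × ℂ → ℂ := fun p => W (L * (p.1 - p.2)) with hf1
  set f2 : ℂ × ℂ → ℂ := fun p => W (L * (sg p.1 - sg p.2)) with hf2
  set tn : ℂ × ℂ → ℝ := fun p => tent S (L * (p.1.im - p.2.im)) / (2 * π) with htn
  set E : ℂ × ℂ → ℝ := fun p => wgt c₀ T p.1 * wgt c₀ T p.2 * ((1 + |L * (p.1.im - p.2.im) - 0|) ^ 4)⁻¹ +
      wgt c₀ T p.1 * wgt c₀ T p.2 * ((1 + |L * (p.1.im - p.2.im) - S|) ^ 4)⁻¹ +
        wgt c₀ T p.1 * wgt c₀ T p.2 * ((1 + |L * (p.1.im - p.2.im) - (-S)|) ^ 4)⁻¹ with hE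
  -- pointwise bound
  have hpt : ∀ p : ℂ × ℂ, ‖(f1 p + f2 p) / 2 - ((tn p : ℝ) : ℂ)‖ ≤ K * E p := by
    intro p
    set τ : ℝ := L * (p.1.im - p.2.im) with hτ
    set r : ℝ := L * (p.1.re - p.2.re) with hr
    have e1 : f1 p = W (r + τ * Complex.I) := by
      simp only [hf1]
      congr 1
      exact decomp T p
    have e2 : f2 p = W (((-r : ℝ) : ℂ) + τ * Complex.I) := by
      simp only [hf2]
      congr 1
      exact sg_diff p L
    have h1 := hsec S r τ
    have h2 := htent S τ hS0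
    rw [← hW] at h1 h2
    rw [← e1, ← e2] at h1
    have hw := exp_le_wgt hc₀.le hL0.le p
    rw [← hr] at hw
    set w := wgt c₀ T p.1 * wgt c₀ T p.2 with hw'
    have hW1 : 1 ≤ w := (Real.one_le_exp (by positivity)).trans hw
    have hre : r ^ 2 * Real.exp (|b| * |r|) ≤ 4 * (2 / c₀) ^ 2 * w := by
      have e3 : c₀ / 4 * |r| ≤ Real.exp (c₀ / 4 * |r|) := by
        have := Real.add_one_le_exp (c₀ / 4 * |r|)
        linarith
      have e4 : Real.exp (|b| * |r|) ≤ Real.exp (c₀ / 2 * |r|) := by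
        apply Real.exp_le_exp.mpr
        rw [abs_of_pos hb0]
        have := min_le_right b₀ (c₀ / 2)
        gcongr
      have e5 : |r| ≤ 2 * (2 / c₀) * Real.exp (c₀ / 4 * |r|) := by
        calc |r| = 2 * (2 / c₀) * (c₀ / 4 * |r|) := by field_simp; norm_num
          _ ≤ _ := by gcongr
      calc r ^ 2 * Real.exp (|b| * |r|) = |r| * |r| * Real.exp (|b| * |r|) := by
            rw [← sq_abs]; ring
        _ ≤ (2 * (2 / c₀) * Real.exp (c₀ / 4 * |r|)) * (2 * (2 / c₀) * Real.exp (c₀ / 4 * |r|)) *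
            Real.exp (c₀ / 2 * |r|) := by gcongr
        _ = 4 * (2 / c₀) ^ 2 * Real.exp (c₀ * |r|) := by
            have : Real.exp (c₀ * |r|) = Real.exp (c₀ / 4 * |r|) * Real.exp (c₀ / 4 * |r|) *
                Real.exp (c₀ / 2 * |r|) := by
              rw [← Real.exp_add, ← Real.exp_add]
              ring_nf
            rw [this]
            ring
        _ ≤ _ := by gcongr
    have e6 : E p = w * cw S τ := by
      simp only [hE]
      unfold cw q4
      rw [← hτ, sub_zero, sub_neg_eq_add]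
      ring
    have hc0 := cw_pos S τ
    rw [e6]
    have e7 : (f1 p + f2 p) / 2 - ((tn p : ℝ) : ℂ) = (f1 p + f2 p - 2 * W (τ * Complex.I)) / 2 +
        (W (τ * Complex.I) - ((tent S τ / (2 * π) : ℝ) : ℂ)) := by
      simp only [htn]
      ring
    rw [e7]
    calc _ ≤ ‖(f1 p + f2 p - 2 * W (τ * Complex.I)) / 2‖ +
          ‖W (τ * Complex.I) - ((tent S τ / (2 * π) : ℝ) : ℂ)‖ := norm_add_le _ _
      _ ≤ K₁ * (r ^ 2 * Real.exp (|b| * |r|)) * cw S τ + K₂ * cw S τ := by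
          apply add_le_add _ h2
          rw [norm_div]
          simp only [Complex.norm_ofNat]
          refine (div_le_self (norm_nonneg _) (by norm_num)).trans h1
      _ ≤ K₁ * (4 * (2 / c₀) ^ 2 * w) * cw S τ + K₂ * (w * cw S τ) := by
          gcongr
          nlinarith
      _ = K * (w * cw S τ) := by rw [hK]; ring
  have hcont1 : Continuous f1 :=
    (chiT_TF hχ S).differentiable_Kc.continuous.comp (by fun_prop)
  have hi1 : Integrable f1 μ := by
    refine Integrable.mono' (i0.const_mul K₄) hcont1.aestronglyMeasurable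
      (Eventually.of_forall fun p => ?_)
    have h1 := hdec ((L : ℂ) * (p.1 - p.2))
    have e1 := decomp T p
    have e2 : ((L : ℂ) * (p.1 - p.2)).re = L * (p.1.re - p.2.re) := by simp
    have e3 : ((L : ℂ) * (p.1 - p.2)).im = L * (p.1.im - p.2.im) := by simp
    rw [e2, e3] at h1
    refine h1.trans ?_
    have hw := exp_le_wgt hc₀.le hL0.le p
    have h5 := q5_le_q4 (L * (p.1.im - p.2.im))
    have h6 : Real.exp (b * |L * (p.1.re - p.2.re)|) ≤ wgt c₀ T p.1 * wgt c₀ T p.2 := by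
      refine le_trans ?_ hw
      apply Real.exp_le_exp.mpr
      have : b ≤ c₀ := (min_le_right b₀ (c₀ / 2)).trans (by linarith)
      gcongr
    rw [sub_zero]
    have h7 : 0 ≤ wgt c₀ T p.1 * wgt c₀ T p.2 := (Real.exp_pos _).le.trans h6
    calc K₄ * Real.exp (b * |L * (p.1.re - p.2.re)|) * ((1 + |L * (p.1.im - p.2.im)|) ^ 5)⁻¹
        ≤ K₄ * (wgt c₀ T p.1 * wgt c₀ T p.2) * q4 (L * (p.1.im - p.2.im)) := by gcongr
      _ = _ := by unfold q4; ring
  have hmp := mp_sg_prod T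
  have hf12 : f2 = f1 ∘ Prod.map sg sg := rfl
  have hi2 : Integrable f2 μ := by
    rw [hf12]
    exact hmp.integrable_comp_of_integrable hi1
  have heq : ∫ p, f2 p ∂μ = ∫ p, f1 p ∂μ := by
    have h1 : ∫ p, f1 p ∂μ = ∫ p, f1 p ∂(μ.map (Prod.map sg sg)) := by rw [hmp.map_eq]
    rw [h1, integral_map hmp.measurable.aemeasurable (by
      rw [hmp.map_eq]; exact hi1.aestronglyMeasurable)]
    rfl
  have hbi : Integrable (fun p => K * E p) μ := ((i0.add i1).add i2).const_mul K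
  have htm : Measurable tn := by
    simp only [htn]
    unfold tent
    fun_prop
  have hdi : Integrable (fun p : ℂ × ℂ => (f1 p + f2 p) / 2 - ((tn p : ℝ) : ℂ)) μ := by
    refine Integrable.mono' hbi ?_ (Eventually.of_forall hpt)
    exact ((hi1.add hi2).div_const 2).aestronglyMeasurable.sub
      (Complex.measurable_ofReal.comp htm).aestronglyMeasurable
  have htic : Integrable (fun p => ((tn p : ℝ) : ℂ)) μ := by
    have := ((hi1.add hi2).div_const 2).sub hdi
    refine this.congr (Eventually.of_forall fun p => ?_)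
    simp
  have hti : Integrable tn μ := by
    have := htic.re
    refine this.congr (Eventually.of_forall fun p => ?_)
    simp
  refine ⟨hti, ?_⟩
  have hnorm : ‖Spair (chiT χ S) T - ((∫ p, tn p ∂μ : ℝ) : ℂ)‖ ≤
      K * (C₁ + C₁ + C₁) * (T * L) := by
    have e1 : ((∫ p, tn p ∂μ : ℝ) : ℂ) = ∫ p, ((tn p : ℝ) : ℂ) ∂μ := integral_ofReal.symm
    have e2 : Spair (chiT χ S) T = ∫ p, (f1 p + f2 p) / 2 ∂μ := by
      rw [integral_div, integral_add hi1 hi2, heq]
      have : Spair (chiT χ S) T = ∫ p, f1 p ∂μ := rfl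
      rw [this]
      ring
    have hi12 : Integrable (fun p => (f1 p + f2 p) / 2) μ := (hi1.add hi2).div_const 2
    rw [e1, e2, ← integral_sub hi12 htic]
    refine (norm_integral_le_of_norm_le hbi (Eventually.of_forall hpt)).trans ?_
    rw [integral_const_mul]
    simp only [hE]
    have i01 : Integrable (fun p : ℂ × ℂ => wgt c₀ T p.1 * wgt c₀ T p.2 *
        ((1 + |L * (p.1.im - p.2.im) - 0|) ^ 4)⁻¹ +
      wgt c₀ T p.1 * wgt c₀ T p.2 * ((1 + |L * (p.1.im - p.2.im) - S|) ^ 4)⁻¹) μ := i0.add i1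
    rw [integral_add i01 i2, integral_add i0 i1]
    calc K * (_ + _ + _) ≤ K * (C₁ * (T * L) + C₁ * (T * L) + C₁ * (T * L)) := by gcongr
      _ = _ := by ring
  -- combine
  set V : ℝ := chiT χ S 0 + ∫ v, |v| * chiT χ S v with hV
  set M : ℝ := T * L / (2 * π) with hM
  have hM0 : 0 < M := by positivity
  have hMle : M ≤ T * L := by
    rw [hM, div_le_iff₀ (by positivity)]
    have := Real.pi_gt_three
    nlinarith
  have h3 : ‖Spair (chiT χ S) T - (V : ℂ) * (M : ℂ)‖ ≤ M := by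
    have hMc : (M : ℂ) ≠ 0 := by exact_mod_cast hM0.ne'
    have e : Spair (chiT χ S) T - (V : ℂ) * (M : ℂ) = (Spair (chiT χ S) T / (M : ℂ) - (V : ℂ)) * M := by
      field_simp
    rw [e, norm_mul, Complex.norm_real, Real.norm_of_nonneg hM0.le]
    calc _ ≤ 1 * M := by gcongr
      _ = M := one_mul _
  have h4 : |(∫ p, tn p ∂μ) - V * M| ≤ K * (C₁ + C₁ + C₁) * (T * L) + M := by
    have e : (((∫ p, tn p ∂μ) - V * M : ℝ) : ℂ) =
        (Spair (chiT χ S) T - (V : ℂ) * (M : ℂ)) -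
          (Spair (chiT χ S) T - ((∫ p, tn p ∂μ : ℝ) : ℂ)) := by
      push_cast; ring
    rw [← Real.norm_eq_abs, ← Complex.norm_real, e]
    refine (norm_sub_le _ _).trans ?_
    linarith
  have h5 : |V * M - ((S / (2 * π)) ^ 2 + Real.log S / π ^ 2) * M| ≤ K₃ * M := by
    rw [← sub_mul, abs_mul, abs_of_pos hM0]
    have := hmain S hS1
    gcongr
  calc |(∫ p, tn p ∂μ) - ((S / (2 * π)) ^ 2 + Real.log S / π ^ 2) * M| =
        |((∫ p, tn p ∂μ) - V * M) + (V * M - ((S / (2 * π)) ^ 2 + Real.log S / π ^ 2) * M)| := by ring_nf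
    _ ≤ |(∫ p, tn p ∂μ) - V * M| + |V * M - ((S / (2 * π)) ^ 2 + Real.log S / π ^ 2) * M| := abs_add_le _ _
    _ ≤ (K * (C₁ + C₁ + C₁) * (T * L) + M) + K₃ * M := add_le_add h4 h5
    _ ≤ (K * (C₁ + C₁ + C₁) * (T * L) + T * L) + K₃ * (T * L) := by gcongr
    _ = _ := by ring

end Pool.Agent.PairCorr.P4
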