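import Mathlib
import Pool.Agent.PairCorr.P4_Sym
import Pool.Agent.PairCorr.P1_Final
import Pool.Agent.PairCorr.A_Count

/-!
The integrated pair count.
-/

set_option autoImplicit false

namespace Pool.Agent.PairCorr.P4

open MeasureTheory Filter Topology Set Real
open Pool.Agent.PairCorr.P1
open scoped ENNReal

lemma SymSet_mono (T : ℝ) (hT : 0 < Real.log T) {a a' : ℝ} (h : a ≤ a') : SymSet T a ⊆ SymSet T a' := by
  intro p hp
  have hp' : |p.1.im - p.2.im| ≤ 2 * Real.pi * a / Real.log T := hp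
  show |p.1.im - p.2.im| ≤ 2 * Real.pi * a' / Real.log T
  refine hp'.trans ?_
  have := Real.pi_pos
  gcongr

/-- the tent as a layer cake -/
lemma tent_layer {T : ℝ} (hL : 0 < Real.log T) {A : ℝ} (hA : 0 ≤ A) (p : ℂ × ℂ) :
    ENNReal.ofReal (tent (2 * π * A) (Real.log T * (p.1.im - p.2.im)) / (2 * π)) =
      ∫⁻ u in Ioc 0 A, (SymSet T u).indicator (fun _ => (1 : ℝ≥0∞)) p := by
  have hpi := Real.pi_pos
  set y : ℝ := Real.log T * |p.1.im - p.2.im| / (2 * π) with hy
  have hy0 : 0 ≤ y := by positivity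
  have h1 : tent (2 * π * A) (Real.log T * (p.1.im - p.2.im)) / (2 * π) = max (A - y) 0 := by
    unfold tent
    rw [abs_mul, abs_of_pos hL, ← max_div_div_right (by positivity : (0:ℝ) ≤ 2 * π), zero_div, hy]
    congr 1
    field_simp
  have h2 : ∀ u : ℝ, (SymSet T u).indicator (fun _ => (1 : ℝ≥0∞)) p =
      (Ici y).indicator (fun _ => (1 : ℝ≥0∞)) u := by
    intro u
    have : p ∈ SymSet T u ↔ u ∈ Ici y := by
      show |p.1.im - p.2.im| ≤ 2 * π * u / Real.log T ↔ y ≤ u
      rw [hy, le_div_iff₀ hL, div_le_iff₀ (by positivity)]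
      constructor <;> intro h <;> linarith
    by_cases h : u ∈ Ici y
    · rw [indicator_of_mem h, indicator_of_mem (this.mpr h)]
    · rw [indicator_of_notMem h, indicator_of_notMem (fun hh => h (this.mp hh))]
  simp_rw [h2]
  rw [lintegral_indicator measurableSet_Ici, lintegral_const, one_mul, Measure.restrict_restrict measurableSet_Ici,
    Measure.restrict_apply MeasurableSet.univ, univ_inter, h1]
  have h3 : ENNReal.ofReal (max (A - y) 0) = ENNReal.ofReal (A - y) := by
    rcases le_total 0 (A - y) with h | h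
    · rw [max_eq_left h]
    · rw [max_eq_right h, ENNReal.ofReal_zero, ENNReal.ofReal_of_nonpos h]
  rw [h3]
  apply le_antisymm
  · rw [← Real.volume_Ioc]
    apply measure_mono
    intro u hu
    exact ⟨hu.1.le, lt_of_le_of_lt hy0 hu.1, hu.2⟩
  · rw [← Real.volume_Icc]
    apply measure_mono
    intro u hu
    exact ⟨hu.1, hu.2.2⟩

/-- the layer cake formula for the pair sum -/
lemma layer_cake {T : ℝ} (hL : 0 < Real.log T) {A : ℝ} (hA : 0 ≤ A)
    (hi : Integrable (fun p : ℂ × ℂ => tent (2 * π * A) (Real.log T * (p.1.im - p.2.im)) / (2 * π)) (nu T))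
    (hfin : (nu T) (SymSet T A) ≠ ⊤) :
    ∫ p, tent (2 * π * A) (Real.log T * (p.1.im - p.2.im)) / (2 * π) ∂(nu T) =
      ∫ u in (0 : ℝ)..A, ((nu T) (SymSet T u)).toReal := by
  have hpi := Real.pi_pos
  have hmono : Monotone fun u => (nu T) (SymSet T u) := fun u u' h => measure_mono (SymSet_mono T hL h)
  rw [integral_eq_lintegral_of_nonneg_ae (Eventually.of_forall fun p => ?_) hi.aestronglyMeasurable]
  · simp_rw [tent_layer hL hA]
    rw [lintegral_lintegral_swap]
    · have h1 : ∀ u : ℝ, ∫⁻ p, (SymSet T u).indicator (fun _ => (1 : ℝ≥0∞)) p ∂(nu T) =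
          (nu T) (SymSet T u) := by
        intro u
        rw [lintegral_indicator (measurableSet_SymSet T u), lintegral_const, one_mul,
          Measure.restrict_apply MeasurableSet.univ, univ_inter]
      simp_rw [h1]
      rw [intervalIntegral.integral_of_le hA, integral_toReal]
      · exact hmono.measurable.aemeasurable
      · refine (ae_restrict_mem measurableSet_Ioc).mono fun u hu => ?_
        exact lt_of_le_of_lt (hmono hu.2) (lt_top_iff_ne_top.mpr hfin)
    · apply Measurable.aemeasurable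
      have hm : MeasurableSet {q : (ℂ × ℂ) × ℝ | |q.1.1.im - q.1.2.im| ≤ 2 * Real.pi * q.2 / Real.log T} := by
        apply measurableSet_le
        · have : Measurable fun q : (ℂ × ℂ) × ℝ => q.1.1.im - q.1.2.im := by fun_prop
          exact this.norm
        · fun_prop
      exact measurable_const.indicator hm
  · show 0 ≤ tent (2 * π * A) (Real.log T * (p.1.im - p.2.im)) / (2 * π)
    unfold tent
    positivity

/-- the mass of the symmetric set -/
lemma sym_mass : ∃ C : ℝ, 0 < C ∧ ∃ T₀ : ℝ, Real.exp 1 ≤ T₀ ∧ ∀ T : ℝ, T₀ ≤ T → ∀ u : ℝ, 0 ≤ u →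
    |((nu T) (SymSet T u)).toReal - NT T * (2 * Lr T u + Mr T)| ≤
      C * (1 + 2 * π * u) ^ 4 * Real.log (T + 2) ^ 2 ∧ (nu T) (SymSet T u) ≠ ⊤ := by
  obtain ⟨C₂, hC₂, T₂, hT₂, h2⟩ := SymSet_le_quadratic Pool.Agent.PC10.statementB
  obtain ⟨C₃, hC₃, h3⟩ := up_le
  refine ⟨C₃, hC₃, T₂, hT₂, fun T hT3 u hu => ?_⟩
  have hTe : Real.exp 1 ≤ T := hT₂.trans hT3
  have hTgt : 1 < T := (Real.one_lt_exp_iff.mpr one_pos).trans_le hTe
  have hL : 0 < Real.log T := Real.log_pos hTgt
  have hT0 : 0 < T := by linarith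
  have hNT : 0 < NT T := by unfold NT; positivity
  have hfin : (nu T) (SymSet T u) ≠ ⊤ := ne_top_of_le_ne_top ENNReal.ofReal_ne_top (h2 T hT3 u hu)
  refine ⟨?_, hfin⟩
  have hsum := measure_SymSet hu hTgt (nu T)
  have hf1 : (nu T) (NSset T u) ≠ ⊤ :=
    ne_top_of_le_ne_top hfin (measure_mono (NSset_subset_SymSet T u))
  have hf2 : (nu T) DgSet ≠ ⊤ := by
    apply ne_top_of_le_ne_top hfin
    rw [hsum]
    exact le_add_left le_self_add
  have hf3 : (nu T) (UpSet T u) ≠ ⊤ := by
    apply ne_top_of_le_ne_top hfin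
    rw [hsum]
    exact le_add_left le_add_self
  have hsumR : ((nu T) (SymSet T u)).toReal = ((nu T) (NSset T u)).toReal +
      (((nu T) DgSet).toReal + ((nu T) (UpSet T u)).toReal) := by
    rw [hsum, ENNReal.toReal_add hf1 (ENNReal.add_ne_top.mpr ⟨hf2, hf3⟩),
      ENNReal.toReal_add hf2 hf3]
  obtain ⟨h5, h6⟩ := h3 T hTe u hu
  change (nu T) (UpSet T u) ≤ (nu T) (NSset T u) + _ at h5
  change (nu T) (NSset T u) ≤ (nu T) (UpSet T u) + _ at h6
  have hE0 : 0 ≤ C₃ * (1 + 2 * π * u) ^ 4 * Real.log (T + 2) ^ 2 := by positivity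
  have h5' : ((nu T) (UpSet T u)).toReal ≤ ((nu T) (NSset T u)).toReal +
      C₃ * (1 + 2 * π * u) ^ 4 * Real.log (T + 2) ^ 2 := by
    have := ENNReal.toReal_mono (ENNReal.add_ne_top.mpr ⟨hf1, ENNReal.ofReal_ne_top⟩) h5
    rwa [ENNReal.toReal_add hf1 ENNReal.ofReal_ne_top, ENNReal.toReal_ofReal hE0] at this
  have h6' : ((nu T) (NSset T u)).toReal ≤ ((nu T) (UpSet T u)).toReal +
      C₃ * (1 + 2 * π * u) ^ 4 * Real.log (T + 2) ^ 2 := by
    have := ENNReal.toReal_mono (ENNReal.add_ne_top.mpr ⟨hf3, ENNReal.ofReal_ne_top⟩) h6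
    rwa [ENNReal.toReal_add hf3 ENNReal.ofReal_ne_top, ENNReal.toReal_ofReal hE0] at this
  have e1 : NT T * Lr T u = ((nu T) (NSset T u)).toReal := by
    unfold Lr
    field_simp
  have e2 : NT T * Mr T = ((nu T) DgSet).toReal := by
    unfold Mr
    have : {p : ℂ × ℂ | p.1.im = p.2.im} = DgSet := rfl
    rw [this]
    field_simp
  have e3 : NT T * (2 * Lr T u + Mr T) = 2 * ((nu T) (NSset T u)).toReal + ((nu T) DgSet).toReal := by
    rw [← e1, ← e2]; ring
  rw [e3, hsumR, abs_le]
  constructor <;> linarith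

/-- (P4) the integrated pair count with bounded error. -/
theorem Lr_integral_asymp : ∃ C : ℝ, 0 < C ∧ ∀ A : ℝ, 1 ≤ A → ∀ᶠ T in atTop,
    |(∫ u in (0 : ℝ)..A, Lr T u) + Mr T / 2 * A - A ^ 2 / 2 - Real.log A / (2 * π ^ 2)| ≤ C := by
  have hpi := Real.pi_pos
  obtain ⟨C₁, hC₁, h1⟩ := tent_asymp (statementS_of statementD_closed) Pool.Agent.PC10.statementB
  obtain ⟨C₂, hC₂, T₂, hT₂, h2⟩ := sym_mass
  refine ⟨π * (C₁ + 1) + Real.log (2 * π) / (2 * π ^ 2), ?_, fun A hA => ?_⟩
  · have : 0 < Real.log (2 * π) := Real.log_pos (by have := Real.pi_gt_three; linarith)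
    positivity
  have hA0 : 0 ≤ A := by linarith
  have hS : 1 ≤ 2 * π * A := by
    have := Real.pi_gt_three
    nlinarith
  set E : ℝ := A * (C₂ * (1 + 2 * π * A) ^ 4) with hE
  have hE0 : 0 ≤ E := by positivity
  have hlog : ∀ᶠ T : ℝ in atTop, E * Real.log (T + 2) ^ 2 ≤ T * Real.log T := by
    have e1 : Tendsto (fun T : ℝ => (E * 4) * (Real.log T / T)) atTop (𝓝 ((E * 4) * 0)) := by
      apply Tendsto.const_mul
      exact Real.isLittleO_log_id_atTop.tendsto_div_nhds_zero
    rw [mul_zero] at e1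
    filter_upwards [e1.eventually (gt_mem_nhds one_pos), eventually_ge_atTop 2] with T hT hT2
    have hT0 : 0 < T := by linarith
    have hL : 0 < Real.log T := Real.log_pos (by linarith)
    have e2 : Real.log (T + 2) ≤ 2 * Real.log T := by
      rw [two_mul, ← Real.log_mul hT0.ne' hT0.ne']
      apply Real.log_le_log (by linarith)
      nlinarith
    have hlog0 : 0 ≤ Real.log (T + 2) := Real.log_nonneg (by linarith)
    have e3 : (E * 4) * Real.log T ≤ T := by
      have : (E * 4) * (Real.log T / T) * T < 1 * T := by gcongr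
      have e : (E * 4) * (Real.log T / T) * T = (E * 4) * Real.log T := by field_simp
      linarith
    calc E * Real.log (T + 2) ^ 2 ≤ E * (2 * Real.log T) ^ 2 := by gcongr
      _ = ((E * 4) * Real.log T) * Real.log T := by ring
      _ ≤ T * Real.log T := by gcongr
  filter_upwards [h1 (2 * π * A) hS, hlog, eventually_ge_atTop T₂] with T hT1 hT2 hT3
  have hTe : Real.exp 1 ≤ T := hT₂.trans hT3
  have hTgt : 1 < T := (Real.one_lt_exp_iff.mpr one_pos).trans_le hTe
  have hL : 0 < Real.log T := Real.log_pos hTgt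
  have hT0 : 0 < T := by linarith
  have hNT : 0 < NT T := by unfold NT; positivity
  obtain ⟨hi, hT1⟩ := hT1
  change Integrable (fun p : ℂ × ℂ => tent (2 * π * A) (Real.log T * (p.1.im - p.2.im)) / (2 * π)) (nu T) at hi
  change |(∫ p, tent (2 * π * A) (Real.log T * (p.1.im - p.2.im)) / (2 * π) ∂(nu T)) -
      ((2 * π * A / (2 * π)) ^ 2 + Real.log (2 * π * A) / π ^ 2) * NT T| ≤ C₁ * (T * Real.log T) at hT1
  have hfin := (h2 T hT3 A hA0).2
  rw [layer_cake hL hA0 hi hfin] at hT1
  -- compare the two integrals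
  have hmonoS : Monotone fun u => (nu T) (SymSet T u) := fun u u' h => measure_mono (SymSet_mono T hL h)
  have hSi : IntervalIntegrable (fun u => ((nu T) (SymSet T u)).toReal) volume 0 A := by
    rw [intervalIntegrable_iff, uIoc_of_le hA0]
    apply Measure.integrableOn_of_bounded (M := ((nu T) (SymSet T A)).toReal) (by simp)
    · exact hmonoS.measurable.ennreal_toReal.aestronglyMeasurable
    · refine (ae_restrict_mem measurableSet_Ioc).mono fun u hu => ?_
      rw [Real.norm_of_nonneg ENNReal.toReal_nonneg]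
      exact ENNReal.toReal_mono hfin (hmonoS hu.2)
  have hmonoN : Monotone fun u => (nu T) (NSset T u) := by
    intro u u' h
    apply measure_mono
    intro p hp
    refine ⟨hp.1, hp.2.trans ?_⟩
    gcongr
  have hNi : IntervalIntegrable (fun u => Lr T u) volume 0 A := by
    rw [intervalIntegrable_iff, uIoc_of_le hA0]
    have hfN : (nu T) (NSset T A) ≠ ⊤ := ne_top_of_le_ne_top hfin (measure_mono (NSset_subset_SymSet T A))
    apply Measure.integrableOn_of_bounded (M := Lr T A) (by simp)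
    · unfold Lr
      exact (hmonoN.measurable.ennreal_toReal.div_const _).aestronglyMeasurable
    · refine (ae_restrict_mem measurableSet_Ioc).mono fun u hu => ?_
      unfold Lr
      rw [Real.norm_of_nonneg (by positivity)]
      have := ENNReal.toReal_mono hfN (hmonoN hu.2)
      gcongr
  have hJi : IntervalIntegrable (fun u => NT T * (2 * Lr T u + Mr T)) volume 0 A :=
    ((hNi.const_mul 2).add intervalIntegrable_const).const_mul _
  have hcmp : |(∫ u in (0 : ℝ)..A, ((nu T) (SymSet T u)).toReal) -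
      ∫ u in (0 : ℝ)..A, NT T * (2 * Lr T u + Mr T)| ≤ T * Real.log T := by
    rw [← intervalIntegral.integral_sub hSi hJi, ← Real.norm_eq_abs]
    have hb : ∀ u ∈ Set.uIoc (0:ℝ) A, ‖((nu T) (SymSet T u)).toReal - NT T * (2 * Lr T u + Mr T)‖ ≤
        C₂ * (1 + 2 * π * A) ^ 4 * Real.log (T + 2) ^ 2 := by
      intro u hu
      rw [uIoc_of_le hA0] at hu
      rw [Real.norm_eq_abs]
      refine (h2 T hT3 u hu.1.le).1.trans ?_
      have h0 := hu.1
      have := hu.2
      gcongr
    refine (intervalIntegral.norm_integral_le_of_norm_le_const hb).trans ?_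
    rw [sub_zero, abs_of_nonneg hA0]
    refine le_trans (le_of_eq ?_) hT2
    rw [hE]
    ring
  have hJ : ∫ u in (0 : ℝ)..A, NT T * (2 * Lr T u + Mr T) =
      NT T * (2 * (∫ u in (0 : ℝ)..A, Lr T u) + Mr T * A) := by
    rw [intervalIntegral.integral_const_mul, intervalIntegral.integral_add (hNi.const_mul 2)
      intervalIntegrable_const, intervalIntegral.integral_const_mul, intervalIntegral.integral_const]
    simp only [sub_zero, smul_eq_mul]
    ring
  rw [hJ] at hcmp
  have e1 : 2 * π * A / (2 * π) = A := by field_simp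
  rw [e1] at hT1
  set J : ℝ := ∫ u in (0 : ℝ)..A, Lr T u with hJdef
  have hX : T * Real.log T = 2 * π * NT T := by unfold NT; field_simp
  have h7 : |NT T * (2 * J + Mr T * A) - (A ^ 2 + Real.log (2 * π * A) / π ^ 2) * NT T| ≤
      (C₁ + 1) * (2 * π * NT T) := by
    rw [← hX]
    have e : NT T * (2 * J + Mr T * A) - (A ^ 2 + Real.log (2 * π * A) / π ^ 2) * NT T =
        ((∫ u in (0 : ℝ)..A, ((nu T) (SymSet T u)).toReal) -
          (A ^ 2 + Real.log (2 * π * A) / π ^ 2) * NT T) -
        ((∫ u in (0 : ℝ)..A, ((nu T) (SymSet T u)).toReal) - NT T * (2 * J + Mr T * A)) := by ring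
    rw [e]
    refine (abs_sub _ _).trans ?_
    linarith
  have e8 : NT T * (2 * J + Mr T * A) - (A ^ 2 + Real.log (2 * π * A) / π ^ 2) * NT T =
      (J + Mr T / 2 * A - A ^ 2 / 2 - Real.log (2 * π * A) / (2 * π ^ 2)) * (2 * NT T) := by
    field_simp
    ring
  rw [e8, abs_mul, abs_of_pos (by positivity : 0 < 2 * NT T)] at h7
  have h9 : |J + Mr T / 2 * A - A ^ 2 / 2 - Real.log (2 * π * A) / (2 * π ^ 2)| ≤ π * (C₁ + 1) := by
    have : |J + Mr T / 2 * A - A ^ 2 / 2 - Real.log (2 * π * A) / (2 * π ^ 2)| * (2 * NT T) ≤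
        (π * (C₁ + 1)) * (2 * NT T) := by linarith
    exact le_of_mul_le_mul_right this (by positivity)
  have e10 : Real.log (2 * π * A) = Real.log (2 * π) + Real.log A :=
    Real.log_mul (by positivity) (by positivity)
  have hl0 : 0 ≤ Real.log (2 * π) := (Real.log_pos (by have := Real.pi_gt_three; linarith)).le
  have e11 : J + Mr T / 2 * A - A ^ 2 / 2 - Real.log A / (2 * π ^ 2) =
      (J + Mr T / 2 * A - A ^ 2 / 2 - Real.log (2 * π * A) / (2 * π ^ 2)) +
        Real.log (2 * π) / (2 * π ^ 2) := by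
    rw [e10]; ring
  rw [e11]
  refine (abs_add_le _ _).trans ?_
  rw [abs_of_nonneg (by positivity : 0 ≤ Real.log (2 * π) / (2 * π ^ 2))]
  linarith

end Pool.Agent.PairCorr.P4
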