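import Mathlib
import Pool.Agent.PairCorr.T_Gue

/-!
The integral of the GUE prediction: `∫_0^A gue = A²/2 - A/2 + log A / (2π²) + O(1)`.
-/

set_option autoImplicit false

namespace Pool.Agent.PairCorr.P4

open MeasureTheory Filter Topology Set Real
open scoped FourierTransform

lemma sinc2_even (u : ℝ) : sinc2 (-u) = sinc2 u := by
  unfold sinc2
  rw [mul_neg, Real.sin_neg, neg_div_neg_eq]

lemma sinc2_le_inv (u : ℝ) : sinc2 u ≤ 2 * (1 + u ^ 2)⁻¹ := by
  by_cases hu : |u| ≤ 1
  · have h3 := sinc2_le_one u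
    have h4 : (1:ℝ) ≤ 2 * (1 + u ^ 2)⁻¹ := by
      rw [← div_eq_mul_inv, le_div_iff₀ (by positivity)]
      have : u ^ 2 ≤ 1 := by rwa [sq_le_one_iff_abs_le_one]
      linarith
    linarith
  · rw [not_le] at hu
    have h5 : 1 ≤ u ^ 2 := by
      rw [← sq_abs]
      nlinarith
    unfold sinc2
    rw [div_pow, ← div_eq_mul_inv]
    have h8 : 0 < (Real.pi * u) ^ 2 := by
      rw [mul_pow]
      have : 0 < u ^ 2 := by linarith
      positivity
    rw [div_le_div_iff₀ h8 (by positivity)]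
    have h6 : Real.sin (Real.pi * u) ^ 2 ≤ 1 := Real.sin_sq_le_one _
    have h7 : 1 ≤ Real.pi ^ 2 := by
      have := Real.pi_gt_three
      nlinarith
    calc Real.sin (Real.pi * u) ^ 2 * (1 + u ^ 2) ≤ 1 * (1 + u ^ 2) := by gcongr
      _ ≤ 2 * (1 * u ^ 2) := by linarith
      _ ≤ 2 * (Real.pi * u) ^ 2 := by
          rw [mul_pow]
          gcongr

lemma sinc2_le_inv_sq {u : ℝ} (hu : u ≠ 0) : sinc2 u ≤ (u ^ 2)⁻¹ := by
  unfold sinc2
  rw [div_pow, ← one_div]
  have h8 : 0 < (Real.pi * u) ^ 2 := by positivity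
  rw [div_le_div_iff₀ h8 (by positivity)]
  have h6 : Real.sin (Real.pi * u) ^ 2 ≤ 1 := Real.sin_sq_le_one _
  have h7 : 1 ≤ Real.pi ^ 2 := by
    have := Real.pi_gt_three
    nlinarith
  calc Real.sin (Real.pi * u) ^ 2 * u ^ 2 ≤ 1 * u ^ 2 := by gcongr
    _ ≤ Real.pi ^ 2 * u ^ 2 := by gcongr
    _ = 1 * (Real.pi * u) ^ 2 := by ring

lemma sinc2_integrable : Integrable sinc2 := by
  refine Integrable.mono' (integrable_inv_one_add_sq.const_mul 2) sinc2_meas.aestronglyMeasurable
    (Eventually.of_forall fun u => ?_)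
  rw [Real.norm_of_nonneg (sinc2_nonneg u)]
  exact sinc2_le_inv u

/-- the continuous version of the Fourier transform of the triangle -/
lemma fourier_tri {u : ℝ} (hu : u ≠ 0) : 𝓕 (fun v => (tri v : ℂ)) u = (sinc2 u : ℂ) := by
  rw [Real.fourier_real_eq_integral_exp_smul, ← tri_cos hu]
  have h1 : ∀ v : ℝ, Complex.exp (↑(-2 * π * v * u) * Complex.I) • (tri v : ℂ) =
      ((tri v * Real.cos (2 * π * u * v) : ℝ) : ℂ) -
        ((tri v * Real.sin (2 * π * u * v) : ℝ) : ℂ) * Complex.I := by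
    intro v
    rw [smul_eq_mul, Complex.exp_mul_I]
    have e : ((-2 * π * v * u : ℝ) : ℂ) = -((2 * π * u * v : ℝ) : ℂ) := by push_cast; ring
    rw [e, Complex.cos_neg, Complex.sin_neg, ← Complex.ofReal_cos, ← Complex.ofReal_sin]
    push_cast
    ring
  simp_rw [h1]
  have i1 : Integrable fun v : ℝ => tri v * Real.cos (2 * π * u * v) :=
    tri_integrable.mul_bdd (c := 1) (by fun_prop) (Eventually.of_forall fun v => by
      rw [Real.norm_eq_abs]; exact Real.abs_cos_le_one _)
  have i2 : Integrable fun v : ℝ => tri v * Real.sin (2 * π * u * v) :=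
    tri_integrable.mul_bdd (c := 1) (by fun_prop) (Eventually.of_forall fun v => by
      rw [Real.norm_eq_abs]; exact Real.abs_sin_le_one _)
  have hodd : ∫ v, tri v * Real.sin (2 * π * u * v) = 0 := by
    have := integral_neg_eq_self (fun v => tri v * Real.sin (2 * π * u * v)) volume
    have e : ∀ v : ℝ, tri (-v) * Real.sin (2 * π * u * -v) = -(tri v * Real.sin (2 * π * u * v)) := by
      intro v
      rw [tri_even, mul_neg, Real.sin_neg]
      ring
    simp_rw [e] at this
    rw [integral_neg] at this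
    linarith
  rw [integral_sub i1.ofReal (i2.ofReal.mul_const _), integral_mul_const, integral_complex_ofReal, integral_complex_ofReal,
    hodd]
  simp

theorem integral_sinc2 : ∫ u, sinc2 u = 1 := by
  have hc : Continuous fun v => (tri v : ℂ) := Complex.continuous_ofReal.comp tri_cont
  have hi : Integrable fun v => (tri v : ℂ) := tri_integrable.ofReal
  have hae : 𝓕 (fun v => (tri v : ℂ)) =ᵐ[volume] fun u => (sinc2 u : ℂ) := by
    have : ∀ᵐ u : ℝ, u ≠ 0 := by
      rw [ae_iff]
      simp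
    filter_upwards [this] with u hu
    exact fourier_tri hu
  have hf : Integrable (𝓕 (fun v => (tri v : ℂ))) := sinc2_integrable.ofReal.congr hae.symm
  have h := congrFun (Continuous.fourierInv_fourier_eq hc hi hf) 0
  rw [Real.fourierInv_eq'] at h
  simp only [inner_zero_right, mul_zero, Complex.ofReal_zero, zero_mul, Complex.exp_zero, one_smul] at h
  rw [integral_congr_ae hae, integral_complex_ofReal] at h
  have e : tri 0 = 1 := by unfold tri; simp
  rw [e] at h
  exact_mod_cast h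

lemma integral_sinc2_Ioi : ∫ u in Ioi (0:ℝ), sinc2 u = 1 / 2 := by
  have h := integral_comp_abs (f := sinc2)
  have e : ∀ u : ℝ, sinc2 |u| = sinc2 u := by
    intro u
    rcases abs_choice u with hv | hv
    · rw [hv]
    · rw [hv, sinc2_even]
  simp_rw [e] at h
  rw [integral_sinc2] at h
  linarith

/-- the tail of `sinc²` -/
lemma sinc2_tail {A : ℝ} (hA : 0 < A) : ∫ u in Ioi A, sinc2 u ≤ A⁻¹ := by
  have h1 : ∫ u in Ioi A, sinc2 u ≤ ∫ u in Ioi A, u ^ (-2 : ℝ) := by
    apply setIntegral_mono_on sinc2_integrable.integrableOn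
      (integrableOn_Ioi_rpow_of_lt (by norm_num) hA) measurableSet_Ioi
    intro u hu
    have hu0 : 0 < u := hA.trans hu
    refine (sinc2_le_inv_sq hu0.ne').trans (le_of_eq ?_)
    rw [Real.rpow_neg hu0.le]
    norm_num
  refine h1.trans (le_of_eq ?_)
  rw [integral_Ioi_rpow_of_lt (by norm_num) hA]
  norm_num
  rw [Real.rpow_neg hA.le, Real.rpow_one]

lemma gue_eq_tail {A : ℝ} (hA : 0 ≤ A) : gue A = A - 1 / 2 + ∫ u in Ioi A, sinc2 u := by
  rw [gue_eq, intervalIntegral.integral_sub intervalIntegrable_const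
    (sinc2_integrable.intervalIntegrable), intervalIntegral.integral_of_le hA]
  have h := setIntegral_union (μ := volume) (f := sinc2) (s := Ioc 0 A) (t := Ioi A)
    (Ioc_disjoint_Ioi le_rfl) measurableSet_Ioi sinc2_integrable.integrableOn sinc2_integrable.integrableOn
  rw [Ioc_union_Ioi_eq_Ioi hA, integral_sinc2_Ioi] at h
  have e : ∫ u in Ioc (0:ℝ) A, sinc2 u = 1 / 2 - ∫ u in Ioi A, sinc2 u := by linarith
  rw [intervalIntegral.integral_of_le hA, e]
  simp [hA]
  ring

/-- `∫_0^A t sinc²(t) dt` -/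
noncomputable def TS (A : ℝ) : ℝ := ∫ t in (0 : ℝ)..A, t * sinc2 t

lemma tsinc_eq {t : ℝ} (ht : t ≠ 0) : t * sinc2 t = (1 - Real.cos (2 * π * t)) / (2 * π ^ 2 * t) := by
  unfold sinc2
  have h4 : Real.cos (2 * π * t) = 1 - 2 * Real.sin (π * t) ^ 2 := by
    rw [show 2 * π * t = 2 * (π * t) by ring, Real.cos_two_mul, Real.sin_sq]; ring
  rw [h4]
  have := Real.pi_ne_zero
  field_simp
  ring

lemma tsinc_int (a b : ℝ) : IntervalIntegrable (fun t => t * sinc2 t) volume a b :=
  sinc2_integrable.intervalIntegrable.continuousOn_mul continuousOn_id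

lemma TS_hasDerivAt {A : ℝ} (hA : A ≠ 0) : HasDerivAt TS (A * sinc2 A) A := by
  apply intervalIntegral.integral_hasDerivAt_right (tsinc_int _ _)
  · exact ⟨univ, univ_mem, (measurable_id.mul sinc2_meas).aestronglyMeasurable⟩
  · exact continuousAt_id.mul (sinc2_contAt hA)

/-- `∫_0^A t sinc²(t) dt = log A / (2π²) + O(1)` -/
lemma TS_bound : ∃ C : ℝ, 0 < C ∧ ∀ A : ℝ, 1 ≤ A → |TS A - Real.log A / (2 * π ^ 2)| ≤ C := by
  have hpi := Real.pi_gt_three
  refine ⟨|TS 1| + 2, by positivity, fun A hA => ?_⟩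
  have key : ∀ ε : ℝ, (ε = 1 ∨ ε = -1) → ε * (TS A - Real.log A / (2 * π ^ 2)) ≤ |TS 1| + 2 := by
    intro ε hε
    have hε1 : |ε| = 1 := by rcases hε with rfl | rfl <;> simp
    have hU : ∀ x : ℝ, 0 < x → HasDerivAt (fun x => ε * (TS x - Real.log x / (2 * π ^ 2) +
        Real.sin (2 * π * x) / (4 * π ^ 3 * x)) + x⁻¹)
        (ε * (-(Real.sin (2 * π * x) / (4 * π ^ 3 * x ^ 2))) + -(x ^ 2)⁻¹) x := by
      intro x hx
      have d1 : HasDerivAt (fun x : ℝ => 2 * π * x) (2 * π) x := by
        simpa using (hasDerivAt_id x).const_mul (2 * π)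
      have d2 : HasDerivAt (fun x : ℝ => 4 * π ^ 3 * x) (4 * π ^ 3) x := by
        simpa using (hasDerivAt_id x).const_mul (4 * π ^ 3)
      have d3 := d1.sin.div d2 (by positivity)
      have h := ((((TS_hasDerivAt hx.ne').sub ((Real.hasDerivAt_log hx.ne').div_const (2 * π ^ 2))).add
        d3).const_mul ε).add (hasDerivAt_inv hx.ne')
      refine h.congr_deriv ?_
      rw [tsinc_eq hx.ne']
      field_simp
      ring
    have hanti : AntitoneOn (fun x => ε * (TS x - Real.log x / (2 * π ^ 2) +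
        Real.sin (2 * π * x) / (4 * π ^ 3 * x)) + x⁻¹) (Ici 1) := by
      apply antitoneOn_of_deriv_nonpos (convex_Ici 1)
      · intro x hx
        exact (hU x (by have : (1:ℝ) ≤ x := hx; linarith)).continuousAt.continuousWithinAt
      · intro x hx
        rw [interior_Ici] at hx
        exact (hU x (by have : (1:ℝ) < x := hx; linarith)).differentiableAt.differentiableWithinAt
      · intro x hx
        rw [interior_Ici] at hx
        have hx0 : 0 < x := by have : (1:ℝ) < x := hx; linarith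
        rw [(hU x hx0).deriv]
        have h2 : ε * (-(Real.sin (2 * π * x) / (4 * π ^ 3 * x ^ 2))) ≤ (x ^ 2)⁻¹ := by
          refine (le_abs_self _).trans ?_
          rw [abs_mul, hε1, one_mul, abs_neg, abs_div, abs_of_pos (by positivity : 0 < 4 * π ^ 3 * x ^ 2)]
          have h3 := Real.abs_sin_le_one (2 * π * x)
          rw [div_le_iff₀ (by positivity)]
          have h4 : (x ^ 2)⁻¹ * (4 * π ^ 3 * x ^ 2) = 4 * π ^ 3 := by field_simp
          rw [h4]
          have h5 : (1:ℝ) ≤ π ^ 3 := one_le_pow₀ (by linarith)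
          linarith
        linarith
    have h3 := hanti (show (1 : ℝ) ∈ Ici 1 from mem_Ici.mpr le_rfl) (show A ∈ Ici 1 from hA) hA
    simp only [Real.log_one, zero_div, sub_zero, inv_one, mul_one] at h3
    have e1 : Real.sin (2 * π) = 0 := Real.sin_two_pi
    rw [e1, zero_div, add_zero] at h3
    have h4 : ε * TS 1 ≤ |TS 1| := by
      refine (le_abs_self _).trans ?_
      rw [abs_mul, hε1, one_mul]
    have h5 : 0 ≤ A⁻¹ := by positivity
    have h6 : -(ε * (Real.sin (2 * π * A) / (4 * π ^ 3 * A))) ≤ 1 := by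
      refine (neg_le_abs _).trans ?_
      rw [abs_mul, hε1, one_mul, abs_div, abs_of_pos (by positivity : 0 < 4 * π ^ 3 * A)]
      have h3 := Real.abs_sin_le_one (2 * π * A)
      rw [div_le_one (by positivity)]
      have h5 : (1:ℝ) ≤ π ^ 3 := one_le_pow₀ (by linarith)
      nlinarith
    have e2 : ε * (TS A - Real.log A / (2 * π ^ 2) + Real.sin (2 * π * A) / (4 * π ^ 3 * A)) =
        ε * (TS A - Real.log A / (2 * π ^ 2)) + ε * (Real.sin (2 * π * A) / (4 * π ^ 3 * A)) := by ring
    rw [e2] at h3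
    linarith
  rw [abs_le]
  constructor
  · have := key (-1) (Or.inr rfl)
    linarith
  · have := key 1 (Or.inl rfl)
    linarith

/-- integration by parts -/
lemma gue_parts {A : ℝ} (hA : 0 ≤ A) : ∫ u in (0 : ℝ)..A, gue u = A * gue A - A ^ 2 / 2 + TS A := by
  have h := intervalIntegral.integral_mul_deriv_eq_deriv_mul_of_hasDeriv_right
    (u := fun x : ℝ => x) (v := gue) (u' := fun _ => (1:ℝ)) (v' := fun x => 1 - sinc2 x) (a := 0) (b := A)
    continuousOn_id gue_continuous.continuousOn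
    (fun x _ => (hasDerivAt_id x).hasDerivWithinAt)
    (fun x hx => by
      rw [min_eq_left hA, max_eq_right hA] at hx
      exact (gue_hasDerivAt hx.1.ne').hasDerivWithinAt)
    intervalIntegrable_const (one_sub_sinc2_intervalIntegrable _ _)
  simp only [gue_zero, mul_zero, sub_zero, one_mul] at h
  have e : ∫ x in (0:ℝ)..A, x * (1 - sinc2 x) = A ^ 2 / 2 - TS A := by
    have : ∀ x : ℝ, x * (1 - sinc2 x) = x - x * sinc2 x := fun x => by ring
    simp_rw [this]
    have hid : IntervalIntegrable (fun x : ℝ => x) volume 0 A := continuous_id.intervalIntegrable _ _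
    rw [intervalIntegral.integral_sub hid (tsinc_int _ _)]
    unfold TS
    simp
  rw [e] at h
  linarith

/-- the integral of the GUE prediction -/
theorem gue_integral : ∃ C : ℝ, 0 < C ∧ ∀ A : ℝ, 1 ≤ A →
    |(∫ u in (0 : ℝ)..A, gue u) - (A ^ 2 / 2 - A / 2 + Real.log A / (2 * π ^ 2))| ≤ C := by
  obtain ⟨C, hC, h⟩ := TS_bound
  refine ⟨C + 1, by positivity, fun A hA => ?_⟩
  have hA0 : 0 ≤ A := by linarith
  have h1 := h A hA
  have h2 := sinc2_tail (A := A) (by linarith)
  have h3 : 0 ≤ ∫ u in Ioi A, sinc2 u := integral_nonneg fun u => sinc2_nonneg u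
  rw [gue_parts hA0, gue_eq_tail hA0]
  have e : A * (A - 1 / 2 + ∫ u in Ioi A, sinc2 u) - A ^ 2 / 2 + TS A -
      (A ^ 2 / 2 - A / 2 + Real.log A / (2 * π ^ 2)) =
      (TS A - Real.log A / (2 * π ^ 2)) + A * ∫ u in Ioi A, sinc2 u := by ring
  rw [e]
  have h4 : |A * ∫ u in Ioi A, sinc2 u| ≤ 1 := by
    rw [abs_of_nonneg (by positivity)]
    calc A * ∫ u in Ioi A, sinc2 u ≤ A * A⁻¹ := by gcongr
      _ = 1 := mul_inv_cancel₀ (by linarith)
  exact (abs_add_le _ _).trans (add_le_add h1 h4)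

end Pool.Agent.PairCorr.P4
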