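import Mathlib
import Pool.Agent.PairCorr.R3_Gue
import Pool.Agent.PairCorr.P4_Final
import Pool.Agent.PairCorr.A_SimpleCrit
import Pool.Agent.PairCorr.A_Step1

/-!
The averaged pair correlation conjecture and simple critical zeros.
-/

set_option autoImplicit false

namespace Pool.Agent.PairCorr.R3

open MeasureTheory Filter Topology Set Real

/-- the integrated pair count compared with the GUE prediction -/
theorem Lr_gue_integral : ∃ C : ℝ, 0 < C ∧ ∀ A : ℝ, 1 ≤ A → ∀ᶠ T in atTop,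
    |(∫ u in (0 : ℝ)..A, (Lr T u - gue u)) + (Mr T - 1) / 2 * A| ≤ C := by
  obtain ⟨C₁, hC₁, h1⟩ := P4.Lr_integral_asymp
  obtain ⟨C₂, hC₂, h2⟩ := gue_integral
  refine ⟨C₁ + C₂, by positivity, fun A hA => ?_⟩
  filter_upwards [h1 A hA, eventually_ge_atTop (Real.exp 1)] with T hT hTe
  have hLi : IntervalIntegrable (Lr T) volume 0 A := (Lr_mono hTe).intervalIntegrable
  rw [intervalIntegral.integral_sub hLi (gue_continuous.intervalIntegrable _ _)]
  have e : (∫ u in (0 : ℝ)..A, Lr T u) - (∫ u in (0 : ℝ)..A, gue u) + (Mr T - 1) / 2 * A =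
      ((∫ u in (0 : ℝ)..A, Lr T u) + Mr T / 2 * A - A ^ 2 / 2 - Real.log A / (2 * π ^ 2)) -
      ((∫ u in (0 : ℝ)..A, gue u) - (A ^ 2 / 2 - A / 2 + Real.log A / (2 * π ^ 2))) := by ring
  rw [e]
  exact (abs_sub _ _).trans (add_le_add hT (h2 A hA))

/-- the proportion of simple critical zeros is bounded below by the average deviation -/
theorem Nsc_lower : ∃ C : ℝ, 0 < C ∧ ∀ A : ℝ, 1 ≤ A → ∀ᶠ T in atTop,
    1 + 2 / A * (∫ u in (0 : ℝ)..A, (Lr T u - gue u)) - C / A ≤ Nsc T / NT T := by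
  obtain ⟨C, hC, h⟩ := Lr_gue_integral
  refine ⟨2 * C + 1, by positivity, fun A hA => ?_⟩
  have hA0 : 0 < A := by linarith
  have hr := NCount_NT.eventually (lt_mem_nhds (show 1 - 1 / (2 * A) < 1 by
    have : 0 < 1 / (2 * A) := by positivity
    linarith))
  filter_upwards [h A hA, eventually_ge_atTop (Real.exp 1), hr] with T hT hTe hrT
  have hT0 : 0 < T := (Real.exp_pos 1).trans_le hTe
  have hL1 : 1 ≤ Real.log T := by rw [Real.le_log_iff_exp_le hT0]; exact hTe
  have hNT := NT_pos hL1 hT0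
  have h1 : (NCount T + badm T) / NT T ≤ Mr T := by
    unfold Mr
    exact div_le_div_of_nonneg_right (diag_ge' T) hNT.le
  have h2 : Nsc T / NT T = 2 * (NCount T / NT T) - (NCount T + badm T) / NT T := by
    rw [Nsc_eq]; ring
  rw [h2]
  have h3 := (abs_le.mp hT).2
  set J := ∫ u in (0 : ℝ)..A, (Lr T u - gue u) with hJ
  have h4 : (Mr T - 1) * A ≤ 2 * C - 2 * J := by linarith
  have h5 : Mr T - 1 ≤ (2 * C - 2 * J) / A := by rw [le_div_iff₀ hA0]; exact h4
  have e1 : 2 / A * J = 2 * J / A := by ring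
  have e2 : (2 * C - 2 * J) / A = 2 * C / A - 2 * J / A := by ring
  have e3 : (2 * C + 1) / A = 2 * C / A + 1 / A := by ring
  have e4 : 2 * (1 / (2 * A)) = 1 / A := by field_simp
  rw [e1, e3]
  rw [e2] at h5
  linarith

/-- the equivalence -/
theorem mean_iff {l : Filter ℝ} (hl : l ≤ atTop) :
    List.TFAE [Tendsto (fun T => Nsc T / NT T) l (𝓝 1),
      ∃ C : ℝ, ∀ A : ℝ, 1 ≤ A → ∀ᶠ T in l, |∫ u in (0 : ℝ)..A, (Lr T u - gue u)| ≤ C,
      ∀ ε : ℝ, 0 < ε → ∀ X : ℝ, ∃ A : ℝ, X ≤ A ∧ 0 < A ∧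
        ∀ᶠ T in l, -ε ≤ 1 / A * ∫ u in (0 : ℝ)..A, (Lr T u - gue u)] := by
  obtain ⟨C, hC, h⟩ := Lr_gue_integral
  tfae_have 1 → 2 := by
    intro h1
    rw [← Mr_tendsto_iff_Nsc hl] at h1
    refine ⟨C + 1, fun A hA => ?_⟩
    have hA0 : 0 < A := by linarith
    have h2 : ∀ᶠ T in l, |Mr T - 1| < 1 / A := by
      have := (Metric.tendsto_nhds.1 h1) (1 / A) (by positivity)
      simpa [Real.dist_eq] using this
    filter_upwards [hl (h A hA), h2] with T hT hM
    set J := ∫ u in (0 : ℝ)..A, (Lr T u - gue u) with hJ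
    have e : J = (J + (Mr T - 1) / 2 * A) - (Mr T - 1) / 2 * A := by ring
    rw [e]
    refine (abs_sub _ _).trans (add_le_add hT ?_)
    rw [abs_mul, abs_div, abs_of_pos hA0, abs_of_pos (by norm_num : (0:ℝ) < 2)]
    rw [lt_div_iff₀ hA0] at hM
    linarith [abs_nonneg (Mr T - 1), mul_nonneg (abs_nonneg (Mr T - 1)) hA0.le]
  tfae_have 2 → 3 := by
    rintro ⟨C', h2⟩ ε hε X
    refine ⟨max X (max 1 (|C'| / ε)), le_max_left _ _, ?_, ?_⟩
    · exact lt_of_lt_of_le one_pos ((le_max_left _ _).trans (le_max_right _ _))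
    · set A := max X (max 1 (|C'| / ε)) with hA
      have hA1 : 1 ≤ A := (le_max_left _ _).trans (le_max_right _ _)
      have hA0 : 0 < A := by linarith
      have hA2 : |C'| / ε ≤ A := (le_max_right _ _).trans (le_max_right _ _)
      filter_upwards [h2 A hA1] with T hT
      have h3 := (abs_le.mp hT).1
      rw [div_le_iff₀ hε] at hA2
      have h4 : -(A * ε) ≤ ∫ u in (0 : ℝ)..A, (Lr T u - gue u) := by
        linarith [le_abs_self C']
      have h5 := mul_le_mul_of_nonneg_left h4 (by positivity : 0 ≤ 1 / A)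
      have e : 1 / A * -(A * ε) = -ε := by field_simp
      rw [e] at h5
      exact h5
  tfae_have 3 → 1 := by
    intro h3
    rw [← Mr_tendsto_iff_Nsc hl]
    rw [Metric.tendsto_nhds]
    intro ε hε
    obtain ⟨A, hXA, hA0, hA⟩ := h3 (ε / 8) (by positivity) (max 1 (8 * C / ε))
    have hA1 : 1 ≤ A := (le_max_left _ _).trans hXA
    have hA2 : 8 * C / ε ≤ A := (le_max_right _ _).trans hXA
    have hr := NCount_NT.eventually (lt_mem_nhds (show 1 - ε / 2 < 1 by linarith))
    filter_upwards [hA, hl (h A hA1), hl (eventually_ge_atTop (Real.exp 1)), hl hr] with T hT hTC hTe hrT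
    have h4 := Mr_ge_ratio hTe
    have h5 := (abs_le.mp hTC).2
    set J := ∫ u in (0 : ℝ)..A, (Lr T u - gue u) with hJ
    have h6 : -(ε / 8) * A ≤ J := by
      have := mul_le_mul_of_nonneg_right hT hA0.le
      have e : 1 / A * J * A = J := by field_simp
      rw [e] at this
      exact this
    rw [div_le_iff₀ hε] at hA2
    have h7 : (Mr T - 1) * A ≤ (ε / 2) * A := by linarith
    have h8 : Mr T - 1 ≤ ε / 2 := le_of_mul_le_mul_right h7 hA0
    rw [Real.dist_eq, abs_lt]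
    constructor <;> linarith
  tfae_finish

end Pool.Agent.PairCorr.R3
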